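import Pool.Agent.Work.MP_4b551e_an.Stmts35

/-! Bundle of small proof modules (one section per former module). -/

section

set_option autoImplicit false

open MeasureTheory Set Metric
open scoped ENNReal NNReal Pointwise RealInnerProductSpace

namespace Pool.Agent.Robin

theorem A1_rayleigh (k A : ℝ) (Ω : Set E2) (hb : Bornology.IsBounded Ω) (hA : 0 < A)
    (hm : MeasurableSet Ω) (hv : volume Ω = ENNReal.ofReal A) (u : E2 → ℝ) (K : ℝ≥0)
    (hK : LipschitzWith K u) (h1 : ∀ x, 1 ≤ u x) :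
    A ≤ ∫ x in Ω, (u x) ^ 2 ∧
    rayleigh (-1) Ω u = Qk k Ω u / (∫ x in Ω, (u x) ^ 2) - k ^ 2 := by
  have hfin : volume Ω ≠ ⊤ := by
    rw [hv]
    exact ENNReal.ofReal_ne_top
  haveI : IsFiniteMeasure (volume.restrict Ω) := ⟨by
    rw [Measure.restrict_apply_univ]
    exact hfin.lt_top⟩
  obtain ⟨R, hR⟩ := hb.subset_closedBall (0 : E2)
  have hbd : ∀ x ∈ Ω, |u x| ≤ |u 0| + K * R := by
    intro x hx
    have h2 := hK.dist_le_mul x 0
    have h3 : dist x 0 ≤ R := mem_closedBall.1 (hR hx)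
    have h4 : |u x| - |u 0| ≤ |u x - u 0| := abs_sub_abs_le_abs_sub _ _
    rw [Real.dist_eq] at h2
    have h5 : (K : ℝ) * dist x 0 ≤ K * R := mul_le_mul_of_nonneg_left h3 K.coe_nonneg
    linarith
  have hint2 : Integrable (fun x => (u x) ^ 2) (volume.restrict Ω) := by
    refine Integrable.of_bound (hK.continuous.pow 2).aestronglyMeasurable ((|u 0| + K * R) ^ 2) ?_
    refine (ae_restrict_iff' hm).2 (Filter.Eventually.of_forall fun x hx => ?_)
    rw [Real.norm_eq_abs, abs_pow]
    exact pow_le_pow_left₀ (abs_nonneg _) (hbd x hx) 2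
  have hintd : Integrable (fun x => ‖fderiv ℝ u x‖ ^ 2) (volume.restrict Ω) := by
    refine Integrable.of_bound ((measurable_fderiv ℝ u).norm.pow_const 2).aestronglyMeasurable
      ((K : ℝ) ^ 2) ?_
    refine Filter.Eventually.of_forall fun x => ?_
    rw [Real.norm_eq_abs, abs_pow, abs_norm]
    exact pow_le_pow_left₀ (norm_nonneg _) (norm_fderiv_le_of_lipschitz ℝ hK) 2
  have hA2 : A ≤ ∫ x in Ω, (u x) ^ 2 := by
    have h2 : ∫ x in Ω, (1 : ℝ) = A := by
      rw [setIntegral_const, measureReal_def, hv, ENNReal.toReal_ofReal hA.le, smul_eq_mul,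
        mul_one]
    rw [← h2]
    refine integral_mono (integrable_const _) hint2 fun x => ?_
    have h3 := h1 x
    simp only
    nlinarith
  refine ⟨hA2, ?_⟩
  have hpos : (∫ x in Ω, (u x) ^ 2) ≠ 0 := by linarith
  unfold rayleigh Qk en
  rw [integral_add hintd (hint2.const_mul _), integral_const_mul]
  field_simp
  ring

theorem prf_A1 : S_A1 := by
  intro k A Ω hΩ hA hv h
  by_contra hlt
  rw [not_le] at hlt
  obtain ⟨q, hq1, hq2⟩ := EReal.lt_iff_exists_real_btwn.1 hlt
  have hq3 : -(k ^ 2) < q := EReal.coe_lt_coe_iff.1 hq1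
  obtain ⟨u, ⟨K, hK⟩, h1, hQ⟩ := h ((q + k ^ 2) * A) (mul_pos (by linarith) hA)
  obtain ⟨h2, h3⟩ := A1_rayleigh k A Ω hΩ.isBounded hA hΩ.isOpen.measurableSet hv u K hK h1
  have h4 : lam (-1) Ω ≤ ((rayleigh (-1) Ω u : ℝ) : EReal) := by
    unfold lam
    refine iInf_le_of_le u (iInf_le_of_le ⟨K, hK⟩ (iInf_le_of_le (by linarith) le_rfl))
  have h5 : rayleigh (-1) Ω u ≤ q := by
    rw [h3]
    have h6 : Qk k Ω u / (∫ x in Ω, (u x) ^ 2) ≤ q + k ^ 2 := by
      rw [div_le_iff₀ (by linarith)]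
      have h7 : 0 ≤ q + k ^ 2 := by linarith
      nlinarith
    linarith
  have h6 : lam (-1) Ω ≤ (q : EReal) := h4.trans (EReal.coe_le_coe_iff.2 h5)
  exact absurd hq2 (not_lt.2 h6)

end Pool.Agent.Robin

end

section

/-!
# A2: scaling of the Rayleigh quotient
-/

open MeasureTheory Set Metric
open scoped ENNReal NNReal Pointwise

namespace Pool.Agent.Robin

namespace PfA2

theorem frontier_smul {t : ℝ} (ht : t ≠ 0) (Ω : Set E2) : frontier (t • Ω) = t • frontier Ω :=
  ((Homeomorph.smulOfNeZero t ht).image_frontier Ω).symm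

theorem vol_smul {t : ℝ} (ht : 0 < t) (Ω : Set E2) (F : E2 → ℝ) :
    ∫ x in t • Ω, F (t⁻¹ • x) = t ^ 2 * ∫ x in Ω, F x := by
  have h := Measure.setIntegral_comp_smul_of_pos (volume : Measure E2)
    (fun x => F (t⁻¹ • x)) Ω ht
  have h1 : ∀ x : E2, t⁻¹ • t • x = x := fun x => by
    rw [smul_smul, inv_mul_cancel₀ ht.ne', one_smul]
  simp only [h1] at h
  rw [h, finrank_euclideanSpace_fin, smul_eq_mul, ← mul_assoc,
    mul_inv_cancel₀ (by positivity), one_mul]

theorem map_hausdorff {t : ℝ} (ht : 0 < t) :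
    Measure.map (fun x : E2 => t • x) (μH[1] : Measure E2) =
      (ENNReal.ofReal t⁻¹) • (μH[1] : Measure E2) := by
  ext s hs
  have hm : Measurable (fun x : E2 => t • x) := measurable_const_smul t
  rw [Measure.map_apply hm hs, Measure.smul_apply, smul_eq_mul]
  have h1 : (fun x : E2 => t • x) ⁻¹' s = t⁻¹ • s := by
    rw [Set.preimage_smul₀ ht.ne']
  rw [h1, Measure.hausdorffMeasure_smul₀ zero_le_one (inv_ne_zero ht.ne')]
  rw [NNReal.rpow_one, ENNReal.smul_def, smul_eq_mul]
  congr 1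
  rw [ENNReal.ofReal, ENNReal.coe_inj]
  ext
  rw [coe_nnnorm, Real.norm_of_nonneg (inv_pos.2 ht).le, Real.coe_toNNReal _ (inv_pos.2 ht).le]

theorem bd_smul {t : ℝ} (ht : 0 < t) (S : Set E2) (F : E2 → ℝ) :
    ∫ x in t • S, F (t⁻¹ • x) ∂(μH[1]) = t * ∫ x in S, F x ∂(μH[1]) := by
  have hemb : MeasurableEmbedding (fun x : E2 => t • x) :=
    (Homeomorph.smulOfNeZero t ht.ne').measurableEmbedding
  have h := hemb.setIntegral_map (μ := (μH[1] : Measure E2)) (fun x => F (t⁻¹ • x)) (t • S)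
  have h1 : ∀ x : E2, t⁻¹ • t • x = x := fun x => by
    rw [smul_smul, inv_mul_cancel₀ ht.ne', one_smul]
  have h2 : (fun x : E2 => t • x) ⁻¹' (t • S) = S := by
    rw [Set.preimage_smul₀ ht.ne', smul_smul, inv_mul_cancel₀ ht.ne', one_smul]
  simp only [h1] at h
  rw [h2, map_hausdorff ht, Measure.restrict_smul, integral_smul_measure,
    ENNReal.toReal_ofReal (inv_pos.2 ht).le, smul_eq_mul] at h
  rw [← h, ← mul_assoc, mul_inv_cancel₀ ht.ne', one_mul]

end PfA2

theorem prf_A2 : S_A2 := by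
  intro t Ω u ht _
  unfold rayleigh
  have h1 : ∀ x : E2, ‖fderiv ℝ (fun x => u (t⁻¹ • x)) x‖ ^ 2 =
      (fun y => t⁻¹ ^ 2 * ‖fderiv ℝ u y‖ ^ 2) (t⁻¹ • x) := by
    intro x
    have h2 : fderiv ℝ (fun x => u (t⁻¹ • x)) x = t⁻¹ • fderiv ℝ u (t⁻¹ • x) :=
      fderiv_comp_smul t⁻¹
    rw [h2, norm_smul, mul_pow, Real.norm_of_nonneg (inv_pos.2 ht).le]
  simp_rw [h1]
  rw [PfA2.vol_smul ht Ω (fun y => t⁻¹ ^ 2 * ‖fderiv ℝ u y‖ ^ 2), integral_const_mul,
    PfA2.vol_smul ht Ω (fun y => (u y) ^ 2), PfA2.frontier_smul ht.ne',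
    PfA2.bd_smul ht (frontier Ω) (fun y => (u y) ^ 2)]
  have e : t ^ 2 * (t⁻¹ ^ 2 * ∫ x in Ω, ‖fderiv ℝ u x‖ ^ 2) = ∫ x in Ω, ‖fderiv ℝ u x‖ ^ 2 := by
    rw [← mul_assoc, ← mul_pow, mul_inv_cancel₀ ht.ne', one_pow, one_mul]
  rw [e]
  by_cases hD : ∫ x in Ω, (u x) ^ 2 = 0
  · rw [hD, mul_zero, div_zero, div_zero, mul_zero]
  · have ht2 : t ≠ 0 := ht.ne'
    field_simp

end Pool.Agent.Robin

end

section

/-!
# A3: admissible sets are invariant under scaling
-/

open MeasureTheory Set Metric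
open scoped ENNReal NNReal Pointwise

namespace Pool.Agent.Robin

theorem pfA3_frontier_smul {t : ℝ} (ht : t ≠ 0) (Ω : Set E2) : frontier (t • Ω) = t • frontier Ω :=
  ((Homeomorph.smulOfNeZero t ht).image_frontier Ω).symm

theorem prf_A3 : S_A3 := by
  intro t Ω ht hΩ
  have ht0 : t ≠ 0 := ht.ne'
  refine ⟨hΩ.isOpen.smul₀ ht0, ?_, hΩ.isBounded.smul₀ t, ?_⟩
  · have := hΩ.isConnected.image (fun x : E2 => t • x) (continuous_const_smul t).continuousOn
    exact this
  · intro p hp
    rw [pfA3_frontier_smul ht0] at hp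
    have hp' : t⁻¹ • p ∈ frontier Ω := (Set.mem_smul_set_iff_inv_smul_mem₀ ht0 _ _).1 hp
    obtain ⟨L, f, K, a, b, ha, hb, hf, hch⟩ := hΩ.lip _ hp'
    refine ⟨L, fun s => t * f (t⁻¹ * s), K, t * a, t * b, by positivity, by positivity, ?_, ?_⟩
    · apply LipschitzWith.of_dist_le_mul
      intro x y
      have h1 := hf.dist_le_mul (t⁻¹ * x) (t⁻¹ * y)
      rw [Real.dist_eq, Real.dist_eq] at h1 ⊢
      rw [← mul_sub, abs_mul, abs_of_pos ht]
      rw [← mul_sub, abs_mul, abs_of_pos (inv_pos.2 ht)] at h1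
      calc t * |f (t⁻¹ * x) - f (t⁻¹ * y)| ≤ t * (K * (t⁻¹ * |x - y|)) :=
            mul_le_mul_of_nonneg_left h1 ht.le
        _ = K * |x - y| := by field_simp
    · intro x hx0 hx1
      have e : L (t⁻¹ • x - t⁻¹ • p) = t⁻¹ • L (x - p) := by
        rw [← smul_sub, map_smul]
      have e0 : (L (t⁻¹ • x - t⁻¹ • p)) 0 = t⁻¹ * (L (x - p)) 0 := by rw [e]; rfl
      have e1 : (L (t⁻¹ • x - t⁻¹ • p)) 1 = t⁻¹ * (L (x - p)) 1 := by rw [e]; rfl
      have h0 : |(L (t⁻¹ • x - t⁻¹ • p)) 0| < a := by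
        rw [e0, abs_mul, abs_of_pos (inv_pos.2 ht), inv_mul_lt_iff₀ ht]
        exact hx0
      have h1 : |(L (t⁻¹ • x - t⁻¹ • p)) 1| < b := by
        rw [e1, abs_mul, abs_of_pos (inv_pos.2 ht), inv_mul_lt_iff₀ ht]
        exact hx1
      rw [Set.mem_smul_set_iff_inv_smul_mem₀ ht0, hch _ h0 h1, e0, e1, inv_mul_lt_iff₀ ht]

end Pool.Agent.Robin

end

section

set_option autoImplicit false

open MeasureTheory Set Metric
open scoped ENNReal NNReal Pointwise RealInnerProductSpace

namespace Pool.Agent.Robin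

theorem prf_A5 : S_A5 := by
  intro r R hr hR
  have e1 : annulus r R = ball (0 : E2) R \ closedBall (0 : E2) r := by
    ext x
    simp only [annulus, mem_ofPred_eq, mem_sdiff, mem_ball, mem_closedBall, dist_zero_right, not_le]
    exact and_comm
  by_cases h : r = R
  · subst h
    have e2 : annulus r r = ∅ := by
      ext x
      simp only [annulus, mem_ofPred_eq, mem_empty_iff_false, iff_false, not_and, not_lt]
      intro h
      exact h.le
    rw [e2]
    simp
  · have hlt : r < R := lt_of_le_of_ne hR h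
    have hsub : closedBall (0 : E2) r ⊆ ball (0 : E2) R := closedBall_subset_ball hlt
    rw [e1, measure_sdiff hsub isClosed_closedBall.measurableSet.nullMeasurableSet
      (by
        rw [EuclideanSpace.volume_closedBall_fin_two]
        exact ENNReal.mul_ne_top (ENNReal.pow_ne_top ENNReal.ofReal_ne_top) ENNReal.ofReal_ne_top),
      EuclideanSpace.volume_closedBall_fin_two, EuclideanSpace.volume_ball_fin_two]
    rw [← ENNReal.ofReal_pow (hr.trans hR), ← ENNReal.ofReal_pow hr,
      ← ENNReal.ofReal_mul (by positivity), ← ENNReal.ofReal_mul (by positivity),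
      ← ENNReal.ofReal_sub _ (by positivity)]
    congr 1
    ring

end Pool.Agent.Robin

end

section

set_option autoImplicit false

open MeasureTheory Set Metric
open scoped ENNReal NNReal Pointwise RealInnerProductSpace

namespace Pool.Agent.Robin

theorem A6_pos (t : ℝ) (ht : 0 < t) (Ω : Set E2) (v : E2 → ℝ) :
    (0 < ∫ x in Ω, (v (t • x)) ^ 2) ↔ 0 < ∫ x in t • Ω, (v x) ^ 2 := by
  have h := Measure.setIntegral_comp_smul (volume : Measure E2) (fun x => (v x) ^ 2) Ω ht.ne'
  rw [h, smul_eq_mul]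
  have h2 : 0 < |(t ^ Module.finrank ℝ E2)⁻¹| := by positivity
  exact mul_pos_iff_of_pos_left h2

theorem A6_lip_comp (v : E2 → ℝ) (t : ℝ) (h : ∃ K : ℝ≥0, LipschitzWith K v) :
    ∃ K : ℝ≥0, LipschitzWith K fun x : E2 => v (t • x) := by
  obtain ⟨K, hK⟩ := h
  exact ⟨K * ‖t‖₊, hK.comp (lipschitzWith_smul t)⟩

theorem A6_annulus (t r R : ℝ) (ht : 0 < t) : annulus r R = t • annulus (r / t) (R / t) := by
  ext x
  rw [Set.mem_smul_set_iff_inv_smul_mem₀ ht.ne']
  simp only [annulus, mem_ofPred_eq, norm_smul, norm_inv, Real.norm_eq_abs, abs_of_pos ht]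
  rw [div_lt_iff₀ ht, lt_div_iff₀ ht]
  have e : t⁻¹ * ‖x‖ * t = ‖x‖ := by field_simp
  rw [e]

theorem A6_lam (h2 : S_A2) (t : ℝ) (ht : 0 < t) (Ω Ω' : Set E2)
    (h : lam (-1) (t • Ω) ≤ lam (-1) (t • Ω')) : lam (-t) Ω ≤ lam (-t) Ω' := by
  have ht2 : 0 < t ^ 2 := by positivity
  conv_rhs => unfold lam
  refine le_iInf fun u => le_iInf fun hu => le_iInf fun hpos => ?_
  by_contra hlt
  rw [not_le] at hlt
  obtain ⟨q, hq1, hq2⟩ := EReal.lt_iff_exists_real_btwn.1 hlt
  have hq3 : rayleigh (-t) Ω' u < q := EReal.coe_lt_coe_iff.1 hq1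
  rw [h2 t Ω' u ht hu] at hq3
  have hu' := A6_lip_comp u t⁻¹ hu
  have hpos' : 0 < ∫ x in t • Ω', (u (t⁻¹ • x)) ^ 2 := by
    refine (A6_pos t ht Ω' (fun x => u (t⁻¹ • x))).1 ?_
    simp only [inv_smul_smul₀ ht.ne']
    exact hpos
  have h3 : lam (-1) (t • Ω') ≤ ((rayleigh (-1) (t • Ω') (fun x => u (t⁻¹ • x)) : ℝ) : EReal) := by
    unfold lam
    exact iInf_le_of_le _ (iInf_le_of_le hu' (iInf_le_of_le hpos' le_rfl))
  have h4 : lam (-1) (t • Ω) < ((q / t ^ 2 : ℝ) : EReal) := by
    refine lt_of_le_of_lt (h.trans h3) (EReal.coe_lt_coe_iff.2 ?_)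
    rw [lt_div_iff₀ ht2, mul_comm]
    exact hq3
  unfold lam at h4
  obtain ⟨v, h4⟩ := iInf_lt_iff.1 h4
  obtain ⟨hv, h4⟩ := iInf_lt_iff.1 h4
  obtain ⟨hvpos, h4⟩ := iInf_lt_iff.1 h4
  have h5 := EReal.coe_lt_coe_iff.1 h4
  rw [lt_div_iff₀ ht2] at h5
  have hw := A6_lip_comp v t hv
  have h6 := h2 t Ω (fun x => v (t • x)) ht hw
  simp only [smul_inv_smul₀ ht.ne'] at h6
  have h7 : lam (-t) Ω ≤ ((rayleigh (-t) Ω (fun x => v (t • x)) : ℝ) : EReal) := by
    unfold lam
    exact iInf_le_of_le _ (iInf_le_of_le hw (iInf_le_of_le ((A6_pos t ht Ω v).2 hvpos) le_rfl))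
  have h8 : lam (-t) Ω ≤ ((q : ℝ) : EReal) := by
    refine h7.trans (EReal.coe_le_coe_iff.2 ?_)
    rw [h6]
    linarith
  exact absurd hq2 (not_lt.2 h8)

theorem prf_A6 (h2 : S_A2) (h3 : S_A3) (h4 : S_A4) (h5 : S_A5) : S_A6 := by
  rintro ⟨A0, hA0, hmain⟩ A hA
  refine ⟨-Real.sqrt (A0 / A), by
    rw [neg_lt_zero]
    exact Real.sqrt_pos.2 (by positivity), fun α hα => ?_⟩
  obtain ⟨t, rfl⟩ : ∃ t, α = -t := ⟨-α, (neg_neg α).symm⟩
  have ht1 : Real.sqrt (A0 / A) < t := by linarith
  have ht : 0 < t := lt_of_le_of_lt (Real.sqrt_nonneg _) ht1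
  have ht2 : A0 ≤ t ^ 2 * A := by
    have q1 : A0 / A < t ^ 2 := (Real.sqrt_lt' ht).1 ht1
    rw [div_lt_iff₀ hA] at q1
    exact q1.le
  obtain ⟨r, R, hr, hrR, hvol, hbest⟩ := hmain (t ^ 2 * A) ht2
  have hr' : 0 < r / t := by positivity
  have hrR' : r / t < R / t := (div_lt_div_iff_of_pos_right ht).2 hrR
  refine ⟨r / t, R / t, hr', hrR', h4 _ _ hr' hrR', ?_, fun Ω hΩ hΩv => ?_⟩
  · rw [h5 _ _ hr'.le hrR'.le]
    rw [h5 _ _ hr.le hrR.le] at hvol
    congr 1
    have q1 : Real.pi * (R ^ 2 - r ^ 2) = t ^ 2 * A := by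
      have q2 := congrArg ENNReal.toReal hvol
      rw [ENNReal.toReal_ofReal (by
        have : 0 ≤ R ^ 2 - r ^ 2 := by nlinarith
        positivity), ENNReal.toReal_ofReal (by positivity)] at q2
      exact q2
    field_simp
    linarith
  · refine A6_lam h2 t ht _ _ ?_
    rw [← A6_annulus t r R ht]
    refine hbest _ (h3 t Ω ht hΩ) ?_
    rw [Measure.addHaar_smul, hΩv, finrank_euclideanSpace_fin, ← ENNReal.ofReal_mul (abs_nonneg _),
      abs_of_pos (by positivity)]

end Pool.Agent.Robin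

end

section

/-!
# Characterisation of `b0` by surjective locally constant maps (helper7)
-/

namespace Pool.Agent.Robin

open Function

lemma le_b0_of_surj {X : Type} [TopologicalSpace X] {m : ℕ} (F : LocallyConstant X (Fin m))
    (hF : Surjective F) : (m : ℕ∞) ≤ b0 X := by
  unfold b0
  rw [Cardinal.natCast_le_toENat]
  have hli : LinearIndependent (ZMod 2)
      (fun i : Fin m => F.map (fun j => if j = i then (1 : ZMod 2) else 0)) := by
    rw [Fintype.linearIndependent_iff]
    intro g hg i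
    obtain ⟨x, hx⟩ := hF i
    have h := congrArg (fun f : LocallyConstant X (ZMod 2) => f x) hg
    have h2 : ∀ (s : Finset (Fin m)), (∑ i ∈ s, g i • F.map (fun j => if j = i then (1 : ZMod 2)
        else 0)) x = ∑ i ∈ s, g i * (if F x = i then 1 else 0) := by
      intro s
      induction s using Finset.induction_on with
      | empty => simp
      | insert a s ha ih =>
        rw [Finset.sum_insert ha, Finset.sum_insert ha, LocallyConstant.coe_add, Pi.add_apply, ih]
        rfl
    rw [h2] at h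
    simpa [hx] using h
  have := hli.cardinal_le_rank
  simpa using this

lemma exists_surj_of_le_b0 {X : Type} [TopologicalSpace X] {m : ℕ} (hm : 0 < m)
    (h : (m : ℕ∞) ≤ b0 X) : ∃ F : LocallyConstant X (Fin m), Surjective F := by
  classical
  unfold b0 at h
  rw [Cardinal.natCast_le_toENat, le_rank_iff_exists_linearIndependent_finset] at h
  obtain ⟨s, hs, hli⟩ := h
  let F₀ : LocallyConstant X (s → ZMod 2) := LocallyConstant.unflip fun f : s => f.1
  have hF₀ : ∀ x f, F₀ x f = f.1 x := fun x f => rfl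
  let R := Set.range F₀
  have : Fintype R := Fintype.ofFinite _
  let T : (s → ZMod 2) →ₗ[ZMod 2] (R → ZMod 2) :=
    { toFun := fun a r => ∑ f, a f * r.1 f
      map_add' := by
        intro a b
        funext r
        simp only [Pi.add_apply, add_mul, Finset.sum_add_distrib]
      map_smul' := by
        intro c a
        funext r
        simp only [Pi.smul_apply, smul_eq_mul, RingHom.id_apply, Finset.mul_sum, mul_assoc] }
  have hT : Injective T := by
    rw [injective_iff_map_eq_zero]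
    intro a ha
    have h1 : ∑ f : s, a f • (f.1 : LocallyConstant X (ZMod 2)) = 0 := by
      ext x
      have h2 : ∀ (t : Finset s), (∑ f ∈ t, a f • (f.1 : LocallyConstant X (ZMod 2))) x =
          ∑ f ∈ t, a f * f.1 x := by
        intro t
        induction t using Finset.induction_on with
        | empty => simp
        | insert b t hb ih =>
          rw [Finset.sum_insert hb, Finset.sum_insert hb, LocallyConstant.coe_add, Pi.add_apply, ih]
          rfl
      rw [h2]
      have h3 := congrFun ha ⟨F₀ x, x, rfl⟩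
      exact h3
    funext f
    exact Fintype.linearIndependent_iff.1 hli a h1 f
  have hcard : m ≤ Fintype.card R := by
    have h1 := LinearMap.finrank_le_finrank_of_injective hT
    rw [Module.finrank_fintype_fun_eq_card, Module.finrank_fintype_fun_eq_card] at h1
    rw [Fintype.card_coe, hs] at h1
    exact h1
  obtain ⟨j⟩ : Nonempty (Fin m ↪ R) := by
    apply Function.Embedding.nonempty_of_card_le
    rwa [Fintype.card_fin]
  have : Nonempty (Fin m) := ⟨⟨0, hm⟩⟩
  refine ⟨F₀.map fun r => if hr : r ∈ R then invFun j ⟨r, hr⟩ else ⟨0, hm⟩, ?_⟩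
  intro i
  obtain ⟨r, hr⟩ := invFun_surjective j.injective i
  obtain ⟨⟨_, x, rfl⟩⟩ : Nonempty R := ⟨r⟩
  obtain ⟨y, hy⟩ := r.2
  refine ⟨y, ?_⟩
  rw [LocallyConstant.map_apply, Function.comp_apply]
  have hyR : F₀ y ∈ R := ⟨y, rfl⟩
  rw [dif_pos hyR]
  have : (⟨F₀ y, hyR⟩ : R) = r := Subtype.ext hy
  rw [this, hr]

end Pool.Agent.Robin

end

section

/-!
# B1, B1f: charts of closed sets with Lipschitz boundary (helper7)
-/

open MeasureTheory Set Metric
open scoped ENNReal NNReal

namespace Pool.Agent.Robin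

lemma continuous_cx (L : E2 ≃ₗᵢ[ℝ] E2) (p : E2) : Continuous (cx L p) := by
  unfold cx
  exact (EuclideanSpace.proj (𝕜 := ℝ) (0 : Fin 2)).continuous.comp
    (L.continuous.comp (continuous_id.sub continuous_const))

lemma continuous_cy (L : E2 ≃ₗᵢ[ℝ] E2) (p : E2) : Continuous (cy L p) := by
  unfold cy
  exact (EuclideanSpace.proj (𝕜 := ℝ) (1 : Fin 2)).continuous.comp
    (L.continuous.comp (continuous_id.sub continuous_const))

/-- the open box of a chart -/
def cbox (L : E2 ≃ₗᵢ[ℝ] E2) (p : E2) (a b : ℝ) : Set E2 := {x | |cx L p x| < a ∧ |cy L p x| < b}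

lemma isOpen_cbox (L : E2 ≃ₗᵢ[ℝ] E2) (p : E2) (a b : ℝ) : IsOpen (cbox L p a b) :=
  (isOpen_lt (continuous_cx L p).abs continuous_const).inter
    (isOpen_lt (continuous_cy L p).abs continuous_const)

lemma cx_self (L : E2 ≃ₗᵢ[ℝ] E2) (p : E2) : cx L p p = 0 := by simp [cx]

lemma cy_self (L : E2 ≃ₗᵢ[ℝ] E2) (p : E2) : cy L p p = 0 := by simp [cy]

lemma cx_add (L : E2 ≃ₗᵢ[ℝ] E2) (p x v : E2) : cx L p (x + v) = cx L p x + (L v) 0 := by
  unfold cx
  rw [add_sub_right_comm, map_add]
  rfl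

lemma cy_add (L : E2 ≃ₗᵢ[ℝ] E2) (p x v : E2) : cy L p (x + v) = cy L p x + (L v) 1 := by
  unfold cy
  rw [add_sub_right_comm, map_add]
  rfl

theorem prf_B1f : S_B1f := by
  intro K p L f C a b hK hc x hxa hxb
  have hcf : Continuous f := hc.lip.continuous
  rw [hK.frontier_eq]
  constructor
  · rintro ⟨hxK, hxi⟩
    have h1 := (hc.mem x hxa hxb).1 hxK
    by_contra hne
    have h2 : f (cx L p x) < cy L p x := lt_of_le_of_ne h1 (Ne.symm hne)
    apply hxi
    rw [mem_interior]
    refine ⟨cbox L p a b ∩ {y | f (cx L p y) < cy L p y}, ?_, ?_, ?_⟩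
    · rintro y ⟨hy1, hy2⟩
      exact (hc.mem y hy1.1 hy1.2).2 (le_of_lt hy2)
    · exact (isOpen_cbox L p a b).inter
        (isOpen_lt (hcf.comp (continuous_cx L p)) (continuous_cy L p))
    · exact ⟨⟨hxa, hxb⟩, h2⟩
  · intro hxy
    refine ⟨(hc.mem x hxa hxb).2 hxy.ge, fun hxi => ?_⟩
    -- move down a little
    have hcont : Continuous fun t : ℝ => x + (-t) • L.symm !₂[(0 : ℝ), 1] := by
      fun_prop
    have h0 : x + (-(0 : ℝ)) • L.symm !₂[(0 : ℝ), 1] = x := by simp
    have hnhds : interior K ∩ cbox L p a b ∈ nhds (x + (-(0 : ℝ)) • L.symm !₂[(0 : ℝ), 1]) := by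
      rw [h0]
      exact (isOpen_interior.inter (isOpen_cbox L p a b)).mem_nhds ⟨hxi, hxa, hxb⟩
    have h1 := hcont.continuousAt.preimage_mem_nhds hnhds
    obtain ⟨ε, hε, hball⟩ := Metric.mem_nhds_iff.1 h1
    have h2 : (ε / 2 : ℝ) ∈ ball (0 : ℝ) ε := by
      rw [mem_ball_zero_iff, Real.norm_eq_abs, abs_of_pos (by positivity)]
      linarith
    obtain ⟨h3, h4, h5⟩ := hball h2
    have h6 := (hc.mem _ h4 h5).1 (interior_subset h3)
    rw [cx_add, cy_add] at h6
    simp only [map_smul, LinearIsometryEquiv.apply_symm_apply] at h6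
    have e0 : ((-(ε / 2 : ℝ)) • (!₂[(0 : ℝ), 1] : E2)) 0 = 0 := by simp
    have e1 : ((-(ε / 2 : ℝ)) • (!₂[(0 : ℝ), 1] : E2)) 1 = -(ε / 2) := by simp
    rw [e0, e1, add_zero, hxy] at h6
    linarith

theorem prf_B1 : S_B1 := by
  intro Ω hΩ
  refine ⟨hΩ.isOpen.isClosed_compl, ?_⟩
  intro p hp
  rw [frontier_compl] at hp
  obtain ⟨L, f, K, a, b, ha, hb, hf, hmem⟩ := hΩ.lip p hp
  have hpΩ : p ∉ Ω := by
    rw [hΩ.isOpen.frontier_eq] at hp
    exact hp.2
  have hmem' : ∀ x : E2, |cx L p x| < a → |cy L p x| < b → (x ∈ Ω ↔ cy L p x < f (cx L p x)) :=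
    hmem
  have h1 : ¬ (0 : ℝ) < f 0 := by
    have := hmem' p (by rw [cx_self]; simpa using ha) (by rw [cy_self]; simpa using hb)
    rw [cx_self, cy_self] at this
    exact fun h => hpΩ (this.2 h)
  have h2 : ¬ f 0 < 0 := by
    intro h
    have hU : IsOpen (cbox L p a b ∩ {y | f (cx L p y) < cy L p y}) :=
      (isOpen_cbox L p a b).inter (isOpen_lt (hf.continuous.comp (continuous_cx L p))
        (continuous_cy L p))
    have hpU : p ∈ cbox L p a b ∩ {y | f (cx L p y) < cy L p y} := by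
      refine ⟨⟨?_, ?_⟩, ?_⟩
      · rw [cx_self]; simpa using ha
      · rw [cy_self]; simpa using hb
      · rw [mem_ofPred_eq, cx_self, cy_self]; exact h
    obtain ⟨y, ⟨hy1, hy2⟩, hyΩ⟩ := mem_closure_iff.1 (frontier_subset_closure hp) _ hU hpU
    have := (hmem' y hy1.1 hy1.2).1 hyΩ
    rw [mem_ofPred_eq] at hy2
    linarith
  have h3 : f 0 = 0 := le_antisymm (not_lt.1 h1) (not_lt.1 h2)
  have hK1 : (0 : ℝ) < K + 1 := by positivity
  refine ⟨L, f, K, min a (b / (K + 1)), b, ⟨by positivity, hb, hf, h3, ?_, ?_⟩⟩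
  · intro t ht
    have h4 := hf.dist_le_mul t 0
    rw [h3, Real.dist_eq, Real.dist_eq, sub_zero, sub_zero] at h4
    have h5 : |t| ≤ b / (K + 1) := ht.trans (min_le_right _ _)
    rw [le_div_iff₀ hK1] at h5
    rcases eq_or_lt_of_le (abs_nonneg t) with h6 | h6
    · rw [← h6] at h4
      simp only [mul_zero] at h4
      linarith
    · nlinarith
  · intro x hxa hxb
    have h4 := hmem' x (hxa.trans_le (min_le_left _ _)) hxb
    rw [mem_compl_iff, h4, not_lt]

end Pool.Agent.Robin

end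

section

/-!
# MP_4b551e_an, item B3: decomposition into outer part and holes
-/

open MeasureTheory Set Metric
open scoped ENNReal NNReal Pointwise RealInnerProductSpace

namespace Pool.Agent.Robin

theorem prf_B3 (ha : S_B3a) (hc : S_B3c) (hd : S_B3d) (he : S_B3e) : S_B3 := by
  intro Ω hΩ
  obtain ⟨hoc, -, houter⟩ := ha Ω hΩ
  have hfin : {C : Set E2 | ∃ x ∈ Ωᶜ, x ∉ outer Ω ∧ C = connectedComponentIn Ωᶜ x}.Finite := by
    refine (hc Ω hΩ).subset ?_
    rintro C ⟨x, hx, -, rfl⟩
    exact ⟨x, hx, rfl⟩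
  obtain ⟨N, H, hHinj, hHran⟩ : ∃ (N : ℕ) (H : Fin N → Set E2), Function.Injective H ∧
      Set.range H = {C : Set E2 | ∃ x ∈ Ωᶜ, x ∉ outer Ω ∧ C = connectedComponentIn Ωᶜ x} := by
    have := hfin.fintype
    let e := Fintype.equivFin
      {C : Set E2 | ∃ x ∈ Ωᶜ, x ∉ outer Ω ∧ C = connectedComponentIn Ωᶜ x}
    refine ⟨_, fun i => (e.symm i).val, ?_, ?_⟩
    · exact Subtype.val_injective.comp e.symm.injective
    · ext C
      constructor
      · rintro ⟨i, rfl⟩
        exact (e.symm i).2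
      · intro h
        exact ⟨e ⟨C, h⟩, by simp⟩
  have hH : ∀ i, ∃ x ∈ Ωᶜ, x ∉ outer Ω ∧ H i = connectedComponentIn Ωᶜ x := by
    intro i
    have h : H i ∈ Set.range H := ⟨i, rfl⟩
    rw [hHran] at h
    exact h
  obtain ⟨x0, hx0⟩ := hoc.nonempty
  have hx0K : x0 ∈ Ωᶜ := hx0.1
  have ho : outer Ω = connectedComponentIn Ωᶜ x0 := houter x0 hx0
  have hcompl : Ωᶜ = outer Ω ∪ ⋃ i, H i := by
    refine Subset.antisymm ?_ ?_
    · intro z hz
      by_cases h : z ∈ outer Ω
      · exact Or.inl h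
      · right
        have h2 : connectedComponentIn Ωᶜ z ∈ Set.range H := by
          rw [hHran]
          exact ⟨z, hz, h, rfl⟩
        obtain ⟨i, hi⟩ := h2
        refine Set.mem_iUnion.mpr ⟨i, ?_⟩
        rw [hi]
        exact mem_connectedComponentIn hz
    · refine Set.union_subset (fun z hz => hz.1) (Set.iUnion_subset fun i => ?_)
      obtain ⟨x, -, -, hx⟩ := hH i
      rw [hx]
      exact connectedComponentIn_subset _ _
  refine ⟨N, H, ⟨?_, ?_, ?_, ?_, ?_, hcompl, ?_, ?_, hoc, he Ω hΩ⟩⟩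
  · intro i
    obtain ⟨x, hx, hxo, h⟩ := hH i
    rw [h]
    refine Metric.isCompact_of_isClosed_isBounded (hd Ω hΩ x hx).1.1 ?_
    by_contra hb
    exact hxo ⟨hx, hb⟩
  · intro i
    obtain ⟨x, hx, -, h⟩ := hH i
    rw [h]
    exact isConnected_connectedComponentIn_iff.mpr hx
  · intro i
    obtain ⟨x, hx, -, h⟩ := hH i
    rw [h]
    exact (hd Ω hΩ x hx).1
  · intro i j hij
    obtain ⟨x, hx, -, hi⟩ := hH i
    obtain ⟨y, hy, -, hj⟩ := hH j
    rw [Function.onFun, Set.disjoint_left]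
    intro z hz1 hz2
    rw [hi] at hz1
    rw [hj] at hz2
    apply hij
    apply hHinj
    rw [hi, hj, connectedComponentIn_eq hz1, connectedComponentIn_eq hz2]
  · intro i
    obtain ⟨x, hx, hxo, hi⟩ := hH i
    rw [Set.disjoint_left]
    intro z hz1 hz2
    rw [hi] at hz1
    apply hxo
    rw [houter z hz2, ← connectedComponentIn_eq hz1]
    exact mem_connectedComponentIn hx
  · have h1 : frontier Ω ⊆ Ωᶜ := by
      rw [hΩ.isOpen.frontier_eq]
      exact fun z hz => hz.2
    have h2 : frontier (outer Ω) = frontier Ω ∩ outer Ω := by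
      rw [ho]
      exact (hd Ω hΩ x0 hx0K).2.1
    have h3 : ∀ i, frontier (H i) = frontier Ω ∩ H i := by
      intro i
      obtain ⟨x, hx, -, hi⟩ := hH i
      rw [hi]
      exact (hd Ω hΩ x hx).2.1
    rw [h2]
    simp_rw [h3]
    rw [← Set.inter_iUnion, ← Set.inter_union_distrib_left, ← hcompl]
    exact (Set.inter_eq_left.mpr h1).symm
  · rw [ho]
    exact (hd Ω hΩ x0 hx0K).1

end Pool.Agent.Robin

end

section

/-! Item B3a: the unbounded part of the complement. -/

open MeasureTheory Set Metric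
open scoped ENNReal NNReal Pointwise RealInnerProductSpace

namespace Pool.Agent.Robin

theorem iB3a_continuous_dirv : Continuous dirv := by
  unfold dirv
  refine (PiLp.continuous_toLp 2 _).comp ?_
  apply continuous_pi
  intro i
  fin_cases i
  · exact Real.continuous_cos
  · exact Real.continuous_sin

theorem iB3a_norm_sq (x : E2) : ‖x‖ ^ 2 = x 0 ^ 2 + x 1 ^ 2 := by
  rw [EuclideanSpace.norm_sq_eq, Fin.sum_univ_two]
  simp

theorem iB3a_norm_dirv (θ : ℝ) : ‖dirv θ‖ = 1 := by
  have h1 : ‖dirv θ‖ ^ 2 = 1 := by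
    rw [iB3a_norm_sq]
    simp [dirv]
  have h2 := norm_nonneg (dirv θ)
  nlinarith

theorem iB3a_polar (x : E2) : ∃ θ : ℝ, x = ‖x‖ • dirv θ := by
  set z : ℂ := ⟨x 0, x 1⟩ with hz
  have hn : ‖z‖ = ‖x‖ := by
    have h1 : ‖z‖ ^ 2 = ‖x‖ ^ 2 := by
      rw [iB3a_norm_sq, ← Complex.normSq_eq_norm_sq, Complex.normSq_apply]
      simp only [hz]
      ring
    have h2 := norm_nonneg z
    have h3 := norm_nonneg x
    exact (sq_eq_sq₀ h2 h3).mp h1
  refine ⟨Complex.arg z, ?_⟩
  have hc := Complex.norm_mul_cos_arg z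
  have hs := Complex.norm_mul_sin_arg z
  rw [hn] at hc hs
  ext i
  fin_cases i
  · simp only [dirv, PiLp.smul_apply, smul_eq_mul]
    exact hc.symm
  · simp only [dirv, PiLp.smul_apply, smul_eq_mul]
    exact hs.symm

theorem iB3a_preconnected (M : ℝ) (hM : 0 < M) : IsPreconnected {x : E2 | M ≤ ‖x‖} := by
  have h1 : {x : E2 | M ≤ ‖x‖} = (fun p : ℝ × ℝ => p.1 • dirv p.2) '' (Ici M ×ˢ univ) := by
    ext x
    constructor
    · intro hx
      obtain ⟨θ, hθ⟩ := iB3a_polar x
      exact ⟨(‖x‖, θ), ⟨hx, mem_univ _⟩, hθ.symm⟩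
    · rintro ⟨⟨s, θ⟩, ⟨hs, -⟩, rfl⟩
      have hs' : M ≤ s := hs
      show M ≤ ‖s • dirv θ‖
      rw [norm_smul, iB3a_norm_dirv, mul_one, Real.norm_eq_abs, abs_of_pos (hM.trans_le hs')]
      exact hs'
  rw [h1]
  apply IsPreconnected.image
  · exact isPreconnected_Ici.prod isPreconnected_univ
  · exact (continuous_fst.smul (iB3a_continuous_dirv.comp continuous_snd)).continuousOn

theorem prf_B3a : S_B3a := by
  intro Ω hΩ
  obtain ⟨M, hM0, hM⟩ : ∃ M : ℝ, 0 < M ∧ ∀ x : E2, M ≤ ‖x‖ → x ∉ Ω := by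
    obtain ⟨M, hM⟩ := hΩ.isBounded.subset_ball (0 : E2)
    refine ⟨max M 1, lt_max_of_lt_right one_pos, ?_⟩
    intro x hx hxΩ
    have := hM hxΩ
    rw [mem_ball_zero_iff] at this
    have := le_max_left M 1
    linarith
  set T := {x : E2 | M ≤ ‖x‖} with hT
  have hTpre : IsPreconnected T := iB3a_preconnected M hM0
  have hTsub : T ⊆ Ωᶜ := fun x hx => hM x hx
  have hsub : ∀ x ∈ T, T ⊆ connectedComponentIn Ωᶜ x := fun x hx =>
    hTpre.subset_connectedComponentIn hx hTsub
  have hmem : ∀ s : ℝ, M ≤ s → s • dirv 0 ∈ T := by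
    intro s hs
    show M ≤ ‖s • dirv 0‖
    rw [norm_smul, iB3a_norm_dirv, mul_one, Real.norm_eq_abs, abs_of_pos (hM0.trans_le hs)]
    exact hs
  have hTunb : ¬ Bornology.IsBounded T := by
    intro hb
    obtain ⟨N, hN⟩ := hb.subset_closedBall (0 : E2)
    have h1 := hN (hmem (max M N + 1) (by linarith [le_max_left M N]))
    rw [mem_closedBall_zero_iff, norm_smul, iB3a_norm_dirv, mul_one, Real.norm_eq_abs,
      abs_of_pos (by linarith [le_max_left M N])] at h1
    linarith [le_max_right M N]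
  have hTouter : ∀ x ∈ T, x ∈ outer Ω := fun x hx =>
    ⟨hTsub hx, fun hb => hTunb (hb.subset (hsub x hx))⟩
  set y0 : E2 := M • dirv 0 with hy0
  have hy0T : y0 ∈ T := hmem M le_rfl
  have hcomp : ∀ x ∈ outer Ω, connectedComponentIn Ωᶜ x = connectedComponentIn Ωᶜ y0 := by
    intro x hx
    have h1 : ∃ y ∈ connectedComponentIn Ωᶜ x, y ∈ T := by
      by_contra hcon
      apply hx.2
      apply (isBounded_ball (x := (0 : E2)) (r := M)).subset
      intro y hy
      rw [mem_ball_zero_iff]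
      by_contra h2
      exact hcon ⟨y, hy, not_lt.mp h2⟩
    obtain ⟨y, hy, hyT⟩ := h1
    rw [connectedComponentIn_eq hy, connectedComponentIn_eq (hsub y0 hy0T hyT)]
  have houter : outer Ω = connectedComponentIn Ωᶜ y0 := by
    apply Subset.antisymm
    · intro x hx
      rw [← hcomp x hx]
      exact mem_connectedComponentIn hx.1
    · intro z hz
      refine ⟨connectedComponentIn_subset _ _ hz, ?_⟩
      rw [← connectedComponentIn_eq hz]
      exact fun hb => hTunb (hb.subset (hsub y0 hy0T))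
  refine ⟨?_, ⟨M, hTouter⟩, fun x hx => by rw [hcomp x hx]; exact houter⟩
  rw [houter]
  exact ⟨⟨y0, mem_connectedComponentIn (hTsub hy0T)⟩, isPreconnected_connectedComponentIn⟩

end Pool.Agent.Robin

end

section

/-!
# MP_4b551e_an, item B3b: the complement is locally connected
-/

open MeasureTheory Set Metric
open scoped ENNReal NNReal Pointwise RealInnerProductSpace

namespace Pool.Agent.Robin

namespace PfB3b

/-- straightening of the epigraph -/
noncomputable def Phi (L : E2 ≃ₗᵢ[ℝ] E2) (p : E2) (f : ℝ → ℝ) (b : ℝ) (z : ℝ × ℝ) : E2 :=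
  p + L.symm (!₂[z.1, f z.1 + z.2 * (b - f z.1)])

theorem L_Phi (L : E2 ≃ₗᵢ[ℝ] E2) (p : E2) (f : ℝ → ℝ) (b : ℝ) (z : ℝ × ℝ) :
    L (Phi L p f b z - p) = !₂[z.1, f z.1 + z.2 * (b - f z.1)] := by
  unfold Phi
  rw [add_sub_cancel_left, LinearIsometryEquiv.apply_symm_apply]

theorem cx_Phi (L : E2 ≃ₗᵢ[ℝ] E2) (p : E2) (f : ℝ → ℝ) (b : ℝ) (z : ℝ × ℝ) :
    cx L p (Phi L p f b z) = z.1 := by
  unfold cx
  rw [L_Phi]
  rfl

theorem cy_Phi (L : E2 ≃ₗᵢ[ℝ] E2) (p : E2) (f : ℝ → ℝ) (b : ℝ) (z : ℝ × ℝ) :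
    cy L p (Phi L p f b z) = f z.1 + z.2 * (b - f z.1) := by
  unfold cy
  rw [L_Phi]
  rfl

theorem eq_of_coords (L : E2 ≃ₗᵢ[ℝ] E2) (p x y : E2) (h0 : cx L p x = cx L p y)
    (h1 : cy L p x = cy L p y) : x = y := by
  have h : L (x - p) = L (y - p) := by
    ext i
    fin_cases i
    · exact h0
    · exact h1
  exact sub_left_injective (L.injective h)

theorem Phi_cont (L : E2 ≃ₗᵢ[ℝ] E2) (p : E2) {f : ℝ → ℝ} (hf : Continuous f) (b : ℝ) :
    Continuous (Phi L p f b) := by
  unfold Phi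
  refine continuous_const.add (L.symm.continuous.comp ?_)
  refine (PiLp.continuous_toLp 2 _).comp ?_
  refine continuous_pi fun i => ?_
  fin_cases i
  · exact continuous_fst
  · exact (hf.comp continuous_fst).add
      (continuous_snd.mul (continuous_const.sub (hf.comp continuous_fst)))

theorem abs_cx_le (L : E2 ≃ₗᵢ[ℝ] E2) (p x : E2) : |cx L p x| ≤ dist x p := by
  have h := EuclideanSpace.norm_eq (L (x - p))
  rw [LinearIsometryEquiv.norm_map, Fin.sum_univ_two] at h
  rw [dist_eq_norm, h, ← Real.sqrt_sq_eq_abs]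
  refine Real.sqrt_le_sqrt ?_
  rw [Real.norm_eq_abs, Real.norm_eq_abs, sq_abs, sq_abs]
  exact le_add_of_nonneg_right (sq_nonneg _)

theorem abs_cy_le (L : E2 ≃ₗᵢ[ℝ] E2) (p x : E2) : |cy L p x| ≤ dist x p := by
  have h := EuclideanSpace.norm_eq (L (x - p))
  rw [LinearIsometryEquiv.norm_map, Fin.sum_univ_two] at h
  rw [dist_eq_norm, h, ← Real.sqrt_sq_eq_abs]
  refine Real.sqrt_le_sqrt ?_
  rw [Real.norm_eq_abs, Real.norm_eq_abs, sq_abs, sq_abs]
  exact le_add_of_nonneg_left (sq_nonneg _)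

/-- a set with Lipschitz boundary is locally connected -/
theorem local_conn {K : Set E2} (hK : LipClosed K) {x : E2} (hx : x ∈ K) : ∃ δ > 0,
    K ∩ ball x δ ⊆ connectedComponentIn K x := by
  by_cases hfr : x ∈ frontier K
  · obtain ⟨L, f, C, a, b, hch⟩ := hK.2 x hfr
    refine ⟨min a b, lt_min hch.a_pos hch.b_pos, ?_⟩
    set U : Set E2 := Phi L x f b '' (Ioo (-a) a ×ˢ Ico (0 : ℝ) 1) with hU
    have hUpre : IsPreconnected U :=
      ((isPreconnected_Ioo.prod isPreconnected_Ico).image _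
        (Phi_cont L x hch.lip.continuous b).continuousOn)
    have hUK : U ⊆ K := by
      rintro _ ⟨⟨t, s⟩, ⟨ht, hs⟩, rfl⟩
      have ht' : |t| < a := abs_lt.mpr ht
      have hft := abs_lt.mp (hch.f_lt t ht'.le)
      have hs0 : 0 ≤ s := hs.1
      have hs1 : s < 1 := hs.2
      refine (hch.mem _ ?_ ?_).mpr ?_
      · rw [cx_Phi]; exact ht'
      · rw [cy_Phi]
        change |f t + s * (b - f t)| < b
        rw [abs_lt]
        constructor <;> nlinarith
      · rw [cx_Phi, cy_Phi]
        change f t ≤ f t + s * (b - f t)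
        nlinarith
    have hxU : x ∈ U := by
      refine ⟨(0, 0), ⟨?_, ?_⟩, ?_⟩
      · exact ⟨by simpa using hch.a_pos, hch.a_pos⟩
      · exact ⟨le_rfl, one_pos⟩
      · refine eq_of_coords L x _ _ ?_ ?_
        · rw [cx_Phi]; simp [cx]
        · rw [cy_Phi]
          change f 0 + 0 * (b - f 0) = cy L x x
          rw [hch.f0]
          simp [cy]
    refine Subset.trans ?_ (hUpre.subset_connectedComponentIn hxU hUK)
    rintro y ⟨hyK, hyb⟩
    rw [mem_ball] at hyb
    have h1 : |cx L x y| < a := (abs_cx_le L x y).trans_lt (hyb.trans_le (min_le_left _ _))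
    have h2 : |cy L x y| < b := (abs_cy_le L x y).trans_lt (hyb.trans_le (min_le_right _ _))
    have h3 := (hch.mem y h1 h2).mp hyK
    have h4 := abs_lt.mp (hch.f_lt _ h1.le)
    have h5 := abs_lt.mp h2
    have h6 : 0 < b - f (cx L x y) := by linarith
    refine ⟨(cx L x y, (cy L x y - f (cx L x y)) / (b - f (cx L x y))), ⟨abs_lt.mp h1, ?_, ?_⟩, ?_⟩
    · exact div_nonneg (by linarith) h6.le
    · change (cy L x y - f (cx L x y)) / (b - f (cx L x y)) < 1
      rw [div_lt_one h6]
      linarith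
    · refine eq_of_coords L x _ _ ?_ ?_
      · rw [cx_Phi]
      · rw [cy_Phi]
        change f (cx L x y) + (cy L x y - f (cx L x y)) / (b - f (cx L x y)) *
          (b - f (cx L x y)) = _
        rw [div_mul_cancel₀ _ h6.ne']
        ring
  · have hint : x ∈ interior K := by
      by_contra h
      exact hfr ⟨subset_closure hx, h⟩
    obtain ⟨δ, hδ, hsub⟩ := Metric.isOpen_iff.mp isOpen_interior x hint
    refine ⟨δ, hδ, ?_⟩
    refine Subset.trans Set.inter_subset_right ?_
    exact (convex_ball x δ).isPreconnected.subset_connectedComponentIn (mem_ball_self hδ)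
      (hsub.trans interior_subset)

end PfB3b

open PfB3b in
theorem prf_B3b (h : S_B1) : S_B3b := fun Ω hΩ _ hx => local_conn (h Ω hΩ) hx

end Pool.Agent.Robin

end

section

/-!
# MP_4b551e_an, item B3c: finitely many components of the complement
-/

open MeasureTheory Set Metric
open scoped ENNReal NNReal Pointwise RealInnerProductSpace

namespace Pool.Agent.Robin

theorem prf_B3c (ha : S_B3a) (hb : S_B3b) : S_B3c := by
  intro Ω hΩ
  obtain ⟨-, ⟨M, hM⟩, houter⟩ := ha Ω hΩ
  have hZ : IsCompact (Ωᶜ ∩ closedBall (0 : E2) M) :=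
    (isCompact_closedBall (0 : E2) M).inter_left hΩ.isOpen.isClosed_compl
  have hδ : ∀ x : E2, ∃ δ : ℝ, 0 < δ ∧ (x ∈ Ωᶜ → Ωᶜ ∩ ball x δ ⊆ connectedComponentIn Ωᶜ x) := by
    intro x
    by_cases hx : x ∈ Ωᶜ
    · obtain ⟨δ, h1, h2⟩ := hb Ω hΩ x hx
      exact ⟨δ, h1, fun _ => h2⟩
    · exact ⟨1, one_pos, fun h => absurd h hx⟩
  choose δ hδ0 hδ1 using hδ
  obtain ⟨t, htZ, htcov⟩ := hZ.elim_nhds_subcover (fun x => ball x (δ x))
    (fun x _ => ball_mem_nhds x (hδ0 x))
  refine Set.Finite.subset (((t.finite_toSet).image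
    (fun x => connectedComponentIn Ωᶜ x)).insert (outer Ω)) ?_
  rintro _ ⟨x, hx, rfl⟩
  by_cases hxM : M ≤ ‖x‖
  · left
    exact (houter x (hM x hxM)).symm
  · right
    have hxZ : x ∈ Ωᶜ ∩ closedBall (0 : E2) M := by
      refine ⟨hx, ?_⟩
      rw [mem_closedBall, dist_zero_right]
      exact (not_le.mp hxM).le
    obtain ⟨y, hy⟩ := Set.mem_iUnion.mp (htcov hxZ)
    obtain ⟨hyt, hxy⟩ := Set.mem_iUnion.mp hy
    exact ⟨y, hyt, connectedComponentIn_eq (hδ1 y (htZ y hyt).1 ⟨hx, hxy⟩)⟩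

end Pool.Agent.Robin

end

section

/-!
# MP_4b551e_an, item B3e: the filled domain is admissible
-/

open MeasureTheory Set Metric
open scoped ENNReal NNReal Pointwise RealInnerProductSpace

namespace Pool.Agent.Robin

theorem prf_B3e (_h1 : S_B1) (ha : S_B3a) (_hb : S_B3b) (hd : S_B3d) : S_B3e := by
  intro Ω hΩ
  obtain ⟨hconn, ⟨M, hM⟩, hcomp⟩ := ha Ω hΩ
  obtain ⟨x0, hx0⟩ := hconn.nonempty
  have hx0' : x0 ∈ Ωᶜ := hx0.1
  have hlip : LipClosed (outer Ω) := by
    rw [hcomp x0 hx0]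
    exact (hd Ω hΩ x0 hx0').1
  have hsub : Ω ⊆ fill Ω := fun x hx h => h.1 hx
  refine ⟨hlip.1.isOpen_compl, ?_, ?_, ?_⟩
  · obtain ⟨w, hw⟩ := hΩ.isConnected.nonempty
    refine ⟨⟨w, hsub hw⟩, ?_⟩
    refine isPreconnected_of_forall w fun y hy => ?_
    by_cases hyΩ : y ∈ Ω
    · exact ⟨Ω, hsub, hw, hyΩ, hΩ.isConnected.isPreconnected⟩
    · have hyc : y ∈ Ωᶜ := hyΩ
      obtain ⟨-, hfr, q, hq⟩ := hd Ω hΩ y hyc
      rw [hfr] at hq
      have hDsub : connectedComponentIn Ωᶜ y ⊆ fill Ω := by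
        intro z hz hzo
        have h2 : outer Ω = connectedComponentIn Ωᶜ z := hcomp z hzo
        have h3 : connectedComponentIn Ωᶜ y = connectedComponentIn Ωᶜ z :=
          connectedComponentIn_eq hz
        apply hy
        rw [h2, ← h3]
        exact mem_connectedComponentIn hyc
      have hqc : IsPreconnected (Ω ∪ {q}) := by
        refine hΩ.isConnected.isPreconnected.subset_closure subset_union_left ?_
        rintro z (hz | hz)
        · exact subset_closure hz
        · rw [mem_singleton_iff.mp hz]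
          exact frontier_subset_closure hq.1
      have hU : IsPreconnected ((Ω ∪ {q}) ∪ connectedComponentIn Ωᶜ y) :=
        IsPreconnected.union q (Or.inr rfl) hq.2 hqc isPreconnected_connectedComponentIn
      refine ⟨(Ω ∪ {q}) ∪ connectedComponentIn Ωᶜ y, ?_, Or.inl (Or.inl hw),
        Or.inr (mem_connectedComponentIn hyc), hU⟩
      rintro z ((hz | hz) | hz)
      · exact hsub hz
      · rw [mem_singleton_iff.mp hz]
        exact hDsub hq.2
      · exact hDsub hz
  · refine (Metric.isBounded_closedBall (x := (0 : E2)) (r := M)).subset fun x hx => ?_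
    rw [mem_closedBall_zero_iff]
    by_contra h
    push Not at h
    exact hx (hM x h.le)
  · intro p hp
    have hp' : p ∈ frontier (outer Ω) := by
      rw [fill, frontier_compl] at hp
      exact hp
    obtain ⟨L, f, C, a, b, hch⟩ := hlip.2 p hp'
    refine ⟨L, f, C, a, b, hch.a_pos, hch.b_pos, hch.lip, fun x hxa hxb => ?_⟩
    have h2 := hch.mem x hxa hxb
    change ¬ (x ∈ outer Ω) ↔ cy L p x < f (cx L p x)
    rw [h2, not_le]

end Pool.Agent.Robin

end

section

/-!
Brunn-Minkowski inequality with a disc, from the multiplicative form.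
-/

open MeasureTheory Set Metric
open scoped ENNReal NNReal Pointwise RealInnerProductSpace

namespace Pool.Agent.Robin

theorem bm_area_smul (r : ℝ) (hr : 0 ≤ r) (S : Set E2) : area (r • S) = r ^ 2 * area S := by
  unfold area
  rw [Measure.addHaar_smul, finrank_euclideanSpace_fin, abs_of_nonneg (by positivity),
    ENNReal.toReal_mul, ENNReal.toReal_ofReal (by positivity)]

theorem bm_area_ball (c : E2) (s : ℝ) (hs : 0 ≤ s) : area (closedBall c s) = Real.pi * s ^ 2 := by
  unfold area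
  rw [EuclideanSpace.volume_closedBall_fin_two, ENNReal.toReal_mul, ENNReal.toReal_pow,
    ENNReal.toReal_ofReal hs, ENNReal.toReal_ofReal Real.pi_pos.le, mul_comm]

theorem bm_area_mono {S T : Set E2} (h : S ⊆ T) (hT : IsCompact T) : area S ≤ area T :=
  ENNReal.toReal_mono hT.measure_lt_top.ne (measure_mono h)

theorem prf_BM (h3 : S_BM3) : S_BM := by
  intro K s hK hne hs
  rcases eq_or_lt_of_le hs with hs0 | hs0
  · rw [← hs0, cthickening_zero, hK.isClosed.closure_eq, mul_zero, add_zero]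
  have hc : IsCompact (cthickening s K) := hK.cthickening
  have hpi : 0 < Real.sqrt Real.pi := Real.sqrt_pos.2 Real.pi_pos
  have hAn : 0 ≤ area K := ENNReal.toReal_nonneg
  rcases eq_or_lt_of_le hAn with hA | hA
  · obtain ⟨x, hx⟩ := hne
    have h1 : area (closedBall x s) ≤ area (cthickening s K) :=
      bm_area_mono (closedBall_subset_cthickening hx s) hc
    rw [bm_area_ball x s hs] at h1
    rw [← hA, Real.sqrt_zero, zero_add]
    refine le_trans (le_of_eq ?_) (Real.sqrt_le_sqrt h1)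
    rw [Real.sqrt_mul Real.pi_pos.le, Real.sqrt_sq hs]
  · set a := Real.sqrt (area K) with ha
    set b := Real.sqrt Real.pi * s with hb
    have ha0 : 0 < a := Real.sqrt_pos.2 hA
    have hb0 : 0 < b := mul_pos hpi hs0
    have hab : 0 < a + b := add_pos ha0 hb0
    have hl : 1 - a / (a + b) = b / (a + b) := by
      field_simp
      ring
    have hA1 : area (a⁻¹ • K) = 1 := by
      rw [bm_area_smul _ (by positivity), inv_pow, ha, Real.sq_sqrt hA.le]
      exact inv_mul_cancel₀ hA.ne'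
    have hB1 : area (b⁻¹ • closedBall (0 : E2) s) = 1 := by
      rw [bm_area_smul _ (by positivity), inv_pow, bm_area_ball _ _ hs, hb, mul_pow,
        Real.sq_sqrt Real.pi_pos.le]
      exact inv_mul_cancel₀ (by positivity)
    have h1 := h3 (a⁻¹ • K) (b⁻¹ • closedBall (0 : E2) s) (a / (a + b)) (by positivity)
      (by rw [div_lt_one hab]; linarith) (hK.smul _)
      ((isCompact_closedBall (0 : E2) s).smul _) (hne.smul_set)
      ((nonempty_closedBall.2 hs).smul_set)
    rw [hA1, hB1, Real.one_rpow, Real.one_rpow, mul_one, hl, smul_smul, smul_smul,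
      show a / (a + b) * a⁻¹ = (a + b)⁻¹ by field_simp,
      show b / (a + b) * b⁻¹ = (a + b)⁻¹ by field_simp, ← smul_add,
      hK.add_closedBall_zero hs, bm_area_smul _ (by positivity)] at h1
    have h2 : (a + b) ^ 2 ≤ area (cthickening s K) := by
      have h4 : (a + b) ^ 2 * 1 ≤ (a + b) ^ 2 * (((a + b)⁻¹) ^ 2 * area (cthickening s K)) :=
        mul_le_mul_of_nonneg_left h1 (by positivity)
      rwa [mul_one, ← mul_assoc, ← mul_pow, mul_inv_cancel₀ hab.ne', one_pow, one_mul] at h4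
    exact Real.le_sqrt_of_sq_le h2

end Pool.Agent.Robin

end

section

open MeasureTheory Set Metric
open scoped ENNReal NNReal Pointwise RealInnerProductSpace

namespace Pool.Agent.Robin

theorem prf_BM1 : S_BM1 := by
  intro A B hA hB hAn hBn
  obtain ⟨a, haA, ha⟩ := hA.exists_isGreatest hAn
  obtain ⟨b, hbB, hb⟩ := hB.exists_isLeast hBn
  have h1 : volume ((fun x => x + b) '' A) = volume A := by
    rw [Set.image_add_right, measure_preimage_add_right]
  have h2 : volume ((fun x => x + a) '' B) = volume B := by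
    rw [Set.image_add_right, measure_preimage_add_right]
  have hsub : (fun x => x + b) '' A ∪ (fun x => x + a) '' B ⊆ A + B := by
    rintro z (⟨x, hx, rfl⟩ | ⟨y, hy, rfl⟩)
    · exact Set.add_mem_add hx hbB
    · show y + a ∈ A + B
      rw [add_comm y a]
      exact Set.add_mem_add haA hy
  have hint : ((fun x => x + b) '' A) ∩ ((fun x => x + a) '' B) ⊆ {a + b} := by
    rintro z ⟨⟨x, hx, rfl⟩, ⟨y, hy, hxy⟩⟩
    have hxa : x ≤ a := ha hx
    have hyb : b ≤ y := hb hy
    have hxy' : y + a = x + b := hxy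
    rw [mem_singleton_iff]
    show x + b = a + b
    linarith
  have hnull : volume (((fun x => x + b) '' A) ∩ ((fun x => x + a) '' B)) = 0 :=
    measure_mono_null hint (measure_singleton _)
  have hmeas : MeasurableSet ((fun x => x + a) '' B) :=
    (hB.image (by fun_prop)).measurableSet
  have h3 := measure_union_add_inter (μ := volume) ((fun x => x + b) '' A) hmeas
  rw [hnull, add_zero, h1, h2] at h3
  rw [← h3]
  exact measure_mono hsub

end Pool.Agent.Robin

end

section

open MeasureTheory Set Metric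
open scoped ENNReal NNReal Pointwise

namespace Pool.Agent.Robin

/-- Brunn-Minkowski with weights for measurable sets of finite measure. -/
theorem bm2_sets (h1 : S_BM1) {A B C : Set ℝ} {l : ℝ} (hl0 : 0 < l) (hl1 : l < 1)
    (hA : MeasurableSet A) (hB : MeasurableSet B) (hAf : volume A ≠ ∞) (hBf : volume B ≠ ∞)
    (hAn : A.Nonempty) (hBn : B.Nonempty)
    (hC : ∀ a ∈ A, ∀ b ∈ B, l * a + (1 - l) * b ∈ C) :
    ENNReal.ofReal l * volume A + ENNReal.ofReal (1 - l) * volume B ≤ volume C := by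
  obtain ⟨a0, ha0⟩ := hAn
  obtain ⟨b0, hb0⟩ := hBn
  have hl1' : 0 < 1 - l := by linarith
  have hsum : ENNReal.ofReal l + ENNReal.ofReal (1 - l) = 1 := by
    rw [← ENNReal.ofReal_add hl0.le hl1'.le]; simp
  apply ENNReal.le_of_forall_pos_le_add
  intro ε hε _
  have hε' : (ε : ℝ≥0∞) ≠ 0 := by simpa using hε.ne'
  obtain ⟨K, hKA, hK, hK'⟩ := hA.exists_isCompact_lt_add hAf hε'
  obtain ⟨K', hKB, hKc, hKc'⟩ := hB.exists_isCompact_lt_add hBf hε'
  -- make them nonempty
  have hK1 : IsCompact (insert a0 K) := hK.insert a0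
  have hK2 : IsCompact (insert b0 K') := hKc.insert b0
  have hvK : volume K ≤ volume (insert a0 K) := measure_mono (subset_insert _ _)
  have hvK' : volume K' ≤ volume (insert b0 K') := measure_mono (subset_insert _ _)
  have key := h1 (l • insert a0 K) ((1 - l) • insert b0 K') (hK1.smul l) (hK2.smul (1 - l))
    ((insert_nonempty _ _).smul_set) ((insert_nonempty _ _).smul_set)
  have hsub : l • insert a0 K + (1 - l) • insert b0 K' ⊆ C := by
    rintro _ ⟨_, ⟨a, ha, rfl⟩, _, ⟨b, hb, rfl⟩, rfl⟩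
    simp only [smul_eq_mul]
    refine hC a ?_ b ?_
    · rcases ha with rfl | ha
      · exact ha0
      · exact hKA ha
    · rcases hb with rfl | hb
      · exact hb0
      · exact hKB hb
  have e1 : volume (l • insert a0 K) = ENNReal.ofReal l * volume (insert a0 K) := by
    rw [Measure.addHaar_smul]; simp [abs_of_pos hl0]
  have e2 : volume ((1 - l) • insert b0 K') = ENNReal.ofReal (1 - l) * volume (insert b0 K') := by
    rw [Measure.addHaar_smul]; simp [abs_of_pos hl1']
  rw [e1, e2] at key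
  calc ENNReal.ofReal l * volume A + ENNReal.ofReal (1 - l) * volume B
      ≤ ENNReal.ofReal l * (volume (insert a0 K) + ε)
        + ENNReal.ofReal (1 - l) * (volume (insert b0 K') + ε) := by
        gcongr
        · exact hK'.le.trans (by gcongr)
        · exact hKc'.le.trans (by gcongr)
    _ = (ENNReal.ofReal l * volume (insert a0 K) + ENNReal.ofReal (1 - l) * volume (insert b0 K'))
        + (ENNReal.ofReal l + ENNReal.ofReal (1 - l)) * ε := by ring
    _ ≤ volume C + ε := by
        rw [hsum, one_mul]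
        gcongr
        exact key.trans (measure_mono hsub)

/-- Layer cake for functions at most one. -/
theorem bm2_layer {f : ℝ → ℝ} (hf : Measurable f) (h0 : ∀ x, 0 ≤ f x) (h1 : ∀ x, f x ≤ 1) :
    ∫⁻ x, ENNReal.ofReal (f x) = ∫⁻ t in Ioo (0:ℝ) 1, volume {x | t < f x} := by
  rw [lintegral_eq_lintegral_meas_lt volume (Filter.Eventually.of_forall h0) hf.aemeasurable]
  have : ∀ t ∈ Ioi (0:ℝ), volume {x | t < f x} =
      (Iio (1:ℝ)).indicator (fun t => volume {x | t < f x}) t := by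
    intro t _
    by_cases ht : t < 1
    · rw [indicator_of_mem (show t ∈ Iio (1:ℝ) from ht)]
    · rw [indicator_of_notMem (show t ∉ Iio (1:ℝ) from ht)]
      have : {x | t < f x} = ∅ := by
        ext x; simp only [mem_setOf_eq, mem_empty_iff_false, iff_false, not_lt]
        exact (h1 x).trans (not_lt.1 ht)
      rw [this, measure_empty]
  rw [setLIntegral_congr_fun measurableSet_Ioi this, setLIntegral_indicator measurableSet_Iio]
  congr 2
  ext t; simp [and_comm]

theorem bm2_normal (h1 : S_BM1) {f g h : ℝ → ℝ} {l : ℝ} (hl0 : 0 < l) (hl1 : l < 1)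
    (hf : Measurable f) (hg : Measurable g) (hh : Measurable h)
    (f0 : ∀ x, 0 ≤ f x) (f1 : ∀ x, f x ≤ 1) (g0 : ∀ x, 0 ≤ g x) (g1 : ∀ x, g x ≤ 1)
    (h0 : ∀ x, 0 ≤ h x)
    (fs : Bornology.IsBounded (Function.support f)) (gs : Bornology.IsBounded (Function.support g))
    (fsup : ∀ t < 1, ∃ x, t < f x) (gsup : ∀ t < 1, ∃ x, t < g x)
    (H : ∀ x y, 0 < f x → 0 < g y → (f x) ^ l * (g y) ^ (1 - l) ≤ h (l * x + (1 - l) * y)) :
    ENNReal.ofReal l * (∫⁻ x, ENNReal.ofReal (f x)) +
      ENNReal.ofReal (1 - l) * (∫⁻ x, ENNReal.ofReal (g x)) ≤ ∫⁻ x, ENNReal.ofReal (h x) := by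
  have hl1' : 0 < 1 - l := by linarith
  have mono : ∀ u : ℝ → ℝ, Measurable (fun t : ℝ => volume {x | t < u x}) := by
    intro u
    apply Antitone.measurable
    intro s t hst
    exact measure_mono (fun x hx => lt_of_le_of_lt hst hx)
  rw [bm2_layer hf f0 f1, bm2_layer hg g0 g1,
    lintegral_eq_lintegral_meas_lt volume (Filter.Eventually.of_forall h0) hh.aemeasurable,
    ← lintegral_const_mul _ (mono f), ← lintegral_const_mul _ (mono g),
    ← lintegral_add_left ((mono f).const_mul _)]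
  refine le_trans ?_ (lintegral_mono_set (show Ioo (0:ℝ) 1 ⊆ Ioi 0 from fun t ht => ht.1))
  refine setLIntegral_mono' measurableSet_Ioo ?_
  rintro t ⟨ht0, ht1⟩
  have fin : ∀ u : ℝ → ℝ, Bornology.IsBounded (Function.support u) →
      volume {x | t < u x} ≠ ∞ := by
    intro u hu
    refine ne_top_of_le_ne_top hu.measure_lt_top.ne (measure_mono ?_)
    intro x hx
    simp only [mem_setOf_eq] at hx
    exact (ht0.trans hx).ne'
  refine bm2_sets h1 hl0 hl1 (measurableSet_lt measurable_const hf)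
    (measurableSet_lt measurable_const hg) (fin f fs) (fin g gs) (fsup t ht1) (gsup t ht1) ?_
  intro a ha b hb
  simp only [mem_setOf_eq] at ha hb ⊢
  refine lt_of_lt_of_le ?_ (H a b (ht0.trans ha) (ht0.trans hb))
  calc t = t ^ l * t ^ (1 - l) := by
        rw [← Real.rpow_add ht0]; simp
    _ < (f a) ^ l * (g b) ^ (1 - l) := by
        apply mul_lt_mul (Real.rpow_lt_rpow ht0.le ha hl0)
          (Real.rpow_le_rpow ht0.le hb.le hl1'.le) (Real.rpow_pos_of_pos ht0 _)
          (Real.rpow_nonneg (f0 a) _)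

theorem bm2_integrable {f : ℝ → ℝ} {M : ℝ} (hf : Measurable f) (hb : ∀ x, 0 ≤ f x ∧ f x ≤ M)
    (hs : Bornology.IsBounded (Function.support f)) : Integrable f := by
  obtain ⟨R, hR⟩ := hs.subset_closedBall 0
  have : IntegrableOn f (closedBall 0 R) := by
    refine Measure.integrableOn_of_bounded (M := M) (measure_closedBall_lt_top.ne)
      hf.aestronglyMeasurable (Filter.Eventually.of_forall fun x => ?_)
    rw [Real.norm_eq_abs, abs_of_nonneg (hb x).1]; exact (hb x).2
  exact (integrableOn_iff_integrable_of_support_subset hR).1 this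

theorem prf_BM2 (h1 : S_BM1) : S_BM2 := by
  intro f g h l M hl0 hl1 hf hg hh fb gb hb fs gs hs H
  have hl1' : 0 < 1 - l := by linarith
  have If := bm2_integrable hf fb fs
  have Ig := bm2_integrable hg gb gs
  have Ih := bm2_integrable hh hb hs
  have nf : 0 ≤ ∫ x, f x := integral_nonneg fun x => (fb x).1
  have ng : 0 ≤ ∫ x, g x := integral_nonneg fun x => (gb x).1
  have nh : 0 ≤ ∫ x, h x := integral_nonneg fun x => (hb x).1
  rcases nf.eq_or_lt with hf0 | hfpos
  · rw [← hf0, Real.zero_rpow hl0.ne', zero_mul]; exact nh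
  rcases ng.eq_or_lt with hg0 | hgpos
  · rw [← hg0, Real.zero_rpow hl1'.ne', mul_zero]; exact nh
  -- suprema
  have bf : BddAbove (range f) := ⟨M, by rintro _ ⟨x, rfl⟩; exact (fb x).2⟩
  have bg : BddAbove (range g) := ⟨M, by rintro _ ⟨x, rfl⟩; exact (gb x).2⟩
  set F := ⨆ x, f x with hF
  set G := ⨆ x, g x with hG
  have lef : ∀ x, f x ≤ F := fun x => le_ciSup bf x
  have leg : ∀ x, g x ≤ G := fun x => le_ciSup bg x
  have Fpos : 0 < F := by
    by_contra hcon
    have : ∀ x, f x = 0 := fun x => le_antisymm ((lef x).trans (not_lt.1 hcon)) (fb x).1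
    simp [this] at hfpos
  have Gpos : 0 < G := by
    by_contra hcon
    have : ∀ x, g x = 0 := fun x => le_antisymm ((leg x).trans (not_lt.1 hcon)) (gb x).1
    simp [this] at hgpos
  set c := F ^ l * G ^ (1 - l) with hc
  have cpos : 0 < c := mul_pos (Real.rpow_pos_of_pos Fpos _) (Real.rpow_pos_of_pos Gpos _)
  have main := bm2_normal h1 (f := fun x => f x / F) (g := fun x => g x / G)
    (h := fun x => h x / c) hl0 hl1 (hf.div_const _) (hg.div_const _) (hh.div_const _)
    (fun x => div_nonneg (fb x).1 Fpos.le) (fun x => (div_le_one Fpos).2 (lef x))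
    (fun x => div_nonneg (gb x).1 Gpos.le) (fun x => (div_le_one Gpos).2 (leg x))
    (fun x => div_nonneg (hb x).1 cpos.le)
    (fs.subset (by
      intro x hx; simp only [Function.mem_support] at hx ⊢
      intro h0; exact hx (by simp [h0])))
    (gs.subset (by
      intro x hx; simp only [Function.mem_support] at hx ⊢
      intro h0; exact hx (by simp [h0])))
    (by
      intro t ht
      obtain ⟨x, hx⟩ := exists_lt_of_lt_ciSup (show t * F < ⨆ x, f x by
        rw [← hF]; nlinarith)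
      exact ⟨x, by rw [lt_div_iff₀ Fpos]; exact hx⟩)
    (by
      intro t ht
      obtain ⟨x, hx⟩ := exists_lt_of_lt_ciSup (show t * G < ⨆ x, g x by
        rw [← hG]; nlinarith)
      exact ⟨x, by rw [lt_div_iff₀ Gpos]; exact hx⟩)
    (by
      intro x y hx hy
      have hx' : 0 < f x := by
        rcases (fb x).1.eq_or_lt with h0 | h0
        · rw [← h0] at hx; simp at hx
        · exact h0
      have hy' : 0 < g y := by
        rcases (gb y).1.eq_or_lt with h0 | h0
        · rw [← h0] at hy; simp at hy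
        · exact h0
      have := H x y hx' hy'
      rw [Real.div_rpow (fb x).1 Fpos.le, Real.div_rpow (gb y).1 Gpos.le, div_mul_div_comm, ← hc]
      exact div_le_div_of_nonneg_right this cpos.le)
  have e1 : ∫⁻ x, ENNReal.ofReal (f x / F) = ENNReal.ofReal ((∫ x, f x) / F) := by
    rw [← ofReal_integral_eq_lintegral_ofReal (If.div_const F)
      (Filter.Eventually.of_forall fun x => div_nonneg (fb x).1 Fpos.le), integral_div]
  have e2 : ∫⁻ x, ENNReal.ofReal (g x / G) = ENNReal.ofReal ((∫ x, g x) / G) := by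
    rw [← ofReal_integral_eq_lintegral_ofReal (Ig.div_const G)
      (Filter.Eventually.of_forall fun x => div_nonneg (gb x).1 Gpos.le), integral_div]
  have e3 : ∫⁻ x, ENNReal.ofReal (h x / c) = ENNReal.ofReal ((∫ x, h x) / c) := by
    rw [← ofReal_integral_eq_lintegral_ofReal (Ih.div_const c)
      (Filter.Eventually.of_forall fun x => div_nonneg (hb x).1 cpos.le), integral_div]
  simp only [e1, e2, e3] at main
  rw [← ENNReal.ofReal_mul hl0.le, ← ENNReal.ofReal_mul hl1'.le,
    ← ENNReal.ofReal_add (by positivity) (by positivity),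
    ENNReal.ofReal_le_ofReal_iff (by positivity)] at main
  have amgm := Real.geom_mean_le_arith_mean2_weighted hl0.le hl1'.le
    (show 0 ≤ (∫ x, f x) / F by positivity) (show 0 ≤ (∫ x, g x) / G by positivity) (by ring)
  have := amgm.trans main
  rw [Real.div_rpow nf Fpos.le, Real.div_rpow ng Gpos.le, div_mul_div_comm, ← hc,
    div_le_div_iff_of_pos_right cpos] at this
  exact this

end Pool.Agent.Robin

end

section

set_option autoImplicit false

open MeasureTheory Set Metric
open scoped ENNReal NNReal Pointwise RealInnerProductSpace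

namespace Pool.Agent.Robin

namespace IBM3

/-- vertical sections -/
def sec (K : Set E2) (x : ℝ) : Set ℝ := {y : ℝ | (!₂[x, y] : E2) ∈ K}

/-- the chart of the plane -/
noncomputable def ch (p : ℝ × ℝ) : E2 := !₂[p.1, p.2]

lemma ch_mp : MeasurePreserving ch (volume : Measure (ℝ × ℝ)) (volume : Measure E2) := by
  have h1 := (volume_preserving_finTwoArrow ℝ).symm
  have h2 := PiLp.volume_preserving_toLp (Fin 2)
  have h3 := h2.comp h1
  have : ch = (WithLp.toLp 2 : (Fin 2 → ℝ) → E2) ∘ (MeasurableEquiv.finTwoArrow (α := ℝ)).symm := by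
    funext p
    rfl
  rw [this]
  exact h3

lemma ch_cont : Continuous ch := by
  unfold ch
  fun_prop

lemma volume_eq (K : Set E2) (hK : IsCompact K) :
    volume K = ∫⁻ x : ℝ, volume (sec K x) := by
  have hm : MeasurableSet K := hK.measurableSet
  rw [← ch_mp.measure_preimage hm.nullMeasurableSet]
  rw [Measure.volume_eq_prod, Measure.prod_apply (ch_mp.measurable hm)]
  rfl

lemma sec_meas (K : Set E2) (hK : IsCompact K) : Measurable fun x : ℝ => volume (sec K x) := by
  have hm : MeasurableSet (ch ⁻¹' K) := ch_mp.measurable hK.measurableSet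
  exact measurable_measure_prodMk_left hm

lemma sec_compact (K : Set E2) (hK : IsCompact K) (x : ℝ) : IsCompact (sec K x) := by
  have h1 : IsClosed (sec K x) := by
    have : Continuous fun y : ℝ => (!₂[x, y] : E2) := by fun_prop
    exact hK.isClosed.preimage this
  have h2 : IsCompact ((fun p : E2 => p 1) '' K) := hK.image (by fun_prop)
  apply h2.of_isClosed_subset h1
  intro y hy
  exact ⟨_, hy, by simp⟩

lemma sec_le (K : Set E2) (x : ℝ) : sec K x ⊆ (fun p : E2 => p 1) '' K := by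
  intro y hy
  exact ⟨_, hy, by simp⟩

/-- length of the section -/
noncomputable def sf (K : Set E2) (x : ℝ) : ℝ := (volume (sec K x)).toReal

lemma sf_le (K : Set E2) (hK : IsCompact K) (x : ℝ) :
    sf K x ≤ (volume ((fun p : E2 => p 1) '' K)).toReal := by
  have h2 : IsCompact ((fun p : E2 => p 1) '' K) := hK.image (by fun_prop)
  exact ENNReal.toReal_mono h2.measure_ne_top (measure_mono (sec_le K x))

lemma sf_supp (K : Set E2) (hK : IsCompact K) : Bornology.IsBounded (Function.support (sf K)) := by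
  have h2 : IsCompact ((fun p : E2 => p 0) '' K) := hK.image (by fun_prop)
  apply h2.isBounded.subset
  intro x hx
  rw [Function.mem_support] at hx
  have h3 : (sec K x).Nonempty := by
    by_contra h
    rw [not_nonempty_iff_eq_empty] at h
    apply hx
    unfold sf
    rw [h]
    simp
  obtain ⟨y, hy⟩ := h3
  exact ⟨_, hy, by simp⟩

lemma area_eq (K : Set E2) (hK : IsCompact K) : area K = ∫ x, sf K x := by
  unfold area sf
  rw [volume_eq K hK]
  rw [integral_toReal (sec_meas K hK).aemeasurable]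
  filter_upwards with x
  exact (sec_compact K hK x).measure_lt_top

lemma sf_pos_nonempty (K : Set E2) (x : ℝ) (h : 0 < sf K x) : (sec K x).Nonempty := by
  by_contra h1
  rw [not_nonempty_iff_eq_empty] at h1
  unfold sf at h
  rw [h1] at h
  simp at h

end IBM3

theorem prf_BM3 (h1 : S_BM1) (h2 : S_BM2) : S_BM3 := by
  intro A B l hl hl1 hA hB _ _
  set C : Set E2 := l • A + (1 - l) • B with hC
  have hCc : IsCompact C := (hA.smul l).add (hB.smul (1 - l))
  set M : ℝ := (volume ((fun p : E2 => p 1) '' A)).toReal +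
    (volume ((fun p : E2 => p 1) '' B)).toReal + (volume ((fun p : E2 => p 1) '' C)).toReal
    with hM
  have n1 : 0 ≤ (volume ((fun p : E2 => p 1) '' A)).toReal := ENNReal.toReal_nonneg
  have n2 : 0 ≤ (volume ((fun p : E2 => p 1) '' B)).toReal := ENNReal.toReal_nonneg
  have n3 : 0 ≤ (volume ((fun p : E2 => p 1) '' C)).toReal := ENNReal.toReal_nonneg
  rw [IBM3.area_eq A hA, IBM3.area_eq B hB, IBM3.area_eq C hCc]
  have hl' : 0 < 1 - l := by linarith
  apply h2 (IBM3.sf A) (IBM3.sf B) (IBM3.sf C) l M hl hl1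
    (IBM3.sec_meas A hA).ennreal_toReal (IBM3.sec_meas B hB).ennreal_toReal
    (IBM3.sec_meas C hCc).ennreal_toReal
  · intro x
    have := IBM3.sf_le A hA x
    exact ⟨ENNReal.toReal_nonneg, by linarith⟩
  · intro x
    have := IBM3.sf_le B hB x
    exact ⟨ENNReal.toReal_nonneg, by linarith⟩
  · intro x
    have := IBM3.sf_le C hCc x
    exact ⟨ENNReal.toReal_nonneg, by linarith⟩
  · exact IBM3.sf_supp A hA
  · exact IBM3.sf_supp B hB
  · exact IBM3.sf_supp C hCc
  · intro x y hx hy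
    have hxn := IBM3.sf_pos_nonempty A x hx
    have hyn := IBM3.sf_pos_nonempty B y hy
    have hAx := IBM3.sec_compact A hA x
    have hBy := IBM3.sec_compact B hB y
    have hsub : l • IBM3.sec A x + (1 - l) • IBM3.sec B y ⊆
        IBM3.sec C (l * x + (1 - l) * y) := by
      rintro z ⟨a, ⟨a', ha', rfl⟩, b, ⟨b', hb', rfl⟩, rfl⟩
      show (!₂[l * x + (1 - l) * y, l • a' + (1 - l) • b'] : E2) ∈ C
      have : (!₂[l * x + (1 - l) * y, l • a' + (1 - l) • b'] : E2) =
          l • (!₂[x, a'] : E2) + (1 - l) • (!₂[y, b'] : E2) := by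
        ext i
        fin_cases i <;> simp
      rw [this]
      exact Set.add_mem_add (Set.smul_mem_smul_set ha') (Set.smul_mem_smul_set hb')
    have hbm := h1 (l • IBM3.sec A x) ((1 - l) • IBM3.sec B y) (hAx.smul l)
      (hBy.smul (1 - l)) (hxn.smul_set) (hyn.smul_set)
    have hle := hbm.trans (measure_mono hsub)
    rw [Measure.addHaar_smul, Measure.addHaar_smul] at hle
    have hfin : volume (IBM3.sec C (l * x + (1 - l) * y)) ≠ ⊤ :=
      (IBM3.sec_compact C hCc _).measure_ne_top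
    have hle2 := ENNReal.toReal_mono hfin hle
    rw [ENNReal.toReal_add (ENNReal.mul_ne_top ENNReal.ofReal_ne_top hAx.measure_ne_top)
      (ENNReal.mul_ne_top ENNReal.ofReal_ne_top hBy.measure_ne_top), ENNReal.toReal_mul,
      ENNReal.toReal_mul] at hle2
    simp only [Module.finrank_self, pow_one, abs_of_pos hl, abs_of_pos hl',
      ENNReal.toReal_ofReal hl.le, ENNReal.toReal_ofReal hl'.le] at hle2
    refine le_trans ?_ hle2
    exact Real.geom_mean_le_arith_mean2_weighted hl.le hl'.le ENNReal.toReal_nonneg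
      ENNReal.toReal_nonneg (by ring)

end Pool.Agent.Robin

end
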