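import Pool.Agent.Work.MP_4b551e_an.Stmts35

/-! Bundle of small proof modules (one section per former module). -/

section

set_option autoImplicit false

open Set

namespace Pool.Agent.Robin

namespace IC1

variable {α : Type} [TopologicalSpace α]

/-- the inclusion as a continuous map -/
def inc {A B : Set α} (h : A ⊆ B) : C(A, B) := ⟨Set.inclusion h, continuous_inclusion h⟩

/-- gluing of locally constant functions -/
theorem glue {A B : Set α} (hA : IsClosed A) (hB : IsClosed B)
    (f : LocallyConstant A (ZMod 2)) (g : LocallyConstant B (ZMod 2))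
    (hfg : LocallyConstant.comap (inc (inter_subset_left : A ∩ B ⊆ A)) f =
      LocallyConstant.comap (inc (inter_subset_right : A ∩ B ⊆ B)) g) :
    ∃ h : LocallyConstant (A ∪ B : Set α) (ZMod 2),
      LocallyConstant.comap (inc (subset_union_left : A ⊆ A ∪ B)) h = f ∧
      LocallyConstant.comap (inc (subset_union_right : B ⊆ A ∪ B)) h = g := by
  classical
  have hfg' : ∀ (x : α) (ha : x ∈ A) (hb : x ∈ B), f ⟨x, ha⟩ = g ⟨x, hb⟩ := by
    intro x ha hb
    have := congrArg (fun F : LocallyConstant (A ∩ B : Set α) (ZMod 2) => F ⟨x, ha, hb⟩) hfg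
    exact this
  let h0 : (A ∪ B : Set α) → ZMod 2 := fun x =>
    if hx : (x : α) ∈ A then f ⟨x, hx⟩ else g ⟨x, x.2.resolve_left hx⟩
  have hA0 : ∀ (x : (A ∪ B : Set α)) (ha : (x : α) ∈ A), h0 x = f ⟨x, ha⟩ := by
    intro x ha
    simp only [h0]
    rw [dif_pos ha]
  have hB0 : ∀ (x : (A ∪ B : Set α)) (hb : (x : α) ∈ B), h0 x = g ⟨x, hb⟩ := by
    intro x hb
    by_cases ha : (x : α) ∈ A
    · rw [hA0 x ha]
      exact hfg' x ha hb
    · simp only [h0]
      rw [dif_neg ha]
  have hc : Continuous h0 := by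
    have hcA : ContinuousOn h0 {x : (A ∪ B : Set α) | (x : α) ∈ A} := by
      rw [continuousOn_iff_continuous_domRestrict]
      have : ({x : (A ∪ B : Set α) | (x : α) ∈ A}.domRestrict h0) =
          f ∘ (fun y : {x : (A ∪ B : Set α) | (x : α) ∈ A} => (⟨y.1.1, y.2⟩ : A)) := by
        funext y
        exact hA0 y.1 y.2
      rw [this]
      exact f.continuous.comp (by fun_prop)
    have hcB : ContinuousOn h0 {x : (A ∪ B : Set α) | (x : α) ∈ B} := by
      rw [continuousOn_iff_continuous_domRestrict]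
      have : ({x : (A ∪ B : Set α) | (x : α) ∈ B}.domRestrict h0) =
          g ∘ (fun y : {x : (A ∪ B : Set α) | (x : α) ∈ B} => (⟨y.1.1, y.2⟩ : B)) := by
        funext y
        exact hB0 y.1 y.2
      rw [this]
      exact g.continuous.comp (by fun_prop)
    have h1 := hcA.union_of_isClosed hcB (hA.preimage continuous_subtype_val)
      (hB.preimage continuous_subtype_val)
    have h2 : {x : (A ∪ B : Set α) | (x : α) ∈ A} ∪ {x : (A ∪ B : Set α) | (x : α) ∈ B} =
        univ := by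
      ext x
      simp only [mem_union, mem_ofPred_eq, mem_univ, iff_true]
      exact x.2
    rw [h2, continuousOn_univ] at h1
    exact h1
  refine ⟨⟨h0, (IsLocallyConstant.iff_continuous h0).2 hc⟩, ?_, ?_⟩
  · ext x
    exact hA0 _ x.2
  · ext x
    exact hB0 _ x.2

/-- Mayer-Vietoris inequality in a general space -/
theorem mv (A B : Set α) (hA : IsClosed A) (hB : IsClosed B) :
    b0 A + b0 B ≤ b0 (A ∪ B : Set α) + b0 (A ∩ B : Set α) := by
  let rA : LocallyConstant A (ZMod 2) →ₗ[ZMod 2] LocallyConstant (A ∩ B : Set α) (ZMod 2) :=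
    LocallyConstant.comapₗ (ZMod 2) (inc (inter_subset_left : A ∩ B ⊆ A))
  let rB : LocallyConstant B (ZMod 2) →ₗ[ZMod 2] LocallyConstant (A ∩ B : Set α) (ZMod 2) :=
    LocallyConstant.comapₗ (ZMod 2) (inc (inter_subset_right : A ∩ B ⊆ B))
  let sA : LocallyConstant (A ∪ B : Set α) (ZMod 2) →ₗ[ZMod 2] LocallyConstant A (ZMod 2) :=
    LocallyConstant.comapₗ (ZMod 2) (inc (subset_union_left : A ⊆ A ∪ B))
  let sB : LocallyConstant (A ∪ B : Set α) (ZMod 2) →ₗ[ZMod 2] LocallyConstant B (ZMod 2) :=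
    LocallyConstant.comapₗ (ZMod 2) (inc (subset_union_right : B ⊆ A ∪ B))
  let Φ : (LocallyConstant A (ZMod 2) × LocallyConstant B (ZMod 2)) →ₗ[ZMod 2]
      LocallyConstant (A ∩ B : Set α) (ZMod 2) :=
    rA.comp (LinearMap.fst _ _ _) - rB.comp (LinearMap.snd _ _ _)
  let Ψ : LocallyConstant (A ∪ B : Set α) (ZMod 2) →ₗ[ZMod 2]
      (LocallyConstant A (ZMod 2) × LocallyConstant B (ZMod 2)) := sA.prod sB
  have hker : LinearMap.ker Φ ≤ LinearMap.range Ψ := by
    rintro ⟨f, g⟩ hfg
    have h1 : rA f - rB g = 0 := hfg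
    obtain ⟨h, hf, hg⟩ := glue hA hB f g (sub_eq_zero.1 h1)
    exact ⟨h, Prod.ext hf hg⟩
  have h1 : Module.rank (ZMod 2) (LinearMap.ker Φ) ≤
      Module.rank (ZMod 2) (LocallyConstant (A ∪ B : Set α) (ZMod 2)) :=
    (Submodule.rank_mono hker).trans (rank_range_le Ψ)
  have h2 : Module.rank (ZMod 2) (LinearMap.range Φ) ≤
      Module.rank (ZMod 2) (LocallyConstant (A ∩ B : Set α) (ZMod 2)) :=
    Submodule.rank_le _
  have h3 := LinearMap.rank_range_add_rank_ker Φ
  rw [rank_prod'] at h3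
  unfold b0
  rw [← map_add, ← map_add]
  refine Cardinal.toENat.monotone' ?_
  rw [← h3, add_comm]
  exact add_le_add h1 h2

end IC1

theorem prf_C1 : S_C1 := fun A B hA hB => IC1.mv A B hA hB

end Pool.Agent.Robin

end

section

/-!
# C10: trigonometric sums
-/

open MeasureTheory Set Metric
open scoped ENNReal NNReal

namespace Pool.Agent.Robin

namespace C10

theorem sum_sin (a : ℝ) (j : ℕ) :
    2 * Real.sin (a / 2) * ∑ i ∈ Finset.range j, Real.sin (((j : ℝ) - i) * a) =
      Real.cos (a / 2) - Real.cos (((j : ℝ) + 1 / 2) * a) := by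
  induction j with
  | zero =>
    simp only [Finset.range_zero, Finset.sum_empty, mul_zero, Nat.cast_zero, zero_add]
    rw [show 1 / 2 * a = a / 2 by ring, sub_self]
  | succ j ih =>
    rw [Finset.sum_range_succ']
    have h1 : ∀ i ∈ Finset.range j, Real.sin ((((j + 1 : ℕ) : ℝ) - ((i + 1 : ℕ) : ℝ)) * a) =
        Real.sin (((j : ℝ) - i) * a) := by
      intro i _
      congr 1
      push_cast
      ring
    rw [Finset.sum_congr rfl h1, mul_add, ih]
    push_cast
    have h2 : 2 * Real.sin (a / 2) * Real.sin (((j : ℝ) + 1 - 0) * a) =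
        Real.cos (((j : ℝ) + 1 / 2) * a) - Real.cos (((j : ℝ) + 1 + 1 / 2) * a) := by
      have e1 : ((j : ℝ) + 1 / 2) * a = ((j : ℝ) + 1) * a - a / 2 := by ring
      have e2 : ((j : ℝ) + 1 + 1 / 2) * a = ((j : ℝ) + 1) * a + a / 2 := by ring
      rw [e1, e2, Real.cos_sub, Real.cos_add, sub_zero]
      ring
    rw [h2]
    ring

theorem sum_cos (a θ : ℝ) (n : ℕ) :
    2 * Real.sin (a / 2) * ∑ j ∈ Finset.range n, Real.cos (θ + j * a) =
      Real.sin (θ + n * a - a / 2) - Real.sin (θ - a / 2) := by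
  induction n with
  | zero => simp
  | succ n ih =>
    rw [Finset.sum_range_succ, mul_add, ih]
    push_cast
    have e1 : θ + ((n : ℝ) + 1) * a - a / 2 = (θ + n * a) + a / 2 := by ring
    rw [e1, Real.sin_add, Real.sin_sub (θ + n * a)]
    ring

theorem half_pos {n : ℕ} (hn : 0 < n) : 0 < Real.sin (Real.pi / (2 * n)) := by
  have hn' : (1 : ℝ) ≤ n := by exact_mod_cast hn
  apply Real.sin_pos_of_pos_of_lt_pi
  · have := Real.pi_pos; positivity
  · rw [div_lt_iff₀ (by positivity)]
    nlinarith [Real.pi_pos]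

end C10

theorem prf_C10a : S_C10a := by
  intro n hn
  have hn' : (n : ℝ) ≠ 0 := by positivity
  have hs := C10.half_pos hn
  set a : ℝ := Real.pi / n with ha
  have ha2 : Real.pi / (2 * n) = a / 2 := by rw [ha]; field_simp
  rw [ha2] at hs ⊢
  have h1 : ∀ j ∈ Finset.range n, ∑ i ∈ Finset.range j, Real.sin (((j : ℝ) - i) * Real.pi / n) =
      (Real.cos (a / 2) - Real.cos (((j : ℝ) + 1 / 2) * a)) / (2 * Real.sin (a / 2)) := by
    intro j _
    rw [← C10.sum_sin a j]
    rw [mul_div_cancel_left₀ _ (by positivity)]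
    refine Finset.sum_congr rfl fun i _ => ?_
    rw [mul_div_assoc]
  rw [Finset.sum_congr rfl h1, ← Finset.sum_div, Finset.sum_sub_distrib]
  have h2 : ∑ j ∈ Finset.range n, Real.cos (((j : ℝ) + 1 / 2) * a) = 0 := by
    have h3 := C10.sum_cos a (a / 2) n
    have h4 : (n : ℝ) * a = Real.pi := by rw [ha]; field_simp
    rw [h4] at h3
    have h5 : a / 2 + Real.pi - a / 2 = Real.pi := by ring
    rw [h5, Real.sin_pi, sub_self, Real.sin_zero, sub_zero] at h3
    rcases mul_eq_zero.1 h3 with h6 | h6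
    · exact absurd h6 (by positivity)
    · rw [← h6]
      refine Finset.sum_congr rfl fun j _ => ?_
      congr 1
      ring
  rw [h2, Finset.sum_const, Finset.card_range, nsmul_eq_mul, sub_zero]
  field_simp

theorem prf_C10b : S_C10b := by
  intro n θ hn
  have hn1 : (1 : ℝ) ≤ n := by exact_mod_cast hn
  have hn' : (n : ℝ) ≠ 0 := by positivity
  have hs := C10.half_pos hn
  set a : ℝ := Real.pi / n with ha
  have ha0 : 0 < a := by rw [ha]; have := Real.pi_pos; positivity
  have ha2 : Real.pi / (2 * n) = a / 2 := by rw [ha]; field_simp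
  have hna : (n : ℝ) * a = Real.pi := by rw [ha]; field_simp
  have hapi : a ≤ Real.pi := by
    rw [← hna]; nlinarith
  rw [ha2] at hs ⊢
  set F : ℝ → ℝ := fun θ => ∑ j ∈ Finset.range n, |Real.cos (θ + j * a)| with hF
  have hF' : ∑ j ∈ Finset.range n, |Real.cos (θ + j * Real.pi / n)| = F θ := by
    refine Finset.sum_congr rfl fun j _ => ?_
    rw [mul_div_assoc]
  rw [hF']
  have hper : Function.Periodic F a := by
    intro x
    have h1 : ∑ j ∈ Finset.range (n + 1), |Real.cos (x + j * a)| =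
        F x + |Real.cos (x + n * a)| := Finset.sum_range_succ _ _
    have h2 : ∑ j ∈ Finset.range (n + 1), |Real.cos (x + j * a)| =
        F (x + a) + |Real.cos (x + (0 : ℕ) * a)| := by
      rw [Finset.sum_range_succ']
      congr 1
      refine Finset.sum_congr rfl fun j _ => ?_
      congr 2
      push_cast
      ring
    have h3 : |Real.cos (x + n * a)| = |Real.cos (x + (0 : ℕ) * a)| := by
      rw [hna, Real.cos_add_pi, abs_neg]
      simp
    linarith
  set t : ℝ := toIcoMod ha0 (-(Real.pi / 2)) θ with ht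
  have htF : F θ = F t := by
    rw [ht, ← self_sub_toIcoDiv_zsmul, hper.sub_zsmul_eq]
  have hmem := toIcoMod_mem_Ico ha0 (-(Real.pi / 2)) θ
  rw [← ht] at hmem
  have hFt : F t = ∑ j ∈ Finset.range n, Real.cos (t + j * a) := by
    refine Finset.sum_congr rfl fun j hj => ?_
    rw [abs_of_nonneg]
    have hj' : (j : ℝ) + 1 ≤ n := by exact_mod_cast Finset.mem_range.1 hj
    have hj0 : (0 : ℝ) ≤ j := Nat.cast_nonneg j
    apply Real.cos_nonneg_of_neg_pi_div_two_le_of_le
    · have := hmem.1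
      have h1 : 0 ≤ (j : ℝ) * a := mul_nonneg hj0 ha0.le
      linarith
    · have h1 := hmem.2
      have h2 : ((j : ℝ) + 1) * a ≤ n * a := mul_le_mul_of_nonneg_right hj' ha0.le
      rw [hna] at h2
      linarith
  have hsum := C10.sum_cos a t n
  rw [hna, ← hFt, ← htF] at hsum
  have h4 : Real.sin (t + Real.pi - a / 2) = - Real.sin (t - a / 2) := by
    rw [show t + Real.pi - a / 2 = (t - a / 2) + Real.pi by ring, Real.sin_add_pi]
  rw [h4] at hsum
  set y : ℝ := t - a / 2 + Real.pi / 2 with hy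
  have h5 : - Real.sin (t - a / 2) = Real.cos y := by
    rw [hy, Real.cos_add_pi_div_two]
  have h6 : Real.sin (a / 2) * F θ = Real.cos y := by
    rw [← h5]; linarith
  have hyabs : |y| ≤ a / 2 := by
    rw [abs_le, hy]
    constructor
    · linarith [hmem.1]
    · linarith [hmem.2]
  have h7 : Real.cos (a / 2) ≤ Real.cos y := by
    rw [← Real.cos_abs y]
    apply Real.cos_le_cos_of_nonneg_of_le_pi (abs_nonneg _) _ hyabs
    linarith
  have h8 := Real.cos_le_one y
  constructor
  · rw [div_le_iff₀ hs]; linarith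
  · rw [le_div_iff₀ hs]; linarith

end Pool.Agent.Robin

end

section

set_option autoImplicit false

open MeasureTheory Set Metric
open scoped ENNReal NNReal Pointwise RealInnerProductSpace

namespace Pool.Agent.Robin

theorem C10c_lin (f : StrongDual ℝ E2) : ∃ ρ φ : ℝ, 0 ≤ ρ ∧
    (∀ x : E2, f x = ρ * (Real.cos φ * x 0 + Real.sin φ * x 1)) := by
  set a := f (!₂[1, 0] : E2) with ha
  set b := f (!₂[0, 1] : E2) with hb
  refine ⟨‖(⟨a, b⟩ : ℂ)‖, Complex.arg ⟨a, b⟩, norm_nonneg _, fun x => ?_⟩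
  have e1 : x = x 0 • (!₂[1, 0] : E2) + x 1 • (!₂[0, 1] : E2) := by
    ext i
    fin_cases i <;> simp
  have h1 : ‖(⟨a, b⟩ : ℂ)‖ * Real.cos (Complex.arg ⟨a, b⟩) = a := Complex.norm_mul_cos_arg _
  have h2 : ‖(⟨a, b⟩ : ℂ)‖ * Real.sin (Complex.arg ⟨a, b⟩) = b := Complex.norm_mul_sin_arg _
  calc f x = f (x 0 • (!₂[1, 0] : E2) + x 1 • (!₂[0, 1] : E2)) := by rw [← e1]
    _ = x 0 * a + x 1 * b := by
      rw [map_add, map_smul, map_smul, smul_eq_mul, smul_eq_mul]
    _ = _ := by
      linear_combination (-x 0) * h1 + (-x 1) * h2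

theorem C10c_isCompact (n : ℕ) (e : ℕ → E2) :
    IsCompact (∑ j ∈ Finset.range n, seg (e j)) := by
  induction n with
  | zero => simp
  | succ n ih =>
    rw [Finset.sum_range_succ]
    refine ih.add ?_
    unfold seg
    rw [segment_eq_image]
    exact isCompact_Icc.image (by fun_prop)

theorem prf_C10c (hb : S_C10b) : S_C10c := by
  intro n s hn hs
  set e : ℕ → E2 := fun j => rot (dirv (0 + j * Real.pi / n)) with he
  set ε : ℝ := 2 * s * (Real.sin (Real.pi / (2 * n)) / Real.cos (Real.pi / (2 * n))) with hε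
  have hn' : (2 : ℝ) ≤ n := by exact_mod_cast hn
  have hang : 0 < Real.pi / (2 * n) := by positivity
  have hang2 : Real.pi / (2 * n) < Real.pi / 2 := by
    rw [div_lt_div_iff₀ (by positivity) (by positivity)]
    nlinarith [Real.pi_pos]
  have hsin : 0 < Real.sin (Real.pi / (2 * n)) := Real.sin_pos_of_pos_of_lt_pi hang (by
    linarith [Real.pi_pos])
  have hcos : 0 < Real.cos (Real.pi / (2 * n)) := Real.cos_pos_of_mem_Ioo ⟨by linarith, hang2⟩
  have hε0 : 0 ≤ ε := by positivity
  refine ⟨(ε / 2) • ∑ j ∈ Finset.range n, e j, fun y hy => ?_⟩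
  by_contra hyZ
  have hcl : IsClosed (∑ j ∈ Finset.range n, seg (ε • e j)) := (C10c_isCompact n _).isClosed
  have hconv : Convex ℝ (∑ j ∈ Finset.range n, seg (ε • e j)) :=
    convex_sum _ fun j _ => convex_segment _ _
  obtain ⟨f, u, hf1, hf2⟩ := geometric_hahn_banach_point_closed hconv hcl hyZ
  obtain ⟨ρ, φ, hρ, hf⟩ := C10c_lin f
  -- the minimiser
  have hz : (∑ j ∈ Finset.range n, (if f (e j) ≤ 0 then ε • e j else 0)) ∈
      ∑ j ∈ Finset.range n, seg (ε • e j) := by
    refine Set.finsetSum_mem_finsetSum _ _ _ fun j _ => ?_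
    unfold seg
    split_ifs
    · exact right_mem_segment _ _ _
    · exact left_mem_segment _ _ _
  have h3 := hf2 _ hz
  have h4 : f (∑ j ∈ Finset.range n, (if f (e j) ≤ 0 then ε • e j else 0)) =
      (ε / 2) * ∑ j ∈ Finset.range n, f (e j) - (ε / 2) * ∑ j ∈ Finset.range n, |f (e j)| := by
    rw [map_sum, Finset.mul_sum, Finset.mul_sum, ← Finset.sum_sub_distrib]
    refine Finset.sum_congr rfl fun j _ => ?_
    split_ifs with h
    · rw [abs_of_nonpos h, map_smul, smul_eq_mul]
      ring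
    · rw [abs_of_pos (not_le.1 h), map_zero]
      ring
  have h5 : ∀ j, |f (e j)| = ρ * |Real.cos ((Real.pi / 2 - φ) + j * Real.pi / n)| := by
    intro j
    rw [hf, abs_mul, abs_of_nonneg hρ]
    congr 2
    simp only [he, rot, dirv]
    have q1 : (Real.pi / 2 - φ) + (j : ℝ) * Real.pi / n =
      Real.pi / 2 - (φ - j * Real.pi / n) := by ring
    rw [q1, Real.cos_pi_div_two_sub, Real.sin_sub, zero_add]
    simp
    ring
  have h6 : ρ * (Real.cos (Real.pi / (2 * n)) / Real.sin (Real.pi / (2 * n))) ≤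
      ∑ j ∈ Finset.range n, |f (e j)| := by
    simp only [h5]
    rw [← Finset.mul_sum]
    exact mul_le_mul_of_nonneg_left (hb n (Real.pi / 2 - φ) (by omega)).1 hρ
  have h7 : s * ρ ≤ (ε / 2) * ∑ j ∈ Finset.range n, |f (e j)| := by
    refine le_trans (le_of_eq ?_) (mul_le_mul_of_nonneg_left h6 (by positivity))
    rw [hε]
    field_simp
  -- Cauchy-Schwarz
  have h8 : f ((ε / 2) • ∑ j ∈ Finset.range n, e j) - f y ≤ ρ * s := by
    have q1 : ‖y - (ε / 2) • ∑ j ∈ Finset.range n, e j‖ ≤ s := by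
      rw [← dist_eq_norm]
      exact mem_closedBall.1 hy
    set w : E2 := y - (ε / 2) • ∑ j ∈ Finset.range n, e j with hw
    have q2 : f ((ε / 2) • ∑ j ∈ Finset.range n, e j) - f y = - f w := by
      rw [hw, map_sub]
      ring
    rw [q2, hf, ← mul_neg]
    refine mul_le_mul_of_nonneg_left ?_ hρ
    have q3 : ‖w‖ ^ 2 = (w 0) ^ 2 + (w 1) ^ 2 := by
      rw [EuclideanSpace.norm_sq_eq, Fin.sum_univ_two, Real.norm_eq_abs, Real.norm_eq_abs, sq_abs,
        sq_abs]
    have q4 : (w 0) ^ 2 + (w 1) ^ 2 ≤ s ^ 2 := by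
      rw [← q3]
      exact pow_le_pow_left₀ (norm_nonneg _) q1 2
    refine abs_le_of_sq_le_sq' ?_ hs |>.2
    have q5 := Real.sin_sq_add_cos_sq φ
    nlinarith [sq_nonneg (Real.sin φ * w 0 - Real.cos φ * w 1)]
  rw [map_smul, map_sum, smul_eq_mul] at h8
  rw [h4] at h3
  linarith

end Pool.Agent.Robin

end

section

/-!
Steiner inequality for compact connected sets with Lipschitz boundary.
-/

open MeasureTheory Set Metric Filter Topology
open scoped ENNReal NNReal Pointwise RealInnerProductSpace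

namespace Pool.Agent.Robin

namespace C12

theorem x_pos (n : ℕ) (hn : 2 ≤ n) : 0 < Real.pi / (2 * n) := by
  have : (0 : ℝ) < n := by exact_mod_cast (by omega : 0 < n)
  have := Real.pi_pos
  positivity

theorem x_lt (n : ℕ) (hn : 2 ≤ n) : Real.pi / (2 * n) < Real.pi / 2 := by
  have h1 : (2 : ℝ) ≤ n := by exact_mod_cast hn
  have := Real.pi_pos
  exact div_lt_div_of_pos_left Real.pi_pos (by norm_num) (by linarith)

theorem cos_pos (n : ℕ) (hn : 2 ≤ n) : 0 < Real.cos (Real.pi / (2 * n)) :=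
  Real.cos_pos_of_mem_Ioo ⟨by linarith [x_pos n hn, Real.pi_pos], x_lt n hn⟩

theorem sin_pos (n : ℕ) (hn : 2 ≤ n) : 0 < Real.sin (Real.pi / (2 * n)) :=
  Real.sin_pos_of_pos_of_lt_pi (x_pos n hn) (by linarith [x_lt n hn, Real.pi_pos])

theorem tendsto_x : Tendsto (fun n : ℕ => Real.pi / (2 * (n : ℝ))) atTop (𝓝 0) := by
  have h1 : Tendsto (fun n : ℕ => (2 * (n : ℝ))) atTop atTop :=
    (tendsto_natCast_atTop_atTop (R := ℝ)).const_mul_atTop (by norm_num)
  exact tendsto_const_nhds.div_atTop h1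

theorem tendsto_bound (s p : ℝ) : Tendsto (fun n : ℕ =>
    s * p / Real.cos (Real.pi / (2 * (n : ℝ))) + 2 * n * s ^ 2 *
      (Real.sin (Real.pi / (2 * (n : ℝ))) / Real.cos (Real.pi / (2 * (n : ℝ))))) atTop
    (𝓝 (s * p + Real.pi * s ^ 2)) := by
  have hc : Tendsto (fun n : ℕ => Real.cos (Real.pi / (2 * (n : ℝ)))) atTop (𝓝 1) := by
    have := (Real.continuous_cos.tendsto 0).comp tendsto_x
    rwa [Real.cos_zero] at this
  have hs : Tendsto (fun n : ℕ => Real.sinc (Real.pi / (2 * (n : ℝ)))) atTop (𝓝 1) := by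
    have := (Real.continuous_sinc.tendsto 0).comp tendsto_x
    rwa [Real.sinc_zero] at this
  have h1 : Tendsto (fun n : ℕ => s * p / Real.cos (Real.pi / (2 * (n : ℝ))) +
      Real.pi * s ^ 2 * (Real.sinc (Real.pi / (2 * (n : ℝ))) /
        Real.cos (Real.pi / (2 * (n : ℝ))))) atTop
      (𝓝 (s * p / 1 + Real.pi * s ^ 2 * (1 / 1))) :=
    (tendsto_const_nhds.div hc one_ne_zero).add ((hs.div hc one_ne_zero).const_mul _)
  rw [div_one, div_one, mul_one] at h1
  refine h1.congr' ?_
  filter_upwards [eventually_ge_atTop 2] with n hn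
  have hx := x_pos n hn
  have hn0 : (0 : ℝ) < n := by exact_mod_cast (by omega : 0 < n)
  congr 1
  rw [Real.sinc_of_ne_zero hx.ne']
  have hc := cos_pos n hn
  have hpi := Real.pi_pos
  field_simp

end C12

open C12 in
theorem prf_C12 (h2 : S_B2) (hc : S_Crofton) (h9 : S_C9) (ha : S_C10a) (hcc : S_C10c)
    (h11 : S_C11) : S_C12 := by
  intro K s hK hcon hlip hs
  have hfr : IsCompact (frontier K) := hK.of_isClosed_subset isClosed_frontier
    (by
      have := frontier_subset_closure (s := K)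
      rwa [hK.isClosed.closure_eq] at this)
  set P : ℝ≥0∞ := μH[1] (frontier K) with hP
  have hPfin : P < ⊤ := (h2 K hlip hfr).1
  have hPer : P = ENNReal.ofReal (per K) := (ENNReal.ofReal_toReal hPfin.ne).symm
  have hper0 : 0 ≤ per K := ENNReal.toReal_nonneg
  -- the estimate for n directions
  have main : ∀ n : ℕ, 2 ≤ n → volume (cthickening s K) ≤ volume K + ENNReal.ofReal
      (s * per K / Real.cos (Real.pi / (2 * (n : ℝ))) + 2 * n * s ^ 2 *
      (Real.sin (Real.pi / (2 * (n : ℝ))) / Real.cos (Real.pi / (2 * (n : ℝ))))) := by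
    intro n hn
    have hn0 : 0 < n := by omega
    have hcp := cos_pos n hn
    have hsp := sin_pos n hn
    have hnR : (0 : ℝ) < n := by exact_mod_cast hn0
    set S := Real.sin (Real.pi / (2 * (n : ℝ))) with hS
    set C := Real.cos (Real.pi / (2 * (n : ℝ))) with hC
    obtain ⟨c, hcZ⟩ := hcc n s hn hs
    rw [← hS, ← hC] at hcZ
    set ε := 2 * s * (S / C) with hε
    have hε0 : 0 ≤ ε := by positivity
    set Z := ∑ j ∈ Finset.range n, seg (ε • rot (dirv (0 + j * Real.pi / n))) with hZ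
    -- volume of the thickening
    have e1 : volume (cthickening s K) ≤ volume (K + Z) := by
      have e2 : volume (K + closedBall c s) = volume (cthickening s K) := by
        rw [hK.add_closedBall hs c, measure_vadd]
      rw [← e2]
      exact measure_mono (Set.add_subset_add_left hcZ)
    have e3 := h9 K n 0 ε hK hcon hn0 hε0
    rw [ha n hn0, ← hS, ← hC] at e3
    obtain ⟨G, hGm, hGc, hGi⟩ := hc K (frontier K) hlip hfr isClosed_frontier.measurableSet
      subset_rfl n 0 hn0
    have e4 : ∀ j ∈ Finset.range n, 2 * Ncomp K (dirv (0 + j * Real.pi / n)) ≤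
        ∫⁻ c : ℝ, G j c := by
      intro j _
      unfold Ncomp
      rw [← lintegral_const_mul' _ _ ENNReal.ofNat_ne_top]
      refine lintegral_mono_ae ?_
      have hnu : ‖dirv (0 + j * Real.pi / n)‖ = 1 := by
        unfold dirv
        rw [EuclideanSpace.norm_eq]
        simp
      filter_upwards [h11 K (dirv (0 + j * Real.pi / n)) hK hlip hnu] with c hc'
      exact hc'.trans (hGc j c)
    have e5 : 2 * ∑ j ∈ Finset.range n, Ncomp K (dirv (0 + j * Real.pi / n)) ≤
        ENNReal.ofReal (1 / S) * P := by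
      rw [Finset.mul_sum]
      exact (Finset.sum_le_sum e4).trans hGi
    have e6 : ENNReal.ofReal ε * ∑ j ∈ Finset.range n, Ncomp K (dirv (0 + j * Real.pi / n)) ≤
        ENNReal.ofReal (s * per K / C) := by
      have e7 : ENNReal.ofReal ε = ENNReal.ofReal (s * (S / C)) * 2 := by
        rw [hε, show 2 * s * (S / C) = s * (S / C) * 2 by ring,
          ENNReal.ofReal_mul (by positivity), ENNReal.ofReal_ofNat]
      rw [e7, mul_assoc]
      refine (mul_le_mul_right e5 _).trans ?_
      rw [hPer, ← ENNReal.ofReal_mul (by positivity), ← ENNReal.ofReal_mul (by positivity)]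
      refine ENNReal.ofReal_le_ofReal (le_of_eq ?_)
      field_simp
    have e8 : ε ^ 2 * ((n : ℝ) / 2 * (C / S)) = 2 * n * s ^ 2 * (S / C) := by
      rw [hε]
      field_simp
    rw [e8] at e3
    refine e1.trans (e3.trans ?_)
    rw [ENNReal.ofReal_add (by positivity) (by positivity), ← add_assoc]
    gcongr
  have hlim : Tendsto (fun n : ℕ => volume K + ENNReal.ofReal
      (s * per K / Real.cos (Real.pi / (2 * (n : ℝ))) + 2 * n * s ^ 2 *
      (Real.sin (Real.pi / (2 * (n : ℝ))) / Real.cos (Real.pi / (2 * (n : ℝ)))))) atTop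
      (𝓝 (volume K + ENNReal.ofReal (s * per K + Real.pi * s ^ 2))) :=
    tendsto_const_nhds.add ((ENNReal.continuous_ofReal.tendsto _).comp (tendsto_bound s (per K)))
  refine ge_of_tendsto hlim ?_
  filter_upwards [eventually_ge_atTop 2] with n hn
  exact main n hn

end Pool.Agent.Robin

end

section

open MeasureTheory Set Metric
open scoped ENNReal NNReal Pointwise RealInnerProductSpace

namespace Pool.Agent.Robin

namespace C13

/-- The linear isometry with `e0 ↦ ν`, `e1 ↦ rot ν`. -/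
noncomputable def rotLin (ν : E2) (hν : ‖ν‖ = 1) : E2 →ₗᵢ[ℝ] E2 where
  toFun x := x 0 • ν + x 1 • rot ν
  map_add' x y := by
    ext i; fin_cases i <;> simp [rot] <;> ring
  map_smul' c x := by
    ext i; fin_cases i <;> simp [rot] <;> ring
  norm_map' x := by
    have h1 : (ν 0) ^ 2 + (ν 1) ^ 2 = 1 := by
      have := EuclideanSpace.real_norm_sq_eq ν
      rw [hν] at this
      simpa [Fin.sum_univ_two] using this.symm
    have h2 : ‖x 0 • ν + x 1 • rot ν‖ ^ 2 = ‖x‖ ^ 2 := by
      rw [EuclideanSpace.real_norm_sq_eq, EuclideanSpace.real_norm_sq_eq]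
      simp only [Fin.sum_univ_two]
      simp [rot]
      have : (x 0 * ν 0 + -(x 1 * ν 1)) ^ 2 + (x 0 * ν 1 + x 1 * ν 0) ^ 2 =
          (x 0 ^ 2 + x 1 ^ 2) * ((ν 0) ^ 2 + (ν 1) ^ 2) := by ring
      rw [this, h1, mul_one]
    exact (sq_eq_sq₀ (norm_nonneg _) (norm_nonneg _)).1 h2

/-- The coordinates along `ν` and `rot ν`. -/
noncomputable def psi (ν : E2) : ℝ × ℝ → E2 := fun q => q.1 • ν + q.2 • rot ν

theorem psi_mp (ν : E2) (hν : ‖ν‖ = 1) : MeasurePreserving (psi ν) volume volume := by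
  have h1 := ((rotLin ν hν).toLinearIsometryEquiv rfl).measurePreserving
  have h2 := (PiLp.volume_preserving_toLp (Fin 2)).comp (volume_preserving_finTwoArrow ℝ).symm
  have h3 : psi ν = ⇑((rotLin ν hν).toLinearIsometryEquiv rfl) ∘
      (WithLp.toLp 2 ∘ ⇑(MeasurableEquiv.finTwoArrow (α := ℝ)).symm) := by
    funext q
    simp [psi, rotLin, MeasurableEquiv.finTwoArrow]
  rw [h3]
  exact h1.comp h2

theorem psi_cont (ν : E2) : Continuous (psi ν) := by
  unfold psi; fun_prop

/-- Section of a set by the line with normal `ν`. -/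
noncomputable def sec (A : Set E2) (ν : E2) (c : ℝ) : Set ℝ := {t | c • ν + t • rot ν ∈ A}

theorem volume_eq (A : Set E2) (ν : E2) (hν : ‖ν‖ = 1) (hA : MeasurableSet A) :
    volume A = ∫⁻ c : ℝ, volume (sec A ν c) := by
  rw [← (psi_mp ν hν).measure_preimage hA.nullMeasurableSet]
  have : (volume : Measure (ℝ × ℝ)) = (volume : Measure ℝ).prod volume := rfl
  rw [this, Measure.prod_apply ((psi_cont ν).measurable hA)]
  rfl

theorem norm_rot (ν : E2) : ‖rot ν‖ = ‖ν‖ := by
  have : ‖rot ν‖ ^ 2 = ‖ν‖ ^ 2 := by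
    rw [EuclideanSpace.real_norm_sq_eq, EuclideanSpace.real_norm_sq_eq]
    simp [rot, Fin.sum_univ_two]
    ring
  exact (sq_eq_sq₀ (norm_nonneg _) (norm_nonneg _)).1 this

theorem sec_compact (A : Set E2) (ν : E2) (hν : ‖ν‖ = 1) (hA : IsCompact A) (c : ℝ) :
    IsCompact (sec A ν c) := by
  have hi : Isometry (fun t : ℝ => c • ν + t • rot ν) := by
    refine Isometry.of_dist_eq fun t t' => ?_
    rw [dist_add_left, dist_eq_norm, ← sub_smul, norm_smul, norm_rot, hν, mul_one,
      Real.dist_eq, Real.norm_eq_abs]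
  exact hi.isClosedEmbedding.isCompact_preimage hA

theorem mem_seg (h : E2) (x : E2) : x ∈ seg h ↔ ∃ θ ∈ Icc (0 : ℝ) 1, x = θ • h := by
  unfold seg
  rw [segment_eq_image]
  constructor
  · rintro ⟨θ, hθ, rfl⟩
    exact ⟨θ, hθ, by simp⟩
  · rintro ⟨θ, hθ, rfl⟩
    exact ⟨θ, hθ, by simp⟩

theorem smul_mem_seg (h : E2) (ε u : ℝ) (hu : u ∈ Icc 0 ε) : u • h ∈ seg (ε • h) := by
  rw [mem_seg]
  rcases eq_or_lt_of_le (le_trans hu.1 hu.2) with h0 | h0
  · refine ⟨0, by simp, ?_⟩
    have : u = 0 := le_antisymm (h0 ▸ hu.2) hu.1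
    simp [this]
  · refine ⟨u / ε, ⟨div_nonneg hu.1 h0.le, (div_le_one h0).2 hu.2⟩, ?_⟩
    rw [smul_smul, div_mul_cancel₀ _ h0.ne']

theorem sec_add (A : Set E2) (ν : E2) (ε c t u : ℝ) (ht : t ∈ sec A ν c) (hu : u ∈ Icc 0 ε) :
    t + u ∈ sec (A + seg (ε • rot ν)) ν c := by
  refine ⟨c • ν + t • rot ν, ht, u • rot ν, smul_mem_seg _ _ _ hu, ?_⟩
  simp only
  rw [add_smul]; abel

theorem vol_real (X Y : Set ℝ) (ε : ℝ) (hX : IsCompact X) (hne : X.Nonempty)
    (h : ∀ t ∈ X, ∀ u ∈ Icc 0 ε, t + u ∈ Y) (hε : 0 ≤ ε) :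
    volume X + ENNReal.ofReal ε ≤ volume Y := by
  set m := sSup X with hm
  have hmX : m ∈ X := hX.sSup_mem hne
  have hsub : X ∪ Ioc m (m + ε) ⊆ Y := by
    rintro x (hx | hx)
    · have := h x hx 0 ⟨le_rfl, hε⟩
      simpa using this
    · have := h m hmX (x - m) ⟨by linarith [hx.1], by linarith [hx.2]⟩
      simpa using this
  have hd : Disjoint X (Ioc m (m + ε)) := by
    rw [Set.disjoint_left]
    intro x hx hx2
    have : x ≤ m := le_csSup hX.bddAbove hx
    linarith [hx2.1]
  calc volume X + ENNReal.ofReal ε = volume (X ∪ Ioc m (m + ε)) := by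
        rw [measure_union hd measurableSet_Ioc]; simp
    _ ≤ volume Y := measure_mono hsub

theorem seg_compact (h : E2) : IsCompact (seg h) := by
  have : seg h = (fun θ : ℝ => θ • h) '' Icc (0 : ℝ) 1 := by
    ext x; rw [mem_seg]
    constructor
    · rintro ⟨θ, hθ, rfl⟩; exact ⟨θ, hθ, rfl⟩
    · rintro ⟨θ, hθ, rfl⟩; exact ⟨θ, hθ, rfl⟩
  rw [this]
  exact isCompact_Icc.image (by fun_prop)

theorem vol_add_seg (A : Set E2) (ν : E2) (hν : ‖ν‖ = 1) (hA : IsCompact A) (ε lo hi : ℝ)
    (hε : 0 ≤ ε) (hproj : ∀ c ∈ Icc lo hi, (sec A ν c).Nonempty) :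
    volume A + ENNReal.ofReal ε * ENNReal.ofReal (hi - lo) ≤ volume (A + seg (ε • rot ν)) := by
  have hA' : IsCompact (A + seg (ε • rot ν)) := hA.add (seg_compact _)
  rw [volume_eq _ ν hν hA'.measurableSet, volume_eq A ν hν hA.measurableSet]
  have h1 : ENNReal.ofReal ε * ENNReal.ofReal (hi - lo) =
      ∫⁻ c : ℝ, (Icc lo hi).indicator (fun _ => ENNReal.ofReal ε) c := by
    rw [lintegral_indicator measurableSet_Icc, lintegral_const]
    simp
  rw [h1, ← lintegral_add_right _ (measurable_const.indicator measurableSet_Icc)]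
  refine lintegral_mono fun c => ?_
  simp only
  by_cases hc : c ∈ Icc lo hi
  · rw [indicator_of_mem hc]
    exact vol_real _ _ ε (sec_compact A ν hν hA c) (hproj c hc)
      (fun t ht u hu => sec_add A ν ε c t u ht hu) hε
  · rw [indicator_of_notMem hc, add_zero]
    refine measure_mono fun t ht => ?_
    have := sec_add A ν ε c t 0 ht ⟨le_rfl, hε⟩
    simpa using this

theorem norm_dirv (θ : ℝ) : ‖dirv θ‖ = 1 := by
  have : ‖dirv θ‖ ^ 2 = 1 ^ 2 := by
    rw [EuclideanSpace.real_norm_sq_eq]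
    simp [dirv, Fin.sum_univ_two]
  exact (sq_eq_sq₀ (norm_nonneg _) (by norm_num)).1 this

theorem inner_rot_dirv (θ φ : ℝ) : ⟪rot (dirv θ), dirv φ⟫ = Real.sin (φ - θ) := by
  rw [Real.sin_sub, PiLp.inner_apply]
  simp [rot, dirv, Fin.sum_univ_two]
  ring

theorem sec_nonempty (A : Set E2) (ν : E2) (hν : ‖ν‖ = 1) (x : E2) (hx : x ∈ A) :
    (sec A ν ⟪x, ν⟫).Nonempty := by
  refine ⟨⟪x, rot ν⟫, ?_⟩
  have h1 : (ν 0) ^ 2 + (ν 1) ^ 2 = 1 := by
    have := EuclideanSpace.real_norm_sq_eq ν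
    rw [hν] at this
    simpa [Fin.sum_univ_two] using this.symm
  have : ⟪x, ν⟫ • ν + ⟪x, rot ν⟫ • rot ν = x := by
    ext i
    rw [PiLp.inner_apply, PiLp.inner_apply]
    fin_cases i <;> simp [rot, Fin.sum_univ_two]
    · linear_combination (x 0) * h1
    · linear_combination (x 1) * h1
  show _ ∈ A
  rw [this]; exact hx

theorem zero_mem_seg (h : E2) : (0 : E2) ∈ seg h := by
  rw [mem_seg]; exact ⟨0, by simp, by simp⟩

theorem self_mem_seg (h : E2) : h ∈ seg h := by
  rw [mem_seg]; exact ⟨1, by simp, by simp⟩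

theorem convex_sum_seg (m : ℕ) (h : ℕ → E2) :
    Convex ℝ (∑ j ∈ Finset.range m, seg (h j)) := by
  refine Finset.sum_induction _ (Convex ℝ) (fun a b ha hb => ha.add hb) ?_ ?_
  · exact convex_singleton 0
  · intro j _; exact convex_segment _ _

theorem compact_sum_seg (m : ℕ) (h : ℕ → E2) :
    IsCompact (∑ j ∈ Finset.range m, seg (h j)) := by
  refine Finset.sum_induction _ IsCompact (fun a b ha hb => ha.add hb) ?_ ?_
  · exact isCompact_singleton
  · intro j _; exact seg_compact _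

theorem vol_zono (n : ℕ) (hn : 0 < n) (M ε : ℝ) (hM : 0 < M) (hε : 0 ≤ ε) (m : ℕ)
    (hm : m ≤ n) :
    volume (closedBall (0 : E2) M) + ENNReal.ofReal (ε * (m * (2 * M)) +
        ε ^ 2 * ∑ j ∈ Finset.range m, ∑ i ∈ Finset.range j,
          Real.sin (((j : ℝ) - i) * Real.pi / n)) ≤
      volume (closedBall (0 : E2) M + ∑ j ∈ Finset.range m,
        seg (ε • rot (dirv (0 + j * Real.pi / n)))) := by
  have hsin : ∀ j i : ℕ, i < j → j ≤ n → 0 ≤ Real.sin (((j : ℝ) - i) * Real.pi / n) := by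
    intro j i hij hj
    have hn' : (0 : ℝ) < n := by exact_mod_cast hn
    have h1 : (0 : ℝ) ≤ (j : ℝ) - i := by
      have : (i : ℝ) ≤ j := by exact_mod_cast hij.le
      linarith
    have h2 : (j : ℝ) - i ≤ n := by
      have : (j : ℝ) ≤ n := by exact_mod_cast hj
      have : (0 : ℝ) ≤ i := by positivity
      linarith
    apply Real.sin_nonneg_of_nonneg_of_le_pi
    · positivity
    · rw [div_le_iff₀ hn', mul_comm Real.pi]
      exact mul_le_mul_of_nonneg_right h2 Real.pi_pos.le
  induction m with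
  | zero => simp
  | succ m ih =>
    have ih := ih (by omega)
    set S := ∑ j ∈ Finset.range m, seg (ε • rot (dirv (0 + j * Real.pi / n))) with hS
    set A := closedBall (0 : E2) M + S with hA
    set ν := dirv (0 + m * Real.pi / n) with hν
    have hAc : IsCompact A := (isCompact_closedBall _ _).add (compact_sum_seg _ _)
    have hAv : Convex ℝ A := (convex_closedBall _ _).add (convex_sum_seg _ _)
    have h0S : (0 : E2) ∈ S := by
      have := Set.finsetSum_mem_finsetSum (Finset.range m)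
        (fun j : ℕ => seg (ε • rot (dirv (0 + j * Real.pi / n)))) (fun _ => (0 : E2))
        (fun i _ => zero_mem_seg _)
      rw [Finset.sum_const_zero] at this
      exact this
    set W := ∑ i ∈ Finset.range m, Real.sin (((m : ℝ) - i) * Real.pi / n) with hW
    have hx1 : ((-M) • ν : E2) ∈ A := by
      refine ⟨(-M) • ν, ?_, 0, h0S, by simp⟩
      simp only [mem_closedBall, dist_zero_right]
      rw [norm_smul, norm_dirv]; simp [abs_of_pos hM]
    have hx2 : (M • ν + ∑ i ∈ Finset.range m, ε • rot (dirv (0 + i * Real.pi / n)) : E2) ∈ A := by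
      refine ⟨M • ν, ?_, _, Set.finsetSum_mem_finsetSum (Finset.range m)
        (fun j : ℕ => seg (ε • rot (dirv (0 + j * Real.pi / n)))) _
        (fun i _ => self_mem_seg _), rfl⟩
      simp only [mem_closedBall, dist_zero_right]
      rw [norm_smul, norm_dirv]; simp [abs_of_pos hM]
    have hv1 : ⟪((-M) • ν : E2), ν⟫ = -M := by
      rw [inner_smul_left, real_inner_self_eq_norm_sq, norm_dirv]; simp
    have hv2 : ⟪(M • ν + ∑ i ∈ Finset.range m, ε • rot (dirv (0 + i * Real.pi / n)) : E2), ν⟫ =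
        M + ε * W := by
      rw [inner_add_left, inner_smul_left, real_inner_self_eq_norm_sq, norm_dirv, sum_inner,
        hW, Finset.mul_sum]
      simp only [inner_smul_left, inner_rot_dirv, hν]
      simp only [conj_trivial, one_pow, mul_one]
      congr 1
      refine Finset.sum_congr rfl fun i _ => ?_
      congr 2
      ring
    have hproj : ∀ c ∈ Icc (-M) (M + ε * W), (sec A ν c).Nonempty := by
      intro c hc
      have := hAv.isPreconnected.intermediate_value hx1 hx2
        (f := fun x : E2 => ⟪x, ν⟫) (by fun_prop)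
      simp only [hv1, hv2] at this
      obtain ⟨x, hx, rfl⟩ := this hc
      exact sec_nonempty A ν (norm_dirv _) x hx
    have hstep := vol_add_seg A ν (norm_dirv _) hAc ε (-M) (M + ε * W) hε hproj
    have hW0 : 0 ≤ W := Finset.sum_nonneg fun i hi =>
      hsin m i (Finset.mem_range.1 hi) (by omega)
    have hV0 : 0 ≤ ∑ j ∈ Finset.range m, ∑ i ∈ Finset.range j,
          Real.sin (((j : ℝ) - i) * Real.pi / n) :=
      Finset.sum_nonneg fun j hj => Finset.sum_nonneg fun i hi =>
        hsin j i (Finset.mem_range.1 hi) (by have := Finset.mem_range.1 hj; omega)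
    have hset : closedBall (0 : E2) M + ∑ j ∈ Finset.range (m + 1),
        seg (ε • rot (dirv (0 + j * Real.pi / n))) = A + seg (ε • rot ν) := by
      rw [Finset.sum_range_succ, ← add_assoc]
    rw [hset]
    refine le_trans ?_ (le_trans (add_le_add_left ih _) hstep)
    have p1 : 0 ≤ ε * (m * (2 * M)) + ε ^ 2 * ∑ j ∈ Finset.range m, ∑ i ∈ Finset.range j,
          Real.sin (((j : ℝ) - i) * Real.pi / n) :=
      add_nonneg (by positivity) (mul_nonneg (sq_nonneg _) hV0)
    have p2 : 0 ≤ ε * (M + ε * W - -M) := by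
      have : 0 ≤ ε * W := mul_nonneg hε hW0
      apply mul_nonneg hε; linarith
    rw [add_assoc, ← ENNReal.ofReal_mul hε, ← ENNReal.ofReal_add p1 p2]
    have hfin : ε * (((m + 1 : ℕ) : ℝ) * (2 * M)) +
        ε ^ 2 * ∑ j ∈ Finset.range (m + 1), ∑ i ∈ Finset.range j,
          Real.sin (((j : ℝ) - i) * Real.pi / n) =
        ε * (m * (2 * M)) + ε ^ 2 * ∑ j ∈ Finset.range m, ∑ i ∈ Finset.range j,
          Real.sin (((j : ℝ) - i) * Real.pi / n) + ε * (M + ε * W - -M) := by
      rw [Finset.sum_range_succ, ← hW]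
      push_cast
      ring
    rw [hfin]

theorem norm_le_coord (v : E2) : ‖v‖ ≤ |v 0| + |v 1| := by
  have h : ‖v‖ ^ 2 = (v 0) ^ 2 + (v 1) ^ 2 := by
    rw [EuclideanSpace.real_norm_sq_eq]; simp [Fin.sum_univ_two]
  have h0 := abs_nonneg (v 0)
  have h1 := abs_nonneg (v 1)
  refine abs_le_of_sq_le_sq' ?_ (by positivity) |>.2
  rw [h, ← sq_abs (v 0), ← sq_abs (v 1)]
  nlinarith [mul_nonneg h0 h1]

theorem chart_local (K K' : Set E2) (p : E2) (L : E2 ≃ₗᵢ[ℝ] E2) (f : ℝ → ℝ) (C : ℝ≥0)
    (a b δ : ℝ) (hδ : 0 < δ) (h : Chart K p L f C a b)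
    (hK : ∀ x ∈ ball p δ, (x ∈ K' ↔ x ∈ K)) : ∃ a' b', Chart K' p L f C a' b' := by
  have hb := h.b_pos
  have ha := h.a_pos
  set b' := min b (δ / 2) with hb'
  have hb'0 : 0 < b' := lt_min hb (by linarith)
  set a' := min a (min (δ / 2) (b' / (2 * ((C : ℝ) + 1)))) with ha'
  have hC : (0 : ℝ) ≤ C := C.2
  have ha'0 : 0 < a' := lt_min ha (lt_min (by linarith) (by positivity))
  refine ⟨a', b', ha'0, hb'0, h.lip, h.f0, ?_, ?_⟩
  · intro t ht
    have h1 : |f t| ≤ C * |t| := by
      have := h.lip.dist_le_mul t 0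
      rw [h.f0] at this
      simpa [Real.dist_eq] using this
    have h2 : |t| ≤ b' / (2 * ((C : ℝ) + 1)) :=
      ht.trans ((min_le_right _ _).trans (min_le_right _ _))
    have h3 : (C : ℝ) * |t| ≤ C * (b' / (2 * ((C : ℝ) + 1))) :=
      mul_le_mul_of_nonneg_left h2 hC
    have h4 : (C : ℝ) * (b' / (2 * ((C : ℝ) + 1))) < b' := by
      rw [← mul_div_assoc, div_lt_iff₀ (by positivity)]
      nlinarith
    linarith
  · intro x hx hy
    have hx' : |cx L p x| < a := hx.trans_le (min_le_left _ _)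
    have hy' : |cy L p x| < b := hy.trans_le (min_le_left _ _)
    rw [← h.mem x hx' hy']
    refine hK x ?_
    rw [mem_ball, dist_eq_norm, ← L.norm_map (x - p)]
    refine lt_of_le_of_lt (norm_le_coord _) ?_
    have e1 : |(L (x - p)) 0| < δ / 2 :=
      lt_of_lt_of_le hx ((min_le_right _ _).trans (min_le_left _ _))
    have e2 : |(L (x - p)) 1| < δ / 2 := lt_of_lt_of_le hy (min_le_right _ _)
    linarith

theorem lipClosed_EB (h1 : S_B1) (hA4 : S_A4) (G : Set E2) (hG : Admissible G) (M : ℝ)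
    (hM : 0 < M) (hGM : G ⊆ ball 0 (M / 2)) : LipClosed (Gᶜ ∩ closedBall 0 M) := by
  have hcl : closure G ⊆ closedBall 0 (M / 2) :=
    (closure_mono hGM).trans closure_ball_subset_closedBall
  refine ⟨hG.isOpen.isClosed_compl.inter isClosed_closedBall, ?_⟩
  intro p hp
  have hp' := frontier_inter_subset _ _ hp
  rcases hp' with hp' | hp'
  · have hpG : p ∈ frontier G := by rw [← frontier_compl]; exact hp'.1
    have hpn : ‖p‖ ≤ M / 2 := by
      have := hcl (frontier_subset_closure hpG)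
      simpa using this
    obtain ⟨L, f, C, a, b, hch⟩ := (h1 G hG).2 p hp'.1
    obtain ⟨a', b', h'⟩ := chart_local Gᶜ (Gᶜ ∩ closedBall 0 M) p L f C a b (M / 2)
      (by linarith) hch (by
        intro x hx
        have hxM : x ∈ closedBall (0 : E2) M := by
          rw [mem_ball, dist_eq_norm] at hx
          rw [mem_closedBall, dist_zero_right]
          have : ‖x‖ ≤ ‖x - p‖ + ‖p‖ := by
            simpa using norm_add_le (x - p) p
          linarith
        exact ⟨fun h => h.1, fun h => ⟨h, hxM⟩⟩)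
    exact ⟨L, f, C, a', b', h'⟩
  · have hpn : ‖p‖ = M := by
      have := hp'.2
      rw [frontier_closedBall' (0 : E2) M] at this
      simpa using this
    have hann : Admissible (annulus M (M + 1)) := hA4 M (M + 1) hM (by linarith)
    have hpfr : p ∈ frontier (annulus M (M + 1))ᶜ := by
      rw [frontier_compl, frontier, hann.isOpen.interior_eq]
      refine ⟨?_, fun h => by have := h.1; linarith⟩
      rw [Metric.mem_closure_iff]
      intro ε hε
      set η := min (ε / (2 * M)) (1 / (2 * M)) with hη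
      have hη0 : 0 < η := lt_min (by positivity) (by positivity)
      refine ⟨(1 + η) • p, ?_, ?_⟩
      · have hn : ‖(1 + η) • p‖ = M + η * M := by
          rw [norm_smul, hpn, Real.norm_of_nonneg (by positivity)]; ring
        have : η * M ≤ 1 / 2 := by
          calc η * M ≤ (1 / (2 * M)) * M :=
                mul_le_mul_of_nonneg_right (min_le_right _ _) hM.le
            _ = 1 / 2 := by field_simp
        have hpos : 0 < η * M := by positivity
        exact ⟨by rw [hn]; linarith, by rw [hn]; linarith⟩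
      · rw [dist_eq_norm]
        have : p - (1 + η) • p = (-η) • p := by
          rw [add_smul, one_smul, neg_smul]; abel
        rw [this, norm_smul, hpn, norm_neg, Real.norm_of_nonneg hη0.le]
        have : η * M ≤ ε / 2 := by
          calc η * M ≤ (ε / (2 * M)) * M :=
                mul_le_mul_of_nonneg_right (min_le_left _ _) hM.le
            _ = ε / 2 := by field_simp
        linarith
    obtain ⟨L, f, C, a, b, hch⟩ := (h1 _ hann).2 p hpfr
    obtain ⟨a', b', h'⟩ := chart_local (annulus M (M + 1))ᶜ (Gᶜ ∩ closedBall 0 M) p L f C a b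
      (min (M / 2) 1) (lt_min (by linarith) one_pos) hch (by
        intro x hx
        rw [mem_ball, dist_eq_norm] at hx
        have hx1 : ‖x - p‖ < M / 2 := hx.trans_le (min_le_left _ _)
        have hx2 : ‖x - p‖ < 1 := hx.trans_le (min_le_right _ _)
        have hl : ‖p‖ - ‖x‖ ≤ ‖x - p‖ := by
          rw [norm_sub_rev]; exact norm_sub_norm_le _ _
        have hu : ‖x‖ - ‖p‖ ≤ ‖x - p‖ := norm_sub_norm_le _ _
        have hxG : x ∉ G := by
          intro hxG
          have := hGM hxG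
          rw [mem_ball, dist_zero_right] at this
          linarith
        constructor
        · rintro ⟨_, h2⟩ h3
          rw [mem_closedBall, dist_zero_right] at h2
          have := h3.1
          linarith
        · intro h2
          refine ⟨hxG, ?_⟩
          rw [mem_closedBall, dist_zero_right]
          by_contra h3
          rw [not_le] at h3
          exact h2 ⟨h3, by linarith⟩)
    exact ⟨L, f, C, a', b', h'⟩

theorem decomp_vec (ν : E2) (hν : ‖ν‖ = 1) (x : E2) : ⟪x, ν⟫ • ν + ⟪x, rot ν⟫ • rot ν = x := by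
  have h1 : (ν 0) ^ 2 + (ν 1) ^ 2 = 1 := by
    have := EuclideanSpace.real_norm_sq_eq ν
    rw [hν] at this
    simpa [Fin.sum_univ_two] using this.symm
  ext i
  rw [PiLp.inner_apply, PiLp.inner_apply]
  fin_cases i <;> simp [rot, Fin.sum_univ_two]
  · linear_combination (x 0) * h1
  · linear_combination (x 1) * h1

theorem norm_sq_decomp (ν : E2) (hν : ‖ν‖ = 1) (x : E2) :
    ‖x‖ ^ 2 = ⟪x, ν⟫ ^ 2 + ⟪x, rot ν⟫ ^ 2 := by
  have h1 : (ν 0) ^ 2 + (ν 1) ^ 2 = 1 := by
    have := EuclideanSpace.real_norm_sq_eq ν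
    rw [hν] at this
    simpa [Fin.sum_univ_two] using this.symm
  rw [EuclideanSpace.real_norm_sq_eq, PiLp.inner_apply, PiLp.inner_apply]
  simp [rot, Fin.sum_univ_two]
  linear_combination (-(x 0) ^ 2 - (x 1) ^ 2) * h1

theorem sphere_line (M : ℝ) (ν : E2) (hν : ‖ν‖ = 1) (c : ℝ) :
    (sphere (0 : E2) M ∩ line ν c).encard ≤ 2 := by
  have hsub : sphere (0 : E2) M ∩ line ν c ⊆
      {c • ν + Real.sqrt (M ^ 2 - c ^ 2) • rot ν, c • ν + (-Real.sqrt (M ^ 2 - c ^ 2)) • rot ν} := by
    rintro x ⟨hx, hc⟩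
    have hc' : ⟪x, ν⟫ = c := hc
    have hn : ‖x‖ = M := by simpa using hx
    have hd := decomp_vec ν hν x
    have hs := norm_sq_decomp ν hν x
    rw [hn, hc'] at hs
    rw [hc'] at hd
    have hu : Real.sqrt (M ^ 2 - c ^ 2) = |⟪x, rot ν⟫| := by
      rw [hs]; rw [← Real.sqrt_sq_eq_abs]; congr 1; ring
    rcases abs_choice ⟪x, rot ν⟫ with h | h
    · left; rw [hu, h]; exact hd.symm
    · right
      simp only [mem_singleton_iff]
      rw [hu, h, neg_neg]; exact hd.symm
  refine (Set.encard_le_encard hsub).trans ((Set.encard_insert_le _ _).trans ?_)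
  rw [Set.encard_singleton]; norm_num

theorem crs_mono (S T : Set E2) (ν : E2) (c : ℝ) (h : S ⊆ T) : crs S ν c ≤ crs T ν c := by
  unfold crs
  exact_mod_cast Set.encard_le_encard (inter_subset_inter_left _ h)

theorem crs_EB (G : Set E2) (M : ℝ) (ν : E2) (hν : ‖ν‖ = 1) (c : ℝ) :
    crs (frontier (Gᶜ ∩ closedBall 0 M)) ν c ≤ crs (frontier G) ν c + 2 := by
  have hsub : frontier (Gᶜ ∩ closedBall 0 M) ⊆ frontier G ∪ sphere 0 M := by
    intro x hx
    rcases frontier_inter_subset _ _ hx with h | h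
    · left; rw [← frontier_compl]; exact h.1
    · right
      have := h.2
      rwa [frontier_closedBall' (0 : E2) M] at this
  refine (crs_mono _ _ ν c hsub).trans ?_
  unfold crs
  rw [union_inter_distrib_right]
  have h1 := Set.encard_union_le (frontier G ∩ line ν c) (sphere (0 : E2) M ∩ line ν c)
  have h2 := sphere_line M ν hν c
  have h3 : ((frontier G ∩ line ν c) ∪ (sphere (0 : E2) M ∩ line ν c)).encard ≤
      (frontier G ∩ line ν c).encard + 2 := h1.trans (add_le_add_right h2 _)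
  calc (((frontier G ∩ line ν c ∪ sphere (0 : E2) M ∩ line ν c).encard : ℕ∞) : ℝ≥0∞)
      ≤ (((frontier G ∩ line ν c).encard + 2 : ℕ∞) : ℝ≥0∞) := by exact_mod_cast h3
    _ = _ := by push_cast; rfl

theorem crs_EB_zero (G : Set E2) (M : ℝ) (ν : E2) (hν : ‖ν‖ = 1) (c : ℝ) (hG : IsOpen G)
    (hc : c ∉ Icc (-M) M) :
    crs (frontier (Gᶜ ∩ closedBall 0 M)) ν c = 0 := by
  have : frontier (Gᶜ ∩ closedBall 0 M) ∩ line ν c = ∅ := by
    rw [eq_empty_iff_forall_notMem]
    rintro x ⟨hx, hl⟩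
    have hcl : IsClosed (Gᶜ ∩ closedBall (0 : E2) M) :=
      hG.isClosed_compl.inter isClosed_closedBall
    have hx' := (hcl.frontier_subset hx).2
    rw [mem_closedBall, dist_zero_right] at hx'
    have hl' : ⟪x, ν⟫ = c := hl
    have h1 : |⟪x, ν⟫| ≤ ‖x‖ * ‖ν‖ := abs_real_inner_le_norm x ν
    rw [hν, mul_one, hl'] at h1
    exact hc (abs_le.1 (h1.trans hx'))
  unfold crs
  rw [this]; simp

theorem ncomp_le (hC11 : S_C11) (h1 : S_B1) (hA4 : S_A4) (G : Set E2) (hG : Admissible G)
    (M : ℝ) (hM : 0 < M) (hGM : G ⊆ ball 0 (M / 2)) (ν : E2) (hν : ‖ν‖ = 1)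
    (F : ℝ → ℝ≥0∞) (hF : Measurable F) (hc : ∀ c, crs (frontier G) ν c ≤ F c) :
    Ncomp (Gᶜ ∩ closedBall 0 M) ν ≤ ENNReal.ofReal (2 * M) + 2⁻¹ * ∫⁻ c : ℝ, F c := by
  have hcomp : IsCompact (Gᶜ ∩ closedBall (0 : E2) M) :=
    (isCompact_closedBall _ _).inter_left hG.isOpen.isClosed_compl
  have hae := hC11 _ ν hcomp (lipClosed_EB h1 hA4 G hG M hM hGM) hν
  have hle : ∀ᵐ c : ℝ, ((bs ((Gᶜ ∩ closedBall 0 M) ∩ line ν c) : ℕ∞) : ℝ≥0∞) ≤
      (Icc (-M) M).indicator (fun _ => (1 : ℝ≥0∞)) c + 2⁻¹ * F c := by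
    filter_upwards [hae] with c hcc
    have h22 : (2 : ℝ≥0∞)⁻¹ * 2 = 1 :=
      ENNReal.inv_mul_cancel (by norm_num) (by norm_num)
    set β := ((bs ((Gᶜ ∩ closedBall 0 M) ∩ line ν c) : ℕ∞) : ℝ≥0∞) with hβ
    have hβ2 : β = 2⁻¹ * (2 * β) := by rw [← mul_assoc, h22, one_mul]
    by_cases hcI : c ∈ Icc (-M) M
    · rw [indicator_of_mem hcI, hβ2]
      have h3 : 2 * β ≤ F c + 2 := hcc.trans ((crs_EB G M ν hν c).trans
        (add_le_add_left (hc c) _))
      calc (2 : ℝ≥0∞)⁻¹ * (2 * β) ≤ 2⁻¹ * (F c + 2) := by gcongr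
        _ = 1 + 2⁻¹ * F c := by rw [mul_add, h22, add_comm]
    · rw [crs_EB_zero G M ν hν c hG.isOpen hcI] at hcc
      rw [hβ2]
      have : 2 * β = 0 := le_antisymm hcc (zero_le)
      rw [this]; simp
  unfold Ncomp
  refine (lintegral_mono_ae hle).trans ?_
  rw [lintegral_add_left (measurable_const.indicator measurableSet_Icc),
    lintegral_indicator measurableSet_Icc, lintegral_const, lintegral_const_mul _ hF]
  refine add_le_add_left (le_of_eq ?_) _
  rw [one_mul, Measure.restrict_apply MeasurableSet.univ, univ_inter, Real.volume_Icc]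
  congr 1; ring

theorem sum_sin_nonneg (n : ℕ) (hn : 0 < n) :
    0 ≤ ∑ j ∈ Finset.range n, ∑ i ∈ Finset.range j,
      Real.sin (((j : ℝ) - i) * Real.pi / n) := by
  refine Finset.sum_nonneg fun j hj => Finset.sum_nonneg fun i hi => ?_
  have hj' := Finset.mem_range.1 hj
  have hi' := Finset.mem_range.1 hi
  have hn' : (0 : ℝ) < n := by exact_mod_cast hn
  have h1 : (0 : ℝ) ≤ (j : ℝ) - i := by
    have : (i : ℝ) ≤ j := by exact_mod_cast hi'.le
    linarith
  have h2 : (j : ℝ) - i ≤ n := by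
    have : (j : ℝ) ≤ n := by exact_mod_cast hj'.le
    have : (0 : ℝ) ≤ i := by positivity
    linarith
  apply Real.sin_nonneg_of_nonneg_of_le_pi
  · positivity
  · rw [div_le_iff₀ hn', mul_comm Real.pi]
    exact mul_le_mul_of_nonneg_right h2 Real.pi_pos.le

theorem connected_EB (E : Set E2) (hE : IsConnected E) (M : ℝ) (hM : 0 < M)
    (hEM : ∀ x : E2, M ≤ ‖x‖ → x ∈ E) : IsConnected (E ∩ closedBall 0 M) := by
  have hpos : ∀ x : E2, 0 < max M ‖x‖ := fun x => lt_max_of_lt_left hM
  have hcont : Continuous (fun x : E2 => (M / max M ‖x‖) • x) := by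
    have : Continuous (fun x : E2 => M / max M ‖x‖) :=
      continuous_const.div (continuous_const.max continuous_norm) (fun x => (hpos x).ne')
    exact this.smul continuous_id
  have himg : (fun x : E2 => (M / max M ‖x‖) • x) '' E = E ∩ closedBall 0 M := by
    ext y
    constructor
    · rintro ⟨x, hx, rfl⟩
      simp only
      rcases le_total ‖x‖ M with h | h
      · rw [max_eq_left h, div_self hM.ne', one_smul]
        exact ⟨hx, by simpa using h⟩
      · rw [max_eq_right h]
        have hxn : 0 < ‖x‖ := hM.trans_le h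
        have hn : ‖(M / ‖x‖) • x‖ = M := by
          rw [norm_smul, Real.norm_of_nonneg (by positivity), div_mul_cancel₀ _ hxn.ne']
        exact ⟨hEM _ hn.ge, by rw [mem_closedBall, dist_zero_right]; exact hn.le⟩
    · rintro ⟨hy, hyM⟩
      rw [mem_closedBall, dist_zero_right] at hyM
      refine ⟨y, hy, ?_⟩
      simp only
      rw [max_eq_left hyM, div_self hM.ne', one_smul]
  rw [← himg]
  exact hE.image _ hcont.continuousOn

theorem key (h1 : S_B1) (hA4 : S_A4) (hC11 : S_C11) (hc : S_Crofton) (h9 : S_C9)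
    (hcc : S_C10c) (G : Set E2) (s : ℝ) (hG : Admissible G) (hGc : IsConnected Gᶜ) (hs : 0 ≤ s)
    (n : ℕ) (hn : 2 ≤ n) :
    volume {x | x ∈ G ∧ infDist x Gᶜ ≤ s} ≤
      ENNReal.ofReal (s / Real.cos (Real.pi / (2 * n))) * μH[1] (frontier G) := by
  have hn0 : 0 < n := by omega
  obtain ⟨R₀, hR₀, hGR⟩ := hG.isBounded.subset_ball_lt 0 0
  set M := 2 * (R₀ + s + 1) with hMdef
  have hM : 0 < M := by positivity
  have hM2 : M / 2 = R₀ + s + 1 := by rw [hMdef]; ring
  have hGM : G ⊆ ball 0 (M / 2) := hGR.trans (ball_subset_ball (by rw [hM2]; linarith))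
  have hEM : ∀ x : E2, M ≤ ‖x‖ → x ∈ Gᶜ := by
    intro x hx hxG
    have := hGM hxG
    rw [mem_ball, dist_zero_right] at this
    linarith
  have hGopen := hG.isOpen
  have hEcl : IsClosed Gᶜ := hGopen.isClosed_compl
  set B := closedBall (0 : E2) M with hB
  set EB := Gᶜ ∩ B with hEB
  have hEBc : IsCompact EB := (isCompact_closedBall _ _).inter_left hEcl
  have hEBconn : IsConnected EB := connected_EB _ hGc M hM hEM
  set θ := Real.pi / (2 * n) with hθ
  have hθ0 : 0 < θ := by positivity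
  have hθ1 : θ < Real.pi / 2 := by
    rw [hθ, div_lt_div_iff_of_pos_left Real.pi_pos (by positivity) (by norm_num)]
    have : (2 : ℝ) ≤ n := by exact_mod_cast hn
    linarith
  have hsinp : 0 < Real.sin θ := Real.sin_pos_of_pos_of_lt_pi hθ0 (by linarith [Real.pi_pos])
  have hcosp : 0 < Real.cos θ := Real.cos_pos_of_mem_Ioo ⟨by linarith, hθ1⟩
  set ε := 2 * s * (Real.sin θ / Real.cos θ) with hε
  have hε0 : 0 ≤ ε := by positivity
  set Z := ∑ j ∈ Finset.range n, seg (ε • rot (dirv (0 + j * Real.pi / n))) with hZ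
  have hZc : IsCompact Z := compact_sum_seg n _
  have hZv : Convex ℝ Z := convex_sum_seg n _
  obtain ⟨c, hcZ⟩ := hcc n s hn hs
  have hcZ' : closedBall c s ⊆ Z := hcZ
  have hcm : c ∈ Z := hcZ' (mem_closedBall_self hs)
  set S := ∑ j ∈ Finset.range n, ∑ i ∈ Finset.range j,
    Real.sin (((j : ℝ) - i) * Real.pi / n) with hS
  have hS0 : 0 ≤ S := sum_sin_nonneg n hn0
  -- the shifted sums
  set P : Set E2 → Set E2 := fun K => {y | y + c ∈ K + Z} with hP
  have hPvol : ∀ K, volume (P K) = volume (K + Z) := by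
    intro K
    exact measure_preimage_add_right volume c (K + Z)
  have hPmeas : MeasurableSet (P EB) := by
    have : IsClosed (P EB) := (hEBc.add hZc).isClosed.preimage (continuous_add_const c)
    exact this.measurableSet
  -- step 3
  have h3 : P B ⊆ P EB ∪ (G \ P EB) := by
    intro y hy
    by_cases hyE : y ∈ P EB
    · exact Or.inl hyE
    · right
      refine ⟨?_, hyE⟩
      by_contra hyG
      apply hyE
      have hyG' : y ∈ Gᶜ := hyG
      rcases le_or_gt ‖y‖ M with hle | hgt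
      · exact ⟨y, ⟨hyG', by rw [hB, mem_closedBall, dist_zero_right]; exact hle⟩, c, hcm, rfl⟩
      · obtain ⟨b, hb, z, hz, hbz⟩ := hy
        simp only at hbz
        rw [hB, mem_closedBall, dist_zero_right] at hb
        have hcont : ContinuousOn (fun t : ℝ => ‖b + t • (z - c)‖) (Icc 0 1) := by fun_prop
        have hyb : b + (z - c) = y := by
          rw [← add_sub_assoc, hbz, add_sub_cancel_right]
        have himv := intermediate_value_Icc (zero_le_one' ℝ) hcont
        simp only [zero_smul, add_zero, one_smul, hyb] at himv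
        obtain ⟨t, ht, htM⟩ := himv ⟨hb, hgt.le⟩
        simp only at htM
        refine ⟨b + t • (z - c), ⟨hEM _ htM.ge, ?_⟩, (1 - t) • z + t • c, ?_, ?_⟩
        · rw [hB, mem_closedBall, dist_zero_right]; exact htM.le
        · exact hZv hz hcm (by linarith [ht.2]) ht.1 (by ring)
        · simp only
          rw [← hyb, smul_sub, sub_smul, one_smul]; abel
  -- T is contained in G ∩ P EB
  have hT : {x | x ∈ G ∧ infDist x Gᶜ ≤ s} ⊆ G ∩ P EB := by
    rintro x ⟨hxG, hxs⟩
    refine ⟨hxG, ?_⟩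
    obtain ⟨e, heE, hed⟩ := hEcl.exists_infDist_eq_dist hGc.nonempty x
    have hxe : dist x e ≤ s := by rw [← hed]; exact hxs
    have hxn : ‖x‖ < M / 2 := by
      have := hGM hxG
      rwa [mem_ball, dist_zero_right] at this
    have hen : ‖e‖ ≤ M := by
      have : ‖e‖ ≤ ‖e - x‖ + ‖x‖ := by simpa using norm_add_le (e - x) x
      rw [dist_comm, dist_eq_norm] at hxe
      linarith
    refine ⟨e, ⟨heE, by rw [hB, mem_closedBall, dist_zero_right]; exact hen⟩, x - e + c,
      hcZ' ?_, ?_⟩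
    · rw [mem_closedBall, dist_eq_norm, add_sub_cancel_right, ← dist_eq_norm]; exact hxe
    · simp only; abel
  -- measures
  have hfinE : volume EB ≠ ⊤ := hEBc.measure_lt_top.ne
  have hab : volume (G ∩ P EB) + volume (G \ P EB) = volume G :=
    measure_inter_add_sdiff G hPmeas
  have hBsum : volume G + volume EB = volume B := by
    have := measure_inter_add_sdiff (μ := volume) B hGopen.measurableSet
    have hBG : B ∩ G = G := inter_eq_right.2
      (hGM.trans (ball_subset_closedBall.trans (closedBall_subset_closedBall (by linarith))))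
    have hBG2 : B \ G = EB := by
      rw [hEB]; ext x; simp [and_comm]
    rw [hBG, hBG2] at this
    exact this
  have hbfin : volume (G \ P EB) ≠ ⊤ := by
    refine ne_top_of_le_ne_top ?_ (measure_mono sdiff_subset)
    exact hG.isBounded.measure_lt_top.ne
  have e1 : volume (P B) ≤ volume (P EB) + volume (G \ P EB) :=
    (measure_mono h3).trans (measure_union_le _ _)
  rw [hPvol, hPvol] at e1
  have e2 := vol_zono n hn0 M ε hM hε0 n le_rfl
  have e3 := h9 EB n 0 ε hEBc hEBconn hn0 hε0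
  -- Crofton
  have hfr : frontier Gᶜ = frontier G := frontier_compl G
  have hfrc : IsCompact (frontier G) :=
    Metric.isCompact_of_isClosed_isBounded isClosed_frontier
      (hG.isBounded.closure.subset frontier_subset_closure)
  obtain ⟨F, hFm, hFc, hFs⟩ := hc Gᶜ (frontier G) (h1 G hG) (by rw [hfr]; exact hfrc)
    isClosed_frontier.measurableSet hfr.ge n 0 hn0
  have e4 : ∑ j ∈ Finset.range n, Ncomp EB (dirv (0 + j * Real.pi / n)) ≤
      n * ENNReal.ofReal (2 * M) + 2⁻¹ * ∑ j ∈ Finset.range n, ∫⁻ c : ℝ, F j c := by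
    rw [Finset.mul_sum]
    calc ∑ j ∈ Finset.range n, Ncomp EB (dirv (0 + j * Real.pi / n))
        ≤ ∑ j ∈ Finset.range n, (ENNReal.ofReal (2 * M) + 2⁻¹ * ∫⁻ c : ℝ, F j c) :=
          Finset.sum_le_sum fun j _ => ncomp_le hC11 h1 hA4 G hG M hM hGM _ (norm_dirv _) (F j)
            (hFm j) (hFc j)
      _ = _ := by rw [Finset.sum_add_distrib]; simp
  set I := ∑ j ∈ Finset.range n, ∫⁻ c : ℝ, F j c with hI
  set a := volume (G ∩ P EB) with ha
  set b := volume (G \ P EB) with hb
  set vE := volume EB with hvE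
  have hX : ENNReal.ofReal (ε * (n * (2 * M)) + ε ^ 2 * S) =
      ENNReal.ofReal ε * (n * ENNReal.ofReal (2 * M)) + ENNReal.ofReal (ε ^ 2 * S) := by
    have p1 : 0 ≤ ε * (n * (2 * M)) :=
      mul_nonneg hε0 (mul_nonneg (Nat.cast_nonneg n) (mul_nonneg zero_le_two hM.le))
    have p2 : 0 ≤ ε ^ 2 * S := mul_nonneg (sq_nonneg _) hS0
    rw [ENNReal.ofReal_add p1 p2, ENNReal.ofReal_mul hε0,
      ENNReal.ofReal_mul (Nat.cast_nonneg n), ENNReal.ofReal_natCast]
  rw [hX] at e2
  set Y := ENNReal.ofReal (ε ^ 2 * S) with hY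
  set X := ENNReal.ofReal ε * (n * ENNReal.ofReal (2 * M)) with hXdef
  have hXfin : X ≠ ⊤ := ENNReal.mul_ne_top ENNReal.ofReal_ne_top
    (ENNReal.mul_ne_top (ENNReal.natCast_ne_top n) ENNReal.ofReal_ne_top)
  have hYfin : Y ≠ ⊤ := ENNReal.ofReal_ne_top
  have e5 : ENNReal.ofReal ε * ∑ j ∈ Finset.range n, Ncomp EB (dirv (0 + j * Real.pi / n)) ≤
      X + ENNReal.ofReal ε * (2⁻¹ * I) := by
    rw [hXdef, ← mul_add]
    exact mul_le_mul_right e4 _
  have e6 : (b + vE + X + Y) + a ≤ (b + vE + X + Y) + ENNReal.ofReal ε * (2⁻¹ * I) := by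
    calc (b + vE + X + Y) + a = (a + b + vE) + (X + Y) := by ring
      _ = volume B + (X + Y) := by rw [hab, hBsum]
      _ ≤ volume (B + Z) := e2
      _ ≤ volume (EB + Z) + b := e1
      _ ≤ (vE + ENNReal.ofReal ε *
            ∑ j ∈ Finset.range n, Ncomp EB (dirv (0 + j * Real.pi / n)) + Y) + b :=
          add_le_add_left e3 _
      _ ≤ (vE + (X + ENNReal.ofReal ε * (2⁻¹ * I)) + Y) + b := by gcongr
      _ = _ := by ring
  have hfin : b + vE + X + Y ≠ ⊤ := by
    simp only [ne_eq, ENNReal.add_eq_top, not_or]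
    exact ⟨⟨⟨hbfin, hfinE⟩, hXfin⟩, hYfin⟩
  have e7 : a ≤ ENNReal.ofReal ε * (2⁻¹ * I) := (ENNReal.add_le_add_iff_left hfin).1 e6
  calc volume {x | x ∈ G ∧ infDist x Gᶜ ≤ s} ≤ a := measure_mono hT
    _ ≤ ENNReal.ofReal ε * (2⁻¹ * I) := e7
    _ ≤ ENNReal.ofReal ε * (2⁻¹ * (ENNReal.ofReal (1 / Real.sin θ) * μH[1] (frontier G))) := by
        gcongr
    _ = ENNReal.ofReal (s / Real.cos θ) * μH[1] (frontier G) := by
        have h2 : (2 : ℝ≥0∞)⁻¹ = ENNReal.ofReal (2⁻¹ : ℝ) := by
          rw [ENNReal.ofReal_inv_of_pos (by norm_num)]; simp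
        have p3 : 0 ≤ ε * 2⁻¹ := mul_nonneg hε0 (by norm_num)
        rw [h2, ← mul_assoc, ← mul_assoc, ← ENNReal.ofReal_mul hε0,
          ← ENNReal.ofReal_mul p3]
        have p4 : ε * 2⁻¹ * (1 / Real.sin θ) = s / Real.cos θ := by
          rw [hε]; field_simp
        rw [p4]

end C13

theorem prf_C13 (h1 : S_B1) (h2 : S_B2) (hA4 : S_A4) (hC11 : S_C11) (hc : S_Crofton)
    (h9 : S_C9) (hcc : S_C10c) : S_C13 := by
  intro G s hG hGc hs
  have hfr : frontier Gᶜ = frontier G := frontier_compl G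
  have hfrc : IsCompact (frontier G) :=
    Metric.isCompact_of_isClosed_isBounded isClosed_frontier
      (hG.isBounded.closure.subset frontier_subset_closure)
  have hfin : μH[1] (frontier G) ≠ ⊤ := by
    have := (h2 Gᶜ (h1 G hG) (by rw [hfr]; exact hfrc)).1
    rw [hfr] at this
    exact this.ne
  have hlim : Filter.Tendsto (fun n : ℕ =>
      ENNReal.ofReal (s / Real.cos (Real.pi / (2 * n))) * μH[1] (frontier G)) Filter.atTop
      (nhds (ENNReal.ofReal (s * per G))) := by
    have e1 : ENNReal.ofReal (s * per G) =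
        ENNReal.ofReal (s / Real.cos 0) * μH[1] (frontier G) := by
      rw [Real.cos_zero, div_one, ENNReal.ofReal_mul hs, per, ENNReal.ofReal_toReal hfin]
    rw [e1]
    refine ENNReal.Tendsto.mul_const ?_ (Or.inr hfin)
    refine ENNReal.tendsto_ofReal ?_
    refine Filter.Tendsto.div tendsto_const_nhds ?_ (by simp)
    refine (Real.continuous_cos.tendsto 0).comp ?_
    have : Filter.Tendsto (fun n : ℕ => Real.pi / 2 / (n : ℝ)) Filter.atTop (nhds 0) :=
      tendsto_const_div_atTop_nhds_zero_nat _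
    refine this.congr fun n => ?_
    rw [div_div]
  refine ge_of_tendsto hlim ?_
  filter_upwards [Filter.eventually_ge_atTop 2] with n hn
  exact C13.key h1 hA4 hC11 hc h9 hcc G s hG hGc hs n hn

end Pool.Agent.Robin

end

section

set_option autoImplicit false

namespace Pool.Agent.Robin

theorem prf_C2 : S_C2 := by
  intro X Y _ _ f hf hs
  unfold b0
  refine Cardinal.toENat.monotone' ?_
  exact LinearMap.rank_le_of_injective
    (LocallyConstant.comapₗ (ZMod 2) (⟨f, hf⟩ : C(X, Y)) :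
      LocallyConstant Y (ZMod 2) →ₗ[ZMod 2] LocallyConstant X (ZMod 2))
    (LocallyConstant.comap_injective _ hs)

end Pool.Agent.Robin

end

section

namespace Pool.Agent.Robin

open MeasureTheory Set

private theorem c3_empty (X : Type) [TopologicalSpace X] [IsEmpty X] : b0 X = 0 := by
  have : Subsingleton (LocallyConstant X (ZMod 2)) :=
    ⟨fun f g => LocallyConstant.ext fun x => isEmptyElim x⟩
  unfold b0
  rw [rank_subsingleton']
  simp

private theorem c3_conn (X : Type) [TopologicalSpace X] [PreconnectedSpace X] [Nonempty X] :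
    b0 X = 1 := by
  obtain ⟨x0⟩ := ‹Nonempty X›
  let e : LocallyConstant X (ZMod 2) ≃ₗ[ZMod 2] ZMod 2 :=
    { toFun := fun f => f x0
      invFun := fun c => LocallyConstant.const X c
      map_add' := fun f g => rfl
      map_smul' := fun c f => rfl
      left_inv := fun f => LocallyConstant.ext fun x =>
        f.apply_eq_of_preconnectedSpace x0 x
      right_inv := fun c => rfl }
  unfold b0
  rw [e.rank_eq]
  simp

theorem prf_C3 : S_C3 := by
  refine ⟨?_, ?_⟩
  · unfold bs
    exact c3_empty _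
  · intro K hK
    unfold bs
    have h1 : PreconnectedSpace K := isPreconnected_iff_preconnectedSpace.mp hK.isPreconnected
    have h2 : Nonempty K := hK.nonempty.to_subtype
    exact c3_conn _

end Pool.Agent.Robin

end

section

set_option autoImplicit false

open MeasureTheory Set Metric
open scoped ENNReal NNReal Pointwise RealInnerProductSpace

namespace Pool.Agent.Robin

/-- The rotation which sends the standard basis to `ν`, `rot ν`. -/
noncomputable def C5_lin (ν : E2) : E2 →ₗ[ℝ] E2 where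
  toFun x := x 0 • ν + x 1 • rot ν
  map_add' x y := by
    simp only [PiLp.add_apply, add_smul]
    abel
  map_smul' r x := by
    simp only [PiLp.smul_apply, smul_eq_mul, mul_smul, smul_add, RingHom.id_apply]

theorem C5_sq (x : E2) : ‖x‖ ^ 2 = (x 0) ^ 2 + (x 1) ^ 2 := by
  rw [EuclideanSpace.norm_sq_eq, Fin.sum_univ_two, Real.norm_eq_abs, Real.norm_eq_abs, sq_abs,
    sq_abs]

theorem C5_norm (ν : E2) (hν : ‖ν‖ = 1) (x : E2) : ‖C5_lin ν x‖ = ‖x‖ := by
  have h1 := C5_sq ν
  rw [hν] at h1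
  have h2 : ‖C5_lin ν x‖ ^ 2 = ‖x‖ ^ 2 := by
    rw [C5_sq, C5_sq]
    have e0 : (C5_lin ν x) 0 = x 0 * ν 0 - x 1 * ν 1 := by
      simp [C5_lin, rot]
      ring
    have e1 : (C5_lin ν x) 1 = x 0 * ν 1 + x 1 * ν 0 := by
      simp [C5_lin, rot]
    rw [e0, e1]
    linear_combination (-(x 0 ^ 2 + x 1 ^ 2)) * h1
  exact (sq_eq_sq₀ (norm_nonneg _) (norm_nonneg _)).1 h2

/-- The isometry. -/
noncomputable def C5_iso (ν : E2) (hν : ‖ν‖ = 1) : E2 ≃ₗᵢ[ℝ] E2 :=
  LinearIsometry.toLinearIsometryEquiv ⟨C5_lin ν, C5_norm ν hν⟩ rfl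

theorem C5_iso_apply (ν : E2) (hν : ‖ν‖ = 1) (x : E2) :
    C5_iso ν hν x = x 0 • ν + x 1 • rot ν := rfl

theorem C5_mp (ν : E2) (hν : ‖ν‖ = 1) :
    MeasurePreserving (fun p : ℝ × ℝ => p.1 • ν + p.2 • rot ν) volume volume := by
  have h1 := (C5_iso ν hν).measurePreserving
  have h2 := PiLp.volume_preserving_toLp (Fin 2)
  have h3 := (volume_preserving_finTwoArrow ℝ).symm
  exact h1.comp (h2.comp h3)

theorem C5_slice (ν : E2) (hν : ‖ν‖ = 1) (S : Set E2) (hS : MeasurableSet S) :
    volume S = ∫⁻ c : ℝ, volume {t : ℝ | c • ν + t • rot ν ∈ S} := by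
  rw [← (C5_mp ν hν).measure_preimage hS.nullMeasurableSet, Measure.volume_eq_prod,
    Measure.prod_apply ((C5_mp ν hν).measurable hS)]
  rfl

theorem C5_slice_meas (ν : E2) (hν : ‖ν‖ = 1) (S : Set E2) (hS : MeasurableSet S) :
    Measurable fun c : ℝ => volume {t : ℝ | c • ν + t • rot ν ∈ S} :=
  measurable_measure_prodMk_left ((C5_mp ν hν).measurable hS)

theorem C5_inner (ν : E2) (hν : ‖ν‖ = 1) (c t : ℝ) :
    ⟪c • ν + t • rot ν, ν⟫ = c ∧ ⟪c • ν + t • rot ν, rot ν⟫ = t := by
  have h1 := C5_sq ν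
  rw [hν] at h1
  have e : ∀ x y : E2, ⟪x, y⟫ = x 0 * y 0 + x 1 * y 1 := by
    intro x y
    rw [PiLp.inner_apply, Fin.sum_univ_two]
    simp
    ring
  have r0 : (rot ν) 0 = - ν 1 := by simp [rot]
  have r1 : (rot ν) 1 = ν 0 := by simp [rot]
  rw [e, e]
  simp only [PiLp.add_apply, PiLp.smul_apply, smul_eq_mul, r0, r1]
  constructor
  · linear_combination (-c) * h1
  · linear_combination (-t) * h1

theorem C5_b0_le (X Y : Type) [TopologicalSpace X] [TopologicalSpace Y] (f : C(X, Y))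
    (hf : Function.Surjective f) : b0 Y ≤ b0 X := by
  unfold b0
  have h : Module.rank (ZMod 2) (LocallyConstant Y (ZMod 2)) ≤
      Module.rank (ZMod 2) (LocallyConstant X (ZMod 2)) :=
    LinearMap.rank_le_of_injective (LocallyConstant.comapₗ (ZMod 2) f)
      (LinearMap.ker_eq_bot.1 (LocallyConstant.ker_comapₗ f hf))
  exact Cardinal.toENat.monotone' h

theorem prf_C5 (h4 : S_C4) : S_C5 := by
  intro K ν ε hK hν hε
  have hseg : IsCompact (seg (ε • rot ν)) := by
    unfold seg
    rw [segment_eq_image]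
    exact isCompact_Icc.image (by fun_prop)
  have hiso : ∀ c : ℝ, Isometry fun t : ℝ => c • ν + t • rot ν := by
    intro c
    refine Isometry.of_dist_eq fun s t => ?_
    have h1 : ‖rot ν‖ = 1 := by
      have q1 := C5_sq ν
      have q2 := C5_sq (rot ν)
      rw [hν] at q1
      have r0 : (rot ν) 0 = - ν 1 := by simp [rot]
      have r1 : (rot ν) 1 = ν 0 := by simp [rot]
      rw [r0, r1] at q2
      have q3 : ‖rot ν‖ ^ 2 = 1 ^ 2 := by rw [q2]; linarith
      exact (sq_eq_sq₀ (norm_nonneg _) zero_le_one).1 q3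
    rw [dist_eq_norm, dist_eq_norm, add_sub_add_left_eq_sub, ← sub_smul, norm_smul, h1, mul_one]
  rw [C5_slice ν hν _ (hK.add hseg).isClosed.measurableSet, C5_slice ν hν K hK.isClosed.measurableSet]
  unfold Ncomp
  rw [← lintegral_const_mul' _ _ ENNReal.ofReal_ne_top,
    ← lintegral_add_left (C5_slice_meas ν hν K hK.isClosed.measurableSet)]
  refine lintegral_mono fun c => ?_
  have hcomp : IsCompact {t : ℝ | c • ν + t • rot ν ∈ K} :=
    (hiso c).isClosedEmbedding.isCompact_preimage hK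
  have e1 : {t : ℝ | c • ν + t • rot ν ∈ K + seg (ε • rot ν)} ⊆
      {t : ℝ | c • ν + t • rot ν ∈ K} + Icc 0 ε := by
    intro t ht
    obtain ⟨x, hx, y, hy, hxy⟩ := Set.mem_add.1 ht
    unfold seg at hy
    rw [segment_eq_image] at hy
    obtain ⟨θ, hθ, rfl⟩ := hy
    refine Set.mem_add.2 ⟨t - θ * ε, ?_, θ * ε, ⟨mul_nonneg hθ.1 hε, ?_⟩, sub_add_cancel _ _⟩
    · have : c • ν + (t - θ * ε) • rot ν = x := by
        rw [sub_smul, mul_smul, ← add_sub_assoc, ← hxy]
        simp
      rw [mem_ofPred_eq, this]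
      exact hx
    · exact mul_le_of_le_one_left hε hθ.2
  refine (measure_mono e1).trans ((h4 _ ε hcomp hε).trans ?_)
  refine add_le_add le_rfl (mul_le_mul_right ?_ _)
  have hle : b0 {t : ℝ | c • ν + t • rot ν ∈ K} ≤ bs (K ∩ line ν c) := by
    let f : C((K ∩ line ν c : Set E2), {t : ℝ | c • ν + t • rot ν ∈ K}) :=
      ⟨fun x => ⟨⟪(x : E2), rot ν⟫, by
        have h1 : (x : E2) ∈ K := x.2.1
        have h2 : ⟪(x : E2), ν⟫ = c := x.2.2
        obtain ⟨z, hz⟩ := (C5_iso ν hν).surjective (x : E2)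
        rw [C5_iso_apply] at hz
        have h3 := C5_inner ν hν (z 0) (z 1)
        rw [hz] at h3
        rw [mem_ofPred_eq, h3.2, ← h2, h3.1, hz]
        exact h1⟩, by
        refine Continuous.subtype_mk ?_ _
        fun_prop⟩
    refine C5_b0_le _ _ f ?_
    rintro ⟨t, ht⟩
    refine ⟨⟨c • ν + t • rot ν, ht, (C5_inner ν hν c t).1⟩, ?_⟩
    exact Subtype.ext (C5_inner ν hν c t).2
  exact ENat.toENNReal_mono hle

end Pool.Agent.Robin

end

section

set_option autoImplicit false

open MeasureTheory Set Metric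
open scoped ENNReal NNReal Pointwise RealInnerProductSpace

namespace Pool.Agent.Robin

theorem C6_closed_strip (ν : E2) (c d : ℝ) : IsClosed (strip ν c d) := by
  have h : Continuous fun x : E2 => (⟪x, ν⟫ : ℝ) := by fun_prop
  exact (isClosed_le continuous_const h).inter (isClosed_le h continuous_const)

theorem prf_C6 (h1 : S_C1) (h3 : S_C3) : S_C6 := by
  intro K ν c δ M hK hc hδ hsub
  have key : ∀ j : ℕ, ∑ i ∈ Finset.range (j + 1),
      bs (K ∩ strip ν (c + i * δ) (c + (i + 1) * δ)) ≤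
        bs (K ∩ strip ν c (c + ((j + 1 : ℕ) : ℝ) * δ)) +
          ∑ i ∈ Finset.Ico 1 (j + 1), bs (K ∩ line ν (c + i * δ)) := by
    intro j
    induction j with
    | zero => simp
    | succ j ih =>
      rw [Finset.sum_range_succ]
      rw [Finset.sum_Ico_succ_top (by omega : 1 ≤ j + 1)]
      have e1 : (K ∩ strip ν c (c + ((j + 1 : ℕ) : ℝ) * δ)) ∪
          (K ∩ strip ν (c + ((j + 1 : ℕ) : ℝ) * δ) (c + (((j + 1 : ℕ) : ℝ) + 1) * δ)) =
          K ∩ strip ν c (c + ((j + 1 + 1 : ℕ) : ℝ) * δ) := by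
        rw [← inter_union_distrib_left]
        congr 1
        ext x
        simp only [strip, mem_union, mem_ofPred_eq]
        push_cast
        constructor
        · rintro (⟨q1, q2⟩ | ⟨q1, q2⟩)
          · exact ⟨q1, by nlinarith⟩
          · have : 0 ≤ ((j : ℝ) + 1) * δ := by positivity
            exact ⟨by linarith, q2⟩
        · rintro ⟨q1, q2⟩
          by_cases q3 : ⟪x, ν⟫ ≤ c + ((j : ℝ) + 1) * δ
          · exact Or.inl ⟨q1, q3⟩
          · exact Or.inr ⟨(not_le.1 q3).le, q2⟩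
      have e2 : (K ∩ strip ν c (c + ((j + 1 : ℕ) : ℝ) * δ)) ∩
          (K ∩ strip ν (c + ((j + 1 : ℕ) : ℝ) * δ) (c + (((j + 1 : ℕ) : ℝ) + 1) * δ)) =
          K ∩ line ν (c + ((j + 1 : ℕ) : ℝ) * δ) := by
        rw [← inter_inter_distrib_left]
        congr 1
        ext x
        simp only [strip, line, mem_inter_iff, mem_ofPred_eq]
        push_cast
        constructor
        · rintro ⟨⟨q1, q2⟩, ⟨q3, q4⟩⟩
          exact le_antisymm q2 q3
        · intro q
          have : 0 ≤ ((j : ℝ) + 1) * δ := by positivity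
          rw [q]
          refine ⟨⟨by linarith, le_rfl⟩, ⟨le_rfl, by nlinarith⟩⟩
      have e3 := h1 (K ∩ strip ν c (c + ((j + 1 : ℕ) : ℝ) * δ))
        (K ∩ strip ν (c + ((j + 1 : ℕ) : ℝ) * δ) (c + (((j + 1 : ℕ) : ℝ) + 1) * δ))
        (hK.isClosed.inter (C6_closed_strip _ _ _)) (hK.isClosed.inter (C6_closed_strip _ _ _))
      rw [e1, e2] at e3
      calc ∑ i ∈ Finset.range (j + 1), bs (K ∩ strip ν (c + i * δ) (c + (i + 1) * δ)) +
            bs (K ∩ strip ν (c + ((j + 1 : ℕ) : ℝ) * δ) (c + (((j + 1 : ℕ) : ℝ) + 1) * δ))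
          ≤ (bs (K ∩ strip ν c (c + ((j + 1 : ℕ) : ℝ) * δ)) +
            ∑ i ∈ Finset.Ico 1 (j + 1), bs (K ∩ line ν (c + i * δ))) +
            bs (K ∩ strip ν (c + ((j + 1 : ℕ) : ℝ) * δ) (c + (((j + 1 : ℕ) : ℝ) + 1) * δ)) :=
            add_le_add_left ih _
        _ = (bs (K ∩ strip ν c (c + ((j + 1 : ℕ) : ℝ) * δ)) +
            bs (K ∩ strip ν (c + ((j + 1 : ℕ) : ℝ) * δ) (c + (((j + 1 : ℕ) : ℝ) + 1) * δ))) +
            ∑ i ∈ Finset.Ico 1 (j + 1), bs (K ∩ line ν (c + i * δ)) := add_right_comm _ _ _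
        _ ≤ (bs (K ∩ strip ν c (c + ((j + 1 + 1 : ℕ) : ℝ) * δ)) +
            bs (K ∩ line ν (c + ((j + 1 : ℕ) : ℝ) * δ))) +
            ∑ i ∈ Finset.Ico 1 (j + 1), bs (K ∩ line ν (c + i * δ)) := add_le_add_left e3 _
        _ = _ := by
          rw [add_assoc, add_comm (bs (K ∩ line ν (c + ((j + 1 : ℕ) : ℝ) * δ)))]
  cases M with
  | zero => simp
  | succ j =>
    refine (key j).trans ?_
    have e : K ∩ strip ν c (c + ((j + 1 : ℕ) : ℝ) * δ) = K := inter_eq_left.2 hsub
    rw [e, h3.2 K hc]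

end Pool.Agent.Robin

end

section

set_option autoImplicit false

open MeasureTheory Set Metric
open scoped Pointwise RealInnerProductSpace

namespace Pool.Agent.Robin

theorem prf_C7 (h2 : S_C2) : S_C7 := by
  intro K ν h c _ hd
  set d : ℝ := ⟪h, ν⟫ with hdef
  have hmem : ∀ x : (K ∩ strip ν (c - d) c : Set E2),
      (x : E2) + ((c - ⟪(x : E2), ν⟫) / d) • h ∈ (K + seg h) ∩ line ν c := by
    intro x
    obtain ⟨hx1, hx2, hx3⟩ := x.2
    refine ⟨Set.add_mem_add hx1 ?_, ?_⟩
    · refine ⟨1 - (c - ⟪(x : E2), ν⟫) / d, (c - ⟪(x : E2), ν⟫) / d, ?_, ?_, by ring, ?_⟩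
      · rw [sub_nonneg, div_le_one hd]
        linarith
      · exact div_nonneg (by linarith) hd.le
      · rw [smul_zero, zero_add]
    · show ⟪(x : E2) + ((c - ⟪(x : E2), ν⟫) / d) • h, ν⟫ = c
      rw [inner_add_left, real_inner_smul_left, ← hdef]
      field_simp
      ring
  have hcont : Continuous (fun x : (K ∩ strip ν (c - d) c : Set E2) =>
      (⟨(x : E2) + ((c - ⟪(x : E2), ν⟫) / d) • h, hmem x⟩ :
        ((K + seg h) ∩ line ν c : Set E2))) := by
    refine Continuous.subtype_mk ?_ _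
    have h1 : Continuous (fun x : (K ∩ strip ν (c - d) c : Set E2) => (x : E2)) :=
      continuous_subtype_val
    exact h1.add (((continuous_const.sub (h1.inner continuous_const)).div_const d).smul
      continuous_const)
  refine h2 _ _ _ hcont ?_
  rintro ⟨y, ⟨x, hx, z, hz, hxz⟩, hy⟩
  obtain ⟨a, b, ha, hb, hab, rfl⟩ := hz
  rw [smul_zero, zero_add] at hxz
  have hxz' : x + b • h = y := hxz
  have hy' : ⟪y, ν⟫ = c := hy
  have hin : ⟪x, ν⟫ + b * d = c := by
    rw [← hy', ← hxz', inner_add_left, real_inner_smul_left]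
  have hb1 : b ≤ 1 := by linarith
  refine ⟨⟨x, hx, ?_, ?_⟩, ?_⟩
  · show c - d ≤ ⟪x, ν⟫
    nlinarith
  · show ⟪x, ν⟫ ≤ c
    nlinarith
  · apply Subtype.ext
    show x + ((c - ⟪x, ν⟫) / d) • h = y
    have : (c - ⟪x, ν⟫) / d = b := by
      rw [div_eq_iff hd.ne']
      linarith
    rw [this]
    exact hxz'

end Pool.Agent.Robin

end

section

set_option autoImplicit false

/-!
# MP_4b551e_an, item C8: the component integral increases by at most `|⟨h, ν⟩|`
-/

open MeasureTheory Set Metric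
open scoped ENNReal NNReal Pointwise RealInnerProductSpace

namespace Pool.Agent.Robin

namespace C8

lemma bs_empty : bs (∅ : Set E2) = 0 := by
  unfold bs b0
  have : Subsingleton (LocallyConstant (∅ : Set E2) (ZMod 2)) :=
    ⟨fun f g => by ext x; exact x.2.elim⟩
  rw [rank_subsingleton']
  simp

lemma shift (f : ℝ → ℝ≥0∞) (a b t : ℝ) :
    ∫⁻ c in Ico (a + t) (b + t), f c = ∫⁻ c in Ico a b, f (c + t) := by
  rw [← lintegral_indicator measurableSet_Ico, ← lintegral_indicator measurableSet_Ico,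
    ← lintegral_add_right_eq_self _ t]
  congr 1
  ext c
  by_cases h : c ∈ Ico a b
  · have h' : c + t ∈ Ico (a + t) (b + t) := ⟨by linarith [h.1], by linarith [h.2]⟩
    rw [indicator_of_mem h', indicator_of_mem h]
  · have h' : c + t ∉ Ico (a + t) (b + t) := fun hh => h ⟨by linarith [hh.1], by linarith [hh.2]⟩
    rw [indicator_of_notMem h', indicator_of_notMem h]

lemma pieces (f : ℝ → ℝ≥0∞) (b d : ℝ) (hd : 0 ≤ d) (n : ℕ) :
    ∫⁻ c in Ico b (b + n * d), f c = ∑ i ∈ Finset.range n, ∫⁻ c in Ico b (b + d), f (c + i * d) := by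
  induction n with
  | zero => simp
  | succ n ih =>
    have h1 : Ico b (b + ((n + 1 : ℕ) : ℝ) * d) =
        Ico b (b + n * d) ∪ Ico (b + n * d) (b + d + n * d) := by
      rw [Ico_union_Ico_eq_Ico]
      · congr 1
        push_cast
        ring
      · have : 0 ≤ (n : ℝ) * d := by positivity
        linarith
      · linarith
    rw [Finset.sum_range_succ, ← ih, h1, lintegral_union measurableSet_Ico, shift]
    rw [Set.disjoint_left]
    intro x hx hx'
    exact absurd hx'.1 (not_le.2 hx.2)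

lemma sum_le (s : Finset ℕ) (μ : Measure ℝ) (f : ℕ → ℝ → ℝ≥0∞) :
    ∑ i ∈ s, ∫⁻ c, f i c ∂μ ≤ ∫⁻ c, ∑ i ∈ s, f i c ∂μ := by
  classical
  induction s using Finset.induction_on with
  | empty => simp
  | insert a s ha ih =>
    rw [Finset.sum_insert ha]
    simp_rw [Finset.sum_insert ha]
    exact (add_le_add le_rfl ih).trans (le_lintegral_add _ _)

lemma coe_sum (s : Finset ℕ) (f : ℕ → ℕ∞) :
    ((∑ i ∈ s, f i : ℕ∞) : ℝ≥0∞) = ∑ i ∈ s, ((f i : ℕ∞) : ℝ≥0∞) := by
  classical
  induction s using Finset.induction_on with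
  | empty => simp
  | insert a s ha ih =>
    rw [Finset.sum_insert ha, Finset.sum_insert ha, ENat.toENNReal_add, ih]

/-- the case `⟨h, ν⟩ > 0` -/
lemma pos (hm : S_C4m) (h6 : S_C6) (h7 : S_C7) (K : Set E2) (ν h : E2) (hK : IsCompact K)
    (hKc : IsConnected K) (hν : ‖ν‖ = 1) (hd : 0 < ⟪h, ν⟫) :
    Ncomp (K + seg h) ν ≤ Ncomp K ν + ENNReal.ofReal |⟪h, ν⟫| := by
  set d : ℝ := ⟪h, ν⟫ with hdd
  obtain ⟨R, hR0, hR⟩ : ∃ R : ℝ, 0 < R ∧ ∀ x ∈ K, |⟪x, ν⟫| < R := by
    obtain ⟨R, hR⟩ := hK.isBounded.exists_norm_le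
    refine ⟨|R| + 1, by positivity, fun x hx => ?_⟩
    have e1 := abs_real_inner_le_norm x ν
    rw [hν, mul_one] at e1
    have e2 := hR x hx
    have e3 := le_abs_self R
    linarith
  obtain ⟨M, hM⟩ : ∃ M : ℕ, 2 * R ≤ M * d := by
    obtain ⟨M, hM⟩ := exists_nat_ge (2 * R / d)
    refine ⟨M, ?_⟩
    rwa [div_le_iff₀ hd] at hM
  set b : ℝ := -R with hb
  have hKs : ∀ x ∈ K, b < ⟪x, ν⟫ ∧ ⟪x, ν⟫ < b + M * d := by
    intro x hx
    have := abs_lt.1 (hR x hx)
    constructor
    · exact this.1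
    · linarith [this.2]
  set β : ℝ → ℝ≥0∞ := fun c => ((bs (K ∩ strip ν (c - d) c) : ℕ∞) : ℝ≥0∞) with hβ
  set n : ℝ → ℝ≥0∞ := fun c => ((bs (K ∩ line ν c) : ℕ∞) : ℝ≥0∞) with hn
  have hnm : Measurable n := hm K ν hK hν
  -- vanishing outside
  have hβ0 : ∀ c, c ∉ Ico b (b + ((M + 1 : ℕ) : ℝ) * d) → β c = 0 := by
    intro c hc
    have : K ∩ strip ν (c - d) c = ∅ := by
      rw [Set.eq_empty_iff_forall_notMem]
      rintro x ⟨hxK, hx1, hx2⟩
      obtain ⟨h1, h2⟩ := hKs x hxK
      apply hc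
      refine ⟨by linarith, ?_⟩
      push_cast
      linarith
    simp only [hβ, this, bs_empty]
    simp
  have e1 : Ncomp (K + seg h) ν ≤ ∫⁻ c, β c := by
    unfold Ncomp
    refine lintegral_mono fun c => ?_
    exact ENat.toENNReal_le.2 (h7 K ν h c hK hd)
  have e2 : ∫⁻ c, β c = ∫⁻ c in Ico b (b + ((M + 1 : ℕ) : ℝ) * d), β c := by
    rw [← lintegral_indicator measurableSet_Ico]
    congr 1
    ext c
    by_cases hc : c ∈ Ico b (b + ((M + 1 : ℕ) : ℝ) * d)
    · rw [indicator_of_mem hc]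
    · rw [indicator_of_notMem hc, hβ0 c hc]
  have e3 : ∀ c ∈ Ico b (b + d), ∑ i ∈ Finset.range (M + 1), β (c + i * d) ≤
      1 + ∑ i ∈ Finset.range (M + 1), n (c + i * d) := by
    intro c hc
    have h1 := h6 K ν (c - d) d (M + 1) hK hKc hd (by
      intro x hx
      obtain ⟨h1, h2⟩ := hKs x hx
      refine ⟨by linarith [hc.2], ?_⟩
      push_cast
      linarith [hc.1])
    have h2 : ∑ i ∈ Finset.range (M + 1), bs (K ∩ strip ν (c - d + i * d) (c - d + (i + 1) * d)) =
        ∑ i ∈ Finset.range (M + 1), bs (K ∩ strip ν (c + i * d - d) (c + i * d)) := by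
      refine Finset.sum_congr rfl fun i _ => ?_
      congr 3 <;> ring
    have h3 : ∑ i ∈ Finset.Ico 1 (M + 1), bs (K ∩ line ν (c - d + i * d)) ≤
        ∑ i ∈ Finset.range (M + 1), bs (K ∩ line ν (c + i * d)) := by
      rw [Finset.sum_Ico_eq_sum_range]
      simp only [Nat.add_sub_cancel]
      have : ∀ i : ℕ, K ∩ line ν (c - d + ((1 + i : ℕ) : ℝ) * d) = K ∩ line ν (c + i * d) := by
        intro i
        congr 2
        push_cast
        ring
      simp_rw [this]
      exact Finset.sum_le_sum_of_subset (Finset.range_subset_range.2 (Nat.le_succ M))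
    have h4 := h1.trans (add_le_add le_rfl h3)
    rw [h2] at h4
    have h5 := ENat.toENNReal_le.2 h4
    rw [ENat.toENNReal_add, coe_sum, coe_sum] at h5
    simpa using h5
  calc Ncomp (K + seg h) ν ≤ ∫⁻ c in Ico b (b + ((M + 1 : ℕ) : ℝ) * d), β c := e2 ▸ e1
    _ = ∑ i ∈ Finset.range (M + 1), ∫⁻ c in Ico b (b + d), β (c + i * d) :=
        pieces β b d hd.le (M + 1)
    _ ≤ ∫⁻ c in Ico b (b + d), ∑ i ∈ Finset.range (M + 1), β (c + i * d) :=
        sum_le _ _ (fun i c => β (c + i * d))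
    _ ≤ ∫⁻ c in Ico b (b + d), (1 + ∑ i ∈ Finset.range (M + 1), n (c + i * d)) :=
        setLIntegral_mono' measurableSet_Ico e3
    _ = ENNReal.ofReal d + ∑ i ∈ Finset.range (M + 1), ∫⁻ c in Ico b (b + d), n (c + i * d) := by
        rw [lintegral_add_left measurable_const, lintegral_finsetSum]
        · congr 1
          simp
        · intro i _
          exact hnm.comp (measurable_id.add_const _)
    _ = ENNReal.ofReal d + ∫⁻ c in Ico b (b + ((M + 1 : ℕ) : ℝ) * d), n c := by
        rw [pieces n b d hd.le (M + 1)]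
    _ ≤ ENNReal.ofReal d + ∫⁻ c, n c := by
        exact add_le_add le_rfl (setLIntegral_le_lintegral _ _)
    _ = Ncomp K ν + ENNReal.ofReal |d| := by
        rw [abs_of_pos hd, add_comm]
        rfl

/-- a product with the unit interval does not increase `b0` -/
lemma prod_le (X : Type) [TopologicalSpace X] : b0 (X × (Icc (0 : ℝ) 1)) ≤ b0 X := by
  unfold b0
  refine OrderHomClass.mono Cardinal.toENat ?_
  let Φ : LocallyConstant (X × (Icc (0 : ℝ) 1)) (ZMod 2) →ₗ[ZMod 2] LocallyConstant X (ZMod 2) :=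
    { toFun := fun f => LocallyConstant.comap ⟨fun x => (x, (0 : Icc (0 : ℝ) 1)), by fun_prop⟩ f
      map_add' := fun f g => by ext x; simp
      map_smul' := fun r f => by ext x; simp }
  refine LinearMap.rank_le_of_injective Φ ?_
  intro f g hfg
  ext ⟨x, t⟩
  have hconst : ∀ f : LocallyConstant (X × (Icc (0 : ℝ) 1)) (ZMod 2), f (x, t) = f (x, 0) := by
    intro f
    have : PreconnectedSpace (Icc (0 : ℝ) 1) :=
      Subtype.preconnectedSpace isPreconnected_Icc
    let f' : LocallyConstant (Icc (0 : ℝ) 1) (ZMod 2) :=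
      LocallyConstant.comap ⟨fun s => (x, s), by fun_prop⟩ f
    exact f'.apply_eq_of_preconnectedSpace t 0
  have h0 := congrArg (fun F : LocallyConstant X (ZMod 2) => F x) hfg
  have h1 : f (x, 0) = g (x, 0) := by simpa [Φ] using h0
  rw [hconst f, hconst g, h1]

/-- the case `⟨h, ν⟩ = 0` -/
lemma zero (h2 : S_C2) (K : Set E2) (ν h : E2) (hd : ⟪h, ν⟫ = 0) :
    Ncomp (K + seg h) ν ≤ Ncomp K ν := by
  unfold Ncomp
  refine lintegral_mono fun c => ENat.toENNReal_le.2 ?_
  refine (h2 ((K ∩ line ν c : Set E2) × (Icc (0 : ℝ) 1)) ((K + seg h) ∩ line ν c : Set E2)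
    (fun p => ⟨(p.1 : E2) + (p.2 : ℝ) • h, ?_, ?_⟩) ?_ ?_).trans (prod_le _)
  · refine Set.add_mem_add p.1.2.1 ?_
    unfold seg
    rw [segment_eq_image]
    exact ⟨p.2, p.2.2, by simp⟩
  · have h1 := p.1.2.2
    unfold line at h1 ⊢
    simp only [mem_ofPred_eq] at h1 ⊢
    rw [inner_add_left, real_inner_smul_left, hd, h1]
    ring
  · refine Continuous.subtype_mk ?_ _
    fun_prop
  · rintro ⟨y, hy1, hy2⟩
    obtain ⟨x, hx, z, hz, rfl⟩ := hy1
    unfold seg at hz
    rw [segment_eq_image] at hz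
    obtain ⟨t, ht, rfl⟩ := hz
    refine ⟨(⟨x, hx, ?_⟩, ⟨t, ht⟩), ?_⟩
    · unfold line at hy2 ⊢
      simp only [mem_ofPred_eq, smul_zero, zero_add] at hy2 ⊢
      rw [inner_add_left, real_inner_smul_left, hd] at hy2
      linarith
    · simp

/-- translations -/
lemma transl (h2 : S_C2) (K : Set E2) (ν h : E2) :
    Ncomp (K + {h}) ν ≤ Ncomp K ν := by
  have key : ∀ c, bs ((K + {h}) ∩ line ν c) ≤ bs (K ∩ line ν (c + -⟪h, ν⟫)) := by
    intro c
    refine h2 (K ∩ line ν (c + -⟪h, ν⟫) : Set E2) ((K + {h}) ∩ line ν c : Set E2)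
      (fun p => ⟨(p : E2) + h, ?_, ?_⟩) ?_ ?_
    · exact Set.add_mem_add p.2.1 rfl
    · have h1 := p.2.2
      unfold line at h1 ⊢
      simp only [mem_ofPred_eq] at h1 ⊢
      rw [inner_add_left, h1]
      ring
    · refine Continuous.subtype_mk ?_ _
      fun_prop
    · rintro ⟨y, hy1, hy2⟩
      obtain ⟨x, hx, z, hz, rfl⟩ := hy1
      rw [mem_singleton_iff] at hz
      subst hz
      refine ⟨⟨x, hx, ?_⟩, rfl⟩
      unfold line at hy2 ⊢
      simp only [mem_ofPred_eq] at hy2 ⊢
      rw [inner_add_left] at hy2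
      linarith
  unfold Ncomp
  refine (lintegral_mono fun c => ENat.toENNReal_le.2 (key c)).trans (le_of_eq ?_)
  exact lintegral_add_right_eq_self
    (fun c => ((bs (K ∩ line ν c) : ℕ∞) : ℝ≥0∞)) (-⟪h, ν⟫)

end C8

theorem prf_C8 (hm : S_C4m) (h2 : S_C2) (h6 : S_C6) (h7 : S_C7) : S_C8 := by
  intro K ν h hK hKc hν
  rcases lt_trichotomy ⟪h, ν⟫ 0 with hd | hd | hd
  · have e1 : K + seg h = (K + {h}) + seg (-h) := by
      rw [add_assoc]
      congr 1
      unfold seg
      rw [segment_eq_image, segment_eq_image]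
      ext x
      constructor
      · rintro ⟨t, ht, rfl⟩
        refine ⟨h, rfl, (1 - t) • (-h), ⟨1 - t, ⟨by linarith [ht.2], by linarith [ht.1]⟩, by simp⟩,
          ?_⟩
        simp only [smul_zero, zero_add]
        module
      · rintro ⟨y, hy, z, ⟨t, ht, rfl⟩, rfl⟩
        rw [mem_singleton_iff] at hy
        subst hy
        refine ⟨1 - t, ⟨by linarith [ht.2], by linarith [ht.1]⟩, ?_⟩
        simp only [smul_zero, zero_add]
        module
    rw [e1]
    have hd' : 0 < ⟪-h, ν⟫ := by rw [inner_neg_left]; linarith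
    have h8 := C8.pos hm h6 h7 (K + {h}) ν (-h) (hK.add isCompact_singleton)
      (by
        rw [Set.add_singleton]
        exact hKc.image _ (by fun_prop)) hν hd'
    refine h8.trans ?_
    rw [inner_neg_left, abs_neg]
    gcongr
    exact C8.transl h2 K ν h
  · refine (C8.zero h2 K ν h hd).trans ?_
    exact le_self_add
  · exact C8.pos hm h6 h7 K ν h hK hKc hν hd

end Pool.Agent.Robin

end

section

/-!
# C9: the zonotope Steiner inequality
-/

open MeasureTheory Set Metric
open scoped ENNReal NNReal Pointwise RealInnerProductSpace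

namespace Pool.Agent.Robin

namespace C9

theorem norm_dirv (θ : ℝ) : ‖dirv θ‖ = 1 := by
  rw [EuclideanSpace.norm_eq, Real.sqrt_eq_one]
  simp [dirv, Fin.sum_univ_two, Real.cos_sq_add_sin_sq]

theorem inner_rot_dirv (a b : ℝ) : ⟪rot (dirv a), dirv b⟫ = Real.sin (b - a) := by
  rw [Real.sin_sub, PiLp.inner_apply]
  simp [dirv, rot, Fin.sum_univ_two]
  ring

theorem isCompact_seg (h : E2) : IsCompact (seg h) := by
  unfold seg
  rw [segment_eq_image]
  exact isCompact_Icc.image (by fun_prop)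

theorem isConnected_seg (h : E2) : IsConnected (seg h) :=
  ⟨⟨0, left_mem_segment ℝ 0 h⟩, (convex_segment 0 h).isPreconnected⟩

theorem compact_conn {K : Set E2} (hK : IsCompact K) (hc : IsConnected K) (e : ℕ → E2) (n : ℕ) :
    IsCompact (K + ∑ j ∈ Finset.range n, seg (e j)) ∧
      IsConnected (K + ∑ j ∈ Finset.range n, seg (e j)) := by
  induction n with
  | zero => simpa using ⟨hK, hc⟩
  | succ n ih =>
    rw [Finset.sum_range_succ, ← add_assoc]
    refine ⟨ih.1.add (isCompact_seg _), ?_⟩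
    rw [← Set.add_image_prod]
    exact (ih.2.prod (isConnected_seg _)).image _ (by fun_prop)

end C9

theorem prf_C9 (h5 : S_C5) (h8 : S_C8) : S_C9 := by
  intro K n φ ε hK hc hn hε
  obtain ⟨ν, hν⟩ : ∃ ν : ℕ → E2, ∀ j : ℕ, ν j = dirv (φ + j * Real.pi / n) := ⟨_, fun _ => rfl⟩
  simp only [← hν]
  have hA : ∀ (μ : E2), ‖μ‖ = 1 → ∀ j : ℕ,
      Ncomp (K + ∑ i ∈ Finset.range j, seg (ε • rot (ν i))) μ ≤
        Ncomp K μ + ∑ i ∈ Finset.range j, ENNReal.ofReal |⟪ε • rot (ν i), μ⟫| := by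
    intro μ hμ j
    induction j with
    | zero => simp
    | succ j ih =>
      obtain ⟨c1, c2⟩ := C9.compact_conn hK hc (fun i => ε • rot (ν i)) j
      rw [Finset.sum_range_succ, ← add_assoc, Finset.sum_range_succ, ← add_assoc]
      exact (h8 _ μ (ε • rot (ν j)) c1 c2 hμ).trans (add_le_add_left ih _)
  have hB : ∀ m : ℕ, volume (K + ∑ i ∈ Finset.range m, seg (ε • rot (ν i))) ≤
      volume K + ENNReal.ofReal ε * ∑ j ∈ Finset.range m, (Ncomp K (ν j) +
        ∑ i ∈ Finset.range j, ENNReal.ofReal |⟪ε • rot (ν i), ν j⟫|) := by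
    intro m
    induction m with
    | zero => simp
    | succ m ih =>
      obtain ⟨c1, -⟩ := C9.compact_conn hK hc (fun i => ε • rot (ν i)) m
      have hνm : ‖ν m‖ = 1 := by rw [hν]; exact C9.norm_dirv _
      rw [Finset.sum_range_succ, ← add_assoc, Finset.sum_range_succ, mul_add, ← add_assoc]
      refine (h5 _ (ν m) ε c1 hνm hε).trans ?_
      exact add_le_add ih (mul_le_mul_right (hA (ν m) hνm m) _)
  refine (hB n).trans (le_of_eq ?_)
  rw [Finset.sum_add_distrib, mul_add, add_assoc]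
  congr 1
  congr 1
  have hin : ∀ j ∈ Finset.range n, ∀ i ∈ Finset.range j,
      0 ≤ Real.sin (((j : ℝ) - i) * Real.pi / n) ∧
      ENNReal.ofReal |⟪ε • rot (ν i), ν j⟫| =
        ENNReal.ofReal (ε * Real.sin (((j : ℝ) - i) * Real.pi / n)) := by
    intro j hj i hi
    rw [Finset.mem_range] at hj hi
    have hn' : (0 : ℝ) < n := by exact_mod_cast hn
    have hji : (i : ℝ) < j := by exact_mod_cast hi
    have hjn : (j : ℝ) < n := by exact_mod_cast hj
    have hi0 : (0 : ℝ) ≤ i := Nat.cast_nonneg _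
    have hs : 0 ≤ Real.sin (((j : ℝ) - i) * Real.pi / n) := by
      refine Real.sin_nonneg_of_nonneg_of_le_pi ?_ ?_
      · have := Real.pi_pos
        have : 0 ≤ (j : ℝ) - i := by linarith
        positivity
      · rw [div_le_iff₀ hn']
        have := Real.pi_pos
        nlinarith
    refine ⟨hs, ?_⟩
    congr 1
    rw [real_inner_smul_left, hν, hν, C9.inner_rot_dirv]
    have e1 : φ + j * Real.pi / n - (φ + i * Real.pi / n) = ((j : ℝ) - i) * Real.pi / n := by ring
    rw [e1, abs_of_nonneg (mul_nonneg hε hs)]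
  have h1 : ∑ j ∈ Finset.range n, ∑ i ∈ Finset.range j, ENNReal.ofReal |⟪ε • rot (ν i), ν j⟫| =
      ENNReal.ofReal (ε * ∑ j ∈ Finset.range n, ∑ i ∈ Finset.range j,
        Real.sin (((j : ℝ) - i) * Real.pi / n)) := by
    rw [Finset.mul_sum, ENNReal.ofReal_sum_of_nonneg]
    · refine Finset.sum_congr rfl fun j hj => ?_
      rw [Finset.mul_sum, ENNReal.ofReal_sum_of_nonneg]
      · exact Finset.sum_congr rfl fun i hi => (hin j hj i hi).2
      · intro i hi
        exact mul_nonneg hε (hin j hj i hi).1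
    · intro j hj
      exact mul_nonneg hε (Finset.sum_nonneg fun i hi => (hin j hj i hi).1)
  rw [h1, ← ENNReal.ofReal_mul hε]
  congr 1
  ring

end Pool.Agent.Robin

end

section

set_option autoImplicit false

open MeasureTheory Set Metric
open scoped ENNReal NNReal Pointwise RealInnerProductSpace

namespace Pool.Agent.Robin

namespace ItemCrofton

/-- polar coordinates -/
lemma polar (w : E2) : ∃ β : ℝ, w 0 = ‖w‖ * Real.cos β ∧ w 1 = ‖w‖ * Real.sin β := by
  have hn : ‖w‖ = ‖(⟨w 0, w 1⟩ : ℂ)‖ := by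
    rw [EuclideanSpace.norm_eq, Complex.norm_def, Complex.normSq_mk, Fin.sum_univ_two]
    simp [sq]
  refine ⟨Complex.arg ⟨w 0, w 1⟩, ?_, ?_⟩
  · rw [hn]
    exact (Complex.norm_mul_cos_arg (⟨w 0, w 1⟩ : ℂ)).symm
  · rw [hn]
    exact (Complex.norm_mul_sin_arg (⟨w 0, w 1⟩ : ℂ)).symm

lemma inner_two (x y : E2) : ⟪x, y⟫ = x 0 * y 0 + x 1 * y 1 := by
  rw [PiLp.inner_apply, Fin.sum_univ_two]
  simp [mul_comm]

lemma sum_bound (hc : S_C10b) (L : E2 ≃ₗᵢ[ℝ] E2) (n : ℕ) (φ d : ℝ) (hn : 0 < n) :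
    ∑ j ∈ Finset.range n, |(L (dirv (φ + j * Real.pi / n))) 0 +
      (L (dirv (φ + j * Real.pi / n))) 1 * d| ≤
      Real.sqrt (1 + d ^ 2) * (1 / Real.sin (Real.pi / (2 * n))) := by
  set w : E2 := L.symm !₂[1, d] with hw
  have hnorm : ‖w‖ = Real.sqrt (1 + d ^ 2) := by
    rw [hw, LinearIsometryEquiv.norm_map, EuclideanSpace.norm_eq, Fin.sum_univ_two]
    simp
  obtain ⟨β, h0, h1⟩ := polar w
  have key : ∀ θ : ℝ, (L (dirv θ)) 0 + (L (dirv θ)) 1 * d =
      Real.sqrt (1 + d ^ 2) * Real.cos (θ - β) := by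
    intro θ
    have e1 : (L (dirv θ)) 0 + (L (dirv θ)) 1 * d = ⟪(!₂[1, d] : E2), L (dirv θ)⟫ := by
      rw [inner_two]
      simp
      ring
    have e2 : ⟪(!₂[1, d] : E2), L (dirv θ)⟫ = ⟪w, dirv θ⟫ := by
      rw [hw, ← LinearIsometryEquiv.inner_map_map L (L.symm !₂[1, d]) (dirv θ),
        LinearIsometryEquiv.apply_symm_apply]
    rw [e1, e2, inner_two, h0, h1, ← hnorm, Real.cos_sub]
    simp only [dirv]
    simp
    ring
  calc ∑ j ∈ Finset.range n, |(L (dirv (φ + j * Real.pi / n))) 0 +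
      (L (dirv (φ + j * Real.pi / n))) 1 * d|
      = ∑ j ∈ Finset.range n, Real.sqrt (1 + d ^ 2) * |Real.cos ((φ - β) + j * Real.pi / n)| := by
        apply Finset.sum_congr rfl
        intro j _
        rw [key, abs_mul, abs_of_nonneg (Real.sqrt_nonneg _)]
        congr 3
        ring
    _ = Real.sqrt (1 + d ^ 2) * ∑ j ∈ Finset.range n, |Real.cos ((φ - β) + j * Real.pi / n)| := by
        rw [Finset.mul_sum]
    _ ≤ _ := mul_le_mul_of_nonneg_left (hc n (φ - β) hn).2 (Real.sqrt_nonneg _)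

/-- conclusion for one piece -/
def Concl (S : Set E2) (n : ℕ) (φ : ℝ) : Prop :=
  ∃ G : ℕ → ℝ → ℝ≥0∞, (∀ j, Measurable (G j)) ∧
    (∀ (j : ℕ) (c : ℝ), crs S (dirv (φ + j * Real.pi / n)) c ≤ G j c) ∧
    ∑ j ∈ Finset.range n, ∫⁻ c : ℝ, G j c ≤
      ENNReal.ofReal (1 / Real.sin (Real.pi / (2 * n))) * μH[1] S

lemma piece (h1 : S_B1f) (hg : S_Graph) (hb : S_Ban) (hc : S_C10b) (K S : Set E2) (p : E2)
    (L : E2 ≃ₗᵢ[ℝ] E2) (f : ℝ → ℝ) (C : ℝ≥0) (a b : ℝ) (hK : IsClosed K)
    (hch : Chart K p L f C a b) (hS : MeasurableSet S) (hSK : S ⊆ frontier K)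
    (hSb : ∀ x ∈ S, |cx L p x| < a ∧ |cy L p x| < b) (n : ℕ) (φ : ℝ) (hn : 0 < n) :
    Concl S n φ := by
  set γ : ℝ → E2 := fun t => !₂[t, f t] with hγ
  have hfc : Continuous f := hch.lip.continuous
  have hγc : Continuous γ := by
    rw [hγ]
    refine (PiLp.continuous_toLp 2 _).comp ?_
    refine continuous_pi ?_
    intro i
    fin_cases i
    · exact continuous_id
    · exact hfc
  set T : Set ℝ := {t | |t| < a ∧ p + L.symm (γ t) ∈ S} with hT
  have hTm : MeasurableSet T := by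
    apply MeasurableSet.inter
    · exact (isOpen_lt continuous_abs continuous_const).measurableSet
    · have : Continuous (fun t => p + L.symm (γ t)) :=
        continuous_const.add (L.symm.continuous.comp hγc)
      exact this.measurable hS
  set ψ : E2 → E2 := fun x => L (x - p) with hψ
  have hψi : Isometry ψ := by
    apply Isometry.of_dist_eq
    intro x y
    rw [hψ]
    simp only [LinearIsometryEquiv.dist_map, dist_sub_right]
  have hψS : ψ '' S = γ '' T := by
    ext y
    constructor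
    · rintro ⟨x, hx, rfl⟩
      obtain ⟨ha, hb'⟩ := hSb x hx
      have hf := (h1 K p L f C a b hK hch x ha hb').1 (hSK hx)
      have hval : γ (cx L p x) = ψ x := by
        rw [hγ, hψ]
        ext i
        fin_cases i
        · rfl
        · exact hf.symm
      refine ⟨cx L p x, ⟨ha, ?_⟩, hval⟩
      rw [hval, hψ]
      simpa using hx
    · rintro ⟨t, ⟨_, ht⟩, rfl⟩
      refine ⟨_, ht, ?_⟩
      rw [hψ]
      simp
  have hcrs : ∀ (ν : E2) (c : ℝ), crs S ν c = crs (γ '' T) (L ν) (c - ⟪p, ν⟫) := by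
    intro ν c
    have hlin : ψ '' (S ∩ line ν c) = (γ '' T) ∩ line (L ν) (c - ⟪p, ν⟫) := by
      rw [← hψS]
      ext y
      constructor
      · rintro ⟨x, ⟨hx, hl⟩, rfl⟩
        refine ⟨⟨x, hx, rfl⟩, ?_⟩
        have hl' : ⟪x, ν⟫ = c := hl
        change ⟪L (x - p), L ν⟫ = c - ⟪p, ν⟫
        rw [LinearIsometryEquiv.inner_map_map, inner_sub_left, hl']
      · rintro ⟨⟨x, hx, rfl⟩, hl⟩
        refine ⟨x, ⟨hx, ?_⟩, rfl⟩
        have hl' : ⟪L (x - p), L ν⟫ = c - ⟪p, ν⟫ := hl
        rw [LinearIsometryEquiv.inner_map_map, inner_sub_left] at hl'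
        change ⟪x, ν⟫ = c
        linarith
    unfold crs
    rw [← hlin, hψi.injective.encard_image]
  choose G' hG'm hG'c hG'i using fun j : ℕ => hb f C T (L (dirv (φ + j * Real.pi / n))) hch.lip hTm
  refine ⟨fun j c => G' j (c - ⟪p, dirv (φ + j * Real.pi / n)⟫), ?_, ?_, ?_⟩
  · intro j
    exact (hG'm j).comp (measurable_id.sub_const _)
  · intro j c
    rw [hcrs]
    exact hG'c j _
  · have hmeas : ∀ j : ℕ, Measurable (fun t => ENNReal.ofReal
        |(L (dirv (φ + j * Real.pi / n))) 0 + (L (dirv (φ + j * Real.pi / n))) 1 * deriv f t|) := by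
      intro j
      apply Measurable.ennreal_ofReal
      have h0 : Measurable (deriv f) := measurable_deriv f
      have h1 : Measurable (fun t => (L (dirv (φ + j * Real.pi / n))) 0 +
        (L (dirv (φ + j * Real.pi / n))) 1 * deriv f t) := (h0.const_mul _).const_add _
      exact (continuous_abs.measurable).comp h1
    have hμ : μH[1] S = μH[1] (γ '' T) := by
      rw [← hψS]
      exact (hψi.hausdorffMeasure_image (Or.inl zero_le_one) S).symm
    calc ∑ j ∈ Finset.range n, ∫⁻ c : ℝ, G' j (c - ⟪p, dirv (φ + j * Real.pi / n)⟫)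
        = ∑ j ∈ Finset.range n, ∫⁻ c : ℝ, G' j c := by
          apply Finset.sum_congr rfl
          intro j _
          exact lintegral_sub_right_eq_self (G' j) _
      _ ≤ ∑ j ∈ Finset.range n, ∫⁻ t in T, ENNReal.ofReal
        |(L (dirv (φ + j * Real.pi / n))) 0 + (L (dirv (φ + j * Real.pi / n))) 1 * deriv f t| :=
          Finset.sum_le_sum (fun j _ => hG'i j)
      _ = ∫⁻ t in T, ∑ j ∈ Finset.range n, ENNReal.ofReal
        |(L (dirv (φ + j * Real.pi / n))) 0 + (L (dirv (φ + j * Real.pi / n))) 1 * deriv f t| :=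
          (lintegral_finset_sum _ (fun j _ => hmeas j)).symm
      _ ≤ ∫⁻ t in T, ENNReal.ofReal (1 / Real.sin (Real.pi / (2 * n))) *
            ENNReal.ofReal (Real.sqrt (1 + (deriv f t) ^ 2)) := by
          apply lintegral_mono
          intro t
          simp only
          rw [← ENNReal.ofReal_sum_of_nonneg (fun _ _ => abs_nonneg _),
            ← ENNReal.ofReal_mul' (Real.sqrt_nonneg _)]
          apply ENNReal.ofReal_le_ofReal
          rw [mul_comm]
          exact sum_bound hc L n φ (deriv f t) hn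
      _ = ENNReal.ofReal (1 / Real.sin (Real.pi / (2 * n))) *
            ∫⁻ t in T, ENNReal.ofReal (Real.sqrt (1 + (deriv f t) ^ 2)) := by
          apply lintegral_const_mul
          apply Measurable.ennreal_ofReal
          exact (((measurable_deriv f).pow_const 2).const_add 1).sqrt
      _ ≤ ENNReal.ofReal (1 / Real.sin (Real.pi / (2 * n))) * μH[1] S := by
          rw [hμ]
          exact mul_le_mul_right (hg f C T hch.lip hTm) _

lemma union (S A : Set E2) (n : ℕ) (φ : ℝ) (hA : MeasurableSet A)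
    (h1 : Concl (S ∩ A) n φ) (h2 : Concl (S \ A) n φ) : Concl S n φ := by
  obtain ⟨G1, hm1, hc1, hi1⟩ := h1
  obtain ⟨G2, hm2, hc2, hi2⟩ := h2
  refine ⟨fun j c => G1 j c + G2 j c, fun j => (hm1 j).add (hm2 j), ?_, ?_⟩
  · intro j c
    refine le_trans ?_ (add_le_add (hc1 j c) (hc2 j c))
    unfold crs
    have h : S ∩ line (dirv (φ + j * Real.pi / n)) c =
        (S ∩ A) ∩ line (dirv (φ + j * Real.pi / n)) c ∪
        (S \ A) ∩ line (dirv (φ + j * Real.pi / n)) c := by
      rw [← Set.union_inter_distrib_right, Set.inter_union_diff]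
    rw [h]
    refine le_trans (ENat.toENNReal_mono (Set.encard_union_le _ _)) ?_
    rw [ENat.toENNReal_add]
  · have : ∀ j, ∫⁻ c : ℝ, (G1 j c + G2 j c) = (∫⁻ c : ℝ, G1 j c) + ∫⁻ c : ℝ, G2 j c :=
      fun j => lintegral_add_left (hm1 j) _
    simp only [this, Finset.sum_add_distrib]
    rw [← measure_inter_add_diff S hA, mul_add]
    exact add_le_add hi1 hi2

end ItemCrofton

open ItemCrofton in
theorem prf_Crofton (h1 : S_B1f) (hg : S_Graph) (hb : S_Ban) (hc : S_C10b) : S_Crofton := by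
  intro K S hK hKc hS hSK n φ hn
  obtain ⟨hKcl, hch⟩ := hK
  choose! L f C a b hchart using hch
  set box : E2 → Set E2 := fun p => {x | |cx (L p) p x| < a p ∧ |cy (L p) p x| < b p} with hbox
  have hopen : ∀ p, IsOpen (box p) := by
    intro p
    have hc0 : Continuous (fun x => cx (L p) p x) := by
      unfold cx
      exact (PiLp.continuous_apply 2 _ 0).comp
        ((L p).continuous.comp (continuous_id.sub continuous_const))
    have hc1 : Continuous (fun x => cy (L p) p x) := by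
      unfold cy
      exact (PiLp.continuous_apply 2 _ 1).comp
        ((L p).continuous.comp (continuous_id.sub continuous_const))
    exact (isOpen_lt hc0.abs continuous_const).inter (isOpen_lt hc1.abs continuous_const)
  have hmem : ∀ p ∈ frontier K, p ∈ box p := by
    intro p hp
    have h := hchart p hp
    refine ⟨?_, ?_⟩
    · simpa [cx] using h.a_pos
    · simpa [cy] using h.b_pos
  obtain ⟨t, ht, hcov⟩ := hKc.elim_nhds_subcover box (fun p hp => (hopen p).mem_nhds (hmem p hp))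
  have main : ∀ t : Finset E2, (∀ p ∈ t, p ∈ frontier K) → ∀ S : Set E2, MeasurableSet S →
      S ⊆ frontier K → S ⊆ ⋃ p ∈ t, box p → Concl S n φ := by
    intro t
    induction t using Finset.induction_on with
    | empty =>
      intro _ S hS _ hcov
      have hS0 : S = ∅ := by
        simpa using hcov
      subst hS0
      refine ⟨fun _ _ => 0, fun _ => measurable_const, ?_, ?_⟩
      · intro j c
        simp [crs]
      · simp
    | insert p t hpt ih =>
      intro hp S hS hSK hcov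
      apply union S (box p) n φ (hopen p).measurableSet
      · exact piece h1 hg hb hc K (S ∩ box p) p (L p) (f p) (C p) (a p) (b p) hKcl
          (hchart p (hp p (Finset.mem_insert_self p t))) (hS.inter (hopen p).measurableSet)
          (Set.inter_subset_left.trans hSK) (fun x hx => hx.2) n φ hn
      · apply ih (fun q hq => hp q (Finset.mem_insert_of_mem hq)) (S \ box p)
          (hS.diff (hopen p).measurableSet) (Set.diff_subset.trans hSK)
        intro x hx
        have := hcov hx.1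
        simp only [Set.mem_iUnion, Finset.mem_insert, exists_prop] at this ⊢
        obtain ⟨q, hq | hq, hxq⟩ := this
        · subst hq
          exact absurd hxq hx.2
        · exact ⟨q, hq, hxq⟩
  exact main t ht S hS hSK (hSK.trans hcov)

end Pool.Agent.Robin

end

section

open MeasureTheory Set Metric
open scoped ENNReal NNReal Pointwise RealInnerProductSpace

namespace Pool.Agent.Robin

theorem prf_D2 : S_D2 := by
  intro k K _ _ ε hε
  refine ⟨fun _ => 1, ⟨0, LipschitzWith.const 1⟩, fun _ => le_rfl, ⟨0, fun _ _ => rfl⟩, ?_⟩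
  have h1 : ∀ x : E2, en k (fun _ => (1 : ℝ)) x - k ^ 2 = 0 := by
    intro x
    simp [en]
  have h2 : (∫ x in Kᶜ, (en k (fun _ : E2 => (1 : ℝ)) x - k ^ 2)) = 0 := by
    simp [h1]
  have h3 : (∫ _x in frontier K, ((1 : ℝ)) ^ 2 ∂(μH[1] : Measure E2)) = per K := by
    simp [per, Measure.real]
  rw [h2, h3]
  linarith

end Pool.Agent.Robin

end

section

/-!
# D4: elementary inequality for several holes
-/

namespace Pool.Agent.Robin

theorem prf_D4 : S_D4 := by
  intro r q m x hr hm hmr hrq hx hxr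
  have hr2 : 0 < r ^ 2 := by positivity
  have e : (x / r) ^ 2 * (r * q - m) = x ^ 2 * (r * q - m) / r ^ 2 := by
    rw [div_pow]; ring
  rw [e]
  have hj : 0 ≤ r * q - m := by linarith
  rcases le_total (m * r) (x * (r * q - m)) with h | h
  · refine le_trans ?_ (le_max_right _ _)
    rw [div_le_iff₀ hr2]
    nlinarith [mul_nonneg (sub_nonneg.2 hxr) (sub_nonneg.2 h)]
  · refine le_trans ?_ (le_max_left _ _)
    rw [div_le_iff₀ hr2]
    have h1 : x * (x * (r * q - m)) ≤ x * (m * r) := mul_le_mul_of_nonneg_left h hx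
    have h2 : m * r ≤ r * r := mul_le_mul_of_nonneg_right hmr hr.le
    have h3 : x * (m * r) ≤ x * (r * r) := mul_le_mul_of_nonneg_left h2 hx
    nlinarith

end Pool.Agent.Robin

end

section

/-!
# D5: total bound for the holes
-/

open MeasureTheory Set Metric
open scoped ENNReal NNReal

namespace Pool.Agent.Robin

theorem prf_D5 (h1 : S_D1) (h2 : S_D2) (h4 : S_D4) (hi : S_Iso) : S_D5 := by
  intro k r Ω N H v hk hdec hr hsum hanti hmr hrq
  have hpi := Real.pi_pos
  have hm : 0 ≤ v.m k := by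
    unfold Profile.m
    refine intervalIntegral.integral_nonneg v.σ_pos.le ?_
    intro s hs
    refine mul_nonneg ?_ hs.1
    unfold Profile.g
    have h3 := v.one_le s
    have h5 : 0 ≤ (v.w s) ^ 2 - 1 := by nlinarith
    positivity
  have ha : ∀ i, 0 ≤ area (H i) := fun i => ENNReal.toReal_nonneg
  have hp : ∀ i, 0 ≤ per (H i) := fun i => ENNReal.toReal_nonneg
  set ρ : Fin N → ℝ := fun i => Real.sqrt (area (H i) / Real.pi) with hρ
  have hρ0 : ∀ i, 0 ≤ ρ i := fun i => Real.sqrt_nonneg _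
  have hρ2 : ∀ i, (ρ i) ^ 2 = area (H i) / Real.pi := fun i =>
    Real.sq_sqrt (div_nonneg (ha i) hpi.le)
  have hρr : ∀ i, ρ i ≤ r := by
    intro i
    refine Real.sqrt_le_iff.2 ⟨hr.le, ?_⟩
    rw [div_le_iff₀ hpi]
    have : area (H i) ≤ ∑ i, area (H i) :=
      Finset.single_le_sum (f := fun i => area (H i)) (fun i _ => ha i) (Finset.mem_univ i)
    rw [← hsum] at this
    linarith
  have hper : ∀ i, 2 * Real.pi * ρ i ≤ per (H i) := by
    intro i
    have h5 := hi (H i) (hdec.compact i) (hdec.conn i) (hdec.lip i)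
    have h6 : (2 * Real.pi * ρ i) ^ 2 ≤ (per (H i)) ^ 2 := by
      rw [mul_pow, hρ2]
      have : (2 * Real.pi) ^ 2 * (area (H i) / Real.pi) = 4 * Real.pi * area (H i) := by
        field_simp
        ring
      rw [this]
      exact h5
    exact (pow_le_pow_iff_left₀ (by have := hρ0 i; positivity) (hp i) two_ne_zero).mp h6
  have hq : 0 ≤ v.q k := by
    have h5 : 0 ≤ r * v.q k := by linarith
    exact nonneg_of_mul_nonneg_right h5 hr
  have hmono : ∀ (K : Set E2) (V V' : ℝ), HoleLe k K V → V ≤ V' → HoleLe k K V' := by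
    intro K V V' h hVV ε hε
    obtain ⟨u, hu1, hu2, hu3, hu4⟩ := h ε hε
    exact ⟨u, hu1, hu2, hu3, by linarith⟩
  refine ⟨fun i => - 2 * Real.pi * max (ρ i) (ρ i * v.q k - v.m k), ?_, ?_⟩
  · intro i
    rcases le_total (ρ i) (ρ i * v.q k - v.m k) with h | h
    · refine hmono _ _ _ (h1 k (H i) v hk (hdec.compact i) (hdec.conn i) (hdec.lip i) hanti) ?_
      show _ ≤ - 2 * Real.pi * max (ρ i) (ρ i * v.q k - v.m k)
      rw [max_eq_right h]
      have := mul_le_mul_of_nonneg_right (hper i) hq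
      linarith
    · refine hmono _ _ _ (h2 k (H i) (hdec.compact i) (hdec.lip i)) ?_
      show _ ≤ - 2 * Real.pi * max (ρ i) (ρ i * v.q k - v.m k)
      rw [max_eq_left h]
      have := hper i
      linarith
  · rw [← Finset.mul_sum]
    have h5 : r * v.q k - v.m k ≤ ∑ i, max (ρ i) (ρ i * v.q k - v.m k) := by
      have h6 : ∑ i, (ρ i / r) ^ 2 * (r * v.q k - v.m k) ≤
          ∑ i, max (ρ i) (ρ i * v.q k - v.m k) :=
        Finset.sum_le_sum fun i _ => h4 r (v.q k) (v.m k) (ρ i) hr hm hmr hrq (hρ0 i) (hρr i)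
      refine le_trans (le_of_eq ?_) h6
      rw [← Finset.sum_mul]
      have h7 : ∑ i, (ρ i / r) ^ 2 = 1 := by
        have h8 : ∀ i, (ρ i / r) ^ 2 = area (H i) / (Real.pi * r ^ 2) := by
          intro i
          rw [div_pow, hρ2, div_div]
        rw [Finset.sum_congr rfl fun i _ => h8 i, ← Finset.sum_div, ← hsum, div_self]
        positivity
      rw [h7, one_mul]
    have h8 := mul_le_mul_of_nonneg_left h5 (by positivity : 0 ≤ 2 * Real.pi)
    linarith

end Pool.Agent.Robin

end
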