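import Pool.Agent.Work.MP_4b551e_an.Stmts35
import Pool.Agent.Work.MP_4b551e_an.Stmts29
import Pool.Agent.Work.MP_476501_co.Brouwer

/-! Bundle of small proof modules (one section per former module). -/

section

set_option autoImplicit false

open MeasureTheory Set Metric
open scoped ENNReal NNReal Pointwise RealInnerProductSpace

namespace Pool.Agent.Robin

namespace IE1

lemma one_le_sq {a : ℝ} (h : 1 ≤ a) : 1 ≤ a ^ 2 := by nlinarith

lemma en_sub_nonneg (k : ℝ) (u : E2 → ℝ) (hu : ∀ x, 1 ≤ u x) (x : E2) :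
    0 ≤ en k u x - k ^ 2 := by
  unfold en
  have h1 := one_le_sq (hu x)
  have h2 : 0 ≤ ‖fderiv ℝ u x‖ ^ 2 := by positivity
  have h3 : k ^ 2 * 1 ≤ k ^ 2 * (u x) ^ 2 := mul_le_mul_of_nonneg_left h1 (by positivity)
  linarith

lemma en_meas (k : ℝ) (u : E2 → ℝ) (hu : ∃ K : ℝ≥0, LipschitzWith K u) :
    Measurable fun x => en k u x - k ^ 2 := by
  obtain ⟨K, hK⟩ := hu
  unfold en
  have h1 : Measurable (fderiv ℝ u) := measurable_fderiv ℝ u
  have h2 : Measurable u := hK.continuous.measurable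
  exact ((h1.norm.pow_const 2).add ((h2.pow_const 2).const_mul (k ^ 2))).sub_const _

lemma bdd_on (u : E2 → ℝ) (hu : ∃ K : ℝ≥0, LipschitzWith K u) (s : Set E2)
    (hs : Bornology.IsBounded s) : ∃ B : ℝ, 0 ≤ B ∧ ∀ x ∈ s, |u x| ≤ B := by
  obtain ⟨K, hK⟩ := hu
  obtain ⟨B, hB⟩ := (hs.isCompact_closure).exists_bound_of_continuousOn
    (f := u) hK.continuous.continuousOn
  refine ⟨max B 0, le_max_right _ _, fun x hx => ?_⟩
  exact (hB x (subset_closure hx)).trans (le_max_left _ _)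

lemma en_int (k : ℝ) (u : E2 → ℝ) (hu : ∃ K : ℝ≥0, LipschitzWith K u) (s : Set E2)
    (hs : Bornology.IsBounded s) :
    IntegrableOn (fun x => en k u x - k ^ 2) s volume := by
  obtain ⟨B, hB0, hB⟩ := bdd_on u hu s hs
  obtain ⟨K, hK⟩ := hu
  have hfin : volume s < ⊤ := hs.measure_lt_top
  have hb : ∀ x ∈ s, ‖en k u x - k ^ 2‖ ≤ (K : ℝ) ^ 2 + k ^ 2 * B ^ 2 + k ^ 2 := by
    intro x hx
    have h1 : ‖fderiv ℝ u x‖ ≤ K := norm_fderiv_le_of_lipschitz ℝ hK
    have h2 : ‖fderiv ℝ u x‖ ^ 2 ≤ (K : ℝ) ^ 2 := by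
      apply pow_le_pow_left₀ (norm_nonneg _) h1
    have h3 : (u x) ^ 2 ≤ B ^ 2 := by
      rw [← sq_abs]
      exact pow_le_pow_left₀ (abs_nonneg _) (hB x hx) 2
    have h4 : k ^ 2 * (u x) ^ 2 ≤ k ^ 2 * B ^ 2 := mul_le_mul_of_nonneg_left h3 (by positivity)
    have h5 : 0 ≤ k ^ 2 * (u x) ^ 2 := by positivity
    have h6 : 0 ≤ ‖fderiv ℝ u x‖ ^ 2 := by positivity
    have h7 : 0 ≤ k ^ 2 := by positivity
    unfold en
    rw [Real.norm_eq_abs, abs_le]
    constructor
    · nlinarith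
    · linarith
  have hsc : IntegrableOn (fun x => en k u x - k ^ 2) (closure s) volume := by
    obtain ⟨B', hB'0, hB'⟩ := bdd_on u ⟨K, hK⟩ (closure s) hs.closure
    apply IntegrableOn.of_bound (hs.closure.measure_lt_top)
      ((en_meas k u ⟨K, hK⟩).aestronglyMeasurable) ((K : ℝ) ^ 2 + k ^ 2 * B' ^ 2 + k ^ 2)
    rw [ae_restrict_iff' isClosed_closure.measurableSet]
    filter_upwards with x hx
    have h1 : ‖fderiv ℝ u x‖ ≤ K := norm_fderiv_le_of_lipschitz ℝ hK
    have h2 : ‖fderiv ℝ u x‖ ^ 2 ≤ (K : ℝ) ^ 2 := by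
      apply pow_le_pow_left₀ (norm_nonneg _) h1
    have h3 : (u x) ^ 2 ≤ B' ^ 2 := by
      rw [← sq_abs]
      exact pow_le_pow_left₀ (abs_nonneg _) (hB' x hx) 2
    have h4 : k ^ 2 * (u x) ^ 2 ≤ k ^ 2 * B' ^ 2 := mul_le_mul_of_nonneg_left h3 (by positivity)
    have h5 : 0 ≤ k ^ 2 * (u x) ^ 2 := by positivity
    have h6 : 0 ≤ ‖fderiv ℝ u x‖ ^ 2 := by positivity
    have h7 : 0 ≤ k ^ 2 := by positivity
    unfold en
    rw [Real.norm_eq_abs, abs_le]
    constructor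
    · nlinarith
    · linarith
  exact hsc.mono_set subset_closure

lemma en_int_far (k : ℝ) (u : E2 → ℝ) (hu : ∃ K : ℝ≥0, LipschitzWith K u)
    (hM : ∃ M : ℝ, ∀ x, M < ‖x‖ → u x = 1) :
    Integrable (fun x => en k u x - k ^ 2) volume := by
  obtain ⟨M, hM⟩ := hM
  have h1 := en_int k u hu (closedBall 0 M) isBounded_closedBall
  rw [← integrableOn_univ]
  have h2 : IntegrableOn (fun x => en k u x - k ^ 2) (closedBall 0 M)ᶜ volume := by
    have h3 : ∀ x ∈ (closedBall (0 : E2) M)ᶜ, en k u x - k ^ 2 = 0 := by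
      intro x hx
      have hx' : M < ‖x‖ := by
        rw [mem_compl_iff, mem_closedBall_zero_iff, not_le] at hx
        exact hx
      have h4 : u =ᶠ[nhds x] fun _ => (1 : ℝ) := by
        have : {y : E2 | M < ‖y‖} ∈ nhds x := (isOpen_lt continuous_const continuous_norm).mem_nhds hx'
        filter_upwards [this] with y hy
        exact hM y hy
      have h5 : fderiv ℝ u x = 0 := by
        rw [h4.fderiv_eq]
        simp
      unfold en
      rw [h5, hM x hx']
      simp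
    have h4 : IntegrableOn (fun _ : E2 => (0 : ℝ)) (closedBall 0 M)ᶜ volume := integrableOn_zero
    exact h4.congr_fun (fun x hx => (h3 x hx).symm) isClosed_closedBall.measurableSet.compl
  have h3 := h1.union h2
  rwa [union_compl_self] at h3

lemma sq_int (u : E2 → ℝ) (hu : ∃ K : ℝ≥0, LipschitzWith K u) (s : Set E2)
    (hsm : MeasurableSet s) (hs : Bornology.IsBounded s) (hfin : μH[1] s < ⊤) :
    IntegrableOn (fun x => (u x) ^ 2) s (μH[1]) := by
  obtain ⟨B, hB0, hB⟩ := bdd_on u hu s hs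
  obtain ⟨K, hK⟩ := hu
  apply IntegrableOn.of_bound hfin
    ((hK.continuous.pow 2).measurable.aestronglyMeasurable) (B ^ 2)
  rw [ae_restrict_iff' hsm]
  filter_upwards with x hx
  show ‖(u x) ^ 2‖ ≤ B ^ 2
  rw [Real.norm_eq_abs, abs_of_nonneg (sq_nonneg (u x)), ← sq_abs]
  exact pow_le_pow_left₀ (abs_nonneg _) (hB x hx) 2

/-- the maximum of finitely many test functions -/
theorem max_red (k : ℝ) (Ω : Set E2) (hΩb : Bornology.IsBounded Ω)
    {ι : Type} [Fintype ι] [Nonempty ι] (D : ι → Set E2) (U : ι → E2 → ℝ) (c : ι → ℝ)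
    (hlip : ∀ j, ∃ K : ℝ≥0, LipschitzWith K (U j)) (h1 : ∀ j x, 1 ≤ U j x)
    (hsub : ∀ j, Ω ⊆ D j) (hint : ∀ j, IntegrableOn (fun x => en k (U j) x - k ^ 2) (D j) volume)
    (hfr : frontier Ω = ⋃ j, frontier (D j))
    (hdisj : Pairwise (Function.onFun Disjoint fun j => frontier (D j)))
    (hfin : ∀ j, μH[1] (frontier (D j)) < ⊤)
    (hc : ∀ j, (∫ x in D j, (en k (U j) x - k ^ 2)) -
      (∫ x in frontier (D j), (U j x) ^ 2 ∂(μH[1])) ≤ c j) :
    ∃ u : E2 → ℝ, (∃ K : ℝ≥0, LipschitzWith K u) ∧ (∀ x, 1 ≤ u x) ∧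
      Qk k Ω u ≤ k ^ 2 * area Ω + ∑ j, c j := by
  classical
  choose Kc hKc using hlip
  have hne : (Finset.univ : Finset ι).Nonempty := Finset.univ_nonempty
  set u : E2 → ℝ := fun x => Finset.univ.sup' hne fun j => U j x with hu
  have hle : ∀ j x, U j x ≤ u x := fun j x =>
    Finset.le_sup' (fun j => U j x) (Finset.mem_univ j)
  have hat : ∀ x, ∃ j, u x = U j x := by
    intro x
    obtain ⟨j, _, hj⟩ := Finset.exists_mem_eq_sup' hne fun j => U j x
    exact ⟨j, hj⟩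
  have hulip : LipschitzWith (∑ j, Kc j) u := by
    apply LipschitzWith.of_le_add_mul
    intro x y
    apply Finset.sup'_le
    intro j _
    have h2 := (hKc j).dist_le_mul x y
    rw [Real.dist_eq] at h2
    have h3 := le_of_abs_le h2
    have h4 : (Kc j : ℝ) * dist x y ≤ ((∑ j, Kc j : ℝ≥0) : ℝ) * dist x y := by
      apply mul_le_mul_of_nonneg_right _ dist_nonneg
      have : Kc j ≤ ∑ j, Kc j := Finset.single_le_sum (fun _ _ => zero_le) (Finset.mem_univ j)
      exact_mod_cast this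
    linarith [hle j y]
  have hu1 : ∀ x, 1 ≤ u x := by
    intro x
    obtain ⟨j, hj⟩ := hat x
    rw [hj]
    exact h1 j x
  refine ⟨u, ⟨_, hulip⟩, hu1, ?_⟩
  have hnn : ∀ j x, 0 ≤ en k (U j) x - k ^ 2 := fun j x => en_sub_nonneg k (U j) (h1 j) x
  have hae : ∀ᵐ x : E2, en k u x - k ^ 2 ≤ ∑ j, (en k (U j) x - k ^ 2) := by
    have hd : ∀ᵐ x : E2, DifferentiableAt ℝ u x := hulip.ae_differentiableAt
    have hdj : ∀ᵐ x : E2, ∀ j, DifferentiableAt ℝ (U j) x := by
      rw [ae_all_iff]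
      intro j
      exact (hKc j).ae_differentiableAt
    filter_upwards [hd, hdj] with x hx hxj
    obtain ⟨j, hj⟩ := hat x
    have hmin : IsLocalMin (fun y => u y - U j y) x := by
      apply Filter.Eventually.of_forall
      intro y
      show u x - U j x ≤ u y - U j y
      rw [hj]
      linarith [hle j y]
    have h0 := hmin.fderiv_eq_zero
    have h2 : fderiv ℝ (fun y => u y - U j y) x = fderiv ℝ u x - fderiv ℝ (U j) x :=
      fderiv_fun_sub hx (hxj j)
    rw [h2, sub_eq_zero] at h0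
    have h3 : en k u x = en k (U j) x := by
      unfold en
      rw [h0, hj]
    rw [h3]
    exact Finset.single_le_sum (f := fun j => en k (U j) x - k ^ 2) (fun j _ => hnn j x)
      (Finset.mem_univ j)
  have hΩint : ∀ j, IntegrableOn (fun x => en k (U j) x - k ^ 2) Ω volume :=
    fun j => (hint j).mono_set (hsub j)
  have huint : IntegrableOn (fun x => en k u x - k ^ 2) Ω volume := en_int k u ⟨_, hulip⟩ Ω hΩb
  have hmain : ∫ x in Ω, (en k u x - k ^ 2) ≤ ∑ j, ∫ x in D j, (en k (U j) x - k ^ 2) := by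
    calc ∫ x in Ω, (en k u x - k ^ 2)
        ≤ ∫ x in Ω, ∑ j, (en k (U j) x - k ^ 2) := by
          apply setIntegral_mono_ae huint (integrable_finsetSum _ fun j _ => hΩint j) hae
      _ = ∑ j, ∫ x in Ω, (en k (U j) x - k ^ 2) := integral_finsetSum _ fun j _ => hΩint j
      _ ≤ ∑ j, ∫ x in D j, (en k (U j) x - k ^ 2) := by
          apply Finset.sum_le_sum
          intro j _
          apply setIntegral_mono_set (hint j)
          · exact Filter.Eventually.of_forall (hnn j)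
          · exact (hsub j).eventuallyLE
  have hfrb : Bornology.IsBounded (frontier Ω) := hΩb.closure.subset frontier_subset_closure
  have hfjb : ∀ j, Bornology.IsBounded (frontier (D j)) := by
    intro j
    apply hfrb.subset
    rw [hfr]
    exact subset_iUnion (fun j => frontier (D j)) j
  have hfm : ∀ j, MeasurableSet (frontier (D j)) := fun j => isClosed_frontier.measurableSet
  have hbd : ∑ j, ∫ x in frontier (D j), (U j x) ^ 2 ∂(μH[1]) ≤
      ∫ x in frontier Ω, (u x) ^ 2 ∂(μH[1]) := by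
    rw [hfr, integral_iUnion_fintype hfm hdisj fun j =>
      sq_int u ⟨_, hulip⟩ _ (hfm j) (hfjb j) (hfin j)]
    apply Finset.sum_le_sum
    intro j _
    apply setIntegral_mono_on (sq_int (U j) ⟨_, hKc j⟩ _ (hfm j) (hfjb j) (hfin j))
      (sq_int u ⟨_, hulip⟩ _ (hfm j) (hfjb j) (hfin j)) (hfm j)
    intro x _
    exact pow_le_pow_left₀ (by linarith [h1 j x]) (hle j x) 2
  have hconst : ∫ x in Ω, en k u x = (∫ x in Ω, (en k u x - k ^ 2)) + k ^ 2 * area Ω := by
    have hk : IntegrableOn (fun _ : E2 => k ^ 2) Ω volume :=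
      integrableOn_const (hΩb.measure_lt_top.ne) (by simp)
    have h2 : ∫ x in Ω, en k u x = ∫ x in Ω, ((en k u x - k ^ 2) + k ^ 2) := by
      apply integral_congr_ae
      filter_upwards with x
      ring
    rw [h2, integral_add huint hk]
    congr 1
    rw [setIntegral_const, smul_eq_mul, mul_comm]
    rfl
  unfold Qk
  rw [hconst]
  have hsum := Finset.sum_le_sum fun j (_ : j ∈ (Finset.univ : Finset ι)) => hc j
  rw [Finset.sum_sub_distrib] at hsum
  linarith

end IE1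

theorem prf_E1 (h2 : S_B2) (_h1 : S_B1) : S_E1 := by
  classical
  intro k Ω N H V₀ V hk hΩ hD h0 hH ε hε
  have hN : (0 : ℝ) < N + 1 := by positivity
  have hε' : 0 < ε / (N + 1) := div_pos hε hN
  obtain ⟨u0, hu0l, hu01, hu0⟩ := h0 (ε / (N + 1)) hε'
  choose ui huil hui1 huiM hui using fun i => hH i (ε / (N + 1)) hε'
  have hfo : frontier (fill Ω) = frontier (outer Ω) := frontier_compl _
  have hfb : Bornology.IsBounded (frontier Ω) :=
    hΩ.isBounded.closure.subset frontier_subset_closure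
  have hsub0 : frontier (outer Ω) ⊆ frontier Ω := by
    rw [hD.fr]
    exact subset_union_left
  have hsubi : ∀ i, frontier (H i) ⊆ frontier Ω := by
    intro i
    rw [hD.fr]
    exact (subset_iUnion (fun i => frontier (H i)) i).trans subset_union_right
  have hcomp : ∀ s : Set E2, frontier s ⊆ frontier Ω → IsCompact (frontier s) := by
    intro s hs
    exact Metric.isCompact_of_isClosed_isBounded isClosed_frontier (hfb.subset hs)
  have houter_cl : frontier (outer Ω) ⊆ outer Ω := hD.outer_lip.1.frontier_subset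
  have hH_cl : ∀ i, frontier (H i) ⊆ H i := fun i => (hD.lip i).1.frontier_subset
  have key := IE1.max_red k Ω hΩ.isBounded (ι := Option (Fin N))
    (fun j => j.elim (fill Ω) fun i => (H i)ᶜ) (fun j => j.elim u0 ui)
    (fun j => j.elim (V₀ + ε / (N + 1)) fun i => V i + ε / (N + 1)) ?_ ?_ ?_ ?_ ?_ ?_ ?_ ?_
  · obtain ⟨u, hul, hu1, hu⟩ := key
    refine ⟨u, hul, hu1, hu.trans ?_⟩
    rw [Fintype.sum_option]
    simp only [Option.elim]
    rw [Finset.sum_add_distrib]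
    simp only [Finset.sum_const, Finset.card_univ, Fintype.card_fin, nsmul_eq_mul]
    have : ε / (N + 1) + N * (ε / (N + 1)) = ε := by
      field_simp
      ring
    linarith
  · rintro (_ | i)
    · exact hu0l
    · exact huil i
  · rintro (_ | i) x
    · exact hu01 x
    · exact hui1 i x
  · rintro (_ | i)
    · intro x hx hxo
      exact hxo.1 hx
    · intro x hx hxH
      have : x ∈ Ωᶜ := by
        rw [hD.compl]
        exact Or.inr (mem_iUnion.2 ⟨i, hxH⟩)
      exact this hx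
  · rintro (_ | i)
    · exact IE1.en_int k u0 hu0l (fill Ω) hD.fill_adm.isBounded
    · exact (IE1.en_int_far k (ui i) (huil i) (huiM i)).integrableOn
  · rw [iUnion_option]
    simp only [Option.elim]
    rw [hfo, hD.fr]
    congr 1
    apply iUnion_congr
    intro i
    exact (frontier_compl (H i)).symm
  · rintro (_ | i) (_ | j) hij
    · exact absurd rfl hij
    · show Disjoint (frontier (fill Ω)) (frontier (H j)ᶜ)
      rw [hfo, frontier_compl]
      exact ((hD.disj_outer j).symm).mono houter_cl (hH_cl j)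
    · show Disjoint (frontier (H i)ᶜ) (frontier (fill Ω))
      rw [hfo, frontier_compl]
      exact (hD.disj_outer i).mono (hH_cl i) houter_cl
    · show Disjoint (frontier (H i)ᶜ) (frontier (H j)ᶜ)
      rw [frontier_compl, frontier_compl]
      have hij' : i ≠ j := fun h => hij (by rw [h])
      exact (hD.disj hij').mono (hH_cl i) (hH_cl j)
  · rintro (_ | i)
    · show μH[1] (frontier (fill Ω)) < ⊤
      rw [hfo]
      exact (h2 (outer Ω) hD.outer_lip (hcomp _ hsub0)).1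
    · show μH[1] (frontier (H i)ᶜ) < ⊤
      rw [frontier_compl]
      exact (h2 (H i) (hD.lip i) (hcomp _ (hsubi i))).1
  · rintro (_ | i)
    · exact hu0
    · show (∫ x in (H i)ᶜ, (en k (ui i) x - k ^ 2)) -
        (∫ x in frontier (H i)ᶜ, (ui i x) ^ 2 ∂(μH[1])) ≤ V i + ε / (N + 1)
      rw [frontier_compl]
      exact hui i

end Pool.Agent.Robin

end

section

open MeasureTheory Set Metric
open scoped ENNReal NNReal Pointwise RealInnerProductSpace

namespace Pool.Agent.Robin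

theorem area_fill_eq {Ω : Set E2} {N : ℕ} {H : Fin N → Set E2} (hD : Decomp Ω N H) {A : ℝ}
    (hA : 0 < A) (hvol : volume Ω = ENNReal.ofReal A) :
    area (fill Ω) = A + ∑ i, area (H i) := by
  have hHsub : ∀ i, H i ⊆ Ωᶜ := fun i => by
    rw [hD.compl]; exact (subset_iUnion H i).trans subset_union_right
  have e : fill Ω = Ω ∪ ⋃ i, H i := by
    ext x
    constructor
    · intro hx
      by_cases hxΩ : x ∈ Ω
      · exact Or.inl hxΩ
      · have h1 : x ∈ Ωᶜ := hxΩ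
        rw [hD.compl] at h1
        rcases h1 with h1 | h1
        · exact absurd h1 hx
        · exact Or.inr h1
    · rintro (hx | hx) hxo
      · exact hxo.1 hx
      · obtain ⟨i, hi⟩ := mem_iUnion.1 hx
        exact (Set.disjoint_left.1 (hD.disj_outer i)) hi hxo
  have hmeas : ∀ i, MeasurableSet (H i) := fun i => (hD.compact i).measurableSet
  have hdis : Disjoint Ω (⋃ i, H i) := by
    rw [Set.disjoint_left]
    intro x hx hx2
    obtain ⟨i, hi⟩ := mem_iUnion.1 hx2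
    exact hHsub i hi hx
  have h1 : volume (fill Ω) = volume Ω + ∑ i, volume (H i) := by
    rw [e, measure_union hdis (MeasurableSet.iUnion hmeas), measure_iUnion hD.disj hmeas,
      tsum_fintype]
  unfold area
  rw [h1, hvol, ENNReal.toReal_add ENNReal.ofReal_ne_top, ENNReal.toReal_ofReal hA.le,
    ENNReal.toReal_sum]
  · intro i _
    exact (hD.compact i).measure_lt_top.ne
  · exact (ENNReal.sum_lt_top.2 fun i _ => (hD.compact i).measure_lt_top).ne

theorem area_of_vol {Ω : Set E2} {A : ℝ} (hA : 0 < A) (hvol : volume Ω = ENNReal.ofReal A) :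
    area Ω = A := by
  unfold area
  rw [hvol, ENNReal.toReal_ofReal hA.le]

theorem prf_E2 (h1 : S_A1) (h3 : S_B3) (h5 : S_D5) (he : S_E1) : S_E2 := by
  intro k A r V₀ Ω v hk hΩ hA hvol hr hfill hanti hm1 hm2 hout hineq
  obtain ⟨N, H, hD⟩ := h3 Ω hΩ
  have h6 := area_fill_eq hD hA hvol
  have h7 : Real.pi * r ^ 2 = ∑ i, area (H i) := by linarith
  obtain ⟨V, hV, hVs⟩ := h5 k r Ω N H v hk hD hr h7 hanti hm1 hm2
  refine h1 k A Ω hΩ hA hvol fun ε hε => ?_
  obtain ⟨u, hu1, hu2, hu3⟩ := he k Ω N H V₀ V hk hΩ hD hout hV ε hε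
  refine ⟨u, hu1, hu2, ?_⟩
  rw [area_of_vol hA hvol] at hu3
  linarith

theorem prf_E3 (h1 : S_A1) (h3 : S_B3) (h2 : S_D2) (he : S_E1) : S_E3 := by
  intro k A V₀ Ω hk hΩ hA hvol hout hineq
  obtain ⟨N, H, hD⟩ := h3 Ω hΩ
  refine h1 k A Ω hΩ hA hvol fun ε hε => ?_
  obtain ⟨u, hu1, hu2, hu3⟩ := he k Ω N H V₀ (fun i => -(per (H i))) hk hΩ hD hout
    (fun i => h2 k (H i) (hD.compact i) (hD.lip i)) ε hε
  refine ⟨u, hu1, hu2, ?_⟩
  rw [area_of_vol hA hvol] at hu3
  have h4 : ∑ i, -(per (H i)) ≤ 0 :=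
    Finset.sum_nonpos fun i _ => neg_nonpos.2 ENNReal.toReal_nonneg
  linarith

end Pool.Agent.Robin

end

section

/-!
# MP_4b551e_an: Eilenberg inequality with a local Lipschitz constant
-/

open MeasureTheory Set Metric Filter Topology
open scoped ENNReal NNReal

namespace Pool.Agent.Robin

namespace EilWAux

/-- dyadic cell -/
noncomputable def cell (n : ℕ) (x : E2) : ℤ × ℤ := (⌊(2 : ℝ) ^ n * x 0⌋, ⌊(2 : ℝ) ^ n * x 1⌋)

theorem cell_meas (n : ℕ) : Measurable (cell n) := by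
  have h : ∀ i : Fin 2, Measurable fun x : E2 => x i := fun i =>
    (EuclideanSpace.proj (𝕜 := ℝ) i).continuous.measurable
  exact ((measurable_const.mul (h 0)).floor).prodMk ((measurable_const.mul (h 1)).floor)

theorem cell_sep {x y : E2} (h : x ≠ y) : ∀ᶠ n : ℕ in atTop, cell n x ≠ cell n y := by
  obtain ⟨i, hi⟩ : ∃ i, x i ≠ y i := by
    by_contra hc
    push Not at hc
    exact h (by ext i; exact hc i)
  have hpos : 0 < |x i - y i| := abs_pos.mpr (sub_ne_zero.mpr hi)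
  have ht : Tendsto (fun n : ℕ => (2 : ℝ) ^ n * |x i - y i|) atTop atTop :=
    (tendsto_pow_atTop_atTop_of_one_lt one_lt_two).atTop_mul_const hpos
  filter_upwards [ht.eventually_ge_atTop 1] with n hn heq
  have hfl : ⌊(2 : ℝ) ^ n * x i⌋ = ⌊(2 : ℝ) ^ n * y i⌋ := by
    unfold cell at heq
    rw [Prod.mk.injEq] at heq
    fin_cases i
    · exact heq.1
    · exact heq.2
  have h1 := Int.abs_sub_lt_one_of_floor_eq_floor hfl
  rw [← mul_sub, abs_mul, abs_of_pos (by positivity : (0 : ℝ) < 2 ^ n)] at h1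
  linarith

/-- number of points of the fibres -/
theorem core (E : Set E2) (φ : E2 → ℝ) (κ : ℝ≥0) (hE : MeasurableSet E)
    (hφ : LipschitzOnWith κ φ E) :
    ∃ G : ℝ → ℝ≥0∞, Measurable G ∧
      (∀ c, ∑' _x : (E ∩ φ ⁻¹' {c} : Set E2), (1 : ℝ≥0∞) ≤ G c) ∧
      ∫⁻ c, G c ≤ κ * μH[1] E := by
  classical
  set T : ℕ → ℤ × ℤ → Set ℝ := fun n j => toMeasurable volume (φ '' (E ∩ cell n ⁻¹' {j})) with hT
  have hTm : ∀ n j, MeasurableSet (T n j) := fun n j => measurableSet_toMeasurable _ _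
  set Gn : ℕ → ℝ → ℝ≥0∞ := fun n c => ∑' j, (T n j).indicator 1 c with hGn
  have hGm : ∀ n, Measurable (Gn n) := fun n =>
    Measurable.tsum fun j => measurable_one.indicator (hTm n j)
  have hGi : ∀ n, ∫⁻ c, Gn n c ≤ κ * μH[1] E := by
    intro n
    rw [hGn]
    dsimp only
    rw [lintegral_tsum fun j => (measurable_one.indicator (hTm n j)).aemeasurable]
    have h1 : ∀ j, ∫⁻ c, (T n j).indicator 1 c ≤ κ * μH[1] (E ∩ cell n ⁻¹' {j}) := by
      intro j
      rw [lintegral_indicator_one (hTm n j), hT]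
      dsimp only
      rw [measure_toMeasurable]
      have h2 := (hφ.mono (inter_subset_left (t := cell n ⁻¹' {j}))).hausdorffMeasure_image_le
        (d := 1) zero_le_one
      rwa [hausdorffMeasure_real, ENNReal.rpow_one] at h2
    refine (ENNReal.tsum_le_tsum h1).trans ?_
    rw [ENNReal.tsum_mul_left]
    gcongr
    rw [← measure_iUnion]
    · exact measure_mono (iUnion_subset fun j => inter_subset_left)
    · intro i j hij
      refine Set.disjoint_left.mpr fun x hx hx' => hij ?_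
      have h3 : cell n x = i := hx.2
      have h4 : cell n x = j := hx'.2
      rw [← h3, ← h4]
    · intro j
      exact hE.inter (cell_meas n (measurableSet_singleton j))
  refine ⟨fun c => liminf (fun n => Gn n c) atTop, Measurable.liminf hGm, ?_, ?_⟩
  · intro c
    rw [ENNReal.tsum_eq_iSup_sum]
    refine iSup_le fun F => ?_
    refine le_liminf_of_le (by isBoundedDefault) ?_
    have hsep : ∀ᶠ n : ℕ in atTop, ∀ x ∈ F, ∀ y ∈ F, x ≠ y → cell n x ≠ cell n y := by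
      rw [Finset.eventually_all]
      intro x _
      rw [Finset.eventually_all]
      intro y _
      by_cases hxy : x = y
      · exact Eventually.of_forall fun n h => absurd hxy h
      · filter_upwards [cell_sep (x := (x : E2)) (y := y) (fun h => hxy (Subtype.ext h))] with n hn
        exact fun _ => hn
    filter_upwards [hsep] with n hn
    have hinj : Set.InjOn (fun x : (E ∩ φ ⁻¹' {c} : Set E2) => cell n x) F := by
      intro x hx y hy hxy
      by_contra hne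
      exact hn x hx y hy hne hxy
    calc ∑ _x ∈ F, (1 : ℝ≥0∞) =
          ∑ j ∈ F.image (fun x : (E ∩ φ ⁻¹' {c} : Set E2) => cell n (x : E2)), 1 := by
          rw [Finset.sum_image hinj]
      _ ≤ ∑ j ∈ F.image (fun x : (E ∩ φ ⁻¹' {c} : Set E2) => cell n (x : E2)),
            (T n j).indicator 1 c := by
          refine Finset.sum_le_sum fun j hj => ?_
          obtain ⟨x, hx, rfl⟩ := Finset.mem_image.mp hj
          have hmem : c ∈ T n (cell n x) := by
            rw [hT]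
            refine subset_toMeasurable _ _ ⟨x, ⟨x.2.1, rfl⟩, ?_⟩
            exact x.2.2
          rw [indicator_of_mem hmem]
          simp
      _ ≤ Gn n c := ENNReal.sum_le_tsum _
  · refine (lintegral_liminf_le hGm).trans ?_
    refine (liminf_le_liminf (Eventually.of_forall hGi)).trans ?_
    rw [liminf_const]

/-- weights -/
theorem weighted (E : Set E2) (φ : E2 → ℝ) (κ : ℝ≥0) (hE : MeasurableSet E)
    (hφ : LipschitzOnWith κ φ E) (f : E2 → ℝ≥0∞) (hf : Measurable f) :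
    ∃ G : ℝ → ℝ≥0∞, Measurable G ∧ (∀ c, ∑' x : (E ∩ φ ⁻¹' {c} : Set E2), f x ≤ G c) ∧
      ∫⁻ c, G c ≤ κ * ∫⁻ x in E, f x ∂(μH[1]) := by
  classical
  refine Measurable.ennreal_induction (motive := fun f => ∃ G : ℝ → ℝ≥0∞, Measurable G ∧
    (∀ c, ∑' x : (E ∩ φ ⁻¹' {c} : Set E2), f x ≤ G c) ∧
      ∫⁻ c, G c ≤ κ * ∫⁻ x in E, f x ∂(μH[1])) ?_ ?_ ?_ hf
  · intro a s hs
    obtain ⟨G, hG, hGc, hGi⟩ := core (E ∩ s) φ κ (hE.inter hs) (hφ.mono inter_subset_left)
    refine ⟨fun c => a * G c, hG.const_mul a, fun c => ?_, ?_⟩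
    · have h1 : ∑' x : (E ∩ φ ⁻¹' {c} : Set E2), s.indicator (fun _ => a) (x : E2) =
          a * ∑' _x : (E ∩ s ∩ φ ⁻¹' {c} : Set E2), (1 : ℝ≥0∞) := by
        rw [tsum_subtype (E ∩ φ ⁻¹' {c}) (s.indicator (fun _ => a)),
          tsum_subtype (E ∩ s ∩ φ ⁻¹' {c}) (fun _ => (1 : ℝ≥0∞)), ← ENNReal.tsum_mul_left]
        refine tsum_congr fun x => ?_
        by_cases hx : x ∈ E ∩ φ ⁻¹' {c}
        · by_cases hxs : x ∈ s
          · rw [indicator_of_mem hx, indicator_of_mem hxs,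
              indicator_of_mem (show x ∈ E ∩ s ∩ φ ⁻¹' {c} from ⟨⟨hx.1, hxs⟩, hx.2⟩), mul_one]
          · rw [indicator_of_mem hx, indicator_of_notMem hxs,
              indicator_of_notMem (fun h => hxs h.1.2), mul_zero]
        · rw [indicator_of_notMem hx, indicator_of_notMem (fun h => hx ⟨h.1.1, h.2⟩), mul_zero]
      show ∑' x : (E ∩ φ ⁻¹' {c} : Set E2), s.indicator (fun _ => a) (x : E2) ≤ a * G c
      rw [h1]
      gcongr
      exact hGc c
    · rw [lintegral_const_mul _ hG, lintegral_indicator_const hs, Measure.restrict_apply hs]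
      calc a * ∫⁻ c, G c ≤ a * (κ * μH[1] (E ∩ s)) := by gcongr
        _ = κ * (a * μH[1] (s ∩ E)) := by rw [inter_comm]; ring
  · intro f g _ hf hg ihf ihg
    obtain ⟨G, hG, hGc, hGi⟩ := ihf
    obtain ⟨G', hG', hGc', hGi'⟩ := ihg
    refine ⟨fun c => G c + G' c, hG.add hG', fun c => ?_, ?_⟩
    · simp only [Pi.add_apply]
      rw [ENNReal.tsum_add]
      exact add_le_add (hGc c) (hGc' c)
    · simp only [Pi.add_apply]
      rw [lintegral_add_left hG, lintegral_add_left hf, mul_add]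
      exact add_le_add hGi hGi'
  · intro f hfm hmono ih
    choose G hG hGc hGi using ih
    refine ⟨fun c => liminf (fun n => G n c) atTop, Measurable.liminf hG, fun c => ?_, ?_⟩
    · rw [ENNReal.tsum_eq_iSup_sum]
      refine iSup_le fun F => ?_
      show ∑ a ∈ F, ⨆ n, f n (a : E2) ≤ liminf (fun n => G n c) atTop
      rw [ENNReal.finsetSum_iSup_of_monotone (s := F)
        (f := fun (x : (E ∩ φ ⁻¹' {c} : Set E2)) n => f n (x : E2))
        (fun x m n hmn => hmono hmn x)]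
      refine iSup_le fun n => ?_
      refine le_liminf_of_le (by isBoundedDefault) ?_
      filter_upwards [eventually_ge_atTop n] with m hm
      refine le_trans ?_ (hGc m c)
      refine le_trans (Finset.sum_le_sum fun x _ => hmono hm x) (ENNReal.sum_le_tsum _)
    · refine (lintegral_liminf_le hG).trans ?_
      have h1 : ∀ n, ∫⁻ c, G n c ≤ κ * ∫⁻ x in E, ⨆ n, f n x ∂(μH[1]) := by
        intro n
        refine (hGi n).trans ?_
        gcongr with x
        exact le_iSup (fun n => f n x) n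
      refine (liminf_le_liminf (Eventually.of_forall h1)).trans ?_
      rw [liminf_const]

/-- countable partition -/
theorem partition {S : Set E2} (E : ℕ → Set E2) (hE : ∀ l, MeasurableSet (E l))
    (hU : S ⊆ ⋃ l, E l) (hd : Pairwise (Function.onFun Disjoint E)) (φ : E2 → ℝ) (f : E2 → ℝ≥0∞)
    (ω' : E2 → ℝ≥0∞)
    (h : ∀ l, ∃ G : ℝ → ℝ≥0∞, Measurable G ∧
      (∀ c, ∑' x : (E l ∩ φ ⁻¹' {c} : Set E2), f x ≤ G c) ∧
      ∫⁻ c, G c ≤ ∫⁻ x in E l, f x * ω' x ∂(μH[1])) :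
    ∃ G : ℝ → ℝ≥0∞, Measurable G ∧ (∀ c, ∑' x : (S ∩ φ ⁻¹' {c} : Set E2), f x ≤ G c) ∧
      ∫⁻ c, G c ≤ ∫⁻ x in ⋃ l, E l, f x * ω' x ∂(μH[1]) := by
  classical
  choose G hG hGc hGi using h
  refine ⟨fun c => ∑' l, G l c, Measurable.tsum hG, fun c => ?_, ?_⟩
  · refine le_trans ?_ (ENNReal.tsum_le_tsum fun l => hGc l c)
    rw [tsum_subtype (S ∩ φ ⁻¹' {c}) f]
    have h1 : ∀ l, ∑' x : (E l ∩ φ ⁻¹' {c} : Set E2), f x =
        ∑' x, (E l ∩ φ ⁻¹' {c}).indicator f x := fun l => tsum_subtype _ f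
    simp_rw [h1]
    rw [ENNReal.tsum_comm]
    refine ENNReal.tsum_le_tsum fun x => ?_
    by_cases hx : x ∈ S ∩ φ ⁻¹' {c}
    · obtain ⟨l, hl⟩ := mem_iUnion.mp (hU hx.1)
      rw [indicator_of_mem hx]
      refine le_trans (le_of_eq ?_) (ENNReal.le_tsum l)
      rw [indicator_of_mem (show x ∈ E l ∩ φ ⁻¹' {c} from ⟨hl, hx.2⟩)]
    · rw [indicator_of_notMem hx]; exact bot_le
  · rw [lintegral_tsum fun l => (hG l).aemeasurable, lintegral_iUnion hE hd]
    exact ENNReal.tsum_le_tsum hGi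

/-- the inequality up to `ε` -/
theorem approx (S : Set E2) (φ : E2 → ℝ) (ω : E2 → ℝ≥0) (f : E2 → ℝ≥0∞) (hS : MeasurableSet S)
    (hf : Measurable f) (hω : ContinuousOn ω S)
    (hloc : ∀ x ∈ S, ∀ ε > 0, ∃ δ > 0, ∀ y ∈ S, ∀ z ∈ S, dist y x < δ → dist z x < δ →
      |φ y - φ z| ≤ ((ω x : ℝ) + ε) * dist y z) (ε : ℝ≥0) (hε : 0 < ε) :
    ∃ G : ℝ → ℝ≥0∞, Measurable G ∧ (∀ c, ∑' x : (S ∩ φ ⁻¹' {c} : Set E2), f x ≤ G c) ∧
      ∫⁻ c, G c ≤ ∫⁻ x in S, f x * (ω x + 2 * ε) ∂(μH[1]) := by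
  classical
  have hε' : (0 : ℝ) < ε := hε
  -- a ball around each point
  have hex : ∀ x : E2, ∃ δ : ℝ, 0 < δ ∧ (x ∈ S → ∀ y ∈ S, dist y x < δ →
      ω x ≤ ω y + ε ∧ ∀ z ∈ S, dist z x < δ → |φ y - φ z| ≤ ((ω x : ℝ) + ε) * dist y z) := by
    intro x
    by_cases hx : x ∈ S
    · obtain ⟨δ₁, hδ₁, h1⟩ := hloc x hx ε hε'
      obtain ⟨δ₂, hδ₂, h2⟩ := Metric.continuousOn_iff.mp hω x hx ε hε'
      refine ⟨min δ₁ δ₂, lt_min hδ₁ hδ₂, fun _ y hy hyx => ⟨?_, fun z hz hzx =>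
        h1 y hy z hz (hyx.trans_le (min_le_left _ _)) (hzx.trans_le (min_le_left _ _))⟩⟩
      have h3 := h2 y hy (hyx.trans_le (min_le_right _ _))
      rw [NNReal.dist_eq] at h3
      have h4 := (abs_lt.mp h3).1
      have h5 : (ω x : ℝ) ≤ (ω y : ℝ) + ε := by linarith
      exact_mod_cast h5
    · exact ⟨1, one_pos, fun h => absurd h hx⟩
  choose δ hδ hδ' using hex
  obtain ⟨t, htS, htc, htU⟩ := TopologicalSpace.countable_cover_nhdsWithin
    (s := S) (f := fun x => ball x (δ x)) (fun x _ => mem_nhdsWithin_of_mem_nhds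
      (ball_mem_nhds x (hδ x)))
  rcases S.eq_empty_or_nonempty with rfl | hne
  · refine ⟨fun _ => 0, measurable_const, fun c => ?_, ?_⟩
    · have : IsEmpty ((∅ ∩ φ ⁻¹' {c} : Set E2)) := by simp
      simp
    · simp
  have htne : t.Nonempty := by
    obtain ⟨x, hx⟩ := hne
    obtain ⟨y, hy, -⟩ := mem_iUnion₂.mp (htU hx)
    exact ⟨y, hy⟩
  obtain ⟨e, he⟩ := htc.exists_eq_range htne
  set B : ℕ → Set E2 := disjointed fun l => ball (e l) (δ (e l)) with hB
  have heS : ∀ l, e l ∈ S := fun l => htS (by rw [he]; exact ⟨l, rfl⟩)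
  have hBm : ∀ l, MeasurableSet (B l) := fun l =>
    MeasurableSet.disjointed (fun l => isOpen_ball.measurableSet) l
  have hBsub : ∀ l, B l ⊆ ball (e l) (δ (e l)) := fun l => disjointed_subset _ l
  have hBd : Pairwise (Function.onFun Disjoint B) := disjoint_disjointed _
  have hBU : S ⊆ ⋃ l, B l := by
    rw [hB, iUnion_disjointed]
    intro x hx
    obtain ⟨y, hy, hxy⟩ := mem_iUnion₂.mp (htU hx)
    rw [he] at hy
    obtain ⟨l, rfl⟩ := hy
    exact mem_iUnion.mpr ⟨l, hxy⟩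
  have hEU : ⋃ l, (S ∩ B l) = S := by
    rw [← inter_iUnion]
    exact inter_eq_left.mpr hBU
  have hmain := partition (S := S) (fun l => S ∩ B l) (fun l => hS.inter (hBm l))
    (by rw [hEU]) (fun i j hij => (hBd hij).mono inter_subset_right inter_subset_right) φ f
    (fun x => (ω x : ℝ≥0∞) + 2 * ε) ?_
  · obtain ⟨G, h1, h2, h3⟩ := hmain
    refine ⟨G, h1, h2, ?_⟩
    rw [hEU] at h3
    exact h3
  · intro l
    have hlip : LipschitzOnWith (ω (e l) + ε) φ (S ∩ B l) := by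
      refine LipschitzOnWith.of_dist_le_mul fun y hy z hz => ?_
      rw [Real.dist_eq]
      have h1 := (hδ' (e l) (heS l) y hy.1 (hBsub l hy.2)).2 z hz.1 (hBsub l hz.2)
      exact_mod_cast h1
    obtain ⟨G, h1, h2, h3⟩ := weighted (S ∩ B l) φ (ω (e l) + ε) (hS.inter (hBm l)) hlip f hf
    refine ⟨G, h1, h2, h3.trans ?_⟩
    rw [← lintegral_const_mul _ hf]
    refine setLIntegral_mono' (hS.inter (hBm l)) fun y hy => ?_
    have h4 := (hδ' (e l) (heS l) y hy.1 (hBsub l hy.2)).1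
    rw [mul_comm]
    gcongr
    have h5 : ω (e l) + ε ≤ ω y + 2 * ε := by
      calc ω (e l) + ε ≤ (ω y + ε) + ε := by gcongr
        _ = ω y + 2 * ε := by ring
    exact_mod_cast h5

end EilWAux

open EilWAux in
theorem prf_EilW : S_EilW := by
  intro S φ ω f M hS hfin hf hfM _ _ hω hloc
  set B : ℝ≥0∞ := M * μH[1] S with hB
  have hBfin : B ≠ ⊤ := ENNReal.mul_ne_top ENNReal.coe_ne_top hfin.ne
  -- parameters
  have hstep : ∀ n : ℕ, ∃ G : ℝ → ℝ≥0∞, Measurable G ∧
      (∀ c, ∑' x : (S ∩ φ ⁻¹' {c} : Set E2), f x ≤ G c) ∧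
      ∫⁻ c, G c ≤ ∫⁻ x in S, f x * ω x ∂(μH[1]) + 2 * B * ((n : ℝ≥0∞) + 1)⁻¹ := by
    intro n
    have hε : (0 : ℝ≥0) < ((n : ℝ≥0) + 1)⁻¹ := by positivity
    obtain ⟨G, h1, h2, h3⟩ := approx S φ ω f hS hf hω hloc _ hε
    refine ⟨G, h1, h2, h3.trans ?_⟩
    have hcoe : (((((n : ℝ≥0) + 1)⁻¹ : ℝ≥0)) : ℝ≥0∞) = ((n : ℝ≥0∞) + 1)⁻¹ := by
      rw [ENNReal.coe_inv (by positivity)]
      simp
    have h4 : ∀ x, f x * ((ω x : ℝ≥0∞) + 2 * ((((n : ℝ≥0) + 1)⁻¹ : ℝ≥0) : ℝ≥0∞)) =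
        f x * ω x + 2 * ((n : ℝ≥0∞) + 1)⁻¹ * f x := by
      intro x
      rw [hcoe]; ring
    simp_rw [h4]
    rw [lintegral_add_right _ (hf.const_mul _), lintegral_const_mul _ hf]
    refine add_le_add le_rfl ?_
    have h5 : ∫⁻ x in S, f x ∂(μH[1]) ≤ B := by
      calc ∫⁻ x in S, f x ∂(μH[1]) ≤ ∫⁻ _x in S, (M : ℝ≥0∞) ∂(μH[1]) :=
            setLIntegral_mono' hS hfM
        _ = B := by rw [setLIntegral_const]
    calc 2 * ((n : ℝ≥0∞) + 1)⁻¹ * ∫⁻ x in S, f x ∂(μH[1]) ≤ 2 * ((n : ℝ≥0∞) + 1)⁻¹ * B := by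
          gcongr
      _ = 2 * B * ((n : ℝ≥0∞) + 1)⁻¹ := by ring
  choose G hG hGc hGi using hstep
  refine ⟨fun c => ⨅ n, G n c, Measurable.iInf hG, fun c => le_iInf fun n => hGc n c, ?_⟩
  have hlim : Tendsto (fun n : ℕ => ∫⁻ x in S, f x * ω x ∂(μH[1]) +
      2 * B * ((n : ℝ≥0∞) + 1)⁻¹) atTop (𝓝 (∫⁻ x in S, f x * ω x ∂(μH[1]) + 2 * B * 0)) := by
    refine Tendsto.const_add _ (ENNReal.Tendsto.const_mul ?_ (Or.inr ?_))
    · have h1 : Tendsto (fun n : ℕ => ((n : ℝ≥0∞))⁻¹) atTop (𝓝 0) :=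
        ENNReal.tendsto_inv_nat_nhds_zero
      have h2 := (tendsto_add_atTop_iff_nat 1).mpr h1
      simpa using h2
    · exact ENNReal.mul_ne_top (by norm_num) hBfin
  rw [mul_zero, add_zero] at hlim
  refine ge_of_tendsto' hlim fun n => ?_
  refine le_trans (lintegral_mono fun c => iInf_le (fun n => G n c) n) (hGi n)

end Pool.Agent.Robin

end

section

/-!
MP_4b551e_an, item F1: Riccati solutions and continuous dependence.
-/

open MeasureTheory Set Metric Filter Topology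
open scoped ENNReal NNReal

namespace Pool.Agent.Robin

theorem F1_mono {f : ℝ → ℝ} {f' : ℝ → ℝ} {r R : ℝ}
    (hf : ∀ x ∈ Icc r R, HasDerivWithinAt f (f' x) (Icc r R) x) :
    ∀ x ∈ Ico r R, HasDerivWithinAt f (f' x) (Ici x) x := fun x hx =>
  (hf x ⟨hx.1, hx.2.le⟩).mono_of_mem_nhdsWithin (Icc_mem_nhdsGE_of_mem hx)

theorem F1_exist {r R κ : ℝ} (hr : 0 < r) (hrR : r < R) (hκ : 1 ≤ κ) :
    ∃ χ : ℝ → ℝ, χ r = -1 ∧ (∀ ξ ∈ Icc r R, -1 ≤ χ ξ ∧ χ ξ ≤ κ) ∧
      ∀ ξ ∈ Icc r R, HasDerivWithinAt χ (κ ^ 2 - χ ξ ^ 2 - χ ξ / ξ) (Icc r R) ξ := by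
  set c : ℝ → ℝ := fun y => max (min y κ) (-1) with hc
  have hc1 : ∀ y, -1 ≤ c y ∧ c y ≤ κ := fun y =>
    ⟨le_max_right _ _, max_le (min_le_right _ _) (by linarith)⟩
  have hc2 : ∀ y, |c y| ≤ κ := fun y => abs_le.2 ⟨by linarith [(hc1 y).1], (hc1 y).2⟩
  have hcL : ∀ y y', |c y - c y'| ≤ |y - y'| := by
    intro y y'
    refine (abs_max_sub_max_le_abs _ _ _).trans ?_
    have := abs_min_sub_min_le_max y κ y' κ
    simpa using this
  set v : ℝ → ℝ → ℝ := fun ξ y => κ ^ 2 - c y ^ 2 - c y / ξ with hv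
  have hκ0 : 0 < κ := by linarith
  have hlip : ∀ ξ ∈ Icc r R, ∀ y y', |v ξ y - v ξ y'| ≤ (2 * κ + 1 / r) * |y - y'| := by
    intro ξ hξ y y'
    have hξ0 : 0 < ξ := lt_of_lt_of_le hr hξ.1
    have e : v ξ y - v ξ y' = -((c y - c y') * (c y + c y' + 1 / ξ)) := by
      simp only [hv]
      field_simp
      ring
    rw [e, abs_neg, abs_mul, mul_comm]
    have h1 : |c y + c y' + 1 / ξ| ≤ 2 * κ + 1 / r := by
      have h2 : |c y + c y' + 1 / ξ| ≤ |c y + c y'| + |1 / ξ| := abs_add_le _ _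
      have h3 : |c y + c y'| ≤ |c y| + |c y'| := abs_add_le _ _
      have h4 : |1 / ξ| ≤ 1 / r := by
        rw [abs_of_pos (by positivity)]
        exact one_div_le_one_div_of_le hr hξ.1
      linarith [hc2 y, hc2 y']
    exact mul_le_mul h1 (hcL y y') (abs_nonneg _) (by positivity)
  have hbd : ∀ ξ ∈ Icc r R, ∀ y, |v ξ y| ≤ 2 * κ ^ 2 + κ / r := by
    intro ξ hξ y
    have hξ0 : 0 < ξ := lt_of_lt_of_le hr hξ.1
    have h1 : |v ξ y| ≤ |κ ^ 2 - c y ^ 2| + |c y / ξ| := abs_sub _ _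
    have h2 : |κ ^ 2 - c y ^ 2| ≤ |κ ^ 2| + |c y ^ 2| := abs_sub _ _
    have h3 : |c y ^ 2| ≤ κ ^ 2 := by
      rw [abs_pow]
      exact pow_le_pow_left₀ (abs_nonneg _) (hc2 y) 2
    have h4 : |c y / ξ| ≤ κ / r := by
      rw [abs_div, abs_of_pos hξ0]
      exact div_le_div₀ hκ0.le (hc2 y) hr hξ.1
    have h5 : |κ ^ 2| = κ ^ 2 := abs_of_nonneg (sq_nonneg _)
    linarith
  have hPL : IsPicardLindelof v (⟨r, left_mem_Icc.2 hrR.le⟩ : Icc r R) (-1)
      (Real.toNNReal ((2 * κ ^ 2 + κ / r) * (R - r))) 0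
      (Real.toNNReal (2 * κ ^ 2 + κ / r)) (Real.toNNReal (2 * κ + 1 / r)) := by
    refine ⟨?_, ?_, ?_, ?_⟩
    · intro ξ hξ
      refine LipschitzOnWith.of_dist_le_mul fun y _ y' _ => ?_
      rw [Real.dist_eq, Real.dist_eq, Real.coe_toNNReal _ (by positivity)]
      exact hlip ξ hξ y y'
    · intro y _
      refine continuousOn_const.sub (continuousOn_const.div continuousOn_id ?_)
      intro ξ hξ
      exact (lt_of_lt_of_le hr hξ.1).ne'
    · intro ξ hξ y _
      rw [Real.norm_eq_abs, Real.coe_toNNReal _ (by positivity)]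
      exact hbd ξ hξ y
    · rw [Real.coe_toNNReal _ (by positivity), Real.coe_toNNReal _ (by
        have : 0 ≤ R - r := by linarith
        positivity)]
      simp only [sub_self, NNReal.coe_zero, sub_zero]
      rw [max_eq_left (by linarith)]
  obtain ⟨χ, hχ0, hχ⟩ := hPL.exists_eq_forall_mem_Icc_hasDerivWithinAt₀
  simp only at hχ0
  have hcont : ContinuousOn χ (Icc r R) := fun x hx => (hχ x hx).continuousWithinAt
  have hR := F1_mono hχ
  have hlow : ∀ ξ ∈ Icc r R, -1 ≤ χ ξ := by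
    have h1 : ∀ ⦃x⦄, x ∈ Icc r R → -χ x ≤ 1 := by
      refine image_le_of_deriv_right_lt_deriv_boundary' (f' := fun x => -v x (χ x))
        (B := fun _ => 1) (B' := fun _ => 0) hcont.neg (fun x hx => (hR x hx).neg) ?_
        continuousOn_const (fun x _ => hasDerivWithinAt_const _ _ _) ?_
      · change -χ r ≤ 1
        rw [hχ0]; norm_num
      · intro x hx hx1
        have hx0 : 0 < x := lt_of_lt_of_le hr hx.1
        have hx2 : -χ x = 1 := hx1
        have h2 : χ x = -1 := by linarith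
        have h3 : c (χ x) = -1 := by
          simp only [hc, h2]
          rw [min_eq_left (by linarith), max_self]
        simp only [hv, h3]
        have h4 : 0 < 1 / x := by positivity
        have h5 : (1 : ℝ) ≤ κ ^ 2 := one_le_pow₀ hκ
        have h6 : (-1 : ℝ) / x = -(1 / x) := by ring
        rw [h6]
        nlinarith
    intro ξ hξ
    linarith [h1 hξ]
  have hup : ∀ ξ ∈ Icc r R, χ ξ ≤ κ := by
    refine image_le_of_deriv_right_lt_deriv_boundary' (f' := fun x => v x (χ x))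
        (B := fun _ => κ) (B' := fun _ => 0) hcont hR ?_
        continuousOn_const (fun x _ => hasDerivWithinAt_const _ _ _) ?_
    · rw [hχ0]; linarith
    · intro x hx hx1
      have hx0 : 0 < x := lt_of_lt_of_le hr hx.1
      have h3 : c (χ x) = κ := by
        simp only [hc, hx1]
        rw [min_self, max_eq_left (by linarith)]
      simp only [hv, h3]
      have h4 : 0 < κ / x := by positivity
      linarith
  refine ⟨χ, hχ0, fun ξ hξ => ⟨hlow ξ hξ, hup ξ hξ⟩, fun ξ hξ => ?_⟩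
  have h1 := hχ ξ hξ
  have h3 : c (χ ξ) = χ ξ := by
    simp only [hc]
    rw [min_eq_left (hup ξ hξ), max_eq_left (hlow ξ hξ)]
  simp only [hv, h3] at h1
  exact h1

theorem prf_F1 : S_F1 := by
  intro r R hr hrR
  have hex : ∀ κ : ℝ, ∃ χ : ℝ → ℝ, 1 ≤ κ → χ r = -1 ∧
      (∀ ξ ∈ Icc r R, -1 ≤ χ ξ ∧ χ ξ ≤ κ) ∧
      ∀ ξ ∈ Icc r R, HasDerivWithinAt χ (κ ^ 2 - χ ξ ^ 2 - χ ξ / ξ) (Icc r R) ξ := by
    intro κ
    by_cases hκ : 1 ≤ κ
    · obtain ⟨χ, h⟩ := F1_exist hr hrR hκ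
      exact ⟨χ, fun _ => h⟩
    · exact ⟨fun _ => 0, fun h => absurd h hκ⟩
  choose χ hχ using hex
  refine ⟨χ, hχ, ?_⟩
  intro κ₀ hκ₀
  have hκ₀' : (1 : ℝ) ≤ κ₀ := hκ₀
  obtain ⟨h01, h02, h03⟩ := hχ κ₀ hκ₀'
  set K : ℝ := 2 * (κ₀ + 1) + 1 / r with hK
  have hK0 : 0 < K := by rw [hK]; positivity
  have hbound : ∀ κ, 1 ≤ κ → κ ≤ κ₀ + 1 →
      dist (χ κ R) (χ κ₀ R) ≤ |κ ^ 2 - κ₀ ^ 2| / K * (Real.exp (K * (R - r)) - 1) := by
    intro κ hκ1 hκ2
    obtain ⟨h11, h12, h13⟩ := hχ κ hκ1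
    set v : ℝ → ℝ → ℝ := fun ξ y => κ₀ ^ 2 - y ^ 2 - y / ξ with hv
    have hlip : ∀ t ∈ Ico r R, LipschitzOnWith (Real.toNNReal K) (v t) (Icc (-1) (κ₀ + 1)) := by
      intro t ht
      have ht0 : 0 < t := lt_of_lt_of_le hr ht.1
      refine LipschitzOnWith.of_dist_le_mul fun y hy y' hy' => ?_
      rw [Real.dist_eq, Real.dist_eq, Real.coe_toNNReal _ hK0.le]
      have e : v t y - v t y' = -((y + y' + 1 / t) * (y - y')) := by
        simp only [hv]
        field_simp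
        ring
      rw [e, abs_neg, abs_mul]
      refine mul_le_mul_of_nonneg_right ?_ (abs_nonneg _)
      have h4 : 1 / t ≤ 1 / r := one_div_le_one_div_of_le hr ht.1
      have h5 : 0 < 1 / t := by positivity
      rw [abs_le, hK]
      constructor
      · linarith [hy.1, hy'.1, hy.2, hy'.2]
      · linarith [hy.1, hy'.1, hy.2, hy'.2]
    have h := dist_le_of_approx_trajectories_ODE_of_mem (f := χ κ) (g := χ κ₀)
      (f' := fun ξ => κ ^ 2 - χ κ ξ ^ 2 - χ κ ξ / ξ) (g' := fun ξ => v ξ (χ κ₀ ξ))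
      (εf := |κ ^ 2 - κ₀ ^ 2|) (εg := 0) (δ := 0) hlip
      (fun x hx => (h13 x hx).continuousWithinAt) (F1_mono h13) ?_ ?_
      (fun x hx => (h03 x hx).continuousWithinAt) (F1_mono h03) ?_ ?_ ?_ R
      (right_mem_Icc.2 hrR.le)
    · rw [add_zero, Real.coe_toNNReal _ hK0.le, gronwallBound_of_K_ne_0 hK0.ne'] at h
      simpa using h
    · intro t _
      rw [Real.dist_eq]
      simp only [hv]
      have : κ ^ 2 - χ κ t ^ 2 - χ κ t / t - (κ₀ ^ 2 - χ κ t ^ 2 - χ κ t / t) =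
        κ ^ 2 - κ₀ ^ 2 := by ring
      rw [this]
    · intro t ht
      have := h12 t ⟨ht.1, ht.2.le⟩
      exact ⟨this.1, this.2.trans hκ2⟩
    · intro t _
      rw [dist_self]
    · intro t ht
      have := h02 t ⟨ht.1, ht.2.le⟩
      exact ⟨this.1, by linarith [this.2]⟩
    · rw [h11, h01, dist_self]
  -- continuity
  rw [ContinuousWithinAt, tendsto_iff_dist_tendsto_zero]
  have hlim : Tendsto (fun κ : ℝ => |κ ^ 2 - κ₀ ^ 2| / K * (Real.exp (K * (R - r)) - 1))
      (𝓝[Ici 1] κ₀) (𝓝 0) := by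
    have hcc : Continuous (fun κ : ℝ =>
        |κ ^ 2 - κ₀ ^ 2| / K * (Real.exp (K * (R - r)) - 1)) := by fun_prop
    have := (hcc.tendsto κ₀).mono_left (nhdsWithin_le_nhds (s := Ici (1 : ℝ)))
    simpa using this
  refine squeeze_zero' (Eventually.of_forall fun _ => dist_nonneg) ?_ hlim
  have h1 : ∀ᶠ κ in 𝓝[Ici 1] κ₀, κ ∈ Ici (1 : ℝ) := eventually_mem_nhdsWithin
  have h2 : ∀ᶠ κ in 𝓝[Ici 1] κ₀, κ < κ₀ + 1 :=
    nhdsWithin_le_nhds (Iio_mem_nhds (by linarith))
  filter_upwards [h1, h2] with κ hκ1 hκ2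
  exact hbound κ hκ1 hκ2.le

end Pool.Agent.Robin

end

section

/-!
# MP_4b551e_an, item F3: the first Robin eigenvalue of the annulus
-/

open MeasureTheory Set Metric
open scoped ENNReal NNReal RealInnerProductSpace

namespace Pool.Agent.Robin

namespace F3

/-- The plane as a product. -/
noncomputable def toP : E2 ≃ᵐ ℝ × ℝ :=
  (MeasurableEquiv.toLp 2 (Fin 2 → ℝ)).symm.trans MeasurableEquiv.finTwoArrow

lemma mp_toP : MeasurePreserving toP :=
  (EuclideanSpace.volume_preserving_symm_measurableEquiv_toLp (Fin 2)).trans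
    (volume_preserving_finTwoArrow ℝ)

lemma toP_symm_apply (p : ℝ × ℝ) : toP.symm p = (!₂[p.1, p.2] : E2) := by
  apply toP.injective
  rw [MeasurableEquiv.apply_symm_apply]
  rfl

lemma toP_symm_polar (p : ℝ × ℝ) : toP.symm (polarCoord.symm p) = p.1 • dirv p.2 := by
  rw [toP_symm_apply, polarCoord_symm_apply]
  ext i
  fin_cases i <;> simp [dirv]

lemma norm_dirv (θ : ℝ) : ‖dirv θ‖ = 1 := by
  rw [EuclideanSpace.norm_eq]
  simp [dirv, Fin.sum_univ_two]

lemma polar_integral (f : E2 → ℝ) :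
    ∫ x, f x = ∫ p in Ioi (0:ℝ) ×ˢ Ioo (-Real.pi) Real.pi, p.1 * f (p.1 • dirv p.2) := by
  have h1 := (mp_toP.symm).integral_comp' (g := f)
  rw [← h1, ← integral_comp_polarCoord_symm]
  simp only [toP_symm_polar]
  rfl

lemma polar_lintegral (f : E2 → ℝ≥0∞) :
    ∫⁻ x, f x = ∫⁻ p in Ioi (0:ℝ) ×ˢ Ioo (-Real.pi) Real.pi,
      ENNReal.ofReal p.1 * f (p.1 • dirv p.2) := by
  have h1 := (mp_toP.symm).lintegral_comp_emb toP.symm.measurableEmbedding f
  rw [← h1, ← lintegral_comp_polarCoord_symm]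
  simp only [toP_symm_polar]
  rfl

lemma continuous_dirv : Continuous dirv := by
  unfold dirv
  fun_prop

lemma norm_smul_dirv (ρ θ : ℝ) : ‖ρ • dirv θ‖ = |ρ| := by
  rw [norm_smul, norm_dirv, mul_one, Real.norm_eq_abs]

lemma polar_annulus {r R : ℝ} (hr : 0 < r) (f : E2 → ℝ) :
    ∫ x in annulus r R, f x =
      ∫ p in Ioo r R ×ˢ Ioo (-Real.pi) Real.pi, p.1 * f (p.1 • dirv p.2) := by
  have hm : MeasurableSet (annulus r R) := by
    unfold annulus
    exact (measurableSet_lt measurable_const measurable_norm).inter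
      (measurableSet_lt measurable_norm measurable_const)
  rw [← integral_indicator hm, polar_integral]
  have hs : Ioo r R ×ˢ Ioo (-Real.pi) Real.pi ⊆ Ioi (0:ℝ) ×ˢ Ioo (-Real.pi) Real.pi :=
    prod_mono (fun x hx => hr.trans hx.1) (subset_refl _)
  have hm2 : MeasurableSet (Ioo r R ×ˢ Ioo (-Real.pi) Real.pi) := measurableSet_Ioo.prod measurableSet_Ioo
  rw [← integral_indicator hm2, ← integral_indicator (measurableSet_Ioi.prod measurableSet_Ioo)]
  congr 1
  ext p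
  by_cases hp : p ∈ Ioo r R ×ˢ Ioo (-Real.pi) Real.pi
  · rw [indicator_of_mem hp, indicator_of_mem (hs hp), indicator_of_mem]
    show r < ‖_‖ ∧ ‖_‖ < R
    rw [norm_smul_dirv, abs_of_pos (hs hp).1]
    exact ⟨hp.1.1, hp.1.2⟩
  · rw [indicator_of_notMem hp]
    by_cases hp2 : p ∈ Ioi (0:ℝ) ×ˢ Ioo (-Real.pi) Real.pi
    · rw [indicator_of_mem hp2, indicator_of_notMem, mul_zero]
      intro h
      apply hp
      have h' : r < ‖p.1 • dirv p.2‖ ∧ ‖p.1 • dirv p.2‖ < R := h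
      rw [norm_smul_dirv, abs_of_pos hp2.1] at h'
      exact ⟨h', hp2.2⟩
    · rw [indicator_of_notMem hp2]

lemma lip_circ {ρ : ℝ} (hρ : 0 < ρ) : LipschitzWith ρ.toNNReal (fun θ => ρ • dirv θ) := by
  apply LipschitzWith.of_dist_le_mul
  intro a b
  rw [Real.coe_toNNReal _ hρ.le, dist_eq_norm, ← smul_sub, norm_smul, Real.norm_eq_abs,
    abs_of_pos hρ]
  refine mul_le_mul_of_nonneg_left ?_ hρ.le
  rw [EuclideanSpace.norm_eq, Real.dist_eq, ← Real.sqrt_sq_eq_abs]
  apply Real.sqrt_le_sqrt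
  simp only [Fin.sum_univ_two, dirv, PiLp.sub_apply, Real.norm_eq_abs, sq_abs]
  simp only [Matrix.cons_val_zero, Matrix.cons_val_one]
  have h1 := Real.one_sub_sq_div_two_le_cos (x := a - b)
  rw [Real.cos_sub] at h1
  nlinarith [Real.sin_sq_add_cos_sq a, Real.sin_sq_add_cos_sq b]

lemma exists_angle {ρ : ℝ} {x : E2} (hx : ‖x‖ = ρ) :
    ∃ θ ∈ Ioc (-Real.pi) Real.pi, ρ • dirv θ = x := by
  refine ⟨Complex.arg ⟨x 0, x 1⟩, Complex.arg_mem_Ioc _, ?_⟩
  have hn : ‖(⟨x 0, x 1⟩ : ℂ)‖ = ρ := by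
    rw [← hx, EuclideanSpace.norm_eq, Fin.sum_univ_two, Complex.norm_def, Complex.normSq_mk]
    simp only [Real.norm_eq_abs, sq_abs]
    congr 1
    ring
  ext i
  have h1 := Complex.norm_mul_cos_arg (⟨x 0, x 1⟩ : ℂ)
  have h2 := Complex.norm_mul_sin_arg (⟨x 0, x 1⟩ : ℂ)
  rw [hn] at h1 h2
  fin_cases i
  · simpa [dirv] using h1
  · simpa [dirv] using h2

lemma circ_inj {ρ : ℝ} (hρ : 0 < ρ) : InjOn (fun θ => ρ • dirv θ) (Ico (-Real.pi) Real.pi) := by
  intro a ha b hb hab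
  have h1 : dirv a = dirv b := smul_right_injective _ hρ.ne' hab
  have hc : Real.cos a = Real.cos b := by
    have := congrArg (fun v : E2 => v 0) h1
    simpa [dirv] using this
  have hs : Real.sin a = Real.sin b := by
    have := congrArg (fun v : E2 => v 1) h1
    simpa [dirv] using this
  have h2 : Real.cos (a - b) = 1 := by
    rw [Real.cos_sub, hc, hs]
    nlinarith [Real.sin_sq_add_cos_sq b]
  rw [Real.cos_eq_one_iff_of_lt_of_lt] at h2
  · linarith
  · linarith [ha.1, hb.2]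
  · linarith [ha.2, hb.1]

/-- Upper bound for the measure on the circle. -/
lemma circ_measure_le {ρ : ℝ} (hρ : 0 < ρ) :
    (μH[1] : Measure E2).restrict (sphere 0 ρ) ≤
      ENNReal.ofReal ρ • ((volume.restrict (Ioc (-Real.pi) Real.pi)).map
        (fun θ => ρ • dirv θ)) := by
  have hc : Continuous (fun θ => ρ • dirv θ) := (lip_circ hρ).continuous
  rw [Measure.le_iff]
  intro A hA
  rw [Measure.restrict_apply hA, Measure.smul_apply, Measure.map_apply hc.measurable hA,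
    Measure.restrict_apply (hc.measurable hA)]
  have h1 : A ∩ sphere 0 ρ ⊆ (fun θ => ρ • dirv θ) ''
      ((fun θ => ρ • dirv θ) ⁻¹' A ∩ Ioc (-Real.pi) Real.pi) := by
    rintro x ⟨hxA, hxs⟩
    obtain ⟨θ, hθ, h⟩ := exists_angle (x := x) (ρ := ρ) (by simpa using hxs)
    exact ⟨θ, ⟨by simpa [h] using hxA, hθ⟩, h⟩
  refine (measure_mono h1).trans ?_
  have h2 := (lip_circ hρ).hausdorffMeasure_image_le (d := 1) zero_le_one
    ((fun θ => ρ • dirv θ) ⁻¹' A ∩ Ioc (-Real.pi) Real.pi)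
  rw [hausdorffMeasure_real, ENNReal.rpow_one] at h2
  exact h2

lemma arc_le {ρ a b : ℝ} (hab : a ≤ b) :
    ENNReal.ofReal (2 * ρ * Real.sin ((b - a) / 2)) ≤
      (μH[1] : Measure E2) ((fun θ => ρ • dirv θ) '' Ico a b) := by
  set m : ℝ := (a + b) / 2 with hm
  set v : E2 := !₂[-Real.sin m, Real.cos m] with hv
  have hvn : ‖v‖ = 1 := by
    rw [EuclideanSpace.norm_eq, hv]
    simp [Fin.sum_univ_two]
  have hlip : LipschitzWith 1 (fun x : E2 => ⟪v, x⟫) := by
    apply LipschitzWith.of_dist_le_mul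
    intro x y
    rw [NNReal.coe_one, one_mul, Real.dist_eq, ← inner_sub_right, dist_eq_norm]
    calc |⟪v, x - y⟫| ≤ ‖v‖ * ‖x - y‖ := abs_real_inner_le_norm _ _
      _ = ‖x - y‖ := by rw [hvn, one_mul]
  have h2 := hlip.hausdorffMeasure_image_le (d := 1) zero_le_one
    ((fun θ => ρ • dirv θ) '' Ico a b)
  rw [hausdorffMeasure_real, ENNReal.rpow_one, ENNReal.coe_one, one_mul] at h2
  refine le_trans ?_ h2
  rw [image_image]
  have hval : ∀ θ, ⟪v, ρ • dirv θ⟫ = ρ * Real.sin (θ - m) := by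
    intro θ
    rw [real_inner_smul_right, Real.sin_sub]
    congr 1
    rw [PiLp.inner_apply, Fin.sum_univ_two]
    simp [hv, dirv]
    ring
  simp only [hval]
  have hcont : ContinuousOn (fun θ => ρ * Real.sin (θ - m)) (Icc a b) := by fun_prop
  have h3 := intermediate_value_Ico hab hcont
  refine le_trans ?_ (measure_mono h3)
  rw [Real.volume_Ico]
  apply ENNReal.ofReal_le_ofReal
  have e1 : b - m = (b - a) / 2 := by rw [hm]; ring
  have e2 : a - m = -((b - a) / 2) := by rw [hm]; ring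
  rw [e1, e2, Real.sin_neg]
  linarith

/-- Lower bound for the total mass of the circle. -/
lemma circ_mass {ρ : ℝ} (hρ : 0 < ρ) :
    ENNReal.ofReal (2 * Real.pi * ρ) ≤ (μH[1] : Measure E2) (sphere 0 ρ) := by
  have key : ∀ n : ℕ, 1 ≤ n → ENNReal.ofReal (2 * ρ * (n * Real.sin (Real.pi / n))) ≤
      (μH[1] : Measure E2) (sphere 0 ρ) := by
    intro n hn
    have hn0 : (0:ℝ) < n := by exact_mod_cast hn
    set h : ℝ := 2 * Real.pi / n with hh
    have hpi := Real.pi_pos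
    have hh0 : 0 < h := by positivity
    rcases Nat.lt_or_ge n 2 with h2 | h2
    · have : n = 1 := by omega
      subst this
      simp
    have h2' : (2:ℝ) ≤ n := by exact_mod_cast h2
    have hhpi : h ≤ Real.pi := by
      rw [hh, div_le_iff₀ hn0]
      nlinarith
    set A : ℕ → Set ℝ := fun j => Ico (-Real.pi + j * h) (-Real.pi + (j + 1) * h) with hA
    have hAsub : ∀ j ∈ Finset.range n, A j ⊆ Ico (-Real.pi) Real.pi := by
      intro j hj x hx
      have hj' : ((j:ℝ) + 1) ≤ n := by exact_mod_cast Finset.mem_range.1 hj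
      have h3 : ((j:ℝ) + 1) * h ≤ n * h := mul_le_mul_of_nonneg_right hj' hh0.le
      have h4 : (n:ℝ) * h = 2 * Real.pi := by rw [hh]; field_simp
      have h5 : (0:ℝ) ≤ j * h := by positivity
      constructor
      · linarith [hx.1]
      · linarith [hx.2]
    have hdisj : ∀ i j : ℕ, i < j → Disjoint (A i) (A j) := by
      intro i j hij
      rw [Set.disjoint_left]
      intro x hx hx'
      have h3 : ((i:ℝ) + 1) ≤ j := by exact_mod_cast hij
      have h4 : ((i:ℝ) + 1) * h ≤ j * h := mul_le_mul_of_nonneg_right h3 hh0.le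
      linarith [hx.2, hx'.1]
    have hc : Continuous (fun θ => ρ • dirv θ) := (lip_circ hρ).continuous
    have hsub : (⋃ j ∈ Finset.range n, (fun θ => ρ • dirv θ) '' A j) ⊆ sphere 0 ρ := by
      intro x hx
      simp only [mem_iUnion] at hx
      obtain ⟨j, hj, θ, hθ, rfl⟩ := hx
      simp [norm_smul_dirv, abs_of_pos hρ]
    refine le_trans ?_ (measure_mono hsub)
    rw [measure_biUnion_finset]
    · have h3 : ∀ j ∈ Finset.range n, ENNReal.ofReal (2 * ρ * Real.sin (Real.pi / n)) ≤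
          (μH[1] : Measure E2) ((fun θ => ρ • dirv θ) '' A j) := by
        intro j hj
        have h4 := arc_le (ρ := ρ) (a := -Real.pi + j * h) (b := -Real.pi + (j + 1) * h)
          (by nlinarith)
        have e : (-Real.pi + ((j:ℝ) + 1) * h - (-Real.pi + j * h)) / 2 = Real.pi / n := by
          rw [hh]; ring
        rw [e] at h4
        exact h4
      refine le_trans ?_ (Finset.sum_le_sum h3)
      rw [Finset.sum_const, Finset.card_range, nsmul_eq_mul, ← ENNReal.ofReal_natCast,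
        ← ENNReal.ofReal_mul (by positivity)]
      apply ENNReal.ofReal_le_ofReal
      apply le_of_eq
      ring
    · intro i hi j hj hij
      have hd : Disjoint (A i) (A j) := by
        rcases lt_or_gt_of_ne hij with h' | h'
        · exact hdisj i j h'
        · exact (hdisj j i h').symm
      exact hd.image (circ_inj hρ) (hAsub i (by simpa using hi)) (hAsub j (by simpa using hj))
    · intro j hj
      exact measurableSet_Ico.image_of_continuousOn_injOn hc.continuousOn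
        ((circ_inj hρ).mono (hAsub j hj))
  have hlim : Filter.Tendsto (fun n : ℕ => 2 * ρ * ((n:ℝ) * Real.sin (Real.pi / n)))
      Filter.atTop (nhds (2 * ρ * Real.pi)) := by
    apply Filter.Tendsto.const_mul
    have h1 : Filter.Tendsto (fun n : ℕ => Real.pi / (n:ℝ)) Filter.atTop (nhdsWithin 0 {0}ᶜ) := by
      rw [tendsto_nhdsWithin_iff]
      refine ⟨tendsto_const_div_atTop_nhds_zero_nat _, ?_⟩
      filter_upwards [Filter.eventually_ge_atTop 1] with n hn
      have : (0:ℝ) < n := by exact_mod_cast hn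
      have := Real.pi_pos
      simp only [mem_compl_iff, mem_singleton_iff]
      positivity
    have h2 : Filter.Tendsto (fun x : ℝ => Real.sin x / x) (nhdsWithin 0 {0}ᶜ) (nhds 1) := by
      have h3 := (Real.hasDerivAt_sin 0)
      rw [Real.cos_zero, hasDerivAt_iff_tendsto_slope] at h3
      refine h3.congr fun x => ?_
      simp [slope_def_field]
    have h4 := (h2.comp h1).mul_const Real.pi
    rw [one_mul] at h4
    refine h4.congr' ?_
    filter_upwards [Filter.eventually_ge_atTop 1] with n hn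
    have : (0:ℝ) < n := by exact_mod_cast hn
    have := Real.pi_pos
    simp only [Function.comp]
    field_simp
  have hlim' := ENNReal.tendsto_ofReal hlim
  have e : (2 * Real.pi * ρ) = 2 * ρ * Real.pi := by ring
  rw [e]
  refine le_of_tendsto hlim' ?_
  filter_upwards [Filter.eventually_ge_atTop 1] with n hn
  exact key n hn

lemma GS.bd {r R κ : ℝ} {χ : ℝ → ℝ} (h : GS r R κ χ) {ξ : ℝ} (hξ : ξ ∈ Icc r R) :
    -1 ≤ χ ξ ∧ χ ξ ≤ 1 := by
  have h1 := h.mono.monotoneOn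
  constructor
  · rw [← h.left]; exact h1 (left_mem_Icc.2 h.lt.le) hξ hξ.1
  · rw [← h.right]; exact h1 hξ (right_mem_Icc.2 h.lt.le) hξ.2

lemma GS.lip {r R κ : ℝ} {χ : ℝ → ℝ} (h : GS r R κ χ) :
    LipschitzOnWith (κ ^ 2 + 1 + 1 / r).toNNReal χ (Icc r R) := by
  refine Convex.lipschitzOnWith_of_nnnorm_hasDerivWithin_le (convex_Icc r R) h.deriv ?_
  intro ξ hξ
  have hr := h.r_pos
  rw [← NNReal.coe_le_coe, coe_nnnorm, Real.coe_toNNReal _ (by positivity), Real.norm_eq_abs]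
  obtain ⟨h1, h2⟩ := GS.bd h hξ
  have hξ0 : 0 < ξ := hr.trans_le hξ.1
  have h3 : |χ ξ| ≤ 1 := abs_le.2 ⟨h1, h2⟩
  have h4 : |χ ξ / ξ| ≤ 1 / r := by
    rw [abs_div, abs_of_pos hξ0]
    exact div_le_div₀ zero_le_one h3 hr hξ.1
  have h5 : |χ ξ ^ 2| ≤ 1 := by
    rw [abs_pow]
    exact pow_le_one₀ (abs_nonneg _) h3
  calc |κ ^ 2 - χ ξ ^ 2 - χ ξ / ξ| ≤ |κ ^ 2 - χ ξ ^ 2| + |χ ξ / ξ| := abs_sub _ _
    _ ≤ |κ ^ 2| + |χ ξ ^ 2| + |χ ξ / ξ| := by gcongr; exact abs_sub _ _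
    _ ≤ κ ^ 2 + 1 + 1 / r := by
        rw [abs_of_nonneg (sq_nonneg κ)]
        linarith

/-- The inequality along one ray. -/
lemma ray_le {r R κ : ℝ} {χ : ℝ → ℝ} (h : GS r R κ χ) {K : ℝ≥0} {y : ℝ → ℝ}
    (hy : LipschitzWith K y) {G : ℝ → ℝ} (hG : IntervalIntegrable G volume r R)
    (hle : ∀ᵐ ξ : ℝ, ξ ∈ Ioo r R → ∀ y', HasDerivAt y y' ξ → ξ * (y' ^ 2 + κ ^ 2 * y ξ ^ 2) ≤ G ξ) :
    R * y R ^ 2 + r * y r ^ 2 ≤ ∫ ξ in r..R, G ξ := by
  have hrR := h.lt
  have hyac : AbsolutelyContinuousOnInterval y r R :=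
    (hy.lipschitzOnWith (s := uIcc r R)).absolutelyContinuousOnInterval
  have hidac : AbsolutelyContinuousOnInterval (fun ξ : ℝ => ξ) r R :=
    ((LipschitzWith.id (α := ℝ)).lipschitzOnWith (s := uIcc r R)).absolutelyContinuousOnInterval
  have hχac : AbsolutelyContinuousOnInterval χ r R := by
    apply LipschitzOnWith.absolutelyContinuousOnInterval (K := (κ ^ 2 + 1 + 1 / r).toNNReal)
    rw [uIcc_of_le hrR.le]
    exact GS.lip h
  have hH : AbsolutelyContinuousOnInterval (fun ξ => (ξ * χ ξ) * (y ξ * y ξ)) r R :=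
    (hidac.fun_mul hχac).fun_mul (hyac.fun_mul hyac)
  have hFTC := hH.integral_deriv_eq_sub
  have hval : (R * χ R) * (y R * y R) - (r * χ r) * (y r * y r) =
      R * y R ^ 2 + r * y r ^ 2 := by
    rw [h.left, h.right]; ring
  rw [← hval, ← hFTC]
  refine intervalIntegral.integral_mono_ae_restrict hrR.le hH.intervalIntegrable_deriv hG ?_
  rw [Filter.EventuallyLE, ← restrict_Ioo_eq_restrict_Icc, ae_restrict_iff' measurableSet_Ioo]
  filter_upwards [hle, hy.ae_differentiableAt_of_real] with ξ h1 h2 hξ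
  have hd := h2.hasDerivAt
  have h3 := h1 hξ _ hd
  have hξ' : ξ ∈ Icc r R := ⟨hξ.1.le, hξ.2.le⟩
  have hχd : HasDerivAt χ (κ ^ 2 - χ ξ ^ 2 - χ ξ / ξ) ξ :=
    (h.deriv ξ hξ').hasDerivAt (Icc_mem_nhds hξ.1 hξ.2)
  have hξ0 : 0 < ξ := h.r_pos.trans hξ.1
  have hHd := ((hasDerivAt_id ξ).mul hχd).mul (hd.mul hd)
  have e : deriv (fun ξ => (ξ * χ ξ) * (y ξ * y ξ)) ξ = _ := hHd.deriv
  rw [e]
  refine le_trans ?_ h3
  have e2 : χ ξ / ξ * ξ = χ ξ := by field_simp
  simp only [Pi.mul_apply, id]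
  have e3 : ξ * (κ ^ 2 - χ ξ ^ 2 - χ ξ / ξ) = ξ * κ ^ 2 - ξ * χ ξ ^ 2 - χ ξ := by
    linear_combination (-1:ℝ) * e2
  rw [e3]
  nlinarith [mul_nonneg hξ0.le (sq_nonneg (deriv y ξ - χ ξ * y ξ))]

lemma meas_annulus (r R : ℝ) : MeasurableSet (annulus r R) := by
  unfold annulus
  exact (measurableSet_lt measurable_const measurable_norm).inter
    (measurableSet_lt measurable_norm measurable_const)

lemma frontier_annulus {r R : ℝ} (hr : 0 < r) (hrR : r < R) :
    frontier (annulus r R) = sphere 0 r ∪ sphere 0 R := by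
  have ho : IsOpen (annulus r R) := by
    unfold annulus
    exact (isOpen_lt continuous_const continuous_norm).inter
      (isOpen_lt continuous_norm continuous_const)
  have hc : closure (annulus r R) = {x | r ≤ ‖x‖ ∧ ‖x‖ ≤ R} := by
    apply Subset.antisymm
    · apply closure_minimal
      · rintro x ⟨h1, h2⟩
        exact ⟨h1.le, h2.le⟩
      · exact (isClosed_le continuous_const continuous_norm).inter
          (isClosed_le continuous_norm continuous_const)
    · rintro x ⟨h1, h2⟩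
      have hx : 0 < ‖x‖ := hr.trans_le h1
      have hcont : Continuous (fun t : ℝ => t • (‖x‖⁻¹ • x)) := by fun_prop
      have hmem : x ∈ (fun t : ℝ => t • (‖x‖⁻¹ • x)) '' closure (Ioo r R) := by
        rw [closure_Ioo hrR.ne]
        refine ⟨‖x‖, ⟨h1, h2⟩, ?_⟩
        show ‖x‖ • (‖x‖⁻¹ • x) = x
        rw [smul_smul, mul_inv_cancel₀ hx.ne', one_smul]
      have h3 := image_closure_subset_closure_image hcont hmem
      refine closure_mono ?_ h3
      rintro _ ⟨t, ht, rfl⟩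
      show r < ‖t • (‖x‖⁻¹ • x)‖ ∧ ‖t • (‖x‖⁻¹ • x)‖ < R
      rw [norm_smul, norm_smul, norm_inv, norm_norm, inv_mul_cancel₀ hx.ne', mul_one,
        Real.norm_eq_abs, abs_of_pos (hr.trans ht.1)]
      exact ht
  rw [ho.frontier_eq, hc]
  ext x
  simp only [mem_sdiff, mem_ofPred_eq, mem_union, mem_sphere_zero_iff_norm, annulus, not_and, not_lt]
  constructor
  · rintro ⟨⟨h1, h2⟩, h3⟩
    rcases h1.eq_or_lt with h | h
    · exact Or.inl h.symm
    · exact Or.inr (le_antisymm h2 (h3 h))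
  · rintro (h | h)
    · exact ⟨⟨h.ge, h.le.trans hrR.le⟩, fun h' => absurd h h'.ne'⟩
    · exact ⟨⟨hrR.le.trans h.ge, h.le⟩, fun _ => h.ge⟩

lemma circ_int {ρ : ℝ} (hρ : 0 < ρ) {f : E2 → ℝ} (hf : Continuous f) (hf0 : ∀ x, 0 ≤ f x) :
    IntegrableOn f (sphere 0 ρ) (μH[1]) ∧
    ∫ x in sphere 0 ρ, f x ∂(μH[1]) ≤ ρ * ∫ θ in Ioc (-Real.pi) Real.pi, f (ρ • dirv θ) := by
  have hc : Continuous (fun θ => ρ • dirv θ) := (lip_circ hρ).continuous
  have hfc : Continuous (fun θ => f (ρ • dirv θ)) := hf.comp hc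
  have h1 : Integrable (fun θ => f (ρ • dirv θ)) (volume.restrict (Ioc (-Real.pi) Real.pi)) :=
    hfc.integrableOn_Ioc
  have h2 : Integrable f ((volume.restrict (Ioc (-Real.pi) Real.pi)).map
        (fun θ => ρ • dirv θ)) := by
    rw [integrable_map_measure hf.aestronglyMeasurable hc.aemeasurable]
    exact h1
  have h3 : Integrable f (ENNReal.ofReal ρ • ((volume.restrict (Ioc (-Real.pi) Real.pi)).map
        (fun θ => ρ • dirv θ))) := h2.smul_measure ENNReal.ofReal_ne_top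
  have hle := circ_measure_le hρ
  refine ⟨h3.mono_measure hle, ?_⟩
  refine (integral_mono_measure hle (Filter.Eventually.of_forall hf0) h3).trans ?_
  rw [integral_smul_measure, ENNReal.toReal_ofReal hρ.le, smul_eq_mul,
    integral_map hc.aemeasurable hf.aestronglyMeasurable]

lemma bdry_le {r R : ℝ} (hr : 0 < r) (hrR : r < R) {u : E2 → ℝ} (hu : Continuous u) :
    ∫ x in frontier (annulus r R), (u x) ^ 2 ∂(μH[1]) ≤
      ∫ θ in Ioo (-Real.pi) Real.pi, (R * u (R • dirv θ) ^ 2 + r * u (r • dirv θ) ^ 2) := by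
  have hR : 0 < R := hr.trans hrR
  have hf : Continuous (fun x => u x ^ 2) := hu.pow 2
  have hf0 : ∀ x, 0 ≤ u x ^ 2 := fun x => sq_nonneg _
  obtain ⟨i1, l1⟩ := circ_int hr hf hf0
  obtain ⟨i2, l2⟩ := circ_int hR hf hf0
  rw [frontier_annulus hr hrR, setIntegral_union _ isClosed_sphere.measurableSet i1 i2]
  · rw [← integral_Ioc_eq_integral_Ioo, integral_add, integral_const_mul, integral_const_mul]
    · linarith
    · exact ((hf.comp (lip_circ hR).continuous).integrableOn_Ioc).const_mul R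
    · exact ((hf.comp (lip_circ hr).continuous).integrableOn_Ioc).const_mul r
  · rw [Set.disjoint_left]
    intro x h1 h2
    rw [mem_sphere_zero_iff_norm] at h1 h2
    linarith

/-- Rademacher in polar coordinates. -/
lemma ae_diff_ray {r R : ℝ} (hr : 0 < r) {K : ℝ≥0} {u : E2 → ℝ} (hu : LipschitzWith K u) :
    ∀ᵐ θ ∂(volume.restrict (Ioo (-Real.pi) Real.pi)), ∀ᵐ ξ ∂(volume.restrict (Ioo r R)),
      DifferentiableAt ℝ u (ξ • dirv θ) := by
  have hN : MeasurableSet {x : E2 | DifferentiableAt ℝ u x} := measurableSet_of_differentiableAt ℝ u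
  have hP : Continuous (fun p : ℝ × ℝ => p.1 • dirv p.2) :=
    continuous_fst.smul (continuous_dirv.comp continuous_snd)
  have hnull : ∫⁻ x, ({x : E2 | DifferentiableAt ℝ u x}ᶜ).indicator (fun _ => (1:ℝ≥0∞)) x = 0 := by
    rw [lintegral_indicator hN.compl, setLIntegral_one]
    exact hu.ae_differentiableAt
  rw [polar_lintegral, lintegral_eq_zero_iff] at hnull
  · have h1 : ∀ᵐ p ∂(volume.restrict (Ioi (0:ℝ) ×ˢ Ioo (-Real.pi) Real.pi)),
        DifferentiableAt ℝ u (p.1 • dirv p.2) := by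
      rw [Filter.EventuallyEq, ae_restrict_iff' (measurableSet_Ioi.prod measurableSet_Ioo)] at hnull
      rw [ae_restrict_iff' (measurableSet_Ioi.prod measurableSet_Ioo)]
      filter_upwards [hnull] with p hp hpT
      have h2 := hp hpT
      by_contra hcon
      rw [indicator_of_mem (show p.1 • dirv p.2 ∈ {x : E2 | DifferentiableAt ℝ u x}ᶜ from hcon),
        mul_one, Pi.zero_apply, ENNReal.ofReal_eq_zero] at h2
      exact absurd hpT.1 (not_lt.2 h2)
    have h2 : ∀ᵐ p ∂((volume.restrict (Ioo r R)).prod (volume.restrict (Ioo (-Real.pi) Real.pi))),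
        DifferentiableAt ℝ u (p.1 • dirv p.2) := by
      rw [Measure.prod_restrict]
      refine ae_mono ?_ h1
      exact Measure.restrict_mono (prod_mono (fun x hx => hr.trans hx.1) (subset_refl _)) le_rfl
    have h3 := Measure.ae_ae_of_ae_prod h2
    rwa [Measure.ae_ae_comm] at h3
    exact hP.measurable hN
  · exact (ENNReal.measurable_ofReal.comp measurable_fst).mul
      ((measurable_const.indicator hN.compl).comp hP.measurable)

lemma int_polar {r R : ℝ} (hr : 0 < r) {F : E2 → ℝ} (hFm : Measurable F)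
    {M : ℝ} (hM : ∀ x, ‖x‖ < R → |F x| ≤ M) :
    IntegrableOn (fun p : ℝ × ℝ => p.1 * F (p.1 • dirv p.2))
      (Ioo r R ×ˢ Ioo (-Real.pi) Real.pi) := by
  have hP : Continuous (fun p : ℝ × ℝ => p.1 • dirv p.2) :=
    continuous_fst.smul (continuous_dirv.comp continuous_snd)
  refine Measure.integrableOn_of_bounded (M := R * M) ?_ ?_ ?_
  · rw [Measure.volume_eq_prod, Measure.prod_prod]
    simp [ENNReal.mul_eq_top]
  · exact (measurable_fst.mul (hFm.comp hP.measurable)).aestronglyMeasurable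
  · rw [ae_restrict_iff' (measurableSet_Ioo.prod measurableSet_Ioo)]
    refine Filter.Eventually.of_forall fun p hp => ?_
    have h1 : 0 < p.1 := hr.trans hp.1.1
    have h2 : ‖p.1 • dirv p.2‖ < R := by
      rw [norm_smul_dirv, abs_of_pos h1]; exact hp.1.2
    rw [Real.norm_eq_abs, abs_mul, abs_of_pos h1]
    have h3 := hM _ h2
    exact mul_le_mul hp.1.2.le h3 (abs_nonneg _) (h1.le.trans hp.1.2.le)

lemma polar_iter {r R : ℝ} (hr : 0 < r) (hrR : r < R) {F : E2 → ℝ} (hFm : Measurable F)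
    {M : ℝ} (hM : ∀ x, ‖x‖ < R → |F x| ≤ M) :
    ∫ x in annulus r R, F x =
      ∫ θ in Ioo (-Real.pi) Real.pi, ∫ ξ in r..R, ξ * F (ξ • dirv θ) := by
  rw [polar_annulus hr]
  have h1 := int_polar hr hFm hM (R := R)
  unfold IntegrableOn at h1
  rw [Measure.volume_eq_prod, ← Measure.prod_restrict] at h1 ⊢
  rw [integral_prod_symm _ h1]
  congr 1
  ext θ
  rw [intervalIntegral.integral_of_le hrR.le, integral_Ioc_eq_integral_Ioo]

lemma iter_integrable {r R : ℝ} (hr : 0 < r) (hrR : r < R) {F : E2 → ℝ} (hFm : Measurable F)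
    {M : ℝ} (hM : ∀ x, ‖x‖ < R → |F x| ≤ M) :
    IntegrableOn (fun θ => ∫ ξ in r..R, ξ * F (ξ • dirv θ)) (Ioo (-Real.pi) Real.pi) := by
  have h1 := int_polar hr hFm hM (R := R)
  unfold IntegrableOn at h1
  rw [Measure.volume_eq_prod, ← Measure.prod_restrict] at h1
  have h2 := h1.integral_prod_right
  unfold IntegrableOn
  refine h2.congr (Filter.Eventually.of_forall fun θ => ?_)
  show ∫ ξ, ξ * F (ξ • dirv θ) ∂(volume.restrict (Ioo r R)) =
    ∫ ξ in r..R, ξ * F (ξ • dirv θ)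
  rw [intervalIntegral.integral_of_le hrR.le, integral_Ioc_eq_integral_Ioo]

lemma ray_integrable {r R : ℝ} (hr : 0 < r) (hrR : r < R) {F : E2 → ℝ} (hFm : Measurable F)
    {M : ℝ} (hM : ∀ x, ‖x‖ < R → |F x| ≤ M) (θ : ℝ) :
    IntervalIntegrable (fun ξ => ξ * F (ξ • dirv θ)) volume r R := by
  rw [intervalIntegrable_iff_integrableOn_Ioo_of_le hrR.le]
  have hP : Continuous (fun ξ : ℝ => ξ • dirv θ) := by fun_prop
  refine Measure.integrableOn_of_bounded (M := R * M) (by simp) ?_ ?_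
  · exact (measurable_id.mul (hFm.comp hP.measurable)).aestronglyMeasurable
  · rw [ae_restrict_iff' measurableSet_Ioo]
    refine Filter.Eventually.of_forall fun p hp => ?_
    have h1 : 0 < p := hr.trans hp.1
    have h2 : ‖p • dirv θ‖ < R := by
      rw [norm_smul_dirv, abs_of_pos h1]; exact hp.2
    rw [Real.norm_eq_abs, abs_mul, abs_of_pos h1]
    have h3 := hM _ h2
    exact mul_le_mul hp.2.le h3 (abs_nonneg _) (h1.le.trans hp.2.le)

lemma lip_bd {R : ℝ} {K : ℝ≥0} {u : E2 → ℝ} (hu : LipschitzWith K u) (x : E2) (hx : ‖x‖ < R) :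
    |u x| ≤ |u 0| + K * R := by
  have h1 := hu.dist_le_mul x 0
  rw [Real.dist_eq, dist_zero_right] at h1
  have h2 : |u x| ≤ |u 0| + |u x - u 0| := by
    have := abs_add_le (u 0) (u x - u 0)
    rwa [add_sub_cancel] at this
  have h3 : (K:ℝ) * ‖x‖ ≤ K * R := mul_le_mul_of_nonneg_left hx.le K.coe_nonneg
  linarith

lemma en_bd {R : ℝ} {K : ℝ≥0} {u : E2 → ℝ} (hu : LipschitzWith K u) (k : ℝ) (x : E2)
    (hx : ‖x‖ < R) :
    |‖fderiv ℝ u x‖ ^ 2 + k ^ 2 * (u x) ^ 2| ≤ K ^ 2 + k ^ 2 * (|u 0| + K * R) ^ 2 := by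
  rw [abs_of_nonneg (by positivity)]
  have h1 : ‖fderiv ℝ u x‖ ≤ K := norm_fderiv_le_of_lipschitz ℝ hu
  have h2 := lip_bd hu x hx
  have h3 : u x ^ 2 ≤ (|u 0| + K * R) ^ 2 := by
    rw [← sq_abs (u x)]
    exact pow_le_pow_left₀ (abs_nonneg _) h2 2
  gcongr

lemma lower {r R κ : ℝ} {χ : ℝ → ℝ} (h : GS r R κ χ) {K : ℝ≥0} {u : E2 → ℝ}
    (hu : LipschitzWith K u) :
    ∫ x in frontier (annulus r R), (u x) ^ 2 ∂(μH[1]) ≤
      ∫ x in annulus r R, (‖fderiv ℝ u x‖ ^ 2 + κ ^ 2 * (u x) ^ 2) := by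
  have hr := h.r_pos
  have hrR := h.lt
  have hFm : Measurable (fun x => ‖fderiv ℝ u x‖ ^ 2 + κ ^ 2 * (u x) ^ 2) :=
    ((measurable_fderiv ℝ u).norm.pow_const 2).add
      ((hu.continuous.measurable.pow_const 2).const_mul _)
  have hM := en_bd (R := R) hu κ
  refine (bdry_le hr hrR hu.continuous).trans ?_
  rw [polar_iter hr hrR hFm hM]
  have hR : 0 < R := hr.trans hrR
  refine integral_mono_ae ?_ (iter_integrable hr hrR hFm hM) ?_
  · have c1 : Continuous (fun θ => R * u (R • dirv θ) ^ 2 + r * u (r • dirv θ) ^ 2) := by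
      have := hu.continuous
      have := continuous_dirv
      fun_prop
    exact c1.integrableOn_Ioc.mono_set Ioo_subset_Ioc_self
  · filter_upwards [ae_diff_ray (R := R) hr hu] with θ hθ
    have hylip : LipschitzWith K (fun ξ : ℝ => u (ξ • dirv θ)) := by
      apply LipschitzWith.of_dist_le_mul
      intro a b
      refine (hu.dist_le_mul _ _).trans ?_
      rw [dist_eq_norm (a • dirv θ), ← sub_smul, norm_smul_dirv, Real.dist_eq]
    refine ray_le h hylip (ray_integrable hr hrR hFm hM θ) ?_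
    rw [ae_restrict_iff' measurableSet_Ioo] at hθ
    filter_upwards [hθ] with ξ h1 hξ y' hy'
    have h2 := h1 hξ
    have hξ0 : 0 < ξ := hr.trans hξ.1
    have h3 : HasDerivAt (fun ξ : ℝ => ξ • dirv θ) (dirv θ) ξ := by
      simpa using (hasDerivAt_id ξ).smul_const (dirv θ)
    have h4 := h2.hasFDerivAt.comp_hasDerivAt ξ h3
    have h5 : y' = fderiv ℝ u (ξ • dirv θ) (dirv θ) := hy'.unique h4
    have h6 : |y'| ≤ ‖fderiv ℝ u (ξ • dirv θ)‖ := by
      rw [h5, ← Real.norm_eq_abs]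
      have := (fderiv ℝ u (ξ • dirv θ)).le_opNorm (dirv θ)
      rwa [norm_dirv, mul_one] at this
    have h7 : y' ^ 2 ≤ ‖fderiv ℝ u (ξ • dirv θ)‖ ^ 2 := by
      rw [← sq_abs]
      exact pow_le_pow_left₀ (abs_nonneg _) h6 2
    exact mul_le_mul_of_nonneg_left (by linarith) hξ0.le

/-! ### Upper bound -/

lemma exp_lip {M a b : ℝ} (ha : a ≤ M) (hb : b ≤ M) :
    |Real.exp a - Real.exp b| ≤ Real.exp M * |a - b| := by
  have key : ∀ a b : ℝ, a ≤ M → b ≤ a → |Real.exp a - Real.exp b| ≤ Real.exp M * |a - b| := by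
    intro a b ha hba
    rw [abs_of_nonneg (sub_nonneg.2 (Real.exp_le_exp.2 hba)), abs_of_nonneg (sub_nonneg.2 hba)]
    have h1 : Real.exp b = Real.exp a * Real.exp (b - a) := by
      rw [← Real.exp_add]; congr 1; ring
    have h2 : 1 + (b - a) ≤ Real.exp (b - a) := by linarith [Real.add_one_le_exp (b - a)]
    have h3 : Real.exp a ≤ Real.exp M := Real.exp_le_exp.2 ha
    have h4 := Real.exp_pos a
    rw [h1]
    nlinarith [mul_le_mul_of_nonneg_right h3 (sub_nonneg.2 hba)]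
  rcases le_total b a with h | h
  · exact key a b ha h
  · rw [abs_sub_comm, abs_sub_comm a b]; exact key b a hb h

/-- Clamp. -/
noncomputable def cl (r R ξ : ℝ) : ℝ := max r (min ξ R)

lemma cl_lip (r R a b : ℝ) : |cl r R a - cl r R b| ≤ |a - b| := by
  unfold cl
  calc |max r (min a R) - max r (min b R)| ≤ max |r - r| |min a R - min b R| :=
        abs_max_sub_max_le_max _ _ _ _
    _ = |min a R - min b R| := by simp
    _ ≤ max |a - b| |R - R| := abs_min_sub_min_le_max _ _ _ _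
    _ = |a - b| := by simp

lemma cl_mem {r R : ℝ} (hrR : r ≤ R) (ξ : ℝ) : cl r R ξ ∈ Icc r R :=
  ⟨le_max_left _ _, max_le hrR (min_le_right _ _)⟩

lemma cl_of_mem {r R ξ : ℝ} (h : ξ ∈ Icc r R) : cl r R ξ = ξ := by
  unfold cl
  rw [min_eq_left h.2, max_eq_right h.1]

lemma cl_cont (r R : ℝ) : Continuous (cl r R) :=
  continuous_const.max (continuous_id.min continuous_const)

lemma mass_finite {ρ : ℝ} (hρ : 0 < ρ) : (μH[1] : Measure E2) (sphere 0 ρ) < ⊤ := by
  have h1 := circ_measure_le hρ univ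
  rw [Measure.restrict_apply MeasurableSet.univ, univ_inter, Measure.smul_apply,
    Measure.map_apply (lip_circ hρ).continuous.measurable MeasurableSet.univ, preimage_univ,
    Measure.restrict_apply MeasurableSet.univ, univ_inter] at h1
  refine h1.trans_lt ?_
  rw [Real.volume_Ioc, smul_eq_mul]
  exact ENNReal.mul_lt_top ENNReal.ofReal_lt_top ENNReal.ofReal_lt_top

lemma circ_const {ρ : ℝ} (hρ : 0 < ρ) {f : E2 → ℝ} {c : ℝ} (hc : 0 ≤ c)
    (hf : ∀ x, ‖x‖ = ρ → f x = c) :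
    2 * Real.pi * (ρ * c) ≤ ∫ x in sphere (0 : E2) ρ, f x ∂(μH[1]) := by
  have h1 : ∫ x in sphere (0 : E2) ρ, f x ∂(μH[1]) = ∫ x in sphere (0 : E2) ρ, c ∂(μH[1]) := by
    apply setIntegral_congr_fun isClosed_sphere.measurableSet
    intro x hx
    exact hf x (by simpa using hx)
  rw [h1, setIntegral_const, smul_eq_mul, Measure.real]
  have h2 := (ENNReal.ofReal_le_iff_le_toReal (mass_finite hρ).ne).1 (circ_mass hρ)
  nlinarith [mul_le_mul_of_nonneg_right h2 hc]

lemma annulus_vol (r R : ℝ) : volume (annulus r R) < ⊤ := by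
  have h1 : annulus r R ⊆ ball 0 R := by
    intro x hx
    rw [mem_ball_zero_iff]
    exact hx.2
  exact (measure_mono h1).trans_lt measure_ball_lt_top

lemma annulus_int {r R : ℝ} {F : E2 → ℝ} (hFm : Measurable F)
    {M : ℝ} (hM : ∀ x, ‖x‖ < R → |F x| ≤ M) : IntegrableOn F (annulus r R) := by
  refine Measure.integrableOn_of_bounded (M := M) (annulus_vol r R).ne hFm.aestronglyMeasurable ?_
  rw [ae_restrict_iff' (meas_annulus r R)]
  exact Filter.Eventually.of_forall fun x hx => hM x hx.2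

lemma annulus_pos {r R : ℝ} (hr : 0 < r) (hrR : r < R) : 0 < volume (annulus r R) := by
  have ho : IsOpen (annulus r R) := by
    unfold annulus
    exact (isOpen_lt continuous_const continuous_norm).inter
      (isOpen_lt continuous_norm continuous_const)
  refine ho.measure_pos volume ⟨((r + R) / 2) • dirv 0, ?_⟩
  show r < ‖_‖ ∧ ‖_‖ < R
  rw [norm_smul_dirv, abs_of_pos (by linarith)]
  constructor <;> linarith

lemma upper {r R κ : ℝ} {χ : ℝ → ℝ} (h : GS r R κ χ) :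
    ∃ u : E2 → ℝ, (∃ K : ℝ≥0, LipschitzWith K u) ∧ (∀ x, 0 < u x) ∧
      ∫ x in annulus r R, (‖fderiv ℝ u x‖ ^ 2 + κ ^ 2 * (u x) ^ 2) ≤
        ∫ x in frontier (annulus r R), (u x) ^ 2 ∂(μH[1]) := by
  have hr := h.r_pos
  have hrR := h.lt
  have hR : 0 < R := hr.trans hrR
  have hχc : ContinuousOn χ (Icc r R) := fun ξ hξ => (h.deriv ξ hξ).continuousWithinAt
  set χ' : ℝ → ℝ := fun ξ => χ (cl r R ξ) with hχ'
  have hχ'c : Continuous χ' :=
    hχc.comp_continuous (cl_cont r R) (fun ξ => cl_mem hrR.le ξ)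
  have hχ'b : ∀ ξ, |χ' ξ| ≤ 1 := fun ξ => abs_le.2 (GS.bd h (cl_mem hrR.le ξ))
  have hχ'eq : ∀ ξ ∈ Icc r R, χ' ξ = χ ξ := fun ξ hξ => by rw [hχ']; simp only [cl_of_mem hξ]
  set G : ℝ → ℝ := fun ξ => ∫ t in r..ξ, χ' t with hG
  have hGd : ∀ ξ, HasDerivAt G (χ' ξ) ξ := fun ξ =>
    intervalIntegral.integral_hasDerivAt_right (hχ'c.intervalIntegrable _ _)
      (hχ'c.stronglyMeasurableAtFilter _ _) hχ'c.continuousAt
  have hGlip : ∀ a b, |G a - G b| ≤ |a - b| := by
    intro a b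
    have e : G a - G b = ∫ t in b..a, χ' t :=
      intervalIntegral.integral_interval_sub_left (hχ'c.intervalIntegrable _ _)
        (hχ'c.intervalIntegrable _ _)
    rw [e, ← Real.norm_eq_abs]
    have := intervalIntegral.norm_integral_le_of_norm_le_const (a := b) (b := a) (f := χ') (C := 1)
      (fun x _ => hχ'b x)
    rwa [one_mul] at this
  have hG0 : G r = 0 := intervalIntegral.integral_same
  have hGb : ∀ ξ ∈ Icc r R, G ξ ≤ R - r := by
    intro ξ hξ
    have h1 := hGlip ξ r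
    rw [hG0, sub_zero, abs_of_nonneg (sub_nonneg.2 hξ.1)] at h1
    linarith [le_abs_self (G ξ), hξ.2]
  set φ : ℝ → ℝ := fun ξ => Real.exp (G (cl r R ξ)) with hφ
  have hφlip : ∀ a b, |φ a - φ b| ≤ Real.exp (R - r) * |a - b| := by
    intro a b
    refine (exp_lip (hGb _ (cl_mem hrR.le a)) (hGb _ (cl_mem hrR.le b))).trans ?_
    exact mul_le_mul_of_nonneg_left ((hGlip _ _).trans (cl_lip _ _ _ _)) (Real.exp_pos _).le
  have hφpos : ∀ ξ, 0 < φ ξ := fun ξ => Real.exp_pos _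
  have hφb : ∀ ξ, φ ξ ≤ Real.exp (R - r) := fun ξ =>
    Real.exp_le_exp.2 (hGb _ (cl_mem hrR.le ξ))
  have hφd : ∀ ξ ∈ Ioo r R, HasDerivAt φ (φ ξ * χ ξ) ξ := by
    intro ξ hξ
    have hξ' : ξ ∈ Icc r R := ⟨hξ.1.le, hξ.2.le⟩
    have h1 : HasDerivAt (fun ξ => Real.exp (G ξ)) (Real.exp (G ξ) * χ' ξ) ξ := (hGd ξ).exp
    have h2 : φ ξ = Real.exp (G ξ) := by rw [hφ]; simp only [cl_of_mem hξ']
    rw [h2, ← hχ'eq ξ hξ']
    refine h1.congr_of_eventuallyEq ?_
    filter_upwards [Icc_mem_nhds hξ.1 hξ.2] with t ht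
    rw [hφ]; simp only [cl_of_mem ht]
  have hφc : Continuous φ :=
    Real.continuous_exp.comp
      ((continuous_iff_continuousAt.2 fun ξ => (hGd ξ).continuousAt).comp (cl_cont r R))
  set u : E2 → ℝ := fun x => φ ‖x‖ with hu
  have hulip : LipschitzWith (Real.exp (R - r)).toNNReal u := by
    apply LipschitzWith.of_dist_le_mul
    intro x y
    rw [Real.coe_toNNReal _ (Real.exp_pos _).le, Real.dist_eq]
    refine (hφlip _ _).trans ?_
    refine mul_le_mul_of_nonneg_left ?_ (Real.exp_pos _).le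
    rw [dist_eq_norm]
    exact abs_norm_sub_norm_le x y
  refine ⟨u, ⟨_, hulip⟩, fun x => hφpos _, ?_⟩
  -- gradient bound
  have hgrad : ∀ x ∈ annulus r R, ‖fderiv ℝ u x‖ ^ 2 + κ ^ 2 * (u x) ^ 2 ≤
      (χ' ‖x‖ ^ 2 + κ ^ 2) * φ ‖x‖ ^ 2 := by
    intro x hx
    have hx' : ‖x‖ ∈ Ioo r R := hx
    have hx0 : x ≠ 0 := by
      intro h0
      rw [h0, norm_zero] at hx'
      linarith [hx'.1]
    have h1 : HasFDerivAt (fun y : E2 => ‖y‖) (fderiv ℝ (fun y : E2 => ‖y‖) x) x :=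
      ((contDiffAt_norm ℝ hx0).differentiableAt one_ne_zero).hasFDerivAt
    have h2 : ‖fderiv ℝ (fun y : E2 => ‖y‖) x‖ ≤ 1 := by
      have := norm_fderiv_le_of_lipschitz ℝ (lipschitzWith_one_norm (E := E2)) (x₀ := x)
      simpa using this
    have h3 := (hφd ‖x‖ hx').comp_hasFDerivAt x h1
    have h4 : fderiv ℝ u x = (φ ‖x‖ * χ ‖x‖) • fderiv ℝ (fun y : E2 => ‖y‖) x := h3.fderiv
    have h5 : ‖fderiv ℝ u x‖ ≤ φ ‖x‖ * |χ ‖x‖| := by
      rw [h4, norm_smul, Real.norm_eq_abs, abs_mul, abs_of_pos (hφpos _)]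
      exact mul_le_of_le_one_right (mul_nonneg (hφpos _).le (abs_nonneg _)) h2
    have h6 : ‖fderiv ℝ u x‖ ^ 2 ≤ (φ ‖x‖ * |χ ‖x‖|) ^ 2 :=
      pow_le_pow_left₀ (norm_nonneg _) h5 2
    rw [mul_pow, sq_abs] at h6
    rw [hχ'eq _ ⟨hx'.1.le, hx'.2.le⟩]
    show ‖fderiv ℝ u x‖ ^ 2 + κ ^ 2 * φ ‖x‖ ^ 2 ≤ _
    linarith
  have hFm : Measurable (fun x => ‖fderiv ℝ u x‖ ^ 2 + κ ^ 2 * (u x) ^ 2) :=
    ((measurable_fderiv ℝ u).norm.pow_const 2).add
      ((hulip.continuous.measurable.pow_const 2).const_mul _)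
  have hF2c : Continuous (fun x : E2 => (χ' ‖x‖ ^ 2 + κ ^ 2) * φ ‖x‖ ^ 2) :=
    (((hχ'c.comp continuous_norm).pow 2).add continuous_const).mul
      ((hφc.comp continuous_norm).pow 2)
  have hF2b : ∀ x : E2, ‖x‖ < R → |(χ' ‖x‖ ^ 2 + κ ^ 2) * φ ‖x‖ ^ 2| ≤
      (1 + κ ^ 2) * Real.exp (R - r) ^ 2 := by
    intro x _
    rw [abs_of_nonneg (by positivity)]
    have h1 : χ' ‖x‖ ^ 2 ≤ 1 := by
      rw [← sq_abs]
      exact pow_le_one₀ (abs_nonneg _) (hχ'b _)
    have h2 : φ ‖x‖ ^ 2 ≤ Real.exp (R - r) ^ 2 := pow_le_pow_left₀ (hφpos _).le (hφb _) 2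
    exact mul_le_mul (by linarith) h2 (sq_nonneg _) (by positivity)
  refine (setIntegral_mono_on (annulus_int hFm (en_bd hulip κ)) (annulus_int hF2c.measurable hF2b)
    (meas_annulus r R) hgrad).trans ?_
  rw [polar_iter hr hrR hF2c.measurable hF2b]
  have hinner : ∀ θ : ℝ, ∫ ξ in r..R, ξ * ((χ' ‖ξ • dirv θ‖ ^ 2 + κ ^ 2) * φ ‖ξ • dirv θ‖ ^ 2) =
      R * φ R ^ 2 + r * φ r ^ 2 := by
    intro θ
    have e1 : ∫ ξ in r..R, ξ * ((χ' ‖ξ • dirv θ‖ ^ 2 + κ ^ 2) * φ ‖ξ • dirv θ‖ ^ 2) =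
        ∫ ξ in r..R, ξ * ((χ' ξ ^ 2 + κ ^ 2) * φ ξ ^ 2) := by
      apply intervalIntegral.integral_congr
      intro ξ hξ
      rw [uIcc_of_le hrR.le] at hξ
      simp only [norm_smul_dirv, abs_of_pos (hr.trans_le hξ.1)]
    rw [e1]
    have h1 := intervalIntegral.integral_eq_sub_of_hasDerivAt_of_le
      (f := fun ξ => (ξ * χ ξ) * φ ξ ^ 2) (f' := fun ξ => ξ * ((χ' ξ ^ 2 + κ ^ 2) * φ ξ ^ 2))
      hrR.le ((continuousOn_id.mul hχc).mul (hφc.pow 2).continuousOn) ?_ ?_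
    · rw [h1, h.left, h.right]; ring
    · intro ξ hξ
      have hξ' : ξ ∈ Icc r R := ⟨hξ.1.le, hξ.2.le⟩
      have hχd : HasDerivAt χ (κ ^ 2 - χ ξ ^ 2 - χ ξ / ξ) ξ :=
        (h.deriv ξ hξ').hasDerivAt (Icc_mem_nhds hξ.1 hξ.2)
      have h2 := ((hasDerivAt_id ξ).mul hχd).mul ((hφd ξ hξ).pow 2)
      refine h2.congr_deriv ?_
      have hξ0 : 0 < ξ := hr.trans hξ.1
      have e2 : χ ξ / ξ * ξ = χ ξ := by field_simp
      rw [hχ'eq ξ hξ']
      simp only [Pi.mul_apply, Pi.pow_apply, id]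
      push_cast
      linear_combination (-(φ ξ)^2) * e2
    · apply Continuous.intervalIntegrable
      exact continuous_id.mul (((hχ'c.pow 2).add continuous_const).mul (hφc.pow 2))
  simp only [hinner]
  rw [setIntegral_const, smul_eq_mul, Measure.real, Real.volume_Ioo,
    ENNReal.toReal_ofReal (by linarith [Real.pi_pos])]
  have hf : Continuous (fun x => u x ^ 2) := hulip.continuous.pow 2
  have hf0 : ∀ x, 0 ≤ u x ^ 2 := fun x => sq_nonneg _
  obtain ⟨i1, -⟩ := circ_int hr hf hf0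
  obtain ⟨i2, -⟩ := circ_int hR hf hf0
  have hdisj : Disjoint (sphere (0 : E2) r) (sphere 0 R) := by
    rw [Set.disjoint_left]
    intro x h1 h2
    rw [mem_sphere_zero_iff_norm] at h1 h2
    linarith
  rw [frontier_annulus hr hrR, setIntegral_union hdisj isClosed_sphere.measurableSet i1 i2]
  have b1 := circ_const (f := fun x => u x ^ 2) (c := φ r ^ 2) hr (sq_nonneg _)
    (fun x hx => by show φ ‖x‖ ^ 2 = _; rw [hx])
  have b2 := circ_const (f := fun x => u x ^ 2) (c := φ R ^ 2) hR (sq_nonneg _)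
    (fun x hx => by show φ ‖x‖ ^ 2 = _; rw [hx])
  linarith

lemma split_int {r R κ : ℝ} {K : ℝ≥0} {u : E2 → ℝ} (hu : LipschitzWith K u) :
    ∫ x in annulus r R, (‖fderiv ℝ u x‖ ^ 2 + κ ^ 2 * (u x) ^ 2) =
      (∫ x in annulus r R, ‖fderiv ℝ u x‖ ^ 2) + κ ^ 2 * ∫ x in annulus r R, (u x) ^ 2 := by
  have h1 : IntegrableOn (fun x => ‖fderiv ℝ u x‖ ^ 2) (annulus r R) := by
    refine annulus_int (M := (K:ℝ) ^ 2) ((measurable_fderiv ℝ u).norm.pow_const 2) ?_
    intro x _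
    rw [abs_of_nonneg (by positivity)]
    exact pow_le_pow_left₀ (norm_nonneg _) (norm_fderiv_le_of_lipschitz ℝ hu) 2
  have h2 : IntegrableOn (fun x => (u x) ^ 2) (annulus r R) := by
    refine annulus_int (M := (|u 0| + K * R) ^ 2) (hu.continuous.measurable.pow_const 2) ?_
    intro x hx
    rw [abs_of_nonneg (sq_nonneg _), ← sq_abs]
    exact pow_le_pow_left₀ (abs_nonneg _) (lip_bd hu x hx) 2
  rw [← integral_const_mul, ← integral_add h1 (h2.const_mul _)]

end F3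

open F3 in
/-- F3 without hypotheses. -/
theorem prf_F3' : S_F3 := by
  intro r R κ χ h
  have hr := h.r_pos
  have hrR := h.lt
  unfold lam
  apply le_antisymm
  · obtain ⟨u, ⟨K, hK⟩, hpos, hle⟩ := upper h
    have hV : 0 < ∫ x in annulus r R, (u x) ^ 2 := by
      rw [setIntegral_pos_iff_support_of_nonneg_ae]
      · have : Function.support (fun x => u x ^ 2) = univ := by
          ext x
          simp [(hpos x).ne']
        rw [this, univ_inter]
        exact annulus_pos hr hrR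
      · exact Filter.Eventually.of_forall fun x => sq_nonneg _
      · refine annulus_int (M := (|u 0| + K * R) ^ 2) (hK.continuous.measurable.pow_const 2) ?_
        intro x hx
        rw [abs_of_nonneg (sq_nonneg _), ← sq_abs]
        exact pow_le_pow_left₀ (abs_nonneg _) (lip_bd hK x hx) 2
    refine iInf_le_of_le u (iInf_le_of_le ⟨K, hK⟩ (iInf_le_of_le hV ?_))
    rw [EReal.coe_le_coe_iff]
    unfold rayleigh
    rw [div_le_iff₀ hV]
    rw [split_int hK] at hle
    linarith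
  · refine le_iInf fun u => le_iInf fun hu => le_iInf fun hV => ?_
    obtain ⟨K, hK⟩ := hu
    rw [EReal.coe_le_coe_iff]
    unfold rayleigh
    rw [le_div_iff₀ hV]
    have h1 := lower h hK
    rw [split_int hK] at h1
    linarith

/-- F3 in the requested form (the hypothesis is not needed). -/
theorem prf_F3 (_h4 : S_A4) : S_F3 := prf_F3'

end Pool.Agent.Robin

end

section

/-!
# MP_4b551e_an, item Graph: area formula lower bound for Lipschitz graphs
-/

open MeasureTheory Set Metric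
open scoped ENNReal NNReal Pointwise RealInnerProductSpace

namespace Pool.Agent.Robin

namespace PfGraph

/-- the graph map -/
noncomputable def gam (f : ℝ → ℝ) (t : ℝ) : E2 := !₂[t, f t]

theorem gam_zero (f : ℝ → ℝ) (t : ℝ) : gam f t 0 = t := rfl

theorem gam_one (f : ℝ → ℝ) (t : ℝ) : gam f t 1 = f t := rfl

theorem gam_inj (f : ℝ → ℝ) : Function.Injective (gam f) := by
  intro x y h
  rw [← gam_zero f x, h, gam_zero]

theorem dist_gam (f : ℝ → ℝ) (x y : ℝ) :
    dist (gam f x) (gam f y) = Real.sqrt (|x - y| ^ 2 + |f x - f y| ^ 2) := by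
  rw [EuclideanSpace.dist_eq, Fin.sum_univ_two]
  rfl

theorem gam_cont {f : ℝ → ℝ} (hf : Continuous f) : Continuous (gam f) := by
  unfold gam
  refine (PiLp.continuous_toLp 2 _).comp ?_
  refine continuous_pi fun i => ?_
  fin_cases i
  · exact continuous_id
  · exact hf

theorem meas_image {f : ℝ → ℝ} (hf : Continuous f) {S : Set ℝ} (hS : MeasurableSet S) :
    MeasurableSet (gam f '' S) :=
  hS.image_of_continuousOn_injOn (gam_cont hf).continuousOn (gam_inj f).injOn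

/-- lower bound of the distance on a piece -/
theorem dist_lower {u w s ε : ℝ} (hu : 0 ≤ u) (hw : (|s| - ε) * u ≤ w)
    (hε : 0 ≤ ε) : (Real.sqrt (1 + s ^ 2) - ε) * u ≤ Real.sqrt (u ^ 2 + w ^ 2) := by
  set q := Real.sqrt (1 + s ^ 2) with hq
  set d := Real.sqrt (u ^ 2 + w ^ 2) with hd
  have hq2 : q ^ 2 = 1 + s ^ 2 := Real.sq_sqrt (by positivity)
  have hd2 : d ^ 2 = u ^ 2 + w ^ 2 := Real.sq_sqrt (by positivity)
  have hq0 : 0 < q := Real.sqrt_pos.mpr (by positivity)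
  have hd0 : 0 ≤ d := Real.sqrt_nonneg _
  have hqs : |s| ≤ q := by
    rw [hq, ← Real.sqrt_sq_eq_abs]
    exact Real.sqrt_le_sqrt (by linarith)
  have h1 : u + |s| * w ≤ q * d := by
    refine le_of_sq_le_sq ?_ (by positivity)
    rw [mul_pow, hq2, hd2]
    have h2 : |s| ^ 2 = s ^ 2 := sq_abs s
    nlinarith [sq_nonneg (w - |s| * u)]
  have h3 : q * ((q - ε) * u) ≤ q * d := by
    refine le_trans ?_ h1
    have h4 : |s| * ((|s| - ε) * u) ≤ |s| * w := mul_le_mul_of_nonneg_left hw (abs_nonneg s)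
    have h5 : |s| * |s| = s ^ 2 := by rw [← sq, sq_abs]
    have h6 : |s| * (ε * u) ≤ q * (ε * u) := mul_le_mul_of_nonneg_right hqs (by positivity)
    nlinarith
  exact le_of_mul_le_mul_left h3 hq0

/-- `√(1+s²)` is 1-Lipschitz -/
theorem sqrt_lip {s s' ε : ℝ} (h : |s' - s| ≤ ε) :
    Real.sqrt (1 + s' ^ 2) ≤ Real.sqrt (1 + s ^ 2) + ε := by
  have hε : 0 ≤ ε := (abs_nonneg _).trans h
  set q := Real.sqrt (1 + s ^ 2) with hq
  have hq2 : q ^ 2 = 1 + s ^ 2 := Real.sq_sqrt (by positivity)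
  have hq0 : 0 < q := Real.sqrt_pos.mpr (by positivity)
  have hqs : |s| ≤ q := by
    rw [hq, ← Real.sqrt_sq_eq_abs]
    exact Real.sqrt_le_sqrt (by linarith)
  rw [show q + ε = Real.sqrt ((q + ε) ^ 2) from (Real.sqrt_sq (by positivity)).symm]
  refine Real.sqrt_le_sqrt ?_
  have h1 : |s'| ≤ |s| + ε := by
    calc |s'| = |s + (s' - s)| := by ring_nf
      _ ≤ |s| + |s' - s| := abs_add_le _ _
      _ ≤ |s| + ε := by linarith
  have h2 : s' ^ 2 = |s'| ^ 2 := (sq_abs _).symm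
  have h3 : s ^ 2 = |s| ^ 2 := (sq_abs _).symm
  have h4 : |s'| ^ 2 ≤ (|s| + ε) ^ 2 := pow_le_pow_left₀ (abs_nonneg _) h1 2
  have h5 : |s| * ε ≤ q * ε := mul_le_mul_of_nonneg_right hqs hε
  nlinarith

/-- the estimate on a piece -/
theorem piece {f : ℝ → ℝ} {S : Set ℝ} {A : ℝ →L[ℝ] ℝ} {ε : ℝ≥0} (hε1 : ε < 1)
    (hS : MeasurableSet S) (hA : ApproximatesLinearOn f A S ε)
    (hd : ∀ x ∈ S, DifferentiableAt ℝ f x) :
    ∫⁻ t in S, ENNReal.ofReal (Real.sqrt (1 + (deriv f t) ^ 2)) ≤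
      μH[1] (gam f '' S) + ENNReal.ofReal (2 * ε) * volume S := by
  set s : ℝ := A 1 with hs
  set q : ℝ := Real.sqrt (1 + s ^ 2) with hq
  have hq1 : 1 ≤ q := by
    rw [hq, show (1 : ℝ) = Real.sqrt 1 by simp]
    refine Real.sqrt_le_sqrt ?_
    simp only [Real.sqrt_one]
    nlinarith [sq_nonneg s]
  have hε1' : (ε : ℝ) < 1 := by exact_mod_cast hε1
  have hqε : 0 < q - ε := by linarith
  have hAx : ∀ z : ℝ, A z = s * z := by
    intro z
    have : A z = A (z • (1 : ℝ)) := by simp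
    rw [this, map_smul, smul_eq_mul, mul_comm]
  -- the lower bound
  have hlow : ∀ x ∈ S, ∀ y ∈ S, (q - ε) * |x - y| ≤ dist (gam f x) (gam f y) := by
    intro x hx y hy
    rw [dist_gam]
    refine dist_lower (abs_nonneg _) ?_ ε.2
    have h1 := hA x hx y hy
    rw [hAx, Real.norm_eq_abs, Real.norm_eq_abs] at h1
    have h2 : |s * (x - y)| ≤ |f x - f y| + |f x - f y - s * (x - y)| := by
      calc |s * (x - y)| = |(f x - f y) - (f x - f y - s * (x - y))| := by ring_nf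
        _ ≤ _ := abs_sub _ _
    rw [abs_mul] at h2
    have h3 : (ε : ℝ) * |x - y| = ε * |x - y| := rfl
    nlinarith
  let K : ℝ≥0 := (Real.toNNReal (q - ε))⁻¹
  have hK : (K : ℝ) = (q - ε)⁻¹ := by
    simp only [K, NNReal.coe_inv, Real.coe_toNNReal _ hqε.le]
  have hlip : LipschitzOnWith K (fun z : E2 => z 0) (gam f '' S) := by
    refine LipschitzOnWith.of_dist_le_mul ?_
    rintro _ ⟨x, hx, rfl⟩ _ ⟨y, hy, rfl⟩
    rw [hK, gam_zero, gam_zero, Real.dist_eq]
    have h1 := hlow x hx y hy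
    rw [inv_mul_eq_div, le_div_iff₀ hqε, mul_comm]
    exact h1
  have himg : (fun z : E2 => z 0) '' (gam f '' S) = S := by
    rw [Set.image_image]
    simp [gam_zero]
  have hmeas := hlip.hausdorffMeasure_image_le (zero_le_one)
  rw [himg, ENNReal.rpow_one, hausdorffMeasure_real] at hmeas
  have hb : ENNReal.ofReal (q - ε) * volume S ≤ μH[1] (gam f '' S) := by
    have h1 : (K : ℝ≥0∞) = (ENNReal.ofReal (q - ε))⁻¹ := by
      rw [ENNReal.ofReal]
      rw [ENNReal.coe_inv]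
      exact (Real.toNNReal_pos.mpr hqε).ne'
    rw [h1] at hmeas
    calc ENNReal.ofReal (q - ε) * volume S
        ≤ ENNReal.ofReal (q - ε) * ((ENNReal.ofReal (q - ε))⁻¹ * μH[1] (gam f '' S)) := by
          gcongr
      _ = μH[1] (gam f '' S) := by
          rw [← mul_assoc, ENNReal.mul_inv_cancel (ENNReal.ofReal_pos.mpr hqε).ne'
            ENNReal.ofReal_ne_top, one_mul]
  -- the upper bound of the integral
  have hae := hA.norm_fderiv_sub_le (μ := volume) hS (fderiv ℝ f)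
    (fun x hx => (hd x hx).hasFDerivAt.hasFDerivWithinAt)
  have hup : ∫⁻ t in S, ENNReal.ofReal (Real.sqrt (1 + (deriv f t) ^ 2)) ≤
      ENNReal.ofReal (q + ε) * volume S := by
    rw [← setLIntegral_const]
    refine lintegral_mono_ae ?_
    filter_upwards [hae] with x hx
    refine ENNReal.ofReal_le_ofReal (sqrt_lip ?_)
    have h1 : deriv f x - s = (fderiv ℝ f x - A) 1 := by
      simp [hs]
    rw [h1]
    have h2 := (fderiv ℝ f x - A).le_opNorm 1
    rw [norm_one, mul_one] at h2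
    have h3 : ‖fderiv ℝ f x - A‖ ≤ ε := by exact_mod_cast hx
    exact (Real.norm_eq_abs _ ▸ h2).trans h3
  refine hup.trans ?_
  have h2 : q + ε = (q - ε) + 2 * ε := by ring
  rw [h2, ENNReal.ofReal_add hqε.le (by positivity), add_mul]
  gcongr

/-- the estimate on the set of differentiability -/
theorem main {f : ℝ → ℝ} (hf : Continuous f) {S : Set ℝ} {ε : ℝ≥0} (hε0 : 0 < ε) (hε1 : ε < 1)
    (hS : MeasurableSet S) (hd : ∀ x ∈ S, DifferentiableAt ℝ f x) :
    ∫⁻ t in S, ENNReal.ofReal (Real.sqrt (1 + (deriv f t) ^ 2)) ≤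
      μH[1] (gam f '' S) + ENNReal.ofReal (2 * ε) * volume S := by
  obtain ⟨t, A, hdisj, hmeas, hcov, happ, -⟩ :=
    exists_partition_approximatesLinearOn_of_hasFDerivWithinAt f S (fderiv ℝ f)
      (fun x hx => (hd x hx).hasFDerivAt.hasFDerivWithinAt) (fun _ => ε) (fun _ => hε0.ne')
  have hSt : ⋃ n, S ∩ t n = S := by
    rw [← Set.inter_iUnion]
    exact Set.inter_eq_left.mpr hcov
  have hdisj' : Pairwise (Function.onFun Disjoint fun n => S ∩ t n) := fun i j hij =>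
    (hdisj hij).mono Set.inter_subset_right Set.inter_subset_right
  have hm : ∀ n, MeasurableSet (S ∩ t n) := fun n => hS.inter (hmeas n)
  have himg : gam f '' S = ⋃ n, gam f '' (S ∩ t n) := by
    rw [← Set.image_iUnion, hSt]
  have hdisj2 : Pairwise (Function.onFun Disjoint fun n => gam f '' (S ∩ t n)) := fun i j hij =>
    (Set.disjoint_image_iff (gam_inj f)).mpr (hdisj' hij)
  calc ∫⁻ t in S, ENNReal.ofReal (Real.sqrt (1 + (deriv f t) ^ 2))
      = ∑' n, ∫⁻ t in S ∩ t n, ENNReal.ofReal (Real.sqrt (1 + (deriv f t) ^ 2)) := by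
        conv_lhs => rw [← hSt]
        exact lintegral_iUnion hm hdisj' _
    _ ≤ ∑' n, (μH[1] (gam f '' (S ∩ t n)) + ENNReal.ofReal (2 * ε) * volume (S ∩ t n)) :=
        ENNReal.tsum_le_tsum fun n => piece hε1 (hm n) (happ n) fun x hx => hd x hx.1
    _ = μH[1] (gam f '' S) + ENNReal.ofReal (2 * ε) * volume S := by
        rw [ENNReal.tsum_add, ENNReal.tsum_mul_left, himg,
          measure_iUnion hdisj2 (fun n => meas_image hf (hm n)), ← measure_iUnion hdisj' hm, hSt]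

/-- finite measure -/
theorem fin_case {f : ℝ → ℝ} {C : ℝ≥0} (hf : LipschitzWith C f) {S : Set ℝ}
    (hS : MeasurableSet S) (hfin : volume S ≠ ⊤) :
    ∫⁻ t in S, ENNReal.ofReal (Real.sqrt (1 + (deriv f t) ^ 2)) ≤ μH[1] (gam f '' S) := by
  set S' := S ∩ {x | DifferentiableAt ℝ f x} with hS'
  have hS'm : MeasurableSet S' := hS.inter (measurableSet_of_differentiableAt ℝ f)
  have hSS' : S =ᵐ[volume] S' := by
    have h1 := hf.ae_differentiableAt_real
    filter_upwards [h1] with x hx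
    refine propext ?_
    exact ⟨fun h => ⟨h, hx⟩, fun h => h.1⟩
  have hle : μH[1] (gam f '' S') ≤ μH[1] (gam f '' S) :=
    measure_mono (Set.image_mono Set.inter_subset_left)
  rw [setLIntegral_congr hSS']
  refine le_trans ?_ hle
  have hfin' : volume S' ≠ ⊤ := ne_top_of_le_ne_top hfin (measure_mono Set.inter_subset_left)
  refine ENNReal.le_of_forall_pos_le_add fun δ hδ _ => ?_
  -- choose `ε`
  obtain ⟨ε, hε0, hε1, hεδ⟩ : ∃ ε : ℝ≥0, 0 < ε ∧ ε < 1 ∧
      ENNReal.ofReal (2 * ε) * volume S' ≤ δ := by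
    obtain ⟨M, hM0, h1⟩ : ∃ M : ℝ, 0 ≤ M ∧ volume S' = ENNReal.ofReal M :=
      ⟨(volume S').toReal, ENNReal.toReal_nonneg, (ENNReal.ofReal_toReal hfin').symm⟩
    have hδ' : (0 : ℝ) < δ := by exact_mod_cast hδ
    obtain ⟨e, he⟩ : ∃ e : ℝ, e = min (1 / 2) ((δ : ℝ) / (2 * (M + 1))) := ⟨_, rfl⟩
    have he0 : 0 < e := by rw [he]; positivity
    have he1 : e < 1 := by rw [he]; exact (min_le_left _ _).trans_lt (by norm_num)
    have he2 : e ≤ δ / (2 * (M + 1)) := by rw [he]; exact min_le_right _ _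
    clear he
    lift e to ℝ≥0 using he0.le
    refine ⟨e, by exact_mod_cast he0, by exact_mod_cast he1, ?_⟩
    rw [h1, ← ENNReal.ofReal_mul (by positivity), ← ENNReal.ofReal_coe_nnreal]
    refine ENNReal.ofReal_le_ofReal ?_
    calc 2 * (e : ℝ) * M ≤ 2 * (δ / (2 * (M + 1))) * (M + 1) := by gcongr; linarith
      _ = δ := by field_simp
  exact (main hf.continuous hε0 hε1 hS'm fun x hx => hx.2).trans (by gcongr)

end PfGraph

open PfGraph in
theorem prf_Graph : S_Graph := by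
  intro f C T hf hT
  have hcov : ∀ n : ℕ, MeasurableSet (T ∩ Icc (-(n : ℝ)) n) := fun n => hT.inter measurableSet_Icc
  have hmono : Monotone fun n : ℕ => T ∩ Icc (-(n : ℝ)) n := by
    intro m n hmn
    have : (m : ℝ) ≤ n := by exact_mod_cast hmn
    exact Set.inter_subset_inter_right _ (Icc_subset_Icc (by linarith) this)
  have hun : ⋃ n : ℕ, T ∩ Icc (-(n : ℝ)) n = T := by
    rw [← Set.inter_iUnion]
    refine Set.inter_eq_left.mpr fun x _ => ?_
    obtain ⟨n, hn⟩ := exists_nat_ge |x|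
    exact Set.mem_iUnion.mpr ⟨n, abs_le.mp hn⟩
  have h1 : ∫⁻ t in T, ENNReal.ofReal (Real.sqrt (1 + (deriv f t) ^ 2)) =
      ⨆ n : ℕ, ∫⁻ t in T ∩ Icc (-(n : ℝ)) n, ENNReal.ofReal (Real.sqrt (1 + (deriv f t) ^ 2)) := by
    conv_lhs => rw [← hun]
    exact setLIntegral_iUnion_of_directed _ (hmono.directed_le)
  rw [h1]
  refine iSup_le fun n => ?_
  refine (fin_case hf (hcov n) ?_).trans (measure_mono (Set.image_mono Set.inter_subset_left))
  refine ne_top_of_le_ne_top ?_ (measure_mono (Set.inter_subset_right))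
  rw [Real.volume_Icc]
  exact ENNReal.ofReal_ne_top

end Pool.Agent.Robin

end

section

set_option autoImplicit false

/-!
# Isoperimetric inequality
-/

open MeasureTheory Set Metric
open scoped ENNReal NNReal Pointwise RealInnerProductSpace

namespace Pool.Agent.Robin

theorem prf_Iso (h12 : S_C12) (hb : S_BM) : S_Iso := by
  intro K hK hc hl
  have h1 := h12 K 1 hK hc hl zero_le_one
  have h2 := hb K 1 hK hc.nonempty zero_le_one
  have hA : 0 ≤ area K := ENNReal.toReal_nonneg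
  have hP : 0 ≤ per K := ENNReal.toReal_nonneg
  have hfin : volume K ≠ ⊤ := hK.measure_lt_top.ne
  have h3 : area (cthickening 1 K) ≤ area K + (1 * per K + Real.pi * 1 ^ 2) := by
    unfold area
    have h0 : 0 ≤ 1 * per K + Real.pi * 1 ^ 2 := by positivity
    calc (volume (cthickening 1 K)).toReal
        ≤ (volume K + ENNReal.ofReal (1 * per K + Real.pi * 1 ^ 2)).toReal :=
          ENNReal.toReal_mono (ENNReal.add_ne_top.2 ⟨hfin, ENNReal.ofReal_ne_top⟩) h1
      _ = _ := by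
          rw [ENNReal.toReal_add hfin ENNReal.ofReal_ne_top, ENNReal.toReal_ofReal h0]
  have hpi := Real.pi_pos
  have s1 := Real.sq_sqrt hA
  have s2 := Real.sq_sqrt hpi.le
  have n1 := Real.sqrt_nonneg (area K)
  have n2 := Real.sqrt_nonneg Real.pi
  have h4 : (Real.sqrt (area K) + Real.sqrt Real.pi * 1) ^ 2 ≤ area (cthickening 1 K) := by
    have h5 : 0 ≤ Real.sqrt (area K) + Real.sqrt Real.pi * 1 := by positivity
    calc (Real.sqrt (area K) + Real.sqrt Real.pi * 1) ^ 2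
        ≤ (Real.sqrt (area (cthickening 1 K))) ^ 2 := pow_le_pow_left₀ h5 h2 2
      _ = area (cthickening 1 K) := Real.sq_sqrt ENNReal.toReal_nonneg
  have h6 : 2 * (Real.sqrt (area K) * Real.sqrt Real.pi) ≤ per K := by nlinarith
  calc 4 * Real.pi * area K = (2 * (Real.sqrt (area K) * Real.sqrt Real.pi)) ^ 2 := by
        rw [mul_pow, mul_pow, s1, s2]
        ring
    _ ≤ (per K) ^ 2 := pow_le_pow_left₀ (by positivity) h6 2

namespace IsoAux

/-- The reflection `(x, y) ↦ (x, -y)`. -/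
noncomputable def refl2 : E2 ≃ₗᵢ[ℝ] E2 :=
  LinearIsometryEquiv.piLpCongrRight 2
    (fun i : Fin 2 => if i = 0 then LinearIsometryEquiv.refl ℝ ℝ else LinearIsometryEquiv.neg ℝ)

theorem refl2_zero (v : E2) : (refl2 v) 0 = v 0 := by
  simp [refl2]

theorem refl2_one (v : E2) : (refl2 v) 1 = - v 1 := by
  simp [refl2]

theorem chart_closure (h1 : S_B1) (h1f : S_B1f) {G : Set E2} (hG : Admissible G) {p : E2}
    (hp : p ∈ frontier G) : ∃ (L : E2 ≃ₗᵢ[ℝ] E2) (f : ℝ → ℝ) (C : ℝ≥0) (a b : ℝ),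
      Chart (closure G) p L f C a b := by
  obtain ⟨hcl, hch⟩ := h1 G hG
  obtain ⟨L, f, C, a, b, hc⟩ := hch p (by rwa [frontier_compl])
  refine ⟨L.trans refl2, fun t => - f t, C, a, b, ?_⟩
  have ex : ∀ x, cx (L.trans refl2) p x = cx L p x := fun x => by
    unfold cx
    rw [LinearIsometryEquiv.trans_apply, refl2_zero]
  have ey : ∀ x, cy (L.trans refl2) p x = - cy L p x := fun x => by
    unfold cy
    rw [LinearIsometryEquiv.trans_apply, refl2_one]
  refine ⟨hc.a_pos, hc.b_pos, hc.lip.neg, by simp [hc.f0], fun t ht => ?_, fun x hx hy => ?_⟩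
  · rw [abs_neg]
    exact hc.f_lt t ht
  · rw [ex] at hx
    rw [ey, abs_neg] at hy
    rw [ex, ey, neg_le_neg_iff, closure_eq_self_union_frontier, ← frontier_compl, mem_union,
      h1f Gᶜ p L f C a b hcl hc x hx hy]
    have h3 := hc.mem x hx hy
    rw [mem_compl_iff] at h3
    constructor
    · rintro (h4 | h4)
      · by_contra h5
        exact (h3.2 (not_le.1 h5).le) h4
      · exact h4.le
    · intro h4
      by_cases h5 : x ∈ G
      · exact Or.inl h5
      · exact Or.inr (le_antisymm h4 (h3.1 h5))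

theorem frontier_closure_eq (h1 : S_B1) (h1f : S_B1f) {G : Set E2} (hG : Admissible G) :
    frontier (closure G) = frontier G := by
  refine subset_antisymm frontier_closure_subset fun p hp => ?_
  obtain ⟨L, f, C, a, b, hc⟩ := chart_closure h1 h1f hG hp
  have e0 : cx L p p = 0 := by simp [cx]
  have e1 : cy L p p = 0 := by simp [cy]
  rw [h1f (closure G) p L f C a b isClosed_closure hc p (by rw [e0, abs_zero]; exact hc.a_pos)
    (by rw [e1, abs_zero]; exact hc.b_pos), e0, e1, hc.f0]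

end IsoAux

open IsoAux in
theorem prf_IsoG (h1 : S_B1) (h1f : S_B1f) (h2 : S_B2) (hi : S_Iso) : S_IsoG := by
  intro G hG _
  have hK : IsCompact (closure G) := hG.isBounded.isCompact_closure
  have hfr := frontier_closure_eq h1 h1f hG
  have hl : LipClosed (closure G) :=
    ⟨isClosed_closure, fun p hp => chart_closure h1 h1f hG (hfr ▸ hp)⟩
  have hcf : IsCompact (frontier G) := hK.of_isClosed_subset isClosed_frontier
    frontier_subset_closure
  have h3 := (h2 Gᶜ (h1 G hG) (by rwa [frontier_compl])).2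
  rw [frontier_compl] at h3
  have h4 := hi (closure G) hK hG.isConnected.closure hl
  have hper : per (closure G) = per G := by
    unfold per
    rw [hfr]
  have harea : area (closure G) = area G := by
    unfold area
    congr 1
    apply le_antisymm
    · rw [closure_eq_self_union_frontier]
      calc volume (G ∪ frontier G) ≤ volume G + volume (frontier G) := measure_union_le _ _
        _ = volume G := by rw [h3, add_zero]
    · exact measure_mono subset_closure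
  rwa [hper, harea] at h4

end Pool.Agent.Robin

end

section

set_option autoImplicit false

open MeasureTheory Set Metric
open scoped ENNReal NNReal Pointwise RealInnerProductSpace Topology

namespace Pool.Agent.Robin

namespace ItemTrans

lemma inner_two (x y : E2) : ⟪x, y⟫ = x 0 * y 0 + x 1 * y 1 := by
  rw [PiLp.inner_apply, Fin.sum_univ_two]
  simp [mul_comm]

lemma norm_two (x : E2) : ‖x‖ ^ 2 = (x 0) ^ 2 + (x 1) ^ 2 := by
  rw [EuclideanSpace.norm_sq_eq, Fin.sum_univ_two]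
  simp

lemma rot_zero (v : E2) : (rot v) 0 = -(v 1) := by
  simp [rot]

lemma rot_one (v : E2) : (rot v) 1 = v 0 := by
  simp [rot]

/-- the transversality property at the point `q` -/
def TrAt (K : Set E2) (ν q : E2) : Prop :=
  ∃ (e : E2) (δ : ℝ), (e = rot ν ∨ e = - rot ν) ∧ 0 < δ ∧
    ∀ τ : ℝ, 0 < τ → τ < δ → (q + τ • e ∈ K ∧ q - τ • e ∉ K) ∧ q + τ • e ∉ frontier K

/-- the local analysis at one point -/
lemma local_tr (h1 : S_B1f) (K : Set E2) (p : E2) (L : E2 ≃ₗᵢ[ℝ] E2) (f : ℝ → ℝ) (C : ℝ≥0)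
    (a b : ℝ) (hK : IsClosed K) (hch : Chart K p L f C a b) (ν e q : E2)
    (he : e = rot ν ∨ e = - rot ν) (hqa : |cx L p q| < a) (hqb : |cy L p q| < b)
    (hqf : cy L p q = f (cx L p q)) (d : ℝ) (hd : HasDerivAt f d (cx L p q))
    (hs : 0 < (L e) 1 - d * (L e) 0) : TrAt K ν q := by
  set t : ℝ := cx L p q with ht
  have hcx : ∀ τ : ℝ, cx L p (q + τ • e) = t + τ * (L e) 0 := by
    intro τ
    rw [ht]
    unfold cx
    have : q + τ • e - p = (q - p) + τ • e := by abel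
    rw [this, map_add, map_smul]
    simp
  have hcy : ∀ τ : ℝ, cy L p (q + τ • e) = f t + τ * (L e) 1 := by
    intro τ
    rw [← hqf]
    unfold cy
    have : q + τ • e - p = (q - p) + τ • e := by abel
    rw [this, map_add, map_smul]
    simp
  -- the function F
  have hF : HasDerivAt (fun τ : ℝ => (f t + τ * (L e) 1) - f (t + τ * (L e) 0))
      ((L e) 1 - d * (L e) 0) 0 := by
    have hin : HasDerivAt (fun τ : ℝ => t + τ * (L e) 0) ((L e) 0) 0 := by
      simpa using ((hasDerivAt_id (0 : ℝ)).mul_const ((L e) 0)).const_add t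
    have hcomp : HasDerivAt (fun τ : ℝ => f (t + τ * (L e) 0)) (d * (L e) 0) 0 := by
      have hd' : HasDerivAt f d (t + (0 : ℝ) * (L e) 0) := by simpa using hd
      exact HasDerivAt.comp (0 : ℝ) hd' hin
    have hlin : HasDerivAt (fun τ : ℝ => f t + τ * (L e) 1) ((L e) 1) 0 := by
      simpa using ((hasDerivAt_id (0 : ℝ)).mul_const ((L e) 1)).const_add (f t)
    exact hlin.sub hcomp
  rw [hasDerivAt_iff_tendsto_slope] at hF
  have hpos : ∀ᶠ τ in 𝓝[≠] (0 : ℝ),
      0 < slope (fun τ : ℝ => (f t + τ * (L e) 1) - f (t + τ * (L e) 0)) 0 τ :=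
    hF.eventually (lt_mem_nhds hs)
  have hbox1 : ∀ᶠ τ in 𝓝 (0 : ℝ), |t + τ * (L e) 0| < a := by
    have hc : Continuous (fun τ : ℝ => |t + τ * (L e) 0|) := by fun_prop
    apply hc.continuousAt.eventually_lt continuousAt_const
    simpa using hqa
  have hbox2 : ∀ᶠ τ in 𝓝 (0 : ℝ), |f t + τ * (L e) 1| < b := by
    have hc : Continuous (fun τ : ℝ => |f t + τ * (L e) 1|) := by fun_prop
    apply hc.continuousAt.eventually_lt continuousAt_const
    rw [hqf] at hqb
    simpa using hqb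
  rw [eventually_nhdsWithin_iff] at hpos
  obtain ⟨δ, hδ, hall⟩ := Metric.eventually_nhds_iff.1 (hpos.and (hbox1.and hbox2))
  have hval : ∀ τ : ℝ, |τ| < δ → τ ≠ 0 →
      0 < ((f t + τ * (L e) 1) - f (t + τ * (L e) 0)) / τ ∧
      |t + τ * (L e) 0| < a ∧ |f t + τ * (L e) 1| < b := by
    intro τ h1 h2
    have h3 := hall (y := τ) (by simpa using h1)
    refine ⟨?_, h3.2⟩
    have h4 := h3.1 h2
    rw [slope_def_field] at h4
    simpa using h4
  refine ⟨e, δ, he, hδ, ?_⟩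
  intro τ h0 hτδ
  have hp := hval τ (by rwa [abs_of_pos h0]) h0.ne'
  have hm := hval (-τ) (by rwa [abs_neg, abs_of_pos h0]) (by linarith [h0] : -τ ≠ 0)
  have hp1 : 0 < (f t + τ * (L e) 1) - f (t + τ * (L e) 0) := by
    have := mul_pos hp.1 h0
    rwa [div_mul_cancel₀ _ h0.ne'] at this
  have hm1 : (f t + (-τ) * (L e) 1) - f (t + (-τ) * (L e) 0) < 0 := by
    have := mul_neg_of_pos_of_neg hm.1 (by linarith : -τ < 0)
    rwa [div_mul_cancel₀ _ (by linarith : -τ ≠ 0)] at this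
  have hbp := hch.mem (q + τ • e) (by rw [hcx]; exact hp.2.1) (by rw [hcy]; exact hp.2.2)
  have hsub : q - τ • e = q + (-τ) • e := by rw [neg_smul, sub_eq_add_neg]
  have hbm := hch.mem (q + (-τ) • e) (by rw [hcx]; exact hm.2.1) (by rw [hcy]; exact hm.2.2)
  refine ⟨⟨?_, ?_⟩, ?_⟩
  · rw [hbp, hcx, hcy]
    linarith
  · rw [hsub, hbm, hcx, hcy]
    intro h
    linarith
  · intro h
    have h2 := (h1 K p L f C a b hK hch (q + τ • e) (by rw [hcx]; exact hp.2.1)
      (by rw [hcy]; exact hp.2.2)).1 h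
    rw [hcx, hcy] at h2
    linarith

/-- one chart -/
lemma chart_tr (h1 : S_B1f) (K : Set E2) (p : E2) (L : E2 ≃ₗᵢ[ℝ] E2) (f : ℝ → ℝ) (C : ℝ≥0)
    (a b : ℝ) (hK : IsClosed K) (hch : Chart K p L f C a b) (ν : E2) (hν : ‖ν‖ = 1) :
    ∀ᵐ c : ℝ, ∀ q ∈ frontier K ∩ line ν c, |cx L p q| < a → |cy L p q| < b → TrAt K ν q := by
  set m0 : ℝ := (L ν) 0 with hm0
  set m1 : ℝ := (L ν) 1 with hm1
  set g : ℝ → ℝ := fun t => ⟪p, ν⟫ + (m0 * t + m1 * f t) with hg
  set Z1 : Set ℝ := {t | ¬ DifferentiableAt ℝ f t} with hZ1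
  set Z2 : Set ℝ := {t | HasDerivAt g 0 t} with hZ2
  have hglip : ∃ C' : ℝ≥0, LipschitzWith C' g := by
    have hl1 : LipschitzWith ‖m0‖₊ (fun t : ℝ => m0 * t) := by
      apply LipschitzWith.of_dist_le_mul
      intro x y
      rw [Real.dist_eq, Real.dist_eq, ← mul_sub, abs_mul]
      rfl
    have hl2 : LipschitzWith (‖m1‖₊ * C) (fun t : ℝ => m1 * f t) := by
      apply LipschitzWith.of_dist_le_mul
      intro x y
      rw [Real.dist_eq, ← mul_sub, abs_mul]
      have := hch.lip.dist_le_mul x y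
      rw [Real.dist_eq] at this
      calc |m1| * |f x - f y| ≤ |m1| * (C * dist x y) :=
            mul_le_mul_of_nonneg_left this (abs_nonneg _)
        _ = _ := by
            rw [NNReal.coe_mul]
            simp [mul_assoc]
    refine ⟨0 + (‖m0‖₊ + ‖m1‖₊ * C), ?_⟩
    exact (LipschitzWith.const _).add (hl1.add hl2)
  obtain ⟨C', hC'⟩ := hglip
  have hv1 : volume (g '' Z1) = 0 := by
    have hz : volume Z1 = 0 := by
      have := hch.lip.ae_differentiableAt_real
      exact this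
    rw [← hausdorffMeasure_real] at hz ⊢
    have hle := hC'.hausdorffMeasure_image_le (zero_le_one : (0 : ℝ) ≤ 1) Z1
    rw [hz, mul_zero] at hle
    exact le_antisymm hle bot_le
  have hv2 : volume (g '' Z2) = 0 := by
    apply MeasureTheory.addHaar_image_eq_zero_of_det_fderivWithin_eq_zero (f' := fun _ => 0) volume
    · intro x hx
      have h : HasDerivAt g 0 x := hx
      have h2 := h.hasFDerivAt.hasFDerivWithinAt (s := Z2)
      simpa using h2
    · intro x _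
      simp
  have hae : ∀ᵐ c : ℝ, c ∉ g '' Z1 ∧ c ∉ g '' Z2 := by
    have e1 : ∀ᵐ c : ℝ, c ∉ g '' Z1 := measure_eq_zero_iff_ae_notMem.1 hv1
    have e2 : ∀ᵐ c : ℝ, c ∉ g '' Z2 := measure_eq_zero_iff_ae_notMem.1 hv2
    exact e1.and e2
  filter_upwards [hae] with c hc q hq hqa hqb
  have hqf := (h1 K p L f C a b hK hch q hqa hqb).1 hq.1
  have hgt : g (cx L p q) = c := by
    have hl : ⟪q, ν⟫ = c := hq.2
    rw [hg]
    simp only
    have h2 : ⟪q - p, ν⟫ = m0 * cx L p q + m1 * f (cx L p q) := by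
      rw [← LinearIsometryEquiv.inner_map_map L, inner_two, ← hqf]
      unfold cx cy
      ring
    rw [← h2, inner_sub_left, hl]
    ring
  have hdiff : DifferentiableAt ℝ f (cx L p q) := by
    by_contra hcon
    exact hc.1 ⟨_, hcon, hgt⟩
  set d : ℝ := deriv f (cx L p q) with hd
  have hderiv : HasDerivAt f d (cx L p q) := hdiff.hasDerivAt
  have hgd : HasDerivAt g (m0 + m1 * d) (cx L p q) := by
    rw [hg]
    have e1 : HasDerivAt (fun t : ℝ => m0 * t) m0 (cx L p q) := by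
      simpa using (hasDerivAt_id (cx L p q)).const_mul m0
    have e2 : HasDerivAt (fun t : ℝ => m1 * f t) (m1 * d) (cx L p q) := hderiv.const_mul m1
    exact (e1.add e2).const_add _
  have hne : m0 + m1 * d ≠ 0 := by
    intro h0
    rw [h0] at hgd
    exact hc.2 ⟨_, hgd, hgt⟩
  -- the direction
  set e : E2 := rot ν with he
  have horth : (L e) 0 * m0 + (L e) 1 * m1 = 0 := by
    have h2 : ⟪L e, L ν⟫ = 0 := by
      rw [LinearIsometryEquiv.inner_map_map, inner_two, he, rot_zero, rot_one]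
      ring
    rw [inner_two] at h2
    exact h2
  have hnorm : ((L e) 0) ^ 2 + ((L e) 1) ^ 2 = 1 := by
    have h2 := norm_two (L e)
    rw [LinearIsometryEquiv.norm_map, norm_two e, he, rot_zero, rot_one] at h2
    have h3 := norm_two ν
    rw [hν] at h3
    nlinarith [h2, h3]
  have hs0 : (L e) 1 - d * (L e) 0 ≠ 0 := by
    intro h0
    have h2 : (L e) 1 = d * (L e) 0 := by linarith
    rw [h2] at horth hnorm
    have h3 : (L e) 0 * (m0 + m1 * d) = 0 := by linarith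
    rcases mul_eq_zero.1 h3 with h4 | h4
    · rw [h4] at hnorm
      norm_num at hnorm
    · exact hne h4
  rcases lt_or_gt_of_ne hs0 with hlt | hgt'
  · refine local_tr h1 K p L f C a b hK hch ν (-e) q (Or.inr rfl) hqa hqb hqf d hderiv ?_
    rw [map_neg]
    simp only [PiLp.neg_apply]
    linarith
  · exact local_tr h1 K p L f C a b hK hch ν e q (Or.inl rfl) hqa hqb hqf d hderiv hgt'

lemma decomp (ν x : E2) (hν : ‖ν‖ = 1) (hx : ⟪x, ν⟫ = 0) : x = ⟪x, rot ν⟫ • rot ν := by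
  have h3 := norm_two ν
  rw [hν] at h3
  rw [inner_two] at hx
  ext i
  fin_cases i
  · change x 0 = (⟪x, rot ν⟫ • rot ν) 0
    rw [PiLp.smul_apply, inner_two, rot_zero, rot_one, smul_eq_mul]
    linear_combination (x 0) * h3 + (ν 0) * hx
  · change x 1 = (⟪x, rot ν⟫ • rot ν) 1
    rw [PiLp.smul_apply, inner_two, rot_zero, rot_one, smul_eq_mul]
    linear_combination (x 1) * h3 + (ν 1) * hx

end ItemTrans

open ItemTrans in
theorem prf_Trans (h1 : S_B1f) : S_Trans := by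
  intro K ν hK hKc hν
  obtain ⟨hKcl, hch⟩ := hK
  choose! L f C a b hchart using hch
  set box : E2 → Set E2 := fun p => {x | |cx (L p) p x| < a p ∧ |cy (L p) p x| < b p} with hbox
  have hopen : ∀ p, IsOpen (box p) := by
    intro p
    have hc0 : Continuous (fun x => cx (L p) p x) := by
      unfold cx
      exact (PiLp.continuous_apply 2 _ 0).comp
        ((L p).continuous.comp (continuous_id.sub continuous_const))
    have hc1 : Continuous (fun x => cy (L p) p x) := by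
      unfold cy
      exact (PiLp.continuous_apply 2 _ 1).comp
        ((L p).continuous.comp (continuous_id.sub continuous_const))
    exact (isOpen_lt hc0.abs continuous_const).inter (isOpen_lt hc1.abs continuous_const)
  have hmem : ∀ p ∈ frontier K, p ∈ box p := by
    intro p hp
    have h := hchart p hp
    refine ⟨?_, ?_⟩
    · simpa [cx] using h.a_pos
    · simpa [cy] using h.b_pos
  obtain ⟨t, ht, hcov⟩ := hKc.elim_nhds_subcover box (fun p hp => (hopen p).mem_nhds (hmem p hp))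
  have hae : ∀ᵐ c : ℝ, ∀ p ∈ t, ∀ q ∈ frontier K ∩ line ν c, |cx (L p) p q| < a p →
      |cy (L p) p q| < b p → TrAt K ν q := by
    have hball : ∀ᵐ c : ℝ, ∀ p ∈ (t : Set E2), ∀ q ∈ frontier K ∩ line ν c,
        |cx (L p) p q| < a p → |cy (L p) p q| < b p → TrAt K ν q := by
      rw [ae_ball_iff t.countable_toSet]
      intro p hp
      exact chart_tr h1 K p (L p) (f p) (C p) (a p) (b p) hKcl (hchart p (ht p hp)) ν hν
    exact hball
  filter_upwards [hae] with c hc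
  have hall : ∀ q ∈ frontier K ∩ line ν c, TrAt K ν q := by
    intro q hq
    have := hcov hq.1
    simp only [Set.mem_iUnion, exists_prop] at this
    obtain ⟨p, hp, hqp⟩ := this
    exact hc p hp q hq hqp.1 hqp.2
  constructor
  · -- finiteness
    have hclosed : IsClosed (line ν c) := by
      have : Continuous (fun x : E2 => ⟪x, ν⟫) := continuous_id.inner continuous_const
      exact isClosed_eq this continuous_const
    have hcomp : IsCompact (frontier K ∩ line ν c) := hKc.inter_right hclosed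
    choose! e δ he hδ hTr using hall
    obtain ⟨s, hs, hcov2⟩ := hcomp.elim_nhds_subcover (fun q => ball q (δ q))
      (fun q hq => ball_mem_nhds q (hδ q hq))
    refine s.finite_toSet.subset ?_
    intro q' hq'
    have := hcov2 hq'
    simp only [Set.mem_iUnion, exists_prop] at this
    obtain ⟨q, hq, hball⟩ := this
    have hqm := hs q hq
    by_cases heq : q' = q
    · rw [heq]
      exact hq
    exfalso
    have horth : ⟪q' - q, ν⟫ = 0 := by
      have e1 : ⟪q', ν⟫ = c := hq'.2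
      have e2 : ⟪q, ν⟫ = c := hqm.2
      rw [inner_sub_left, e1, e2, sub_self]
    have hdec := decomp ν (q' - q) hν horth
    -- in terms of e
    obtain ⟨τ, hτ⟩ : ∃ τ : ℝ, q' - q = τ • e q := by
      rcases he q hqm with h | h
      · exact ⟨_, by rw [h]; exact hdec⟩
      · refine ⟨-⟪q' - q, rot ν⟫, ?_⟩
        rw [h, smul_neg, neg_smul, neg_neg]
        exact hdec
    have hen : ‖e q‖ = 1 := by
      have hr : ‖rot ν‖ = 1 := by
        have h2 := norm_two (rot ν)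
        rw [rot_zero, rot_one] at h2
        have h3 := norm_two ν
        rw [hν] at h3
        have h4 : ‖rot ν‖ ^ 2 = 1 := by nlinarith [h2, h3]
        have h5 : 0 ≤ ‖rot ν‖ := norm_nonneg _
        nlinarith [h4, h5]
      rcases he q hqm with h | h
      · rw [h, hr]
      · rw [h, norm_neg, hr]
    have hτn : |τ| < δ q := by
      have h2 : dist q' q < δ q := hball
      rw [dist_eq_norm, hτ, norm_smul, hen, mul_one] at h2
      exact h2
    have hτ0 : τ ≠ 0 := by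
      intro h0
      rw [h0, zero_smul] at hτ
      exact heq (sub_eq_zero.1 hτ)
    have hq'e : q' = q + τ • e q := by
      rw [← hτ]
      abel
    rcases lt_or_gt_of_ne hτ0 with hneg | hpos
    · have h2 := (hTr q hqm (-τ) (by linarith) (by rwa [abs_of_neg hneg] at hτn)).1.2
      have h3 : q - (-τ) • e q = q' := by
        rw [hq'e, neg_smul, sub_neg_eq_add]
      rw [h3] at h2
      exact h2 (hKcl.frontier_subset hq'.1)
    · have h2 := (hTr q hqm τ hpos (by rwa [abs_of_pos hpos] at hτn)).2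
      rw [← hq'e] at h2
      exact h2 hq'.1
  · intro q hq
    obtain ⟨e, δ, he, hδ, hT⟩ := hall q hq
    exact ⟨e, δ, he, hδ, fun τ h0 h2 => (hT τ h0 h2).1⟩

end Pool.Agent.Robin

end

section

/-!
# MP_4b551e_an: one dimensional module, macroscopic estimate, final comparison (helper35)
-/

open MeasureTheory Set Metric
open scoped ENNReal NNReal Pointwise RealInnerProductSpace

namespace Pool.Agent.Robin

/-! ### Layers -/

/-- Outer layer at level `k`: the Riccati solution on `[ξ₁, R]` with `χ(ξ₁) = 0`, `χ(R) = 1`. -/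
structure OL (k R ξ₁ : ℝ) (χ : ℝ → ℝ) : Prop where
  pos : 0 < ξ₁
  lt : ξ₁ < R
  deriv : ∀ ξ ∈ Icc ξ₁ R, HasDerivWithinAt χ (k ^ 2 - χ ξ ^ 2 - χ ξ / ξ) (Icc ξ₁ R) ξ
  left : χ ξ₁ = 0
  right : χ R = 1
  mono : MonotoneOn χ (Icc ξ₁ R)

/-- Inner layer at level `k`: the Riccati solution on `[r, ξ₂]` with `χ(r) = -1`, `χ(ξ₂) = 0`. -/
structure IL (k r ξ₂ : ℝ) (χ : ℝ → ℝ) : Prop where
  pos : 0 < r
  lt : r < ξ₂
  deriv : ∀ ξ ∈ Icc r ξ₂, HasDerivWithinAt χ (k ^ 2 - χ ξ ^ 2 - χ ξ / ξ) (Icc r ξ₂) ξ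
  left : χ r = -1
  right : χ ξ₂ = 0
  mono : MonotoneOn χ (Icc r ξ₂)

/-- `w` is the profile of the outer layer: `w(s) = y(R - s)`, `y = exp ∫ χ`, `y(ξ₁) = 1`. -/
structure OProf (k R ξ₁ : ℝ) (χ : ℝ → ℝ) (w : Profile) : Prop where
  ol : OL k R ξ₁ χ
  sig : w.σ = R - ξ₁
  val : ∀ s ∈ Icc (0 : ℝ) (R - ξ₁), w.w s = Real.exp (∫ ξ in ξ₁..(R - s), χ ξ)
  dval : ∀ s ∈ Icc (0 : ℝ) (R - ξ₁), w.dw s = - (χ (R - s) * w.w s)

/-- `v` is the profile of the inner layer: `v(s) = y(r + s)`, `y(ξ₂) = 1`. -/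
structure IProf (k r ξ₂ : ℝ) (χ : ℝ → ℝ) (v : Profile) : Prop where
  il : IL k r ξ₂ χ
  sig : v.σ = ξ₂ - r
  val : ∀ s ∈ Icc (0 : ℝ) (ξ₂ - r), v.w s = Real.exp (- ∫ ξ in (r + s)..ξ₂, χ ξ)
  dval : ∀ s ∈ Icc (0 : ℝ) (ξ₂ - r), v.dw s = χ (r + s) * v.w s

def S_G1 : Prop := ∀ (k R ξ₁ : ℝ) (χ : ℝ → ℝ), OL k R ξ₁ χ → ∃ w : Profile, OProf k R ξ₁ χ w

def S_G2 : Prop := ∀ (k r ξ₂ : ℝ) (χ : ℝ → ℝ), IL k r ξ₂ χ → ∃ v : Profile, IProf k r ξ₂ χ v

/-- Identities for the outer profile. -/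
def S_G3 : Prop := ∀ (k R ξ₁ : ℝ) (χ : ℝ → ℝ) (w : Profile), 1 ≤ k → 1 ≤ ξ₁ →
  OProf k R ξ₁ χ w →
  R * w.q k + w.m k = k ^ 2 * (R ^ 2 - ξ₁ ^ 2) / 2 ∧
  w.q k ≤ k ^ 2 * w.σ - ((w.w 0) ^ 2 - 1) / (2 * R) ∧
  k ^ 2 * w.σ - ((w.w 0) ^ 2 - 1) / (2 * ξ₁) ≤ w.q k ∧
  ∫ s in (0 : ℝ)..w.σ, ((w.w s) ^ 2 - 1) ≤ 2 * (w.w 0) ^ 2 ∧
  ∫ s in (0 : ℝ)..w.σ, (w.dw s) ^ 2 / (w.w s) ^ 4 ≤ 1 / 2 ∧
  AntitoneOn (w.g k) (Ici 0)

/-- Amplitude and thickness of the outer profile. -/
def S_G4 : Prop := ∀ (k R ξ₁ : ℝ) (χ : ℝ → ℝ) (w : Profile), 1 ≤ k → 1 ≤ ξ₁ →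
  OProf k R ξ₁ χ w →
  (k ^ 2 - 1 - 1 / ξ₁) * (w.w 0) ^ 2 ≤ k ^ 2 ∧
  k ^ 2 ≤ (k ^ 2 - 1 - 1 / R + (k ^ 2 - 1) * w.σ / R) * (w.w 0) ^ 2 ∧
  w.w 0 ≤ Real.cosh (k * w.σ) ∧
  (1 ≤ k ^ 2 - 1 / ξ₁ → Real.cosh w.σ ≤ w.w 0)

/-- Identities for the inner profile. -/
def S_G5 : Prop := ∀ (k r ξ₂ : ℝ) (χ : ℝ → ℝ) (v : Profile), 1 ≤ k →
  IProf k r ξ₂ χ v →
  r * v.q k - v.m k = k ^ 2 * (ξ₂ ^ 2 - r ^ 2) / 2 ∧
  v.q k ≤ k ^ 2 * v.σ + ((v.w 0) ^ 2 - 1) / (2 * r) ∧
  k ^ 2 * v.σ + ((v.w 0) ^ 2 - 1) / (2 * ξ₂) ≤ v.q k ∧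
  v.m k ≤ ((v.w 0) ^ 2 - 1) / 2 ∧
  AntitoneOn (v.g k) (Ici 0)

/-- Amplitude and thickness of the inner profile. -/
def S_G6 : Prop := ∀ (k r ξ₂ : ℝ) (χ : ℝ → ℝ) (v : Profile), 1 ≤ k →
  IProf k r ξ₂ χ v →
  (k ^ 2 - 1) * (v.w 0) ^ 2 ≤ k ^ 2 ∧
  k ^ 2 ≤ (k ^ 2 - 1 + 1 / r) * (v.w 0) ^ 2 ∧
  (k ^ 2 - 1 + 1 / ξ₂ - 1 / (2 * r * ξ₂)) * (v.w 0) ^ 2 ≤ k ^ 2 * (1 + v.σ / ξ₂) ∧
  Real.cosh (k * v.σ) ≤ v.w 0 ∧
  v.w 0 ≤ Real.cosh (Real.sqrt (k ^ 2 + 1 / r) * v.σ)

/-- If the annulus has level at least `k` the layers at level `k` overlap. -/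
def S_G7 : Prop := ∀ (r R κ k ξ₁ ξ₂ : ℝ) (χ χ₁ χ₂ : ℝ → ℝ), 1 ≤ k → k ≤ κ → GS r R κ χ →
  OL k R ξ₁ χ₁ → IL k r ξ₂ χ₂ → ξ₁ ≤ ξ₂

/-- Existence of the outer layer. -/
def S_G8 : Prop := ∀ k R S : ℝ, 1 < k → 0 < S → S < R →
  1 ≤ (k ^ 2 - 1 - 1 / (R - S)) * (Real.exp S - 1) →
  ∃ (ξ₁ : ℝ) (χ : ℝ → ℝ), R - S ≤ ξ₁ ∧ OL k R ξ₁ χ

/-- Existence of the inner layer. -/
def S_G9 : Prop := ∀ k r : ℝ, 1 < k → 0 < r → ∃ (ξ₂ : ℝ) (χ : ℝ → ℝ), IL k r ξ₂ χ

/-- A ground state splits into an outer and an inner layer. -/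
def S_G10 : Prop := ∀ (r R κ : ℝ) (χ : ℝ → ℝ), GS r R κ χ →
  ∃ ξ : ℝ, OL κ R ξ χ ∧ IL κ r ξ χ ∧ 1 / R ≤ κ ^ 2 - 1

/-- Lower bound for the area of an annulus at level `κ`. -/
def S_G11 : Prop := ∃ L₀ : ℝ, 1 < L₀ ∧ ∀ (r R κ ρ : ℝ) (χ : ℝ → ℝ), GS r R κ χ →
  ρ * (κ ^ 2 - 1) = 1 → L₀ ≤ ρ →
  2 * Real.pi * ρ * (Real.log ρ - 2) ≤ Real.pi * (R ^ 2 - r ^ 2)

/-- Upper bound: if all annuli of area `A` have level at least `k`. -/
def S_G12 : Prop := ∃ L₀ : ℝ, 1 < L₀ ∧ ∀ k A ρ : ℝ, 1 < k → 0 < A → ρ * (k ^ 2 - 1) = 1 →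
  L₀ ≤ ρ →
  (∀ (r R κ : ℝ) (χ : ℝ → ℝ), GS r R κ χ → Real.pi * (R ^ 2 - r ^ 2) = A → k ≤ κ) →
  A ≤ 2 * Real.pi * ρ * (Real.log ρ + Real.log (Real.log ρ) / 2 + 3)

/-- For large area some annulus has a low level. -/
def S_G13 : Prop := ∃ A₀ : ℝ, 0 < A₀ ∧ ∀ A : ℝ, A₀ ≤ A → ∃ (r R κ : ℝ) (χ : ℝ → ℝ),
  GS r R κ χ ∧ Real.pi * (R ^ 2 - r ^ 2) = A ∧ κ ^ 2 - 1 ≤ Real.sqrt (Real.pi / A) / 4

/-- Lower semicontinuity of the level. -/
def S_G14 : Prop := ∀ (r R κ κ' : ℝ) (χ : ℝ → ℝ), GS r R κ χ → κ' < κ → ∃ δ : ℝ, 0 < δ ∧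
  ∀ (r' R' κ'' : ℝ) (χ'' : ℝ → ℝ), GS r' R' κ'' χ'' → |r' - r| < δ → |R' - R| < δ → κ' < κ''

/-- Existence of the optimal annulus. -/
def S_G15 : Prop := ∃ A₀ : ℝ, 0 < A₀ ∧ ∀ A : ℝ, A₀ ≤ A → ∃ (r R κ : ℝ) (χ : ℝ → ℝ),
  GS r R κ χ ∧ Real.pi * (R ^ 2 - r ^ 2) = A ∧ κ ^ 2 - 1 ≤ Real.sqrt (Real.pi / A) / 4 ∧
  ∀ (r' R' κ' : ℝ) (χ' : ℝ → ℝ), GS r' R' κ' χ' → Real.pi * (R' ^ 2 - r' ^ 2) = A → κ ≤ κ'

/-! ### Parameters -/

/-- Parameters: `k` is slightly smaller than the optimal level for the area `A`,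
`ρ = 1 / (k² - 1)`. -/
structure Par (k A ρ : ℝ) : Prop where
  one_lt : 1 < k
  rho : ρ * (k ^ 2 - 1) = 1
  low : 2 * Real.pi * ρ * (Real.log ρ - 3) ≤ A
  up : A ≤ 2 * Real.pi * ρ * (Real.log ρ + Real.log (Real.log ρ) / 2 + 3)
  lev : ∀ (r R κ : ℝ) (χ : ℝ → ℝ), GS r R κ χ → Real.pi * (R ^ 2 - r ^ 2) = A → k ≤ κ

/-- Outer layers for radii in the window. -/
def S_H1 : Prop := ∃ L₀ : ℝ, 1 < L₀ ∧ ∀ k ρ R : ℝ, 1 < k → ρ * (k ^ 2 - 1) = 1 → L₀ ≤ ρ →
  ρ * (1 + 1 / (4 * Real.log ρ)) ≤ R → R ≤ ρ * (1 + 3 / (5 * Real.log ρ)) →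
  ∃ (ξ₁ : ℝ) (χ : ℝ → ℝ) (w : Profile), OProf k R ξ₁ χ w ∧
    w.σ ≤ Real.log ρ ∧ w.q k ≤ - (Real.log ρ / 4) ∧ - (3 * Real.log ρ) ≤ w.q k ∧
    (1 : ℝ) / 2 * Real.log ρ ≤ k ^ 2 * w.σ ∧
    ∫ s in (0 : ℝ)..w.σ, ((w.w s) ^ 2 - 1) ≤ 10 * ρ * Real.log ρ ∧
    ∫ s in (0 : ℝ)..w.σ, (w.dw s) ^ 2 / (w.w s) ^ 4 ≤ 1 ∧
    (1.3 : ℝ) ≤ (k - 1) * (0.9 * (w.w 0) ^ 2) - 0.6 * k * Real.log (0.9 * (w.w 0) ^ 2) ∧
    (R = ρ * (1 + 1 / (4 * Real.log ρ)) → w.q k ≤ - Real.log ρ) ∧
    (R = ρ * (1 + 3 / (5 * Real.log ρ)) → - (0.4 * Real.log ρ) ≤ w.q k)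

/-- Inner layers for radii near `ρ`. -/
def S_H2 : Prop := ∃ L₀ : ℝ, 1 < L₀ ∧ ∀ k ρ r : ℝ, 1 < k → ρ * (k ^ 2 - 1) = 1 → L₀ ≤ ρ →
  ρ / 2 ≤ r → r ≤ 2 * ρ →
  ∃ (ξ₂ : ℝ) (χ : ℝ → ℝ) (v : Profile), IProf k r ξ₂ χ v ∧
    v.m k ≤ ρ / 2 ∧ 0.45 * Real.log ρ ≤ v.q k ∧ v.q k ≤ 0.6 * Real.log ρ

/-- The pairs of profiles used in the near-round comparison. -/
def S_H3 : Prop := ∃ L₀ : ℝ, 1 < L₀ ∧ ∀ k A ρ R : ℝ, Par k A ρ → L₀ ≤ ρ →
  ρ * (1 + 1 / (4 * Real.log ρ)) ≤ R → R ≤ ρ * (1 + 3 / (5 * Real.log ρ)) →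
  ∃ (r : ℝ) (w v : Profile), 0 < r ∧ r < R ∧ Real.pi * (R ^ 2 - r ^ 2) = A ∧ 0.99 * ρ ≤ r ∧
    w.σ ≤ Real.log ρ ∧ w.q k ≤ - (Real.log ρ / 4) ∧ - (3 * Real.log ρ) ≤ w.q k ∧
    ∫ s in (0 : ℝ)..w.σ, ((w.w s) ^ 2 - 1) ≤ 10 * ρ * Real.log ρ ∧
    ∫ s in (0 : ℝ)..w.σ, (w.dw s) ^ 2 / (w.w s) ^ 4 ≤ 1 ∧
    (1.3 : ℝ) ≤ (k - 1) * (0.9 * (w.w 0) ^ 2) - 0.6 * k * Real.log (0.9 * (w.w 0) ^ 2) ∧
    AntitoneOn (v.g k) (Ici 0) ∧ v.m k ≤ ρ / 2 ∧ 0.45 * Real.log ρ ≤ v.q k ∧
    v.q k ≤ 0.6 * Real.log ρ ∧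
    k ^ 2 * A - 2 * Real.pi * (R * w.q k + w.m k) - 2 * Real.pi * (r * v.q k - v.m k) ≤ 0 ∧
    (R = ρ * (1 + 1 / (4 * Real.log ρ)) → w.q k ≤ - Real.log ρ) ∧
    (R = ρ * (1 + 3 / (5 * Real.log ρ)) → - (0.4 * Real.log ρ) ≤ w.q k)

/-! ### Macroscopic estimate -/

/-- Outer web function: inner Steiner inequality. -/
def S_D3 : Prop := ∀ (k : ℝ) (G : Set E2) (w : Profile), 1 ≤ k → Admissible G →
  IsConnected Gᶜ → AntitoneOn (w.g k) (Ici 0) → OuterLe k G (- (per G) * w.q k)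

/-- Explicit profiles `cosh (σ - s)`. -/
def S_M1 : Prop := ∀ k σ : ℝ, 1 ≤ k → 0 < σ → ∃ ψ : Profile, AntitoneOn (ψ.g k) (Ici 0) ∧
  1 / 2 + σ - (k ^ 2 - 1) * Real.exp (2 * σ) / 8 ≤ ψ.q k ∧ 0 ≤ ψ.m k ∧
  ψ.m k ≤ (k ^ 2 + 1) * Real.exp (2 * σ) / 16

/-- Macroscopic estimate. -/
def S_M2 : Prop := ∃ L₀ : ℝ, 1 < L₀ ∧ ∀ k A ρ : ℝ, Par k A ρ → L₀ ≤ ρ → ∀ Ω : Set E2,
  Admissible Ω → volume Ω = ENNReal.ofReal A →
  4 * Real.pi * ρ * (1 + Real.log (Real.log ρ) / Real.log ρ) ≤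
    per (fill Ω) + 2 * Real.pi * Real.sqrt (area (fill Ω) / Real.pi) →
  lam (-1) Ω ≤ ((-(k ^ 2) : ℝ) : EReal)

/-! ### Core statement and assembly -/

/-- Core: every admissible set of area `A` has level at least `k`. -/
def S_Core : Prop := ∃ L₀ : ℝ, 1 < L₀ ∧ ∀ k A ρ : ℝ, Par k A ρ → L₀ ≤ ρ → ∀ Ω : Set E2,
  Admissible Ω → volume Ω = ENNReal.ofReal A → lam (-1) Ω ≤ ((-(k ^ 2) : ℝ) : EReal)

/-- The core statement implies the main theorem in scaled form. -/
def S_Z3 : Prop := S_Core → MainScaled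

end Pool.Agent.Robin

end

section

open MeasureTheory Set Metric
open scoped ENNReal NNReal Pointwise RealInnerProductSpace

namespace Pool.Agent.Robin.AsmA

theorem cont_dirv : Continuous dirv := by
  unfold dirv
  have : Continuous fun θ : ℝ => (![Real.cos θ, Real.sin θ] : Fin 2 → ℝ) := by
    refine continuous_pi fun i => ?_
    fin_cases i
    · exact Real.continuous_cos
    · exact Real.continuous_sin
  exact (PiLp.continuous_toLp 2 _).comp this

theorem measurable_cone (v : E2) (a b : ℝ) : MeasurableSet (cone v a b) := by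
  have h : cone v a b = ⋃ n : ℕ, (fun p : ℝ × ℝ => v + p.1 • dirv p.2) ''
      (Icc (1 / ((n : ℝ) + 1)) (n + 1) ×ˢ Icc (a + 1 / ((n : ℝ) + 1)) (b - 1 / ((n : ℝ) + 1))) := by
    ext x
    constructor
    · rintro ⟨d, θ, hd, ha, hb, rfl⟩
      obtain ⟨n, hn⟩ := exists_nat_gt (max (max (1 / d) d) (max (1 / (θ - a)) (1 / (b - θ))))
      have h1 : 1 / d < n := lt_of_le_of_lt ((le_max_left _ _).trans (le_max_left _ _)) hn
      have h2 : d < n := lt_of_le_of_lt ((le_max_right _ _).trans (le_max_left _ _)) hn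
      have h3 : 1 / (θ - a) < n := lt_of_le_of_lt ((le_max_left _ _).trans (le_max_right _ _)) hn
      have h4 : 1 / (b - θ) < n := lt_of_le_of_lt ((le_max_right _ _).trans (le_max_right _ _)) hn
      have key : ∀ t : ℝ, 0 < t → 1 / t < n → 1 / ((n : ℝ) + 1) ≤ t := by
        intro t ht h
        rw [div_le_iff₀ (by positivity)]
        rw [div_lt_iff₀ ht] at h
        nlinarith
      refine mem_iUnion.2 ⟨n, ⟨(d, θ), ⟨⟨key d hd h1, by linarith⟩, ?_, ?_⟩, rfl⟩⟩
      · have := key (θ - a) (by linarith) h3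
        simp only; linarith
      · have := key (b - θ) (by linarith) h4
        simp only; linarith
    · intro hx
      obtain ⟨n, ⟨p, ⟨⟨h1, h2⟩, h3, h4⟩, rfl⟩⟩ := mem_iUnion.1 hx
      have hp : (0 : ℝ) < 1 / ((n : ℝ) + 1) := by positivity
      exact ⟨p.1, p.2, by linarith, by linarith, by linarith, rfl⟩
  rw [h]
  refine MeasurableSet.iUnion fun n => ?_
  have hc : Continuous fun p : ℝ × ℝ => v + p.1 • dirv p.2 :=
    continuous_const.add (continuous_fst.smul (cont_dirv.comp continuous_snd))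
  exact ((isCompact_Icc.prod isCompact_Icc).image hc).measurableSet

theorem measurable_rect (N : ℕ) (c : ℤ → ℝ) (i : ℤ) : MeasurableSet (rect N c i) := by
  have h1 : Continuous fun x : E2 => ⟪x, nv N i⟫ := continuous_id.inner continuous_const
  have h2 : Continuous fun x : E2 => ⟪x, tv N i⟫ := continuous_id.inner continuous_const
  have : IsOpen (rect N c i) :=
    (isOpen_lt continuous_const h1).inter
      ((isOpen_lt continuous_const h2).inter (isOpen_lt h2 continuous_const))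
  exact this.measurableSet

theorem fin_le {μ : Measure E2} (f : E2 → ℝ≥0∞) (C : Set E2) (F : ℕ → Set E2) (s : Finset ℕ) :
    ∫⁻ x in C ∩ ⋃ i ∈ s, F i, f x ∂μ ≤ ∑ i ∈ s, ∫⁻ x in C ∩ F i, f x ∂μ := by
  classical
  induction s using Finset.induction_on with
  | empty => simp
  | insert a s ha ih =>
    rw [Finset.sum_insert ha, Finset.set_biUnion_insert, inter_union_distrib_left]
    exact (lintegral_union_le f _ _).trans (add_le_add le_rfl ih)

theorem cover (p3 : T_P3) {N : ℕ} {c : ℤ → ℝ} (hs : Supp N c) (C : Set E2) (f : E2 → ℝ≥0∞) :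
    ∫⁻ x in C, f x ≤ (∫⁻ x in C ∩ poly N c, f x) +
      (∑ i ∈ Finset.range N, ∫⁻ x in C ∩ rect N c (i : ℤ), f x) +
      ∑ i ∈ Finset.range N, ∫⁻ x in C ∩ sect N c (i : ℤ), f x := by
  have hn := p3 N c hs
  set A := poly N c
  set B := ⋃ i ∈ Finset.range N, rect N c (i : ℤ)
  set D := ⋃ i ∈ Finset.range N, sect N c (i : ℤ)
  have h1 : ∫⁻ x in C, f x ≤ ∫⁻ x in (C ∩ A) ∪ (C ∩ B) ∪ (C ∩ D) ∪ (A ∪ B ∪ D)ᶜ, f x := by
    refine lintegral_mono_set fun x hx => ?_
    by_cases h : x ∈ A ∪ B ∪ D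
    · rcases h with (h | h) | h
      · exact Or.inl (Or.inl (Or.inl ⟨hx, h⟩))
      · exact Or.inl (Or.inl (Or.inr ⟨hx, h⟩))
      · exact Or.inl (Or.inr ⟨hx, h⟩)
    · exact Or.inr h
  have h2 := (lintegral_union_le f ((C ∩ A) ∪ (C ∩ B) ∪ (C ∩ D)) (A ∪ B ∪ D)ᶜ (μ := volume))
  have h3 : ∫⁻ x in (A ∪ B ∪ D)ᶜ, f x = 0 := by
    rw [Measure.restrict_eq_zero.2 hn, lintegral_zero_measure]
  have h4 := (lintegral_union_le f ((C ∩ A) ∪ (C ∩ B)) (C ∩ D) (μ := volume))
  have h5 := (lintegral_union_le f (C ∩ A) (C ∩ B) (μ := volume))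
  have h6 := fin_le (μ := volume) f C (fun i => rect N c (i : ℤ)) (Finset.range N)
  have h7 := fin_le (μ := volume) f C (fun i => sect N c (i : ℤ)) (Finset.range N)
  calc ∫⁻ x in C, f x ≤ _ := h1
    _ ≤ _ := h2
    _ ≤ _ := by
      rw [h3, add_zero]
      exact h4.trans (add_le_add (h5.trans (add_le_add le_rfl h6)) h7)

theorem bdry (p5 : T_P5) {N : ℕ} {c : ℤ → ℝ} (hs : Supp N c) (S : Set E2)
    (hS : MeasurableSet S) (f : E2 → ℝ≥0∞) (μ : Measure E2) :
    (∑ i ∈ Finset.range N, ∫⁻ x in S ∩ rect N c (i : ℤ), f x ∂μ) +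
      ∑ i ∈ Finset.range N, ∫⁻ x in S ∩ sect N c (i : ℤ), f x ∂μ ≤ ∫⁻ x in S, f x ∂μ := by
  obtain ⟨h1, h2, -⟩ := p5 N c hs
  have hm1 : ∀ i : ℕ, MeasurableSet (S ∩ rect N c (i : ℤ)) := fun i =>
    hS.inter (measurable_rect N c i)
  have hm2 : ∀ i : ℕ, MeasurableSet (S ∩ sect N c (i : ℤ)) := fun i =>
    hS.inter (measurable_cone _ _ _)
  have e1 : ∫⁻ x in ⋃ i ∈ Finset.range N, S ∩ rect N c (i : ℤ), f x ∂μ =
      ∑ i ∈ Finset.range N, ∫⁻ x in S ∩ rect N c (i : ℤ), f x ∂μ := by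
    refine lintegral_biUnion_finset ?_ (fun i _ => hm1 i) f
    intro i hi j hj hij
    have := (h1 i j (Finset.mem_range.1 hi) (Finset.mem_range.1 hj) hij).1
    exact this.mono inter_subset_right inter_subset_right
  have e2 : ∫⁻ x in ⋃ i ∈ Finset.range N, S ∩ sect N c (i : ℤ), f x ∂μ =
      ∑ i ∈ Finset.range N, ∫⁻ x in S ∩ sect N c (i : ℤ), f x ∂μ := by
    refine lintegral_biUnion_finset ?_ (fun i _ => hm2 i) f
    intro i hi j hj hij
    have := (h1 i j (Finset.mem_range.1 hi) (Finset.mem_range.1 hj) hij).2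
    exact this.mono inter_subset_right inter_subset_right
  rw [← e1, ← e2, ← lintegral_union]
  · refine lintegral_mono_set ?_
    refine union_subset ?_ ?_ <;> exact iUnion₂_subset fun i _ => inter_subset_left
  · exact Finset.measurableSet_biUnion _ fun i _ => hm2 i
  · rw [Set.disjoint_iUnion₂_left]
    intro i hi
    rw [Set.disjoint_iUnion₂_right]
    intro j hj
    exact (h2 i j (Finset.mem_range.1 hi) (Finset.mem_range.1 hj)).mono inter_subset_right
      inter_subset_right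

end Pool.Agent.Robin.AsmA

end

section

/-!
# MP_4b551e_an: item B1 (the final inequality of the baseline estimate)
-/

namespace Pool.Agent.Robin

theorem pr_B1 : T_B1 := by
  intro Jg J₁ J₂ I₂ m m₁ q y r₀ R A T ρ₁ S1 hq hJ₁ hJ₂ hJ₂1 hI₂ hI₂' hr₀ hρ hρR hT hqy hTA hA
    hAR hS1 hS1'
  have hπ : 0 < Real.pi := Real.pi_pos
  have hR : 0 < R := by linarith
  have hρ0 : 0 < ρ₁ := by linarith
  obtain ⟨Q, hQ⟩ : ∃ Q : ℝ, Q = Real.sqrt (A / Real.pi) := ⟨_, rfl⟩
  have hQ0 : 0 ≤ Q := by rw [hQ]; exact Real.sqrt_nonneg _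
  have hQ2 : A = Real.pi * Q ^ 2 := by
    rw [hQ, Real.sq_sqrt (div_nonneg hA hπ.le)]
    field_simp
  rw [← hQ]
  have hTQ : T ≤ 8 * Real.pi / 3 * (R ^ 2 - Q ^ 2) := by
    rw [hQ2] at hTA
    have h1 : Real.pi * (3 / 2 * T) ≤ Real.pi * (4 * Real.pi * (R ^ 2 - Q ^ 2)) := by
      nlinarith
    have h2 := le_of_mul_le_mul_left h1 hπ
    linarith
  have hQR : Q ≤ R := by
    have h1 : 0 ≤ R ^ 2 - Q ^ 2 := by
      by_contra hcon
      push Not at hcon
      have : 8 * Real.pi / 3 * (R ^ 2 - Q ^ 2) < 0 :=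
        mul_neg_of_pos_of_neg (by positivity) hcon
      linarith
    exact abs_le_of_sq_le_sq' (by linarith) hR.le |>.2
  have hQ9 : 9 / 10 * R ≤ Q := by
    have h1 : Real.pi * (81 / 100 * R ^ 2) ≤ Real.pi * Q ^ 2 := by
      rw [← hQ2]; linarith
    have h2 := le_of_mul_le_mul_left h1 hπ
    have h3 : (9 / 10 * R) ^ 2 ≤ Q ^ 2 := by nlinarith
    exact abs_le_of_sq_le_sq' h3 hQ0 |>.2
  obtain ⟨X, hX⟩ : ∃ X : ℝ, X = Q ^ 2 / R := ⟨_, rfl⟩
  have hXR : X * R = Q ^ 2 := by rw [hX]; field_simp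
  have hAX : 2 * A / R = 2 * Real.pi * X := by
    rw [hQ2, hX]; ring
  have hQX : 9 / 10 * (R - Q) ≤ Q - X := by
    have h1 : (9 / 10 * (R - Q)) * R ≤ (Q - X) * R := by
      have : (Q - X) * R = Q * (R - Q) := by rw [sub_mul, hXR]; ring
      rw [this]
      have := mul_le_mul_of_nonneg_right hQ9 (sub_nonneg.2 hQR)
      linarith
    exact le_of_mul_le_mul_right h1 hR
  have hRX : 0 ≤ R - X := by
    have : X ≤ Q := by linarith
    linarith
  -- the two error terms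
  obtain ⟨t, ht⟩ : ∃ t : ℝ, t = T / R := ⟨_, rfl⟩
  have ht0 : 0 ≤ t := by rw [ht]; positivity
  have htR : t * R = T := by rw [ht]; field_simp
  have htQ : t ≤ 16 * Real.pi / 3 * (R - Q) := by
    have h1 : t * R ≤ (16 * Real.pi / 3 * (R - Q)) * R := by
      rw [htR]
      refine hTQ.trans ?_
      have h2 : 8 * Real.pi / 3 * (R ^ 2 - Q ^ 2) = 8 * Real.pi / 3 * ((R - Q) * (R + Q)) := by
        ring
      have h3 : (16 * Real.pi / 3 * (R - Q)) * R = 8 * Real.pi / 3 * ((R - Q) * (2 * R)) := by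
        ring
      rw [h2, h3]
      apply mul_le_mul_of_nonneg_left _ (by positivity)
      apply mul_le_mul_of_nonneg_left _ (sub_nonneg.2 hQR)
      linarith
    exact le_of_mul_le_mul_right h1 hR
  have hS : S1 / R ^ 2 ≤ 2 / 5 * t := by
    rw [div_le_iff₀ (by positivity)]
    have : 2 / 5 * t * R ^ 2 = 2 / 5 * R * (t * R) := by ring
    rw [this, htR]
    exact hS1'
  have hS0 : 0 ≤ S1 / R ^ 2 := by positivity
  have hE1 : 20 / 19 * (S1 / R ^ 2) * J₂ ≤ 8 / 19 * t := by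
    have h1 : 20 / 19 * (S1 / R ^ 2) * J₂ ≤ 20 / 19 * (S1 / R ^ 2) * 1 :=
      mul_le_mul_of_nonneg_left hJ₂1 (by positivity)
    linarith
  have hE2 : T / R ^ 2 * (I₂ / (3 * r₀)) ≤ 1 / 300 * t := by
    have h1 : I₂ / (3 * r₀) ≤ R / 300 := by
      rw [hr₀, div_le_iff₀ (by positivity)]
      have : ρ₁ * ρ₁ ≤ R * ρ₁ := mul_le_mul_of_nonneg_right hρR hρ0.le
      nlinarith
    have h2 : T / R ^ 2 * (I₂ / (3 * r₀)) ≤ T / R ^ 2 * (R / 300) :=
      mul_le_mul_of_nonneg_left h1 (by positivity)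
    have h3 : T / R ^ 2 * (R / 300) = 1 / 300 * t := by
      rw [ht]; field_simp
    rw [h3] at h2
    exact h2
  have hgain : 2 * (9 / 10 * (R - Q)) ≤ (-q) * (Q - X) := by
    have h1 : 2 * (Q - X) ≤ (-q) * (Q - X) := by
      apply mul_le_mul_of_nonneg_right (by linarith)
      have : 0 ≤ 9 / 10 * (R - Q) := by linarith
      linarith
    linarith
  have hgain2 : Real.pi * (2 * (9 / 10 * (R - Q))) ≤ Real.pi * ((-q) * (Q - X)) :=
    mul_le_mul_of_nonneg_left hgain hπ.le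
  have hJJ : 0 ≤ Real.pi * ((R - X) * (1 + J₁)) := by positivity
  have hlin : 0 ≤ Real.pi * (R - Q) := mul_nonneg hπ.le (sub_nonneg.2 hQR)
  have hid : 2 * A / R * Jg - 2 * Real.pi * m + (2 * A / R - 2 * Real.pi * R) * J₁ -
      (2 * Real.pi * R + 2 * A / R * y) =
      2 * (Real.pi * (-q * X)) - 2 * (Real.pi * ((R - X) * (1 + J₁))) - 2 * Real.pi * m := by
    have : Jg = y + 1 - q := by linarith
    rw [hAX, this]
    ring
  have hid2 : Real.pi * ((-q) * (Q - X)) = Real.pi * (-q) * Q - Real.pi * (-q * X) := by ring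
  nlinarith [hE1, hE2, htQ, hgain2, hJJ, hlin, hid, hid2, ht0]

end Pool.Agent.Robin

end

section

/-!
MP_4b551e_an, item B3: the baseline for convex bodies with any centre (translation invariance).
-/

open MeasureTheory Set Metric
open scoped ENNReal NNReal Pointwise RealInnerProductSpace Topology

namespace Pool.Agent.Robin

theorem pr_B3 (h : T_B2) : T_B3 := by
  intro k w C o ρ₁ ρ₂ hbase hconv hcomp hin hout hρ
  set e : E2 ≃ᵢ E2 := IsometryEquiv.addLeft o with he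
  have he1 : ∀ x, e x = o + x := fun x => rfl
  set C' : Set E2 := e ⁻¹' C with hC'
  have hconv' : Convex ℝ C' := hconv.translate_preimage_right o
  have hcomp' : IsCompact C' := e.toHomeomorph.isCompact_preimage.2 hcomp
  have hin' : closedBall (0 : E2) ρ₁ ⊆ C' := by
    intro x hx
    apply hin
    rw [mem_closedBall, dist_zero_right] at hx
    rw [mem_closedBall, he1, dist_eq_norm, add_sub_cancel_left]
    exact hx
  have hout' : C' ⊆ closedBall (0 : E2) ρ₂ := by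
    intro x hx
    have h1 := hout hx
    rw [mem_closedBall, he1, dist_eq_norm, add_sub_cancel_left] at h1
    rw [mem_closedBall, dist_zero_right]
    exact h1
  have hmp : MeasurePreserving e (volume : Measure E2) volume :=
    measurePreserving_add_left volume o
  have hemb : MeasurableEmbedding e := e.toHomeomorph.measurableEmbedding
  have harea : area C' = area C := by
    unfold area
    rw [hC', hmp.measure_preimage_emb hemb]
  have hfr : frontier C' = e ⁻¹' frontier C := (e.toHomeomorph.preimage_frontier C).symm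
  have key := h k w C' ρ₁ ρ₂ hbase hconv' hcomp' hin' hout' hρ
  rw [harea] at key
  intro ε hε
  obtain ⟨u', ⟨K, hK⟩, hu1, hu2, hu3⟩ := key ε hε
  have hx : ∀ x : E2, e x - o = x := by
    intro x
    rw [he1, add_sub_cancel_left]
  refine ⟨fun x => u' (x - o), ⟨K, ?_⟩, fun x => hu1 _, ?_, ?_⟩
  · have h1 : LipschitzWith 1 (fun x : E2 => x - o) := (IsometryEquiv.subRight o).isometry.lipschitz
    have h2 := hK.comp h1
    rwa [mul_one] at h2
  · intro x hxf
    apply hu2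
    rw [hfr, mem_preimage, he1]
    rwa [add_sub_cancel]
  · have e1 : ∫⁻ x in C, ENNReal.ofReal (en k (fun x => u' (x - o)) x - k ^ 2) =
        ∫⁻ x in C', ENNReal.ofReal (en k u' x - k ^ 2) := by
      rw [← hmp.setLIntegral_comp_preimage_emb hemb]
      refine lintegral_congr fun x => ?_
      unfold en
      rw [fderiv_comp_sub]
      simp only [hx]
    have e2 : ∫⁻ x in frontier C, ENNReal.ofReal ((u' (x - o)) ^ 2) ∂(μH[1]) =
        ∫⁻ x in frontier C', ENNReal.ofReal ((u' x) ^ 2) ∂(μH[1]) := by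
      rw [← (e.measurePreserving_hausdorffMeasure 1).setLIntegral_comp_preimage_emb hemb, ← hfr]
      refine lintegral_congr fun x => ?_
      rw [hx]
    rw [e1, e2]
    exact hu3

end Pool.Agent.Robin

end

section

/-!
# Item CL: the crossing lemma (Maehara's proof from Brouwer's fixed point theorem)
-/

open MeasureTheory Set Metric
open scoped ENNReal NNReal Pointwise RealInnerProductSpace

namespace Pool.Agent.Robin

namespace CL

theorem comp_cont {γ : ℝ → E2} (hγ : ContinuousOn γ (Icc 0 1)) (j : Fin 2) :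
    ContinuousOn (fun t => γ t j) (Icc 0 1) :=
  (EuclideanSpace.proj j : E2 →L[ℝ] ℝ).continuous.comp_continuousOn hγ

theorem ne_pos {X Y : ℝ} (hX : 0 < X) (hY : 0 < Y) {a b : E2} (h : a ≠ b) :
    0 < max (|a 0 - b 0| / X) (|a 1 - b 1| / Y) := by
  by_contra hcon
  push Not at hcon
  have h0 : |a 0 - b 0| / X ≤ 0 := (le_max_left _ _).trans hcon
  have h1 : |a 1 - b 1| / Y ≤ 0 := (le_max_right _ _).trans hcon
  rw [div_le_iff₀ hX, zero_mul, abs_nonpos_iff, sub_eq_zero] at h0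
  rw [div_le_iff₀ hY, zero_mul, abs_nonpos_iff, sub_eq_zero] at h1
  apply h
  ext j
  fin_cases j
  · exact h0
  · exact h1

end CL

open CL in
theorem pr_CL : T_CL := by
  intro X Y γ β hX hY hγ hβ hγb hβb hγ0 hγ1 hβ0 hβ1
  by_contra hcon
  push Not at hcon
  have hne : ∀ x : Fin 2 → ℝ, x ∈ Icc (0 : Fin 2 → ℝ) 1 → γ (x 0) ≠ β (x 1) := by
    intro x hx
    exact hcon (x 0) ⟨hx.1 0, hx.2 0⟩ (x 1) ⟨hx.1 1, hx.2 1⟩
  set D : (Fin 2 → ℝ) → ℝ := fun x =>
    max (|γ (x 0) 0 - β (x 1) 0| / X) (|γ (x 0) 1 - β (x 1) 1| / Y) with hD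
  have hDpos : ∀ x ∈ Icc (0 : Fin 2 → ℝ) 1, 0 < D x := fun x hx => ne_pos hX hY (hne x hx)
  have hm0 : MapsTo (fun x : Fin 2 → ℝ => x 0) (Icc 0 1) (Icc 0 1) :=
    fun x hx => ⟨hx.1 0, hx.2 0⟩
  have hm1 : MapsTo (fun x : Fin 2 → ℝ => x 1) (Icc 0 1) (Icc 0 1) :=
    fun x hx => ⟨hx.1 1, hx.2 1⟩
  have hc0 : ContinuousOn (fun x : Fin 2 → ℝ => x 0) (Icc 0 1) := (continuous_apply 0).continuousOn
  have hc1 : ContinuousOn (fun x : Fin 2 → ℝ => x 1) (Icc 0 1) := (continuous_apply 1).continuousOn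
  have g0 : ContinuousOn (fun x : Fin 2 → ℝ => γ (x 0) 0) (Icc 0 1) := (comp_cont hγ 0).comp hc0 hm0
  have g1 : ContinuousOn (fun x : Fin 2 → ℝ => γ (x 0) 1) (Icc 0 1) := (comp_cont hγ 1).comp hc0 hm0
  have b0 : ContinuousOn (fun x : Fin 2 → ℝ => β (x 1) 0) (Icc 0 1) := (comp_cont hβ 0).comp hc1 hm1
  have b1 : ContinuousOn (fun x : Fin 2 → ℝ => β (x 1) 1) (Icc 0 1) := (comp_cont hβ 1).comp hc1 hm1
  have hDc : ContinuousOn D (Icc 0 1) :=
    ContinuousOn.sup ((g0.sub b0).abs.div_const X) ((g1.sub b1).abs.div_const Y)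
  set F0 : (Fin 2 → ℝ) → ℝ := fun x => (β (x 1) 0 - γ (x 0) 0) / (X * D x) with hF0
  set F1 : (Fin 2 → ℝ) → ℝ := fun x => (γ (x 0) 1 - β (x 1) 1) / (Y * D x) with hF1
  have hF0c : ContinuousOn F0 (Icc 0 1) :=
    (b0.sub g0).div (continuousOn_const.mul hDc) fun x hx => (mul_pos hX (hDpos x hx)).ne'
  have hF1c : ContinuousOn F1 (Icc 0 1) :=
    (g1.sub b1).div (continuousOn_const.mul hDc) fun x hx => (mul_pos hY (hDpos x hx)).ne'
  have hF0b : ∀ x ∈ Icc (0 : Fin 2 → ℝ) 1, |F0 x| = |γ (x 0) 0 - β (x 1) 0| / X / D x := by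
    intro x hx
    rw [hF0, abs_div, abs_of_pos (mul_pos hX (hDpos x hx)), abs_sub_comm, div_div]
  have hF1b : ∀ x ∈ Icc (0 : Fin 2 → ℝ) 1, |F1 x| = |γ (x 0) 1 - β (x 1) 1| / Y / D x := by
    intro x hx
    rw [hF1, abs_div, abs_of_pos (mul_pos hY (hDpos x hx)), div_div]
  have hle0 : ∀ x ∈ Icc (0 : Fin 2 → ℝ) 1, |F0 x| ≤ 1 := by
    intro x hx
    rw [hF0b x hx, div_le_one (hDpos x hx)]
    exact le_max_left _ _
  have hle1 : ∀ x ∈ Icc (0 : Fin 2 → ℝ) 1, |F1 x| ≤ 1 := by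
    intro x hx
    rw [hF1b x hx, div_le_one (hDpos x hx)]
    exact le_max_right _ _
  set f : (Fin 2 → ℝ) → (Fin 2 → ℝ) := fun x => ![(1 + F0 x) / 2, (1 + F1 x) / 2] with hf
  have hfc : ContinuousOn f (Icc 0 1) := by
    rw [continuousOn_pi]
    intro j
    fin_cases j
    · exact (continuousOn_const.add hF0c).div_const 2
    · exact (continuousOn_const.add hF1c).div_const 2
  have hfm : MapsTo f (Icc 0 1) (Icc 0 1) := by
    intro x hx
    have h0 := abs_le.1 (hle0 x hx)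
    have h1 := abs_le.1 (hle1 x hx)
    constructor
    · intro j
      fin_cases j
      · show 0 ≤ (1 + F0 x) / 2
        linarith [h0.1]
      · show 0 ≤ (1 + F1 x) / 2
        linarith [h1.1]
    · intro j
      fin_cases j
      · show (1 + F0 x) / 2 ≤ 1
        linarith [h0.2]
      · show (1 + F1 x) / 2 ≤ 1
        linarith [h1.2]
  obtain ⟨x, hx, hfx⟩ := Pool.Agent.Brouwer.brouwer_cube 2 f hfc hfm
  have e0 : (1 + F0 x) / 2 = x 0 := congrFun hfx 0
  have e1 : (1 + F1 x) / 2 = x 1 := congrFun hfx 1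
  have hx0 : x 0 ∈ Icc (0 : ℝ) 1 := ⟨hx.1 0, hx.2 0⟩
  have hx1 : x 1 ∈ Icc (0 : ℝ) 1 := ⟨hx.1 1, hx.2 1⟩
  have hDx := hDpos x hx
  have hor : |F0 x| = 1 ∨ |F1 x| = 1 := by
    rw [hF0b x hx, hF1b x hx, div_eq_one_iff_eq hDx.ne', div_eq_one_iff_eq hDx.ne']
    rcases max_choice (|γ (x 0) 0 - β (x 1) 0| / X) (|γ (x 0) 1 - β (x 1) 1| / Y) with h | h
    · exact Or.inl h.symm
    · exact Or.inr h.symm
  have hγx := hγb (x 0) hx0
  have hβx := hβb (x 1) hx1
  rcases hor with h | h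
  · rcases (abs_eq zero_le_one).1 h with h' | h'
    · have hs : x 0 = 1 := by rw [← e0, h']; norm_num
      have h2 : F0 x ≤ 0 := by
        rw [hF0]
        refine div_nonpos_of_nonpos_of_nonneg ?_ (mul_pos hX hDx).le
        rw [hs, hγ1]
        linarith [(abs_le.1 hβx.1).2]
      linarith
    · have hs : x 0 = 0 := by rw [← e0, h']; norm_num
      have h2 : 0 ≤ F0 x := by
        rw [hF0]
        refine div_nonneg ?_ (mul_pos hX hDx).le
        rw [hs, hγ0]
        linarith [(abs_le.1 hβx.1).1]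
      linarith
  · rcases (abs_eq zero_le_one).1 h with h' | h'
    · have hs : x 1 = 1 := by rw [← e1, h']; norm_num
      have h2 : F1 x ≤ 0 := by
        rw [hF1]
        refine div_nonpos_of_nonpos_of_nonneg ?_ (mul_pos hY hDx).le
        rw [hs, hβ1]
        linarith [(abs_le.1 hγx.2).2]
      linarith
    · have hs : x 1 = 0 := by rw [← e1, h']; norm_num
      have h2 : 0 ≤ F1 x := by
        rw [hF1]
        refine div_nonneg ?_ (mul_pos hY hDx).le
        rw [hs, hβ0]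
        linarith [(abs_le.1 hγx.2).1]
      linarith

end Pool.Agent.Robin

end

section

/-!
# MP_4b551e_an: the lower bound on columns
-/

open MeasureTheory Set Metric
open scoped ENNReal NNReal Pointwise RealInnerProductSpace

namespace Pool.Agent.Robin

namespace COL

/-- primitive -/
noncomputable def Ph (k : ℝ) (x : ℝ) : ℝ := k * (x ^ 2 - 6 / 5 * Real.log x)

theorem log_lip (x y : ℝ) (hx : 1 ≤ x) (hy : 1 ≤ y) : |Real.log x - Real.log y| ≤ |x - y| := by
  have key : ∀ a b : ℝ, 1 ≤ a → a ≤ b → |Real.log b - Real.log a| ≤ |b - a| := by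
    intro a b ha hab
    have ha0 : 0 < a := by linarith
    have hb0 : 0 < b := by linarith
    rw [abs_of_nonneg (sub_nonneg.2 (Real.log_le_log ha0 hab)), abs_of_nonneg (by linarith),
      ← Real.log_div hb0.ne' ha0.ne']
    have h1 := Real.log_le_sub_one_of_pos (div_pos hb0 ha0)
    have h2 : b / a - 1 ≤ b - a := by
      rw [div_sub_one ha0.ne']
      rw [div_le_iff₀ ha0]
      nlinarith
    linarith
  rcases le_total x y with h | h
  · rw [abs_sub_comm, abs_sub_comm x y]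
    exact key x y hx h
  · exact key y x hy h

theorem ac (k : ℝ) (u : ℝ → ℝ) (K : ℝ≥0) (hu : LipschitzWith K u) (h1 : ∀ t, 1 ≤ u t)
    (a b : ℝ) : AbsolutelyContinuousOnInterval (fun t => Ph k (u t)) a b := by
  have hua : AbsolutelyContinuousOnInterval u a b :=
    (hu.lipschitzOnWith (s := uIcc a b)).absolutelyContinuousOnInterval
  have hlog : LipschitzWith K (fun t => Real.log (u t)) := by
    apply LipschitzWith.of_dist_le_mul
    intro x y
    have h2 := hu.dist_le_mul x y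
    have h3 := log_lip (u x) (u y) (h1 x) (h1 y)
    rw [Real.dist_eq] at h2 ⊢
    exact h3.trans h2
  have hla : AbsolutelyContinuousOnInterval (fun t => Real.log (u t)) a b :=
    (hlog.lipschitzOnWith (s := uIcc a b)).absolutelyContinuousOnInterval
  have h := ((hua.mul hua).sub (hla.const_mul (6 / 5))).const_mul k
  convert h using 1
  funext t
  simp only [Ph, Pi.mul_apply, Pi.sub_apply]
  ring

theorem deriv_Ph (k : ℝ) (u : ℝ → ℝ) (h1 : ∀ t, 1 ≤ u t) (t : ℝ) (hd : DifferentiableAt ℝ u t) :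
    deriv (fun t => Ph k (u t)) t = 2 * (k * (u t - 3 / 5 / u t)) * deriv u t := by
  have hu0 : u t ≠ 0 := by have := h1 t; linarith
  have hd' := hd.hasDerivAt
  have e : HasDerivAt (fun t => Ph k (u t))
      (k * (((2 : ℕ) : ℝ) * u t ^ (2 - 1) * deriv u t - 6 / 5 * (deriv u t / u t))) t :=
    ((hd'.pow 2).sub ((hd'.log hu0).const_mul (6 / 5))).const_mul k
  rw [e.deriv]
  field_simp
  norm_num
  ring

theorem pointwise (k κ x p : ℝ) (hk : 1 ≤ k) (hκ : κ ≤ 1 / 50) (hx : 1 ≤ x) (hx2 : 2 ≤ x ^ 2) :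
    |2 * (k * (x - 3 / 5 / x)) * p| + κ ≤ p ^ 2 + k ^ 2 * (x ^ 2 - 1) := by
  set a := k * (x - 3 / 5 / x) with ha
  have h1 : |2 * a * p| ≤ a ^ 2 + p ^ 2 := by
    rw [abs_le]
    constructor <;> nlinarith [sq_nonneg (a + p), sq_nonneg (a - p)]
  have hx0 : x ≠ 0 := by linarith
  have h2 : a ^ 2 = k ^ 2 * (x ^ 2 - 6 / 5 + 9 / 25 / x ^ 2) := by
    rw [ha]; field_simp; ring
  have h3 : 9 / 25 / x ^ 2 ≤ 9 / 50 := by
    rw [div_le_iff₀ (by positivity)]
    linarith
  have h4 : a ^ 2 ≤ k ^ 2 * (x ^ 2 - 6 / 5 + 9 / 50) := by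
    rw [h2]
    exact mul_le_mul_of_nonneg_left (by linarith) (by positivity)
  nlinarith

theorem meas_F (k : ℝ) (u : ℝ → ℝ) (K : ℝ≥0) (hu : LipschitzWith K u) (a b : ℝ) :
    IntervalIntegrable (fun t => (deriv u t) ^ 2 + k ^ 2 * ((u t) ^ 2 - 1)) volume a b := by
  have hc := hu.continuous
  apply IntervalIntegrable.add
  · have hm : Measurable fun t => (deriv u t) ^ 2 := (measurable_deriv u).pow_const 2
    rw [intervalIntegrable_iff]
    have hfin : volume (uIoc a b) ≠ ∞ := by simp [uIoc]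
    refine Measure.integrableOn_of_bounded (M := (K : ℝ) ^ 2) hfin hm.aestronglyMeasurable ?_
    refine Filter.Eventually.of_forall fun t => ?_
    rw [norm_pow]
    exact pow_le_pow_left₀ (norm_nonneg _) (norm_deriv_le_of_lipschitz hu) 2
  · apply Continuous.intervalIntegrable
    fun_prop

theorem segm (k κ : ℝ) (u : ℝ → ℝ) (K : ℝ≥0) (hk : 1 ≤ k) (hκ : κ ≤ 1 / 50)
    (hu : LipschitzWith K u) (h1 : ∀ t, 1 ≤ u t) (a b : ℝ) (hab : a ≤ b)
    (h2 : ∀ t ∈ Icc a b, 2 ≤ (u t) ^ 2) :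
    |Ph k (u b) - Ph k (u a)| + κ * (b - a) ≤
      ∫ t in a..b, ((deriv u t) ^ 2 + k ^ 2 * ((u t) ^ 2 - 1)) := by
  have hac := ac k u K hu h1 a b
  have hint := hac.integral_deriv_eq_sub
  have hii := hac.intervalIntegrable_deriv
  have hF := meas_F k u K hu a b
  have hae : ∀ᵐ t ∂(volume.restrict (Icc a b)), |deriv (fun t => Ph k (u t)) t| + κ ≤
      (deriv u t) ^ 2 + k ^ 2 * ((u t) ^ 2 - 1) := by
    have hd : ∀ᵐ t, DifferentiableAt ℝ u t := hu.ae_differentiableAt_real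
    filter_upwards [ae_restrict_of_ae hd, ae_restrict_mem measurableSet_Icc] with t ht htm
    rw [deriv_Ph k u h1 t ht]
    exact pointwise k κ (u t) (deriv u t) hk hκ (h1 t) (h2 t htm)
  have hi2 : IntervalIntegrable (fun t => |deriv (fun t => Ph k (u t)) t| + κ) volume a b :=
    hii.abs.add intervalIntegrable_const
  have hle := intervalIntegral.integral_mono_ae_restrict hab hi2 hF hae
  rw [intervalIntegral.integral_add hii.abs intervalIntegrable_const,
    intervalIntegral.integral_const, smul_eq_mul] at hle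
  have habs := intervalIntegral.abs_integral_le_integral_abs (f := deriv (fun t => Ph k (u t)))
    (μ := volume) hab
  rw [hint] at habs
  nlinarith

end COL

open COL in
theorem pr_COL : T_COL := by
  intro k κ σ u hk hk2 hκ0 hκ hσ hκσ ⟨K, hu⟩ h1 hT
  have hlog2 : (0.6931471803 : ℝ) < Real.log 2 := Real.log_two_gt_d9
  have hlog2' : Real.log 2 < 0.6931471808 := Real.log_two_lt_d9
  have hc := hu.continuous
  have hpos : ∀ t, 0 < u t := fun t => by have := h1 t; linarith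
  have hlogsq : ∀ t, Real.log ((u t) ^ 2) = 2 * Real.log (u t) := fun t => by
    rw [Real.log_pow]; norm_num
  have hPh : ∀ t, Ph k (u t) = k * ((u t) ^ 2 - 3 / 5 * Real.log ((u t) ^ 2)) := fun t => by
    rw [hlogsq]; unfold Ph; ring
  -- `U₀ > 2`
  have hU0 : 2 < (u 0) ^ 2 := by
    by_contra hcon
    push Not at hcon
    have h11 : 1 ≤ (u 0) ^ 2 := by have := h1 0; nlinarith
    have : 0 ≤ Real.log ((u 0) ^ 2) := Real.log_nonneg h11
    nlinarith
  have hF := fun a b => meas_F k u K hu a b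
  by_cases hA : ∀ t ∈ Icc 0 σ, 2 ≤ (u t) ^ 2
  · have hs := segm k κ u K hk hκ hu h1 0 σ hσ hA
    rcases le_total ((u 0) ^ 2) ((u σ) ^ 2) with hle | hle
    · have := abs_nonneg (Ph k (u σ) - Ph k (u 0))
      nlinarith
    · have h3 := neg_abs_le (Ph k (u σ) - Ph k (u 0))
      rw [hPh, hPh] at h3
      rw [hPh, hPh] at hs
      -- convexity
      have hUs := hA σ ⟨hσ, le_rfl⟩
      have hconv : (k - 1) * (u σ) ^ 2 - 3 / 5 * k * Real.log ((u σ) ^ 2) ≤
          (k - 1) * (u 0) ^ 2 - 3 / 5 * k * Real.log ((u 0) ^ 2) := by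
        -- write `u σ ^ 2` as a convex combination of `2` and `u 0 ^ 2`
        set x := (u σ) ^ 2
        set y := (u 0) ^ 2
        have hy2 : 0 < y - 2 := by linarith
        have hl := strictConcaveOn_log_Ioi.concaveOn.2 (show (2 : ℝ) ∈ Ioi 0 by simp)
          (show y ∈ Ioi (0 : ℝ) by simp only [mem_Ioi]; linarith)
          (show 0 ≤ (y - x) / (y - 2) by apply div_nonneg <;> linarith)
          (show 0 ≤ (x - 2) / (y - 2) by apply div_nonneg <;> linarith)
          (by field_simp; ring)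
        simp only [smul_eq_mul] at hl
        have hx : (y - x) / (y - 2) * 2 + (x - 2) / (y - 2) * y = x := by
          field_simp; ring
        rw [hx] at hl
        have ht0 : 0 ≤ (y - x) / (y - 2) := by apply div_nonneg <;> linarith
        have ht1 : (x - 2) / (y - 2) = 1 - (y - x) / (y - 2) := by field_simp; ring
        rw [ht1] at hl hx
        set s := (y - x) / (y - 2)
        -- Θ(x) ≤ s Θ(2) + (1 - s) Θ(y)
        have hk0 : 0 < 3 / 5 * k := by linarith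
        have h5 := mul_le_mul_of_nonneg_left hl hk0.le
        have hT2 : (k - 1) * 2 - 3 / 5 * k * Real.log 2 ≤ 6 / 5 := by nlinarith
        have hs1 : (k - 1) * x - 3 / 5 * k * Real.log x ≤
            s * ((k - 1) * 2 - 3 / 5 * k * Real.log 2) +
              (1 - s) * ((k - 1) * y - 3 / 5 * k * Real.log y) := by
          have : (k - 1) * x = (k - 1) * (s * 2 + (1 - s) * y) := by rw [hx]
          rw [this]
          nlinarith
        have hs2 : s * ((k - 1) * 2 - 3 / 5 * k * Real.log 2) ≤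
            s * ((k - 1) * y - 3 / 5 * k * Real.log y) :=
          mul_le_mul_of_nonneg_left (hT2.trans hT) ht0
        nlinarith
      nlinarith
  · push Not at hA
    obtain ⟨t0, ht0, hlt⟩ := hA
    -- first time with `U = 2`
    have hcU : Continuous fun t => (u t) ^ 2 := by fun_prop
    obtain ⟨t1, ht1m, ht1e, ht1f⟩ : ∃ t1 ∈ Icc 0 σ, (u t1) ^ 2 = 2 ∧
        ∀ t ∈ Icc 0 t1, 2 ≤ (u t) ^ 2 := by
      have hne : (Icc 0 σ ∩ {t | (u t) ^ 2 ≤ 2}).Nonempty := ⟨t0, ht0, hlt.le⟩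
      have hcl : IsCompact (Icc 0 σ ∩ {t | (u t) ^ 2 ≤ 2}) :=
        isCompact_Icc.inter_right (isClosed_le hcU continuous_const)
      obtain ⟨t1, ht1, hmin⟩ := hcl.exists_isLeast hne
      have hlow : ∀ t ∈ Ico 0 t1, 2 < (u t) ^ 2 := by
        intro t ht
        by_contra hcon
        push Not at hcon
        have := hmin ⟨⟨ht.1, ht.2.le.trans ht1.1.2⟩, hcon⟩
        exact absurd ht.2 (not_lt.2 this)
      have ht1pos : 0 < t1 := by
        rcases ht1.1.1.lt_or_eq with h | h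
        · exact h
        · exfalso
          have := ht1.2
          rw [← h] at this
          exact absurd hU0 (not_lt.2 this)
      have hge : 2 ≤ (u t1) ^ 2 := by
        have hcw : Filter.Tendsto (fun t => (u t) ^ 2) (nhdsWithin t1 (Iio t1))
            (nhds ((u t1) ^ 2)) := hcU.continuousAt.continuousWithinAt
        refine ge_of_tendsto hcw ?_
        filter_upwards [Ioo_mem_nhdsLT ht1pos] with t ht
        exact (hlow t ⟨ht.1.le, ht.2⟩).le
      refine ⟨t1, ht1.1, le_antisymm ht1.2 hge, fun t ht => ?_⟩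
      rcases ht.2.lt_or_eq with h | h
      · exact (hlow t ⟨ht.1, h⟩).le
      · rw [h]; exact hge
    have hs := segm k κ u K hk hκ hu h1 0 t1 ht1m.1 ht1f
    have h3 := neg_abs_le (Ph k (u t1) - Ph k (u 0))
    rw [hPh, hPh] at h3
    rw [hPh, hPh] at hs
    rw [ht1e] at hs h3
    have hrest : 0 ≤ ∫ t in t1..σ, ((deriv u t) ^ 2 + k ^ 2 * ((u t) ^ 2 - 1)) := by
      apply intervalIntegral.integral_nonneg ht1m.2
      intro t _
      have := h1 t
      have h4 : 0 ≤ (u t) ^ 2 - 1 := by nlinarith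
      positivity
    have hsplit := intervalIntegral.integral_add_adjacent_intervals (hF 0 t1) (hF t1 σ)
    have hus : 1 ≤ (u σ) ^ 2 := by have := h1 σ; nlinarith
    have hκt : 0 ≤ κ * t1 := mul_nonneg hκ0 ht1m.1
    have hP2 : k * (2 - 3 / 5 * Real.log 2) ≤ 1.67 := by nlinarith
    nlinarith

end Pool.Agent.Robin

end

section

/-!
# MP_4b551e_an, item H0: bounds for the support function
-/

open MeasureTheory Set Metric
open scoped ENNReal NNReal Pointwise RealInnerProductSpace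

namespace Pool.Agent.Robin

namespace H0

lemma dl_pos {N : ℕ} (hN : 8 ≤ N) : 0 < dl N := by
  have : (0 : ℝ) < N := by
    have : 0 < N := by omega
    exact_mod_cast this
  unfold dl
  positivity

lemma dl_le {N : ℕ} (hN : 8 ≤ N) : dl N ≤ Real.pi / 4 := by
  have h8 : (8 : ℝ) ≤ N := by exact_mod_cast hN
  unfold dl
  rw [div_le_div_iff₀ (by linarith) (by norm_num)]
  nlinarith [Real.pi_pos]

lemma sin_pos {N : ℕ} (hN : 8 ≤ N) : 0 < Real.sin (dl N) := by
  apply Real.sin_pos_of_pos_of_lt_pi (dl_pos hN)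
  have h2 := dl_le hN
  have := Real.pi_pos
  linarith

lemma dirv_comb (d a t : ℝ) (hd : Real.sin d ≠ 0) :
    dirv t = (Real.sin (a + d - t) / Real.sin d) • dirv a +
      (Real.sin (t - a) / Real.sin d) • dirv (a + d) := by
  have h1 : Real.sin (a + d - t) =
      (Real.sin a * Real.cos d + Real.cos a * Real.sin d) * Real.cos t -
        (Real.cos a * Real.cos d - Real.sin a * Real.sin d) * Real.sin t := by
    rw [Real.sin_sub, Real.sin_add, Real.cos_add]
  have h2 : Real.sin (t - a) = Real.sin t * Real.cos a - Real.cos t * Real.sin a :=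
    Real.sin_sub _ _
  have h3 := Real.sin_sq_add_cos_sq a
  ext k
  fin_cases k
  · simp only [dirv, PiLp.add_apply, PiLp.smul_apply, smul_eq_mul, Fin.zero_eta, Fin.isValue,
      Matrix.cons_val_zero]
    rw [div_mul_eq_mul_div, div_mul_eq_mul_div, ← add_div, eq_div_iff hd, h1, h2, Real.cos_add]
    linear_combination (-(Real.cos t * Real.sin d)) * h3
  · simp only [dirv, PiLp.add_apply, PiLp.smul_apply, smul_eq_mul, Fin.mk_one, Fin.isValue,
      Matrix.cons_val_one, Matrix.cons_val_fin_one]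
    rw [div_mul_eq_mul_div, div_mul_eq_mul_div, ← add_div, eq_div_iff hd, h1, h2, Real.sin_add]
    linear_combination (-(Real.sin t * Real.sin d)) * h3

end H0

open H0 in
theorem pr_H0 (h1 : T_P1) : T_H0 := by
  intro N c lo hi r₀ hS hb hlo θ
  have hN := hS.N_le
  have hd0 := dl_pos hN
  have hd1 := dl_le hN
  have hs := H0.sin_pos hN
  have hpi := Real.pi_pos
  set i : ℤ := ⌊θ / dl N⌋ with hi'
  obtain ⟨-, hv1, hv2⟩ := h1 N c i hN
  have hθ1 : (i : ℝ) * dl N ≤ θ := by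
    have := Int.floor_le (θ / dl N)
    rw [le_div_iff₀ hd0] at this
    exact this
  have hθ2 : θ < (i : ℝ) * dl N + dl N := by
    have := Int.lt_floor_add_one (θ / dl N)
    rw [div_lt_iff₀ hd0] at this
    have h5 : ((⌊θ / dl N⌋ : ℝ) + 1) * dl N = (i : ℝ) * dl N + dl N := by rw [← hi']; ring
    linarith
  set x : ℝ := θ - i * dl N with hx
  have hx0 : 0 ≤ x := by linarith
  have hx1 : x < dl N := by linarith
  set A : ℝ := Real.sin (dl N - x) / Real.sin (dl N) with hA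
  set B : ℝ := Real.sin x / Real.sin (dl N) with hB
  have hdir : dirv θ = A • nv N i + B • nv N (i + 1) := by
    have h2 := dirv_comb (dl N) (i * dl N) θ hs.ne'
    have h3 : (i : ℝ) * dl N + dl N - θ = dl N - x := by rw [hx]; ring
    have h4 : θ - (i : ℝ) * dl N = x := rfl
    have h5 : (i : ℝ) * dl N + dl N = ((i + 1 : ℤ) : ℝ) * dl N := by push_cast; ring
    rw [h3, h4, h5] at h2
    exact h2
  have hsx : 0 ≤ Real.sin x := Real.sin_nonneg_of_nonneg_of_le_pi hx0 (by linarith)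
  have hsdx : 0 ≤ Real.sin (dl N - x) :=
    Real.sin_nonneg_of_nonneg_of_le_pi (by linarith) (by linarith)
  have hA0 : 0 ≤ A := div_nonneg hsdx hs.le
  have hB0 : 0 ≤ B := div_nonneg hsx hs.le
  have hAB1 : 1 ≤ A + B := by
    rw [hA, hB, ← add_div, le_div_iff₀ hs, one_mul]
    have h2 : Real.sin (dl N) = Real.sin (dl N - x) * Real.cos x + Real.cos (dl N - x) * Real.sin x
        := by
      rw [← Real.sin_add]; congr 1; ring
    have h3 := Real.cos_le_one x
    have h4 := Real.cos_le_one (dl N - x)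
    nlinarith
  have hhalf : dl N / 2 = Real.pi / N := by unfold dl; ring
  have hcos : 0 < Real.cos (Real.pi / N) := by
    rw [← hhalf]
    apply Real.cos_pos_of_mem_Ioo
    constructor <;> linarith
  have hshalf : 0 < Real.sin (Real.pi / N) := by
    rw [← hhalf]
    exact Real.sin_pos_of_pos_of_lt_pi (by linarith) (by linarith)
  have hAB2 : A + B ≤ 1 / Real.cos (Real.pi / N) := by
    rw [hA, hB, ← add_div, div_le_div_iff₀ hs hcos]
    have h2 : Real.sin (dl N) = 2 * Real.sin (Real.pi / N) * Real.cos (Real.pi / N) := by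
      rw [← hhalf, ← Real.sin_two_mul]; congr 1; ring
    have h3 : Real.sin (dl N - x) + Real.sin x =
        2 * Real.sin (Real.pi / N) * Real.cos (Real.pi / N - x) := by
      have h4 : dl N - x = Real.pi / N + (Real.pi / N - x) := by rw [← hhalf]; ring
      have h5 : Real.sin x = Real.sin (Real.pi / N - (Real.pi / N - x)) := by congr 1; ring
      rw [h4, h5, Real.sin_add, Real.sin_sub (Real.pi / N) (Real.pi / N - x)]
      ring
    have h4 := Real.cos_le_one (Real.pi / N - x)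
    rw [h3, h2, one_mul]
    have h6 : 2 * Real.sin (Real.pi / N) * Real.cos (Real.pi / N - x) ≤
        2 * Real.sin (Real.pi / N) := by nlinarith
    nlinarith
  have hval : Hf N c 0 r₀ θ = A * c i + B * c (i + 1) + r₀ := by
    unfold Hf
    rw [← hi', sub_zero, hdir, inner_add_right, inner_smul_right, inner_smul_right, hv1, hv2]
  have hb1 := hb i
  have hb2 := hb (i + 1)
  have hhi : 0 < hi := lt_of_lt_of_le hlo (hb1.1.trans hb1.2)
  rw [hval]
  constructor
  · have h5 : A * lo ≤ A * c i := mul_le_mul_of_nonneg_left hb1.1 hA0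
    have h6 : B * lo ≤ B * c (i + 1) := mul_le_mul_of_nonneg_left hb2.1 hB0
    have h7 : lo ≤ (A + B) * lo := by nlinarith
    linarith
  · have h5 : A * c i ≤ A * hi := mul_le_mul_of_nonneg_left hb1.2 hA0
    have h6 : B * c (i + 1) ≤ B * hi := mul_le_mul_of_nonneg_left hb2.2 hB0
    have h7 : (A + B) * hi ≤ 1 / Real.cos (Real.pi / N) * hi :=
      mul_le_mul_of_nonneg_right hAB2 hhi.le
    have h8 : 1 / Real.cos (Real.pi / N) * hi = hi / Real.cos (Real.pi / N) := by ring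
    linarith

end Pool.Agent.Robin

end

section

/-!
# MP_4b551e_an: item H1 (the support function of a polygon)
-/

open MeasureTheory Set Metric
open scoped ENNReal NNReal Pointwise RealInnerProductSpace

namespace Pool.Agent.Robin

namespace H1

theorem inner_eq (x y : E2) : ⟪x, y⟫ = x 0 * y 0 + x 1 * y 1 := by
  rw [PiLp.inner_apply]
  simp [Fin.sum_univ_two]
  ring

theorem inner_dirv (w : E2) (θ : ℝ) : ⟪w, dirv θ⟫ = w 0 * Real.cos θ + w 1 * Real.sin θ := by
  rw [inner_eq]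
  simp [dirv]

theorem inner_rdirv (w : E2) (θ : ℝ) :
    ⟪w, rot (dirv θ)⟫ = w 0 * (-Real.sin θ) + w 1 * Real.cos θ := by
  rw [inner_eq]
  simp [dirv, rot]

theorem hasDeriv (w : E2) (r₀ θ : ℝ) :
    HasDerivAt (fun θ => ⟪w, dirv θ⟫ + r₀) ⟪w, rot (dirv θ)⟫ θ := by
  have h1 : HasDerivAt (fun θ : ℝ => w 0 * Real.cos θ + w 1 * Real.sin θ + r₀)
      (w 0 * (-Real.sin θ) + w 1 * Real.cos θ) θ :=
    (((Real.hasDerivAt_cos θ).const_mul _).add ((Real.hasDerivAt_sin θ).const_mul _)).add_const _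
  rw [inner_rdirv]
  refine h1.congr_of_eventuallyEq (Filter.Eventually.of_forall fun x => ?_)
  show ⟪w, dirv x⟫ + r₀ = _
  rw [inner_dirv]

theorem norm_rdirv (θ : ℝ) : ‖rot (dirv θ)‖ = 1 := by
  rw [EuclideanSpace.norm_eq]
  simp [rot, dirv, Fin.sum_univ_two]

theorem dl_pos {N : ℕ} (hN : 8 ≤ N) : 0 < dl N := by
  unfold dl
  have : (0 : ℝ) < N := by exact_mod_cast (by omega : 0 < N)
  have := Real.pi_pos
  positivity

theorem floor_eq {N : ℕ} (hN : 8 ≤ N) (i : ℤ) (θ : ℝ) (h1 : i * dl N ≤ θ)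
    (h2 : θ < (i + 1) * dl N) : ⌊θ / dl N⌋ = i := by
  rw [Int.floor_eq_iff]
  exact ⟨(le_div_iff₀ (dl_pos hN)).2 h1, (div_lt_iff₀ (dl_pos hN)).2 h2⟩

theorem nv_per {N : ℕ} (hN : 8 ≤ N) (i : ℤ) : nv N (i + N) = nv N i := by
  have h : ((i + N : ℤ) : ℝ) * dl N = i * dl N + 2 * Real.pi := by
    have : (N : ℝ) ≠ 0 := by exact_mod_cast (by omega : N ≠ 0)
    unfold dl
    push_cast
    field_simp
  unfold nv dirv
  rw [h, Real.cos_add_two_pi, Real.sin_add_two_pi]

theorem vx_per {N : ℕ} {c : ℤ → ℝ} (hc : Supp N c) (i : ℤ) : vx N c (i + N) = vx N c i := by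
  unfold vx tv
  rw [nv_per hc.N_le, hc.per, show i + (N : ℤ) + 1 = (i + 1) + N by ring, hc.per]

theorem vx_per_mul {N : ℕ} {c : ℤ → ℝ} (hc : Supp N c) (i : ℤ) (k : ℤ) :
    vx N c (i + k * N) = vx N c i := by
  induction k using Int.induction_on with
  | zero => simp
  | succ k ih =>
    rw [← ih, ← vx_per hc (i + k * N)]
    congr 1
    ring
  | pred k ih =>
    rw [← ih, ← vx_per hc (i + (-(k : ℤ) - 1) * N)]
    congr 1
    ring

theorem exists_mod {N : ℕ} {c : ℤ → ℝ} (hc : Supp N c) (i : ℤ) :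
    ∃ j ∈ Finset.range N, vx N c i = vx N c (j : ℤ) := by
  have hN : (0 : ℤ) < N := by have := hc.N_le; omega
  refine ⟨(i % N).toNat, ?_, ?_⟩
  · rw [Finset.mem_range]
    have h1 := Int.emod_nonneg i hN.ne'
    have h2 := Int.emod_lt_of_pos i hN
    omega
  · rw [Int.toNat_of_nonneg (Int.emod_nonneg i hN.ne')]
    have := vx_per_mul hc (i % N) (i / N)
    rw [← this]
    congr 1
    have := Int.emod_add_mul_ediv i N
    linarith

end H1

open H1 in
theorem pr_H1 (h1 : T_P1) : T_H1 := by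
  intro N c a r₀ hc
  have hN := hc.N_le
  have hd := dl_pos hN
  have hform : ∀ (i : ℤ) (θ : ℝ), i * dl N ≤ θ → θ < (i + 1) * dl N →
      Hf N c a r₀ θ = ⟪vx N c i - a, dirv θ⟫ + r₀ ∧
      dHf N c a θ = ⟪vx N c i - a, rot (dirv θ)⟫ := by
    intro i θ h2 h3
    unfold Hf dHf
    rw [floor_eq hN i θ h2 h3]
    exact ⟨rfl, rfl⟩
  have hpt : ∀ i : ℤ, Hf N c a r₀ (i * dl N) = c i - ⟪a, nv N i⟫ + r₀ := by
    intro i
    rw [(hform i _ le_rfl (by nlinarith)).1, inner_sub_left]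
    have := (h1 N c i hN).2.1
    unfold nv at this ⊢
    rw [this]
  have hclosed : ∀ (i : ℤ) (θ : ℝ), i * dl N ≤ θ → θ ≤ (i + 1) * dl N →
      Hf N c a r₀ θ = ⟪vx N c i - a, dirv θ⟫ + r₀ := by
    intro i θ h2 h3
    rcases h3.lt_or_eq with h4 | h4
    · exact (hform i θ h2 h4).1
    · have h5 := hpt (i + 1)
      push_cast at h5
      rw [h4, h5, inner_sub_left]
      have := (h1 N c i hN).2.2
      unfold nv at this ⊢
      push_cast at this ⊢
      rw [this]
  have hright : ∀ θ, HasDerivWithinAt (Hf N c a r₀) (dHf N c a θ) (Ici θ) θ := by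
    intro θ
    set i : ℤ := ⌊θ / dl N⌋ with hi
    have h2 : i * dl N ≤ θ := (le_div_iff₀ hd).1 (Int.floor_le _)
    have h3 : θ < (i + 1) * dl N := (div_lt_iff₀ hd).1 (Int.lt_floor_add_one _)
    rw [(hform i θ h2 h3).2]
    refine (hasDeriv (vx N c i - a) r₀ θ).hasDerivWithinAt.congr_of_eventuallyEq ?_
      (hform i θ h2 h3).1
    filter_upwards [Ico_mem_nhdsGE h3] with x hx
    exact (hform i x (h2.trans hx.1) hx.2).1
  refine ⟨?_, ?_, hright, hpt, hform, ?_, ?_⟩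
  · rw [continuous_iff_continuousAt]
    intro θ
    rw [continuousAt_iff_continuous_left_right]
    refine ⟨?_, (hright θ).continuousWithinAt⟩
    set j : ℤ := ⌈θ / dl N⌉ - 1 with hj
    have h2 : j * dl N < θ := by
      rw [← lt_div_iff₀ hd]
      have := Int.ceil_lt_add_one (θ / dl N)
      rw [hj]
      push_cast
      linarith
    have h3 : θ ≤ (j + 1) * dl N := by
      rw [← div_le_iff₀ hd]
      have := Int.le_ceil (θ / dl N)
      rw [hj]
      push_cast
      linarith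
    refine (hasDeriv (vx N c j - a) r₀ θ).continuousAt.continuousWithinAt.congr_of_eventuallyEq ?_
      (hclosed j θ h2.le h3)
    filter_upwards [Ioc_mem_nhdsLE h2] with x hx
    exact hclosed j x hx.1.le (hx.2.trans h3)
  · intro θ
    have h2 : (θ + 2 * Real.pi) / dl N = θ / dl N + (N : ℤ) := by
      have : (N : ℝ) ≠ 0 := by exact_mod_cast (by omega : N ≠ 0)
      have hpi := Real.pi_pos.ne'
      unfold dl
      push_cast
      field_simp
    unfold Hf
    rw [h2, Int.floor_add_intCast, vx_per hc]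
    have : dirv (θ + 2 * Real.pi) = dirv θ := by
      unfold dirv
      rw [Real.cos_add_two_pi, Real.sin_add_two_pi]
    rw [this]
  · have hv : Measurable fun θ : ℝ => vx N c ⌊θ / dl N⌋ :=
      (measurable_from_top (f := vx N c)).comp (Int.measurable_floor.comp (measurable_id.div_const _))
    have hr : Measurable fun θ : ℝ => rot (dirv θ) := by
      refine Continuous.measurable ?_
      unfold rot dirv
      fun_prop
    exact (hv.sub_const a).inner hr
  · refine ⟨∑ i ∈ Finset.range N, ‖vx N c (i : ℤ) - a‖, fun θ => ?_⟩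
    unfold dHf
    obtain ⟨j, hj, hj'⟩ := exists_mod hc ⌊θ / dl N⌋
    rw [hj']
    refine (abs_real_inner_le_norm _ _).trans ?_
    rw [norm_rdirv, mul_one]
    exact Finset.single_le_sum (f := fun i : ℕ => ‖vx N c (i : ℤ) - a‖) (fun i _ => norm_nonneg _) hj

end Pool.Agent.Robin

end
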