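import Pool.Agent.Work.MP_4b551e_an.Bd.B01
import Pool.Agent.Work.MP_4b551e_an.Bd.B02
import Pool.Agent.Work.MP_4b551e_an.Bd.B03
import Pool.Agent.Work.MP_4b551e_an.Pf.D1

/-! Bundle of small proof modules (one section per former module). -/

section

/-!
# B2: the boundary has finite length and zero area (helper7)
-/

open MeasureTheory Set Metric
open scoped ENNReal NNReal

namespace Pool.Agent.Robin

/-- inverse chart along the graph -/
noncomputable def gch (L : E2 ≃ₗᵢ[ℝ] E2) (p : E2) (f : ℝ → ℝ) (t : ℝ) : E2 :=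
  p + L.symm !₂[t, f t]

lemma norm_le_abs_add (x : E2) : ‖x‖ ≤ |x 0| + |x 1| := by
  rw [EuclideanSpace.norm_eq]
  rw [Fin.sum_univ_two]
  apply Real.sqrt_le_iff.2
  refine ⟨by positivity, ?_⟩
  rw [Real.norm_eq_abs, Real.norm_eq_abs]
  nlinarith [abs_nonneg (x 0), abs_nonneg (x 1)]

lemma lipschitz_gch (L : E2 ≃ₗᵢ[ℝ] E2) (p : E2) {f : ℝ → ℝ} {C : ℝ≥0} (hf : LipschitzWith C f) :
    LipschitzWith (1 + C) (gch L p f) := by
  refine LipschitzWith.of_dist_le_mul fun s t => ?_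
  unfold gch
  rw [dist_add_left, L.symm.dist_map, dist_eq_norm]
  refine (norm_le_abs_add _).trans ?_
  have h1 := hf.dist_le_mul s t
  rw [Real.dist_eq] at h1
  have e0 : ((!₂[s, f s] : E2) - !₂[t, f t]) 0 = s - t := by simp
  have e1 : ((!₂[s, f s] : E2) - !₂[t, f t]) 1 = f s - f t := by simp
  rw [e0, e1, NNReal.coe_add, NNReal.coe_one, add_mul, one_mul, Real.dist_eq]
  rw [Real.dist_eq] at h1
  linarith

lemma gch_of_eq (L : E2 ≃ₗᵢ[ℝ] E2) (p : E2) {f : ℝ → ℝ} {x : E2} (h : cy L p x = f (cx L p x)) :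
    gch L p f (cx L p x) = x := by
  unfold gch
  rw [← h]
  have : (!₂[cx L p x, cy L p x] : E2) = L (x - p) := by
    ext i
    fin_cases i <;> simp [cx, cy]
  rw [this, LinearIsometryEquiv.symm_apply_apply, add_sub_cancel]

lemma frontier_inter_cbox_subset (h : S_B1f) {K : Set E2} {p : E2} {L : E2 ≃ₗᵢ[ℝ] E2} {f : ℝ → ℝ}
    {C : ℝ≥0} {a b : ℝ} (hK : IsClosed K) (hc : Chart K p L f C a b) :
    frontier K ∩ cbox L p a b ⊆ gch L p f '' Ioo (-a) a := by
  rintro x ⟨hx, hxa, hxb⟩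
  have h1 := (h K p L f C a b hK hc x hxa hxb).1 hx
  exact ⟨cx L p x, abs_lt.1 hxa, gch_of_eq L p h1⟩

lemma hausdorff_frontier_inter_cbox (h : S_B1f) {K : Set E2} {p : E2} {L : E2 ≃ₗᵢ[ℝ] E2}
    {f : ℝ → ℝ} {C : ℝ≥0} {a b : ℝ} (hK : IsClosed K) (hc : Chart K p L f C a b) :
    μH[1] (frontier K ∩ cbox L p a b) < ⊤ := by
  refine (measure_mono (frontier_inter_cbox_subset h hK hc)).trans_lt ?_
  refine ((lipschitz_gch L p hc.lip).lipschitzOnWith.hausdorffMeasure_image_le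
    zero_le_one).trans_lt ?_
  rw [hausdorffMeasure_real, Real.volume_Ioo]
  refine ENNReal.mul_lt_top ?_ ENNReal.ofReal_lt_top
  rw [ENNReal.rpow_one]
  exact ENNReal.coe_lt_top

lemma volume_zero_of_hausdorff_one {S : Set E2} (h : μH[1] S < ⊤) : volume S = 0 := by
  have h1 : μH[2] S = 0 := by
    rcases Measure.hausdorffMeasure_zero_or_top (X := E2) (d₁ := 1) (d₂ := 2) (by norm_num) S with
      h2 | h2
    · exact h2
    · exact absurd h2 h.ne
  have h2 : (Module.finrank ℝ E2 : ℝ) = 2 := by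
    rw [finrank_euclideanSpace, Fintype.card_fin]
    norm_num
  have h3 : (μH[(Module.finrank ℝ E2 : ℝ)] : Measure E2).IsAddHaarMeasure := inferInstance
  have h4 : (volume : Measure E2) ≪ μH[(Module.finrank ℝ E2 : ℝ)] :=
    Measure.absolutelyContinuous_isAddHaarMeasure _ _
  apply h4
  rw [h2]
  exact h1

theorem prf_B2 (h : S_B1f) : S_B2 := by
  intro K hK hfr
  have key : ∀ x ∈ frontier K, ∃ u ∈ nhdsWithin x (frontier K), μH[1] u < ⊤ := by
    intro x hx
    obtain ⟨L, f, C, a, b, hc⟩ := hK.2 x hx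
    refine ⟨frontier K ∩ cbox L x a b, ?_, hausdorff_frontier_inter_cbox h hK.1 hc⟩
    refine inter_mem_nhdsWithin _ ((isOpen_cbox L x a b).mem_nhds ⟨?_, ?_⟩)
    · rw [cx_self]; simpa using hc.a_pos
    · rw [cy_self]; simpa using hc.b_pos
  constructor
  · exact hfr.measure_lt_top_of_nhdsWithin fun x hx => key x hx
  · refine measure_null_of_locally_null _ fun x hx => ?_
    obtain ⟨u, hu, hu'⟩ := key x hx
    exact ⟨u, hu, volume_zero_of_hausdorff_one hu'⟩

end Pool.Agent.Robin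

end

section

/-!
# MP_4b551e_an, item B3d: components of the complement
-/

open MeasureTheory Set Metric
open scoped ENNReal NNReal Pointwise RealInnerProductSpace

namespace Pool.Agent.Robin

namespace PfB3d

open PfB3b

/-- the part of `K` in the box of a chart is connected -/
theorem chart_conn {K : Set E2} {x : E2} {L : E2 ≃ₗᵢ[ℝ] E2} {f : ℝ → ℝ} {C : ℝ≥0} {a b : ℝ}
    (hch : Chart K x L f C a b) {y : E2} (hyK : y ∈ K)
    (h1 : |cx L x y| < a) (h2 : |cy L x y| < b) : y ∈ connectedComponentIn K x := by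
  set U : Set E2 := Phi L x f b '' (Ioo (-a) a ×ˢ Ico (0 : ℝ) 1) with hU
  have hUpre : IsPreconnected U :=
    ((isPreconnected_Ioo.prod isPreconnected_Ico).image _
      (Phi_cont L x hch.lip.continuous b).continuousOn)
  have hUK : U ⊆ K := by
    rintro _ ⟨⟨t, s⟩, ⟨ht, hs⟩, rfl⟩
    have ht' : |t| < a := abs_lt.mpr ht
    have hft := abs_lt.mp (hch.f_lt t ht'.le)
    have hs0 : 0 ≤ s := hs.1
    have hs1 : s < 1 := hs.2
    refine (hch.mem _ ?_ ?_).mpr ?_
    · rw [cx_Phi]; exact ht'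
    · rw [cy_Phi]
      change |f t + s * (b - f t)| < b
      rw [abs_lt]
      constructor <;> nlinarith
    · rw [cx_Phi, cy_Phi]
      change f t ≤ f t + s * (b - f t)
      nlinarith
  have hxU : x ∈ U := by
    refine ⟨(0, 0), ⟨?_, ?_⟩, ?_⟩
    · exact ⟨by simpa using hch.a_pos, hch.a_pos⟩
    · exact ⟨le_rfl, one_pos⟩
    · refine eq_of_coords L x _ _ ?_ ?_
      · rw [cx_Phi]; simp [cx]
      · rw [cy_Phi]
        change f 0 + 0 * (b - f 0) = cy L x x
        rw [hch.f0]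
        simp [cy]
  refine hUpre.subset_connectedComponentIn hxU hUK ?_
  have h3 := (hch.mem y h1 h2).mp hyK
  have h4 := abs_lt.mp (hch.f_lt _ h1.le)
  have h5 := abs_lt.mp h2
  have h6 : 0 < b - f (cx L x y) := by linarith
  refine ⟨(cx L x y, (cy L x y - f (cx L x y)) / (b - f (cx L x y))), ⟨abs_lt.mp h1, ?_, ?_⟩, ?_⟩
  · exact div_nonneg (by linarith) h6.le
  · change (cy L x y - f (cx L x y)) / (b - f (cx L x y)) < 1
    rw [div_lt_one h6]
    linarith
  · refine eq_of_coords L x _ _ ?_ ?_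
    · rw [cx_Phi]
    · rw [cy_Phi]
      change f (cx L x y) + (cy L x y - f (cx L x y)) / (b - f (cx L x y)) *
        (b - f (cx L x y)) = _
      rw [div_mul_cancel₀ _ h6.ne']
      ring

end PfB3d

open PfB3d in
theorem prf_B3d (h1 : S_B1) (_h1f : S_B1f) (hb : S_B3b) : S_B3d := by
  intro Ω hΩ x hx
  have hK : LipClosed Ωᶜ := h1 Ω hΩ
  set C := connectedComponentIn Ωᶜ x with hC
  have hCK : C ⊆ Ωᶜ := connectedComponentIn_subset _ _
  have hxC : x ∈ C := mem_connectedComponentIn hx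
  have hcomp : ∀ p ∈ C, connectedComponentIn Ωᶜ p = C := fun p hp =>
    (connectedComponentIn_eq hp).symm
  have hCcl : IsClosed C := by
    have h2 : closure C ⊆ C :=
      (isPreconnected_connectedComponentIn.closure).subset_connectedComponentIn
        (subset_closure hxC) (closure_minimal hCK hK.1)
    exact closure_subset_iff_isClosed.mp h2
  have hfrC : frontier C ⊆ C := hCcl.frontier_subset
  have hfr1 : frontier C ⊆ frontier Ω := by
    intro p hp
    by_contra hpf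
    rw [← frontier_compl] at hpf
    have hpC : p ∈ C := hfrC hp
    have hint : p ∈ interior Ωᶜ := by
      by_contra h
      exact hpf ⟨subset_closure (hCK hpC), h⟩
    obtain ⟨δ, hδ, hsub⟩ := hb Ω hΩ p (hCK hpC)
    obtain ⟨δ', hδ', hsub'⟩ := Metric.isOpen_iff.mp isOpen_interior p hint
    have h3 : ball p (min δ δ') ⊆ C := by
      intro y hy
      rw [← hcomp p hpC]
      refine hsub ⟨interior_subset (hsub' ?_), ?_⟩
      · exact ball_subset_ball (min_le_right _ _) hy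
      · exact ball_subset_ball (min_le_left _ _) hy
    have h4 : p ∈ interior C := mem_interior.mpr
      ⟨ball p (min δ δ'), h3, isOpen_ball, mem_ball_self (lt_min hδ hδ')⟩
    exact hp.2 h4
  have hfr : frontier C = frontier Ω ∩ C := by
    refine Subset.antisymm (fun p hp => ⟨hfr1 hp, hfrC hp⟩) ?_
    rintro p ⟨hp1, hp2⟩
    rw [frontier_eq_closure_inter_closure]
    refine ⟨subset_closure hp2, ?_⟩
    have h5 : Ω ⊆ Cᶜ := fun z hz hzC => hCK hzC hz
    exact closure_mono h5 (frontier_subset_closure hp1)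
  refine ⟨⟨hCcl, ?_⟩, hfr, ?_⟩
  · intro p hp
    have hpK : p ∈ frontier Ωᶜ := by
      rw [frontier_compl]
      exact hfr1 hp
    obtain ⟨L, f, Cc, a, b, hch⟩ := hK.2 p hpK
    refine ⟨L, f, Cc, a, b, ⟨hch.a_pos, hch.b_pos, hch.lip, hch.f0, hch.f_lt, ?_⟩⟩
    intro y hy1 hy2
    rw [← hch.mem y hy1 hy2]
    refine ⟨fun h => hCK h, fun h => ?_⟩
    rw [← hcomp p (hfrC hp)]
    exact chart_conn hch h hy1 hy2
  · rw [nonempty_frontier_iff]
    refine ⟨⟨x, hxC⟩, fun h => ?_⟩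
    obtain ⟨z, hz⟩ := hΩ.isConnected.nonempty
    exact hCK (by rw [h]; exact mem_univ z) hz

end Pool.Agent.Robin

end

section

/-!
# C11: components on a generic line (helper7)
-/

open MeasureTheory Set Metric
open scoped ENNReal NNReal Pointwise RealInnerProductSpace

namespace Pool.Agent.Robin

namespace ItemC11

lemma inner_rot_self (ν : E2) : ⟪rot ν, ν⟫ = 0 := by
  unfold rot
  rw [PiLp.inner_apply, Fin.sum_univ_two]
  simp
  ring

lemma norm_rot (ν : E2) : ‖rot ν‖ = ‖ν‖ := by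
  unfold rot
  rw [EuclideanSpace.norm_eq, EuclideanSpace.norm_eq, Fin.sum_univ_two, Fin.sum_univ_two]
  simp
  ring_nf

lemma inner_rot_rot (ν : E2) (hν : ‖ν‖ = 1) : ⟪rot ν, rot ν⟫ = 1 := by
  rw [real_inner_self_eq_norm_sq, norm_rot, hν, one_pow]

variable {K : Set E2} {ν : E2} {c : ℝ}

/-- moving a little along the line inside the set does not change the component -/
lemma step {m : ℕ} (F : LocallyConstant (K ∩ line ν c : Set E2) (Fin m))
    (x : (K ∩ line ν c : Set E2)) (e : E2) (he : ⟪e, ν⟫ = 0) (δ : ℝ) (hδ : 0 < δ)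
    (hK : ∀ τ : ℝ, 0 < τ → τ < δ → x.1 + τ • e ∈ K) :
    ∃ τ : ℝ, 0 < τ ∧ ∃ y : (K ∩ line ν c : Set E2), y.1 = x.1 + τ • e ∧ F y = F x := by
  have hopen : IsOpen (F ⁻¹' {F x}) := F.isLocallyConstant.isOpen_fiber _
  obtain ⟨U, hU, hUF⟩ := isOpen_induced_iff.1 hopen
  have hxU : x.1 ∈ U := by
    have : x ∈ Subtype.val ⁻¹' U := by
      rw [hUF]
      rfl
    exact this
  have hcont : Continuous fun t : ℝ => x.1 + t • e := by fun_prop
  have hnhds : U ∈ nhds (x.1 + (0 : ℝ) • e) := by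
    rw [zero_smul, add_zero]
    exact hU.mem_nhds hxU
  obtain ⟨ε, hε, hball⟩ := Metric.mem_nhds_iff.1 (hcont.continuousAt.preimage_mem_nhds hnhds)
  have hmin : 0 < min δ ε / 2 := by positivity
  have h1 : min δ ε / 2 < δ := by
    have := min_le_left δ ε
    linarith [lt_min hδ hε]
  have h2 : min δ ε / 2 < ε := by
    have := min_le_right δ ε
    linarith [lt_min hδ hε]
  have hyl : x.1 + (min δ ε / 2) • e ∈ line ν c := by
    have hx := x.2.2
    unfold line at hx ⊢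
    rw [mem_ofPred_eq] at hx ⊢
    rw [inner_add_left, inner_smul_left, he, mul_zero, add_zero, hx]
  refine ⟨min δ ε / 2, hmin, ⟨x.1 + (min δ ε / 2) • e, hK _ hmin h1, hyl⟩, rfl, ?_⟩
  have hy : x.1 + (min δ ε / 2) • e ∈ U := by
    apply hball
    rw [mem_ball_zero_iff, Real.norm_eq_abs, abs_of_pos hmin]
    exact h2
  have hy2 : (⟨x.1 + (min δ ε / 2) • e, hK _ hmin h1, hyl⟩ : (K ∩ line ν c : Set E2)) ∈
      Subtype.val ⁻¹' U := hy
  rw [hUF] at hy2
  exact hy2

/-- interior points can be moved in both directions -/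
lemma interior_step (x e : E2) (hx : x ∈ interior K) :
    ∃ δ : ℝ, 0 < δ ∧ ∀ τ : ℝ, 0 < τ → τ < δ → x + τ • e ∈ K := by
  have hcont : Continuous fun t : ℝ => x + t • e := by fun_prop
  have hnhds : interior K ∈ nhds (x + (0 : ℝ) • e) := by
    rw [zero_smul, add_zero]
    exact isOpen_interior.mem_nhds hx
  obtain ⟨ε, hε, hball⟩ := Metric.mem_nhds_iff.1 (hcont.continuousAt.preimage_mem_nhds hnhds)
  refine ⟨ε, hε, fun τ h0 h1 => interior_subset (hball ?_)⟩
  rw [mem_ball_zero_iff, Real.norm_eq_abs, abs_of_pos h0]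
  exact h1

/-- the extreme point of a component in direction `e` is a boundary point -/
lemma extreme (hK : IsCompact K) {m : ℕ}
    (F : LocallyConstant (K ∩ line ν c : Set E2) (Fin m)) (i : Fin m) (hne : ∃ x, F x = i)
    (e : E2) (he : ⟪e, ν⟫ = 0) (hee : ⟪e, e⟫ = 1) :
    ∃ x : (K ∩ line ν c : Set E2), F x = i ∧ x.1 ∈ frontier K ∧
      ∀ y : (K ∩ line ν c : Set E2), F y = i → ⟪y.1, e⟫ ≤ ⟪x.1, e⟫ := by
  have hline : IsClosed (line ν c) := by
    unfold line
    exact isClosed_eq (continuous_id.inner continuous_const) continuous_const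
  have hcs : CompactSpace (K ∩ line ν c : Set E2) :=
    isCompact_iff_compactSpace.1 (hK.inter_right hline)
  have hcl : IsClosed (F ⁻¹' {i}) := F.isLocallyConstant.isClosed_fiber _
  obtain ⟨x, hx, hmax⟩ := hcl.isCompact.exists_isMaxOn (f := fun y => ⟪y.1, e⟫) hne
    ((continuous_subtype_val.inner continuous_const).continuousOn)
  refine ⟨x, hx, ?_, fun y hy => hmax hy⟩
  rw [hK.isClosed.frontier_eq]
  refine ⟨x.2.1, fun hxi => ?_⟩
  obtain ⟨δ, hδ, hδK⟩ := interior_step (K := K) x.1 e hxi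
  obtain ⟨τ, hτ, y, hy, hFy⟩ := step F x e he δ hδ hδK
  have h1 : ⟪y.1, e⟫ ≤ ⟪x.1, e⟫ := hmax (hFy.trans hx)
  rw [hy, inner_add_left, inner_smul_left, hee] at h1
  simp only [conj_trivial, mul_one] at h1
  linarith

end ItemC11

open ItemC11

theorem prf_C11' (ht : S_Trans) : S_C11 := by
  intro K ν hK hKL hν
  have hfr : IsCompact (frontier K) := hK.of_isClosed_subset isClosed_frontier
    hK.isClosed.frontier_subset
  filter_upwards [ht K ν hKL hfr hν] with c hc
  obtain ⟨hfin, htr⟩ := hc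
  unfold crs
  -- reduction to finite `m`
  suffices h : ∀ m : ℕ, (m : ℕ∞) ≤ bs (K ∩ line ν c) →
      ((2 * m : ℕ) : ℕ∞) ≤ (frontier K ∩ line ν c).encard by
    obtain ⟨n, hn⟩ : ∃ n : ℕ, (n : ℕ∞) = bs (K ∩ line ν c) := by
      rw [← ENat.ne_top_iff_exists]
      intro htop
      obtain ⟨k, hk⟩ := ENat.ne_top_iff_exists.1 (encard_ne_top_iff.2 hfin)
      have := h (k + 1) (by rw [htop]; exact le_top)
      rw [← hk, Nat.cast_le] at this
      omega
    have h2 := h n hn.le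
    rw [← hn]
    have h3 : (((2 * n : ℕ) : ℕ∞) : ℝ≥0∞) ≤
        (((frontier K ∩ line ν c).encard : ℕ∞) : ℝ≥0∞) := by
      exact_mod_cast h2
    refine le_trans (le_of_eq ?_) h3
    push_cast
    rfl
  intro m hm
  rcases Nat.eq_zero_or_pos m with rfl | hm0
  · simp
  obtain ⟨F, hF⟩ := exists_surj_of_le_b0 hm0 hm
  have hr := inner_rot_self ν
  have hrr := inner_rot_rot ν hν
  have h1 : ∀ i : Fin m, ∃ x : (K ∩ line ν c : Set E2), F x = i ∧ x.1 ∈ frontier K ∧
      ∀ y : (K ∩ line ν c : Set E2), F y = i → ⟪y.1, rot ν⟫ ≤ ⟪x.1, rot ν⟫ :=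
    fun i => extreme hK F i (hF i) (rot ν) hr hrr
  have h2 : ∀ i : Fin m, ∃ x : (K ∩ line ν c : Set E2), F x = i ∧ x.1 ∈ frontier K ∧
      ∀ y : (K ∩ line ν c : Set E2), F y = i → ⟪y.1, -rot ν⟫ ≤ ⟪x.1, -rot ν⟫ :=
    fun i => extreme hK F i (hF i) (-rot ν) (by rw [inner_neg_left, hr, neg_zero])
      (by rw [inner_neg_neg, hrr])
  choose xp hxp1 hxp2 hxp3 using h1
  choose xm hxm1 hxm2 hxm3 using h2
  have hne : ∀ i, xp i ≠ xm i := by
    intro i heq
    -- the component would be a single point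
    have hconst : ∀ y : (K ∩ line ν c : Set E2), F y = i → ⟪y.1, rot ν⟫ = ⟪(xp i).1, rot ν⟫ := by
      intro y hy
      refine le_antisymm (hxp3 i y hy) ?_
      have := hxm3 i y hy
      rw [← heq, inner_neg_right, inner_neg_right] at this
      linarith
    obtain ⟨e, δ, he, hδ, hτ⟩ := htr (xp i).1 ⟨hxp2 i, (xp i).2.2⟩
    have he0 : ⟪e, ν⟫ = 0 := by
      rcases he with rfl | rfl
      · exact hr
      · rw [inner_neg_left, hr, neg_zero]
    obtain ⟨τ, hτ0, y, hy, hFy⟩ := step F (xp i) e he0 δ hδ fun τ h0 h1 => (hτ τ h0 h1).1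
    have h3 := hconst y (hFy.trans (hxp1 i))
    rw [hy, inner_add_left, inner_smul_left] at h3
    simp only [conj_trivial] at h3
    rcases he with rfl | rfl
    · rw [hrr] at h3
      linarith
    · rw [inner_neg_left, hrr] at h3
      linarith
  -- the injection
  let φ : Fin m × Bool → E2 := fun p => if p.2 then (xp p.1).1 else (xm p.1).1
  have hφ : Function.Injective φ := by
    have hF2 : ∀ p : Fin m × Bool, ∃ y : (K ∩ line ν c : Set E2), y.1 = φ p ∧ F y = p.1 := by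
      rintro ⟨i, b⟩
      cases b
      · exact ⟨xm i, rfl, hxm1 i⟩
      · exact ⟨xp i, rfl, hxp1 i⟩
    rintro ⟨i, b⟩ ⟨i', b'⟩ h
    obtain ⟨y, hy1, hy2⟩ := hF2 ⟨i, b⟩
    obtain ⟨y', hy1', hy2'⟩ := hF2 ⟨i', b'⟩
    have : y = y' := Subtype.ext (by rw [hy1, hy1', h])
    have hii : i = i' := by
      rw [← this, hy2] at hy2'
      exact hy2'
    subst hii
    cases b <;> cases b'
    · rfl
    · exact absurd (Subtype.ext h.symm) (hne i)
    · exact absurd (Subtype.ext h) (hne i)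
    · rfl
  have hsub : range φ ⊆ frontier K ∩ line ν c := by
    rintro _ ⟨⟨i, b⟩, rfl⟩
    cases b
    · exact ⟨hxm2 i, (xm i).2.2⟩
    · exact ⟨hxp2 i, (xp i).2.2⟩
  have hcard := encard_le_encard hsub
  rw [← image_univ, hφ.injOn.encard_image, encard_univ, ENat.card_eq_coe_fintype_card,
    Fintype.card_prod, Fintype.card_fin, Fintype.card_bool] at hcard
  rw [mul_comm]
  exact hcard

theorem prf_C11 (ht : S_Trans) (_h1 : S_B1f) (_h4 : S_C4) : S_C11 := prf_C11' ht

end Pool.Agent.Robin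

end

section

set_option autoImplicit false

open MeasureTheory Set Metric
open scoped ENNReal NNReal Pointwise

namespace Pool.Agent.Robin

namespace IC4

theorem b0_of_isEmpty (X : Type) [TopologicalSpace X] [IsEmpty X] : b0 X = 0 := by
  have : Subsingleton (LocallyConstant X (ZMod 2)) :=
    ⟨fun f g => LocallyConstant.ext fun x => isEmptyElim x⟩
  unfold b0
  rw [rank_subsingleton']
  simp

theorem one_le_b0 (X : Type) [TopologicalSpace X] [Nonempty X] : 1 ≤ b0 X := by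
  obtain ⟨x⟩ := ‹Nonempty X›
  have : Nontrivial (LocallyConstant X (ZMod 2)) := by
    refine ⟨0, 1, fun h => ?_⟩
    have := congrArg (fun f : LocallyConstant X (ZMod 2) => f x) h
    simp at this
  have h1 : (1 : Cardinal) ≤ Module.rank (ZMod 2) (LocallyConstant X (ZMod 2)) :=
    Cardinal.one_le_iff_pos.2 rank_pos
  have h2 := Cardinal.toENat.monotone' h1
  have h3 : Cardinal.toENat (1 : Cardinal) = 1 := map_one _
  have h4 : Cardinal.toENat (1 : Cardinal) ≤ b0 X := h2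
  rwa [h3] at h4

theorem main (ε : ℝ) (hε : 0 ≤ ε) : ∀ (n : ℕ) (X : Set ℝ), IsCompact X → b0 X ≤ n →
    volume (X + Icc 0 ε) ≤ volume X + ENNReal.ofReal ε * ((b0 X : ℕ∞) : ℝ≥0∞) := by
  intro n
  induction n with
  | zero =>
    intro X _ hb
    rcases X.eq_empty_or_nonempty with rfl | hne
    · simp
    · have : Nonempty X := hne.to_subtype
      have h1 := one_le_b0 X
      have h2 := h1.trans hb
      simp at h2
  | succ n ih =>
    intro X hX hb
    rcases X.eq_empty_or_nonempty with rfl | hne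
    · simp
    have hne' : Nonempty X := hne.to_subtype
    by_cases hcon : IsPreconnected X
    · have hXI := eq_Icc_of_connected_compact ⟨hne, hcon⟩ hX
      set a := sInf X
      set b := sSup X
      have hab : a ≤ b := by
        rw [hXI] at hne
        exact nonempty_Icc.1 hne
      have hsub : X + Icc 0 ε ⊆ Icc a (b + ε) := by
        rintro _ ⟨x, hx, y, hy, rfl⟩
        rw [hXI] at hx
        exact ⟨by have := hx.1; have := hy.1; simp only; linarith,
          by have := hx.2; have := hy.2; simp only; linarith⟩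
      have h1 : (1 : ℝ≥0∞) ≤ ((b0 X : ℕ∞) : ℝ≥0∞) := by
        have := ENat.toENNReal_mono (one_le_b0 X)
        simpa using this
      calc volume (X + Icc 0 ε) ≤ volume (Icc a (b + ε)) := measure_mono hsub
        _ = ENNReal.ofReal (b - a) + ENNReal.ofReal ε := by
            rw [Real.volume_Icc, ← ENNReal.ofReal_add (sub_nonneg.2 hab) hε]
            congr 1
            ring
        _ = volume X + ENNReal.ofReal ε := by
            congr 1
            conv_rhs => rw [hXI]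
            rw [Real.volume_Icc]
        _ ≤ volume X + ENNReal.ofReal ε * ((b0 X : ℕ∞) : ℝ≥0∞) := by
            gcongr
            calc ENNReal.ofReal ε = ENNReal.ofReal ε * 1 := (mul_one _).symm
              _ ≤ _ := by gcongr
    · rw [isPreconnected_iff_ordConnected] at hcon
      obtain ⟨x, hx, y, hy, z, hz, hzX⟩ : ∃ x ∈ X, ∃ y ∈ X, ∃ z ∈ Icc x y, z ∉ X := by
        by_contra hc
        push Not at hc
        exact hcon ⟨fun x hx y hy z hz => hc x hx y hy z hz⟩
      set X1 : Set ℝ := X ∩ Iic z with hX1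
      set X2 : Set ℝ := X ∩ Ici z with hX2
      have hc1 : IsCompact X1 := hX.inter_right isClosed_Iic
      have hc2 : IsCompact X2 := hX.inter_right isClosed_Ici
      have hn1 : Nonempty X1 := ⟨⟨x, hx, hz.1⟩⟩
      have hn2 : Nonempty X2 := ⟨⟨y, hy, hz.2⟩⟩
      have hun : X1 ∪ X2 = X := by
        ext t
        constructor
        · rintro (h | h)
          · exact h.1
          · exact h.1
        · intro h
          rcases le_total t z with h' | h'
          · exact Or.inl ⟨h, h'⟩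
          · exact Or.inr ⟨h, h'⟩
      have hint : X1 ∩ X2 = ∅ := by
        ext t
        simp only [mem_empty_iff_false, iff_false]
        rintro ⟨⟨h1, h2⟩, _, h3⟩
        have : t = z := le_antisymm h2 h3
        rw [this] at h1
        exact hzX h1
      have hmv := IC1.mv X1 X2 hc1.isClosed hc2.isClosed
      have hem : b0 (X1 ∩ X2 : Set ℝ) = 0 := by
        have : IsEmpty (X1 ∩ X2 : Set ℝ) := by
          rw [hint]
          infer_instance
        exact b0_of_isEmpty _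
      rw [hem, add_zero, hun] at hmv
      have h11 := one_le_b0 X1
      have h12 := one_le_b0 X2
      have hb1 : b0 X1 ≤ n := by
        have h5 : b0 X1 + 1 ≤ (n : ℕ∞) + 1 := by
          calc b0 X1 + 1 ≤ b0 X1 + b0 X2 := by gcongr
            _ ≤ b0 X := hmv
            _ ≤ _ := by exact_mod_cast hb
        exact (ENat.add_le_add_iff_right (by simp)).1 h5
      have hb2 : b0 X2 ≤ n := by
        have h5 : b0 X2 + 1 ≤ (n : ℕ∞) + 1 := by
          calc b0 X2 + 1 ≤ b0 X2 + b0 X1 := by gcongr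
            _ = b0 X1 + b0 X2 := add_comm _ _
            _ ≤ b0 X := hmv
            _ ≤ _ := by exact_mod_cast hb
        exact (ENat.add_le_add_iff_right (by simp)).1 h5
      have i1 := ih X1 hc1 hb1
      have i2 := ih X2 hc2 hb2
      have hvol : volume X1 + volume X2 = volume X := by
        rw [← measure_union (Set.disjoint_iff_inter_eq_empty.2 hint) hc2.isClosed.measurableSet,
          hun]
      have hcast : ((b0 X1 : ℕ∞) : ℝ≥0∞) + ((b0 X2 : ℕ∞) : ℝ≥0∞) ≤ ((b0 X : ℕ∞) : ℝ≥0∞) := by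
        rw [← ENat.toENNReal_add]
        exact ENat.toENNReal_mono hmv
      calc volume (X + Icc 0 ε) = volume ((X1 + Icc 0 ε) ∪ (X2 + Icc 0 ε)) := by
            rw [← Set.union_add, hun]
        _ ≤ volume (X1 + Icc 0 ε) + volume (X2 + Icc 0 ε) := measure_union_le _ _
        _ ≤ (volume X1 + ENNReal.ofReal ε * ((b0 X1 : ℕ∞) : ℝ≥0∞)) +
            (volume X2 + ENNReal.ofReal ε * ((b0 X2 : ℕ∞) : ℝ≥0∞)) := add_le_add i1 i2
        _ = volume X + ENNReal.ofReal ε * (((b0 X1 : ℕ∞) : ℝ≥0∞) + ((b0 X2 : ℕ∞) : ℝ≥0∞)) := by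
            rw [← hvol]
            ring
        _ ≤ _ := by gcongr

end IC4

theorem prf_C4 (_h1 : S_C2) : S_C4 := by
  intro X ε hX hε
  by_cases hb : b0 X = ⊤
  · rcases hε.eq_or_lt with h | h
    · rw [← h]
      simp
    · rw [hb]
      have : ENNReal.ofReal ε * (((⊤ : ℕ∞)) : ℝ≥0∞) = ⊤ := by
        rw [ENat.toENNReal_top, ENNReal.mul_top]
        simpa using h
      rw [this]
      simp
  · obtain ⟨n, hn⟩ := ENat.ne_top_iff_exists.1 hb
    exact IC4.main ε hε n X hX (by rw [← hn])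

end Pool.Agent.Robin

end

section

/-!
# C4m: the number of components of the sections is measurable (helper7)
-/

open MeasureTheory Set Metric TopologicalSpace
open scoped ENNReal NNReal Pointwise RealInnerProductSpace

namespace Pool.Agent.Robin

namespace ItemC4m

/-- finite unions of basic open sets -/
def O (s : Finset (countableBasis E2)) : Set E2 := ⋃ B ∈ s, (B : Set E2)

lemma isOpen_O (s : Finset (countableBasis E2)) : IsOpen (O s) :=
  isOpen_biUnion fun B _ => (isBasis_countableBasis E2).isOpen B.2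

lemma exists_O {C U : Set E2} (hC : IsCompact C) (hU : IsOpen U) (hCU : C ⊆ U) :
    ∃ s, C ⊆ O s ∧ O s ⊆ U := by
  classical
  have h1 : ∀ x ∈ C, ∃ B : countableBasis E2, x ∈ (B : Set E2) ∧ (B : Set E2) ⊆ U := by
    intro x hx
    obtain ⟨B, hB, hxB, hBU⟩ := (isBasis_countableBasis E2).exists_subset_of_mem_open (hCU hx) hU
    exact ⟨⟨B, hB⟩, hxB, hBU⟩
  choose B hB1 hB2 using h1
  obtain ⟨t, hCt⟩ := hC.elim_nhds_subcover' (fun x hx => (B x hx : Set E2))
    fun x hx => ((isBasis_countableBasis E2).isOpen (B x hx).2).mem_nhds (hB1 x hx)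
  refine ⟨t.image fun x => B x.1 x.2, ?_, ?_⟩
  · intro x hx
    obtain ⟨y, hy, hxy⟩ := mem_iUnion₂.1 (hCt hx)
    refine mem_iUnion₂.2 ⟨B y.1 y.2, Finset.mem_image.2 ⟨y, hy, rfl⟩, hxy⟩
  · intro x hx
    obtain ⟨y, hy, hxy⟩ := mem_iUnion₂.1 hx
    obtain ⟨z, hz, rfl⟩ := Finset.mem_image.1 hy
    exact hB2 z.1 z.2 hxy

variable {K : Set E2} {ν : E2}

lemma continuous_inner_right (ν : E2) : Continuous fun x : E2 => ⟪x, ν⟫ :=
  continuous_id.inner continuous_const

lemma nonempty_iff (S : Set E2) (ν : E2) (c : ℝ) :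
    (S ∩ line ν c).Nonempty ↔ c ∈ (fun x : E2 => ⟪x, ν⟫) '' S := by
  constructor
  · rintro ⟨x, hx, hxc⟩
    exact ⟨x, hx, hxc⟩
  · rintro ⟨x, hx, hxc⟩
    exact ⟨x, hx, hxc⟩

/-- projections of relatively open subsets of a compact set are measurable -/
lemma meas_open (hK : IsCompact K) (ν : E2) {U : Set E2} (hU : IsOpen U) :
    MeasurableSet {c : ℝ | (K ∩ U ∩ line ν c).Nonempty} := by
  obtain ⟨F, hF1, -, hF3, -⟩ := hU.exists_iUnion_isClosed
  have : {c : ℝ | (K ∩ U ∩ line ν c).Nonempty} =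
      ⋃ n, (fun x : E2 => ⟪x, ν⟫) '' (K ∩ F n) := by
    ext c
    rw [mem_ofPred_eq, nonempty_iff, ← image_iUnion, ← inter_iUnion, hF3]
  rw [this]
  exact MeasurableSet.iUnion fun n =>
    ((hK.inter_right (hF1 n)).image (continuous_inner_right ν)).isClosed.measurableSet

/-- the set of sections contained in an open set is measurable -/
lemma meas_subset (hK : IsCompact K) (ν : E2) {U : Set E2} (hU : IsOpen U) :
    MeasurableSet {c : ℝ | K ∩ line ν c ⊆ U} := by
  have : {c : ℝ | K ∩ line ν c ⊆ U} = ((fun x : E2 => ⟪x, ν⟫) '' (K \ U))ᶜ := by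
    ext c
    rw [mem_ofPred_eq, mem_compl_iff, ← nonempty_iff, not_nonempty_iff_eq_empty]
    constructor
    · intro h
      rw [eq_empty_iff_forall_notMem]
      rintro x ⟨⟨h1, h2⟩, h3⟩
      exact h2 (h ⟨h1, h3⟩)
    · rintro h x ⟨h1, h3⟩
      by_contra h2
      exact (eq_empty_iff_forall_notMem.1 h) x ⟨⟨h1, h2⟩, h3⟩
  rw [this]
  exact ((hK.diff hU).image (continuous_inner_right ν)).isClosed.measurableSet.compl

lemma isClosed_line (ν : E2) (c : ℝ) : IsClosed (line ν c) := by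
  unfold line
  exact isClosed_eq (continuous_inner_right ν) continuous_const

/-- characterisation of sections with at least `m` components -/
lemma le_bs_iff (hK : IsCompact K) (ν : E2) (c : ℝ) {m : ℕ} (hm : 0 < m) :
    (m : ℕ∞) ≤ bs (K ∩ line ν c) ↔ ∃ U : Fin m → Finset (countableBasis E2),
      (K ∩ line ν c ⊆ ⋃ i, O (U i)) ∧
      (∀ i j, i ≠ j → ¬ (K ∩ (O (U i) ∩ O (U j)) ∩ line ν c).Nonempty) ∧
      ∀ i, (K ∩ O (U i) ∩ line ν c).Nonempty := by
  constructor
  · intro h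
    obtain ⟨F, hF⟩ := exists_surj_of_le_b0 hm h
    have hcs : CompactSpace (K ∩ line ν c : Set E2) :=
      isCompact_iff_compactSpace.1 (hK.inter_right (isClosed_line ν c))
    have hC : ∀ i, IsCompact (Subtype.val '' (F ⁻¹' {i}) : Set E2) := fun i =>
      (F.isLocallyConstant.isClosed_fiber i).isCompact.image continuous_subtype_val
    have hU : ∀ i : Fin m, ∃ s, (Subtype.val '' (F ⁻¹' {i}) : Set E2) ⊆ O s ∧
        O s ⊆ (⋃ j ∈ {j : Fin m | j ≠ i}, (Subtype.val '' (F ⁻¹' {j}) : Set E2))ᶜ := by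
      intro i
      refine exists_O (hC i) ?_ ?_
      · exact (Set.toFinite _).isClosed_biUnion (fun j _ => (hC j).isClosed) |>.isOpen_compl
      · rintro _ ⟨x, hx, rfl⟩ hx2
        obtain ⟨j, hj, y, hy, hxy⟩ := mem_iUnion₂.1 hx2
        have : y = x := Subtype.ext hxy
        subst this
        apply hj
        rw [mem_preimage, mem_singleton_iff] at hx hy
        rw [← hx, ← hy]
    choose U hU1 hU2 using hU
    refine ⟨U, ?_, ?_, ?_⟩
    · intro x hx
      exact mem_iUnion.2 ⟨F ⟨x, hx⟩, hU1 _ ⟨⟨x, hx⟩, rfl, rfl⟩⟩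
    · rintro i j hij ⟨x, ⟨hxK, hxi, hxj⟩, hxl⟩
      have key : ∀ k, x ∈ O (U k) → F ⟨x, hxK, hxl⟩ = k := by
        intro k hk
        by_contra hne
        exact hU2 k hk (mem_iUnion₂.2 ⟨F ⟨x, hxK, hxl⟩, hne, ⟨x, hxK, hxl⟩, rfl, rfl⟩)
      exact hij ((key i hxi).symm.trans (key j hxj))
    · intro i
      obtain ⟨x, hx⟩ := hF i
      exact ⟨x.1, ⟨x.2.1, hU1 i ⟨x, hx, rfl⟩⟩, x.2.2⟩
  · rintro ⟨U, hU1, hU2, hU3⟩
    have h1 : ∀ x : (K ∩ line ν c : Set E2), ∃ i, x.1 ∈ O (U i) := fun x =>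
      mem_iUnion.1 (hU1 x.2)
    choose f hf using h1
    have huniq : ∀ (x : (K ∩ line ν c : Set E2)) i, x.1 ∈ O (U i) → f x = i := by
      intro x i hi
      by_contra hne
      exact hU2 _ _ hne ⟨x.1, ⟨x.2.1, hf x, hi⟩, x.2.2⟩
    have hloc : IsLocallyConstant f := by
      rw [IsLocallyConstant.iff_isOpen_fiber]
      intro i
      have : f ⁻¹' {i} = Subtype.val ⁻¹' (O (U i)) := by
        ext x
        constructor
        · intro hx
          have := hf x
          rw [mem_preimage, mem_singleton_iff] at hx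
          rw [hx] at this
          exact this
        · intro hx
          exact huniq x i hx
      rw [this]
      exact (isOpen_O _).preimage continuous_subtype_val
    refine le_b0_of_surj ⟨f, hloc⟩ ?_
    intro i
    obtain ⟨x, ⟨hxK, hxi⟩, hxl⟩ := hU3 i
    exact ⟨⟨x, hxK, hxl⟩, huniq ⟨x, hxK, hxl⟩ i hxi⟩

lemma meas_le (hK : IsCompact K) (ν : E2) {m : ℕ} (hm : 0 < m) :
    MeasurableSet {c : ℝ | (m : ℕ∞) ≤ bs (K ∩ line ν c)} := by
  have : {c : ℝ | (m : ℕ∞) ≤ bs (K ∩ line ν c)} =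
      ⋃ U : Fin m → Finset (countableBasis E2), {c | K ∩ line ν c ⊆ ⋃ i, O (U i)} ∩
        ((⋂ i, ⋂ j, ⋂ (_ : i ≠ j), {c | (K ∩ (O (U i) ∩ O (U j)) ∩ line ν c).Nonempty}ᶜ) ∩
        ⋂ i, {c | (K ∩ O (U i) ∩ line ν c).Nonempty}) := by
    ext c
    simp only [mem_ofPred_eq, le_bs_iff hK ν c hm, mem_iUnion, mem_inter_iff, mem_iInter,
      mem_compl_iff]
  rw [this]
  refine MeasurableSet.iUnion fun U => (meas_subset hK ν (isOpen_iUnion fun i => isOpen_O _)).inter
    (MeasurableSet.inter ?_ ?_)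
  · exact MeasurableSet.iInter fun i => MeasurableSet.iInter fun j => MeasurableSet.iInter fun _ =>
      (meas_open hK ν ((isOpen_O _).inter (isOpen_O _))).compl
  · exact MeasurableSet.iInter fun i => meas_open hK ν (isOpen_O _)

end ItemC4m

open ItemC4m

theorem prf_C4m : S_C4m := by
  intro K ν hK _
  refine measurable_of_Ici fun x => ?_
  have : ((fun c : ℝ => ((bs (K ∩ line ν c) : ℕ∞) : ℝ≥0∞)) ⁻¹' Ici x) =
      ⋂ n : ℕ, ⋂ (_ : (n : ℝ≥0∞) < x), {c : ℝ | ((n + 1 : ℕ) : ℕ∞) ≤ bs (K ∩ line ν c)} := by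
    ext c
    simp only [mem_preimage, mem_Ici, mem_iInter, mem_ofPred_eq]
    generalize bs (K ∩ line ν c) = N
    constructor
    · intro h n hn
      have h1 : ((n : ℕ∞) : ℝ≥0∞) < (N : ℝ≥0∞) := by
        refine lt_of_lt_of_le ?_ h
        exact_mod_cast hn
      have h2 : (n : ℕ∞) < N := by exact_mod_cast h1
      rw [Nat.cast_add, Nat.cast_one]
      exact Order.add_one_le_of_lt h2
    · intro h
      by_contra hlt
      rw [not_le] at hlt
      have hN : N ≠ ⊤ := by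
        rintro rfl
        exact absurd hlt (by simp)
      obtain ⟨n, rfl⟩ := ENat.ne_top_iff_exists.1 hN
      have h1 := h n (by simpa using hlt)
      rw [Nat.cast_le] at h1
      omega
  rw [this]
  exact MeasurableSet.iInter fun n => MeasurableSet.iInter fun _ => meas_le hK ν n.succ_pos

end Pool.Agent.Robin

end

section

/-!
# MP_4b551e_an, item D3: outer web function
-/

open MeasureTheory Set Metric
open scoped ENNReal NNReal Pointwise RealInnerProductSpace

namespace Pool.Agent.Robin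

namespace D3

variable (v : Profile) (k : ℝ)

theorem layer {Om : Set E2} {P : ℝ} (hP : 0 ≤ P)
    (hst : ∀ s, 0 ≤ s →
      volume {x | x ∈ Om ∧ infDist x Omᶜ ≤ s} ≤ ENNReal.ofReal (s * P))
    (hanti : AntitoneOn (v.g k) (Ici 0)) :
    ∫⁻ x in Om, ENNReal.ofReal (D1.G v k (infDist x Omᶜ)) ≤
      ∫⁻ s in Ioc 0 v.σ, ENNReal.ofReal P * ENNReal.ofReal (D1.G v k s) := by
  have hm2 : Measurable fun s : ℝ => ENNReal.ofReal (D1.G v k s) :=
    (D1.G_cont v k).measurable.ennreal_ofReal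
  have h2 : ∫⁻ s in Ioc 0 v.σ, ENNReal.ofReal P * ENNReal.ofReal (D1.G v k s) =
      ∫⁻ s, ENNReal.ofReal (D1.G v k s) ∂(ENNReal.ofReal P • (volume.restrict (Ioc 0 v.σ))) := by
    rw [lintegral_smul_measure, lintegral_const_mul _ hm2]
    rfl
  have hcont : Continuous fun x : E2 => D1.G v k (infDist x Omᶜ) :=
    (D1.G_cont v k).comp (continuous_infDist_pt _)
  rw [h2, lintegral_eq_lintegral_meas_lt _
      (Filter.Eventually.of_forall fun x => D1.G_nonneg v k _) hcont.aemeasurable,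
    lintegral_eq_lintegral_meas_lt _
      (Filter.Eventually.of_forall fun x => D1.G_nonneg v k _) (D1.G_cont v k).aemeasurable]
  refine setLIntegral_mono' measurableSet_Ioi fun t ht => ?_
  have ht0 : (0 : ℝ) < t := ht
  have hmeas : MeasurableSet {x : E2 | t < D1.G v k (infDist x Omᶜ)} :=
    (isOpen_lt continuous_const hcont).measurableSet
  rw [Measure.restrict_apply hmeas]
  obtain ⟨A, hA⟩ : ∃ A : Set ℝ, A = {s | 0 ≤ s ∧ t < D1.G v k s} := ⟨_, rfl⟩
  have hbdd : ∀ s ∈ A, s < v.σ := by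
    intro s hs
    rw [hA] at hs
    by_contra hcon
    have := hs.2
    rw [D1.G_zero v k (not_lt.mp hcon)] at this
    exact absurd this (not_lt.mpr ht0.le)
  by_cases hAe : A.Nonempty
  · have hbA : BddAbove A := ⟨v.σ, fun s hs => (hbdd s hs).le⟩
    have hs0 : 0 ≤ sSup A := by
      obtain ⟨s, hs⟩ := hAe
      have h3 := le_csSup hbA hs
      rw [hA] at hs
      exact hs.1.trans h3
    have hsσ : sSup A ≤ v.σ := csSup_le hAe fun s hs => (hbdd s hs).le
    have hL : volume ({x : E2 | t < D1.G v k (infDist x Omᶜ)} ∩ Om) ≤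
        ENNReal.ofReal (sSup A * P) := by
      refine (measure_mono ?_).trans (hst _ hs0)
      rintro x ⟨hx, hxK⟩
      refine ⟨hxK, ?_⟩
      have h4 : infDist x Omᶜ ∈ A := by
        rw [hA]; exact ⟨infDist_nonneg, hx⟩
      exact le_csSup hbA h4
    refine hL.trans ?_
    have h6 : Ioo 0 (sSup A) ⊆ {s | t < D1.G v k s} := by
      rintro s ⟨hs1, hs2⟩
      obtain ⟨s', hs', hss⟩ := exists_lt_of_lt_csSup hAe hs2
      rw [hA] at hs'
      have h7 := hanti (mem_Ici.mpr hs1.le) (mem_Ici.mpr hs'.1) hss.le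
      rw [← D1.G_eq v k hs1.le, ← D1.G_eq v k hs'.1] at h7
      exact hs'.2.trans_le h7
    have h8 : Ioo 0 (sSup A) ⊆ Ioc 0 v.σ := fun s hs => ⟨hs.1, hs.2.le.trans hsσ⟩
    refine le_trans (le_of_eq ?_) (measure_mono h6)
    rw [Measure.smul_apply, Measure.restrict_apply measurableSet_Ioo,
      inter_eq_self_of_subset_left h8, Real.volume_Ioo,
      sub_zero, smul_eq_mul, mul_comm, ENNReal.ofReal_mul hP]
  · have h3 : ({x : E2 | t < D1.G v k (infDist x Omᶜ)} ∩ Om) = ∅ := by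
      rw [eq_empty_iff_forall_notMem]
      rintro x ⟨hx, -⟩
      exact hAe ⟨infDist x Omᶜ, by rw [hA]; exact ⟨infDist_nonneg, hx⟩⟩
    rw [h3, measure_empty]
    exact bot_le

theorem energy_le {Om : Set E2} (ho : IsOpen Om) (hb : Bornology.IsBounded Om)
    (hne : Omᶜ.Nonempty) :
    ∫ x in Om, (en k (fun y => v.w (infDist y Omᶜ)) x - k ^ 2) ≤
      ∫ x in Om, D1.G v k (infDist x Omᶜ) := by
  have hcont : Continuous fun x : E2 => D1.G v k (infDist x Omᶜ) :=
    (D1.G_cont v k).comp (continuous_infDist_pt _)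
  obtain ⟨R0, hR0⟩ := hb.subset_closedBall 0
  refine integral_mono_of_nonneg ?_ ?_ ?_
  · refine Filter.Eventually.of_forall fun x => ?_
    unfold en
    have h1 := v.one_le (infDist x Omᶜ)
    have h2 : 0 ≤ k ^ 2 * ((v.w (infDist x Omᶜ)) ^ 2 - 1) :=
      mul_nonneg (sq_nonneg _) (by nlinarith)
    have h3 := sq_nonneg ‖fderiv ℝ (fun y => v.w (infDist y Omᶜ)) x‖
    show 0 ≤ ‖fderiv ℝ (fun y => v.w (infDist y Omᶜ)) x‖ ^ 2 +
      k ^ 2 * (v.w (infDist x Omᶜ)) ^ 2 - k ^ 2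
    linarith
  · exact (hcont.continuousOn.integrableOn_compact (isCompact_closedBall 0 R0)).mono_set hR0
  · rw [Filter.EventuallyLE, ae_restrict_iff' ho.measurableSet]
    filter_upwards [(lipschitz_infDist_pt Omᶜ).ae_differentiableAt (μ := volume)] with x hx hxK
    rw [D1.G_eq v k infDist_nonneg]
    unfold en Profile.g
    have h1 := D1.norm_fderiv_le v ho.isClosed_compl hne (fun h => h hxK) hx
    have h2 := pow_le_pow_left₀ (norm_nonneg _) h1 2
    rw [sq_abs] at h2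
    linarith

end D3

theorem prf_D3 (h13 : S_C13) (_h1 : S_B1) (_h2 : S_B2) : S_D3 := by
  intro k Om v hk hO hc hanti ε hε
  obtain ⟨C, hC⟩ := D1.w_lip v
  have hne : Omᶜ.Nonempty := hc.nonempty
  refine ⟨fun x => v.w (infDist x Omᶜ), ⟨C * 1, hC.comp (lipschitz_infDist_pt Omᶜ)⟩,
    fun x => v.one_le _, ?_⟩
  have hP : 0 ≤ per Om := ENNReal.toReal_nonneg
  have hst : ∀ s, 0 ≤ s →
      volume {x | x ∈ Om ∧ infDist x Omᶜ ≤ s} ≤ ENNReal.ofReal (s * per Om) :=
    fun s hs => h13 Om s hO hc hs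
  have hlay := D3.layer v k hP hst hanti
  have hE := D3.energy_le v k hO.isOpen hO.isBounded hne
  have hcont : Continuous fun x : E2 => D1.G v k (infDist x Omᶜ) :=
    (D1.G_cont v k).comp (continuous_infDist_pt _)
  have hJc : Continuous fun s : ℝ => per Om * D1.G v k s :=
    continuous_const.mul (D1.G_cont v k)
  have hJn : ∀ s ∈ Ioc 0 v.σ, 0 ≤ per Om * D1.G v k s := by
    intro s hs
    have := D1.G_nonneg v k s
    positivity
  have hJ : ∫⁻ s in Ioc 0 v.σ, ENNReal.ofReal (per Om) *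
      ENNReal.ofReal (D1.G v k s) =
      ENNReal.ofReal (∫ s in Ioc 0 v.σ, per Om * D1.G v k s) := by
    rw [ofReal_integral_eq_lintegral_ofReal (hJc.integrableOn_Icc.mono_set Ioc_subset_Icc_self)
      ((ae_restrict_iff' measurableSet_Ioc).mpr (Filter.Eventually.of_forall hJn))]
    refine setLIntegral_congr_fun measurableSet_Ioc fun s hs => ?_
    rw [ENNReal.ofReal_mul hP]
  have hI : ENNReal.ofReal (∫ x in Om, D1.G v k (infDist x Omᶜ)) ≤
      ∫⁻ x in Om, ENNReal.ofReal (D1.G v k (infDist x Omᶜ)) := by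
    rw [integral_eq_lintegral_of_nonneg_ae
      (Filter.Eventually.of_forall fun x => D1.G_nonneg v k _) hcont.aestronglyMeasurable]
    exact ENNReal.ofReal_toReal_le
  have hIJ : (∫ x in Om, D1.G v k (infDist x Omᶜ)) ≤
      ∫ s in Ioc 0 v.σ, per Om * D1.G v k s := by
    have h1 := hI.trans hlay
    rw [hJ] at h1
    exact (ENNReal.ofReal_le_ofReal_iff (setIntegral_nonneg measurableSet_Ioc hJn)).mp h1
  have hJ2 : ∫ s in Ioc 0 v.σ, per Om * D1.G v k s =
      per Om * (∫ s in (0 : ℝ)..v.σ, v.g k s) := by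
    rw [integral_const_mul, intervalIntegral.integral_of_le v.σ_pos.le]
    congr 1
    exact setIntegral_congr_fun measurableSet_Ioc fun s hs => D1.G_eq v k hs.1.le
  have hB : ∫ x in frontier Om, (v.w (infDist x Omᶜ)) ^ 2 ∂(μH[1]) = (v.w 0) ^ 2 * per Om := by
    have h1 : ∫ x in frontier Om, (v.w (infDist x Omᶜ)) ^ 2 ∂(μH[1]) =
        ∫ x in frontier Om, (v.w 0) ^ 2 ∂(μH[1]) := by
      refine setIntegral_congr_fun isClosed_frontier.measurableSet fun x hx => ?_
      have h2 : x ∈ Omᶜ := by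
        rw [← frontier_compl] at hx
        exact hO.isOpen.isClosed_compl.frontier_subset hx
      simp only [infDist_zero_of_mem h2]
    rw [h1, setIntegral_const, smul_eq_mul, mul_comm]
    rfl
  have hfin : (∫ x in Om, (en k (fun y => v.w (infDist y Omᶜ)) x - k ^ 2)) -
      (∫ x in frontier Om, (v.w (infDist x Omᶜ)) ^ 2 ∂(μH[1])) ≤
      -(per Om) * v.q k := by
    rw [hB]
    unfold Profile.q
    have := hE.trans (hIJ.trans hJ2.le)
    linarith
  exact hfin.trans (by linarith)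

end Pool.Agent.Robin

end

section

/-!
MP_4b551e_an, item F2: existence of the ground state of the annulus in Riccati form.
-/

open MeasureTheory Set Metric Filter Topology
open scoped ENNReal NNReal

namespace Pool.Agent.Robin

theorem F2_left {f : ℝ → ℝ} {f' r R x : ℝ} (hx : x ∈ Ioc r R)
    (hf : HasDerivWithinAt f f' (Icc r R) x) (hm : ∀ y ∈ Icc r x, f y ≤ f x) : 0 ≤ f' := by
  have h1 : HasDerivWithinAt f f' (Ico r x) x :=
    hf.mono (Ico_subset_Icc_self.trans (Icc_subset_Icc_right hx.2))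
  rw [hasDerivWithinAt_iff_tendsto_slope' (by simp), nhdsWithin_Ico_eq_nhdsLT hx.1] at h1
  refine ge_of_tendsto h1 ?_
  have h2 : ∀ᶠ y in 𝓝[<] x, y ∈ Ioo r x := Ioo_mem_nhdsLT hx.1
  filter_upwards [h2] with y hy
  rw [slope_def_field]
  exact div_nonneg_of_nonpos (by linarith [hm y ⟨hy.1.le, hy.2.le⟩]) (by linarith [hy.2])

theorem prf_F2 (h1 : S_F1) : S_F2 := by
  intro r R hr hrR
  obtain ⟨χ, hχ, hT⟩ := h1 r R hr hrR
  have hRr : 0 < R - r := by linarith
  have hR0 : 0 < R := hr.trans hrR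
  -- `T 1 < 1`
  have hT1 : χ 1 R < 1 := by
    obtain ⟨a1, a2, a3⟩ := hχ 1 le_rfl
    have hle := (a2 R (right_mem_Icc.2 hrR.le)).2
    refine lt_of_le_of_ne hle fun heq => ?_
    have h2 := F2_left (right_mem_Ioc.2 hrR) (a3 R (right_mem_Icc.2 hrR.le))
      (fun y hy => by rw [heq]; exact (a2 y hy).2)
    rw [heq] at h2
    have h3 : 0 < 1 / R := by positivity
    linarith
  -- large `κ`
  have h4 : 0 < 4 / (R - r) := by positivity
  set κ₁ : ℝ := Real.sqrt (1 + 1 / r + 4 / (R - r)) with hκ₁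
  have hκsq : κ₁ ^ 2 = 1 + 1 / r + 4 / (R - r) := Real.sq_sqrt (by positivity)
  have hκ1 : 1 ≤ κ₁ := by
    rw [hκ₁, Real.one_le_sqrt]
    have : 0 < 1 / r := by positivity
    linarith
  have hT2 : 1 ≤ χ κ₁ R := by
    obtain ⟨a1, a2, a3⟩ := hχ κ₁ hκ1
    have hcont : ContinuousOn (χ κ₁) (Icc r R) := fun x hx => (a3 x hx).continuousWithinAt
    have hder := F1_mono a3
    by_contra hcon
    push Not at hcon
    have hlt : ∀ x ∈ Icc r R, χ κ₁ x < 1 := by
      intro x0 hx0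
      by_contra hge
      push Not at hge
      have hsub : Icc x0 R ⊆ Icc r R := Icc_subset_Icc_left hx0.1
      have h5 : ∀ ⦃x⦄, x ∈ Icc x0 R → -χ κ₁ x ≤ -1 := by
        refine image_le_of_deriv_right_lt_deriv_boundary'
          (f' := fun x => -(κ₁ ^ 2 - χ κ₁ x ^ 2 - χ κ₁ x / x))
          (B := fun _ => -1) (B' := fun _ => 0) (hcont.mono hsub).neg
          (fun x hx => (hder x ⟨hx0.1.trans hx.1, hx.2⟩).neg) ?_
          continuousOn_const (fun x _ => hasDerivWithinAt_const _ _ _) ?_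
        · change -χ κ₁ x0 ≤ -1
          linarith
        · intro x hx hx1
          have hx2 : -χ κ₁ x = -1 := hx1
          have hx3 : χ κ₁ x = 1 := by linarith
          have hxr : r ≤ x := hx0.1.trans hx.1
          have hx4 : 1 / x ≤ 1 / r := one_div_le_one_div_of_le hr hxr
          simp only [hx3, hκsq]
          linarith
      have h6 := h5 (right_mem_Icc.2 hx0.2)
      linarith
    have h7 : ∀ ⦃x⦄, x ∈ Icc r R → -χ κ₁ x ≤ 1 - 3 / (R - r) * (x - r) := by
      refine image_le_of_deriv_right_lt_deriv_boundary'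
        (f' := fun x => -(κ₁ ^ 2 - χ κ₁ x ^ 2 - χ κ₁ x / x))
        (B := fun x => 1 - 3 / (R - r) * (x - r)) (B' := fun _ => -(3 / (R - r)))
        hcont.neg (fun x hx => (hder x hx).neg) ?_ (by fun_prop) ?_ ?_
      · change -χ κ₁ r ≤ 1 - 3 / (R - r) * (r - r)
        rw [a1]; simp
      · intro x _
        have h8 : HasDerivAt (fun x : ℝ => 1 - 3 / (R - r) * (x - r))
            (0 - 3 / (R - r) * (1 - 0)) x :=
          (hasDerivAt_const x (1 : ℝ)).sub
            (((hasDerivAt_id x).sub (hasDerivAt_const x r)).const_mul _)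
        have h9 : (0 : ℝ) - 3 / (R - r) * (1 - 0) = -(3 / (R - r)) := by ring
        rw [h9] at h8
        exact h8.hasDerivWithinAt
      · intro x hx _
        have hx0 : 0 < x := lt_of_lt_of_le hr hx.1
        have b1 := (a2 x ⟨hx.1, hx.2.le⟩).1
        have b2 := hlt x ⟨hx.1, hx.2.le⟩
        have b3 : χ κ₁ x ^ 2 ≤ 1 := by nlinarith
        have b4 : χ κ₁ x / x ≤ 1 / r := by
          calc χ κ₁ x / x ≤ 1 / x := div_le_div_of_nonneg_right b2.le hx0.le
            _ ≤ 1 / r := one_div_le_one_div_of_le hr hx.1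
        have b5 : 3 / (R - r) < 4 / (R - r) := by
          apply div_lt_div_of_pos_right _ hRr
          norm_num
        simp only [hκsq]
        linarith
    have h10 := h7 (right_mem_Icc.2 hrR.le)
    have h11 : 3 / (R - r) * (R - r) = 3 := div_mul_cancel₀ _ hRr.ne'
    rw [h11] at h10
    linarith
  -- intermediate value
  have hivt : (1 : ℝ) ∈ (fun κ => χ κ R) '' Icc 1 κ₁ :=
    intermediate_value_Icc hκ1 (hT.mono Icc_subset_Ici_self) ⟨hT1.le, hT2⟩
  obtain ⟨κ, hκ, hκR⟩ := hivt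
  simp only at hκR
  have hκ1' : 1 < κ := by
    refine lt_of_le_of_ne hκ.1 fun h => ?_
    rw [← h] at hκR
    linarith
  obtain ⟨a1, a2, a3⟩ := hχ κ hκ.1
  have hcont : ContinuousOn (χ κ) (Icc r R) := fun x hx => (a3 x hx).continuousWithinAt
  set G : ℝ → ℝ := fun ξ => κ ^ 2 - χ κ ξ ^ 2 - χ κ ξ / ξ with hG
  set G' : ℝ → ℝ := fun ξ => -(2 * χ κ ξ + 1 / ξ) * G ξ + χ κ ξ / ξ ^ 2 with hG'
  have hGd : ∀ x ∈ Icc r R, HasDerivWithinAt G (G' x) (Icc r R) x := by
    intro x hx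
    have hx0 : x ≠ 0 := (lt_of_lt_of_le hr hx.1).ne'
    have b1 := a3 x hx
    have b2 := ((hasDerivWithinAt_const x (Icc r R) (κ ^ 2)).sub (b1.pow 2)).sub
      (b1.div (hasDerivWithinAt_id x _) hx0)
    refine b2.congr_deriv ?_
    simp only [hG', hG, id_eq, Nat.cast_ofNat, Nat.add_one_sub_one, pow_one]
    field_simp
    ring
  have hGpos0 : ∀ x ∈ Icc r R, χ κ x ≤ 0 → 0 < G x := by
    intro x hx hx1
    have hx0 : 0 < x := lt_of_lt_of_le hr hx.1
    have b1 := (a2 x hx).1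
    have b2 : χ κ x ^ 2 ≤ 1 := by nlinarith
    have b3 : χ κ x / x ≤ 0 := div_nonpos_of_nonpos_of_nonneg hx1 hx0.le
    have b4 : 1 < κ ^ 2 := by nlinarith
    simp only [hG]
    linarith
  have hGc : ContinuousOn G (Icc r R) := fun x hx => (hGd x hx).continuousWithinAt
  have hGz : ∀ x ∈ Icc r R, G x = 0 → 0 < G' x := by
    intro x hx hx1
    have hx0 : 0 < x := lt_of_lt_of_le hr hx.1
    have b1 : 0 < χ κ x := by
      by_contra h
      push Not at h
      linarith [hGpos0 x hx h]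
    simp only [hG', hx1]
    rw [mul_zero, zero_add]
    positivity
  have hGr : 0 < G r := hGpos0 r (left_mem_Icc.2 hrR.le) (by rw [a1]; norm_num)
  have hGnn : ∀ ⦃x⦄, x ∈ Icc r R → -G x ≤ 0 := by
    refine image_le_of_deriv_right_lt_deriv_boundary' (f' := fun x => -G' x)
      (B := fun _ => 0) (B' := fun _ => 0) hGc.neg (fun x hx => (F1_mono hGd x hx).neg) ?_
      continuousOn_const (fun x _ => hasDerivWithinAt_const _ _ _) ?_
    · change -G r ≤ 0
      linarith
    · intro x hx hx1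
      have hx2 : -G x = 0 := hx1
      have hx3 := hGz x ⟨hx.1, hx.2.le⟩ (by linarith)
      linarith
  have hGpos : ∀ x ∈ Icc r R, 0 < G x := by
    intro x hx
    have h0 : 0 ≤ G x := by linarith [hGnn hx]
    refine lt_of_le_of_ne h0 fun h => ?_
    have hxr : r < x := by
      refine lt_of_le_of_ne hx.1 fun h' => ?_
      rw [← h'] at h
      linarith
    have h2 := F2_left (f := fun y => -G y) (f' := -G' x) ⟨hxr, hx.2⟩ (hGd x hx).neg
      (fun y hy => by
        have := hGnn (x := y) ⟨hy.1, hy.2.trans hx.2⟩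
        change -G y ≤ -G x
        rw [← h]
        linarith)
    linarith [hGz x hx h.symm]
  refine ⟨κ, χ κ, hr, hrR, hκ1', a3, a1, hκR, ?_⟩
  refine strictMonoOn_of_deriv_pos (convex_Icc r R) hcont ?_
  intro x hx
  rw [interior_Icc] at hx
  have h2 := (a3 x ⟨hx.1.le, hx.2.le⟩).hasDerivAt (Icc_mem_nhds hx.1 hx.2)
  rw [h2.deriv]
  exact hGpos x ⟨hx.1.le, hx.2.le⟩

end Pool.Agent.Robin

end

section

set_option autoImplicit false

open MeasureTheory Set Metric
open scoped ENNReal NNReal Pointwise RealInnerProductSpace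

namespace Pool.Agent.Robin

/-- Profiles from logarithmic derivatives. -/
theorem G1_profile (σ : ℝ) (hσ : 0 < σ) (g : ℝ → ℝ) (hc : ContinuousOn g (Icc 0 σ))
    (hg : ∀ s ∈ Icc 0 σ, 0 ≤ g s) (h0 : g σ = 0) : ∃ w : Profile, w.σ = σ ∧
      (∀ s ∈ Icc 0 σ, w.w s = Real.exp (∫ x in s..σ, g x)) ∧
      (∀ s ∈ Icc 0 σ, w.dw s = -(g s * w.w s)) := by
  set h : ℝ → ℝ := fun s => g (max 0 (min s σ)) with hh
  have hmem : ∀ s, max 0 (min s σ) ∈ Icc 0 σ := fun s =>
    ⟨le_max_left _ _, max_le hσ.le (min_le_right _ _)⟩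
  have hcont : Continuous h := hc.comp_continuous (by fun_prop) hmem
  have hnn : ∀ s, 0 ≤ h s := fun s => hg _ (hmem s)
  have hz : ∀ s, σ ≤ s → h s = 0 := by
    intro s hs
    simp only [hh]
    rw [min_eq_right hs, max_eq_right hσ.le, h0]
  have heq : ∀ s ∈ Icc 0 σ, h s = g s := by
    intro s hs
    simp only [hh]
    rw [min_eq_left hs.2, max_eq_right hs.1]
  have hint : ∀ a b : ℝ, IntervalIntegrable h volume a b := fun a b =>
    hcont.intervalIntegrable a b
  have hI0 : ∀ s, σ ≤ s → ∫ x in s..σ, h x = 0 := by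
    intro s hs
    have e : ∫ x in s..σ, h x = ∫ x in s..σ, (0 : ℝ) := by
      refine intervalIntegral.integral_congr fun x hx => ?_
      rw [uIcc_of_ge hs] at hx
      exact hz x hx.1
    rw [e]
    simp
  have hInn : ∀ s, 0 ≤ ∫ x in s..σ, h x := by
    intro s
    rcases le_total s σ with hs | hs
    · exact intervalIntegral.integral_nonneg hs fun x _ => hnn x
    · rw [hI0 s hs]
  have hprim : Continuous fun s => ∫ x in (max 0 s)..σ, h x := by
    have e : (fun s => ∫ x in (max 0 s)..σ, h x) = fun s => -∫ x in σ..(max 0 s), h x := by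
      funext s
      rw [intervalIntegral.integral_symm]
    rw [e]
    exact ((intervalIntegral.continuous_primitive hint σ).comp (by fun_prop)).neg
  have hwc : Continuous fun s => Real.exp (∫ x in (max 0 s)..σ, h x) :=
    Real.continuous_exp.comp hprim
  refine ⟨{
    w := fun s => Real.exp (∫ x in (max 0 s)..σ, h x)
    dw := fun s => -(h s * Real.exp (∫ x in (max 0 s)..σ, h x))
    σ := σ
    σ_pos := hσ
    one_le := fun s => Real.one_le_exp (hInn _)
    eq_one := ?_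
    dw_zero := ?_
    neg := ?_
    dw_nonpos := ?_
    dw_cont := ?_
    deriv := ?_
    w_cont := hwc }, rfl, ?_, ?_⟩
  · intro s hs
    rw [hI0 _ (hs.trans (le_max_right _ _)), Real.exp_zero]
  · intro s hs
    rw [hz s hs]
    simp
  · intro s hs
    rw [max_eq_left hs, max_self]
  · intro s _
    have := mul_nonneg (hnn s) (Real.exp_pos (∫ x in (max 0 s)..σ, h x)).le
    linarith
  · exact (hcont.mul hwc).neg.continuousOn
  · intro s hs
    have e1 : HasDerivAt (fun u => ∫ x in u..σ, h x) (-h s) s :=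
      intervalIntegral.integral_hasDerivAt_left (hint s σ)
        (hcont.stronglyMeasurableAtFilter _ _) hcont.continuousAt
    have e2 := e1.exp
    have e3 : (fun u => Real.exp (∫ x in (max 0 u)..σ, h x)) =ᶠ[nhds s]
        fun u => Real.exp (∫ x in u..σ, h x) := by
      filter_upwards [lt_mem_nhds hs] with u hu
      rw [max_eq_right hu.le]
    have e4 := e2.congr_of_eventuallyEq e3
    convert! e4 using 1
    rw [max_eq_right hs.le]
    ring
  · intro s hs
    simp only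
    rw [max_eq_right hs.1]
    congr 1
    refine intervalIntegral.integral_congr fun x hx => ?_
    rw [uIcc_of_le hs.2] at hx
    exact heq x ⟨hs.1.trans hx.1, hx.2⟩
  · intro s hs
    simp only
    rw [heq s hs]

theorem prf_G1 : S_G1 := by
  intro k R ξ₁ χ hOL
  have hσ : 0 < R - ξ₁ := sub_pos.2 hOL.lt
  have hc : ContinuousOn χ (Icc ξ₁ R) := fun ξ hξ => (hOL.deriv ξ hξ).continuousWithinAt
  have hnn : ∀ ξ ∈ Icc ξ₁ R, 0 ≤ χ ξ := by
    intro ξ hξ
    rw [← hOL.left]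
    exact hOL.mono (left_mem_Icc.2 hOL.lt.le) hξ hξ.1
  obtain ⟨w, h1, h2, h3⟩ := G1_profile (R - ξ₁) hσ (fun s => χ (R - s))
    (by
      refine hc.comp (by fun_prop) fun s hs => ?_
      exact ⟨by linarith [hs.2], by linarith [hs.1]⟩)
    (by
      intro s hs
      exact hnn _ ⟨by linarith [hs.2], by linarith [hs.1]⟩)
    (by
      rw [sub_sub_cancel]
      exact hOL.left)
  refine ⟨w, hOL, h1, ?_, ?_⟩
  · intro s hs
    rw [h2 s hs, intervalIntegral.integral_comp_sub_left, sub_sub_cancel]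
  · intro s hs
    rw [h3 s hs]

end Pool.Agent.Robin

end

section

/-!
MP_4b551e_an, item G11: lower bound for the area of an annulus with given level.
-/

open MeasureTheory Set Metric
open scoped ENNReal NNReal Pointwise RealInnerProductSpace

namespace Pool.Agent.Robin

namespace G11

theorem cosh_le_exp (x : ℝ) (hx : 0 ≤ x) : Real.cosh x ≤ Real.exp x := by
  rw [Real.cosh_eq]
  have h : Real.exp (-x) ≤ Real.exp x := Real.exp_le_exp.2 (by linarith)
  linarith

/-- crude bound of the logarithm -/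
theorem log_bd (ρ : ℝ) (h : 1000000 ≤ ρ) :
    0 < Real.log ρ ∧ Real.log ρ ≤ ρ / 20 ∧ (Real.log ρ - 1) ^ 2 ≤ 2 * ρ := by
  have hρ : 0 < ρ := by linarith
  set s := Real.sqrt ρ with hs
  set q := Real.sqrt s with hq
  have hs0 : 0 ≤ s := Real.sqrt_nonneg _
  have hq0 : 0 ≤ q := Real.sqrt_nonneg _
  have hss : s * s = ρ := Real.mul_self_sqrt hρ.le
  have hqq : q * q = s := Real.mul_self_sqrt hs0
  have hs1 : 1000 ≤ s := by
    by_contra hh
    push Not at hh
    nlinarith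
  have hq1 : 31 ≤ q := by
    by_contra hh
    push Not at hh
    nlinarith
  have hqpos : 0 < q := by linarith
  have hlog : Real.log ρ = 4 * Real.log q := by
    rw [← hss, ← hqq, Real.log_mul (by positivity) (by positivity),
      Real.log_mul (by positivity) (by positivity)]
    ring
  have hl := Real.log_le_sub_one_of_pos hqpos
  have hl4 : Real.log ρ ≤ 4 * (q - 1) := by rw [hlog]; linarith
  have hpos : 0 < Real.log ρ := Real.log_pos (by linarith)
  refine ⟨hpos, ?_, ?_⟩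
  · have : 4 * q ≤ ρ / 20 := by
      have h1 : 961 ≤ s := by nlinarith
      have h2 : 31 * 961 * q ≤ ρ * 1 := by
        have : ρ = q * q * s := by rw [hqq, hss]
        rw [this]
        have h3 : 31 * 961 ≤ q * s := by nlinarith
        nlinarith
      nlinarith
    linarith
  · have h1 : 1 ≤ Real.log ρ := by
      rw [Real.le_log_iff_exp_le hρ]
      have := Real.exp_one_lt_d9
      linarith
    have h2 : (Real.log ρ - 1) ^ 2 ≤ (4 * q) ^ 2 := by
      apply pow_le_pow_left₀ (by linarith)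
      linarith
    have h3 : (4 * q) ^ 2 = 16 * s := by rw [← hqq]; ring
    rw [h3] at h2
    nlinarith

end G11

open G11 in
theorem prf_G11 (h1 : S_G1) (h2 : S_G2) (h4 : S_G4) (h6 : S_G6) (h10 : S_G10) : S_G11 := by
  refine ⟨1000000, by norm_num, ?_⟩
  intro r R κ ρ χ hGS hκρ hρ
  have hρ0 : 0 < ρ := by linarith
  obtain ⟨hΛ, hΛ1, hΛ2⟩ := log_bd ρ hρ
  set Λ := Real.log ρ with hΛdef
  have hk1 : 1 < κ := hGS.one_lt
  have hr := hGS.r_pos
  have hrR := hGS.lt
  have hR : 0 < R := by linarith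
  have hκ2 : κ ^ 2 - 1 = 1 / ρ := by
    field_simp
    linarith
  obtain ⟨ξ, hOL, hIL, hRk⟩ := h10 r R κ χ hGS
  have hRρ : ρ ≤ R := by
    rw [hκ2] at hRk
    exact (one_div_le_one_div hR hρ0).1 hRk
  have hpi := Real.pi_pos
  -- it suffices to bound the difference of squares
  suffices hmain : 2 * ρ * (Λ - 2) ≤ R ^ 2 - r ^ 2 by
    have := mul_le_mul_of_nonneg_left hmain hpi.le
    linarith
  set t := R - r with ht
  have ht0 : 0 < t := by rw [ht]; linarith
  by_cases hbig : ρ / 10 ≤ t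
  · have e1 : ρ / 10 * ρ ≤ t * (R + r) := by
      apply mul_le_mul hbig (by linarith) hρ0.le ht0.le
    have e2 : t * (R + r) = R ^ 2 - r ^ 2 := by rw [ht]; ring
    have e3 : 2 * ρ * (Λ - 2) ≤ ρ / 10 * ρ := by nlinarith
    linarith
  · push Not at hbig
    have hr9 : 9 / 10 * ρ ≤ r := by rw [ht] at hbig; linarith
    have hξR := hOL.lt
    have hrξ := hIL.lt
    have hξ9 : 9 / 10 * ρ ≤ ξ := by linarith
    have hξ1 : 1 ≤ ξ := by linarith
    obtain ⟨w, hw⟩ := h1 κ R ξ χ hOL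
    obtain ⟨v, hv⟩ := h2 κ r ξ χ hIL
    obtain ⟨-, g2, g3, -⟩ := h4 κ R ξ χ w hk1.le hξ1 hw
    obtain ⟨-, i2, -, -, i5⟩ := h6 κ r ξ χ v hk1.le hv
    have hwσ := hw.sig
    have hvσ := hv.sig
    set a := w.w 0 with ha
    set b := v.w 0 with hb
    have ha1 : 1 ≤ a := w.one_le 0
    have hb1 : 1 ≤ b := v.one_le 0
    have hκsq : 1 ≤ κ ^ 2 := by nlinarith
    -- amplitude of the outer layer
    have hA : 9 / 10 * ρ ≤ a ^ 2 := by
      have e1 : κ ^ 2 - 1 - 1 / R + (κ ^ 2 - 1) * w.σ / R ≤ 11 / 10 / ρ := by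
        rw [hκ2, hwσ]
        have e2 : 1 / ρ * (R - ξ) / R ≤ 1 / 10 / ρ := by
          rw [div_le_div_iff₀ hR hρ0]
          have : 1 / ρ * (R - ξ) * ρ = R - ξ := by field_simp
          rw [this]
          nlinarith
        have e3 : 0 ≤ 1 / R := by positivity
        have e4 : 1 / ρ + 1 / 10 / ρ = 11 / 10 / ρ := by ring
        linarith
      have e5 : 1 ≤ 11 / 10 / ρ * a ^ 2 := by
        have := mul_le_mul_of_nonneg_right e1 (sq_nonneg a)
        linarith
      have e6 : ρ ≤ 11 / 10 * a ^ 2 := by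
        have := mul_le_mul_of_nonneg_left e5 hρ0.le
        have e7 : ρ * (11 / 10 / ρ * a ^ 2) = 11 / 10 * a ^ 2 := by field_simp
        rw [e7] at this
        linarith
      linarith
    have hB : 47 / 100 * ρ ≤ b ^ 2 := by
      have e1 : κ ^ 2 - 1 + 1 / r ≤ 212 / 100 / ρ := by
        rw [hκ2]
        have e2 : 1 / r ≤ 10 / 9 / ρ := by
          rw [div_le_div_iff₀ hr hρ0]
          linarith
        have e3 : 1 / ρ + 10 / 9 / ρ ≤ 212 / 100 / ρ := by
          rw [← add_div]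
          exact div_le_div_of_nonneg_right (by norm_num) hρ0.le
        linarith
      have e5 : 1 ≤ 212 / 100 / ρ * b ^ 2 := by
        have := mul_le_mul_of_nonneg_right e1 (sq_nonneg b)
        linarith
      have e6 : ρ ≤ 212 / 100 * b ^ 2 := by
        have := mul_le_mul_of_nonneg_left e5 hρ0.le
        have e7 : ρ * (212 / 100 / ρ * b ^ 2) = 212 / 100 * b ^ 2 := by field_simp
        rw [e7] at this
        linarith
      linarith
    set K := Real.sqrt (κ ^ 2 + 1 / r) with hK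
    have hKκ : κ ≤ K := by
      rw [hK]
      apply Real.le_sqrt_of_sq_le
      have : 0 < 1 / r := by positivity
      linarith
    have hK0 : 0 < K := by linarith
    have hKup : K ≤ 1 + 2 / ρ := by
      rw [hK]
      apply Real.sqrt_le_iff.2
      constructor
      · positivity
      · have e2 : 1 / r ≤ 10 / 9 / ρ := by
          rw [div_le_div_iff₀ hr hρ0]
          linarith
        have e3 : κ ^ 2 = 1 + 1 / ρ := by linarith
        rw [e3]
        have e4 : (1 + 2 / ρ) ^ 2 = 1 + 4 / ρ + (2 / ρ) ^ 2 := by ring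
        rw [e4]
        have e5 : 1 / ρ + 10 / 9 / ρ ≤ 4 / ρ := by
          rw [← add_div]
          exact div_le_div_of_nonneg_right (by norm_num) hρ0.le
        have := sq_nonneg (2 / ρ)
        linarith
    have hσ0 : 0 < w.σ := w.σ_pos
    have hτ0 : 0 < v.σ := v.σ_pos
    -- logarithms
    have hl1 : Real.log (9 / 10 * ρ) ≤ 2 * (κ * w.σ) := by
      have e1 : a ≤ Real.exp (κ * w.σ) := g3.trans (cosh_le_exp _ (by positivity))
      have e2 : a ^ 2 ≤ Real.exp (κ * w.σ) ^ 2 := pow_le_pow_left₀ (by linarith) e1 2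
      have e3 : Real.exp (κ * w.σ) ^ 2 = Real.exp (2 * (κ * w.σ)) := by
        rw [← Real.exp_nat_mul]; norm_num
      rw [e3] at e2
      rw [Real.log_le_iff_le_exp (by positivity)]
      linarith
    have hl2 : Real.log (47 / 100 * ρ) ≤ 2 * (K * v.σ) := by
      have e1 : b ≤ Real.exp (K * v.σ) := i5.trans (cosh_le_exp _ (by positivity))
      have e2 : b ^ 2 ≤ Real.exp (K * v.σ) ^ 2 := pow_le_pow_left₀ (by linarith) e1 2
      have e3 : Real.exp (K * v.σ) ^ 2 = Real.exp (2 * (K * v.σ)) := by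
        rw [← Real.exp_nat_mul]; norm_num
      rw [e3] at e2
      rw [Real.log_le_iff_le_exp (by positivity)]
      linarith
    have hl3 : 2 * Λ - 1 ≤ Real.log (9 / 10 * ρ) + Real.log (47 / 100 * ρ) := by
      have e1 : Real.log (9 / 10 * ρ) + Real.log (47 / 100 * ρ) =
          Real.log (9 / 10 * (47 / 100)) + 2 * Λ := by
        rw [Real.log_mul (by norm_num) hρ0.ne', Real.log_mul (by norm_num) hρ0.ne',
          Real.log_mul (by norm_num) (by norm_num)]
        ring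
      have e2 : -1 ≤ Real.log (9 / 10 * (47 / 100)) := by
        rw [Real.le_log_iff_exp_le (by norm_num)]
        have := Real.exp_neg_one_lt_d9
        linarith
      linarith
    have hst : w.σ + v.σ = t := by rw [hwσ, hvσ, ht]; ring
    have hKt : 2 * Λ - 1 ≤ 2 * (K * t) := by
      have e1 : κ * w.σ ≤ K * w.σ := mul_le_mul_of_nonneg_right hKκ hσ0.le
      rw [← hst]
      nlinarith
    have hKt2 : K * t ≤ t + 2 / 10 := by
      have e1 : K * t ≤ (1 + 2 / ρ) * t := mul_le_mul_of_nonneg_right hKup ht0.le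
      have e2 : 2 / ρ * t ≤ 2 / 10 := by
        have : 2 / ρ * t ≤ 2 / ρ * (ρ / 10) := mul_le_mul_of_nonneg_left hbig.le (by positivity)
        have e3 : 2 / ρ * (ρ / 10) = 2 / 10 := by field_simp
        linarith
      linarith
    have htl : Λ - 1 ≤ t := by linarith
    have e2 : R ^ 2 - r ^ 2 = t * (2 * R - t) := by rw [ht]; ring
    rw [e2]
    have e3 : t * (2 * ρ - t) ≤ t * (2 * R - t) := by
      apply mul_le_mul_of_nonneg_left _ ht0.le
      linarith
    have e4 : 0 ≤ (t - (Λ - 1)) * (2 * ρ - t - (Λ - 1)) := by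
      apply mul_nonneg (by linarith)
      linarith
    nlinarith

end Pool.Agent.Robin

end

section

/-!
# MP_4b551e_an: upper bound for the area (item G12, helper18)
-/

open MeasureTheory Set Metric
open scoped ENNReal NNReal Pointwise RealInnerProductSpace

namespace Pool.Agent.Robin

/-- `exp x ≤ 2 cosh x`. -/
theorem exp_le_two_cosh_G12 (x : ℝ) : Real.exp x ≤ 2 * Real.cosh x := by
  rw [Real.cosh_eq]
  have := Real.exp_pos (-x)
  linarith

/-- What the two layers at radii `r < R` give. -/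
theorem layers_G12 (hF2 : S_F2) (h1 : S_G1) (h2 : S_G2) (h4 : S_G4) (h6 : S_G6) (h7 : S_G7)
    (h8 : S_G8) (h9 : S_G9) (k A ρ l : ℝ) (hk : 1 < k) (hρ0 : 1 ≤ ρ) (hl : 0 < l)
    (hk2 : k ^ 2 = 1 + 1 / ρ) (hexp : Real.exp (2 * l) = ρ ^ 2)
    (hlev : ∀ (r R κ : ℝ) (χ : ℝ → ℝ), GS r R κ χ → Real.pi * (R ^ 2 - r ^ 2) = A → k ≤ κ)
    (r R : ℝ) (hr : 0 < r) (hrR : r < R) (hA : Real.pi * (R ^ 2 - r ^ 2) = A)
    (hD : ρ ≤ R - 2 * l) (hc : 1 ≤ (1 / ρ - 1 / (R - 2 * l)) * (ρ ^ 2 - 1)) :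
    ∃ a b τ : ℝ, 0 < a ∧ 0 < b ∧ 0 < τ ∧ Real.exp (R - r) ≤ 4 * (a * b) ∧
      Real.exp τ ≤ 2 * b ∧ (1 / ρ - 1 / (R - 2 * l)) * a ^ 2 ≤ 1 + 1 / ρ ∧
      1 / ρ * b ^ 2 ≤ 1 + 1 / ρ ∧
      (1 / ρ + 1 / (r + τ) - 1 / (2 * r * (r + τ))) * b ^ 2 ≤
        (1 + 1 / ρ) * (1 + τ / (r + τ)) := by
  obtain ⟨κ, χ, hGS⟩ := hF2 r R hr hrR
  have hkκ := hlev r R κ χ hGS hA
  have hρpos : 0 < ρ := by linarith
  obtain ⟨ξ₁, χ₁, hξ₁, hOL⟩ := h8 k R (2 * l) hk (by linarith) (by linarith) (by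
    rw [hexp, hk2]
    have : (1 + 1 / ρ - 1 - 1 / (R - 2 * l)) = (1 / ρ - 1 / (R - 2 * l)) := by ring
    rw [this]
    exact hc)
  obtain ⟨ξ₂, χ₂, hIL⟩ := h9 k r hk hr
  have hover := h7 r R κ k ξ₁ ξ₂ χ χ₁ χ₂ hk.le hkκ hGS hOL hIL
  obtain ⟨w, hw⟩ := h1 k R ξ₁ χ₁ hOL
  obtain ⟨v, hv⟩ := h2 k r ξ₂ χ₂ hIL
  have hξρ : ρ ≤ ξ₁ := le_trans hD hξ₁
  have hξ1 : 1 ≤ ξ₁ := le_trans hρ0 hξρ
  obtain ⟨g1, -, -, g4⟩ := h4 k R ξ₁ χ₁ w hk.le hξ1 hw
  obtain ⟨e1, -, e3, e4, -⟩ := h6 k r ξ₂ χ₂ v hk.le hv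
  have hσ : w.σ = R - ξ₁ := hw.sig
  have hτ : v.σ = ξ₂ - r := hv.sig
  have hr2 : r < ξ₂ := hIL.lt
  have hcosh : Real.cosh w.σ ≤ w.w 0 := by
    apply g4
    rw [hk2]
    have : 1 / ξ₁ ≤ 1 / ρ := one_div_le_one_div_of_le hρpos hξρ
    linarith
  have ha1 : 1 ≤ w.w 0 := w.one_le 0
  have hb1 : 1 ≤ v.w 0 := v.one_le 0
  have hτ0 : 0 < v.σ := v.σ_pos
  have hea : Real.exp (R - ξ₁) ≤ 2 * w.w 0 := by
    rw [← hσ]
    exact le_trans (exp_le_two_cosh_G12 _) (by linarith)
  have heb : Real.exp v.σ ≤ 2 * v.w 0 := by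
    have h10 : v.σ ≤ k * v.σ := by nlinarith
    calc Real.exp v.σ ≤ Real.exp (k * v.σ) := Real.exp_le_exp.2 h10
      _ ≤ 2 * Real.cosh (k * v.σ) := exp_le_two_cosh_G12 _
      _ ≤ 2 * v.w 0 := by linarith
  refine ⟨w.w 0, v.w 0, v.σ, by linarith, by linarith, hτ0, ?_, heb, ?_, ?_, ?_⟩
  · have h11 : R - r ≤ (R - ξ₁) + v.σ := by rw [hτ]; linarith
    calc Real.exp (R - r) ≤ Real.exp ((R - ξ₁) + v.σ) := Real.exp_le_exp.2 h11
      _ = Real.exp (R - ξ₁) * Real.exp v.σ := Real.exp_add _ _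
      _ ≤ (2 * w.w 0) * (2 * v.w 0) :=
        mul_le_mul hea heb (Real.exp_pos _).le (by linarith)
      _ = 4 * (w.w 0 * v.w 0) := by ring
  · have h12 : 1 / ξ₁ ≤ 1 / (R - 2 * l) := one_div_le_one_div_of_le (by linarith) hξ₁
    rw [hk2] at g1
    have h13 : (1 / ρ - 1 / (R - 2 * l)) * (w.w 0) ^ 2 ≤
        (1 + 1 / ρ - 1 - 1 / ξ₁) * (w.w 0) ^ 2 := by
      apply mul_le_mul_of_nonneg_right _ (sq_nonneg _)
      linarith
    linarith
  · rw [hk2] at e1
    have : (1 + 1 / ρ - 1) = 1 / ρ := by ring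
    rwa [this] at e1
  · have h14 : r + v.σ = ξ₂ := by rw [hτ]; ring
    rw [h14]
    rw [hk2] at e3
    have : (1 + 1 / ρ - 1 + 1 / ξ₂ - 1 / (2 * r * ξ₂)) = (1 / ρ + 1 / ξ₂ - 1 / (2 * r * ξ₂)) := by
      ring
    rwa [this] at e3

theorem two_mul_log_le_G12 {x C : ℝ} (hC : 0 < C) (h : Real.exp x ^ 2 ≤ C) :
    2 * x ≤ Real.log C := by
  have h1 : Real.exp (2 * x) = Real.exp x ^ 2 := by
    rw [← Real.exp_nat_mul]
    norm_num
  rw [Real.le_log_iff_exp_le hC, h1]
  exact h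


theorem aux_hul_G12 {l ρ u : ℝ} (hl : 1000 ≤ l) (hρu : ρ = 2 * l * u) (h : 1000 * l ^ 3 ≤ ρ) :
    500 * l ^ 2 ≤ u := by
  have hl0 : 0 < l := by linarith
  have h1 : (2 * l) * (500 * l ^ 2) ≤ (2 * l) * u := by
    have : (2 * l) * (500 * l ^ 2) = 1000 * l ^ 3 := by ring
    rw [this, ← hρu]
    exact h
  exact le_of_mul_le_mul_left h1 (by linarith)

theorem aux_hul3_G12 {l ρ u : ℝ} (hl : 1000 ≤ l) (hρu : ρ = 2 * l * u) (h : l ^ 4 ≤ ρ) :
    l ^ 3 ≤ 2 * u := by
  have hl0 : 0 < l := by linarith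
  have h1 : l * l ^ 3 ≤ l * (2 * u) := by
    have e1 : l * l ^ 3 = l ^ 4 := by ring
    have e2 : l * (2 * u) = ρ := by rw [hρu]; ring
    rw [e1, e2]
    exact h
  exact le_of_mul_le_mul_left h1 hl0

theorem aux_pi_G12 {A ρ : ℝ} (h : A ≤ 3 * ρ ^ 2) : A / Real.pi ≤ ρ ^ 2 := by
  rw [div_le_iff₀ Real.pi_pos]
  have h1 : 3 < Real.pi := Real.pi_gt_three
  have h2 : ρ ^ 2 * 3 ≤ ρ ^ 2 * Real.pi := mul_le_mul_of_nonneg_left h1.le (sq_nonneg ρ)
  linarith

theorem aux_D_G12 {l u : ℝ} (hl : 1000 ≤ l) (hul : 500 * l ^ 2 ≤ u) : 2 * l ≤ u := by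
  nlinarith

theorem aux_C1_G12 {l ρ u : ℝ} (hl : 1000 ≤ l) (hu : 0 < u) (hρu : ρ = 2 * l * u)
    (hul3 : l ^ 3 ≤ 2 * u) :
    (l - 2) * (ρ + u - 2 * l) ≤ (ρ + u - 2 * l - ρ) * (2 * l ^ 2) := by
  have e4 : (ρ + u - 2 * l - ρ) * (2 * l ^ 2) = l * ρ - 4 * l ^ 3 := by
    rw [hρu]; ring
  rw [e4, hρu]
  have h1 : l * l ^ 3 ≤ l * (2 * u) := mul_le_mul_of_nonneg_left hul3 (by linarith)
  have h2 : 1000 * l ^ 3 ≤ l * l ^ 3 := mul_le_mul_of_nonneg_right hl (by positivity)
  have h3 : 1000 * (l * l) ≤ l * (l * l) := mul_le_mul_of_nonneg_right hl (by positivity)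
  have h4 : 1000 * l ≤ l * l := mul_le_mul_of_nonneg_right hl (by linarith)
  nlinarith

theorem aux_hc_G12 {l ρ x : ℝ} (hl : 1000 ≤ l) (hρ : 1000000000 * l ≤ ρ)
    (h : 1 / (4 * l * ρ) ≤ x) : 1 ≤ x * (ρ ^ 2 - 1) := by
  have hρ1 : 1000000000 ≤ ρ := by linarith
  have e5 : 1 ≤ 1 / (4 * l * ρ) * (ρ ^ 2 - 1) := by
    rw [one_div, inv_mul_eq_div, le_div_iff₀ (by nlinarith)]
    nlinarith
  exact le_trans e5 (mul_le_mul_of_nonneg_right h (by nlinarith))

theorem aux_ha2_G12 {l ρ y : ℝ} (hl : 1000 ≤ l) (hρ : 1000000 * l ^ 2 ≤ ρ)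
    (h : (l - 2) * y ≤ 2 * l ^ 2 * (ρ + 1)) : y ≤ 2 * ρ * (l + 3) := by
  have hl2 : 0 ≤ l ^ 2 := sq_nonneg l
  have h1 : 2 * l ^ 2 * (ρ + 1) ≤ (l - 2) * (2 * ρ * (l + 3)) := by
    have h2 : (994 : ℝ) * ρ ≤ (l - 6) * ρ := mul_le_mul_of_nonneg_right (by linarith) (by linarith)
    have h3 : (l - 2) * (2 * ρ * (l + 3)) = 2 * l ^ 2 * ρ + 2 * ((l - 6) * ρ) := by ring
    rw [h3]
    linarith
  exact le_of_mul_le_mul_left (le_trans h h1) (by linarith)

theorem aux_prod1_G12 {l ρ : ℝ} (hl : 1000 ≤ l) (hρ : 1000000000 * l ≤ ρ) :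
    (2 * ρ * (l + 3)) * (ρ + 1) ≤ 4 * (ρ ^ 2 * l) := by
  have hρ0 : 0 < ρ := by linarith
  have h1 : 1000 * ρ ≤ l * ρ := mul_le_mul_of_nonneg_right hl hρ0.le
  have h2 : (l + 3) * (ρ + 1) ≤ 2 * (ρ * l) := by
    have : (l + 3) * (ρ + 1) = l * ρ + l + 3 * ρ + 3 := by ring
    rw [this]
    linarith
  calc (2 * ρ * (l + 3)) * (ρ + 1) = 2 * ρ * ((l + 3) * (ρ + 1)) := by ring
    _ ≤ 2 * ρ * (2 * (ρ * l)) := mul_le_mul_of_nonneg_left h2 (by linarith)
    _ = 4 * (ρ ^ 2 * l) := by ring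

theorem aux_f3_G12 {l ρ u : ℝ} (hl : 1000 ≤ l) (hρu : ρ = 2 * l * u)
    (hul : 500 * l ^ 2 ≤ u) : (l - 1) * (ρ + u + l) ≤ 1 * (l * ρ) := by
  have h1 : l * (500 * l ^ 2) ≤ l * u := mul_le_mul_of_nonneg_left hul (by linarith)
  have h2 : 1000 * l ^ 2 ≤ l * l ^ 2 := mul_le_mul_of_nonneg_right hl (by positivity)
  have h3 : 1000 * l ≤ l * l := mul_le_mul_of_nonneg_right hl (by linarith)
  have h4 : 0 ≤ l ^ 2 := sq_nonneg l
  rw [hρu]
  nlinarith

theorem aux_f4_G12 {l ρ r τ : ℝ} (hl : 1000 ≤ l) (hρ : 1000000000 * l ≤ ρ) (hr : ρ ≤ r)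
    (hτ : 0 < τ) : ρ * l ≤ 2 * r * (r + τ) := by
  have h1 : ρ * l ≤ ρ * ρ := mul_le_mul_of_nonneg_left (by linarith) (by linarith)
  have h2 : ρ * ρ ≤ r * r := mul_le_mul hr hr (by linarith) (by linarith)
  have h3 : 0 ≤ r * τ := mul_nonneg (by linarith) hτ.le
  nlinarith

theorem aux_f8_G12 {l ρ : ℝ} (hl : 1000 ≤ l) (hρ : 1000000 * l ^ 2 ≤ ρ) :
    (ρ + 1) * (ρ + l) * l ≤ (l + 1) * ρ ^ 2 := by
  have hl2 : 1000 * l ≤ l * l := mul_le_mul_of_nonneg_right hl (by linarith)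
  have h0 : 0 ≤ ρ := by nlinarith
  have h1 : 1000000 * l ^ 2 * ρ ≤ ρ * ρ := mul_le_mul_of_nonneg_right hρ h0
  have h2 : (1000 * l) * ρ ≤ (l * l) * ρ := mul_le_mul_of_nonneg_right hl2 h0
  have h3 : (1000 * 1000) * l ≤ 1000 * (l * l) := by nlinarith
  have h4 : 1000 * ρ ≤ l * ρ := mul_le_mul_of_nonneg_right hl h0
  have e : (ρ + 1) * (ρ + l) * l = l * ρ ^ 2 + (l * l) * ρ + l * ρ + l * l := by ring
  rw [e]
  nlinarith

theorem aux_b4_G12 {l ρ y : ℝ} (hl : 1000 ≤ l) (hρ : 0 < ρ)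
    (h : y * (2 * l - 2) ≤ ρ * (l + 1)) : y * (2 * l) ≤ ρ * (l + 3) := by
  have h1 : y * (2 * l - 2) * l ≤ ρ * (l + 1) * l := mul_le_mul_of_nonneg_right h (by linarith)
  have h2 : 0 ≤ ρ * (l - 3) := mul_nonneg hρ.le (by linarith)
  have g1 : y * (2 * l) * (l - 1) ≤ ρ * (l + 3) * (l - 1) := by
    have e1 : y * (2 * l) * (l - 1) = y * (2 * l - 2) * l := by ring
    have e2 : ρ * (l + 3) * (l - 1) = ρ * (l + 1) * l + ρ * (l - 3) := by ring
    rw [e1, e2]
    linarith
  exact le_of_mul_le_mul_right g1 (by linarith)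

theorem aux_last_G12 {l ρ u m R x : ℝ} (hl : 1000 ≤ l) (hm0 : 0 ≤ m) (hm : m ≤ l) (hu : 0 < u)
    (hρu : ρ = 2 * l * u) (hR : R = ρ + u) (hx : x ≤ l + m / 2 + 1.4) :
    R * x ≤ ρ * (l + m / 2 + 3) := by
  have hρ0 : 0 < ρ := by rw [hρu]; positivity
  have hR0 : 0 ≤ R := by rw [hR]; linarith
  have g10 : R * x ≤ R * (l + m / 2 + 1.4) := mul_le_mul_of_nonneg_left hx hR0
  have g11 : u * (l + m / 2 + 1.4) ≤ ρ := by
    have : u * (l + m / 2 + 1.4) ≤ u * (2 * l) := mul_le_mul_of_nonneg_left (by linarith) hu.le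
    rw [hρu]
    linarith
  have e : R * (l + m / 2 + 1.4) = ρ * (l + m / 2) + 1.4 * ρ + u * (l + m / 2 + 1.4) := by
    rw [hR]; ring
  have e2 : ρ * (l + m / 2 + 3) = ρ * (l + m / 2) + 3 * ρ := by ring
  rw [e2]
  linarith

theorem aux_A_G12 {r R : ℝ} : Real.pi * (R ^ 2 - r ^ 2) ≤ 2 * Real.pi * R * (R - r) := by
  have h1 : R ^ 2 - r ^ 2 ≤ 2 * R * (R - r) := by nlinarith [sq_nonneg (R - r)]
  calc Real.pi * (R ^ 2 - r ^ 2) ≤ Real.pi * (2 * R * (R - r)) :=
        mul_le_mul_of_nonneg_left h1 Real.pi_pos.le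
    _ = 2 * Real.pi * R * (R - r) := by ring

theorem aux_q_G12 {A ρ q : ℝ} (hρ : 0 < ρ) (hq : 0 < q) (hq2 : q ^ 2 = A / Real.pi)
    (hA : 3 * ρ ^ 2 < A) : 0.97 * ρ ≤ q := by
  have h20 : 0.9409 * ρ ^ 2 ≤ q ^ 2 := by
    rw [hq2, le_div_iff₀ Real.pi_pos]
    have h1 : Real.pi < 3.15 := Real.pi_lt_d2
    have h2 : ρ ^ 2 * Real.pi ≤ ρ ^ 2 * 3.15 := mul_le_mul_of_nonneg_left h1.le (sq_nonneg ρ)
    nlinarith [sq_nonneg ρ]
  have h21 : (0.97 * ρ) ^ 2 ≤ q ^ 2 := by
    have : (0.97 * ρ) ^ 2 = 0.9409 * ρ ^ 2 := by ring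
    rw [this]
    exact h20
  exact (sq_le_sq₀ (by positivity) hq.le).1 h21

theorem aux_s3_G12 : Real.sqrt 3 ≤ 1.74 := by
  rw [Real.sqrt_le_left (by norm_num)]
  norm_num

theorem prf_G12 (hF2 : S_F2) (h1 : S_G1) (h2 : S_G2) (h4 : S_G4) (h6 : S_G6) (h7 : S_G7)
    (h8 : S_G8) (h9 : S_G9) : S_G12 := by
  refine ⟨Real.exp 1000, Real.one_lt_exp_iff.2 (by norm_num), ?_⟩
  intro k A ρ hk hA hρk hρ hlev
  have hρ0 : 0 < ρ := lt_of_lt_of_le (Real.exp_pos _) hρ
  obtain ⟨l, hl⟩ : ∃ l, l = Real.log ρ := ⟨_, rfl⟩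
  rw [← hl]
  have hl1 : 1000 ≤ l := by
    rw [hl, Real.le_log_iff_exp_le hρ0]
    exact hρ
  have hexp : Real.exp l = ρ := by rw [hl]; exact Real.exp_log hρ0
  have hexp2 : Real.exp (2 * l) = ρ ^ 2 := by
    rw [← hexp, ← Real.exp_nat_mul]
    norm_num
  have hρl : l ^ 4 ≤ ρ := by
    have h10 := Real.pow_div_factorial_le_exp l (by linarith) 5
    rw [hexp] at h10
    have h11 : l ^ 4 ≤ l ^ 5 / (Nat.factorial 5 : ℝ) := by
      rw [le_div_iff₀ (by positivity)]
      have h12 : (Nat.factorial 5 : ℝ) = 120 := by norm_num [Nat.factorial]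
      rw [h12, pow_succ l 4]
      have h13 : 0 ≤ l ^ 4 := by positivity
      nlinarith
    linarith
  have hρl3 : 1000 * l ^ 3 ≤ ρ := by
    have : 0 ≤ l ^ 3 := by positivity
    nlinarith [pow_succ l 3]
  have hρl2 : 1000000 * l ^ 2 ≤ ρ := by
    have : 0 ≤ l ^ 2 := by positivity
    nlinarith [pow_succ l 2]
  have hρl1 : 1000000000 * l ≤ ρ := by nlinarith
  have hρ1 : 1 ≤ ρ := by linarith
  have hk2 : k ^ 2 = 1 + 1 / ρ := by
    field_simp
    linarith
  have hloglu : Real.log l ≤ l := by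
    have := Real.log_le_sub_one_of_pos (show (0 : ℝ) < l by linarith)
    linarith
  have hlog0 : 0 ≤ Real.log l := Real.log_nonneg (by linarith)
  have hlog2 : Real.log 2 < 0.6931471808 := Real.log_two_lt_d9
  have hpi : 0 < Real.pi := Real.pi_pos
  have hinv : 1 / ρ ≤ 1 := by
    rw [div_le_one hρ0]
    exact hρ1
  have hinv0 : 0 < 1 / ρ := by positivity
  have hρinv : ρ * (1 / ρ) = 1 := by field_simp
  by_contra hcon
  push Not at hcon
  by_cases hcase : A ≤ 3 * ρ ^ 2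
  · -- Case 1
    obtain ⟨u, hu⟩ : ∃ u, u = ρ / (2 * l) := ⟨_, rfl⟩
    have hρu : ρ = 2 * l * u := by rw [hu]; field_simp
    have hu0 : 0 < u := by rw [hu]; positivity
    have hul : 500 * l ^ 2 ≤ u := aux_hul_G12 hl1 hρu hρl3
    have hul3 : l ^ 3 ≤ 2 * u := aux_hul3_G12 hl1 hρu hρl
    obtain ⟨R, hR⟩ : ∃ R, R = ρ + u := ⟨_, rfl⟩
    have hRρ : ρ < R := by rw [hR]; linarith
    have hpiA : A / Real.pi ≤ ρ ^ 2 := aux_pi_G12 hcase
    have hr2 : 0 < R ^ 2 - A / Real.pi := by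
      have := pow_lt_pow_left₀ hRρ hρ0.le (two_ne_zero)
      linarith
    obtain ⟨r, hr⟩ : ∃ r, r = Real.sqrt (R ^ 2 - A / Real.pi) := ⟨_, rfl⟩
    have hr0 : 0 < r := by rw [hr]; exact Real.sqrt_pos.2 hr2
    have hrsq : r ^ 2 = R ^ 2 - A / Real.pi := by rw [hr]; exact Real.sq_sqrt hr2.le
    have hR0 : 0 < R := by linarith
    have hApi0 : 0 < A / Real.pi := by positivity
    have hrR : r < R := by
      have : r ^ 2 < R ^ 2 := by linarith
      exact (sq_lt_sq₀ hr0.le hR0.le).1 this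
    have hAeq : Real.pi * (R ^ 2 - r ^ 2) = A := by
      rw [hrsq]
      field_simp
      ring
    have hD : ρ ≤ R - 2 * l := by
      have := aux_D_G12 hl1 hul
      linarith
    have hD0 : 0 < R - 2 * l := by linarith
    have hC1 : 1 / (2 * l * ρ) * (1 - 2 / l) ≤ 1 / ρ - 1 / (R - 2 * l) := by
      have hl0 : 0 < l := by linarith
      have e1 : 1 / (2 * l * ρ) * (1 - 2 / l) = (l - 2) / (2 * l ^ 2 * ρ) := by
        field_simp
      have e2 : 1 / ρ - 1 / (R - 2 * l) = (R - 2 * l - ρ) / (ρ * (R - 2 * l)) := by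
        field_simp
      rw [e1, e2, div_le_div_iff₀ (by positivity) (by positivity)]
      have e3 : (l - 2) * (R - 2 * l) ≤ (R - 2 * l - ρ) * (2 * l ^ 2) := by
        rw [hR]
        exact aux_C1_G12 hl1 hu0 hρu hul3
      calc (l - 2) * (ρ * (R - 2 * l)) = ρ * ((l - 2) * (R - 2 * l)) := by ring
        _ ≤ ρ * ((R - 2 * l - ρ) * (2 * l ^ 2)) := mul_le_mul_of_nonneg_left e3 hρ0.le
        _ = (R - 2 * l - ρ) * (2 * l ^ 2 * ρ) := by ring
    have hC1' : 1 / (4 * l * ρ) ≤ 1 / ρ - 1 / (R - 2 * l) := by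
      refine le_trans ?_ hC1
      have hl0 : 0 < l := by linarith
      have : 1 / (4 * l * ρ) = 1 / (2 * l * ρ) * (1 / 2) := by field_simp; norm_num
      rw [this]
      apply mul_le_mul_of_nonneg_left _ (by positivity)
      have : 2 / l ≤ 1 / 2 := by
        rw [div_le_div_iff₀ hl0 (by norm_num)]
        linarith
      linarith
    have hc : 1 ≤ (1 / ρ - 1 / (R - 2 * l)) * (ρ ^ 2 - 1) := aux_hc_G12 hl1 hρl1 hC1'
    obtain ⟨a, b, τ, ha, hb, hτ, hab, hτb, ka, kb, kc⟩ :=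
      layers_G12 hF2 h1 h2 h4 h6 h7 h8 h9 k A ρ l hk hρ1 (by linarith) hk2 hexp2 hlev r R hr0 hrR
        hAeq hD hc
    have hl0 : 0 < l := by linarith
    have ha2 : a ^ 2 ≤ 2 * ρ * (l + 3) := by
      have e6 : 1 / (2 * l * ρ) * (1 - 2 / l) * a ^ 2 ≤ 1 + 1 / ρ :=
        le_trans (mul_le_mul_of_nonneg_right hC1 (sq_nonneg a)) ka
      have e7 : 1 / (2 * l * ρ) * (1 - 2 / l) * a ^ 2 = (l - 2) * a ^ 2 / (2 * l ^ 2 * ρ) := by
        field_simp
      rw [e7, div_le_iff₀ (by positivity)] at e6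
      have e8 : (1 + 1 / ρ) * (2 * l ^ 2 * ρ) = 2 * l ^ 2 * (ρ + 1) := by
        field_simp
      rw [e8] at e6
      exact aux_ha2_G12 hl1 hρl2 e6
    have hb2 : b ^ 2 ≤ ρ + 1 := by
      have e11 : 1 / ρ * b ^ 2 = b ^ 2 / ρ := by ring
      rw [e11, div_le_iff₀ hρ0] at kb
      have e12 : (1 + 1 / ρ) * ρ = ρ + 1 := by field_simp
      linarith
    have hRr1 : R - r ≤ 2 * l := by
      have e13 : Real.exp (R - r) ^ 2 ≤ 64 * (ρ ^ 2 * l) := by
        have e14 : Real.exp (R - r) ^ 2 ≤ (4 * (a * b)) ^ 2 :=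
          pow_le_pow_left₀ (Real.exp_pos _).le hab 2
        have e15 : (4 * (a * b)) ^ 2 = 16 * (a ^ 2 * b ^ 2) := by ring
        have e16 : a ^ 2 * b ^ 2 ≤ (2 * ρ * (l + 3)) * (ρ + 1) :=
          mul_le_mul ha2 hb2 (sq_nonneg b) (by positivity)
        have e17 : (2 * ρ * (l + 3)) * (ρ + 1) ≤ 4 * (ρ ^ 2 * l) := aux_prod1_G12 hl1 hρl1
        rw [e15] at e14
        linarith
      have e18 := two_mul_log_le_G12 (by positivity) e13
      rw [Real.log_mul (by norm_num) (by positivity), Real.log_mul (by positivity) (by positivity),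
        Real.log_pow, ← hl] at e18
      have e19 : Real.log 64 = 6 * Real.log 2 := by
        rw [show (64 : ℝ) = 2 ^ 6 by norm_num, Real.log_pow]
        norm_num
      rw [e19] at e18
      push_cast at e18
      linarith
    have hrD : ρ ≤ r := by linarith
    have hτl : τ ≤ l := by
      have e20 : Real.exp τ ^ 2 ≤ 8 * ρ := by
        have e21 : Real.exp τ ^ 2 ≤ (2 * b) ^ 2 := pow_le_pow_left₀ (Real.exp_pos _).le hτb 2
        have e24 : (2 * b) ^ 2 = 4 * b ^ 2 := by ring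
        rw [e24] at e21
        linarith
      have e22 := two_mul_log_le_G12 (by positivity) e20
      rw [Real.log_mul (by norm_num) (by positivity), ← hl] at e22
      have e23 : Real.log 8 = 3 * Real.log 2 := by
        rw [show (8 : ℝ) = 2 ^ 3 by norm_num, Real.log_pow]
        norm_num
      rw [e23] at e22
      linarith
    have hb3 : b ^ 2 * (2 * l - 2) ≤ ρ * (l + 1) := by
      have f1 : 1 / ρ * (1 - 1 / l) ≤ 1 / (r + τ) := by
        have f2 : 1 / (R + l) ≤ 1 / (r + τ) :=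
          one_div_le_one_div_of_le (by linarith) (by linarith)
        refine le_trans ?_ f2
        have f3 : 1 / ρ * (1 - 1 / l) = (l - 1) / (l * ρ) := by field_simp
        rw [f3, div_le_div_iff₀ (by positivity) (by linarith), hR]
        exact aux_f3_G12 hl1 hρu hul
      have f4 : 1 / (2 * r * (r + τ)) ≤ 1 / ρ * (1 / l) := by
        have f5 : 1 / ρ * (1 / l) = 1 / (ρ * l) := by field_simp
        rw [f5]
        exact one_div_le_one_div_of_le (by positivity) (aux_f4_G12 hl1 hρl1 hrD hτ)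
      have f6 : 1 / ρ * (2 - 2 / l) ≤ 1 / ρ + 1 / (r + τ) - 1 / (2 * r * (r + τ)) := by
        have f7 : 1 / ρ * (2 - 2 / l) = 1 / ρ + 1 / ρ * (1 - 1 / l) - 1 / ρ * (1 / l) := by ring
        rw [f7]
        linarith
      have f8 : (1 + 1 / ρ) * (1 + τ / (r + τ)) ≤ 1 + 1 / l := by
        have f9 : τ / (r + τ) ≤ l / ρ := by
          rw [div_le_div_iff₀ (by linarith) hρ0]
          exact mul_le_mul hτl (by linarith) hρ0.le hl0.le
        have f10 : (1 + 1 / ρ) * (1 + τ / (r + τ)) ≤ (1 + 1 / ρ) * (1 + l / ρ) :=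
          mul_le_mul_of_nonneg_left (by linarith) (by positivity)
        have f11 : (1 + 1 / ρ) * (1 + l / ρ) = (ρ + 1) * (ρ + l) / ρ ^ 2 := by
          field_simp
        have f12 : 1 + 1 / l = (l + 1) / l := by field_simp
        refine le_trans f10 ?_
        rw [f11, f12, div_le_div_iff₀ (by positivity) hl0]
        exact aux_f8_G12 hl1 hρl2
      have f13 : 1 / ρ * (2 - 2 / l) * b ^ 2 ≤ 1 + 1 / l :=
        le_trans (mul_le_mul_of_nonneg_right f6 (sq_nonneg b)) (le_trans kc f8)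
      have f14 : 1 / ρ * (2 - 2 / l) * b ^ 2 = b ^ 2 * (2 * l - 2) / (ρ * l) := by
        field_simp
      have f15 : 1 + 1 / l = ρ * (l + 1) / (ρ * l) := by field_simp
      rw [f14, f15, div_le_div_iff_of_pos_right (by positivity)] at f13
      exact f13
    have hb4 : b ^ 2 * (2 * l) ≤ ρ * (l + 3) := aux_b4_G12 hl1 hρ0 hb3
    have hfin : R - r ≤ l + Real.log l / 2 + 2 * Real.log 2 + 3 / l := by
      have g2 : Real.exp (R - r) ^ 2 ≤ 16 * (ρ ^ 2 * (l * (1 + 3 / l) ^ 2)) := by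
        have e14 : Real.exp (R - r) ^ 2 ≤ (4 * (a * b)) ^ 2 :=
          pow_le_pow_left₀ (Real.exp_pos _).le hab 2
        have e15 : (4 * (a * b)) ^ 2 = 16 * (a ^ 2 * b ^ 2) := by ring
        rw [e15] at e14
        refine le_trans e14 (mul_le_mul_of_nonneg_left ?_ (by norm_num))
        have g3 : ρ ^ 2 * (l * (1 + 3 / l) ^ 2) = (2 * ρ * (l + 3)) * (ρ * (l + 3)) / (2 * l) := by
          field_simp
        rw [g3, le_div_iff₀ (by positivity)]
        calc a ^ 2 * b ^ 2 * (2 * l) = a ^ 2 * (b ^ 2 * (2 * l)) := by ring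
          _ ≤ (2 * ρ * (l + 3)) * (ρ * (l + 3)) :=
            mul_le_mul ha2 hb4 (by positivity) (by positivity)
      have g4 := two_mul_log_le_G12 (by positivity) g2
      have g5 : 0 < 1 + 3 / l := by positivity
      rw [Real.log_mul (by norm_num) (by positivity), Real.log_mul (by positivity) (by positivity),
        Real.log_mul (by positivity) (by positivity), Real.log_pow, Real.log_pow, ← hl] at g4
      have g6 : Real.log 16 = 4 * Real.log 2 := by
        rw [show (16 : ℝ) = 2 ^ 4 by norm_num, Real.log_pow]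
        norm_num
      have g7 : Real.log (1 + 3 / l) ≤ 3 / l := by
        have := Real.log_le_sub_one_of_pos g5
        linarith
      rw [g6] at g4
      push_cast at g4
      linarith
    have hA2 : A ≤ 2 * Real.pi * R * (R - r) := by
      rw [← hAeq]
      exact aux_A_G12
    have hlast : R * (R - r) ≤ ρ * (l + Real.log l / 2 + 3) := by
      have g9 : 3 / l ≤ 0.003 := by
        rw [div_le_iff₀ hl0]
        linarith
      exact aux_last_G12 hl1 hlog0 hloglu hu0 hρu hR (by linarith)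
    have hlast2 : A ≤ 2 * Real.pi * ρ * (l + Real.log l / 2 + 3) := by
      calc A ≤ 2 * Real.pi * R * (R - r) := hA2
        _ = 2 * Real.pi * (R * (R - r)) := by ring
        _ ≤ 2 * Real.pi * (ρ * (l + Real.log l / 2 + 3)) :=
          mul_le_mul_of_nonneg_left hlast (by positivity)
        _ = 2 * Real.pi * ρ * (l + Real.log l / 2 + 3) := by ring
    linarith
  · -- Case 2
    push Not at hcase
    have hl0 : 0 < l := by linarith
    obtain ⟨q, hq⟩ : ∃ q, q = Real.sqrt (A / Real.pi) := ⟨_, rfl⟩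
    have hApi0 : 0 < A / Real.pi := by positivity
    have hq0 : 0 < q := by rw [hq]; exact Real.sqrt_pos.2 hApi0
    have hq2 : q ^ 2 = A / Real.pi := by rw [hq]; exact Real.sq_sqrt hApi0.le
    have hs3 : Real.sqrt 3 ^ 2 = 3 := Real.sq_sqrt (by norm_num)
    have hs30 : 0 < Real.sqrt 3 := Real.sqrt_pos.2 (by norm_num)
    have hs3u : Real.sqrt 3 ≤ 1.74 := aux_s3_G12
    have hqρ : 0.97 * ρ ≤ q := aux_q_G12 hρ0 hq0 hq2 hcase
    have hsq : Real.sqrt 3 * q ≤ 1.74 * q := mul_le_mul_of_nonneg_right hs3u hq0.le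
    have hrR : Real.sqrt 3 * q < 2 * q := by linarith
    have hAeq : Real.pi * ((2 * q) ^ 2 - (Real.sqrt 3 * q) ^ 2) = A := by
      rw [mul_pow, mul_pow, hs3, hq2]
      field_simp
      ring
    have hD : 1.9 * ρ ≤ 2 * q - 2 * l := by linarith
    have hC2 : 0.4 / ρ ≤ 1 / ρ - 1 / (2 * q - 2 * l) := by
      have h22 : 1 / (2 * q - 2 * l) ≤ 1 / (1.9 * ρ) :=
        one_div_le_one_div_of_le (by positivity) hD
      have h23 : 1 / (1.9 * ρ) = (1 / 1.9) * (1 / ρ) := by field_simp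
      have h24 : (0.4 : ℝ) / ρ = 0.4 * (1 / ρ) := by ring
      rw [h23] at h22
      rw [h24]
      have h25 : (1 / 1.9 : ℝ) * (1 / ρ) ≤ 0.6 * (1 / ρ) :=
        mul_le_mul_of_nonneg_right (by norm_num) hinv0.le
      linarith
    have hc : 1 ≤ (1 / ρ - 1 / (2 * q - 2 * l)) * (ρ ^ 2 - 1) := by
      have h26 : 1 ≤ 0.4 / ρ * (ρ ^ 2 - 1) := by
        rw [div_mul_eq_mul_div, le_div_iff₀ hρ0]
        have h40 : 1000 * ρ ≤ ρ * ρ := mul_le_mul_of_nonneg_right (by linarith) hρ0.le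
        nlinarith
      have h41 : 1 * ρ ≤ ρ * ρ := mul_le_mul_of_nonneg_right hρ1 hρ0.le
      exact le_trans h26 (mul_le_mul_of_nonneg_right hC2 (by nlinarith))
    obtain ⟨a, b, τ, ha, hb, hτ, hab, hτb, ka, kb, kc⟩ :=
      layers_G12 hF2 h1 h2 h4 h6 h7 h8 h9 k A ρ l hk hρ1 (by linarith) hk2 hexp2 hlev
        (Real.sqrt 3 * q) (2 * q) (by positivity) hrR hAeq (by linarith) hc
    have ha2 : a ^ 2 ≤ 3 * ρ := by
      have h27 : 0.4 / ρ * a ^ 2 ≤ 1 + 1 / ρ :=
        le_trans (mul_le_mul_of_nonneg_right hC2 (sq_nonneg a)) ka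
      rw [div_mul_eq_mul_div, div_le_iff₀ hρ0] at h27
      have h28 : (1 + 1 / ρ) * ρ = ρ + 1 := by field_simp
      rw [h28] at h27
      linarith
    have hb2 : b ^ 2 ≤ 2 * ρ := by
      have e11 : 1 / ρ * b ^ 2 = b ^ 2 / ρ := by ring
      rw [e11, div_le_iff₀ hρ0] at kb
      have e12 : (1 + 1 / ρ) * ρ = ρ + 1 := by field_simp
      linarith
    have e13 : Real.exp (2 * q - Real.sqrt 3 * q) ^ 2 ≤ 128 * ρ ^ 2 := by
      have e14 : Real.exp (2 * q - Real.sqrt 3 * q) ^ 2 ≤ (4 * (a * b)) ^ 2 :=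
        pow_le_pow_left₀ (Real.exp_pos _).le hab 2
      have e15 : (4 * (a * b)) ^ 2 = 16 * (a ^ 2 * b ^ 2) := by ring
      have e16 : a ^ 2 * b ^ 2 ≤ (3 * ρ) * (2 * ρ) :=
        mul_le_mul ha2 hb2 (sq_nonneg b) (by positivity)
      rw [e15] at e14
      have e17 : (3 * ρ) * (2 * ρ) = 6 * ρ ^ 2 := by ring
      rw [e17] at e16
      have e20 : 0 ≤ ρ ^ 2 := sq_nonneg ρ
      linarith
    have e18 := two_mul_log_le_G12 (by positivity) e13
    rw [Real.log_mul (by norm_num) (by positivity), Real.log_pow, ← hl] at e18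
    have e19 : Real.log 128 = 7 * Real.log 2 := by
      rw [show (128 : ℝ) = 2 ^ 7 by norm_num, Real.log_pow]
      norm_num
    rw [e19] at e18
    push_cast at e18
    linarith

end Pool.Agent.Robin

end

section

/-!
# MP_4b551e_an, item G15: existence of the optimal annulus
-/

open MeasureTheory Set Metric Filter
open scoped ENNReal NNReal Pointwise RealInnerProductSpace Topology

namespace Pool.Agent.Robin

namespace G15

/-- `|χ| ≤ 1` for a ground state. -/
theorem abs_le_one {r R κ : ℝ} {χ : ℝ → ℝ} (h : GS r R κ χ) {ξ : ℝ} (hξ : ξ ∈ Icc r R) :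
    -1 ≤ χ ξ ∧ χ ξ ≤ 1 := by
  have h1 := h.mono.monotoneOn (left_mem_Icc.2 h.lt.le) hξ hξ.1
  have h2 := h.mono.monotoneOn hξ (right_mem_Icc.2 h.lt.le) hξ.2
  rw [h.left] at h1
  rw [h.right] at h2
  exact ⟨h1, h2⟩

/-- The thickness is bounded below. -/
theorem thick {r R κ : ℝ} {χ : ℝ → ℝ} (h : GS r R κ χ) :
    2 ≤ (κ ^ 2 + 1 / r) * (R - r) := by
  have hr := h.r_pos
  set C := κ ^ 2 + 1 / r with hC
  have hcont : ContinuousOn χ (Icc r R) := fun ξ hξ => (h.deriv ξ hξ).continuousWithinAt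
  have hanti : AntitoneOn (fun ξ => χ ξ - C * ξ) (Icc r R) := by
    refine antitoneOn_of_hasDerivWithinAt_nonpos (convex_Icc r R)
      (hcont.sub (by fun_prop)) (f' := fun ξ => (κ ^ 2 - χ ξ ^ 2 - χ ξ / ξ) - C * 1) ?_ ?_
    · intro ξ hξ
      rw [interior_Icc] at hξ
      have h1 := (h.deriv ξ (Ioo_subset_Icc_self hξ)).hasDerivAt (Icc_mem_nhds hξ.1 hξ.2)
      exact (h1.sub ((hasDerivAt_id ξ).const_mul C)).hasDerivWithinAt
    · intro ξ hξ
      rw [interior_Icc] at hξ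
      have hb := abs_le_one h (Ioo_subset_Icc_self hξ)
      have hξ0 : 0 < ξ := hr.trans hξ.1
      have h1 : - (χ ξ / ξ) ≤ 1 / r := by
        have h2 : - (χ ξ / ξ) ≤ 1 / ξ := by
          rw [← neg_div]
          exact div_le_div_of_nonneg_right (by linarith [hb.1]) hξ0.le
        have h3 : 1 / ξ ≤ 1 / r := one_div_le_one_div_of_le hr hξ.1.le
        linarith
      rw [hC]
      nlinarith [sq_nonneg (χ ξ)]
  have h2 := hanti (left_mem_Icc.2 h.lt.le) (right_mem_Icc.2 h.lt.le) h.lt.le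
  simp only [h.left, h.right] at h2
  nlinarith

end G15

theorem prf_G15 (hF2 : S_F2) (h10 : S_G10) (h13 : S_G13) (h14 : S_G14) : S_G15 := by
  obtain ⟨A₀, hA₀, h13⟩ := h13
  refine ⟨A₀, hA₀, fun A hA => ?_⟩
  have hA0 : 0 < A := hA₀.trans_le hA
  have hpi := Real.pi_pos
  set K : Set ℝ := {κ | ∃ (r R : ℝ) (χ : ℝ → ℝ), GS r R κ χ ∧ Real.pi * (R ^ 2 - r ^ 2) = A}
    with hK
  obtain ⟨r0, R0, κ0, χ0, hg0, ha0, hk0⟩ := h13 A hA
  have hκ0K : κ0 ∈ K := ⟨r0, R0, χ0, hg0, ha0⟩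
  have hbdd : BddBelow K := ⟨1, by rintro κ ⟨r, R, χ, hg, -⟩; exact hg.one_lt.le⟩
  set κs := sInf K with hκs
  have hκs1 : 1 ≤ κs := le_csInf ⟨κ0, hκ0K⟩ (by rintro κ ⟨r, R, χ, hg, -⟩; exact hg.one_lt.le)
  have hκs0 : κs ≤ κ0 := csInf_le hbdd hκ0K
  set S := Real.sqrt (Real.pi / A) with hS
  have hS0 : 0 < S := Real.sqrt_pos.2 (by positivity)
  have hκsS : κs ^ 2 - 1 ≤ S / 4 := by
    have : κs ^ 2 ≤ κ0 ^ 2 := by nlinarith
    linarith
  obtain ⟨u, -, hu, huK⟩ := exists_seq_tendsto_sInf ⟨κ0, hκ0K⟩ hbdd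
  choose rn Rn χn hgn han using huK
  have hRn : ∀ n, Rn n ^ 2 = rn n ^ 2 + A / Real.pi := by
    intro n
    have := han n
    field_simp
    linarith
  -- eventual bounds
  have hev1 : ∀ᶠ n in atTop, u n ^ 2 - 1 < S / 2 := by
    have : Tendsto (fun n => u n ^ 2 - 1) atTop (𝓝 (κs ^ 2 - 1)) := (hu.pow 2).sub_const 1
    exact this.eventually_lt_const (by linarith)
  set c0 := Real.sqrt (3 * (A / Real.pi)) with hc0
  have hc00 : 0 < c0 := Real.sqrt_pos.2 (by positivity)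
  set C1 := (1 + S / 2 + 1 / c0) * (A / (4 * Real.pi)) with hC1
  have hSA : S ^ 2 * (A / Real.pi) = 1 := by
    rw [hS, Real.sq_sqrt (by positivity)]
    field_simp
  have hev2 : ∀ᶠ n in atTop, rn n ∈ Icc c0 C1 := by
    filter_upwards [hev1] with n hn
    obtain ⟨-, -, -, h1R⟩ := h10 (rn n) (Rn n) (u n) (χn n) (hgn n)
    have hr := (hgn n).r_pos
    have hR : 0 < Rn n := hr.trans (hgn n).lt
    have h1 : 1 / Rn n < S / 2 := h1R.trans_lt hn
    have h2 : 1 < S / 2 * Rn n := by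
      rwa [div_lt_iff₀ hR] at h1
    have h3 : 1 < S ^ 2 / 4 * Rn n ^ 2 := by nlinarith
    have h4 : 4 * (A / Real.pi) ≤ Rn n ^ 2 := by
      have h5 : 0 < A / Real.pi := by positivity
      have h6 : A / Real.pi < S ^ 2 / 4 * Rn n ^ 2 * (A / Real.pi) := by nlinarith
      have h7 : S ^ 2 / 4 * Rn n ^ 2 * (A / Real.pi) = Rn n ^ 2 / 4 := by
        calc S ^ 2 / 4 * Rn n ^ 2 * (A / Real.pi) = (S ^ 2 * (A / Real.pi)) * Rn n ^ 2 / 4 := by ring
          _ = Rn n ^ 2 / 4 := by rw [hSA, one_mul]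
      linarith
    have hlow : c0 ≤ rn n := by
      rw [hc0]
      apply Real.sqrt_le_iff.2
      refine ⟨hr.le, ?_⟩
      have := hRn n
      linarith
    refine ⟨hlow, ?_⟩
    have ht := G15.thick (hgn n)
    have h8 : Rn n - rn n ≤ A / Real.pi / (2 * rn n) := by
      rw [le_div_iff₀ (by positivity)]
      have := hRn n
      nlinarith [(hgn n).lt]
    have h9 : u n ^ 2 + 1 / rn n ≤ 1 + S / 2 + 1 / c0 := by
      have := one_div_le_one_div_of_le hc00 hlow
      linarith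
    have h10' : 2 ≤ (1 + S / 2 + 1 / c0) * (A / Real.pi / (2 * rn n)) := by
      refine ht.trans ?_
      apply mul_le_mul h9 h8 (by linarith [(hgn n).lt]) (by positivity)
    have h11 : (1 + S / 2 + 1 / c0) * (A / Real.pi / (2 * rn n)) * rn n = 2 * C1 := by
      rw [hC1]; field_simp; ring
    nlinarith
  obtain ⟨r, hrI, φ, hφ, hlim⟩ := isCompact_Icc.tendsto_subseq' hev2.frequently
  have hr0 : 0 < r := hc00.trans_le hrI.1
  set R := Real.sqrt (r ^ 2 + A / Real.pi) with hR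
  have hR2 : R ^ 2 = r ^ 2 + A / Real.pi := Real.sq_sqrt (by positivity)
  have hrR : r < R := by
    apply Real.lt_sqrt_of_sq_lt
    have : 0 < A / Real.pi := by positivity
    linarith
  have hlimR : Tendsto (Rn ∘ φ) atTop (𝓝 R) := by
    have h1 : ∀ n, Rn n = Real.sqrt (rn n ^ 2 + A / Real.pi) := by
      intro n
      rw [← hRn n, Real.sqrt_sq ((hgn n).r_pos.trans (hgn n).lt).le]
    have h2 : Tendsto (fun n => Real.sqrt ((rn ∘ φ) n ^ 2 + A / Real.pi)) atTop (𝓝 R) :=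
      (Real.continuous_sqrt.tendsto _).comp ((hlim.pow 2).add_const _)
    exact h2.congr fun n => (h1 (φ n)).symm
  obtain ⟨κ, χ, hg⟩ := hF2 r R hr0 hrR
  have harea : Real.pi * (R ^ 2 - r ^ 2) = A := by
    rw [hR2]; field_simp; ring
  have hκK : κ ∈ K := ⟨r, R, χ, hg, harea⟩
  have hκle : κs ≤ κ := csInf_le hbdd hκK
  have hκge : κ ≤ κs := by
    by_contra hcon
    rw [not_le] at hcon
    obtain ⟨δ, hδ, hsc⟩ := h14 r R κ ((κ + κs) / 2) χ hg (by linarith)
    have e1 : ∀ᶠ n in atTop, |(rn ∘ φ) n - r| < δ := by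
      have := Metric.tendsto_nhds.1 hlim δ hδ
      simpa [Real.dist_eq] using this
    have e2 : ∀ᶠ n in atTop, |(Rn ∘ φ) n - R| < δ := by
      have := Metric.tendsto_nhds.1 hlimR δ hδ
      simpa [Real.dist_eq] using this
    have e3 : ∀ᶠ n in atTop, (u ∘ φ) n < (κ + κs) / 2 :=
      (hu.comp hφ.tendsto_atTop).eventually_lt_const (by linarith)
    obtain ⟨n, hn1, hn2, hn3⟩ := (e1.and (e2.and e3)).exists
    have := hsc _ _ _ _ (hgn (φ n)) hn1 hn2
    exact absurd hn3 (not_lt.2 this.le)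
  have hκeq : κ = κs := le_antisymm hκge hκle
  refine ⟨r, R, κ, χ, hg, harea, ?_, ?_⟩
  · rw [hκeq]; exact hκsS
  · intro r' R' κ' χ' hg' ha'
    rw [hκeq]
    exact csInf_le hbdd ⟨r', R', χ', hg', ha'⟩

end Pool.Agent.Robin

end

section

/-!
MP_4b551e_an, item M1: the explicit profiles `cosh (σ - s)`.
-/

open MeasureTheory Set Metric Filter Topology

namespace Pool.Agent.Robin

theorem M1_phi (x : ℝ) : HasDerivAt (fun x : ℝ => Real.cosh (max x 0)) (Real.sinh (max x 0)) x := by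
  rcases lt_trichotomy x 0 with hx | hx | hx
  · rw [max_eq_right hx.le, Real.sinh_zero]
    refine (hasDerivAt_const x (Real.cosh 0)).congr_of_eventuallyEq ?_
    filter_upwards [Iio_mem_nhds hx] with y hy
    rw [max_eq_right (le_of_lt hy)]
  · subst hx
    rw [max_self, Real.sinh_zero]
    have h1 : HasDerivWithinAt (fun x : ℝ => Real.cosh (max x 0)) 0 (Iic 0) 0 := by
      refine (hasDerivWithinAt_const (0 : ℝ) (Iic 0) (Real.cosh 0)).congr ?_ (by simp)
      intro y hy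
      rw [max_eq_right hy]
    have h2 : HasDerivWithinAt (fun x : ℝ => Real.cosh (max x 0)) 0 (Ici 0) 0 := by
      have h3 := (Real.hasDerivAt_cosh 0).hasDerivWithinAt (s := Ici 0)
      rw [Real.sinh_zero] at h3
      refine h3.congr ?_ (by simp)
      intro y hy
      rw [max_eq_left hy]
    have h4 := h1.union h2
    rw [Iic_union_Ici] at h4
    exact hasDerivWithinAt_univ.1 h4
  · rw [max_eq_left hx.le]
    refine (Real.hasDerivAt_cosh x).congr_of_eventuallyEq ?_
    filter_upwards [Ioi_mem_nhds hx] with y hy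
    rw [max_eq_left (le_of_lt hy)]

/-- The explicit profile. -/
noncomputable def M1_prof (σ : ℝ) (hσ : 0 < σ) : Profile where
  w s := Real.cosh (max (σ - max s 0) 0)
  dw s := -Real.sinh (max (σ - s) 0)
  σ := σ
  σ_pos := hσ
  one_le s := Real.one_le_cosh _
  eq_one s hs := by
    have h1 : max s 0 = s := max_eq_left (hσ.le.trans hs)
    rw [h1, max_eq_right (by linarith), Real.cosh_zero]
  dw_zero s hs := by
    rw [max_eq_right (by linarith), Real.sinh_zero, neg_zero]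
  neg s hs := by
    rw [max_eq_right hs, max_self]
  dw_nonpos s _ := by
    rw [neg_nonpos]
    exact Real.sinh_nonneg_iff.2 (le_max_right _ _)
  dw_cont := by fun_prop
  deriv s hs := by
    have h1 := (M1_phi (σ - s)).comp_const_sub σ s
    refine h1.congr_of_eventuallyEq ?_
    filter_upwards [Ioi_mem_nhds hs] with y hy
    have hy' : max y 0 = y := max_eq_left (le_of_lt hy)
    rw [hy']
  w_cont := by fun_prop

theorem M1_g (σ : ℝ) (hσ : 0 < σ) (k s : ℝ) (hs : 0 ≤ s) :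
    (M1_prof σ hσ).g k s = (1 + k ^ 2) * (Real.sinh (max (σ - s) 0)) ^ 2 := by
  unfold Profile.g M1_prof
  simp only
  rw [max_eq_left hs, Real.cosh_sq]
  ring

theorem M1_int (σ : ℝ) :
    ∫ s in (0 : ℝ)..σ, (Real.sinh (σ - s)) ^ 2 = Real.sinh (2 * σ) / 4 - σ / 2 := by
  rw [intervalIntegral.integral_eq_sub_of_hasDerivAt
    (f := fun s => -(Real.sinh (2 * (σ - s)) / 4 - (σ - s) / 2)) ?_
    (by apply Continuous.intervalIntegrable; fun_prop)]
  · simp
  · intro s _
    have h0 : HasDerivAt (fun s : ℝ => σ - s) (-1) s := by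
      simpa using (hasDerivAt_id s).const_sub σ
    have h1 := (((h0.const_mul 2).sinh.div_const 4).sub (h0.div_const 2)).neg
    refine h1.congr_deriv ?_
    rw [Real.cosh_two_mul, Real.cosh_sq]
    ring

theorem M1_int2 (σ : ℝ) :
    ∫ s in (0 : ℝ)..σ, (Real.sinh (σ - s)) ^ 2 * s =
      (Real.cosh (2 * σ) - 1) / 8 - σ ^ 2 / 4 := by
  rw [intervalIntegral.integral_eq_sub_of_hasDerivAt
    (f := fun s => -(s * (Real.sinh (2 * (σ - s)) / 4 - (σ - s) / 2)) -
      (Real.cosh (2 * (σ - s)) / 8 - (σ - s) ^ 2 / 4)) ?_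
    (by apply Continuous.intervalIntegrable; fun_prop)]
  · simp
    ring
  · intro s _
    have h0 : HasDerivAt (fun s : ℝ => σ - s) (-1) s := by
      simpa using (hasDerivAt_id s).const_sub σ
    have h1 := ((hasDerivAt_id s).mul
      (((h0.const_mul 2).sinh.div_const 4).sub (h0.div_const 2))).neg.sub
      (((h0.const_mul 2).cosh.div_const 8).sub ((h0.pow 2).div_const 4))
    refine h1.congr_deriv ?_
    simp only [Pi.sub_apply, id_eq]
    rw [Real.cosh_two_mul, Real.cosh_sq]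
    push_cast
    ring

theorem prf_M1 : S_M1 := by
  intro k σ hk hσ
  refine ⟨M1_prof σ hσ, ?_, ?_, ?_, ?_⟩
  · intro a ha b hb hab
    rw [M1_g σ hσ k b hb, M1_g σ hσ k a ha]
    have h1 : max (σ - b) 0 ≤ max (σ - a) 0 := max_le_max (by linarith) le_rfl
    have h2 : 0 ≤ Real.sinh (max (σ - b) 0) := Real.sinh_nonneg_iff.2 (le_max_right _ _)
    have h3 : Real.sinh (max (σ - b) 0) ≤ Real.sinh (max (σ - a) 0) := Real.sinh_le_sinh.2 h1
    have h4 := pow_le_pow_left₀ h2 h3 2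
    exact mul_le_mul_of_nonneg_left h4 (by positivity)
  · unfold Profile.q
    have e1 : ∫ s in (0 : ℝ)..(M1_prof σ hσ).σ, (M1_prof σ hσ).g k s =
        (1 + k ^ 2) * (Real.sinh (2 * σ) / 4 - σ / 2) := by
      rw [← M1_int σ, ← intervalIntegral.integral_const_mul]
      refine intervalIntegral.integral_congr ?_
      intro s hs
      have hs' : s ∈ Icc 0 σ := by
        rwa [← uIcc_of_le hσ.le]
      simp only
      rw [M1_g σ hσ k s hs'.1, max_eq_left (by linarith [hs'.2])]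
    rw [e1]
    have e2 : (M1_prof σ hσ).w 0 = Real.cosh σ := by
      unfold M1_prof
      simp only
      rw [max_self, sub_zero, max_eq_left hσ.le]
    rw [e2]
    have h1 : Real.cosh σ ^ 2 = (Real.cosh (2 * σ) + 1) / 2 := by
      rw [Real.cosh_two_mul, Real.sinh_sq]; ring
    rw [h1, Real.cosh_eq, Real.sinh_eq]
    have hE : 0 < Real.exp (2 * σ) := Real.exp_pos _
    have hE' : 0 < Real.exp (-(2 * σ)) := Real.exp_pos _
    have hk2 : 0 ≤ k ^ 2 - 1 := by nlinarith
    nlinarith [mul_nonneg hk2 hE'.le, mul_nonneg hk2 hσ.le]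
  · unfold Profile.m
    refine intervalIntegral.integral_nonneg hσ.le ?_
    intro s hs
    rw [M1_g σ hσ k s hs.1]
    have := hs.1
    positivity
  · unfold Profile.m
    have e1 : ∫ s in (0 : ℝ)..(M1_prof σ hσ).σ, (M1_prof σ hσ).g k s * s =
        (1 + k ^ 2) * ((Real.cosh (2 * σ) - 1) / 8 - σ ^ 2 / 4) := by
      rw [← M1_int2 σ, ← intervalIntegral.integral_const_mul]
      refine intervalIntegral.integral_congr ?_
      intro s hs
      have hs' : s ∈ Icc 0 σ := by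
        rwa [← uIcc_of_le hσ.le]
      simp only
      rw [M1_g σ hσ k s hs'.1, max_eq_left (by linarith [hs'.2])]
      ring
    rw [e1]
    have hE' : Real.exp (-(2 * σ)) ≤ 1 := Real.exp_le_one_iff.2 (by linarith)
    have h2 : (Real.cosh (2 * σ) - 1) / 8 - σ ^ 2 / 4 ≤ Real.exp (2 * σ) / 16 := by
      rw [Real.cosh_eq]
      nlinarith [sq_nonneg σ]
    have h3 : 0 ≤ 1 + k ^ 2 := by positivity
    have h4 := mul_le_mul_of_nonneg_left h2 h3
    linarith

end Pool.Agent.Robin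

end
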