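import Pool.Agent.Work.MP_4b551e_an.Stmts29

/-! Bundle of small proof modules (one section per former module). -/

section

/-!
MP_4b551e_an, item H2: integration by parts with the support function.
-/

open MeasureTheory Set Metric
open scoped ENNReal NNReal Pointwise RealInnerProductSpace

namespace Pool.Agent.Robin

namespace H2

theorem inn (x y : E2) : ⟪x, y⟫ = x 0 * y 0 + x 1 * y 1 := by
  rw [PiLp.inner_apply, Fin.sum_univ_two]
  simp only [RCLike.inner_apply, conj_trivial]
  ring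

theorem dirv0 (θ : ℝ) : (dirv θ) 0 = Real.cos θ := by simp [dirv]

theorem dirv1 (θ : ℝ) : (dirv θ) 1 = Real.sin θ := by simp [dirv]

theorem rot0 (v : E2) : (rot v) 0 = -(v 1) := by simp [rot]

theorem rot1 (v : E2) : (rot v) 1 = v 0 := by simp [rot]

theorem in1 (w : E2) (θ : ℝ) : ⟪w, dirv θ⟫ = w 0 * Real.cos θ + w 1 * Real.sin θ := by
  rw [inn, dirv0, dirv1]

theorem in2 (w : E2) (θ : ℝ) : ⟪w, rot (dirv θ)⟫ = w 1 * Real.cos θ - w 0 * Real.sin θ := by
  rw [inn, rot0, rot1, dirv0, dirv1]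
  ring

theorem cont1 (w : E2) : Continuous fun θ : ℝ => ⟪w, dirv θ⟫ := by
  simp only [in1]
  fun_prop

theorem cont2 (w : E2) : Continuous fun θ : ℝ => ⟪w, rot (dirv θ)⟫ := by
  simp only [in2]
  fun_prop

theorem der1 (w : E2) (θ : ℝ) : HasDerivAt (fun θ : ℝ => ⟪w, dirv θ⟫) ⟪w, rot (dirv θ)⟫ θ := by
  simp only [in1, in2]
  have h1 := (Real.hasDerivAt_cos θ).const_mul (w 0)
  have h2 := (Real.hasDerivAt_sin θ).const_mul (w 1)
  exact (h1.add h2).congr_deriv (by ring)

theorem der2 (w : E2) (θ : ℝ) :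
    HasDerivAt (fun θ : ℝ => ⟪w, rot (dirv θ)⟫) (-⟪w, dirv θ⟫) θ := by
  simp only [in1, in2]
  have h1 := (Real.hasDerivAt_cos θ).const_mul (w 1)
  have h2 := (Real.hasDerivAt_sin θ).const_mul (w 0)
  exact (h1.sub h2).congr_deriv (by ring)

/-- the smooth integrand of a piece -/
noncomputable def pc (w : E2) (r₀ : ℝ) (F F' : ℝ → ℝ) (θ : ℝ) : ℝ :=
  F' (⟪w, dirv θ⟫ + r₀) * ⟪w, rot (dirv θ)⟫ ^ 2 - F (⟪w, dirv θ⟫ + r₀) * ⟪w, dirv θ⟫

theorem pc_cont (w : E2) (r₀ : ℝ) (F F' : ℝ → ℝ) (hF : Continuous F) (hF' : Continuous F') :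
    Continuous (pc w r₀ F F') := by
  unfold pc
  have h1 := cont1 w
  have h2 := cont2 w
  fun_prop

theorem piece (w : E2) (r₀ : ℝ) (F F' : ℝ → ℝ) (hF : ∀ x, HasDerivAt F (F' x) x)
    (hF' : Continuous F') (α β : ℝ) :
    ∫ θ in α..β, pc w r₀ F F' θ =
      F (⟪w, dirv β⟫ + r₀) * ⟪w, rot (dirv β)⟫ - F (⟪w, dirv α⟫ + r₀) * ⟪w, rot (dirv α)⟫ := by
  have hFc : Continuous F := continuous_iff_continuousAt.2 fun x => (hF x).continuousAt
  refine intervalIntegral.integral_eq_sub_of_hasDerivAt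
    (f := fun θ => F (⟪w, dirv θ⟫ + r₀) * ⟪w, rot (dirv θ)⟫) ?_
    ((pc_cont w r₀ F F' hFc hF').intervalIntegrable _ _)
  intro θ _
  have h1 : HasDerivAt (fun θ : ℝ => ⟪w, dirv θ⟫ + r₀) ⟪w, rot (dirv θ)⟫ θ :=
    (der1 w θ).add_const r₀
  have h2 : HasDerivAt (fun θ : ℝ => F (⟪w, dirv θ⟫ + r₀))
      (F' (⟪w, dirv θ⟫ + r₀) * ⟪w, rot (dirv θ)⟫) θ :=
    (hF _).comp θ h1
  exact (h2.mul (der2 w θ)).congr_deriv (by unfold pc; ring)

end H2

open H2 in
theorem pr_H2 (h1 : T_P1) (hh : T_H1) : T_H2 := by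
  intro N c a r₀ F F' hS hF hF'
  obtain ⟨hcont, hper, -, hval, hpiece, -, -⟩ := hh N c a r₀ hS
  have hFc : Continuous F := continuous_iff_continuousAt.2 fun x => (hF x).continuousAt
  have hN8 := hS.N_le
  have hN : (0 : ℝ) < N := by
    have : 0 < N := by omega
    exact_mod_cast this
  have hdl : (N : ℝ) * dl N = 2 * Real.pi := by
    unfold dl; field_simp
  have hdlpos : 0 < dl N := by
    unfold dl; positivity
  -- periodicity
  have hnvper : ∀ i : ℤ, nv N (i + N) = nv N i := by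
    intro i
    unfold nv
    have e : (((i + (N : ℤ) : ℤ) : ℝ)) * dl N = (i : ℝ) * dl N + 2 * Real.pi := by
      push_cast
      rw [add_mul, hdl]
    rw [e]
    unfold dirv
    rw [Real.cos_add_two_pi, Real.sin_add_two_pi]
  have htvper : ∀ i : ℤ, tv N (i + N) = tv N i := by
    intro i; unfold tv; rw [hnvper]
  have hvxper : ∀ i : ℤ, vx N c (i + N) = vx N c i := by
    intro i
    unfold vx
    rw [hnvper, htvper, hS.per, show i + (N : ℤ) + 1 = (i + 1) + N by ring, hS.per]
  -- the total integrand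
  set E : ℝ → ℝ := fun θ => F' (Hf N c a r₀ θ) * (dHf N c a θ) ^ 2 -
    F (Hf N c a r₀ θ) * (Hf N c a r₀ θ - r₀) with hE
  set A : ℕ → ℝ := fun i => (i : ℝ) * dl N with hA
  have hAlt : ∀ i : ℕ, A i ≤ A (i + 1) := by
    intro i
    simp only [hA]
    push_cast
    nlinarith
  have hEae : ∀ i : ℕ, ∀ᵐ θ ∂(volume : Measure ℝ), θ ∈ uIoc (A i) (A (i + 1)) →
      pc (vx N c i - a) r₀ F F' θ = E θ := by
    intro i
    have hne : ∀ᵐ θ ∂(volume : Measure ℝ), θ ≠ A (i + 1) := by
      have : ({A (i + 1)} : Set ℝ)ᶜ ∈ ae (volume : Measure ℝ) :=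
        compl_mem_ae_iff.mpr (measure_singleton _)
      filter_upwards [this] with θ hθ
      simpa using hθ
    filter_upwards [hne] with θ hθ hmem
    rw [uIoc_of_le (hAlt i)] at hmem
    have hlo : ((i : ℤ) : ℝ) * dl N ≤ θ := by
      have := hmem.1.le
      simpa [hA] using this
    have hhi : θ < (((i : ℤ) : ℝ) + 1) * dl N := by
      have := lt_of_le_of_ne hmem.2 hθ
      simpa [hA] using this
    obtain ⟨e1, e2⟩ := hpiece (i : ℤ) θ hlo hhi
    simp only [hE, pc]
    rw [e1, e2]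
    ring_nf
  have hEint : ∀ i < N, IntervalIntegrable E volume (A i) (A (i + 1)) := by
    intro i _
    refine IntervalIntegrable.congr_ae
      ((pc_cont (vx N c i - a) r₀ F F' hFc hF').intervalIntegrable _ _) ?_
    rw [Filter.EventuallyEq, ae_restrict_iff' measurableSet_uIoc]
    exact hEae i
  have hsum := intervalIntegral.sum_integral_adjacent_intervals hEint
  have hA0 : A 0 = 0 := by simp [hA]
  have hAN : A N = 2 * Real.pi := by simp only [hA]; exact hdl
  rw [hA0, hAN] at hsum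
  have htot : IntervalIntegrable E volume 0 (2 * Real.pi) := by
    have := IntervalIntegrable.trans_iterate hEint
    rwa [hA0, hAN] at this
  -- the values
  set g : ℤ → ℝ := fun i => F (c i - ⟪a, nv N i⟫ + r₀) with hg
  have hgper : g N = g 0 := by
    simp only [hg]
    have e1 := hS.per 0
    have e2 := hnvper 0
    rw [zero_add] at e1 e2
    rw [e1, e2]
  have hI : ∀ i : ℕ, ∫ θ in A i..A (i + 1), E θ =
      g ((i : ℤ) + 1) * ⟪vx N c i - a, tv N ((i : ℤ) + 1)⟫ - g i * ⟪vx N c i - a, tv N i⟫ := by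
    intro i
    rw [← intervalIntegral.integral_congr_ae (hEae i), piece _ _ _ _ hF hF']
    have p := h1 N c (i : ℤ) hN8
    have d1 : dirv (A i) = nv N i := by simp only [hA, nv]; norm_num
    have d2 : dirv (A (i + 1)) = nv N ((i : ℤ) + 1) := by simp only [hA, nv]; norm_num
    rw [d1, d2]
    have v1 : ⟪vx N c i - a, nv N i⟫ + r₀ = c i - ⟪a, nv N i⟫ + r₀ := by
      rw [inner_sub_left, p.2.1]
    have v2 : ⟪vx N c i - a, nv N ((i : ℤ) + 1)⟫ + r₀ =
        c ((i : ℤ) + 1) - ⟪a, nv N ((i : ℤ) + 1)⟫ + r₀ := by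
      rw [inner_sub_left, p.2.2]
    rw [v1, v2]
    rfl
  -- summation
  have hcyc : ∑ i ∈ Finset.range N, (g ((i : ℤ) + 1) * ⟪vx N c i - a, tv N ((i : ℤ) + 1)⟫) =
      ∑ i ∈ Finset.range N, (g i * ⟪vx N c ((i : ℤ) - 1) - a, tv N i⟫) := by
    have e : ∀ n : ℕ, ∑ i ∈ Finset.range n,
        (g ((i : ℤ) + 1) * ⟪vx N c i - a, tv N ((i : ℤ) + 1)⟫) =
        (∑ i ∈ Finset.range n, (g i * ⟪vx N c ((i : ℤ) - 1) - a, tv N i⟫)) +
          g n * ⟪vx N c ((n : ℤ) - 1) - a, tv N n⟫ - g 0 * ⟪vx N c (-1) - a, tv N 0⟫ := by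
      intro n
      induction n with
      | zero => simp
      | succ n ih =>
        rw [Finset.sum_range_succ, Finset.sum_range_succ, ih]
        have e1 : ((n + 1 : ℕ) : ℤ) = (n : ℤ) + 1 := by push_cast; ring
        rw [e1, show (n : ℤ) + 1 - 1 = n by ring]
        ring
    rw [e N, hgper]
    have e2 : tv N (N : ℤ) = tv N 0 := by
      have := htvper 0
      rwa [zero_add] at this
    have e3 : vx N c ((N : ℤ) - 1) = vx N c (-1) := by
      have := hvxper (-1)
      rwa [show (-1 : ℤ) + N = N - 1 by ring] at this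
    rw [e2, e3]
    ring
  have htt : ∀ i : ℤ, ⟪tv N i, tv N i⟫ = 1 := by
    intro i
    rw [inn]
    unfold tv nv
    rw [rot0, rot1, dirv0, dirv1]
    nlinarith [Real.sin_sq_add_cos_sq ((i : ℝ) * dl N)]
  have hfinal : ∫ θ in (0 : ℝ)..2 * Real.pi, E θ =
      -∑ i ∈ Finset.range N, el N c i * F (c i - ⟪a, nv N i⟫ + r₀) := by
    rw [← hsum]
    have e1 : ∑ k ∈ Finset.range N, ∫ θ in A k..A (k + 1), E θ =
        ∑ i ∈ Finset.range N,
          (g ((i : ℤ) + 1) * ⟪vx N c i - a, tv N ((i : ℤ) + 1)⟫ - g i * ⟪vx N c i - a, tv N i⟫) :=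
      Finset.sum_congr rfl fun i _ => hI i
    rw [e1, Finset.sum_sub_distrib, hcyc, ← Finset.sum_sub_distrib, ← Finset.sum_neg_distrib]
    refine Finset.sum_congr rfl fun i _ => ?_
    have p := (h1 N c (i : ℤ) hN8).1
    have e2 : ⟪vx N c i - a, tv N i⟫ - ⟪vx N c ((i : ℤ) - 1) - a, tv N i⟫ = el N c i := by
      rw [← inner_sub_left, sub_sub_sub_cancel_right, p, inner_smul_left, htt]
      simp
    have e3 : g i * ⟪vx N c ((i : ℤ) - 1) - a, tv N i⟫ - g i * ⟪vx N c i - a, tv N i⟫ =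
        -(g i * (⟪vx N c i - a, tv N i⟫ - ⟪vx N c ((i : ℤ) - 1) - a, tv N i⟫)) := by ring
    rw [e3, e2]
    simp only [hg]
    ring
  -- splitting
  have hi1 : IntervalIntegrable (fun θ => F (Hf N c a r₀ θ) * Hf N c a r₀ θ) volume 0
      (2 * Real.pi) := ((hFc.comp hcont).mul hcont).intervalIntegrable _ _
  have hi2 : IntervalIntegrable (fun θ => F (Hf N c a r₀ θ)) volume 0
      (2 * Real.pi) := (hFc.comp hcont).intervalIntegrable _ _
  have hi2' : IntervalIntegrable (fun θ => r₀ * F (Hf N c a r₀ θ)) volume 0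
      (2 * Real.pi) := hi2.const_mul r₀
  have hi3 : IntervalIntegrable (fun θ => F' (Hf N c a r₀ θ) * (dHf N c a θ) ^ 2) volume 0
      (2 * Real.pi) := by
    have h := (htot.add hi1).sub hi2'
    refine h.congr_ae (Filter.Eventually.of_forall fun θ => ?_)
    simp only [hE, Pi.add_apply, Pi.sub_apply]
    ring
  have hsplit : ∫ θ in (0 : ℝ)..2 * Real.pi, E θ =
      (∫ θ in (0 : ℝ)..2 * Real.pi, F' (Hf N c a r₀ θ) * (dHf N c a θ) ^ 2) -
        (∫ θ in (0 : ℝ)..2 * Real.pi, F (Hf N c a r₀ θ) * Hf N c a r₀ θ) +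
        r₀ * ∫ θ in (0 : ℝ)..2 * Real.pi, F (Hf N c a r₀ θ) := by
    rw [← intervalIntegral.integral_const_mul, ← intervalIntegral.integral_sub hi3 hi1,
      ← intervalIntegral.integral_add (hi3.sub hi1) hi2']
    refine intervalIntegral.integral_congr fun θ _ => ?_
    simp only [hE]
    ring
  rw [hsplit] at hfinal
  linarith

end Pool.Agent.Robin

end

section

/-!
# MP_4b551e_an, outer part, item H3: Wirtinger inequality for the modes `≥ 2`
-/

open MeasureTheory Set Metric
open scoped ENNReal NNReal Pointwise RealInnerProductSpace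

namespace Pool.Agent.Robin

namespace H3

lemma two_pi_pos' : (0:ℝ) < 2 * Real.pi := by positivity

lemma ii_ofReal {f : ℝ → ℝ} {a b : ℝ} (h : IntervalIntegrable f volume a b) :
    IntervalIntegrable (fun x => (f x : ℂ)) volume a b :=
  ⟨h.1.ofReal, h.2.ofReal⟩

lemma coeff_zero (f : ℝ → ℝ) :
    fourierCoeffOn two_pi_pos' (fun θ => (f θ : ℂ)) 0 =
      (((2 * Real.pi)⁻¹ * ∫ θ in (0:ℝ)..2 * Real.pi, f θ : ℝ) : ℂ) := by
  rw [fourierCoeffOn_eq_integral]
  simp only [neg_zero, fourier_zero, one_smul, sub_zero, one_div]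
  rw [intervalIntegral.integral_ofReal, Complex.real_smul, ← Complex.ofReal_mul]

lemma fourier_val (n : ℤ) (x : ℝ) : (fourier (-n) (x : AddCircle (2 * Real.pi - 0)) : ℂ) =
    ((Real.cos (n * x) : ℝ) : ℂ) - ((Real.sin (n * x) : ℝ) : ℂ) * Complex.I := by
  rw [fourier_coe_apply]
  have h1 : 2 * (Real.pi : ℂ) * Complex.I * ((-n : ℤ) : ℂ) * (x : ℂ) /
      ((2 * Real.pi - 0 : ℝ) : ℂ) = ((-(n * x) : ℝ) : ℂ) * Complex.I := by
    push_cast
    have : (Real.pi : ℂ) ≠ 0 := by exact_mod_cast Real.pi_ne_zero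
    rw [sub_zero]
    field_simp
  rw [h1, Complex.exp_mul_I, ← Complex.ofReal_cos, ← Complex.ofReal_sin, Real.cos_neg,
    Real.sin_neg]
  push_cast
  ring

lemma coeff_n (f : ℝ → ℝ) (hf : IntervalIntegrable f volume 0 (2 * Real.pi)) (n : ℤ)
    (h1 : ∫ θ in (0 : ℝ)..2 * Real.pi, f θ * Real.cos (n * θ) = 0)
    (h2 : ∫ θ in (0 : ℝ)..2 * Real.pi, f θ * Real.sin (n * θ) = 0) :
    fourierCoeffOn two_pi_pos' (fun θ => (f θ : ℂ)) n = 0 := by
  rw [fourierCoeffOn_eq_integral]
  have e : ∫ x in (0:ℝ)..2 * Real.pi, fourier (-n) (x : AddCircle (2 * Real.pi - 0)) • (f x : ℂ) =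
      ∫ x in (0:ℝ)..2 * Real.pi, (((f x * Real.cos (n * x) : ℝ) : ℂ) -
        ((f x * Real.sin (n * x) : ℝ) : ℂ) * Complex.I) := by
    apply intervalIntegral.integral_congr
    intro x _
    simp only [fourier_val, smul_eq_mul]
    push_cast
    ring
  have i1 : IntervalIntegrable (fun x => f x * Real.cos (n * x)) volume 0 (2 * Real.pi) :=
    hf.mul_continuousOn (by fun_prop)
  have i2 : IntervalIntegrable (fun x => f x * Real.sin (n * x)) volume 0 (2 * Real.pi) :=
    hf.mul_continuousOn (by fun_prop)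
  rw [e, intervalIntegral.integral_sub, intervalIntegral.integral_ofReal,
    intervalIntegral.integral_mul_const, intervalIntegral.integral_ofReal, h1, h2]
  · simp
  · exact ii_ofReal i1
  · exact (ii_ofReal i2).mul_const _

lemma coeff_bd {f f' : ℝ → ℝ} (hf : ContinuousOn f (Icc 0 (2 * Real.pi)))
    (hper : f 0 = f (2 * Real.pi))
    (hd : ∀ θ ∈ Ioo 0 (2 * Real.pi), HasDerivWithinAt f (f' θ) (Ioi θ) θ)
    (hf' : IntervalIntegrable f' volume 0 (2 * Real.pi)) (n : ℤ) (hn : n ≠ 0) :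
    ‖fourierCoeffOn two_pi_pos' (fun θ => (f' θ : ℂ)) n‖ ^ 2 =
      n ^ 2 * ‖fourierCoeffOn two_pi_pos' (fun θ => (f θ : ℂ)) n‖ ^ 2 := by
  have hpi := two_pi_pos'
  have h1 := fourierCoeffOn_of_hasDeriv_right two_pi_pos' (f := fun θ => (f θ : ℂ))
    (f' := fun θ => (f' θ : ℂ)) hn ?_ ?_ (ii_ofReal hf')
  · rw [← hper, sub_self, mul_zero, zero_sub] at h1
    rw [h1]
    rw [norm_mul, norm_neg, norm_mul, norm_div, norm_one, norm_mul, norm_mul, norm_mul, norm_neg,
      Complex.norm_I, Complex.norm_intCast]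
    have h3 : ‖((2 * Real.pi : ℝ) : ℂ) - ((0 : ℝ) : ℂ)‖ = 2 * Real.pi := by
      rw [← Complex.ofReal_sub, sub_zero, Complex.norm_real, Real.norm_eq_abs, abs_of_pos hpi]
    have h4 : ‖(2:ℂ)‖ = 2 := by simp
    have h5 : ‖(Real.pi : ℂ)‖ = Real.pi := by
      rw [Complex.norm_real, Real.norm_eq_abs, abs_of_pos Real.pi_pos]
    rw [h3, h4, h5]
    have hn' : (|(n:ℝ)|) ≠ 0 := by
      rw [abs_ne_zero]; exact_mod_cast hn
    have hpi' := Real.pi_pos.ne'
    rw [← sq_abs (n:ℝ)]
    field_simp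
  · rw [uIcc_of_le hpi.le]
    exact Complex.continuous_ofReal.comp_continuousOn hf
  · intro x hx
    rw [min_eq_left hpi.le, max_eq_right hpi.le] at hx
    exact (hd x hx).ofReal_comp

end H3

open H3 in
theorem pr_H3 : T_H3 := by
  intro f f' M hf hper hd hf'm hf'b hcos hsin
  have hpi := two_pi_pos'
  have hfi : IntervalIntegrable f volume 0 (2 * Real.pi) := by
    apply ContinuousOn.intervalIntegrable
    rwa [uIcc_of_le hpi.le]
  have hf'i : IntervalIntegrable f' volume 0 (2 * Real.pi) := by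
    rw [intervalIntegrable_iff_integrableOn_Ioc_of_le hpi.le]
    refine Measure.integrableOn_of_bounded (M := M) measure_Ioc_lt_top.ne
      hf'm.aestronglyMeasurable ?_
    exact Filter.Eventually.of_forall fun x => hf'b x
  -- square integrability
  have hL' : MemLp (fun θ => (f' θ : ℂ)) 2 (volume.restrict (Ioc 0 (2 * Real.pi))) := by
    refine MemLp.of_bound (Complex.measurable_ofReal.comp hf'm).aestronglyMeasurable M ?_
    refine Filter.Eventually.of_forall fun x => ?_
    rw [Complex.norm_real]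
    exact hf'b x
  have hL : MemLp (fun θ => (f θ : ℂ)) 2 (volume.restrict (Ioc 0 (2 * Real.pi))) := by
    obtain ⟨C, hC⟩ := isCompact_Icc.exists_bound_of_continuousOn hf
    refine MemLp.of_bound ?_ C ?_
    · exact (ii_ofReal hfi).1.aestronglyMeasurable
    · rw [ae_restrict_iff' measurableSet_Ioc]
      refine Filter.Eventually.of_forall fun x hx => ?_
      rw [Complex.norm_real]
      exact hC x (Ioc_subset_Icc_self hx)
  have s1 := hasSum_sq_fourierCoeffOn two_pi_pos' hL
  have s2 := hasSum_sq_fourierCoeffOn two_pi_pos' hL'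
  set c : ℤ → ℂ := fourierCoeffOn two_pi_pos' (fun θ => (f θ : ℂ)) with hc
  set e : ℤ → ℂ := fourierCoeffOn two_pi_pos' (fun θ => (f' θ : ℂ)) with he
  have hc1 : c 1 = 0 := by
    apply coeff_n f hfi
    · simpa using hcos
    · simpa using hsin
  have hc2 : c (-1) = 0 := by
    apply coeff_n f hfi
    · simpa using hcos
    · simpa using hsin
  have hce : ∀ n : ℤ, n ≠ 0 → ‖e n‖ ^ 2 = n ^ 2 * ‖c n‖ ^ 2 := fun n hn =>
    coeff_bd hf hper hd hf'i n hn
  have hc0 : c 0 = (((2 * Real.pi)⁻¹ * ∫ θ in (0:ℝ)..2 * Real.pi, f θ : ℝ) : ℂ) := coeff_zero f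
  have s3 : HasSum (fun n : ℤ => ‖e n‖ ^ 2 / 4 + (if n = 0 then ‖c 0‖ ^ 2 else 0))
      ((2 * Real.pi - 0)⁻¹ • (∫ x in (0:ℝ)..2 * Real.pi, ‖(f' x : ℂ)‖ ^ 2) / 4 + ‖c 0‖ ^ 2) := by
    apply HasSum.add
    · exact s2.div_const 4
    · exact hasSum_ite_eq 0 _
  have key := hasSum_le ?_ s1 s3
  · rw [hc0, Complex.norm_real, Real.norm_eq_abs, sq_abs] at key
    simp only [Complex.norm_real, Real.norm_eq_abs, sq_abs, smul_eq_mul, sub_zero] at key
    have h1 := mul_le_mul_of_nonneg_left key hpi.le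
    have e1 : 2 * Real.pi * ((2 * Real.pi)⁻¹ * ∫ x in (0:ℝ)..2 * Real.pi, f x ^ 2) =
        ∫ x in (0:ℝ)..2 * Real.pi, f x ^ 2 := by
      rw [← mul_assoc, mul_inv_cancel₀ hpi.ne', one_mul]
    have e2 : 2 * Real.pi * ((2 * Real.pi)⁻¹ * (∫ x in (0:ℝ)..2 * Real.pi, f' x ^ 2) / 4 +
        ((2 * Real.pi)⁻¹ * ∫ θ in (0:ℝ)..2 * Real.pi, f θ) ^ 2) =
        (∫ x in (0:ℝ)..2 * Real.pi, f' x ^ 2) / 4 +
          (∫ θ in (0:ℝ)..2 * Real.pi, f θ) ^ 2 / (2 * Real.pi) := by
      have := Real.pi_pos.ne'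
      field_simp
    rw [e1, e2] at h1
    linarith
  · intro n
    by_cases h0 : n = 0
    · subst h0
      simp only [if_true]
      have : 0 ≤ ‖e 0‖ ^ 2 := sq_nonneg _
      linarith
    rw [if_neg h0, add_zero]
    by_cases h1 : n = 1
    · subst h1
      rw [hc1, norm_zero]
      have : 0 ≤ ‖e 1‖ ^ 2 := sq_nonneg _
      linarith
    by_cases h2 : n = -1
    · subst h2
      rw [hc2, norm_zero]
      have : 0 ≤ ‖e (-1)‖ ^ 2 := sq_nonneg _
      linarith
    rw [hce n h0]
    have h3 : (4:ℝ) ≤ (n:ℝ) ^ 2 := by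
      have h4 : (4:ℤ) ≤ n ^ 2 := by
        rcases lt_or_gt_of_ne h0 with h | h
        · have : n ≤ -2 := by omega
          nlinarith
        · have : 2 ≤ n := by omega
          nlinarith
      exact_mod_cast h4
    have h5 : 0 ≤ ‖c n‖ ^ 2 := sq_nonneg _
    nlinarith

end Pool.Agent.Robin

end

section

/-!
# MP_4b551e_an, item H4 (helper93)
-/

open MeasureTheory Set Metric
open scoped ENNReal NNReal Pointwise RealInnerProductSpace

namespace Pool.Agent.Robin

namespace H4

lemma inner_dirv (x : E2) (θ : ℝ) : ⟪x, dirv θ⟫ = x 0 * Real.cos θ + x 1 * Real.sin θ := by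
  simp [PiLp.inner_apply, Fin.sum_univ_two, dirv, mul_comm]

lemma Hf_eq (N : ℕ) (c : ℤ → ℝ) (a : E2) (r₀ θ : ℝ) :
    Hf N c a r₀ θ = Hf N c 0 r₀ θ - (a 0 * Real.cos θ + a 1 * Real.sin θ) := by
  unfold Hf
  rw [inner_sub_left, inner_sub_left, inner_dirv a]
  simp only [inner_zero_left]
  ring

lemma int_cc : ∫ θ in (0 : ℝ)..2 * Real.pi, Real.cos θ * Real.cos θ = Real.pi := by
  have h := @integral_cos_sq 0 (2 * Real.pi)
  simp only [Real.cos_zero, Real.sin_zero, Real.cos_two_pi, Real.sin_two_pi] at h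
  have h2 : (fun θ : ℝ => Real.cos θ * Real.cos θ) = fun θ => Real.cos θ ^ 2 := by
    funext θ; ring
  rw [h2, h]; ring

lemma int_ss : ∫ θ in (0 : ℝ)..2 * Real.pi, Real.sin θ * Real.sin θ = Real.pi := by
  have h := @integral_sin_sq 0 (2 * Real.pi)
  simp only [Real.cos_zero, Real.sin_zero, Real.cos_two_pi, Real.sin_two_pi] at h
  have h2 : (fun θ : ℝ => Real.sin θ * Real.sin θ) = fun θ => Real.sin θ ^ 2 := by
    funext θ; ring
  rw [h2, h]; ring

lemma int_sc : ∫ θ in (0 : ℝ)..2 * Real.pi, Real.sin θ * Real.cos θ = 0 := by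
  rw [integral_sin_mul_cos₁]
  simp

lemma int_c : ∫ θ in (0 : ℝ)..2 * Real.pi, Real.cos θ = 0 := by
  rw [integral_cos]; simp

lemma int_s : ∫ θ in (0 : ℝ)..2 * Real.pi, Real.sin θ = 0 := by
  rw [integral_sin]; simp

lemma norm_sq (a : E2) : ‖a‖ ^ 2 = a 0 ^ 2 + a 1 ^ 2 := by
  rw [EuclideanSpace.norm_sq_eq, Fin.sum_univ_two]
  simp

lemma lin_le (a : E2) (θ : ℝ) : |a 0 * Real.cos θ + a 1 * Real.sin θ| ≤ ‖a‖ := by
  apply abs_le_of_sq_le_sq _ (norm_nonneg _)
  rw [norm_sq]
  have h := Real.sin_sq_add_cos_sq θ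
  nlinarith [sq_nonneg (a 0 * Real.sin θ - a 1 * Real.cos θ), sq_nonneg (a 0), sq_nonneg (a 1)]

end H4

open H4 in
theorem pr_H4 (h1 : T_P1) (hh : T_H1) : T_H4 := by
  clear h1
  intro N c r₀ lo hi hS hb
  have hcont : Continuous (Hf N c 0 r₀) := (hh N c 0 r₀ hS).1
  have hpi := Real.pi_pos
  set A : ℝ := (∫ θ in (0 : ℝ)..2 * Real.pi, Hf N c 0 r₀ θ * Real.cos θ) / Real.pi with hA
  set B : ℝ := (∫ θ in (0 : ℝ)..2 * Real.pi, Hf N c 0 r₀ θ * Real.sin θ) / Real.pi with hB
  set a : E2 := !₂[A, B] with ha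
  have ha0 : a 0 = A := by simp [ha]
  have ha1 : a 1 = B := by simp [ha]
  have hAe : ∫ θ in (0 : ℝ)..2 * Real.pi, Hf N c 0 r₀ θ * Real.cos θ = Real.pi * A := by
    rw [hA]; field_simp
  have hBe : ∫ θ in (0 : ℝ)..2 * Real.pi, Hf N c 0 r₀ θ * Real.sin θ = Real.pi * B := by
    rw [hB]; field_simp
  have hI : ∀ f : ℝ → ℝ, Continuous f → IntervalIntegrable f volume 0 (2 * Real.pi) :=
    fun f hf => hf.intervalIntegrable _ _
  have hnorm : ‖a‖ ≤ 2 * (hi - lo) := by
    have e1 : ∫ θ in (0 : ℝ)..2 * Real.pi, (Hf N c 0 r₀ θ - lo) *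
        (a 0 * Real.cos θ + a 1 * Real.sin θ) = Real.pi * ‖a‖ ^ 2 := by
      have e2 : (fun θ : ℝ => (Hf N c 0 r₀ θ - lo) * (a 0 * Real.cos θ + a 1 * Real.sin θ)) =
          fun θ => (A * (Hf N c 0 r₀ θ * Real.cos θ) + B * (Hf N c 0 r₀ θ * Real.sin θ)) -
            (lo * A * Real.cos θ + lo * B * Real.sin θ) := by
        funext θ; rw [ha0, ha1]; ring
      rw [e2, intervalIntegral.integral_sub (hI _ (by fun_prop)) (hI _ (by fun_prop)),
        intervalIntegral.integral_add (hI _ (by fun_prop)) (hI _ (by fun_prop)),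
        intervalIntegral.integral_add (hI _ (by fun_prop)) (hI _ (by fun_prop)),
        intervalIntegral.integral_const_mul, intervalIntegral.integral_const_mul,
        intervalIntegral.integral_const_mul, intervalIntegral.integral_const_mul,
        hAe, hBe, int_c, int_s, norm_sq, ha0, ha1]
      ring
    have e3 : ∫ θ in (0 : ℝ)..2 * Real.pi, (Hf N c 0 r₀ θ - lo) *
        (a 0 * Real.cos θ + a 1 * Real.sin θ) ≤
        ∫ θ in (0 : ℝ)..2 * Real.pi, (hi - lo) * ‖a‖ := by
      apply intervalIntegral.integral_mono_on (by positivity) (hI _ (by fun_prop))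
        (hI _ (by fun_prop))
      intro θ _
      have h2 := hb θ
      have h3 := lin_le a θ
      calc (Hf N c 0 r₀ θ - lo) * (a 0 * Real.cos θ + a 1 * Real.sin θ)
          ≤ (Hf N c 0 r₀ θ - lo) * ‖a‖ :=
            mul_le_mul_of_nonneg_left ((le_abs_self _).trans h3) (by linarith)
        _ ≤ (hi - lo) * ‖a‖ := mul_le_mul_of_nonneg_right (by linarith) (norm_nonneg _)
    rw [e1, intervalIntegral.integral_const, smul_eq_mul] at e3
    by_cases h0 : ‖a‖ = 0
    · rw [h0]
      have := hb 0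
      linarith
    · have h4 : 0 < ‖a‖ := lt_of_le_of_ne (norm_nonneg _) (Ne.symm h0)
      have h5 : (Real.pi * ‖a‖) * ‖a‖ ≤ (Real.pi * ‖a‖) * (2 * (hi - lo)) := by nlinarith
      exact le_of_mul_le_mul_left h5 (by positivity)
  have hRc : Rc N c a r₀ = Rc N c 0 r₀ := by
    unfold Rc
    congr 1
    have e2 : (fun θ : ℝ => Hf N c a r₀ θ) =
        fun θ => Hf N c 0 r₀ θ - (A * Real.cos θ + B * Real.sin θ) := by
      funext θ; rw [Hf_eq, ha0, ha1]
    rw [e2, intervalIntegral.integral_sub (hI _ (by fun_prop)) (hI _ (by fun_prop)),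
      intervalIntegral.integral_add (hI _ (by fun_prop)) (hI _ (by fun_prop)),
      intervalIntegral.integral_const_mul, intervalIntegral.integral_const_mul, int_c, int_s]
    ring
  refine ⟨a, hnorm, ?_, ?_, hRc, ?_⟩
  · have e2 : (fun θ : ℝ => Hf N c a r₀ θ * Real.cos θ) =
        fun θ => Hf N c 0 r₀ θ * Real.cos θ -
          (A * (Real.cos θ * Real.cos θ) + B * (Real.sin θ * Real.cos θ)) := by
      funext θ; rw [Hf_eq, ha0, ha1]; ring
    rw [e2, intervalIntegral.integral_sub (hI _ (by fun_prop)) (hI _ (by fun_prop)),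
      intervalIntegral.integral_add (hI _ (by fun_prop)) (hI _ (by fun_prop)),
      intervalIntegral.integral_const_mul, intervalIntegral.integral_const_mul, int_cc, int_sc,
      hAe]
    ring
  · have e2 : (fun θ : ℝ => Hf N c a r₀ θ * Real.sin θ) =
        fun θ => Hf N c 0 r₀ θ * Real.sin θ -
          (A * (Real.sin θ * Real.cos θ) + B * (Real.sin θ * Real.sin θ)) := by
      funext θ; rw [Hf_eq, ha0, ha1]; ring
    rw [e2, intervalIntegral.integral_sub (hI _ (by fun_prop)) (hI _ (by fun_prop)),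
      intervalIntegral.integral_add (hI _ (by fun_prop)) (hI _ (by fun_prop)),
      intervalIntegral.integral_const_mul, intervalIntegral.integral_const_mul, int_ss, int_sc,
      hBe]
    ring
  · intro θ
    rw [hRc]
    have h2 : lo ≤ Rc N c 0 r₀ := by
      unfold Rc
      rw [le_div_iff₀ (by positivity)]
      have := intervalIntegral.integral_mono_on (μ := volume) (a := 0) (b := 2 * Real.pi)
        (f := fun _ => lo) (g := Hf N c 0 r₀)
        (by positivity) (hI _ (by fun_prop)) (hI _ hcont) (fun x _ => (hb x).1)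
      rw [intervalIntegral.integral_const, smul_eq_mul] at this
      linarith
    have h3 : Rc N c 0 r₀ ≤ hi := by
      unfold Rc
      rw [div_le_iff₀ (by positivity)]
      have := intervalIntegral.integral_mono_on (μ := volume) (a := 0) (b := 2 * Real.pi)
        (f := Hf N c 0 r₀) (g := fun _ => hi)
        (by positivity) (hI _ hcont) (hI _ (by fun_prop)) (fun x _ => (hb x).2)
      rw [intervalIntegral.integral_const, smul_eq_mul] at this
      linarith
    have h4 := hb θ
    have h5 := abs_le.1 (lin_le a θ)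
    rw [Hf_eq, abs_le]
    constructor <;> linarith [h5.1, h5.2, h4.1, h4.2]

end Pool.Agent.Robin

end

section

/-!
# MP_4b551e_an, item H5 (helper93)
-/

open MeasureTheory Set Metric
open scoped ENNReal NNReal Pointwise RealInnerProductSpace

namespace Pool.Agent.Robin

namespace H5

lemma inner_eq (x y : E2) : ⟪x, y⟫ = x 0 * y 0 + x 1 * y 1 := by
  simp [PiLp.inner_apply, Fin.sum_univ_two, mul_comm]

lemma nv_per {N : ℕ} (hN : 8 ≤ N) (i : ℤ) : nv N (i + N) = nv N i := by
  have hN0 : (N : ℝ) ≠ 0 := by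
    have : (0 : ℝ) < N := by exact_mod_cast (by omega : 0 < N)
    exact this.ne'
  have h : ((i + N : ℤ) : ℝ) * dl N = i * dl N + 2 * Real.pi := by
    unfold dl
    push_cast
    field_simp
  unfold nv dirv
  rw [h, Real.cos_add_two_pi, Real.sin_add_two_pi]

lemma vx_per {N : ℕ} {c : ℤ → ℝ} (hS : Supp N c) (i : ℤ) : vx N c (i + N) = vx N c i := by
  unfold vx tv
  rw [nv_per hS.N_le, hS.per]
  have : i + (N : ℤ) + 1 = (i + 1) + N := by ring
  rw [this, hS.per]

lemma sum_tv {N : ℕ} {c : ℤ → ℝ} (h1 : T_P1) (hS : Supp N c) :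
    ∑ i ∈ Finset.range N, el N c (i : ℤ) • tv N (i : ℤ) = 0 := by
  have h2 : ∀ i ∈ Finset.range N, el N c (i : ℤ) • tv N (i : ℤ) =
      (fun j : ℕ => vx N c ((j : ℤ) - 1)) (i + 1) - (fun j : ℕ => vx N c ((j : ℤ) - 1)) i := by
    intro i _
    have := (h1 N c (i : ℤ) hS.N_le).1
    rw [← this]
    simp
  rw [Finset.sum_congr rfl h2]
  have h3 := Finset.sum_range_sub (fun j : ℕ => vx N c ((j : ℤ) - 1)) N
  refine h3.trans ?_
  have := vx_per hS (-1)
  have e : (N : ℤ) - 1 = -1 + N := by ring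
  simp only [e, this, Nat.cast_zero, zero_sub, sub_self]

lemma sum_nv {N : ℕ} {c : ℤ → ℝ} (h1 : T_P1) (hS : Supp N c) (a : E2) :
    ∑ i ∈ Finset.range N, el N c (i : ℤ) * ⟪a, nv N (i : ℤ)⟫ = 0 := by
  have h2 := sum_tv h1 hS
  have h3 : ∑ i ∈ Finset.range N, el N c (i : ℤ) * (nv N (i : ℤ)) 1 = 0 := by
    have := congrArg (fun v : E2 => v 0) h2
    simp only [WithLp.ofLp_sum, WithLp.ofLp_smul, Finset.sum_apply, Pi.smul_apply, smul_eq_mul,
      WithLp.ofLp_zero, Pi.zero_apply, tv, rot] at this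
    simpa using this
  have h4 : ∑ i ∈ Finset.range N, el N c (i : ℤ) * (nv N (i : ℤ)) 0 = 0 := by
    have := congrArg (fun v : E2 => v 1) h2
    simp only [WithLp.ofLp_sum, WithLp.ofLp_smul, Finset.sum_apply, Pi.smul_apply, smul_eq_mul,
      WithLp.ofLp_zero, Pi.zero_apply, tv, rot] at this
    simpa using this
  have h5 : ∀ i ∈ Finset.range N, el N c (i : ℤ) * ⟪a, nv N (i : ℤ)⟫ =
      a 0 * (el N c (i : ℤ) * (nv N (i : ℤ)) 0) + a 1 * (el N c (i : ℤ) * (nv N (i : ℤ)) 1) := by
    intro i _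
    rw [inner_eq]; ring
  rw [Finset.sum_congr rfl h5, Finset.sum_add_distrib, ← Finset.mul_sum, ← Finset.mul_sum,
    h3, h4]
  ring

end H5

open H5 in
theorem pr_H5 (h1 : T_P1) (hh : T_H1) (h2 : T_H2) (h3 : T_H3) : T_H5 := by
  intro N c a r₀ R A T hS hr0 hR hR0 hclose hcos hsin hA hT
  obtain ⟨hcont, hper, hder, -, -, hmeas, M, hM⟩ := hh N c a r₀ hS
  have hpi := Real.pi_pos
  have hI : ∀ f : ℝ → ℝ, Continuous f → IntervalIntegrable f volume 0 (2 * Real.pi) :=
    fun f hf => hf.intervalIntegrable _ _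
  have hJ : IntervalIntegrable (fun θ => (dHf N c a θ) ^ 2) volume 0 (2 * Real.pi) := by
    rw [intervalIntegrable_iff]
    refine Measure.integrableOn_of_bounded (M := M ^ 2) ?_
      (hmeas.pow_const 2).aestronglyMeasurable (Filter.Eventually.of_forall ?_)
    · rw [uIoc_of_le (by positivity), Real.volume_Ioc]
      exact ENNReal.ofReal_ne_top
    · intro θ
      rw [Real.norm_eq_abs, abs_of_nonneg (sq_nonneg _)]
      exact sq_le_sq' (by linarith [(abs_le.1 (hM θ)).1]) (abs_le.1 (hM θ)).2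
  have hJ2 : IntervalIntegrable (fun θ => (2 * (Hf N c a r₀ θ - R)) * (dHf N c a θ) ^ 2) volume 0
      (2 * Real.pi) := hJ.continuousOn_mul (by fun_prop)
  have hT0 : 0 ≤ T := by
    rw [hT]
    exact intervalIntegral.integral_nonneg (by positivity) (fun x _ => sq_nonneg _)
  have hintH : ∫ θ in (0 : ℝ)..2 * Real.pi, Hf N c a r₀ θ = 2 * Real.pi * R := by
    rw [hR]
    unfold Rc
    field_simp
  -- F = 1
  have e1 := h2 N c a r₀ (fun _ => 1) (fun _ => 0) hS (fun x => hasDerivAt_const _ _)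
    continuous_const
  simp only [mul_one, one_mul, zero_mul, intervalIntegral.integral_zero, sub_zero,
    intervalIntegral.integral_const, smul_eq_mul, sub_zero] at e1
  rw [hintH] at e1
  -- F = id
  have e2 := h2 N c a r₀ (fun x => x) (fun _ => 1) hS (fun x => hasDerivAt_id _)
    continuous_const
  simp only [one_mul] at e2
  rw [← hT, hintH] at e2
  -- the sum
  have e3 : ∑ i ∈ Finset.range N, el N c (i : ℤ) * (c i - ⟪a, nv N (i : ℤ)⟫ + r₀) =
      ∑ i ∈ Finset.range N, c i * el N c (i : ℤ) + r₀ * ∑ i ∈ Finset.range N, el N c (i : ℤ) := by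
    have h5 := sum_nv h1 hS a
    have h6 : ∀ i ∈ Finset.range N, el N c (i : ℤ) * (c i - ⟪a, nv N (i : ℤ)⟫ + r₀) =
        (c i * el N c (i : ℤ) + r₀ * el N c (i : ℤ)) -
          el N c (i : ℤ) * ⟪a, nv N (i : ℤ)⟫ := by
      intro i _; ring
    rw [Finset.sum_congr rfl h6, Finset.sum_sub_distrib, h5, Finset.sum_add_distrib,
      ← Finset.mul_sum, sub_zero]
  -- Wirtinger
  have e4 := h3 (Hf N c a r₀) (dHf N c a) M hcont.continuousOn
    (by have := hper 0; rw [zero_add] at this; exact this.symm)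
    (fun θ _ => (hder θ).mono Ioi_subset_Ici_self) hmeas hM hcos hsin
  rw [← hT, hintH] at e4
  set Q := ∫ θ in (0 : ℝ)..2 * Real.pi, (Hf N c a r₀ θ) ^ 2 with hQ
  have e5 : ∫ θ in (0 : ℝ)..2 * Real.pi, Hf N c a r₀ θ * Hf N c a r₀ θ = Q := by
    rw [hQ]; congr 1; funext θ; ring
  rw [e5] at e2
  have e6 : (2 * Real.pi * R) ^ 2 / (2 * Real.pi) = 2 * Real.pi * R ^ 2 := by
    field_simp
  rw [e6] at e4
  have e7 : ∫ θ in (0 : ℝ)..2 * Real.pi, (Hf N c a r₀ θ - R) ^ 2 = Q - 2 * Real.pi * R ^ 2 := by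
    have h5 : (fun θ : ℝ => (Hf N c a r₀ θ - R) ^ 2) =
        fun θ => (Hf N c a r₀ θ ^ 2 - 2 * R * Hf N c a r₀ θ) + R ^ 2 := by
      funext θ; ring
    rw [h5, intervalIntegral.integral_add (hI _ (by fun_prop)) (hI _ (by fun_prop)),
      intervalIntegral.integral_sub (hI _ (by fun_prop)) (hI _ (by fun_prop)),
      intervalIntegral.integral_const_mul, intervalIntegral.integral_const, smul_eq_mul, hintH,
      ← hQ]
    ring
  -- F = (x - R)^2
  have e8 := h2 N c a r₀ (fun x => (x - R) ^ 2) (fun x => 2 * (x - R)) hS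
    (fun x => by
      have := ((hasDerivAt_id' x).sub_const R).fun_pow 2
      simpa using this) (by fun_prop)
  have e9 : ∫ θ in (0 : ℝ)..2 * Real.pi, (Hf N c a r₀ θ - R) ^ 2 * Hf N c a r₀ θ ≤
      21 / 20 * R * (Q - 2 * Real.pi * R ^ 2) := by
    rw [← e7, ← intervalIntegral.integral_const_mul]
    apply intervalIntegral.integral_mono_on (by positivity) (hI _ (by fun_prop))
      (hI _ (by fun_prop))
    intro θ _
    have h5 := abs_le.1 (hclose θ)
    nlinarith [sq_nonneg (Hf N c a r₀ θ - R), h5.1, h5.2]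
  have e10 : -(R / 10 * T) ≤
      ∫ θ in (0 : ℝ)..2 * Real.pi, 2 * (Hf N c a r₀ θ - R) * (dHf N c a θ) ^ 2 := by
    have h5 : -(R / 10 * T) = ∫ θ in (0 : ℝ)..2 * Real.pi, (-(R / 10)) * (dHf N c a θ) ^ 2 := by
      rw [intervalIntegral.integral_const_mul, ← hT]; ring
    rw [h5]
    apply intervalIntegral.integral_mono_on (by positivity) (hJ.const_mul _) hJ2
    intro θ _
    have h6 := abs_le.1 (hclose θ)
    nlinarith [sq_nonneg (dHf N c a θ), h6.1, h6.2]
  have hA2 : 2 * A = ∑ i ∈ Finset.range N, c i * el N c (i : ℤ) +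
      2 * (r₀ * ∑ i ∈ Finset.range N, el N c (i : ℤ)) + 2 * Real.pi * r₀ ^ 2 := by
    rw [hA]; ring
  have e11 : 2 * A = Q - T := by
    rw [← e2, e3, hA2, ← e1]; ring
  refine ⟨by linarith [e1], ?_, ?_, ?_, hT0⟩
  · rw [hintH, e3, hA2, ← e1]; ring
  · rw [e8]
    nlinarith [mul_nonneg hR0.le hT0]
  · have h5 : 4 * Real.pi ^ 2 * R ^ 2 - 4 * Real.pi * A =
        2 * Real.pi * (2 * Real.pi * R ^ 2 - Q + T) := by
      have : 4 * Real.pi * A = 2 * Real.pi * (Q - T) := by rw [← e11]; ring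
      rw [this]; ring
    rw [h5]
    nlinarith

end Pool.Agent.Robin

end

section

/-!
# K0: mouth points are between two points of the closure
-/

open MeasureTheory Set Metric
open scoped ENNReal NNReal Pointwise RealInnerProductSpace

namespace Pool.Agent.Robin

namespace K0

theorem inner_eq (x y : E2) : ⟪x, y⟫ = x 0 * y 0 + x 1 * y 1 := by
  rw [PiLp.inner_apply, Fin.sum_univ_two]
  simp [mul_comm]

theorem sq_eq (ν : E2) (h : ‖ν‖ = 1) : ν 0 * ν 0 + ν 1 * ν 1 = 1 := by
  rw [← inner_eq, real_inner_self_eq_norm_sq, h, one_pow]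

/-- coordinates of the plane in the frame `ν, rot ν` -/
theorem decomp (ν : E2) (h : ‖ν‖ = 1) (x : E2) : x = ⟪x, ν⟫ • ν + ⟪x, rot ν⟫ • rot ν := by
  have hs := sq_eq ν h
  rw [inner_eq, inner_eq]
  ext i
  fin_cases i
  · simp [rot]
    linear_combination (-(x 0)) * hs
  · simp [rot]
    linear_combination (-(x 1)) * hs

end K0

open K0

theorem pr_K0 : T_K0 := by
  intro G z ν hG hz hS
  obtain ⟨hν, hzh, hS⟩ := hS
  have hzh' := hzh
  rw [hull, convexHull_eq] at hzh'
  obtain ⟨ι, t, w, y, hw0, hw1, hy, hc⟩ := hzh'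
  rw [Finset.centerMass_eq_of_sum_1 _ _ hw1] at hc
  -- the barycentre condition for an arbitrary functional
  have hlin : ∀ u : E2, ∑ i ∈ t, w i * ⟪y i - z, u⟫ = 0 := by
    intro u
    have h1 : ∑ i ∈ t, w i • (y i - z) = 0 := by
      simp only [smul_sub, Finset.sum_sub_distrib]
      rw [hc, ← Finset.sum_smul, hw1, one_smul, sub_self]
    have h2 := congrArg (fun v : E2 => ⟪v, u⟫) h1
    simp only [sum_inner, inner_zero_left, real_inner_smul_left] at h2
    exact h2
  have hle : ∀ i ∈ t, ⟪y i - z, ν⟫ ≤ 0 := fun i hi =>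
    hS _ (subset_convexHull ℝ _ (hy i hi))
  have hzero : ∀ i ∈ t, w i * ⟪y i - z, ν⟫ = 0 := by
    refine (Finset.sum_eq_zero_iff_of_nonpos ?_).1 (hlin ν)
    intro i hi
    exact mul_nonpos_of_nonneg_of_nonpos (hw0 i hi) (hle i hi)
  have hν0 : ∀ i ∈ t, 0 < w i → ⟪y i - z, ν⟫ = 0 := by
    intro i hi hw
    exact (mul_eq_zero.1 (hzero i hi)).resolve_left hw.ne'
  have hX0 : ∀ i ∈ t, 0 < w i → ⟪y i - z, rot ν⟫ ≠ 0 := by
    intro i hi hw hx
    have h1 := decomp ν hν (y i - z)
    rw [hν0 i hi hw, hx, zero_smul, zero_smul, add_zero, sub_eq_zero] at h1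
    exact hz (h1 ▸ hy i hi)
  obtain ⟨i₀, hi₀, hwi₀⟩ : ∃ i ∈ t, 0 < w i := by
    by_contra hcon
    push Not at hcon
    have : ∑ i ∈ t, w i ≤ 0 := Finset.sum_nonpos hcon
    linarith
  have key : ∀ u : E2, (∀ i ∈ t, 0 < w i → ⟪y i - z, u⟫ ≠ 0) →
      ∃ i ∈ t, 0 < w i ∧ 0 < ⟪y i - z, u⟫ := by
    intro u hu
    by_contra hcon
    push Not at hcon
    have h1 : ∀ i ∈ t, w i * ⟪y i - z, u⟫ ≤ 0 := by
      intro i hi
      rcases (hw0 i hi).lt_or_eq with h | h
      · exact mul_nonpos_of_nonneg_of_nonpos h.le (hcon i hi h)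
      · rw [← h, zero_mul]
    have h2 := (Finset.sum_eq_zero_iff_of_nonpos h1).1 (hlin u) i₀ hi₀
    exact hu i₀ hi₀ hwi₀ ((mul_eq_zero.1 h2).resolve_left hwi₀.ne')
  obtain ⟨ib, hib, hwb, hXb⟩ := key (rot ν) hX0
  obtain ⟨ia, hia, hwa, hXa⟩ := key (-(rot ν)) (by
    intro i hi hw h
    rw [inner_neg_right, neg_eq_zero] at h
    exact hX0 i hi hw h)
  rw [inner_neg_right, Left.neg_pos_iff] at hXa
  set A := ⟪y ia - z, rot ν⟫ with hA
  set B := ⟪y ib - z, rot ν⟫ with hB
  have ha : y ia = z + A • rot ν := by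
    have h1 := decomp ν hν (y ia - z)
    rw [hν0 ia hia hwa, zero_smul, zero_add, ← hA] at h1
    rw [← h1]; abel
  have hb : y ib = z + B • rot ν := by
    have h1 := decomp ν hν (y ib - z)
    rw [hν0 ib hib hwb, zero_smul, zero_add, ← hB] at h1
    rw [← h1]; abel
  have hBA : 0 < B - A := by linarith
  refine ⟨y ia, hy ia hia, y ib, hy ib hib, ?_, hν0 ia hia hwa, hν0 ib hib hwb, ?_⟩
  · refine ⟨B / (B - A), -A / (B - A), div_pos hXb hBA, div_pos (by linarith) hBA, ?_, ?_⟩
    · rw [← add_div, ← sub_eq_add_neg, div_self hBA.ne']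
    · rw [ha, hb, smul_add, smul_add, smul_smul, smul_smul]
      have h1 : B / (B - A) + -A / (B - A) = 1 := by
        rw [← add_div, ← sub_eq_add_neg, div_self hBA.ne']
      have h2 : B / (B - A) * A + -A / (B - A) * B = 0 := by
        field_simp
        ring
      calc (B / (B - A)) • z + (B / (B - A) * A) • rot ν +
          ((-A / (B - A)) • z + (-A / (B - A) * B) • rot ν) =
          (B / (B - A) + -A / (B - A)) • z + (B / (B - A) * A + -A / (B - A) * B) • rot ν := by
            rw [add_smul, add_smul]; abel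
        _ = z := by rw [h1, h2, one_smul, zero_smul, add_zero]
  · intro hab
    have : A = B := by rw [hA, hB, hab]
    linarith

end Pool.Agent.Robin

end

section

/-!
MP_4b551e_an, item K1: near a boundary point the exterior is connected.
-/

open MeasureTheory Set Metric
open scoped ENNReal NNReal Pointwise RealInnerProductSpace Topology

namespace Pool.Agent.Robin

namespace K1

/-- the inverse of the chart -/
noncomputable def Ph (L : E2 ≃ₗᵢ[ℝ] E2) (p : E2) (X Y : ℝ) : E2 := p + L.symm !₂[X, Y]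

theorem cx_Ph (L : E2 ≃ₗᵢ[ℝ] E2) (p : E2) (X Y : ℝ) : cx L p (Ph L p X Y) = X := by
  unfold cx Ph
  rw [add_sub_cancel_left, LinearIsometryEquiv.apply_symm_apply]
  simp

theorem cy_Ph (L : E2 ≃ₗᵢ[ℝ] E2) (p : E2) (X Y : ℝ) : cy L p (Ph L p X Y) = Y := by
  unfold cy Ph
  rw [add_sub_cancel_left, LinearIsometryEquiv.apply_symm_apply]
  simp

theorem Ph_eq (L : E2 ≃ₗᵢ[ℝ] E2) (p x : E2) : Ph L p (cx L p x) (cy L p x) = x := by
  unfold cx cy Ph
  have h : (!₂[(L (x - p)) 0, (L (x - p)) 1] : E2) = L (x - p) := by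
    ext i
    fin_cases i <;> simp
  rw [h, LinearIsometryEquiv.symm_apply_apply]
  abel

theorem cx_cont (L : E2 ≃ₗᵢ[ℝ] E2) (p : E2) : Continuous (cx L p) := by
  unfold cx
  exact (EuclideanSpace.proj (0 : Fin 2)).continuous.comp
    (L.continuous.comp (continuous_id.sub continuous_const))

theorem cy_cont (L : E2 ≃ₗᵢ[ℝ] E2) (p : E2) : Continuous (cy L p) := by
  unfold cy
  exact (EuclideanSpace.proj (1 : Fin 2)).continuous.comp
    (L.continuous.comp (continuous_id.sub continuous_const))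

theorem Ph_cont (L : E2 ≃ₗᵢ[ℝ] E2) (p : E2) : Continuous fun q : ℝ × ℝ => Ph L p q.1 q.2 := by
  unfold Ph
  refine continuous_const.add (L.symm.continuous.comp ?_)
  have h : (fun q : ℝ × ℝ => (!₂[q.1, q.2] : E2)) =
      fun q : ℝ × ℝ => q.1 • (EuclideanSpace.single 0 1 : E2) +
        q.2 • (EuclideanSpace.single 1 1 : E2) := by
    funext q
    ext i
    fin_cases i <;> simp
  rw [h]
  fun_prop

theorem dist_lt (L : E2 ≃ₗᵢ[ℝ] E2) (p x : E2) (ε : ℝ) (h0 : |cx L p x| < ε / 2)
    (h1 : |cy L p x| < ε / 2) : x ∈ ball p ε := by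
  rw [mem_ball, dist_eq_norm, ← L.norm_map (x - p), EuclideanSpace.norm_eq, Fin.sum_univ_two]
  have h : Real.sqrt (‖(L (x - p)) 0‖ ^ 2 + ‖(L (x - p)) 1‖ ^ 2) ≤
      |cx L p x| + |cy L p x| := by
    rw [Real.sqrt_le_iff]
    refine ⟨by positivity, ?_⟩
    have e0 : ‖(L (x - p)) 0‖ = |cx L p x| := rfl
    have e1 : ‖(L (x - p)) 1‖ = |cy L p x| := rfl
    rw [e0, e1]
    nlinarith [mul_nonneg (abs_nonneg (cx L p x)) (abs_nonneg (cy L p x))]
  linarith

end K1

open K1 in
theorem pr_K1 : T_K1 := by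
  intro G hG p hp ε hε
  obtain ⟨L, f, K, a, b, ha, hb, hlip, hchart⟩ := hG.lip p hp
  have hch : ∀ x : E2, |cx L p x| < a → |cy L p x| < b → (x ∈ G ↔ cy L p x < f (cx L p x)) :=
    hchart
  have hfc : Continuous f := hlip.continuous
  have hcx := cx_cont L p
  have hcy := cy_cont L p
  have hpx : cx L p p = 0 := by unfold cx; simp
  have hpy : cy L p p = 0 := by unfold cy; simp
  have hpG : p ∉ G := by
    rw [hG.isOpen.frontier_eq] at hp
    exact hp.2
  have hpcl : p ∈ closure G := frontier_subset_closure hp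
  -- points above the graph are not in the closure
  have habove : ∀ x, |cx L p x| < a → |cy L p x| < b → f (cx L p x) < cy L p x →
      x ∉ closure G := by
    intro x h0 h1 h2 hx
    have hW : {y : E2 | |cx L p y| < a ∧ |cy L p y| < b ∧ f (cx L p y) < cy L p y} ∈ 𝓝 x := by
      apply IsOpen.mem_nhds
      · exact (isOpen_lt hcx.abs continuous_const).inter
          ((isOpen_lt hcy.abs continuous_const).inter (isOpen_lt (hfc.comp hcx) hcy))
      · exact ⟨h0, h1, h2⟩
    obtain ⟨y, ⟨hy0, hy1, hy2⟩, hyG⟩ := mem_closure_iff_nhds.1 hx _ hW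
    have := (hch y hy0 hy1).1 hyG
    linarith
  have hf0 : f 0 = 0 := by
    apply le_antisymm
    · by_contra h
      push Not at h
      exact hpG ((hch p (by rw [hpx]; simpa using ha) (by rw [hpy]; simpa using hb)).2
        (by rw [hpx, hpy]; exact h))
    · by_contra h
      push Not at h
      exact habove p (by rw [hpx]; simpa using ha) (by rw [hpy]; simpa using hb)
        (by rw [hpx, hpy]; exact h) hpcl
  set b' := min b (ε / 2) with hb'
  have hb'0 : 0 < b' := lt_min hb (by linarith)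
  set a' := min (min a (ε / 2)) (b' / (2 * ((K : ℝ) + 1))) with ha'
  have hK0 : (0 : ℝ) ≤ K := K.coe_nonneg
  have ha'0 : 0 < a' := lt_min (lt_min ha (by linarith)) (by positivity)
  have ha'a : a' ≤ a := (min_le_left _ _).trans (min_le_left _ _)
  have ha'e : a' ≤ ε / 2 := (min_le_left _ _).trans (min_le_right _ _)
  have hb'b : b' ≤ b := min_le_left _ _
  have hb'e : b' ≤ ε / 2 := min_le_right _ _
  have hfb : ∀ X, |X| < a' → |f X| < b' := by
    intro X hX
    have h1 := hlip.dist_le_mul X 0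
    rw [hf0, Real.dist_eq, Real.dist_eq, sub_zero, sub_zero] at h1
    have h2 : |X| ≤ b' / (2 * ((K : ℝ) + 1)) := hX.le.trans (min_le_right _ _)
    have h3 : (K : ℝ) * |X| ≤ K * (b' / (2 * ((K : ℝ) + 1))) :=
      mul_le_mul_of_nonneg_left h2 hK0
    have h4 : (K : ℝ) * (b' / (2 * ((K : ℝ) + 1))) < b' := by
      rw [mul_div_assoc', div_lt_iff₀ (by positivity)]
      nlinarith
    linarith
  set U : Set E2 := {x | |cx L p x| < a' ∧ |cy L p x| < b'} with hU
  have hUopen : IsOpen U := (isOpen_lt hcx.abs continuous_const).inter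
    (isOpen_lt hcy.abs continuous_const)
  -- limits of points with other ordinates
  have hlim : ∀ (s : ℝ) (S : Set E2) (x : E2),
      (∃ δ > 0, ∀ t ∈ Ioo (0 : ℝ) δ, Ph L p (cx L p x) (cy L p x + s * t) ∈ S) →
      x ∈ closure S := by
    intro s S x ⟨δ, hδ, hS⟩
    have hcont : Continuous fun t : ℝ => Ph L p (cx L p x) (cy L p x + s * t) :=
      (Ph_cont L p).comp (continuous_const.prodMk (continuous_const.add
        (continuous_const.mul continuous_id)))
    have ht : Filter.Tendsto (fun t : ℝ => Ph L p (cx L p x) (cy L p x + s * t)) (𝓝[>] 0)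
        (𝓝 x) := by
      have h1 := (hcont.tendsto 0).mono_left (nhdsWithin_le_nhds (s := Ioi 0))
      simp only [mul_zero, add_zero, Ph_eq] at h1
      exact h1
    refine mem_closure_of_tendsto ht ?_
    filter_upwards [Ioo_mem_nhdsGT hδ] with t h
    exact hS t h
  have hUcl : ∀ x ∈ U, (x ∈ closure G ↔ cy L p x ≤ f (cx L p x)) := by
    rintro x ⟨h0, h1⟩
    constructor
    · intro hx
      by_contra h
      push Not at h
      exact habove x (h0.trans_le ha'a) (h1.trans_le hb'b) h hx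
    · intro h
      apply hlim (-1)
      refine ⟨b' + cy L p x, by linarith [(abs_lt.1 h1).1], fun t ht => ?_⟩
      rw [hch]
      · rw [cx_Ph, cy_Ph]
        linarith [ht.1]
      · rw [cx_Ph]; exact h0.trans_le ha'a
      · rw [cy_Ph]
        have := abs_lt.1 h1
        rw [abs_lt]
        constructor
        · linarith [ht.2]
        · linarith [ht.1]
  set V : Set E2 := {x | |cx L p x| < a' ∧ f (cx L p x) < cy L p x ∧ cy L p x < b'} with hV
  have hUV : U \ closure G = V := by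
    ext x
    constructor
    · rintro ⟨⟨h0, h1⟩, h2⟩
      rw [hUcl x ⟨h0, h1⟩, not_le] at h2
      exact ⟨h0, h2, (abs_lt.1 h1).2⟩
    · rintro ⟨h0, h1, h2⟩
      have hmem : x ∈ U := by
        refine ⟨h0, abs_lt.2 ⟨?_, h2⟩⟩
        linarith [(abs_lt.1 (hfb _ h0)).1]
      refine ⟨hmem, ?_⟩
      rw [hUcl x hmem, not_le]
      exact h1
  have hVim : V = (fun q : ℝ × ℝ => Ph L p q.1 (f q.1 + q.2 * (b' - f q.1))) ''
      (Ioo (-a') a' ×ˢ Ioo (0 : ℝ) 1) := by
    ext x
    constructor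
    · rintro ⟨h0, h1, h2⟩
      have hden : 0 < b' - f (cx L p x) := by linarith
      refine ⟨(cx L p x, (cy L p x - f (cx L p x)) / (b' - f (cx L p x))), ⟨?_, ?_⟩, ?_⟩
      · exact abs_lt.1 h0
      · constructor
        · exact div_pos (by linarith) hden
        · exact (div_lt_one hden).2 (by linarith)
      · simp only
        rw [div_mul_cancel₀ _ hden.ne', add_sub_cancel, Ph_eq]
    · rintro ⟨⟨X, z⟩, ⟨hX, hz⟩, rfl⟩
      simp only at hX hz ⊢
      have hX' : |X| < a' := abs_lt.2 hX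
      have hfX := abs_lt.1 (hfb X hX')
      refine ⟨?_, ?_, ?_⟩
      · rw [cx_Ph]; exact hX'
      · rw [cx_Ph, cy_Ph]
        have : 0 < z * (b' - f X) := mul_pos hz.1 (by linarith)
        linarith
      · rw [cy_Ph]
        have : z * (b' - f X) < 1 * (b' - f X) := mul_lt_mul_of_pos_right hz.2 (by linarith)
        linarith
  refine ⟨U, hUopen, ?_, ?_, ?_, ?_⟩
  · exact ⟨by rw [hpx]; simpa using ha'0, by rw [hpy]; simpa using hb'0⟩
  · rintro x ⟨h0, h1⟩
    exact dist_lt L p x ε (h0.trans_le ha'e) (h1.trans_le hb'e)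
  · rw [hUV, hVim]
    have hS : IsConnected (Ioo (-a') a' ×ˢ Ioo (0 : ℝ) 1) :=
      (isConnected_Ioo (by linarith)).prod (isConnected_Ioo one_pos)
    refine hS.image _ (Continuous.continuousOn ?_)
    exact (Ph_cont L p).comp (continuous_fst.prodMk ((hfc.comp continuous_fst).add
      (continuous_snd.mul (continuous_const.sub (hfc.comp continuous_fst)))))
  · rintro x ⟨hx, hxU⟩
    rw [hG.isOpen.frontier_eq] at hx
    have h1 := (hUcl x hxU).1 hx.1
    obtain ⟨h0, h2⟩ := hxU
    have h3 : f (cx L p x) ≤ cy L p x := by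
      by_contra h
      push Not at h
      exact hx.2 ((hch x (h0.trans_le ha'a) (h2.trans_le hb'b)).2 h)
    rw [hUV]
    apply hlim 1
    refine ⟨b' - cy L p x, by linarith [(abs_lt.1 h2).2], fun t ht => ?_⟩
    refine ⟨?_, ?_, ?_⟩
    · rw [cx_Ph]; exact h0
    · rw [cx_Ph, cy_Ph]; linarith [ht.1]
    · rw [cy_Ph]; linarith [ht.2]

end Pool.Agent.Robin

end

section

/-!
# MP_4b551e_an, item K10 (helper93)
-/

open MeasureTheory Set Metric
open scoped ENNReal NNReal Pointwise RealInnerProductSpace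

namespace Pool.Agent.Robin

namespace K10

lemma inner_eq (x y : E2) : ⟪x, y⟫ = x 0 * y 0 + x 1 * y 1 := by
  simp [PiLp.inner_apply, Fin.sum_univ_two, mul_comm]

lemma norm_sq (a : E2) : ‖a‖ ^ 2 = a 0 ^ 2 + a 1 ^ 2 := by
  rw [EuclideanSpace.norm_sq_eq, Fin.sum_univ_two]
  simp

lemma norm_rot (n : E2) : ‖rot n‖ = ‖n‖ := by
  have h : ‖rot n‖ ^ 2 = ‖n‖ ^ 2 := by
    rw [norm_sq, norm_sq]
    simp [rot]
    ring
  exact (sq_eq_sq₀ (norm_nonneg _) (norm_nonneg _)).1 h

lemma isom (v n : E2) (hn : ‖n‖ = 1) : Isometry (fun t : ℝ => v + t • rot n) := by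
  apply Isometry.of_dist_eq
  intro s t
  rw [dist_add_left, dist_eq_norm, ← sub_smul, norm_smul, norm_rot, hn, mul_one, Real.dist_eq,
    Real.norm_eq_abs]

lemma mem_line (v n x : E2) (hn : ‖n‖ = 1) (hx : ⟪x - v, n⟫ = 0) :
    x ∈ range (fun t : ℝ => v + t • rot n) := by
  refine ⟨⟪x - v, rot n⟫, ?_⟩
  have hn2 : n 0 ^ 2 + n 1 ^ 2 = 1 := by rw [← norm_sq, hn]; norm_num
  rw [inner_eq] at hx
  simp only [PiLp.sub_apply] at hx
  have h0 : v 0 + ⟪x - v, rot n⟫ * (rot n) 0 = x 0 := by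
    rw [inner_eq]
    simp only [rot, PiLp.sub_apply]
    simp only [Fin.isValue, Matrix.cons_val_zero, Matrix.cons_val_one]
    have : v 0 + ((x 0 - v 0) * -n 1 + (x 1 - v 1) * n 0) * -n 1 =
        v 0 + (x 0 - v 0) * (n 0 ^ 2 + n 1 ^ 2) -
          n 0 * ((x 0 - v 0) * n 0 + (x 1 - v 1) * n 1) := by ring
    rw [this, hn2, hx]; ring
  have h1 : v 1 + ⟪x - v, rot n⟫ * (rot n) 1 = x 1 := by
    rw [inner_eq]
    simp only [rot, PiLp.sub_apply]
    simp only [Fin.isValue, Matrix.cons_val_zero, Matrix.cons_val_one]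
    have : v 1 + ((x 0 - v 0) * -n 1 + (x 1 - v 1) * n 0) * n 0 =
        v 1 + (x 1 - v 1) * (n 0 ^ 2 + n 1 ^ 2) -
          n 1 * ((x 0 - v 0) * n 0 + (x 1 - v 1) * n 1) := by ring
    rw [this, hn2, hx]; ring
  ext i
  fin_cases i
  · simpa using h0
  · simpa using h1

end K10

open K10 in
theorem pr_K10 : T_K10 := by
  intro v n S f hn hS hf hSn
  have hi := isom v n hn
  have h1 := hi.map_hausdorffMeasure (d := 1) (Or.inl zero_le_one)
  have hr : S ⊆ range (fun t : ℝ => v + t • rot n) := fun x hx => mem_line v n x hn (hSn x hx)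
  have hm : MeasurableSet (range (fun t : ℝ => v + t • rot n)) :=
    hi.isClosedEmbedding.isClosed_range.measurableSet
  have h2 : ∫⁻ x in S, f x ∂(μH[1]) = ∫⁻ x, S.indicator f x
      ∂((μH[1] : Measure E2).restrict (range (fun t : ℝ => v + t • rot n))) := by
    rw [lintegral_indicator hS, Measure.restrict_restrict hS, inter_eq_left.2 hr]
  rw [h2, ← h1, lintegral_map (hf.indicator hS) hi.continuous.measurable, hausdorffMeasure_real]

end Pool.Agent.Robin

end

section

/-!
# MP_4b551e_an: item K11, the pocket inequality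
-/

open MeasureTheory Set Metric
open scoped ENNReal NNReal Pointwise RealInnerProductSpace

namespace Pool.Agent.Robin

namespace K11

theorem inner_eq (x y : E2) : ⟪x, y⟫ = x 0 * y 0 + x 1 * y 1 := by
  simp only [PiLp.inner_apply, Fin.sum_univ_two]
  simp [mul_comm]

theorem rot0 (v : E2) : (rot v) 0 = -(v 1) := by simp [rot]

theorem rot1 (v : E2) : (rot v) 1 = v 0 := by simp [rot]

theorem nn {n : E2} (hn : ‖n‖ = 1) : ⟪n, n⟫ = 1 := by
  rw [real_inner_self_eq_norm_sq, hn, one_pow]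

theorem nr (n : E2) : ⟪n, rot n⟫ = 0 := by
  rw [inner_eq, rot0, rot1]
  ring

theorem rr {n : E2} (hn : ‖n‖ = 1) : ⟪rot n, rot n⟫ = 1 := by
  have h := nn hn
  rw [inner_eq] at h
  rw [inner_eq, rot0, rot1]
  linarith

theorem norm_rot {n : E2} (hn : ‖n‖ = 1) : ‖rot n‖ = 1 := by
  have h := rr hn
  rw [real_inner_self_eq_norm_sq] at h
  have h0 := norm_nonneg (rot n)
  nlinarith

/-- the point with coordinates `t` (along the line) and `s` (depth) -/
noncomputable def pt (v n : E2) (t s : ℝ) : E2 := v + s • n + t • rot n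

theorem pt_n {v n : E2} (hn : ‖n‖ = 1) (t s : ℝ) : ⟪pt v n t s - v, n⟫ = s := by
  have h : pt v n t s - v = s • n + t • rot n := by unfold pt; abel
  rw [h, inner_add_left, real_inner_smul_left, real_inner_smul_left, nn hn, real_inner_comm, nr]
  ring

theorem pt_r {v n : E2} (hn : ‖n‖ = 1) (t s : ℝ) : ⟪pt v n t s - v, rot n⟫ = t := by
  have h : pt v n t s - v = s • n + t • rot n := by unfold pt; abel
  rw [h, inner_add_left, real_inner_smul_left, real_inner_smul_left, nr, rr hn]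
  ring

theorem cont_pt (v n : E2) (t : ℝ) : Continuous (pt v n t) := by
  unfold pt
  fun_prop

theorem lip_pt {v n : E2} (hn : ‖n‖ = 1) (t : ℝ) : LipschitzWith 1 (pt v n t) := by
  refine LipschitzWith.of_dist_le_mul fun a b => ?_
  have h : pt v n t a - pt v n t b = (a - b) • n := by
    unfold pt
    rw [sub_smul]
    abel
  rw [dist_eq_norm, h, norm_smul, hn, NNReal.coe_one, one_mul, mul_one, Real.dist_eq,
    Real.norm_eq_abs]

theorem lip_phi {v n : E2} (hn : ‖n‖ = 1) : LipschitzWith 1 (fun x : E2 => ⟪x - v, rot n⟫) := by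
  refine LipschitzWith.of_dist_le_mul fun a b => ?_
  rw [Real.dist_eq, ← inner_sub_left, NNReal.coe_one, one_mul, dist_eq_norm]
  have h : a - v - (b - v) = a - b := by abel
  rw [h]
  refine (abs_real_inner_le_norm _ _).trans ?_
  rw [norm_rot hn, mul_one]

/-- interior points of the hull are strictly below a supporting line -/
theorem lt_of_interior {H : Set E2} {x₁ ν : E2} (hν : ‖ν‖ = 1) (hH : ∀ y ∈ H, ⟪y - x₁, ν⟫ ≤ 0)
    {z : E2} (hz : z ∈ interior H) : ⟪z - x₁, ν⟫ < 0 := by
  rw [mem_interior_iff_mem_nhds, Metric.mem_nhds_iff] at hz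
  obtain ⟨ε, hε, hb⟩ := hz
  have hmem : z + (ε / 2) • ν ∈ ball z ε := by
    rw [mem_ball, dist_eq_norm, add_sub_cancel_left, norm_smul, hν, mul_one, Real.norm_eq_abs,
      abs_of_pos (by linarith)]
    linarith
  have h := hH _ (hb hmem)
  have h2 : z + (ε / 2) • ν - x₁ = (z - x₁) + (ε / 2) • ν := by abel
  rw [h2, inner_add_left, real_inner_smul_left, nn hν] at h
  linarith

theorem meas_F (k : ℝ) (u : E2 → ℝ) (hu : Continuous u) :
    Measurable (fun x => ENNReal.ofReal (en k u x - k ^ 2)) := by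
  refine ENNReal.measurable_ofReal.comp ?_
  unfold en
  exact (((measurable_fderiv ℝ u).norm.pow_const 2).add
    ((hu.measurable.pow_const 2).const_mul _)).sub_const _

end K11

open K11 in
theorem pr_K11 (he : S_Eil) (hq : T_Q1) (hc : T_Col1) (ht : T_Theta) (h2 : T_K2) (h4 : T_K4)
    (h6 : T_K6) (h8 : T_K8) (h9 : T_K9) (h10 : T_K10) : T_K11 := by
  intro k κ s U₀ G Q u x₁ ν hG hQ hk1 hk2 hκ0 hκ1 hs0 hκs hU hcond hlip hu1 hmou hsup hline hdep
  obtain ⟨K, hK⟩ := hlip
  have hGo := hG.isOpen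
  have hGn : G.Nonempty := hG.isConnected.nonempty
  have hGb := hG.isBounded
  obtain ⟨hQo, hQe, hQc, hHc, hHconv, hHn, hGH, hfr1, hfr2⟩ := h2 G Q hGo hGn hGb hQ
  obtain ⟨-, h42, -, -⟩ := h4 G hGo hGn hGb
  obtain ⟨hν, hx1, hHs⟩ := hsup
  have hucont : Continuous u := hK.continuous
  set n : E2 := -ν with hndef
  have hn : ‖n‖ = 1 := by rw [hndef, norm_neg]; exact hν
  have hνn : ∀ y : E2, ⟪y, ν⟫ = -⟪y, n⟫ := fun y => by rw [hndef, inner_neg_right, neg_neg]
  set f0 : E2 → ℝ≥0∞ := fun x => ENNReal.ofReal ((u x) ^ 2) with hf0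
  have mf0 : Measurable f0 := ENNReal.measurable_ofReal.comp (hucont.measurable.pow_const 2)
  set F : E2 → ℝ≥0∞ := fun x => ENNReal.ofReal (en k u x - k ^ 2) with hF
  have mF : Measurable F := meas_F k u hucont
  have mM : MeasurableSet (mouth G Q) :=
    isClosed_frontier.measurableSet.inter
      (isClosed_frontier.measurableSet.diff isClosed_closure.measurableSet)
  set B : Set E2 := frontier Q ∩ interior (hull G) with hB
  have mB : MeasurableSet B :=
    isClosed_frontier.measurableSet.inter isOpen_interior.measurableSet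
  have mQ : MeasurableSet Q := hQo.measurableSet
  obtain ⟨Gf, mG, hG1, hG2⟩ := he B (fun x => ⟪x - x₁, rot n⟫) f0 mB (lip_phi hn) mf0
  -- columns
  set T : ℝ → Set ℝ := fun t => {σ | pt x₁ n t σ ∈ Q} with hT
  set v : ℝ → ℝ → ℝ := fun t σ => u (pt x₁ n t σ) with hv
  have hTo : ∀ t, IsOpen (T t) := fun t => hQo.preimage (cont_pt x₁ n t)
  have hTs : ∀ t, T t ⊆ Ioc 0 s := by
    intro t σ hσ
    have hσ' : pt x₁ n t σ ∈ Q := hσ
    have h1 := lt_of_interior hν hHs (hQe hσ').1
    rw [hνn, pt_n hn] at h1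
    have h3 := hdep _ hσ'
    have h4 : x₁ - pt x₁ n t σ = -(pt x₁ n t σ - x₁) := by abel
    rw [h4, inner_neg_left, hνn, pt_n hn] at h3
    exact ⟨by linarith, by linarith⟩
  have hvl : ∀ t, ∃ K : ℝ≥0, LipschitzWith K (v t) := fun t =>
    ⟨K * 1, hK.comp (lip_pt hn t)⟩
  have hv1 : ∀ t σ, 1 ≤ v t σ := fun t σ => hu1 _
  -- pointwise lower bound
  have hcol : ∀ t, (mouth G Q).indicator f0 (x₁ + t • rot n) +
      ENNReal.ofReal κ * volume (T t) ≤ colR k (v t) (T t) := by
    intro t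
    obtain ⟨hc1, hc2⟩ := hc k κ s (v t) (T t) hk1 hk2 hκ0 hκ1 hs0 hκs (hTo t) (hTs t) (hvl t)
      (hv1 t)
    have h00 : pt x₁ n t 0 = x₁ + t • rot n := by
      unfold pt
      rw [zero_smul, add_zero]
    by_cases hm : x₁ + t • rot n ∈ mouth G Q
    · rw [indicator_of_mem hm]
      have hz1 : x₁ + t • rot n ∉ closure G := hm.2.2
      have hz2 : x₁ + t • rot n ∈ hull G := hHc.isClosed.frontier_subset hm.2.1
      have hz3 : Sup G (x₁ + t • rot n) ν := by
        refine ⟨hν, hz2, fun y hy => ?_⟩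
        have e1 : y - (x₁ + t • rot n) = (y - x₁) - (x₁ + t • rot n - x₁) := by abel
        rw [e1, inner_sub_left, hline _ hm, sub_zero]
        exact hHs y hy
      obtain ⟨ε, hε, hb, -⟩ := h42 Q hQ _ hm
      obtain ⟨δ, hδ, hd⟩ := h6 G _ ν hGo hGn hGb hz1 hz3
      have hm0 : f0 (x₁ + t • rot n) = ENNReal.ofReal ((v t 0) ^ 2) := by
        rw [hf0, hv]
        simp only [h00]
      rw [hm0]
      refine hc2 ⟨min ε δ, lt_min hε hδ, fun σ hσ => ?_⟩ ?_
      · have e2 : pt x₁ n t σ = x₁ + t • rot n - σ • ν := by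
          unfold pt
          rw [hndef, smul_neg]
          abel
        show pt x₁ n t σ ∈ Q
        rw [e2]
        refine hb ⟨?_, hd σ ⟨hσ.1, hσ.2.trans_le (min_le_right _ _)⟩⟩
        rw [mem_ball, dist_eq_norm]
        have e3 : x₁ + t • rot n - σ • ν - (x₁ + t • rot n) = -(σ • ν) := by abel
        rw [e3, norm_neg, norm_smul, hν, mul_one, Real.norm_eq_abs, abs_of_pos hσ.1]
        exact hσ.2.trans_le (min_le_left _ _)
      · refine ht k U₀ ((v t 0) ^ 2) hk1 hk2 hU ?_ hcond
        rw [hv]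
        simp only [h00]
        exact hmou _ hm
    · rw [indicator_of_notMem hm, zero_add]
      exact hc1
  -- upper bound almost everywhere
  have hup : ∀ᵐ t : ℝ, colR k (v t) (T t) ≤
      (∫⁻ σ : ℝ, Q.indicator F (x₁ + σ • n + t • rot n)) + Gf t := by
    filter_upwards [h9 x₁ n u K hn hK] with t hae
    unfold colR
    refine add_le_add ?_ ?_
    · have e1 : ∫⁻ σ : ℝ, Q.indicator F (x₁ + σ • n + t • rot n) =
          ∫⁻ σ in T t, F (pt x₁ n t σ) := by
        rw [← lintegral_indicator (hTo t).measurableSet]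
        rfl
      rw [e1]
      refine lintegral_mono_ae (ae_restrict_of_ae ?_)
      filter_upwards [hae] with σ hσ
      refine ENNReal.ofReal_le_ofReal ?_
      have h5 : (deriv (v t) σ) ^ 2 ≤ ‖fderiv ℝ u (pt x₁ n t σ)‖ ^ 2 := hσ
      show (deriv (v t) σ) ^ 2 + k ^ 2 * ((u (pt x₁ n t σ)) ^ 2 - 1) ≤
        ‖fderiv ℝ u (pt x₁ n t σ)‖ ^ 2 + k ^ 2 * (u (pt x₁ n t σ)) ^ 2 - k ^ 2
      linarith
    · refine le_trans ?_ (hG1 t)
      have hmap : ∀ σ : (frontier (T t) ∩ Ioi 0 : Set ℝ),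
          pt x₁ n t σ ∈ B ∩ (fun x : E2 => ⟪x - x₁, rot n⟫) ⁻¹' {t} := by
        rintro ⟨σ, hσ1, hσ2⟩
        have hfq : pt x₁ n t σ ∈ frontier Q :=
          (cont_pt x₁ n t).frontier_preimage_subset Q hσ1
        refine ⟨⟨hfq, ?_⟩, pt_r hn t σ⟩
        refine (h8 G Q x₁ ν hG hQ ⟨hν, hx1, hHs⟩ hline _ hfq ?_).1
        rw [hνn, pt_n hn]
        have : 0 < σ := hσ2
        linarith
      have hinj : Function.Injective (fun σ : (frontier (T t) ∩ Ioi 0 : Set ℝ) =>
          (⟨pt x₁ n t σ, hmap σ⟩ :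
            (B ∩ (fun x : E2 => ⟪x - x₁, rot n⟫) ⁻¹' {t} : Set E2))) := by
        intro σ σ' h
        have h7 : pt x₁ n t σ = pt x₁ n t σ' := congrArg Subtype.val h
        apply Subtype.ext
        rw [← pt_n hn t (σ : ℝ) (v := x₁), ← pt_n hn t (σ' : ℝ) (v := x₁), h7]
      exact ENNReal.tsum_comp_le_tsum_of_injective hinj (fun x => f0 x)
  -- integration
  have hL1 : ∫⁻ x in mouth G Q, f0 x ∂(μH[1]) =
      ∫⁻ t : ℝ, (mouth G Q).indicator f0 (x₁ + t • rot n) := by
    refine h10 x₁ n (mouth G Q) f0 hn mM mf0 fun x hx => ?_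
    have := hline x hx
    rw [hνn] at this
    linarith
  have hL2 : volume Q = ∫⁻ t : ℝ, volume (T t) := by
    rw [← lintegral_indicator_one mQ, hq x₁ n _ hn (measurable_one.indicator mQ)]
    refine lintegral_congr fun t => ?_
    rw [← lintegral_indicator_one (hTo t).measurableSet]
    rfl
  have hR1 : ∫⁻ x in Q, F x = ∫⁻ t : ℝ, ∫⁻ σ : ℝ, Q.indicator F (x₁ + σ • n + t • rot n) := by
    rw [← lintegral_indicator mQ, hq x₁ n _ hn (mF.indicator mQ)]
  have mI : Measurable (fun t : ℝ => (mouth G Q).indicator f0 (x₁ + t • rot n)) :=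
    (mf0.indicator mM).comp (by fun_prop)
  calc (∫⁻ x in mouth G Q, f0 x ∂(μH[1])) + ENNReal.ofReal κ * volume Q
      = ∫⁻ t : ℝ, ((mouth G Q).indicator f0 (x₁ + t • rot n) +
          ENNReal.ofReal κ * volume (T t)) := by
        rw [lintegral_add_left mI, hL1, hL2, lintegral_const_mul' _ _ ENNReal.ofReal_ne_top]
    _ ≤ ∫⁻ t : ℝ, ((∫⁻ σ : ℝ, Q.indicator F (x₁ + σ • n + t • rot n)) + Gf t) := by
        refine lintegral_mono_ae ?_
        filter_upwards [hup] with t h
        exact (hcol t).trans h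
    _ = (∫⁻ x in Q, F x) + ∫⁻ t : ℝ, Gf t := by
        rw [lintegral_add_right _ mG, hR1]
    _ ≤ (∫⁻ x in Q, F x) + ∫⁻ x in B, f0 x ∂(μH[1]) := add_le_add le_rfl hG2

end Pool.Agent.Robin

end

section

/-!
# MP_4b551e_an, item K12 (helper93)
-/

open MeasureTheory Set Metric
open scoped ENNReal NNReal Pointwise RealInnerProductSpace

namespace Pool.Agent.Robin

namespace K12

lemma bdd_hull {G : Set E2} (hb : Bornology.IsBounded G) : Bornology.IsBounded (hull G) :=
  isBounded_convexHull.2 hb.closure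

lemma lt_top {k : ℝ} {u : E2 → ℝ} {K : ℝ≥0} (hu : LipschitzWith K u) {S : Set E2}
    (hS : Bornology.IsBounded S) :
    ∫⁻ x in S, ENNReal.ofReal (en k u x - k ^ 2) < ⊤ := by
  obtain ⟨R, hR⟩ := hS.subset_ball (0 : E2)
  have h1 : ∀ x ∈ S, ENNReal.ofReal (en k u x - k ^ 2) ≤
      ENNReal.ofReal ((K : ℝ) ^ 2 + k ^ 2 * (|u 0| + K * |R|) ^ 2) := by
    intro x hx
    apply ENNReal.ofReal_le_ofReal
    unfold en
    have h2 : ‖fderiv ℝ u x‖ ≤ K := norm_fderiv_le_of_lipschitz ℝ hu
    have h3 : |u x| ≤ |u 0| + K * |R| := by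
      have h4 := hu.dist_le_mul x 0
      have h5 : dist x 0 ≤ |R| := (mem_ball.1 (hR hx)).le.trans (le_abs_self _)
      have h6 : (K : ℝ) * dist x 0 ≤ K * |R| := mul_le_mul_of_nonneg_left h5 K.2
      rw [Real.dist_eq] at h4
      have h7 := abs_sub_abs_le_abs_sub (u x) (u 0)
      linarith
    have h4 : (u x) ^ 2 ≤ (|u 0| + K * |R|) ^ 2 := by
      rw [← sq_abs (u x)]
      exact pow_le_pow_left₀ (abs_nonneg _) h3 2
    have h5 : ‖fderiv ℝ u x‖ ^ 2 ≤ (K : ℝ) ^ 2 := pow_le_pow_left₀ (norm_nonneg _) h2 2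
    nlinarith [sq_nonneg k, mul_le_mul_of_nonneg_left h4 (sq_nonneg k)]
  calc ∫⁻ x in S, ENNReal.ofReal (en k u x - k ^ 2)
      ≤ ∫⁻ x in S, ENNReal.ofReal ((K : ℝ) ^ 2 + k ^ 2 * (|u 0| + K * |R|) ^ 2) :=
        setLIntegral_mono measurable_const h1
    _ = ENNReal.ofReal ((K : ℝ) ^ 2 + k ^ 2 * (|u 0| + K * |R|) ^ 2) * volume S := by
        rw [setLIntegral_const]
    _ < ⊤ := ENNReal.mul_lt_top ENNReal.ofReal_lt_top hS.measure_lt_top

end K12

open K12 in
theorem pr_K12 (h2 : T_K2) (h3 : T_K3) (h4 : T_K4) : T_K12 := by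
  intro k κ G u M B hG hu hu1 hk hP hH
  obtain ⟨K, hK⟩ := hu
  have hGo := hG.isOpen
  have hGn := hG.isConnected.nonempty
  have hGb := hG.isBounded
  obtain ⟨k1, k2, k3, k4⟩ := h4 G hGo hGn hGb
  set g : E2 → ℝ≥0∞ := fun x => ENNReal.ofReal (en k u x - k ^ 2) with hg
  set h : E2 → ℝ≥0∞ := fun x => ENNReal.ofReal ((u x) ^ 2) with hh
  have hcl : closure G ⊆ hull G := subset_convexHull ℝ _
  have hGsub : G ⊆ interior (hull G) := interior_maximal (subset_closure.trans hcl) hGo
  have hexto : IsOpen (ext G) := isOpen_interior.sdiff isClosed_closure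
  have hdis : Disjoint G (ext G) := by
    rw [Set.disjoint_left]
    intro x hx hx'
    exact hx'.2 (subset_closure hx)
  have : Countable {Q // Pocket G Q} := k3.to_subtype
  have hextU : ext G = ⋃ Q : {Q // Pocket G Q}, Q.1 := by
    rw [← k4]
    ext x
    simp
  have hpd : Pairwise (Function.onFun Disjoint (fun Q : {Q // Pocket G Q} => Q.1)) := by
    intro Q Q' hne
    exact (h3 G Q.1 Q'.1 hG Q.2 Q'.2 (fun e => hne (Subtype.ext e))).1
  have hQm : ∀ Q : {Q // Pocket G Q}, MeasurableSet Q.1 := fun Q =>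
    (h2 G Q.1 hGo hGn hGb Q.2).1.measurableSet
  -- (a)
  have ea : (∫⁻ x in G, g x) + (∫⁻ x in ext G, g x) ≤ ∫⁻ x in hull G, g x := by
    rw [← lintegral_union hexto.measurableSet hdis]
    apply lintegral_mono_set
    intro x hx
    rcases hx with hx | hx
    · exact interior_subset (hGsub hx)
    · exact interior_subset hx.1
  have eb : ∫⁻ x in ext G, g x = ∑' Q : {Q // Pocket G Q}, ∫⁻ x in Q.1, g x := by
    rw [hextU, lintegral_iUnion hQm hpd]
  have ec : volume (ext G) = ∑' Q : {Q // Pocket G Q}, volume Q.1 := by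
    rw [hextU, measure_iUnion hpd hQm]
  have ed : ∫⁻ x in frontier (hull G), h x ∂(μH[1]) ≤
      (∫⁻ x in frontier (hull G) ∩ closure G, h x ∂(μH[1])) +
        ∑' Q : {Q // Pocket G Q}, ∫⁻ x in mouth G Q.1, h x ∂(μH[1]) := by
    calc ∫⁻ x in frontier (hull G), h x ∂(μH[1])
        ≤ ∫⁻ x in (frontier (hull G) ∩ closure G) ∪
          ⋃ Q : {Q // Pocket G Q}, mouth G Q.1, h x ∂(μH[1]) := by
          apply lintegral_mono_set
          intro x hx
          by_cases hc : x ∈ closure G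
          · exact Or.inl ⟨hx, hc⟩
          · right
            obtain ⟨Q, hQ, hxQ⟩ := k1 x ⟨hx, hc⟩
            exact mem_iUnion.2 ⟨⟨Q, hQ⟩, hxQ⟩
      _ ≤ (∫⁻ x in frontier (hull G) ∩ closure G, h x ∂(μH[1])) +
          ∫⁻ x in ⋃ Q : {Q // Pocket G Q}, mouth G Q.1, h x ∂(μH[1]) :=
          lintegral_union_le _ _ _
      _ ≤ _ := by
          gcongr
          exact lintegral_iUnion_le _ _
  have ee : (∫⁻ x in frontier (hull G) ∩ closure G, h x ∂(μH[1])) +
      ∑' Q : {Q // Pocket G Q}, ∫⁻ x in frontier Q.1 ∩ interior (hull G), h x ∂(μH[1]) ≤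
      ∫⁻ x in frontier G, h x ∂(μH[1]) := by
    rw [← lintegral_iUnion (s := fun Q : {Q // Pocket G Q} => frontier Q.1 ∩ interior (hull G))
      (fun Q => isClosed_frontier.measurableSet.inter isOpen_interior.measurableSet)
      (fun Q Q' hne => (h3 G Q.1 Q'.1 hG Q.2 Q'.2 (fun e => hne (Subtype.ext e))).2),
      ← lintegral_union]
    · apply lintegral_mono_set
      intro x hx
      rcases hx with hx | hx
      · rw [hGo.frontier_eq]
        refine ⟨hx.2, fun hxG => ?_⟩
        exact hx.1.2 (hGsub hxG)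
      · rw [mem_iUnion] at hx
        obtain ⟨Q, hxQ⟩ := hx
        exact (h2 G Q.1 hGo hGn hGb Q.2).2.2.2.2.2.2.2.2 hxQ
    · exact MeasurableSet.iUnion (fun Q =>
        isClosed_frontier.measurableSet.inter isOpen_interior.measurableSet)
    · rw [Set.disjoint_left]
      intro x hx hx'
      rw [mem_iUnion] at hx'
      obtain ⟨Q, hxQ⟩ := hx'
      exact hx.1.2 hxQ.2
  have ef : ∑' Q : {Q // Pocket G Q}, ∫⁻ x in Q.1, g x ≠ ⊤ := by
    rw [← eb]
    exact (lt_top hK ((bdd_hull hGb).subset (fun x hx => interior_subset hx.1))).ne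
  have eg : (∑' Q : {Q // Pocket G Q}, ∫⁻ x in mouth G Q.1, h x ∂(μH[1])) +
      ENNReal.ofReal κ * volume (ext G) ≤ (∑' Q : {Q // Pocket G Q}, ∫⁻ x in Q.1, g x) +
      ∑' Q : {Q // Pocket G Q}, ∫⁻ x in frontier Q.1 ∩ interior (hull G), h x ∂(μH[1]) := by
    rw [ec, ← ENNReal.tsum_mul_left, ← ENNReal.tsum_add, ← ENNReal.tsum_add]
    exact ENNReal.tsum_le_tsum (fun Q => hP Q.1 Q.2)
  rw [eb] at ea
  set Sc := ∑' Q : {Q // Pocket G Q}, ∫⁻ x in Q.1, g x
  set Sa := ∑' Q : {Q // Pocket G Q}, ∫⁻ x in mouth G Q.1, h x ∂(μH[1])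
  set Sd := ∑' Q : {Q // Pocket G Q}, ∫⁻ x in frontier Q.1 ∩ interior (hull G), h x ∂(μH[1])
  set Fh := ∫⁻ x in frontier (hull G) ∩ closure G, h x ∂(μH[1])
  have fin : Sc + ((∫⁻ x in G, g x) + ENNReal.ofReal κ * volume (ext G) + M) ≤
      Sc + ((∫⁻ x in frontier G, h x ∂(μH[1])) + B) := by
    calc Sc + ((∫⁻ x in G, g x) + ENNReal.ofReal κ * volume (ext G) + M)
        = ((∫⁻ x in G, g x) + Sc) + M + ENNReal.ofReal κ * volume (ext G) := by ring
      _ ≤ (∫⁻ x in hull G, g x) + M + ENNReal.ofReal κ * volume (ext G) := by gcongr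
      _ ≤ (∫⁻ x in frontier (hull G), h x ∂(μH[1])) + B + ENNReal.ofReal κ * volume (ext G) := by
          gcongr
      _ ≤ (Fh + Sa) + B + ENNReal.ofReal κ * volume (ext G) := by gcongr
      _ = Fh + B + (Sa + ENNReal.ofReal κ * volume (ext G)) := by ring
      _ ≤ Fh + B + (Sc + Sd) := by gcongr
      _ = Sc + ((Fh + Sd) + B) := by ring
      _ ≤ Sc + ((∫⁻ x in frontier G, h x ∂(μH[1])) + B) := by gcongr
  exact (ENNReal.add_le_add_iff_left ef).1 fin

end Pool.Agent.Robin

end

section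

/-!
# MP_4b551e_an: areas
-/

open MeasureTheory Set Metric Filter Topology
open scoped ENNReal NNReal Pointwise RealInnerProductSpace

namespace Pool.Agent.Robin

theorem pr_K13 (b1 : S_B1) (b2 : S_B2) (_h2 : T_K2) : T_K13 := by
  intro G hG
  have hfc : frontier Gᶜ = frontier G := frontier_compl G
  have hcl : IsCompact (closure G) := hG.isBounded.isCompact_closure
  have hfr : IsCompact (frontier Gᶜ) := by
    rw [hfc]
    exact hcl.of_isClosed_subset isClosed_frontier frontier_subset_closure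
  obtain ⟨hH, hV⟩ := b2 Gᶜ (b1 G hG) hfr
  rw [hfc] at hH hV
  have hK : Bornology.IsBounded (hull G) := isBounded_convexHull.mpr hG.isBounded.closure
  have hKc : Convex ℝ (hull G) := convex_convexHull ℝ _
  have hsub : G ⊆ interior (hull G) :=
    hG.isOpen.subset_interior_iff.mpr (subset_closure.trans (subset_convexHull ℝ _))
  refine ⟨hV, hH, ?_, hK.measure_lt_top⟩
  have h1 : volume (hull G) = volume (interior (hull G)) := by
    apply le_antisymm _ (measure_mono interior_subset)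
    calc volume (hull G) ≤ volume (interior (hull G) ∪ frontier (hull G)) :=
          measure_mono (by
            rw [← closure_eq_interior_union_frontier]
            exact subset_closure)
      _ ≤ volume (interior (hull G)) + volume (frontier (hull G)) := measure_union_le _ _
      _ = volume (interior (hull G)) := by rw [hKc.addHaar_frontier volume, add_zero]
  have h2 : volume (interior (hull G) \ G) = volume (ext G) := by
    apply le_antisymm
    · calc volume (interior (hull G) \ G) ≤ volume (ext G ∪ frontier G) := measure_mono (by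
            intro x hx
            by_cases hc : x ∈ closure G
            · right
              rw [hG.isOpen.frontier_eq]
              exact ⟨hc, hx.2⟩
            · exact Or.inl ⟨hx.1, hc⟩)
        _ ≤ volume (ext G) + volume (frontier G) := measure_union_le _ _
        _ = volume (ext G) := by rw [hV, add_zero]
    · exact measure_mono fun x hx => ⟨hx.1, fun h => hx.2 (subset_closure h)⟩
  rw [h1, ← measure_inter_add_sdiff (interior (hull G)) hG.isOpen.measurableSet, h2,
    inter_eq_self_of_subset_right hsub]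

end Pool.Agent.Robin

end

section

/-!
# MP_4b551e_an: item K14, the inner ball
-/

open MeasureTheory Set Metric
open scoped ENNReal NNReal Pointwise RealInnerProductSpace

namespace Pool.Agent.Robin

namespace K14

/-- A supporting unit normal at a frontier point of a compact convex set with interior. -/
lemma exists_sup (G : Set E2) (x₁ : E2) (hc : IsCompact (hull G)) (hcv : Convex ℝ (hull G))
    (hne : (interior (hull G)).Nonempty) (hx : x₁ ∈ frontier (hull G)) :
    ∃ ν : E2, Sup G x₁ ν := by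
  have hx1 : x₁ ∈ hull G := hc.isClosed.frontier_subset hx
  have hx2 : x₁ ∉ interior (hull G) := by
    intro h
    exact hx.2 h
  obtain ⟨f, hf⟩ := geometric_hahn_banach_open_point hcv.interior isOpen_interior hx2
  obtain ⟨p, hp⟩ := hne
  have hle : ∀ y ∈ hull G, f y ≤ f x₁ := by
    intro y hy
    have hy' : y ∈ closure (interior (hull G)) := by
      rw [hcv.closure_interior_eq_closure_of_nonempty_interior ⟨p, hp⟩]
      exact subset_closure hy
    have : closure (interior (hull G)) ⊆ {y | f y ≤ f x₁} :=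
      closure_minimal (fun a ha => (hf a ha).le) (isClosed_le f.continuous continuous_const)
    exact this hy'
  set w : E2 := (InnerProductSpace.toDual ℝ E2).symm f with hw
  have hfw : ∀ y, f y = ⟪w, y⟫ := by
    intro y
    rw [hw]
    exact (InnerProductSpace.toDual_symm_apply (x := y) (y := f)).symm
  have hw0 : w ≠ 0 := by
    intro h0
    have := hf p hp
    rw [hfw, hfw, h0] at this
    simp at this
  have hwn : 0 < ‖w‖ := norm_pos_iff.mpr hw0
  refine ⟨‖w‖⁻¹ • w, ?_, hx1, ?_⟩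
  · rw [norm_smul, norm_inv, norm_norm]
    exact inv_mul_cancel₀ hwn.ne'
  · intro y hy
    have h1 := hle y hy
    rw [hfw, hfw] at h1
    rw [real_inner_smul_right, real_inner_comm, inner_sub_right]
    have : 0 < ‖w‖⁻¹ := inv_pos.mpr hwn
    nlinarith

lemma ball_sub (G : Set E2) (o : E2) (ρ₁ s : ℝ) (h2 : T_K2) (h4 : T_K4) (hG : Admissible G)
    (hb : closedBall o ρ₁ ⊆ hull G) (hs : 0 ≤ s) (hD : Depth G s)
    (hm : ∀ Q, Pocket G Q → (mouth G Q).Nonempty) :
    ball o (ρ₁ - s) ⊆ closure G := by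
  intro z hz
  by_contra hzG
  have hz' : ‖z - o‖ < ρ₁ - s := by simpa [dist_eq_norm] using hz
  have hzi : z ∈ interior (hull G) := by
    have : ball o ρ₁ ⊆ interior (hull G) :=
      interior_maximal (ball_subset_closedBall.trans hb) isOpen_ball
    apply this
    rw [mem_ball, dist_eq_norm]
    linarith
  have hze : z ∈ ext G := ⟨hzi, hzG⟩
  have h44 := (h4 G hG.isOpen hG.isConnected.nonempty hG.isBounded).2.2.2
  rw [← h44] at hze
  obtain ⟨Q, hQ, hzQ⟩ := hze
  obtain ⟨x₁, hx₁⟩ := hm Q hQ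
  obtain ⟨-, -, -, hcp, hcv, hne, -, -, -⟩ :=
    h2 G Q hG.isOpen hG.isConnected.nonempty hG.isBounded hQ
  obtain ⟨ν, hν⟩ := exists_sup G x₁ hcp hcv hne hx₁.2.1
  have hdep := hD Q hQ x₁ hx₁ ν hν z hzQ
  have hy : z + (ρ₁ - ‖z - o‖) • ν ∈ closedBall o ρ₁ := by
    rw [mem_closedBall, dist_eq_norm]
    calc ‖z + (ρ₁ - ‖z - o‖) • ν - o‖ = ‖(z - o) + (ρ₁ - ‖z - o‖) • ν‖ := by
          congr 1; abel
      _ ≤ ‖z - o‖ + ‖(ρ₁ - ‖z - o‖) • ν‖ := norm_add_le _ _
      _ = ‖z - o‖ + (ρ₁ - ‖z - o‖) := by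
          rw [norm_smul, hν.1, mul_one, Real.norm_eq_abs, abs_of_nonneg (by linarith)]
      _ = ρ₁ := by ring
  have h5 := hν.2.2 _ (hb hy)
  have h6 : ⟪z + (ρ₁ - ‖z - o‖) • ν - x₁, ν⟫ = -⟪x₁ - z, ν⟫ + (ρ₁ - ‖z - o‖) := by
    have : z + (ρ₁ - ‖z - o‖) • ν - x₁ = -(x₁ - z) + (ρ₁ - ‖z - o‖) • ν := by abel
    rw [this, inner_add_left, inner_neg_left, real_inner_smul_left,
      real_inner_self_eq_norm_sq, hν.1]
    ring
  rw [h6] at h5
  linarith

end K14

theorem pr_K14 (h2 : T_K2) (h4 : T_K4) (h13 : T_K13) : T_K14 := by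
  intro G o ρ₁ s hG hb hs hs1 hD hm
  have hsub := K14.ball_sub G o ρ₁ s h2 h4 hG hb hs hD hm
  obtain ⟨hf, -, hvol, hfin⟩ := h13 G hG
  have hcl : volume (closure G) ≤ volume G := by
    have : closure G ⊆ G ∪ frontier G := by
      rw [closure_eq_self_union_frontier]
    calc volume (closure G) ≤ volume (G ∪ frontier G) := measure_mono this
      _ ≤ volume G + volume (frontier G) := measure_union_le _ _
      _ = volume G := by rw [hf, add_zero]
  have hGfin : volume G ≠ ⊤ := by
    have : volume G ≤ volume (hull G) := by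
      rw [hvol]; exact le_self_add
    exact (this.trans_lt hfin).ne
  have hball : volume (ball o (ρ₁ - s)) = ENNReal.ofReal (Real.pi * (ρ₁ - s) ^ 2) := by
    rw [EuclideanSpace.volume_ball_fin_two, ← ENNReal.ofReal_pow (by linarith),
      mul_comm, ENNReal.ofReal_mul Real.pi_pos.le]
  have h7 : ENNReal.ofReal (Real.pi * (ρ₁ - s) ^ 2) ≤ volume G := by
    rw [← hball]
    exact (measure_mono hsub).trans hcl
  rw [area]
  exact (ENNReal.ofReal_le_iff_le_toReal hGfin).mp h7

end Pool.Agent.Robin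

end

section

/-!
# K2: elementary properties of pockets
-/

open MeasureTheory Set Metric
open scoped ENNReal NNReal Pointwise RealInnerProductSpace

namespace Pool.Agent.Robin

namespace K2

/-- the convex hull of a compact set in the plane is compact -/
theorem isCompact_convexHull {K : Set E2} (hK : IsCompact K) : IsCompact (convexHull ℝ K) := by
  rcases K.eq_empty_or_nonempty with rfl | ⟨p, hp⟩
  · rw [convexHull_empty]; exact isCompact_empty
  have h : convexHull ℝ K = (fun q : (Fin 3 → ℝ) × (Fin 3 → E2) => ∑ j, q.1 j • q.2 j) ''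
      ((stdSimplex ℝ (Fin 3)) ×ˢ (Set.pi univ fun _ => K)) := by
    apply Subset.antisymm
    · intro x hx
      obtain ⟨ι, _, z, w, hz, hai, hw, hw1, hsum⟩ := eq_pos_convex_span_of_mem_convexHull hx
      have hcard : Fintype.card ι ≤ Fintype.card (Fin 3) := by
        have h1 := hai.card_le_finrank_succ
        have h2 : Module.finrank ℝ (vectorSpan ℝ (Set.range z)) ≤ Module.finrank ℝ E2 :=
          Submodule.finrank_le _
        have h3 : Module.finrank ℝ E2 = 2 := by simp
        rw [Fintype.card_fin]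
        omega
      obtain ⟨e⟩ := Function.Embedding.nonempty_of_card_le hcard
      refine ⟨(Function.extend e w 0, Function.extend e z fun _ => p), ⟨⟨?_, ?_⟩, ?_⟩, ?_⟩
      · intro j
        by_cases hj : ∃ i, e i = j
        · obtain ⟨i, rfl⟩ := hj
          simp only [e.injective.extend_apply]
          exact (hw i).le
        · simp only [Function.extend_apply' _ _ _ hj]
          exact le_rfl
      · show ∑ j, Function.extend e w 0 j = 1
        rw [← hw1]
        symm
        apply Fintype.sum_of_injective e e.injective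
        · intro j hj
          rw [Function.extend_apply' _ _ _ hj]; rfl
        · intro i
          rw [e.injective.extend_apply]
      · intro j _
        show Function.extend e z (fun _ => p) j ∈ K
        by_cases hj : ∃ i, e i = j
        · obtain ⟨i, rfl⟩ := hj
          rw [e.injective.extend_apply]
          exact hz ⟨i, rfl⟩
        · rw [Function.extend_apply' _ _ _ hj]
          exact hp
      · show ∑ j, Function.extend e w 0 j • Function.extend e z (fun _ => p) j = x
        rw [← hsum]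
        symm
        apply Fintype.sum_of_injective e e.injective
        · intro j hj
          rw [Function.extend_apply' w _ _ hj, Pi.zero_apply, zero_smul]
        · intro i
          rw [e.injective.extend_apply, e.injective.extend_apply]
    · rintro _ ⟨q, ⟨hq1, hq2⟩, rfl⟩
      exact (convex_convexHull ℝ K).sum_mem (fun j _ => hq1.1 j) hq1.2
        fun j _ => subset_convexHull ℝ K (hq2 j (mem_univ j))
  rw [h]
  apply IsCompact.image
  · exact (isCompact_stdSimplex ℝ (Fin 3)).prod (isCompact_univ_pi fun _ => hK)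
  · fun_prop

end K2

theorem pr_K2 : T_K2 := by
  intro G Q hG hne hb hQ
  obtain ⟨z₀, hz₀, rfl⟩ := hQ
  have hcc : IsCompact (closure G) := hb.isCompact_closure
  have hhc : IsCompact (hull G) := K2.isCompact_convexHull hcc
  have hconv : Convex ℝ (hull G) := convex_convexHull ℝ _
  have hcl : closure G ⊆ hull G := subset_convexHull ℝ _
  have hGi : G ⊆ interior (hull G) := interior_maximal (subset_closure.trans hcl) hG
  have hext : IsOpen (ext G) := isOpen_interior.sdiff isClosed_closure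
  have hopen : IsOpen (connectedComponentIn (ext G) z₀) := hext.connectedComponentIn
  have hsub : connectedComponentIn (ext G) z₀ ⊆ ext G := connectedComponentIn_subset _ _
  have hfr : frontier (connectedComponentIn (ext G) z₀) ⊆
      frontier G ∪ (frontier (hull G) \ closure G) := by
    intro z hz
    have hzc : z ∈ closure (connectedComponentIn (ext G) z₀) := hz.1
    have hzi : z ∉ connectedComponentIn (ext G) z₀ := by
      intro h
      exact hz.2 (by rwa [hopen.interior_eq])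
    by_cases hzG : z ∈ closure G
    · left
      refine ⟨hzG, ?_⟩
      rw [hG.interior_eq]
      intro hzg
      obtain ⟨x, hx1, hx2⟩ := mem_closure_iff.1 hzc G hG hzg
      exact (hsub hx2).2 (subset_closure hx1)
    · right
      have hzh : z ∈ hull G := by
        have h1 : closure (connectedComponentIn (ext G) z₀) ⊆ hull G :=
          closure_minimal (hsub.trans (sdiff_subset.trans interior_subset)) hhc.isClosed
        exact h1 hzc
      refine ⟨⟨subset_closure hzh, ?_⟩, hzG⟩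
      intro hzint
      have hze : z ∈ ext G := ⟨hzint, hzG⟩
      obtain ⟨x, hx1, hx2⟩ := mem_closure_iff.1 hzc _ hext.connectedComponentIn
        (mem_connectedComponentIn hze)
      have h1 := connectedComponentIn_eq hx1
      have h2 := connectedComponentIn_eq hx2
      apply hzi
      rw [h2, ← h1]
      exact mem_connectedComponentIn hze
  refine ⟨hopen, hsub, isConnected_connectedComponentIn_iff.2 hz₀, hhc, hconv,
    hne.mono hGi, hGi, hfr, ?_⟩
  rintro z ⟨hz1, hz2⟩
  rcases hfr hz1 with h | h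
  · exact h
  · exact absurd hz2 h.1.2

end Pool.Agent.Robin

end

section

/-!
# K3: different pockets have disjoint boundaries inside the hull
-/

open MeasureTheory Set Metric
open scoped ENNReal NNReal Pointwise RealInnerProductSpace

namespace Pool.Agent.Robin

namespace K3

/-- pockets with a common point are equal -/
theorem pocket_eq {G Q Q' : Set E2} (hQ : Pocket G Q) (hQ' : Pocket G Q') {x : E2} (hx : x ∈ Q)
    (hx' : x ∈ Q') : Q = Q' := by
  obtain ⟨z, _, rfl⟩ := hQ
  obtain ⟨z', _, rfl⟩ := hQ'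
  rw [connectedComponentIn_eq hx, connectedComponentIn_eq hx']

/-- a connected part of `ext G` which meets a pocket is contained in it -/
theorem subset_pocket {G Q S : Set E2} (hQ : Pocket G Q) (hS : IsPreconnected S)
    (hSe : S ⊆ ext G) {x : E2} (hx : x ∈ Q) (hxS : x ∈ S) : S ⊆ Q := by
  obtain ⟨z, _, rfl⟩ := hQ
  rw [connectedComponentIn_eq hx]
  exact hS.subset_connectedComponentIn hxS hSe

end K3

open K3

theorem pr_K3 (h1 : T_K1) (h2 : T_K2) : T_K3 := by
  intro G Q Q' hG hQ hQ' hne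
  have hGn : G.Nonempty := hG.isConnected.nonempty
  obtain ⟨_, hQs, _, _, _, _, _, _, hfr⟩ := h2 G Q hG.isOpen hGn hG.isBounded hQ
  obtain ⟨_, hQs', _, _, _, _, _, _, _⟩ := h2 G Q' hG.isOpen hGn hG.isBounded hQ'
  refine ⟨?_, ?_⟩
  · rw [Set.disjoint_left]
    intro x hx hx'
    exact hne (pocket_eq hQ hQ' hx hx')
  · rw [Set.disjoint_left]
    rintro z ⟨hz1, hz2⟩ ⟨hz1', _⟩
    have hzG : z ∈ frontier G := hfr ⟨hz1, hz2⟩
    obtain ⟨ε, hε, hball⟩ := Metric.isOpen_iff.1 isOpen_interior z hz2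
    obtain ⟨U, hU, hzU, hUb, hconn, _⟩ := h1 G hG z hzG ε hε
    have hUe : U \ closure G ⊆ ext G := fun x hx => ⟨hball (hUb hx.1), hx.2⟩
    obtain ⟨x, hxU, hxQ⟩ := mem_closure_iff.1 (frontier_subset_closure hz1) U hU hzU
    obtain ⟨x', hxU', hxQ'⟩ := mem_closure_iff.1 (frontier_subset_closure hz1') U hU hzU
    have h3 := subset_pocket hQ hconn.isPreconnected hUe hxQ ⟨hxU, (hQs hxQ).2⟩
    exact hne (pocket_eq hQ hQ' (h3 ⟨hxU', (hQs' hxQ').2⟩) hxQ')

end Pool.Agent.Robin

end

section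

/-!
MP_4b551e_an, item K4: mouth points and pockets.
-/

open MeasureTheory Set Metric
open scoped ENNReal NNReal Pointwise RealInnerProductSpace Topology

namespace Pool.Agent.Robin

namespace K4

theorem hull_facts (G : Set E2) (hG : IsOpen G) (hne : G.Nonempty) :
    Convex ℝ (hull G) ∧ (interior (hull G)).Nonempty := by
  refine ⟨convex_convexHull ℝ _, ?_⟩
  have hsub : G ⊆ interior (hull G) :=
    interior_maximal (subset_closure.trans (subset_convexHull ℝ _)) hG
  exact hne.mono hsub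

theorem exists_ball (G : Set E2) (z : E2) (hz : z ∉ closure G) :
    ∃ ε > 0, Disjoint (ball z ε) (closure G) := by
  have h : (closure G)ᶜ ∈ 𝓝 z := isClosed_closure.isOpen_compl.mem_nhds hz
  obtain ⟨ε, hε, h⟩ := Metric.mem_nhds_iff.1 h
  exact ⟨ε, hε, disjoint_left.2 fun x hx hx' => h hx hx'⟩

theorem cap_facts (G : Set E2) (hG : IsOpen G) (hne : G.Nonempty)
    (z : E2) (ε : ℝ) (hd : Disjoint (ball z ε) (closure G)) :
    IsPreconnected (ball z ε ∩ interior (hull G)) ∧ ball z ε ∩ interior (hull G) ⊆ ext G := by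
  obtain ⟨hconv, -⟩ := hull_facts G hG hne
  refine ⟨((convex_ball z ε).inter hconv.interior).isPreconnected, ?_⟩
  rintro x ⟨hx1, hx2⟩
  exact ⟨hx2, fun h => disjoint_left.1 hd hx1 h⟩

theorem near_int (G : Set E2) (hG : IsOpen G) (hne : G.Nonempty)
    (z : E2) (hz : z ∈ frontier (hull G)) (t : Set E2) (ht : t ∈ 𝓝 z) :
    (t ∩ interior (hull G)).Nonempty := by
  obtain ⟨hconv, hint⟩ := hull_facts G hG hne
  have h1 : z ∈ closure (interior (hull G)) := by
    rw [hconv.closure_interior_eq_closure_of_nonempty_interior hint]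
    exact frontier_subset_closure hz
  exact mem_closure_iff_nhds.1 h1 t ht

theorem comp_eq (G Q : Set E2) (hQ : Pocket G Q) (x : E2) (hx : x ∈ Q) :
    connectedComponentIn (ext G) x = Q := by
  obtain ⟨y, -, rfl⟩ := hQ
  exact (connectedComponentIn_eq hx).symm

end K4

open K4 in
theorem pr_K4 (h2 : T_K2) : T_K4 := by
  intro G hG hne hb
  refine ⟨?_, ?_, ?_, ?_⟩
  · rintro z ⟨hz, hzG⟩
    obtain ⟨ε, hε, hd⟩ := exists_ball G z hzG
    obtain ⟨hpre, hsub⟩ := cap_facts G hG hne z ε hd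
    obtain ⟨y, hy⟩ := near_int G hG hne z hz (ball z ε) (ball_mem_nhds z hε)
    have hyext : y ∈ ext G := hsub hy
    have hSQ : ball z ε ∩ interior (hull G) ⊆ connectedComponentIn (ext G) y :=
      hpre.subset_connectedComponentIn hy hsub
    refine ⟨connectedComponentIn (ext G) y, ⟨y, hyext, rfl⟩, ?_, hz, hzG⟩
    have hcl : z ∈ closure (connectedComponentIn (ext G) y) := by
      rw [mem_closure_iff_nhds]
      intro t ht
      obtain ⟨x, hx⟩ := near_int G hG hne z hz (t ∩ ball z ε)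
        (Filter.inter_mem ht (ball_mem_nhds z hε))
      exact ⟨x, hx.1.1, hSQ ⟨hx.1.2, hx.2⟩⟩
    refine ⟨hcl, fun hin => ?_⟩
    have h3 : z ∈ ext G := connectedComponentIn_subset _ _ (interior_subset hin)
    exact hz.2 h3.1
  · intro Q hQ z hz
    obtain ⟨hzQ, hzh, hzG⟩ := hz
    obtain ⟨ε, hε, hd⟩ := exists_ball G z hzG
    obtain ⟨hpre, hsub⟩ := cap_facts G hG hne z ε hd
    refine ⟨ε, hε, ?_, hd⟩
    obtain ⟨x, hx1, hx2⟩ := mem_closure_iff_nhds.1 hzQ.1 (ball z ε) (ball_mem_nhds z hε)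
    have hQext : Q ⊆ ext G := by
      obtain ⟨y, -, rfl⟩ := hQ
      exact connectedComponentIn_subset _ _
    have hxS : x ∈ ball z ε ∩ interior (hull G) := ⟨hx1, (hQext hx2).1⟩
    have h3 := hpre.subset_connectedComponentIn hxS hsub
    rwa [comp_eq G Q hQ x hx2] at h3
  · have hdis : ({Q | Pocket G Q} : Set (Set E2)).PairwiseDisjoint id := by
      intro Q hQ Q' hQ' hne'
      rw [Function.onFun, disjoint_left]
      intro x hx hx'
      apply hne'
      rw [← comp_eq G Q hQ x hx, ← comp_eq G Q' hQ' x hx']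
    refine hdis.countable_of_isOpen ?_ ?_
    · intro Q hQ
      exact (h2 G Q hG hne hb hQ).1
    · intro Q hQ
      exact (h2 G Q hG hne hb hQ).2.2.1.nonempty
  · apply Subset.antisymm
    · rintro x ⟨Q, ⟨y, -, rfl⟩, hx⟩
      exact connectedComponentIn_subset _ _ hx
    · intro x hx
      exact ⟨connectedComponentIn (ext G) x, ⟨x, hx, rfl⟩, mem_connectedComponentIn hx⟩

end Pool.Agent.Robin

end

section

/-!
# MP_4b551e_an: item K5, every pocket has a mouth
-/

open MeasureTheory Set Metric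
open scoped ENNReal NNReal Pointwise RealInnerProductSpace

namespace Pool.Agent.Robin

theorem pr_K5 (h1 : T_K1) (h2 : T_K2) : T_K5 := by
  intro G Q hG hGc hQ
  have hGo := hG.isOpen
  have hGn : G.Nonempty := hG.isConnected.nonempty
  have hGb := hG.isBounded
  obtain ⟨hQo, hQe, hQc, hHc, -, -, -, hfr1, -⟩ := h2 G Q hGo hGn hGb hQ
  by_contra hne
  rw [not_nonempty_iff_eq_empty] at hne
  have hfr : frontier Q ⊆ frontier G := by
    intro z hz
    rcases hfr1 hz with h | h
    · exact h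
    · exact absurd (show z ∈ mouth G Q from ⟨hz, h⟩) (by rw [hne]; exact fun h => h)
  have hQG : Q ⊆ (closure G)ᶜ := fun z hz => (hQe hz).2
  have hclQ : closure Q ⊆ Gᶜ :=
    closure_minimal (hQG.trans (compl_subset_compl.2 subset_closure)) hGo.isClosed_compl
  -- local structure
  have hloc : ∀ z ∈ closure Q, ∃ U : Set E2, IsOpen U ∧ z ∈ U ∧ U ∩ Gᶜ ⊆ closure Q := by
    intro z hz
    by_cases hzQ : z ∈ Q
    · exact ⟨Q, hQo, hzQ, inter_subset_left.trans subset_closure⟩
    · have hzf : z ∈ frontier Q := by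
        rw [hQo.frontier_eq]
        exact ⟨hz, hzQ⟩
      obtain ⟨U, hUo, hzU, -, hUc, hUf⟩ := h1 G hG z (hfr hzf) 1 one_pos
      refine ⟨U, hUo, hzU, ?_⟩
      have hW : U \ closure G ⊆ Q := by
        refine IsPreconnected.subset_left_of_subset_union (v := (closure Q)ᶜ) hQo
          isClosed_closure.isOpen_compl ?_ ?_ ?_ hUc.isPreconnected
        · exact Set.disjoint_left.2 fun x hx hx' => hx' (subset_closure hx)
        · intro x hx
          by_cases hxQ : x ∈ Q
          · exact Or.inl hxQ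
          · refine Or.inr fun hxc => hx.2 ?_
            have hxf : x ∈ frontier Q := by
              rw [hQo.frontier_eq]
              exact ⟨hxc, hxQ⟩
            exact frontier_subset_closure (hfr hxf)
        · obtain ⟨x, hxU, hxQ⟩ := mem_closure_iff.1 hz U hUo hzU
          exact ⟨x, ⟨hxU, hQG hxQ⟩, hxQ⟩
      rintro x ⟨hxU, hxG⟩
      by_cases hxc : x ∈ closure G
      · have hxf : x ∈ frontier G := by
          rw [hGo.frontier_eq]
          exact ⟨hxc, hxG⟩
        exact closure_mono hW (hUf ⟨hxf, hxU⟩)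
      · exact subset_closure (hW ⟨hxU, hxc⟩)
  choose! U hU1 hU2 hU3 using hloc
  have hOo : IsOpen (⋃ z ∈ closure Q, U z) := isOpen_biUnion fun z hz => hU1 z hz
  have hsub : Gᶜ ⊆ closure Q := by
    by_contra hns
    obtain ⟨y, hyG, hyQ⟩ := not_subset.1 hns
    obtain ⟨z, hzQ⟩ := hQc.nonempty
    have hz : z ∈ closure Q := subset_closure hzQ
    obtain ⟨w, hwG, hw1, hw2⟩ := hGc.isPreconnected (⋃ z ∈ closure Q, U z) (closure Q)ᶜ hOo
      isClosed_closure.isOpen_compl
      (fun x _ => by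
        by_cases hx : x ∈ closure Q
        · exact Or.inl (mem_biUnion hx (hU2 x hx))
        · exact Or.inr hx)
      ⟨z, hclQ hz, mem_biUnion hz (hU2 z hz)⟩ ⟨y, hyG, hyQ⟩
    obtain ⟨x, hx, hwx⟩ := mem_iUnion₂.1 hw1
    exact hw2 (hU3 x hx ⟨hwx, hwG⟩)
  have hQb : Bornology.IsBounded (closure Q) := by
    refine Bornology.IsBounded.closure (hHc.isBounded.subset ?_)
    exact fun z hz => interior_subset (hQe hz).1
  have huniv : Bornology.IsBounded (univ : Set E2) := by
    have : (univ : Set E2) = G ∪ Gᶜ := (union_compl_self G).symm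
    rw [this]
    exact hGb.union (hQb.subset hsub)
  have hcomp : IsCompact (univ : Set E2) := by
    have := huniv.isCompact_closure
    rwa [closure_univ] at this
  exact noncompact_univ E2 hcomp

end Pool.Agent.Robin

end

section

/-!
# K6: vertical segments below a mouth point
-/

open MeasureTheory Set Metric
open scoped ENNReal NNReal Pointwise RealInnerProductSpace

namespace Pool.Agent.Robin

namespace K6

theorem inner_eq (x y : E2) : ⟪x, y⟫ = x 0 * y 0 + x 1 * y 1 := by
  rw [PiLp.inner_apply, Fin.sum_univ_two]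
  simp [mul_comm]

theorem sq_eq (ν : E2) (h : ‖ν‖ = 1) : ν 0 * ν 0 + ν 1 * ν 1 = 1 := by
  rw [← inner_eq, real_inner_self_eq_norm_sq, h, one_pow]

/-- coordinates of the plane in the frame `ν, rot ν` -/
theorem decomp (ν : E2) (h : ‖ν‖ = 1) (x : E2) : x = ⟪x, ν⟫ • ν + ⟪x, rot ν⟫ • rot ν := by
  have hs := sq_eq ν h
  rw [inner_eq, inner_eq]
  ext i
  fin_cases i
  · simp [rot]
    linear_combination (-(x 0)) * hs
  · simp [rot]
    linear_combination (-(x 1)) * hs

/-- the case of two points on different sides -/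
theorem aux (H : Set E2) (hH : Convex ℝ H) (z ν p : E2) (hp : p ∈ interior H) (A B h P : ℝ)
    (hA : A < 0) (hB : 0 < B) (hh : 0 < h) (ha : z + A • rot ν ∈ H) (hb : z + B • rot ν ∈ H)
    (hpz : p = z + (-h) • ν + P • rot ν) :
    ∃ δ > 0, ∀ s ∈ Ioo (0 : ℝ) δ, z - s • ν ∈ interior H := by
  have hP : 0 < |P| + 1 := by positivity
  refine ⟨min (h / 2) (h * min (-A) B / (2 * (|P| + 1))), ?_, ?_⟩
  · refine lt_min (half_pos hh) (div_pos (mul_pos hh (lt_min (by linarith) hB)) (by positivity))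
  · rintro s ⟨hs0, hs⟩
    obtain ⟨hs1, hs2⟩ := lt_min_iff.1 hs
    set m : ℝ := s / h with hm
    have hm0 : 0 < m := div_pos hs0 hh
    have hm1 : m < 1 / 2 := by
      rw [hm, div_lt_iff₀ hh]; linarith
    have hsm : s = m * h := by rw [hm]; field_simp
    have hmP : m * (2 * (|P| + 1)) < min (-A) B := by
      rw [lt_div_iff₀ (by positivity)] at hs2
      rw [hm, div_mul_eq_mul_div, div_lt_iff₀ hh]
      linarith
    have h1m : 0 < 1 - m := by linarith
    set x : ℝ := -(m * P) / (1 - m) with hx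
    have hxabs : |x| < min (-A) B := by
      rw [hx, abs_div, abs_neg, abs_mul, abs_of_pos hm0, abs_of_pos h1m, div_lt_iff₀ h1m]
      have h3 : 0 < min (-A) B := lt_min (by linarith) hB
      have h4 : m * |P| ≤ m * (|P| + 1) := by
        apply mul_le_mul_of_nonneg_left _ hm0.le
        linarith
      nlinarith
    obtain ⟨hxA, hxB⟩ := lt_min_iff.1 hxabs
    have hxA' : A < x := by
      have := neg_abs_le x
      linarith
    have hxB' : x < B := lt_of_le_of_lt (le_abs_self x) hxB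
    have hBA : 0 < B - A := by linarith
    have hq : z + x • rot ν ∈ H := by
      have h5 : z + x • rot ν = ((B - x) / (B - A)) • (z + A • rot ν) +
          ((x - A) / (B - A)) • (z + B • rot ν) := by
        have h6 : (B - x) / (B - A) + (x - A) / (B - A) = 1 := by
          field_simp
          ring
        have h7 : (B - x) / (B - A) * A + (x - A) / (B - A) * B = x := by
          field_simp
          ring
        calc z + x • rot ν = (1 : ℝ) • z + x • rot ν := by rw [one_smul]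
          _ = ((B - x) / (B - A) + (x - A) / (B - A)) • z +
              ((B - x) / (B - A) * A + (x - A) / (B - A) * B) • rot ν := by rw [h6, h7]
          _ = _ := by
            rw [smul_add, smul_add, smul_smul, smul_smul, add_smul, add_smul]
            abel
      rw [h5]
      exact hH ha hb (div_nonneg (by linarith) hBA.le) (div_nonneg (by linarith) hBA.le)
        (by field_simp; ring)
    have hcomb : z - s • ν = (1 - m) • (z + x • rot ν) + m • p := by
      have h8 : (1 - m) * x + m * P = 0 := by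
        rw [hx]; field_simp; ring
      calc z - s • ν = z - (m * h) • ν + (0 : ℝ) • rot ν := by rw [hsm, zero_smul, add_zero]
        _ = z - (m * h) • ν + ((1 - m) * x + m * P) • rot ν := by rw [h8]
        _ = (1 - m) • (z + x • rot ν) + m • p := by
          rw [hpz]
          module
    rw [hcomb]
    exact hH.combo_self_interior_mem_interior hq hp h1m.le hm0 (by ring)

end K6

open K6

theorem pr_K6 (h0 : T_K0) (_ : T_K2) : T_K6 := by
  intro G z ν hG hne hbd hz hS
  obtain ⟨a, ha, b, hb, hzab, hza, hzb, hab⟩ := h0 G z ν hbd hz hS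
  obtain ⟨hν, hzh, hS⟩ := hS
  have hcl : closure G ⊆ hull G := subset_convexHull ℝ _
  have hGi : G ⊆ interior (hull G) := interior_maximal (subset_closure.trans hcl) hG
  have hconv : Convex ℝ (hull G) := convex_convexHull ℝ _
  obtain ⟨p, hp⟩ := hne
  have hpi := hGi hp
  -- the point p is strictly below the supporting line
  have hpneg : ⟪p - z, ν⟫ < 0 := by
    obtain ⟨ε, hε, hball⟩ := Metric.isOpen_iff.1 isOpen_interior p hpi
    have h1 : p + (ε / 2) • ν ∈ hull G := by
      apply interior_subset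
      apply hball
      rw [mem_ball, dist_eq_norm, add_sub_cancel_left, norm_smul, hν, mul_one,
        Real.norm_of_nonneg (half_pos hε).le]
      linarith
    have h2 := hS _ h1
    have h3 : p + (ε / 2) • ν - z = (p - z) + (ε / 2) • ν := by abel
    rw [h3, inner_add_left, real_inner_smul_left, real_inner_self_eq_norm_sq, hν] at h2
    linarith
  have hA := decomp ν hν (a - z)
  have hB := decomp ν hν (b - z)
  have hPd := decomp ν hν (p - z)
  rw [hza, zero_smul, zero_add] at hA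
  rw [hzb, zero_smul, zero_add] at hB
  set A := ⟪a - z, rot ν⟫
  set B := ⟪b - z, rot ν⟫
  have ha' : a = z + A • rot ν := by rw [← hA]; abel
  have hb' : b = z + B • rot ν := by rw [← hB]; abel
  have hp' : p = z + (-(-⟪p - z, ν⟫)) • ν + ⟪p - z, rot ν⟫ • rot ν := by
    rw [neg_neg, add_assoc, ← hPd]; abel
  obtain ⟨α, β, hα, hβ, hαβ, hzc⟩ := hzab
  have hsum : α * A + β * B = 0 := by
    have h1 : α • (a - z) + β • (b - z) = 0 := by
      rw [smul_sub, smul_sub]
      have : α • a - α • z + (β • b - β • z) = (α • a + β • b) - (α + β) • z := by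
        rw [add_smul]; abel
      rw [this, hzc, hαβ, one_smul, sub_self]
    have h2 := congrArg (fun v : E2 => ⟪v, rot ν⟫) h1
    simpa only [inner_add_left, real_inner_smul_left, inner_zero_left] using h2
  have hAB : A ≠ B := by
    intro h
    apply hab
    rw [ha', hb', h]
  have ha1 : z + A • rot ν ∈ hull G := ha' ▸ hcl ha
  have hb1 : z + B • rot ν ∈ hull G := hb' ▸ hcl hb
  rcases lt_trichotomy A 0 with h | h | h
  · have hBpos : 0 < B := by
      by_contra hcon
      push Not at hcon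
      nlinarith
    exact aux (hull G) hconv z ν p hpi A B _ _ h hBpos (by linarith) ha1 hb1 hp'
  · exfalso
    rw [h, mul_zero, zero_add] at hsum
    rcases mul_eq_zero.1 hsum with h3 | h3
    · exact hβ.ne' h3
    · exact hAB (by rw [h, h3])
  · have hBneg : B < 0 := by
      by_contra hcon
      push Not at hcon
      nlinarith
    exact aux (hull G) hconv z ν p hpi B A _ _ hBneg h (by linarith) hb1 ha1 hp'

end Pool.Agent.Robin

end
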