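import Pool.Agent.Work.MP_4b551e_an.Bd.B06
import Pool.Agent.Work.MP_4b551e_an.Bd.B04

/-! Bundle of small proof modules (one section per former module). -/

section

/-!
# MP_4b551e_an: Z2, near-round comparison
-/

open MeasureTheory Set Metric
open scoped ENNReal NNReal Pointwise RealInnerProductSpace

namespace Pool.Agent.Robin

namespace IZ2

/-- numerical facts -/
lemma nums {ρ : ℝ} (hρ : Real.exp (Real.exp 10) ≤ ρ) :
    1000 ≤ Real.log ρ ∧ Real.log (Real.log ρ) ≤ Real.log ρ ∧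
    1000000 * Real.log ρ ≤ ρ := by
  have hρ0 : 0 < ρ := lt_of_lt_of_le (Real.exp_pos _) hρ
  have h1 : Real.exp 10 ≤ Real.log ρ := by
    rw [Real.le_log_iff_exp_le hρ0]; exact hρ
  have h2 : (1000 : ℝ) ≤ Real.exp 10 := by
    have h' := Real.pow_div_factorial_le_exp 10 (by norm_num) 8
    refine le_trans ?_ h'
    norm_num [Nat.factorial]
  have h3 : 1000 ≤ Real.log ρ := h2.trans h1
  refine ⟨h3, ?_, ?_⟩
  · have := Real.log_le_sub_one_of_pos (show 0 < Real.log ρ by linarith)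
    linarith
  · have h := Real.pow_div_factorial_le_exp (Real.log ρ) (by linarith) 4
    rw [Real.exp_log hρ0] at h
    refine le_trans ?_ h
    have h24 : ((Nat.factorial 4 : ℕ) : ℝ) = 24 := by norm_num [Nat.factorial]
    rw [h24, le_div_iff₀ (by norm_num)]
    have : (Real.log ρ) ^ 4 = (Real.log ρ) ^ 3 * Real.log ρ := by ring
    rw [this]
    have h3' : (1000 : ℝ) ^ 3 ≤ (Real.log ρ) ^ 3 := pow_le_pow_left₀ (by norm_num) h3 3
    nlinarith

/-- the amplitude is at least 2 -/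
lemma w0_lb {k W : ℝ} (hk1 : 1 < k) (hk : k ≤ 1.0005) (hW : 1 ≤ W)
    (h : (1.3 : ℝ) ≤ (k - 1) * (0.9 * W) - 0.6 * k * Real.log (0.9 * W)) : 2 ≤ W := by
  by_contra hcon
  push Not at hcon
  have h1 : (k - 1) * (0.9 * W) ≤ 0.0005 * 1.8 := by
    apply mul_le_mul (by linarith) (by linarith) (by linarith) (by norm_num)
  have h2 : -0.12 ≤ Real.log (0.9 * W) := by
    have h3 := Real.one_sub_inv_le_log_of_pos (show 0 < 0.9 * W by linarith)
    have h4 : (0.9 * W)⁻¹ ≤ 1.12 := by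
      rw [inv_le_comm₀ (by linarith) (by norm_num)]
      have : (1.12 : ℝ)⁻¹ ≤ 0.9 := by norm_num
      linarith
    linarith
  have h3 : -(0.6 * k * Real.log (0.9 * W)) ≤ 0.6 * 1.0005 * 0.12 := by
    have : -(Real.log (0.9 * W)) ≤ 0.12 := by linarith
    have e : -(0.6 * k * Real.log (0.9 * W)) = 0.6 * k * (-(Real.log (0.9 * W))) := by ring
    rw [e]
    calc 0.6 * k * (-(Real.log (0.9 * W))) ≤ 0.6 * k * 0.12 := by
          apply mul_le_mul_of_nonneg_left this (by linarith)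
      _ ≤ 0.6 * 1.0005 * 0.12 := by nlinarith
  linarith

/-- the comparison of the two prices -/
lemma price {l ρ R R0 r r0 qw qv a Ra Rb : ℝ} (hl : 1000 ≤ l) (hρ : 0 < ρ)
    (ha : 0 ≤ a) (ha' : a ≤ 0.000004 * ρ ^ 2) (hR0 : 0.89 * ρ ≤ R0) (hr0 : 0.88 * ρ ≤ r0)
    (hr : 0.99 * ρ ≤ r) (hrR : r < R) (e1 : R ^ 2 - r ^ 2 = a) (e2 : r0 ^ 2 = R0 ^ 2 - a)
    (hqv1 : 0.45 * l ≤ qv) (hqv2 : qv ≤ 0.6 * l) (hRab : Ra ≤ Rb)
    (hR : R = min (max R0 Ra) Rb)
    (hA : R = Ra → qw ≤ -l) (hB : R = Rb → -(0.4 * l) ≤ qw) :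
    0 ≤ qw * (R0 - R) + qv * (r0 - r) := by
  have hr0p : 0 < r0 := by nlinarith
  have hrp : 0 < r := by nlinarith
  have hR0p : 0 < R0 := by nlinarith
  have hRp : 0 < R := by linarith
  have key : (r0 - r) * (r0 + r) = (R0 - R) * (R0 + R) := by
    have : (r0 - r) * (r0 + r) = r0 ^ 2 - r ^ 2 := by ring
    rw [this, e2]
    have : (R0 - R) * (R0 + R) = R0 ^ 2 - R ^ 2 := by ring
    rw [this]
    linarith
  have hr0R0 : r0 ≤ R0 := by
    apply le_of_sq_le_sq _ hR0p.le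
    rw [e2]; linarith
  rcases lt_or_ge R0 Ra with h | h
  · -- case (c)
    have hRe : R = Ra := by
      rw [hR, max_eq_right h.le, min_eq_left hRab]
    have hq := hA hRe
    have hd : 0 < R - R0 := by rw [hRe]; linarith
    -- (R + R0) ≤ 1.1 (r + r0)
    have h1 : R - r ≤ 0.01 * ρ := by
      have : (R - r) * (R + r) = a := by rw [← e1]; ring
      by_contra hc
      push Not at hc
      have h2 : 0.01 * ρ * (R + r) < (R - r) * (R + r) :=
        mul_lt_mul_of_pos_right hc (by linarith)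
      have h3 : 0.01 * ρ * (1.98 * ρ) ≤ 0.01 * ρ * (R + r) := by
        apply mul_le_mul_of_nonneg_left _ (by positivity)
        linarith
      nlinarith
    have h1' : R0 - r0 ≤ 0.01 * ρ := by
      have : (R0 - r0) * (R0 + r0) = a := by
        have : (R0 - r0) * (R0 + r0) = R0 ^ 2 - r0 ^ 2 := by ring
        rw [this, e2]; ring
      by_contra hc
      push Not at hc
      have h2 : 0.01 * ρ * (R0 + r0) < (R0 - r0) * (R0 + r0) :=
        mul_lt_mul_of_pos_right hc (by linarith)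
      have h3 : 0.01 * ρ * (1.77 * ρ) ≤ 0.01 * ρ * (R0 + r0) := by
        apply mul_le_mul_of_nonneg_left _ (by positivity)
        linarith
      nlinarith
    have h2 : R + R0 ≤ 1.1 * (r + r0) := by linarith
    have h3 : r - r0 ≤ 1.1 * (R - R0) := by
      have e : (r - r0) * (r + r0) = (R - R0) * (R + R0) := by linarith
      have h4 : (R - R0) * (R + R0) ≤ (R - R0) * (1.1 * (r + r0)) :=
        mul_le_mul_of_nonneg_left h2 hd.le
      have h5 : (r - r0) * (r + r0) ≤ 1.1 * (R - R0) * (r + r0) := by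
        rw [e]; linarith
      exact le_of_mul_le_mul_right h5 (by linarith)
    have h4 : 0 ≤ r - r0 := by
      have e : (r - r0) * (r + r0) = (R - R0) * (R + R0) := by linarith
      by_contra hc
      push Not at hc
      have h5 : (r - r0) * (r + r0) < 0 := mul_neg_of_neg_of_pos hc (by linarith)
      have h6 : 0 ≤ (R - R0) * (R + R0) := mul_nonneg hd.le (by linarith)
      linarith
    have h5 : l * (R - R0) ≤ (-qw) * (R - R0) := mul_le_mul_of_nonneg_right (by linarith) hd.le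
    have h6 : qv * (r - r0) ≤ 0.6 * l * (1.1 * (R - R0)) :=
      mul_le_mul hqv2 h3 h4 (by linarith)
    have h7 : 0 ≤ l * (R - R0) := mul_nonneg (by linarith) hd.le
    have e : qw * (R0 - R) + qv * (r0 - r) = (-qw) * (R - R0) - qv * (r - r0) := by ring
    rw [e]
    have e' : 0.6 * l * (1.1 * (R - R0)) = 0.66 * (l * (R - R0)) := by ring
    rw [e'] at h6
    linarith
  · rcases lt_or_ge Rb R0 with h' | h'
    · -- case (b)
      have hRe : R = Rb := by
        rw [hR, max_eq_left h, min_eq_right h'.le]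
      have hq := hB hRe
      have hd : 0 < R0 - R := by rw [hRe]; linarith
      have h1 : R0 - R ≤ r0 - r := by
        have h2 : (R0 - R) * (r0 + r) ≤ (r0 - r) * (r0 + r) := by
          rw [key]
          apply mul_le_mul_of_nonneg_left _ hd.le
          linarith
        exact le_of_mul_le_mul_right h2 (by linarith)
      have h2 : -(0.4 * l) * (R0 - R) ≤ qw * (R0 - R) := mul_le_mul_of_nonneg_right hq hd.le
      have h3 : 0.45 * l * (R0 - R) ≤ qv * (r0 - r) :=
        mul_le_mul hqv1 h1 hd.le (by linarith)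
      have h4 : 0 ≤ l * (R0 - R) := mul_nonneg (by linarith) hd.le
      nlinarith
    · -- case (a)
      have hRe : R = R0 := by
        rw [hR, max_eq_left h, min_eq_left h']
      have h1 : r0 = r := by
        have h2 : r0 ^ 2 = r ^ 2 := by rw [e2, ← hRe]; linarith
        nlinarith
      rw [hRe, h1]
      simp

end IZ2

open IZ2 in
theorem prf_Z2 (hH3 : S_H3) (hM2 : S_M2) (hE2 : S_E2) (hB3e : S_B3e) (hB3a : S_B3a)
    (hK5 : T_K5) (hK14 : T_K14) : S_Z2 := by
  intro hO hN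
  obtain ⟨L1, hL1, hH3⟩ := hH3
  obtain ⟨L2, hL2, hM2⟩ := hM2
  obtain ⟨L3, hL3, hN⟩ := hN
  refine ⟨max (max L1 L2) (max L3 (Real.exp (Real.exp 10))), ?_, ?_⟩
  · exact lt_max_of_lt_left (lt_max_of_lt_left hL1)
  intro k A ρ hpar hρ Ω hΩ hvol
  have hρ1 : L1 ≤ ρ := (le_max_left _ _).trans ((le_max_left _ _).trans hρ)
  have hρ2 : L2 ≤ ρ := (le_max_right _ _).trans ((le_max_left _ _).trans hρ)
  have hρ3 : L3 ≤ ρ := (le_max_left _ _).trans ((le_max_right _ _).trans hρ)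
  have hρ4 : Real.exp (Real.exp 10) ≤ ρ := (le_max_right _ _).trans ((le_max_right _ _).trans hρ)
  by_contra hcon
  obtain ⟨hl1, hll2, hlρ⟩ := nums hρ4
  have hmac : per (fill Ω) + 2 * Real.pi * Real.sqrt (area (fill Ω) / Real.pi) <
      4 * Real.pi * ρ * (1 + Real.log (Real.log ρ) / Real.log ρ) := by
    by_contra hc
    push Not at hc
    exact hcon (hM2 k A ρ hpar hρ2 Ω hΩ hvol hc)
  obtain ⟨o, ρ₁, ρ₂, s, hb1, hb2, hρ12, hρ1lb, hρ1ub, hs0, hs, hdep⟩ :=
    hN k A ρ hpar hρ3 Ω hΩ hvol hcon hmac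
  have hpar' := hpar
  obtain ⟨hk1, hkρ, hlow, hup, hlev⟩ := hpar'
  set l := Real.log ρ with hl
  set ll := Real.log l with hll
  have hρ0 : 0 < ρ := lt_of_lt_of_le (Real.exp_pos _) hρ4
  have hπ : 0 < Real.pi := Real.pi_pos
  have hl0 : 0 < l := by linarith
  have hρbig : 1000000000 ≤ ρ := by linarith
  have hA : 0 < A := by
    refine lt_of_lt_of_le ?_ hlow
    have : 0 < l - 3 := by linarith
    positivity
  have hk2 : k ^ 2 = 1 + 1 / ρ := by
    have : k ^ 2 - 1 = 1 / ρ := by rw [eq_div_iff hρ0.ne']; linarith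
    linarith
  have hk2' : k ^ 2 ≤ 1.001 := by
    rw [hk2]
    have : 1 / ρ ≤ 1 / 1000 := one_div_le_one_div_of_le (by norm_num) (by linarith)
    linarith
  have hk3 : k ≤ 1.0005 := by nlinarith
  -- the filled domain
  set G := fill Ω with hG
  have hGadm : Admissible G := hB3e Ω hΩ
  have hGc : IsConnected Gᶜ := by
    rw [hG, fill, compl_compl]; exact (hB3a Ω hΩ).1
  have hsρ : s ≤ 0.001 * ρ := by
    refine hs.trans ?_
    rw [div_le_iff₀ (by positivity)]
    have : 1 * ρ ≤ 0.001 * 20 * l * ρ := mul_le_mul_of_nonneg_right (by linarith) hρ0.le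
    linarith
  have hareaG : Real.pi * (ρ₁ - s) ^ 2 ≤ area G :=
    hK14 G o ρ₁ s hGadm hb1 hs0 (by linarith) hdep (fun Q hQ => hK5 G Q hGadm hGc hQ)
  set aG := area G with haG
  have haG0 : 0 ≤ aG := ENNReal.toReal_nonneg
  set R0 := Real.sqrt (aG / Real.pi) with hR0
  have hR0n : 0 ≤ R0 := Real.sqrt_nonneg _
  have hR0sq : R0 ^ 2 = aG / Real.pi := Real.sq_sqrt (div_nonneg haG0 hπ.le)
  have hR0lb : 0.89 * ρ ≤ R0 := by
    have h1 : ρ₁ - s ≤ R0 := by
      apply le_of_sq_le_sq _ hR0n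
      rw [hR0sq, le_div_iff₀ hπ]
      linarith
    linarith
  set a := A / Real.pi with ha
  have ha0 : 0 ≤ a := by positivity
  have hAπ : a ≤ 2 * ρ * (l + ll / 2 + 3) := by
    rw [ha, div_le_iff₀ hπ]
    calc A ≤ 2 * Real.pi * ρ * (l + ll / 2 + 3) := hup
      _ = 2 * ρ * (l + ll / 2 + 3) * Real.pi := by ring
  have hAπ' : a ≤ 0.000004 * ρ ^ 2 := by
    have h1 : 2 * ρ * (l + ll / 2 + 3) ≤ 2 * ρ * (2 * l) := by
      apply mul_le_mul_of_nonneg_left _ (by positivity)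
      linarith
    have h2 : ρ * (1000000 * l) ≤ ρ * ρ := mul_le_mul_of_nonneg_left hlρ hρ0.le
    nlinarith
  have hdiff : (0.88 * ρ) ^ 2 ≤ R0 ^ 2 - a := by
    have h1 : (0.89 * ρ) ^ 2 ≤ R0 ^ 2 := pow_le_pow_left₀ (by positivity) hR0lb 2
    nlinarith [sq_nonneg ρ]
  set r0 := Real.sqrt (R0 ^ 2 - a) with hr0
  have hr0sq : r0 ^ 2 = R0 ^ 2 - a := Real.sq_sqrt (le_trans (sq_nonneg _) hdiff)
  have hr0n : 0 ≤ r0 := Real.sqrt_nonneg _
  have hr0lb : 0.88 * ρ ≤ r0 := by
    apply le_of_sq_le_sq _ hr0n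
    rw [hr0sq]; exact hdiff
  -- the comparison annulus
  set Ra := ρ * (1 + 1 / (4 * l)) with hRa
  set Rb := ρ * (1 + 3 / (5 * l)) with hRb
  have hRab : Ra ≤ Rb := by
    apply mul_le_mul_of_nonneg_left _ hρ0.le
    have : 1 / (4 * l) ≤ 3 / (5 * l) := by
      rw [div_le_div_iff₀ (by positivity) (by positivity)]
      linarith
    linarith
  set R := min (max R0 Ra) Rb with hR
  have hRaR : Ra ≤ R := le_min (le_max_right _ _) hRab
  have hRRb : R ≤ Rb := min_le_right _ _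
  obtain ⟨r, w, v, hr, hrR, hann, hr99, hσ, hq4, hq3, hi1, hi2, h13, hva, hvm, hvq1, hvq2, hT,
    hRA, hRB⟩ := hH3 k A ρ R hpar hρ1 hRaR hRRb
  have hbase : BaseHyp k w ρ₁ := by
    refine ⟨hk1, by linarith, by linarith, ?_, by linarith, by linarith, ?_, hi2, ?_⟩
    · apply w0_lb hk1 hk3 _ h13
      have := w.one_le 0
      nlinarith
    · refine hi1.trans ?_
      have h1 : (0.9 * ρ) ^ 2 ≤ ρ₁ ^ 2 := pow_le_pow_left₀ (by positivity) (by linarith) 2
      have h2 : ρ * (1000000 * l) ≤ ρ * ρ := mul_le_mul_of_nonneg_left hlρ hρ0.le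
      nlinarith
    · have hkk : 0 ≤ k ^ 2 - 1 := by
        rw [hk2]
        have : 0 < 1 / ρ := by positivity
        linarith
      calc ρ₁ * (k ^ 2 - 1) ≤ 11 / 10 * ρ * (k ^ 2 - 1) :=
            mul_le_mul_of_nonneg_right hρ1ub hkk
        _ = 11 / 10 * (ρ * (k ^ 2 - 1)) := by ring
        _ ≤ 2 := by rw [hkρ]; norm_num
  have hqs : -w.q k * s ≤ ρ₁ / 4 := by
    have h1 : -w.q k * s ≤ 3 * l * (ρ / (20 * l)) := by
      apply mul_le_mul (by linarith) hs hs0 (by linarith)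
    have h2 : 3 * l * (ρ / (20 * l)) = 0.15 * ρ := by
      field_simp
      norm_num
    linarith
  have hV := hO k w G o ρ₁ ρ₂ s hGadm hGc hbase hb1 hb2 hρ12 (by linarith) hs0 hqs hdep (by
    have e1 : (9 : ℝ) / 10 = 0.9 := by norm_num
    have e2 : (3 : ℝ) / 5 = 0.6 := by norm_num
    rw [e1, e2]
    linarith)
  have harea : area (fill Ω) = A + Real.pi * r0 ^ 2 := by
    rw [hr0sq, hR0sq, ha]
    have : Real.pi ≠ 0 := hπ.ne'
    rw [← hG, ← haG]
    field_simp
    ring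
  have hX := price (qw := w.q k) (qv := v.q k) hl1 hρ0 ha0 hAπ' hR0lb hr0lb hr99 hrR (by
    rw [ha, eq_div_iff hπ.ne']; linarith) hr0sq hvq1 hvq2 hRab hR hRA hRB
  apply hcon
  refine hE2 k A r0 _ Ω v hk1.le hΩ hA hvol (by linarith) harea hva (by linarith) ?_ hV ?_
  · have h1 : 0.88 * ρ * 450 ≤ r0 * v.q k := by
      apply mul_le_mul hr0lb (by linarith) (by norm_num) hr0n
    linarith
  · have h2 := mul_nonneg (show 0 ≤ 2 * Real.pi by positivity) hX
    have e : k ^ 2 * A + -2 * Real.pi * (w.q k * R0 + w.m k) - 2 * Real.pi * (r0 * v.q k - v.m k) =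
      (k ^ 2 * A - 2 * Real.pi * (R * w.q k + w.m k) - 2 * Real.pi * (r * v.q k - v.m k)) -
        2 * Real.pi * (w.q k * (R0 - R) + v.q k * (r0 - r)) := by ring
    rw [e]
    linarith

end Pool.Agent.Robin

end

section

/-!
# MP_4b551e_an: structural part (bumps, wedges, circumscribed polygons, line count, depth)
(helper35)
-/

open MeasureTheory Set Metric
open scoped ENNReal NNReal Pointwise RealInnerProductSpace

namespace Pool.Agent.Robin

/-! ### Competitors and bumps -/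

/-- A competitor. -/
structure Cp (k A ρ : ℝ) (Ω : Set E2) : Prop where
  par : Par k A ρ
  adm : Admissible Ω
  vol : volume Ω = ENNReal.ofReal A
  comp : ¬ (lam (-1) Ω ≤ ((-(k ^ 2) : ℝ) : EReal))

/-- Bump property: if a component of `G` minus a closed disc lies in a sector of angle at most
`π / 2` seen from the centre and inside the disc of radius `(1 - 1 / log ρ) ρ`, then it lies in
the disc of radius `ρ₀ + 2 log ρ`. -/
def Bump (ρ : ℝ) (G : Set E2) : Prop := ∀ (y x₀ : E2) (ρ₀ a b : ℝ), 0 ≤ ρ₀ → a < b →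
  b ≤ a + Real.pi / 2 → x₀ ∈ G \ closedBall y ρ₀ →
  connectedComponentIn (G \ closedBall y ρ₀) x₀ ⊆ cone y a b →
  (∀ x ∈ connectedComponentIn (G \ closedBall y ρ₀) x₀,
    ‖x - y‖ ≤ (1 - 1 / Real.log ρ) * ρ) →
  ‖x₀ - y‖ ≤ ρ₀ + 2 * Real.log ρ

/-- Restriction of a Lipschitz function to a component. -/
def S_N1 : Prop := ∀ (G K : Set E2) (x₀ : E2) (φ : E2 → ℝ), Admissible G → IsClosed K →
  x₀ ∈ G \ K → (∃ C : ℝ≥0, LipschitzWith C φ) → (∀ x, 0 ≤ φ x) → (∀ x ∈ K, φ x = 0) →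
  ∃ ψ : E2 → ℝ, (∃ C : ℝ≥0, LipschitzWith C ψ) ∧
    (∀ x ∈ connectedComponentIn (G \ K) x₀, ψ x = φ x) ∧
    (∀ x ∈ G \ connectedComponentIn (G \ K) x₀, ψ x = 0)

/-- For a competitor the quadratic form of the filled domain is non-negative. -/
def S_N2 : Prop := ∀ (k A : ℝ) (Ω : Set E2), 0 < A → Admissible Ω →
  volume Ω = ENNReal.ofReal A → ¬ (lam (-1) Ω ≤ ((-(k ^ 2) : ℝ) : EReal)) →
  ∀ u : E2 → ℝ, (∃ C : ℝ≥0, LipschitzWith C u) → 0 ≤ Qk k (fill Ω) u

/-- Components of `G \ K`. -/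
def S_N3 : Prop := ∀ (G K U : Set E2) (x₀ : E2), IsOpen G → IsConnected G → IsClosed K →
  x₀ ∈ G \ K → U = connectedComponentIn (G \ K) x₀ →
  IsOpen U ∧ IsConnected U ∧ x₀ ∈ U ∧ U ⊆ G \ K ∧ frontier U \ K ⊆ frontier G ∧
  (U = G ∨ (closure U ∩ (K ∩ G)).Nonempty)

/-- Radial lower bound for the boundary integral. -/
def S_N4 : Prop := ∀ (U : Set E2) (y : E2) (a b a₀ M : ℝ), IsOpen U → 0 ≤ a₀ → a < b →
  b ≤ a + Real.pi / 2 → U ⊆ cone y a b → (∀ x ∈ U, a₀ < ‖x - y‖ ∧ ‖x - y‖ ≤ M) →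
  ∫⁻ x in U, ENNReal.ofReal (2 * (Real.exp (‖x - y‖ - a₀) - 1) * Real.exp (‖x - y‖ - a₀) +
      (Real.exp (‖x - y‖ - a₀) - 1) ^ 2 / ‖x - y‖) ≤
    ∫⁻ x in frontier U ∩ {x | a₀ < ‖x - y‖},
      ENNReal.ofReal ((Real.exp (‖x - y‖ - a₀) - 1) ^ 2) ∂(μH[1])

/-- Circular lower bound for the boundary integral. -/
def S_N5 : Prop := ∀ (U : Set E2) (y : E2) (a b a₀ M : ℝ), IsOpen U → IsConnected U →
  Bornology.IsBounded U → 0 ≤ a₀ → a₀ ≤ M → a < b → b ≤ a + Real.pi / 2 → U ⊆ cone y a b →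
  (∀ x ∈ U, a₀ < ‖x - y‖) → (∀ ε > 0, ∃ x ∈ U, ‖x - y‖ < a₀ + ε) → (∃ x ∈ U, M ≤ ‖x - y‖) →
  ENNReal.ofReal (2 * ∫ r in a₀..M, (Real.exp (r - a₀) - 1) ^ 2) ≤
    ∫⁻ x in frontier U ∩ {x | a₀ < ‖x - y‖},
      ENNReal.ofReal ((Real.exp (‖x - y‖ - a₀) - 1) ^ 2) ∂(μH[1])

/-- One bump: core estimate for a component `U` of `G` minus the closed disc of radius `ρ₀`
(or `U = G`), `a₀` is the infimum of the distance. -/
def S_N6 : Prop := ∃ L₀ : ℝ, 1 < L₀ ∧ ∀ (k ρ : ℝ) (G U : Set E2) (y x₀ : E2)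
  (a b a₀ : ℝ) (u : E2 → ℝ), 1 < k → ρ * (k ^ 2 - 1) = 1 → L₀ ≤ ρ → Admissible G →
  IsOpen U → IsConnected U → U ⊆ G → a < b → b ≤ a + Real.pi / 2 → U ⊆ cone y a b → 0 ≤ a₀ →
  (∀ x ∈ U, a₀ < ‖x - y‖ ∧ ‖x - y‖ ≤ (1 - 1 / Real.log ρ) * ρ) →
  (∀ ε > 0, ∃ x ∈ U, ‖x - y‖ < a₀ + ε) → x₀ ∈ U → a₀ + 2 * Real.log ρ < ‖x₀ - y‖ →
  frontier U ∩ {x | a₀ < ‖x - y‖} ⊆ frontier G →
  (∃ C : ℝ≥0, LipschitzWith C u) → (∀ x ∈ U, u x = Real.exp (‖x - y‖ - a₀) - 1) →
  (∀ᵐ x ∂volume, x ∈ G \ U → fderiv ℝ u x = 0 ∧ u x = 0) →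
  Qk k G u < 0

/-- Bump lemma. -/
def S_BL : Prop := ∃ L₀ : ℝ, 1 < L₀ ∧ ∀ (k A ρ : ℝ) (Ω : Set E2), Cp k A ρ Ω → L₀ ≤ ρ →
  Bump ρ (fill Ω)

/-- Wedge lemma: two supporting lines with normals `dirv θ`, `dirv (θ + ψ)` meeting at `v`. -/
def S_W : Prop := ∃ L₀ : ℝ, 1 < L₀ ∧ ∀ (ρ : ℝ) (G : Set E2), L₀ ≤ ρ → IsOpen G →
  IsConnected G → Bump ρ G → ∀ (θ ψ h h' : ℝ) (v p : E2), 0 < ψ → ψ ≤ Real.pi / 4 →
  (∀ x ∈ closure G, ⟪x, dirv θ⟫ ≤ h) → (∀ x ∈ closure G, ⟪x, dirv (θ + ψ)⟫ ≤ h') →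
  ⟪v, dirv θ⟫ = h → ⟪v, dirv (θ + ψ)⟫ = h' → p ∈ closure G →
  (⟪p, dirv θ⟫ = h → (1 - 1 / Real.log ρ) * ρ * Real.sin (ψ / 2) -
      3 * Real.sqrt (ρ * Real.log ρ) ≤ ⟪v - p, rot (dirv θ)⟫) ∧
  (⟪p, dirv (θ + ψ)⟫ = h' → (1 - 1 / Real.log ρ) * ρ * Real.sin (ψ / 2) -
      3 * Real.sqrt (ρ * Real.log ρ) ≤ ⟪p - v, rot (dirv (θ + ψ))⟫)

/-! ### Circumscribed polygons -/

/-- The circumscribed polygon with `2 n` equally spaced normals and its contact points
(the first contact point with respect to the counterclockwise tangent direction). -/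
structure Circ (G : Set E2) (n : ℕ) (h : ℤ → ℝ) (p : ℤ → E2) : Prop where
  n_le : 4 ≤ n
  per_h : ∀ i, h (i + (2 * n : ℕ)) = h i
  per_p : ∀ i, p (i + (2 * n : ℕ)) = p i
  mem : ∀ i, p i ∈ closure G
  touch : ∀ i, ⟪p i, nv (2 * n) i⟫ = h i
  le : ∀ i, ∀ x ∈ closure G, ⟪x, nv (2 * n) i⟫ ≤ h i
  left : ∀ i, ∀ x ∈ closure G, ⟪x, nv (2 * n) i⟫ = h i →
    ⟪p i, tv (2 * n) i⟫ ≤ ⟪x, tv (2 * n) i⟫

/-- Length from the contact point `p i` to the vertex `i`. -/
noncomputable def al (n : ℕ) (h : ℤ → ℝ) (p : ℤ → E2) (i : ℤ) : ℝ :=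
  ⟪vx (2 * n) h i - p i, tv (2 * n) i⟫

/-- Length from the vertex `i` to the contact point `p (i + 1)`. -/
noncomputable def bl (n : ℕ) (h : ℤ → ℝ) (p : ℤ → E2) (i : ℤ) : ℝ :=
  ⟪p (i + 1) - vx (2 * n) h i, tv (2 * n) (i + 1)⟫

def S_R1 : Prop := ∀ (G : Set E2) (n : ℕ), IsOpen G → G.Nonempty → Bornology.IsBounded G →
  4 ≤ n → ∃ (h : ℤ → ℝ) (p : ℤ → E2), Circ G n h p

def S_R2 : Prop := ∀ (G : Set E2) (n : ℕ) (h : ℤ → ℝ) (p : ℤ → E2), Circ G n h p → ∀ i,
  el (2 * n) h i = al n h p i + bl n h p (i - 1) ∧ 0 ≤ al n h p i ∧ 0 ≤ bl n h p i ∧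
  vx (2 * n) h i = p i + al n h p i • tv (2 * n) i ∧
  p (i + 1) = vx (2 * n) h i + bl n h p i • tv (2 * n) (i + 1) ∧
  al n h p (i + (2 * n : ℕ)) = al n h p i ∧ bl n h p (i + (2 * n : ℕ)) = bl n h p i

/-- Sum of the support numbers. -/
def S_R3 : Prop := ∀ (N : ℕ) (c : ℤ → ℝ), 8 ≤ N → (∀ i, c (i + N) = c i) →
  ∑ i ∈ Finset.range N, el N c i =
    2 * Real.tan (Real.pi / N) * ∑ i ∈ Finset.range N, c i ∧
  ∀ (o : E2) (r : ℝ),
    (∀ i, el N (fun j => c j - ⟪o, nv N j⟫ - r) i = el N c i - 2 * r * Real.tan (Real.pi / N)) ∧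
    ∑ i ∈ Finset.range N, ⟪o, nv N i⟫ = 0

/-- Closed polygons. -/
def S_R4 : Prop := ∀ (N : ℕ) (c : ℤ → ℝ), 8 ≤ N → (∀ i, c (i + N) = c i) →
  (∀ i, 0 ≤ el N c i) →
  (∀ i, (el N c i + el N c (i + 1)) * (1 + Real.cos (Real.pi / N)) ≤
    ∑ j ∈ Finset.range N, el N c j) ∧
  ∃ o : E2, ∀ j, ⟪o, nv N j⟫ ≤ c j ∧
    c j - ⟪o, nv N j⟫ ≤ (∑ j ∈ Finset.range N, el N c j) / 2

/-- Area of the hull. -/
def S_R5 : Prop := ∀ (G : Set E2) (n : ℕ) (h : ℤ → ℝ) (p : ℤ → E2) (o : E2), IsOpen G →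
  Bornology.IsBounded G → Circ G n h p → (∀ i, 0 < h i - ⟪o, nv (2 * n) i⟫) →
  (∑ i ∈ Finset.range (2 * n), (h i - ⟪o, nv (2 * n) i⟫) * el (2 * n) h i) / 2 -
      Real.sin (Real.pi / n) * ∑ i ∈ Finset.range (2 * n), al n h p i * bl n h p i ≤
    area (hull G)

/-- Inner and outer discs. -/
def S_R6 : Prop := ∀ (G : Set E2) (n : ℕ) (h : ℤ → ℝ) (p : ℤ → E2) (o : E2) (r D : ℝ),
  IsOpen G → Bornology.IsBounded G → Circ G n h p → 0 ≤ r → 0 ≤ D →
  (∀ i, r ≤ h i - ⟪o, nv (2 * n) i⟫ ∧ h i - ⟪o, nv (2 * n) i⟫ ≤ r + D) →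
  hull G ⊆ closedBall o ((r + D) / Real.cos (Real.pi / (2 * n))) ∧
  closedBall o (r * Real.cos (Real.pi / n) -
    Real.sin (Real.pi / n) * ((r + D) / Real.cos (Real.pi / (2 * n)))) ⊆ hull G

/-- Monotonicity of contact points. -/
def S_R7 : Prop := ∀ (z z' : E2) (θ θ' m : ℝ), θ < θ' → θ' < θ + Real.pi →
  θ' - Real.pi / 2 ≤ m → m ≤ θ + Real.pi / 2 → ⟪z' - z, dirv θ⟫ ≤ 0 →
  0 ≤ ⟪z' - z, dirv θ'⟫ → 0 ≤ ⟪z' - z, rot (dirv m)⟫

/-- Corner lemma: a segment on a supporting line. -/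
def S_R8 : Prop := ∀ (G : Set E2) (n : ℕ) (h : ℤ → ℝ) (p : ℤ → E2) (x x' ν : E2), IsOpen G →
  Bornology.IsBounded G → Circ G n h p → Sup G x ν → x' ∈ hull G → ⟪x' - x, ν⟫ = 0 →
  ∃ i ∈ Finset.range (2 * n), ‖x' - x‖ ≤ al n h p i + bl n h p i

/-- Corner lemma: sum over the pockets. -/
def S_R9 : Prop := ∀ (G : Set E2) (n : ℕ) (h : ℤ → ℝ) (p : ℤ → E2) (F : Finset (Set E2)),
  Admissible G → IsConnected Gᶜ → Circ G n h p → (∀ Q ∈ F, Pocket G Q) →
  (∀ Q ∈ F, μH[1] (mouth G Q) < ⊤) ∧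
  (∀ Q ∈ F, ∃ i ∈ Finset.range (2 * n),
    (μH[1] (mouth G Q)).toReal ≤ al n h p i + bl n h p i) ∧
  ∑ Q ∈ F, ((μH[1] (mouth G Q)).toReal) ^ 2 ≤
    ∑ i ∈ Finset.range (2 * n), (al n h p i + bl n h p i) ^ 2

/-! ### Line count -/

/-- Projection in the direction `ν`. -/
def pj (ν : E2) (X : Set E2) : Set ℝ := (fun x : E2 => ⟪x, ν⟫) '' X

/-- Number of boundary points on almost every line. -/
def S_L1 : Prop := ∀ (G : Set E2) (ν : E2) (F : Finset (Set E2)), Admissible G → ‖ν‖ = 1 →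
  (∀ Q ∈ F, Pocket G Q) → ∀ᵐ c : ℝ, c ∈ pj ν G →
  (2 : ℝ≥0∞) + 2 * ∑ Q ∈ F, (pj ν Q \ pj ν (mouth G Q)).indicator (fun _ => (1 : ℝ≥0∞)) c ≤
    crs (frontier G) ν c

/-- Integrated line count. -/
def S_L2 : Prop := ∀ (G : Set E2) (n : ℕ) (F : Finset (Set E2)), Admissible G →
  IsConnected Gᶜ → 2 ≤ n → (∀ Q ∈ F, Pocket G Q) →
  2 * Real.sin (Real.pi / (2 * n)) * (∑ j ∈ Finset.range n,
      (volume (pj (dirv (j * Real.pi / n)) G)).toReal) +
    ∑ Q ∈ F, (2 * Real.sin (Real.pi / (2 * n)) * (∑ j ∈ Finset.range n,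
      (volume (pj (dirv (j * Real.pi / n)) Q)).toReal) - 2 * (μH[1] (mouth G Q)).toReal) ≤
    per G

/-- Isoperimetric inequality for the widths. -/
def S_L3 : Prop := ∀ (Q : Set E2) (n : ℕ), IsOpen Q → IsConnected Q →
  Bornology.IsBounded Q → 2 ≤ n →
  2 * Real.cos (Real.pi / (2 * n)) * Real.sqrt (Real.pi * area Q) ≤
    2 * Real.sin (Real.pi / (2 * n)) * ∑ j ∈ Finset.range n,
      (volume (pj (dirv (j * Real.pi / n)) Q)).toReal

/-- Widths and support numbers. -/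
def S_L4 : Prop := ∀ (G : Set E2) (n : ℕ) (h : ℤ → ℝ) (p : ℤ → E2), IsOpen G →
  IsConnected G → Bornology.IsBounded G → Circ G n h p →
  ∑ j ∈ Finset.range n, (volume (pj (dirv (j * Real.pi / n)) G)).toReal =
    ∑ i ∈ Finset.range (2 * n), h i

/-- The elementary minimisation. -/
def S_L5 : Prop := ∀ B m T : ℝ, 0 ≤ B → 0 ≤ m → 0 ≤ T →
  Real.sqrt (B + m ^ 2) - m ≤ T + Real.sqrt (B - 2 * m * T - T ^ 2)

/-- Macroscopic inequality in terms of the circumscribed polygon: `M` bounds the mouths,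
`S₂` the sum of the squares of the mouths. -/
def S_L6 : Prop := ∀ (G : Set E2) (n : ℕ) (h : ℤ → ℝ) (p : ℤ → E2) (M S₂ : ℝ),
  Admissible G → IsConnected Gᶜ → Circ G n h p → 0 ≤ M →
  (∀ i ∈ Finset.range (2 * n), al n h p i + bl n h p i ≤ M) →
  ∑ i ∈ Finset.range (2 * n), (al n h p i + bl n h p i) ^ 2 ≤ S₂ →
  0 ≤ Real.pi * (Real.cos (Real.pi / (2 * n))) ^ 2 * area (hull G) - S₂ →
  Real.cos (Real.pi / (2 * n)) * (∑ i ∈ Finset.range (2 * n), el (2 * n) h i) - 2 * M +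
    2 * Real.sqrt (Real.pi * (Real.cos (Real.pi / (2 * n))) ^ 2 * area (hull G) - S₂ + M ^ 2) ≤
    per G + 2 * Real.pi * Real.sqrt (area G / Real.pi)

/-! ### Near-round hulls -/

/-- The number `n` used for a given `ρ`. -/
noncomputable def nn (ρ : ℝ) : ℕ := ⌈(Real.log ρ) ^ 2⌉₊

/-- `ρ'`. -/
noncomputable def rp (ρ : ℝ) : ℝ :=
  ((1 - 1 / Real.log ρ) * ρ * Real.sin (Real.pi / (2 * nn ρ)) -
    3 * Real.sqrt (ρ * Real.log ρ)) / Real.tan (Real.pi / (2 * nn ρ))

/-- Perimeter of the core polygon. -/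
noncomputable def LD (ρ : ℝ) (h : ℤ → ℝ) : ℝ :=
  (∑ i ∈ Finset.range (2 * nn ρ), el (2 * nn ρ) h i) -
    4 * nn ρ * rp ρ * Real.tan (Real.pi / (2 * nn ρ))

/-- Wedge lemma for the circumscribed polygon, and its consequences. -/
def S_X1 : Prop := ∃ L₀ : ℝ, 1 < L₀ ∧ ∀ (ρ : ℝ) (G : Set E2) (h : ℤ → ℝ) (p : ℤ → E2),
  L₀ ≤ ρ → Admissible G → Bump ρ G → Circ G (nn ρ) h p →
  (1 - 2 / Real.log ρ) * ρ ≤ rp ρ ∧ rp ρ ≤ ρ ∧ 0 ≤ LD ρ h ∧
  (∀ i, rp ρ * Real.tan (Real.pi / (2 * nn ρ)) ≤ al (nn ρ) h p i ∧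
    rp ρ * Real.tan (Real.pi / (2 * nn ρ)) ≤ bl (nn ρ) h p i) ∧
  (∀ i, 2 * rp ρ * Real.tan (Real.pi / (2 * nn ρ)) ≤ el (2 * nn ρ) h i) ∧
  (∀ i, al (nn ρ) h p i + bl (nn ρ) h p i ≤
    2 * rp ρ * Real.tan (Real.pi / (2 * nn ρ)) +
      LD ρ h / (1 + Real.cos (Real.pi / (2 * nn ρ)))) ∧
  ∑ i ∈ Finset.range (2 * nn ρ), (al (nn ρ) h p i + bl (nn ρ) h p i -
    2 * rp ρ * Real.tan (Real.pi / (2 * nn ρ))) = LD ρ h ∧
  ∃ o : E2, ∀ i, rp ρ ≤ h i - ⟪o, nv (2 * nn ρ) i⟫ ∧
    h i - ⟪o, nv (2 * nn ρ) i⟫ ≤ rp ρ + LD ρ h / 2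

/-- The core polygon is small. -/
def S_X2 : Prop := ∃ L₀ : ℝ, 1 < L₀ ∧ ∀ (ρ : ℝ) (G : Set E2) (h : ℤ → ℝ) (p : ℤ → E2),
  L₀ ≤ ρ → Admissible G → IsConnected Gᶜ → Bump ρ G → Circ G (nn ρ) h p →
  per G + 2 * Real.pi * Real.sqrt (area G / Real.pi) <
    4 * Real.pi * ρ * (1 + Real.log (Real.log ρ) / Real.log ρ) →
  LD ρ h ≤ 40 * ρ * Real.log (Real.log ρ) / Real.log ρ

/-- Near-round hull and short faces. -/
def S_X3 : Prop := ∃ L₀ : ℝ, 1 < L₀ ∧ ∀ (ρ : ℝ) (G : Set E2), L₀ ≤ ρ → Admissible G →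
  IsConnected Gᶜ → Bump ρ G →
  per G + 2 * Real.pi * Real.sqrt (area G / Real.pi) <
    4 * Real.pi * ρ * (1 + Real.log (Real.log ρ) / Real.log ρ) →
  (∃ (o : E2) (ρ₁ ρ₂ : ℝ), closedBall o ρ₁ ⊆ hull G ∧ hull G ⊆ closedBall o ρ₂ ∧
    ρ₂ ≤ 101 / 100 * ρ₁ ∧ 9 / 10 * ρ ≤ ρ₁ ∧ ρ₁ ≤ 11 / 10 * ρ) ∧
  ∀ x x' ν : E2, Sup G x ν → x' ∈ hull G → ⟪x' - x, ν⟫ = 0 →
    ‖x' - x‖ ≤ 25 * ρ * Real.log (Real.log ρ) / Real.log ρ

/-! ### Depth of the pockets -/

/-- Crossing lemma for path connected sets. -/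
def S_Y1 : Prop := CrossLem → ∀ (X Y : ℝ) (S T : Set E2), 0 < X → 0 < Y →
  IsPathConnected S → IsPathConnected T → (∀ x ∈ S, |x 0| ≤ X ∧ |x 1| ≤ Y) →
  (∀ x ∈ T, |x 0| ≤ X ∧ |x 1| ≤ Y) → (∃ a ∈ S, a 0 = -X) → (∃ b ∈ S, b 0 = X) →
  (∃ c ∈ T, c 1 = -Y) → (∃ d ∈ T, d 1 = Y) → (S ∩ T).Nonempty

/-- The topological lemma in normalised coordinates: two discs of the same radius `r` with
centres `(-X, -Y)` and `(m + X, -Y)`; `β` starts near the mouth point `(x₁, 0)` and reaches the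
left disc without meeting the right one before, `γ` starts near `(0, 0)` and reaches the right
disc; both stay in the region between the discs; then they meet. -/
def S_Y2 : Prop := CrossLem → ∀ (X Y m r s ε ε' x₁ : ℝ) (β γ : ℝ → E2),
  0 < X → 0 < s → s < Y → Y < r → 0 < m → 0 < x₁ → x₁ < m → r ^ 2 < X ^ 2 + Y ^ 2 → 0 < ε →
  0 < ε' →
  ContinuousOn β (Icc 0 1) → ContinuousOn γ (Icc 0 1) →
  (∀ t ∈ Ico (0 : ℝ) 1, -X < β t 0 ∧ β t 0 < m + X ∧ -s < β t 1 ∧ β t 1 < 0 ∧
    r ^ 2 < (β t 0 + X) ^ 2 + (β t 1 + Y) ^ 2 ∧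
    r ^ 2 < (β t 0 - m - X) ^ 2 + (β t 1 + Y) ^ 2) →
  (∀ t ∈ Ico (0 : ℝ) 1, -X < γ t 0 ∧ γ t 0 < m + X ∧ -s < γ t 1 ∧ γ t 1 < 0 ∧
    r ^ 2 < (γ t 0 + X) ^ 2 + (γ t 1 + Y) ^ 2 ∧
    r ^ 2 < (γ t 0 - m - X) ^ 2 + (γ t 1 + Y) ^ 2) →
  β 1 1 < 0 → γ 1 1 < 0 → -s < β 1 1 → -s < γ 1 1 →
  (β 1 0 + X) ^ 2 + (β 1 1 + Y) ^ 2 = r ^ 2 → -X < β 1 0 → β 1 0 < m + X →
  (γ 1 0 - m - X) ^ 2 + (γ 1 1 + Y) ^ 2 = r ^ 2 → -X < γ 1 0 → γ 1 0 < m + X →
  r ^ 2 < (γ 1 0 + X) ^ 2 + (γ 1 1 + Y) ^ 2 →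
  γ 0 0 < β 0 0 → dist (γ 0) !₂[0, 0] < ε → dist (β 0) !₂[x₁, 0] < ε' →
  (∀ t ∈ Icc (0 : ℝ) 1, ε ≤ dist (β t) !₂[0, 0]) →
  (∀ t ∈ Icc (0 : ℝ) 1, ε' ≤ dist (γ t) !₂[x₁, 0]) →
  (∀ z : E2, dist z !₂[0, 0] < ε ∨ dist z !₂[x₁, 0] < ε' →
    r ^ 2 < (z 0 + X) ^ 2 + (z 1 + Y) ^ 2 ∧ r ^ 2 < (z 0 - m - X) ^ 2 + (z 1 + Y) ^ 2 ∧
    -X < z 0 ∧ z 0 < m + X) →
  ∃ t ∈ Icc (0 : ℝ) 1, ∃ t' ∈ Icc (0 : ℝ) 1, β t = γ t'

/-- Depth of the pockets. -/
def S_Y3 : Prop := CrossLem → ∃ L₀ : ℝ, 1 < L₀ ∧ ∀ (ρ M : ℝ) (G : Set E2), L₀ ≤ ρ →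
  Admissible G → IsConnected Gᶜ → Bump ρ G → 0 < M → M ≤ ρ / Real.sqrt (Real.log ρ) →
  (∀ x x' ν : E2, Sup G x ν → x' ∈ hull G → ⟪x' - x, ν⟫ = 0 → ‖x' - x‖ ≤ M) →
  Depth G (M ^ 2 / ρ + 30 * Real.log ρ)

/-- Theorem N from the parts. -/
def S_NN : Prop := S_BL → S_X3 → S_Y3 → S_N

end Pool.Agent.Robin

end

section

/-!
# MP_4b551e_an, part N, item L2: integrated line count (helper18)
-/

open MeasureTheory Set Metric
open scoped ENNReal NNReal Pointwise RealInnerProductSpace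

namespace Pool.Agent.Robin

namespace NL2

theorem norm_dirv (θ : ℝ) : ‖dirv θ‖ = 1 := by
  rw [EuclideanSpace.norm_eq, Real.sqrt_eq_one, Fin.sum_univ_two]
  simp [dirv, Real.cos_sq_add_sin_sq]

/-- Every unit vector is `dirv θ`. -/
theorem exists_dirv {n : E2} (hn : ‖n‖ = 1) : ∃ θ : ℝ, n = dirv θ := by
  rw [EuclideanSpace.norm_eq, Real.sqrt_eq_one, Fin.sum_univ_two] at hn
  simp only [Real.norm_eq_abs, sq_abs] at hn
  set z : ℂ := ⟨n 0, n 1⟩ with hz
  have hz1 : ‖z‖ = 1 := by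
    rw [Complex.norm_def, Complex.normSq_apply, Real.sqrt_eq_one]
    simp only [hz]
    nlinarith
  refine ⟨z.arg, ?_⟩
  have h := Complex.norm_mul_exp_arg_mul_I z
  rw [hz1, Complex.ofReal_one, one_mul, Complex.exp_mul_I] at h
  have h0 : Real.cos z.arg = n 0 := by
    have := congrArg Complex.re h
    simpa [hz, Complex.cos_ofReal_re, Complex.sin_ofReal_im, Complex.cos_ofReal_im,
      Complex.sin_ofReal_re] using this
  have h1 : Real.sin z.arg = n 1 := by
    have := congrArg Complex.im h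
    simpa [hz, Complex.cos_ofReal_re, Complex.sin_ofReal_im, Complex.cos_ofReal_im,
      Complex.sin_ofReal_re] using this
  ext i
  fin_cases i
  · simpa [dirv] using h0.symm
  · simpa [dirv] using h1.symm

theorem inner_eq (x y : E2) : ⟪x, y⟫ = x 0 * y 0 + x 1 * y 1 := by
  rw [PiLp.inner_apply, Fin.sum_univ_two]
  simp [mul_comm]

theorem inner_dirv (s t : ℝ) : ⟪dirv s, dirv t⟫ = Real.cos (s - t) := by
  rw [inner_eq, Real.cos_sub]
  simp [dirv]

/-- coordinates of the plane in the frame `ν, rot ν` -/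
theorem decomp (ν : E2) (h : ‖ν‖ = 1) (x : E2) : x = ⟪x, ν⟫ • ν + ⟪x, rot ν⟫ • rot ν := by
  have hs : ν 0 * ν 0 + ν 1 * ν 1 = 1 := by
    rw [← inner_eq, real_inner_self_eq_norm_sq, h, one_pow]
  rw [inner_eq, inner_eq]
  ext i
  fin_cases i
  · simp [rot]
    linear_combination (-(x 0)) * hs
  · simp [rot]
    linear_combination (-(x 1)) * hs

theorem norm_rot (ν : E2) (h : ‖ν‖ = 1) : ‖rot ν‖ = 1 := by
  obtain ⟨θ, rfl⟩ := exists_dirv h
  rw [EuclideanSpace.norm_eq, Real.sqrt_eq_one, Fin.sum_univ_two]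
  simp [dirv, rot, Real.sin_sq_add_cos_sq]

/-- The set lies on a line with unit direction `t`. -/
def OnLine (M : Set E2) (t : E2) : Prop :=
  ‖t‖ = 1 ∧ ∀ x ∈ M, ∀ y ∈ M, x - y = ⟪x - y, t⟫ • t

theorem mouth_line (hcl : T_CL) (hk2 : T_K2) (hk7 : T_K7) {G Q : Set E2} (hG : Admissible G)
    (hQ : Pocket G Q) : ∃ θ : ℝ, OnLine (mouth G Q) (dirv θ) := by
  by_cases hm : (mouth G Q).Nonempty
  · obtain ⟨x₁, hx₁⟩ := hm
    obtain ⟨-, -, -, hc, hcv, hne, -⟩ := hk2 G Q hG.isOpen hG.isConnected.nonempty hG.isBounded hQ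
    obtain ⟨ν, hν⟩ := K14.exists_sup G x₁ hc hcv hne hx₁.2.1
    obtain ⟨θ, hθ⟩ := exists_dirv (norm_rot ν hν.1)
    refine ⟨θ, norm_dirv θ, ?_⟩
    intro x hx y hy
    have h1 := hk7 hcl G Q x₁ x ν hG.isOpen hG.isConnected hG.isBounded hQ hx₁ hx hν
    have h2 := hk7 hcl G Q x₁ y ν hG.isOpen hG.isConnected hG.isBounded hQ hx₁ hy hν
    have h3 : ⟪x - y, ν⟫ = 0 := by
      have : x - y = (x - x₁) - (y - x₁) := by abel
      rw [this, inner_sub_left, h1, h2, sub_zero]
    have h4 := decomp ν hν.1 (x - y)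
    rw [h3, zero_smul, zero_add, hθ] at h4
    exact h4
  · refine ⟨0, norm_dirv 0, ?_⟩
    intro x hx
    exact absurd ⟨x, hx⟩ hm

theorem lip_line {M : Set E2} {t : E2} (ht : OnLine M t) (ν : E2) :
    LipschitzOnWith (Real.toNNReal |⟪t, ν⟫|) (fun x : E2 => ⟪x, ν⟫) M := by
  apply LipschitzOnWith.of_dist_le_mul
  intro x hx y hy
  rw [Real.dist_eq, ← inner_sub_left, Real.coe_toNNReal _ (abs_nonneg _), dist_eq_norm]
  have h1 := ht.2 x hx y hy
  have h2 : |⟪x - y, t⟫| ≤ ‖x - y‖ := by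
    have := abs_real_inner_le_norm (x - y) t
    rwa [ht.1, mul_one] at this
  calc |⟪x - y, ν⟫| = |⟪x - y, t⟫| * |⟪t, ν⟫| := by
        conv_lhs => rw [h1]
        rw [inner_smul_left, abs_mul]
        simp
    _ ≤ ‖x - y‖ * |⟪t, ν⟫| := mul_le_mul_of_nonneg_right h2 (abs_nonneg _)
    _ = |⟪t, ν⟫| * ‖x - y‖ := mul_comm _ _

theorem vol_pj_mouth {M : Set E2} {t : E2} (ht : OnLine M t) (ν : E2) :
    volume (pj ν M) ≤ ENNReal.ofReal |⟪t, ν⟫| * μH[1] M := by
  have h := (lip_line ht ν).hausdorffMeasure_image_le (d := 1) zero_le_one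
  rw [ENNReal.rpow_one, hausdorffMeasure_real] at h
  exact h

theorem hm_lt_top {M : Set E2} {t : E2} (ht : OnLine M t) (hb : Bornology.IsBounded M) :
    μH[1] M < ⊤ := by
  by_cases hm : M.Nonempty
  · obtain ⟨x₁, hx₁⟩ := hm
    obtain ⟨R, hR⟩ := hb.subset_closedBall x₁
    have hsub : M ⊆ (fun s : ℝ => x₁ + s • t) '' (Icc (-R) R) := by
      intro x hx
      refine ⟨⟪x - x₁, t⟫, ?_, ?_⟩
      · have h1 := abs_real_inner_le_norm (x - x₁) t
        rw [ht.1, mul_one] at h1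
        have h2 : ‖x - x₁‖ ≤ R := by
          have := hR hx
          rwa [mem_closedBall, dist_eq_norm] at this
        exact abs_le.1 (h1.trans h2)
      · show x₁ + ⟪x - x₁, t⟫ • t = x
        rw [← ht.2 x hx x₁ hx₁]
        abel
    have hlip : LipschitzWith 1 (fun s : ℝ => x₁ + s • t) := by
      apply LipschitzWith.of_dist_le_mul
      intro a b
      rw [dist_eq_norm, NNReal.coe_one, one_mul, Real.dist_eq]
      have : x₁ + a • t - (x₁ + b • t) = (a - b) • t := by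
        rw [sub_smul]; abel
      rw [this, norm_smul, ht.1, mul_one, Real.norm_eq_abs]
    refine lt_of_le_of_lt (measure_mono hsub) ?_
    have h := hlip.hausdorffMeasure_image_le (d := 1) zero_le_one (Icc (-R) R)
    rw [hausdorffMeasure_real, Real.volume_Icc] at h
    refine lt_of_le_of_lt h ?_
    simp
  · rw [not_nonempty_iff_eq_empty.1 hm]
    simp

theorem pj_open {ν : E2} (hν : ‖ν‖ = 1) {U : Set E2} (hU : IsOpen U) : IsOpen (pj ν U) := by
  have hsurj : Function.Surjective (innerSL ℝ ν : E2 →L[ℝ] ℝ) := by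
    intro c
    refine ⟨c • ν, ?_⟩
    rw [innerSL_apply_apply, inner_smul_right, real_inner_self_eq_norm_sq, hν]
    simp
  have h := (innerSL ℝ ν : E2 →L[ℝ] ℝ).isOpenMap hsurj U hU
  have h2 : pj ν U = (innerSL ℝ ν : E2 →L[ℝ] ℝ) '' U := by
    apply image_congr
    intro x _
    rw [innerSL_apply_apply, real_inner_comm]
  rw [h2]
  exact h

theorem pj_null {ν : E2} (hν : ‖ν‖ = 1) {G Q : Set E2} (hG : IsOpen G) (hGc : IsConnected G)
    (hQ : Q ⊆ hull G) : volume (pj ν Q \ pj ν G) = 0 := by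
  have hcont : Continuous (fun x : E2 => ⟪x, ν⟫) := by fun_prop
  have hconv : Convex ℝ (pj ν G) := by
    have h1 : IsPreconnected (pj ν G) := hGc.isPreconnected.image _ hcont.continuousOn
    exact h1.ordConnected.convex
  have h1 : pj ν (closure G) ⊆ closure (pj ν G) := image_closure_subset_closure_image hcont
  have hlin : IsLinearMap ℝ (fun x : E2 => ⟪x, ν⟫) := by
    refine ⟨fun x y => inner_add_left _ _ _, fun c x => ?_⟩
    simp [inner_smul_left]
  have h2 : pj ν (hull G) ⊆ closure (pj ν G) := by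
    rintro _ ⟨x, hx, rfl⟩
    have h3 : hull G ⊆ (fun x : E2 => ⟪x, ν⟫) ⁻¹' (closure (pj ν G)) := by
      apply convexHull_min
      · intro y hy
        exact h1 ⟨y, hy, rfl⟩
      · exact hconv.closure.is_linear_preimage hlin
    exact h3 hx
  have h4 : pj ν Q \ pj ν G ⊆ frontier (pj ν G) := by
    rw [(pj_open hν hG).frontier_eq]
    exact sdiff_subset_sdiff_left ((image_mono hQ).trans h2)
  exact measure_mono_null h4 (hconv.addHaar_frontier volume)

theorem one_dir (hl1 : S_L1) {G : Set E2} {ν : E2} (hν : ‖ν‖ = 1) (F : Finset (Set E2))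
    (hG : Admissible G) (hk2 : T_K2) (hF : ∀ Q ∈ F, Pocket G Q) (f : ℝ → ℝ≥0∞)
    (_hf : Measurable f) (hcf : ∀ c, crs (frontier G) ν c ≤ f c) :
    2 * volume (pj ν G) + 2 * ∑ Q ∈ F, volume (pj ν Q) ≤
      (∫⁻ c, f c) + 2 * ∑ Q ∈ F, volume (pj ν (mouth G Q)) := by
  classical
  have hP : MeasurableSet (pj ν G) := (pj_open hν hG.isOpen).measurableSet
  have hQo : ∀ Q ∈ F, IsOpen Q ∧ Q ⊆ hull G := by
    intro Q hQ
    obtain ⟨h1, h2, -⟩ := hk2 G Q hG.isOpen hG.isConnected.nonempty hG.isBounded (hF Q hQ)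
    exact ⟨h1, fun x hx => interior_subset (h2 hx).1⟩
  set T : Set E2 → Set ℝ := fun Q => toMeasurable volume (pj ν (mouth G Q)) with hT
  have hmeas : ∀ Q ∈ F, MeasurableSet (pj ν Q \ T Q) := by
    intro Q hQ
    exact (pj_open hν (hQo Q hQ).1).measurableSet.diff (measurableSet_toMeasurable _ _)
  have hae : ∀ᵐ c ∂(volume.restrict (pj ν G)),
      (2 : ℝ≥0∞) + 2 * ∑ Q ∈ F, (pj ν Q \ T Q).indicator (fun _ => (1 : ℝ≥0∞)) c ≤ f c := by
    rw [ae_restrict_iff' hP]
    filter_upwards [hl1 G ν F hG hν hF] with c hc hcP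
    refine le_trans ?_ ((hc hcP).trans (hcf c))
    gcongr with Q hQ
    exact subset_toMeasurable _ _
  have h1 : ∫⁻ c in pj ν G, ((2 : ℝ≥0∞) + 2 * ∑ Q ∈ F,
      (pj ν Q \ T Q).indicator (fun _ => (1 : ℝ≥0∞)) c) ≤ ∫⁻ c, f c :=
    (lintegral_mono_ae hae).trans (setLIntegral_le_lintegral _ _)
  have h2 : ∫⁻ c in pj ν G, ((2 : ℝ≥0∞) + 2 * ∑ Q ∈ F,
      (pj ν Q \ T Q).indicator (fun _ => (1 : ℝ≥0∞)) c) =
      2 * volume (pj ν G) + 2 * ∑ Q ∈ F, volume ((pj ν Q \ T Q) ∩ pj ν G) := by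
    rw [lintegral_add_left measurable_const, setLIntegral_const, lintegral_const_mul',
      lintegral_finsetSum']
    · congr 2
      apply Finset.sum_congr rfl
      intro Q hQ
      rw [lintegral_indicator_const (hmeas Q hQ), one_mul, Measure.restrict_apply (hmeas Q hQ)]
    · intro Q hQ
      exact (measurable_const.indicator (hmeas Q hQ)).aemeasurable
    · exact ENNReal.ofNat_ne_top
  have h3 : ∀ Q ∈ F, volume (pj ν Q) ≤ volume ((pj ν Q \ T Q) ∩ pj ν G) +
      volume (pj ν (mouth G Q)) := by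
    intro Q hQ
    have hsub : pj ν Q ⊆ ((pj ν Q \ T Q) ∩ pj ν G) ∪ (T Q ∪ (pj ν Q \ pj ν G)) := by
      intro c hc
      by_cases hT' : c ∈ T Q
      · exact Or.inr (Or.inl hT')
      · by_cases hg : c ∈ pj ν G
        · exact Or.inl ⟨⟨hc, hT'⟩, hg⟩
        · exact Or.inr (Or.inr ⟨hc, hg⟩)
    calc volume (pj ν Q) ≤ volume (((pj ν Q \ T Q) ∩ pj ν G) ∪ (T Q ∪ (pj ν Q \ pj ν G))) :=
          measure_mono hsub
      _ ≤ volume ((pj ν Q \ T Q) ∩ pj ν G) + (volume (T Q) + volume (pj ν Q \ pj ν G)) :=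
          (measure_union_le _ _).trans (by gcongr; exact measure_union_le _ _)
      _ = _ := by
          rw [pj_null hν hG.isOpen hG.isConnected (hQo Q hQ).2, add_zero, hT,
            measure_toMeasurable]
  calc 2 * volume (pj ν G) + 2 * ∑ Q ∈ F, volume (pj ν Q)
      ≤ 2 * volume (pj ν G) + 2 * ∑ Q ∈ F, (volume ((pj ν Q \ T Q) ∩ pj ν G) +
        volume (pj ν (mouth G Q))) := by
        gcongr with Q hQ
        exact h3 Q hQ
    _ = (2 * volume (pj ν G) + 2 * ∑ Q ∈ F, volume ((pj ν Q \ T Q) ∩ pj ν G)) +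
        2 * ∑ Q ∈ F, volume (pj ν (mouth G Q)) := by
        rw [Finset.sum_add_distrib]; ring
    _ ≤ _ := by
        gcongr
        rw [← h2]
        exact h1

end NL2

theorem prn_L2 (hb1 : S_B1) (hb2 : S_B2) (hc : S_Crofton) (hcb : S_C10b) (hcl : T_CL)
    (hk2 : T_K2) (hk7 : T_K7) (hl1 : S_L1) : S_L2 := by
  intro G n F hG hGc hn hF
  have hn0 : 0 < n := by omega
  have hlc : LipClosed Gᶜ := hb1 G hG
  have hcomp : IsCompact (frontier G) :=
    isCompact_of_isClosed_isBounded isClosed_frontier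
      (hG.isBounded.closure.subset frontier_subset_closure)
  have hfr : frontier Gᶜ = frontier G := frontier_compl G
  have hfin : μH[1] (frontier G) < ⊤ := by
    have := (hb2 Gᶜ hlc (by rwa [hfr])).1
    rwa [hfr] at this
  obtain ⟨f, hfm, hfc, hfi⟩ := hc Gᶜ (frontier G) hlc (by rwa [hfr])
    isClosed_frontier.measurableSet hfr.symm.subset n 0 hn0
  set s : ℝ := Real.sin (Real.pi / (2 * n)) with hs
  have hs0 : 0 < s := by
    apply Real.sin_pos_of_pos_of_lt_pi
    · positivity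
    · rw [div_lt_iff₀ (by positivity)]
      have : (2 : ℝ) ≤ n := by exact_mod_cast hn
      nlinarith [Real.pi_pos]
  set ν : ℕ → E2 := fun j => dirv (j * Real.pi / n) with hν
  have hνj : ∀ j : ℕ, dirv (0 + j * Real.pi / n) = ν j := by
    intro j
    rw [hν, zero_add]
  have hνn : ∀ j, ‖ν j‖ = 1 := fun j => NL2.norm_dirv _
  -- mouths
  have hmouth : ∀ Q ∈ F, ∃ θ : ℝ, NL2.OnLine (mouth G Q) (dirv θ) := fun Q hQ =>
    NL2.mouth_line hcl hk2 hk7 hG (hF Q hQ)
  have hhb : Bornology.IsBounded (hull G) := by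
    rw [hull, isBounded_convexHull]
    exact hG.isBounded.closure
  have hmb : ∀ Q ∈ F, Bornology.IsBounded (mouth G Q) ∧ Bornology.IsBounded Q := by
    intro Q hQ
    obtain ⟨h1, h2, -⟩ := hk2 G Q hG.isOpen hG.isConnected.nonempty hG.isBounded (hF Q hQ)
    have h3 : Bornology.IsBounded Q := hhb.subset (fun x hx => interior_subset (h2 hx).1)
    exact ⟨(h3.closure.subset frontier_subset_closure).subset inter_subset_left, h3⟩
  have hmfin : ∀ Q ∈ F, μH[1] (mouth G Q) < ⊤ := by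
    intro Q hQ
    obtain ⟨θ, hθ⟩ := hmouth Q hQ
    exact NL2.hm_lt_top hθ (hmb Q hQ).1
  have hpjb : ∀ (μ : E2) (X : Set E2), Bornology.IsBounded X → volume (pj μ X) ≠ ⊤ := by
    intro μ X hX
    have hl : LipschitzWith (Real.toNNReal ‖μ‖) (fun x : E2 => ⟪x, μ⟫) := by
      apply LipschitzWith.of_dist_le_mul
      intro x y
      rw [Real.dist_eq, ← inner_sub_left, Real.coe_toNNReal _ (norm_nonneg _), dist_eq_norm,
        mul_comm]
      exact abs_real_inner_le_norm _ _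
    exact (hl.isBounded_image hX).measure_lt_top.ne
  have hmsum : ∀ Q ∈ F, ∑ j ∈ Finset.range n, volume (pj (ν j) (mouth G Q)) ≤
      ENNReal.ofReal (1 / s) * μH[1] (mouth G Q) := by
    intro Q hQ
    obtain ⟨θ, hθ⟩ := hmouth Q hQ
    calc ∑ j ∈ Finset.range n, volume (pj (ν j) (mouth G Q))
        ≤ ∑ j ∈ Finset.range n, ENNReal.ofReal |⟪dirv θ, ν j⟫| * μH[1] (mouth G Q) :=
          Finset.sum_le_sum fun j _ => NL2.vol_pj_mouth hθ (ν j)
      _ = ENNReal.ofReal (∑ j ∈ Finset.range n, |⟪dirv θ, ν j⟫|) * μH[1] (mouth G Q) := by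
          rw [← Finset.sum_mul, ENNReal.ofReal_sum_of_nonneg (fun _ _ => abs_nonneg _)]
      _ ≤ ENNReal.ofReal (1 / s) * μH[1] (mouth G Q) := by
          gcongr
          have h1 := (hcb n (-θ) hn0).2
          refine le_trans (le_of_eq ?_) h1
          apply Finset.sum_congr rfl
          intro j _
          rw [hν, NL2.inner_dirv, ← Real.cos_neg]
          congr 2
          ring
  have hone : ∀ j, 2 * volume (pj (ν j) G) + 2 * ∑ Q ∈ F, volume (pj (ν j) Q) ≤
      (∫⁻ c, f j c) + 2 * ∑ Q ∈ F, volume (pj (ν j) (mouth G Q)) := by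
    intro j
    apply NL2.one_dir hl1 (hνn j) F hG hk2 hF (f j) (hfm j)
    intro c
    have := hfc j c
    rwa [hνj j] at this
  have hsum : ∑ j ∈ Finset.range n, (2 * volume (pj (ν j) G) +
      2 * ∑ Q ∈ F, volume (pj (ν j) Q)) ≤
      ENNReal.ofReal (1 / s) * μH[1] (frontier G) +
        2 * ∑ Q ∈ F, ENNReal.ofReal (1 / s) * μH[1] (mouth G Q) := by
    calc ∑ j ∈ Finset.range n, (2 * volume (pj (ν j) G) + 2 * ∑ Q ∈ F, volume (pj (ν j) Q))
        ≤ ∑ j ∈ Finset.range n, ((∫⁻ c, f j c) +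
          2 * ∑ Q ∈ F, volume (pj (ν j) (mouth G Q))) := Finset.sum_le_sum fun j _ => hone j
      _ = (∑ j ∈ Finset.range n, ∫⁻ c, f j c) +
          2 * ∑ Q ∈ F, ∑ j ∈ Finset.range n, volume (pj (ν j) (mouth G Q)) := by
          rw [Finset.sum_add_distrib, ← Finset.mul_sum, Finset.sum_comm]
      _ ≤ _ := by
          gcongr with Q hQ
          exact hmsum Q hQ
  -- real version
  have hA : ∀ j, volume (pj (ν j) G) ≠ ⊤ := fun j => hpjb _ _ hG.isBounded
  have hB : ∀ j, ∀ Q ∈ F, volume (pj (ν j) Q) ≠ ⊤ := fun j Q hQ => hpjb _ _ (hmb Q hQ).2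
  have hreal : ∑ j ∈ Finset.range n, (2 * (volume (pj (ν j) G)).toReal +
      2 * ∑ Q ∈ F, (volume (pj (ν j) Q)).toReal) ≤
      1 / s * per G + 2 * ∑ Q ∈ F, 1 / s * (μH[1] (mouth G Q)).toReal := by
    have hR : ENNReal.ofReal (1 / s) * μH[1] (frontier G) +
        2 * ∑ Q ∈ F, ENNReal.ofReal (1 / s) * μH[1] (mouth G Q) ≠ ⊤ := by
      apply ENNReal.add_ne_top.2
      refine ⟨ENNReal.mul_ne_top ENNReal.ofReal_ne_top hfin.ne,
        ENNReal.mul_ne_top ENNReal.ofNat_ne_top ?_⟩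
      exact (ENNReal.sum_lt_top.2 fun Q hQ =>
        ENNReal.mul_lt_top ENNReal.ofReal_lt_top (hmfin Q hQ)).ne
    have h := ENNReal.toReal_mono hR hsum
    rw [ENNReal.toReal_sum, ENNReal.toReal_add, ENNReal.toReal_mul, ENNReal.toReal_mul,
      ENNReal.toReal_sum, ENNReal.toReal_ofReal (by positivity)] at h
    · convert h using 1
      · apply Finset.sum_congr rfl
        intro j _
        rw [ENNReal.toReal_add, ENNReal.toReal_mul, ENNReal.toReal_mul, ENNReal.toReal_sum]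
        · simp
        · intro Q hQ
          exact hB j Q hQ
        · exact ENNReal.mul_ne_top ENNReal.ofNat_ne_top (hA j)
        · exact ENNReal.mul_ne_top ENNReal.ofNat_ne_top
            (ENNReal.sum_lt_top.2 fun Q hQ => (hB j Q hQ).lt_top).ne
      · rw [per]
        congr 1
        simp only [ENNReal.toReal_ofNat]
        congr 1
        apply Finset.sum_congr rfl
        intro Q hQ
        rw [ENNReal.toReal_mul, ENNReal.toReal_ofReal (by positivity)]
    · intro Q hQ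
      exact ENNReal.mul_ne_top ENNReal.ofReal_ne_top (hmfin Q hQ).ne
    · exact ENNReal.mul_ne_top ENNReal.ofReal_ne_top hfin.ne
    · apply ENNReal.mul_ne_top ENNReal.ofNat_ne_top
      exact (ENNReal.sum_lt_top.2 fun Q hQ =>
        ENNReal.mul_lt_top ENNReal.ofReal_lt_top (hmfin Q hQ)).ne
    · intro j _
      apply ENNReal.add_ne_top.2
      exact ⟨ENNReal.mul_ne_top ENNReal.ofNat_ne_top (hA j),
        ENNReal.mul_ne_top ENNReal.ofNat_ne_top
          (ENNReal.sum_lt_top.2 fun Q hQ => (hB j Q hQ).lt_top).ne⟩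
  have hmul := mul_le_mul_of_nonneg_left hreal hs0.le
  have hr : s * (1 / s * per G + 2 * ∑ Q ∈ F, 1 / s * (μH[1] (mouth G Q)).toReal) =
      per G + 2 * ∑ Q ∈ F, (μH[1] (mouth G Q)).toReal := by
    rw [← Finset.mul_sum]
    field_simp
  have hl : s * ∑ j ∈ Finset.range n, (2 * (volume (pj (ν j) G)).toReal +
      2 * ∑ Q ∈ F, (volume (pj (ν j) Q)).toReal) =
      2 * s * (∑ j ∈ Finset.range n, (volume (pj (ν j) G)).toReal) +
        ∑ Q ∈ F, 2 * s * (∑ j ∈ Finset.range n, (volume (pj (ν j) Q)).toReal) := by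
    rw [Finset.sum_add_distrib, ← Finset.mul_sum, ← Finset.mul_sum, ← Finset.mul_sum,
      Finset.sum_comm]
    ring
  rw [hr, hl] at hmul
  show 2 * s * (∑ j ∈ Finset.range n, (volume (pj (ν j) G)).toReal) +
    ∑ Q ∈ F, (2 * s * (∑ j ∈ Finset.range n,
      (volume (pj (ν j) Q)).toReal) - 2 * (μH[1] (mouth G Q)).toReal) ≤ per G
  have e : ∑ Q ∈ F, 2 * (μH[1] (mouth G Q)).toReal = 2 * ∑ Q ∈ F, (μH[1] (mouth G Q)).toReal :=
    (Finset.mul_sum _ _ _).symm
  rw [Finset.sum_sub_distrib, e]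
  linarith

end Pool.Agent.Robin

end

section

/-!
# MP_4b551e_an: isoperimetric inequality for the widths
-/

open MeasureTheory Set Metric Filter Topology
open scoped ENNReal NNReal Pointwise RealInnerProductSpace

namespace Pool.Agent.Robin

namespace L3

theorem x_pos (n : ℕ) (hn : 2 ≤ n) : 0 < Real.pi / (2 * n) := by
  have : (0 : ℝ) < n := by exact_mod_cast (by omega : 0 < n)
  have := Real.pi_pos
  positivity

theorem x_lt (n : ℕ) (hn : 2 ≤ n) : Real.pi / (2 * n) < Real.pi / 2 := by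
  have h1 : (2 : ℝ) ≤ n := by exact_mod_cast hn
  have := Real.pi_pos
  exact div_lt_div_of_pos_left Real.pi_pos (by norm_num) (by linarith)

theorem cos_pos (n : ℕ) (hn : 2 ≤ n) : 0 < Real.cos (Real.pi / (2 * n)) :=
  Real.cos_pos_of_mem_Ioo ⟨by linarith [x_pos n hn, Real.pi_pos], x_lt n hn⟩

theorem sin_pos (n : ℕ) (hn : 2 ≤ n) : 0 < Real.sin (Real.pi / (2 * n)) :=
  Real.sin_pos_of_pos_of_lt_pi (x_pos n hn) (by linarith [x_lt n hn, Real.pi_pos])

/-- the projection of the closed convex hull -/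
theorem pj_hull (Q : Set E2) (ν : E2) (hQ : IsConnected Q) :
    volume (pj ν (closure (convexHull ℝ Q))) ≤ volume (pj ν Q) := by
  have hcont : Continuous fun x : E2 => ⟪x, ν⟫ := by fun_prop
  have hpre : IsPreconnected (pj ν Q) := hQ.isPreconnected.image _ hcont.continuousOn
  have hconv : Convex ℝ (pj ν Q) := hpre.ordConnected.convex
  have h1 : convexHull ℝ Q ⊆ (fun x : E2 => ⟪x, ν⟫) ⁻¹' (pj ν Q) := by
    refine convexHull_min (fun x hx => mem_image_of_mem _ hx) ?_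
    have hl : IsLinearMap ℝ fun x : E2 => ⟪x, ν⟫ :=
      ⟨fun x y => inner_add_left _ _ _, fun c x => real_inner_smul_left _ _ _⟩
    exact hconv.is_linear_preimage hl
  have h2 : pj ν (closure (convexHull ℝ Q)) ⊆ closure (pj ν Q) := by
    refine (image_closure_subset_closure_image hcont).trans (closure_mono ?_)
    rintro _ ⟨x, hx, rfl⟩
    exact h1 hx
  calc volume (pj ν (closure (convexHull ℝ Q))) ≤ volume (closure (pj ν Q)) := measure_mono h2
    _ ≤ volume (pj ν Q ∪ frontier (pj ν Q)) := measure_mono (by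
        rw [closure_eq_self_union_frontier])
    _ ≤ volume (pj ν Q) + volume (frontier (pj ν Q)) := measure_union_le _ _
    _ = volume (pj ν Q) := by rw [hconv.addHaar_frontier volume, add_zero]

theorem ncomp (h3 : S_C3) (K : Set E2) (ν : E2) (hK : Convex ℝ K) (hKc : IsCompact K) :
    Ncomp K ν ≤ volume (pj ν K) := by
  have hcont : Continuous fun x : E2 => ⟪x, ν⟫ := by fun_prop
  have hm : MeasurableSet (pj ν K) := (hKc.image hcont).isClosed.measurableSet
  unfold Ncomp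
  rw [← lintegral_indicator_one hm]
  refine lintegral_mono fun c => ?_
  by_cases hc : (K ∩ line ν c).Nonempty
  · have h1 : Convex ℝ (K ∩ line ν c) := by
      refine hK.inter ?_
      have hl : IsLinearMap ℝ fun x : E2 => ⟪x, ν⟫ :=
        ⟨fun x y => inner_add_left _ _ _, fun c x => real_inner_smul_left _ _ _⟩
      exact convex_hyperplane hl c
    have h2 : IsConnected (K ∩ line ν c) := ⟨hc, h1.isPreconnected⟩
    rw [h3.2 _ h2]
    obtain ⟨x, hx, hxc⟩ := hc
    have : c ∈ pj ν K := ⟨x, hx, hxc⟩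
    rw [indicator_of_mem this]
    simp
  · rw [not_nonempty_iff_eq_empty] at hc
    rw [hc, h3.1]
    simp

end L3

open L3 in
theorem prn_L3 (h9 : S_C9) (h3 : S_C3) (hbm : S_BM) (hcc : S_C10c) (hca : S_C10a) : S_L3 := by
  intro Q n hQo hQc hQb hn
  have hn0 : 0 < n := by omega
  have hnR : (0 : ℝ) < n := by exact_mod_cast hn0
  have hpi := Real.pi_pos
  have hcp := cos_pos n hn
  have hsp := sin_pos n hn
  set S := Real.sin (Real.pi / (2 * (n : ℝ))) with hS
  set C := Real.cos (Real.pi / (2 * (n : ℝ))) with hC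
  set K : Set E2 := closure (convexHull ℝ Q) with hKdef
  have hKb : Bornology.IsBounded K := (isBounded_convexHull.mpr hQb).closure
  have hKc : IsCompact K := Metric.isCompact_of_isClosed_isBounded isClosed_closure hKb
  have hKconv : Convex ℝ K := (convex_convexHull ℝ Q).closure
  have hQK : Q ⊆ K := (subset_convexHull ℝ Q).trans subset_closure
  have hKne : K.Nonempty := hQc.nonempty.mono hQK
  have hKcon : IsConnected K := ⟨hKne, hKconv.isPreconnected⟩
  have hwfin : ∀ ν : E2, volume (pj ν Q) < ⊤ := by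
    intro ν
    have hcont : Continuous fun x : E2 => ⟪x, ν⟫ := by fun_prop
    have h1 : pj ν Q ⊆ pj ν (closure Q) := image_mono subset_closure
    exact (measure_mono h1).trans_lt (hQb.isCompact_closure.image hcont).measure_lt_top
  set W : ℝ := ∑ j ∈ Finset.range n, (volume (pj (dirv (j * Real.pi / n)) Q)).toReal with hW
  have hW0 : 0 ≤ W := Finset.sum_nonneg fun _ _ => ENNReal.toReal_nonneg
  have hWe : ∑ j ∈ Finset.range n, Ncomp K (dirv (0 + j * Real.pi / n)) ≤ ENNReal.ofReal W := by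
    rw [hW, ENNReal.ofReal_sum_of_nonneg fun _ _ => ENNReal.toReal_nonneg]
    refine Finset.sum_le_sum fun j _ => ?_
    rw [zero_add, ENNReal.ofReal_toReal (hwfin _).ne]
    exact (ncomp h3 K _ hKconv hKc).trans (pj_hull Q _ hQc)
  have hvK : volume K = ENNReal.ofReal (area K) := (ENNReal.ofReal_toReal hKc.measure_lt_top.ne).symm
  have hA0 : 0 ≤ area K := ENNReal.toReal_nonneg
  have key : ∀ s : ℝ, 0 < s → Real.sqrt Real.pi * Real.sqrt (area K) ≤ S / C * W +
      n * s * (S / C) := by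
    intro s hs
    obtain ⟨c, hcZ⟩ := hcc n s hn hs.le
    rw [← hS, ← hC] at hcZ
    set ε := 2 * s * (S / C) with hε
    have hε0 : 0 ≤ ε := by positivity
    set Z := ∑ j ∈ Finset.range n, seg (ε • rot (dirv (0 + j * Real.pi / n))) with hZ
    have e1 : volume (cthickening s K) ≤ volume (K + Z) := by
      have e2 : volume (K + closedBall c s) = volume (cthickening s K) := by
        rw [hKc.add_closedBall hs.le c, measure_vadd]
      rw [← e2]
      exact measure_mono (Set.add_subset_add_left hcZ)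
    have e3 := h9 K n 0 ε hKc hKcon hn0 hε0
    rw [hca n hn0, ← hS, ← hC] at e3
    have e4 : volume (cthickening s K) ≤ ENNReal.ofReal (area K + ε * W +
        ε ^ 2 * ((n : ℝ) / 2 * (C / S))) := by
      refine e1.trans (e3.trans ?_)
      rw [ENNReal.ofReal_add (by positivity) (by positivity),
        ENNReal.ofReal_add (by positivity) (by positivity), ← hvK, ENNReal.ofReal_mul hε0]
      gcongr
    have e5 : area (cthickening s K) ≤ area K + ε * W + ε ^ 2 * ((n : ℝ) / 2 * (C / S)) :=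
      ENNReal.toReal_le_of_le_ofReal (by positivity) e4
    have e6 := hbm K s hKc hKne hs.le
    have e7 : (Real.sqrt (area K) + Real.sqrt Real.pi * s) ^ 2 ≤ area (cthickening s K) := by
      calc (Real.sqrt (area K) + Real.sqrt Real.pi * s) ^ 2
          ≤ (Real.sqrt (area (cthickening s K))) ^ 2 := pow_le_pow_left₀ (by positivity) e6 2
        _ = _ := Real.sq_sqrt ENNReal.toReal_nonneg
    have e8 : ε ^ 2 * ((n : ℝ) / 2 * (C / S)) = 2 * n * s ^ 2 * (S / C) := by
      rw [hε]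
      field_simp
    rw [e8] at e5
    have e9 : Real.sqrt (area K) ^ 2 = area K := Real.sq_sqrt hA0
    have e10 : Real.sqrt Real.pi ^ 2 = Real.pi := Real.sq_sqrt hpi.le
    have e11 : 2 * s * (Real.sqrt Real.pi * Real.sqrt (area K)) ≤
        2 * s * (S / C * W + n * s * (S / C)) := by
      have h := e7.trans e5
      have h' : (Real.sqrt (area K) + Real.sqrt Real.pi * s) ^ 2 = Real.sqrt (area K) ^ 2 +
        2 * s * (Real.sqrt Real.pi * Real.sqrt (area K)) + Real.sqrt Real.pi ^ 2 * s ^ 2 := by ring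
      rw [h', e9, e10] at h
      have h'' : ε * W = 2 * s * (S / C * W) := by rw [hε]; ring
      rw [h''] at h
      have : 0 ≤ Real.pi * s ^ 2 := by positivity
      nlinarith
    exact le_of_mul_le_mul_left e11 (by positivity)
  have hlim : Tendsto (fun s : ℝ => S / C * W + n * s * (S / C)) (𝓝[>] 0)
      (𝓝 (S / C * W)) := by
    have : Continuous fun s : ℝ => S / C * W + n * s * (S / C) := by fun_prop
    have h := this.tendsto 0
    simp only [mul_zero, zero_mul, add_zero] at h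
    exact h.mono_left nhdsWithin_le_nhds
  have hfin : Real.sqrt Real.pi * Real.sqrt (area K) ≤ S / C * W := by
    refine ge_of_tendsto hlim ?_
    filter_upwards [self_mem_nhdsWithin] with s hs
    exact key s hs
  have hAQ : area Q ≤ area K :=
    ENNReal.toReal_mono hKc.measure_lt_top.ne (measure_mono hQK)
  have h10 : Real.sqrt (Real.pi * area Q) ≤ S / C * W := by
    rw [Real.sqrt_mul hpi.le]
    refine le_trans ?_ hfin
    gcongr
  have h11 : S / C * W = S * W / C := by ring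
  rw [h11, le_div_iff₀ hcp] at h10
  nlinarith

end Pool.Agent.Robin

end

section

/-!
# MP_4b551e_an: item L4 (widths and support numbers)
-/

open MeasureTheory Set Metric
open scoped ENNReal NNReal Pointwise RealInnerProductSpace

namespace Pool.Agent.Robin

namespace L4

theorem cont_inner (ν : E2) : Continuous (fun x : E2 => ⟪x, ν⟫) := by fun_prop

theorem vol_pj {G : Set E2} {ν : E2} {a b : ℝ} {p q : E2} (hG : IsConnected G)
    (hp : p ∈ closure G) (hq : q ∈ closure G) (hpb : ⟪p, ν⟫ = b) (hqa : ⟪q, ν⟫ = a)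
    (hle : ∀ x ∈ closure G, ⟪x, ν⟫ ≤ b) (hge : ∀ x ∈ closure G, a ≤ ⟪x, ν⟫) :
    (volume (pj ν G)).toReal = b - a := by
  have hab : a ≤ b := by
    rw [← hqa]
    exact hle q hq
  have hconn : IsPreconnected (pj ν G) := hG.isPreconnected.image _ (cont_inner ν).continuousOn
  have hsub : pj ν G ⊆ Icc a b := by
    rintro _ ⟨x, hx, rfl⟩
    exact ⟨hge x (subset_closure hx), hle x (subset_closure hx)⟩
  have hcl : ∀ x ∈ closure G, ⟪x, ν⟫ ∈ closure (pj ν G) := fun x hx =>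
    image_closure_subset_closure_image (cont_inner ν) ⟨x, hx, rfl⟩
  have hIoo : Ioo a b ⊆ pj ν G := by
    intro c hc
    have h1 : b ∈ closure (pj ν G) := hpb ▸ hcl p hp
    have h2 : a ∈ closure (pj ν G) := hqa ▸ hcl q hq
    obtain ⟨y, hy, hyc⟩ := mem_closure_iff_nhds.mp h1 (Ioi c) (Ioi_mem_nhds hc.2)
    obtain ⟨z, hz, hzc⟩ := mem_closure_iff_nhds.mp h2 (Iio c) (Iio_mem_nhds hc.1)
    exact hconn.Icc_subset hzc hyc ⟨le_of_lt hz, le_of_lt hy⟩
  have h3 : volume (pj ν G) = ENNReal.ofReal (b - a) := by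
    apply le_antisymm
    · calc volume (pj ν G) ≤ volume (Icc a b) := measure_mono hsub
        _ = ENNReal.ofReal (b - a) := Real.volume_Icc
    · calc ENNReal.ofReal (b - a) = volume (Ioo a b) := Real.volume_Ioo.symm
        _ ≤ volume (pj ν G) := measure_mono hIoo
  rw [h3, ENNReal.toReal_ofReal (by linarith)]

end L4

open L4 in
theorem prn_L4 : S_L4 := by
  intro G n h p hG hc hb hC
  have hn : 4 ≤ n := hC.n_le
  have hn0 : (n : ℝ) ≠ 0 := by
    have : n ≠ 0 := by omega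
    exact_mod_cast this
  have hdl : dl (2 * n) = Real.pi / n := by
    unfold dl
    push_cast
    field_simp
  have hneg : ∀ i : ℤ, nv (2 * n) (i + n) = -nv (2 * n) i := by
    intro i
    unfold nv
    have : ((i + (n : ℤ) : ℤ) : ℝ) * dl (2 * n) = i * dl (2 * n) + Real.pi := by
      rw [hdl]
      push_cast
      field_simp
    rw [this]
    unfold dirv
    rw [Real.cos_add_pi, Real.sin_add_pi]
    ext j
    fin_cases j <;> simp
  have key : ∀ j ∈ Finset.range n, (volume (pj (dirv (j * Real.pi / n)) G)).toReal =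
      h j + h ((n : ℤ) + j) := by
    intro j _
    have e1 : dirv (j * Real.pi / n) = nv (2 * n) j := by
      unfold nv
      rw [hdl]
      congr 1
      push_cast
      ring
    rw [e1]
    have e2 : ∀ x : E2, ⟪x, nv (2 * n) ((j : ℤ) + n)⟫ = -⟪x, nv (2 * n) j⟫ := by
      intro x
      rw [hneg, inner_neg_right]
    have := vol_pj (ν := nv (2 * n) j) (a := -h ((j : ℤ) + n)) (b := h j) hc
      (hC.mem j) (hC.mem ((j : ℤ) + n)) (hC.touch j)
      (by
        have := hC.touch ((j : ℤ) + n)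
        rw [e2] at this
        linarith)
      (hC.le j)
      (fun x hx => by
        have := hC.le ((j : ℤ) + n) x hx
        rw [e2] at this
        linarith)
    rw [this, add_comm (n : ℤ) (j : ℤ)]
    ring
  rw [Finset.sum_congr rfl key, Finset.sum_add_distrib, two_mul,
    Finset.sum_range_add (fun i : ℕ => h (i : ℤ)) n n]
  push_cast
  rfl

end Pool.Agent.Robin

end

section

/-!
# MP_4b551e_an: item L5 (elementary minimisation)
-/

open MeasureTheory Set Metric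
open scoped ENNReal NNReal Pointwise RealInnerProductSpace

namespace Pool.Agent.Robin

theorem prn_L5 : S_L5 := by
  intro B m T hB hm hT
  have hR0 := Real.sqrt_nonneg (B + m ^ 2)
  have hR2 : Real.sqrt (B + m ^ 2) ^ 2 = B + m ^ 2 := Real.sq_sqrt (by positivity)
  set R := Real.sqrt (B + m ^ 2) with hR
  have hs0 := Real.sqrt_nonneg (B - 2 * m * T - T ^ 2)
  by_cases h : R ≤ T + m
  · linarith
  · have h' : T + m < R := not_le.mp h
    have h1 : R - (T + m) ≤ Real.sqrt (B - 2 * m * T - T ^ 2) := by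
      apply Real.le_sqrt_of_sq_le
      nlinarith
    linarith

end Pool.Agent.Robin

end

section

/-!
# MP_4b551e_an, item L6: macroscopic inequality for the circumscribed polygon
-/

open MeasureTheory Set Metric
open scoped ENNReal NNReal Pointwise RealInnerProductSpace

namespace Pool.Agent.Robin

namespace L6

/-- Pockets are open, connected and bounded. -/
theorem pocket_prop (hk2 : T_K2) {G Q : Set E2} (hG : Admissible G) (hQ : Pocket G Q) :
    IsOpen Q ∧ IsConnected Q ∧ Bornology.IsBounded Q := by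
  obtain ⟨h1, h2, h3, h4, -⟩ := hk2 G Q hG.isOpen hG.isConnected.nonempty hG.isBounded hQ
  exact ⟨h1, h3, h4.isBounded.subset (h2.trans (sdiff_subset.trans interior_subset))⟩

/-- Finite families of pockets exhaust the area of the exterior part. -/
theorem exhaust (hk2 : T_K2) (hk3 : T_K3) (hk4 : T_K4) {G : Set E2} (hG : Admissible G)
    (hfin : volume (ext G) < ⊤) {e : ℝ} (he : 0 < e) :
    ∃ F : Finset (Set E2), (∀ Q ∈ F, Pocket G Q) ∧ area (ext G) - e ≤ ∑ Q ∈ F, area Q := by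
  obtain ⟨-, -, hc, hU⟩ := hk4 G hG.isOpen hG.isConnected.nonempty hG.isBounded
  have hsum : volume (ext G) = ∑' Q : {Q | Pocket G Q}, volume (Q : Set E2) := by
    rw [← hU]
    apply measure_sUnion hc
    · intro Q hQ Q' hQ' hne
      exact (hk3 G Q Q' hG hQ hQ' hne).1
    · intro Q hQ
      exact (pocket_prop hk2 hG hQ).1.measurableSet
  by_cases h0 : area (ext G) - e < 0
  · exact ⟨∅, by simp, by simpa using h0.le⟩
  push Not at h0
  have hlt : ENNReal.ofReal (area (ext G) - e) < volume (ext G) := by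
    rw [ENNReal.ofReal_lt_iff_lt_toReal h0 hfin.ne]
    change area (ext G) - e < area (ext G)
    linarith
  rw [hsum, ENNReal.tsum_eq_iSup_sum, lt_iSup_iff] at hlt
  obtain ⟨s, hs⟩ := hlt
  refine ⟨s.map ⟨Subtype.val, Subtype.val_injective⟩, ?_, ?_⟩
  · intro Q hQ
    rw [Finset.mem_map] at hQ
    obtain ⟨Q', -, rfl⟩ := hQ
    exact Q'.2
  · rw [Finset.sum_map]
    have hfinQ : ∀ Q ∈ s, volume (Q : Set E2) ≠ ⊤ := by
      intro Q _
      exact (pocket_prop hk2 hG Q.2).2.2.measure_lt_top.ne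
    have h3 := ENNReal.toReal_mono (ENNReal.sum_ne_top.2 hfinQ) hs.le
    rw [ENNReal.toReal_ofReal h0, ENNReal.toReal_sum hfinQ] at h3
    exact h3

/-- The perimeter is large if there are big pockets. -/
theorem per_ge (hl2 : S_L2) (hl3 : S_L3) (hl4 : S_L4) (hr3 : S_R3) (hk2 : T_K2)
    {G : Set E2} {n : ℕ} {h : ℤ → ℝ} {p : ℤ → E2} (hG : Admissible G) (hGc : IsConnected Gᶜ)
    (hc : Circ G n h p) (F : Finset (Set E2)) (hF : ∀ Q ∈ F, Pocket G Q) :
    Real.cos (Real.pi / (2 * n)) * (∑ i ∈ Finset.range (2 * n), el (2 * n) h i) +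
      2 * ∑ Q ∈ F, max 0 (Real.cos (Real.pi / (2 * n)) * Real.sqrt (Real.pi * area Q) -
        (μH[1] (mouth G Q)).toReal) ≤ per G := by
  have hn : 4 ≤ n := hc.n_le
  have hn' : (4 : ℝ) ≤ n := by exact_mod_cast hn
  have hκ : 0 < Real.cos (Real.pi / (2 * n)) := by
    apply Real.cos_pos_of_mem_Ioo
    have hpi := Real.pi_pos
    constructor
    · have : 0 < Real.pi / (2 * n) := by positivity
      linarith
    · rw [div_lt_div_iff₀ (by linarith) (by norm_num)]
      nlinarith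
  have e1 : Real.cos (Real.pi / (2 * n)) * (∑ i ∈ Finset.range (2 * n), el (2 * n) h i) =
      2 * Real.sin (Real.pi / (2 * n)) * ∑ i ∈ Finset.range (2 * n), h i := by
    have := (hr3 (2 * n) h (by omega) hc.per_h).1
    rw [this]
    push_cast
    rw [Real.tan_eq_sin_div_cos]
    field_simp
  classical
  have h2 := hl2 G n (F.filter (fun Q => 0 < Real.cos (Real.pi / (2 * n)) *
    Real.sqrt (Real.pi * area Q) - (μH[1] (mouth G Q)).toReal)) hG hGc (by omega)
    (fun Q hQ => hF Q (Finset.mem_filter.1 hQ).1)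
  rw [hl4 G n h p hG.isOpen hG.isConnected hG.isBounded hc, ← e1] at h2
  refine le_trans (add_le_add le_rfl ?_) h2
  rw [Finset.sum_filter, Finset.mul_sum]
  apply Finset.sum_le_sum
  intro Q hQ
  obtain ⟨q1, q2, q3⟩ := pocket_prop hk2 hG (hF Q hQ)
  have h3 := hl3 Q n q1 q2 q3 (by omega)
  split_ifs with hpos
  · rw [max_eq_right hpos.le]
    linarith
  · rw [max_eq_left (not_lt.1 hpos)]
    simp

end L6

open L6 in
theorem prn_L6 (hl2 : S_L2) (hl3 : S_L3) (hl4 : S_L4) (hl5 : S_L5) (hr3 : S_R3) (hr9 : S_R9)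
    (hk2 : T_K2) (hk3 : T_K3) (hk4 : T_K4) (hk13 : T_K13) : S_L6 := by
  intro G n h p M S₂ hG hGc hc hM hM1 hS hB
  obtain ⟨-, -, hvol, hfin⟩ := hk13 G hG
  have hpi := Real.pi_pos
  have hn : 4 ≤ n := hc.n_le
  have hn' : (4 : ℝ) ≤ n := by exact_mod_cast hn
  set κ := Real.cos (Real.pi / (2 * n)) with hκdef
  have hκ : 0 < κ := by
    apply Real.cos_pos_of_mem_Ioo
    constructor
    · have : 0 < Real.pi / (2 * n) := by positivity
      linarith
    · rw [div_lt_div_iff₀ (by linarith) (by norm_num)]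
      nlinarith
  have hκ1 : κ ≤ 1 := Real.cos_le_one _
  set L := ∑ i ∈ Finset.range (2 * n), el (2 * n) h i with hL
  have hκ2 : κ ^ 2 ≤ 1 := by nlinarith
  have hG_fin : volume G ≠ ⊤ := hG.isBounded.measure_lt_top.ne
  have hE_fin : volume (ext G) < ⊤ := by
    rw [hvol] at hfin
    exact (ENNReal.add_lt_top.1 hfin).2
  have harea : area (hull G) = area G + area (ext G) := by
    unfold area
    rw [hvol, ENNReal.toReal_add hG_fin hE_fin.ne]
  have haG : 0 ≤ area G := ENNReal.toReal_nonneg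
  -- it suffices to prove it up to `δ`
  apply le_of_forall_pos_le_add
  intro δ hδ
  set e := (δ / 2) ^ 2 / 4 with he
  have hepos : 0 < e := by positivity
  obtain ⟨F, hF, hFe⟩ := exhaust hk2 hk3 hk4 hG hE_fin hepos
  have hper := per_ge hl2 hl3 hl4 hr3 hk2 hG hGc hc F hF
  obtain ⟨-, hm1, hm2⟩ := hr9 G n h p F hG hGc hc hF
  set t : Set E2 → ℝ := fun Q => max 0 (κ * Real.sqrt (Real.pi * area Q) -
    (μH[1] (mouth G Q)).toReal) with ht
  set T := ∑ Q ∈ F, t Q with hT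
  have ht0 : ∀ Q, 0 ≤ t Q := fun Q => le_max_left _ _
  have hT0 : 0 ≤ T := Finset.sum_nonneg fun Q _ => ht0 Q
  have htT : ∀ Q ∈ F, t Q ≤ T := fun Q hQ =>
    Finset.single_le_sum (f := t) (fun Q _ => ht0 Q) hQ
  -- areas of the pockets
  have hA : Real.pi * κ ^ 2 * ∑ Q ∈ F, area Q ≤ S₂ + 2 * M * T + T ^ 2 := by
    rw [Finset.mul_sum]
    have h1 : ∀ Q ∈ F, Real.pi * κ ^ 2 * area Q ≤
        ((μH[1] (mouth G Q)).toReal) ^ 2 + (2 * M * t Q + T * t Q) := by
      intro Q hQ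
      have ha : 0 ≤ area Q := ENNReal.toReal_nonneg
      have hm : 0 ≤ (μH[1] (mouth G Q)).toReal := ENNReal.toReal_nonneg
      have hmM : (μH[1] (mouth G Q)).toReal ≤ M := by
        obtain ⟨i, hi, hi'⟩ := hm1 Q hQ
        exact hi'.trans (hM1 i hi)
      have hle : κ * Real.sqrt (Real.pi * area Q) ≤ (μH[1] (mouth G Q)).toReal + t Q := by
        have : κ * Real.sqrt (Real.pi * area Q) - (μH[1] (mouth G Q)).toReal ≤ t Q :=
          le_max_right _ _
        linarith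
      have hsq : (κ * Real.sqrt (Real.pi * area Q)) ^ 2 = Real.pi * κ ^ 2 * area Q := by
        rw [mul_pow, Real.sq_sqrt (by positivity)]
        ring
      have h0 : 0 ≤ κ * Real.sqrt (Real.pi * area Q) := by positivity
      have hle2 : (κ * Real.sqrt (Real.pi * area Q)) ^ 2 ≤
          ((μH[1] (mouth G Q)).toReal + t Q) ^ 2 := by
        apply pow_le_pow_left₀ h0 hle
      rw [hsq] at hle2
      have h3 : (μH[1] (mouth G Q)).toReal * t Q ≤ M * t Q :=
        mul_le_mul_of_nonneg_right hmM (ht0 Q)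
      have h4 : t Q * t Q ≤ T * t Q := mul_le_mul_of_nonneg_right (htT Q hQ) (ht0 Q)
      nlinarith
    calc ∑ Q ∈ F, Real.pi * κ ^ 2 * area Q
        ≤ ∑ Q ∈ F, (((μH[1] (mouth G Q)).toReal) ^ 2 + (2 * M * t Q + T * t Q)) :=
          Finset.sum_le_sum h1
      _ = ∑ Q ∈ F, ((μH[1] (mouth G Q)).toReal) ^ 2 + (2 * M * T + T * T) := by
          rw [Finset.sum_add_distrib, Finset.sum_add_distrib, ← Finset.mul_sum,
            ← Finset.mul_sum]
      _ ≤ S₂ + 2 * M * T + T ^ 2 := by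
          have := hm2.trans hS
          nlinarith
  set B := Real.pi * κ ^ 2 * area (hull G) - S₂ with hBdef
  set e' := Real.pi * κ ^ 2 * e with he'
  have he'0 : 0 ≤ e' := by positivity
  have hGB : B - e' - 2 * M * T - T ^ 2 ≤ Real.pi * κ ^ 2 * area G := by
    have h5 : area (hull G) - ∑ Q ∈ F, area Q - e ≤ area G := by linarith
    have h6 := mul_le_mul_of_nonneg_left h5 (show (0 : ℝ) ≤ Real.pi * κ ^ 2 by positivity)
    have : Real.pi * κ ^ 2 * (area (hull G) - ∑ Q ∈ F, area Q - e) =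
      Real.pi * κ ^ 2 * area (hull G) - Real.pi * κ ^ 2 * ∑ Q ∈ F, area Q - e' := by
      rw [he']; ring
    rw [this] at h6
    linarith
  set B' := max (B - e') 0 with hB'
  have hB'0 : 0 ≤ B' := le_max_right _ _
  have hGB' : B' - 2 * M * T - T ^ 2 ≤ Real.pi * κ ^ 2 * area G := by
    rcases le_total (B - e') 0 with h7 | h7
    · rw [hB', max_eq_right h7]
      have h8 : 0 ≤ Real.pi * κ ^ 2 * area G := by positivity
      have h9 : 0 ≤ 2 * M * T := by positivity
      nlinarith [sq_nonneg T]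
    · rw [hB', max_eq_left h7]
      exact hGB
  have hsqrt : Real.sqrt (B' - 2 * M * T - T ^ 2) ≤ Real.pi * Real.sqrt (area G / Real.pi) := by
    have h10 : Real.pi * Real.sqrt (area G / Real.pi) = Real.sqrt (Real.pi * area G) := by
      rw [show Real.pi * area G = Real.pi ^ 2 * (area G / Real.pi) by field_simp,
        Real.sqrt_mul (by positivity), Real.sqrt_sq hpi.le]
    rw [h10]
    apply Real.sqrt_le_sqrt
    refine hGB'.trans ?_
    have : Real.pi * κ ^ 2 * area G ≤ Real.pi * 1 * area G := by gcongr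
    simpa using this
  have h5 := hl5 B' M T hB'0 hM hT0
  -- the error
  have herr : Real.sqrt (B + M ^ 2) ≤ Real.sqrt (B' + M ^ 2) + δ / 2 := by
    have h11 : B + M ^ 2 ≤ (B' + M ^ 2) + (δ / 2) ^ 2 := by
      have h12 : B - e' ≤ B' := le_max_left _ _
      have h13 : e' ≤ (δ / 2) ^ 2 := by
        rw [he', he]
        have h14 : Real.pi * κ ^ 2 ≤ 4 := by
          have := Real.pi_le_four
          nlinarith
        have h15 : 0 ≤ (δ / 2) ^ 2 := by positivity
        nlinarith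
      linarith
    refine (Real.sqrt_le_sqrt h11).trans ?_
    apply Real.sqrt_le_iff.2
    refine ⟨by positivity, ?_⟩
    have h16 : 0 ≤ B' + M ^ 2 := by positivity
    have h17 := Real.sq_sqrt h16
    have h18 : 0 ≤ Real.sqrt (B' + M ^ 2) * (δ / 2) := by positivity
    rw [add_sq, h17]
    linarith
  have hper' : κ * L + 2 * T ≤ per G := hper
  have hfin' : κ * L - 2 * M + 2 * Real.sqrt (B + M ^ 2) ≤
      per G + 2 * (Real.pi * Real.sqrt (area G / Real.pi)) + δ := by linarith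
  rw [mul_assoc 2 Real.pi]
  exact hfin'

end Pool.Agent.Robin

end

section

/-!
# N1: restriction of a Lipschitz function to a component
-/

open MeasureTheory Set Metric
open scoped ENNReal NNReal Pointwise RealInnerProductSpace

namespace Pool.Agent.Robin

namespace IN1

/-- coordinates are bounded by the norm -/
theorem coord_le (L : E2 ≃ₗᵢ[ℝ] E2) (v : E2) (i : Fin 2) : |(L v) i| ≤ ‖v‖ := by
  have h := PiLp.norm_apply_le (L v) i
  rw [L.norm_map] at h
  exact h

/-- local quasiconvexity near a point of the closure -/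
theorem localpath (G : Set E2) (hG : IsOpen G) (hl : LipBdry G) (p : E2) (hp : p ∈ closure G) :
    ∃ r C : ℝ, 0 < r ∧ 0 ≤ C ∧ ∀ x ∈ G, ∀ x' ∈ G, dist x p < r → dist x' p < r →
      ∃ T : Set E2, IsPreconnected T ∧ x ∈ T ∧ x' ∈ T ∧ T ⊆ G ∧
        ∀ z ∈ T, dist x z ≤ C * dist x x' := by
  by_cases hpG : p ∈ G
  · obtain ⟨r, hr, hb⟩ := Metric.isOpen_iff.1 hG p hpG
    refine ⟨r, 1, hr, zero_le_one, ?_⟩
    intro x _ x' _ hxp hxp'
    refine ⟨segment ℝ x x', (convex_segment x x').isPreconnected, left_mem_segment ℝ x x',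
      right_mem_segment ℝ x x', ?_, ?_⟩
    · exact ((convex_ball p r).segment_subset (mem_ball.2 hxp) (mem_ball.2 hxp')).trans hb
    · intro z hz
      rw [segment_eq_image_lineMap] at hz
      obtain ⟨t, ht, rfl⟩ := hz
      rw [dist_left_lineMap, one_mul, Real.norm_eq_abs, abs_of_nonneg ht.1]
      exact mul_le_of_le_one_left dist_nonneg ht.2
  · have hpf : p ∈ frontier G := ⟨hp, by rwa [hG.interior_eq]⟩
    obtain ⟨L, f, K, a, b, ha, hb, hf, hch⟩ := hl p hpf
    set m := min a b with hm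
    have hm0 : 0 < m := lt_min ha hb
    have hK : (0 : ℝ) ≤ K := K.2
    set r := m / (2 * K + 5) with hr
    have hr0 : 0 < r := by positivity
    have hrm : (2 * K + 5) * r = m := by
      rw [hr]
      field_simp
    refine ⟨r, K + 2, hr0, by positivity, ?_⟩
    intro x hx x' hx' hxp hxp'
    set D := ((K : ℝ) + 1) * dist x x' with hD
    have hdd : dist x x' < 2 * r := by
      have := dist_triangle_right x x' p
      linarith
    have hd0 : 0 ≤ dist x x' := dist_nonneg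
    have hD0 : 0 ≤ D := by positivity
    set e : E2 := L.symm (EuclideanSpace.single (1 : Fin 2) (1 : ℝ)) with he
    have hLe : L e = EuclideanSpace.single (1 : Fin 2) (1 : ℝ) := by
      rw [he, LinearIsometryEquiv.apply_symm_apply]
    have hne : ‖e‖ = 1 := by
      rw [he, LinearIsometryEquiv.norm_map]
      simp
    have hc0 : ∀ (w : E2) (τ : ℝ), (L (w - τ • e)) 0 = (L w) 0 := by
      intro w τ
      rw [map_sub, map_smul, hLe]
      simp
    have hc1 : ∀ (w : E2) (τ : ℝ), (L (w - τ • e)) 1 = (L w) 1 - τ := by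
      intro w τ
      rw [map_sub, map_smul, hLe]
      simp
    -- membership criterion
    have hmem : ∀ z : E2, dist z p < m → (L (z - p)) 1 < f ((L (z - p)) 0) → z ∈ G := by
      intro z hz hlt
      have h0 := coord_le L (z - p) 0
      have h1 := coord_le L (z - p) 1
      rw [dist_eq_norm] at hz
      exact (hch z (lt_of_le_of_lt h0 (lt_of_lt_of_le hz (min_le_left _ _)))
        (lt_of_le_of_lt h1 (lt_of_lt_of_le hz (min_le_right _ _)))).2 hlt
    have hmem' : ∀ z ∈ G, dist z p < m → (L (z - p)) 1 < f ((L (z - p)) 0) := by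
      intro z hzG hz
      have h0 := coord_le L (z - p) 0
      have h1 := coord_le L (z - p) 1
      rw [dist_eq_norm] at hz
      exact (hch z (lt_of_le_of_lt h0 (lt_of_lt_of_le hz (min_le_left _ _)))
        (lt_of_le_of_lt h1 (lt_of_lt_of_le hz (min_le_right _ _)))).1 hzG
    have hrm' : r < m := by nlinarith
    have hxm := hmem' x hx (hxp.trans hrm')
    have hxm' := hmem' x' hx' (hxp'.trans hrm')
    -- going down
    have hdown : ∀ w ∈ G, dist w p < r → ∀ τ : ℝ, 0 ≤ τ → τ ≤ D → w - τ • e ∈ G := by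
      intro w hw hwp τ h0 h1
      apply hmem
      · have h2 : dist (w - τ • e) p ≤ τ + dist w p := by
          have h3 : dist (w - τ • e) w = τ := by
            rw [dist_eq_norm, sub_sub_cancel_left, norm_neg, norm_smul, hne, mul_one,
              Real.norm_eq_abs, abs_of_nonneg h0]
          calc dist (w - τ • e) p ≤ dist (w - τ • e) w + dist w p := dist_triangle _ _ _
            _ = τ + dist w p := by rw [h3]
        have h4 : D ≤ (K + 1) * (2 * r) := mul_le_mul_of_nonneg_left hdd.le (by positivity)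
        nlinarith
      · have e1 : w - τ • e - p = (w - p) - τ • e := by abel
        rw [e1, hc0, hc1]
        have := hmem' w hw (hwp.trans hrm')
        linarith
    -- the three segments
    have hseg1 : segment ℝ x (x - D • e) ⊆ G := by
      intro z hz
      rw [segment_eq_image'] at hz
      obtain ⟨t, ht, rfl⟩ := hz
      have e1 : x + t • (x - D • e - x) = x - (t * D) • e := by
        rw [sub_sub_cancel_left, smul_neg, smul_smul, sub_eq_add_neg]
      simp only [e1]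
      exact hdown x hx hxp _ (mul_nonneg ht.1 hD0) (mul_le_of_le_one_left hD0 ht.2)
    have hseg3 : segment ℝ x' (x' - D • e) ⊆ G := by
      intro z hz
      rw [segment_eq_image'] at hz
      obtain ⟨t, ht, rfl⟩ := hz
      have e1 : x' + t • (x' - D • e - x') = x' - (t * D) • e := by
        rw [sub_sub_cancel_left, smul_neg, smul_smul, sub_eq_add_neg]
      simp only [e1]
      exact hdown x' hx' hxp' _ (mul_nonneg ht.1 hD0) (mul_le_of_le_one_left hD0 ht.2)
    have hpt2 : ∀ z ∈ segment ℝ (x - D • e) (x' - D • e),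
        ∃ t : ℝ, 0 ≤ t ∧ t ≤ 1 ∧ z = x + t • (x' - x) - D • e := by
      intro z hz
      rw [segment_eq_image'] at hz
      obtain ⟨t, ht, rfl⟩ := hz
      refine ⟨t, ht.1, ht.2, ?_⟩
      module
    have hnxx : ‖x' - x‖ = dist x x' := by rw [dist_comm, dist_eq_norm]
    have hseg2 : segment ℝ (x - D • e) (x' - D • e) ⊆ G := by
      intro z hz
      obtain ⟨t, ht0, ht1, rfl⟩ := hpt2 z hz
      have hnt : ‖t • (x' - x)‖ ≤ dist x x' := by
        rw [norm_smul, Real.norm_eq_abs, abs_of_nonneg ht0, hnxx]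
        exact mul_le_of_le_one_left hd0 ht1
      apply hmem
      · have h2 : dist (x + t • (x' - x) - D • e) p ≤ dist x p + dist x x' + D := by
          rw [dist_eq_norm, dist_eq_norm]
          have e1 : x + t • (x' - x) - D • e - p = (x - p) + t • (x' - x) - D • e := by abel
          rw [e1]
          have h3 := norm_sub_le ((x - p) + t • (x' - x)) (D • e)
          have h4 := norm_add_le (x - p) (t • (x' - x))
          have h5 : ‖D • e‖ = D := by
            rw [norm_smul, hne, mul_one, Real.norm_eq_abs, abs_of_nonneg hD0]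
          linarith
        have h4 : D ≤ (K + 1) * (2 * r) := mul_le_mul_of_nonneg_left hdd.le (by positivity)
        have h5 : D = (K + 1) * dist x x' := hD
        have h6 : dist x x' * (K + 2) < 2 * r * (K + 2) :=
          mul_lt_mul_of_pos_right hdd (by positivity)
        -- the total is at most r + (K + 2) * 2 r
        have h7 : dist (x + t • (x' - x) - D • e) p < r + (K + 2) * (2 * r) := by
          nlinarith
        nlinarith
      · have e1 : x + t • (x' - x) - D • e - p = ((x - p) + t • (x' - x)) - D • e := by abel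
        rw [e1, hc0, hc1, map_add]
        have e2 : (L (x - p) + L (t • (x' - x))) 0 = (L (x - p)) 0 + (L (t • (x' - x))) 0 := rfl
        have e3 : (L (x - p) + L (t • (x' - x))) 1 = (L (x - p)) 1 + (L (t • (x' - x))) 1 := rfl
        rw [e2, e3]
        have h0 := coord_le L (t • (x' - x)) 0
        have h1 := coord_le L (t • (x' - x)) 1
        have h2 := hf.dist_le_mul ((L (x - p)) 0) ((L (x - p)) 0 + (L (t • (x' - x))) 0)
        rw [Real.dist_eq, Real.dist_eq] at h2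
        have h3 : |(L (x - p)) 0 - ((L (x - p)) 0 + (L (t • (x' - x))) 0)| ≤ dist x x' := by
          rw [sub_add_cancel_left, abs_neg]
          exact h0.trans hnt
        have h4 := (abs_le.1 h2).2
        have h5 := (abs_le.1 (h1.trans hnt)).2
        have h6 : (K : ℝ) * |(L (x - p)) 0 - ((L (x - p)) 0 + (L (t • (x' - x))) 0)| ≤
            K * dist x x' := mul_le_mul_of_nonneg_left h3 hK
        have h7 : D = (K + 1) * dist x x' := hD
        nlinarith
    refine ⟨segment ℝ x (x - D • e) ∪ (segment ℝ (x - D • e) (x' - D • e) ∪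
      segment ℝ x' (x' - D • e)), ?_, ?_, ?_, ?_, ?_⟩
    · apply IsPreconnected.union (x - D • e) (right_mem_segment ℝ _ _)
        (Or.inl (left_mem_segment ℝ _ _)) (convex_segment _ _).isPreconnected
      exact IsPreconnected.union (x' - D • e) (right_mem_segment ℝ _ _)
        (right_mem_segment ℝ _ _) (convex_segment _ _).isPreconnected
        (convex_segment _ _).isPreconnected
    · exact Or.inl (left_mem_segment ℝ _ _)
    · exact Or.inr (Or.inr (left_mem_segment ℝ _ _))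
    · exact union_subset hseg1 (union_subset hseg2 hseg3)
    · intro z hz
      have h5 : ∀ t : ℝ, 0 ≤ t → t ≤ 1 → ‖(t * D) • e‖ ≤ D := by
        intro t h0 h1
        rw [norm_smul, hne, mul_one, Real.norm_eq_abs, abs_of_nonneg (mul_nonneg h0 hD0)]
        exact mul_le_of_le_one_left hD0 h1
      have h7 : D = (K + 1) * dist x x' := hD
      rcases hz with hz | hz | hz
      · rw [segment_eq_image'] at hz
        obtain ⟨t, ht, rfl⟩ := hz
        have e1 : x + t • (x - D • e - x) = x - (t * D) • e := by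
          rw [sub_sub_cancel_left, smul_neg, smul_smul, sub_eq_add_neg]
        simp only [e1]
        rw [dist_eq_norm, sub_sub_cancel]
        have := h5 t ht.1 ht.2
        nlinarith
      · obtain ⟨t, ht0, ht1, rfl⟩ := hpt2 z hz
        have hnt : ‖t • (x' - x)‖ ≤ dist x x' := by
          rw [norm_smul, Real.norm_eq_abs, abs_of_nonneg ht0, hnxx]
          exact mul_le_of_le_one_left hd0 ht1
        rw [dist_comm, dist_eq_norm]
        have e1 : x + t • (x' - x) - D • e - x = t • (x' - x) - D • e := by abel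
        rw [e1]
        have h3 := norm_sub_le (t • (x' - x)) (D • e)
        have h6 := h5 1 zero_le_one le_rfl
        rw [one_mul] at h6
        nlinarith
      · rw [segment_eq_image'] at hz
        obtain ⟨t, ht, rfl⟩ := hz
        have e1 : x' + t • (x' - D • e - x') = x' - (t * D) • e := by
          rw [sub_sub_cancel_left, smul_neg, smul_smul, sub_eq_add_neg]
        simp only [e1]
        rw [dist_comm, dist_eq_norm]
        have e2 : x' - (t * D) • e - x = (x' - x) - (t * D) • e := by abel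
        rw [e2]
        have h3 := norm_sub_le (x' - x) ((t * D) • e)
        have h6 := h5 t ht.1 ht.2
        nlinarith

end IN1

theorem prn_N1 : S_N1 := by
  classical
  intro G K x₀ φ hG hK hx₀ hφ hφ0 hφK
  obtain ⟨C, hC⟩ := hφ
  set U := connectedComponentIn (G \ K) x₀ with hU
  set ψ₀ : E2 → ℝ := U.indicator φ with hψ
  have hpos : ∀ x, 0 ≤ ψ₀ x := fun x => Set.indicator_nonneg (fun y _ => hφ0 y) x
  -- along a path
  have hpath : ∀ (x x' : E2) (T : Set E2) (c : ℝ), 0 ≤ c → IsPreconnected T → x ∈ T → x' ∈ T →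
      T ⊆ G → (∀ z ∈ T, dist x z ≤ c * dist x x') →
      |ψ₀ x - ψ₀ x'| ≤ C * (1 + c) * dist x x' := by
    intro x x' T c hc hT hxT hxT' hTG hTd
    have hd0 : 0 ≤ dist x x' := dist_nonneg
    have hC0 : (0 : ℝ) ≤ C := C.2
    have hzK : ∀ u ∈ T, ∀ u' ∈ T, u ∈ U → u' ∉ U → ∃ z ∈ T, z ∈ K := by
      intro u hu u' hu' huU huU'
      by_contra hno
      push Not at hno
      apply huU'
      have h1 : T ⊆ G \ K := fun z hz => ⟨hTG hz, hno z hz⟩
      have h2 : T ⊆ connectedComponentIn (G \ K) u := hT.subset_connectedComponentIn hu h1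
      have h3 : connectedComponentIn (G \ K) u = U := by
        rw [hU]
        exact (connectedComponentIn_eq (by rwa [hU] at huU)).symm
      rw [← h3]
      exact h2 hu'
    by_cases h1 : x ∈ U <;> by_cases h2 : x' ∈ U
    · rw [hψ, Set.indicator_of_mem h1, Set.indicator_of_mem h2, ← Real.dist_eq]
      have h3 := hC.dist_le_mul x x'
      have h4 : (C : ℝ) * dist x x' ≤ C * (1 + c) * dist x x' := by
        have : 0 ≤ (C : ℝ) * c * dist x x' := by positivity
        nlinarith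
      linarith
    · obtain ⟨z, hzT, hz⟩ := hzK x hxT x' hxT' h1 h2
      rw [hψ, Set.indicator_of_mem h1, Set.indicator_of_notMem h2, sub_zero]
      have h3 := hC.dist_le_mul x z
      rw [Real.dist_eq, hφK z hz, sub_zero] at h3
      have h4 : (C : ℝ) * dist x z ≤ C * (c * dist x x') :=
        mul_le_mul_of_nonneg_left (hTd z hzT) hC0
      have h5 : 0 ≤ (C : ℝ) * dist x x' := by positivity
      nlinarith
    · obtain ⟨z, hzT, hz⟩ := hzK x' hxT' x hxT h2 h1
      rw [hψ, Set.indicator_of_notMem h1, Set.indicator_of_mem h2, zero_sub, abs_neg]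
      have h3 := hC.dist_le_mul x' z
      rw [Real.dist_eq, hφK z hz, sub_zero] at h3
      have h5 : dist x' z ≤ dist x x' + c * dist x x' := by
        have := dist_triangle x' x z
        rw [dist_comm x' x] at this
        have := hTd z hzT
        linarith
      have h4 : (C : ℝ) * dist x' z ≤ C * (dist x x' + c * dist x x') :=
        mul_le_mul_of_nonneg_left h5 hC0
      nlinarith
    · rw [hψ, Set.indicator_of_notMem h1, Set.indicator_of_notMem h2, sub_zero, abs_zero]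
      positivity
  -- uniform local estimate
  have hcomp : IsCompact (closure G) := hG.isBounded.isCompact_closure
  obtain ⟨c, δ, hδ, hc, hloc⟩ : ∃ c δ : ℝ, 0 < δ ∧ 0 ≤ c ∧ ∀ x ∈ closure G, x ∈ G → ∀ x' ∈ G,
      dist x x' < δ → |ψ₀ x - ψ₀ x'| ≤ c * dist x x' := by
    refine hcomp.induction_on (p := fun S => ∃ c δ : ℝ, 0 < δ ∧ 0 ≤ c ∧ ∀ x ∈ S, x ∈ G →
      ∀ x' ∈ G, dist x x' < δ → |ψ₀ x - ψ₀ x'| ≤ c * dist x x') ?_ ?_ ?_ ?_
    · exact ⟨0, 1, one_pos, le_rfl, fun x hx => absurd hx (Set.notMem_empty x)⟩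
    · rintro s t hst ⟨c, δ, hδ, hc, h⟩
      exact ⟨c, δ, hδ, hc, fun x hx => h x (hst hx)⟩
    · rintro s t ⟨c, δ, hδ, hc, h⟩ ⟨c', δ', hδ', hc', h'⟩
      refine ⟨max c c', min δ δ', lt_min hδ hδ', le_max_of_le_left hc, ?_⟩
      rintro x (hx | hx) hxG x' hx'G hd
      · exact (h x hx hxG x' hx'G (lt_of_lt_of_le hd (min_le_left _ _))).trans
          (mul_le_mul_of_nonneg_right (le_max_left _ _) dist_nonneg)
      · exact (h' x hx hxG x' hx'G (lt_of_lt_of_le hd (min_le_right _ _))).trans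
          (mul_le_mul_of_nonneg_right (le_max_right _ _) dist_nonneg)
    · intro p hp
      obtain ⟨r, c, hr, hc, h⟩ := IN1.localpath G hG.isOpen hG.lip p hp
      refine ⟨ball p (r / 2), mem_nhdsWithin_of_mem_nhds (ball_mem_nhds p (by positivity)),
        C * (1 + c), r / 2, by positivity, by positivity, ?_⟩
      intro x hx hxG x' hx'G hd
      rw [mem_ball] at hx
      have h1 : dist x p < r := by linarith
      have h2 : dist x' p < r := by
        have := dist_triangle_left x' p x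
        linarith
      obtain ⟨T, hT, hxT, hxT', hTG, hTd⟩ := h x hxG x' hx'G h1 h2
      exact hpath x x' T c hc hT hxT hxT' hTG hTd
  -- global estimate
  obtain ⟨D, hD⟩ := Metric.isBounded_iff.1 hG.isBounded
  set M := φ x₀ + C * |D| with hM
  have hM0 : 0 ≤ M := add_nonneg (hφ0 x₀) (by positivity)
  have hb : ∀ x ∈ G, ψ₀ x ≤ M := by
    intro x hx
    by_cases h1 : x ∈ U
    · rw [hψ, Set.indicator_of_mem h1]
      have h2 := hC.dist_le_mul x x₀
      rw [Real.dist_eq] at h2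
      have h3 := (abs_le.1 h2).2
      have h4 : (C : ℝ) * dist x x₀ ≤ C * |D| :=
        mul_le_mul_of_nonneg_left ((hD hx hx₀.1).trans (le_abs_self D)) C.2
      linarith
    · rw [hψ, Set.indicator_of_notMem h1]
      exact hM0
  have hlip : LipschitzOnWith (Real.toNNReal (max c (M / δ))) ψ₀ G := by
    apply LipschitzOnWith.of_dist_le_mul
    intro x hx x' hx'
    have h0 : 0 ≤ max c (M / δ) := le_max_of_le_left hc
    rw [Real.coe_toNNReal _ h0, Real.dist_eq]
    by_cases hd : dist x x' < δ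
    · exact (hloc x (subset_closure hx) hx x' hx' hd).trans
        (mul_le_mul_of_nonneg_right (le_max_left _ _) dist_nonneg)
    · push Not at hd
      have h1 : |ψ₀ x - ψ₀ x'| ≤ M := by
        rw [abs_le]
        constructor
        · linarith [hpos x, hb x' hx']
        · linarith [hpos x', hb x hx]
      have h2 : M ≤ M / δ * dist x x' := by
        rw [div_mul_eq_mul_div, le_div_iff₀ hδ]
        exact mul_le_mul_of_nonneg_left hd hM0
      exact (h1.trans h2).trans (mul_le_mul_of_nonneg_right (le_max_right _ _) dist_nonneg)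
  obtain ⟨g, hg, hgeq⟩ := hlip.extend_real
  have hUG : U ⊆ G := (connectedComponentIn_subset (G \ K) x₀).trans sdiff_subset
  refine ⟨g, ⟨_, hg⟩, ?_, ?_⟩
  · intro x hx
    rw [← hgeq (hUG hx), hψ, Set.indicator_of_mem hx]
  · intro x hx
    rw [← hgeq hx.1, hψ, Set.indicator_of_notMem hx.2]

end Pool.Agent.Robin

end
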