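import Pool.Agent.Work.MP_4b551e_an.Stmts29

/-! Bundle of small proof modules (one section per former module). -/

section

/-!
# MP_4b551e_an: item K8 (boundary points of a pocket below its mouth line)
-/

open MeasureTheory Set Metric
open scoped ENNReal NNReal Pointwise RealInnerProductSpace

namespace Pool.Agent.Robin

namespace K8

/-- A preconnected set meeting the open set `Q` and not its frontier is inside `Q`. -/
theorem sub_of_disj (S Q : Set E2) (hS : IsPreconnected S) (hQ : IsOpen Q)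
    (hne : (S ∩ Q).Nonempty) (hd : ∀ y ∈ S, y ∉ frontier Q) : S ⊆ Q := by
  apply hS.subset_of_closure_inter_subset hQ hne
  rintro y ⟨hyc, hyS⟩
  by_contra hy
  exact hd y hyS ⟨hyc, by rwa [hQ.interior_eq]⟩

end K8

open K8 in
theorem pr_K8 (h1 : T_K1) (h2 : T_K2) : T_K8 := by
  intro G Q x₁ ν hG hP hS hm z hz hzn
  obtain ⟨hQo, hQe, -, hHc, -, -, -, hfr, -⟩ := h2 G Q hG.isOpen hG.isConnected.nonempty
    hG.isBounded hP
  have hGH : closure G ⊆ hull G := subset_convexHull ℝ _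
  have hzm : z ∉ mouth G Q := fun h => by
    have := hm z h
    linarith
  have hzG : z ∈ frontier G := by
    rcases hfr hz with h | h
    · exact h
    · exact absurd ⟨hz, h⟩ hzm
  refine ⟨?_, hzG⟩
  by_contra hzi
  have hzH : z ∈ hull G := hGH (frontier_subset_closure hzG)
  have hzf : z ∈ frontier (hull G) := ⟨subset_closure hzH, hzi⟩
  have hopen : IsOpen {y : E2 | ⟪y - x₁, ν⟫ < 0} := by
    apply isOpen_lt _ continuous_const
    fun_prop
  obtain ⟨ε, hε, hball⟩ := Metric.isOpen_iff.1 hopen z hzn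
  obtain ⟨U, hUo, hzU, hUb, hUc, -⟩ := h1 G hG z hzG ε hε
  -- `S` meets `Q`
  have hmeet : ((U \ closure G) ∩ Q).Nonempty := by
    obtain ⟨y, hyU, hyQ⟩ := mem_closure_iff.1 (frontier_subset_closure hz) U hUo hzU
    exact ⟨y, ⟨hyU, (hQe hyQ).2⟩, hyQ⟩
  have hnot : ¬ (U \ closure G) ⊆ Q := by
    intro hsub
    have hzc : z ∈ closure (hull G)ᶜ := by
      rw [closure_compl]
      exact hzi
    obtain ⟨y, hyU, hyH⟩ := mem_closure_iff.1 hzc U hUo hzU
    have hyQ : y ∈ Q := hsub ⟨hyU, fun h => hyH (hGH h)⟩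
    exact hyH (interior_subset (hQe hyQ).1)
  apply hnot
  apply sub_of_disj _ _ hUc.isPreconnected hQo hmeet
  rintro y ⟨hyU, hyG⟩ hyf
  rcases hfr hyf with h | h
  · exact hyG (frontier_subset_closure h)
  · have hy0 := hm y ⟨hyf, h⟩
    have hy1 : ⟪y - x₁, ν⟫ < 0 := hball (hUb hyU)
    linarith

end Pool.Agent.Robin

end

section

/-!
# MP_4b551e_an: derivatives of slices
-/

open MeasureTheory Set Metric Filter Topology
open scoped ENNReal NNReal Pointwise RealInnerProductSpace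

namespace Pool.Agent.Robin

theorem pr_K9 (hq : T_Q1) : T_K9 := by
  intro v n u K hn hu
  have hrot : Continuous fun t : ℝ => t • rot n := by fun_prop
  set D : Set E2 := {x | DifferentiableAt ℝ u x} with hD
  have hDm : MeasurableSet D := measurableSet_of_differentiableAt ℝ u
  have hD0 : volume Dᶜ = 0 := by
    have h := hu.ae_differentiableAt (μ := (volume : Measure E2))
    exact h
  set F : E2 → ℝ≥0∞ := Dᶜ.indicator 1 with hF
  have hFm : Measurable F := measurable_one.indicator hDm.compl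
  have h1 := hq v n F hn hFm
  rw [hF, lintegral_indicator_one hDm.compl, hD0, ← hF] at h1
  have hcm : Measurable fun p : ℝ × ℝ => F (v + p.2 • n + p.1 • rot n) :=
    hFm.comp (by fun_prop)
  have h2 := (lintegral_eq_zero_iff (hcm.lintegral_prod_right')).mp h1.symm
  filter_upwards [h2] with t ht
  have hcm2 : Measurable fun s : ℝ => F (v + s • n + t • rot n) := hFm.comp (by fun_prop)
  have h3 := (lintegral_eq_zero_iff hcm2).mp ht
  filter_upwards [h3] with s hs
  have hd : DifferentiableAt ℝ u (v + s • n + t • rot n) := by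
    by_contra hc
    have : F (v + s • n + t • rot n) = 1 := by
      rw [hF, indicator_of_mem (show v + s • n + t • rot n ∈ Dᶜ from hc)]
      rfl
    simp only [Pi.zero_apply] at hs
    rw [this] at hs
    exact one_ne_zero hs
  have hc : HasDerivAt (fun σ : ℝ => v + σ • n + t • rot n) n s := by
    have := (((hasDerivAt_id s).smul_const n).const_add v).add_const (t • rot n)
    simpa using this
  have h4 : HasDerivAt (fun σ : ℝ => u (v + σ • n + t • rot n))
      (fderiv ℝ u (v + s • n + t • rot n) n) s :=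
    hd.hasFDerivAt.comp_hasDerivAt s hc
  rw [h4.deriv]
  have h5 := (fderiv ℝ u (v + s • n + t • rot n)).le_opNorm n
  rw [hn, mul_one] at h5
  rw [← sq_abs]
  exact pow_le_pow_left₀ (abs_nonneg _) h5 2

end Pool.Agent.Robin

end

section

/-!
# MP_4b551e_an: item O1 (from the extended inequality to `OuterLe`)
-/

open MeasureTheory Set Metric
open scoped ENNReal NNReal Pointwise RealInnerProductSpace

namespace Pool.Agent.Robin

namespace O1

theorem en_sub_nonneg (k : ℝ) (u : E2 → ℝ) (hu : ∀ x, 1 ≤ u x) (x : E2) :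
    0 ≤ en k u x - k ^ 2 := by
  unfold en
  have h1 : 0 ≤ ‖fderiv ℝ u x‖ ^ 2 := by positivity
  have h2 : 1 ≤ (u x) ^ 2 := by nlinarith [hu x]
  nlinarith [sq_nonneg k]

theorem measurable_en_sub (k : ℝ) (u : E2 → ℝ) (hu : Continuous u) :
    Measurable (fun x => en k u x - k ^ 2) := by
  unfold en
  exact (((measurable_fderiv ℝ u).norm.pow_const 2).add
    ((hu.measurable.pow_const 2).const_mul (k ^ 2))).sub_const (k ^ 2)

theorem bd_fin (G : Set E2) (u : E2 → ℝ) (hG : Bornology.IsBounded G) (hu : Continuous u)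
    (hfin : μH[1] (frontier G) < ⊤) :
    ∫⁻ x in frontier G, ENNReal.ofReal ((u x) ^ 2) ∂(μH[1]) < ⊤ := by
  have hc : IsCompact (frontier G) := Metric.isCompact_of_isClosed_isBounded isClosed_frontier
    (hG.closure.subset frontier_subset_closure)
  obtain ⟨C, hC⟩ := hc.exists_bound_of_continuousOn (hu.pow 2).continuousOn
  calc ∫⁻ x in frontier G, ENNReal.ofReal ((u x) ^ 2) ∂(μH[1])
      ≤ ∫⁻ x in frontier G, ENNReal.ofReal C ∂(μH[1]) := by
        apply setLIntegral_mono' isClosed_frontier.measurableSet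
        intro x hx
        apply ENNReal.ofReal_le_ofReal
        exact (le_abs_self _).trans (by simpa using hC x hx)
    _ = ENNReal.ofReal C * μH[1] (frontier G) := by
        rw [setLIntegral_const]
    _ < ⊤ := ENNReal.mul_lt_top ENNReal.ofReal_lt_top hfin

end O1

open O1 in
theorem pr_O1 : T_O1 := by
  intro k G V hG hk hfin h ε hε
  obtain ⟨u, ⟨K, hK⟩, hu1, M, B, hM, hB, hBM, hle⟩ := h ε hε
  refine ⟨u, ⟨K, hK⟩, hu1, ?_⟩
  have hcont : Continuous u := hK.continuous
  have hfin2 := bd_fin G u hG.isBounded hcont hfin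
  have I1 : ∫ x in G, (en k u x - k ^ 2) =
      (∫⁻ x in G, ENNReal.ofReal (en k u x - k ^ 2)).toReal :=
    integral_eq_lintegral_of_nonneg_ae
      (Filter.Eventually.of_forall fun x => en_sub_nonneg k u hu1 x)
      (measurable_en_sub k u hcont).aestronglyMeasurable
  have I2 : ∫ x in frontier G, (u x) ^ 2 ∂(μH[1]) =
      (∫⁻ x in frontier G, ENNReal.ofReal ((u x) ^ 2) ∂(μH[1])).toReal :=
    integral_eq_lintegral_of_nonneg_ae
      (Filter.Eventually.of_forall fun x => sq_nonneg (u x))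
      (hcont.measurable.pow_const 2).aestronglyMeasurable
  have hR : (∫⁻ x in frontier G, ENNReal.ofReal ((u x) ^ 2) ∂(μH[1])) + ENNReal.ofReal B < ⊤ :=
    ENNReal.add_lt_top.2 ⟨hfin2, ENNReal.ofReal_lt_top⟩
  have hL : (∫⁻ x in G, ENNReal.ofReal (en k u x - k ^ 2)) + ENNReal.ofReal M < ⊤ :=
    hle.trans_lt hR
  have hL1 : (∫⁻ x in G, ENNReal.ofReal (en k u x - k ^ 2)) ≠ ⊤ :=
    (ENNReal.add_lt_top.1 hL).1.ne
  have h3 := ENNReal.toReal_mono hR.ne hle
  rw [ENNReal.toReal_add hL1 ENNReal.ofReal_ne_top,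
    ENNReal.toReal_add hfin2.ne ENNReal.ofReal_ne_top,
    ENNReal.toReal_ofReal hM, ENNReal.toReal_ofReal hB] at h3
  rw [I1, I2]
  linarith

end Pool.Agent.Robin

end

section

/-!
# MP_4b551e_an: item P1 (vertices and edges of polygons with equally spaced normals)
-/

open MeasureTheory Set Metric
open scoped ENNReal NNReal Pointwise RealInnerProductSpace

namespace Pool.Agent.Robin

namespace P1

theorem inner_eq (x y : E2) : ⟪x, y⟫ = x 0 * y 0 + x 1 * y 1 := by
  rw [PiLp.inner_apply]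
  simp [Fin.sum_univ_two]
  ring

theorem sin_dl_pos {N : ℕ} (hN : 8 ≤ N) : 0 < Real.sin (dl N) := by
  have hN' : (8 : ℝ) ≤ N := by exact_mod_cast hN
  have hpi := Real.pi_pos
  apply Real.sin_pos_of_pos_of_lt_pi
  · unfold dl; positivity
  · unfold dl
    rw [div_lt_iff₀ (by linarith)]
    nlinarith

theorem nv0 (N : ℕ) (i : ℤ) : nv N i 0 = Real.cos (i * dl N) := by simp [nv, dirv]
theorem nv1 (N : ℕ) (i : ℤ) : nv N i 1 = Real.sin (i * dl N) := by simp [nv, dirv]
theorem tv0 (N : ℕ) (i : ℤ) : tv N i 0 = -Real.sin (i * dl N) := by simp [tv, rot, nv, dirv]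
theorem tv1 (N : ℕ) (i : ℤ) : tv N i 1 = Real.cos (i * dl N) := by simp [tv, rot, nv, dirv]

end P1

open P1 in
theorem pr_P1 : T_P1 := by
  intro N c i hN
  have hs := sin_dl_pos hN
  have hs' := hs.ne'
  have hsc := Real.sin_sq_add_cos_sq (dl N)
  have hic := Real.sin_sq_add_cos_sq ((i : ℝ) * dl N)
  have e1 : ((i + 1 : ℤ) : ℝ) * dl N = (i : ℝ) * dl N + dl N := by push_cast; ring
  have e2 : ((i - 1 : ℤ) : ℝ) * dl N = (i : ℝ) * dl N - dl N := by push_cast; ring
  refine ⟨?_, ?_, ?_⟩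
  · ext j
    fin_cases j
    · simp only [vx, el, PiLp.sub_apply, PiLp.add_apply, PiLp.smul_apply, smul_eq_mul, Fin.zero_eta,
        nv0, tv0, e2, sub_add_cancel, Real.cos_sub, Real.sin_sub]
      field_simp
      have h2 : Real.cos (dl N) ^ 2 = 1 - Real.sin (dl N) ^ 2 := by linarith
      ring_nf
      rw [h2]
      ring
    · simp only [vx, el, PiLp.sub_apply, PiLp.add_apply, PiLp.smul_apply, smul_eq_mul, Fin.mk_one,
        nv1, tv1, e2, sub_add_cancel, Real.cos_sub, Real.sin_sub]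
      field_simp
      have h2 : Real.cos (dl N) ^ 2 = 1 - Real.sin (dl N) ^ 2 := by linarith
      ring_nf
      rw [h2]
      ring
  · rw [inner_eq]
    simp only [vx, PiLp.add_apply, PiLp.smul_apply, smul_eq_mul, nv0, nv1, tv0, tv1]
    have h2 : Real.cos ((i : ℝ) * dl N) ^ 2 = 1 - Real.sin ((i : ℝ) * dl N) ^ 2 := by linarith
    ring_nf
    rw [h2]
    ring
  · rw [inner_eq]
    simp only [vx, PiLp.add_apply, PiLp.smul_apply, smul_eq_mul, nv0, nv1, tv0, tv1, e1,
      Real.cos_add, Real.sin_add]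
    field_simp
    have h2 : Real.cos ((i : ℝ) * dl N) ^ 2 = 1 - Real.sin ((i : ℝ) * dl N) ^ 2 := by linarith
    have h3 : Real.cos (dl N) ^ 2 = 1 - Real.sin (dl N) ^ 2 := by linarith
    ring_nf
    rw [h2]
    ring

end Pool.Agent.Robin

end

section

/-!
# MP_4b551e_an: item P2 (the vertices lie in the polygon)
-/

open MeasureTheory Set Metric
open scoped ENNReal NNReal Pointwise RealInnerProductSpace

namespace Pool.Agent.Robin

namespace P2

theorem inner_eq (x y : E2) : ⟪x, y⟫ = x 0 * y 0 + x 1 * y 1 := by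
  rw [PiLp.inner_apply]
  simp [Fin.sum_univ_two]
  ring

theorem nv0 (N : ℕ) (i : ℤ) : nv N i 0 = Real.cos (i * dl N) := by simp [nv, dirv]
theorem nv1 (N : ℕ) (i : ℤ) : nv N i 1 = Real.sin (i * dl N) := by simp [nv, dirv]
theorem tv0 (N : ℕ) (i : ℤ) : tv N i 0 = -Real.sin (i * dl N) := by simp [tv, rot, nv, dirv]
theorem tv1 (N : ℕ) (i : ℤ) : tv N i 1 = Real.cos (i * dl N) := by simp [tv, rot, nv, dirv]

theorem inner_tv_nv (N : ℕ) (a b : ℤ) : ⟪tv N a, nv N b⟫ = Real.sin (((b - a : ℤ) : ℝ) * dl N) := by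
  rw [inner_eq, nv0, nv1, tv0, tv1]
  have : ((b - a : ℤ) : ℝ) * dl N = (b : ℝ) * dl N - a * dl N := by push_cast; ring
  rw [this, Real.sin_sub]
  ring

theorem nv_add_N {N : ℕ} (hN : 8 ≤ N) (i : ℤ) : nv N (i + N) = nv N i := by
  have hN' : (8 : ℝ) ≤ N := by exact_mod_cast hN
  have e : ((i + N : ℤ) : ℝ) * dl N = i * dl N + 2 * Real.pi := by
    unfold dl
    push_cast
    field_simp
  ext j
  fin_cases j
  · simp only [Fin.zero_eta, nv0, e, Real.cos_add_two_pi]
  · simp only [Fin.mk_one, nv1, e, Real.sin_add_two_pi]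

/-- forward estimate -/
theorem fwd (h1 : T_P1) {N : ℕ} {c : ℤ → ℝ} (hc : Supp N c) (i : ℤ) (j : ℤ) :
    ∀ m : ℕ, i + m ≤ j → ((j - i : ℤ) : ℝ) * dl N ≤ Real.pi →
      ⟪vx N c i, nv N j⟫ ≤ ⟪vx N c (i + m), nv N j⟫ := by
  intro m
  induction m with
  | zero => intro _ _; simp
  | succ m ih =>
    intro hm hpi
    refine (ih (by push_cast at hm; linarith) hpi).trans ?_
    have hd : 0 ≤ dl N := by unfold dl; have := Real.pi_pos; positivity
    have h := (h1 N c (i + m + 1) hc.N_le).1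
    have e : vx N c (i + m + 1) = vx N c (i + m) + el N c (i + m + 1) • tv N (i + m + 1) := by
      rw [← h]; simp
    have e2 : (i + ((m + 1 : ℕ) : ℤ)) = i + m + 1 := by push_cast; ring
    rw [e2, e, inner_add_left, inner_smul_left, inner_tv_nv]
    have h3 : 0 ≤ Real.sin (((j - (i + m + 1) : ℤ) : ℝ) * dl N) := by
      apply Real.sin_nonneg_of_nonneg_of_le_pi
      · have : (0 : ℝ) ≤ ((j - (i + m + 1) : ℤ) : ℝ) := by
          exact_mod_cast (by push_cast at hm; omega : (0 : ℤ) ≤ j - (i + m + 1))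
        positivity
      · refine le_trans ?_ hpi
        apply mul_le_mul_of_nonneg_right _ hd
        push_cast
        have : (0 : ℝ) ≤ m := by positivity
        linarith
    have := mul_nonneg (hc.el_nonneg (i + m + 1)) h3
    simp only [conj_trivial]
    linarith

/-- backward estimate -/
theorem bwd (h1 : T_P1) {N : ℕ} {c : ℤ → ℝ} (hc : Supp N c) (i : ℤ) (j : ℤ) :
    ∀ m : ℕ, j ≤ i - m → ((i - j : ℤ) : ℝ) * dl N ≤ Real.pi →
      ⟪vx N c i, nv N j⟫ ≤ ⟪vx N c (i - m), nv N j⟫ := by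
  intro m
  induction m with
  | zero => intro _ _; simp
  | succ m ih =>
    intro hm hpi
    refine (ih (by push_cast at hm; linarith) hpi).trans ?_
    have hd : 0 ≤ dl N := by unfold dl; have := Real.pi_pos; positivity
    have h := (h1 N c (i - m) hc.N_le).1
    have e2 : (i - ((m + 1 : ℕ) : ℤ)) = i - m - 1 := by push_cast; ring
    have e : vx N c (i - m) = vx N c (i - m - 1) + el N c (i - m) • tv N (i - m) := by
      rw [← h]; simp
    rw [e2, e, inner_add_left, inner_smul_left, inner_tv_nv]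
    have h3 : Real.sin (((j - (i - m) : ℤ) : ℝ) * dl N) ≤ 0 := by
      apply Real.sin_nonpos_of_nonpos_of_neg_pi_le
      · have : ((j - (i - m) : ℤ) : ℝ) ≤ 0 := by
          exact_mod_cast (by push_cast at hm; omega : j - (i - m) ≤ (0 : ℤ))
        nlinarith
      · push_cast at hpi ⊢
        have : (0 : ℝ) ≤ m := by positivity
        nlinarith
    have := mul_nonneg (hc.el_nonneg (i - m)) (neg_nonneg.2 h3)
    simp only [conj_trivial]
    linarith

end P2

open P2 in
theorem pr_P2 (h1 : T_P1) : T_P2 := by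
  intro N c hc i j
  have hN := hc.N_le
  have hN0 : (0 : ℤ) < N := by omega
  have hN' : (8 : ℝ) ≤ N := by exact_mod_cast hN
  have key : ∀ k : ℤ, nv N (j + k * N) = nv N j ∧ c (j + k * N) = c j := by
    intro k
    induction k using Int.induction_on with
    | zero => simp
    | succ k ih =>
      have e : j + ((k : ℤ) + 1) * N = (j + k * N) + N := by ring
      rw [e, nv_add_N hN, hc.per]
      exact ih
    | pred k ih =>
      have e : j + (-(k : ℤ)) * N = (j + (-(k : ℤ) - 1) * N) + N := by ring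
      rw [e, nv_add_N hN, hc.per] at ih
      exact ih
  -- choose representative
  obtain ⟨r, hr0, hrN, q, hq⟩ : ∃ r : ℤ, 0 ≤ r ∧ r < N ∧ ∃ q : ℤ, j = i + r + q * N := by
    refine ⟨(j - i) % N, Int.emod_nonneg _ hN0.ne', Int.emod_lt_of_pos _ hN0, (j - i) / N, ?_⟩
    have := Int.emod_add_mul_ediv (j - i) N
    linarith
  by_cases hr : 2 * r ≤ N
  · have e : i + r = j + (-q) * N := by rw [hq]; ring
    obtain ⟨m, rfl⟩ := Int.eq_ofNat_of_zero_le hr0
    have hk := key (-q)
    rw [← e] at hk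
    rw [← hk.1, ← hk.2]
    refine (fwd h1 hc i (i + m) m le_rfl ?_).trans ?_
    · have : ((m : ℝ)) * 2 ≤ N := by
        have : 2 * (m : ℤ) ≤ N := hr
        have h2 : ((2 * (m : ℤ) : ℤ) : ℝ) ≤ ((N : ℤ) : ℝ) := by exact_mod_cast this
        push_cast at h2
        linarith
      unfold dl
      push_cast
      rw [← mul_div_assoc, div_le_iff₀ (by linarith)]
      nlinarith [Real.pi_pos]
    · exact ((h1 N c (i + m) hN).2.1).le
  · push Not at hr
    have hs0 : 0 ≤ (N : ℤ) - r := by omega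
    obtain ⟨m, hm⟩ := Int.eq_ofNat_of_zero_le hs0
    have e : i - m = j + (-q - 1) * N := by rw [hq]; linarith
    have hk := key (-q - 1)
    rw [← e] at hk
    rw [← hk.1, ← hk.2]
    refine (bwd h1 hc i (i - m) m le_rfl ?_).trans ?_
    · have : ((m : ℝ)) * 2 ≤ N := by
        have : 2 * (m : ℤ) ≤ N := by omega
        have h2 : ((2 * (m : ℤ) : ℤ) : ℝ) ≤ ((N : ℤ) : ℝ) := by exact_mod_cast this
        push_cast at h2
        linarith
      unfold dl
      push_cast
      rw [← mul_div_assoc, div_le_iff₀ (by linarith)]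
      nlinarith [Real.pi_pos]
    · exact ((h1 N c (i - m) hN).2.1).le

end Pool.Agent.Robin

end

section

/-!
# MP_4b551e_an: item P2b (the polygon is compact, convex and contains the origin)
-/

open MeasureTheory Set Metric
open scoped ENNReal NNReal Pointwise RealInnerProductSpace

namespace Pool.Agent.Robin

namespace P2b

theorem inner_eq (x y : E2) : ⟪x, y⟫ = x 0 * y 0 + x 1 * y 1 := by
  rw [PiLp.inner_apply]
  simp [Fin.sum_univ_two]
  ring

theorem nv0 (N : ℕ) (i : ℤ) : nv N i 0 = Real.cos (i * dl N) := by simp [nv, dirv]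
theorem nv1 (N : ℕ) (i : ℤ) : nv N i 1 = Real.sin (i * dl N) := by simp [nv, dirv]

theorem norm_dirv (θ : ℝ) : ‖dirv θ‖ = 1 := by
  rw [EuclideanSpace.norm_eq, Real.sqrt_eq_one]
  simp [dirv, Fin.sum_univ_two, Real.cos_sq_add_sin_sq]

theorem polar (x : E2) : ∃ θ : ℝ, x = ‖x‖ • dirv θ := by
  refine ⟨Complex.arg ⟨x 0, x 1⟩, ?_⟩
  have hn : ‖x‖ = ‖(⟨x 0, x 1⟩ : ℂ)‖ := by
    rw [EuclideanSpace.norm_eq, Fin.sum_univ_two, Complex.norm_def, Complex.normSq_apply]
    simp [sq]
  ext j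
  fin_cases j
  · simp only [Fin.zero_eta, PiLp.smul_apply, smul_eq_mul, dirv]
    rw [hn]
    have := Complex.norm_mul_cos_arg (⟨x 0, x 1⟩ : ℂ)
    simp [this]
  · simp only [Fin.mk_one, PiLp.smul_apply, smul_eq_mul, dirv]
    rw [hn]
    have := Complex.norm_mul_sin_arg (⟨x 0, x 1⟩ : ℂ)
    simp [this]

theorem bounded_c {N : ℕ} {c : ℤ → ℝ} (hc : Supp N c) : ∃ M, ∀ i, c i ≤ M := by
  have hN0 : (0 : ℤ) < N := by have := hc.N_le; omega
  have key : ∀ (j k : ℤ), c (j + k * N) = c j := by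
    intro j k
    induction k using Int.induction_on with
    | zero => simp
    | succ k ih =>
      have e : j + ((k : ℤ) + 1) * N = (j + k * N) + N := by ring
      rw [e, hc.per]
      exact ih
    | pred k ih =>
      have e : j + (-(k : ℤ)) * N = (j + (-(k : ℤ) - 1) * N) + N := by ring
      rw [e, hc.per] at ih
      exact ih
  refine ⟨∑ r ∈ Finset.range N, c (r : ℤ), fun i => ?_⟩
  have h := key (i % N) (i / N)
  have e : i % N + i / N * N = i := by
    have := Int.emod_add_mul_ediv i N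
    linarith
  rw [e] at h
  rw [h]
  obtain ⟨m, hm⟩ := Int.eq_ofNat_of_zero_le (Int.emod_nonneg i hN0.ne')
  have hlt := Int.emod_lt_of_pos i hN0
  rw [hm] at hlt ⊢
  have : m ∈ Finset.range N := Finset.mem_range.2 (by exact_mod_cast hlt)
  exact Finset.single_le_sum (f := fun r : ℕ => c (r : ℤ)) (fun r _ => (hc.pos r).le) this

end P2b

open P2b in
theorem pr_P2b : T_P2b := by
  intro N c hc
  have hN := hc.N_le
  have hN' : (8 : ℝ) ≤ N := by exact_mod_cast hN
  have hpi := Real.pi_pos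
  have hset : poly N c = ⋂ i : ℤ, {x | ⟪x, nv N i⟫ ≤ c i} := by
    ext x; simp [poly]
  refine ⟨?_, ?_, ?_⟩
  · refine Metric.isCompact_of_isClosed_isBounded ?_ ?_
    · rw [hset]
      exact isClosed_iInter fun i => isClosed_le (by fun_prop) (by fun_prop)
    · obtain ⟨M, hM⟩ := bounded_c hc
      refine (Metric.isBounded_iff_subset_closedBall (0 : E2)).2 ⟨2 * M, fun x hx => ?_⟩
      rw [mem_closedBall_zero_iff]
      obtain ⟨φ, hφ⟩ := polar x
      have hd : 0 < dl N := by unfold dl; positivity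
      -- nearest multiple
      set i : ℤ := round (φ / dl N) with hi
      have habs : |φ - i * dl N| ≤ Real.pi / 8 := by
        have h1 := abs_sub_round (φ / dl N)
        rw [← hi] at h1
        have h2 : φ - i * dl N = (φ / dl N - i) * dl N := by field_simp
        rw [h2, abs_mul, abs_of_pos hd]
        have h3 : dl N ≤ Real.pi / 4 := by
          unfold dl
          rw [div_le_div_iff₀ (by linarith) (by norm_num)]
          nlinarith
        calc |φ / dl N - i| * dl N ≤ 1 / 2 * (Real.pi / 4) := by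
              apply mul_le_mul h1 h3 hd.le (by norm_num)
          _ = Real.pi / 8 := by ring
      have hcos : 1 / 2 ≤ Real.cos (φ - i * dl N) := by
        rw [← Real.cos_abs, ← Real.cos_pi_div_three]
        apply Real.cos_le_cos_of_nonneg_of_le_pi (abs_nonneg _) (by linarith)
        linarith
      have h4 := hx i
      rw [hφ, inner_smul_left, inner_eq, nv0, nv1] at h4
      have h5 : dirv φ 0 * Real.cos (i * dl N) + dirv φ 1 * Real.sin (i * dl N) =
          Real.cos (φ - i * dl N) := by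
        rw [Real.cos_sub]; simp [dirv]
      rw [h5] at h4
      simp only [conj_trivial] at h4
      have h6 := hM i
      have h7 := norm_nonneg x
      nlinarith
  · rw [hset]
    refine convex_iInter fun i => ?_
    have : {x : E2 | ⟪x, nv N i⟫ ≤ c i} = {x | (innerSL ℝ (nv N i)) x ≤ c i} := by
      ext x; simp [real_inner_comm]
    rw [this]
    exact convex_halfSpace_le (innerSL ℝ (nv N i)).toLinearMap.isLinear _
  · intro i
    simpa using (hc.pos i).le

end Pool.Agent.Robin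

end

section

/-!
# Item P3: the plane is covered by the polygon, the half strips and the sectors
-/

open MeasureTheory Set Metric
open scoped ENNReal NNReal Pointwise RealInnerProductSpace

namespace Pool.Agent.Robin

namespace P3

theorem inner_eq (x y : E2) : ⟪x, y⟫ = x 0 * y 0 + x 1 * y 1 := by
  simp only [PiLp.inner_apply, Fin.sum_univ_two, RCLike.inner_apply, conj_trivial]
  ring

theorem dirv0 (θ : ℝ) : (dirv θ) 0 = Real.cos θ := rfl
theorem dirv1 (θ : ℝ) : (dirv θ) 1 = Real.sin θ := rfl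
theorem rot0 (v : E2) : (rot v) 0 = -(v 1) := rfl
theorem rot1 (v : E2) : (rot v) 1 = v 0 := rfl

theorem polar (u : E2) (hu : u ≠ 0) :
    ∃ r θ : ℝ, 0 < r ∧ 0 ≤ θ ∧ θ < 2 * Real.pi ∧ u = r • dirv θ := by
  set z : ℂ := ⟨u 0, u 1⟩ with hz
  have hz0 : z ≠ 0 := by
    intro h
    apply hu
    have h0 : u 0 = 0 := congrArg Complex.re h
    have h1 : u 1 = 0 := congrArg Complex.im h
    ext j
    fin_cases j
    · exact h0
    · exact h1
  have hr : 0 < ‖z‖ := norm_pos_iff.2 hz0
  have hc : ‖z‖ * Real.cos (Complex.arg z) = u 0 := Complex.norm_mul_cos_arg z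
  have hs : ‖z‖ * Real.sin (Complex.arg z) = u 1 := Complex.norm_mul_sin_arg z
  have h1 := Complex.neg_pi_lt_arg z
  have h2 := Complex.arg_le_pi z
  have hpi := Real.pi_pos
  by_cases h0 : 0 ≤ Complex.arg z
  · refine ⟨‖z‖, Complex.arg z, hr, h0, by linarith, ?_⟩
    ext j
    fin_cases j
    · exact hc.symm
    · exact hs.symm
  · refine ⟨‖z‖, Complex.arg z + 2 * Real.pi, hr, by linarith, by linarith, ?_⟩
    ext j
    fin_cases j
    · show u 0 = ‖z‖ * Real.cos (Complex.arg z + 2 * Real.pi)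
      rw [Real.cos_add_two_pi]
      exact hc.symm
    · show u 1 = ‖z‖ * Real.sin (Complex.arg z + 2 * Real.pi)
      rw [Real.sin_add_two_pi]
      exact hs.symm

theorem nearest (K : Set E2) (hK : IsCompact K) (hc : Convex ℝ K) (hne : K.Nonempty) (x : E2) :
    ∃ y ∈ K, ∀ w ∈ K, ⟪x - y, w - y⟫ ≤ 0 := by
  obtain ⟨y, hy, h⟩ := exists_norm_eq_iInf_of_complete_convex hne hK.isComplete hc x
  exact ⟨y, hy, (norm_eq_iInf_iff_real_inner_le_zero hc hy).1 h⟩

theorem line_null (t : E2) (ht : t ≠ 0) (a : ℝ) : volume {x : E2 | ⟪x, t⟫ = a} = 0 := by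
  have hpos : 0 < ⟪t, t⟫ := real_inner_self_pos.2 ht
  set x₀ : E2 := (a / ⟪t, t⟫) • t with hx₀
  have h0 : ⟪x₀, t⟫ = a := by
    rw [hx₀, real_inner_smul_left]
    field_simp
  set S : Submodule ℝ E2 := (ℝ ∙ t)ᗮ with hS
  have hST : S ≠ ⊤ := by
    intro h
    have h1 : t ∈ S := by rw [h]; exact Submodule.mem_top
    rw [hS, Submodule.mem_orthogonal_singleton_iff_inner_right] at h1
    exact hpos.ne' h1
  have h2 : {x : E2 | ⟪x, t⟫ = a} = (fun x => x - x₀) ⁻¹' (S : Set E2) := by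
    ext x
    rw [Set.mem_ofPred_eq, mem_preimage, SetLike.mem_coe, hS,
      Submodule.mem_orthogonal_singleton_iff_inner_left, inner_sub_left, h0, sub_eq_zero]
  rw [h2]
  have h3 : (fun x : E2 => x - x₀) ⁻¹' (S : Set E2) = (fun x => x + (-x₀)) ⁻¹' (S : Set E2) := by
    ext x
    rw [mem_preimage, mem_preimage, sub_eq_add_neg]
  rw [h3, measure_preimage_add_right]
  exact Measure.addHaar_submodule _ S hST

theorem step_pos {N : ℕ} (hN : 8 ≤ N) : 0 < dl N ∧ dl N ≤ Real.pi / 4 := by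
  unfold dl
  have h : (8 : ℝ) ≤ N := by exact_mod_cast hN
  have hpi := Real.pi_pos
  constructor
  · positivity
  · rw [div_le_iff₀ (by linarith)]
    nlinarith

theorem sin_pos' {N : ℕ} (hN : 8 ≤ N) : 0 < Real.sin (dl N) := by
  have h := step_pos hN
  have hpi := Real.pi_pos
  exact Real.sin_pos_of_pos_of_lt_pi h.1 (by linarith)

theorem nv0 (N : ℕ) (i : ℤ) : (nv N i) 0 = Real.cos (i * dl N) := rfl
theorem nv1 (N : ℕ) (i : ℤ) : (nv N i) 1 = Real.sin (i * dl N) := rfl
theorem tv0 (N : ℕ) (i : ℤ) : (tv N i) 0 = -Real.sin (i * dl N) := rfl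
theorem tv1 (N : ℕ) (i : ℤ) : (tv N i) 1 = Real.cos (i * dl N) := rfl

theorem angle_succ (N : ℕ) (i : ℤ) : ((i + 1 : ℤ) : ℝ) * dl N = i * dl N + dl N := by
  push_cast
  ring

theorem angle_pred (N : ℕ) (i : ℤ) : ((i - 1 : ℤ) : ℝ) * dl N = i * dl N - dl N := by
  push_cast
  ring

theorem nv_succ (N : ℕ) (i : ℤ) (x : E2) :
    ⟪x, nv N (i + 1)⟫ = Real.cos (dl N) * ⟪x, nv N i⟫ + Real.sin (dl N) * ⟪x, tv N i⟫ := by
  rw [inner_eq, inner_eq, inner_eq, nv0, nv1, nv0, nv1, tv0, tv1, angle_succ, Real.cos_add,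
    Real.sin_add]
  ring

theorem nv_pred (N : ℕ) (i : ℤ) (x : E2) :
    ⟪x, nv N (i - 1)⟫ = Real.cos (dl N) * ⟪x, nv N i⟫ - Real.sin (dl N) * ⟪x, tv N i⟫ := by
  rw [inner_eq, inner_eq, inner_eq, nv0, nv1, nv0, nv1, tv0, tv1, angle_pred, Real.cos_sub,
    Real.sin_sub]
  ring

theorem tv_ne (N : ℕ) (i : ℤ) : tv N i ≠ 0 := by
  intro h
  have h0 : ⟪tv N i, tv N i⟫ = 0 := by rw [h, inner_zero_left]
  rw [inner_eq, tv0, tv1] at h0
  nlinarith [Real.sin_sq_add_cos_sq (i * dl N)]

theorem nn (N : ℕ) (i : ℤ) : ⟪nv N i, nv N i⟫ = 1 ∧ ⟪nv N i, tv N i⟫ = 0 := by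
  rw [inner_eq, inner_eq, nv0, nv1, tv0, tv1]
  constructor
  · nlinarith [Real.sin_sq_add_cos_sq (i * dl N)]
  · ring

/-- expansion of a direction -/
theorem dir_eq (N : ℕ) (i : ℤ) (θ : ℝ) (x : E2) :
    Real.sin (dl N) * ⟪x, dirv θ⟫ = Real.sin ((i + 1) * dl N - θ) * ⟪x, nv N i⟫ +
      Real.sin (θ - i * dl N) * ⟪x, nv N (i + 1)⟫ := by
  obtain ⟨β, rfl⟩ : ∃ β, θ = i * dl N + β := ⟨θ - i * dl N, by ring⟩
  rw [nv_succ, inner_eq, inner_eq, inner_eq, nv0, nv1, tv0, tv1, dirv0, dirv1,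
    show ((i : ℝ) + 1) * dl N - (i * dl N + β) = dl N - β by ring,
    show (i : ℝ) * dl N + β - i * dl N = β by ring, Real.cos_add, Real.sin_add, Real.sin_sub]
  ring

theorem eq_of_inner {N : ℕ} (hN : 8 ≤ N) (i : ℤ) (x y : E2) (h1 : ⟪x, nv N i⟫ = ⟪y, nv N i⟫)
    (h2 : ⟪x, nv N (i + 1)⟫ = ⟪y, nv N (i + 1)⟫) : x = y := by
  have hs := sin_pos' hN
  rw [nv_succ, nv_succ, h1] at h2
  have h3 : ⟪x, tv N i⟫ = ⟪y, tv N i⟫ := by
    have : Real.sin (dl N) * ⟪x, tv N i⟫ = Real.sin (dl N) * ⟪y, tv N i⟫ := by linarith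
    exact mul_left_cancel₀ hs.ne' this
  rw [inner_eq, inner_eq, nv0, nv1] at h1
  rw [inner_eq, inner_eq, tv0, tv1] at h3
  have hcs := Real.sin_sq_add_cos_sq (i * dl N)
  set C := Real.cos (i * dl N) with hC
  set S := Real.sin (i * dl N) with hS
  have e0 : x 0 = y 0 := by
    have e1 : x 0 * (S ^ 2 + C ^ 2) = y 0 * (S ^ 2 + C ^ 2) := by
      linear_combination C * h1 - S * h3
    rw [hcs, mul_one, mul_one] at e1
    exact e1
  have e1 : x 1 = y 1 := by
    have e1 : x 1 * (S ^ 2 + C ^ 2) = y 1 * (S ^ 2 + C ^ 2) := by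
      linear_combination S * h1 + C * h3
    rw [hcs, mul_one, mul_one] at e1
    exact e1
  ext j
  fin_cases j
  · exact e0
  · exact e1

end P3

open P3 in
theorem pr_P3 (h1 : T_P1) (h2 : T_P2) (h3 : T_P2b) : T_P3 := by
  intro N c hS
  have hN := hS.N_le
  have hd := step_pos hN
  have hs := sin_pos' hN
  have hpi := Real.pi_pos
  obtain ⟨hK, hC, h0⟩ := h3 N c hS
  set Z : Set E2 := ⋃ i ∈ Finset.range N,
    ({x : E2 | ⟪x, tv N (i : ℤ)⟫ = ⟪vx N c (i : ℤ), tv N (i : ℤ)⟫} ∪
      {x : E2 | ⟪x, tv N (i : ℤ)⟫ = ⟪vx N c ((i : ℤ) - 1), tv N (i : ℤ)⟫}) with hZ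
  have hZ0 : volume Z = 0 := by
    rw [hZ]
    refine (measure_biUnion_null_iff (Finset.range N).countable_toSet).2 fun i _ => ?_
    exact measure_union_null (line_null _ (tv_ne N i) _) (line_null _ (tv_ne N i) _)
  refine measure_mono_null ?_ hZ0
  intro x hx
  rw [mem_compl_iff, mem_union, mem_union, not_or, not_or] at hx
  obtain ⟨⟨hxp, hxr⟩, hxs⟩ := hx
  obtain ⟨y, hy, hyp⟩ := nearest _ hK hC ⟨0, h0⟩ x
  have hxy : x - y ≠ 0 := by
    intro h
    rw [sub_eq_zero] at h
    rw [h] at hxp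
    exact hxp hy
  obtain ⟨r, θ, hr, hθ0, hθ2, hu⟩ := polar _ hxy
  have hxe : x = y + r • dirv θ := by rw [← hu]; abel
  -- `y` maximises the scalar product with `dirv θ`
  have hmax : ∀ w ∈ poly N c, ⟪w, dirv θ⟫ ≤ ⟪y, dirv θ⟫ := by
    intro w hw
    have h := hyp w hw
    rw [hu, real_inner_smul_left, inner_sub_right, real_inner_comm, real_inner_comm y] at h
    have h4 : ⟪w, dirv θ⟫ - ⟪y, dirv θ⟫ ≤ 0 := by
      by_contra hcon
      push Not at hcon
      have := mul_pos hr hcon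
      linarith
    linarith
  set i : ℤ := ⌊θ / dl N⌋ with hi
  have hi0 : 0 ≤ i := Int.floor_nonneg.2 (div_nonneg hθ0 hd.1.le)
  have hNpos : (0 : ℝ) < N := by
    have : 0 < N := by omega
    exact_mod_cast this
  have hNd : (N : ℝ) * dl N = 2 * Real.pi := by
    unfold dl
    field_simp
  have hiN : i < N := by
    rw [hi, Int.floor_lt, div_lt_iff₀ hd.1]
    push_cast
    rw [hNd]
    exact hθ2
  have hlo : (i : ℝ) * dl N ≤ θ := by
    have := Int.floor_le (θ / dl N)
    rwa [le_div_iff₀ hd.1] at this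
  have hup : θ < ((i : ℝ) + 1) * dl N := by
    have := Int.lt_floor_add_one (θ / dl N)
    rwa [div_lt_iff₀ hd.1] at this
  obtain ⟨n, hn⟩ := Int.eq_ofNat_of_zero_le hi0
  have hnN : n < N := by
    rw [hn] at hiN
    exact_mod_cast hiN
  have hA : 0 < Real.sin (((i : ℝ) + 1) * dl N - θ) := by
    refine Real.sin_pos_of_pos_of_lt_pi (by linarith) ?_
    have : ((i : ℝ) + 1) * dl N - θ ≤ dl N := by linarith
    linarith [hd.2]
  have hB : 0 ≤ Real.sin (θ - i * dl N) := by
    refine Real.sin_nonneg_of_nonneg_of_le_pi (by linarith) ?_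
    have : θ - i * dl N ≤ dl N := by linarith
    linarith [hd.2]
  obtain ⟨_, hv1, hv2⟩ := h1 N c i hN
  have hmv := hmax _ (h2 N c hS i)
  have hyi := hy i
  have hyi1 := hy (i + 1)
  have e1 := dir_eq N i θ (vx N c i)
  have e2 := dir_eq N i θ y
  rw [hv1, hv2] at e1
  have hle : Real.sin (dl N) * ⟪vx N c i, dirv θ⟫ ≤ Real.sin (dl N) * ⟪y, dirv θ⟫ :=
    mul_le_mul_of_nonneg_left hmv hs.le
  rw [e1, e2] at hle
  have hA1 : 0 ≤ Real.sin (((i : ℝ) + 1) * dl N - θ) * (c i - ⟪y, nv N i⟫) :=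
    mul_nonneg hA.le (sub_nonneg.2 hyi)
  have hB1 : 0 ≤ Real.sin (θ - i * dl N) * (c (i + 1) - ⟪y, nv N (i + 1)⟫) :=
    mul_nonneg hB (sub_nonneg.2 hyi1)
  have hA0 : Real.sin (((i : ℝ) + 1) * dl N - θ) * (c i - ⟪y, nv N i⟫) = 0 := by nlinarith
  have hB0 : Real.sin (θ - i * dl N) * (c (i + 1) - ⟪y, nv N (i + 1)⟫) = 0 := by nlinarith
  have hci : ⟪y, nv N i⟫ = c i := by
    rcases mul_eq_zero.1 hA0 with h | h
    · exact absurd h hA.ne'
    · linarith
  by_cases hθ : (i : ℝ) * dl N = θ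
  · -- half strip
    have hx0 : ⟪x, nv N i⟫ = c i + r := by
      rw [hxe, inner_add_left, hci, real_inner_smul_left, ← hθ]
      show c i + r * ⟪nv N i, nv N i⟫ = _
      rw [(nn N i).1, mul_one]
    have hxt : ⟪x, tv N i⟫ = ⟪y, tv N i⟫ := by
      rw [hxe, inner_add_left, real_inner_smul_left, ← hθ]
      show _ + r * ⟪nv N i, tv N i⟫ = _
      rw [(nn N i).2, mul_zero, add_zero]
    have hle1 : ⟪y, tv N i⟫ ≤ ⟪vx N c i, tv N i⟫ := by
      rw [nv_succ, hci] at hyi1
      rw [nv_succ, hv1] at hv2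
      have : Real.sin (dl N) * ⟪y, tv N i⟫ ≤ Real.sin (dl N) * ⟪vx N c i, tv N i⟫ := by linarith
      exact le_of_mul_le_mul_left this hs
    have hle2 : ⟪vx N c (i - 1), tv N i⟫ ≤ ⟪y, tv N i⟫ := by
      obtain ⟨_, hw1, hw2⟩ := h1 N c (i - 1) hN
      have hyi2 := hy (i - 1)
      rw [sub_add_cancel] at hw2
      rw [nv_pred, hci] at hyi2
      rw [nv_pred, hw2] at hw1
      have : Real.sin (dl N) * ⟪vx N c (i - 1), tv N i⟫ ≤ Real.sin (dl N) * ⟪y, tv N i⟫ := by
        linarith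
      exact le_of_mul_le_mul_left this hs
    rw [hZ, mem_iUnion₂]
    refine ⟨n, Finset.mem_range.2 hnN, ?_⟩
    by_contra hcon
    rw [mem_union, not_or] at hcon
    have hcn : ((n : ℕ) : ℤ) = i := hn.symm
    rw [hcn] at hcon
    apply hxr
    rw [mem_iUnion₂]
    refine ⟨n, Finset.mem_range.2 hnN, ?_⟩
    rw [hcn]
    refine ⟨by rw [hx0]; linarith, ?_, ?_⟩
    · rw [hxt]
      refine lt_of_le_of_ne hle2 fun h => hcon.2 ?_
      show ⟪x, tv N i⟫ = _
      rw [hxt]
      exact h.symm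
    · rw [hxt]
      refine lt_of_le_of_ne hle1 fun h => hcon.1 ?_
      show ⟪x, tv N i⟫ = _
      rw [hxt]
      exact h
  · -- sector
    exfalso
    have hlt : (i : ℝ) * dl N < θ := lt_of_le_of_ne hlo hθ
    have hBpos : 0 < Real.sin (θ - i * dl N) := by
      refine Real.sin_pos_of_pos_of_lt_pi (by linarith) ?_
      have : θ - i * dl N ≤ dl N := by linarith
      linarith [hd.2]
    have hci1 : ⟪y, nv N (i + 1)⟫ = c (i + 1) := by
      rcases mul_eq_zero.1 hB0 with h | h
      · exact absurd h hBpos.ne'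
      · linarith
    have hyv : y = vx N c i := eq_of_inner hN i _ _ (by rw [hci, hv1]) (by rw [hci1, hv2])
    apply hxs
    rw [mem_iUnion₂]
    refine ⟨n, Finset.mem_range.2 hnN, ?_⟩
    rw [show ((n : ℕ) : ℤ) = i from hn.symm]
    exact ⟨r, θ, hr, hlt, hup, by rw [hxe, hyv]⟩

end Pool.Agent.Robin

end

section

/-!
# MP_4b551e_an: item P4 (the nearest point projection on strips and sectors)
-/

open MeasureTheory Set Metric
open scoped ENNReal NNReal Pointwise RealInnerProductSpace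

namespace Pool.Agent.Robin

namespace P4

theorem inner_eq (x y : E2) : ⟪x, y⟫ = x 0 * y 0 + x 1 * y 1 := by
  rw [PiLp.inner_apply]
  simp [Fin.sum_univ_two]
  ring

theorem nv0 (N : ℕ) (i : ℤ) : nv N i 0 = Real.cos (i * dl N) := by simp [nv, dirv]
theorem nv1 (N : ℕ) (i : ℤ) : nv N i 1 = Real.sin (i * dl N) := by simp [nv, dirv]
theorem tv0 (N : ℕ) (i : ℤ) : tv N i 0 = -Real.sin (i * dl N) := by simp [tv, rot, nv, dirv]
theorem tv1 (N : ℕ) (i : ℤ) : tv N i 1 = Real.cos (i * dl N) := by simp [tv, rot, nv, dirv]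

theorem sin_dl_pos {N : ℕ} (hN : 8 ≤ N) : 0 < Real.sin (dl N) := by
  have hN' : (8 : ℝ) ≤ N := by exact_mod_cast hN
  have hpi := Real.pi_pos
  apply Real.sin_pos_of_pos_of_lt_pi
  · unfold dl; positivity
  · unfold dl
    rw [div_lt_iff₀ (by linarith)]
    nlinarith

theorem uniq {D : Set E2} {P : E2 → E2} (hP : IsProj D P) {x y : E2} (hy : y ∈ D)
    (h : ∀ z ∈ D, ⟪x - y, z - y⟫ ≤ 0) : P x = y := by
  have h1 := h (P x) (hP x).1
  have h2 := (hP x).2 y hy
  have h3 : ⟪P x - y, P x - y⟫ ≤ 0 := by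
    have e : ⟪P x - y, P x - y⟫ = ⟪x - y, P x - y⟫ + ⟪x - P x, y - P x⟫ := by
      have e1 : P x - y = (x - y) - (x - P x) := by abel
      have e2 : y - P x = -(P x - y) := by abel
      rw [e2, inner_neg_right]
      nth_rw 1 [e1]
      rw [inner_sub_left]
      ring
    rw [e]; linarith
  have h4 : ‖P x - y‖ ^ 2 ≤ 0 := by rwa [← real_inner_self_eq_norm_sq]
  have h5 : ‖P x - y‖ = 0 := by
    have := norm_nonneg (P x - y)
    nlinarith
  exact sub_eq_zero.1 (norm_eq_zero.1 h5)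

/-- decomposition of a vector in the basis `n_i`, `t_i` -/
theorem decomp (N : ℕ) (i : ℤ) (x : E2) : x = ⟪x, nv N i⟫ • nv N i + ⟪x, tv N i⟫ • tv N i := by
  have h := Real.sin_sq_add_cos_sq ((i : ℝ) * dl N)
  have h2 : Real.cos ((i : ℝ) * dl N) ^ 2 = 1 - Real.sin ((i : ℝ) * dl N) ^ 2 := by linarith
  ext j
  fin_cases j
  · simp only [Fin.zero_eta, PiLp.add_apply, PiLp.smul_apply, smul_eq_mul, inner_eq, nv0, nv1,
      tv0, tv1]
    ring_nf
    rw [h2]
    ring
  · simp only [Fin.mk_one, PiLp.add_apply, PiLp.smul_apply, smul_eq_mul, inner_eq, nv0, nv1,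
      tv0, tv1]
    ring_nf
    rw [h2]
    ring

theorem nn (N : ℕ) (i : ℤ) : ⟪nv N i, nv N i⟫ = 1 := by
  rw [inner_eq, nv0, nv1]
  have h := Real.sin_sq_add_cos_sq ((i : ℝ) * dl N)
  linarith

theorem tt (N : ℕ) (i : ℤ) : ⟪tv N i, tv N i⟫ = 1 := by
  rw [inner_eq, tv0, tv1]
  have h := Real.sin_sq_add_cos_sq ((i : ℝ) * dl N)
  linarith

theorem nt (N : ℕ) (i : ℤ) : ⟪nv N i, tv N i⟫ = 0 := by
  rw [inner_eq, nv0, nv1, tv0, tv1]
  ring

theorem tn (N : ℕ) (i : ℤ) : ⟪tv N i, nv N i⟫ = 0 := by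
  rw [real_inner_comm]; exact nt N i

theorem dirv_decomp {N : ℕ} (hN : 8 ≤ N) (i : ℤ) (θ : ℝ) :
    dirv θ = (Real.sin ((i + 1) * dl N - θ) / Real.sin (dl N)) • nv N i +
      (Real.sin (θ - i * dl N) / Real.sin (dl N)) • nv N (i + 1) := by
  have hs := (sin_dl_pos hN).ne'
  have e1 : ((i + 1 : ℤ) : ℝ) * dl N = (i : ℝ) * dl N + dl N := by push_cast; ring
  have e2 : ((i : ℝ) + 1) * dl N - θ = (i : ℝ) * dl N + dl N - θ := by ring
  have h := Real.sin_sq_add_cos_sq ((i : ℝ) * dl N)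
  have h2 : Real.cos ((i : ℝ) * dl N) ^ 2 = 1 - Real.sin ((i : ℝ) * dl N) ^ 2 := by linarith
  ext j
  fin_cases j
  · simp only [Fin.zero_eta, PiLp.add_apply, PiLp.smul_apply, smul_eq_mul, nv0, e1, e2]
    simp only [dirv, Real.sin_sub, Real.sin_add, Real.cos_add, PiLp.toLp_apply,
      Matrix.cons_val_zero]
    field_simp
    ring_nf
    rw [h2]
    ring
  · simp only [Fin.mk_one, PiLp.add_apply, PiLp.smul_apply, smul_eq_mul, nv1, e1, e2]
    simp only [dirv, Real.sin_sub, Real.sin_add, Real.cos_add, PiLp.toLp_apply,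
      Matrix.cons_val_one, Matrix.cons_val_fin_one]
    field_simp
    ring_nf
    rw [h2]
    ring

end P4

open P4 in
theorem pr_P4 (h1 : T_P1) (h2 : T_P2) (h3 : T_P2b) : T_P4 := by
  intro N c P hc hP
  have hN := hc.N_le
  have hN' : (8 : ℝ) ≤ N := by exact_mod_cast hN
  have hpi := Real.pi_pos
  constructor
  · rintro i x ⟨hx1, hx2, hx3⟩
    set y : E2 := x - (⟪x, nv N i⟫ - c i) • nv N i with hy
    have hyn : ⟪y, nv N i⟫ = c i := by
      rw [hy, inner_sub_left, inner_smul_left, nn]; simp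
    have hyt : ⟪y, tv N i⟫ = ⟪x, tv N i⟫ := by
      rw [hy, inner_sub_left, inner_smul_left, nt]; simp
    have hv := (h1 N c i hN).1
    have hvn := (h1 N c i hN).2.1
    have hv'n : ⟪vx N c (i - 1), nv N i⟫ = c i := by
      have := (h1 N c (i - 1) hN).2.2
      simpa using this
    -- `y` lies on the segment
    set A := ⟪vx N c (i - 1), tv N i⟫ with hA
    set B := ⟪vx N c i, tv N i⟫ with hB
    have hAB : 0 < B - A := by linarith
    set lam := (⟪x, tv N i⟫ - A) / (B - A) with hlam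
    have hl0 : 0 ≤ lam := div_nonneg (by linarith) hAB.le
    have hl1 : lam ≤ 1 := by rw [hlam, div_le_one hAB]; linarith
    have hyseg : y = (1 - lam) • vx N c (i - 1) + lam • vx N c i := by
      rw [decomp N i y, decomp N i (vx N c (i - 1)), decomp N i (vx N c i), hyn, hyt, hvn, hv'n,
        ← hA, ← hB]
      have : ⟪x, tv N i⟫ = (1 - lam) * A + lam * B := by
        rw [hlam]; field_simp; ring
      rw [this]
      module
    have hyD : y ∈ poly N c := by
      rw [hyseg]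
      exact (h3 N c hc).2.1 (h2 N c hc (i - 1)) (h2 N c hc i) (by linarith) hl0 (by ring)
    apply uniq hP hyD
    intro z hz
    have hz' := hz i
    have e : x - y = (⟪x, nv N i⟫ - c i) • nv N i := by rw [hy]; abel
    have f1 : ⟪nv N i, z⟫ = ⟪z, nv N i⟫ := real_inner_comm _ _
    have f2 : ⟪nv N i, y⟫ = c i := by rw [real_inner_comm]; exact hyn
    rw [e, inner_smul_left, inner_sub_right, f1, f2]
    simp only [conj_trivial]
    exact mul_nonpos_of_nonneg_of_nonpos (by linarith) (by linarith)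
  · intro i d θ hd h4 h5
    apply uniq hP (h2 N c hc i)
    intro z hz
    have hs := sin_dl_pos hN
    have hdl : dl N ≤ Real.pi / 4 := by
      unfold dl
      rw [div_le_div_iff₀ (by linarith) (by norm_num)]
      nlinarith
    have hA : 0 ≤ Real.sin ((i + 1) * dl N - θ) / Real.sin (dl N) := by
      apply div_nonneg _ hs.le
      apply Real.sin_nonneg_of_nonneg_of_le_pi (by linarith)
      nlinarith
    have hB : 0 ≤ Real.sin (θ - i * dl N) / Real.sin (dl N) := by
      apply div_nonneg _ hs.le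
      apply Real.sin_nonneg_of_nonneg_of_le_pi (by linarith)
      nlinarith
    have e : vx N c i + d • dirv θ - vx N c i = d • dirv θ := by abel
    rw [e, inner_smul_left, dirv_decomp hN i θ, inner_add_left, inner_smul_left, inner_smul_left,
      inner_sub_right, inner_sub_right]
    have g1 : ⟪nv N i, vx N c i⟫ = c i := by rw [real_inner_comm]; exact (h1 N c i hN).2.1
    have g2 : ⟪nv N (i + 1), vx N c i⟫ = c (i + 1) := by
      rw [real_inner_comm]; exact (h1 N c i hN).2.2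
    have g3 : ⟪nv N i, z⟫ ≤ c i := by rw [real_inner_comm]; exact hz i
    have g4 : ⟪nv N (i + 1), z⟫ ≤ c (i + 1) := by rw [real_inner_comm]; exact hz (i + 1)
    rw [g1, g2]
    simp only [conj_trivial]
    apply mul_nonpos_of_nonneg_of_nonpos hd
    have k1 := mul_nonneg hA (sub_nonneg.2 g3)
    have k2 := mul_nonneg hB (sub_nonneg.2 g4)
    linarith

end Pool.Agent.Robin

end

section

/-!
# MP_4b551e_an: item P5 (helper59)
-/

open MeasureTheory Set Metric
open scoped ENNReal NNReal Pointwise RealInnerProductSpace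

namespace Pool.Agent.Robin

namespace P5

theorem norm_dirv (θ : ℝ) : ‖dirv θ‖ = 1 := by
  rw [EuclideanSpace.norm_eq, Real.sqrt_eq_one, Fin.sum_univ_two]
  simp [dirv, Real.cos_sq_add_sin_sq]

theorem dirv_inj {θ φ : ℝ} (h0 : 0 ≤ θ) (h1 : θ < 2 * Real.pi) (h2 : 0 ≤ φ)
    (h3 : φ < 2 * Real.pi) (h : dirv θ = dirv φ) : θ = φ := by
  have hc : Real.cos θ = Real.cos φ := by
    have := congrArg (fun x : E2 => x 0) h
    simpa [dirv] using this
  have hs : Real.sin θ = Real.sin φ := by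
    have := congrArg (fun x : E2 => x 1) h
    simpa [dirv] using this
  have hcos : Real.cos (θ - φ) = 1 := by
    rw [Real.cos_sub, hc, hs]
    nlinarith [Real.cos_sq_add_sin_sq φ]
  have := (Real.cos_eq_one_iff_of_lt_of_lt (by linarith) (by linarith)).1 hcos
  linarith

theorem dl_pos {N : ℕ} (hN : 8 ≤ N) : 0 < dl N := by
  unfold dl
  have : (0 : ℝ) < N := by exact_mod_cast (by omega : 0 < N)
  have := Real.pi_pos
  positivity

theorem dl_mul {N : ℕ} (hN : 8 ≤ N) : (N : ℝ) * dl N = 2 * Real.pi := by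
  unfold dl
  have : (0 : ℝ) < N := by exact_mod_cast (by omega : 0 < N)
  field_simp

/-- Data of a piece: the direction of `x - P x`. -/
def Dir (P : E2 → E2) (x : E2) (θ : ℝ) : Prop := ∃ d : ℝ, 0 < d ∧ x - P x = d • dirv θ

theorem Dir.unique {P : E2 → E2} {x : E2} {θ φ : ℝ} (h : Dir P x θ) (h' : Dir P x φ) :
    dirv θ = dirv φ := by
  obtain ⟨d, hd, e⟩ := h
  obtain ⟨d', hd', e'⟩ := h'
  have hn : d = d' := by
    have := congrArg norm (e.symm.trans e')
    rwa [norm_smul, norm_smul, norm_dirv, norm_dirv, mul_one, mul_one, Real.norm_of_nonneg hd.le,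
      Real.norm_of_nonneg hd'.le] at this
  have : d • dirv θ = d • dirv φ := by rw [← e, e', hn]
  exact smul_right_injective _ hd.ne' this

end P5

open P5 in
theorem pr_P5 (h0 : T_U0) (h1 : T_P1) (h2 : T_P2) (h3 : T_P2b) (h4 : T_P4) : T_P5 := by
  intro N c hS
  obtain ⟨hcp, hcv, h0p⟩ := h3 N c hS
  obtain ⟨P, hP⟩ := h0 _ hcp hcv ⟨0, h0p⟩
  obtain ⟨hr, hs⟩ := h4 N c P hS hP
  have hN := hS.N_le
  have hdl := dl_pos hN
  have hdm := dl_mul hN
  have dr : ∀ i : ℤ, ∀ x ∈ rect N c i, Dir P x (i * dl N) := by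
    intro i x hx
    refine ⟨⟪x, nv N i⟫ - c i, sub_pos.2 hx.1, ?_⟩
    rw [hr i x hx]
    simp [nv]
  have ds : ∀ i : ℤ, ∀ x ∈ sect N c i, ∃ θ : ℝ, i * dl N < θ ∧ θ < (i + 1) * dl N ∧ Dir P x θ := by
    rintro i x ⟨d, θ, hd, ha, hb, rfl⟩
    refine ⟨θ, ha, hb, d, hd, ?_⟩
    rw [hs i d θ hd.le ha.le hb.le]
    simp
  have hNR : ∀ i : ℕ, i < N → (0 : ℝ) ≤ ((i : ℤ) : ℝ) * dl N ∧
      (((i : ℤ) : ℝ) + 1) * dl N ≤ 2 * Real.pi := by
    intro i hi
    constructor
    · positivity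
    · rw [← hdm]
      apply mul_le_mul_of_nonneg_right _ hdl.le
      have : i + 1 ≤ N := hi
      push_cast
      exact_mod_cast this
  refine ⟨?_, ?_, ?_⟩
  · intro i j hi hj hij
    obtain ⟨hi0, hi1⟩ := hNR i hi
    obtain ⟨hj0, hj1⟩ := hNR j hj
    constructor
    · rw [Set.disjoint_left]
      intro x hxi hxj
      have hd := (dr i x hxi).unique (dr j x hxj)
      have he := dirv_inj hi0 (by nlinarith) hj0 (by nlinarith) hd
      have := mul_right_cancel₀ hdl.ne' he
      push_cast at this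
      exact hij (by exact_mod_cast this)
    · rw [Set.disjoint_left]
      intro x hxi hxj
      obtain ⟨θ, ha, hb, h⟩ := ds i x hxi
      obtain ⟨φ, ha', hb', h'⟩ := ds j x hxj
      have he := dirv_inj (by linarith) (by linarith) (by linarith) (by linarith) (h.unique h')
      subst he
      have e1 : ((i : ℤ) : ℝ) < (j : ℤ) + 1 := by
        by_contra hcon
        push Not at hcon
        nlinarith
      have e2 : ((j : ℤ) : ℝ) < (i : ℤ) + 1 := by
        by_contra hcon
        push Not at hcon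
        nlinarith
      have e1' : (i : ℤ) < j + 1 := by exact_mod_cast e1
      have e2' : (j : ℤ) < i + 1 := by exact_mod_cast e2
      omega
  · intro i j hi hj
    obtain ⟨hi0, hi1⟩ := hNR i hi
    obtain ⟨hj0, hj1⟩ := hNR j hj
    rw [Set.disjoint_left]
    intro x hxi hxj
    obtain ⟨φ, ha', hb', h'⟩ := ds j x hxj
    have he := dirv_inj hi0 (by nlinarith) (by linarith) (by linarith) ((dr i x hxi).unique h')
    rw [← he] at ha' hb'
    have e1 : ((j : ℤ) : ℝ) < (i : ℤ) := lt_of_mul_lt_mul_right ha' hdl.le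
    have e2 : ((i : ℤ) : ℝ) < (j : ℤ) + 1 := lt_of_mul_lt_mul_right hb' hdl.le
    have e1' : (j : ℤ) < i := by exact_mod_cast e1
    have e2' : (i : ℤ) < j + 1 := by exact_mod_cast e2
    omega
  · have hpp : ∀ x ∈ poly N c, ∀ θ, ¬ Dir P x θ := by
      rintro x hx θ ⟨d, hd, e⟩
      have h := (hP x).2 x hx
      rw [real_inner_self_eq_norm_sq, e, norm_smul, norm_dirv, mul_one,
        Real.norm_of_nonneg hd.le] at h
      nlinarith
    intro i
    constructor
    · rw [Set.disjoint_left]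
      intro x hx hxi
      exact hpp x hx _ (dr i x hxi)
    · rw [Set.disjoint_left]
      intro x hx hxi
      obtain ⟨θ, -, -, h⟩ := ds i x hxi
      exact hpp x hx _ h

end Pool.Agent.Robin

end

section

/-!
# MP_4b551e_an, item P6: lower bound for the area of the polygon

The open triangles over the edges are pairwise disjoint and contained in the polygon.
-/

open MeasureTheory Set Metric
open scoped ENNReal NNReal Pointwise RealInnerProductSpace

namespace Pool.Agent.Robin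
namespace P6

lemma inner_two (x y : E2) : ⟪x, y⟫ = x 0 * y 0 + x 1 * y 1 := by
  rw [PiLp.inner_apply, Fin.sum_univ_two]
  simp only [RCLike.inner_apply, conj_trivial]
  ring

lemma nv0 (N : ℕ) (i : ℤ) : (nv N i) 0 = Real.cos (i * dl N) := by simp [nv, dirv]
lemma nv1 (N : ℕ) (i : ℤ) : (nv N i) 1 = Real.sin (i * dl N) := by simp [nv, dirv]
lemma tv0 (N : ℕ) (i : ℤ) : (tv N i) 0 = -Real.sin (i * dl N) := by simp [tv, rot, nv1]
lemma tv1 (N : ℕ) (i : ℤ) : (tv N i) 1 = Real.cos (i * dl N) := by simp [tv, rot, nv0]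

lemma ext2 {x y : E2} (h0 : x 0 = y 0) (h1 : x 1 = y 1) : x = y := by
  ext j
  fin_cases j
  · exact h0
  · exact h1

lemma rot_tv (N : ℕ) (i : ℤ) : rot (tv N i) = - nv N i := by
  apply ext2
  · simp [rot, tv1, nv0]
  · simp [rot, tv0, nv1]

lemma nv_nv (N : ℕ) (i j : ℤ) : ⟪nv N i, nv N j⟫ = Real.cos ((j - i) * dl N) := by
  rw [inner_two, nv0, nv0, nv1, nv1, sub_mul, Real.cos_sub]
  ring

lemma tv_nv (N : ℕ) (i j : ℤ) : ⟪tv N i, nv N j⟫ = Real.sin ((j - i) * dl N) := by
  rw [inner_two, tv0, nv0, tv1, nv1, sub_mul, Real.sin_sub]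
  ring

lemma tv_tv (N : ℕ) (i : ℤ) : ⟪tv N i, tv N i⟫ = 1 := by
  rw [inner_two, tv0, tv1]
  nlinarith [Real.sin_sq_add_cos_sq ((i : ℝ) * dl N)]

lemma norm_tv (N : ℕ) (i : ℤ) : ‖tv N i‖ = 1 := by
  have h := tv_tv N i
  rw [real_inner_self_eq_norm_sq] at h
  have h0 := norm_nonneg (tv N i)
  nlinarith

lemma decomp (N : ℕ) (i : ℤ) (x : E2) :
    x = ⟪x, nv N i⟫ • nv N i + ⟪x, tv N i⟫ • tv N i := by
  have hs := Real.sin_sq_add_cos_sq ((i : ℝ) * dl N)
  apply ext2
  · simp only [PiLp.add_apply, PiLp.smul_apply, smul_eq_mul, inner_two, nv0, nv1, tv0, tv1]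
    linear_combination (- x 0) * hs
  · simp only [PiLp.add_apply, PiLp.smul_apply, smul_eq_mul, inner_two, nv0, nv1, tv0, tv1]
    linear_combination (- x 1) * hs

/-- Two vectors with equal coordinates are equal. -/
lemma eq_of_inner (N : ℕ) (i : ℤ) {x y : E2} (h1 : ⟪x, nv N i⟫ = ⟪y, nv N i⟫)
    (h2 : ⟪x, tv N i⟫ = ⟪y, tv N i⟫) : x = y := by
  rw [decomp N i x, decomp N i y, h1, h2]

/-- The open triangle over the `i`-th edge. -/
def Tr (N : ℕ) (c : ℤ → ℝ) (i : ℤ) : Set E2 :=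
  {x | 0 < ⟪x, nv N i⟫ ∧ ⟪x, nv N i⟫ < c i ∧
    ⟪vx N c (i - 1), tv N i⟫ * (⟪x, nv N i⟫ / c i) < ⟪x, tv N i⟫ ∧
    ⟪x, tv N i⟫ < ⟪vx N c i, tv N i⟫ * (⟪x, nv N i⟫ / c i)}

lemma isOpen_Tr (N : ℕ) (c : ℤ → ℝ) (i : ℤ) : IsOpen (Tr N c i) := by
  have c1 : Continuous fun x : E2 => ⟪x, nv N i⟫ := by fun_prop
  have c2 : Continuous fun x : E2 => ⟪x, tv N i⟫ := by fun_prop
  have e : Tr N c i = {x | 0 < ⟪x, nv N i⟫} ∩ {x | ⟪x, nv N i⟫ < c i} ∩
      {x | ⟪vx N c (i - 1), tv N i⟫ * (⟪x, nv N i⟫ / c i) < ⟪x, tv N i⟫} ∩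
      {x | ⟪x, tv N i⟫ < ⟪vx N c i, tv N i⟫ * (⟪x, nv N i⟫ / c i)} := by
    ext x
    simp only [Tr, mem_setOf_eq, mem_inter_iff]
    tauto
  rw [e]
  exact (((isOpen_lt continuous_const c1).inter (isOpen_lt c1 continuous_const)).inter
    (isOpen_lt (continuous_const.mul (c1.div_const _)) c2)).inter
    (isOpen_lt c2 (continuous_const.mul (c1.div_const _)))

/-- Structure of the points of a triangle. -/
lemma mem_Tr {N : ℕ} {c : ℤ → ℝ} {i : ℤ} (h1 : T_P1) (hS : Supp N c) {x : E2}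
    (hx : x ∈ Tr N c i) :
    0 < el N c i ∧ ∃ s : ℝ, 0 < s ∧ s < 1 ∧
      x = (⟪x, nv N i⟫ / c i) • ((1 - s) • vx N c (i - 1) + s • vx N c i) := by
  obtain ⟨hx1, hx2, hx3, hx4⟩ := hx
  obtain ⟨e1, e2, -⟩ := h1 N c i hS.N_le
  obtain ⟨-, -, e3⟩ := h1 N c (i - 1) hS.N_le
  rw [sub_add_cancel] at e3
  have hc := hS.pos i
  set m := ⟪x, nv N i⟫ / c i with hm
  have m0 : 0 < m := div_pos hx1 hc
  set b := ⟪vx N c (i - 1), tv N i⟫ with hb
  set b' := ⟪vx N c i, tv N i⟫ with hb'
  have hbb : b' - b = el N c i := by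
    rw [hb, hb', ← inner_sub_left, e1, real_inner_smul_left, tv_tv, mul_one]
  have hlt : b < b' := by
    have : b * m < b' * m := hx3.trans hx4
    exact lt_of_mul_lt_mul_right this m0.le
  have hl : 0 < el N c i := by linarith
  refine ⟨hl, (⟪x, tv N i⟫ / m - b) / (b' - b), ?_, ?_, ?_⟩
  · apply div_pos _ (by linarith)
    rw [sub_pos, lt_div_iff₀ m0]
    exact hx3
  · rw [div_lt_one (by linarith)]
    have : ⟪x, tv N i⟫ / m < b' := by rw [div_lt_iff₀ m0]; exact hx4
    linarith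
  · apply eq_of_inner N i
    · rw [real_inner_smul_left, inner_add_left, real_inner_smul_left, real_inner_smul_left, e2, e3,
        ← add_mul, sub_add_cancel, one_mul, hm, div_mul_cancel₀ _ hc.ne']
    · rw [real_inner_smul_left, inner_add_left, real_inner_smul_left, real_inner_smul_left,
        ← hb, ← hb']
      have hd : b' - b ≠ 0 := by linarith
      field_simp
      ring

lemma Tr_subset {N : ℕ} {c : ℤ → ℝ} (i : ℤ) (h1 : T_P1) (h2 : T_P2) (h3 : T_P2b)
    (hS : Supp N c) : Tr N c i ⊆ poly N c := by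
  intro x hx
  obtain ⟨-, s, s0, s1, e⟩ := mem_Tr h1 hS hx
  obtain ⟨hx1, hx2, -, -⟩ := hx
  obtain ⟨-, hconv, h0⟩ := h3 N c hS
  have hc := hS.pos i
  have hy : (1 - s) • vx N c (i - 1) + s • vx N c i ∈ poly N c :=
    hconv (h2 N c hS _) (h2 N c hS _) (by linarith) s0.le (by ring)
  rw [e]
  have := hconv hy h0 (a := ⟪x, nv N i⟫ / c i) (b := 1 - ⟪x, nv N i⟫ / c i)
    (div_pos hx1 hc).le (by rw [sub_nonneg, div_le_one hc]; exact hx2.le) (by ring)
  rwa [smul_zero, add_zero] at this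

lemma dl_pos {N : ℕ} (hN : 8 ≤ N) : 0 < dl N := by
  have : (0 : ℝ) < N := by
    have : (8 : ℝ) ≤ N := by exact_mod_cast hN
    linarith
  exact div_pos (by positivity) this

lemma N_mul_dl {N : ℕ} (hN : 8 ≤ N) : (N : ℝ) * dl N = 2 * Real.pi := by
  have : (N : ℝ) ≠ 0 := by
    have : (8 : ℝ) ≤ N := by exact_mod_cast hN
    linarith
  rw [dl]
  field_simp

/-- Inside the `i`-th triangle the quotient `⟪x, n_j⟫ / c_j` is maximal for `j = i`. -/
lemma lt_of_mem {N : ℕ} {c : ℤ → ℝ} {i j : ℕ} (h1 : T_P1) (h2 : T_P2) (hS : Supp N c)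
    (hi : i < N) (hj : j < N) (hij : i ≠ j) {x : E2} (hx : x ∈ Tr N c i) :
    ⟪x, nv N j⟫ / c j < ⟪x, nv N i⟫ / c i := by
  obtain ⟨hl, s, s0, s1, e⟩ := mem_Tr h1 hS hx
  obtain ⟨hx1, hx2, -, -⟩ := hx
  have hc := hS.pos i
  have hcj := hS.pos j
  have m0 : 0 < ⟪x, nv N i⟫ / c i := div_pos hx1 hc
  have a1 : ⟪vx N c ((i : ℤ) - 1), nv N j⟫ ≤ c j := h2 N c hS _ j
  have a2 : ⟪vx N c (i : ℤ), nv N j⟫ ≤ c j := h2 N c hS _ j
  obtain ⟨e1, e2, -⟩ := h1 N c i hS.N_le
  have key : ⟪(1 - s) • vx N c ((i : ℤ) - 1) + s • vx N c i, nv N j⟫ < c j := by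
    rw [inner_add_left, real_inner_smul_left, real_inner_smul_left]
    by_contra hcon
    push Not at hcon
    have b1 : ⟪vx N c ((i : ℤ) - 1), nv N j⟫ = c j := by
      apply le_antisymm a1
      by_contra hlt
      push Not at hlt
      nlinarith [mul_lt_mul_of_pos_left hlt (show 0 < 1 - s by linarith),
        mul_le_mul_of_nonneg_left a2 s0.le]
    have b2 : ⟪vx N c (i : ℤ), nv N j⟫ = c j := by
      apply le_antisymm a2
      by_contra hlt
      push Not at hlt
      nlinarith [mul_lt_mul_of_pos_left hlt s0,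
        mul_le_mul_of_nonneg_left a1 (show 0 ≤ 1 - s by linarith)]
    have b3 : el N c i * ⟪tv N i, nv N j⟫ = 0 := by
      rw [← real_inner_smul_left, ← e1, inner_sub_left, b1, b2, sub_self]
    have b4 : ⟪tv N i, nv N j⟫ = 0 := by
      rcases mul_eq_zero.1 b3 with h | h
      · exact absurd h hl.ne'
      · exact h
    have b5 : c i * ⟪nv N i, nv N j⟫ = c j := by
      rw [← b2, decomp N i (vx N c i), inner_add_left, real_inner_smul_left,
        real_inner_smul_left, b4, e2, mul_zero, add_zero]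
    have b6 : 0 < ⟪nv N i, nv N j⟫ := by
      by_contra hneg
      push Not at hneg
      nlinarith
    rw [tv_nv] at b4
    rw [nv_nv] at b6
    have b7 := Real.sin_sq_add_cos_sq ((((j : ℤ) : ℝ) - ((i : ℤ) : ℝ)) * dl N)
    rw [b4] at b7
    have b8 : Real.cos ((((j : ℤ) : ℝ) - ((i : ℤ) : ℝ)) * dl N) = 1 := by nlinarith
    have hd := dl_pos hS.N_le
    have hNd := N_mul_dl hS.N_le
    have hiR : (i : ℝ) < N := by exact_mod_cast hi
    have hjR : (j : ℝ) < N := by exact_mod_cast hj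
    have hi0 : (0 : ℝ) ≤ i := Nat.cast_nonneg i
    have hj0 : (0 : ℝ) ≤ j := Nat.cast_nonneg j
    rw [Real.cos_eq_one_iff_of_lt_of_lt] at b8
    · rcases mul_eq_zero.1 b8 with h | h
      · apply hij
        have : (j : ℝ) = i := by
          push_cast at h
          linarith
        exact_mod_cast this.symm
      · exact hd.ne' h
    · push_cast
      have : -(N : ℝ) < (j : ℝ) - i := by linarith
      nlinarith [mul_lt_mul_of_pos_right this hd]
    · push_cast
      have : (j : ℝ) - i < N := by linarith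
      nlinarith [mul_lt_mul_of_pos_right this hd]
  have : ⟪x, nv N j⟫ = ⟪x, nv N i⟫ / c i *
      ⟪(1 - s) • vx N c ((i : ℤ) - 1) + s • vx N c i, nv N j⟫ := by
    conv_lhs => rw [e]
    rw [real_inner_smul_left]
  rw [this, div_lt_iff₀ hcj]
  exact mul_lt_mul_of_pos_left key m0

/-- The area of a triangle. -/
lemma volume_Tr {N : ℕ} {c : ℤ → ℝ} (i : ℤ) (hq : T_Q1) (h1 : T_P1) (hS : Supp N c) :
    volume (Tr N c i) = ENNReal.ofReal (c i * el N c i / 2) := by
  obtain ⟨e1, -, -⟩ := h1 N c i hS.N_le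
  have hc := hS.pos i
  have hbb : ⟪vx N c i, tv N i⟫ - ⟪vx N c (i - 1), tv N i⟫ = el N c i := by
    rw [← inner_sub_left, e1, real_inner_smul_left, tv_tv, mul_one]
  have hl := hS.el_nonneg i
  set b := ⟪vx N c (i - 1), tv N i⟫ with hb
  set b' := ⟪vx N c i, tv N i⟫ with hb'
  have hmeas : MeasurableSet (Tr N c i) := (isOpen_Tr N c i).measurableSet
  rw [← lintegral_indicator_one hmeas,
    hq 0 (tv N i) ((Tr N c i).indicator 1) (norm_tv N i) (measurable_one.indicator hmeas)]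
  have inn : ∀ t : ℝ, ∫⁻ s : ℝ, (Tr N c i).indicator 1 (0 + s • tv N i + t • rot (tv N i)) =
      (Ioo (-c i) 0).indicator (fun t => ENNReal.ofReal (el N c i * (-t / c i))) t := by
    intro t
    have hmem : ∀ s : ℝ, (0 + s • tv N i + t • rot (tv N i) ∈ Tr N c i) ↔
        (t ∈ Ioo (-c i) 0 ∧ s ∈ Ioo (b * (-t / c i)) (b' * (-t / c i))) := by
      intro s
      have i1 : ⟪0 + s • tv N i + t • rot (tv N i), nv N i⟫ = -t := by
        rw [rot_tv, zero_add, inner_add_left, real_inner_smul_left, real_inner_smul_left, tv_nv,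
          inner_neg_left, nv_nv]
        simp
      have i2 : ⟪0 + s • tv N i + t • rot (tv N i), tv N i⟫ = s := by
        rw [rot_tv, zero_add, inner_add_left, real_inner_smul_left, real_inner_smul_left, tv_tv,
          inner_neg_left, real_inner_comm, tv_nv]
        simp
      simp only [Tr, mem_setOf_eq, i1, i2, mem_Ioo, ← hb, ← hb']
      constructor
      · rintro ⟨q1, q2, q3, q4⟩
        exact ⟨⟨by linarith, by linarith⟩, q3, q4⟩
      · rintro ⟨⟨q1, q2⟩, q3, q4⟩
        exact ⟨by linarith, by linarith, q3, q4⟩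
    by_cases ht : t ∈ Ioo (-c i) 0
    · rw [indicator_of_mem ht]
      have : ∀ s : ℝ, (Tr N c i).indicator (1 : E2 → ℝ≥0∞) (0 + s • tv N i + t • rot (tv N i)) =
          (Ioo (b * (-t / c i)) (b' * (-t / c i))).indicator (1 : ℝ → ℝ≥0∞) s := by
        intro s
        by_cases hs : s ∈ Ioo (b * (-t / c i)) (b' * (-t / c i))
        · rw [indicator_of_mem hs, indicator_of_mem ((hmem s).2 ⟨ht, hs⟩)]
          rfl
        · rw [indicator_of_notMem hs, indicator_of_notMem (fun h => hs ((hmem s).1 h).2)]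
      simp_rw [this]
      rw [lintegral_indicator_one measurableSet_Ioo, Real.volume_Ioo, ← sub_mul, hbb]
    · rw [indicator_of_notMem ht]
      have : ∀ s : ℝ, (Tr N c i).indicator (1 : E2 → ℝ≥0∞) (0 + s • tv N i + t • rot (tv N i)) =
          0 := by
        intro s
        rw [indicator_of_notMem (fun h => ht ((hmem s).1 h).1)]
      simp_rw [this]
      simp
  simp_rw [inn]
  rw [lintegral_indicator measurableSet_Ioo, ← ofReal_integral_eq_lintegral_ofReal]
  · congr 1
    rw [← integral_Ioc_eq_integral_Ioo, ← intervalIntegral.integral_of_le (by linarith)]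
    have : ∀ t : ℝ, el N c i * (-t / c i) = (-(el N c i) / c i) * t := by
      intro t; ring
    simp_rw [this]
    rw [intervalIntegral.integral_const_mul, integral_id]
    field_simp
    ring
  · have hcont : Continuous fun t : ℝ => el N c i * (-t / c i) := by fun_prop
    exact (hcont.integrableOn_Icc (a := -c i) (b := 0)).mono_set Ioo_subset_Icc_self
  · rw [Filter.EventuallyLE, ae_restrict_iff' measurableSet_Ioo]
    refine Filter.Eventually.of_forall fun t ht => ?_
    have : 0 ≤ -t := by linarith [ht.2]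
    simp only [Pi.zero_apply]
    positivity

end P6

theorem pr_P6 (hq : T_Q1) (h1 : T_P1) (h2 : T_P2) (h3 : T_P2b) : T_P6 := by
  intro N c hS
  have hsub : (⋃ i ∈ Finset.range N, P6.Tr N c (i : ℤ)) ⊆ poly N c := by
    intro x hx
    simp only [mem_iUnion] at hx
    obtain ⟨i, -, hi⟩ := hx
    exact P6.Tr_subset i h1 h2 h3 hS hi
  have hdis : (Finset.range N : Set ℕ).PairwiseDisjoint fun i : ℕ => P6.Tr N c (i : ℤ) := by
    intro i hi j hj hij
    have hi' : i < N := by simpa using hi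
    have hj' : j < N := by simpa using hj
    rw [Function.onFun, Set.disjoint_left]
    intro x hx hx'
    have a := P6.lt_of_mem h1 h2 hS hi' hj' hij hx
    have b := P6.lt_of_mem h1 h2 hS hj' hi' (Ne.symm hij) hx'
    exact lt_asymm a b
  have hvol : volume (⋃ i ∈ Finset.range N, P6.Tr N c (i : ℤ)) =
      ∑ i ∈ Finset.range N, ENNReal.ofReal (c i * el N c i / 2) := by
    rw [measure_biUnion_finset hdis fun i _ => (P6.isOpen_Tr N c i).measurableSet]
    exact Finset.sum_congr rfl fun i _ => P6.volume_Tr i hq h1 hS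
  rw [Finset.sum_div, ENNReal.ofReal_sum_of_nonneg, ← hvol]
  · exact measure_mono hsub
  · intro i _
    have := hS.pos i
    have := hS.el_nonneg i
    positivity

end Pool.Agent.Robin

end

section

/-!
# MP_4b551e_an, item P7: the obstacle problem
-/

open MeasureTheory Set Metric
open scoped ENNReal NNReal Pointwise RealInnerProductSpace

namespace Pool.Agent.Robin

namespace P7

/-- Feasible functions. -/
def Feas (N : ℕ) (h : ℤ → ℝ) (ρ : ℝ) (x : ℤ → ℝ) : Prop :=
  (∀ i, x (i + N) = x i) ∧ (∀ i, ρ ≤ x i) ∧ (∀ i, x i ≤ h i) ∧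
    ∀ i, 2 * x i * Real.cos (dl N) ≤ x (i + 1) + x (i - 1)

lemma dl_pos {N : ℕ} (hN : 8 ≤ N) : 0 < dl N := by
  have : (0 : ℝ) < N := by
    have : 0 < N := by omega
    exact_mod_cast this
  unfold dl
  positivity

lemma dl_le {N : ℕ} (hN : 8 ≤ N) : dl N ≤ Real.pi / 4 := by
  have h8 : (8 : ℝ) ≤ N := by exact_mod_cast hN
  unfold dl
  rw [div_le_div_iff₀ (by linarith) (by norm_num)]
  nlinarith [Real.pi_pos]

lemma cos_pos {N : ℕ} (hN : 8 ≤ N) : 0 < Real.cos (dl N) := by
  apply Real.cos_pos_of_mem_Ioo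
  have h1 := dl_pos hN
  have h2 := dl_le hN
  have := Real.pi_pos
  constructor <;> linarith

lemma sin_pos {N : ℕ} (hN : 8 ≤ N) : 0 < Real.sin (dl N) := by
  apply Real.sin_pos_of_pos_of_lt_pi (dl_pos hN)
  have h2 := dl_le hN
  have := Real.pi_pos
  linarith

lemma feas_const {N : ℕ} {h : ℤ → ℝ} {ρ : ℝ} (hρ : 0 < ρ) (hh : ∀ i, ρ ≤ h i) :
    Feas N h ρ (fun _ => ρ) := by
  refine ⟨fun _ => rfl, fun _ => le_rfl, hh, fun i => ?_⟩
  have h1 := Real.cos_le_one (dl N)
  show 2 * ρ * Real.cos (dl N) ≤ ρ + ρ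
  nlinarith

/-- The largest feasible function. -/
noncomputable def cc (N : ℕ) (h : ℤ → ℝ) (ρ : ℝ) (i : ℤ) : ℝ :=
  ⨆ x : {x : ℤ → ℝ // Feas N h ρ x}, x.1 i

lemma le_cc {N : ℕ} {h : ℤ → ℝ} {ρ : ℝ} {x : ℤ → ℝ} (hx : Feas N h ρ x) (i : ℤ) :
    x i ≤ cc N h ρ i := by
  have hb : BddAbove (Set.range (fun x : {x : ℤ → ℝ // Feas N h ρ x} => x.1 i)) := by
    refine ⟨h i, ?_⟩
    rintro _ ⟨y, rfl⟩
    exact y.2.2.2.1 i
  exact le_ciSup hb (⟨x, hx⟩ : {x : ℤ → ℝ // Feas N h ρ x})

lemma cc_le {N : ℕ} {h : ℤ → ℝ} {ρ : ℝ} (hρ : 0 < ρ) (hh : ∀ i, ρ ≤ h i) {i : ℤ} {b : ℝ}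
    (hb : ∀ x, Feas N h ρ x → x i ≤ b) : cc N h ρ i ≤ b := by
  have : Nonempty {x : ℤ → ℝ // Feas N h ρ x} := ⟨⟨_, feas_const hρ hh⟩⟩
  exact ciSup_le (fun x => hb x.1 x.2)

lemma feas_cc {N : ℕ} {h : ℤ → ℝ} {ρ : ℝ} (hN : 8 ≤ N) (hρ : 0 < ρ) (hh : ∀ i, ρ ≤ h i) :
    Feas N h ρ (cc N h ρ) := by
  refine ⟨fun i => ?_, fun i => le_cc (feas_const hρ hh) i,
    fun i => cc_le hρ hh (fun x hx => hx.2.2.1 i), fun i => ?_⟩
  · apply le_antisymm
    · exact cc_le hρ hh (fun x hx => by rw [hx.1 i]; exact le_cc hx i)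
    · exact cc_le hρ hh (fun x hx => by rw [← hx.1 i]; exact le_cc hx _)
  · have hc := cos_pos hN
    have key : cc N h ρ i ≤ (cc N h ρ (i + 1) + cc N h ρ (i - 1)) / (2 * Real.cos (dl N)) := by
      apply cc_le hρ hh
      intro x hx
      rw [le_div_iff₀ (by linarith)]
      have h1 := hx.2.2.2 i
      have h2 := le_cc hx (i + 1)
      have h3 := le_cc hx (i - 1)
      nlinarith
    rw [le_div_iff₀ (by linarith)] at key
    nlinarith

end P7

open P7 in
theorem pr_P7 : T_P7 := by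
  intro N h ρ hN hper hρ hh
  have hs := sin_pos hN
  have hc := cos_pos hN
  have hf := feas_cc hN hρ hh
  have hel : ∀ x : ℤ → ℝ, ∀ i, el N x i = (x (i + 1) + x (i - 1) - 2 * x i * Real.cos (dl N)) /
      Real.sin (dl N) := fun x i => rfl
  refine ⟨cc N h ρ, ⟨hN, hf.1, fun i => lt_of_lt_of_le hρ (hf.2.1 i), fun i => ?_⟩, hf.2.2.1,
    hf.2.1, ?_⟩
  · rw [hel]
    apply div_nonneg _ hs.le
    have := hf.2.2.2 i
    linarith
  · intro i hi
    by_contra hne
    have hlt : cc N h ρ i < h i := lt_of_le_of_ne (hf.2.2.1 i) hne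
    set c := cc N h ρ with hcdef
    have hpos : 0 < c (i + 1) + c (i - 1) - 2 * c i * Real.cos (dl N) := by
      rw [hel] at hi
      by_contra hcon
      exact absurd hi (not_lt.2 (div_nonpos_of_nonpos_of_nonneg (not_lt.1 hcon) hs.le))
    set e := c (i + 1) + c (i - 1) - 2 * c i * Real.cos (dl N) with he
    set t := min (h i - c i) (e / (2 * Real.cos (dl N))) with ht
    have ht0 : 0 < t := by
      apply lt_min
      · linarith
      · positivity
    have ht1 : t ≤ h i - c i := min_le_left _ _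
    have ht2 : 2 * t * Real.cos (dl N) ≤ e := by
      have := min_le_right (h i - c i) (e / (2 * Real.cos (dl N)))
      rw [← ht, le_div_iff₀ (by linarith)] at this
      linarith
    have hperm : ∀ (f : ℤ → ℝ), (∀ i, f (i + N) = f i) → ∀ (a : ℤ) (k : ℤ), f (a + N * k) = f a := by
      intro f hfp a k
      induction k with
      | zero => simp
      | succ k ih =>
        have h1 : a + (N : ℤ) * ((k : ℤ) + 1) = (a + N * k) + N := by ring
        rw [h1, hfp, ih]
      | pred k ih =>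
        have h1 : a + (N : ℤ) * (-(k : ℤ)) = (a + N * (-(k : ℤ) - 1)) + N := by ring
        rw [← ih, h1, hfp]
    classical
    set x : ℤ → ℝ := fun j => c j + (if (N : ℤ) ∣ j - i then t else 0) with hx
    have hN0 : (8 : ℤ) ≤ N := by exact_mod_cast hN
    have hfx : Feas N h ρ x := by
      refine ⟨fun j => ?_, fun j => ?_, fun j => ?_, fun j => ?_⟩
      · have h1 : ((N : ℤ) ∣ j + N - i) ↔ ((N : ℤ) ∣ j - i) := by
          have : j + (N : ℤ) - i = (j - i) + N := by ring
          rw [this]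
          exact (dvd_add_self_right)
        simp only [hx, hf.1 j, h1]
      · have := hf.2.1 j
        have h2 : (0 : ℝ) ≤ (if (N : ℤ) ∣ j - i then t else 0) := by split_ifs <;> linarith
        simp only [hx]
        linarith
      · by_cases hj : (N : ℤ) ∣ j - i
        · obtain ⟨k, hk⟩ := hj
          have hj2 : j = i + N * k := by linarith
          have h1 : c j = c i := by rw [hj2]; exact hperm c hf.1 i k
          have h2 : h j = h i := by rw [hj2]; exact hperm h hper i k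
          have h3 : (N : ℤ) ∣ j - i := ⟨k, hk⟩
          simp only [hx, if_pos h3]
          rw [h1, h2]
          linarith
        · simp only [hx, if_neg hj]
          have := hf.2.2.1 j
          linarith
      · by_cases hj : (N : ℤ) ∣ j - i
        · have hj1 : ¬ (N : ℤ) ∣ j + 1 - i := by
            intro hcon
            have : (N : ℤ) ∣ 1 := by
              have h5 := dvd_sub hcon hj
              have h6 : j + 1 - i - (j - i) = 1 := by ring
              rwa [h6] at h5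
            have := Int.le_of_dvd one_pos this
            omega
          have hj2 : ¬ (N : ℤ) ∣ j - 1 - i := by
            intro hcon
            have : (N : ℤ) ∣ 1 := by
              have h5 := dvd_sub hj hcon
              have h6 : j - i - (j - 1 - i) = 1 := by ring
              rwa [h6] at h5
            have := Int.le_of_dvd one_pos this
            omega
          obtain ⟨k, hk⟩ := hj
          have hj3 : j = i + N * k := by linarith
          have h0 : c j = c i := by rw [hj3]; exact hperm c hf.1 i k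
          have h1 : c (j + 1) = c (i + 1) := by
            have : j + 1 = (i + 1) + N * k := by rw [hj3]; ring
            rw [this]; exact hperm c hf.1 _ k
          have h2 : c (j - 1) = c (i - 1) := by
            have : j - 1 = (i - 1) + N * k := by rw [hj3]; ring
            rw [this]; exact hperm c hf.1 _ k
          have h3 : (N : ℤ) ∣ j - i := ⟨k, hk⟩
          simp only [hx, if_pos h3, if_neg hj1, if_neg hj2]
          rw [h0, h1, h2]
          nlinarith
        · have h1 := hf.2.2.2 j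
          have h2 : (0 : ℝ) ≤ (if (N : ℤ) ∣ j + 1 - i then t else 0) := by
            split_ifs <;> linarith
          have h3 : (0 : ℝ) ≤ (if (N : ℤ) ∣ j - 1 - i then t else 0) := by
            split_ifs <;> linarith
          simp only [hx, if_neg hj]
          linarith
    have hle : x i ≤ c i := le_cc hfx i
    have hxi : x i = c i + t := by
      simp [hx]
    linarith

end Pool.Agent.Robin

end

section

/-!
# MP_4b551e_an: item P9, area of the outer neighbourhood of a polygon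
-/

open MeasureTheory Set Metric
open scoped ENNReal NNReal Pointwise RealInnerProductSpace

namespace Pool.Agent.Robin

namespace P9

theorem inner_eq (x y : E2) : ⟪x, y⟫ = x 0 * y 0 + x 1 * y 1 := by
  simp only [PiLp.inner_apply, Fin.sum_univ_two]
  simp [mul_comm]

theorem dirv0 (θ : ℝ) : (dirv θ) 0 = Real.cos θ := by simp [dirv]

theorem dirv1 (θ : ℝ) : (dirv θ) 1 = Real.sin θ := by simp [dirv]

theorem rot0 (v : E2) : (rot v) 0 = -(v 1) := by simp [rot]

theorem rot1 (v : E2) : (rot v) 1 = v 0 := by simp [rot]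

theorem ext2 {x y : E2} (h0 : x 0 = y 0) (h1 : x 1 = y 1) : x = y := by
  ext i
  fin_cases i
  · exact h0
  · exact h1

theorem dd (θ : ℝ) : ⟪dirv θ, dirv θ⟫ = 1 := by
  rw [inner_eq, dirv0, dirv1]
  have := Real.sin_sq_add_cos_sq θ
  linear_combination this

theorem norm_dirv (θ : ℝ) : ‖dirv θ‖ = 1 := by
  have h := dd θ
  rw [real_inner_self_eq_norm_sq] at h
  have h0 := norm_nonneg (dirv θ)
  nlinarith

theorem dr (θ : ℝ) : ⟪dirv θ, rot (dirv θ)⟫ = 0 := by
  rw [inner_eq, rot0, rot1]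
  ring

theorem rr (θ : ℝ) : ⟪rot (dirv θ), rot (dirv θ)⟫ = 1 := by
  rw [inner_eq, rot0, rot1, dirv0, dirv1]
  have := Real.sin_sq_add_cos_sq θ
  linear_combination this

theorem decomp (x : E2) (θ : ℝ) :
    x = ⟪x, dirv θ⟫ • dirv θ + ⟪x, rot (dirv θ)⟫ • rot (dirv θ) := by
  have h := Real.sin_sq_add_cos_sq θ
  apply ext2
  · rw [PiLp.add_apply, PiLp.smul_apply, PiLp.smul_apply, smul_eq_mul, smul_eq_mul, inner_eq,
      inner_eq, rot0, rot1, dirv0, dirv1]
    linear_combination (-(x 0)) * h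
  · rw [PiLp.add_apply, PiLp.smul_apply, PiLp.smul_apply, smul_eq_mul, smul_eq_mul, inner_eq,
      inner_eq, rot0, rot1, dirv0, dirv1]
    linear_combination (-(x 1)) * h

theorem dirv_add (a φ : ℝ) :
    dirv (a + φ) = Real.cos φ • dirv a + Real.sin φ • rot (dirv a) := by
  apply ext2
  · rw [PiLp.add_apply, PiLp.smul_apply, PiLp.smul_apply, smul_eq_mul, smul_eq_mul, rot0, dirv0,
      dirv0, dirv1, Real.cos_add]
    ring
  · rw [PiLp.add_apply, PiLp.smul_apply, PiLp.smul_apply, smul_eq_mul, smul_eq_mul, rot1, dirv0,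
      dirv1, dirv1, Real.sin_add]
    ring

theorem inner_dirv_rot (θ a : ℝ) : ⟪dirv θ, rot (dirv a)⟫ = Real.sin (θ - a) := by
  rw [inner_eq, rot0, rot1, dirv0, dirv1, dirv0, dirv1, Real.sin_sub]
  ring

/-- a narrow cone is an intersection of two open half planes -/
theorem cone_eq (v : E2) {a b : ℝ} (hab : a < b) (hb : b < a + Real.pi) :
    cone v a b = {x | 0 < ⟪x - v, rot (dirv a)⟫} ∩ {x | ⟪x - v, rot (dirv b)⟫ < 0} := by
  ext x
  constructor
  · rintro ⟨d, θ, hd, h1, h2, rfl⟩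
    refine ⟨?_, ?_⟩
    · show 0 < ⟪v + d • dirv θ - v, rot (dirv a)⟫
      rw [add_sub_cancel_left, real_inner_smul_left, inner_dirv_rot]
      exact mul_pos hd (Real.sin_pos_of_pos_of_lt_pi (by linarith) (by linarith))
    · show ⟪v + d • dirv θ - v, rot (dirv b)⟫ < 0
      rw [add_sub_cancel_left, real_inner_smul_left, inner_dirv_rot]
      exact mul_neg_of_pos_of_neg hd
        (Real.sin_neg_of_neg_of_neg_pi_lt (by linarith) (by linarith))
  · rintro ⟨h1, h2⟩
    have h1' : 0 < ⟪x - v, rot (dirv a)⟫ := h1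
    have h2' : ⟪x - v, rot (dirv b)⟫ < 0 := h2
    set z : ℂ := ⟨⟪x - v, dirv a⟫, ⟪x - v, rot (dirv a)⟫⟩ with hz
    have hre : ‖z‖ * Real.cos (Complex.arg z) = ⟪x - v, dirv a⟫ := Complex.norm_mul_cos_arg z
    have him : ‖z‖ * Real.sin (Complex.arg z) = ⟪x - v, rot (dirv a)⟫ :=
      Complex.norm_mul_sin_arg z
    have hnn : 0 < ‖z‖ := by
      rcases (norm_nonneg z).eq_or_lt with h | h
      · rw [← h, zero_mul] at him
        linarith
      · exact h
    have hs : 0 < Real.sin (Complex.arg z) := by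
      by_contra hc
      have := mul_nonpos_of_nonneg_of_nonpos hnn.le (not_lt.1 hc)
      linarith
    have hxv : x - v = ‖z‖ • dirv (a + Complex.arg z) := by
      rw [dirv_add, smul_add, smul_smul, smul_smul, hre, him]
      exact decomp (x - v) a
    have hpos : 0 < Complex.arg z := by
      by_contra hc
      have := Real.sin_nonpos_of_nonpos_of_neg_pi_le (not_lt.1 hc) (Complex.neg_pi_lt_arg z).le
      linarith
    have hlt : a + Complex.arg z < b := by
      by_contra hc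
      rw [hxv, real_inner_smul_left, inner_dirv_rot] at h2'
      have h3 : 0 ≤ Real.sin (a + Complex.arg z - b) :=
        Real.sin_nonneg_of_nonneg_of_le_pi (by linarith)
          (by linarith [Complex.arg_le_pi z])
      have := mul_nonneg hnn.le h3
      linarith
    exact ⟨‖z‖, a + Complex.arg z, hnn, by linarith, hlt, by rw [← hxv]; abel⟩

theorem meas_cone (v : E2) {a b : ℝ} (hab : a < b) (hb : b < a + Real.pi) :
    MeasurableSet (cone v a b) := by
  rw [cone_eq v hab hb]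
  refine IsOpen.measurableSet (IsOpen.inter ?_ ?_)
  · exact isOpen_lt continuous_const (by fun_prop)
  · exact isOpen_lt (by fun_prop) continuous_const

theorem dl_pos {N : ℕ} (hN : 8 ≤ N) : 0 < dl N := by
  unfold dl
  have : (0 : ℝ) < N := by exact_mod_cast (by omega : 0 < N)
  positivity

theorem dl_lt {N : ℕ} (hN : 8 ≤ N) : dl N < Real.pi := by
  unfold dl
  have h8 : (8 : ℝ) ≤ N := by exact_mod_cast hN
  rw [div_lt_iff₀ (by linarith)]
  nlinarith [Real.pi_pos]

/-- bounded part of the rectangle -/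
def Rt (N : ℕ) (c : ℤ → ℝ) (t : ℝ) (i : ℤ) : Set E2 := rect N c i ∩ {x | ⟪x, nv N i⟫ ≤ c i + t}

/-- bounded part of the sector -/
def St (N : ℕ) (c : ℤ → ℝ) (t : ℝ) (i : ℤ) : Set E2 := sect N c i ∩ closedBall (vx N c i) t

theorem meas_Rt (N : ℕ) (c : ℤ → ℝ) (t : ℝ) (i : ℤ) : MeasurableSet (Rt N c t i) := by
  have h1 : rect N c i = {x | c i < ⟪x, nv N i⟫} ∩ ({x | ⟪vx N c (i - 1), tv N i⟫ < ⟪x, tv N i⟫} ∩
      {x | ⟪x, tv N i⟫ < ⟪vx N c i, tv N i⟫}) := rfl
  unfold Rt
  rw [h1]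
  refine MeasurableSet.inter (IsOpen.measurableSet (IsOpen.inter ?_ (IsOpen.inter ?_ ?_)))
    (IsClosed.measurableSet ?_)
  · exact isOpen_lt continuous_const (by fun_prop)
  · exact isOpen_lt continuous_const (by fun_prop)
  · exact isOpen_lt (by fun_prop) continuous_const
  · exact isClosed_le (by fun_prop) continuous_const

theorem meas_St {N : ℕ} (hN : 8 ≤ N) (c : ℤ → ℝ) (t : ℝ) (i : ℤ) :
    MeasurableSet (St N c t i) := by
  unfold St sect
  have h1 := dl_pos hN
  have h2 := dl_lt hN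
  exact (meas_cone _ (by nlinarith) (by nlinarith)).inter isClosed_closedBall.measurableSet

theorem vol_Rt (hq1 : T_Q1) (h1 : T_P1) {N : ℕ} {c : ℤ → ℝ} (hS : Supp N c) {t : ℝ} (ht : 0 ≤ t)
    (i : ℤ) : ENNReal.ofReal (t * el N c i) ≤ volume (Rt N c t i) := by
  have hm := meas_Rt N c t i
  rw [← lintegral_indicator_one hm, hq1 (vx N c (i - 1)) (nv N i) _ (norm_dirv _)
    (measurable_one.indicator hm)]
  have hv1 : ⟪vx N c (i - 1), nv N i⟫ = c i := by
    have := (h1 N c (i - 1) hS.N_le).2.2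
    rwa [sub_add_cancel] at this
  have hv2 : ⟪vx N c i, tv N i⟫ = ⟪vx N c (i - 1), tv N i⟫ + el N c i := by
    have h3 : vx N c i = vx N c (i - 1) + el N c i • tv N i := by
      rw [← (h1 N c i hS.N_le).1]
      abel
    rw [h3, inner_add_left, real_inner_smul_left]
    have : ⟪tv N i, tv N i⟫ = 1 := rr _
    rw [this, mul_one]
  have hnn : ⟪nv N i, nv N i⟫ = 1 := dd _
  have hnt : ⟪nv N i, tv N i⟫ = 0 := dr _
  have htn : ⟪tv N i, nv N i⟫ = 0 := by rw [real_inner_comm]; exact hnt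
  have htt : ⟪tv N i, tv N i⟫ = 1 := rr _
  have key : ∀ τ : ℝ, (Ioo 0 (el N c i)).indicator (fun _ => ENNReal.ofReal t) τ ≤
      ∫⁻ s : ℝ, (Rt N c t i).indicator 1 (vx N c (i - 1) + s • nv N i + τ • rot (nv N i)) := by
    intro τ
    by_cases hτ : τ ∈ Ioo 0 (el N c i)
    · rw [indicator_of_mem hτ]
      have h4 : ENNReal.ofReal t = ∫⁻ s : ℝ, (Ioc 0 t).indicator 1 s := by
        rw [lintegral_indicator_one measurableSet_Ioc, Real.volume_Ioc, sub_zero]
      rw [h4]
      refine lintegral_mono fun s => ?_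
      by_cases hs : s ∈ Ioc 0 t
      · have e1 : ⟪vx N c (i - 1) + s • nv N i + τ • tv N i, nv N i⟫ = c i + s := by
          rw [inner_add_left, inner_add_left, real_inner_smul_left, real_inner_smul_left, hv1, hnn,
            htn]
          ring
        have e2 : ⟪vx N c (i - 1) + s • nv N i + τ • tv N i, tv N i⟫ =
            ⟪vx N c (i - 1), tv N i⟫ + τ := by
          rw [inner_add_left, inner_add_left, real_inner_smul_left, real_inner_smul_left, hnt, htt]
          ring
        have hmem : vx N c (i - 1) + s • nv N i + τ • rot (nv N i) ∈ Rt N c t i := by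
          refine ⟨⟨?_, ?_, ?_⟩, ?_⟩
          · show c i < ⟪vx N c (i - 1) + s • nv N i + τ • tv N i, nv N i⟫
            rw [e1]; linarith [hs.1]
          · show _ < ⟪vx N c (i - 1) + s • nv N i + τ • tv N i, tv N i⟫
            rw [e2]; linarith [hτ.1]
          · show ⟪vx N c (i - 1) + s • nv N i + τ • tv N i, tv N i⟫ < _
            rw [e2, hv2]; linarith [hτ.2]
          · show ⟪vx N c (i - 1) + s • nv N i + τ • tv N i, nv N i⟫ ≤ c i + t
            rw [e1]; linarith [hs.2]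
        rw [indicator_of_mem hs, indicator_of_mem hmem]
        exact le_rfl
      · rw [indicator_of_notMem hs]
        exact zero_le
    · rw [indicator_of_notMem hτ]
      exact zero_le
  refine le_trans ?_ (lintegral_mono key)
  rw [lintegral_indicator_const measurableSet_Ioo, Real.volume_Ioo, sub_zero,
    ENNReal.ofReal_mul ht]

theorem vol_St (hq2 : T_Q2) {N : ℕ} (hN : 8 ≤ N) (c : ℤ → ℝ) {t : ℝ} (ht : 0 ≤ t)
    (i : ℤ) : ENNReal.ofReal (t ^ 2 / 2 * dl N) ≤ volume (St N c t i) := by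
  have d1 := dl_pos hN
  have d2 := dl_lt hN
  have hmb : MeasurableSet (closedBall (vx N c i) t) := isClosed_closedBall.measurableSet
  have h0 : volume (St N c t i) =
      ∫⁻ x in sect N c i, (closedBall (vx N c i) t).indicator 1 x := by
    rw [lintegral_indicator_one hmb, Measure.restrict_apply hmb, inter_comm]
    rfl
  rw [h0]
  unfold sect
  rw [hq2 _ _ _ _ (by nlinarith) (by nlinarith) (measurable_one.indicator hmb)]
  have key : ∀ θ : ℝ, ENNReal.ofReal (t ^ 2 / 2) ≤ ∫⁻ d in Ioi (0 : ℝ),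
      (closedBall (vx N c i) t).indicator 1 (vx N c i + d • dirv θ) * ENNReal.ofReal d := by
    intro θ
    have h1 : ENNReal.ofReal (t ^ 2 / 2) = ∫⁻ d in Ioc (0 : ℝ) t, ENNReal.ofReal d := by
      rw [← ofReal_integral_eq_lintegral_ofReal]
      · rw [← intervalIntegral.integral_of_le ht, integral_id]
        congr 1
        ring
      · exact (continuous_id.integrableOn_Icc).mono_set Ioc_subset_Icc_self
      · exact (ae_restrict_iff' measurableSet_Ioc).2 (Filter.Eventually.of_forall fun x hx => hx.1.le)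
    rw [h1]
    refine le_trans ?_ (lintegral_mono_set (Ioc_subset_Ioi_self : Ioc (0 : ℝ) t ⊆ Ioi 0))
    refine setLIntegral_mono' measurableSet_Ioc fun d hd => ?_
    rw [indicator_of_mem, Pi.one_apply, one_mul]
    rw [mem_closedBall, dist_eq_norm, add_sub_cancel_left, norm_smul, norm_dirv, mul_one,
      Real.norm_eq_abs, abs_of_pos hd.1]
    exact hd.2
  refine le_trans ?_ (lintegral_mono key)
  rw [lintegral_const, Measure.restrict_apply MeasurableSet.univ, univ_inter, Real.volume_Ioo,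
    ENNReal.ofReal_mul (by positivity)]
  refine mul_le_mul_right ?_ _
  refine ENNReal.ofReal_le_ofReal ?_
  linarith

theorem Rt_sub (h1 : T_P1) (h2 : T_P2) (h3 : T_P2b) {N : ℕ} {c : ℤ → ℝ} (hS : Supp N c) {t : ℝ}
    (i : ℤ) : Rt N c t i ⊆ {x | infDist x (poly N c) ≤ t} := by
  rintro x ⟨⟨hx1, hx2, hx3⟩, hx4⟩
  have hx4' : ⟪x, nv N i⟫ ≤ c i + t := hx4
  have hv1 : ⟪vx N c (i - 1), nv N i⟫ = c i := by
    have := (h1 N c (i - 1) hS.N_le).2.2
    rwa [sub_add_cancel] at this
  have hv3 : vx N c i = vx N c (i - 1) + el N c i • tv N i := by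
    rw [← (h1 N c i hS.N_le).1]
    abel
  have htt : ⟪tv N i, tv N i⟫ = 1 := rr _
  have hv2 : ⟪vx N c i, tv N i⟫ = ⟪vx N c (i - 1), tv N i⟫ + el N c i := by
    rw [hv3, inner_add_left, real_inner_smul_left, htt, mul_one]
  set τ : ℝ := ⟪x, tv N i⟫ - ⟪vx N c (i - 1), tv N i⟫ with hτ
  have hl : 0 < el N c i := by linarith
  set y : E2 := vx N c (i - 1) + τ • tv N i with hy
  have hyp : y ∈ poly N c := by
    have hconv := (h3 N c hS).2.1
    have hseg : y ∈ segment ℝ (vx N c (i - 1)) (vx N c i) := by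
      refine ⟨1 - τ / el N c i, τ / el N c i, ?_, ?_, by ring, ?_⟩
      · rw [sub_nonneg, div_le_one hl]
        linarith
      · exact div_nonneg (by linarith) hl.le
      · rw [hv3, smul_add, smul_smul, div_mul_cancel₀ _ hl.ne', ← add_assoc, ← add_smul,
          sub_add_cancel, one_smul]
    exact hconv.segment_subset (h2 N c hS _) (h2 N c hS _) hseg
  have hxy : x - y = (⟪x, nv N i⟫ - c i) • nv N i := by
    have e1 := decomp (x - y) (i * dl N)
    have e2 : ⟪x - y, dirv (i * dl N)⟫ = ⟪x, nv N i⟫ - c i := by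
      have : ⟪x - y, nv N i⟫ = ⟪x, nv N i⟫ - c i := by
        rw [inner_sub_left, hy, inner_add_left, real_inner_smul_left, hv1]
        have : ⟪tv N i, nv N i⟫ = 0 := by rw [real_inner_comm]; exact dr _
        rw [this]
        ring
      exact this
    have e3 : ⟪x - y, rot (dirv (i * dl N))⟫ = 0 := by
      have : ⟪x - y, tv N i⟫ = 0 := by
        rw [inner_sub_left, hy, inner_add_left, real_inner_smul_left, htt, hτ]
        ring
      exact this
    rw [e2, e3, zero_smul, add_zero] at e1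
    exact e1
  refine (infDist_le_dist_of_mem hyp).trans ?_
  rw [dist_eq_norm, hxy, norm_smul]
  have : ‖nv N i‖ = 1 := norm_dirv _
  rw [this, mul_one, Real.norm_eq_abs, abs_of_pos (by linarith)]
  linarith

theorem St_sub (h2 : T_P2) {N : ℕ} {c : ℤ → ℝ} (hS : Supp N c) {t : ℝ}
    (i : ℤ) : St N c t i ⊆ {x | infDist x (poly N c) ≤ t} := by
  rintro x ⟨-, hx⟩
  exact (infDist_le_dist_of_mem (h2 N c hS i)).trans hx

end P9

open P9 in
theorem pr_P9 (hq1 : T_Q1) (hq2 : T_Q2) (h1 : T_P1) (h2 : T_P2) (h3 : T_P2b) (h5 : T_P5)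
    (h6 : T_P6) : T_P9 := by
  intro N c t hS ht
  have hN := hS.N_le
  obtain ⟨h51, h52, h53⟩ := h5 N c hS
  have hNpos : (0 : ℝ) < N := by exact_mod_cast (by omega : 0 < N)
  set RR : Set E2 := ⋃ i ∈ Finset.range N, Rt N c t (i : ℤ) with hRR
  set SS : Set E2 := ⋃ i ∈ Finset.range N, St N c t (i : ℤ) with hSS
  have mR : MeasurableSet RR := Finset.measurableSet_biUnion _ fun i _ => meas_Rt N c t i
  have mS : MeasurableSet SS := Finset.measurableSet_biUnion _ fun i _ => meas_St hN c t i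
  have vR : ENNReal.ofReal (t * ∑ i ∈ Finset.range N, el N c i) ≤ volume RR := by
    rw [hRR, measure_biUnion_finset]
    · rw [Finset.mul_sum, ENNReal.ofReal_sum_of_nonneg fun i _ => mul_nonneg ht (hS.el_nonneg _)]
      exact Finset.sum_le_sum fun i _ => vol_Rt hq1 h1 hS ht i
    · intro i hi j hj hij
      exact (h51 i j (Finset.mem_range.1 hi) (Finset.mem_range.1 hj) hij).1.mono
        inter_subset_left inter_subset_left
    · exact fun i _ => meas_Rt N c t i
  have vS : ENNReal.ofReal (Real.pi * t ^ 2) ≤ volume SS := by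
    rw [hSS, measure_biUnion_finset]
    · have e1 : Real.pi * t ^ 2 = ∑ i ∈ Finset.range N, t ^ 2 / 2 * dl N := by
        rw [Finset.sum_const, Finset.card_range, nsmul_eq_mul]
        unfold dl
        field_simp
      rw [e1, ENNReal.ofReal_sum_of_nonneg fun i _ =>
        mul_nonneg (by positivity) (dl_pos hN).le]
      exact Finset.sum_le_sum fun i _ => vol_St hq2 hN c ht i
    · intro i hi j hj hij
      exact (h51 i j (Finset.mem_range.1 hi) (Finset.mem_range.1 hj) hij).2.mono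
        inter_subset_left inter_subset_left
    · exact fun i _ => meas_St hN c t i
  have dPR : Disjoint (poly N c) RR := by
    rw [hRR]
    simp only [disjoint_iUnion_right]
    exact fun i _ => (h53 i).1.mono_right inter_subset_left
  have dPS : Disjoint (poly N c) SS := by
    rw [hSS]
    simp only [disjoint_iUnion_right]
    exact fun i _ => (h53 i).2.mono_right inter_subset_left
  have dRS : Disjoint RR SS := by
    rw [hRR, hSS]
    simp only [disjoint_iUnion_right, disjoint_iUnion_left]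
    exact fun j hj i hi => (h52 i j (Finset.mem_range.1 hi) (Finset.mem_range.1 hj)).mono
      inter_subset_left inter_subset_left
  have hsub : (poly N c ∪ RR) ∪ SS ⊆ {x | infDist x (poly N c) ≤ t} := by
    refine union_subset (union_subset ?_ ?_) ?_
    · intro x hx
      show infDist x (poly N c) ≤ t
      rw [infDist_zero_of_mem hx]
      exact ht
    · exact iUnion₂_subset fun i _ => Rt_sub h1 h2 h3 hS i
    · exact iUnion₂_subset fun i _ => St_sub h2 hS i
  refine le_trans ?_ (measure_mono hsub)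
  rw [measure_union (Disjoint.union_left dPS dRS) mS, measure_union dPR mR]
  refine ENNReal.ofReal_add_le.trans (add_le_add (ENNReal.ofReal_add_le.trans
    (add_le_add (h6 N c hS) vR)) vS)

end Pool.Agent.Robin

end

section

/-!
# MP_4b551e_an, item Q1: Fubini in the direction of a unit vector
-/

open MeasureTheory Set Metric
open scoped ENNReal NNReal Pointwise RealInnerProductSpace

namespace Pool.Agent.Robin

namespace Q1

/-- The linear isometry with `e0 ↦ ν`, `e1 ↦ rot ν`. -/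
noncomputable def rotLin (ν : E2) (hν : ‖ν‖ = 1) : E2 →ₗᵢ[ℝ] E2 where
  toFun x := x 0 • ν + x 1 • rot ν
  map_add' x y := by
    ext i; fin_cases i <;> simp [rot] <;> ring
  map_smul' c x := by
    ext i; fin_cases i <;> simp [rot] <;> ring
  norm_map' x := by
    have h1 : (ν 0) ^ 2 + (ν 1) ^ 2 = 1 := by
      have := EuclideanSpace.real_norm_sq_eq ν
      rw [hν] at this
      simpa [Fin.sum_univ_two] using this.symm
    have h2 : ‖x 0 • ν + x 1 • rot ν‖ ^ 2 = ‖x‖ ^ 2 := by
      rw [EuclideanSpace.real_norm_sq_eq, EuclideanSpace.real_norm_sq_eq]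
      simp only [Fin.sum_univ_two]
      simp [rot]
      have : (x 0 * ν 0 + -(x 1 * ν 1)) ^ 2 + (x 0 * ν 1 + x 1 * ν 0) ^ 2 =
          (x 0 ^ 2 + x 1 ^ 2) * ((ν 0) ^ 2 + (ν 1) ^ 2) := by ring
      rw [this, h1, mul_one]
    exact (sq_eq_sq₀ (norm_nonneg _) (norm_nonneg _)).1 h2

/-- The coordinates along `ν` and `rot ν`. -/
noncomputable def psi (ν : E2) : ℝ × ℝ → E2 := fun q => q.1 • ν + q.2 • rot ν

theorem psi_mp (ν : E2) (hν : ‖ν‖ = 1) : MeasurePreserving (psi ν) volume volume := by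
  have h1 := ((rotLin ν hν).toLinearIsometryEquiv rfl).measurePreserving
  have h2 := (PiLp.volume_preserving_toLp (Fin 2)).comp (volume_preserving_finTwoArrow ℝ).symm
  have h3 : psi ν = ⇑((rotLin ν hν).toLinearIsometryEquiv rfl) ∘
      (WithLp.toLp 2 ∘ ⇑(MeasurableEquiv.finTwoArrow (α := ℝ)).symm) := by
    funext q
    simp [psi, rotLin, MeasurableEquiv.finTwoArrow]
  rw [h3]
  exact h1.comp h2

end Q1

theorem pr_Q1 : T_Q1 := by
  intro v n F hn hF
  have h0 : ∫⁻ x, F x = ∫⁻ x, F (v + x) := (lintegral_add_left_eq_self F v).symm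
  have hm : Measurable fun x : E2 => F (v + x) := hF.comp (measurable_const_add v)
  rw [h0, ← (Q1.psi_mp n hn).lintegral_comp hm]
  have hv : (volume : Measure (ℝ × ℝ)) = (volume : Measure ℝ).prod volume := rfl
  have hm2 : Measurable fun q : ℝ × ℝ => F (v + Q1.psi n q) :=
    hm.comp (Q1.psi_mp n hn).measurable
  rw [hv, lintegral_prod_symm _ hm2.aemeasurable]
  refine lintegral_congr fun t => lintegral_congr fun s => ?_
  simp only [Q1.psi]
  rw [add_assoc]

end Pool.Agent.Robin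

end

section

/-!
# MP_4b551e_an: item Q2 (polar coordinates in a cone)
-/

open MeasureTheory Set Metric
open scoped ENNReal NNReal Pointwise RealInnerProductSpace

namespace Pool.Agent.Robin

namespace Q2

theorem dirv_add (α φ : ℝ) :
    Real.cos φ • dirv α + Real.sin φ • rot (dirv α) = dirv (α + φ) := by
  ext j
  fin_cases j
  · simp [dirv, rot, Real.cos_add]
    ring
  · simp [dirv, rot, Real.sin_add]
    ring

theorem norm_dirv (θ : ℝ) : ‖dirv θ‖ = 1 := by
  rw [EuclideanSpace.norm_eq]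
  simp [dirv, Fin.sum_univ_two]

theorem continuous_dirv : Continuous dirv := by
  unfold dirv
  fun_prop

/-- Uniqueness of polar coordinates. -/
theorem polar_inj {d d' θ θ' : ℝ} (hd : 0 < d) (hd' : 0 < d') (h1 : -(2 * Real.pi) < θ - θ')
    (h2 : θ - θ' < 2 * Real.pi) (h : d • dirv θ = d' • dirv θ') : d = d' ∧ θ = θ' := by
  have h5 : d = d' := by
    have := congrArg norm h
    rwa [norm_smul, norm_smul, norm_dirv, norm_dirv, mul_one, mul_one, Real.norm_eq_abs,
      Real.norm_eq_abs, abs_of_pos hd, abs_of_pos hd'] at this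
  have h6 : dirv θ = dirv θ' := by
    rw [← h5] at h
    exact smul_right_injective _ hd.ne' h
  have hc : Real.cos θ = Real.cos θ' := by
    have := congrArg (fun x : E2 => x 0) h6
    simpa [dirv] using this
  have hs : Real.sin θ = Real.sin θ' := by
    have := congrArg (fun x : E2 => x 1) h6
    simpa [dirv] using this
  have h7 : Real.cos (θ - θ') = 1 := by
    rw [Real.cos_sub, hc, hs]
    have := Real.sin_sq_add_cos_sq θ'
    linarith
  have h8 := (Real.cos_eq_one_iff_of_lt_of_lt h1 h2).1 h7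
  exact ⟨h5, by linarith⟩

/-- Membership in a cone. -/
theorem mem_cone {v : E2} {a b α : ℝ} (hα : α = (a + b) / 2) (hb : b ≤ a + Real.pi) {d φ : ℝ}
    (hd : 0 < d) (hφ : φ ∈ Ioo (-Real.pi) Real.pi) :
    v + d • dirv (α + φ) ∈ cone v a b ↔ α + φ ∈ Ioo a b := by
  constructor
  · rintro ⟨d', θ, hd', h1, h2, h3⟩
    have h4 : d • dirv (α + φ) = d' • dirv θ := add_left_cancel h3
    have h5 := hφ.1
    have h6 := hφ.2
    have h7 := Real.pi_pos
    have h9 := (polar_inj hd hd' (by linarith) (by linarith) h4).2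
    rw [h9]
    exact ⟨h1, h2⟩
  · intro h
    exact ⟨d, α + φ, hd, h.1, h.2, rfl⟩

theorem measurable_cone (v : E2) {a b : ℝ} (hb : b ≤ a + Real.pi) :
    MeasurableSet (cone v a b) := by
  have h : cone v a b = (fun p : ℝ × ℝ => v + p.1 • dirv p.2) '' (Ioi (0 : ℝ) ×ˢ Ioo a b) := by
    ext x
    constructor
    · rintro ⟨d, θ, hd, h1, h2, h3⟩
      exact ⟨(d, θ), ⟨hd, h1, h2⟩, h3.symm⟩
    · rintro ⟨⟨d, θ⟩, ⟨hd, h1, h2⟩, h3⟩
      exact ⟨d, θ, hd, h1, h2, h3.symm⟩
  rw [h]
  refine (measurableSet_Ioi.prod measurableSet_Ioo).image_of_continuousOn_injOn ?_ ?_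
  · exact (continuous_const.add (continuous_fst.smul (continuous_dirv.comp
      continuous_snd))).continuousOn
  · rintro ⟨d, θ⟩ ⟨hd, h1, h2⟩ ⟨d', θ'⟩ ⟨hd', h1', h2'⟩ heq
    have h7 := Real.pi_pos
    simp only at *
    have := polar_inj hd hd' (by linarith) (by linarith) (add_left_cancel heq)
    rw [this.1, this.2]

end Q2

open Q2 in
theorem pr_Q2 (h1 : T_Q1) : T_Q2 := by
  intro v a b F hab hb hF
  set α : ℝ := (a + b) / 2 with hα
  have hpi := Real.pi_pos
  have hcone : MeasurableSet (cone v a b) := measurable_cone v hb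
  set H : E2 → ℝ≥0∞ := (cone v a b).indicator F with hH
  have hHm : Measurable H := hF.indicator hcone
  set G : ℝ × ℝ → ℝ≥0∞ := fun p => H (v + p.1 • dirv α + p.2 • rot (dirv α)) with hG
  have hGm : Measurable G := by
    refine hHm.comp ?_
    refine Continuous.measurable ?_
    fun_prop
  rw [← lintegral_indicator hcone, h1 v (dirv α) _ (norm_dirv α) hHm]
  have e1 : ∫⁻ p : ℝ × ℝ, G p = ∫⁻ t : ℝ, ∫⁻ s : ℝ, H (v + s • dirv α + t • rot (dirv α)) :=
    lintegral_prod_symm' G hGm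
  rw [← e1, ← lintegral_comp_polarCoord_symm]
  have e2 : polarCoord.target = Ioi (0 : ℝ) ×ˢ Ioo (-Real.pi) Real.pi := rfl
  rw [e2, Measure.volume_eq_prod, ← Measure.prod_restrict, lintegral_prod_symm']
  swap
  · exact (ENNReal.measurable_ofReal.comp measurable_fst).smul
      (hGm.comp continuous_polarCoord_symm.measurable)
  set K : ℝ → ℝ≥0∞ := (Ioo a b).indicator
    (fun θ => ∫⁻ d in Ioi (0 : ℝ), F (v + d • dirv θ) * ENNReal.ofReal d) with hK
  have e3 : ∀ φ ∈ Ioo (-Real.pi) Real.pi, ∫⁻ d in Ioi (0 : ℝ), ENNReal.ofReal d •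
      G (polarCoord.symm (d, φ)) = K (α + φ) := by
    intro φ hφ
    have e4 : ∀ d : ℝ, G (polarCoord.symm (d, φ)) = H (v + d • dirv (α + φ)) := by
      intro d
      simp only [hG, polarCoord_symm_apply]
      rw [← dirv_add α φ, smul_add, smul_smul, smul_smul, add_assoc]
    by_cases hm : α + φ ∈ Ioo a b
    · rw [hK, indicator_of_mem hm]
      refine setLIntegral_congr_fun measurableSet_Ioi fun d hd => ?_
      rw [e4, hH, indicator_of_mem ((mem_cone hα hb hd hφ).2 hm), smul_eq_mul, mul_comm]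
    · rw [hK, indicator_of_notMem hm]
      rw [← lintegral_zero (μ := volume.restrict (Ioi (0 : ℝ)))]
      refine setLIntegral_congr_fun measurableSet_Ioi fun d hd => ?_
      rw [e4, hH, indicator_of_notMem (fun h => hm ((mem_cone hα hb hd hφ).1 h)), smul_zero]
  rw [setLIntegral_congr_fun measurableSet_Ioo e3, ← lintegral_indicator measurableSet_Ioo]
  have e5 : (fun φ : ℝ => (Ioo (-Real.pi) Real.pi).indicator (fun φ => K (α + φ)) φ) =
      fun φ => K (α + φ) := by
    funext φ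
    by_cases hφ : φ ∈ Ioo (-Real.pi) Real.pi
    · rw [indicator_of_mem hφ]
    · rw [indicator_of_notMem hφ, hK, indicator_of_notMem]
      rintro ⟨h2, h3⟩
      exact hφ ⟨by linarith, by linarith⟩
  rw [e5, lintegral_add_left_eq_self K α, hK, lintegral_indicator measurableSet_Ioo]

end Pool.Agent.Robin

end

section

/-!
# MP_4b551e_an: Eilenberg inequality in polar coordinates
-/

open MeasureTheory Set Metric Filter Topology
open scoped ENNReal NNReal Pointwise RealInnerProductSpace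

namespace Pool.Agent.Robin

namespace Q3

/-- Eilenberg inequality without finiteness assumptions. -/
theorem ext (h : S_EilW) (S : Set E2) (φ : E2 → ℝ) (ω : E2 → ℝ≥0) (f : E2 → ℝ≥0∞)
    (hS : MeasurableSet S) (hf : Measurable f) (hωm : Measurable ω) (hω0 : ∀ x ∈ S, 0 < ω x)
    (hφ : ContinuousOn φ S) (hω : ContinuousOn ω S)
    (hl : ∀ x ∈ S, ∀ ε > 0, ∃ δ > 0, ∀ y ∈ S, ∀ z ∈ S, dist y x < δ → dist z x < δ →
      |φ y - φ z| ≤ ((ω x : ℝ) + ε) * dist y z) :
    ∃ G : ℝ → ℝ≥0∞, Measurable G ∧ (∀ x ∈ S, f x ≤ G (φ x)) ∧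
      ∫⁻ c : ℝ, G c ≤ ∫⁻ x in S, f x * ω x ∂(μH[1]) := by
  classical
  by_cases hI : ∫⁻ x in S, f x * ω x ∂(μH[1] : Measure E2) = ⊤
  · exact ⟨fun _ => ⊤, measurable_const, fun x _ => le_top, by rw [hI]; exact le_top⟩
  -- the general fact on a measurable subset
  have key : ∀ (T : Set E2) (g : E2 → ℝ≥0∞) (M : ℝ≥0), T ⊆ S → MeasurableSet T →
      μH[1] T < ⊤ → Measurable g → (∀ x ∈ T, g x ≤ M) → (∀ x ∈ T, ω x ≤ M) →
      ∃ G : ℝ → ℝ≥0∞, Measurable G ∧ (∀ x ∈ T, g x ≤ G (φ x)) ∧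
        ∫⁻ c : ℝ, G c ≤ ∫⁻ x in T, g x * ω x ∂(μH[1]) := by
    intro T g M hTS hTm hTf hg hgM hωM
    obtain ⟨G, hGm, hG1, hG2⟩ := h T φ ω g M hTm hTf hg hgM hωM (hφ.mono hTS) (hω.mono hTS)
      (by
        intro x hx ε hε
        obtain ⟨δ, hδ, hh⟩ := hl x (hTS hx) ε hε
        exact ⟨δ, hδ, fun y hy z hz => hh y (hTS hy) z (hTS hz)⟩)
    refine ⟨G, hGm, fun x hx => ?_, hG2⟩
    refine le_trans ?_ (hG1 (φ x))
    exact ENNReal.le_tsum (f := fun y : (T ∩ φ ⁻¹' {φ x} : Set E2) => g y) ⟨x, hx, rfl⟩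
  have hfω : Measurable fun x => f x * (ω x : ℝ≥0∞) := hf.mul hωm.coe_nnreal_ennreal
  set A : ℕ → Set E2 := fun n => S ∩ {x | f x ≤ n ∧ ω x ≤ n ∧ ((n : ℝ≥0∞))⁻¹ ≤ f x * ω x} with hA
  have hAm : ∀ n, MeasurableSet (A n) := by
    intro n
    refine hS.inter ?_
    refine (measurableSet_le hf measurable_const).inter
      ((measurableSet_le hωm measurable_const).inter (measurableSet_le measurable_const hfω))
  set T : ℕ → Set E2 := disjointed A with hT
  have hTm : ∀ n, MeasurableSet (T n) := fun n => MeasurableSet.disjointed hAm n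
  have hTA : ∀ n, T n ⊆ A n := fun n => disjointed_subset A n
  have hAfin : ∀ n, μH[1] (A n) < ⊤ := by
    intro n
    have h1 : ((n : ℝ≥0∞))⁻¹ * μH[1] (A n) ≤ ∫⁻ x in S, f x * ω x ∂(μH[1]) := by
      calc ((n : ℝ≥0∞))⁻¹ * μH[1] (A n) = ∫⁻ x in A n, ((n : ℝ≥0∞))⁻¹ ∂(μH[1]) := by
            rw [setLIntegral_const]
        _ ≤ ∫⁻ x in A n, f x * ω x ∂(μH[1]) :=
            setLIntegral_mono hfω fun x hx => hx.2.2.2
        _ ≤ ∫⁻ x in S, f x * ω x ∂(μH[1]) := lintegral_mono_set inter_subset_left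
    by_contra hc
    rw [not_lt, top_le_iff] at hc
    rw [hc, ENNReal.mul_top (by simp)] at h1
    exact hI (top_le_iff.mp h1)
  have hTfin : ∀ n, μH[1] (T n) < ⊤ := fun n => (measure_mono (hTA n)).trans_lt (hAfin n)
  have hk1 : ∀ n : ℕ, ∃ G : ℝ → ℝ≥0∞, Measurable G ∧ (∀ x ∈ T n, f x ≤ G (φ x)) ∧
        ∫⁻ c : ℝ, G c ≤ ∫⁻ x in T n, f x * ω x ∂(μH[1]) := by
    intro n
    refine key (T n) f (n : ℝ≥0) (fun x hx => (hTA n hx).1) (hTm n) (hTfin n) hf ?_ ?_
    · intro x hx
      have := (hTA n hx).2.1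
      simpa using this
    · intro x hx
      exact (hTA n hx).2.2.1
  choose G₁ hG₁m hG₁a hG₁b using hk1
  -- the part where f is infinite
  have hnull : μH[1] (S ∩ {x | f x = ⊤}) = 0 := by
    by_contra hc
    apply hI
    rw [eq_top_iff]
    have hm : MeasurableSet (S ∩ {x | f x = ⊤}) :=
      hS.inter (hf (measurableSet_singleton _))
    calc (⊤ : ℝ≥0∞) = ⊤ * μH[1] (S ∩ {x | f x = ⊤}) := by rw [ENNReal.top_mul hc]
      _ = ∫⁻ x in S ∩ {x | f x = ⊤}, ⊤ ∂(μH[1]) := by rw [setLIntegral_const]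
      _ ≤ ∫⁻ x in S ∩ {x | f x = ⊤}, f x * ω x ∂(μH[1]) := by
          refine setLIntegral_mono hfω fun x hx => ?_
          have h2 : f x = ⊤ := hx.2
          rw [h2, ENNReal.top_mul]
          exact_mod_cast (hω0 x hx.1).ne'
      _ ≤ ∫⁻ x in S, f x * ω x ∂(μH[1]) := lintegral_mono_set inter_subset_left
  have hk2 : ∀ n : ℕ, ∃ G : ℝ → ℝ≥0∞, Measurable G ∧
      (∀ x ∈ S ∩ {x | f x = ⊤ ∧ ω x ≤ n}, (1 : ℝ≥0∞) ≤ G (φ x)) ∧ ∫⁻ c : ℝ, G c = 0 := by
    intro n
    have hsub : S ∩ {x | f x = ⊤ ∧ ω x ≤ n} ⊆ S ∩ {x | f x = ⊤} :=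
      fun x hx => ⟨hx.1, hx.2.1⟩
    have hz : μH[1] (S ∩ {x | f x = ⊤ ∧ ω x ≤ n}) = 0 := measure_mono_null hsub hnull
    obtain ⟨G, a, b, c⟩ := key (S ∩ {x | f x = ⊤ ∧ ω x ≤ n}) (fun _ => 1) (n + 1 : ℝ≥0)
      inter_subset_left
      (hS.inter ((hf (measurableSet_singleton _)).inter
        (measurableSet_le (f := ω) hωm (measurable_const (a := (n : ℝ≥0))))))
      (by rw [hz]; exact ENNReal.zero_lt_top) measurable_const
      (by intro x _; simp) (by
        intro x hx
        exact hx.2.2.trans (by simp))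
    refine ⟨G, a, b, ?_⟩
    rw [Measure.restrict_eq_zero.mpr hz, lintegral_zero_measure] at c
    exact le_antisymm c (zero_le)
  choose G₂ hG₂m hG₂a hG₂b using hk2
  refine ⟨fun c => (∑' n, G₁ n c) + ⊤ * ∑' n, G₂ n c, ?_, ?_, ?_⟩
  · exact (Measurable.tsum hG₁m).add (measurable_const.mul (Measurable.tsum hG₂m))
  · intro x hx
    rcases eq_or_ne (f x) ⊤ with hft | hft
    · obtain ⟨n, hn⟩ := exists_nat_ge (ω x)
      have h1 : (1 : ℝ≥0∞) ≤ ∑' n, G₂ n (φ x) :=
        (hG₂a n x ⟨hx, hft, hn⟩).trans (ENNReal.le_tsum n)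
      have h2 : ⊤ * ∑' n, G₂ n (φ x) = ⊤ := ENNReal.top_mul (by
        intro h0
        rw [h0] at h1
        simp at h1)
      show f x ≤ (∑' n, G₁ n (φ x)) + ⊤ * ∑' n, G₂ n (φ x)
      rw [h2]
      simp
    · rcases eq_or_ne (f x) 0 with hf0 | hf0
      · rw [hf0]; exact zero_le
      · have hxU : x ∈ ⋃ n, A n := by
          obtain ⟨n1, hn1⟩ := ENNReal.exists_nat_gt hft
          obtain ⟨n2, hn2⟩ := exists_nat_ge (ω x)
          have hpos : f x * (ω x : ℝ≥0∞) ≠ 0 := mul_ne_zero hf0 (by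
            exact_mod_cast (hω0 x hx).ne')
          obtain ⟨n3, hn3⟩ := ENNReal.exists_inv_nat_lt hpos
          refine mem_iUnion.mpr ⟨max n1 (max n2 n3), hx, ?_, ?_, ?_⟩
          · refine hn1.le.trans ?_
            exact_mod_cast le_max_left _ _
          · refine hn2.trans ?_
            exact_mod_cast (le_max_left n2 n3).trans (le_max_right _ _)
          · refine le_trans ?_ hn3.le
            rw [ENNReal.inv_le_inv]
            exact_mod_cast (le_max_right n2 n3).trans (le_max_right _ _)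
        rw [← iUnion_disjointed, mem_iUnion] at hxU
        obtain ⟨n, hn⟩ := hxU
        refine (hG₁a n x hn).trans ?_
        exact (ENNReal.le_tsum n).trans le_self_add
  · rw [lintegral_add_left (Measurable.tsum hG₁m), lintegral_const_mul _ (Measurable.tsum hG₂m),
      lintegral_tsum fun n => (hG₂m n).aemeasurable, lintegral_tsum fun n => (hG₁m n).aemeasurable]
    simp only [hG₂b, tsum_zero, mul_zero, add_zero]
    calc ∑' n, ∫⁻ c, G₁ n c ≤ ∑' n, ∫⁻ x in T n, f x * ω x ∂(μH[1]) :=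
          ENNReal.tsum_le_tsum hG₁b
      _ = ∫⁻ x in ⋃ n, T n, f x * ω x ∂(μH[1]) := by
          rw [lintegral_iUnion hTm (disjoint_disjointed A)]
      _ ≤ ∫⁻ x in S, f x * ω x ∂(μH[1]) := by
          refine lintegral_mono_set ?_
          exact iUnion_subset fun n x hx => (hTA n hx).1

theorem inner2 (x y : E2) : ⟪x, y⟫ = x 0 * y 0 + x 1 * y 1 := by
  rw [PiLp.inner_apply, Fin.sum_univ_two]
  simp [mul_comm]

theorem inner_dirv (s t : ℝ) : ⟪dirv s, dirv t⟫ = Real.cos (s - t) := by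
  rw [inner2, Real.cos_sub]
  simp [dirv]

theorem inner_dirv_rot (s t : ℝ) : ⟪dirv s, rot (dirv t)⟫ = Real.sin (s - t) := by
  rw [inner2, Real.sin_sub]
  simp [dirv, rot]
  ring

theorem norm_dirv (t : ℝ) : ‖dirv t‖ = 1 := by
  rw [EuclideanSpace.norm_eq, Fin.sum_univ_two]
  simp [dirv]

/-- decomposition in the frame -/
theorem decomp (y : E2) (t : ℝ) :
    y = ⟪y, dirv t⟫ • dirv t + ⟪y, rot (dirv t)⟫ • rot (dirv t) := by
  have h := Real.sin_sq_add_cos_sq t
  rw [inner2, inner2]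
  ext i
  fin_cases i
  · simp [dirv, rot]
    linear_combination (-(y 0)) * h
  · simp [dirv, rot]
    linear_combination (-(y 1)) * h

theorem norm_sq (y : E2) (t : ℝ) :
    ‖y‖ ^ 2 = ⟪y, dirv t⟫ ^ 2 + ⟪y, rot (dirv t)⟫ ^ 2 := by
  have h := Real.sin_sq_add_cos_sq t
  rw [← real_inner_self_eq_norm_sq, inner2, inner2, inner2]
  simp [dirv, rot]
  linear_combination (-(y 0 ^ 2 + y 1 ^ 2)) * h

/-- the angle -/
noncomputable def ang (v : E2) (t : ℝ) (x : E2) : ℝ :=
  t + Real.arctan (⟪x - v, rot (dirv t)⟫ / ⟪x - v, dirv t⟫)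

theorem ang_polar (v : E2) (t θ d : ℝ) (hd : 0 < d) (h : |θ - t| < Real.pi / 2) :
    ang v t (v + d • dirv θ) = θ ∧ 0 < ⟪v + d • dirv θ - v, dirv t⟫ := by
  have hc : 0 < Real.cos (θ - t) := Real.cos_pos_of_mem_Ioo ⟨(abs_lt.mp h).1, (abs_lt.mp h).2⟩
  have h1 : ⟪v + d • dirv θ - v, dirv t⟫ = d * Real.cos (θ - t) := by
    rw [add_sub_cancel_left, real_inner_smul_left, inner_dirv]
  have h2 : ⟪v + d • dirv θ - v, rot (dirv t)⟫ = d * Real.sin (θ - t) := by
    rw [add_sub_cancel_left, real_inner_smul_left, inner_dirv_rot]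
  refine ⟨?_, by rw [h1]; positivity⟩
  unfold ang
  rw [h1, h2, mul_div_mul_left _ _ hd.ne', ← Real.tan_eq_sin_div_cos,
    Real.arctan_tan (abs_lt.mp h).1 (abs_lt.mp h).2]
  ring

theorem polar_of (v : E2) (t : ℝ) (x : E2) (hx : 0 < ⟪x - v, dirv t⟫) :
    x = v + ‖x - v‖ • dirv (ang v t x) := by
  set y := x - v with hy
  set p := ⟪y, dirv t⟫ with hp
  set q := ⟪y, rot (dirv t)⟫ with hq
  have hn := norm_sq y t
  rw [← hp, ← hq] at hn
  have hy0 : 0 < ‖y‖ := by
    rw [norm_pos_iff]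
    intro h0
    rw [hp, h0, inner_zero_left] at hx
    exact lt_irrefl _ hx
  have hs : Real.sqrt (1 + (q / p) ^ 2) = ‖y‖ / p := by
    rw [Real.sqrt_eq_iff_mul_self_eq (by positivity) (by positivity)]
    field_simp
    linarith
  have h1 : Real.cos (Real.arctan (q / p)) = p / ‖y‖ := by
    rw [Real.cos_arctan, hs, one_div_div]
  have h2 : Real.sin (Real.arctan (q / p)) = q / ‖y‖ := by
    rw [Real.sin_arctan, hs]
    field_simp
  have h3 : ‖y‖ • dirv (ang v t x) = y := by
    conv_rhs => rw [decomp y t]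
    unfold ang
    rw [← hy, ← hp, ← hq]
    ext i
    fin_cases i
    · simp only [dirv, rot, Real.cos_add, Real.sin_add, h1, h2]
      simp
      field_simp
      ring
    · simp only [dirv, rot, Real.cos_add, Real.sin_add, h1, h2]
      simp
      field_simp
  rw [h3, hy]
  abel

theorem ang_deriv (v : E2) (t : ℝ) (x : E2) (hx : 0 < ⟪x - v, dirv t⟫) :
    ∃ L : E2 →L[ℝ] ℝ, HasStrictFDerivAt (ang v t) L x ∧ ∀ y, |L y| ≤ ‖x - v‖⁻¹ * ‖y‖ := by
  set P : E2 →L[ℝ] ℝ := innerSL ℝ (dirv t) with hP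
  set Q : E2 →L[ℝ] ℝ := innerSL ℝ (rot (dirv t)) with hQ
  have hpd : HasStrictFDerivAt (fun x : E2 => ⟪x - v, dirv t⟫) P x := by
    have : (fun x : E2 => ⟪x - v, dirv t⟫) = fun x => P x - P v := by
      ext z
      rw [hP, innerSL_apply_apply, innerSL_apply_apply, ← inner_sub_right, real_inner_comm]
    rw [this]
    exact (P.hasStrictFDerivAt).sub_const _
  have hqd : HasStrictFDerivAt (fun x : E2 => ⟪x - v, rot (dirv t)⟫) Q x := by
    have : (fun x : E2 => ⟪x - v, rot (dirv t)⟫) = fun x => Q x - Q v := by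
      ext z
      rw [hQ, innerSL_apply_apply, innerSL_apply_apply, ← inner_sub_right, real_inner_comm]
    rw [this]
    exact (Q.hasStrictFDerivAt).sub_const _
  have hinv := (hasStrictDerivAt_inv hx.ne').comp_hasStrictFDerivAt x hpd
  have hmul := (hqd.mul hinv).arctan.const_add t
  refine ⟨_, hmul, ?_⟩
  intro y
  set p := ⟪x - v, dirv t⟫ with hp
  set q := ⟪x - v, rot (dirv t)⟫ with hq
  have hn := norm_sq (x - v) t
  have hny := norm_sq y t
  rw [← hp, ← hq] at hn
  have hy0 : 0 < ‖x - v‖ := by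
    rw [norm_pos_iff]
    intro h0
    rw [hp, h0, inner_zero_left] at hx
    exact lt_irrefl _ hx
  set a := ⟪y, dirv t⟫ with ha
  set b := ⟪y, rot (dirv t)⟫ with hb
  have hPy : P y = a := by rw [hP, innerSL_apply_apply, real_inner_comm]
  have hQy : Q y = b := by rw [hQ, innerSL_apply_apply, real_inner_comm]
  have hval : (1 / (1 + (q * p⁻¹) ^ 2)) * (q * (-(p ^ 2)⁻¹ * a) + p⁻¹ * b) =
      (p * b - q * a) / ‖x - v‖ ^ 2 := by
    rw [hn]
    field_simp
    ring
  have hbd : |(p * b - q * a) / ‖x - v‖ ^ 2| ≤ ‖x - v‖⁻¹ * ‖y‖ := by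
    rw [abs_div, abs_of_pos (by positivity : (0 : ℝ) < ‖x - v‖ ^ 2), div_le_iff₀ (by positivity)]
    have : ‖x - v‖⁻¹ * ‖y‖ * ‖x - v‖ ^ 2 = ‖x - v‖ * ‖y‖ := by field_simp
    rw [this]
    apply abs_le_of_sq_le_sq _ (by positivity)
    rw [mul_pow, hn, hny]
    nlinarith [sq_nonneg (p * a + q * b)]
  refine le_trans (le_of_eq ?_) hbd
  rw [← hval]
  congr 1
  simp [hPy, hQy]
  rw [← hp, ← hq]
  ring

end Q3

open Q3 in
theorem pr_Q3 (h : S_EilW) : T_Q3 := by
  intro v a b S f hab hb hS hf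
  set t : ℝ := (a + b) / 2 with ht
  have hpi := Real.pi_pos
  have habs : ∀ θ ∈ Ioo a b, |θ - t| < Real.pi / 2 := by
    intro θ hθ
    rw [abs_lt, ht]
    constructor <;> linarith [hθ.1, hθ.2]
  have hcone : cone v a b = {x | 0 < ⟪x - v, dirv t⟫ ∧ ang v t x ∈ Ioo a b} := by
    ext x
    constructor
    · rintro ⟨d, θ, hd, h1, h2, rfl⟩
      obtain ⟨h3, h4⟩ := ang_polar v t θ d hd (habs θ ⟨h1, h2⟩)
      exact ⟨h4, by rw [h3]; exact ⟨h1, h2⟩⟩
    · rintro ⟨h1, h2⟩
      refine ⟨‖x - v‖, ang v t x, ?_, h2.1, h2.2, polar_of v t x h1⟩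
      rw [norm_pos_iff]
      intro h0
      rw [h0, inner_zero_left] at h1
      exact lt_irrefl _ h1
  have hne : ∀ x ∈ cone v a b, 0 < ‖x - v‖ := by
    intro x hx
    rw [hcone] at hx
    rw [norm_pos_iff]
    intro h0
    have h1 := hx.1
    rw [h0, inner_zero_left] at h1
    exact lt_irrefl _ h1
  have hpm : Measurable fun x : E2 => ⟪x - v, dirv t⟫ := by fun_prop
  have hqm : Measurable fun x : E2 => ⟪x - v, rot (dirv t)⟫ := by fun_prop
  have hangm : Measurable (ang v t) := by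
    unfold ang
    exact measurable_const.add (Real.measurable_arctan.comp (hqm.div hpm))
  have hcm : MeasurableSet (cone v a b) := by
    rw [hcone]
    exact (measurableSet_lt measurable_const hpm).inter (hangm measurableSet_Ioo)
  obtain ⟨G, hGm, hG1, hG2⟩   := Q3.ext h (S ∩ cone v a b) (ang v t) (fun x => ‖x - v‖₊⁻¹)
    (fun x => f x * ENNReal.ofReal ‖x - v‖) (hS.inter hcm)
    (hf.mul (by fun_prop)) (by fun_prop)
    (by
      intro x hx
      have := hne x hx.2
      rw [← coe_nnnorm, NNReal.coe_pos] at this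
      exact inv_pos.mpr this)
    (by
      intro x hx
      have hx2 := hx.2
      rw [hcone] at hx2
      obtain ⟨L, hL, _⟩ := ang_deriv v t x hx2.1
      exact hL.continuousAt.continuousWithinAt)
    (by
      intro x hx
      have := hne x hx.2
      rw [← coe_nnnorm, NNReal.coe_pos] at this
      refine ContinuousAt.continuousWithinAt ?_
      refine ContinuousAt.inv₀ (by fun_prop) this.ne')
    (by
      intro x hx ε hε
      have hx2 := hx.2
      rw [hcone] at hx2
      obtain ⟨L, hL, hLb⟩ := ang_deriv v t x hx2.1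
      have h1 := hL.isLittleO.def hε
      rw [Metric.eventually_nhds_iff] at h1
      obtain ⟨δ, hδ, h2⟩ := h1
      refine ⟨δ, hδ, fun y _ z _ hy hz => ?_⟩
      have h3 := @h2 (y, z) (by rw [Prod.dist_eq]; exact max_lt hy hz)
      have h4 := hLb (y - z)
      dsimp only at h3
      rw [Real.norm_eq_abs] at h3
      rw [dist_eq_norm, add_mul]
      have h5 : |ang v t y - ang v t z| ≤ |L (y - z)| + |ang v t y - ang v t z - L (y - z)| := by
        have := abs_add_le (L (y - z)) (ang v t y - ang v t z - L (y - z))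
        rwa [add_sub_cancel] at this
      refine h5.trans (add_le_add ?_ h3)
      simpa using h4)
  calc ∫⁻ θ in Ioo a b, (⨆ (d : ℝ) (_ : 0 < d) (_ : v + d • dirv θ ∈ S),
      f (v + d • dirv θ) * ENNReal.ofReal d) ≤ ∫⁻ θ in Ioo a b, G θ := by
        refine setLIntegral_mono hGm fun θ hθ => ?_
        refine iSup_le fun d => iSup_le fun hd => iSup_le fun hm => ?_
        obtain ⟨h3, h4⟩ := ang_polar v t θ d hd (habs θ hθ)
        have h5 := hG1 (v + d • dirv θ) ⟨hm, ⟨d, θ, hd, hθ.1, hθ.2, rfl⟩⟩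
        rw [h3] at h5
        refine le_trans (le_of_eq ?_) h5
        rw [add_sub_cancel_left, norm_smul, norm_dirv, mul_one, Real.norm_of_nonneg hd.le]
    _ ≤ ∫⁻ θ, G θ := setLIntegral_le_lintegral _ _
    _ ≤ _ := hG2
    _ = ∫⁻ x in S ∩ cone v a b, f x ∂(μH[1]) := by
        refine setLIntegral_congr_fun (hS.inter hcm) fun x hx => ?_
        have h1 := hne x hx.2
        have h2 : ‖x - v‖₊ ≠ 0 := by
          rw [← coe_nnnorm, NNReal.coe_pos] at h1
          exact h1.ne'
        have h3 : ENNReal.ofReal ‖x - v‖ = (‖x - v‖₊ : ℝ≥0∞) := by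
          rw [← coe_nnnorm, ENNReal.ofReal_coe_nnreal]
        rw [mul_assoc, ENNReal.coe_inv h2, h3, ENNReal.mul_inv_cancel (by exact_mod_cast h2)
          ENNReal.coe_ne_top, mul_one]

end Pool.Agent.Robin

end

section

/-!
# MP_4b551e_an: item Q4 (Eilenberg inequality for parallel lines)
-/

open MeasureTheory Set Metric
open scoped ENNReal NNReal Pointwise RealInnerProductSpace

namespace Pool.Agent.Robin

namespace Q4

theorem inner_eq (x y : E2) : ⟪x, y⟫ = x 0 * y 0 + x 1 * y 1 := by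
  rw [PiLp.inner_apply]
  simp [Fin.sum_univ_two]
  ring

theorem inner_rot (n : E2) : ⟪n, rot n⟫ = 0 := by
  rw [inner_eq]
  simp [rot]
  ring

theorem norm_rot (n : E2) : ‖rot n‖ = ‖n‖ := by
  rw [EuclideanSpace.norm_eq, EuclideanSpace.norm_eq]
  simp [rot, Fin.sum_univ_two]
  ring_nf

end Q4

open Q4 in
theorem pr_Q4 (h : S_Eil) : T_Q4 := by
  intro v n a b S f hn hS hf
  have hlip : LipschitzWith 1 (fun x : E2 => ⟪x - v, rot n⟫) := by
    refine LipschitzWith.of_dist_le_mul fun x y => ?_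
    rw [Real.dist_eq, ← inner_sub_left, sub_sub_sub_cancel_right, dist_eq_norm]
    have := abs_real_inner_le_norm (x - y) (rot n)
    rw [norm_rot, hn, mul_one] at this
    simpa using this
  have hm : MeasurableSet {x : E2 | ⟪x - v, rot n⟫ ∈ Ioo a b} :=
    hlip.continuous.measurable measurableSet_Ioo
  obtain ⟨G, hG, hG1, hG2⟩ := h (S ∩ {x | ⟪x - v, rot n⟫ ∈ Ioo a b}) (fun x => ⟪x - v, rot n⟫) f
    (hS.inter hm) hlip hf
  refine le_trans ?_ hG2
  refine le_trans (setLIntegral_mono hG fun t ht => ?_) (setLIntegral_le_lintegral _ _)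
  refine iSup₂_le fun s hs => ?_
  have h1 : ⟪v + s • n + t • rot n - v, rot n⟫ = t := by
    have : v + s • n + t • rot n - v = s • n + t • rot n := by abel
    rw [this, inner_add_left, real_inner_smul_left, real_inner_smul_left, inner_rot,
      real_inner_self_eq_norm_sq, norm_rot, hn]
    ring
  refine le_trans ?_ (hG1 t)
  have hmem : v + s • n + t • rot n ∈
      ((S ∩ {x | ⟪x - v, rot n⟫ ∈ Ioo a b}) ∩ (fun x : E2 => ⟪x - v, rot n⟫) ⁻¹' {t} : Set E2) := by
    refine ⟨⟨hs, ?_⟩, h1⟩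
    show ⟪v + s • n + t • rot n - v, rot n⟫ ∈ Ioo a b
    rw [h1]
    exact ht
  exact ENNReal.le_tsum (f := fun x : ((S ∩ {x | ⟪x - v, rot n⟫ ∈ Ioo a b}) ∩
    (fun x : E2 => ⟪x - v, rot n⟫) ⁻¹' {t} : Set E2) => f x) ⟨_, hmem⟩

end Pool.Agent.Robin

end
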