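import Pool.Agent.Work.MP_4b551e_an.Bd.B09
import Pool.Agent.Work.MP_4b551e_an.Bd.B04
import Pool.Agent.Work.MP_4b551e_an.Bd.B10
import Pool.Agent.Work.MP_4b551e_an.Bd.B05

/-! Bundle of small proof modules (one section per former module). -/

section

open MeasureTheory Set Metric intervalIntegral
open scoped ENNReal NNReal Pointwise RealInnerProductSpace

namespace Pool.Agent.Robin.AsmC

open AsmA AsmB

/-- choice of `η` -/
theorem choose_eta (w : Profile) (ρ₁ q ε : ℝ) (hρ : 200 ≤ ρ₁) (hq : q ≤ -2) (hε : 0 < ε) :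
    ∃ η : ℝ, 0 < η ∧ η ≤ ρ₁ / 100 ∧ 18 / 19 * (w.w 0) ^ 2 ≤ (w.w η) ^ 2 ∧
      2 * Real.pi * (102 / 100 * ρ₁) * ((w.w 0) ^ 2 - (w.w η) ^ 2) +
        2 * Real.pi * η * (w.w η) ^ 2 +
        2 * Real.pi * (-q) * Real.sqrt (2 * (102 / 100 * ρ₁) * η) ≤ ε := by
  have hc := w.w_cont
  have h1 : Filter.Tendsto (fun η : ℝ => 2 * Real.pi * (102 / 100 * ρ₁) *
      ((w.w 0) ^ 2 - (w.w η) ^ 2) + 2 * Real.pi * η * (w.w η) ^ 2 +
        2 * Real.pi * (-q) * Real.sqrt (2 * (102 / 100 * ρ₁) * η)) (nhdsWithin 0 (Ioi 0))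
      (nhds (2 * Real.pi * (102 / 100 * ρ₁) *
      ((w.w 0) ^ 2 - (w.w 0) ^ 2) + 2 * Real.pi * 0 * (w.w 0) ^ 2 +
        2 * Real.pi * (-q) * Real.sqrt (2 * (102 / 100 * ρ₁) * 0))) := by
    refine (Continuous.tendsto ?_ 0).mono_left nhdsWithin_le_nhds
    fun_prop
  have h2 : (2 * Real.pi * (102 / 100 * ρ₁) *
      ((w.w 0) ^ 2 - (w.w 0) ^ 2) + 2 * Real.pi * 0 * (w.w 0) ^ 2 +
        2 * Real.pi * (-q) * Real.sqrt (2 * (102 / 100 * ρ₁) * 0)) = 0 := by simp
  rw [h2] at h1
  have h3 := h1.eventually (Iic_mem_nhds hε)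
  have h4 : ∀ᶠ η in nhdsWithin (0 : ℝ) (Ioi 0), 18 / 19 * (w.w 0) ^ 2 < (w.w η) ^ 2 := by
    have : Filter.Tendsto (fun η : ℝ => (w.w η) ^ 2) (nhdsWithin 0 (Ioi 0))
        (nhds ((w.w 0) ^ 2)) :=
      (Continuous.tendsto (by fun_prop) 0).mono_left nhdsWithin_le_nhds
    refine this.eventually (Ioi_mem_nhds ?_)
    have := w.one_le 0
    nlinarith
  have h5 : ∀ᶠ η in nhdsWithin (0 : ℝ) (Ioi 0), η ∈ Ioc 0 (ρ₁ / 100) := by
    refine Filter.mem_of_superset (Ioc_mem_nhdsGT (by linarith : (0 : ℝ) < ρ₁ / 100)) fun x hx => hx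
  obtain ⟨η, ⟨h3, h4⟩, h5⟩ := ((h3.and h4).and h5).exists
  exact ⟨η, h5.1, h5.2, h4.le, h3⟩

theorem cos_small {N : ℕ} (hN : 200 ≤ N) : 9998 / 10000 ≤ Real.cos (Real.pi / N) := by
  have h0 : (200 : ℝ) ≤ N := by exact_mod_cast hN
  have h1 : Real.pi / N ≤ 1 / 50 := by
    rw [div_le_iff₀ (by linarith)]
    have := Real.pi_lt_d2
    nlinarith
  have h2 : 0 ≤ Real.pi / N := by positivity
  have h3 := Real.one_sub_sq_div_two_le_cos (x := Real.pi / N)
  nlinarith

theorem poly_ball {N : ℕ} {c : ℤ → ℝ} {t : ℝ} (h : ∀ i, t ≤ c i) (y : E2) (hy : ‖y‖ ≤ t) :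
    y ∈ poly N c := by
  intro i
  have h1 : ‖nv N i‖ = 1 := by
    unfold nv dirv
    rw [EuclideanSpace.norm_eq]
    simp [Fin.sum_univ_two]
  calc ⟪y, nv N i⟫ ≤ ‖y‖ * ‖nv N i‖ := real_inner_le_norm _ _
    _ ≤ c i := by rw [h1, mul_one]; exact hy.trans (h i)

/-- the function is `1` near the core, so the density vanishes there -/
theorem core_zero (u0b : T_U0b) {k : ℝ} {w : Profile} {D : Set E2} {P : E2 → E2} {a : E2}
    {r₀ ρ d₁ : ℝ} (hP : IsProj D P) (hr : 0 < r₀) (hσ : w.σ ≤ r₀ / 10) (x : E2) (hx : x ∈ D) :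
    en k (uf w P a r₀ ρ d₁) x - k ^ 2 = 0 := by
  obtain ⟨h1, h2, h3⟩ := u0b D P hP
  have hPx : P x = x := by
    have h := (hP x).2 x hx
    have h5 : ‖x - P x‖ ^ 2 ≤ 0 := by
      rw [← real_inner_self_eq_norm_sq]; exact h
    have h6 : ‖x - P x‖ = 0 := by
      have := sq_nonneg ‖x - P x‖
      exact pow_eq_zero_iff (two_ne_zero) |>.1 (le_antisymm h5 this)
    exact (sub_eq_zero.1 (norm_eq_zero.1 h6)).symm
  have hnear : ∀ z ∈ ball x (r₀ / 2), uf w P a r₀ ρ d₁ z = 1 := by
    intro z hz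
    have hd : ‖z - P z‖ ≤ r₀ / 2 := by
      have h4 := h2 z x
      rw [hPx] at h4
      simp only [sub_self, sub_zero] at h4
      have : ‖z - x‖ < r₀ / 2 := by rwa [mem_ball, dist_eq_norm] at hz
      linarith
    unfold uf Yp
    rw [if_pos (by linarith), w.eq_one _ (by linarith)]
    simp
  have hfd : fderiv ℝ (uf w P a r₀ ρ d₁) x = 0 := by
    have he : uf w P a r₀ ρ d₁ =ᶠ[nhds x] fun _ => (1 : ℝ) :=
      Filter.eventually_of_mem (ball_mem_nhds x (by linarith)) hnear
    rw [he.fderiv_eq]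
    simp
  unfold en
  rw [hfd, hnear x (mem_ball_self (by linarith))]
  simp

theorem norm_rot_dirv (θ : ℝ) : ‖rot (dirv θ)‖ = 1 := by
  unfold rot dirv
  rw [EuclideanSpace.norm_eq]
  simp [Fin.sum_univ_two]

theorem Rc_bounds (h1 : T_H1) {N : ℕ} {c : ℤ → ℝ} {r₀ lo hi : ℝ} (hs : Supp N c)
    (h : ∀ θ, lo ≤ Hf N c 0 r₀ θ ∧ Hf N c 0 r₀ θ ≤ hi) :
    lo ≤ Rc N c 0 r₀ ∧ Rc N c 0 r₀ ≤ hi := by
  obtain ⟨hc, -⟩ := h1 N c 0 r₀ hs
  have hpi := Real.pi_pos
  have i1 : IntervalIntegrable (Hf N c 0 r₀) volume 0 (2 * Real.pi) :=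
    hc.intervalIntegrable _ _
  unfold Rc
  constructor
  · rw [le_div_iff₀ (by positivity)]
    have := integral_mono_on (μ := volume) (a := 0) (b := 2 * Real.pi) (f := fun _ => lo)
      (g := Hf N c 0 r₀) (by positivity) (by simp) i1 (fun θ _ => (h θ).1)
    rw [intervalIntegral.integral_const, smul_eq_mul] at this
    linarith
  · rw [div_le_iff₀ (by positivity)]
    have := integral_mono_on (μ := volume) (a := 0) (b := 2 * Real.pi) (g := fun _ => hi)
      (f := Hf N c 0 r₀) (by positivity) i1 (by simp) (fun θ _ => (h θ).2)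
    rw [intervalIntegral.integral_const, smul_eq_mul] at this
    linarith

theorem Yp_lower (w : Profile) {r₀ d₁ d η : ℝ} (hη : 0 ≤ η) (hd : r₀ - η ≤ d) (h1 : r₀ < d₁) :
    (w.w η) ^ 2 - 1 ≤ Yp w r₀ d₁ d := by
  unfold Yp
  have hw := w_anti w
  have h0 := w.one_le η
  split_ifs with h
  · by_cases h2 : 0 ≤ r₀ - d
    · have := hw (r₀ - d) η h2 (by linarith)
      have := pow_le_pow_left₀ (by linarith) this 2
      linarith
    · exact absurd h (by push Not at h2 ⊢; linarith)
  · have h2 := hw 0 η le_rfl hη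
    have h3 := pow_le_pow_left₀ (by linarith) h2 2
    have h4 : (1 : ℝ) ≤ Real.exp (2 * (min d d₁ - r₀)) := by
      apply Real.one_le_exp
      have : r₀ ≤ min d d₁ := le_min (le_of_lt (not_le.1 h)) h1.le
      linarith
    have h5 : (w.w 0) ^ 2 ≤ (w.w 0) ^ 2 * Real.exp (2 * (min d d₁ - r₀)) :=
      le_mul_of_one_le_right (sq_nonneg _) h4
    linarith

end Pool.Agent.Robin.AsmC

namespace Pool.Agent.Robin

open AsmA AsmB AsmC

theorem pr_B2 (u0 : T_U0) (u0b : T_U0b) (p2 : T_P2) (p2b : T_P2b) (p3 : T_P3) (p5 : T_P5)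
    (p8 : T_P8) (p9 : T_P9) (h0 : T_H0) (h1 : T_H1) (h4 : T_H4) (h5 : T_H5) (w1 : T_W1)
    (w2 : T_W2) (u1 : T_U1) (u2 : T_U2) (u5 : T_U5) (u6 : T_U6) (u7 : T_U7) (b1 : T_B1) :
    T_B2 := by
  intro k w C ρ₁ ρ₂ hb hCv hCc hin hout hρ₂ ε hε
  have hρ := hb.rho
  have hpi := Real.pi_pos
  obtain ⟨η, hη0, hη1, hηw, hηε⟩ := choose_eta w ρ₁ (w.q k) ε hρ hb.q_le hε
  obtain ⟨r₀, hr⟩ : ∃ r₀ : ℝ, r₀ = ρ₁ / 10 := ⟨_, rfl⟩
  obtain ⟨d₁, hd₁⟩ : ∃ d₁ : ℝ, d₁ = ρ₁ / 5 := ⟨_, rfl⟩
  have hr0 : 0 < r₀ := by rw [hr]; linarith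
  have hσ := hb.sigma
  obtain ⟨N, c, hN, hs, hc, hrc, hfr, hin2⟩ := p8 C ρ₁ ρ₂ r₀ η 200 hCv hCc hin hout hr0
    (by rw [hr]; linarith) hη0
  obtain ⟨hpc, hpv, hp0⟩ := p2b N c hs
  obtain ⟨P, hP⟩ := u0 (poly N c) hpc hpv ⟨0, hp0⟩
  obtain ⟨q1, q2, q3⟩ := u0b _ P hP
  -- support function bounds
  have hH0 : ∀ θ, ρ₁ ≤ Hf N c 0 r₀ θ ∧ Hf N c 0 r₀ θ ≤ 10102 / 10000 * ρ₁ := by
    intro θ
    obtain ⟨e1, e2⟩ := h0 N c (ρ₁ - r₀) (ρ₂ - r₀) r₀ hs hc (by rw [hr]; linarith) θ
    refine ⟨by linarith, e2.trans ?_⟩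
    have e3 := cos_small hN
    have e4 : (ρ₂ - r₀) / Real.cos (Real.pi / N) ≤ (91 / 100 * ρ₁) / (9998 / 10000) :=
      div_le_div₀ (by linarith) (by rw [hr]; linarith) (by norm_num) e3
    have e5 : (91 / 100 * ρ₁) / (9998 / 10000) ≤ 9102 / 10000 * ρ₁ := by
      rw [div_le_iff₀ (by norm_num)]
      linarith
    rw [hr] at e4 ⊢
    linarith
  obtain ⟨a, ha, hcos, hsin, hRc, hosc⟩ := h4 N c r₀ ρ₁ (10102 / 10000 * ρ₁) hs hH0
  obtain ⟨R, hR⟩ : ∃ R : ℝ, R = Rc N c a r₀ := ⟨_, rfl⟩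
  obtain ⟨hR1, hR2⟩ := Rc_bounds h1 hs hH0
  rw [← hRc, ← hR] at hR1 hR2
  have hRpos : 0 < R := by linarith
  have hH : ∀ θ, |Hf N c a r₀ θ - R| ≤ R / 20 := by
    intro θ
    rw [hR]
    refine (hosc θ).trans ?_
    rw [← hR]
    linarith
  have hvx : ∀ i, ‖vx N c i‖ ≤ ρ₂ := by
    intro i
    have h := hin2 (vx N c i) (by
      rw [infDist_zero_of_mem (p2 N c hs i), hr]
      linarith)
    have := hout h
    rwa [mem_closedBall, dist_zero_right] at this
  have hρ12 : ρ₁ ≤ ρ₂ := by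
    have h := hH0 0
    have h' := (hc 0).1.trans (hc 0).2
    linarith
  have hG : Geom k w N c P a r₀ R d₁ η C := by
    refine ⟨hs, hP, hb.one_lt.le, by rw [hr]; linarith, hRpos, by rw [hr]; linarith,
      by rw [hr, hd₁]; linarith, ?_, hη0.le, by rw [hr]; linarith, ?_, ?_, hCc, hCv, ?_, hrc,
      hfr, ?_⟩
    · rw [hd₁]
      have := hb.curv
      linarith
    · intro θ
      have := hH θ
      have e : Hf N c a r₀ θ / R - 1 = (Hf N c a r₀ θ - R) / R := by
        field_simp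
      rw [e, abs_div, abs_of_pos hRpos, div_le_iff₀ hRpos]
      linarith
    · intro θ
      rw [abs_div, abs_of_pos hRpos, div_le_iff₀ hRpos]
      unfold dHf
      refine (abs_real_inner_le_norm _ _).trans ?_
      rw [norm_rot_dirv, mul_one]
      refine (norm_sub_le _ _).trans ?_
      have := hvx ⌊θ / dl N⌋
      linarith
    · intro x hx
      rw [mem_interior]
      refine ⟨ball x (r₀ - η), ?_, isOpen_ball, mem_ball_self (by rw [hr]; linarith)⟩
      intro y hy
      refine hin2 y ?_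
      exact (infDist_le_dist_of_mem hx).trans (le_of_lt hy)
    · intro x hx
      have hx2 := hout hx
      rw [mem_closedBall, dist_zero_right] at hx2
      have hρ2 : 0 < ρ₂ := by linarith
      set t : ℝ := (ρ₁ - r₀) / ρ₂ with ht
      have ht0 : 0 ≤ t := by
        rw [ht, hr]
        exact div_nonneg (by linarith) hρ2.le
      have ht1 : t ≤ 1 := by
        rw [ht, div_le_one hρ2]; linarith
      have hy : t • x ∈ poly N c := by
        refine poly_ball (fun i => (hc i).1) _ ?_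
        rw [norm_smul, Real.norm_eq_abs, abs_of_nonneg ht0]
        calc t * ‖x‖ ≤ t * ρ₂ := mul_le_mul_of_nonneg_left hx2 ht0
          _ = ρ₁ - r₀ := by rw [ht]; field_simp
      refine (infDist_le_dist_of_mem hy).trans_lt ?_
      have e : x - t • x = (1 - t) • x := by rw [sub_smul, one_smul]
      rw [dist_eq_norm, e, norm_smul, Real.norm_eq_abs, abs_of_nonneg (by linarith)]
      have e2 : (1 - t) * ‖x‖ ≤ (1 - t) * ρ₂ := mul_le_mul_of_nonneg_left hx2 (by linarith)
      have e3 : (1 - t) * ρ₂ = ρ₂ - (ρ₁ - r₀) := by rw [ht]; field_simp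
      rw [e3] at e2
      refine e2.trans_lt ?_
      rw [hr, hd₁]
      linarith
  have hVnn : ∀ x, r₀ / 2 ≤ ‖x - P x‖ → 19 / 20 ≤ Vf P a r₀ R x := by
    intro x hx
    obtain ⟨θ, hθ⟩ := (u2 N c P a r₀ R hs hP hr0 hRpos).1 x hx
    rw [hθ]
    have := abs_le.1 (hG.V1 θ)
    linarith [this.1]
  have hL := u1 w (poly N c) P a r₀ R d₁ hpc hP hr0 hRpos (by rw [hr]; linarith)
    (by rw [hr, hd₁]; linarith) (fun x hx => by linarith [hVnn x hx])
  refine ⟨uf w P a r₀ R d₁, hL.1, hL.2, ?_, ?_⟩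
  · intro x hx
    have hd : r₀ - η ≤ ‖x - P x‖ := hfr x hx (P x) (hP x).1
    have hY := Yp_lower w (d₁ := d₁) hη0.le hd (by rw [hr, hd₁]; linarith)
    have hV := hVnn x (by rw [hr] at hd ⊢; linarith)
    have h1w := w.one_le η
    have hw2 : 0 ≤ (w.w η) ^ 2 - 1 := by nlinarith
    have h6 : 19 / 20 * ((w.w η) ^ 2 - 1) ≤ Vf P a r₀ R x * Yp w r₀ d₁ ‖x - P x‖ :=
      mul_le_mul hV hY hw2 (by linarith)
    unfold uf
    rw [Real.sq_sqrt (by nlinarith)]
    linarith
  · -- main inequality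
    set f : E2 → ℝ≥0∞ := fun x => ENNReal.ofReal (en k (uf w P a r₀ R d₁) x - k ^ 2) with hf
    set g : E2 → ℝ≥0∞ := fun x => ENNReal.ofReal ((uf w P a r₀ R d₁ x) ^ 2) with hg
    set y : ℝ := (w.w η) ^ 2 - 1 with hy
    have h1w := w.one_le η
    have hy0 : 0 ≤ y := by rw [hy]; nlinarith
    obtain ⟨A, hA⟩ : ∃ A : ℝ, A = (∑ i ∈ Finset.range N, c i * el N c i) / 2 +
      r₀ * (∑ i ∈ Finset.range N, el N c i) + Real.pi * r₀ ^ 2 := ⟨_, rfl⟩
    obtain ⟨t1, t2, t3, t4⟩ := total h1 h5 w1 w2 b1 (η := η) (y := y) hb hs hr hR hR1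
      (by linarith) (fun i => (hc i).1) hH hcos hsin A hA
    have hc1 := cover p3 hs C f
    have hcore : ∫⁻ x in C ∩ poly N c, f x = 0 := by
      have : ∫⁻ x in C ∩ poly N c, f x = ∫⁻ x in C ∩ poly N c, 0 := by
        refine setLIntegral_congr_fun (hCc.measurableSet.inter hpc.measurableSet) ?_
        intro x hx
        simp only [hf]
        rw [core_zero u0b hP hr0 (by rw [hr]; linarith) x hx.2]
        simp
      rw [this]
      simp
    rw [hcore, zero_add] at hc1
    have hb2 := bdry p5 hs (frontier C) isClosed_frontier.measurableSet g (μH[1])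
    -- sums
    have hV0 : ∀ i : ℤ, 0 ≤ (c i - ⟪a, nv N i⟫ + r₀) / R := by
      intro i
      have := (abs_le.1 (hG.V1 (i * dl N))).1
      obtain ⟨-, -, -, hval, -⟩ := h1 N c a r₀ hs
      rw [← hval i]
      linarith
    have s1 : ∑ i ∈ Finset.range N, ∫⁻ x in C ∩ rect N c (i : ℤ), f x ≤
        ENNReal.ofReal (∑ i ∈ Finset.range N, el N c i *
        ∫ s in (0 : ℝ)..w.σ, fr k w ((c i - ⟪a, nv N i⟫ + r₀) / R) s) := by
      rw [ENNReal.ofReal_sum_of_nonneg]
      · exact Finset.sum_le_sum fun i _ => u5 k w N c P a r₀ R d₁ η C i hG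
      · intro i _
        refine mul_nonneg (hs.el_nonneg i) (integral_nonneg w.σ_pos.le fun s _ => ?_)
        exact fr_nonneg k w _ s (hV0 i)
    have hVθ : ∀ θ, 0 ≤ Hf N c a r₀ θ / R := by
      intro θ
      have := (abs_le.1 (hG.V1 θ)).1
      linarith
    have s2 : ENNReal.ofReal (∑ i ∈ Finset.range N, el N c i *
        (1 + (c i - ⟪a, nv N i⟫ + r₀) / R * y)) ≤
        ∑ i ∈ Finset.range N, ∫⁻ x in frontier C ∩ rect N c (i : ℤ), g x ∂(μH[1]) := by
      rw [ENNReal.ofReal_sum_of_nonneg]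
      · exact Finset.sum_le_sum fun i _ => u6 k w N c P a r₀ R d₁ η C i hG
      · intro i _
        have := hV0 i
        have h7 := hs.el_nonneg i
        positivity
    have hdl : 0 < dl N := by
      unfold dl
      have : (0 : ℝ) < N := by
        have := hs.N_le
        positivity
      positivity
    have s3 : (∑ i ∈ Finset.range N, ∫⁻ x in C ∩ sect N c (i : ℤ), f x) +
        ENNReal.ofReal (∑ i ∈ Finset.range N,
          ∫ θ in ((i : ℤ) : ℝ) * dl N..(((i : ℤ) : ℝ) + 1) * dl N,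
          (1 + Hf N c a r₀ θ / R * y) * (r₀ - η)) ≤
        (∑ i ∈ Finset.range N, ∫⁻ x in frontier C ∩ sect N c (i : ℤ), g x ∂(μH[1])) +
        ENNReal.ofReal (∑ i ∈ Finset.range N,
          ∫ θ in ((i : ℤ) : ℝ) * dl N..(((i : ℤ) : ℝ) + 1) * dl N,
          ∫ s in (0 : ℝ)..w.σ,
            fs k w r₀ (Hf N c a r₀ θ / R) (dHf N c a θ / R) s * (r₀ - s)) := by
      rw [ENNReal.ofReal_sum_of_nonneg, ENNReal.ofReal_sum_of_nonneg, ← Finset.sum_add_distrib,
        ← Finset.sum_add_distrib]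
      · exact Finset.sum_le_sum fun i _ => u7 k w N c P a r₀ R d₁ η C i hG
      · intro i _
        refine integral_nonneg (by nlinarith) fun θ _ => ?_
        refine integral_nonneg w.σ_pos.le fun s hs' => ?_
        have h7 := fs_nonneg k w r₀ (Hf N c a r₀ θ / R) (dHf N c a θ / R) s (hVθ θ)
        have h8 : s ≤ w.σ := hs'.2
        have : 0 ≤ r₀ - s := by rw [hr]; linarith
        positivity
      · intro i _
        refine integral_nonneg (by nlinarith) fun θ _ => ?_
        have := hVθ θ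
        have h8 : 0 ≤ r₀ - η := by rw [hr]; linarith
        positivity
    set X := ∫⁻ x in C, f x with hX
    set Y := ∫⁻ x in frontier C, g x ∂(μH[1]) with hY
    set a1 := ∑ i ∈ Finset.range N, el N c i *
        (1 + (c i - ⟪a, nv N i⟫ + r₀) / R * y) with ha1
    set a2 := ∑ i ∈ Finset.range N,
          ∫ θ in ((i : ℤ) : ℝ) * dl N..(((i : ℤ) : ℝ) + 1) * dl N,
          (1 + Hf N c a r₀ θ / R * y) * (r₀ - η) with ha2
    set b1' := ∑ i ∈ Finset.range N, el N c i *
        ∫ s in (0 : ℝ)..w.σ, fr k w ((c i - ⟪a, nv N i⟫ + r₀) / R) s with hb1'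
    set b2' := ∑ i ∈ Finset.range N,
          ∫ θ in ((i : ℤ) : ℝ) * dl N..(((i : ℤ) : ℝ) + 1) * dl N,
          ∫ s in (0 : ℝ)..w.σ,
            fs k w r₀ (Hf N c a r₀ θ / R) (dHf N c a θ / R) s * (r₀ - s) with hb2'
    set X1 := ∑ i ∈ Finset.range N, ∫⁻ x in C ∩ rect N c (i : ℤ), f x
    set X2 := ∑ i ∈ Finset.range N, ∫⁻ x in C ∩ sect N c (i : ℤ), f x
    set Y1 := ∑ i ∈ Finset.range N, ∫⁻ x in frontier C ∩ rect N c (i : ℤ), g x ∂(μH[1])
    set Y2 := ∑ i ∈ Finset.range N, ∫⁻ x in frontier C ∩ sect N c (i : ℤ), g x ∂(μH[1])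
    have a1nn : 0 ≤ a1 := Finset.sum_nonneg fun i _ => by
      have := hV0 i
      have h7 := hs.el_nonneg i
      positivity
    have a2nn : 0 ≤ a2 := Finset.sum_nonneg fun i _ => by
      refine integral_nonneg (by nlinarith) fun θ _ => ?_
      have := hVθ θ
      have h8 : 0 ≤ r₀ - η := by rw [hr]; linarith
      positivity
    have b1nn : 0 ≤ b1' := Finset.sum_nonneg fun i _ => by
      refine mul_nonneg (hs.el_nonneg i) (integral_nonneg w.σ_pos.le fun s _ => ?_)
      exact fr_nonneg k w _ s (hV0 i)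
    have b2nn : 0 ≤ b2' := Finset.sum_nonneg fun i _ => by
      refine integral_nonneg (by nlinarith) fun θ _ => ?_
      refine integral_nonneg w.σ_pos.le fun s hs' => ?_
      have h7 := fs_nonneg k w r₀ (Hf N c a r₀ θ / R) (dHf N c a θ / R) s (hVθ θ)
      have h8 : s ≤ w.σ := hs'.2
      have : 0 ≤ r₀ - s := by rw [hr]; linarith
      positivity
    -- area
    have hareaC : volume C = ENNReal.ofReal (area C) := by
      unfold area
      rw [ENNReal.ofReal_toReal hCc.measure_lt_top.ne]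
    have harea0 : 0 ≤ area C := ENNReal.toReal_nonneg
    have hA2 : A ≤ area C + 2 * Real.pi * R * η := by
      have e1 := p9 N c (r₀ - η) hs (by rw [hr]; linarith)
      have e2 : volume {x | infDist x (poly N c) ≤ r₀ - η} ≤ volume C :=
        measure_mono fun x hx => hin2 x hx
      have e3 := e1.trans e2
      rw [hareaC, ENNReal.ofReal_le_ofReal_iff harea0] at e3
      set E := ∑ i ∈ Finset.range N, el N c i with hE
      have hE0 : 0 ≤ E := Finset.sum_nonneg fun i _ => hs.el_nonneg i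
      have e4 : A = (∑ i ∈ Finset.range N, c i * el N c i) / 2 + (r₀ - η) * E +
          Real.pi * (r₀ - η) ^ 2 + (η * (E + 2 * Real.pi * r₀) - Real.pi * η ^ 2) := by
        rw [hA]; ring
      rw [t4] at e4
      have : 0 ≤ Real.pi * η ^ 2 := by positivity
      rw [e4]
      linarith
    have hsq : Real.sqrt (A / Real.pi) ≤ Real.sqrt (area C / Real.pi) +
        Real.sqrt (2 * (102 / 100 * ρ₁) * η) := by
      have e1 : A / Real.pi ≤ area C / Real.pi + 2 * (102 / 100 * ρ₁) * η := by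
        rw [div_le_iff₀ hpi]
        have e2 : (area C / Real.pi + 2 * (102 / 100 * ρ₁) * η) * Real.pi =
            area C + 2 * Real.pi * (102 / 100 * ρ₁) * η := by
          field_simp
        rw [e2]
        have e3 : 2 * Real.pi * R * η ≤ 2 * Real.pi * (102 / 100 * ρ₁) * η := by
          have : R ≤ 102 / 100 * ρ₁ := by linarith
          gcongr
        linarith
      refine (Real.sqrt_le_sqrt e1).trans ?_
      rw [Real.sqrt_le_left (by positivity)]
      have e4 : 0 ≤ area C / Real.pi := by positivity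
      have e5 : 0 ≤ 2 * (102 / 100 * ρ₁) * η := by positivity
      have e6 := Real.sq_sqrt e4
      have e7 := Real.sq_sqrt e5
      have e8 : 0 ≤ Real.sqrt (area C / Real.pi) * Real.sqrt (2 * (102 / 100 * ρ₁) * η) := by
        positivity
      nlinarith
    have hreal : b1' + b2' + 2 * Real.pi * w.m k ≤
        a1 + a2 + (2 * Real.pi * (-w.q k) * Real.sqrt (area C / Real.pi) + ε) := by
      have hq0 : 0 ≤ -w.q k := by linarith [hb.q_le]
      have e1 : 2 * Real.pi * (-w.q k) * Real.sqrt (A / Real.pi) ≤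
          2 * Real.pi * (-w.q k) * Real.sqrt (area C / Real.pi) +
          2 * Real.pi * (-w.q k) * Real.sqrt (2 * (102 / 100 * ρ₁) * η) := by
        rw [← mul_add]
        exact mul_le_mul_of_nonneg_left hsq (by positivity)
      have e2 : 2 * A / R ≤ 2 * Real.pi * (102 / 100 * ρ₁) := by
        rw [div_le_iff₀ hRpos]
        have e3 : 2 * Real.pi * R * R ≤ 2 * Real.pi * (102 / 100 * ρ₁) * R := by
          have : R ≤ 102 / 100 * ρ₁ := by linarith
          gcongr
        nlinarith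
      have hw0 := w_anti w 0 η le_rfl hη0.le
      have hd0 : 0 ≤ (w.w 0) ^ 2 - 1 - y := by
        have := pow_le_pow_left₀ (by linarith) hw0 2
        rw [hy]
        linarith
      have e3 : 2 * A / R * ((w.w 0) ^ 2 - 1 - y) ≤
          2 * Real.pi * (102 / 100 * ρ₁) * ((w.w 0) ^ 2 - (w.w η) ^ 2) := by
        have e4 : (w.w 0) ^ 2 - 1 - y = (w.w 0) ^ 2 - (w.w η) ^ 2 := by rw [hy]; ring
        have := mul_le_mul_of_nonneg_right e2 hd0
        rwa [e4] at this ⊢
      have e5 : 2 * Real.pi * η * (1 + y) = 2 * Real.pi * η * (w.w η) ^ 2 := by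
        rw [hy]; ring
      linarith
    -- conclusion
    have hm := m_nonneg k w
    have hq0 : 0 ≤ -w.q k := by linarith [hb.q_le]
    have k1 : X + ENNReal.ofReal (2 * Real.pi * w.m k) + ENNReal.ofReal (a1 + a2) ≤
        (Y + ENNReal.ofReal (2 * Real.pi * (-w.q k) * Real.sqrt (area C / Real.pi) + ε)) +
          ENNReal.ofReal (a1 + a2) := by
      calc X + ENNReal.ofReal (2 * Real.pi * w.m k) + ENNReal.ofReal (a1 + a2)
          ≤ (X1 + X2) + ENNReal.ofReal (2 * Real.pi * w.m k) + ENNReal.ofReal (a1 + a2) := by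
            gcongr
        _ = X1 + (X2 + ENNReal.ofReal a2) + ENNReal.ofReal a1 +
              ENNReal.ofReal (2 * Real.pi * w.m k) := by
            rw [ENNReal.ofReal_add a1nn a2nn]
            ring
        _ ≤ ENNReal.ofReal b1' + (Y2 + ENNReal.ofReal b2') + Y1 +
              ENNReal.ofReal (2 * Real.pi * w.m k) := by
            gcongr
        _ = (Y1 + Y2) + ENNReal.ofReal (b1' + b2' + 2 * Real.pi * w.m k) := by
            rw [ENNReal.ofReal_add (by positivity) (by positivity),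
              ENNReal.ofReal_add b1nn b2nn]
            ring
        _ ≤ Y + ENNReal.ofReal (a1 + a2 +
              (2 * Real.pi * (-w.q k) * Real.sqrt (area C / Real.pi) + ε)) := by
            gcongr
        _ = _ := by
            rw [ENNReal.ofReal_add (by positivity) (by positivity)]
            ring
    exact (ENNReal.add_le_add_iff_right ENNReal.ofReal_ne_top).1 k1

end Pool.Agent.Robin

end

section

open MeasureTheory Set Metric
open scoped ENNReal NNReal Pointwise RealInnerProductSpace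

namespace Pool.Agent.Robin

theorem pr_O (b3 : T_B3) (cl : T_CL) (k2 : T_K2) (k5 : T_K5) (k7 : T_K7)
    (k11 : T_K11) (k12 : T_K12) (k13 : T_K13) (k14 : T_K14) (o1 : T_O1) : T_O := by
  intro k w G o ρ₁ ρ₂ s hG hGc hb hin hout hρ₂ hq1 hs0 hqs hD hΘ
  have hGo := hG.isOpen
  have hGne := hG.isConnected.nonempty
  have hGb := hG.isBounded
  have hρ := hb.rho
  have hq := hb.q_le
  have hpi := Real.pi_pos
  obtain ⟨v0, v1, v2, v3⟩ := k13 G hG
  have hcomp : IsCompact (hull G) := K2.isCompact_convexHull (hGb.isCompact_closure)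
  have hconv : Convex ℝ (hull G) := convex_convexHull ℝ _
  have hs8 : s ≤ ρ₁ / 8 := by nlinarith
  have hmouth : ∀ Q, Pocket G Q → (mouth G Q).Nonempty := fun Q hQ => k5 G Q hG hGc hQ
  have harea := k14 G o ρ₁ s hG hin hs0 (by linarith) hD hmouth
  obtain ⟨R₀, hR₀⟩ : ∃ R₀ : ℝ, R₀ = Real.sqrt (area G / Real.pi) := ⟨_, rfl⟩
  obtain ⟨R₁, hR₁⟩ : ∃ R₁ : ℝ, R₁ = Real.sqrt (area (hull G) / Real.pi) := ⟨_, rfl⟩
  have hR0low : ρ₁ - s ≤ R₀ := by
    rw [hR₀]
    apply Real.le_sqrt_of_sq_le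
    rw [le_div_iff₀ hpi]
    linarith
  have hR78 : 7 / 8 * ρ₁ ≤ R₀ := by linarith
  have hR0pos : 0 < R₀ := by linarith
  have hGfin : volume G < ⊤ := by
    refine lt_of_le_of_lt ?_ v3
    rw [v2]
    exact le_self_add
  have hEfin : volume (ext G) < ⊤ := by
    refine lt_of_le_of_lt ?_ v3
    rw [v2]
    exact le_add_self
  obtain ⟨E, hE⟩ : ∃ E : ℝ, E = (volume (ext G)).toReal := ⟨_, rfl⟩
  have hE0 : 0 ≤ E := by rw [hE]; exact ENNReal.toReal_nonneg
  have hAE : area (hull G) = area G + E := by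
    unfold area
    rw [v2, ENNReal.toReal_add hGfin.ne hEfin.ne, hE]
  have hA0 : 0 ≤ area G := ENNReal.toReal_nonneg
  have hR0sq : R₀ ^ 2 = area G / Real.pi := by
    rw [hR₀]; exact Real.sq_sqrt (by positivity)
  have hR1sq : R₁ ^ 2 = (area G + E) / Real.pi := by
    rw [hR₁, hAE]; exact Real.sq_sqrt (by positivity)
  have hR1nn : 0 ≤ R₁ := by rw [hR₁]; exact Real.sqrt_nonneg _
  have hR01 : R₀ ≤ R₁ := by
    have : R₀ ^ 2 ≤ R₁ ^ 2 := by
      rw [hR0sq, hR1sq]
      gcongr
      linarith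
    exact le_of_sq_le_sq this hR1nn
  have hdiff : 2 * Real.pi * R₀ * (R₁ - R₀) ≤ E := by
    have h1 : Real.pi * (R₁ ^ 2 - R₀ ^ 2) = E := by
      rw [hR0sq, hR1sq]
      field_simp
      ring
    have h2 : 0 ≤ R₁ - R₀ := by linarith
    have h3 : 0 ≤ Real.pi * (R₁ - R₀) * (R₁ - R₀) := by positivity
    nlinarith
  obtain ⟨κ, hκ⟩ : ∃ κ : ℝ, κ = -w.q k / R₀ := ⟨_, rfl⟩
  have hκ0 : 0 ≤ κ := by
    rw [hκ]
    exact div_nonneg (by linarith) hR0pos.le
  have hκ1 : κ ≤ 1 / 50 := by
    rw [hκ, div_le_iff₀ hR0pos]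
    linarith
  have hκs : κ * s ≤ 1 / 2 := by
    rw [hκ, div_mul_eq_mul_div, div_le_iff₀ hR0pos]
    linarith
  have hk1 : 1 ≤ k := hb.one_lt.le
  have hk2 : k ≤ 21 / 20 := by
    have h1 := hb.curv
    have h2 : 200 * (k ^ 2 - 1) ≤ ρ₁ * (k ^ 2 - 1) := by
      have : 0 ≤ k ^ 2 - 1 := by nlinarith
      exact mul_le_mul_of_nonneg_right hρ this
    nlinarith
  have hU1 : 1 ≤ 9 / 10 * (w.w 0) ^ 2 := by linarith [hb.w0]
  have hm := AsmB.m_nonneg k w
  refine o1 k G _ hG hk1 v1 ?_
  intro ε hε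
  obtain ⟨u, hL, h1, hU, hmain⟩ := b3 k w (hull G) o ρ₁ ρ₂ hb hconv hcomp hin hout hρ₂ ε hε
  have hB0 : 0 ≤ 2 * Real.pi * (-w.q k) * R₁ + ε := by
    have : 0 ≤ -w.q k := by linarith
    positivity
  refine ⟨u, hL, h1, κ * E + 2 * Real.pi * w.m k, 2 * Real.pi * (-w.q k) * R₁ + ε,
    by positivity, hB0, ?_, ?_⟩
  · have h2 : κ * R₀ = -w.q k := by rw [hκ]; field_simp
    have h3 : 2 * Real.pi * (-w.q k) * (R₁ - R₀) ≤ κ * E := by
      rw [← h2]
      have := mul_le_mul_of_nonneg_left hdiff hκ0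
      linarith
    rw [← hR₀]
    linarith
  · have hp : ∀ Q, Pocket G Q →
        (∫⁻ x in mouth G Q, ENNReal.ofReal ((u x) ^ 2) ∂(μH[1])) +
          ENNReal.ofReal κ * volume Q ≤
        (∫⁻ x in Q, ENNReal.ofReal (en k u x - k ^ 2)) +
          ∫⁻ x in frontier Q ∩ interior (hull G), ENNReal.ofReal ((u x) ^ 2) ∂(μH[1]) := by
      intro Q hQ
      obtain ⟨x₁, hx₁⟩ := hmouth Q hQ
      obtain ⟨-, -, -, -, -, hne, -, -, -⟩ := k2 G Q hGo hGne hGb hQ
      obtain ⟨ν, hν⟩ := K14.exists_sup G x₁ hcomp hconv hne hx₁.2.1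
      exact k11 k κ s (9 / 10 * (w.w 0) ^ 2) G Q u x₁ ν hG hQ hk1 hk2 hκ0 hκ1 hs0 hκs hU1 hΘ
        hL h1 (fun x hx => hU x hx.2.1) hν
        (fun x hx => k7 cl G Q x₁ x ν hGo hG.isConnected hGb hQ hx₁ hx hν)
        (fun z hz => hD Q hQ x₁ hx₁ ν hν z hz)
    have h2 := k12 k κ G u _ _ hG hL h1 hk1 hp hmain
    rw [ENNReal.ofReal_add (by positivity) (by positivity), ENNReal.ofReal_mul hκ0, hE,
      ENNReal.ofReal_toReal hEfin.ne, ← add_assoc, hR₁]
    exact h2

end Pool.Agent.Robin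

end

section

/-!
MP_4b551e_an, item N2: for a competitor the quadratic form of the filled domain is non-negative.
-/

open MeasureTheory Set Metric Filter Topology
open scoped ENNReal NNReal Pointwise RealInnerProductSpace

namespace Pool.Agent.Robin

namespace NN2

theorem bdd_on {S : Set E2} (hS : Bornology.IsBounded S) {u : E2 → ℝ} {C : ℝ≥0}
    (hu : LipschitzWith C u) : ∃ B : ℝ, ∀ x ∈ S, |u x| ≤ B := by
  obtain ⟨R, hR⟩ := hS.subset_closedBall (0 : E2)
  refine ⟨|u 0| + C * R, fun x hx => ?_⟩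
  have h1 : ‖x‖ ≤ R := by simpa using hR hx
  have h2 : |u x - u 0| ≤ C * ‖x‖ := by
    have := hu.dist_le_mul x 0
    rwa [Real.dist_eq, dist_zero_right] at this
  have h3 : |u x| ≤ |u x - u 0| + |u 0| := by
    have := abs_add_le (u x - u 0) (u 0)
    simpa using this
  have h4 : (C : ℝ) * ‖x‖ ≤ C * R := mul_le_mul_of_nonneg_left h1 C.2
  linarith

theorem int_sq {μ : Measure E2} {S : Set E2} (hS : Bornology.IsBounded S)
    (hSm : MeasurableSet S) (hμ : μ S < ⊤) {u : E2 → ℝ} {C : ℝ≥0} (hu : LipschitzWith C u) :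
    IntegrableOn (fun x => (u x) ^ 2) S μ := by
  obtain ⟨B, hB⟩ := bdd_on hS hu
  refine Measure.integrableOn_of_bounded (M := B ^ 2) hμ.ne ?_ ?_
  · exact (hu.continuous.pow 2).measurable.aestronglyMeasurable
  · refine (ae_restrict_iff' hSm).2 (Eventually.of_forall fun x hx => ?_)
    rw [Real.norm_eq_abs, abs_pow]
    exact pow_le_pow_left₀ (abs_nonneg _) (hB x hx) 2

theorem int_lin {μ : Measure E2} {S : Set E2} (hS : Bornology.IsBounded S)
    (hSm : MeasurableSet S) (hμ : μ S < ⊤) {u : E2 → ℝ} {C : ℝ≥0} (hu : LipschitzWith C u) :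
    IntegrableOn (fun x => u x) S μ := by
  obtain ⟨B, hB⟩ := bdd_on hS hu
  refine Measure.integrableOn_of_bounded (M := B) hμ.ne ?_ ?_
  · exact hu.continuous.measurable.aestronglyMeasurable
  · refine (ae_restrict_iff' hSm).2 (Eventually.of_forall fun x hx => ?_)
    rw [Real.norm_eq_abs]
    exact hB x hx

theorem int_grad {S : Set E2} (hμ : volume S < ⊤) {u : E2 → ℝ} {C : ℝ≥0}
    (hu : LipschitzWith C u) : IntegrableOn (fun x => ‖fderiv ℝ u x‖ ^ 2) S := by
  refine Measure.integrableOn_of_bounded (M := (C : ℝ) ^ 2) hμ.ne ?_ ?_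
  · exact ((measurable_fderiv ℝ u).norm.pow_const 2).aestronglyMeasurable
  · refine Eventually.of_forall fun x => ?_
    rw [Real.norm_eq_abs, abs_pow, abs_norm]
    exact pow_le_pow_left₀ (norm_nonneg _) (norm_fderiv_le_of_lipschitz ℝ hu) 2

theorem int_en {S : Set E2} (hS : Bornology.IsBounded S) (hSm : MeasurableSet S) (k : ℝ)
    (hμ : volume S < ⊤) {u : E2 → ℝ} {C : ℝ≥0}
    (hu : LipschitzWith C u) : IntegrableOn (fun x => en k u x) S :=
  (int_grad hμ hu).add ((int_sq hS hSm hμ hu).const_mul (k ^ 2))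

theorem Qk_eq {Ω : Set E2} (hΩ : Bornology.IsBounded Ω) (hm : MeasurableSet Ω)
    (hv : volume Ω < ⊤) (k : ℝ) {u : E2 → ℝ} {C : ℝ≥0} (hu : LipschitzWith C u) :
    Qk k Ω u = (∫ x in Ω, ‖fderiv ℝ u x‖ ^ 2) + k ^ 2 * (∫ x in Ω, (u x) ^ 2) -
      ∫ x in frontier Ω, (u x) ^ 2 ∂(μH[1]) := by
  unfold Qk en
  rw [integral_add (int_grad hv hu) ((int_sq hΩ hm hv hu).const_mul (k ^ 2)),
    integral_const_mul]

/-- The case of positive `L²` norm. -/
theorem pos_case {Ω : Set E2} (hΩ : Bornology.IsBounded Ω) (hm : MeasurableSet Ω)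
    (hv : volume Ω < ⊤) {k : ℝ} (hlam : ¬ (lam (-1) Ω ≤ ((-(k ^ 2) : ℝ) : EReal)))
    {u : E2 → ℝ} {C : ℝ≥0} (hu : LipschitzWith C u) (hpos : 0 < ∫ x in Ω, (u x) ^ 2) :
    0 < Qk k Ω u := by
  have h1 : lam (-1) Ω ≤ ((rayleigh (-1) Ω u : ℝ) : EReal) := by
    unfold lam
    exact iInf_le_of_le u (iInf_le_of_le ⟨C, hu⟩ (iInf_le_of_le hpos le_rfl))
  push Not at hlam
  have h2 : -(k ^ 2) < rayleigh (-1) Ω u := by
    have := lt_of_lt_of_le hlam h1
    exact_mod_cast this
  rw [Qk_eq hΩ hm hv k hu]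
  unfold rayleigh at h2
  rw [lt_div_iff₀ hpos] at h2
  linarith

end NN2

open NN2 in
theorem prn_N2 (hB2 : S_B2) (hB1 : S_B1) (hB3 : S_B3) : S_N2 := by
  intro k A Ω hA hΩ hvol hlam u hu
  obtain ⟨C, hu⟩ := hu
  have hΩm : MeasurableSet Ω := hΩ.isOpen.measurableSet
  have hv : volume Ω < ⊤ := by rw [hvol]; exact ENNReal.ofReal_lt_top
  have hvr : volume.real Ω = A := by
    rw [Measure.real, hvol, ENNReal.toReal_ofReal hA.le]
  -- the boundary
  have hfb : Bornology.IsBounded (frontier Ω) := hΩ.isBounded.closure.subset frontier_subset_closure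
  have hfc : IsCompact (frontier Ω) := Metric.isCompact_of_isClosed_isBounded isClosed_frontier hfb
  have hfin : μH[1] (frontier Ω) < ⊤ := by
    have := (hB2 Ωᶜ (hB1 Ω hΩ) (by rw [frontier_compl]; exact hfc)).1
    rwa [frontier_compl] at this
  have hfm : MeasurableSet (frontier Ω) := isClosed_frontier.measurableSet
  have hΩQ : 0 ≤ Qk k Ω u := by
    rcases (integral_nonneg (μ := volume.restrict Ω)
      (f := fun x => (u x) ^ 2) (fun x => sq_nonneg _)).lt_or_eq with hpos | hzero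
    · exact (pos_case hΩ.isBounded hΩm hv hlam hu hpos).le
    · have hae : ∀ᵐ x ∂(volume.restrict Ω), u x = 0 := by
        have h1 := (integral_eq_zero_iff_of_nonneg (μ := volume.restrict Ω)
          (f := fun x => (u x) ^ 2) (fun x => sq_nonneg _)
          (int_sq hΩ.isBounded hΩm hv hu)).1 hzero.symm
        filter_upwards [h1] with x hx
        exact pow_eq_zero_iff (two_ne_zero) |>.1 hx
      set P : ℝ := ∫ x in Ω, ‖fderiv ℝ u x‖ ^ 2 with hP
      set S₀ : ℝ := ∫ x in frontier Ω, (u x) ^ 2 ∂(μH[1]) with hS₀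
      set T : ℝ := ∫ x in frontier Ω, u x ∂(μH[1]) with hT
      set W : ℝ := (μH[1] : Measure E2).real (frontier Ω) with hW
      have hF : ∀ e : ℝ, 0 < e → 0 < P + k ^ 2 * (e ^ 2 * A) - (S₀ + 2 * e * T + e ^ 2 * W) := by
        intro e he
        have hue : LipschitzWith C (fun x => u x + e) := by
          have := hu.add (LipschitzWith.const e)
          simpa using this
        have e1 : ∫ x in Ω, (u x + e) ^ 2 = e ^ 2 * A := by
          have : ∫ x in Ω, (u x + e) ^ 2 = ∫ x in Ω, e ^ 2 := by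
            refine integral_congr_ae ?_
            filter_upwards [hae] with x hx
            rw [hx, zero_add]
          rw [this, setIntegral_const, hvr, smul_eq_mul, mul_comm]
        have e2 : ∫ x in Ω, ‖fderiv ℝ (fun x => u x + e) x‖ ^ 2 = P := by
          rw [hP]
          simp only [fderiv_add_const]
        have e3 : ∫ x in frontier Ω, (u x + e) ^ 2 ∂(μH[1]) = S₀ + 2 * e * T + e ^ 2 * W := by
          have : (fun x => (u x + e) ^ 2) = fun x => ((u x) ^ 2 + (2 * e) * u x) + e ^ 2 := by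
            funext x; ring
          rw [this, integral_add, integral_add, integral_const_mul, setIntegral_const,
            smul_eq_mul, mul_comm W]
          · exact int_sq hfb hfm hfin hu
          · exact (int_lin hfb hfm hfin hu).const_mul _
          · exact (int_sq hfb hfm hfin hu).add ((int_lin hfb hfm hfin hu).const_mul _)
          · exact integrableOn_const hfin.ne
        have h2 := pos_case hΩ.isBounded hΩm hv hlam hue (by rw [e1]; positivity)
        rw [Qk_eq hΩ.isBounded hΩm hv k hue, e1, e2, e3] at h2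
        exact h2
      have hlim : Tendsto (fun e : ℝ => P + k ^ 2 * (e ^ 2 * A) -
          (S₀ + 2 * e * T + e ^ 2 * W)) (𝓝[>] 0) (𝓝 (P - S₀)) := by
        have hc : Continuous (fun e : ℝ => P + k ^ 2 * (e ^ 2 * A) -
          (S₀ + 2 * e * T + e ^ 2 * W)) := by fun_prop
        have := (hc.tendsto 0).mono_left (nhdsWithin_le_nhds (s := Ioi (0 : ℝ)))
        simpa using this
      have h3 : 0 ≤ P - S₀ := by
        refine ge_of_tendsto hlim ?_
        filter_upwards [self_mem_nhdsWithin] with e he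
        exact (hF e he).le
      rw [Qk_eq hΩ.isBounded hΩm hv k hu, ← hzero]
      simpa using h3
  -- the filled domain
  obtain ⟨N, H, hD⟩ := hB3 Ω hΩ
  have hsub : Ω ⊆ fill Ω := by
    intro x hx hxo
    exact hxo.1 hx
  have hfill := hD.fill_adm
  have hfv : volume (fill Ω) < ⊤ := hfill.isBounded.measure_lt_top
  have hfr : frontier (fill Ω) ⊆ frontier Ω := by
    unfold fill
    rw [frontier_compl, hD.fr]
    exact subset_union_left
  have h4 : ∫ x in Ω, en k u x ≤ ∫ x in fill Ω, en k u x := by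
    refine setIntegral_mono_set (int_en hfill.isBounded hfill.isOpen.measurableSet k hfv hu) ?_
      hsub.eventuallyLE
    refine Eventually.of_forall fun x => ?_
    change 0 ≤ en k u x
    unfold en
    positivity
  have h5 : ∫ x in frontier (fill Ω), (u x) ^ 2 ∂(μH[1]) ≤
      ∫ x in frontier Ω, (u x) ^ 2 ∂(μH[1]) := by
    refine setIntegral_mono_set (int_sq hfb hfm hfin hu) ?_ hfr.eventuallyLE
    exact Eventually.of_forall fun x => sq_nonneg _
  unfold Qk at hΩQ ⊢
  linarith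

end Pool.Agent.Robin

end

section

/-! N3: components of `G \ K` -/

open MeasureTheory Set Metric
open scoped ENNReal NNReal Pointwise RealInnerProductSpace

namespace Pool.Agent.Robin

theorem prn_N3 : S_N3 := by
  intro G K U x₀ hG hGc hK hx hU
  have hO : IsOpen (G \ K) := hG.sdiff hK
  have hUo : IsOpen U := by rw [hU]; exact hO.connectedComponentIn
  have hUc : IsConnected U := by rw [hU]; exact isConnected_connectedComponentIn_iff.2 hx
  have hxU : x₀ ∈ U := by rw [hU]; exact mem_connectedComponentIn hx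
  have hUs : U ⊆ G \ K := by rw [hU]; exact connectedComponentIn_subset _ _
  have key : ∀ z ∈ closure U, z ∉ U → z ∉ K → z ∉ G := by
    intro z hz hzU hzK hzG
    have hzGK : z ∈ G \ K := ⟨hzG, hzK⟩
    have h1 : IsOpen (connectedComponentIn (G \ K) z) := hO.connectedComponentIn
    have h2 : z ∈ connectedComponentIn (G \ K) z := mem_connectedComponentIn hzGK
    obtain ⟨w, hw1, hw2⟩ := mem_closure_iff.1 hz _ h1 h2
    have h3 : connectedComponentIn (G \ K) z = connectedComponentIn (G \ K) w :=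
      connectedComponentIn_eq hw1
    have h4 : connectedComponentIn (G \ K) x₀ = connectedComponentIn (G \ K) w := by
      rw [hU] at hw2
      exact connectedComponentIn_eq hw2
    apply hzU
    rw [hU, h4, ← h3]
    exact h2
  refine ⟨hUo, hUc, hxU, hUs, ?_, ?_⟩
  · rintro z ⟨hz, hzK⟩
    have hz1 : z ∈ closure U := frontier_subset_closure hz
    have hz2 : z ∉ U := by
      rw [frontier, hUo.interior_eq] at hz
      exact hz.2
    have hzG := key z hz1 hz2 hzK
    rw [frontier, hG.interior_eq]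
    exact ⟨closure_mono (hUs.trans diff_subset) hz1, hzG⟩
  · by_cases h : U = G
    · exact Or.inl h
    · right
      by_contra hne
      apply h
      have hUG : U ⊆ G := hUs.trans diff_subset
      -- `U` is closed in `G`
      have hcl : ∀ z ∈ closure U, z ∈ G → z ∈ U := by
        intro z hz hzG
        by_contra hzU
        by_cases hzK : z ∈ K
        · exact hne ⟨z, hz, hzK, hzG⟩
        · exact key z hz hzU hzK hzG
      have hpre : IsPreconnected G := hGc.isPreconnected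
      apply Subset.antisymm hUG
      intro z hzG
      by_contra hzU
      have hV : IsOpen (closure U)ᶜ := isClosed_closure.isOpen_compl
      have hcov : G ⊆ U ∪ (closure U)ᶜ := by
        intro y hy
        by_cases hyU : y ∈ closure U
        · exact Or.inl (hcl y hyU hy)
        · exact Or.inr hyU
      obtain ⟨y, hyG, hy1, hy2⟩ := hpre U (closure U)ᶜ hUo hV hcov ⟨x₀, hUG hxU, hxU⟩
        ⟨z, hzG, fun hz => hzU (hcl z hz hzG)⟩
      exact hy2 (subset_closure hy1)

end Pool.Agent.Robin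

end

section

/-! N4: radial lower bound for a boundary integral -/

open MeasureTheory Set Metric
open scoped ENNReal NNReal Pointwise RealInnerProductSpace

namespace Pool.Agent.Robin

private theorem n4_norm_dirv (θ : ℝ) : ‖dirv θ‖ = 1 := by
  unfold dirv
  rw [EuclideanSpace.norm_eq]
  simp [Fin.sum_univ_two]

private theorem n4_norm (y : E2) (d θ : ℝ) (hd : 0 < d) : ‖(y + d • dirv θ) - y‖ = d := by
  rw [add_sub_cancel_left, norm_smul, n4_norm_dirv, mul_one, Real.norm_eq_abs, abs_of_pos hd]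

private theorem n4_int (a₀ β : ℝ) (h : a₀ ≤ β) (h0 : 0 ≤ a₀) :
    ∫⁻ d in Ioc a₀ β, ENNReal.ofReal ((Real.exp (d - a₀) - 1) ^ 2 +
      d * (2 * (Real.exp (d - a₀) - 1) * Real.exp (d - a₀))) =
    ENNReal.ofReal (β * (Real.exp (β - a₀) - 1) ^ 2) := by
  have hc : Continuous (fun d : ℝ => (Real.exp (d - a₀) - 1) ^ 2 +
      d * (2 * (Real.exp (d - a₀) - 1) * Real.exp (d - a₀))) := by fun_prop
  have hnn : ∀ d : ℝ, a₀ ≤ d → 0 ≤ (Real.exp (d - a₀) - 1) ^ 2 +
      d * (2 * (Real.exp (d - a₀) - 1) * Real.exp (d - a₀)) := by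
    intro d hd
    have h1 : 1 ≤ Real.exp (d - a₀) := Real.one_le_exp (by linarith)
    have h2 : 0 ≤ Real.exp (d - a₀) - 1 := by linarith
    have h3 : 0 ≤ d := h0.trans hd
    positivity
  have hint : IntegrableOn (fun d : ℝ => (Real.exp (d - a₀) - 1) ^ 2 +
      d * (2 * (Real.exp (d - a₀) - 1) * Real.exp (d - a₀))) (Ioc a₀ β) :=
    (hc.integrableOn_Icc (a := a₀) (b := β)).mono_set Ioc_subset_Icc_self
  rw [← ofReal_integral_eq_lintegral_ofReal hint
    ((ae_restrict_iff' measurableSet_Ioc).2 (Filter.Eventually.of_forall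
      fun d hd => hnn d hd.1.le))]
  congr 1
  rw [← intervalIntegral.integral_of_le h]
  have hder : ∀ d ∈ uIcc a₀ β, HasDerivAt (fun d : ℝ => d * (Real.exp (d - a₀) - 1) ^ 2)
      ((Real.exp (d - a₀) - 1) ^ 2 +
      d * (2 * (Real.exp (d - a₀) - 1) * Real.exp (d - a₀))) d := by
    intro d _
    have h1 : HasDerivAt (fun d : ℝ => Real.exp (d - a₀) - 1) (Real.exp (d - a₀)) d := by
      have := ((hasDerivAt_id d).sub_const a₀).exp.sub_const 1
      simpa using this
    have h2 := (hasDerivAt_id d).mul (h1.pow 2)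
    refine (h2.congr_deriv ?_)
    simp only [id_eq, Pi.pow_apply]
    push_cast
    ring
  rw [intervalIntegral.integral_eq_sub_of_hasDerivAt hder (hc.intervalIntegrable _ _)]
  simp

theorem prn_N4 (h2 : T_Q2) (h3 : T_Q3) : S_N4 := by
  intro U y a b a₀ M hU h0 hab hb hUc hUM
  set F : E2 → ℝ≥0∞ := fun x => ENNReal.ofReal (2 * (Real.exp (‖x - y‖ - a₀) - 1) *
      Real.exp (‖x - y‖ - a₀) + (Real.exp (‖x - y‖ - a₀) - 1) ^ 2 / ‖x - y‖) with hF
  set f : E2 → ℝ≥0∞ := fun x => ENNReal.ofReal ((Real.exp (‖x - y‖ - a₀) - 1) ^ 2) with hf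
  have hFm : Measurable F := by
    rw [hF]
    refine ENNReal.measurable_ofReal.comp ?_
    have hn : Measurable (fun x : E2 => ‖x - y‖) := (continuous_id.sub continuous_const).norm.measurable
    have he : Measurable (fun x : E2 => Real.exp (‖x - y‖ - a₀)) :=
      Real.measurable_exp.comp (hn.sub_const _)
    exact (((he.sub_const 1).const_mul 2).mul he).add (((he.sub_const 1).pow_const 2).div hn)
  have hfm : Measurable f := by
    rw [hf]
    have : Continuous (fun x : E2 => (Real.exp (‖x - y‖ - a₀) - 1) ^ 2) := by fun_prop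
    exact ENNReal.measurable_ofReal.comp this.measurable
  set S : Set E2 := frontier U ∩ {x | a₀ < ‖x - y‖} with hS
  have hSm : MeasurableSet S := by
    refine isClosed_frontier.measurableSet.inter ?_
    have hn : Measurable (fun x : E2 => ‖x - y‖) := (continuous_id.sub continuous_const).norm.measurable
    exact measurableSet_lt measurable_const hn
  have hbpi : b ≤ a + Real.pi := by linarith [Real.pi_pos]
  have e1 : ∫⁻ x in U, F x = ∫⁻ x in cone y a b, U.indicator F x := by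
    rw [lintegral_indicator hU.measurableSet, Measure.restrict_restrict hU.measurableSet,
      inter_eq_left.2 hUc]
  have e2 := h2 y a b (U.indicator F) hab hbpi (hFm.indicator hU.measurableSet)
  have key : ∀ θ : ℝ, ∫⁻ d in Ioi (0 : ℝ), U.indicator F (y + d • dirv θ) * ENNReal.ofReal d ≤
      ⨆ (d : ℝ) (_ : 0 < d) (_ : y + d • dirv θ ∈ S), f (y + d • dirv θ) * ENNReal.ofReal d := by
    intro θ
    set T : Set ℝ := {d | 0 < d ∧ y + d • dirv θ ∈ U} with hT
    have hcont : Continuous (fun d : ℝ => y + d • dirv θ) := by fun_prop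
    have hTo : IsOpen T := isOpen_Ioi.inter (hU.preimage hcont)
    have hTb : ∀ d ∈ T, a₀ < d ∧ d ≤ M := by
      intro d hd
      have := hUM _ hd.2
      rwa [n4_norm y d θ hd.1] at this
    rcases T.eq_empty_or_nonempty with hE | hne
    · have : ∫⁻ d in Ioi (0 : ℝ), U.indicator F (y + d • dirv θ) * ENNReal.ofReal d = 0 := by
        rw [← lintegral_zero (μ := volume.restrict (Ioi (0:ℝ)))]
        refine setLIntegral_congr_fun measurableSet_Ioi ?_
        intro d hd
        have : y + d • dirv θ ∉ U := by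
          intro h
          have : d ∈ T := ⟨hd, h⟩
          rw [hE] at this
          exact this
        simp [indicator_of_notMem this]
      rw [this]
      exact zero_le
    · have hbd : BddAbove T := ⟨M, fun d hd => (hTb d hd).2⟩
      set β := sSup T with hβ
      obtain ⟨d₁, hd₁⟩ := hne
      have hβa : a₀ < β := (hTb d₁ hd₁).1.trans_le (le_csSup hbd hd₁)
      have hβ0 : 0 < β := h0.trans_lt hβa
      have hβT : β ∉ T := by
        intro h
        obtain ⟨ε, hε, hball⟩ := Metric.isOpen_iff.1 hTo β h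
        have : β + ε / 2 ∈ T := hball (by
          rw [Metric.mem_ball, Real.dist_eq, add_sub_cancel_left, abs_of_pos (by linarith)]
          linarith)
        have := le_csSup hbd this
        linarith
      have hβc : β ∈ closure T := csSup_mem_closure ⟨d₁, hd₁⟩ hbd
      have hzc : y + β • dirv θ ∈ closure U := by
        have h1 : MapsTo (fun d : ℝ => y + d • dirv θ) T U := fun d hd => hd.2
        exact h1.closure hcont hβc
      have hzU : y + β • dirv θ ∉ U := fun h => hβT ⟨hβ0, h⟩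
      have hzS : y + β • dirv θ ∈ S := by
        refine ⟨?_, ?_⟩
        · rw [frontier, hU.interior_eq]
          exact ⟨hzc, hzU⟩
        · show a₀ < ‖(y + β • dirv θ) - y‖
          rw [n4_norm y β θ hβ0]
          exact hβa
      refine le_trans ?_ (le_iSup_of_le β (le_iSup_of_le hβ0 (le_iSup_of_le hzS le_rfl)))
      have e3 : f (y + β • dirv θ) * ENNReal.ofReal β =
          ENNReal.ofReal (β * (Real.exp (β - a₀) - 1) ^ 2) := by
        show ENNReal.ofReal ((Real.exp (‖(y + β • dirv θ) - y‖ - a₀) - 1) ^ 2) * _ = _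
        rw [n4_norm y β θ hβ0, ← ENNReal.ofReal_mul (by positivity), mul_comm]
      rw [e3, ← n4_int a₀ β hβa.le h0, ← lintegral_indicator measurableSet_Ioi,
        ← lintegral_indicator measurableSet_Ioc]
      refine lintegral_mono fun d => ?_
      by_cases hdT : d ∈ T
      · have hda := hTb d hdT
        have hd0 : 0 < d := hdT.1
        have hdβ : d ≤ β := le_csSup hbd hdT
        rw [indicator_of_mem (show d ∈ Ioi (0:ℝ) from hd0),
          indicator_of_mem (show d ∈ Ioc a₀ β from ⟨hda.1, hdβ⟩), indicator_of_mem hdT.2]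
        show ENNReal.ofReal _ * _ ≤ _
        rw [n4_norm y d θ hd0]
        have hx : 0 ≤ Real.exp (d - a₀) - 1 := by
          have : 1 ≤ Real.exp (d - a₀) := Real.one_le_exp (by linarith [hda.1])
          linarith
        rw [← ENNReal.ofReal_mul (by positivity)]
        apply le_of_eq
        congr 1
        field_simp
        ring
      · by_cases hd : d ∈ Ioi (0:ℝ)
        · have : y + d • dirv θ ∉ U := fun h => hdT ⟨hd, h⟩
          rw [indicator_of_mem hd, indicator_of_notMem this, zero_mul]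
          exact zero_le
        · rw [indicator_of_notMem hd]
          exact zero_le
  calc ∫⁻ x in U, F x = ∫⁻ x in cone y a b, U.indicator F x := e1
    _ = ∫⁻ θ in Ioo a b, ∫⁻ d in Ioi (0 : ℝ), U.indicator F (y + d • dirv θ) * ENNReal.ofReal d := e2
    _ ≤ ∫⁻ θ in Ioo a b, (⨆ (d : ℝ) (_ : 0 < d) (_ : y + d • dirv θ ∈ S),
        f (y + d • dirv θ) * ENNReal.ofReal d) := lintegral_mono fun θ => key θ
    _ ≤ ∫⁻ x in S ∩ cone y a b, f x ∂(μH[1]) := h3 y a b S f hab hb hSm hfm
    _ ≤ ∫⁻ x in S, f x ∂(μH[1]) := lintegral_mono_set inter_subset_left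

end Pool.Agent.Robin

end

section

/-!
MP_4b551e_an, item N5: circular lower bound for a boundary integral.
-/

open MeasureTheory Set Metric Filter Topology
open scoped ENNReal NNReal Pointwise RealInnerProductSpace

namespace Pool.Agent.Robin

namespace NN5

theorem dirv_zero (t : ℝ) : (dirv t) 0 = Real.cos t := by simp [dirv]

theorem dirv_one (t : ℝ) : (dirv t) 1 = Real.sin t := by simp [dirv]

theorem norm_dirv (t : ℝ) : ‖dirv t‖ = 1 := by
  rw [EuclideanSpace.norm_eq]
  simp [Fin.sum_univ_two, dirv_zero, dirv_one]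

theorem cont_dirv : Continuous dirv := by
  unfold dirv
  fun_prop

theorem dirv_inj {s t : ℝ} (h : dirv s = dirv t) (h1 : s < t) (h2 : t < s + 2 * Real.pi) :
    False := by
  have e0 : Real.cos s = Real.cos t := by rw [← dirv_zero, ← dirv_zero, h]
  have e1 : Real.sin s = Real.sin t := by rw [← dirv_one, ← dirv_one, h]
  have e2 : Real.cos (t - s) = 1 := by
    rw [Real.cos_sub, e0, e1]
    nlinarith [Real.sin_sq_add_cos_sq t]
  have e3 := (Real.cos_eq_one_iff_of_lt_of_lt (by linarith [Real.pi_pos]) (by linarith)).1 e2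
  linarith

theorem norm_pt (y : E2) (c t : ℝ) (hc : 0 < c) : ‖(y + c • dirv t) - y‖ = c := by
  rw [add_sub_cancel_left, norm_smul, norm_dirv, mul_one, Real.norm_eq_abs, abs_of_pos hc]

theorem pre_frontier {P U : Set E2} (hP : IsPreconnected P) (hU : IsOpen U)
    (h1 : (P ∩ U).Nonempty) (h2 : (P ∩ Uᶜ).Nonempty) : (P ∩ frontier U).Nonempty := by
  by_contra hcon
  rw [Set.not_nonempty_iff_eq_empty] at hcon
  have hfr : ∀ x ∈ P, x ∉ frontier U := by
    intro x hx hx2
    have : x ∈ P ∩ frontier U := ⟨hx, hx2⟩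
    rw [hcon] at this
    exact this
  have hcl : ∀ x ∈ P, x ∉ U → x ∉ closure U := by
    intro x hx hxU hxc
    refine hfr x hx ?_
    rw [hU.frontier_eq]
    exact ⟨hxc, hxU⟩
  obtain ⟨x, hx, hxU⟩ := h2
  obtain ⟨z, _, hz1, hz2⟩ := hP U (closure U)ᶜ hU isClosed_closure.isOpen_compl
    (fun z hz => by
      by_cases hzU : z ∈ U
      · exact Or.inl hzU
      · exact Or.inr (hcl z hz hzU)) h1 ⟨x, hx, hcl x hx hxU⟩
  exact hz2 (subset_closure hz1)

end NN5

open NN5 in
theorem prn_N5 (he : S_Eil) : S_N5 := by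
  intro U y a b a₀ M hUo hUc _ ha₀ hM hab hb hcone hlow hinf hsup
  have hpi := Real.pi_pos
  set S : Set E2 := frontier U ∩ {x | a₀ < ‖x - y‖} with hS
  have hSm : MeasurableSet S := by
    refine isClosed_frontier.measurableSet.inter (IsOpen.measurableSet ?_)
    exact isOpen_lt continuous_const (by fun_prop)
  have hlip : LipschitzWith 1 (fun x : E2 => ‖x - y‖) := by
    have h1 := (LipschitzWith.dist_left (α := E2) y)
    have h2 : (fun x : E2 => ‖x - y‖) = fun x => dist x y := by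
      funext x; rw [dist_eq_norm]
    rw [h2]
    exact h1
  set f : E2 → ℝ≥0∞ := fun x => ENNReal.ofReal ((Real.exp (‖x - y‖ - a₀) - 1) ^ 2) with hf
  have hfm : Measurable f := by
    refine ENNReal.measurable_ofReal.comp ?_
    have : Continuous fun x : E2 => (Real.exp (‖x - y‖ - a₀) - 1) ^ 2 := by fun_prop
    exact this.measurable
  obtain ⟨G, hGm, hG1, hG2⟩ := he S (fun x => ‖x - y‖) f hSm hlip hfm
  refine le_trans ?_ hG2
  -- the circle of radius `c`
  have hclaim : ∀ c ∈ Ioc a₀ M, ENNReal.ofReal (2 * (Real.exp (c - a₀) - 1) ^ 2) ≤ G c := by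
    intro c hc
    have hc0 : 0 < c := lt_of_le_of_lt ha₀ hc.1
    obtain ⟨x₁, hx₁, hx₁'⟩ := hinf (c - a₀) (by linarith [hc.1])
    obtain ⟨x₂, hx₂, hx₂'⟩ := hsup
    have hcont : ContinuousOn (fun x : E2 => ‖x - y‖) U := by fun_prop
    have hmem : c ∈ (fun x : E2 => ‖x - y‖) '' U := by
      have hpre := (hUc.isPreconnected.image _ hcont).ordConnected
      refine hpre.out (mem_image_of_mem _ hx₁) (mem_image_of_mem _ hx₂) ⟨?_, ?_⟩
      · change ‖x₁ - y‖ ≤ c
        linarith
      · change c ≤ ‖x₂ - y‖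
        linarith [hc.2]
    obtain ⟨x, hxU, hxc⟩ := hmem
    obtain ⟨d, θ₀, hd, hθa, hθb, hxe⟩ := hcone hxU
    have hdc : d = c := by
      rw [← hxc, hxe]
      exact (norm_pt y d θ₀ hd).symm
    rw [hdc] at hxe
    have hgc : Continuous fun t : ℝ => y + c • dirv t :=
      continuous_const.add (cont_dirv.const_smul c)
    have hout : ∀ t, (t = a ∨ t = b) → y + c • dirv t ∉ U := by
      intro t ht hin
      obtain ⟨d', θ', hd', h1, h2, h3⟩ := hcone hin
      have h4 : d' = c := by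
        have h5 := norm_pt y d' θ' hd'
        rw [← h3, norm_pt y c t hc0] at h5
        exact h5.symm
      rw [h4] at h3
      have h6 : dirv t = dirv θ' := by
        have h7 := add_left_cancel h3
        exact smul_right_injective E2 hc0.ne' h7
      rcases ht with rfl | rfl
      · exact dirv_inj h6 h1 (by linarith)
      · exact dirv_inj h6.symm h2 (by linarith)
    have hfr : ∀ s t : ℝ, s ≤ t → (y + c • dirv s ∈ U ∧ y + c • dirv t ∉ U ∨
        y + c • dirv s ∉ U ∧ y + c • dirv t ∈ U) →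
        ∃ u ∈ Icc s t, y + c • dirv u ∈ frontier U := by
      intro s t hst hor
      have hp : IsPreconnected ((fun t : ℝ => y + c • dirv t) '' Icc s t) :=
        isPreconnected_Icc.image _ hgc.continuousOn
      have hs : s ∈ Icc s t := left_mem_Icc.2 hst
      have ht : t ∈ Icc s t := right_mem_Icc.2 hst
      have hne : ((fun t : ℝ => y + c • dirv t) '' Icc s t ∩ frontier U).Nonempty := by
        rcases hor with ⟨h1, h2⟩ | ⟨h1, h2⟩
        · exact pre_frontier hp hUo ⟨_, mem_image_of_mem _ hs, h1⟩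
            ⟨_, mem_image_of_mem _ ht, h2⟩
        · exact pre_frontier hp hUo ⟨_, mem_image_of_mem _ ht, h2⟩
            ⟨_, mem_image_of_mem _ hs, h1⟩
      obtain ⟨_, ⟨u, hu, rfl⟩, hu2⟩ := hne
      exact ⟨u, hu, hu2⟩
    have hxU' : y + c • dirv θ₀ ∈ U := hxe ▸ hxU
    obtain ⟨t₁, ht₁, hf₁⟩ := hfr a θ₀ hθa.le (Or.inr ⟨hout a (Or.inl rfl), hxU'⟩)
    obtain ⟨t₂, ht₂, hf₂⟩ := hfr θ₀ b hθb.le (Or.inl ⟨hxU', hout b (Or.inr rfl)⟩)
    have hnot : ∀ t, y + c • dirv t ∈ frontier U → y + c • dirv t ∉ U := by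
      intro t h
      rw [hUo.frontier_eq] at h
      exact h.2
    have hn1 : t₁ < θ₀ := lt_of_le_of_ne ht₁.2 fun he => by
      rw [he] at hf₁; exact hnot _ hf₁ hxU'
    have hn2 : θ₀ < t₂ := lt_of_le_of_ne ht₂.1 fun he => by
      rw [← he] at hf₂; exact hnot _ hf₂ hxU'
    have hm : ∀ t, y + c • dirv t ∈ frontier U →
        y + c • dirv t ∈ S ∩ (fun x : E2 => ‖x - y‖) ⁻¹' {c} := by
      intro t h
      refine ⟨⟨h, ?_⟩, ?_⟩
      · change a₀ < ‖(y + c • dirv t) - y‖
        rw [norm_pt y c t hc0]; exact hc.1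
      · simp only [mem_preimage, mem_singleton_iff]
        exact norm_pt y c t hc0
    have hne : y + c • dirv t₁ ≠ y + c • dirv t₂ := by
      intro h
      have h7 := add_left_cancel h
      have h8 : dirv t₁ = dirv t₂ := smul_right_injective E2 hc0.ne' h7
      exact dirv_inj h8 (by linarith) (by linarith [ht₁.1, ht₂.2])
    refine le_trans ?_ (hG1 c)
    have hsum := ENNReal.sum_le_tsum (f := fun x : (S ∩ (fun x : E2 => ‖x - y‖) ⁻¹' {c} : Set E2)
      => f x) ({⟨_, hm t₁ hf₁⟩, ⟨_, hm t₂ hf₂⟩} : Finset _)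
    refine le_trans ?_ hsum
    rw [Finset.sum_pair (by
      intro h
      exact hne (Subtype.ext_iff.1 h))]
    simp only [hf]
    rw [norm_pt y c t₁ hc0, norm_pt y c t₂ hc0, two_mul, ENNReal.ofReal_add (sq_nonneg _)
      (sq_nonneg _)]
  -- integrate
  have hcont2 : Continuous fun r : ℝ => 2 * (Real.exp (r - a₀) - 1) ^ 2 := by fun_prop
  have hint : ENNReal.ofReal (2 * ∫ r in a₀..M, (Real.exp (r - a₀) - 1) ^ 2) =
      ∫⁻ r in Ioc a₀ M, ENNReal.ofReal (2 * (Real.exp (r - a₀) - 1) ^ 2) := by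
    rw [← intervalIntegral.integral_const_mul, intervalIntegral.integral_of_le hM,
      ofReal_integral_eq_lintegral_ofReal]
    · exact (hcont2.integrableOn_Icc (a := a₀) (b := M)).mono_set Ioc_subset_Icc_self
    · exact Filter.Eventually.of_forall fun r => by positivity
  rw [hint]
  calc ∫⁻ r in Ioc a₀ M, ENNReal.ofReal (2 * (Real.exp (r - a₀) - 1) ^ 2)
      ≤ ∫⁻ r in Ioc a₀ M, G r := setLIntegral_mono hGm fun r hr => hclaim r hr
    _ ≤ ∫⁻ r, G r := setLIntegral_le_lintegral _ _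

end Pool.Agent.Robin

end

section

/-!
# MP_4b551e_an, item NN: Theorem N from its parts
-/

open MeasureTheory Set Metric
open scoped ENNReal NNReal Pointwise RealInnerProductSpace

namespace Pool.Agent.Robin

namespace NN

/-- Elementary growth estimates. -/
theorem ev : ∀ᶠ ρ : ℝ in Filter.atTop, 1 < Real.log ρ ∧
    25000 * (Real.log (Real.log ρ)) ^ 2 ≤ Real.log ρ ∧ 1200 * (Real.log ρ) ^ 2 ≤ ρ := by
  have h1 : ∀ᶠ x : ℝ in Filter.atTop, 1200 * (Real.log x) ^ 2 ≤ x := by
    have h := (Real.isLittleO_pow_log_id_atTop (n := 2)).bound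
      (show (0 : ℝ) < 1 / 1200 by norm_num)
    filter_upwards [h, Filter.eventually_ge_atTop 0] with x hx hx0
    simp only [Real.norm_eq_abs, id] at hx
    rw [abs_of_nonneg (sq_nonneg _), abs_of_nonneg hx0] at hx
    linarith
  have h2 : ∀ᶠ x : ℝ in Filter.atTop, 25000 * (Real.log x) ^ 2 ≤ x := by
    have h := (Real.isLittleO_pow_log_id_atTop (n := 2)).bound
      (show (0 : ℝ) < 1 / 25000 by norm_num)
    filter_upwards [h, Filter.eventually_ge_atTop 0] with x hx hx0
    simp only [Real.norm_eq_abs, id] at hx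
    rw [abs_of_nonneg (sq_nonneg _), abs_of_nonneg hx0] at hx
    linarith
  have h3 := Real.tendsto_log_atTop.eventually h2
  have h4 := Real.tendsto_log_atTop.eventually (Filter.eventually_gt_atTop (1 : ℝ))
  filter_upwards [h1, h3, h4] with x hx1 hx3 hx4
  exact ⟨hx4, hx3, hx1⟩

end NN

open NN in
theorem prn_NN (hcl : T_CL) (hB3 : S_B3) (hB3a : S_B3a) : S_NN := by
  intro hBL hX3 hY3
  obtain ⟨L₁, hL₁, hBL⟩ := hBL
  obtain ⟨L₂, hL₂, hX3⟩ := hX3
  obtain ⟨L₃, hL₃, hY3⟩ := hY3 hcl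
  obtain ⟨L₄, hL₄⟩ := Filter.eventually_atTop.1 ev
  refine ⟨max L₁ (max L₂ (max L₃ L₄)), lt_max_of_lt_left hL₁, ?_⟩
  intro k A ρ hpar hρ Ω hΩ hvol hcomp hper
  obtain ⟨hl1, hl2, hl3⟩ := hL₄ ρ ((le_max_right _ _).trans
    ((le_max_right _ _).trans ((le_max_right _ _).trans hρ)))
  have hρ1 : L₁ ≤ ρ := (le_max_left _ _).trans hρ
  have hρ2 : L₂ ≤ ρ := (le_max_left _ _).trans ((le_max_right _ _).trans hρ)
  have hρ3 : L₃ ≤ ρ := (le_max_left _ _).trans
    ((le_max_right _ _).trans ((le_max_right _ _).trans hρ))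
  have hρ0 : 0 < ρ := by linarith
  obtain ⟨N, H, hD⟩ := hB3 Ω hΩ
  have hadm : Admissible (fill Ω) := hD.fill_adm
  have hcon : IsConnected (fill Ω)ᶜ := by
    rw [fill, compl_compl]
    exact (hB3a Ω hΩ).1
  have hbump : Bump ρ (fill Ω) := hBL k A ρ Ω ⟨hpar, hΩ, hvol, hcomp⟩ hρ1
  obtain ⟨⟨o, ρ₁, ρ₂, h1, h2, h3, h4, h5⟩, hface⟩ := hX3 ρ (fill Ω) hρ2 hadm hcon hbump hper
  set l := Real.log ρ with hl
  set M := 25 * ρ * Real.log l / l with hM
  have hl0 : 0 < l := by linarith
  have hll : 0 < Real.log l := Real.log_pos hl1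
  have hM0 : 0 < M := by positivity
  have hsq : 25 * Real.log l ≤ Real.sqrt l := by
    apply Real.le_sqrt_of_sq_le
    nlinarith [sq_nonneg (Real.log l)]
  have hM1 : M ≤ ρ / Real.sqrt l := by
    have hs : 0 < Real.sqrt l := Real.sqrt_pos.2 hl0
    have hs2 : Real.sqrt l * Real.sqrt l = l := Real.mul_self_sqrt hl0.le
    rw [hM, div_le_div_iff₀ hl0 hs]
    calc 25 * ρ * Real.log l * Real.sqrt l = ρ * ((25 * Real.log l) * Real.sqrt l) := by ring
      _ ≤ ρ * (Real.sqrt l * Real.sqrt l) := by gcongr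
      _ = ρ * l := by rw [hs2]
  have hdepth := hY3 ρ M (fill Ω) hρ3 hadm hcon hbump hM0 hM1 hface
  have hs : M ^ 2 / ρ + 30 * l ≤ ρ / (20 * l) := by
    have e1 : M ^ 2 / ρ = 625 * ρ * (Real.log l) ^ 2 / l ^ 2 := by
      rw [hM]
      field_simp
      norm_num
    have e2 : M ^ 2 / ρ ≤ ρ / (40 * l) := by
      rw [e1, div_le_div_iff₀ (by positivity) (by positivity)]
      calc 625 * ρ * (Real.log l) ^ 2 * (40 * l) = ρ * l * (25000 * (Real.log l) ^ 2) := by ring
        _ ≤ ρ * l * l := by gcongr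
        _ = ρ * l ^ 2 := by ring
    have e3 : 30 * l ≤ ρ / (40 * l) := by
      rw [le_div_iff₀ (by positivity)]
      nlinarith
    have e4 : ρ / (20 * l) = ρ / (40 * l) + ρ / (40 * l) := by
      field_simp
      norm_num
    rw [e4]
    exact add_le_add e2 e3
  refine ⟨o, ρ₁, ρ₂, ρ / (20 * l), h1, h2, h3, h4, h5, by positivity, le_rfl, ?_⟩
  intro Q hQ x₁ hx₁ ν hν z hz
  exact (hdepth Q hQ x₁ hx₁ ν hν z hz).trans hs

end Pool.Agent.Robin

end

section

/-!
# MP_4b551e_an, item R1 (helper40): existence of the circumscribed polygon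
-/

open MeasureTheory Set Metric
open scoped ENNReal NNReal Pointwise RealInnerProductSpace

namespace Pool.Agent.Robin

private lemma nv_add_period {N : ℕ} (hN : N ≠ 0) (i : ℤ) : nv N (i + N) = nv N i := by
  unfold nv dirv dl
  have h : ((i + (N : ℤ) : ℤ) : ℝ) * (2 * Real.pi / N) = (i : ℝ) * (2 * Real.pi / N) + 2 * Real.pi := by
    have hN' : (N : ℝ) ≠ 0 := by exact_mod_cast hN
    push_cast
    field_simp
  rw [h, Real.cos_add_two_pi, Real.sin_add_two_pi]

private lemma nv_emod {N : ℕ} (hN : N ≠ 0) (i : ℤ) : nv N (i % N) = nv N i := by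
  have key : ∀ (k : ℕ) (j : ℤ), nv N (j + k * N) = nv N j := by
    intro k
    induction k with
    | zero => intro j; simp
    | succ k ih =>
      intro j
      have : j + ((k + 1 : ℕ) : ℤ) * (N : ℤ) = (j + k * N) + N := by push_cast; ring
      rw [this, nv_add_period hN, ih]
  have hdiv : i = i % N + (i / N) * N := by
    have := Int.emod_add_mul_ediv i (N : ℤ)
    linarith [this, mul_comm (N : ℤ) (i / N)]
  rcases le_total 0 (i / (N : ℤ)) with h | h
  · obtain ⟨k, hk⟩ := Int.eq_ofNat_of_zero_le h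
    conv_rhs => rw [hdiv, hk]
    exact (key k _).symm
  · obtain ⟨k, hk⟩ := Int.eq_ofNat_of_zero_le (neg_nonneg.mpr h)
    have : i % (N : ℤ) = i + k * N := by
      have h2 : i / (N : ℤ) = -(k : ℤ) := by linarith
      rw [h2] at hdiv
      linarith
    rw [this, key]

theorem prn_R1 : S_R1 := by
  intro G n hG hne hbd hn
  have hcpt : IsCompact (closure G) := hbd.isCompact_closure
  have hne' : (closure G).Nonempty := hne.closure
  set N : ℕ := 2 * n with hN
  have hN0 : N ≠ 0 := by omega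
  have key : ∀ ν τ : E2, ∃ q : E2, q ∈ closure G ∧ (∀ x ∈ closure G, ⟪x, ν⟫ ≤ ⟪q, ν⟫) ∧
      (∀ x ∈ closure G, ⟪x, ν⟫ = ⟪q, ν⟫ → ⟪q, τ⟫ ≤ ⟪x, τ⟫) := by
    intro ν τ
    have hc1 : Continuous fun x : E2 => ⟪x, ν⟫ := by fun_prop
    have hc2 : Continuous fun x : E2 => ⟪x, τ⟫ := by fun_prop
    obtain ⟨q₀, hq₀, hmax⟩ := hcpt.exists_isMaxOn hne' hc1.continuousOn
    have hS : IsCompact (closure G ∩ {x | ⟪x, ν⟫ = ⟪q₀, ν⟫}) :=
      hcpt.inter_right (isClosed_eq hc1 continuous_const)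
    obtain ⟨q, hq, hmin⟩ := hS.exists_isMinOn ⟨q₀, hq₀, rfl⟩ hc2.continuousOn
    have hqe : ⟪q, ν⟫ = ⟪q₀, ν⟫ := hq.2
    refine ⟨q, hq.1, ?_, ?_⟩
    · intro x hx
      rw [hqe]
      exact hmax hx
    · intro x hx hxe
      exact hmin ⟨hx, by simpa [hqe] using hxe⟩
  choose q hq1 hq2 hq3 using key
  refine ⟨fun i => ⟪q (nv N (i % N)) (tv N (i % N)), nv N (i % N)⟫,
    fun i => q (nv N (i % N)) (tv N (i % N)), ?_⟩
  have hnv : ∀ i : ℤ, nv N (i % N) = nv N i := nv_emod hN0
  have htv : ∀ i : ℤ, tv N (i % N) = tv N i := by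
    intro i
    unfold tv
    rw [hnv]
  constructor
  · exact hn
  · intro i
    simp only [hnv, htv, ← hN, nv_add_period hN0]
    unfold tv
    rw [nv_add_period hN0]
  · intro i
    simp only [hnv, htv, ← hN, nv_add_period hN0]
    unfold tv
    rw [nv_add_period hN0]
  · intro i
    exact hq1 _ _
  · intro i
    simp only [hnv, htv, ← hN]
  · intro i x hx
    simp only [hnv, htv, ← hN]
    exact hq2 _ _ x hx
  · intro i x hx hxe
    simp only [hnv, htv, ← hN] at hxe ⊢
    exact hq3 _ _ x hx hxe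

end Pool.Agent.Robin

end

section

/-!
# MP_4b551e_an: item R2 (sides of the circumscribed polygon)
-/

open MeasureTheory Set Metric
open scoped ENNReal NNReal Pointwise RealInnerProductSpace

namespace Pool.Agent.Robin

namespace R2

theorem inner_nv (o : E2) (N : ℕ) (i : ℤ) :
    ⟪o, nv N i⟫ = o 0 * Real.cos (i * dl N) + o 1 * Real.sin (i * dl N) := by
  rw [PiLp.inner_apply]
  simp [nv, dirv, Fin.sum_univ_two]
  ring

theorem inner_tv (o : E2) (N : ℕ) (i : ℤ) :
    ⟪o, tv N i⟫ = o 1 * Real.cos (i * dl N) - o 0 * Real.sin (i * dl N) := by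
  rw [PiLp.inner_apply]
  simp [tv, nv, rot, dirv, Fin.sum_univ_two]
  ring

theorem tv0 (N : ℕ) (i : ℤ) : tv N i 0 = -Real.sin (i * dl N) := by simp [tv, rot, nv, dirv]
theorem tv1 (N : ℕ) (i : ℤ) : tv N i 1 = Real.cos (i * dl N) := by simp [tv, rot, nv, dirv]

theorem decomp (w : E2) (N : ℕ) (i : ℤ) (h : ⟪w, nv N i⟫ = 0) : w = ⟪w, tv N i⟫ • tv N i := by
  rw [inner_nv] at h
  have hsc := Real.sin_sq_add_cos_sq ((i : ℝ) * dl N)
  ext j
  fin_cases j
  · simp only [PiLp.smul_apply, smul_eq_mul, Fin.zero_eta, tv0, inner_tv]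
    linear_combination (-(w 0)) * hsc + Real.cos (i * dl N) * h
  · simp only [PiLp.smul_apply, smul_eq_mul, Fin.mk_one, tv1, inner_tv]
    linear_combination (-(w 1)) * hsc + Real.sin (i * dl N) * h

theorem nv_per (N : ℕ) (hN : 0 < N) (i : ℤ) : nv N (i + N) = nv N i := by
  have hn0 : (N : ℝ) ≠ 0 := by positivity
  have : ((i + (N : ℤ) : ℤ) : ℝ) * dl N = i * dl N + 2 * Real.pi := by
    unfold dl
    push_cast
    field_simp
  unfold nv dirv
  rw [this, Real.cos_add_two_pi, Real.sin_add_two_pi]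

theorem sin_dl_pos {N : ℕ} (hN : 8 ≤ N) : 0 < Real.sin (dl N) := by
  have hN' : (8 : ℝ) ≤ N := by exact_mod_cast hN
  have hpi := Real.pi_pos
  apply Real.sin_pos_of_pos_of_lt_pi
  · unfold dl; positivity
  · unfold dl
    rw [div_lt_iff₀ (by linarith)]
    nlinarith

end R2

open R2 in
theorem prn_R2 (h1 : T_P1) : S_R2 := by
  intro G n h p hC i
  have hN : 8 ≤ 2 * n := by have := hC.n_le; omega
  have hs := sin_dl_pos hN
  obtain ⟨a1, a2, a3⟩ := h1 (2 * n) h i hN
  obtain ⟨-, b2, b3⟩ := h1 (2 * n) h (i - 1) hN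
  have hsc := Real.sin_sq_add_cos_sq ((i : ℝ) * dl (2 * n))
  -- the two decompositions
  have d1 : vx (2 * n) h i - p i = al n h p i • tv (2 * n) i := by
    refine decomp _ _ _ ?_
    rw [inner_sub_left, a2, hC.touch, sub_self]
  have d2 : ∀ j, p (j + 1) - vx (2 * n) h j = bl n h p j • tv (2 * n) (j + 1) := by
    intro j
    refine decomp _ _ _ ?_
    rw [inner_sub_left, (h1 (2 * n) h j hN).2.2, hC.touch, sub_self]
  have ett : ⟪tv (2 * n) i, tv (2 * n) i⟫ = 1 := by
    rw [inner_tv, tv0, tv1]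
    linear_combination hsc
  have etn : ⟪tv (2 * n) i, nv (2 * n) (i + 1)⟫ = Real.sin (dl (2 * n)) := by
    rw [inner_nv, tv0, tv1]
    have : ((i + 1 : ℤ) : ℝ) * dl (2 * n) = i * dl (2 * n) + dl (2 * n) := by push_cast; ring
    rw [this, Real.cos_add, Real.sin_add]
    linear_combination Real.sin (dl (2 * n)) * hsc
  have ent : ⟪tv (2 * n) (i + 1), nv (2 * n) i⟫ = -Real.sin (dl (2 * n)) := by
    rw [inner_nv, tv0, tv1]
    have : ((i + 1 : ℤ) : ℝ) * dl (2 * n) = i * dl (2 * n) + dl (2 * n) := by push_cast; ring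
    rw [this, Real.cos_add, Real.sin_add]
    linear_combination (-Real.sin (dl (2 * n))) * hsc
  refine ⟨?_, ?_, ?_, ?_, ?_, ?_, ?_⟩
  · have e1 : ⟪vx (2 * n) h i - vx (2 * n) h (i - 1), tv (2 * n) i⟫ = el (2 * n) h i := by
      rw [a1, real_inner_smul_left, ett, mul_one]
    have e2 : bl n h p (i - 1) = ⟪p i - vx (2 * n) h (i - 1), tv (2 * n) i⟫ := by
      unfold bl
      rw [sub_add_cancel]
    rw [← e1, e2]
    unfold al
    rw [← inner_add_left]
    congr 1
    abel
  · have e1 := hC.le (i + 1) (p i) (hC.mem i)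
    have e2 : ⟪vx (2 * n) h i - p i, nv (2 * n) (i + 1)⟫ = al n h p i * Real.sin (dl (2 * n)) := by
      rw [d1, real_inner_smul_left, etn]
    rw [inner_sub_left, a3] at e2
    have : 0 ≤ al n h p i * Real.sin (dl (2 * n)) := by linarith
    exact nonneg_of_mul_nonneg_left this hs
  · have e1 := hC.le i (p (i + 1)) (hC.mem _)
    have e2 : ⟪p (i + 1) - vx (2 * n) h i, nv (2 * n) i⟫ =
        bl n h p i * -Real.sin (dl (2 * n)) := by
      rw [d2 i, real_inner_smul_left, ent]
    rw [inner_sub_left, a2] at e2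
    have : 0 ≤ bl n h p i * Real.sin (dl (2 * n)) := by linarith
    exact nonneg_of_mul_nonneg_left this hs
  · rw [← d1]
    abel
  · rw [← d2 i]
    abel
  · have pn : nv (2 * n) (i + (2 * n : ℕ)) = nv (2 * n) i := nv_per (2 * n) (by omega) i
    have pt : tv (2 * n) (i + (2 * n : ℕ)) = tv (2 * n) i := by
      unfold tv
      rw [pn]
    have ph : h (i + (2 * n : ℕ) + 1) = h (i + 1) := by
      rw [show i + ((2 * n : ℕ) : ℤ) + 1 = (i + 1) + (2 * n : ℕ) by ring]
      exact hC.per_h _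
    unfold al vx
    rw [pn, pt, ph, hC.per_h, hC.per_p]
  · have pn : nv (2 * n) (i + (2 * n : ℕ)) = nv (2 * n) i := nv_per (2 * n) (by omega) i
    have pn1 : nv (2 * n) (i + (2 * n : ℕ) + 1) = nv (2 * n) (i + 1) := by
      rw [show i + ((2 * n : ℕ) : ℤ) + 1 = (i + 1) + (2 * n : ℕ) by ring]
      exact nv_per (2 * n) (by omega) (i + 1)
    have pt : tv (2 * n) (i + (2 * n : ℕ)) = tv (2 * n) i := by
      unfold tv
      rw [pn]
    have pt1 : tv (2 * n) (i + (2 * n : ℕ) + 1) = tv (2 * n) (i + 1) := by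
      unfold tv
      rw [pn1]
    have ph : h (i + (2 * n : ℕ) + 1) = h (i + 1) := by
      rw [show i + ((2 * n : ℕ) : ℤ) + 1 = (i + 1) + (2 * n : ℕ) by ring]
      exact hC.per_h _
    have pp : p (i + (2 * n : ℕ) + 1) = p (i + 1) := by
      rw [show i + ((2 * n : ℕ) : ℤ) + 1 = (i + 1) + (2 * n : ℕ) by ring]
      exact hC.per_p _
    unfold bl vx
    rw [pn, pt, ph, hC.per_h, pp, pt1]

end Pool.Agent.Robin

end

section

/-!
# MP_4b551e_an: item R3 (algebra of support numbers)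
-/

open MeasureTheory Set Metric
open scoped ENNReal NNReal Pointwise RealInnerProductSpace

namespace Pool.Agent.Robin

namespace R3

theorem shift (N : ℕ) (f : ℤ → ℝ) (hf : ∀ i, f (i + N) = f i) :
    ∑ i ∈ Finset.range N, f ((i : ℤ) + 1) = ∑ i ∈ Finset.range N, f i := by
  have h1 := Finset.sum_range_succ (fun i : ℕ => f (i : ℤ)) N
  have h2 := Finset.sum_range_succ' (fun i : ℕ => f (i : ℤ)) N
  have h3 := hf 0
  rw [zero_add] at h3
  push_cast at h1 h2
  linarith

theorem inner_nv (o : E2) (N : ℕ) (i : ℤ) :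
    ⟪o, nv N i⟫ = o 0 * Real.cos (i * dl N) + o 1 * Real.sin (i * dl N) := by
  rw [PiLp.inner_apply]
  simp [nv, dirv, Fin.sum_univ_two]
  ring

theorem main_sum (N : ℕ) (c : ℤ → ℝ) (hN : 8 ≤ N) (hc : ∀ i, c (i + N) = c i) :
    ∑ i ∈ Finset.range N, el N c i =
      2 * Real.tan (Real.pi / N) * ∑ i ∈ Finset.range N, c i := by
  have hN' : (8 : ℝ) ≤ N := by exact_mod_cast hN
  have hpi := Real.pi_pos
  have e1 := shift N c hc
  have e2 : ∑ i ∈ Finset.range N, c ((i : ℤ) - 1) = ∑ i ∈ Finset.range N, c i := by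
    have := shift N (fun i => c (i - 1)) (fun i => by
      show c (i + N - 1) = c (i - 1)
      rw [show i + (N : ℤ) - 1 = (i - 1) + N by ring]
      exact hc _)
    simp only [add_sub_cancel_right] at this
    exact this.symm
  have e3 : ∑ i ∈ Finset.range N, el N c i =
      ((2 - 2 * Real.cos (dl N)) / Real.sin (dl N)) * ∑ i ∈ Finset.range N, c i := by
    unfold el
    rw [← Finset.sum_div, Finset.sum_sub_distrib, Finset.sum_add_distrib, e1, e2,
      ← Finset.sum_mul, ← Finset.mul_sum]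
    ring
  rw [e3]
  congr 1
  set t := Real.pi / N with ht
  have hd : dl N = 2 * t := by
    unfold dl
    rw [ht]
    ring
  have ht0 : 0 < t := by positivity
  have ht1 : t < Real.pi / 2 := by
    rw [ht, div_lt_div_iff₀ (by linarith) (by norm_num)]
    nlinarith
  have hs : 0 < Real.sin t := Real.sin_pos_of_pos_of_lt_pi ht0 (by linarith)
  have hcs : 0 < Real.cos t := Real.cos_pos_of_mem_Ioo ⟨by linarith, ht1⟩
  rw [hd, Real.cos_two_mul', Real.sin_two_mul, Real.tan_eq_sin_div_cos]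
  have h2 := Real.sin_sq_add_cos_sq t
  field_simp
  nlinarith

end R3

open R3 in
theorem prn_R3 : S_R3 := by
  intro N c hN hc
  refine ⟨main_sum N c hN hc, ?_⟩
  have hN' : (8 : ℝ) ≤ N := by exact_mod_cast hN
  have hpi := Real.pi_pos
  have hn0 : (N : ℝ) ≠ 0 := by linarith
  set t := Real.pi / N with ht
  have hd : dl N = 2 * t := by
    unfold dl
    rw [ht]
    ring
  have ht0 : 0 < t := by positivity
  have ht1 : t < Real.pi / 2 := by
    rw [ht, div_lt_div_iff₀ (by linarith) (by norm_num)]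
    nlinarith
  have hs : 0 < Real.sin t := Real.sin_pos_of_pos_of_lt_pi ht0 (by linarith)
  have hcs : 0 < Real.cos t := Real.cos_pos_of_mem_Ioo ⟨by linarith, ht1⟩
  have h2 := Real.sin_sq_add_cos_sq t
  have hsd : Real.sin (dl N) ≠ 0 := by
    rw [hd, Real.sin_two_mul]
    positivity
  intro o r
  have key : ∀ i : ℤ, ⟪o, nv N (i + 1)⟫ + ⟪o, nv N (i - 1)⟫ =
      2 * ⟪o, nv N i⟫ * Real.cos (dl N) := by
    intro i
    rw [inner_nv, inner_nv, inner_nv]
    have a1 : ((i + 1 : ℤ) : ℝ) * dl N = i * dl N + dl N := by push_cast; ring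
    have a2 : ((i - 1 : ℤ) : ℝ) * dl N = i * dl N - dl N := by push_cast; ring
    rw [a1, a2, Real.cos_add, Real.cos_sub, Real.sin_add, Real.sin_sub]
    ring
  have htan : (2 - 2 * Real.cos (dl N)) / Real.sin (dl N) = 2 * Real.tan t := by
    rw [hd, Real.cos_two_mul', Real.sin_two_mul, Real.tan_eq_sin_div_cos]
    field_simp
    nlinarith
  refine ⟨?_, ?_⟩
  · intro i
    have e : el N (fun j => c j - ⟪o, nv N j⟫ - r) i =
        el N c i - r * ((2 - 2 * Real.cos (dl N)) / Real.sin (dl N)) := by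
      unfold el
      have := key i
      field_simp
      linear_combination -this
    rw [e, htan]
    ring
  · have h3 := main_sum N (fun i => ⟪o, nv N i⟫) hN (by
      intro i
      rw [inner_nv, inner_nv]
      have : ((i + (N : ℤ) : ℤ) : ℝ) * dl N = i * dl N + 2 * Real.pi := by
        unfold dl
        push_cast
        field_simp
      rw [this, Real.cos_add_two_pi, Real.sin_add_two_pi])
    have h4 : ∑ i ∈ Finset.range N, el N (fun i => ⟪o, nv N i⟫) i = 0 := by
      refine Finset.sum_eq_zero fun i _ => ?_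
      unfold el
      have := key i
      rw [this]
      simp
    rw [h4] at h3
    have h5 : 0 < Real.tan t := Real.tan_pos_of_pos_of_lt_pi_div_two ht0 ht1
    have h6 : (2 * Real.tan t) ≠ 0 := by positivity
    rcases mul_eq_zero.mp h3.symm with h7 | h7
    · exact absurd h7 h6
    · exact h7

end Pool.Agent.Robin

end

section

/-!
# MP_4b551e_an: item R4 (closed polygons with non-negative edges)
-/

open MeasureTheory Set Metric
open scoped ENNReal NNReal Pointwise RealInnerProductSpace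

namespace Pool.Agent.Robin

namespace R4

theorem sum_window {E : Type*} [AddCommGroup E] (f : ℤ → E) (N : ℕ)
    (hp : ∀ i, f (i + N) = f i) (a : ℤ) :
    ∑ k ∈ Finset.range N, f (a + k) = ∑ k ∈ Finset.range N, f k := by
  have step : ∀ a : ℤ, ∑ k ∈ Finset.range N, f (a + 1 + k) = ∑ k ∈ Finset.range N, f (a + k) := by
    intro a
    have h1 := Finset.sum_range_succ (fun k : ℕ => f (a + k)) N
    have h2 := Finset.sum_range_succ' (fun k : ℕ => f (a + k)) N
    rw [h1] at h2
    have h3 : f (a + (N : ℕ)) = f (a + ((0 : ℕ) : ℤ)) := by rw [hp]; simp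
    rw [h3] at h2
    have h4 := add_right_cancel h2
    rw [h4]
    apply Finset.sum_congr rfl
    intro k _
    congr 1
    push_cast
    ring
  induction a using Int.induction_on with
  | zero => simp
  | succ n ih => rw [step]; exact ih
  | pred n ih =>
    rw [← ih, ← step (-(n : ℤ) - 1)]
    simp

theorem nv_per {N : ℕ} (hN : 8 ≤ N) (i : ℤ) : nv N (i + N) = nv N i := by
  have h : ((i + N : ℤ) : ℝ) * dl N = (i : ℝ) * dl N + 2 * Real.pi := by
    have : (N : ℝ) ≠ 0 := by positivity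
    unfold dl
    push_cast
    field_simp
  unfold nv dirv
  rw [h, Real.cos_add_two_pi, Real.sin_add_two_pi]

theorem tv_per {N : ℕ} (hN : 8 ≤ N) (i : ℤ) : tv N (i + N) = tv N i := by
  unfold tv
  rw [nv_per hN]

theorem el_per {N : ℕ} (c : ℤ → ℝ) (hc : ∀ i, c (i + N) = c i) (i : ℤ) :
    el N c (i + N) = el N c i := by
  unfold el
  have h1 : c (i + N + 1) = c (i + 1) := by rw [← hc (i + 1)]; congr 1; ring
  have h2 : c (i + N - 1) = c (i - 1) := by rw [← hc (i - 1)]; congr 1; ring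
  rw [h1, h2, hc]

theorem vx_per {N : ℕ} (hN : 8 ≤ N) (c : ℤ → ℝ) (hc : ∀ i, c (i + N) = c i) (i : ℤ) :
    vx N c (i + N) = vx N c i := by
  unfold vx
  have h1 : c (i + N + 1) = c (i + 1) := by rw [← hc (i + 1)]; congr 1; ring
  rw [h1, hc, nv_per hN, tv_per hN]

theorem inner_tv_nv (N : ℕ) (i j : ℤ) : ⟪tv N i, nv N j⟫ = Real.sin ((j - i) * dl N) := by
  rw [P1.inner_eq, P1.tv0, P1.tv1, P1.nv0, P1.nv1, sub_mul, Real.sin_sub]
  ring

theorem inner_tv_tv (N : ℕ) (i j : ℤ) : ⟪tv N i, tv N j⟫ = Real.cos ((j - i) * dl N) := by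
  rw [P1.inner_eq, P1.tv0, P1.tv1, P1.tv0, P1.tv1, sub_mul, Real.cos_sub]
  ring

theorem norm_tv (N : ℕ) (i : ℤ) : ‖tv N i‖ = 1 := by
  have h : ‖tv N i‖ ^ 2 = 1 := by
    rw [← real_inner_self_eq_norm_sq, inner_tv_tv]
    simp
  have h0 := norm_nonneg (tv N i)
  nlinarith

theorem norm_nv (N : ℕ) (i : ℤ) : ‖nv N i‖ = 1 := by
  have h : ‖nv N i‖ ^ 2 = 1 := by
    rw [← real_inner_self_eq_norm_sq, P1.inner_eq, P1.nv0, P1.nv1]
    nlinarith [Real.sin_sq_add_cos_sq ((i : ℝ) * dl N)]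
  have h0 := norm_nonneg (nv N i)
  nlinarith

theorem tele (h1 : T_P1) {N : ℕ} (hN : 8 ≤ N) (c : ℤ → ℝ) (a : ℤ) (n : ℕ) :
    vx N c (a + n) - vx N c a = ∑ k ∈ Finset.range n, el N c (a + 1 + k) • tv N (a + 1 + k) := by
  induction n with
  | zero => simp
  | succ n ih =>
    rw [Finset.sum_range_succ, ← ih]
    have h := (h1 N c (a + 1 + n) hN).1
    rw [← h]
    have e1 : a + 1 + (n : ℤ) - 1 = a + n := by ring
    have e2 : a + ((n + 1 : ℕ) : ℤ) = a + 1 + n := by push_cast; ring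
    rw [e1, e2]
    abel

theorem norm_sum_le' {N : ℕ} (c : ℤ → ℝ) (hel : ∀ i, 0 ≤ el N c i) (s : Finset ℕ) (a : ℤ) :
    ‖∑ k ∈ s, el N c (a + k) • tv N (a + k)‖ ≤ ∑ k ∈ s, el N c (a + k) := by
  refine (norm_sum_le _ _).trans (le_of_eq ?_)
  apply Finset.sum_congr rfl
  intro k _
  rw [norm_smul, norm_tv, mul_one, Real.norm_of_nonneg (hel _)]

end R4

open R4 in
theorem prn_R4 (h1 : T_P1) : S_R4 := by
  intro N c hN hc hel
  have hN' : (8 : ℝ) ≤ N := by exact_mod_cast hN
  have hNpos : (0 : ℝ) < N := by linarith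
  have hpi := Real.pi_pos
  have hdl0 : 0 < dl N := by unfold dl; positivity
  have hNdl : (N : ℝ) * dl N = 2 * Real.pi := by unfold dl; field_simp
  refine ⟨?_, vx N c 0, ?_⟩
  · intro i
    set e := el N c i with he
    set f := el N c (i + 1) with hf
    have hz : ∑ k ∈ Finset.range N, el N c (i + k) • tv N (i + k) = 0 := by
      have h := tele h1 hN c (i - 1) N
      rw [vx_per hN c hc, sub_self] at h
      rw [h]
      apply Finset.sum_congr rfl
      intro k _
      have : i - 1 + 1 + (k : ℤ) = i + k := by ring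
      rw [this]
    have hS : ∑ k ∈ Finset.range N, el N c (i + k) = ∑ k ∈ Finset.range N, el N c k :=
      sum_window (el N c) N (el_per c hc) i
    obtain ⟨m, rfl⟩ : ∃ m, N = m + 2 := ⟨N - 2, by omega⟩
    rw [Finset.sum_range_succ', Finset.sum_range_succ'] at hz hS
    have ei0 : i + ((0 : ℕ) : ℤ) = i := by simp
    have ei1 : i + ((0 + 1 : ℕ) : ℤ) = i + 1 := by simp
    rw [ei0, ei1] at hz hS
    have hn := norm_sum_le' c hel (Finset.range m) (i + 2)
    have e3 : ∀ k : ℕ, i + ((k + 1 + 1 : ℕ) : ℤ) = i + 2 + k := by intro k; push_cast; ring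
    simp only [e3] at hz hS
    have hw : e • tv (m + 2) i + f • tv (m + 2) (i + 1) =
        -∑ k ∈ Finset.range m, el (m + 2) c (i + 2 + k) • tv (m + 2) (i + 2 + k) := by
      rw [eq_neg_iff_add_eq_zero, ← hz]
      abel
    have hle : ‖e • tv (m + 2) i + f • tv (m + 2) (i + 1)‖ ≤
        (∑ k ∈ Finset.range (m + 2), el (m + 2) c k) - e - f := by
      rw [hw, norm_neg]
      linarith
    have hsq : ‖e • tv (m + 2) i + f • tv (m + 2) (i + 1)‖ ^ 2 =
        e ^ 2 + f ^ 2 + 2 * e * f * Real.cos (dl (m + 2)) := by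
      rw [← real_inner_self_eq_norm_sq]
      simp only [inner_add_left, inner_add_right, real_inner_smul_left, real_inner_smul_right,
        inner_tv_tv]
      have a1 : ((i : ℝ) - i) * dl (m + 2) = 0 := by ring
      have a2 : (((i + 1 : ℤ) : ℝ) - ((i + 1 : ℤ) : ℝ)) * dl (m + 2) = 0 := by ring
      have a3 : (((i + 1 : ℤ) : ℝ) - i) * dl (m + 2) = dl (m + 2) := by push_cast; ring
      have a4 : ((i : ℝ) - ((i + 1 : ℤ) : ℝ)) * dl (m + 2) = -dl (m + 2) := by push_cast; ring
      rw [a1, a2, a3, a4, Real.cos_neg, Real.cos_zero]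
      ring
    have hpiN : dl (m + 2) = 2 * (Real.pi / ((m + 2 : ℕ) : ℝ)) := by unfold dl; ring
    set x := Real.pi / ((m + 2 : ℕ) : ℝ) with hx
    have hcos : Real.cos (dl (m + 2)) = 2 * Real.cos x ^ 2 - 1 := by
      rw [hpiN, Real.cos_two_mul]
    have he0 : 0 ≤ e := hel i
    have hf0 : 0 ≤ f := hel (i + 1)
    have hcx1 : Real.cos x ≤ 1 := Real.cos_le_one x
    have hcx2 : Real.cos x ^ 2 ≤ 1 := Real.cos_sq_le_one x
    have hA : ((e + f) * Real.cos x) ^ 2 ≤
        ‖e • tv (m + 2) i + f • tv (m + 2) (i + 1)‖ ^ 2 := by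
      rw [hsq, hcos]
      nlinarith [mul_nonneg (sub_nonneg.2 hcx2) (sq_nonneg (e - f))]
    have hB : (e + f) * Real.cos x ≤ ‖e • tv (m + 2) i + f • tv (m + 2) (i + 1)‖ :=
      abs_le_of_sq_le_sq' hA (norm_nonneg _) |>.2
    have : (e + f) * (1 + Real.cos x) = (e + f) + (e + f) * Real.cos x := by ring
    rw [this]
    linarith
  · intro j
    -- reduce to `0 ≤ j < N`
    have hredc : ∀ (q : ℤ) (f : ℤ → ℝ), (∀ i, f (i + N) = f i) → ∀ i, f (i + N * q) = f i := by
      intro q f hf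
      induction q using Int.induction_on with
      | zero => intro i; simp
      | succ n ih =>
        intro i
        have : i + (N : ℤ) * ((n : ℤ) + 1) = i + N * n + N := by ring
        rw [this, hf, ih]
      | pred n ih =>
        intro i
        have : i + (N : ℤ) * (-(n : ℤ) - 1) + N = i + N * (-(n : ℤ)) := by ring
        rw [← hf, this, ih]
    have hG : ∀ i : ℤ, (fun i : ℤ => c i - ⟪vx N c 0, nv N i⟫) (i + N) =
        (fun i : ℤ => c i - ⟪vx N c 0, nv N i⟫) i := by
      intro i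
      simp only [hc, nv_per hN]
    obtain ⟨j', hj', hjN⟩ : ∃ j' : ℕ, j' < N ∧ c j - ⟪vx N c 0, nv N j⟫ =
        c j' - ⟪vx N c 0, nv N j'⟫ := by
      have hNz : (0 : ℤ) < N := by omega
      refine ⟨(j % N).toNat, ?_, ?_⟩
      · have := Int.emod_lt_of_pos j hNz
        have h2 := Int.emod_nonneg j hNz.ne'
        omega
      · have h2 := Int.emod_nonneg j hNz.ne'
        have h3 : (((j % N).toNat : ℕ) : ℤ) = j % N := Int.toNat_of_nonneg h2
        rw [h3]
        have h4 := hredc (j / N) (fun i : ℤ => c i - ⟪vx N c 0, nv N i⟫) hG (j % N)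
        rw [← h4, Int.emod_add_mul_ediv]
    have key : 0 ≤ c j' - ⟪vx N c 0, nv N j'⟫ ∧ c j' - ⟪vx N c 0, nv N j'⟫ ≤
        (∑ j ∈ Finset.range N, el N c j) / 2 := by
      have hP := (h1 N c j' hN).2.1
      have hD : c j' - ⟪vx N c 0, nv N j'⟫ = ⟪vx N c j' - vx N c 0, nv N j'⟫ := by
        rw [inner_sub_left, hP]
      have t1 := tele h1 hN c 0 j'
      have t2 := tele h1 hN c j' (N - j')
      have e1 : (j' : ℤ) + ((N - j' : ℕ) : ℤ) = 0 + N := by omega
      rw [e1, vx_per hN c hc] at t2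
      rw [zero_add] at t1
      have hsum : ∑ k ∈ Finset.range j', el N c (0 + 1 + k) +
          ∑ k ∈ Finset.range (N - j'), el N c (j' + 1 + k) = ∑ k ∈ Finset.range N, el N c k := by
        rw [← sum_window (el N c) N (el_per c hc) 1]
        have e2 : j' + (N - j') = N := by omega
        have e3 := Finset.sum_range_add (fun k : ℕ => el N c (1 + (k : ℤ))) j' (N - j')
        rw [e2] at e3
        rw [e3]
        congr 1
        apply Finset.sum_congr rfl
        intro k _
        congr 1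
        push_cast
        ring
      have n1 := norm_sum_le' c hel (Finset.range j') (0 + 1)
      have n2 := norm_sum_le' c hel (Finset.range (N - j')) (j' + 1)
      rw [← t1] at n1
      rw [← t2] at n2
      rw [norm_sub_rev] at n2
      have hcs : ⟪vx N c j' - vx N c 0, nv N j'⟫ ≤ ‖vx N c j' - vx N c 0‖ := by
        have := real_inner_le_norm (vx N c j' - vx N c 0) (nv N j')
        rw [norm_nv, mul_one] at this
        exact this
      refine ⟨?_, ?_⟩
      · rw [hD]
        rcases le_total (2 * j') N with h2 | h2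
        · rw [t1, sum_inner]
          apply Finset.sum_nonneg
          intro k hk
          rw [Finset.mem_range] at hk
          rw [real_inner_smul_left, inner_tv_nv]
          apply mul_nonneg (hel _)
          apply Real.sin_nonneg_of_nonneg_of_le_pi
          · apply mul_nonneg _ hdl0.le
            have : (k : ℝ) + 1 ≤ j' := by exact_mod_cast hk
            push_cast
            linarith
          · have h3 : (2 : ℝ) * j' ≤ N := by exact_mod_cast h2
            have : ((j' : ℤ) : ℝ) - ((0 + 1 + (k : ℤ) : ℤ) : ℝ) ≤ N / 2 := by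
              push_cast
              have : (0 : ℝ) ≤ k := by positivity
              linarith
            calc _ ≤ (N : ℝ) / 2 * dl N := mul_le_mul_of_nonneg_right this hdl0.le
              _ = Real.pi := by linarith
        · have e4 : vx N c j' - vx N c 0 = -(vx N c 0 - vx N c j') := by abel
          rw [e4, t2, inner_neg_left, sum_inner, ← Finset.sum_neg_distrib]
          apply Finset.sum_nonneg
          intro k hk
          rw [Finset.mem_range] at hk
          rw [real_inner_smul_left, inner_tv_nv, ← mul_neg, ← Real.sin_neg, ← neg_mul]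
          apply mul_nonneg (hel _)
          apply Real.sin_nonneg_of_nonneg_of_le_pi
          · apply mul_nonneg _ hdl0.le
            have : (0 : ℝ) ≤ k := by positivity
            push_cast
            linarith
          · have h3 : (N : ℝ) ≤ 2 * j' := by exact_mod_cast h2
            have h4 : k + 1 + j' ≤ N := by omega
            have h5 : (k : ℝ) + 1 + j' ≤ N := by exact_mod_cast h4
            have : -(((j' : ℤ) : ℝ) - (((j' : ℤ) + 1 + (k : ℤ) : ℤ) : ℝ)) ≤ N / 2 := by
              push_cast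
              linarith
            calc _ ≤ (N : ℝ) / 2 * dl N := mul_le_mul_of_nonneg_right this hdl0.le
              _ = Real.pi := by linarith
      · rw [hD]
        linarith
    rw [← hjN] at key
    exact ⟨by linarith [key.1], key.2⟩

end Pool.Agent.Robin

end

section

/-!
# MP_4b551e_an: item R6 (inner and outer discs of the hull)
-/

open MeasureTheory Set Metric
open scoped ENNReal NNReal Pointwise RealInnerProductSpace

namespace Pool.Agent.Robin

namespace R6

theorem inner_eq (x y : E2) : ⟪x, y⟫ = x 0 * y 0 + x 1 * y 1 := by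
  rw [EuclideanSpace.inner_eq_star_dotProduct]
  simp [dotProduct, Fin.sum_univ_two, mul_comm]

theorem norm_dirv (θ : ℝ) : ‖dirv θ‖ = 1 := by
  rw [EuclideanSpace.norm_eq, Fin.sum_univ_two]
  simp [dirv]

theorem norm_rot_dirv (θ : ℝ) : ‖rot (dirv θ)‖ = 1 := by
  rw [EuclideanSpace.norm_eq, Fin.sum_univ_two]
  simp [dirv, rot]

theorem polar (x : E2) : ∃ θ : ℝ, x = ‖x‖ • dirv θ := by
  by_cases hx : ‖x‖ = 0
  · refine ⟨0, ?_⟩
    rw [hx]
    simp only [zero_smul]
    exact norm_eq_zero.1 hx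
  · have hx' : ‖x‖ ^ 2 = x 0 ^ 2 + x 1 ^ 2 := by
      rw [EuclideanSpace.norm_sq_eq, Fin.sum_univ_two]
      simp
    set z : ℂ := ⟨x 0 / ‖x‖, x 1 / ‖x‖⟩ with hz
    have hz1 : ‖z‖ = 1 := by
      have : ‖z‖ ^ 2 = 1 := by
        rw [Complex.sq_norm, Complex.normSq_mk]
        field_simp
        nlinarith
      have h0 := norm_nonneg z
      nlinarith
    have hz0 : z ≠ 0 := by
      intro h
      rw [h] at hz1
      simp at hz1
    refine ⟨Complex.arg z, ?_⟩
    have hc := Complex.cos_arg hz0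
    have hs := Complex.sin_arg z
    rw [hz1, div_one] at hc hs
    ext j
    fin_cases j
    · change x 0 = ‖x‖ * Real.cos (Complex.arg z)
      rw [hc]
      change x 0 = ‖x‖ * (x 0 / ‖x‖)
      field_simp
    · change x 1 = ‖x‖ * Real.sin (Complex.arg z)
      rw [hs]
      change x 1 = ‖x‖ * (x 1 / ‖x‖)
      field_simp

theorem dirv_add (a f : ℝ) : dirv (a + f) = Real.cos f • dirv a + Real.sin f • rot (dirv a) := by
  ext j
  fin_cases j
  · simp [dirv, rot, Real.cos_add]; ring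
  · simp [dirv, rot, Real.sin_add]; ring

theorem inner_dirv_dirv (a b : ℝ) : ⟪dirv a, dirv b⟫ = Real.cos (a - b) := by
  rw [inner_eq]
  simp [dirv, Real.cos_sub]

end R6

open R6 in
theorem prn_R6 (_hr2 : S_R2) : S_R6 := by
  intro G n h p o r D hGo hGb hC hr hD hrD
  have hn4 : (4 : ℝ) ≤ n := by exact_mod_cast hC.n_le
  have hn0 : (0 : ℝ) < n := by linarith
  have hpi := Real.pi_pos
  have hd : dl (2 * n) = Real.pi / n := by
    unfold dl
    push_cast
    field_simp
  have hdn : Real.pi / n ≤ Real.pi / 4 := by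
    apply div_le_div_of_nonneg_left hpi.le (by norm_num) hn4
  have hd0 : 0 < Real.pi / n := by positivity
  have hd2 : Real.pi / (2 * n) = Real.pi / n / 2 := by field_simp
  have hc2 : 0 < Real.cos (Real.pi / (2 * n)) := by
    rw [hd2]
    apply Real.cos_pos_of_mem_Ioo
    constructor <;> linarith
  have hcn : 0 < Real.cos (Real.pi / n) := by
    apply Real.cos_pos_of_mem_Ioo
    constructor <;> linarith
  have hle : ∀ x ∈ hull G, ∀ i, ⟪x, nv (2 * n) i⟫ ≤ h i := by
    intro x hx i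
    have hconv : Convex ℝ {y : E2 | ⟪y, nv (2 * n) i⟫ ≤ h i} := by
      intro a ha b hb s t hs ht hst
      change ⟪s • a + t • b, nv (2 * n) i⟫ ≤ h i
      change ⟪a, nv (2 * n) i⟫ ≤ h i at ha
      change ⟪b, nv (2 * n) i⟫ ≤ h i at hb
      rw [inner_add_left, inner_smul_left, inner_smul_left]
      simp only [conj_trivial]
      have h1 := mul_le_mul_of_nonneg_left ha hs
      have h2 := mul_le_mul_of_nonneg_left hb ht
      have h3 : s * h i + t * h i = h i := by rw [← add_mul, hst, one_mul]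
      linarith
    exact convexHull_min (fun y hy => hC.le i y hy) hconv hx
  have hout : ∀ x ∈ hull G, ‖x - o‖ ≤ (r + D) / Real.cos (Real.pi / (2 * n)) := by
    intro x hx
    obtain ⟨θ, hθ⟩ := polar (x - o)
    set i : ℤ := round (θ / (Real.pi / n)) with hi
    have h1 : |θ / (Real.pi / n) - i| ≤ 1 / 2 := abs_sub_round _
    have h2 : |θ - i * (Real.pi / n)| ≤ Real.pi / n / 2 := by
      have : θ - i * (Real.pi / n) = (θ / (Real.pi / n) - i) * (Real.pi / n) := by
        field_simp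
      rw [this, abs_mul, abs_of_pos hd0]
      nlinarith
    have h3 : Real.cos (Real.pi / (2 * n)) ≤ Real.cos (θ - i * (Real.pi / n)) := by
      rw [hd2, ← Real.cos_abs (θ - i * (Real.pi / n))]
      apply Real.cos_le_cos_of_nonneg_of_le_pi (abs_nonneg _) (by linarith) h2
    have h4 : ⟪x - o, nv (2 * n) i⟫ ≤ r + D := by
      rw [inner_sub_left]
      linarith [hle x hx i, (hrD i).2]
    have h5 : ⟪x - o, nv (2 * n) i⟫ = ‖x - o‖ * Real.cos (θ - i * (Real.pi / n)) := by
      conv_lhs => rw [hθ]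
      rw [inner_smul_left, nv, inner_dirv_dirv, hd]
      simp
    rw [le_div_iff₀ hc2]
    have h6 := norm_nonneg (x - o)
    nlinarith
  refine ⟨fun x hx => by rw [mem_closedBall, dist_eq_norm]; exact hout x hx, ?_⟩
  intro x hx
  by_contra hxn
  rw [mem_closedBall, dist_eq_norm] at hx
  have hcomp : IsCompact (hull G) := by
    unfold hull
    exact K2.isCompact_convexHull hGb.isCompact_closure
  have hconvH : Convex ℝ (hull G) := convex_convexHull ℝ _
  obtain ⟨f, u, hfu, hux⟩ := geometric_hahn_banach_closed_point hconvH hcomp.isClosed hxn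
  set w : E2 := (InnerProductSpace.toDual ℝ E2).symm f with hw
  have hfw : ∀ y, f y = ⟪w, y⟫ := by
    intro y
    rw [hw, InnerProductSpace.toDual_symm_apply]
  obtain ⟨θ, hθ⟩ := polar w
  have hsub : ∀ y ∈ closure G, y ∈ hull G := fun y hy => subset_convexHull ℝ _ hy
  have hw0 : 0 < ‖w‖ := by
    rcases (norm_nonneg w).lt_or_eq with h0 | h0
    · exact h0
    · exfalso
      have hw' : w = 0 := norm_eq_zero.1 h0.symm
      have h1 := hfu (p 0) (hsub _ (hC.mem 0))
      rw [hfw, hw', inner_zero_left] at h1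
      rw [hfw, hw', inner_zero_left] at hux
      linarith
  set i : ℤ := ⌊θ / (Real.pi / n)⌋ with hi
  set g : ℝ := θ - i * (Real.pi / n) with hg
  have hg0 : 0 ≤ g := by
    have h1 := Int.floor_le (θ / (Real.pi / n))
    rw [le_div_iff₀ hd0, ← hi] at h1
    rw [hg]
    linarith
  have hg1 : g < Real.pi / n := by
    have h1 := Int.lt_floor_add_one (θ / (Real.pi / n))
    rw [div_lt_iff₀ hd0, ← hi] at h1
    rw [hg]
    linarith
  have hp1 : f (p i) < f x := lt_trans (hfu (p i) (hsub _ (hC.mem i))) hux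
  have hp2 : ⟪p i, dirv θ⟫ < ⟪x, dirv θ⟫ := by
    rw [hfw, hfw, hθ, inner_smul_left, inner_smul_left] at hp1
    simp only [conj_trivial] at hp1
    rw [real_inner_comm (p i), real_inner_comm x] at hp1
    exact lt_of_mul_lt_mul_left hp1 hw0.le
  have hθi : θ = i * dl (2 * n) + g := by
    rw [hd, hg]; ring
  have hp3 : ⟪p i - o, dirv θ⟫ =
      Real.cos g * ⟪p i - o, nv (2 * n) i⟫ + Real.sin g * ⟪p i - o, tv (2 * n) i⟫ := by
    rw [hθi, dirv_add, inner_add_right, inner_smul_right, inner_smul_right]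
    rfl
  have hp4 : r ≤ ⟪p i - o, nv (2 * n) i⟫ := by
    rw [inner_sub_left, hC.touch i]
    exact (hrD i).1
  have hcosg : Real.cos (Real.pi / n) ≤ Real.cos g :=
    Real.cos_le_cos_of_nonneg_of_le_pi hg0 (by linarith) hg1.le
  have hsing : Real.sin g ≤ Real.sin (Real.pi / n) :=
    Real.sin_le_sin_of_le_of_le_pi_div_two (by linarith) (by linarith) hg1.le
  have hsing0 : 0 ≤ Real.sin g := Real.sin_nonneg_of_nonneg_of_le_pi hg0 (by linarith)
  have hp5 : |⟪p i - o, tv (2 * n) i⟫| ≤ ‖p i - o‖ := by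
    have h1 := abs_real_inner_le_norm (p i - o) (tv (2 * n) i)
    have h2 : ‖tv (2 * n) i‖ = 1 := norm_rot_dirv _
    rw [h2, mul_one] at h1
    exact h1
  have hp6 := hout (p i) (hsub _ (hC.mem i))
  have hp7 : r * Real.cos (Real.pi / n) ≤ Real.cos g * ⟪p i - o, nv (2 * n) i⟫ := by
    nlinarith
  have hp8 : -(Real.sin (Real.pi / n) * ((r + D) / Real.cos (Real.pi / (2 * n)))) ≤
      Real.sin g * ⟪p i - o, tv (2 * n) i⟫ := by
    have h1 : -‖p i - o‖ ≤ ⟪p i - o, tv (2 * n) i⟫ := by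
      have := neg_abs_le ⟪p i - o, tv (2 * n) i⟫
      linarith
    have h2 : Real.sin g * ‖p i - o‖ ≤
        Real.sin (Real.pi / n) * ((r + D) / Real.cos (Real.pi / (2 * n))) :=
      mul_le_mul hsing hp6 (norm_nonneg _) (hsing0.trans hsing)
    nlinarith
  have hx1 : ⟪x - o, dirv θ⟫ ≤ ‖x - o‖ := by
    have h1 := real_inner_le_norm (x - o) (dirv θ)
    rw [norm_dirv, mul_one] at h1
    exact h1
  have hx2 : ⟪p i - o, dirv θ⟫ < ⟪x - o, dirv θ⟫ := by
    rw [inner_sub_left, inner_sub_left]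
    linarith
  linarith

end Pool.Agent.Robin

end

section

/-!
# MP_4b551e_an: item R7 (monotonicity of contact points)
-/

open MeasureTheory Set Metric
open scoped ENNReal NNReal Pointwise RealInnerProductSpace

namespace Pool.Agent.Robin

theorem prn_R7 : S_R7 := by
  intro z z' θ θ' m h1 h2 h3 h4 h5 h6
  set w := z' - z with hw
  have i1 : ⟪w, dirv θ⟫ = w 0 * Real.cos θ + w 1 * Real.sin θ := by
    rw [PiLp.inner_apply]
    simp [dirv, Fin.sum_univ_two]
    ring
  have i2 : ⟪w, dirv θ'⟫ = w 0 * Real.cos θ' + w 1 * Real.sin θ' := by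
    rw [PiLp.inner_apply]
    simp [dirv, Fin.sum_univ_two]
    ring
  have i3 : ⟪w, rot (dirv m)⟫ = w 1 * Real.cos m - w 0 * Real.sin m := by
    rw [PiLp.inner_apply]
    simp [dirv, rot, Fin.sum_univ_two]
    ring
  rw [i1] at h5
  rw [i2] at h6
  rw [i3]
  have hS : 0 < Real.sin (θ' - θ) := Real.sin_pos_of_pos_of_lt_pi (by linarith) (by linarith)
  have c1 : 0 ≤ Real.cos (m - θ) :=
    Real.cos_nonneg_of_neg_pi_div_two_le_of_le (by linarith) (by linarith)
  have c2 : 0 ≤ Real.cos (θ' - m) :=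
    Real.cos_nonneg_of_neg_pi_div_two_le_of_le (by linarith) (by linarith)
  have key : Real.sin (θ' - θ) * (w 1 * Real.cos m - w 0 * Real.sin m) =
      Real.cos (m - θ) * (w 0 * Real.cos θ' + w 1 * Real.sin θ') -
        Real.cos (θ' - m) * (w 0 * Real.cos θ + w 1 * Real.sin θ) := by
    rw [Real.sin_sub, Real.cos_sub, Real.cos_sub]
    ring
  have h7 : 0 ≤ Real.sin (θ' - θ) * (w 1 * Real.cos m - w 0 * Real.sin m) := by
    rw [key]
    have a1 := mul_nonneg c1 h6
    have a2 := mul_nonneg c2 (neg_nonneg.mpr h5)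
    linarith
  exact nonneg_of_mul_nonneg_right h7 hS

end Pool.Agent.Robin

end
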