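import Pool.Agent.Work.MP_4b551e_an.Stmts29
import Pool.Agent.Work.MP_4b551e_an.Bd.B03
import Pool.Agent.Work.MP_4b551e_an.Stmts35
import Pool.Agent.Work.MP_4b551e_an.Bd.B01

/-! Bundle of small proof modules (one section per former module). -/

section

/-!
# Monotonicity of the column condition
-/

namespace Pool.Agent.Robin

theorem pr_Theta : T_Theta := by
  intro k U₁ U₂ hk1 hk2 hU hUU h
  by_contra hcon
  rw [not_le] at hcon
  rcases hUU.eq_or_lt with rfl | hlt
  · exact absurd h (not_le.mpr hcon)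
  rcases hU.eq_or_lt with h1 | h1
  · rw [← h1, Real.log_one] at h
    linarith
  -- `U₁ = (1 - s) + s U₂`
  have hU2 : 0 < U₂ - 1 := by linarith
  set s := (U₁ - 1) / (U₂ - 1) with hs
  have hs0 : 0 < s := div_pos (by linarith) hU2
  have hs1 : s ≤ 1 := (div_le_one hU2).mpr (by linarith)
  have hsU : s * (U₂ - 1) = U₁ - 1 := div_mul_cancel₀ _ hU2.ne'
  have hc := strictConcaveOn_log_Ioi.concaveOn.2 (Set.mem_Ioi.mpr (one_pos : (0 : ℝ) < 1))
    (Set.mem_Ioi.mpr (by linarith : (0 : ℝ) < U₂)) (by linarith : 0 ≤ 1 - s) hs0.le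
    (by ring : (1 - s) + s = 1)
  have e1 : (1 - s) • (1 : ℝ) + s • U₂ = U₁ := by
    simp only [smul_eq_mul]
    linarith
  rw [e1, Real.log_one] at hc
  simp only [smul_eq_mul, mul_zero, zero_add] at hc
  have h2 : 3 / 5 * k * (s * Real.log U₂) ≤ 3 / 5 * k * Real.log U₁ :=
    mul_le_mul_of_nonneg_left hc (by linarith)
  have h3 : s * ((k - 1) * U₂ - 3 / 5 * k * Real.log U₂) < s * (6 / 5) :=
    mul_lt_mul_of_pos_left hcon hs0
  have h4 : (k - 1) * U₁ = (k - 1) * (1 - s) + s * ((k - 1) * U₂) := by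
    have : U₁ = 1 + s * (U₂ - 1) := by linarith
    rw [this]; ring
  have h5 : (k - 1) * (1 - s) ≤ 6 / 5 * (1 - s) :=
    mul_le_mul_of_nonneg_right (by linarith) (by linarith)
  nlinarith

end Pool.Agent.Robin

end

section

/-!
# MP_4b551e_an: item U0 (existence of the nearest point projection)
-/

open MeasureTheory Set Metric
open scoped ENNReal NNReal Pointwise RealInnerProductSpace

namespace Pool.Agent.Robin

theorem pr_U0 : T_U0 := by
  intro D hD hc hne
  have h : ∀ x : E2, ∃ v ∈ D, ∀ y ∈ D, ⟪x - v, y - v⟫ ≤ 0 := by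
    intro x
    obtain ⟨v, hv, hv'⟩ := exists_norm_eq_iInf_of_complete_convex hne hD.isComplete hc x
    exact ⟨v, hv, (norm_eq_iInf_iff_real_inner_le_zero hc hv).1 hv'⟩
  choose P hP using h
  exact ⟨P, hP⟩

end Pool.Agent.Robin

end

section

/-!
# MP_4b551e_an: item U0b (the nearest point projection is 1-Lipschitz)
-/

open MeasureTheory Set Metric
open scoped ENNReal NNReal Pointwise RealInnerProductSpace

namespace Pool.Agent.Robin

theorem pr_U0b : T_U0b := by
  intro D P hP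
  have key : ∀ x y : E2, ‖x - y‖ ^ 2 = ‖(x - P x) - (y - P y)‖ ^ 2 + ‖P x - P y‖ ^ 2 +
      2 * ⟪(x - P x) - (y - P y), P x - P y⟫ ∧ 0 ≤ ⟪(x - P x) - (y - P y), P x - P y⟫ := by
    intro x y
    constructor
    · have e : x - y = ((x - P x) - (y - P y)) + (P x - P y) := by abel
      rw [e, norm_add_sq_real]
      ring
    · have h1 := (hP x).2 (P y) (hP y).1
      have h2 := (hP y).2 (P x) (hP x).1
      have e : ⟪(x - P x) - (y - P y), P x - P y⟫ =
          -⟪x - P x, P y - P x⟫ - ⟪y - P y, P x - P y⟫ := by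
        rw [inner_sub_left, ← inner_neg_right, neg_sub]
      rw [e]; linarith
  refine ⟨fun x y => ?_, fun x y => ?_, fun x => ?_⟩
  · obtain ⟨h1, h2⟩ := key x y
    apply le_of_sq_le_sq _ (norm_nonneg _)
    nlinarith [sq_nonneg ‖(x - P x) - (y - P y)‖]
  · obtain ⟨h1, h2⟩ := key x y
    apply le_of_sq_le_sq _ (norm_nonneg _)
    nlinarith [sq_nonneg ‖P x - P y‖]
  · apply le_antisymm
    · rw [← dist_eq_norm]
      exact infDist_le_dist_of_mem (hP x).1
    · refine (le_infDist ⟨P x, (hP x).1⟩).2 fun z hz => ?_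
      rw [dist_eq_norm]
      apply le_of_sq_le_sq _ (norm_nonneg _)
      have h1 := (hP x).2 z hz
      have e : x - z = (x - P x) - (z - P x) := by abel
      have e2 : ‖x - z‖ ^ 2 = ‖x - P x‖ ^ 2 - 2 * ⟪x - P x, z - P x⟫ + ‖z - P x‖ ^ 2 := by
        rw [e]; exact norm_sub_sq_real _ _
      nlinarith [sq_nonneg ‖z - P x‖]

end Pool.Agent.Robin

end

section

/-!
# MP_4b551e_an: item U1 (the baseline function is Lipschitz and at least 1)
-/

open MeasureTheory Set Metric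
open scoped ENNReal NNReal Pointwise RealInnerProductSpace

namespace Pool.Agent.Robin

namespace U1

/-- Bounded Lipschitz functions. -/
def BL {F : Type*} [NormedAddCommGroup F] (f : E2 → F) : Prop :=
  ∃ K M : ℝ, 0 ≤ K ∧ 0 ≤ M ∧ (∀ x y, ‖f x - f y‖ ≤ K * ‖x - y‖) ∧ ∀ x, ‖f x‖ ≤ M

theorem BL.add {F : Type*} [NormedAddCommGroup F] {f g : E2 → F} (hf : BL f) (hg : BL g) :
    BL (fun x => f x + g x) := by
  obtain ⟨K, M, hK, hM, h1, h2⟩ := hf
  obtain ⟨K', M', hK', hM', h1', h2'⟩ := hg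
  refine ⟨K + K', M + M', by positivity, by positivity, fun x y => ?_, fun x => ?_⟩
  · have e : f x + g x - (f y + g y) = (f x - f y) + (g x - g y) := by abel
    rw [e, add_mul]
    exact (norm_add_le _ _).trans (add_le_add (h1 x y) (h1' x y))
  · exact (norm_add_le _ _).trans (add_le_add (h2 x) (h2' x))

theorem BL.const {F : Type*} [NormedAddCommGroup F] (c : F) : BL (fun _ : E2 => c) :=
  ⟨0, ‖c‖, le_rfl, norm_nonneg _, fun x y => by simp, fun x => le_rfl⟩

theorem BL.mul {f g : E2 → ℝ} (hf : BL f) (hg : BL g) : BL (fun x => f x * g x) := by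
  obtain ⟨K, M, hK, hM, h1, h2⟩ := hf
  obtain ⟨K', M', hK', hM', h1', h2'⟩ := hg
  refine ⟨K * M' + M * K', M * M', by positivity, by positivity, fun x y => ?_, fun x => ?_⟩
  · have e : f x * g x - f y * g y = (f x - f y) * g x + f y * (g x - g y) := by ring
    rw [e]
    refine (norm_add_le _ _).trans ?_
    rw [norm_mul, norm_mul]
    have a1 : ‖f x - f y‖ * ‖g x‖ ≤ (K * ‖x - y‖) * M' :=
      mul_le_mul (h1 x y) (h2' x) (norm_nonneg _) (by positivity)
    have a2 : ‖f y‖ * ‖g x - g y‖ ≤ M * (K' * ‖x - y‖) :=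
      mul_le_mul (h2 y) (h1' x y) (norm_nonneg _) hM
    calc _ ≤ (K * ‖x - y‖) * M' + M * (K' * ‖x - y‖) := add_le_add a1 a2
      _ = _ := by ring
  · rw [norm_mul]
    exact mul_le_mul (h2 x) (h2' x) (norm_nonneg _) hM

theorem BL.inner {f g : E2 → E2} (hf : BL f) (hg : BL g) :
    BL (fun x => (⟪f x, g x⟫ : ℝ)) := by
  obtain ⟨K, M, hK, hM, h1, h2⟩ := hf
  obtain ⟨K', M', hK', hM', h1', h2'⟩ := hg
  refine ⟨K * M' + M * K', M * M', by positivity, by positivity, fun x y => ?_, fun x => ?_⟩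
  · have e : ⟪f x, g x⟫ - ⟪f y, g y⟫ = ⟪f x - f y, g x⟫ + ⟪f y, g x - g y⟫ := by
      rw [inner_sub_left, inner_sub_right]; ring
    rw [e]
    refine (norm_add_le _ _).trans ?_
    have a1 : ‖⟪f x - f y, g x⟫‖ ≤ (K * ‖x - y‖) * M' :=
      (norm_inner_le_norm _ _).trans
        (mul_le_mul (h1 x y) (h2' x) (norm_nonneg _) (by positivity))
    have a2 : ‖⟪f y, g x - g y⟫‖ ≤ M * (K' * ‖x - y‖) :=
      (norm_inner_le_norm _ _).trans (mul_le_mul (h2 y) (h1' x y) (norm_nonneg _) hM)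
    calc _ ≤ (K * ‖x - y‖) * M' + M * (K' * ‖x - y‖) := add_le_add a1 a2
      _ = _ := by ring
  · exact (norm_inner_le_norm _ _).trans (mul_le_mul (h2 x) (h2' x) (norm_nonneg _) hM)

theorem dw_bound (w : Profile) : ∃ M : ℝ, 0 ≤ M ∧ ∀ s, 0 ≤ s → |w.dw s| ≤ M := by
  have hc : ContinuousOn w.dw (Icc 0 w.σ) := w.dw_cont.mono Icc_subset_Ici_self
  obtain ⟨M, hM⟩ := (isCompact_Icc.exists_bound_of_continuousOn hc)
  refine ⟨max M 0, le_max_right _ _, fun s hs => ?_⟩
  by_cases h : s ≤ w.σ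
  · exact (hM s ⟨hs, h⟩).trans (le_max_left _ _)
  · rw [w.dw_zero s (not_le.1 h).le]
    simp

theorem w_lip (w : Profile) : ∃ K : ℝ, 0 ≤ K ∧ ∀ s t, |w.w s - w.w t| ≤ K * |s - t| := by
  obtain ⟨M, hM0, hM⟩ := dw_bound w
  have h1 : LipschitzOnWith (Real.toNNReal M) w.w (Ioi 0) := by
    apply Convex.lipschitzOnWith_of_nnnorm_hasDerivWithin_le (convex_Ioi 0)
      (f' := w.dw) (fun x hx => (w.deriv x hx).hasDerivWithinAt)
    intro x hx
    rw [← NNReal.coe_le_coe, coe_nnnorm, Real.coe_toNNReal _ hM0]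
    exact hM x (le_of_lt hx)
  have h2 : LipschitzOnWith (Real.toNNReal M) w.w (closure (Ioi 0)) :=
    h1.closure w.w_cont.continuousOn
  rw [closure_Ioi] at h2
  refine ⟨M, hM0, fun s t => ?_⟩
  have e : ∀ s, w.w s = w.w (max s 0) := by
    intro s
    by_cases h : s ≤ 0
    · rw [max_eq_right h, w.neg s h]
    · rw [max_eq_left (not_le.1 h).le]
  rw [e s, e t]
  have h3 := h2.dist_le_mul (max s 0) (mem_Ici.2 (le_max_right _ _)) (max t 0)
    (mem_Ici.2 (le_max_right _ _))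
  rw [Real.dist_eq, Real.dist_eq, Real.coe_toNNReal _ hM0] at h3
  refine h3.trans (mul_le_mul_of_nonneg_left ?_ hM0)
  exact abs_max_sub_max_le_abs s t 0

theorem w_bound (w : Profile) : ∃ M : ℝ, 0 ≤ M ∧ ∀ s, |w.w s| ≤ M := by
  have hc : ContinuousOn w.w (Icc 0 w.σ) := w.w_cont.continuousOn
  obtain ⟨M, hM⟩ := (isCompact_Icc.exists_bound_of_continuousOn hc)
  refine ⟨max M 1, le_trans zero_le_one (le_max_right _ _), fun s => ?_⟩
  by_cases h0 : s ≤ 0
  · rw [w.neg s h0]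
    exact (hM 0 ⟨le_rfl, w.σ_pos.le⟩).trans (le_max_left _ _)
  · by_cases h : s ≤ w.σ
    · exact (hM s ⟨(not_le.1 h0).le, h⟩).trans (le_max_left _ _)
    · rw [w.eq_one s (not_le.1 h).le]
      simp

theorem Yp_eq (w : Profile) {r₀ d₁ : ℝ} (h : r₀ ≤ d₁) (d : ℝ) :
    Yp w r₀ d₁ d = (w.w (r₀ - d)) * (w.w (r₀ - d)) *
      Real.exp (2 * (min (max d r₀) d₁ - r₀)) - 1 := by
  unfold Yp
  split_ifs with hd
  · rw [max_eq_right hd, min_eq_left h]
    simp [sq]
  · push Not at hd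
    rw [max_eq_left hd.le, w.neg (r₀ - d) (by linarith)]
    ring

theorem exp_sub_le {a b M : ℝ} (ha : a ≤ M) (hb : b ≤ M) :
    |Real.exp a - Real.exp b| ≤ Real.exp M * |a - b| := by
  have key : ∀ a b : ℝ, a ≤ M → b ≤ a → Real.exp a - Real.exp b ≤ Real.exp M * |a - b| := by
    intro a b ha hab
    have h1 := Real.add_one_le_exp (b - a)
    have h2 : Real.exp b = Real.exp a * Real.exp (b - a) := by rw [← Real.exp_add]; ring_nf
    rw [abs_of_nonneg (by linarith)]
    have h3 := Real.exp_le_exp.2 ha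
    have h4 := Real.exp_pos a
    calc Real.exp a - Real.exp b = Real.exp a * (1 - Real.exp (b - a)) := by rw [h2]; ring
      _ ≤ Real.exp a * (a - b) := by apply mul_le_mul_of_nonneg_left _ h4.le; linarith
      _ ≤ Real.exp M * (a - b) := mul_le_mul_of_nonneg_right h3 (by linarith)
  rcases le_total b a with hab | hab
  · rw [abs_of_nonneg (sub_nonneg.2 (Real.exp_le_exp.2 hab))]
    exact key a b ha hab
  · rw [abs_sub_comm, abs_of_nonneg (sub_nonneg.2 (Real.exp_le_exp.2 hab)), abs_sub_comm a b]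
    exact key b a hb hab

theorem z_lip {m : ℝ} (hm : 0 < m) (q q' : E2) :
    ‖(max ‖q‖ m)⁻¹ • q - (max ‖q'‖ m)⁻¹ • q'‖ ≤ 2 / m * ‖q - q'‖ := by
  set A := max ‖q‖ m with hA
  set B := max ‖q'‖ m with hB
  have hA0 : 0 < A := lt_of_lt_of_le hm (le_max_right _ _)
  have hB0 : 0 < B := lt_of_lt_of_le hm (le_max_right _ _)
  have hmA : m ≤ A := le_max_right _ _
  have hqB : ‖q'‖ ≤ B := le_max_left _ _
  have e : A⁻¹ • q - B⁻¹ • q' = A⁻¹ • (q - q') + (A⁻¹ - B⁻¹) • q' := by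
    rw [smul_sub, sub_smul]; abel
  have hAB : |B - A| ≤ ‖q - q'‖ := by
    rw [hA, hB]
    refine (abs_max_sub_max_le_abs _ _ _).trans ?_
    rw [norm_sub_rev]
    exact abs_norm_sub_norm_le _ _
  rw [e]
  refine (norm_add_le _ _).trans ?_
  rw [norm_smul, norm_smul, Real.norm_eq_abs, Real.norm_eq_abs, abs_of_pos (inv_pos.2 hA0)]
  have h1 : A⁻¹ - B⁻¹ = (B - A) / (A * B) := by field_simp
  rw [h1, abs_div, abs_of_pos (mul_pos hA0 hB0)]
  have h2 : A⁻¹ ≤ 1 / m := by
    rw [one_div]; exact inv_anti₀ hm hmA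
  have h3 : |B - A| / (A * B) * ‖q'‖ ≤ A⁻¹ * ‖q - q'‖ := by
    rw [div_mul_eq_mul_div, div_le_iff₀ (mul_pos hA0 hB0)]
    calc |B - A| * ‖q'‖ ≤ ‖q - q'‖ * B :=
          mul_le_mul hAB hqB (norm_nonneg _) (norm_nonneg _)
      _ = A⁻¹ * ‖q - q'‖ * (A * B) := by field_simp
  have h4 : A⁻¹ * ‖q - q'‖ ≤ 1 / m * ‖q - q'‖ := mul_le_mul_of_nonneg_right h2 (norm_nonneg _)
  calc _ ≤ 1 / m * ‖q - q'‖ + 1 / m * ‖q - q'‖ := add_le_add h4 (h3.trans h4)
    _ = _ := by ring

theorem z_bd {m : ℝ} (hm : 0 < m) (q : E2) : ‖(max ‖q‖ m)⁻¹ • q‖ ≤ 1 := by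
  have hA0 : 0 < max ‖q‖ m := lt_of_lt_of_le hm (le_max_right _ _)
  rw [norm_smul, Real.norm_eq_abs, abs_of_pos (inv_pos.2 hA0), inv_mul_le_iff₀ hA0, mul_one]
  exact le_max_left _ _

end U1

open U1 in
theorem pr_U1 (h : T_U0b) : T_U1 := by
  intro w D P a r₀ ρ d₁ hD hP hr₀ hρ hσ hd₁ hV
  obtain ⟨hP1, hP2, -⟩ := h D P hP
  -- the distance
  have hdist : ∀ x y : E2, |‖x - P x‖ - ‖y - P y‖| ≤ ‖x - y‖ := fun x y =>
    (abs_norm_sub_norm_le _ _).trans (hP2 x y)
  -- V is BL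
  have hPa : BL (fun x => P x - a) := by
    obtain ⟨M, hM⟩ := hD.isBounded.exists_norm_le
    refine ⟨1, M + ‖a‖, zero_le_one, ?_, fun x y => ?_, fun x => ?_⟩
    · exact add_nonneg ((norm_nonneg _).trans (hM _ (hP 0).1)) (norm_nonneg _)
    · have e : P x - a - (P y - a) = P x - P y := by abel
      rw [e, one_mul]; exact hP1 x y
    · exact (norm_sub_le _ _).trans (by linarith [hM _ (hP x).1])
  have hz : BL (fun x => (max ‖x - P x‖ (r₀ / 2))⁻¹ • (x - P x)) := by
    refine ⟨2 / (r₀ / 2), 1, by positivity, zero_le_one, fun x y => ?_, fun x => ?_⟩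
    · refine (z_lip (by positivity) _ _).trans ?_
      exact mul_le_mul_of_nonneg_left (hP2 x y) (by positivity)
    · exact z_bd (by positivity) _
  have hVf : BL (fun x => Vf P a r₀ ρ x) := by
    have := ((hPa.inner hz).add (BL.const r₀)).mul (BL.const ρ⁻¹)
    simpa only [Vf, div_eq_mul_inv] using this
  -- Y is BL
  have hw : BL (fun x : E2 => w.w (r₀ - ‖x - P x‖)) := by
    obtain ⟨K, hK, hK'⟩ := w_lip w
    obtain ⟨M, hM, hM'⟩ := w_bound w
    refine ⟨K, M, hK, hM, fun x y => ?_, fun x => hM' _⟩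
    rw [Real.norm_eq_abs]
    refine (hK' _ _).trans (mul_le_mul_of_nonneg_left ?_ hK)
    have e : r₀ - ‖x - P x‖ - (r₀ - ‖y - P y‖) = -(‖x - P x‖ - ‖y - P y‖) := by ring
    rw [e, abs_neg]
    exact hdist x y
  have he : BL (fun x : E2 => Real.exp (2 * (min (max ‖x - P x‖ r₀) d₁ - r₀))) := by
    have hb : ∀ x : E2, 2 * (min (max ‖x - P x‖ r₀) d₁ - r₀) ≤ 2 * (d₁ - r₀) := by
      intro x
      have := min_le_right (max ‖x - P x‖ r₀) d₁
      linarith
    refine ⟨Real.exp (2 * (d₁ - r₀)) * 2, Real.exp (2 * (d₁ - r₀)), by positivity,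
      by positivity, fun x y => ?_, fun x => ?_⟩
    · rw [Real.norm_eq_abs]
      refine (exp_sub_le (hb x) (hb y)).trans ?_
      rw [mul_assoc]
      apply mul_le_mul_of_nonneg_left _ (Real.exp_pos _).le
      have e : 2 * (min (max ‖x - P x‖ r₀) d₁ - r₀) - 2 * (min (max ‖y - P y‖ r₀) d₁ - r₀) =
          2 * (min (max ‖x - P x‖ r₀) d₁ - min (max ‖y - P y‖ r₀) d₁) := by ring
      rw [e, abs_mul, abs_two]
      apply mul_le_mul_of_nonneg_left _ zero_le_two
      refine (abs_min_sub_min_le_max _ _ _ _).trans ?_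
      rw [sub_self, abs_zero, max_eq_left (abs_nonneg _)]
      refine (abs_max_sub_max_le_abs _ _ _).trans ?_
      exact hdist x y
    · rw [Real.norm_eq_abs, abs_of_pos (Real.exp_pos _)]
      exact Real.exp_le_exp.2 (hb x)
  have hY : BL (fun x : E2 => Yp w r₀ d₁ ‖x - P x‖) := by
    have := ((hw.mul hw).mul he).add (BL.const (-1))
    simpa only [Yp_eq w hd₁, sub_eq_add_neg] using this
  have hg := hVf.mul hY
  -- nonnegativity
  have hg0 : ∀ x, 0 ≤ Vf P a r₀ ρ x * Yp w r₀ d₁ ‖x - P x‖ := by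
    intro x
    by_cases hx : r₀ / 2 ≤ ‖x - P x‖
    · apply mul_nonneg (hV x hx)
      rw [Yp_eq w hd₁]
      have h1 := w.one_le (r₀ - ‖x - P x‖)
      have h2 : 1 ≤ Real.exp (2 * (min (max ‖x - P x‖ r₀) d₁ - r₀)) := by
        apply Real.one_le_exp
        have : r₀ ≤ min (max ‖x - P x‖ r₀) d₁ := le_min (le_max_right _ _) hd₁
        linarith
      have h3 : 1 ≤ w.w (r₀ - ‖x - P x‖) * w.w (r₀ - ‖x - P x‖) := by nlinarith
      nlinarith
    · push Not at hx
      have : Yp w r₀ d₁ ‖x - P x‖ = 0 := by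
        unfold Yp
        rw [if_pos (by linarith), w.eq_one _ (by linarith)]
        norm_num
      rw [this, mul_zero]
  constructor
  · obtain ⟨K, M, hK, hM, h1, h2⟩ := hg
    refine ⟨Real.toNNReal K, LipschitzWith.of_dist_le_mul fun x y => ?_⟩
    rw [Real.dist_eq, dist_eq_norm, Real.coe_toNNReal _ hK]
    refine le_trans ?_ (h1 x y)
    rw [Real.norm_eq_abs]
    have hx := hg0 x
    have hy := hg0 y
    unfold uf
    set s := Vf P a r₀ ρ x * Yp w r₀ d₁ ‖x - P x‖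
    set t := Vf P a r₀ ρ y * Yp w r₀ d₁ ‖y - P y‖
    have hs1 : 1 ≤ Real.sqrt (1 + s) := by
      rw [Real.one_le_sqrt]; linarith
    have ht1 : 1 ≤ Real.sqrt (1 + t) := by
      rw [Real.one_le_sqrt]; linarith
    have e : s - t = (Real.sqrt (1 + s) - Real.sqrt (1 + t)) *
        (Real.sqrt (1 + s) + Real.sqrt (1 + t)) := by
      have e1 := Real.mul_self_sqrt (by linarith : 0 ≤ 1 + s)
      have e2 := Real.mul_self_sqrt (by linarith : 0 ≤ 1 + t)
      nlinarith
    rw [e, abs_mul]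
    have h3 : 1 ≤ |Real.sqrt (1 + s) + Real.sqrt (1 + t)| := by
      rw [abs_of_pos (by linarith)]; linarith
    nlinarith [abs_nonneg (Real.sqrt (1 + s) - Real.sqrt (1 + t))]
  · intro x
    unfold uf
    rw [Real.one_le_sqrt]
    linarith [hg0 x]

end Pool.Agent.Robin

end

section

/-!
# MP_4b551e_an, item U2: values of `V` in terms of the support function
-/

open MeasureTheory Set Metric
open scoped ENNReal NNReal Pointwise RealInnerProductSpace

namespace Pool.Agent.Robin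

namespace U2

lemma inner2 (x y : E2) : ⟪x, y⟫ = x 0 * y 0 + x 1 * y 1 := by
  simp [PiLp.inner_apply, Fin.sum_univ_two]; ring

lemma dirv0 (θ : ℝ) : dirv θ 0 = Real.cos θ := by simp [dirv]
lemma dirv1 (θ : ℝ) : dirv θ 1 = Real.sin θ := by simp [dirv]

lemma norm_sq2 (x : E2) : ‖x‖ ^ 2 = x 0 ^ 2 + x 1 ^ 2 := by
  rw [← real_inner_self_eq_norm_sq, inner2]; ring

lemma inner_dirv_self (θ : ℝ) : ⟪dirv θ, dirv θ⟫ = 1 := by
  rw [inner2, dirv0, dirv1]
  nlinarith [Real.sin_sq_add_cos_sq θ]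

lemma norm_dirv (θ : ℝ) : ‖dirv θ‖ = 1 := by
  have h : ‖dirv θ‖ ^ 2 = 1 := by rw [← real_inner_self_eq_norm_sq, inner_dirv_self]
  have h0 : 0 ≤ ‖dirv θ‖ := norm_nonneg _
  nlinarith

lemma exists_dirv (n : E2) (hn : ‖n‖ = 1) : ∃ θ, n = dirv θ := by
  have h : n 0 ^ 2 + n 1 ^ 2 = 1 := by rw [← norm_sq2, hn]; norm_num
  have hz : ‖(⟨n 0, n 1⟩ : ℂ)‖ = 1 := by
    rw [Complex.norm_eq_sqrt_sq_add_sq]
    simp only
    rw [h, Real.sqrt_one]
  have hne : (⟨n 0, n 1⟩ : ℂ) ≠ 0 := by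
    intro h0
    rw [h0] at hz
    simp at hz
  refine ⟨Complex.arg ⟨n 0, n 1⟩, ?_⟩
  ext i
  fin_cases i
  · show n 0 = dirv _ 0
    rw [dirv0, Complex.cos_arg hne, hz]; simp
  · show n 1 = dirv _ 1
    rw [dirv1, Complex.sin_arg, hz]; simp

lemma dl_pos {N : ℕ} (hN : 8 ≤ N) : 0 < dl N := by
  unfold dl
  have : (0 : ℝ) < N := by exact_mod_cast (by omega : 0 < N)
  positivity

lemma dl_le {N : ℕ} (hN : 8 ≤ N) : dl N ≤ Real.pi / 4 := by
  unfold dl
  have hN' : (8 : ℝ) ≤ N := by exact_mod_cast hN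
  rw [div_le_iff₀ (by linarith)]
  nlinarith [Real.pi_pos]

lemma sin_dl_pos {N : ℕ} (hN : 8 ≤ N) : 0 < Real.sin (dl N) :=
  Real.sin_pos_of_pos_of_lt_pi (dl_pos hN) (by linarith [dl_le hN, Real.pi_pos])

/-- Decomposition of a direction between two consecutive normals. -/
lemma dirv_comb {N : ℕ} (hN : 8 ≤ N) (i : ℤ) (θ : ℝ) (h1 : i * dl N ≤ θ)
    (h2 : θ ≤ (i + 1) * dl N) :
    ∃ A B : ℝ, 0 ≤ A ∧ 0 ≤ B ∧ dirv θ = A • nv N i + B • nv N (i + 1) := by
  have hs := sin_dl_pos hN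
  have hd := dl_le hN
  have hπ := Real.pi_pos
  refine ⟨Real.sin ((i + 1) * dl N - θ) / Real.sin (dl N), Real.sin (θ - i * dl N) / Real.sin (dl N),
    ?_, ?_, ?_⟩
  · apply div_nonneg _ hs.le
    apply Real.sin_nonneg_of_nonneg_of_le_pi (by linarith)
    nlinarith
  · apply div_nonneg _ hs.le
    apply Real.sin_nonneg_of_nonneg_of_le_pi (by linarith)
    nlinarith
  · have e1 : ((i + 1 : ℤ) : ℝ) * dl N = i * dl N + dl N := by push_cast; ring
    have e2 : ((i : ℝ) + 1) * dl N - θ = dl N - (θ - i * dl N) := by ring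
    ext j
    fin_cases j
    · show dirv θ 0 = _ * dirv _ 0 + _ * dirv _ 0
      rw [dirv0, dirv0, dirv0, e1, e2]
      have hθ : θ = i * dl N + (θ - i * dl N) := by ring
      generalize θ - i * dl N = φ at *
      rw [hθ, Real.cos_add, Real.cos_add, Real.sin_sub]
      field_simp
      ring
    · show dirv θ 1 = _ * dirv _ 1 + _ * dirv _ 1
      rw [dirv1, dirv1, dirv1, e1, e2]
      have hθ : θ = i * dl N + (θ - i * dl N) := by ring
      generalize θ - i * dl N = φ at *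
      rw [hθ, Real.sin_add, Real.sin_add, Real.sin_sub]
      field_simp
      ring

end U2

open U2 in
theorem pr_U2 (h1 : T_P1) (h2 : T_P2) (h4 : T_P4) (hh : T_H1) : T_U2 := by
  intro N c P a r₀ ρ hc hP hr hρ
  have hN := hc.N_le
  refine ⟨?_, ?_, ?_⟩
  · intro x hx
    have hpos : 0 < ‖x - P x‖ := by linarith
    have hmax : max ‖x - P x‖ (r₀ / 2) = ‖x - P x‖ := max_eq_left hx
    obtain ⟨θ, hθ⟩ := exists_dirv (‖x - P x‖⁻¹ • (x - P x)) (by
      rw [norm_smul, norm_inv, norm_norm, inv_mul_cancel₀ hpos.ne'])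
    refine ⟨θ, ?_⟩
    unfold Vf Hf
    rw [hmax, hθ]
    congr 2
    rw [inner_sub_left, inner_sub_left]
    congr 1
    set i : ℤ := ⌊θ / dl N⌋ with hi
    have hd := dl_pos hN
    have hi1 : i * dl N ≤ θ := by
      have := Int.floor_le (θ / dl N)
      rw [le_div_iff₀ hd] at this
      exact this
    have hi2 : θ ≤ (i + 1) * dl N := by
      have := (Int.lt_floor_add_one (θ / dl N)).le
      rw [div_le_iff₀ hd] at this
      exact this
    obtain ⟨A, B, hA, hB, hAB⟩ := dirv_comb hN i θ hi1 hi2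
    have hvi := h1 N c i hN
    apply le_antisymm
    · rw [hAB, inner_add_right, inner_add_right, real_inner_smul_right, real_inner_smul_right,
        real_inner_smul_right, real_inner_smul_right, hvi.2.1, hvi.2.2]
      have hPx := (hP x).1
      have k1 := hPx i
      have k2 := hPx (i + 1)
      exact add_le_add (mul_le_mul_of_nonneg_left k1 hA) (mul_le_mul_of_nonneg_left k2 hB)
    · have hpr := (hP x).2 (vx N c i) (h2 N c hc i)
      have hpr' : ⟪dirv θ, vx N c i - P x⟫ ≤ 0 := by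
        rw [← hθ, real_inner_smul_left]
        exact mul_nonpos_of_nonneg_of_nonpos (by positivity) hpr
      rw [inner_sub_right] at hpr'
      rw [real_inner_comm, real_inner_comm (dirv θ) (P x)]
      linarith
  · intro i x hx hxr
    have hPx := (h4 N c P hc hP).1 i x hx
    have hxP : x - P x = (⟪x, nv N i⟫ - c i) • nv N i := by rw [hPx]; abel
    have hd0 : 0 < ⟪x, nv N i⟫ - c i := by linarith [hx.1]
    have hn1 : ‖nv N i‖ = 1 := norm_dirv _
    have hnn : ⟪nv N i, nv N i⟫ = 1 := inner_dirv_self _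
    have hnorm : ‖x - P x‖ = ⟪x, nv N i⟫ - c i := by
      rw [hxP, norm_smul, hn1, mul_one, Real.norm_of_nonneg hd0.le]
    have hmax : max ‖x - P x‖ (r₀ / 2) = ‖x - P x‖ := max_eq_left hxr
    unfold Vf
    rw [hmax, hnorm, hxP, smul_smul, inv_mul_cancel₀ hd0.ne', one_smul]
    congr 2
    rw [inner_sub_left, hPx, inner_sub_left, real_inner_smul_left, hnn]
    ring
  · intro i d θ hd h5 h6
    have hd0 : 0 < d := by linarith
    have hPx := (h4 N c P hc hP).2 i d θ hd0.le h5 h6.le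
    have hxP : vx N c i + d • dirv θ - P (vx N c i + d • dirv θ) = d • dirv θ := by
      rw [hPx]; abel
    have hnorm : ‖vx N c i + d • dirv θ - P (vx N c i + d • dirv θ)‖ = d := by
      rw [hxP, norm_smul, norm_dirv, mul_one, Real.norm_of_nonneg hd0.le]
    have hmax : max ‖vx N c i + d • dirv θ - P (vx N c i + d • dirv θ)‖ (r₀ / 2) = d := by
      rw [hnorm]; exact max_eq_left hd
    unfold Vf
    rw [hmax, hxP, hPx, smul_smul, inv_mul_cancel₀ hd0.ne', one_smul]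
    rw [((hh N c a r₀ hc).2.2.2.2.1 i θ h5 h6).1]

end Pool.Agent.Robin

end

section

/-!
# MP_4b551e_an: item U3 (gradient of the baseline function in a strip)
-/

open MeasureTheory Set Metric Filter
open scoped ENNReal NNReal Pointwise RealInnerProductSpace Topology

namespace Pool.Agent.Robin

namespace U3

theorem inner_eq (x y : E2) : ⟪x, y⟫ = x 0 * y 0 + x 1 * y 1 := by
  rw [PiLp.inner_apply]
  simp [Fin.sum_univ_two]
  ring

theorem nv0 (N : ℕ) (i : ℤ) : nv N i 0 = Real.cos (i * dl N) := by simp [nv, dirv]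
theorem nv1 (N : ℕ) (i : ℤ) : nv N i 1 = Real.sin (i * dl N) := by simp [nv, dirv]

theorem norm_nv (N : ℕ) (i : ℤ) : ‖nv N i‖ = 1 := by
  unfold nv
  rw [EuclideanSpace.norm_eq, Real.sqrt_eq_one]
  simp [dirv, Fin.sum_univ_two, Real.cos_sq_add_sin_sq]

theorem Yp_nonneg (w : Profile) {r₀ d₁ : ℝ} (h : r₀ ≤ d₁) (d : ℝ) : 0 ≤ Yp w r₀ d₁ d := by
  unfold Yp
  split_ifs with hd
  · have h1 := w.one_le (r₀ - d)
    nlinarith
  · push Not at hd
    have h1 := w.one_le 0
    have h2 : 1 ≤ Real.exp (2 * (min d d₁ - r₀)) := by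
      apply Real.one_le_exp
      have : r₀ ≤ min d d₁ := le_min hd.le h
      linarith
    have h3 : 1 ≤ w.w 0 ^ 2 := by nlinarith
    nlinarith

theorem Yp_deriv (w : Profile) {r₀ d₁ : ℝ} (h : r₀ < d₁) {d : ℝ} (h1 : d ≠ r₀) (h2 : d ≠ d₁) :
    HasDerivAt (Yp w r₀ d₁) (dYp w r₀ d₁ d) d := by
  rcases lt_or_gt_of_ne h1 with hd | hd
  · have e : dYp w r₀ d₁ d = 2 * w.w (r₀ - d) * (w.dw (r₀ - d) * (-1)) := by
      unfold dYp
      rw [if_pos hd.le]
      ring
    have hw : HasDerivAt (fun s => w.w (r₀ - s)) (w.dw (r₀ - d) * (-1)) d := by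
      have h3 : HasDerivAt (fun s : ℝ => r₀ - s) (-1) d := by
        simpa using (hasDerivAt_id d).const_sub r₀
      exact (w.deriv (r₀ - d) (by linarith)).comp d h3
    have h4 : HasDerivAt (fun s => (w.w (r₀ - s)) ^ 2 - 1)
        (2 * w.w (r₀ - d) * (w.dw (r₀ - d) * (-1))) d := by
      have := (hw.pow 2).sub_const 1
      simpa using this
    rw [e]
    apply h4.congr_of_eventuallyEq
    filter_upwards [Iio_mem_nhds hd] with s hs
    unfold Yp
    rw [if_pos (le_of_lt hs)]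
  · rcases lt_or_gt_of_ne h2 with hd' | hd'
    · have e : dYp w r₀ d₁ d = (w.w 0) ^ 2 * (Real.exp (2 * (d - r₀)) * (2 * 1)) := by
        unfold dYp
        rw [if_neg (not_le.2 hd), if_pos hd'.le]
        ring
      have h3 : HasDerivAt (fun s : ℝ => 2 * (s - r₀)) (2 * 1) d :=
        ((hasDerivAt_id d).sub_const r₀).const_mul 2
      have h4 : HasDerivAt (fun s => (w.w 0) ^ 2 * Real.exp (2 * (s - r₀)) - 1)
          ((w.w 0) ^ 2 * (Real.exp (2 * (d - r₀)) * (2 * 1))) d :=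
        (h3.exp.const_mul _).sub_const 1
      rw [e]
      apply h4.congr_of_eventuallyEq
      filter_upwards [Ioo_mem_nhds hd hd'] with s hs
      unfold Yp
      rw [if_neg (not_le.2 hs.1), min_eq_left hs.2.le]
    · have e : dYp w r₀ d₁ d = 0 := by
        unfold dYp
        rw [if_neg (not_le.2 hd), if_neg (not_le.2 hd')]
      rw [e]
      have h4 : HasDerivAt (fun _ : ℝ => (w.w 0) ^ 2 * Real.exp (2 * (d₁ - r₀)) - 1) 0 d :=
        hasDerivAt_const _ _
      apply h4.congr_of_eventuallyEq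
      filter_upwards [Ioi_mem_nhds hd'] with s hs
      unfold Yp
      rw [if_neg (not_le.2 (h.trans hs)), min_eq_right (le_of_lt hs)]

theorem rect_open (N : ℕ) (c : ℤ → ℝ) (i : ℤ) : IsOpen (rect N c i) := by
  have e : rect N c i = {x : E2 | c i < ⟪x, nv N i⟫} ∩
      ({x | ⟪vx N c (i - 1), tv N i⟫ < ⟪x, tv N i⟫} ∩
        {x | ⟪x, tv N i⟫ < ⟪vx N c i, tv N i⟫}) := by
    ext x; simp [rect]
  rw [e]
  exact (isOpen_lt (by fun_prop) (by fun_prop)).inter
    ((isOpen_lt (by fun_prop) (by fun_prop)).inter (isOpen_lt (by fun_prop) (by fun_prop)))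

end U3

open U3 in
theorem pr_U3 (h4 : T_P4) (h2 : T_U2) : T_U3 := by
  intro w N c P a r₀ ρ d₁ i x hc hP hr₀ hρ hσ hd₁ hV hx hne1 hne2
  set V := (c i - ⟪a, nv N i⟫ + r₀) / ρ with hVdef
  set δ := ⟪x, nv N i⟫ - c i with hδ
  have hopen := rect_open N c i
  have hPz : ∀ z ∈ rect N c i, ‖z - P z‖ = ⟪z, nv N i⟫ - c i := by
    intro z hz
    have e := (h4 N c P hc hP).1 i z hz
    have e2 : z - P z = (⟪z, nv N i⟫ - c i) • nv N i := by rw [e]; abel
    have hz1 : 0 < ⟪z, nv N i⟫ - c i := sub_pos.2 hz.1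
    rw [e2, norm_smul, norm_nv, Real.norm_eq_abs, abs_of_pos hz1, mul_one]
  have hYn := Yp_nonneg w hd₁.le δ
  have hpos : 0 < 1 + V * Yp w r₀ d₁ δ := by
    have := mul_nonneg hV hYn
    linarith
  by_cases hcase : δ < r₀ - w.σ
  · -- locally constant
    have hcont : ContinuousAt (fun z : E2 => ⟪z, nv N i⟫ - c i) x := by fun_prop
    have hev : uf w P a r₀ ρ d₁ =ᶠ[𝓝 x] fun _ => (1 : ℝ) := by
      filter_upwards [hopen.mem_nhds hx, hcont.eventually (Iio_mem_nhds hcase)] with z hz hz2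
      have hz2' : ⟪z, nv N i⟫ - c i < r₀ - w.σ := hz2
      have hσ0 := w.σ_pos
      unfold uf
      rw [hPz z hz]
      have : Yp w r₀ d₁ (⟪z, nv N i⟫ - c i) = 0 := by
        unfold Yp
        rw [if_pos (by linarith), w.eq_one _ (by linarith)]
        norm_num
      rw [this]
      simp
    rw [hev.fderiv_eq, fderiv_fun_const]
    have h0 : ‖(0 : E2 → E2 →L[ℝ] ℝ) x‖ ^ 2 = 0 := by simp
    rw [h0]
    positivity
  · push Not at hcase
    have hδ2 : r₀ / 2 < δ := by linarith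
    have hcont : ContinuousAt (fun z : E2 => ⟪z, nv N i⟫ - c i) x := by fun_prop
    have hev : uf w P a r₀ ρ d₁ =ᶠ[𝓝 x]
        fun z => Real.sqrt (1 + V * Yp w r₀ d₁ (⟪z, nv N i⟫ - c i)) := by
      filter_upwards [hopen.mem_nhds hx, hcont.eventually (Ioi_mem_nhds hδ2)] with z hz hz2
      have hz2' : r₀ / 2 < ⟪z, nv N i⟫ - c i := hz2
      unfold uf
      rw [(h2 N c P a r₀ ρ hc hP hr₀ hρ).2.1 i z hz (by rw [hPz z hz]; exact hz2'.le), hPz z hz]
    have hlin : HasFDerivAt (fun z : E2 => ⟪z, nv N i⟫ - c i) (innerSL ℝ (nv N i)) x := by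
      have : HasFDerivAt (fun z : E2 => (innerSL ℝ (nv N i)) z - c i) (innerSL ℝ (nv N i)) x :=
        (innerSL ℝ (nv N i)).hasFDerivAt.sub_const (c i)
      refine this.congr_of_eventuallyEq (Eventually.of_forall fun z => ?_)
      simp [real_inner_comm]
    have hD := Yp_deriv w hd₁ hne1 hne2
    have hφ : HasDerivAt (fun τ => Real.sqrt (1 + V * Yp w r₀ d₁ τ))
        ((V * dYp w r₀ d₁ δ) / (2 * Real.sqrt (1 + V * Yp w r₀ d₁ δ))) δ :=
      ((hD.const_mul V).const_add 1).sqrt hpos.ne'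
    have hcomp := HasDerivAt.comp_hasFDerivAt x hφ hlin
    have hF : HasFDerivAt (uf w P a r₀ ρ d₁)
        (((V * dYp w r₀ d₁ δ) / (2 * Real.sqrt (1 + V * Yp w r₀ d₁ δ))) • innerSL ℝ (nv N i)) x :=
      hcomp.congr_of_eventuallyEq hev
    rw [hF.fderiv, norm_smul, innerSL_apply_norm, norm_nv, mul_one, Real.norm_eq_abs, sq_abs,
      div_pow, mul_pow, mul_pow, Real.sq_sqrt hpos.le]
    norm_num

end Pool.Agent.Robin

end

section

/-!
# MP_4b551e_an: item U4 (gradient of the baseline function in a sector)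
-/

open MeasureTheory Set Metric Filter
open scoped ENNReal NNReal Pointwise RealInnerProductSpace Topology

namespace Pool.Agent.Robin

namespace U4

theorem inner_eq (x y : E2) : ⟪x, y⟫ = x 0 * y 0 + x 1 * y 1 := by
  rw [PiLp.inner_apply]
  simp [Fin.sum_univ_two]
  ring

theorem ee (θ : ℝ) : ⟪dirv θ, dirv θ⟫ = 1 := by
  rw [inner_eq]
  simp only [dirv, PiLp.toLp_apply, Matrix.cons_val_zero, Matrix.cons_val_one,
    Matrix.cons_val_fin_one]
  nlinarith [Real.sin_sq_add_cos_sq θ]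

theorem ee' (θ : ℝ) : ⟪dirv θ, rot (dirv θ)⟫ = 0 := by
  rw [inner_eq]
  simp only [dirv, rot, PiLp.toLp_apply, Matrix.cons_val_zero, Matrix.cons_val_one,
    Matrix.cons_val_fin_one]
  ring

theorem e'e' (θ : ℝ) : ⟪rot (dirv θ), rot (dirv θ)⟫ = 1 := by
  rw [inner_eq]
  simp only [dirv, rot, PiLp.toLp_apply, Matrix.cons_val_zero, Matrix.cons_val_one,
    Matrix.cons_val_fin_one]
  nlinarith [Real.sin_sq_add_cos_sq θ]

theorem decomp (θ : ℝ) (x : E2) :
    x = ⟪x, dirv θ⟫ • dirv θ + ⟪x, rot (dirv θ)⟫ • rot (dirv θ) := by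
  have h := Real.sin_sq_add_cos_sq θ
  have h2 : Real.cos θ ^ 2 = 1 - Real.sin θ ^ 2 := by linarith
  ext j
  fin_cases j
  · simp only [Fin.zero_eta, PiLp.add_apply, PiLp.smul_apply, smul_eq_mul, inner_eq, dirv, rot,
      PiLp.toLp_apply, Matrix.cons_val_zero, Matrix.cons_val_one, Matrix.cons_val_fin_one]
    ring_nf
    rw [h2]
    ring
  · simp only [Fin.mk_one, PiLp.add_apply, PiLp.smul_apply, smul_eq_mul, inner_eq, dirv, rot,
      PiLp.toLp_apply, Matrix.cons_val_zero, Matrix.cons_val_one, Matrix.cons_val_fin_one]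
    ring_nf
    rw [h2]
    ring

theorem dirv_add (θ φ : ℝ) :
    dirv (θ + φ) = Real.cos φ • dirv θ + Real.sin φ • rot (dirv θ) := by
  ext j
  fin_cases j
  · simp only [Fin.zero_eta, PiLp.add_apply, PiLp.smul_apply, smul_eq_mul, dirv, rot,
      PiLp.toLp_apply, Matrix.cons_val_zero, Matrix.cons_val_one, Matrix.cons_val_fin_one,
      Real.cos_add]
    ring
  · simp only [Fin.mk_one, PiLp.add_apply, PiLp.smul_apply, smul_eq_mul, dirv, rot,
      PiLp.toLp_apply, Matrix.cons_val_zero, Matrix.cons_val_one, Matrix.cons_val_fin_one,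
      Real.sin_add]
    ring

theorem norm_lin (θ A B : ℝ) : ‖A • dirv θ + B • rot (dirv θ)‖ ^ 2 = A ^ 2 + B ^ 2 := by
  rw [← real_inner_self_eq_norm_sq, inner_add_left, inner_add_right, inner_add_right,
    inner_smul_left, inner_smul_left, inner_smul_left, inner_smul_right, inner_smul_right,
    inner_smul_right, inner_smul_left, inner_smul_right, real_inner_comm (dirv θ) (rot (dirv θ)),
    ee, ee', e'e']
  simp only [conj_trivial]
  ring

theorem polar_loc (θ : ℝ) (q : E2) (hα : 0 < ⟪q, dirv θ⟫) :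
    q = ‖q‖ • dirv (θ + Real.arctan (⟪q, rot (dirv θ)⟫ / ⟪q, dirv θ⟫)) := by
  set α := ⟪q, dirv θ⟫ with hαd
  set β := ⟪q, rot (dirv θ)⟫ with hβd
  have hq := decomp θ q
  rw [← hαd, ← hβd] at hq
  have hn : ‖q‖ = Real.sqrt (α ^ 2 + β ^ 2) := by
    rw [← norm_lin θ α β, ← hq, Real.sqrt_sq (norm_nonneg _)]
  have hs : Real.sqrt (α ^ 2 + β ^ 2) = α * Real.sqrt (1 + (β / α) ^ 2) := by
    have : α ^ 2 + β ^ 2 = α ^ 2 * (1 + (β / α) ^ 2) := by field_simp
    rw [this, Real.sqrt_mul (by positivity), Real.sqrt_sq hα.le]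
  have hpos : 0 < Real.sqrt (1 + (β / α) ^ 2) := Real.sqrt_pos.2 (by positivity)
  rw [dirv_add, Real.cos_arctan, Real.sin_arctan, smul_add, smul_smul, smul_smul, hn, hs]
  have e1 : α * Real.sqrt (1 + (β / α) ^ 2) * (1 / Real.sqrt (1 + (β / α) ^ 2)) = α := by
    field_simp
  have e2 : α * Real.sqrt (1 + (β / α) ^ 2) * (β / α / Real.sqrt (1 + (β / α) ^ 2)) = β := by
    field_simp
  rw [e1, e2]
  exact hq

theorem Yp_nonneg (w : Profile) {r₀ d₁ : ℝ} (h : r₀ ≤ d₁) (d : ℝ) : 0 ≤ Yp w r₀ d₁ d := by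
  unfold Yp
  split_ifs with hd
  · have h1 := w.one_le (r₀ - d)
    nlinarith
  · push Not at hd
    have h1 := w.one_le 0
    have h2 : 1 ≤ Real.exp (2 * (min d d₁ - r₀)) := by
      apply Real.one_le_exp
      have : r₀ ≤ min d d₁ := le_min hd.le h
      linarith
    have h3 : 1 ≤ w.w 0 ^ 2 := by nlinarith
    nlinarith

theorem Yp_deriv (w : Profile) {r₀ d₁ : ℝ} (h : r₀ < d₁) {d : ℝ} (h1 : d ≠ r₀) (h2 : d ≠ d₁) :
    HasDerivAt (Yp w r₀ d₁) (dYp w r₀ d₁ d) d := by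
  rcases lt_or_gt_of_ne h1 with hd | hd
  · have e : dYp w r₀ d₁ d = 2 * w.w (r₀ - d) * (w.dw (r₀ - d) * (-1)) := by
      unfold dYp
      rw [if_pos hd.le]
      ring
    have hw : HasDerivAt (fun s => w.w (r₀ - s)) (w.dw (r₀ - d) * (-1)) d := by
      have h3 : HasDerivAt (fun s : ℝ => r₀ - s) (-1) d := by
        simpa using (hasDerivAt_id d).const_sub r₀
      exact (w.deriv (r₀ - d) (by linarith)).comp d h3
    have h4 : HasDerivAt (fun s => (w.w (r₀ - s)) ^ 2 - 1)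
        (2 * w.w (r₀ - d) * (w.dw (r₀ - d) * (-1))) d := by
      have := (hw.pow 2).sub_const 1
      simpa using this
    rw [e]
    apply h4.congr_of_eventuallyEq
    filter_upwards [Iio_mem_nhds hd] with s hs
    unfold Yp
    rw [if_pos (le_of_lt hs)]
  · rcases lt_or_gt_of_ne h2 with hd' | hd'
    · have e : dYp w r₀ d₁ d = (w.w 0) ^ 2 * (Real.exp (2 * (d - r₀)) * (2 * 1)) := by
        unfold dYp
        rw [if_neg (not_le.2 hd), if_pos hd'.le]
        ring
      have h3 : HasDerivAt (fun s : ℝ => 2 * (s - r₀)) (2 * 1) d :=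
        ((hasDerivAt_id d).sub_const r₀).const_mul 2
      have h4 : HasDerivAt (fun s => (w.w 0) ^ 2 * Real.exp (2 * (s - r₀)) - 1)
          ((w.w 0) ^ 2 * (Real.exp (2 * (d - r₀)) * (2 * 1))) d :=
        (h3.exp.const_mul _).sub_const 1
      rw [e]
      apply h4.congr_of_eventuallyEq
      filter_upwards [Ioo_mem_nhds hd hd'] with s hs
      unfold Yp
      rw [if_neg (not_le.2 hs.1), min_eq_left hs.2.le]
    · have e : dYp w r₀ d₁ d = 0 := by
        unfold dYp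
        rw [if_neg (not_le.2 hd), if_neg (not_le.2 hd')]
      rw [e]
      have h4 : HasDerivAt (fun _ : ℝ => (w.w 0) ^ 2 * Real.exp (2 * (d₁ - r₀)) - 1) 0 d :=
        hasDerivAt_const _ _
      apply h4.congr_of_eventuallyEq
      filter_upwards [Ioi_mem_nhds hd'] with s hs
      unfold Yp
      rw [if_neg (not_le.2 (h.trans hs)), min_eq_right (le_of_lt hs)]

/-- derivative of the norm -/
theorem norm_deriv (v e : E2) (d : ℝ) (hd : 0 < d) (he : ‖e‖ = 1) :
    HasFDerivAt (fun z : E2 => ‖z - v‖) (innerSL ℝ e) (v + d • e) := by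
  have h1 : HasFDerivAt (fun z : E2 => z - v) (ContinuousLinearMap.id ℝ E2) (v + d • e) :=
    (hasFDerivAt_id _).sub_const v
  have hx : v + d • e - v = d • e := by abel
  have hn : ‖v + d • e - v‖ = d := by
    rw [hx, norm_smul, he, Real.norm_eq_abs, abs_of_pos hd, mul_one]
  have h2 := h1.norm_sq
  have h3 : ‖v + d • e - v‖ ^ 2 ≠ 0 := by rw [hn]; positivity
  have h4 := h2.sqrt h3
  have h5 : (fun z : E2 => Real.sqrt (‖z - v‖ ^ 2)) = fun z : E2 => ‖z - v‖ := by
    ext z; exact Real.sqrt_sq (norm_nonneg _)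
  rw [h5] at h4
  refine h4.congr_fderiv ?_
  rw [hn, Real.sqrt_sq hd.le, hx]
  ext1 y
  simp
  field_simp

end U4

open U4 in
theorem pr_U4 (h4 : T_P4) (hh : T_H1) (h2 : T_U2) : T_U4 := by
  intro w N c P a r₀ ρ d₁ i d θ hc hP hr₀ hρ hσ hd₁ hH hθ1 hθ2 hd hne1 hne2
  set v := vx N c i with hv
  set e := dirv θ with he
  set e' := rot e with he'
  set u := v - a with hu
  have hHf := (hh N c a r₀ hc).2.2.2.2.1 i
  have hH1 : Hf N c a r₀ θ = ⟪u, e⟫ + r₀ := (hHf θ hθ1.le hθ2).1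
  have hH2 : dHf N c a θ = ⟪u, e'⟫ := (hHf θ hθ1.le hθ2).2
  have hne : ‖e‖ = 1 := by
    have := ee θ
    rw [real_inner_self_eq_norm_sq, ← he] at this
    nlinarith [norm_nonneg e]
  set V := Hf N c a r₀ θ / ρ with hVdef
  have hV0 : 0 < V := div_pos hH hρ
  have hYn := Yp_nonneg w hd₁.le d
  have hpos : 0 < 1 + V * Yp w r₀ d₁ d := by
    have := mul_nonneg hV0.le hYn
    linarith
  have hxv : v + d • e - v = d • e := by abel
  have hnx : ‖v + d • e - v‖ = d := by
    rw [hxv, norm_smul, hne, Real.norm_eq_abs, abs_of_pos hd, mul_one]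
  -- local polar coordinates
  have hα : ContinuousAt (fun z : E2 => ⟪z - v, e⟫) (v + d • e) := by fun_prop
  have hβ : ContinuousAt (fun z : E2 => ⟪z - v, e'⟫) (v + d • e) := by fun_prop
  have hαx : ⟪v + d • e - v, e⟫ = d := by
    rw [hxv, inner_smul_left, he, ee]; simp
  have hβx : ⟪v + d • e - v, e'⟫ = 0 := by
    rw [hxv, inner_smul_left, he', he, ee']; simp
  have hΘ : ContinuousAt (fun z : E2 => θ + Real.arctan (⟪z - v, e'⟫ / ⟪z - v, e⟫))
      (v + d • e) := by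
    apply ContinuousAt.add continuousAt_const
    apply Real.continuous_arctan.continuousAt.comp
    apply hβ.div hα
    rw [hαx]; exact hd.ne'
  have hΘx : θ + Real.arctan (⟪v + d • e - v, e'⟫ / ⟪v + d • e - v, e⟫) = θ := by
    rw [hβx]; simp
  have hN : ContinuousAt (fun z : E2 => ‖z - v‖) (v + d • e) := by fun_prop
  have ev1 : ∀ᶠ z in 𝓝 (v + d • e), 0 < ⟪z - v, e⟫ :=
    hα.eventually (Ioi_mem_nhds (by show 0 < ⟪v + d • e - v, e⟫; rw [hαx]; exact hd))
  have ev2 : ∀ᶠ z in 𝓝 (v + d • e),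
      θ + Real.arctan (⟪z - v, e'⟫ / ⟪z - v, e⟫) ∈ Ioo (i * dl N) ((i + 1) * dl N) :=
    hΘ.eventually (Ioo_mem_nhds
      (by
        show i * dl N < θ + Real.arctan (⟪v + d • e - v, e'⟫ / ⟪v + d • e - v, e⟫)
        rw [hΘx]; exact hθ1)
      (by
        show θ + Real.arctan (⟪v + d • e - v, e'⟫ / ⟪v + d • e - v, e⟫) < (i + 1) * dl N
        rw [hΘx]; exact hθ2))
  have hPz : ∀ z : E2, 0 < ⟪z - v, e⟫ →
      θ + Real.arctan (⟪z - v, e'⟫ / ⟪z - v, e⟫) ∈ Ioo (i * dl N) ((i + 1) * dl N) →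
      P z = v ∧ (r₀ / 2 ≤ ‖z - v‖ → 
        Vf P a r₀ ρ z = (⟪u, z - v⟫ * ‖z - v‖⁻¹ + r₀) * ρ⁻¹) := by
    intro z hz1 hz2
    have hp := polar_loc θ (z - v) hz1
    rw [← he, ← he'] at hp
    set Θ := θ + Real.arctan (⟪z - v, e'⟫ / ⟪z - v, e⟫) with hΘd
    have hz3 : z = v + ‖z - v‖ • dirv Θ := by rw [← hp]; abel
    constructor
    · have := (h4 N c P hc hP).2 i ‖z - v‖ Θ (norm_nonneg _) hz2.1.le hz2.2.le
      rw [← hv, ← hz3] at this
      exact this
    · intro hr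
      have := (h2 N c P a r₀ ρ hc hP hr₀ hρ).2.2 i ‖z - v‖ Θ hr hz2.1.le hz2.2
      rw [← hv, ← hz3] at this
      rw [this, (hHf Θ hz2.1.le hz2.2).1, div_eq_mul_inv]
      congr 2
      have hn0 : ‖z - v‖ ≠ 0 := by
        have : 0 < ‖z - v‖ := lt_of_lt_of_le (by positivity) hr
        exact this.ne'
      have e3 : ⟪u, z - v⟫ = ‖z - v‖ * ⟪u, dirv Θ⟫ := by
        conv_lhs => rw [hp, inner_smul_right]
      rw [← hv, ← hu, e3]
      field_simp
  by_cases hcase : d < r₀ - w.σ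
  · have hev : uf w P a r₀ ρ d₁ =ᶠ[𝓝 (v + d • e)] fun _ => (1 : ℝ) := by
      filter_upwards [ev1, ev2,
        hN.eventually (Iio_mem_nhds (by
          show ‖v + d • e - v‖ < r₀ - w.σ
          rw [hnx]; exact hcase))] with z hz1 hz2 hz3
      have hz3' : ‖z - v‖ < r₀ - w.σ := hz3
      have hσ0 := w.σ_pos
      unfold uf
      rw [(hPz z hz1 hz2).1]
      have : Yp w r₀ d₁ ‖z - v‖ = 0 := by
        unfold Yp
        rw [if_pos (by linarith), w.eq_one _ (by linarith)]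
        norm_num
      rw [this]
      simp
    rw [hev.fderiv_eq, fderiv_fun_const]
    have h0 : ‖(0 : E2 → E2 →L[ℝ] ℝ) (v + d • e)‖ ^ 2 = 0 := by simp
    rw [h0]
    positivity
  · push Not at hcase
    have hδ2 : r₀ / 2 < d := by linarith
    have hev : uf w P a r₀ ρ d₁ =ᶠ[𝓝 (v + d • e)]
        fun z => Real.sqrt (1 + ((⟪u, z - v⟫ * ‖z - v‖⁻¹ + r₀) * ρ⁻¹) *
          Yp w r₀ d₁ ‖z - v‖) := by
      filter_upwards [ev1, ev2,
        hN.eventually (Ioi_mem_nhds (by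
          show r₀ / 2 < ‖v + d • e - v‖
          rw [hnx]; exact hδ2))] with z hz1 hz2 hz3
      have hz3' : r₀ / 2 < ‖z - v‖ := hz3
      unfold uf
      rw [(hPz z hz1 hz2).2 (by exact hz3'.le), (hPz z hz1 hz2).1]
    have hNd := norm_deriv v e d hd hne
    have hL : HasFDerivAt (fun z : E2 => ⟪u, z - v⟫) (innerSL ℝ u) (v + d • e) := by
      have : HasFDerivAt (fun z : E2 => (innerSL ℝ u) z - ⟪u, v⟫) (innerSL ℝ u) (v + d • e) :=
        (innerSL ℝ u).hasFDerivAt.sub_const _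
      refine this.congr_of_eventuallyEq (Eventually.of_forall fun z => ?_)
      simp [inner_sub_right]
    have hinv : HasDerivAt (fun t : ℝ => t⁻¹) (-(d ^ 2)⁻¹) ‖v + d • e - v‖ := by
      rw [hnx]; exact hasDerivAt_inv hd.ne'
    have hNi := HasDerivAt.comp_hasFDerivAt (v + d • e) hinv hNd
    have hYd : HasDerivAt (Yp w r₀ d₁) (dYp w r₀ d₁ d) ‖v + d • e - v‖ := by
      rw [hnx]; exact Yp_deriv w hd₁ hne1 hne2
    have hY := HasDerivAt.comp_hasFDerivAt (v + d • e) hYd hNd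
    have hVz := ((hL.mul hNi).add_const r₀).mul_const ρ⁻¹
    have hS := (hVz.mul hY).const_add 1
    have hxval : (1 + ((⟪u, v + d • e - v⟫ * ‖v + d • e - v‖⁻¹ + r₀) * ρ⁻¹) *
          Yp w r₀ d₁ ‖v + d • e - v‖) = 1 + V * Yp w r₀ d₁ d := by
      rw [hnx, hxv, inner_smul_right, hVdef, hH1, div_eq_mul_inv]
      have : d * ⟪u, e⟫ * d⁻¹ = ⟪u, e⟫ := by field_simp
      rw [this]
    have hSq := hS.sqrt (by
      show (1 + ((⟪u, v + d • e - v⟫ * ‖v + d • e - v‖⁻¹ + r₀) * ρ⁻¹) *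
          Yp w r₀ d₁ ‖v + d • e - v‖) ≠ 0
      rw [hxval]; exact hpos.ne')
    have hF := hSq.congr_of_eventuallyEq hev
    have hfd : fderiv ℝ (uf w P a r₀ ρ d₁) (v + d • e) =
        (1 / (2 * Real.sqrt (1 + V * Yp w r₀ d₁ d))) •
          innerSL ℝ ((V * dYp w r₀ d₁ d) • e + (Yp w r₀ d₁ d * ⟪u, e'⟫ / (ρ * d)) • e') := by
      rw [hF.fderiv]
      have hu' := decomp θ u
      rw [← he, ← he'] at hu'
      have hue : ∀ y : E2, ⟪u, y⟫ = ⟪u, e⟫ * ⟪e, y⟫ + ⟪u, e'⟫ * ⟪e', y⟫ := by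
        intro y
        conv_lhs => rw [hu', inner_add_left, inner_smul_left, inner_smul_left]
        simp
      have hLx : ⟪u, v + d • e - v⟫ = d * ⟪u, e⟫ := by rw [hxv, inner_smul_right]
      have hq : (d * ⟪u, e⟫ * d⁻¹ + r₀) * ρ⁻¹ = V := by
        rw [hVdef, hH1, div_eq_mul_inv]
        congr 2
        field_simp
      ext1 y
      simp only [smul_apply, add_apply, Pi.mul_apply,
        innerSL_apply_apply, Function.comp_apply, smul_eq_mul, hnx, hLx, inner_add_left,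
        inner_smul_left, conj_trivial, hq]
      rw [hue y]
      field_simp
      ring
    rw [hfd, norm_smul, innerSL_apply_norm, mul_pow, he', he, norm_lin θ, Real.norm_eq_abs,
      sq_abs, div_pow, mul_pow, Real.sq_sqrt hpos.le, hH2]
    apply le_of_eq
    field_simp
    ring

end Pool.Agent.Robin

end

section

/-!
# Item U5: volume integral over a half strip
-/

open MeasureTheory Set Metric
open scoped ENNReal NNReal Pointwise RealInnerProductSpace

namespace Pool.Agent.Robin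

namespace U5

theorem inner_eq (x y : E2) : ⟪x, y⟫ = x 0 * y 0 + x 1 * y 1 := by
  simp only [PiLp.inner_apply, Fin.sum_univ_two, RCLike.inner_apply, conj_trivial]
  ring

theorem nn (N : ℕ) (i : ℤ) : ⟪nv N i, nv N i⟫ = 1 ∧ ⟪nv N i, tv N i⟫ = 0 ∧
    ⟪tv N i, nv N i⟫ = 0 ∧ ⟪tv N i, tv N i⟫ = 1 := by
  have h0 : (nv N i) 0 = Real.cos (i * dl N) := rfl
  have h1 : (nv N i) 1 = Real.sin (i * dl N) := rfl
  have h2 : (tv N i) 0 = -Real.sin (i * dl N) := rfl
  have h3 : (tv N i) 1 = Real.cos (i * dl N) := rfl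
  rw [inner_eq, inner_eq, inner_eq, inner_eq, h0, h1, h2, h3]
  have := Real.sin_sq_add_cos_sq (i * dl N)
  refine ⟨by nlinarith, by ring, by ring, by nlinarith⟩

theorem norm_nv (N : ℕ) (i : ℤ) : ‖nv N i‖ = 1 := by
  have h := (nn N i).1
  rw [real_inner_self_eq_norm_sq] at h
  have h2 := norm_nonneg (nv N i)
  nlinarith

/-- the profile part of the energy, continuous on the whole line -/
noncomputable def Hh (k : ℝ) (w : Profile) (V s : ℝ) : ℝ :=
  V ^ 2 * (w.w s) ^ 2 * (w.dw (max s 0)) ^ 2 / (1 + V * ((w.w s) ^ 2 - 1)) +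
    k ^ 2 * (V * ((w.w s) ^ 2 - 1))

theorem sq_ge (w : Profile) (s : ℝ) : 0 ≤ (w.w s) ^ 2 - 1 := by
  have h := w.one_le s
  nlinarith

theorem Hh_eq (k : ℝ) (w : Profile) (V s : ℝ) (hs : 0 ≤ s) : Hh k w V s = fr k w V s := by
  unfold Hh fr
  rw [max_eq_left hs]

theorem den_pos (w : Profile) {V : ℝ} (hV : 0 ≤ V) (s : ℝ) : 0 < 1 + V * ((w.w s) ^ 2 - 1) := by
  have := mul_nonneg hV (sq_ge w s)
  linarith

theorem Hh_cont (k : ℝ) (w : Profile) {V : ℝ} (hV : 0 ≤ V) : Continuous (Hh k w V) := by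
  have h1 : Continuous fun s => w.dw (max s 0) := by
    refine w.dw_cont.comp_continuous (continuous_id.max continuous_const) fun s => ?_
    exact (le_max_right _ _ : (0 : ℝ) ≤ max s 0)
  have h2 := w.w_cont
  unfold Hh
  refine Continuous.add (Continuous.div ?_ ?_ fun s => (den_pos w hV s).ne') ?_
  · exact (continuous_const.mul (h2.pow 2)).mul (h1.pow 2)
  · exact continuous_const.add (continuous_const.mul ((h2.pow 2).sub continuous_const))
  · exact continuous_const.mul (continuous_const.mul ((h2.pow 2).sub continuous_const))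

theorem Hh_nonneg (k : ℝ) (w : Profile) {V : ℝ} (hV : 0 ≤ V) (s : ℝ) : 0 ≤ Hh k w V s := by
  unfold Hh
  have h1 := den_pos w hV s
  have h2 := mul_nonneg hV (sq_ge w s)
  positivity

theorem Hh_zero (k : ℝ) (w : Profile) (V : ℝ) {s : ℝ} (hs : w.σ ≤ s) : Hh k w V s = 0 := by
  have h0 : 0 ≤ s := w.σ_pos.le.trans hs
  unfold Hh
  rw [w.eq_one s hs, max_eq_left h0, w.dw_zero s hs]
  norm_num

theorem int_eq (k : ℝ) (w : Profile) {V : ℝ} (hV : 0 ≤ V) {r₀ : ℝ} (hr : w.σ ≤ r₀) :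
    ∫⁻ s in Ioo (0 : ℝ) r₀, ENNReal.ofReal (Hh k w V (r₀ - s)) =
      ENNReal.ofReal (∫ s in (0 : ℝ)..w.σ, fr k w V s) := by
  have hr0 : 0 ≤ r₀ := w.σ_pos.le.trans hr
  have hc := Hh_cont k w hV
  have hc' : Continuous fun s => Hh k w V (r₀ - s) := hc.comp (continuous_const.sub continuous_id)
  rw [← ofReal_integral_eq_lintegral_ofReal]
  · congr 1
    rw [← integral_Ioc_eq_integral_Ioo, ← intervalIntegral.integral_of_le hr0,
      intervalIntegral.integral_comp_sub_left (fun s => Hh k w V s), sub_self, sub_zero,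
      ← intervalIntegral.integral_add_adjacent_intervals (b := w.σ)
        (hc.intervalIntegrable _ _) (hc.intervalIntegrable _ _)]
    have h1 : ∫ s in (w.σ)..r₀, Hh k w V s = 0 := by
      refine intervalIntegral.integral_zero_ae ?_
      refine Filter.Eventually.of_forall fun s hs => ?_
      rw [uIoc_of_le hr] at hs
      exact Hh_zero k w V hs.1.le
    rw [h1, add_zero]
    refine intervalIntegral.integral_congr fun s hs => ?_
    rw [uIcc_of_le w.σ_pos.le] at hs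
    exact Hh_eq k w V s hs.1
  · exact (hc'.integrableOn_Icc (a := 0) (b := r₀)).mono_set Ioo_subset_Icc_self
  · exact Filter.Eventually.of_forall fun s => Hh_nonneg k w hV _

theorem Yp_nonneg (w : Profile) {r₀ d₁ : ℝ} (h : r₀ < d₁) (d : ℝ) : 0 ≤ Yp w r₀ d₁ d := by
  unfold Yp
  split_ifs with h1
  · exact sq_ge w _
  · have h2 : r₀ ≤ min d d₁ := le_min (not_le.1 h1).le h.le
    have h3 : 1 ≤ Real.exp (2 * (min d d₁ - r₀)) := Real.one_le_exp (by linarith)
    have h4 := w.one_le 0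
    nlinarith [mul_le_mul (by nlinarith : (1 : ℝ) ≤ (w.w 0) ^ 2) h3 zero_le_one (sq_nonneg _)]

theorem line_null (t : E2) (ht : t ≠ 0) (a : ℝ) : volume {x : E2 | ⟪x, t⟫ = a} = 0 := by
  have hpos : 0 < ⟪t, t⟫ := real_inner_self_pos.2 ht
  set x₀ : E2 := (a / ⟪t, t⟫) • t with hx₀
  have h0 : ⟪x₀, t⟫ = a := by
    rw [hx₀, real_inner_smul_left]
    field_simp
  set S : Submodule ℝ E2 := (ℝ ∙ t)ᗮ with hS
  have hST : S ≠ ⊤ := by
    intro h
    have h1 : t ∈ S := by rw [h]; exact Submodule.mem_top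
    rw [hS, Submodule.mem_orthogonal_singleton_iff_inner_right] at h1
    exact hpos.ne' h1
  have h2 : {x : E2 | ⟪x, t⟫ = a} = (fun x => x - x₀) ⁻¹' (S : Set E2) := by
    ext x
    rw [Set.mem_ofPred_eq, mem_preimage, SetLike.mem_coe, hS,
      Submodule.mem_orthogonal_singleton_iff_inner_left, inner_sub_left, h0, sub_eq_zero]
  rw [h2]
  have h3 : (fun x : E2 => x - x₀) ⁻¹' (S : Set E2) = (fun x => x + (-x₀)) ⁻¹' (S : Set E2) := by
    ext x
    rw [mem_preimage, mem_preimage, sub_eq_add_neg]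
  rw [h3, measure_preimage_add_right]
  exact Measure.addHaar_submodule _ S hST

end U5

open U5 in
theorem pr_U5 (h1 : T_P1) (h4 : T_P4) (hq : T_Q1) (h2 : T_U2) (h3 : T_U3) : T_U5 := by
  intro k w N c P a r₀ ρ d₁ η C i hG
  have hS := hG.supp
  have hN := hS.N_le
  have hr0 : 0 < r₀ := by linarith [hG.r₀10]
  have hσ : w.σ ≤ r₀ := by linarith [hG.sg]
  have hσ2 : w.σ < r₀ / 2 := by linarith [hG.sg]
  have hpi := Real.pi_pos
  have hdl : dl N ≠ 0 := by
    unfold dl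
    have : (0 : ℝ) < N := by
      have : 0 < N := by omega
      exact_mod_cast this
    positivity
  obtain ⟨hv0, hv1, hv2⟩ := h1 N c i hN
  obtain ⟨_, _, hw2⟩ := h1 N c (i - 1) hN
  rw [sub_add_cancel] at hw2
  set V : ℝ := (c i - ⟪a, nv N i⟫ + r₀) / ρ with hV
  have hHf : Hf N c a r₀ (i * dl N) = c i - ⟪a, nv N i⟫ + r₀ := by
    unfold Hf
    rw [mul_div_assoc, div_self hdl, mul_one, Int.floor_intCast]
    show ⟪vx N c i - a, nv N i⟫ + r₀ = _
    rw [inner_sub_left, hv1]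
  have hVb : |V - 1| ≤ 1 / 20 := by
    have := hG.V1 (i * dl N)
    rwa [hHf] at this
  have hV0 : 0 ≤ V := by linarith [(abs_le.1 hVb).1]
  set l : ℝ := el N c i with hl
  have hl0 : 0 ≤ l := hS.el_nonneg i
  have hvt : ⟪vx N c i, tv N i⟫ = ⟪vx N c (i - 1), tv N i⟫ + l := by
    have : ⟪vx N c i - vx N c (i - 1), tv N i⟫ = l := by
      rw [hv0, real_inner_smul_left, (nn N i).2.2.2, mul_one]
    rw [inner_sub_left] at this
    linarith
  rcases hl0.eq_or_lt with hle | hlpos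
  · have hem : rect N c i = ∅ := by
      rw [eq_empty_iff_forall_notMem]
      rintro x ⟨_, hx1, hx2⟩
      rw [hvt, ← hle, add_zero] at hx2
      exact lt_asymm hx1 hx2
    rw [hem, inter_empty, Measure.restrict_empty, lintegral_zero_measure]
    exact bot_le
  -- the open rectangle
  set S : Set E2 := {x | (0 < ⟪x, nv N i⟫ - c i ∧ ⟪x, nv N i⟫ - c i < r₀) ∧
    (0 < ⟪x, tv N i⟫ - ⟪vx N c (i - 1), tv N i⟫ ∧
      ⟪x, tv N i⟫ - ⟪vx N c (i - 1), tv N i⟫ < l)} with hSdef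
  have hcn : Continuous fun x : E2 => ⟪x, nv N i⟫ - c i :=
    (continuous_id.inner continuous_const).sub continuous_const
  have hct : Continuous fun x : E2 => ⟪x, tv N i⟫ - ⟪vx N c (i - 1), tv N i⟫ :=
    (continuous_id.inner continuous_const).sub continuous_const
  have hSo : IsOpen S :=
    ((isOpen_lt continuous_const hcn).inter (isOpen_lt hcn continuous_const)).inter
      ((isOpen_lt continuous_const hct).inter (isOpen_lt hct continuous_const))
  -- the line where the distance is `r₀`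
  set Z : Set E2 := {x | ⟪x, nv N i⟫ - c i = r₀} with hZ
  have hZ0 : volume Z = 0 := by
    have h5 : Z = {x | ⟪x, nv N i⟫ = c i + r₀} := by
      ext x
      rw [hZ, Set.mem_ofPred_eq, Set.mem_ofPred_eq, sub_eq_iff_eq_add, add_comm]
    rw [h5]
    refine line_null _ ?_ _
    intro h
    have := norm_nv N i
    rw [h, norm_zero] at this
    exact zero_ne_one this
  have hcn' : Continuous fun x : E2 => ⟪x, nv N i⟫ := continuous_id.inner continuous_const
  have hct' : Continuous fun x : E2 => ⟪x, tv N i⟫ := continuous_id.inner continuous_const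
  have hRo : IsOpen (rect N c i) :=
    (isOpen_lt (continuous_const (y := c i)) hcn').inter
      ((isOpen_lt (continuous_const (y := ⟪vx N c (i - 1), tv N i⟫)) hct').inter
        (isOpen_lt hct' (continuous_const (y := ⟪vx N c i, tv N i⟫))))
  have hZc : IsClosed Z := isClosed_eq hcn continuous_const
  have hTm : MeasurableSet ((C ∩ rect N c i) \ Z) :=
    (hG.Cc.isClosed.measurableSet.inter hRo.measurableSet).diff hZc.measurableSet
  set F' : E2 → ℝ≥0∞ := fun x => ENNReal.ofReal (Hh k w V (r₀ - (⟪x, nv N i⟫ - c i))) with hF'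
  have hsub : (C ∩ rect N c i) \ Z ⊆ S := by
    rintro x ⟨⟨hxC, hx0, hx1, hx2⟩, hxZ⟩
    have h5 := hG.rc x hxC i hlpos
    have h6 : ⟪x, nv N i⟫ - c i ≠ r₀ := hxZ
    have h7 : ⟪x, nv N i⟫ - c i ≤ r₀ := by linarith
    rw [hvt] at hx2
    exact ⟨⟨by linarith, lt_of_le_of_ne h7 h6⟩, by linarith, by linarith⟩
  have hpt : ∀ x ∈ (C ∩ rect N c i) \ Z,
      ENNReal.ofReal (en k (uf w P a r₀ ρ d₁) x - k ^ 2) ≤ F' x := by
    intro x hx
    have hxS := hsub hx
    have hxR := hx.1.2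
    obtain ⟨⟨hs0, hs1⟩, _⟩ := hxS
    set s : ℝ := ⟪x, nv N i⟫ - c i with hs
    have hP := (h4 N c P hS hG.proj).1 i x hxR
    have hxP : x - P x = s • nv N i := by rw [hP]; abel
    have hnorm : ‖x - P x‖ = s := by
      rw [hxP, norm_smul, norm_nv, mul_one, Real.norm_eq_abs, abs_of_pos hs0]
    have hgrad := h3 w N c P a r₀ ρ d₁ i x hS hG.proj hr0 hG.ρ_pos hσ2 hG.lt hV0 hxR hs1.ne
      (hs1.trans hG.lt).ne
    have hY : Yp w r₀ d₁ s = (w.w (r₀ - s)) ^ 2 - 1 := by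
      unfold Yp
      rw [if_pos hs1.le]
    have hdY : dYp w r₀ d₁ s = -2 * w.w (r₀ - s) * w.dw (r₀ - s) := by
      unfold dYp
      rw [if_pos hs1.le]
    have hVY : Vf P a r₀ ρ x * Yp w r₀ d₁ s = V * Yp w r₀ d₁ s := by
      by_cases hs2 : r₀ / 2 ≤ s
      · rw [(h2 N c P a r₀ ρ hS hG.proj hr0 hG.ρ_pos).2.1 i x hxR (by rw [hnorm]; exact hs2)]
      · have h5 : Yp w r₀ d₁ s = 0 := by
          rw [hY, w.eq_one _ (by linarith)]
          norm_num
        rw [h5, mul_zero, mul_zero]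
    have hu : (uf w P a r₀ ρ d₁ x) ^ 2 = 1 + V * Yp w r₀ d₁ s := by
      unfold uf
      rw [hnorm, hVY, Real.sq_sqrt]
      have := mul_nonneg hV0 (Yp_nonneg w hG.lt s)
      linarith
    rw [hF']
    refine ENNReal.ofReal_le_ofReal ?_
    unfold en
    rw [hu]
    have h6 : Hh k w V (r₀ - s) = V ^ 2 * (dYp w r₀ d₁ s) ^ 2 / (4 * (1 + V * Yp w r₀ d₁ s)) +
        k ^ 2 * (V * Yp w r₀ d₁ s) := by
      rw [Hh_eq k w V _ (by linarith), hY, hdY]
      unfold fr
      have h7 := den_pos w hV0 (r₀ - s)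
      congr 1
      rw [div_eq_div_iff h7.ne' (by positivity)]
      ring
    rw [h6]
    have h8 : V ^ 2 * (dYp w r₀ d₁ s) ^ 2 / (4 * (1 + V * Yp w r₀ d₁ s)) ≥
      ‖fderiv ℝ (uf w P a r₀ ρ d₁) x‖ ^ 2 := hgrad
    linarith
  have hF'm : Measurable F' := by
    refine Measurable.ennreal_ofReal ?_
    exact ((Hh_cont k w hV0).comp (continuous_const.sub hcn)).measurable
  calc ∫⁻ x in C ∩ rect N c i, ENNReal.ofReal (en k (uf w P a r₀ ρ d₁) x - k ^ 2)
      = ∫⁻ x in (C ∩ rect N c i) \ Z, ENNReal.ofReal (en k (uf w P a r₀ ρ d₁) x - k ^ 2) :=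
        setLIntegral_congr (sdiff_null_ae_eq_self hZ0).symm
    _ ≤ ∫⁻ x in (C ∩ rect N c i) \ Z, F' x := setLIntegral_mono' hTm hpt
    _ ≤ ∫⁻ x in S, F' x := lintegral_mono_set hsub
    _ = ∫⁻ x, S.indicator F' x := (lintegral_indicator hSo.measurableSet _).symm
    _ = ∫⁻ t : ℝ, ∫⁻ s : ℝ, S.indicator F' (vx N c (i - 1) + s • nv N i + t • rot (nv N i)) :=
        hq _ _ _ (norm_nv N i) (hF'm.indicator hSo.measurableSet)
    _ = ∫⁻ t : ℝ, (Ioo (0 : ℝ) l).indicator (fun _ => (1 : ℝ≥0∞)) t *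
          ∫⁻ s in Ioo (0 : ℝ) r₀, ENNReal.ofReal (Hh k w V (r₀ - s)) := by
        refine lintegral_congr fun t => ?_
        rw [← lintegral_indicator measurableSet_Ioo, ← lintegral_const_mul]
        · refine lintegral_congr fun s => ?_
          set x : E2 := vx N c (i - 1) + s • nv N i + t • rot (nv N i) with hx
          have e1 : ⟪x, nv N i⟫ - c i = s := by
            rw [hx, inner_add_left, inner_add_left, real_inner_smul_left, real_inner_smul_left, hw2,
              (nn N i).1]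
            show c i + s * 1 + t * ⟪tv N i, nv N i⟫ - c i = s
            rw [(nn N i).2.2.1]
            ring
          have e2 : ⟪x, tv N i⟫ - ⟪vx N c (i - 1), tv N i⟫ = t := by
            rw [hx, inner_add_left, inner_add_left, real_inner_smul_left, real_inner_smul_left,
              (nn N i).2.1]
            show ⟪vx N c (i - 1), tv N i⟫ + s * 0 + t * ⟪tv N i, tv N i⟫ - _ = t
            rw [(nn N i).2.2.2]
            ring
          by_cases hxS : x ∈ S
          · have hxS' := hxS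
            rw [hSdef, Set.mem_ofPred_eq, e1, e2] at hxS'
            rw [indicator_of_mem hxS, indicator_of_mem (show t ∈ Ioo (0 : ℝ) l from hxS'.2),
              indicator_of_mem (show s ∈ Ioo (0 : ℝ) r₀ from hxS'.1), one_mul]
            show ENNReal.ofReal (Hh k w V (r₀ - (⟪x, nv N i⟫ - c i))) = _
            rw [e1]
          · rw [indicator_of_notMem hxS]
            rw [hSdef, Set.mem_ofPred_eq, e1, e2, not_and_or] at hxS
            rcases hxS with h5 | h5
            · rw [indicator_of_notMem (show s ∉ Ioo (0 : ℝ) r₀ from h5), mul_zero]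
            · rw [indicator_of_notMem (show t ∉ Ioo (0 : ℝ) l from h5), zero_mul]
        · exact (((Hh_cont k w hV0).comp
            (continuous_const.sub continuous_id)).measurable.ennreal_ofReal).indicator
              measurableSet_Ioo
    _ = ENNReal.ofReal (l * ∫ s in (0 : ℝ)..w.σ, fr k w V s) := by
        rw [lintegral_mul_const _ (measurable_const.indicator measurableSet_Ioo),
          lintegral_indicator measurableSet_Ioo, setLIntegral_const, one_mul, Real.volume_Ioo,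
          sub_zero, int_eq k w hV0 hσ, ENNReal.ofReal_mul hl0]

end Pool.Agent.Robin

end

section

/-!
# MP_4b551e_an, item U6: boundary integral over a rectangle
-/

open MeasureTheory Set Metric
open scoped ENNReal NNReal Pointwise RealInnerProductSpace

namespace Pool.Agent.Robin

namespace U6

lemma inner2 (x y : E2) : ⟪x, y⟫ = x 0 * y 0 + x 1 * y 1 := by
  simp [PiLp.inner_apply, Fin.sum_univ_two]; ring

lemma dirv0 (θ : ℝ) : dirv θ 0 = Real.cos θ := by simp [dirv]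
lemma dirv1 (θ : ℝ) : dirv θ 1 = Real.sin θ := by simp [dirv]
lemma rot0 (v : E2) : rot v 0 = - v 1 := by simp [rot]
lemma rot1 (v : E2) : rot v 1 = v 0 := by simp [rot]

lemma inner_dirv_self (θ : ℝ) : ⟪dirv θ, dirv θ⟫ = 1 := by
  rw [inner2, dirv0, dirv1]
  nlinarith [Real.sin_sq_add_cos_sq θ]

lemma inner_dirv_rot (θ : ℝ) : ⟪dirv θ, rot (dirv θ)⟫ = 0 := by
  rw [inner2, rot0, rot1]; ring

lemma inner_rot_rot (θ : ℝ) : ⟪rot (dirv θ), rot (dirv θ)⟫ = 1 := by
  rw [inner2, rot0, rot1, dirv0, dirv1]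
  nlinarith [Real.sin_sq_add_cos_sq θ]

lemma norm_dirv (θ : ℝ) : ‖dirv θ‖ = 1 := by
  have h : ‖dirv θ‖ ^ 2 = 1 := by rw [← real_inner_self_eq_norm_sq, inner_dirv_self]
  have h0 : 0 ≤ ‖dirv θ‖ := norm_nonneg _
  nlinarith

lemma proj_cont {D : Set E2} {P : E2 → E2} (h : IsProj D P) : Continuous P := by
  have hl : ∀ x y, ‖P x - P y‖ ≤ ‖x - y‖ := by
    intro x y
    have h1 := (h x).2 (P y) (h y).1
    have h2 := (h y).2 (P x) (h x).1
    have h3 : ⟪(x - P x) - (y - P y), P y - P x⟫ ≤ 0 := by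
      rw [inner_sub_left]
      have : ⟪y - P y, P y - P x⟫ = - ⟪y - P y, P x - P y⟫ := by
        rw [← neg_sub (P x) (P y), inner_neg_right]
      linarith
    have h4 : (x - P x) - (y - P y) = (x - y) + (P y - P x) := by abel
    rw [h4, inner_add_left, real_inner_self_eq_norm_sq] at h3
    have h5 : ⟪x - y, P y - P x⟫ = - ⟪x - y, P x - P y⟫ := by
      rw [← neg_sub (P x) (P y), inner_neg_right]
    have h6 : ⟪x - y, P x - P y⟫ ≤ ‖x - y‖ * ‖P x - P y‖ := real_inner_le_norm _ _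
    rw [h5, norm_sub_rev] at h3
    by_contra hcon
    push Not at hcon
    have h7 : 0 ≤ ‖x - y‖ := norm_nonneg _
    nlinarith
  have : LipschitzWith 1 P := by
    apply LipschitzWith.of_dist_le_mul
    intro x y
    rw [dist_eq_norm, dist_eq_norm]
    simpa using hl x y
  exact this.continuous

lemma Yp_meas (w : Profile) (r₀ d₁ : ℝ) : Measurable (Yp w r₀ d₁) := by
  unfold Yp
  apply Measurable.ite measurableSet_Iic
  · exact ((w.w_cont.measurable.comp (measurable_const.sub measurable_id)).pow_const 2).sub_const 1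
  · have : Continuous (fun d : ℝ => (w.w 0) ^ 2 * Real.exp (2 * (min d d₁ - r₀)) - 1) := by
      fun_prop
    exact this.measurable

lemma uf_meas (w : Profile) {D : Set E2} {P : E2 → E2} (h : IsProj D P) (a : E2) (r₀ ρ d₁ : ℝ)
    (hr : 0 < r₀) : Measurable (uf w P a r₀ ρ d₁) := by
  have hP := proj_cont h
  have hN : Continuous (fun x => ‖x - P x‖) := (continuous_id.sub hP).norm
  have hV : Continuous (Vf P a r₀ ρ) := by
    unfold Vf
    have h1 : Continuous (fun x => (max ‖x - P x‖ (r₀ / 2))⁻¹) := by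
      apply Continuous.inv₀ (hN.max continuous_const)
      intro x
      have : r₀ / 2 ≤ max ‖x - P x‖ (r₀ / 2) := le_max_right _ _
      have : 0 < max ‖x - P x‖ (r₀ / 2) := by linarith
      exact this.ne'
    have h2 : Continuous (fun x => (max ‖x - P x‖ (r₀ / 2))⁻¹ • (x - P x)) :=
      h1.smul (continuous_id.sub hP)
    exact (((hP.sub continuous_const).inner h2).add continuous_const).div_const _
  unfold uf
  apply Measurable.sqrt
  exact measurable_const.add (hV.measurable.mul ((Yp_meas w r₀ d₁).comp hN.measurable))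

lemma w_anti (w : Profile) {s t : ℝ} (hs : 0 ≤ s) (hst : s ≤ t) : w.w t ≤ w.w s := by
  have h : AntitoneOn w.w (Ici 0) := by
    apply antitoneOn_of_deriv_nonpos (convex_Ici 0) w.w_cont.continuousOn
    · intro x hx
      rw [interior_Ici] at hx
      exact (w.deriv x hx).differentiableAt.differentiableWithinAt
    · intro x hx
      rw [interior_Ici] at hx
      rw [(w.deriv x hx).deriv]
      exact w.dw_nonpos x (le_of_lt hx)
  exact h hs (le_trans hs hst) hst

lemma preconn_frontier {X : Type*} [TopologicalSpace X] {t s : Set X} (ht : IsPreconnected t)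
    (h1 : (t ∩ s).Nonempty) (h2 : (t ∩ sᶜ).Nonempty) : (t ∩ frontier s).Nonempty := by
  by_contra hcon
  rw [not_nonempty_iff_eq_empty] at hcon
  have hsub : t ⊆ interior s ∪ (closure s)ᶜ := by
    intro x hx
    by_cases hi : x ∈ interior s
    · exact Or.inl hi
    · refine Or.inr fun hc => ?_
      have : x ∈ t ∩ frontier s := ⟨hx, hc, hi⟩
      rw [hcon] at this
      exact this
  obtain ⟨x, hx, hx1, hx2⟩ := ht (interior s) (closure s)ᶜ isOpen_interior
    isClosed_closure.isOpen_compl hsub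
    (by
      obtain ⟨x, hx, hxs⟩ := h1
      rcases hsub hx with h | h
      · exact ⟨x, hx, h⟩
      · exact absurd (subset_closure hxs) h)
    (by
      obtain ⟨x, hx, hxs⟩ := h2
      rcases hsub hx with h | h
      · exact absurd (interior_subset h) hxs
      · exact ⟨x, hx, h⟩)
  exact hx2 (interior_subset_closure hx1)

lemma rect_meas (N : ℕ) (c : ℤ → ℝ) (i : ℤ) : MeasurableSet (rect N c i) := by
  have h1 : Continuous (fun x : E2 => ⟪x, nv N i⟫) := by fun_prop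
  have h2 : Continuous (fun x : E2 => ⟪x, tv N i⟫) := by fun_prop
  have : IsOpen (rect N c i) := by
    have e : rect N c i = {x | c i < ⟪x, nv N i⟫} ∩ ({x | ⟪vx N c (i - 1), tv N i⟫ < ⟪x, tv N i⟫} ∩
        {x | ⟪x, tv N i⟫ < ⟪vx N c i, tv N i⟫}) := rfl
    rw [e]
    exact (isOpen_lt continuous_const h1).inter
      ((isOpen_lt continuous_const h2).inter (isOpen_lt h2 continuous_const))
  exact this.measurableSet

end U6

open U6 in
theorem pr_U6 (h1 : T_P1) (h2p : T_P2) (h4 : T_P4) (hq : T_Q4) (h2 : T_U2) : T_U6 := by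
  intro k w N c P a r₀ ρ d₁ η C i hG
  have hN := hG.supp.N_le
  have hl0 : 0 ≤ el N c i := hG.supp.el_nonneg i
  rcases hl0.eq_or_lt with hl | hl
  · rw [← hl]; simp
  have hr0 : 0 < r₀ := by linarith [hG.r₀10]
  have hnn : ⟪nv N i, nv N i⟫ = 1 := inner_dirv_self _
  have htt : ⟪tv N i, tv N i⟫ = 1 := inner_rot_rot _
  have hnt : ⟪nv N i, tv N i⟫ = 0 := inner_dirv_rot _
  have htn : ⟪tv N i, nv N i⟫ = 0 := by rw [real_inner_comm]; exact hnt
  have hn1 : ‖nv N i‖ = 1 := norm_dirv _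
  have hrot : rot (nv N i) = tv N i := rfl
  -- vertices
  have hv := (h1 N c i hN).1
  have hvn : ⟪vx N c (i - 1), nv N i⟫ = c i := by
    have := (h1 N c (i - 1) hN).2.2
    rwa [show i - 1 + 1 = i by ring] at this
  have hvi : vx N c i = vx N c (i - 1) + el N c i • tv N i := by rw [← hv]; abel
  have hvt : ⟪vx N c i, tv N i⟫ = ⟪vx N c (i - 1), tv N i⟫ + el N c i := by
    rw [hvi, inner_add_left, real_inner_smul_left, htt, mul_one]
  have hCclosed : IsClosed C := hG.Cc.isClosed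
  -- the key pointwise statement
  have key : ∀ t ∈ Ioo (0 : ℝ) (el N c i), ∃ s : ℝ,
      vx N c (i - 1) + s • nv N i + t • rot (nv N i) ∈ frontier C ∩ rect N c i ∧
      1 + (c i - ⟪a, nv N i⟫ + r₀) / ρ * ((w.w η) ^ 2 - 1) ≤
        (uf w P a r₀ ρ d₁ (vx N c (i - 1) + s • nv N i + t • rot (nv N i))) ^ 2 := by
    intro t ht
    rw [hrot]
    -- the foot point
    have hy : vx N c (i - 1) + t • tv N i ∈ poly N c := by
      intro j
      have k1 := h2p N c hG.supp (i - 1) j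
      have k2 := h2p N c hG.supp i j
      rw [hvi, inner_add_left, real_inner_smul_left] at k2
      rw [inner_add_left, real_inner_smul_left]
      by_cases hs : 0 ≤ ⟪tv N i, nv N j⟫
      · have : t * ⟪tv N i, nv N j⟫ ≤ el N c i * ⟪tv N i, nv N j⟫ :=
          mul_le_mul_of_nonneg_right ht.2.le hs
        linarith
      · have : t * ⟪tv N i, nv N j⟫ ≤ 0 :=
          mul_nonpos_of_nonneg_of_nonpos ht.1.le (le_of_lt (not_le.1 hs))
        linarith
    have hyint := hG.sub hy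
    -- the ray leaves `C`
    obtain ⟨M, hM⟩ := hG.Cc.isBounded.exists_norm_le
    set y := vx N c (i - 1) + t • tv N i with hydef
    have hray : (((fun s : ℝ => y + s • nv N i) '' Ici 0) ∩ frontier C).Nonempty := by
      apply preconn_frontier
      · exact isPreconnected_Ici.image _ (by fun_prop)
      · refine ⟨y, ⟨0, by simp, by simp⟩, interior_subset hyint⟩
      · refine ⟨y + (‖y‖ + |M| + 1) • nv N i, ⟨‖y‖ + |M| + 1, ?_, rfl⟩, ?_⟩
        · show (0 : ℝ) ≤ _
          positivity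
        · intro hmem
          have k3 := hM _ hmem
          have k4 : ‖(‖y‖ + |M| + 1) • nv N i‖ ≤ ‖y + (‖y‖ + |M| + 1) • nv N i‖ + ‖y‖ := by
            calc ‖(‖y‖ + |M| + 1) • nv N i‖ = ‖(y + (‖y‖ + |M| + 1) • nv N i) - y‖ := by
                  congr 1; abel
              _ ≤ _ := norm_sub_le _ _
          rw [norm_smul, hn1, mul_one, Real.norm_of_nonneg (by positivity)] at k4
          have k5 := le_abs_self M
          linarith
    obtain ⟨_, ⟨s, hs0, rfl⟩, hfr⟩ := hray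
    have hs0' : (0 : ℝ) ≤ s := hs0
    have hfr' : y + s • nv N i ∈ frontier C := hfr
    have hxC : y + s • nv N i ∈ C := hCclosed.frontier_subset hfr'
    have hsη : r₀ - η ≤ s := by
      have := hG.fr _ hfr' y hy
      rw [add_sub_cancel_left, norm_smul, hn1, mul_one, Real.norm_of_nonneg hs0'] at this
      exact this
    have hη := hG.η1
    have hspos : 0 < s := by linarith
    have hyn : ⟪y, nv N i⟫ = c i := by
      rw [hydef, inner_add_left, real_inner_smul_left, htn, hvn]; ring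
    have hyt : ⟪y, tv N i⟫ = ⟪vx N c (i - 1), tv N i⟫ + t := by
      rw [hydef, inner_add_left, real_inner_smul_left, htt]; ring
    have hxn : ⟪y + s • nv N i, nv N i⟫ = c i + s := by
      rw [inner_add_left, real_inner_smul_left, hnn, hyn]; ring
    have hxt : ⟪y + s • nv N i, tv N i⟫ = ⟪vx N c (i - 1), tv N i⟫ + t := by
      rw [inner_add_left, real_inner_smul_left, hnt, hyt]; ring
    have hsr : s ≤ r₀ := by
      have := hG.rc _ hxC i hl
      rw [hxn] at this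
      linarith
    have hrect : y + s • nv N i ∈ rect N c i := by
      refine ⟨?_, ?_, ?_⟩
      · rw [hxn]; linarith
      · rw [hxt]; linarith [ht.1]
      · rw [hxt, hvt]; linarith [ht.2]
    have hPx : P (y + s • nv N i) = y := by
      rw [(h4 N c P hG.supp hG.proj).1 i _ hrect, hxn, add_sub_cancel_left, add_sub_cancel_right]
    have hnorm : ‖(y + s • nv N i) - P (y + s • nv N i)‖ = s := by
      rw [hPx, add_sub_cancel_left, norm_smul, hn1, mul_one, Real.norm_of_nonneg hs0']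
    have hU2 := h2 N c P a r₀ ρ hG.supp hG.proj hr0 hG.ρ_pos
    have hhalf : r₀ / 2 ≤ ‖(y + s • nv N i) - P (y + s • nv N i)‖ := by
      rw [hnorm]; linarith
    have hV := hU2.2.1 i _ hrect hhalf
    have hVpos : 0 ≤ (c i - ⟪a, nv N i⟫ + r₀) / ρ := by
      obtain ⟨θ, hθ⟩ := hU2.1 _ hhalf
      rw [← hV, hθ]
      have := abs_le.1 (hG.V1 θ)
      linarith [this.1]
    have hYp : Yp w r₀ d₁ s = (w.w (r₀ - s)) ^ 2 - 1 := by
      unfold Yp; rw [if_pos hsr]
    have hw1 := w.one_le η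
    have hw2 : w.w η ≤ w.w (r₀ - s) := w_anti w (by linarith) (by linarith)
    have hsq : (w.w η) ^ 2 ≤ (w.w (r₀ - s)) ^ 2 := by
      apply pow_le_pow_left₀ (by linarith) hw2
    have hre : vx N c (i - 1) + s • nv N i + t • tv N i = y + s • nv N i := by
      rw [hydef]; abel
    refine ⟨s, ?_, ?_⟩
    · rw [hre]; exact ⟨hfr', hrect⟩
    · rw [hre]
      unfold uf
      rw [hnorm, hV, hYp]
      have hge : 1 + (c i - ⟪a, nv N i⟫ + r₀) / ρ * ((w.w η) ^ 2 - 1) ≤
          1 + (c i - ⟪a, nv N i⟫ + r₀) / ρ * ((w.w (r₀ - s)) ^ 2 - 1) := by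
        have := mul_le_mul_of_nonneg_left (sub_le_sub_right hsq 1) hVpos
        linarith
      have hge1 : 0 ≤ 1 + (c i - ⟪a, nv N i⟫ + r₀) / ρ * ((w.w (r₀ - s)) ^ 2 - 1) := by
        have : 1 ≤ (w.w (r₀ - s)) ^ 2 := by nlinarith
        have := mul_nonneg hVpos (sub_nonneg.2 this)
        linarith
      rw [Real.sq_sqrt hge1]
      exact hge
  -- integration
  have hmeasf : Measurable (fun x => ENNReal.ofReal ((uf w P a r₀ ρ d₁ x) ^ 2)) :=
    ((uf_meas w hG.proj a r₀ ρ d₁ hr0).pow_const 2).ennreal_ofReal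
  have hmeasS : MeasurableSet (frontier C ∩ rect N c i) :=
    isClosed_frontier.measurableSet.inter (rect_meas N c i)
  have hQ := hq (vx N c (i - 1)) (nv N i) 0 (el N c i) (frontier C ∩ rect N c i)
    (fun x => ENNReal.ofReal ((uf w P a r₀ ρ d₁ x) ^ 2)) hn1 hmeasS hmeasf
  calc ENNReal.ofReal (el N c i * (1 + (c i - ⟪a, nv N i⟫ + r₀) / ρ * ((w.w η) ^ 2 - 1)))
      = ∫⁻ _ in Ioo (0 : ℝ) (el N c i),
          ENNReal.ofReal (1 + (c i - ⟪a, nv N i⟫ + r₀) / ρ * ((w.w η) ^ 2 - 1)) := by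
        rw [setLIntegral_const, Real.volume_Ioo, sub_zero, mul_comm, ENNReal.ofReal_mul' hl.le]
    _ ≤ ∫⁻ t in Ioo (0 : ℝ) (el N c i), (⨆ (s : ℝ)
          (_ : vx N c (i - 1) + s • nv N i + t • rot (nv N i) ∈ frontier C ∩ rect N c i),
          ENNReal.ofReal ((uf w P a r₀ ρ d₁
            (vx N c (i - 1) + s • nv N i + t • rot (nv N i))) ^ 2)) := by
        apply setLIntegral_mono' measurableSet_Ioo
        intro t ht
        obtain ⟨s, hs, hsu⟩ := key t ht
        exact (ENNReal.ofReal_le_ofReal hsu).trans (le_iSup₂_of_le s hs le_rfl)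
    _ ≤ _ := hQ
    _ ≤ _ := lintegral_mono_set inter_subset_left

end Pool.Agent.Robin

end

section

/-!
# MP_4b551e_an, item U7: the baseline function in a sector
-/

open MeasureTheory Set Metric
open scoped ENNReal NNReal Pointwise RealInnerProductSpace

namespace Pool.Agent.Robin
namespace U7

/-- Clamp of the depth. -/
noncomputable def cl (w : Profile) (s : ℝ) : ℝ := min (max s 0) w.σ

lemma cl_nonneg (w : Profile) (s : ℝ) : 0 ≤ cl w s := le_min (le_max_right _ _) w.σ_pos.le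
lemma cl_le (w : Profile) (s : ℝ) : cl w s ≤ w.σ := min_le_right _ _
lemma cl_of_mem (w : Profile) {s : ℝ} (h0 : 0 ≤ s) (h1 : s ≤ w.σ) : cl w s = s := by
  rw [cl, max_eq_left h0, min_eq_left h1]
lemma cl_of_ge (w : Profile) {s : ℝ} (h1 : w.σ ≤ s) : cl w s = w.σ := by
  rw [cl, min_eq_right (h1.trans (le_max_left _ _))]

lemma cl_cont (w : Profile) : Continuous (cl w) := by
  unfold cl
  fun_prop

/-- Clamped version of the integrand. -/
noncomputable def Phi (k : ℝ) (w : Profile) (r₀ V V' s : ℝ) : ℝ :=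
  fs k w r₀ (max V 0) V' (cl w s) * (r₀ - cl w s)

lemma sq_ge (w : Profile) (s : ℝ) : 0 ≤ (w.w s) ^ 2 - 1 := by
  have := w.one_le s
  nlinarith

lemma den_pos (w : Profile) {V : ℝ} (hV : 0 ≤ V) (s : ℝ) : 0 < 1 + V * ((w.w s) ^ 2 - 1) := by
  have := sq_ge w s
  positivity

lemma Phi_cont {k : ℝ} {w : Profile} {r₀ : ℝ} (hr : w.σ < r₀) :
    Continuous fun p : (ℝ × ℝ) × ℝ => Phi k w r₀ p.1.1 p.1.2 p.2 := by
  have c1 : Continuous fun p : (ℝ × ℝ) × ℝ => cl w p.2 := (cl_cont w).comp continuous_snd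
  have c2 : Continuous fun p : (ℝ × ℝ) × ℝ => w.w (cl w p.2) := w.w_cont.comp c1
  have c3 : Continuous fun p : (ℝ × ℝ) × ℝ => w.dw (cl w p.2) :=
    w.dw_cont.comp_continuous c1 fun p => cl_nonneg w _
  have c4 : Continuous fun p : (ℝ × ℝ) × ℝ => max p.1.1 0 := by fun_prop
  have c5 : Continuous fun p : (ℝ × ℝ) × ℝ => p.1.2 := by fun_prop
  have d1 : ∀ p : (ℝ × ℝ) × ℝ, 1 + max p.1.1 0 * ((w.w (cl w p.2)) ^ 2 - 1) ≠ 0 := fun p =>
    (den_pos w (le_max_right _ _) _).ne'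
  have d2 : ∀ p : (ℝ × ℝ) × ℝ, r₀ - cl w p.2 ≠ 0 := fun p => by
    have := cl_le w p.2
    linarith
  unfold Phi fs fr
  refine Continuous.mul ?_ (continuous_const.sub c1)
  refine Continuous.add (Continuous.add ?_ ?_) ?_
  · exact Continuous.div (((c4.pow 2).mul (c2.pow 2)).mul (c3.pow 2))
      (continuous_const.add (c4.mul ((c2.pow 2).sub continuous_const))) d1
  · exact continuous_const.mul (c4.mul ((c2.pow 2).sub continuous_const))
  · refine Continuous.div ((c5.pow 2).mul (((c2.pow 2).sub continuous_const).pow 2))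
      ((continuous_const.mul ((continuous_const.sub c1).pow 2)).mul
        (continuous_const.add (c4.mul ((c2.pow 2).sub continuous_const)))) fun p => ?_
    exact mul_ne_zero (mul_ne_zero (by norm_num) (pow_ne_zero _ (d2 p))) (d1 p)

lemma Phi_nonneg {k : ℝ} {w : Profile} {r₀ : ℝ} (hr : w.σ < r₀) (V V' s : ℝ) :
    0 ≤ Phi k w r₀ V V' s := by
  unfold Phi fs fr
  have h1 := den_pos w (le_max_right V 0) (cl w s)
  have h2 := sq_ge w (cl w s)
  have h3 : 0 < r₀ - cl w s := by have := cl_le w s; linarith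
  have h4 : 0 ≤ max V 0 := le_max_right _ _
  refine mul_nonneg (add_nonneg (add_nonneg (div_nonneg ?_ h1.le) ?_) (div_nonneg ?_ ?_)) h3.le
  · positivity
  · positivity
  · positivity
  · positivity

lemma Phi_mem {k : ℝ} {w : Profile} {r₀ V V' s : ℝ} (hV : 0 ≤ V) (h0 : 0 ≤ s) (h1 : s ≤ w.σ) :
    Phi k w r₀ V V' s = fs k w r₀ V V' s * (r₀ - s) := by
  rw [Phi, max_eq_left hV, cl_of_mem w h0 h1]

lemma Phi_ge {k : ℝ} {w : Profile} {r₀ V V' s : ℝ} (h1 : w.σ ≤ s) :
    Phi k w r₀ V V' s = 0 := by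
  rw [Phi, cl_of_ge w h1, fs, fr, w.eq_one _ le_rfl, w.dw_zero _ le_rfl]
  simp

/-- Density along the ray. -/
noncomputable def Gd (k : ℝ) (w : Profile) (r₀ d₁ V V' d : ℝ) : ℝ :=
  (V ^ 2 * (dYp w r₀ d₁ d) ^ 2 + V' ^ 2 * (Yp w r₀ d₁ d) ^ 2 / d ^ 2) /
    (4 * (1 + V * Yp w r₀ d₁ d)) + k ^ 2 * (V * Yp w r₀ d₁ d)

lemma Yp_le {w : Profile} {r₀ d₁ d : ℝ} (h : d ≤ r₀) :
    Yp w r₀ d₁ d = (w.w (r₀ - d)) ^ 2 - 1 := by rw [Yp, if_pos h]

lemma Yp_gt {w : Profile} {r₀ d₁ d : ℝ} (h : r₀ < d) (h1 : d ≤ d₁) :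
    Yp w r₀ d₁ d = (w.w 0) ^ 2 * Real.exp (2 * (d - r₀)) - 1 := by
  rw [Yp, if_neg h.not_ge, min_eq_left h1]

lemma Yp_nonneg {w : Profile} {r₀ d₁ : ℝ} (hr : r₀ ≤ d₁) (d : ℝ) : 0 ≤ Yp w r₀ d₁ d := by
  unfold Yp
  split_ifs with h
  · exact sq_ge w _
  · have h1 : 1 ≤ Real.exp (2 * (min d d₁ - r₀)) := by
      apply Real.one_le_exp
      have : r₀ ≤ min d d₁ := le_min (by linarith) hr
      linarith
    have h2 := w.one_le 0
    nlinarith [mul_le_mul (show (1 : ℝ) ≤ (w.w 0) ^ 2 by nlinarith) h1 (by norm_num)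
      (by positivity)]

lemma Gd_le {k : ℝ} {w : Profile} {r₀ d₁ V V' d : ℝ} (hV : 0 ≤ V) (hd : 0 < d) (h : d ≤ r₀) :
    Gd k w r₀ d₁ V V' d * d = Phi k w r₀ V V' (r₀ - d) := by
  rw [Gd, Yp_le h, dYp, if_pos h]
  rcases le_total (r₀ - d) w.σ with h1 | h1
  · rw [Phi_mem hV (by linarith) h1, fs, fr, sub_sub_cancel]
    have h2 := (den_pos w hV (r₀ - d)).ne'
    have h3 := hd.ne'
    field_simp
    ring
  · rw [Phi_ge h1, w.eq_one _ h1, w.dw_zero _ h1]
    simp

lemma w_anti (w : Profile) {s t : ℝ} (hs : 0 ≤ s) (hst : s ≤ t) : w.w t ≤ w.w s := by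
  have : AntitoneOn w.w (Ici 0) := by
    apply antitoneOn_of_deriv_nonpos (convex_Ici 0) w.w_cont.continuousOn
    · intro x hx
      rw [interior_Ici] at hx
      exact (w.deriv x hx).differentiableAt.differentiableWithinAt
    · intro x hx
      rw [interior_Ici] at hx
      rw [(w.deriv x hx).deriv]
      exact w.dw_nonpos x (le_of_lt hx)
  exact this hs (hs.trans hst) hst

lemma Phi_cont_s {k : ℝ} {w : Profile} {r₀ : ℝ} (hr : w.σ < r₀) (V V' : ℝ) :
    Continuous fun s => Phi k w r₀ V V' s :=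
  (Phi_cont (k := k) hr).comp (show Continuous fun s : ℝ => ((V, V'), s) by fun_prop)

lemma int_Phi {k : ℝ} {w : Profile} {r₀ V V' : ℝ} (hr : w.σ < r₀) (hV : 0 ≤ V) :
    ∫ s in (0 : ℝ)..r₀, Phi k w r₀ V V' s =
      ∫ s in (0 : ℝ)..w.σ, fs k w r₀ V V' s * (r₀ - s) := by
  have hc : Continuous fun s => Phi k w r₀ V V' s := Phi_cont_s hr V V'
  rw [← intervalIntegral.integral_add_adjacent_intervals (hc.intervalIntegrable 0 w.σ)
    (hc.intervalIntegrable w.σ r₀)]
  have e1 : ∫ s in (0 : ℝ)..w.σ, Phi k w r₀ V V' s =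
      ∫ s in (0 : ℝ)..w.σ, fs k w r₀ V V' s * (r₀ - s) := by
    apply intervalIntegral.integral_congr
    intro s hs
    rw [uIcc_of_le w.σ_pos.le] at hs
    exact Phi_mem hV hs.1 hs.2
  have e2 : ∫ s in w.σ..r₀, Phi k w r₀ V V' s = ∫ s in w.σ..r₀, (0 : ℝ) := by
    apply intervalIntegral.integral_congr
    intro s hs
    rw [uIcc_of_le hr.le] at hs
    exact Phi_ge hs.1
  rw [e1, e2]
  simp

lemma lint_Gd {k : ℝ} {w : Profile} {r₀ d₁ V V' : ℝ} (hr : w.σ < r₀) (hV : 0 ≤ V) :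
    ∫⁻ d in Ioc 0 r₀, ENNReal.ofReal (Gd k w r₀ d₁ V V' d * d) =
      ENNReal.ofReal (∫ s in (0 : ℝ)..w.σ, fs k w r₀ V V' s * (r₀ - s)) := by
  have hc : Continuous fun s => Phi k w r₀ V V' s := Phi_cont_s hr V V'
  have hc' : Continuous fun d => Phi k w r₀ V V' (r₀ - d) :=
    hc.comp (continuous_const.sub continuous_id)
  have h0 : 0 < r₀ := w.σ_pos.trans hr
  have e1 : ∫⁻ d in Ioc 0 r₀, ENNReal.ofReal (Gd k w r₀ d₁ V V' d * d) =
      ∫⁻ d in Ioc 0 r₀, ENNReal.ofReal (Phi k w r₀ V V' (r₀ - d)) := by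
    apply setLIntegral_congr_fun measurableSet_Ioc
    intro d hd
    simp only
    rw [Gd_le hV hd.1 hd.2]
  rw [e1, ← ofReal_integral_eq_lintegral_ofReal, ← intervalIntegral.integral_of_le h0.le,
    intervalIntegral.integral_comp_sub_left (fun s => Phi k w r₀ V V' s) r₀, sub_self, sub_zero,
    int_Phi hr hV]
  · exact (hc'.integrableOn_Icc (a := 0) (b := r₀)).mono_set Ioc_subset_Icc_self
  · exact Filter.Eventually.of_forall fun d => Phi_nonneg hr _ _ _

/-- The integrand outside `r₀`. -/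
noncomputable def Ex (k w0 V V' r₀ d : ℝ) : ℝ :=
  ((V ^ 2 * (2 * w0 ^ 2 * Real.exp (2 * (d - r₀))) ^ 2 +
      V' ^ 2 * (w0 ^ 2 * Real.exp (2 * (d - r₀)) - 1) ^ 2 / d ^ 2) /
        (4 * (1 + V * (w0 ^ 2 * Real.exp (2 * (d - r₀)) - 1))) +
      k ^ 2 * (V * (w0 ^ 2 * Real.exp (2 * (d - r₀)) - 1))) * d

lemma exp_ge {w0 r₀ d : ℝ} (h : 1 ≤ w0) (hd : r₀ ≤ d) :
    0 ≤ w0 ^ 2 * Real.exp (2 * (d - r₀)) - 1 := by
  have h1 : 1 ≤ Real.exp (2 * (d - r₀)) := Real.one_le_exp (by linarith)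
  nlinarith [mul_le_mul (show (1 : ℝ) ≤ w0 ^ 2 by nlinarith) h1 (by norm_num)
      (by positivity)]

lemma Ex_nonneg {k w0 V V' r₀ d : ℝ} (h : 1 ≤ w0) (hV : 0 ≤ V) (h0 : 0 < r₀) (hd : r₀ ≤ d) :
    0 ≤ Ex k w0 V V' r₀ d := by
  have h1 := exp_ge h hd
  have h2 : 0 < d := h0.trans_le hd
  unfold Ex
  positivity

lemma Ex_cont {k w0 V V' r₀ S : ℝ} (h : 1 ≤ w0) (hV : 0 ≤ V) (h0 : 0 < r₀) :
    ContinuousOn (Ex k w0 V V' r₀) (Icc r₀ S) := by
  unfold Ex
  refine ContinuousOn.mul (ContinuousOn.add (ContinuousOn.div (ContinuousOn.add ?_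
    (ContinuousOn.div ?_ ?_ ?_)) ?_ ?_) ?_) ?_
  · fun_prop
  · fun_prop
  · fun_prop
  · intro d hd
    have : 0 < d := h0.trans_le hd.1
    positivity
  · fun_prop
  · intro d hd
    have := exp_ge h hd.1
    positivity
  · fun_prop
  · fun_prop

/-- The estimate along one ray. -/
lemma ray {k : ℝ} {w : Profile} {r₀ d₁ η V V' S : ℝ} (hw : T_W3) (hk : 1 ≤ k)
    (hr : 10 ≤ r₀) (hσ : w.σ < r₀) (hd : r₀ < d₁) (hdk : d₁ * (k ^ 2 - 1) ≤ 4 / 5)
    (hη0 : 0 ≤ η) (hη : η ≤ r₀) (hV : |V - 1| ≤ 1 / 20) (hV' : |V'| ≤ 2)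
    (hS1 : r₀ - η ≤ S) (hS2 : S < d₁) :
    (∫⁻ d in Ioc 0 S, ENNReal.ofReal (Gd k w r₀ d₁ V V' d * d)) +
        ENNReal.ofReal ((1 + V * ((w.w η) ^ 2 - 1)) * (r₀ - η)) ≤
      ENNReal.ofReal ((1 + V * Yp w r₀ d₁ S) * S) +
        ENNReal.ofReal (∫ s in (0 : ℝ)..w.σ, fs k w r₀ V V' s * (r₀ - s)) := by
  have hV0 : 0 ≤ V := by have := (abs_le.1 hV).1; linarith
  have hwη := sq_ge w η
  rcases le_or_gt S r₀ with hS | hS
  · rw [add_comm]
    refine add_le_add ?_ ?_
    · apply ENNReal.ofReal_le_ofReal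
      rw [Yp_le hS]
      have h1 : w.w η ≤ w.w (r₀ - S) := w_anti w (by linarith) (by linarith)
      have h2 := w.one_le η
      have h3 : (w.w η) ^ 2 - 1 ≤ (w.w (r₀ - S)) ^ 2 - 1 := by nlinarith
      have h4 : 1 + V * ((w.w η) ^ 2 - 1) ≤ 1 + V * ((w.w (r₀ - S)) ^ 2 - 1) := by
        have := mul_le_mul_of_nonneg_left h3 hV0
        linarith
      exact mul_le_mul h4 hS1 (by linarith) (den_pos w hV0 _).le
    · rw [← lint_Gd (k := k) (d₁ := d₁) (V' := V') hσ hV0]
      exact lintegral_mono_set (Ioc_subset_Ioc_right hS)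
  · have hw0 := w.one_le 0
    have hsplit : Ioc 0 S = Ioc 0 r₀ ∪ Ioc r₀ S :=
      (Ioc_union_Ioc_eq_Ioc (by linarith) hS.le).symm
    have hE : ∫⁻ d in Ioc r₀ S, ENNReal.ofReal (Gd k w r₀ d₁ V V' d * d) =
        ENNReal.ofReal (∫ d in r₀..S, Ex k (w.w 0) V V' r₀ d) := by
      have e1 : ∫⁻ d in Ioc r₀ S, ENNReal.ofReal (Gd k w r₀ d₁ V V' d * d) =
          ∫⁻ d in Ioc r₀ S, ENNReal.ofReal (Ex k (w.w 0) V V' r₀ d) := by
        apply setLIntegral_congr_fun measurableSet_Ioc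
        intro d hd'
        have hdd : d ≤ d₁ := hd'.2.trans hS2.le
        simp only
        rw [Gd, Yp_gt hd'.1 hdd, dYp, if_neg hd'.1.not_ge, if_pos hdd, Ex]
      rw [e1, ← ofReal_integral_eq_lintegral_ofReal, ← intervalIntegral.integral_of_le hS.le]
      · exact ((Ex_cont hw0 hV0 (by linarith)).integrableOn_Icc).mono_set Ioc_subset_Icc_self
      · rw [Filter.EventuallyLE, ae_restrict_iff' measurableSet_Ioc]
        exact Filter.Eventually.of_forall fun d hd' =>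
          Ex_nonneg hw0 hV0 (by linarith) hd'.1.le
    have hW := hw k (w.w 0) V V' r₀ S hk hw0 (hV.trans (by norm_num)) hV' hr hS.le
      ((mul_le_mul_of_nonneg_right hS2.le (by nlinarith)).trans hdk)
    change (∫ d in r₀..S, Ex k (w.w 0) V V' r₀ d) ≤ _ at hW
    have hE0 : 0 ≤ ∫ d in r₀..S, Ex k (w.w 0) V V' r₀ d := by
      apply intervalIntegral.integral_nonneg hS.le
      intro d hd'
      exact Ex_nonneg hw0 hV0 (by linarith) hd'.1
    have hM0 : 0 ≤ (1 + V * ((w.w η) ^ 2 - 1)) * (r₀ - η) :=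
      mul_nonneg (den_pos w hV0 _).le (by linarith)
    have hM1 : (1 + V * ((w.w η) ^ 2 - 1)) * (r₀ - η) ≤ (1 + V * ((w.w 0) ^ 2 - 1)) * r₀ := by
      have h1 : w.w η ≤ w.w 0 := w_anti w le_rfl hη0
      have h2 := w.one_le η
      have h3 : (w.w η) ^ 2 - 1 ≤ (w.w 0) ^ 2 - 1 := by nlinarith
      have h4 : 1 + V * ((w.w η) ^ 2 - 1) ≤ 1 + V * ((w.w 0) ^ 2 - 1) := by
        have := mul_le_mul_of_nonneg_left h3 hV0
        linarith
      exact mul_le_mul h4 (by linarith) (by linarith) (den_pos w hV0 _).le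
    rw [hsplit, lintegral_union measurableSet_Ioc (Ioc_disjoint_Ioc_of_le le_rfl),
      lint_Gd hσ hV0, hE, add_assoc, ← ENNReal.ofReal_add hE0 hM0, add_comm]
    gcongr
    rw [Yp_gt hS hS2.le]
    linarith

/-! ### Geometry of one ray -/

lemma norm_dirv (θ : ℝ) : ‖dirv θ‖ = 1 := by
  have h : ‖dirv θ‖ ^ 2 = 1 := by
    rw [EuclideanSpace.norm_sq_eq, Fin.sum_univ_two]
    simp [dirv]
  have h0 := norm_nonneg (dirv θ)
  nlinarith

/-- The last point of `C` on a ray. -/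
lemma last_pt {C : Set E2} {v e : E2} (hc : IsCompact C) (hcv : Convex ℝ C)
    (hv : v ∈ interior C) (he : ‖e‖ = 1) :
    ∃ S : ℝ, 0 < S ∧ v + S • e ∈ frontier C ∧ ∀ d : ℝ, 0 < d → (v + d • e ∈ C ↔ d ≤ S) := by
  have hcont : Continuous fun d : ℝ => v + d • e := by fun_prop
  set D : Set ℝ := {d | 0 ≤ d ∧ v + d • e ∈ C} with hD
  have hDc : IsClosed D := isClosed_Ici.inter (hc.isClosed.preimage hcont)
  have h0 : (0 : ℝ) ∈ D := ⟨le_rfl, by simpa using interior_subset hv⟩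
  obtain ⟨M, hM⟩ := hc.isBounded.exists_norm_le
  have hDb : BddAbove D := by
    refine ⟨M + ‖v‖, fun d hd => ?_⟩
    have h1 := hM _ hd.2
    have h2 : ‖d • e‖ ≤ ‖v + d • e‖ + ‖v‖ := by
      calc ‖d • e‖ = ‖(v + d • e) - v‖ := by rw [add_sub_cancel_left]
        _ ≤ _ := norm_sub_le _ _
    rw [norm_smul, he, mul_one, Real.norm_of_nonneg hd.1] at h2
    linarith
  have hmem : sSup D ∈ D := hDc.csSup_mem ⟨0, h0⟩ hDb
  have hle : ∀ d ∈ D, d ≤ sSup D := fun d hd => le_csSup hDb hd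
  have hpos : 0 < sSup D := by
    have hopen : IsOpen ((fun d : ℝ => v + d • e) ⁻¹' interior C) :=
      isOpen_interior.preimage hcont
    obtain ⟨ε, hε, hb⟩ := Metric.isOpen_iff.1 hopen 0 (by simpa using hv)
    have : ε / 2 ∈ D := by
      refine ⟨by linarith, interior_subset (hb ?_)⟩
      rw [mem_ball, Real.dist_eq, sub_zero, abs_of_pos (by linarith)]
      linarith
    have := hle _ this
    linarith
  refine ⟨sSup D, hpos, ⟨subset_closure hmem.2, fun hint => ?_⟩, fun d hd => ⟨fun h => hle d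
    ⟨hd.le, h⟩, fun h => ?_⟩⟩
  · have hopen : IsOpen ((fun d : ℝ => v + d • e) ⁻¹' interior C) :=
      isOpen_interior.preimage hcont
    obtain ⟨ε, hε, hb⟩ := Metric.isOpen_iff.1 hopen (sSup D) hint
    have : sSup D + ε / 2 ∈ D := by
      refine ⟨by linarith, interior_subset (hb ?_)⟩
      rw [mem_ball, Real.dist_eq, add_sub_cancel_left, abs_of_pos (by linarith)]
      linarith
    have := hle _ this
    linarith
  · have h1 := hcv (interior_subset hv) hmem.2 (a := 1 - d / sSup D) (b := d / sSup D)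
      (by rw [sub_nonneg, div_le_one hpos]; exact h) (by positivity) (by ring)
    have : (1 - d / sSup D) • v + (d / sSup D) • (v + sSup D • e) = v + d • e := by
      rw [smul_add, smul_smul, div_mul_cancel₀ _ hpos.ne', ← add_assoc, ← add_smul,
        sub_add_cancel, one_smul]
    rwa [this] at h1

/-! ### The baseline function along a ray -/

lemma Yp_meas (w : Profile) (r₀ d₁ : ℝ) : Measurable (Yp w r₀ d₁) := by
  unfold Yp
  have := w.w_cont
  refine Measurable.ite measurableSet_Iic ?_ ?_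
  · exact (by fun_prop : Continuous fun d => (w.w (r₀ - d)) ^ 2 - 1).measurable
  · exact (by fun_prop : Continuous fun d => (w.w 0) ^ 2 * Real.exp (2 * (min d d₁ - r₀)) - 1).measurable

lemma uf_meas {D : Set E2} {P : E2 → E2} (h0 : T_U0b) (hP : IsProj D P) (w : Profile) (a : E2)
    {r₀ : ℝ} (hr : 0 < r₀) (ρ d₁ : ℝ) : Measurable (uf w P a r₀ ρ d₁) := by
  have hPc : Continuous P := by
    have : LipschitzWith 1 P := LipschitzWith.of_dist_le_mul fun x y => by
      rw [dist_eq_norm, dist_eq_norm, NNReal.coe_one, one_mul]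
      exact (h0 D P hP).1 x y
    exact this.continuous
  have h1 : Continuous fun x : E2 => ‖x - P x‖ := (continuous_id.sub hPc).norm
  have h2 : Continuous (Vf P a r₀ ρ) := by
    unfold Vf
    refine Continuous.div_const (Continuous.add (Continuous.inner (hPc.sub continuous_const)
      (Continuous.smul (Continuous.inv₀ (h1.max continuous_const) fun x => ?_)
        (continuous_id.sub hPc))) continuous_const) _
    have : 0 < max ‖x - P x‖ (r₀ / 2) := lt_max_of_lt_right (by linarith)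
    exact this.ne'
  unfold uf
  exact (measurable_const.add (h2.measurable.mul ((Yp_meas w r₀ d₁).comp h1.measurable))).sqrt

lemma en_meas {u : E2 → ℝ} (hu : Measurable u) (k : ℝ) :
    Measurable fun x => ENNReal.ofReal (en k u x - k ^ 2) := by
  unfold en
  have h1 : Measurable fun x => ‖fderiv ℝ u x‖ := (measurable_fderiv ℝ u).norm
  exact ((((h1.pow_const 2).add (measurable_const.mul (hu.pow_const 2))).sub
    measurable_const)).ennreal_ofReal

lemma uf_ray {k : ℝ} {w : Profile} {N : ℕ} {c : ℤ → ℝ} {P : E2 → E2} {a : E2}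
    {r₀ ρ d₁ η : ℝ} {C : Set E2} (h4 : T_P4) (h2 : T_U2) (hG : Geom k w N c P a r₀ ρ d₁ η C)
    {i : ℤ} {θ d : ℝ} (h1 : i * dl N ≤ θ) (h1' : θ < (i + 1) * dl N) (hd : 0 < d) :
    (uf w P a r₀ ρ d₁ (vx N c i + d • dirv θ)) ^ 2 =
      1 + Hf N c a r₀ θ / ρ * Yp w r₀ d₁ d := by
  have hr := hG.r₀10
  have hPx : P (vx N c i + d • dirv θ) = vx N c i :=
    (h4 N c P hG.supp hG.proj).2 i d θ hd.le h1 h1'.le
  have hnorm : ‖vx N c i + d • dirv θ - P (vx N c i + d • dirv θ)‖ = d := by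
    rw [hPx, add_sub_cancel_left, norm_smul, norm_dirv, mul_one, Real.norm_of_nonneg hd.le]
  have hV : 0 ≤ Hf N c a r₀ θ / ρ := by
    have := (abs_le.1 (hG.V1 θ)).1
    linarith
  have hY := Yp_nonneg (w := w) hG.lt.le d
  have key : Vf P a r₀ ρ (vx N c i + d • dirv θ) * Yp w r₀ d₁ d =
      Hf N c a r₀ θ / ρ * Yp w r₀ d₁ d := by
    rcases le_or_gt (r₀ / 2) d with h | h
    · rw [(h2 N c P a r₀ ρ hG.supp hG.proj (by linarith) hG.ρ_pos).2.2 i d θ h h1 h1']
    · rw [Yp_le (by linarith), w.eq_one (r₀ - d) (by have := hG.sg; linarith)]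
      simp
  unfold uf
  rw [hnorm, key, Real.sq_sqrt (by positivity)]

/-- Upper bound for the inner integral of the energy. -/
lemma inner_le {k : ℝ} {w : Profile} {N : ℕ} {c : ℤ → ℝ} {P : E2 → E2} {a : E2}
    {r₀ ρ d₁ η : ℝ} {C : Set E2} (h4 : T_P4) (h2 : T_U2) (h4u : T_U4)
    (hG : Geom k w N c P a r₀ ρ d₁ η C)
    {i : ℤ} {θ S : ℝ} (h1 : i * dl N < θ) (h1' : θ < (i + 1) * dl N)
    (hS : ∀ d : ℝ, 0 < d → (vx N c i + d • dirv θ ∈ C ↔ d ≤ S)) :
    ∫⁻ d in Ioi (0 : ℝ), C.indicator (fun x => ENNReal.ofReal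
        (en k (uf w P a r₀ ρ d₁) x - k ^ 2)) (vx N c i + d • dirv θ) * ENNReal.ofReal d ≤
      ∫⁻ d in Ioc 0 S, ENNReal.ofReal (Gd k w r₀ d₁ (Hf N c a r₀ θ / ρ)
        (dHf N c a θ / ρ) d * d) := by
  have hr := hG.r₀10
  have hV := (abs_le.1 (hG.V1 θ)).1
  have hnm : ∀ᵐ d : ℝ, d ∉ ({r₀, d₁} : Set ℝ) :=
    (Set.toFinite {r₀, d₁}).countable.ae_notMem volume
  have hH : 0 < Hf N c a r₀ θ := by
    have h : 0 < Hf N c a r₀ θ / ρ := by linarith
    exact (div_pos_iff_of_pos_right hG.ρ_pos).1 h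
  calc _ ≤ ∫⁻ d in Ioi (0 : ℝ), (Ioc 0 S).indicator (fun d => ENNReal.ofReal
        (Gd k w r₀ d₁ (Hf N c a r₀ θ / ρ) (dHf N c a θ / ρ) d * d)) d := by
        apply lintegral_mono_ae
        filter_upwards [ae_restrict_mem measurableSet_Ioi, ae_restrict_of_ae hnm] with d hd hnd
        have hd0 : 0 < d := hd
        by_cases hdS : d ≤ S
        · rw [indicator_of_mem ((hS d hd0).2 hdS), indicator_of_mem (show d ∈ Ioc 0 S from
            ⟨hd0, hdS⟩), ENNReal.ofReal_mul' hd0.le]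
          gcongr
          have hne1 : d ≠ r₀ := fun h => hnd (by simp [h])
          have hne2 : d ≠ d₁ := fun h => hnd (by simp [h])
          have hu := uf_ray h4 h2 hG h1.le h1' hd0
          have hf := h4u w N c P a r₀ ρ d₁ i d θ hG.supp hG.proj (by linarith) hG.ρ_pos
            (by have := hG.sg; linarith) hG.lt hH h1 h1' hd0 hne1 hne2
          have e : en k (uf w P a r₀ ρ d₁) (vx N c i + d • dirv θ) - k ^ 2 =
              ‖fderiv ℝ (uf w P a r₀ ρ d₁) (vx N c i + d • dirv θ)‖ ^ 2 +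
                k ^ 2 * (Hf N c a r₀ θ / ρ * Yp w r₀ d₁ d) := by
            rw [en, hu]
            ring
          rw [e, Gd]
          exact add_le_add hf le_rfl
        · rw [indicator_of_notMem (fun h => hdS ((hS d hd0).1 h))]
          simp
    _ = ∫⁻ d in Ioc 0 S ∩ Ioi (0 : ℝ), ENNReal.ofReal
        (Gd k w r₀ d₁ (Hf N c a r₀ θ / ρ) (dHf N c a θ / ρ) d * d) :=
        setLIntegral_indicator measurableSet_Ioc _
    _ ≤ _ := lintegral_mono_set inter_subset_left

lemma ofReal_int {f : ℝ → ℝ} {α β : ℝ} (hab : α ≤ β) (hf : IntegrableOn f (Ioo α β))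
    (h0 : ∀ θ ∈ Ioo α β, 0 ≤ f θ) :
    ENNReal.ofReal (∫ θ in α..β, f θ) = ∫⁻ θ in Ioo α β, ENNReal.ofReal (f θ) := by
  rw [intervalIntegral.integral_of_le hab, integral_Ioc_eq_integral_Ioo,
    ofReal_integral_eq_lintegral_ofReal hf]
  rw [Filter.EventuallyLE, ae_restrict_iff' measurableSet_Ioo]
  exact Filter.Eventually.of_forall h0

end U7

open U7 in
theorem pr_U7 (h1 : T_P1) (h2p : T_P2) (h4 : T_P4) (hq2 : T_Q2) (hq3 : T_Q3) (hh : T_H1)
    (h0 : T_U0b) (h2 : T_U2) (h4u : T_U4) (hw : T_W3) : T_U7 := by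
  intro k w N c P a r₀ ρ d₁ η C i hG
  have hr := hG.r₀10
  have hσ : w.σ < r₀ := by have := hG.sg; linarith
  have hη : η ≤ r₀ := by have := hG.η1; linarith
  have hη0 := hG.η0
  have hN : (8 : ℝ) ≤ N := by exact_mod_cast hG.supp.N_le
  have hdl : 0 < dl N := div_pos (by positivity) (by linarith)
  have hdl4 : dl N ≤ Real.pi / 2 := by
    rw [dl, div_le_div_iff₀ (by linarith) (by norm_num)]
    nlinarith [Real.pi_pos]
  set α : ℝ := i * dl N with hα
  set β : ℝ := (i + 1) * dl N with hβ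
  have hβα : β = α + dl N := by rw [hα, hβ]; ring
  have hab : α < β := by linarith
  obtain ⟨hHc, -, -, -, -, hdm, -⟩ := hh N c a r₀ hG.supp
  have hV0 : ∀ θ, 0 ≤ Hf N c a r₀ θ / ρ := fun θ => by
    have := (abs_le.1 (hG.V1 θ)).1
    linarith
  have hum : Measurable (uf w P a r₀ ρ d₁) := uf_meas h0 hG.proj w a (by linarith) ρ d₁
  have hCm : MeasurableSet C := hG.Cc.isClosed.measurableSet
  set f : E2 → ℝ≥0∞ := fun x => ENNReal.ofReal (en k (uf w P a r₀ ρ d₁) x - k ^ 2) with hf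
  have hfm : Measurable f := en_meas hum k
  set g : E2 → ℝ≥0∞ := fun x => ENNReal.ofReal ((uf w P a r₀ ρ d₁ x) ^ 2) with hg
  have hgm : Measurable g := (hum.pow_const 2).ennreal_ofReal
  -- the two explicit functions
  set M : ℝ → ℝ := fun θ => (1 + Hf N c a r₀ θ / ρ * ((w.w η) ^ 2 - 1)) * (r₀ - η) with hM
  set I : ℝ → ℝ := fun θ => ∫ s in (0 : ℝ)..w.σ,
    fs k w r₀ (Hf N c a r₀ θ / ρ) (dHf N c a θ / ρ) s * (r₀ - s) with hI
  have hMc : Continuous M := by
    rw [hM]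
    fun_prop
  have hMi : IntegrableOn M (Ioo α β) :=
    (hMc.integrableOn_Icc (a := α) (b := β)).mono_set Ioo_subset_Icc_self
  have hM0 : ∀ θ, 0 ≤ M θ := fun θ => mul_nonneg (den_pos w (hV0 θ) η).le (by linarith)
  have hIJ : ∀ θ, I θ = ∫ s in (0 : ℝ)..w.σ,
      Phi k w r₀ (Hf N c a r₀ θ / ρ) (dHf N c a θ / ρ) s := by
    intro θ
    rw [hI]
    apply intervalIntegral.integral_congr
    intro s hs
    rw [uIcc_of_le w.σ_pos.le] at hs
    exact (Phi_mem (hV0 θ) hs.1 hs.2).symm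
  have hJc : Continuous fun p : ℝ × ℝ => ∫ s in (0 : ℝ)..w.σ, Phi k w r₀ p.1 p.2 s :=
    intervalIntegral.continuous_parametric_intervalIntegral_of_continuous'
      (f := fun (p : ℝ × ℝ) (s : ℝ) => Phi k w r₀ p.1 p.2 s) (Phi_cont hσ) 0 w.σ
  have hpm : Measurable fun θ => (Hf N c a r₀ θ / ρ, dHf N c a θ / ρ) :=
    (hHc.measurable.div_const ρ).prodMk (hdm.div_const ρ)
  have hIm : Measurable I := by
    have : I = (fun p : ℝ × ℝ => ∫ s in (0 : ℝ)..w.σ, Phi k w r₀ p.1 p.2 s) ∘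
        fun θ => (Hf N c a r₀ θ / ρ, dHf N c a θ / ρ) := funext hIJ
    rw [this]
    exact hJc.measurable.comp hpm
  have hI0 : ∀ θ, 0 ≤ I θ := fun θ => by
    rw [hIJ θ]
    exact intervalIntegral.integral_nonneg w.σ_pos.le fun s _ => Phi_nonneg hσ _ _ _
  have hIi : IntegrableOn I (Ioo α β) := by
    obtain ⟨K, hK⟩ := (isCompact_Icc (a := ((0 : ℝ), (-2 : ℝ))) (b := ((2 : ℝ), (2 : ℝ)))).exists_bound_of_continuousOn
      hJc.continuousOn
    refine Measure.integrableOn_of_bounded (M := K) (by simp) hIm.aestronglyMeasurable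
      (Filter.Eventually.of_forall fun θ => ?_)
    rw [hIJ θ]
    refine hK (Hf N c a r₀ θ / ρ, dHf N c a θ / ρ) ?_
    have a1 := abs_le.1 (hG.V1 θ)
    have a2 := abs_le.1 (hG.V2 θ)
    constructor
    · exact ⟨by simp only; linarith, by simp only; linarith⟩
    · exact ⟨by simp only; linarith, by simp only; linarith⟩
  -- volume part
  have hvol : ∫⁻ x in C ∩ sect N c i, f x = ∫⁻ θ in Ioo α β, ∫⁻ d in Ioi (0 : ℝ),
      C.indicator f (vx N c i + d • dirv θ) * ENNReal.ofReal d := by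
    rw [← setLIntegral_indicator hCm, sect]
    exact hq2 (vx N c i) α β _ hab (by linarith [Real.pi_pos]) (hfm.indicator hCm)
  have hbd := hq3 (vx N c i) α β (frontier C) g hab (by linarith) isClosed_frontier.measurableSet
    hgm
  -- the inequality for one ray
  have hray : ∀ θ ∈ Ioo α β, (∫⁻ d in Ioi (0 : ℝ),
      C.indicator f (vx N c i + d • dirv θ) * ENNReal.ofReal d) + ENNReal.ofReal (M θ) ≤
      (⨆ (d : ℝ) (_ : 0 < d) (_ : vx N c i + d • dirv θ ∈ frontier C),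
        g (vx N c i + d • dirv θ) * ENNReal.ofReal d) + ENNReal.ofReal (I θ) := by
    intro θ hθ
    have hv : vx N c i ∈ poly N c := h2p N c hG.supp i
    obtain ⟨S, hS0, hSf, hS⟩ := last_pt hG.Cc hG.Cv (hG.sub hv) (norm_dirv θ)
    have hSC : vx N c i + S • dirv θ ∈ C := (hS S hS0).2 le_rfl
    have hPx : P (vx N c i + S • dirv θ) = vx N c i :=
      (h4 N c P hG.supp hG.proj).2 i S θ hS0.le hθ.1.le hθ.2.le
    have hnorm : ‖vx N c i + S • dirv θ - vx N c i‖ = S := by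
      rw [add_sub_cancel_left, norm_smul, norm_dirv, mul_one, Real.norm_of_nonneg hS0.le]
    have hS1 : r₀ - η ≤ S := by
      have := hG.fr _ hSf _ hv
      rwa [hnorm] at this
    have hS2 : S < d₁ := by
      have := hG.dist _ hSC
      rwa [(h0 _ P hG.proj).2.2, hPx, hnorm] at this
    have hR := ray (k := k) (w := w) (V := Hf N c a r₀ θ / ρ) (V' := dHf N c a θ / ρ) hw hG.k1 hr
      hσ hG.lt hG.dk hη0 hη (hG.V1 θ) (hG.V2 θ) hS1 hS2
    have hA := inner_le h4 h2 h4u hG hθ.1 hθ.2 hS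
    have hB : ENNReal.ofReal ((1 + Hf N c a r₀ θ / ρ * Yp w r₀ d₁ S) * S) ≤
        ⨆ (d : ℝ) (_ : 0 < d) (_ : vx N c i + d • dirv θ ∈ frontier C),
        g (vx N c i + d • dirv θ) * ENNReal.ofReal d := by
      refine le_iSup_of_le S (le_iSup_of_le hS0 (le_iSup_of_le hSf ?_))
      rw [hg]
      simp only
      rw [uf_ray h4 h2 hG hθ.1.le hθ.2 hS0, ENNReal.ofReal_mul' hS0.le]
    calc _ ≤ _ := add_le_add hA le_rfl
      _ ≤ _ := hR
      _ ≤ _ := add_le_add hB le_rfl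
  rw [hvol]
  calc (∫⁻ θ in Ioo α β, ∫⁻ d in Ioi (0 : ℝ),
        C.indicator f (vx N c i + d • dirv θ) * ENNReal.ofReal d) +
        ENNReal.ofReal (∫ θ in α..β, M θ)
      = ∫⁻ θ in Ioo α β, ((∫⁻ d in Ioi (0 : ℝ),
        C.indicator f (vx N c i + d • dirv θ) * ENNReal.ofReal d) + ENNReal.ofReal (M θ)) := by
        rw [ofReal_int hab.le hMi fun θ _ => hM0 θ,
          lintegral_add_right _ hMc.measurable.ennreal_ofReal]
    _ ≤ ∫⁻ θ in Ioo α β, ((⨆ (d : ℝ) (_ : 0 < d) (_ : vx N c i + d • dirv θ ∈ frontier C),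
        g (vx N c i + d • dirv θ) * ENNReal.ofReal d) + ENNReal.ofReal (I θ)) := by
        apply lintegral_mono_ae
        filter_upwards [ae_restrict_mem measurableSet_Ioo] with θ hθ
        exact hray θ hθ
    _ = (∫⁻ θ in Ioo α β, (⨆ (d : ℝ) (_ : 0 < d) (_ : vx N c i + d • dirv θ ∈ frontier C),
        g (vx N c i + d • dirv θ) * ENNReal.ofReal d)) + ENNReal.ofReal (∫ θ in α..β, I θ) := by
        rw [lintegral_add_right _ hIm.ennreal_ofReal, ← ofReal_int hab.le hIi fun θ _ => hI0 θ]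
    _ ≤ _ := add_le_add hbd le_rfl

end Pool.Agent.Robin

end

section

open MeasureTheory Set Metric
open scoped ENNReal NNReal Pointwise RealInnerProductSpace

namespace Pool.Agent.Robin

namespace W1

theorem E_ge {V X : ℝ} (hV : 19 / 20 ≤ V) (hX : 1 ≤ X) : 19 / 20 * X ≤ 1 + V * (X - 1) := by
  nlinarith

theorem key {V X p : ℝ} (hV : 19 / 20 ≤ V) (hX : 1 ≤ X) (hp : 0 ≤ p) :
    V ^ 2 * X * p / (1 + V * (X - 1)) ≤
      V * p + (V - 1) * (p / X) + 20 / 19 * (V - 1) ^ 2 * (p / X ^ 2) := by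
  have hE := E_ge hV hX
  have hX0 : 0 < X := by linarith
  have hE0 : 0 < 1 + V * (X - 1) := by nlinarith
  have h1 : V ^ 2 * X * p / (1 + V * (X - 1)) =
      V * p + (V - 1) * (p / X) + (V - 1) ^ 2 * p / (X * (1 + V * (X - 1))) := by
    field_simp
    ring
  rw [h1]
  have h2 : (V - 1) ^ 2 * p / (X * (1 + V * (X - 1))) ≤ (V - 1) ^ 2 * p / (X * (19 / 20 * X)) := by
    apply div_le_div_of_nonneg_left
    · positivity
    · positivity
    · exact mul_le_mul_of_nonneg_left hE hX0.le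
  have h3 : (V - 1) ^ 2 * p / (X * (19 / 20 * X)) = 20 / 19 * (V - 1) ^ 2 * (p / X ^ 2) := by
    field_simp
  linarith

end W1

theorem pr_W1 : T_W1 := by
  intro k V w h1 h2 hk
  have hX : ∀ s, 1 ≤ (w.w s) ^ 2 := fun s => one_le_pow₀ (w.one_le s)
  have hX0 : ∀ s, (w.w s) ^ 2 ≠ 0 := fun s => by have := hX s; positivity
  have hX4 : ∀ s, (w.w s) ^ 4 ≠ 0 := fun s => by
    have := w.one_le s
    positivity
  have hE : ∀ s, 1 + V * ((w.w s) ^ 2 - 1) ≠ 0 := fun s => by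
    have := W1.E_ge h1 (hX s)
    have := hX s
    nlinarith
  have hcw : ContinuousOn w.w (Icc 0 w.σ) := w.w_cont.continuousOn
  have hcd : ContinuousOn w.dw (Icc 0 w.σ) := w.dw_cont.mono Icc_subset_Ici_self
  have hcg : ContinuousOn (fun s => w.g k s) (Icc 0 w.σ) := by
    unfold Profile.g
    fun_prop
  have hc2 : ContinuousOn (fun s => (w.dw s) ^ 2 / (w.w s) ^ 2) (Icc 0 w.σ) :=
    (hcd.pow 2).div (hcw.pow 2) fun s _ => hX0 s
  have hc4 : ContinuousOn (fun s => (w.dw s) ^ 2 / (w.w s) ^ 4) (Icc 0 w.σ) :=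
    (hcd.pow 2).div (hcw.pow 4) fun s _ => hX4 s
  have hcf : ContinuousOn (fun s => fr k w V s) (Icc 0 w.σ) := by
    unfold fr
    refine ContinuousOn.add (ContinuousOn.div ?_ ?_ fun s _ => hE s) ?_ <;> fun_prop
  have ig := hcg.intervalIntegrable_of_Icc (μ := volume) w.σ_pos.le
  have i2 := hc2.intervalIntegrable_of_Icc (μ := volume) w.σ_pos.le
  have i4 := hc4.intervalIntegrable_of_Icc (μ := volume) w.σ_pos.le
  have iF := hcf.intervalIntegrable_of_Icc (μ := volume) w.σ_pos.le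
  rw [← intervalIntegral.integral_const_mul, ← intervalIntegral.integral_const_mul,
    ← intervalIntegral.integral_const_mul, ← intervalIntegral.integral_add (ig.const_mul _)
      (i2.const_mul _), ← intervalIntegral.integral_add ((ig.const_mul _).add (i2.const_mul _))
      (i4.const_mul _)]
  refine intervalIntegral.integral_mono_on w.σ_pos.le iF
    (((ig.const_mul _).add (i2.const_mul _)).add (i4.const_mul _)) fun s hs => ?_
  have h3 := W1.key (p := (w.dw s) ^ 2) h1 (hX s) (sq_nonneg _)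
  have h4 : ((w.w s) ^ 2) ^ 2 = (w.w s) ^ 4 := by ring
  rw [h4] at h3
  unfold fr Profile.g
  linarith

end Pool.Agent.Robin

end

section

open MeasureTheory Set Metric
open scoped ENNReal NNReal Pointwise RealInnerProductSpace

namespace Pool.Agent.Robin

namespace W2

theorem E_ge {V X : ℝ} (hV : 19 / 20 ≤ V) (hX : 1 ≤ X) : 19 / 20 * X ≤ 1 + V * (X - 1) := by
  nlinarith

theorem key {V X p : ℝ} (hV : 19 / 20 ≤ V) (hX : 1 ≤ X) (hp : 0 ≤ p) :
    V ^ 2 * X * p / (1 + V * (X - 1)) ≤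
      V * p + (V - 1) * (p / X) + 20 / 19 * (V - 1) ^ 2 * (p / X ^ 2) := by
  have hE := E_ge hV hX
  have hX0 : 0 < X := by linarith
  have hE0 : 0 < 1 + V * (X - 1) := by nlinarith
  have h1 : V ^ 2 * X * p / (1 + V * (X - 1)) =
      V * p + (V - 1) * (p / X) + (V - 1) ^ 2 * p / (X * (1 + V * (X - 1))) := by
    field_simp
    ring
  rw [h1]
  have h2 : (V - 1) ^ 2 * p / (X * (1 + V * (X - 1))) ≤ (V - 1) ^ 2 * p / (X * (19 / 20 * X)) := by
    apply div_le_div_of_nonneg_left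
    · positivity
    · positivity
    · exact mul_le_mul_of_nonneg_left hE hX0.le
  have h3 : (V - 1) ^ 2 * p / (X * (19 / 20 * X)) = 20 / 19 * (V - 1) ^ 2 * (p / X ^ 2) := by
    field_simp
  linarith

theorem key2 {V V' X r s : ℝ} (hV : 19 / 20 ≤ V) (hX : 1 ≤ X) (hs : 0 < r) (hs2 : s ≤ r / 10) :
    V' ^ 2 * (X - 1) ^ 2 / (4 * (r - s) ^ 2 * (1 + V * (X - 1))) * (r - s) ≤
      V' ^ 2 * (X - 1) * (1 / (3 * r)) := by
  have hE := E_ge hV hX
  have hE0 : 0 < 1 + V * (X - 1) := by nlinarith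
  have hrs : 0 < r - s := by linarith
  have h1 : V' ^ 2 * (X - 1) ^ 2 / (4 * (r - s) ^ 2 * (1 + V * (X - 1))) * (r - s) =
      V' ^ 2 * (X - 1) * ((X - 1) / (4 * (r - s) * (1 + V * (X - 1)))) := by
    field_simp
  rw [h1]
  apply mul_le_mul_of_nonneg_left _ (mul_nonneg (sq_nonneg _) (by linarith))
  rw [div_le_div_iff₀ (by positivity) (by positivity)]
  have h2 : 19 / 20 * (X - 1) ≤ 1 + V * (X - 1) := by linarith
  have h3 : 9 / 10 * r ≤ r - s := by linarith
  have h4 : (9 / 10 * r) * (19 / 20 * (X - 1)) ≤ (r - s) * (1 + V * (X - 1)) :=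
    mul_le_mul h3 h2 (by nlinarith) hrs.le
  nlinarith [mul_nonneg hs.le (show (0 : ℝ) ≤ X - 1 by linarith)]

end W2

theorem pr_W2 : T_W2 := by
  intro k V V' r₀ w h1 h2 hk hr
  have hσ := w.σ_pos
  have hr0 : 0 < r₀ := by linarith
  have hX : ∀ s, 1 ≤ (w.w s) ^ 2 := fun s => one_le_pow₀ (w.one_le s)
  have hX0 : ∀ s, (w.w s) ^ 2 ≠ 0 := fun s => by have := hX s; positivity
  have hX4 : ∀ s, (w.w s) ^ 4 ≠ 0 := fun s => by
    have := w.one_le s
    positivity
  have hE : ∀ s, 1 + V * ((w.w s) ^ 2 - 1) ≠ 0 := fun s => by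
    have := W2.E_ge h1 (hX s)
    have := hX s
    nlinarith
  have hcw : ContinuousOn w.w (Icc 0 w.σ) := w.w_cont.continuousOn
  have hcd : ContinuousOn w.dw (Icc 0 w.σ) := w.dw_cont.mono Icc_subset_Ici_self
  have hcg : ContinuousOn (fun s => w.g k s) (Icc 0 w.σ) := by
    unfold Profile.g
    fun_prop
  have hc2 : ContinuousOn (fun s => (w.dw s) ^ 2 / (w.w s) ^ 2 * (r₀ - s)) (Icc 0 w.σ) :=
    ((hcd.pow 2).div (hcw.pow 2) fun s _ => hX0 s).mul (by fun_prop)
  have hc4 : ContinuousOn (fun s => (w.dw s) ^ 2 / (w.w s) ^ 4) (Icc 0 w.σ) :=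
    (hcd.pow 2).div (hcw.pow 4) fun s _ => hX4 s
  have hcx : ContinuousOn (fun s => (w.w s) ^ 2 - 1) (Icc 0 w.σ) := by fun_prop
  have hcf : ContinuousOn (fun s => fs k w r₀ V V' s * (r₀ - s)) (Icc 0 w.σ) := by
    unfold fs fr
    refine ContinuousOn.mul (ContinuousOn.add (ContinuousOn.add (ContinuousOn.div ?_ ?_
      fun s _ => hE s) ?_) (ContinuousOn.div ?_ ?_ fun s hs => ?_)) ?_ <;> try fun_prop
    have h3 : r₀ - s ≠ 0 := by
      have := hs.2
      intro h4
      linarith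
    exact mul_ne_zero (mul_ne_zero (by norm_num) (pow_ne_zero 2 h3)) (hE s)
  have ig := hcg.intervalIntegrable_of_Icc (μ := volume) w.σ_pos.le
  have i2 := hc2.intervalIntegrable_of_Icc (μ := volume) w.σ_pos.le
  have i4 := hc4.intervalIntegrable_of_Icc (μ := volume) w.σ_pos.le
  have ix := hcx.intervalIntegrable_of_Icc (μ := volume) w.σ_pos.le
  have iF := hcf.intervalIntegrable_of_Icc (μ := volume) w.σ_pos.le
  have hcm : ContinuousOn (fun s => w.g k s * s) (Icc 0 w.σ) := hcg.mul continuousOn_id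
  have im := hcm.intervalIntegrable_of_Icc (μ := volume) w.σ_pos.le
  have e1 : r₀ * (∫ s in (0 : ℝ)..w.σ, w.g k s) - w.m k =
      ∫ s in (0 : ℝ)..w.σ, (r₀ * w.g k s - w.g k s * s) := by
    rw [intervalIntegral.integral_sub (ig.const_mul _) im, intervalIntegral.integral_const_mul]
    rfl
  have e2 : V' ^ 2 * (∫ s in (0 : ℝ)..w.σ, ((w.w s) ^ 2 - 1)) / (3 * r₀) =
      V' ^ 2 * (1 / (3 * r₀)) * ∫ s in (0 : ℝ)..w.σ, ((w.w s) ^ 2 - 1) := by
    ring
  rw [e1, e2, ← intervalIntegral.integral_const_mul, ← intervalIntegral.integral_const_mul,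
    ← intervalIntegral.integral_const_mul, ← intervalIntegral.integral_const_mul]
  have j1 : IntervalIntegrable (fun s => V * (r₀ * w.g k s - w.g k s * s)) volume 0 w.σ :=
    ((ig.const_mul _).sub im).const_mul _
  have j2 := i2.const_mul (V - 1)
  have j4 := i4.const_mul (20 / 19 * (V - 1) ^ 2 * r₀)
  have jx := ix.const_mul (V' ^ 2 * (1 / (3 * r₀)))
  rw [← intervalIntegral.integral_add j1 j2, ← intervalIntegral.integral_add (j1.add j2) j4,
    ← intervalIntegral.integral_add ((j1.add j2).add j4) jx]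
  refine intervalIntegral.integral_mono_on w.σ_pos.le iF (((j1.add j2).add j4).add jx)
    fun s hs => ?_
  have h3 := W2.key (p := (w.dw s) ^ 2) h1 (hX s) (sq_nonneg _)
  have h4 : ((w.w s) ^ 2) ^ 2 = (w.w s) ^ 4 := by ring
  rw [h4] at h3
  have h5 := W2.key2 (V' := V') (s := s) h1 (hX s) hr0 (by linarith [hs.2])
  have h6 : 0 ≤ r₀ - s := by linarith [hs.2]
  have h7 := mul_le_mul_of_nonneg_right h3 h6
  have h8 : 20 / 19 * (V - 1) ^ 2 * ((w.dw s) ^ 2 / (w.w s) ^ 4) * (r₀ - s) ≤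
      20 / 19 * (V - 1) ^ 2 * r₀ * ((w.dw s) ^ 2 / (w.w s) ^ 4) := by
    have : 0 ≤ 20 / 19 * (V - 1) ^ 2 * ((w.dw s) ^ 2 / (w.w s) ^ 4) := by positivity
    nlinarith [mul_nonneg this hs.1]
  unfold fs fr Profile.g
  nlinarith [h5, h7, h8]

end Pool.Agent.Robin

end

section

open MeasureTheory Set Metric
open scoped ENNReal NNReal Pointwise RealInnerProductSpace

namespace Pool.Agent.Robin

namespace W3

theorem key {k V V' X d : ℝ} (hV1 : 9 / 10 ≤ V) (hV2 : V ≤ 11 / 10)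
    (hV' : V' ^ 2 ≤ 4) (hX : 1 ≤ X) (hd : 10 ≤ d) (hkd : d * (k ^ 2 - 1) ≤ 4 / 5) :
    ((V ^ 2 * (2 * X) ^ 2 + V' ^ 2 * (X - 1) ^ 2 / d ^ 2) / (4 * (1 + V * (X - 1))) +
      k ^ 2 * (V * (X - 1))) * d ≤ (1 + V * (X - 1)) + 2 * V * X * d := by
  obtain ⟨Z, rfl⟩ : ∃ Z, X = Z + 1 := ⟨X - 1, by ring⟩
  have hZ : 0 ≤ Z := by linarith
  have hd0 : 0 < d := by linarith
  have hV0 : 0 < V := by linarith
  have hVZ : 0 ≤ V * Z := mul_nonneg hV0.le hZ
  have e0 : Z + 1 - 1 = Z := by ring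
  rw [e0]
  have hE0 : 0 < 1 + V * Z := by linarith
  have e1 : ((V ^ 2 * (2 * (Z + 1)) ^ 2 + V' ^ 2 * Z ^ 2 / d ^ 2) / (4 * (1 + V * Z)) +
      k ^ 2 * (V * Z)) * d = V ^ 2 * (Z + 1) ^ 2 / (1 + V * Z) * d +
      V' ^ 2 * Z * (Z / (1 + V * Z)) / (4 * d) + V * Z * d + d * (k ^ 2 - 1) * (V * Z) := by
    field_simp
    ring
  rw [e1]
  have h1 : V ^ 2 * (Z + 1) ^ 2 / (1 + V * Z) ≤ V * (Z + 1) + V := by
    rw [div_le_iff₀ hE0]
    nlinarith [mul_nonneg hV0.le hZ, mul_nonneg hV0.le hV0.le]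
  have h2 : Z / (1 + V * Z) ≤ 10 / 9 := by
    rw [div_le_iff₀ hE0]
    nlinarith
  have h3 : V' ^ 2 * Z * (Z / (1 + V * Z)) / (4 * d) ≤ Z / 9 := by
    rw [div_le_iff₀ (by positivity)]
    have h4 : V' ^ 2 * Z * (Z / (1 + V * Z)) ≤ (4 * Z) * (10 / 9) := by
      apply mul_le_mul _ h2 (div_nonneg hZ hE0.le) (by positivity)
      exact mul_le_mul_of_nonneg_right hV' hZ
    nlinarith
  have h5 : V ^ 2 * (Z + 1) ^ 2 / (1 + V * Z) * d ≤ (V * (Z + 1) + V) * d :=
    mul_le_mul_of_nonneg_right h1 hd0.le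
  have h6 : d * (k ^ 2 - 1) * (V * Z) ≤ 4 / 5 * (V * Z) := mul_le_mul_of_nonneg_right hkd hVZ
  have h7 : 9 / 10 * Z ≤ V * Z := mul_le_mul_of_nonneg_right hV1 hZ
  nlinarith

end W3

theorem pr_W3 : T_W3 := by
  intro k w0 V V' r₀ ρ hk hw hV hV' hr hρ hkρ
  rw [abs_le] at hV
  have hV1 : 9 / 10 ≤ V := by linarith [hV.1]
  have hV2 : V ≤ 11 / 10 := by linarith [hV.2]
  have hV'2 : V' ^ 2 ≤ 4 := by
    have := sq_le_sq' (abs_le.mp hV').1 (abs_le.mp hV').2
    linarith
  have hw2 : 1 ≤ w0 ^ 2 := one_le_pow₀ hw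
  have hX : ∀ d, r₀ ≤ d → 1 ≤ w0 ^ 2 * Real.exp (2 * (d - r₀)) := by
    intro d hd
    have : 1 ≤ Real.exp (2 * (d - r₀)) := Real.one_le_exp (by linarith)
    nlinarith
  have hder : ∀ d, HasDerivAt (fun d => (1 + V * (w0 ^ 2 * Real.exp (2 * (d - r₀)) - 1)) * d)
      ((1 + V * (w0 ^ 2 * Real.exp (2 * (d - r₀)) - 1)) +
        2 * V * (w0 ^ 2 * Real.exp (2 * (d - r₀))) * d) d := by
    intro d
    have h1 : HasDerivAt (fun d => Real.exp (2 * (d - r₀))) (Real.exp (2 * (d - r₀)) * (2 * 1)) d :=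
      (((hasDerivAt_id d).sub_const r₀).const_mul 2).exp
    have h2 : HasDerivAt (fun d => (1 + V * (w0 ^ 2 * Real.exp (2 * (d - r₀)) - 1)) * d)
        (V * (w0 ^ 2 * (Real.exp (2 * (d - r₀)) * (2 * 1))) * d +
          (1 + V * (w0 ^ 2 * Real.exp (2 * (d - r₀)) - 1)) * 1) d :=
      ((((h1.const_mul (w0 ^ 2)).sub_const 1).const_mul V).const_add 1).mul (hasDerivAt_id d)
    exact h2.congr_deriv (by ring)
  have hc : Continuous (fun d => (1 + V * (w0 ^ 2 * Real.exp (2 * (d - r₀)) - 1)) +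
        2 * V * (w0 ^ 2 * Real.exp (2 * (d - r₀))) * d) := by fun_prop
  have hftc := intervalIntegral.integral_eq_sub_of_hasDerivAt (fun d _ => hder d)
    (hc.intervalIntegrable r₀ ρ)
  have e1 : (1 + V * (w0 ^ 2 * Real.exp (2 * (r₀ - r₀)) - 1)) * r₀ =
      (1 + V * (w0 ^ 2 - 1)) * r₀ := by simp
  rw [e1] at hftc
  rw [← hftc]
  refine intervalIntegral.integral_mono_on hρ ?_ (hc.intervalIntegrable r₀ ρ) fun d hd => ?_
  · apply ContinuousOn.intervalIntegrable_of_Icc hρ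
    have hd0 : ∀ d ∈ Icc r₀ ρ, d ^ 2 ≠ 0 := by
      intro d hd
      have : 0 < d := by linarith [hd.1]
      positivity
    have hE0 : ∀ d ∈ Icc r₀ ρ, 4 * (1 + V * (w0 ^ 2 * Real.exp (2 * (d - r₀)) - 1)) ≠ 0 := by
      intro d hd
      have := hX d hd.1
      nlinarith
    refine ContinuousOn.mul (ContinuousOn.add (ContinuousOn.div (ContinuousOn.add ?_
      (ContinuousOn.div ?_ ?_ hd0)) ?_ hE0) ?_) ?_ <;> fun_prop
  · have h1 := W3.key (V' := V') hV1 hV2 hV'2 (hX d hd.1) (by linarith [hd.1] : 10 ≤ d)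
      (by
        have : 0 ≤ k ^ 2 - 1 := by nlinarith
        exact le_trans (mul_le_mul_of_nonneg_right hd.2 this) hkρ)
    have e2 : 2 * w0 ^ 2 * Real.exp (2 * (d - r₀)) = 2 * (w0 ^ 2 * Real.exp (2 * (d - r₀))) := by
      ring
    rw [e2]
    exact h1

end Pool.Agent.Robin

end

section

/-!
# MP_4b551e_an: interface between the three parts (captains: helper35, helper29, helper27)
-/

open MeasureTheory Set Metric
open scoped ENNReal NNReal Pointwise RealInnerProductSpace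

namespace Pool.Agent.Robin

/-- THEOREM N (helper27): structure of the competitors: the hull of the filled domain lies
between two concentric discs and all pockets are shallow. -/
def S_N : Prop := ∃ L₀ : ℝ, 1 < L₀ ∧ ∀ k A ρ : ℝ, Par k A ρ → L₀ ≤ ρ → ∀ Ω : Set E2,
  Admissible Ω → volume Ω = ENNReal.ofReal A →
  ¬ (lam (-1) Ω ≤ ((-(k ^ 2) : ℝ) : EReal)) →
  per (fill Ω) + 2 * Real.pi * Real.sqrt (area (fill Ω) / Real.pi) <
    4 * Real.pi * ρ * (1 + Real.log (Real.log ρ) / Real.log ρ) →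
  ∃ (o : E2) (ρ₁ ρ₂ s : ℝ), closedBall o ρ₁ ⊆ hull (fill Ω) ∧ hull (fill Ω) ⊆ closedBall o ρ₂ ∧
    ρ₂ ≤ 101 / 100 * ρ₁ ∧ 9 / 10 * ρ ≤ ρ₁ ∧ ρ₁ ≤ 11 / 10 * ρ ∧
    0 ≤ s ∧ s ≤ ρ / (20 * Real.log ρ) ∧ Depth (fill Ω) s

/-- Near-round comparison and macroscopic estimate give the core statement. -/
def S_Z2 : Prop := T_O → S_N → S_Core

end Pool.Agent.Robin

end

section

/-! Item A4: the annulus is admissible. -/

open MeasureTheory Set Metric
open scoped ENNReal NNReal Pointwise RealInnerProductSpace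

namespace Pool.Agent.Robin

/-- clamping to `[-ρ/2, ρ/2]` -/
noncomputable def iA4_clamp (ρ X : ℝ) : ℝ := max (-(ρ / 2)) (min (ρ / 2) X)

theorem iA4_clamp_abs {ρ : ℝ} (hρ : 0 < ρ) (X : ℝ) : |iA4_clamp ρ X| ≤ ρ / 2 := by
  unfold iA4_clamp
  rw [abs_le]
  exact ⟨le_max_left _ _, max_le (by linarith) (min_le_left _ _)⟩

theorem iA4_clamp_eq {ρ X : ℝ} (h : |X| ≤ ρ / 2) : iA4_clamp ρ X = X := by
  rw [abs_le] at h
  unfold iA4_clamp
  rw [min_eq_right h.2, max_eq_right h.1]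

theorem iA4_clamp_lip (ρ : ℝ) (X Y : ℝ) : |iA4_clamp ρ X - iA4_clamp ρ Y| ≤ |X - Y| := by
  unfold iA4_clamp
  have h1 : |max (-(ρ / 2)) (min (ρ / 2) X) - max (-(ρ / 2)) (min (ρ / 2) Y)|
      ≤ |min (ρ / 2) X - min (ρ / 2) Y| := by
    rw [max_comm, max_comm (-(ρ / 2)) (min (ρ / 2) Y)]
    exact abs_max_sub_max_le_abs _ _ _
  refine h1.trans ?_
  have h2 := abs_min_sub_min_le_max (ρ / 2) X (ρ / 2) Y
  simpa using h2

theorem iA4_lip {ρ : ℝ} (hρ : 0 < ρ) :
    LipschitzWith 1 (fun X : ℝ => Real.sqrt (ρ ^ 2 - (iA4_clamp ρ X) ^ 2)) := by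
  apply LipschitzWith.of_dist_le_mul
  intro X Y
  rw [Real.dist_eq, Real.dist_eq, NNReal.coe_one, one_mul]
  refine le_trans ?_ (iA4_clamp_lip ρ X Y)
  set u := iA4_clamp ρ X with hu
  set v := iA4_clamp ρ Y with hv
  have hu1 : |u| ≤ ρ / 2 := iA4_clamp_abs hρ X
  have hv1 : |v| ≤ ρ / 2 := iA4_clamp_abs hρ Y
  have hu2 : u ^ 2 ≤ (ρ / 2) ^ 2 := sq_le_sq' (by linarith [(abs_le.mp hu1).1]) (abs_le.mp hu1).2
  have hv2 : v ^ 2 ≤ (ρ / 2) ^ 2 := sq_le_sq' (by linarith [(abs_le.mp hv1).1]) (abs_le.mp hv1).2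
  have hsu : ρ / 2 ≤ Real.sqrt (ρ ^ 2 - u ^ 2) := by
    apply Real.le_sqrt_of_sq_le
    nlinarith
  have hsv : ρ / 2 ≤ Real.sqrt (ρ ^ 2 - v ^ 2) := by
    apply Real.le_sqrt_of_sq_le
    nlinarith
  have hsu2 : Real.sqrt (ρ ^ 2 - u ^ 2) ^ 2 = ρ ^ 2 - u ^ 2 := Real.sq_sqrt (by nlinarith)
  have hsv2 : Real.sqrt (ρ ^ 2 - v ^ 2) ^ 2 = ρ ^ 2 - v ^ 2 := Real.sq_sqrt (by nlinarith)
  set a := Real.sqrt (ρ ^ 2 - u ^ 2) with ha
  set b := Real.sqrt (ρ ^ 2 - v ^ 2) with hb
  have h1 : (a - b) * (a + b) = (v - u) * (v + u) := by nlinarith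
  have h2 : |a - b| * (a + b) = |u - v| * |u + v| := by
    have h3 : |a - b| * |a + b| = |v - u| * |v + u| := by rw [← abs_mul, ← abs_mul, h1]
    rw [abs_of_pos (by linarith : 0 < a + b)] at h3
    rw [h3, abs_sub_comm, add_comm v u]
  have h4 : |u + v| ≤ ρ := (abs_add_le u v).trans (by linarith)
  have h5 : |a - b| * ρ ≤ |u - v| * ρ := by
    calc |a - b| * ρ ≤ |a - b| * (a + b) := by
          apply mul_le_mul_of_nonneg_left (by linarith) (abs_nonneg _)
      _ = |u - v| * |u + v| := h2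
      _ ≤ |u - v| * ρ := mul_le_mul_of_nonneg_left h4 (abs_nonneg _)
  exact le_of_mul_le_mul_right h5 hρ

/-- a linear isometry taking `p` to a prescribed vector of the same norm -/
theorem iA4_isom (p w : E2) (h : ‖p‖ = ‖w‖) : ∃ L : E2 ≃ₗᵢ[ℝ] E2, L p = w :=
  ⟨(ℝ ∙ (p - w))ᗮ.reflection, Submodule.reflection_sub h⟩

theorem iA4_norm_sq_chart (L : E2 ≃ₗᵢ[ℝ] E2) (p x : E2) (c : ℝ) (hL : L p = !₂[0, c]) :
    ‖x‖ ^ 2 = ((L (x - p)) 0) ^ 2 + ((L (x - p)) 1 + c) ^ 2 := by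
  have h1 : L x = L (x - p) + !₂[0, c] := by rw [← hL, ← map_add]; simp
  rw [← L.norm_map x, iB3a_norm_sq, h1]
  simp

theorem prf_A4 : S_A4 := by
  intro r R hr hrR
  have hR : 0 < R := hr.trans hrR
  have hopen : IsOpen (annulus r R) :=
    (isOpen_lt continuous_const continuous_norm).inter (isOpen_lt continuous_norm continuous_const)
  refine ⟨hopen, ?_, ?_, ?_⟩
  · have h1 : annulus r R = (fun p : ℝ × ℝ => p.1 • dirv p.2) '' (Ioo r R ×ˢ univ) := by
      ext x
      constructor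
      · intro hx
        obtain ⟨θ, hθ⟩ := iB3a_polar x
        exact ⟨(‖x‖, θ), ⟨hx, mem_univ _⟩, hθ.symm⟩
      · rintro ⟨⟨s, θ⟩, ⟨hs, -⟩, rfl⟩
        have hs' : r < s ∧ s < R := hs
        show r < ‖s • dirv θ‖ ∧ ‖s • dirv θ‖ < R
        rw [norm_smul, iB3a_norm_dirv, mul_one, Real.norm_eq_abs, abs_of_pos (hr.trans hs'.1)]
        exact hs'
    rw [h1]
    apply IsConnected.image
    · exact (isConnected_Ioo hrR).prod isConnected_univ
    · exact (continuous_fst.smul (iB3a_continuous_dirv.comp continuous_snd)).continuousOn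
  · apply (isBounded_ball (x := (0 : E2)) (r := R)).subset
    intro x hx
    rw [mem_ball_zero_iff]
    exact hx.2
  · intro p hp
    have hcl : p ∈ {x : E2 | r ≤ ‖x‖ ∧ ‖x‖ ≤ R} := by
      have hc : IsClosed {x : E2 | r ≤ ‖x‖ ∧ ‖x‖ ≤ R} :=
        (isClosed_le continuous_const continuous_norm).inter
          (isClosed_le continuous_norm continuous_const)
      have hsub : annulus r R ⊆ {x : E2 | r ≤ ‖x‖ ∧ ‖x‖ ≤ R} := fun x hx => ⟨hx.1.le, hx.2.le⟩
      exact closure_minimal hsub hc hp.1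
    have hnot : p ∉ annulus r R := by
      have := hp.2
      rwa [hopen.interior_eq] at this
    have hpn : ‖p‖ = R ∨ ‖p‖ = r := by
      rcases hcl.1.lt_or_eq with h1 | h1
      · rcases hcl.2.lt_or_eq with h2 | h2
        · exact absurd ⟨h1, h2⟩ hnot
        · exact Or.inl h2
      · exact Or.inr h1.symm
    rcases hpn with hpn | hpn
    · obtain ⟨L, hL⟩ := iA4_isom p !₂[0, R] (by
        have h1 : ‖(!₂[0, R] : E2)‖ ^ 2 = R ^ 2 := by rw [iB3a_norm_sq]; simp
        rw [hpn]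
        have h2 := norm_nonneg (!₂[0, R] : E2)
        exact ((sq_eq_sq₀ h2 hR.le).mp h1).symm)
      refine ⟨L, fun X => Real.sqrt (R ^ 2 - (iA4_clamp R X) ^ 2) - R, 1, R / 2, R - r,
        by linarith, by linarith, ?_, ?_⟩
      · have := iA4_lip hR
        rw [lipschitzWith_iff_dist_le_mul] at this ⊢
        intro x y
        have h := this x y
        rw [Real.dist_eq] at h ⊢
        simpa using h
      · intro x hX hY
        have hn := iA4_norm_sq_chart L p x R hL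
        set X := (L (x - p)) 0
        set Y := (L (x - p)) 1
        have hX' := abs_lt.mp hX
        have hY' := abs_lt.mp hY
        show x ∈ annulus r R ↔ Y < Real.sqrt (R ^ 2 - (iA4_clamp R X) ^ 2) - R
        rw [iA4_clamp_eq hX.le]
        have hx0 := norm_nonneg x
        have hXR : X ^ 2 < R ^ 2 := by nlinarith
        constructor
        · intro hx
          have h1 : X ^ 2 + (Y + R) ^ 2 < R ^ 2 := by rw [← hn]; nlinarith [hx.2]
          have h2 : Y + R < Real.sqrt (R ^ 2 - X ^ 2) := by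
            apply Real.lt_sqrt_of_sq_lt
            linarith
          linarith
        · intro h
          have h2 : Y + R < Real.sqrt (R ^ 2 - X ^ 2) := by linarith
          have h3 : Real.sqrt (R ^ 2 - X ^ 2) ^ 2 = R ^ 2 - X ^ 2 := Real.sq_sqrt (by linarith)
          have h4 : 0 < Y + R := by linarith
          have h5 : (Y + R) ^ 2 < R ^ 2 - X ^ 2 := by rw [← h3]; nlinarith
          refine ⟨?_, ?_⟩
          · have h6 : r ^ 2 < ‖x‖ ^ 2 := by rw [hn]; nlinarith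
            exact lt_of_pow_lt_pow_left₀ 2 hx0 h6
          · have h6 : ‖x‖ ^ 2 < R ^ 2 := by rw [hn]; linarith
            exact lt_of_pow_lt_pow_left₀ 2 hR.le h6
    · obtain ⟨L, hL⟩ := iA4_isom p !₂[0, -r] (by
        have h1 : ‖(!₂[0, -r] : E2)‖ ^ 2 = r ^ 2 := by rw [iB3a_norm_sq]; simp
        rw [hpn]
        have h2 := norm_nonneg (!₂[0, -r] : E2)
        exact ((sq_eq_sq₀ h2 hr.le).mp h1).symm)
      refine ⟨L, fun X => r - Real.sqrt (r ^ 2 - (iA4_clamp r X) ^ 2), 1,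
        min (r / 2) ((R - r) / 2), min r ((R - r) / 2),
        lt_min (by linarith) (by linarith), lt_min hr (by linarith), ?_, ?_⟩
      · have := iA4_lip hr
        rw [lipschitzWith_iff_dist_le_mul] at this ⊢
        intro x y
        have h := this x y
        rw [Real.dist_eq] at h ⊢
        rw [abs_sub_comm] at h
        have e : r - Real.sqrt (r ^ 2 - iA4_clamp r x ^ 2)
            - (r - Real.sqrt (r ^ 2 - iA4_clamp r y ^ 2))
            = Real.sqrt (r ^ 2 - iA4_clamp r y ^ 2) - Real.sqrt (r ^ 2 - iA4_clamp r x ^ 2) := by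
          ring
        rw [e]
        exact h
      · intro x hX hY
        have hn := iA4_norm_sq_chart L p x (-r) hL
        set X := (L (x - p)) 0
        set Y := (L (x - p)) 1
        have hX1 := lt_min_iff.mp hX
        have hY1 := lt_min_iff.mp hY
        have hX' := abs_lt.mp hX1.1
        have hX'' := abs_lt.mp hX1.2
        have hY' := abs_lt.mp hY1.1
        have hY'' := abs_lt.mp hY1.2
        show x ∈ annulus r R ↔ Y < r - Real.sqrt (r ^ 2 - (iA4_clamp r X) ^ 2)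
        rw [iA4_clamp_eq hX1.1.le]
        have hx0 := norm_nonneg x
        have hXr : X ^ 2 < r ^ 2 := by nlinarith
        constructor
        · intro hx
          have h1 : r ^ 2 < X ^ 2 + (Y + -r) ^ 2 := by rw [← hn]; nlinarith [hx.1]
          have h2 : Real.sqrt (r ^ 2 - X ^ 2) < r - Y := by
            rw [Real.sqrt_lt' (by linarith)]
            nlinarith
          linarith
        · intro h
          have h2 : Real.sqrt (r ^ 2 - X ^ 2) < r - Y := by linarith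
          rw [Real.sqrt_lt' (by linarith)] at h2
          refine ⟨?_, ?_⟩
          · have h6 : r ^ 2 < ‖x‖ ^ 2 := by rw [hn]; nlinarith
            exact lt_of_pow_lt_pow_left₀ 2 hx0 h6
          · have h6 : ‖x‖ ^ 2 < R ^ 2 := by
              rw [hn]
              have h7 : |X| ≤ (R - r) / 2 := hX1.2.le
              have h8 : X ^ 2 ≤ ((R - r) / 2) ^ 2 := sq_le_sq' (by linarith) (by linarith)
              have h9 : -(r + (R - r) / 2) < Y + -r := by linarith
              have h10 : Y + -r < 0 := by linarith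
              have h11 : (Y + -r) ^ 2 < (r + (R - r) / 2) ^ 2 := by nlinarith
              nlinarith
            exact lt_of_pow_lt_pow_left₀ 2 hR.le h6

end Pool.Agent.Robin

end
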