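import Pool.Agent.Work.MP_4b551e_an.Bd.B10
import Pool.Agent.Work.MP_4b551e_an.Bd.B04
import Pool.Agent.Work.MP_4b551e_an.Bd.B06

/-! Bundle of small proof modules (one section per former module). -/

section

/-!
# MP_4b551e_an: item R8, corner lemma for a segment on a supporting line
-/

open MeasureTheory Set Metric
open scoped ENNReal NNReal Pointwise RealInnerProductSpace

namespace Pool.Agent.Robin

namespace R8

theorem inner_eq (x y : E2) : ⟪x, y⟫ = x 0 * y 0 + x 1 * y 1 := by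
  simp only [PiLp.inner_apply, Fin.sum_univ_two, RCLike.inner_apply, conj_trivial]
  ring

theorem dirv0 (θ : ℝ) : (dirv θ) 0 = Real.cos θ := rfl
theorem dirv1 (θ : ℝ) : (dirv θ) 1 = Real.sin θ := rfl
theorem rot0 (v : E2) : (rot v) 0 = -(v 1) := rfl
theorem rot1 (v : E2) : (rot v) 1 = v 0 := rfl

theorem angle (u : E2) (hu : ‖u‖ = 1) :
    ∃ θ : ℝ, 0 ≤ θ ∧ θ < 2 * Real.pi ∧ u = dirv θ := by
  set z : ℂ := ⟨u 0, u 1⟩ with hz
  have hn : ‖z‖ = 1 := by
    have h1 : ‖z‖ ^ 2 = 1 := by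
      rw [Complex.sq_norm, hz, Complex.normSq_mk]
      have h2 := inner_eq u u
      rw [real_inner_self_eq_norm_sq, hu] at h2
      linarith
    have h3 : 0 ≤ ‖z‖ := norm_nonneg z
    nlinarith
  have hc : ‖z‖ * Real.cos (Complex.arg z) = u 0 := Complex.norm_mul_cos_arg z
  have hs : ‖z‖ * Real.sin (Complex.arg z) = u 1 := Complex.norm_mul_sin_arg z
  rw [hn, one_mul] at hc hs
  have h1 := Complex.neg_pi_lt_arg z
  have h2 := Complex.arg_le_pi z
  have hpi := Real.pi_pos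
  by_cases h0 : 0 ≤ Complex.arg z
  · refine ⟨Complex.arg z, h0, by linarith, ?_⟩
    ext j
    fin_cases j
    · exact hc.symm
    · exact hs.symm
  · refine ⟨Complex.arg z + 2 * Real.pi, by linarith, by linarith, ?_⟩
    ext j
    fin_cases j
    · show u 0 = Real.cos (Complex.arg z + 2 * Real.pi)
      rw [Real.cos_add_two_pi]
      exact hc.symm
    · show u 1 = Real.sin (Complex.arg z + 2 * Real.pi)
      rw [Real.sin_add_two_pi]
      exact hs.symm

theorem rot_rot (a b : ℝ) : ⟪rot (dirv a), rot (dirv b)⟫ = Real.cos (a - b) := by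
  rw [inner_eq, rot0, rot0, rot1, rot1, dirv0, dirv0, dirv1, dirv1, Real.cos_sub]
  ring

/-- half planes contain the hull -/
theorem hull_le (S : Set E2) (ν : E2) (c : ℝ) (h : ∀ x ∈ S, ⟪x, ν⟫ ≤ c) :
    ∀ x ∈ convexHull ℝ S, ⟪x, ν⟫ ≤ c := by
  have hc : Convex ℝ {x : E2 | ⟪x, ν⟫ ≤ c} := by
    intro a ha b hb s t hs ht hst
    have ha' : ⟪a, ν⟫ ≤ c := ha
    have hb' : ⟪b, ν⟫ ≤ c := hb
    show ⟪s • a + t • b, ν⟫ ≤ c
    rw [inner_add_left, real_inner_smul_left, real_inner_smul_left]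
    have : c = s * c + t * c := by rw [← add_mul, hst, one_mul]
    nlinarith
  exact fun x hx => convexHull_min (fun y hy => h y hy) hc hx

/-- the face of the hull on a supporting line -/
theorem hull_face (S : Set E2) (ν t : E2) (c b : ℝ) (h : ∀ x ∈ S, ⟪x, ν⟫ ≤ c)
    (h2 : ∀ x ∈ S, ⟪x, ν⟫ = c → b ≤ ⟪x, t⟫) :
    ∀ x ∈ convexHull ℝ S, ⟪x, ν⟫ = c → b ≤ ⟪x, t⟫ := by
  have hc : Convex ℝ {x : E2 | ⟪x, ν⟫ ≤ c ∧ (⟪x, ν⟫ = c → b ≤ ⟪x, t⟫)} := by
    intro x hx y hy s r hs hr hsr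
    obtain ⟨hx1, hx2⟩ := hx
    obtain ⟨hy1, hy2⟩ := hy
    show ⟪s • x + r • y, ν⟫ ≤ c ∧ (⟪s • x + r • y, ν⟫ = c → b ≤ ⟪s • x + r • y, t⟫)
    simp only [inner_add_left, real_inner_smul_left]
    have e1 : c = s * c + r * c := by rw [← add_mul, hsr, one_mul]
    have e2 : b = s * b + r * b := by rw [← add_mul, hsr, one_mul]
    refine ⟨by nlinarith, fun he => ?_⟩
    rcases hs.eq_or_lt with h0 | h0
    · have hr1 : r = 1 := by linarith
      subst h0
      subst hr1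
      simp only [zero_mul, one_mul, zero_add] at he ⊢
      exact hy2 he
    rcases hr.eq_or_lt with h0' | h0'
    · have hs1 : s = 1 := by linarith
      subst h0'
      subst hs1
      simp only [zero_mul, one_mul, add_zero] at he ⊢
      exact hx2 he
    have k1 : ⟪x, ν⟫ = c := by
      by_contra hne
      have hlt : ⟪x, ν⟫ < c := lt_of_le_of_ne hx1 hne
      nlinarith
    have k2 : ⟪y, ν⟫ = c := by
      by_contra hne
      have hlt : ⟪y, ν⟫ < c := lt_of_le_of_ne hy1 hne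
      nlinarith
    have k3 := hx2 k1
    have k4 := hy2 k2
    nlinarith
  have hsub : S ⊆ {x : E2 | ⟪x, ν⟫ ≤ c ∧ (⟪x, ν⟫ = c → b ≤ ⟪x, t⟫)} :=
    fun y hy => ⟨h y hy, h2 y hy⟩
  exact fun x hx => (convexHull_min hsub hc hx).2

theorem decomp (θ : ℝ) (w : E2) :
    w = ⟪w, dirv θ⟫ • dirv θ + ⟪w, rot (dirv θ)⟫ • rot (dirv θ) := by
  have hsc := Real.sin_sq_add_cos_sq θ
  ext j
  fin_cases j
  · show w 0 = (⟪w, dirv θ⟫ • dirv θ + ⟪w, rot (dirv θ)⟫ • rot (dirv θ)) 0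
    rw [PiLp.add_apply, PiLp.smul_apply, PiLp.smul_apply, inner_eq, inner_eq, rot0, rot1, dirv0,
      dirv1, smul_eq_mul, smul_eq_mul]
    linear_combination (-(w 0)) * hsc
  · show w 1 = (⟪w, dirv θ⟫ • dirv θ + ⟪w, rot (dirv θ)⟫ • rot (dirv θ)) 1
    rw [PiLp.add_apply, PiLp.smul_apply, PiLp.smul_apply, inner_eq, inner_eq, rot0, rot1, dirv0,
      dirv1, smul_eq_mul, smul_eq_mul]
    linear_combination (-(w 1)) * hsc

end R8

open R8 in
theorem prn_R8 (hr2 : S_R2) (hr7 : S_R7) : S_R8 := by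
  intro G n h p x x' ν hG hb hC hS hx' hxx
  obtain ⟨hν, hx, hsup⟩ := hS
  obtain ⟨θ, hθ0, hθ1, rfl⟩ := angle ν hν
  have hn : 4 ≤ n := hC.n_le
  have hnR : (4 : ℝ) ≤ n := by exact_mod_cast hn
  have hpi := Real.pi_pos
  set d : ℝ := dl (2 * n) with hd
  have hdn : d * (2 * n) = 2 * Real.pi := by
    rw [hd, dl]
    push_cast
    field_simp
  have hd0 : 0 < d := by
    by_contra hneg
    push Not at hneg
    nlinarith
  have hd1 : d ≤ Real.pi / 4 := by nlinarith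
  obtain ⟨i, hi0, hi1⟩ : ∃ i : ℕ, (i : ℝ) * d ≤ θ ∧ θ < (i + 1) * d := by
    refine ⟨⌊θ / d⌋₊, ?_, ?_⟩
    · have := Nat.floor_le (div_nonneg hθ0 hd0.le)
      rwa [le_div_iff₀ hd0] at this
    · have := Nat.lt_floor_add_one (θ / d)
      rwa [div_lt_iff₀ hd0] at this
  have hin : i < 2 * n := by
    have h1 : (i : ℝ) * d < (2 * n) * d := by nlinarith
    have h2 : (i : ℝ) < 2 * n := lt_of_mul_lt_mul_right h1 hd0.le
    exact_mod_cast h2
  refine ⟨i, Finset.mem_range.2 hin, ?_⟩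
  set m : ℝ := (i + 1 / 2) * d with hm
  have hnvi : nv (2 * n) (i : ℤ) = dirv ((i : ℝ) * d) := by
    rw [nv]
    push_cast
    rfl
  have hnvi1 : nv (2 * n) ((i : ℤ) + 1) = dirv (((i : ℝ) + 1) * d) := by
    rw [nv]
    push_cast
    rfl
  have htvi : tv (2 * n) (i : ℤ) = rot (dirv ((i : ℝ) * d)) := by rw [tv, hnvi]
  have htvi1 : tv (2 * n) ((i : ℤ) + 1) = rot (dirv (((i : ℝ) + 1) * d)) := by rw [tv, hnvi1]
  have hle : ∀ j, ∀ y ∈ hull G, ⟪y, nv (2 * n) j⟫ ≤ h j := fun j => hull_le _ _ _ (hC.le j)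
  have hpm : ∀ j, p j ∈ hull G := fun j => subset_convexHull ℝ _ (hC.mem j)
  -- the two claims
  have ha : ∀ z ∈ hull G, (∀ y ∈ hull G, ⟪y - z, dirv θ⟫ ≤ 0) → 0 ≤ ⟪z - p i, rot (dirv m)⟫ := by
    intro z hz hzs
    have h1 : ⟪z - p i, dirv ((i : ℝ) * d)⟫ ≤ 0 := by
      rw [← hnvi, inner_sub_left, hC.touch]
      have := hle i z hz
      linarith
    have h2 : 0 ≤ ⟪z - p i, dirv θ⟫ := by
      have := hzs (p i) (hpm i)
      rw [inner_sub_left] at this ⊢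
      linarith
    rcases hi0.lt_or_eq with hlt | heq
    · exact hr7 (p i) z ((i : ℝ) * d) θ m hlt (by linarith) (by rw [hm]; linarith)
        (by rw [hm]; linarith) h1 h2
    · have h3 : ⟪z - p i, dirv ((i : ℝ) * d)⟫ = 0 := le_antisymm h1 (by rw [heq]; exact h2)
      have h4 : ⟪z, nv (2 * n) (i : ℤ)⟫ = h i := by
        rw [inner_sub_left, ← hnvi, hC.touch] at h3
        linarith
      have h5 : ⟪p i, tv (2 * n) (i : ℤ)⟫ ≤ ⟪z, tv (2 * n) (i : ℤ)⟫ :=
        hull_face _ _ _ _ _ (hC.le i) (hC.left i) z hz h4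
      have h6 : 0 ≤ ⟪z - p i, rot (dirv ((i : ℝ) * d))⟫ := by
        rw [← htvi, inner_sub_left]
        linarith
      have h7 := decomp ((i : ℝ) * d) (z - p i)
      rw [h3, zero_smul, zero_add] at h7
      rw [h7, real_inner_smul_left, rot_rot]
      apply mul_nonneg h6
      apply Real.cos_nonneg_of_neg_pi_div_two_le_of_le
      · rw [hm]; linarith
      · rw [hm]; linarith
  have hbb : ∀ z ∈ hull G, (∀ y ∈ hull G, ⟪y - z, dirv θ⟫ ≤ 0) →
      0 ≤ ⟪p (i + 1) - z, rot (dirv m)⟫ := by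
    intro z hz hzs
    refine hr7 z (p (i + 1)) θ (((i : ℝ) + 1) * d) m hi1 (by linarith) (by rw [hm]; linarith)
      (by rw [hm]; linarith) (hzs _ (hpm _)) ?_
    rw [← hnvi1, inner_sub_left, hC.touch]
    have := hle (i + 1) z hz
    linarith
  obtain ⟨-, hal, hbl, hvx, hp1, -, -⟩ := hr2 G n h p hC i
  have hcos : 0 < Real.cos (d / 2) :=
    Real.cos_pos_of_mem_Ioo ⟨by linarith, by linarith⟩
  have hcc : ⟪p (i + 1) - p i, rot (dirv m)⟫ =
      (al n h p i + bl n h p i) * Real.cos (d / 2) := by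
    have e1 : p (i + 1) - p i = al n h p i • tv (2 * n) (i : ℤ) +
        bl n h p i • tv (2 * n) ((i : ℤ) + 1) := by
      rw [hp1, hvx]
      abel
    rw [e1, inner_add_left, real_inner_smul_left, real_inner_smul_left, htvi, htvi1, rot_rot,
      rot_rot]
    have e2 : (i : ℝ) * d - m = -(d / 2) := by rw [hm]; ring
    have e3 : ((i : ℝ) + 1) * d - m = d / 2 := by rw [hm]; ring
    rw [e2, e3, Real.cos_neg]
    ring
  have hsx : ∀ y ∈ hull G, ⟪y - x, dirv θ⟫ ≤ 0 := hsup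
  have hsx' : ∀ y ∈ hull G, ⟪y - x', dirv θ⟫ ≤ 0 := by
    intro y hy
    have h1 := hsup y hy
    have h2 : y - x' = (y - x) - (x' - x) := by abel
    rw [h2, inner_sub_left, hxx]
    linarith
  have a1 := ha x hx hsx
  have a2 := ha x' hx' hsx'
  have b1 := hbb x hx hsx
  have b2 := hbb x' hx' hsx'
  have habs : |⟪x' - x, rot (dirv m)⟫| ≤ (al n h p i + bl n h p i) * Real.cos (d / 2) := by
    rw [← hcc]
    simp only [inner_sub_left] at a1 a2 b1 b2 ⊢
    rw [abs_le]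
    constructor <;> linarith
  have hdec := decomp θ (x' - x)
  rw [hxx, zero_smul, zero_add] at hdec
  set lam' : ℝ := ⟪x' - x, rot (dirv θ)⟫ with hlam
  have hnorm : ‖x' - x‖ = |lam'| := by
    have h1 : ‖x' - x‖ ^ 2 = lam' ^ 2 := by
      rw [← real_inner_self_eq_norm_sq, hdec, real_inner_smul_left, real_inner_smul_right,
        rot_rot, sub_self, Real.cos_zero]
      ring
    rw [← abs_of_nonneg (norm_nonneg (x' - x))]
    exact sq_eq_sq_iff_abs_eq_abs _ _ |>.1 h1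
  have hin2 : ⟪x' - x, rot (dirv m)⟫ = lam' * Real.cos (θ - m) := by
    rw [hdec, real_inner_smul_left, rot_rot]
  have hcosle : Real.cos (d / 2) ≤ Real.cos (θ - m) := by
    rw [← Real.cos_abs (θ - m)]
    apply Real.cos_le_cos_of_nonneg_of_le_pi (abs_nonneg _) (by linarith)
    rw [abs_le, hm]
    constructor <;> linarith
  rw [hin2, abs_mul, abs_of_pos (lt_of_lt_of_le hcos hcosle)] at habs
  rw [hnorm]
  have h8 : |lam'| * Real.cos (d / 2) ≤ (al n h p i + bl n h p i) * Real.cos (d / 2) :=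
    le_trans (mul_le_mul_of_nonneg_left hcosle (abs_nonneg _)) habs
  exact le_of_mul_le_mul_right h8 hcos

end Pool.Agent.Robin

end

section

/-!
# MP_4b551e_an, item [4b551e-N R9]: corner lemma, sums over pockets (helper79)
-/

open MeasureTheory Set Metric
open scoped ENNReal NNReal Pointwise RealInnerProductSpace

namespace Pool.Agent.Robin

namespace R9

lemma rot0 (v : E2) : rot v 0 = - v 1 := by simp [rot]
lemma rot1 (v : E2) : rot v 1 = v 0 := by simp [rot]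

lemma inner_rr (a b : ℝ) : ⟪rot (dirv a), rot (dirv b)⟫ = Real.cos (a - b) := by
  rw [U2.inner2, rot0, rot1, rot0, rot1, U2.dirv0, U2.dirv1, U2.dirv0, U2.dirv1, Real.cos_sub]
  ring

lemma norm_rr (a : ℝ) : ‖rot (dirv a)‖ = 1 := by
  have h : ‖rot (dirv a)‖ ^ 2 = 1 := by
    rw [← real_inner_self_eq_norm_sq, inner_rr]
    simp
  have h0 : 0 ≤ ‖rot (dirv a)‖ := norm_nonneg _
  nlinarith

lemma inner_rot_self (v : E2) : ⟪rot v, v⟫ = 0 := by
  rw [U2.inner2, rot0, rot1]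
  ring

/-- A vector orthogonal to `dirv a` is a multiple of the tangent. -/
lemma decomp (a : ℝ) (x : E2) (h : ⟪x, dirv a⟫ = 0) : x = ⟪x, rot (dirv a)⟫ • rot (dirv a) := by
  rw [U2.inner2, U2.dirv0, U2.dirv1] at h
  have hcs := Real.sin_sq_add_cos_sq a
  rw [U2.inner2, rot0, rot1, U2.dirv0, U2.dirv1]
  ext i
  fin_cases i
  · simp only [PiLp.smul_apply, smul_eq_mul, Fin.zero_eta, Fin.isValue, rot0, U2.dirv1]
    linear_combination (-(x 0)) * hcs + Real.cos a * h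
  · simp only [PiLp.smul_apply, smul_eq_mul, Fin.mk_one, Fin.isValue, rot1, U2.dirv0]
    linear_combination (-(x 1)) * hcs + Real.sin a * h

lemma dirv_per (θ : ℝ) (k : ℤ) : dirv (θ + k * (2 * Real.pi)) = dirv θ := by
  ext i
  fin_cases i
  · show dirv _ 0 = dirv _ 0
    rw [U2.dirv0, U2.dirv0, Real.cos_add_int_mul_two_pi]
  · show dirv _ 1 = dirv _ 1
    rw [U2.dirv1, U2.dirv1, Real.sin_add_int_mul_two_pi]

/-- The data of a unit vector: angle and index. -/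
lemma angle {n : ℕ} (hn : 4 ≤ n) (ν : E2) (hν : ‖ν‖ = 1) : ∃ i ∈ Finset.range (2 * n), ∃ θ : ℝ,
    (i : ℝ) * dl (2 * n) ≤ θ ∧ θ < ((i : ℝ) + 1) * dl (2 * n) ∧ ν = dirv θ := by
  obtain ⟨θ₀, rfl⟩ := U2.exists_dirv ν hν
  have h2pi : (0 : ℝ) < 2 * Real.pi := by positivity
  have hd : 0 < dl (2 * n) := U2.dl_pos (by omega)
  set θ := toIcoMod h2pi 0 θ₀ with hθ
  have hθI := toIcoMod_mem_Ico h2pi 0 θ₀
  rw [← hθ] at hθI
  have h1 : θ₀ = θ + toIcoDiv h2pi 0 θ₀ * (2 * Real.pi) := by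
    rw [hθ, ← zsmul_eq_mul, toIcoMod_add_toIcoDiv_zsmul]
  have h0 : 0 ≤ θ := hθI.1
  have h2 : θ < 2 * Real.pi := by simpa using hθI.2
  refine ⟨⌊θ / dl (2 * n)⌋₊, ?_, θ, ?_, ?_, ?_⟩
  · rw [Finset.mem_range, Nat.floor_lt (by positivity), div_lt_iff₀ hd]
    have : ((2 * n : ℕ) : ℝ) * dl (2 * n) = 2 * Real.pi := by
      unfold dl
      have : ((2 * n : ℕ) : ℝ) ≠ 0 := by
        have : 2 * n ≠ 0 := by omega
        exact_mod_cast this
      field_simp
    rw [this]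
    exact h2
  · have := Nat.floor_le (a := θ / dl (2 * n)) (by positivity)
    rwa [le_div_iff₀ hd] at this
  · have := Nat.lt_floor_add_one (θ / dl (2 * n))
    rwa [div_lt_iff₀ hd] at this
  · rw [h1, dirv_per]

/-- The lexicographic half plane. -/
lemma hull_left {G : Set E2} {u t : E2} {c e : ℝ} (hle : ∀ x ∈ closure G, ⟪x, u⟫ ≤ c)
    (hl : ∀ x ∈ closure G, ⟪x, u⟫ = c → e ≤ ⟪x, t⟫) :
    ∀ x ∈ hull G, ⟪x, u⟫ ≤ c ∧ (⟪x, u⟫ = c → e ≤ ⟪x, t⟫) := by
  have hcv : Convex ℝ {x : E2 | ⟪x, u⟫ ≤ c ∧ (⟪x, u⟫ = c → e ≤ ⟪x, t⟫)} := by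
    intro x hx y hy a b ha hb hab
    obtain ⟨x1, x2⟩ := hx
    obtain ⟨y1, y2⟩ := hy
    have hin : ∀ w : E2, ⟪a • x + b • y, w⟫ = a * ⟪x, w⟫ + b * ⟪y, w⟫ := by
      intro w
      rw [inner_add_left, real_inner_smul_left, real_inner_smul_left]
    show ⟪a • x + b • y, u⟫ ≤ c ∧ (⟪a • x + b • y, u⟫ = c → e ≤ ⟪a • x + b • y, t⟫)
    rw [hin, hin]
    have hc : a * c + b * c = c := by rw [← add_mul, hab, one_mul]
    have he : a * e + b * e = e := by rw [← add_mul, hab, one_mul]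
    refine ⟨by nlinarith, fun h => ?_⟩
    have q1 := mul_nonneg ha (sub_nonneg.2 x1)
    have q2 := mul_nonneg hb (sub_nonneg.2 y1)
    have e1 : a * (c - ⟪x, u⟫) = 0 := by nlinarith
    have e2 : b * (c - ⟪y, u⟫) = 0 := by nlinarith
    have f1 : a * e ≤ a * ⟪x, t⟫ := by
      rcases mul_eq_zero.1 e1 with h0 | h0
      · rw [h0]; simp
      · exact mul_le_mul_of_nonneg_left (x2 (by linarith)) ha
    have f2 : b * e ≤ b * ⟪y, t⟫ := by
      rcases mul_eq_zero.1 e2 with h0 | h0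
      · rw [h0]; simp
      · exact mul_le_mul_of_nonneg_left (y2 (by linarith)) hb
    linarith
  intro x hx
  have hsub : closure G ⊆ {x : E2 | ⟪x, u⟫ ≤ c ∧ (⟪x, u⟫ = c → e ≤ ⟪x, t⟫)} :=
    fun y hy => ⟨hle y hy, hl y hy⟩
  exact (convexHull_min hsub hcv) hx

/-- Mouth points determine the pocket. -/
lemma pocket_eq (hk2 : T_K2) (hk4 : T_K4) {G Q Q' : Set E2} (ho : IsOpen G) (hne : G.Nonempty)
    (hb : Bornology.IsBounded G) (hQ : Pocket G Q) (hQ' : Pocket G Q') {x : E2}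
    (hx : x ∈ mouth G Q) (hx' : x ∈ mouth G Q') : Q = Q' := by
  obtain ⟨-, -, -, hc, hcv, hint, -⟩ := hk2 G Q ho hne hb hQ
  obtain ⟨-, h4, -⟩ := hk4 G ho hne hb
  obtain ⟨ε, hε, he, -⟩ := h4 Q hQ x hx
  obtain ⟨ε', hε', he', -⟩ := h4 Q' hQ' x hx'
  have hxc : x ∈ closure (interior (hull G)) := by
    rw [hcv.closure_interior_eq_closure_of_nonempty_interior hint]
    exact subset_closure (hc.isClosed.frontier_subset hx.2.1)
  obtain ⟨y, hy, hd⟩ := Metric.mem_closure_iff.1 hxc (min ε ε') (lt_min hε hε')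
  have hyb : y ∈ ball x ε := by
    rw [mem_ball, dist_comm]
    exact lt_of_lt_of_le hd (min_le_left _ _)
  have hyb' : y ∈ ball x ε' := by
    rw [mem_ball, dist_comm]
    exact lt_of_lt_of_le hd (min_le_right _ _)
  have hyQ : y ∈ Q := he ⟨hyb, hy⟩
  have hyQ' : y ∈ Q' := he' ⟨hyb', hy⟩
  obtain ⟨z, hz, rfl⟩ := hQ
  obtain ⟨z', hz', rfl⟩ := hQ'
  rw [connectedComponentIn_eq hyQ, connectedComponentIn_eq hyQ']

/-- The tangent direction in the middle of the `i`-th sector. -/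
noncomputable def tm (n : ℕ) (i : ℕ) : E2 := rot (dirv (((i : ℝ) + 1 / 2) * dl (2 * n)))

lemma cos_pos {n : ℕ} (hn : 4 ≤ n) : 0 < Real.cos (dl (2 * n) / 2) := by
  have h1 := U2.dl_pos (N := 2 * n) (by omega)
  have h2 := U2.dl_le (N := 2 * n) (by omega)
  apply Real.cos_pos_of_mem_Ioo
  constructor <;> linarith [Real.pi_pos]

/-- Data of one pocket. -/
lemma data (hcl : T_CL) (hk2 : T_K2) (hk7 : T_K7) (hr7 : S_R7) {G : Set E2} {n : ℕ}
    {h : ℤ → ℝ} {p : ℤ → E2} (hG : Admissible G) (hC : Circ G n h p) {Q : Set E2}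
    (hQ : Pocket G Q) :
    ∃ i ∈ Finset.range (2 * n), ∃ (A : Set ℝ) (θ : ℝ),
      (i : ℝ) * dl (2 * n) ≤ θ ∧ θ < ((i : ℝ) + 1) * dl (2 * n) ∧ MeasurableSet A ∧
      A ⊆ Icc ⟪p i, tm n i⟫ ⟪p (i + 1), tm n i⟫ ∧
      μH[1] (mouth G Q) * ENNReal.ofReal (Real.cos (dl (2 * n) / 2)) ≤ volume A ∧
      ∀ c ∈ A, ∃ x ∈ mouth G Q, ⟪x, tm n i⟫ = c ∧ Sup G x (dirv θ) := by
  have hn := hC.n_le
  have hd := U2.dl_pos (N := 2 * n) (by omega)
  have hd4 := U2.dl_le (N := 2 * n) (by omega)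
  have hpi := Real.pi_pos
  rcases (mouth G Q).eq_empty_or_nonempty with hm | ⟨x₁, hx₁⟩
  · refine ⟨0, by simp; omega, ∅, 0, by simp, by simpa using hd, MeasurableSet.empty,
      by simp, by simp [hm], by simp⟩
  obtain ⟨-, -, -, hc, hcv, hint, -⟩ := hk2 G Q hG.isOpen hG.isConnected.nonempty
    hG.isBounded hQ
  obtain ⟨ν, hν⟩ := K14.exists_sup G x₁ hc hcv hint hx₁.2.1
  obtain ⟨i, hi, θ, hθ1, hθ2, rfl⟩ := angle hn ν hν.1
  set d := dl (2 * n) with hdd
  set ψ : ℝ := ((i : ℝ) + 1 / 2) * d with hψ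
  have htm : tm n i = rot (dirv ψ) := rfl
  set κ : ℝ := Real.cos (θ - ψ) with hκ
  have habs : |θ - ψ| ≤ d / 2 := by
    rw [abs_le, hψ]
    constructor <;> nlinarith
  have hκc : Real.cos (d / 2) ≤ κ := by
    rw [hκ, ← Real.cos_abs (θ - ψ)]
    apply Real.cos_le_cos_of_nonneg_of_le_pi (abs_nonneg _) (by linarith) habs
  have hcpos : 0 < Real.cos (d / 2) := cos_pos hn
  have hκ0 : 0 < κ := lt_of_lt_of_le hcpos hκc
  have hline : ∀ x ∈ mouth G Q, ⟪x - x₁, dirv θ⟫ = 0 := fun x hx =>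
    hk7 hcl G Q x₁ x (dirv θ) hG.isOpen hG.isConnected hG.isBounded hQ hx₁ hx hν
  have hSup : ∀ x ∈ mouth G Q, Sup G x (dirv θ) := by
    intro x hx
    refine ⟨hν.1, hc.isClosed.frontier_subset hx.2.1, fun y hy => ?_⟩
    have e1 := hν.2.2 y hy
    have e2 := hline x hx
    have : ⟪y - x, dirv θ⟫ = ⟪y - x₁, dirv θ⟫ - ⟪x - x₁, dirv θ⟫ := by
      rw [← inner_sub_left]
      congr 1
      abel
    rw [this, e2]
    linarith
  set s₁ : ℝ := ⟪x₁, rot (dirv ψ)⟫ with hs₁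
  let L : ℝ → E2 := fun c => x₁ + ((c - s₁) / κ) • rot (dirv θ)
  have hLc : Continuous L := by
    show Continuous (fun c : ℝ => x₁ + ((c - s₁) / κ) • rot (dirv θ))
    fun_prop
  have hLs : ∀ c, ⟪L c, rot (dirv ψ)⟫ = c := by
    intro c
    show ⟪x₁ + ((c - s₁) / κ) • rot (dirv θ), rot (dirv ψ)⟫ = c
    rw [inner_add_left, real_inner_smul_left, inner_rr, ← hκ, ← hs₁]
    field_simp
    ring
  have hLx : ∀ x ∈ mouth G Q, L ⟪x, rot (dirv ψ)⟫ = x := by
    intro x hx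
    have e := decomp θ (x - x₁) (hline x hx)
    have e2 : ⟪x, rot (dirv ψ)⟫ - s₁ = ⟪x - x₁, rot (dirv θ)⟫ * κ := by
      rw [hs₁, ← inner_sub_left]
      nth_rewrite 1 [e]
      rw [real_inner_smul_left, inner_rr]
    show x₁ + ((⟪x, rot (dirv ψ)⟫ - s₁) / κ) • rot (dirv θ) = x
    rw [e2, mul_div_assoc, div_self hκ0.ne', mul_one, ← e]
    abel
  have hLlip : LipschitzWith (Real.toNNReal (1 / κ)) L := by
    apply LipschitzWith.of_dist_le_mul
    intro a b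
    rw [dist_eq_norm, Real.dist_eq, Real.coe_toNNReal _ (by positivity)]
    have : L a - L b = ((a - b) / κ) • rot (dirv θ) := by
      show x₁ + ((a - s₁) / κ) • rot (dirv θ) - (x₁ + ((b - s₁) / κ) • rot (dirv θ)) = _
      rw [add_sub_add_left_eq_sub, ← sub_smul]
      congr 1
      ring
    rw [this, norm_smul, norm_rr, mul_one, Real.norm_eq_abs, abs_div, abs_of_pos hκ0]
    apply le_of_eq
    ring
  let A : Set ℝ := L ⁻¹' (mouth G Q)
  have hAm : MeasurableSet A := by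
    apply hLc.measurable
    exact isClosed_frontier.measurableSet.inter
      (isClosed_frontier.measurableSet.diff isClosed_closure.measurableSet)
  have himg : mouth G Q = L '' A := by
    ext x
    constructor
    · intro hx
      refine ⟨⟪x, rot (dirv ψ)⟫, ?_, hLx x hx⟩
      show L ⟪x, rot (dirv ψ)⟫ ∈ mouth G Q
      rw [hLx x hx]
      exact hx
    · rintro ⟨c, hc, rfl⟩
      exact hc
  have hhull : ∀ j : ℤ, ∀ x ∈ hull G, ⟪x, nv (2 * n) j⟫ ≤ h j ∧ (⟪x, nv (2 * n) j⟫ = h j →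
      ⟪p j, tv (2 * n) j⟫ ≤ ⟪x, tv (2 * n) j⟫) := fun j =>
    hull_left (hC.le j) (hC.left j)
  have hph : ∀ j : ℤ, p j ∈ hull G := fun j => subset_convexHull ℝ _ (hC.mem j)
  refine ⟨i, hi, A, θ, hθ1, hθ2, hAm, ?_, ?_, ?_⟩
  · intro c hcA
    have hx : L c ∈ mouth G Q := hcA
    have hsx := hSup _ hx
    have hxh := hsx.2.1
    rw [htm]
    rw [← hLs c]
    set x := L c with hxdef
    constructor
    · -- lower bound
      have hgoal : 0 ≤ ⟪x - p i, rot (dirv ψ)⟫ := by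
        rcases eq_or_lt_of_le hθ1 with heq | hlt
        · have hnv : nv (2 * n) (i : ℤ) = dirv θ := by
            rw [← heq]
            unfold nv
            simp [hdd]
          have e1 : ⟪x, nv (2 * n) (i : ℤ)⟫ = h i := by
            apply le_antisymm (hhull i x hxh).1
            rw [← hC.touch i, hnv]
            have := hsx.2.2 _ (hph i)
            rw [inner_sub_left] at this
            linarith
          have e2 := (hhull i x hxh).2 e1
          have e3 : ⟪x - p i, dirv θ⟫ = 0 := by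
            rw [← hnv, inner_sub_left, e1, hC.touch i, sub_self]
          rw [decomp θ (x - p i) e3, real_inner_smul_left, inner_rr]
          apply mul_nonneg _ hκ0.le
          have : tv (2 * n) (i : ℤ) = rot (dirv θ) := by unfold tv; rw [hnv]
          rw [this] at e2
          rw [inner_sub_left]
          linarith
        · apply hr7 (p i) x (i * d) θ ψ hlt
          · nlinarith
          · rw [hψ]; nlinarith
          · rw [hψ]; nlinarith
          · have := (hhull i x hxh).1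
            rw [inner_sub_left]
            have e1 := hC.touch i
            have hnv : nv (2 * n) (i : ℤ) = dirv (i * d) := by
              unfold nv
              simp [hdd]
            rw [hnv] at this e1
            linarith
          · have := hsx.2.2 _ (hph i)
            rw [inner_sub_left] at this ⊢
            linarith
      rw [inner_sub_left] at hgoal
      linarith
    · have hgoal : 0 ≤ ⟪p (i + 1) - x, rot (dirv ψ)⟫ := by
        apply hr7 x (p (i + 1)) θ (((i : ℝ) + 1) * d) ψ hθ2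
        · nlinarith
        · rw [hψ]; nlinarith
        · rw [hψ]; nlinarith
        · exact hsx.2.2 _ (hph _)
        · have := (hhull (i + 1) x hxh).1
          rw [inner_sub_left]
          have e1 := hC.touch (i + 1)
          have hnv : nv (2 * n) ((i : ℤ) + 1) = dirv (((i : ℝ) + 1) * d) := by
            unfold nv
            simp [hdd]
          rw [hnv] at this e1
          linarith
      rw [inner_sub_left] at hgoal
      linarith
  · have h1 : μH[1] (mouth G Q) ≤ ENNReal.ofReal (1 / κ) * volume A := by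
      rw [himg]
      have := hLlip.hausdorffMeasure_image_le (d := 1) zero_le_one A
      rw [MeasureTheory.hausdorffMeasure_real] at this
      simpa [ENNReal.ofReal] using this
    calc μH[1] (mouth G Q) * ENNReal.ofReal (Real.cos (d / 2))
        ≤ (ENNReal.ofReal (1 / κ) * volume A) * ENNReal.ofReal (Real.cos (d / 2)) := by gcongr
      _ = ENNReal.ofReal (1 / κ * Real.cos (d / 2)) * volume A := by
          rw [ENNReal.ofReal_mul (by positivity)]
          ring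
      _ ≤ 1 * volume A := by
          gcongr
          rw [ENNReal.ofReal_le_one, one_div, inv_mul_le_iff₀ hκ0]
          linarith
      _ = volume A := one_mul _
  · intro c hcA
    exact ⟨L c, hcA, by rw [htm]; exact hLs c, hSup _ hcA⟩

end R9

open R9 in
theorem prn_R9 (hcl : T_CL) (hk2 : T_K2) (hk4 : T_K4) (hk7 : T_K7) (hr2 : S_R2) (hr7 : S_R7)
    (_hr8 : S_R8) : S_R9 := by
  intro G n h p F hG hGc hC hF
  have hn := hC.n_le
  have hd := U2.dl_pos (N := 2 * n) (by omega)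
  have hd4 := U2.dl_le (N := 2 * n) (by omega)
  have hpi := Real.pi_pos
  have hcpos := R9.cos_pos hn
  set C := Real.cos (dl (2 * n) / 2) with hCdef
  have hdata : ∀ Q ∈ F, ∃ i ∈ Finset.range (2 * n), ∃ (A : Set ℝ) (θ : ℝ),
      (i : ℝ) * dl (2 * n) ≤ θ ∧ θ < ((i : ℝ) + 1) * dl (2 * n) ∧ MeasurableSet A ∧
      A ⊆ Icc ⟪p i, tm n i⟫ ⟪p (i + 1), tm n i⟫ ∧
      μH[1] (mouth G Q) * ENNReal.ofReal C ≤ volume A ∧
      ∀ c ∈ A, ∃ x ∈ mouth G Q, ⟪x, tm n i⟫ = c ∧ Sup G x (dirv θ) :=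
    fun Q hQ => R9.data hcl hk2 hk7 hr7 hG hC (hF Q hQ)
  choose! ι hι A θ hθ1 hθ2 hAm hAI hAμ hAx using hdata
  -- length of the interval
  have hlen : ∀ i : ℕ, ⟪p (i + 1), tm n i⟫ - ⟪p i, tm n i⟫ = (al n h p i + bl n h p i) * C := by
    intro i
    obtain ⟨-, -, -, e1, e2, -, -⟩ := hr2 G n h p hC i
    have t1 : ⟪tv (2 * n) (i : ℤ), tm n i⟫ = C := by
      unfold tv nv tm
      rw [inner_rr, hCdef, ← Real.cos_neg (dl (2 * n) / 2)]
      congr 1
      push_cast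
      ring
    have t2 : ⟪tv (2 * n) ((i : ℤ) + 1), tm n i⟫ = C := by
      unfold tv nv tm
      rw [inner_rr, hCdef]
      congr 1
      push_cast
      ring
    rw [e2, inner_add_left, real_inner_smul_left, t2, e1, inner_add_left, real_inner_smul_left,
      t1]
    ring
  have hvolI : ∀ i : ℕ, volume (Icc ⟪p i, tm n i⟫ ⟪p (i + 1), tm n i⟫) =
      ENNReal.ofReal ((al n h p i + bl n h p i) * C) := by
    intro i
    rw [Real.volume_Icc, hlen]
  have hB0 : ∀ i : ℕ, 0 ≤ al n h p i + bl n h p i := by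
    intro i
    obtain ⟨-, e1, e2, -⟩ := hr2 G n h p hC i
    linarith
  -- finiteness
  have hfin : ∀ Q ∈ F, μH[1] (mouth G Q) < ⊤ := by
    intro Q hQ
    have h1 : μH[1] (mouth G Q) * ENNReal.ofReal C < ⊤ := by
      refine lt_of_le_of_lt ((hAμ Q hQ).trans (measure_mono (hAI Q hQ))) ?_
      rw [hvolI]
      exact ENNReal.ofReal_lt_top
    by_contra hcon
    rw [not_lt, top_le_iff] at hcon
    rw [hcon, ENNReal.top_mul (by simpa using hcpos)] at h1
    exact lt_irrefl _ h1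
  -- sum over one index
  have hpair : ∀ Q ∈ F, ∀ Q' ∈ F, Q ≠ Q' → ι Q = ι Q' → (A Q ∩ A Q').Subsingleton := by
    intro Q hQ Q' hQ' hne hii
    rintro c₁ ⟨hc1, hc1'⟩ c₂ ⟨hc2, hc2'⟩
    have key : ∀ R ∈ F, ∀ R' ∈ F, ι R = ι R' → θ R < θ R' → ∀ c ∈ A R, ∀ c' ∈ A R', c ≤ c' := by
      intro R hR R' hR' hii hlt c hc c' hc'
      obtain ⟨x, hx, hxc, hxs⟩ := hAx R hR c hc
      obtain ⟨x', hx', hxc', hxs'⟩ := hAx R' hR' c' hc'
      have a1 := hθ1 R hR
      have a2 := hθ2 R hR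
      have a3 := hθ1 R' hR'
      have a4 := hθ2 R' hR'
      rw [← hii] at a3 a4 hxc'
      have := hr7 x x' (θ R) (θ R') (((ι R : ℝ) + 1 / 2) * dl (2 * n)) hlt (by nlinarith)
        (by nlinarith) (by nlinarith) (hxs.2.2 _ hxs'.2.1)
        (by
          have := hxs'.2.2 _ hxs.2.1
          rw [inner_sub_left] at this ⊢
          linarith)
      rw [inner_sub_left] at this
      unfold tm at hxc hxc'
      linarith
    rcases lt_trichotomy (θ Q) (θ Q') with hlt | heq | hgt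
    · exact le_antisymm (key Q hQ Q' hQ' hii hlt c₁ hc1 c₂ hc2')
        (key Q hQ Q' hQ' hii hlt c₂ hc2 c₁ hc1')
    · exfalso
      obtain ⟨x, hx, hxc, hxs⟩ := hAx Q hQ c₁ hc1
      obtain ⟨x', hx', hxc', hxs'⟩ := hAx Q' hQ' c₁ hc1'
      rw [← heq] at hxs'
      rw [← hii] at hxc'
      have e0 : ⟪x - x', dirv (θ Q)⟫ = 0 := by
        have u1 := hxs'.2.2 _ hxs.2.1
        have u2 := hxs.2.2 _ hxs'.2.1
        rw [inner_sub_left] at u1 u2 ⊢
        linarith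
      have e1 := R9.decomp (θ Q) (x - x') e0
      have e2 : ⟪x - x', tm n (ι Q)⟫ = 0 := by rw [inner_sub_left]; linarith
      rw [e1, real_inner_smul_left] at e2
      have e3 : ⟪rot (dirv (θ Q)), tm n (ι Q)⟫ ≠ 0 := by
        unfold tm
        rw [inner_rr]
        apply ne_of_gt
        have a1 := hθ1 Q hQ
        have a2 := hθ2 Q hQ
        apply Real.cos_pos_of_mem_Ioo
        constructor <;> nlinarith
      have e4 : ⟪x - x', rot (dirv (θ Q))⟫ = 0 := by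
        rcases mul_eq_zero.1 e2 with h0 | h0
        · exact h0
        · exact absurd h0 e3
      rw [e4, zero_smul, sub_eq_zero] at e1
      rw [← e1] at hx'
      exact hne (R9.pocket_eq hk2 hk4 hG.isOpen hG.isConnected.nonempty hG.isBounded
        (hF Q hQ) (hF Q' hQ') hx hx')
    · exact le_antisymm (key Q' hQ' Q hQ hii.symm hgt c₁ hc1' c₂ hc2)
        (key Q' hQ' Q hQ hii.symm hgt c₂ hc2' c₁ hc1)
  have hgroup : ∀ i : ℕ, ∑ Q ∈ F with ι Q = i, (μH[1] (mouth G Q)).toReal ≤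
      al n h p i + bl n h p i := by
    intro i
    have h1 : ∑ Q ∈ F with ι Q = i, volume (A Q) ≤
        ENNReal.ofReal ((al n h p i + bl n h p i) * C) := by
      rw [← measure_biUnion_finset₀, ← hvolI i]
      · apply measure_mono
        apply iUnion₂_subset
        intro Q hQ
        rw [Finset.mem_filter] at hQ
        have := hAI Q hQ.1
        rwa [hQ.2] at this
      · intro Q hQ Q' hQ' hne
        rw [Finset.mem_coe, Finset.mem_filter] at hQ hQ'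
        show volume (A Q ∩ A Q') = 0
        exact (hpair Q hQ.1 Q' hQ'.1 hne (by rw [hQ.2, hQ'.2])).measure_zero _
      · intro Q hQ
        rw [Finset.mem_filter] at hQ
        exact (hAm Q hQ.1).nullMeasurableSet
    have h2 : ∑ Q ∈ F with ι Q = i, ((μH[1] (mouth G Q)).toReal * C) ≤
        (al n h p i + bl n h p i) * C := by
      have h3 : ENNReal.ofReal (∑ Q ∈ F with ι Q = i, ((μH[1] (mouth G Q)).toReal * C)) ≤
          ENNReal.ofReal ((al n h p i + bl n h p i) * C) := by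
        refine le_trans ?_ h1
        rw [ENNReal.ofReal_sum_of_nonneg (fun Q _ => by positivity)]
        apply Finset.sum_le_sum
        intro Q hQ
        rw [Finset.mem_filter] at hQ
        rw [ENNReal.ofReal_mul ENNReal.toReal_nonneg, ENNReal.ofReal_toReal (hfin Q hQ.1).ne]
        exact hAμ Q hQ.1
      exact (ENNReal.ofReal_le_ofReal_iff (mul_nonneg (hB0 i) hcpos.le)).1 h3
    rw [← Finset.sum_mul] at h2
    exact le_of_mul_le_mul_right h2 hcpos
  have hone : ∀ Q ∈ F, (μH[1] (mouth G Q)).toReal ≤ al n h p (ι Q) + bl n h p (ι Q) := by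
    intro Q hQ
    refine le_trans ?_ (hgroup (ι Q))
    apply Finset.single_le_sum (f := fun Q => (μH[1] (mouth G Q)).toReal)
      (fun Q _ => ENNReal.toReal_nonneg)
    rw [Finset.mem_filter]
    exact ⟨hQ, rfl⟩
  refine ⟨hfin, fun Q hQ => ⟨ι Q, hι Q hQ, hone Q hQ⟩, ?_⟩
  rw [← Finset.sum_fiberwise_of_maps_to (fun Q hQ => hι Q hQ)]
  apply Finset.sum_le_sum
  intro i hi
  calc ∑ Q ∈ F with ι Q = i, (μH[1] (mouth G Q)).toReal ^ 2
      ≤ ∑ Q ∈ F with ι Q = i, (al n h p i + bl n h p i) * (μH[1] (mouth G Q)).toReal := by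
        apply Finset.sum_le_sum
        intro Q hQ
        rw [Finset.mem_filter] at hQ
        have := hone Q hQ.1
        rw [hQ.2] at this
        rw [sq]
        exact mul_le_mul_of_nonneg_right this ENNReal.toReal_nonneg
    _ = (al n h p i + bl n h p i) * ∑ Q ∈ F with ι Q = i, (μH[1] (mouth G Q)).toReal := by
        rw [Finset.mul_sum]
    _ ≤ (al n h p i + bl n h p i) * (al n h p i + bl n h p i) :=
        mul_le_mul_of_nonneg_left (hgroup i) (hB0 i)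
    _ = (al n h p i + bl n h p i) ^ 2 := by ring

end Pool.Agent.Robin

end

section

/-! # [4b551e-N W] wedge lemma (helper27) -/

open MeasureTheory Set Metric
open scoped ENNReal NNReal Pointwise RealInnerProductSpace

namespace Pool.Agent.Robin

namespace NW

theorem in1 (w : E2) (θ : ℝ) : ⟪w, dirv θ⟫ = w 0 * Real.cos θ + w 1 * Real.sin θ := by
  simp [dirv, PiLp.inner_apply, Fin.sum_univ_two]; ring

theorem in2 (w : E2) (θ : ℝ) : ⟪w, rot (dirv θ)⟫ = w 1 * Real.cos θ - w 0 * Real.sin θ := by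
  simp [dirv, rot, PiLp.inner_apply, Fin.sum_univ_two]; ring

theorem nsq (w : E2) : ‖w‖ ^ 2 = w 0 ^ 2 + w 1 ^ 2 := by
  rw [EuclideanSpace.norm_sq_eq]; simp [Fin.sum_univ_two]

theorem ext2 {v w : E2} (h0 : v 0 = w 0) (h1 : v 1 = w 1) : v = w := by
  ext i; fin_cases i
  · exact h0
  · exact h1

/-- Core: no point of the closure lies high above the disc inscribed in the wedge. -/
theorem core (ρ : ℝ) (G : Set E2) (hB : Bump ρ G) (m ψ r : ℝ) (y p : E2)
    (hψ : 0 < ψ) (hψ' : ψ ≤ Real.pi / 4) (hr : 0 ≤ r) (hrr : r = (1 - 1 / Real.log ρ) * ρ)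
    (hl : 0 ≤ Real.log ρ)
    (h1 : ∀ x ∈ closure G, ⟪x - y, dirv (m - ψ / 2)⟫ ≤ r * Real.cos (ψ / 2))
    (h2 : ∀ x ∈ closure G, ⟪x - y, dirv (m + ψ / 2)⟫ ≤ r * Real.cos (ψ / 2))
    (hp : p ∈ closure G) (hp1 : r * Real.cos (ψ / 2) + 2 * Real.log ρ < ‖p - y‖)
    (hp2 : r * Real.cos (ψ / 2) * Real.cos (ψ / 2) < ⟪p - y, dirv m⟫) : False := by
  have hpi := Real.pi_pos
  set c := Real.cos (ψ / 2) with hc
  set s := Real.sin (ψ / 2) with hs
  have hs0 : 0 < s := Real.sin_pos_of_pos_of_lt_pi (by linarith) (by linarith)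
  have hc0 : 0 < c := Real.cos_pos_of_mem_Ioo ⟨by linarith, by linarith⟩
  have hcs : s ^ 2 + c ^ 2 = 1 := Real.sin_sq_add_cos_sq _
  have hc2 : 1 / 2 ≤ c ^ 2 := by
    have h3 : Real.cos (Real.pi / 4) ≤ c :=
      Real.cos_le_cos_of_nonneg_of_le_pi (by linarith) (by linarith) (by linarith)
    rw [Real.cos_pi_div_four] at h3
    have h4 : (Real.sqrt 2 / 2) ^ 2 = 1 / 2 := by
      rw [div_pow, Real.sq_sqrt (by norm_num)]; norm_num
    have h5 : 0 ≤ Real.sqrt 2 / 2 := by positivity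
    nlinarith
  -- coordinates
  have hX : ∀ w : E2, ⟪w, dirv (m - ψ / 2)⟫ = c * ⟪w, dirv m⟫ - s * ⟪w, rot (dirv m)⟫ := by
    intro w; rw [in1, in1, in2, Real.cos_sub, Real.sin_sub]; ring
  have hX' : ∀ w : E2, ⟪w, dirv (m + ψ / 2)⟫ = c * ⟪w, dirv m⟫ + s * ⟪w, rot (dirv m)⟫ := by
    intro w; rw [in1, in1, in2, Real.cos_add, Real.sin_add]; ring
  have hN : ∀ w : E2, ‖w‖ ^ 2 = ⟪w, dirv m⟫ ^ 2 + ⟪w, rot (dirv m)⟫ ^ 2 := by
    intro w; rw [nsq, in1, in2]
    have := Real.sin_sq_add_cos_sq m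
    linear_combination (-(w 0 ^ 2 + w 1 ^ 2)) * this
  -- a point of `G`
  obtain ⟨x₀, hx₀G, hx₀1, hx₀2⟩ : ∃ x₀ ∈ G, r * c + 2 * Real.log ρ < ‖x₀ - y‖ ∧
      r * c * c < ⟪x₀ - y, dirv m⟫ := by
    have ho : IsOpen ({x : E2 | r * c + 2 * Real.log ρ < ‖x - y‖} ∩
        {x : E2 | r * c * c < ⟪x - y, dirv m⟫}) := by
      refine (isOpen_lt continuous_const ?_).inter (isOpen_lt continuous_const ?_)
      · exact (continuous_id.sub continuous_const).norm
      · exact (continuous_id.sub continuous_const).inner continuous_const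
    obtain ⟨x, hx1, hx2⟩ := mem_closure_iff.1 hp _ ho ⟨hp1, hp2⟩
    exact ⟨x, hx2, hx1.1, hx1.2⟩
  have hx₀K : x₀ ∈ G \ closedBall y (r * c) := by
    refine ⟨hx₀G, fun h => ?_⟩
    rw [mem_closedBall, dist_eq_norm] at h
    linarith
  set U := connectedComponentIn (G \ closedBall y (r * c)) x₀ with hU
  have hUsub : U ⊆ G \ closedBall y (r * c) := connectedComponentIn_subset _ _
  have hx₀U : x₀ ∈ U := mem_connectedComponentIn hx₀K
  have hUpre : IsPreconnected U := isPreconnected_connectedComponentIn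
  -- constraints
  have hcon : ∀ x ∈ U, c * ⟪x - y, dirv m⟫ + s * |⟪x - y, rot (dirv m)⟫| ≤ r * c := by
    intro x hx
    have e1 := h1 x (subset_closure (hUsub hx).1)
    have e2 := h2 x (subset_closure (hUsub hx).1)
    rw [hX] at e1
    rw [hX'] at e2
    rcases abs_cases ⟪x - y, rot (dirv m)⟫ with h | h <;> rw [h.1] <;> nlinarith
  have hnot : ∀ x ∈ U, r * c < ‖x - y‖ := by
    intro x hx
    have := (hUsub hx).2
    rw [mem_closedBall, dist_eq_norm, not_le] at this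
    exact this
  -- on the line `X = r c²` the points are in the ball
  have hline : ∀ x ∈ U, ⟪x - y, dirv m⟫ ≠ r * c * c := by
    intro x hx hxe
    have e1 := hcon x hx
    have e2 := hnot x hx
    have e3 := hN (x - y)
    rw [hxe] at e1 e3
    set Z := ⟪x - y, rot (dirv m)⟫ with hZ
    have e4 : |Z| ≤ r * c * s := by
      have : s * |Z| ≤ s * (r * c * s) := by
        have hh : s * (r * c * s) = r * c - c * (r * c * c) := by
          linear_combination (r * c) * hcs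
        rw [hh]; linarith
      exact le_of_mul_le_mul_left this hs0
    have e5 : Z ^ 2 ≤ (r * c * s) ^ 2 := by
      rw [← sq_abs]; exact pow_le_pow_left₀ (abs_nonneg _) e4 2
    have e6 : ‖x - y‖ ^ 2 ≤ (r * c) ^ 2 := by
      rw [e3]
      have hh : (r * c) ^ 2 = (r * c * c) ^ 2 + (r * c * s) ^ 2 := by
        linear_combination (-(r * c) ^ 2) * hcs
      rw [hh]; linarith
    have e7 : ‖x - y‖ ≤ r * c :=
      (sq_le_sq₀ (norm_nonneg _) (by positivity)).1 e6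
    linarith
  have hXU : ∀ x ∈ U, r * c * c < ⟪x - y, dirv m⟫ := by
    intro x hx
    by_contra hcon'
    rw [not_lt] at hcon'
    have hcont : ContinuousOn (fun x : E2 => ⟪x - y, dirv m⟫) U :=
      ((continuous_id.sub continuous_const).inner continuous_const).continuousOn
    have := hUpre.intermediate_value hx hx₀U hcont
    obtain ⟨z, hz, hze⟩ := this ⟨hcon', hx₀2.le⟩
    exact hline z hz hze
  -- key inequality
  have hkey : ∀ x ∈ U, |⟪x - y, rot (dirv m)⟫| * c < ⟪x - y, dirv m⟫ * s := by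
    intro x hx
    by_contra hcon'
    rw [not_lt] at hcon'
    have e1 := hcon x hx
    have e2 := hXU x hx
    set X := ⟪x - y, dirv m⟫
    set Z := |⟪x - y, rot (dirv m)⟫|
    -- X s² ≤ s c |Z| ≤ r c² - X c²
    have e3 : s * c * Z ≤ r * c * c - c * c * X := by
      have := mul_le_mul_of_nonneg_left e1 hc0.le
      linarith
    have e4 : X * s * s ≤ s * c * Z := by
      have := mul_le_mul_of_nonneg_left hcon' hs0.le
      linarith
    have e5 : X * (s ^ 2 + c ^ 2) ≤ r * c * c := by linarith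
    rw [hcs] at e5
    linarith
  have hcone : U ⊆ cone y (m - ψ / 2) (m + ψ / 2) := by
    intro x hx
    have e1 := hkey x hx
    have e2 := hXU x hx
    set X := ⟪x - y, dirv m⟫ with hXd
    set Z := ⟪x - y, rot (dirv m)⟫ with hZd
    have hX0 : 0 < X := lt_of_le_of_lt (by positivity) e2
    set δ := Real.arctan (Z / X) with hδ
    have hcosδ : 0 < Real.cos δ := Real.cos_arctan_pos _
    have htan : Real.tan δ = Z / X := Real.tan_arctan _
    have hsinδ : Real.sin δ = Z / X * Real.cos δ := by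
      rw [← htan, Real.tan_eq_sin_div_cos]; field_simp
    have hδ1 : |δ| < ψ / 2 := by
      have ht : |Z / X| < Real.tan (ψ / 2) := by
        rw [Real.tan_eq_sin_div_cos, abs_div, abs_of_pos hX0, div_lt_div_iff₀ hX0 hc0]
        linarith [mul_comm s X]
      have h3 : Real.arctan (Real.tan (ψ / 2)) = ψ / 2 :=
        Real.arctan_tan (by linarith) (by linarith)
      rw [abs_lt] at ht ⊢
      constructor
      · have := Real.arctan_strictMono ht.1
        rw [Real.arctan_neg, h3] at this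
        exact this
      · have := Real.arctan_strictMono ht.2
        rw [h3] at this
        exact this
    rw [abs_lt] at hδ1
    refine ⟨X / Real.cos δ, m + δ, by positivity, by linarith, by linarith, ?_⟩
    have hw0 : (x - y) 0 = X * Real.cos m - Z * Real.sin m := by
      rw [hXd, hZd, in1, in2]
      have := Real.sin_sq_add_cos_sq m
      linear_combination (-((x - y) 0)) * this
    have hw1 : (x - y) 1 = X * Real.sin m + Z * Real.cos m := by
      rw [hXd, hZd, in1, in2]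
      have := Real.sin_sq_add_cos_sq m
      linear_combination (-((x - y) 1)) * this
    have hxy0 : x 0 - y 0 = X * Real.cos m - Z * Real.sin m := by simpa using hw0
    have hxy1 : x 1 - y 1 = X * Real.sin m + Z * Real.cos m := by simpa using hw1
    have hX0' := hX0.ne'
    have hcosδ' := hcosδ.ne'
    have hd0 : (dirv (m + δ)) 0 = Real.cos (m + δ) := by simp [dirv]
    have hd1 : (dirv (m + δ)) 1 = Real.sin (m + δ) := by simp [dirv]
    apply ext2
    · rw [PiLp.add_apply, PiLp.smul_apply, smul_eq_mul, hd0, Real.cos_add, hsinδ]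
      have : X / Real.cos δ * (Real.cos m * Real.cos δ - Real.sin m * (Z / X * Real.cos δ)) =
          X * Real.cos m - Z * Real.sin m := by field_simp
      rw [this]; linarith
    · rw [PiLp.add_apply, PiLp.smul_apply, smul_eq_mul, hd1, Real.sin_add, hsinδ]
      have : X / Real.cos δ * (Real.sin m * Real.cos δ + Real.cos m * (Z / X * Real.cos δ)) =
          X * Real.sin m + Z * Real.cos m := by field_simp
      rw [this]; linarith
  have hrad : ∀ x ∈ U, ‖x - y‖ ≤ (1 - 1 / Real.log ρ) * ρ := by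
    intro x hx
    rw [← hrr]
    have e1 := hcon x hx
    have e2 := hkey x hx
    have e3 := hXU x hx
    have e4 := hN (x - y)
    rw [← sq_abs (⟪x - y, rot (dirv m)⟫)] at e4
    set X := ⟪x - y, dirv m⟫
    set Z := |⟪x - y, rot (dirv m)⟫| with hZ
    have hZ0 : 0 ≤ Z := abs_nonneg _
    have hX0 : 0 < X := lt_of_le_of_lt (by positivity) e3
    apply (sq_le_sq₀ (norm_nonneg _) hr).1
    rw [e4]
    -- c X ≤ r c - s Z, c Z < X s, so c² (X² + Z²) ≤ (r c - s Z)² + c² Z² = r² c² - 2 r c s Z + Z²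
    have hsZ : 0 ≤ s * Z := mul_nonneg hs0.le hZ0
    have f1 : X ≤ r := by
      have : c * X ≤ c * r := by linarith
      exact le_of_mul_le_mul_left this hc0
    have f2 : c * Z ≤ r * s := by
      have := mul_le_mul_of_nonneg_right f1 hs0.le
      linarith
    have f3 : 0 ≤ r * c - s * Z - c * X := by linarith
    have f4 : (c * X) ^ 2 ≤ (r * c - s * Z) ^ 2 := by
      apply pow_le_pow_left₀ (by positivity); linarith
    have f5 : Z * Z ≤ 2 * r * c * s * Z := by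
      have : Z ≤ 2 * r * c * s := by
        have g1 := mul_le_mul_of_nonneg_left f2 hc0.le
        have g2 := mul_le_mul_of_nonneg_right hc2 hZ0
        linarith
      exact mul_le_mul_of_nonneg_right this hZ0
    have f6 : c ^ 2 * (X ^ 2 + Z ^ 2) ≤ c ^ 2 * r ^ 2 := by
      have g3 : (r * c - s * Z) ^ 2 + c ^ 2 * Z ^ 2 =
          c ^ 2 * r ^ 2 - 2 * r * c * s * Z + Z * Z := by
        linear_combination (Z ^ 2) * hcs
      linarith
    exact le_of_mul_le_mul_left f6 (by positivity)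
  have hfin := hB y x₀ (r * c) (m - ψ / 2) (m + ψ / 2) (by positivity) (by linarith)
    (by linarith) hx₀K hcone hrad
  linarith

theorem inadd (w : E2) (a b : ℝ) : ⟪w, dirv (a + b)⟫ =
    Real.cos b * ⟪w, dirv a⟫ + Real.sin b * ⟪w, rot (dirv a)⟫ := by
  rw [in1, in1, in2, Real.cos_add, Real.sin_add]; ring

theorem nsq' (w : E2) (a : ℝ) : ‖w‖ ^ 2 = ⟪w, dirv a⟫ ^ 2 + ⟪w, rot (dirv a)⟫ ^ 2 := by
  rw [nsq, in1, in2]
  have := Real.sin_sq_add_cos_sq a
  linear_combination (-(w 0 ^ 2 + w 1 ^ 2)) * this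

theorem dd (a b : ℝ) : ⟪dirv a, dirv b⟫ = Real.cos (a - b) := by
  rw [in1, Real.cos_sub]; simp [dirv]

theorem dr (a b : ℝ) : ⟪dirv a, rot (dirv b)⟫ = Real.sin (a - b) := by
  rw [in2, Real.sin_sub]; simp [dirv]

theorem num (ρ r c l D N : ℝ) (hρ : 0 < ρ) (hl : 1 ≤ l) (hlρ : l ≤ ρ) (hr : 0 ≤ r)
    (hrρ : r ≤ ρ) (hc0 : 0 ≤ c) (hc : c ≤ 1) (hD : 3 * Real.sqrt (ρ * l) < D) (hN0 : 0 ≤ N)
    (hN : N ^ 2 = (r * c) ^ 2 + D ^ 2) : r * c + 2 * l < N := by
  have h1 : (3 * Real.sqrt (ρ * l)) ^ 2 < D ^ 2 :=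
    pow_lt_pow_left₀ hD (by positivity) (by norm_num)
  rw [mul_pow, Real.sq_sqrt (by positivity)] at h1
  have h2 : r * c ≤ ρ := by
    calc r * c ≤ ρ * 1 := mul_le_mul hrρ hc hc0 hρ.le
      _ = ρ := mul_one _
  have h3 : r * c * l ≤ ρ * l := mul_le_mul_of_nonneg_right h2 (by linarith)
  have h4 : l * l ≤ ρ * l := mul_le_mul_of_nonneg_right hlρ (by linarith)
  have h5 : (r * c + 2 * l) ^ 2 < N ^ 2 := by
    rw [hN]
    have : 0 < ρ * l := by positivity
    linarith [show (r * c + 2 * l) ^ 2 = (r * c) ^ 2 + 4 * (r * c * l) + 4 * (l * l) by ring]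
  exact lt_of_pow_lt_pow_left₀ 2 hN0 h5

end NW

open NW in
/-- Wedge lemma. -/
theorem prn_W : S_W := by
  refine ⟨Real.exp 1, by
    have := Real.add_one_lt_exp (one_ne_zero); linarith, ?_⟩
  intro ρ G hρ _ _ hB θ ψ h h' v p hψ hψ' hs hs' hv hv' hp
  have hρ0 : 0 < ρ := lt_of_lt_of_le (Real.exp_pos 1) hρ
  have hl : 1 ≤ Real.log ρ := by
    rw [Real.le_log_iff_exp_le hρ0]; exact hρ
  have hl0 : 0 < Real.log ρ := by linarith
  have hlρ : Real.log ρ ≤ ρ := by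
    have := Real.log_le_sub_one_of_pos hρ0; linarith
  have hpi := Real.pi_pos
  obtain ⟨r, hr⟩ : ∃ r, r = (1 - 1 / Real.log ρ) * ρ := ⟨_, rfl⟩
  rw [← hr]
  have h1l : 1 / Real.log ρ ≤ 1 := by rw [div_le_one hl0]; exact hl
  have h1l0 : 0 ≤ 1 / Real.log ρ := by positivity
  have hr0 : 0 ≤ r := by rw [hr]; exact mul_nonneg (by linarith) hρ0.le
  have hrρ : r ≤ ρ := by
    rw [hr]
    calc (1 - 1 / Real.log ρ) * ρ ≤ 1 * ρ :=
          mul_le_mul_of_nonneg_right (by linarith) hρ0.le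
      _ = ρ := one_mul _
  have hc0 : 0 < Real.cos (ψ / 2) :=
    Real.cos_pos_of_mem_Ioo ⟨by linarith, by linarith⟩
  have hc1 : Real.cos (ψ / 2) ≤ 1 := Real.cos_le_one _
  have hs0 : 0 < Real.sin (ψ / 2) := Real.sin_pos_of_pos_of_lt_pi (by linarith) (by linarith)
  set y : E2 := v - r • dirv (θ + ψ / 2) with hy
  have hip : ∀ (x u : E2), ⟪x - y, u⟫ = ⟪x, u⟫ - ⟪v, u⟫ + r * ⟪dirv (θ + ψ / 2), u⟫ := by
    intro x u
    rw [hy, inner_sub_left, inner_sub_left, inner_smul_left]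
    simp only [conj_trivial]
    ring
  have e1 : θ + ψ / 2 - ψ / 2 = θ := by ring
  have e2 : θ + ψ / 2 + ψ / 2 = θ + ψ := by ring
  have e3 : Real.cos (θ + ψ / 2 - θ) = Real.cos (ψ / 2) := by congr 1; ring
  have e4 : Real.cos (θ + ψ / 2 - (θ + ψ)) = Real.cos (ψ / 2) := by
    rw [← Real.cos_neg]; congr 1; ring
  have e5 : Real.sin (θ + ψ / 2 - θ) = Real.sin (ψ / 2) := by congr 1; ring
  have e6 : Real.sin (θ + ψ / 2 - (θ + ψ)) = - Real.sin (ψ / 2) := by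
    rw [← Real.sin_neg]; congr 1; ring
  have g1 : ∀ x ∈ closure G, ⟪x - y, dirv (θ + ψ / 2 - ψ / 2)⟫ ≤ r * Real.cos (ψ / 2) := by
    intro x hx
    rw [e1, hip, hv, dd, e3]
    linarith [hs x hx]
  have g2 : ∀ x ∈ closure G, ⟪x - y, dirv (θ + ψ / 2 + ψ / 2)⟫ ≤ r * Real.cos (ψ / 2) := by
    intro x hx
    rw [e2, hip, hv', dd, e4]
    linarith [hs' x hx]
  refine ⟨fun hph => ?_, fun hph => ?_⟩
  · by_contra hcon
    rw [not_le] at hcon
    have f1 : ⟪p - y, dirv θ⟫ = r * Real.cos (ψ / 2) := by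
      rw [hip, hv, hph, dd, e3]; ring
    have f2 : ⟪p - y, rot (dirv θ)⟫ =
        r * Real.sin (ψ / 2) - ⟪v - p, rot (dirv θ)⟫ := by
      rw [hip, dr, e5, inner_sub_left]; ring
    have f3 := nsq' (p - y) θ
    rw [f1] at f3
    have f4 : 3 * Real.sqrt (ρ * Real.log ρ) < ⟪p - y, rot (dirv θ)⟫ := by
      rw [f2]; linarith
    have f5 := num ρ r (Real.cos (ψ / 2)) (Real.log ρ) _ _ hρ0 hl hlρ hr0 hrρ hc0.le hc1 f4
      (norm_nonneg _) f3
    have f6 : r * Real.cos (ψ / 2) * Real.cos (ψ / 2) < ⟪p - y, dirv (θ + ψ / 2)⟫ := by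
      rw [inadd, f1]
      have : 0 < Real.sin (ψ / 2) * ⟪p - y, rot (dirv θ)⟫ := by
        apply mul_pos hs0
        exact lt_of_le_of_lt (by positivity) f4
      linarith
    exact core ρ G hB (θ + ψ / 2) ψ r y p hψ hψ' hr0 hr hl0.le g1 g2 hp f5 f6
  · by_contra hcon
    rw [not_le] at hcon
    have f1 : ⟪p - y, dirv (θ + ψ)⟫ = r * Real.cos (ψ / 2) := by
      rw [hip, hv', hph, dd, e4]; ring
    have f2 : ⟪p - y, rot (dirv (θ + ψ))⟫ =
        -(r * Real.sin (ψ / 2) - ⟪p - v, rot (dirv (θ + ψ))⟫) := by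
      rw [hip, dr, e6, inner_sub_left]; ring
    have f3 := nsq' (p - y) (θ + ψ)
    rw [f1, f2, neg_sq] at f3
    have f4 : 3 * Real.sqrt (ρ * Real.log ρ) <
        r * Real.sin (ψ / 2) - ⟪p - v, rot (dirv (θ + ψ))⟫ := by
      linarith
    have f5 := num ρ r (Real.cos (ψ / 2)) (Real.log ρ) _ _ hρ0 hl hlρ hr0 hrρ hc0.le hc1 f4
      (norm_nonneg _) f3
    have f6 : r * Real.cos (ψ / 2) * Real.cos (ψ / 2) < ⟪p - y, dirv (θ + ψ / 2)⟫ := by
      have e7 : θ + ψ / 2 = θ + ψ + (-(ψ / 2)) := by ring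
      rw [e7, inadd, f1, f2, Real.cos_neg, Real.sin_neg]
      have : 0 < Real.sin (ψ / 2) * (r * Real.sin (ψ / 2) - ⟪p - v, rot (dirv (θ + ψ))⟫) := by
        apply mul_pos hs0
        exact lt_of_le_of_lt (by positivity) f4
      linarith
    exact core ρ G hB (θ + ψ / 2) ψ r y p hψ hψ' hr0 hr hl0.le g1 g2 hp f5 f6

end Pool.Agent.Robin

end

section

/-! # [4b551e-N X1] wedge lemma for the circumscribed polygon (helper27) -/

open MeasureTheory Set Metric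
open scoped ENNReal NNReal Pointwise RealInnerProductSpace

namespace Pool.Agent.Robin

namespace NX1

/-- Numerical part. -/
theorem num : ∃ L₀ : ℝ, 1 < L₀ ∧ ∀ ρ : ℝ, L₀ ≤ ρ → 2 ≤ Real.log ρ ∧ 0 < ρ ∧
    64 * Real.log ρ ^ 7 ≤ ρ := by
  have h := (Real.isLittleO_pow_log_id_atTop (n := 7)).def (c := 1 / 64) (by norm_num)
  obtain ⟨a, ha⟩ := Filter.eventually_atTop.1 h
  refine ⟨max (max a (Real.exp 2)) 2, lt_of_lt_of_le (by norm_num) (le_max_right _ _), ?_⟩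
  intro ρ hρ
  have h1 : a ≤ ρ := le_trans (le_trans (le_max_left _ _) (le_max_left _ _)) hρ
  have h2 : Real.exp 2 ≤ ρ := le_trans (le_trans (le_max_right _ _) (le_max_left _ _)) hρ
  have h3 : 0 < ρ := lt_of_lt_of_le (Real.exp_pos 2) h2
  have hl : 2 ≤ Real.log ρ := by
    rw [Real.le_log_iff_exp_le h3]; exact h2
  refine ⟨hl, h3, ?_⟩
  have h4 := ha ρ h1
  simp only [id, Real.norm_eq_abs] at h4
  rw [abs_of_nonneg (by positivity), abs_of_pos h3] at h4
  linarith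

theorem rp_bounds (ρ : ℝ) (hl : 2 ≤ Real.log ρ) (hρ : 0 < ρ) (h7 : 64 * Real.log ρ ^ 7 ≤ ρ) :
    0 < Real.tan (Real.pi / (2 * nn ρ)) ∧ (1 - 2 / Real.log ρ) * ρ ≤ rp ρ ∧ rp ρ ≤ ρ := by
  have hpi := Real.pi_gt_three
  have hpi' := Real.pi_lt_d2
  have hl0 : 0 < Real.log ρ := by linarith
  set l := Real.log ρ with hlr
  have hn1 : l ^ 2 ≤ (nn ρ : ℝ) := Nat.le_ceil _
  have hn2 : (nn ρ : ℝ) < l ^ 2 + 1 := Nat.ceil_lt_add_one (by positivity)
  set n : ℝ := (nn ρ : ℝ) with hn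
  have hn4 : 4 ≤ n := by nlinarith
  set x := Real.pi / (2 * n) with hx
  have hx0 : 0 < x := by positivity
  have hx1 : x < Real.pi / 2 := by
    rw [hx]
    apply div_lt_div_of_pos_left (by positivity) (by norm_num) (by linarith)
  have htan : 0 < Real.tan x := Real.tan_pos_of_pos_of_lt_pi_div_two hx0 hx1
  have hcos : 0 < Real.cos x := Real.cos_pos_of_mem_Ioo ⟨by linarith, hx1⟩
  have hsin : 0 < Real.sin x := Real.sin_pos_of_pos_of_lt_pi hx0 (by linarith)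
  have hrp : rp ρ = (1 - 1 / l) * ρ * Real.cos x - 3 * Real.sqrt (ρ * l) / Real.tan x := by
    unfold rp
    rw [← hlr, ← hn, ← hx, sub_div, Real.tan_eq_sin_div_cos]
    field_simp
  have hl1 : 1 / l ≤ 1 / 2 := by
    rw [div_le_div_iff₀ hl0 (by norm_num)]; linarith
  have hl10 : 0 < 1 / l := by positivity
  refine ⟨htan, ?_, ?_⟩
  · rw [hrp]
    -- cos lower bound
    have hxl : x ≤ Real.pi / (2 * l ^ 2) := by
      rw [hx]
      apply div_le_div_of_nonneg_left (by positivity) (by positivity) (by linarith)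
    have hc : 1 - 2 / l ^ 4 ≤ Real.cos x := by
      have h1 := Real.one_sub_sq_div_two_le_cos (x := x)
      have h2 : x ^ 2 ≤ (Real.pi / (2 * l ^ 2)) ^ 2 := pow_le_pow_left₀ hx0.le hxl 2
      have h3 : (Real.pi / (2 * l ^ 2)) ^ 2 = Real.pi ^ 2 / 4 / l ^ 4 := by
        field_simp; ring
      have h4 : Real.pi ^ 2 / 4 / l ^ 4 ≤ 4 / l ^ 4 := by
        apply div_le_div_of_nonneg_right _ (by positivity)
        nlinarith
      have h5 : 2 / l ^ 4 = (4 / l ^ 4) / 2 := by ring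
      rw [h5]; linarith
    have ht : 3 * Real.sqrt (ρ * l) / Real.tan x ≤ 3 * (ρ / (8 * l ^ 3)) * (2 * l ^ 2) := by
      have h1 : x ≤ Real.tan x := (Real.lt_tan hx0 hx1).le
      have h2 : Real.sqrt (ρ * l) ≤ ρ / (8 * l ^ 3) := by
        rw [Real.sqrt_le_left (by positivity)]
        rw [div_pow, le_div_iff₀ (by positivity)]
        have : ρ * (64 * l ^ 7) ≤ ρ * ρ := mul_le_mul_of_nonneg_left h7 hρ.le
        calc ρ * l * (8 * l ^ 3) ^ 2 = ρ * (64 * l ^ 7) := by ring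
          _ ≤ ρ * ρ := this
          _ = ρ ^ 2 := by ring
      have h3 : 1 / Real.tan x ≤ 2 * l ^ 2 := by
        calc 1 / Real.tan x ≤ 1 / x := one_div_le_one_div_of_le hx0 h1
          _ = 2 * n / Real.pi := by rw [hx]; field_simp
          _ ≤ 2 * l ^ 2 := by
            rw [div_le_iff₀ (by positivity)]
            nlinarith
      calc 3 * Real.sqrt (ρ * l) / Real.tan x = 3 * Real.sqrt (ρ * l) * (1 / Real.tan x) := by
            ring
        _ ≤ 3 * (ρ / (8 * l ^ 3)) * (2 * l ^ 2) :=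
            mul_le_mul (by linarith) h3 (by positivity) (by positivity)
    have ht' : 3 * (ρ / (8 * l ^ 3)) * (2 * l ^ 2) = ρ * (3 / 4 * (1 / l)) := by
      field_simp; ring
    rw [ht'] at ht
    have hl4 : 2 / l ^ 4 ≤ 1 / 4 * (1 / l) := by
      rw [div_le_iff₀ (by positivity)]
      have : 1 / 4 * (1 / l) * l ^ 4 = l ^ 3 / 4 := by field_simp
      rw [this]
      have : (2 : ℝ) ^ 3 ≤ l ^ 3 := pow_le_pow_left₀ (by norm_num) hl 3
      linarith
    have hl40 : 0 < 2 / l ^ 4 := by positivity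
    have h8 : (1 - 1 / l) * (1 - 2 / l ^ 4) ≤ (1 - 1 / l) * Real.cos x :=
      mul_le_mul_of_nonneg_left hc (by linarith)
    have h9 : 1 - 1 / l - 2 / l ^ 4 ≤ (1 - 1 / l) * (1 - 2 / l ^ 4) := by
      have : 0 ≤ 1 / l * (2 / l ^ 4) := by positivity
      linarith
    have h10 : (1 - 1 / l - 1 / 4 * (1 / l)) * ρ ≤ (1 - 1 / l) * Real.cos x * ρ :=
      mul_le_mul_of_nonneg_right (by linarith) hρ.le
    have h11 : 2 / l = 2 * (1 / l) := by ring
    rw [h11]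
    linarith
  · rw [hrp]
    have h1 : (1 - 1 / l) * ρ * Real.cos x ≤ ρ := by
      calc (1 - 1 / l) * ρ * Real.cos x ≤ (1 * ρ) * 1 :=
            mul_le_mul (mul_le_mul_of_nonneg_right (by linarith) hρ.le) (Real.cos_le_one _)
              hcos.le (by positivity)
        _ = ρ := by ring
    have h2 : 0 ≤ 3 * Real.sqrt (ρ * l) / Real.tan x := by positivity
    linarith

theorem shift (N : ℕ) (b : ℤ → ℝ) (hb : ∀ i, b (i + N) = b i) :
    ∑ i ∈ Finset.range N, b ((i : ℤ) - 1) = ∑ i ∈ Finset.range N, b (i : ℤ) := by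
  have h1 := Finset.sum_range_succ (fun k : ℕ => b ((k : ℤ) - 1)) N
  have h2 := Finset.sum_range_succ' (fun k : ℕ => b ((k : ℤ) - 1)) N
  have h3 : b ((N : ℤ) - 1) = b (((0 : ℕ) : ℤ) - 1) := by
    rw [← hb (((0 : ℕ) : ℤ) - 1)]; congr 1
  have h4 : ∑ k ∈ Finset.range N, b (((k + 1 : ℕ) : ℤ) - 1) =
      ∑ i ∈ Finset.range N, b (i : ℤ) := by
    apply Finset.sum_congr rfl
    intro k _
    congr 1; push_cast; ring
  rw [h4] at h2
  linarith

end NX1

open NX1 in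
/-- Wedge lemma for the circumscribed polygon. -/
theorem prn_X1 (hw : S_W) (hr2 : S_R2) (hr3 : S_R3) (hr4 : S_R4) (hp1 : T_P1) : S_X1 := by
  obtain ⟨L₁, hL₁, hW⟩ := hw
  obtain ⟨L₂, hL₂, hN⟩ := num
  refine ⟨max L₁ L₂, lt_of_lt_of_le hL₁ (le_max_left _ _), ?_⟩
  intro ρ G h p hρ hadm hbump hcirc
  obtain ⟨hl, hρ0, h7⟩ := hN ρ (le_trans (le_max_right _ _) hρ)
  obtain ⟨htan, hrp1, hrp2⟩ := rp_bounds ρ hl hρ0 h7
  have hW' := hW ρ G (le_trans (le_max_left _ _) hρ) hadm.isOpen hadm.isConnected hbump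
  set n := nn ρ with hn
  have hn4 : 4 ≤ n := hcirc.n_le
  have hn4' : (4 : ℝ) ≤ n := by exact_mod_cast hn4
  have hcast : ((2 * n : ℕ) : ℝ) = 2 * (n : ℝ) := by push_cast; ring
  have hpi := Real.pi_pos
  have hdl : dl (2 * n) = Real.pi / n := by
    unfold dl; rw [hcast]; field_simp
  have hdl0 : 0 < dl (2 * n) := by rw [hdl]; positivity
  have hdl4 : dl (2 * n) ≤ Real.pi / 4 := by
    rw [hdl]; exact div_le_div_of_nonneg_left hpi.le (by norm_num) hn4'
  have hdl2 : dl (2 * n) / 2 = Real.pi / (2 * n) := by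
    rw [hdl]; field_simp
  set tn := Real.tan (Real.pi / (2 * n)) with htn
  set R := rp ρ with hR
  have hRt : R * tn = (1 - 1 / Real.log ρ) * ρ * Real.sin (Real.pi / (2 * n)) -
      3 * Real.sqrt (ρ * Real.log ρ) := by
    rw [hR, rp, ← hn, ← htn, div_mul_cancel₀ _ htan.ne']
  have hnv : ∀ i : ℤ, nv (2 * n) (i + 1) = dirv (i * dl (2 * n) + dl (2 * n)) := by
    intro i; unfold nv; congr 1; push_cast; ring
  have hv : ∀ i : ℤ, ⟪vx (2 * n) h i, nv (2 * n) i⟫ = h i ∧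
      ⟪vx (2 * n) h i, nv (2 * n) (i + 1)⟫ = h (i + 1) := fun i =>
    (hp1 (2 * n) h i (by omega)).2
  have hal : ∀ i, R * tn ≤ al n h p i := by
    intro i
    have := (hW' (i * dl (2 * n)) (dl (2 * n)) (h i) (h (i + 1)) (vx (2 * n) h i) (p i)
      hdl0 hdl4 (hcirc.le i) (fun x hx => by rw [← hnv]; exact hcirc.le (i + 1) x hx)
      (hv i).1 (by rw [← hnv]; exact (hv i).2) (hcirc.mem i)).1 (hcirc.touch i)
    rw [hdl2] at this
    rw [hRt]
    exact this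
  have hbl : ∀ i, R * tn ≤ bl n h p i := by
    intro i
    have := (hW' (i * dl (2 * n)) (dl (2 * n)) (h i) (h (i + 1)) (vx (2 * n) h i) (p (i + 1))
      hdl0 hdl4 (hcirc.le i) (fun x hx => by rw [← hnv]; exact hcirc.le (i + 1) x hx)
      (hv i).1 (by rw [← hnv]; exact (hv i).2) (hcirc.mem (i + 1))).2
      (by rw [← hnv]; exact hcirc.touch (i + 1))
    rw [hdl2, ← hnv] at this
    rw [hRt]
    exact this
  have hR2 := hr2 G n h p hcirc
  have hel : ∀ i, el (2 * n) h i = al n h p i + bl n h p (i - 1) := fun i => (hR2 i).1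
  have helge : ∀ i, 2 * R * tn ≤ el (2 * n) h i := by
    intro i
    rw [hel]
    linarith [hal i, hbl (i - 1)]
  -- the core polygon
  set c : ℤ → ℝ := fun j => h j - R with hc
  have hcper : ∀ i, c (i + (2 * n : ℕ)) = c i := by
    intro i; simp only [hc]; rw [hcirc.per_h]
  have helc : ∀ i, el (2 * n) c i = el (2 * n) h i - 2 * R * tn := by
    intro i
    have := ((hr3 (2 * n) h (by omega) hcirc.per_h).2 0 R).1 i
    rw [hcast, ← htn] at this
    rw [← this]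
    congr 1
    funext j
    simp [hc]
  have helc0 : ∀ i, 0 ≤ el (2 * n) c i := by
    intro i; rw [helc]; linarith [helge i]
  have hsumc : ∑ j ∈ Finset.range (2 * n), el (2 * n) c j = LD ρ h := by
    unfold LD
    rw [← hn, ← hR, ← htn]
    have : ∀ j ∈ Finset.range (2 * n), el (2 * n) c j = el (2 * n) h j - 2 * R * tn :=
      fun j _ => helc j
    rw [Finset.sum_congr rfl this, Finset.sum_sub_distrib, Finset.sum_const, Finset.card_range,
      nsmul_eq_mul, hcast]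
    ring
  obtain ⟨h41, o, ho⟩ := hr4 (2 * n) c (by omega) hcper helc0
  rw [hsumc] at ho
  have hcosn : 0 < 1 + Real.cos (Real.pi / (2 * n)) := by
    have : 0 < Real.cos (Real.pi / (2 * n)) := by
      apply Real.cos_pos_of_mem_Ioo
      constructor
      · have : 0 < Real.pi / (2 * n) := by positivity
        linarith
      · apply div_lt_div_of_pos_left hpi (by norm_num) (by linarith)
    linarith
  refine ⟨hrp1, hrp2, ?_, fun i => ⟨hal i, hbl i⟩, helge, ?_, ?_, o, ?_⟩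
  · rw [← hsumc]
    exact Finset.sum_nonneg (fun i _ => helc0 i)
  · intro i
    have e1 := h41 i
    rw [hsumc, hcast] at e1
    have e2 : el (2 * n) c i + el (2 * n) c (i + 1) ≤
        LD ρ h / (1 + Real.cos (Real.pi / (2 * n))) := by
      rw [le_div_iff₀ hcosn]; exact e1
    rw [helc, helc] at e2
    have e3 := hel i
    have e4 := hel (i + 1)
    have e5 := hbl (i - 1)
    have e6 := hal (i + 1)
    rw [add_sub_cancel_right] at e4
    linarith
  · have e1 : ∑ i ∈ Finset.range (2 * n), bl n h p ((i : ℤ) - 1) =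
        ∑ i ∈ Finset.range (2 * n), bl n h p (i : ℤ) :=
      shift (2 * n) (bl n h p) (fun i => (hR2 i).2.2.2.2.2.2)
    unfold LD
    rw [← hn, ← hR, ← htn, Finset.sum_congr rfl (fun (i : ℕ) _ => hel i),
      Finset.sum_add_distrib, e1, Finset.sum_sub_distrib, Finset.sum_add_distrib,
      Finset.sum_const, Finset.card_range, nsmul_eq_mul, hcast]
    ring
  · intro i
    have := ho i
    simp only [hc] at this
    exact ⟨by linarith [this.1], by linarith [this.2]⟩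

end Pool.Agent.Robin

end

section

/-!
# Item X2: the core polygon is small
-/

open MeasureTheory Set Metric
open scoped ENNReal NNReal Pointwise RealInnerProductSpace

namespace Pool.Agent.Robin

namespace X2

theorem step1 (p δ lam x r kp w f : ℝ) (hp1 : 3.1415 < p) (hp2 : p < 3.1416) (hδ : 0 < δ)
    (hδ1 : δ ≤ 1 / 1000) (hl : lam ≤ 1 / 1000) (hr : 1 - 2 * δ ≤ r) (hk : 1 - δ ^ 2 ≤ kp)
    (hw : 2 * p * r ≤ w) (hf : kp * (x + w) ≤ f) (hf2 : f < 4 * p * (1 + lam)) : x ≤ 7 := by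
  by_contra hcon
  push Not at hcon
  have h1 : 6.26 ≤ w := by
    have : 0.998 ≤ r := by linarith
    have h2 : 6.283 * 0.998 ≤ 2 * p * r := mul_le_mul (by linarith) this (by norm_num) (by linarith)
    linarith
  have hd : δ ^ 2 ≤ (1 / 1000) ^ 2 := pow_le_pow_left₀ hδ.le hδ1 2
  have h2 : 0.999 ≤ kp := by linarith
  have h3 : 0.999 * (7 + 6.26) ≤ kp * (x + w) :=
    mul_le_mul h2 (by linarith) (by norm_num) (by linarith)
  have h4 : 4 * p * (1 + lam) ≤ 4 * p * (1 + 1 / 1000) :=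
    mul_le_mul_of_nonneg_left (by linarith) (by linarith)
  linarith

/-- bounds for `m = x / (1 + kp)` -/
theorem mb (δ x kp m : ℝ) (hk : 1 - δ ^ 2 ≤ kp) (hk0 : 0 ≤ kp) (hk1 : kp ≤ 1) (hx : 0 ≤ x)
    (hx7 : x ≤ 7) (hm : m * (1 + kp) = x) (hm0 : 0 ≤ m) :
    m ≤ x ∧ 2 * m ≤ x + 7 * δ ^ 2 ∧ m * x ≤ x ^ 2 / 2 + 24.5 * δ ^ 2 := by
  have h1 : m ≤ x := by
    have := mul_nonneg hm0 hk0
    linarith
  have h2 : m * (1 - kp) ≤ 7 * δ ^ 2 :=
    mul_le_mul (by linarith) (by linarith) (by linarith) (by norm_num)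
  have h3 : 2 * m ≤ x + 7 * δ ^ 2 := by linarith
  refine ⟨h1, h3, ?_⟩
  have h4 : (2 * m) * x ≤ (x + 7 * δ ^ 2) * x := mul_le_mul_of_nonneg_right h3 hx
  have h5 : δ ^ 2 * x ≤ δ ^ 2 * 7 := mul_le_mul_of_nonneg_left hx7 (sq_nonneg δ)
  linarith

theorem Sb (δ x t w m S : ℝ) (ht : 0 ≤ t) (ht1 : t ≤ 4 * δ ^ 2) (hw1 : w ≤ 7)
    (hx : 0 ≤ x) (hx7 : x ≤ 7) (hS : S = w * t + 2 * t * x + m * x) :
    S ≤ m * x + 84 * δ ^ 2 := by
  have h1 : w * t ≤ 7 * (4 * δ ^ 2) := mul_le_mul hw1 ht1 ht (by norm_num)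
  have h2 : t * x ≤ 4 * δ ^ 2 * 7 := mul_le_mul ht1 hx7 hx (by positivity)
  rw [hS]
  linarith

theorem etab (p δ x r η S : ℝ) (hp1 : 3.1415 < p) (hp2 : p < 3.1416) (hδ : 0 < δ)
    (hδ1 : δ ≤ 1 / 1000) (hr : 1 - 2 * δ ≤ r) (hx : 0 ≤ x) (hx7 : x ≤ 7) (hS : S ≤ 25)
    (hη : p * r ^ 2 + r * x - 3.2 * δ ^ 2 * (S / 4) ≤ η) : p + x - 27 * δ ≤ η := by
  have h1 : 3.2 * δ ^ 2 * (S / 4) ≤ 3.2 * δ ^ 2 * (25 / 4) :=
    mul_le_mul_of_nonneg_left (by linarith) (by positivity)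
  have h2 : (1 - 2 * δ) ^ 2 ≤ r ^ 2 := pow_le_pow_left₀ (by linarith) hr 2
  have h3 : p * (1 - 2 * δ) ^ 2 ≤ p * r ^ 2 := mul_le_mul_of_nonneg_left h2 (by linarith)
  have h4 : (1 - 2 * δ) * x ≤ r * x := mul_le_mul_of_nonneg_right hr hx
  have h5 : δ * x ≤ δ * 7 := mul_le_mul_of_nonneg_left hx7 hδ.le
  have h6 : p * δ ≤ 3.1416 * δ := mul_le_mul_of_nonneg_right hp2.le hδ.le
  have h7 : δ ^ 2 ≤ 1 / 1000 * δ := by
    rw [sq]
    exact mul_le_mul_of_nonneg_right hδ1 hδ.le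
  have h8 : 0 ≤ p * δ ^ 2 := by positivity
  have h9 : p * (1 - 2 * δ) ^ 2 = p - 4 * (p * δ) + 4 * (p * δ ^ 2) := by ring
  have h10 : (1 - 2 * δ) * x = x - 2 * (δ * x) := by ring
  linarith

theorem Bb (p δ x kp η S mx : ℝ) (hp1 : 3.1415 < p) (hp2 : p < 3.1416) (hδ : 0 < δ)
    (hδ1 : δ ≤ 1 / 1000) (hk : 1 - δ ^ 2 ≤ kp) (hx : 0 ≤ x) (hx7 : x ≤ 7)
    (hS : S ≤ mx + 84 * δ ^ 2) (hη : p + x - 27 * δ ≤ η) :
    p ^ 2 + p * x - mx - 86 * δ ≤ p * kp ^ 2 * η - S := by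
  have h1 : 0 ≤ p + x - 27 * δ := by linarith
  have h7 : δ ^ 2 ≤ 1 / 1000 * δ := by
    rw [sq]
    exact mul_le_mul_of_nonneg_right hδ1 hδ.le
  have hk0 : 0 ≤ kp := by linarith
  have h2 : p * kp ^ 2 * (p + x - 27 * δ) ≤ p * kp ^ 2 * η :=
    mul_le_mul_of_nonneg_left hη (by positivity)
  have hk2 : (1 - δ ^ 2) ^ 2 ≤ kp ^ 2 := pow_le_pow_left₀ (by linarith) hk 2
  have hk3 : 1 - 2 * δ ^ 2 ≤ kp ^ 2 := by
    have : 0 ≤ (δ ^ 2) ^ 2 := sq_nonneg _
    linarith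
  have h3 : (1 - 2 * δ ^ 2) * (p * (p + x - 27 * δ)) ≤ kp ^ 2 * (p * (p + x - 27 * δ)) :=
    mul_le_mul_of_nonneg_right hk3 (mul_nonneg (by linarith) h1)
  have h4 : p * (p + x - 27 * δ) ≤ 3.1416 * (3.1416 + 7) :=
    mul_le_mul hp2.le (by linarith) h1 (by norm_num)
  have h5 : 2 * δ ^ 2 * (p * (p + x - 27 * δ)) ≤ 2 * δ ^ 2 * (3.1416 * (3.1416 + 7)) :=
    mul_le_mul_of_nonneg_left h4 (by positivity)
  have h6 : p * δ ≤ 3.1416 * δ := mul_le_mul_of_nonneg_right hp2.le hδ.le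
  have h8 : (1 - 2 * δ ^ 2) * (p * (p + x - 27 * δ)) =
      p ^ 2 + p * x - 27 * (p * δ) - 2 * δ ^ 2 * (p * (p + x - 27 * δ)) := by ring
  have h9 : kp ^ 2 * (p * (p + x - 27 * δ)) = p * kp ^ 2 * (p + x - 27 * δ) := by ring
  linarith

theorem B0b (p x : ℝ) (hp1 : 3.1415 < p) (hx : 0 ≤ x) (hx7 : x ≤ 7) :
    7 ≤ p ^ 2 + p * x - x ^ 2 / 2 := by
  have h1 : 3.1415 * x ≤ p * x := mul_le_mul_of_nonneg_right hp1.le hx
  have h2 : 3.1415 ^ 2 ≤ p ^ 2 := pow_le_pow_left₀ (by norm_num) hp1.le 2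
  have h3 : x ^ 2 ≤ 7 * x := by
    rw [sq]
    exact mul_le_mul_of_nonneg_right hx7 hx
  norm_num at h2
  linarith

theorem lhsb (p δ x r kp t w m : ℝ) (hp1 : 3.1415 < p) (hp2 : p < 3.1416) (hδ : 0 < δ)
    (hδ1 : δ ≤ 1 / 1000) (hr : 1 - 2 * δ ≤ r) (hr1 : r ≤ 1) (hk : 1 - δ ^ 2 ≤ kp)
    (ht1 : t ≤ 4 * δ ^ 2) (hw : 2 * p * r ≤ w) (hx : 0 ≤ x) (hx7 : x ≤ 7)
    (h2m : 2 * m ≤ x + 7 * δ ^ 2) : 2 * p - 13 * δ ≤ kp * (x + w) - 2 * (t + m) := by
  have h7 : δ ^ 2 ≤ 1 / 1000 * δ := by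
    rw [sq]
    exact mul_le_mul_of_nonneg_right hδ1 hδ.le
  have h4 : (1 - δ ^ 2) * x ≤ kp * x := mul_le_mul_of_nonneg_right hk hx
  have h40 : δ ^ 2 * x ≤ δ ^ 2 * 7 := mul_le_mul_of_nonneg_left hx7 (sq_nonneg δ)
  have h5 : (1 - δ ^ 2) * r ≤ kp * r := mul_le_mul_of_nonneg_right hk (by linarith)
  have h50 : δ ^ 2 * r ≤ δ ^ 2 * 1 := mul_le_mul_of_nonneg_left hr1 (sq_nonneg δ)
  have h51 : 1 - 2 * δ - δ ^ 2 ≤ kp * r := by linarith
  have h6 : kp * (2 * p * r) ≤ kp * w := mul_le_mul_of_nonneg_left hw (by linarith)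
  have h8 : 2 * p * (1 - 2 * δ - δ ^ 2) ≤ 2 * p * (kp * r) :=
    mul_le_mul_of_nonneg_left h51 (by linarith)
  have h9 : p * δ ≤ 3.1416 * δ := mul_le_mul_of_nonneg_right hp2.le hδ.le
  have h10 : p * δ ^ 2 ≤ 3.1416 * δ ^ 2 := mul_le_mul_of_nonneg_right hp2.le (sq_nonneg δ)
  have h11 : 2 * p * (1 - 2 * δ - δ ^ 2) = 2 * p - 4 * (p * δ) - 2 * (p * δ ^ 2) := by ring
  have h12 : kp * (x + w) = kp * x + kp * w := by ring
  have h13 : 2 * p * (kp * r) = kp * (2 * p * r) := by ring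
  linarith

theorem endb (p δ lam x Q : ℝ) (hp1 : 3.1415 < p) (hp2 : p < 3.1416) (hδ : 0 < δ)
    (hl : lam ≤ 1 / 1000) (hdl : 100 * δ ≤ lam) (hx : 0 ≤ x) (hx7 : x ≤ 7)
    (hQ : Q = p ^ 2 + p * x - x ^ 2 / 4 - 86 * δ)
    (h : Real.sqrt Q < p + 2 * p * lam + 6.5 * δ) : x ≤ 40 * lam := by
  have h5 : Q < (p + 2 * p * lam + 6.5 * δ) ^ 2 := Real.lt_sq_of_sqrt_lt h
  have hlam : 0 < lam := by linarith
  have h0 : p * lam ≤ 3.1416 * lam := mul_le_mul_of_nonneg_right hp2.le hlam.le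
  have h6 : 2 * p * lam + 6.5 * δ ≤ 6.4 * lam := by linarith
  have h60 : 0 ≤ 2 * p * lam + 6.5 * δ := by positivity
  have h7 : (2 * p * lam + 6.5 * δ) ^ 2 ≤ (6.4 * lam) ^ 2 := pow_le_pow_left₀ h60 h6 2
  have h8 : lam ^ 2 ≤ 1 / 1000 * lam := by
    rw [sq]
    exact mul_le_mul_of_nonneg_right hl hlam.le
  have h9 : p * (2 * p * lam + 6.5 * δ) ≤ 3.1416 * (6.4 * lam) :=
    mul_le_mul hp2.le h6 h60 (by norm_num)
  have h10 : (p + 2 * p * lam + 6.5 * δ) ^ 2 = p ^ 2 + 2 * (p * (2 * p * lam + 6.5 * δ)) +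
      (2 * p * lam + 6.5 * δ) ^ 2 := by ring
  have h11 : p * x - x ^ 2 / 4 ≤ 41.5 * lam := by
    rw [hQ, h10] at h5
    have h12 : (6.4 * lam) ^ 2 = 40.96 * lam ^ 2 := by ring
    rw [h12] at h7
    linarith
  have h13 : 3.1415 * x ≤ p * x := mul_le_mul_of_nonneg_right hp1.le hx
  have h14 : x ^ 2 ≤ 7 * x := by
    rw [sq]
    exact mul_le_mul_of_nonneg_right hx7 hx
  linarith

theorem final (p δ lam x r kp t w η f : ℝ) (hp1 : 3.1415 < p) (hp2 : p < 3.1416) (hδ : 0 < δ)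
    (hδ1 : δ ≤ 1 / 1000) (hl : lam ≤ 1 / 1000) (hdl : 100 * δ ≤ lam) (hr : 1 - 2 * δ ≤ r)
    (hr1 : r ≤ 1) (hk : 1 - δ ^ 2 ≤ kp) (hk1 : kp ≤ 1) (ht : 0 ≤ t) (ht1 : t ≤ 4 * δ ^ 2)
    (hw : 2 * p * r ≤ w) (hw1 : w ≤ 7) (hx : 0 ≤ x) (hx7 : x ≤ 7)
    (hη : p * r ^ 2 + r * x - 3.2 * δ ^ 2 * ((w * t + 2 * t * x + x / (1 + kp) * x) / 4) ≤ η)
    (hL : 0 ≤ p * kp ^ 2 * η - (w * t + 2 * t * x + x / (1 + kp) * x) →
      kp * (x + w) - 2 * (t + x / (1 + kp)) + 2 * Real.sqrt (p * kp ^ 2 * η -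
        (w * t + 2 * t * x + x / (1 + kp) * x) + (t + x / (1 + kp)) ^ 2) ≤ f)
    (hf2 : f < 4 * p * (1 + lam)) : x ≤ 40 * lam := by
  have hδ2 : δ ^ 2 ≤ (1 / 1000) ^ 2 := pow_le_pow_left₀ hδ.le hδ1 2
  have hkp0 : 0 ≤ kp := by linarith
  obtain ⟨m, hm⟩ : ∃ m, m = x / (1 + kp) := ⟨_, rfl⟩
  rw [← hm] at hη hL
  have hm0 : 0 ≤ m := by rw [hm]; exact div_nonneg hx (by linarith)
  have hmx : m * (1 + kp) = x := by rw [hm]; field_simp
  obtain ⟨S, hS⟩ : ∃ S, S = w * t + 2 * t * x + m * x := ⟨_, rfl⟩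
  rw [← hS] at hη hL
  obtain ⟨m1, m2, m3⟩ := mb δ x kp m hk hkp0 hk1 hx hx7 hmx hm0
  have hS1 := Sb δ x t w m S ht ht1 hw1 hx hx7 hS
  have hS25 : S ≤ 25 := by
    have : x ^ 2 ≤ 7 ^ 2 := pow_le_pow_left₀ hx hx7 2
    linarith
  have hη1 := etab p δ x r η S hp1 hp2 hδ hδ1 hr hx hx7 hS25 hη
  have hB := Bb p δ x kp η S (m * x) hp1 hp2 hδ hδ1 hk hx hx7 hS1 hη1
  have hB7 := B0b p x hp1 hx hx7
  have h1 := hL (by linarith)
  obtain ⟨Q, hQ⟩ : ∃ Q, Q = p ^ 2 + p * x - x ^ 2 / 4 - 86 * δ := ⟨_, rfl⟩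
  have hQle : Q ≤ p * kp ^ 2 * η - S + (t + m) ^ 2 := by
    have h2 : m ^ 2 ≤ (t + m) ^ 2 := pow_le_pow_left₀ hm0 (by linarith) 2
    have h3 : 0 ≤ (m - x / 2) ^ 2 := sq_nonneg _
    rw [hQ]
    linarith
  have h2 : Real.sqrt Q ≤ Real.sqrt (p * kp ^ 2 * η - S + (t + m) ^ 2) := Real.sqrt_le_sqrt hQle
  have h3 := lhsb p δ x r kp t w m hp1 hp2 hδ hδ1 hr hr1 hk ht1 hw hx hx7 m2
  have h4 : Real.sqrt Q < p + 2 * p * lam + 6.5 * δ := by linarith
  exact endb p δ lam x Q hp1 hp2 hδ hl hdl hx hx7 hQ h4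


/-- facts on the angle `π / (2 n)` -/
theorem angle {δ : ℝ} {n : ℕ} (hδ : 0 < δ) (hδ1 : δ ≤ 1 / 1000) (hn : 4 ≤ n)
    (hnl : (δ ^ 2)⁻¹ ≤ (n : ℝ)) :
    0 < Real.sin (Real.pi / (2 * n)) ∧ 1 - δ ^ 2 ≤ Real.cos (Real.pi / (2 * n)) ∧
    Real.pi / (2 * n) ≤ Real.tan (Real.pi / (2 * n)) ∧
    Real.tan (Real.pi / (2 * n)) * Real.cos (Real.pi / (2 * n)) ≤ Real.pi / (2 * n) ∧
    Real.pi / (2 * n) ≤ 1.6 * δ ^ 2 ∧ Real.sin (Real.pi / n) ≤ 3.2 * δ ^ 2 := by
  have hpi := Real.pi_pos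
  have hpi2 := Real.pi_lt_d2
  have hn0 : (0 : ℝ) < n := by
    have : 0 < n := by omega
    exact_mod_cast this
  have hn4 : (4 : ℝ) ≤ n := by exact_mod_cast hn
  have hd2 : 0 < δ ^ 2 := by positivity
  have h1 : 1 ≤ (n : ℝ) * δ ^ 2 := by
    rw [inv_eq_one_div, div_le_iff₀ hd2] at hnl
    exact hnl
  have h2 : Real.pi / (2 * n) ≤ 1.6 * δ ^ 2 := by
    rw [div_le_iff₀ (by positivity)]
    have : 1.6 * δ ^ 2 * (2 * n) = 3.2 * ((n : ℝ) * δ ^ 2) := by ring
    rw [this]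
    linarith
  have h3 : Real.pi / n ≤ 3.2 * δ ^ 2 := by
    rw [div_le_iff₀ hn0]
    have : 3.2 * δ ^ 2 * n = 3.2 * ((n : ℝ) * δ ^ 2) := by ring
    rw [this]
    linarith
  have h0 : 0 < Real.pi / (2 * n) := by positivity
  have hlt : Real.pi / (2 * n) < Real.pi / 2 := by
    rw [div_lt_div_iff₀ (by positivity) (by norm_num)]
    nlinarith
  have hs : 0 < Real.sin (Real.pi / (2 * n)) :=
    Real.sin_pos_of_pos_of_lt_pi h0 (by linarith)
  have hc : 0 < Real.cos (Real.pi / (2 * n)) :=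
    Real.cos_pos_of_mem_Ioo ⟨by linarith, hlt⟩
  have hd1 : δ ^ 2 ≤ (1 / 1000) ^ 2 := pow_le_pow_left₀ hδ.le hδ1 2
  refine ⟨hs, ?_, Real.le_tan h0.le hlt, ?_, h2, ?_⟩
  · have h4 := Real.one_sub_sq_div_two_le_cos (x := Real.pi / (2 * n))
    have h5 : (Real.pi / (2 * n)) ^ 2 ≤ (1.6 * δ ^ 2) ^ 2 := pow_le_pow_left₀ h0.le h2 2
    have h6 : δ ^ 2 * δ ^ 2 ≤ δ ^ 2 * (1 / 1000) ^ 2 := mul_le_mul_of_nonneg_left hd1 hd2.le
    have h7 : (1.6 * δ ^ 2) ^ 2 = 2.56 * (δ ^ 2 * δ ^ 2) := by ring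
    rw [h7] at h5
    linarith
  · rw [Real.tan_eq_sin_div_cos, div_mul_cancel₀ _ hc.ne']
    exact Real.sin_le h0.le
  · exact (Real.sin_le (by positivity)).trans h3

/-- the eventual facts on `ρ` -/
theorem ev : ∃ L₀ : ℝ, 1 < L₀ ∧ ∀ ρ : ℝ, L₀ ≤ ρ → 1 < Real.log ρ ∧ 1000 ≤ Real.log ρ ∧
    100 ≤ Real.log (Real.log ρ) ∧ Real.log (Real.log ρ) / Real.log ρ ≤ 1 / 1000 := by
  have h1 : ∀ᶠ ρ : ℝ in Filter.atTop, 1000 ≤ Real.log ρ :=
    Real.tendsto_log_atTop.eventually_ge_atTop 1000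
  have h2 : ∀ᶠ ρ : ℝ in Filter.atTop, 100 ≤ Real.log (Real.log ρ) :=
    (Real.tendsto_log_atTop.comp Real.tendsto_log_atTop).eventually_ge_atTop 100
  have h0 : Filter.Tendsto (fun x : ℝ => Real.log x / x) Filter.atTop (nhds 0) :=
    Real.isLittleO_log_id_atTop.tendsto_div_nhds_zero
  have h3 : ∀ᶠ ρ : ℝ in Filter.atTop, Real.log (Real.log ρ) / Real.log ρ ≤ 1 / 1000 :=
    (h0.comp Real.tendsto_log_atTop).eventually (ge_mem_nhds (by norm_num))
  obtain ⟨L, hL⟩ := Filter.eventually_atTop.1 (h1.and (h2.and h3))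
  refine ⟨max L 2, lt_of_lt_of_le one_lt_two (le_max_right _ _), fun ρ hρ => ?_⟩
  obtain ⟨a, b, c⟩ := hL ρ ((le_max_left _ _).trans hρ)
  exact ⟨by linarith, a, b, c⟩

end X2

open X2 in
theorem prn_X2 (hx1 : S_X1) (hl2 : S_L2) (hl4 : S_L4) (hl6 : S_L6) (_hr2 : S_R2) (hr3 : S_R3)
    (hr5 : S_R5) : S_X2 := by
  obtain ⟨L₁, hL₁, hX1⟩ := hx1
  obtain ⟨L₂, hL₂, hev⟩ := ev
  refine ⟨max L₁ L₂, lt_of_lt_of_le hL₁ (le_max_left _ _), ?_⟩
  intro ρ G h p hρ hG hGc hBump hCirc hF0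
  obtain ⟨e1, e2, e3, e4⟩ := hev ρ ((le_max_right _ _).trans hρ)
  obtain ⟨x1, x2, x3, x4, x5, x6, x7, o, x8⟩ :=
    hX1 ρ G h p ((le_max_left _ _).trans hρ) hG hBump hCirc
  have hρ0 : 0 < ρ := by
    have := (le_max_left L₁ L₂).trans hρ
    linarith
  have hpi := Real.pi_pos
  obtain ⟨l, hl⟩ : ∃ l, l = Real.log ρ := ⟨_, rfl⟩
  obtain ⟨lam, hlam⟩ : ∃ lam, lam = Real.log l / l := ⟨_, rfl⟩
  obtain ⟨n, hn⟩ : ∃ n, n = nn ρ := ⟨_, rfl⟩
  obtain ⟨r', hr'⟩ : ∃ r', r' = rp ρ := ⟨_, rfl⟩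
  obtain ⟨D, hD⟩ : ∃ D, D = LD ρ h := ⟨_, rfl⟩
  rw [← hl] at e1 e2 e3 e4 hF0 x1 ⊢
  rw [← hlam] at e4 hF0
  rw [← hn] at hCirc x4 x5 x6 x7 x8
  rw [← hr'] at x1 x2 x4 x5 x6 x7 x8
  rw [← hD] at x3 x6 x7 x8 ⊢
  have hl0 : 0 < l := by linarith
  obtain ⟨δ, hδ⟩ : ∃ δ, δ = 1 / l := ⟨_, rfl⟩
  have hδ0 : 0 < δ := by rw [hδ]; positivity
  have hδ1 : δ ≤ 1 / 1000 := by
    rw [hδ]
    exact one_div_le_one_div_of_le (by norm_num) e2
  have hdl : 100 * δ ≤ lam := by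
    rw [hδ, hlam, mul_one_div]
    exact div_le_div_of_nonneg_right e3 hl0.le
  have hn4 : 4 ≤ n := hCirc.n_le
  have hnl : (δ ^ 2)⁻¹ ≤ (n : ℝ) := by
    have h1 : l ^ 2 ≤ (n : ℝ) := by
      rw [hn]
      unfold nn
      rw [← hl]
      exact Nat.le_ceil _
    rw [hδ]
    rwa [one_div, inv_pow, inv_inv]
  obtain ⟨a1, a2, a3, a4, a5, a6⟩ := angle hδ0 hδ1 hn4 hnl
  obtain ⟨tn, htn⟩ : ∃ tn, tn = Real.tan (Real.pi / (2 * n)) := ⟨_, rfl⟩
  obtain ⟨kp, hkp⟩ : ∃ kp, kp = Real.cos (Real.pi / (2 * n)) := ⟨_, rfl⟩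
  obtain ⟨sn, hsn⟩ : ∃ sn, sn = Real.sin (Real.pi / (2 * n)) := ⟨_, rfl⟩
  rw [← hsn] at a1
  rw [← hkp] at a2 a4
  rw [← htn] at a3 a4
  rw [← hkp, ← htn] at x6
  rw [← htn] at x4 x5 x7
  have hn0 : (0 : ℝ) < n := by
    have : 0 < n := by omega
    exact_mod_cast this
  have hδ2 : δ ^ 2 ≤ (1 / 1000) ^ 2 := pow_le_pow_left₀ hδ0.le hδ1 2
  have hkp0 : 0 < kp := by linarith
  have hkp1 : kp ≤ 1 := by rw [hkp]; exact Real.cos_le_one _
  have hth : 0 < Real.pi / (2 * n) := by positivity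
  have htn0 : 0 < tn := by linarith
  have hsk : sn = tn * kp := by
    rw [htn, hkp, hsn, Real.tan_eq_sin_div_cos, div_mul_cancel₀]
    rw [← hkp]
    exact hkp0.ne'
  have hr0 : 0 < r' := by
    have h1 : 0 < (1 - 2 / l) * ρ := by
      refine mul_pos ?_ hρ0
      rw [sub_pos, div_lt_one hl0]
      linarith
    linarith
  -- the length of the polygon
  obtain ⟨E, hE⟩ : ∃ E, E = ∑ i ∈ Finset.range (2 * n), el (2 * n) h i := ⟨_, rfl⟩
  have hDE : E = D + 4 * n * r' * tn := by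
    have h1 : D = E - 4 * n * r' * tn := by
      rw [hD]
      unfold LD
      rw [← hn, ← hr', ← htn, ← hE]
    linarith
  obtain ⟨r3a, r3b⟩ := hr3 (2 * n) h (by omega) hCirc.per_h
  have hcast : (Real.pi / ((2 * n : ℕ) : ℝ)) = Real.pi / (2 * n) := by push_cast; rfl
  rw [hcast, ← htn, ← hE] at r3a
  obtain ⟨W, hW⟩ : ∃ W, W = ∑ i ∈ Finset.range (2 * n), h i := ⟨_, rfl⟩
  rw [← hW] at r3a
  obtain ⟨F0, hF0e⟩ : ∃ F0, F0 = per G + 2 * Real.pi * Real.sqrt (area G / Real.pi) := ⟨_, rfl⟩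
  rw [← hF0e] at hF0
  -- perimeter
  have U1 : kp * E ≤ F0 := by
    have h1 := hl2 G n ∅ hG hGc (by omega) (by simp)
    rw [Finset.sum_empty, add_zero, hl4 G n h p hG.isOpen hG.isConnected hG.isBounded hCirc,
      ← hW, ← hsn] at h1
    have h2 : kp * E = 2 * sn * W := by rw [r3a, hsk]; ring
    have h3 : 0 ≤ 2 * Real.pi * Real.sqrt (area G / Real.pi) := by positivity
    rw [hF0e, h2]
    linarith
  obtain ⟨τ, hτ⟩ : ∃ τ, τ = 2 * r' * tn := ⟨_, rfl⟩
  rw [← hτ] at x5 x6 x7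
  have hτ0 : 0 < τ := by rw [hτ]; positivity
  obtain ⟨M1, hM1⟩ : ∃ M1, M1 = D / (1 + kp) := ⟨_, rfl⟩
  rw [← hM1] at x6
  have hM10 : 0 ≤ M1 := by rw [hM1]; exact div_nonneg x3 (by linarith)
  obtain ⟨S2, hS2⟩ : ∃ S2, S2 = 2 * n * τ ^ 2 + 2 * τ * D + M1 * D := ⟨_, rfl⟩
  have hZ : ∀ i, 0 ≤ al n h p i + bl n h p i - τ ∧ al n h p i + bl n h p i - τ ≤ M1 := by
    intro i
    have h1 := x4 i
    have h2 := x6 i
    rw [hτ] at h2 ⊢
    constructor <;> linarith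
  have hsq : ∑ i ∈ Finset.range (2 * n), (al n h p i + bl n h p i) ^ 2 ≤ S2 := by
    calc ∑ i ∈ Finset.range (2 * n), (al n h p i + bl n h p i) ^ 2
        ≤ ∑ i ∈ Finset.range (2 * n), (τ ^ 2 + (2 * τ + M1) * (al n h p i + bl n h p i - τ)) := by
          refine Finset.sum_le_sum fun i _ => ?_
          obtain ⟨h1, h2⟩ := hZ i
          have h3 : (al n h p i + bl n h p i - τ) ^ 2 ≤ M1 * (al n h p i + bl n h p i - τ) := by
            rw [sq]
            exact mul_le_mul_of_nonneg_right h2 h1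
          linarith
      _ = S2 := by
          rw [Finset.sum_add_distrib, ← Finset.mul_sum, x7, Finset.sum_const, Finset.card_range,
            nsmul_eq_mul, hS2]
          push_cast
          ring
  have hab : ∑ i ∈ Finset.range (2 * n), al n h p i * bl n h p i ≤ S2 / 4 := by
    have h1 : ∑ i ∈ Finset.range (2 * n), al n h p i * bl n h p i ≤
        ∑ i ∈ Finset.range (2 * n), (al n h p i + bl n h p i) ^ 2 / 4 := by
      refine Finset.sum_le_sum fun i _ => ?_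
      have := sq_nonneg (al n h p i - bl n h p i)
      linarith
    rw [← Finset.sum_div] at h1
    linarith
  obtain ⟨H, hH⟩ : ∃ H, H = area (hull G) := ⟨_, rfl⟩
  have hS20 : 0 ≤ S2 := by rw [hS2]; positivity
  -- area
  have U2 : Real.pi * r' ^ 2 + r' * D - 3.2 * δ ^ 2 * (S2 / 4) ≤ H := by
    have h1 := hr5 G n h p o hG.isOpen hG.isBounded hCirc fun i => lt_of_lt_of_le hr0 (x8 i).1
    rw [← hH] at h1
    have h2 : ∑ i ∈ Finset.range (2 * n), (r' * (el (2 * n) h i - τ) +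
        τ * (h i - ⟪o, nv (2 * n) i⟫)) ≤
        ∑ i ∈ Finset.range (2 * n), (h i - ⟪o, nv (2 * n) i⟫) * el (2 * n) h i := by
      refine Finset.sum_le_sum fun i _ => ?_
      have h3 := mul_nonneg (sub_nonneg.2 (x8 i).1) (sub_nonneg.2 (x5 i))
      linarith
    have h4 : ∑ i ∈ Finset.range (2 * n), (r' * (el (2 * n) h i - τ) +
        τ * (h i - ⟪o, nv (2 * n) i⟫)) = r' * (E - 2 * n * τ) + τ * W := by
      rw [Finset.sum_add_distrib, ← Finset.mul_sum, ← Finset.mul_sum, Finset.sum_sub_distrib,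
        Finset.sum_sub_distrib, (r3b o 0).2, ← hE, ← hW, Finset.sum_const, Finset.card_range,
        nsmul_eq_mul]
      push_cast
      ring
    rw [h4] at h2
    have h5 : r' * (E - 2 * n * τ) + τ * W = 2 * (r' * D) + 4 * n * tn * r' ^ 2 := by
      have h6 : τ * W = r' * E := by rw [r3a, hτ]; ring
      rw [h6, hDE, hτ]
      ring
    rw [h5] at h2
    have h7 : Real.pi * r' ^ 2 ≤ 2 * n * tn * r' ^ 2 := by
      refine mul_le_mul_of_nonneg_right ?_ (sq_nonneg _)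
      rw [div_le_iff₀ (by positivity)] at a3
      linarith
    have h8 : Real.sin (Real.pi / n) * ∑ i ∈ Finset.range (2 * n), al n h p i * bl n h p i ≤
        3.2 * δ ^ 2 * (S2 / 4) := by
      have h9 : 0 ≤ ∑ i ∈ Finset.range (2 * n), al n h p i * bl n h p i := by
        refine Finset.sum_nonneg fun i _ => ?_
        have h10 := x4 i
        have h11 : 0 ≤ r' * tn := by positivity
        exact mul_nonneg (by linarith) (by linarith)
      exact mul_le_mul a6 hab h9 (by positivity)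
    linarith
  -- macroscopic inequality
  have U3 : 0 ≤ Real.pi * kp ^ 2 * H - S2 →
      kp * E - 2 * (τ + M1) + 2 * Real.sqrt (Real.pi * kp ^ 2 * H - S2 + (τ + M1) ^ 2) ≤ F0 := by
    intro hB
    have h1 := hl6 G n h p (τ + M1) S2 hG hGc hCirc (by linarith) (fun i _ => by
      have := (hZ i).2
      linarith) hsq
    rw [← hkp, ← hH, ← hE, ← hF0e] at h1
    exact h1 hB
  -- normalisation
  obtain ⟨x, hx⟩ : ∃ x, x = D / ρ := ⟨_, rfl⟩
  obtain ⟨r, hr⟩ : ∃ r, r = r' / ρ := ⟨_, rfl⟩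
  obtain ⟨t, ht⟩ : ∃ t, t = 2 * r * tn := ⟨_, rfl⟩
  obtain ⟨w, hw⟩ : ∃ w, w = 2 * n * t := ⟨_, rfl⟩
  obtain ⟨η, hη⟩ : ∃ η, η = H / ρ ^ 2 := ⟨_, rfl⟩
  obtain ⟨f, hf⟩ : ∃ f, f = F0 / ρ := ⟨_, rfl⟩
  have eD : D = ρ * x := by rw [hx]; field_simp
  have er : r' = ρ * r := by rw [hr]; field_simp
  have et : τ = ρ * t := by rw [hτ, ht, er]; ring
  have eH : H = ρ ^ 2 * η := by rw [hη]; field_simp
  have ef : F0 = ρ * f := by rw [hf]; field_simp
  have eE : E = ρ * (x + w) := by rw [hDE, hw, ht, eD, er]; ring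
  have eM1 : M1 = ρ * (x / (1 + kp)) := by rw [hM1, eD, mul_div_assoc]
  have eS2 : S2 = ρ ^ 2 * (w * t + 2 * t * x + x / (1 + kp) * x) := by
    rw [hS2, et, eD, eM1, hw]
    ring
  have hx0 : 0 ≤ x := by rw [hx]; exact div_nonneg x3 hρ0.le
  have hrl : 1 - 2 * δ ≤ r := by
    rw [hr, le_div_iff₀ hρ0, hδ]
    have : (1 - 2 * (1 / l)) * ρ = (1 - 2 / l) * ρ := by ring
    rw [this]
    exact x1
  have hr1 : r ≤ 1 := by rw [hr, div_le_one hρ0]; exact x2
  have hrpos : 0 < r := by rw [hr]; positivity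
  have htn4 : t ≤ 4 * δ ^ 2 := by
    have h1 : tn * kp ≤ 1.6 * δ ^ 2 := a4.trans a5
    have h2 : tn * 0.999 ≤ tn * kp := mul_le_mul_of_nonneg_left (by linarith) htn0.le
    have h3 : r * tn ≤ 1 * tn := mul_le_mul_of_nonneg_right hr1 htn0.le
    have h4 : 0 ≤ δ ^ 2 := sq_nonneg _
    rw [ht]
    linarith
  have ht0 : 0 ≤ t := by rw [ht]; positivity
  have hw2 : 2 * Real.pi * r ≤ w := by
    rw [div_le_iff₀ (by positivity)] at a3
    have h1 := mul_le_mul_of_nonneg_left a3 (show 0 ≤ 2 * r by positivity)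
    rw [hw, ht]
    linarith
  have hw7 : w ≤ 7 := by
    rw [le_div_iff₀ (by positivity)] at a4
    have h1 : w * kp ≤ 2 * Real.pi := by
      have h2 := mul_le_mul_of_nonneg_left a4 (show 0 ≤ 2 * r by positivity)
      have h3 : 2 * r * Real.pi ≤ 2 * 1 * Real.pi :=
        mul_le_mul_of_nonneg_right (by linarith) hpi.le
      rw [hw, ht]
      linarith
    by_contra hcon
    push Not at hcon
    have h4 : 7 * 0.999 ≤ w * kp := mul_le_mul hcon.le (by linarith) (by norm_num) (by linarith)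
    have := Real.pi_lt_d4
    linarith
  have hf2 : f < 4 * Real.pi * (1 + lam) := by
    rw [hf, div_lt_iff₀ hρ0]
    linarith
  have hk1' : kp * (x + w) ≤ f := by
    have h1 : ρ * (kp * (x + w)) ≤ ρ * f := by
      rw [← ef]
      rw [eE] at U1
      linarith
    exact le_of_mul_le_mul_left h1 hρ0
  have hx7 : x ≤ 7 := step1 Real.pi δ lam x r kp w f Real.pi_gt_d4 Real.pi_lt_d4 hδ0 hδ1 e4 hrl a2
    hw2 hk1' hf2
  have hρ2 : 0 < ρ ^ 2 := by positivity
  have hfin : x ≤ 40 * lam := by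
    refine final Real.pi δ lam x r kp t w η f Real.pi_gt_d4 Real.pi_lt_d4 hδ0 hδ1 e4 hdl hrl hr1
      a2 hkp1 ht0 htn4 hw2 hw7 hx0 hx7 ?_ ?_ hf2
    · have h1 : ρ ^ 2 * (Real.pi * r ^ 2 + r * x - 3.2 * δ ^ 2 *
          ((w * t + 2 * t * x + x / (1 + kp) * x) / 4)) ≤ ρ ^ 2 * η := by
        rw [← eH]
        rw [eS2, er, eD] at U2
        linarith
      exact le_of_mul_le_mul_left h1 hρ2
    · intro hB
      have h1 : 0 ≤ Real.pi * kp ^ 2 * H - S2 := by
        rw [eH, eS2]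
        have := mul_nonneg hρ2.le hB
        linarith
      have h2 := U3 h1
      have h3 : Real.pi * kp ^ 2 * H - S2 + (τ + M1) ^ 2 = ρ ^ 2 * (Real.pi * kp ^ 2 * η -
          (w * t + 2 * t * x + x / (1 + kp) * x) + (t + x / (1 + kp)) ^ 2) := by
        rw [eH, eS2, et, eM1]
        ring
      rw [h3, Real.sqrt_mul hρ2.le, Real.sqrt_sq hρ0.le, eE, et, eM1, ef] at h2
      refine le_of_mul_le_mul_left ?_ hρ0
      linarith
  rw [eD]
  have h1 : ρ * x ≤ ρ * (40 * lam) := mul_le_mul_of_nonneg_left hfin hρ0.le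
  rw [hlam] at h1
  calc ρ * x ≤ ρ * (40 * (Real.log l / l)) := h1
    _ = 40 * ρ * Real.log l / l := by ring

end Pool.Agent.Robin

end

section

/-!
# MP_4b551e_an: item X3 (near-round hull and short faces)
-/

open MeasureTheory Set Metric
open scoped ENNReal NNReal Pointwise RealInnerProductSpace

namespace Pool.Agent.Robin

theorem prn_X3 (hx1 : S_X1) (hx2 : S_X2) (hr1 : S_R1) (hr6 : S_R6) (hr8 : S_R8) : S_X3 := by
  obtain ⟨L1, hL1, hx1⟩ := hx1
  obtain ⟨L2, hL2, hx2⟩ := hx2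
  obtain ⟨l0, hl0⟩ : ∃ l0 : ℝ, ∀ l : ℝ, l0 ≤ l → Real.log l ≤ l / 20000 := by
    have h := Real.isLittleO_log_id_atTop.def (c := 1 / 20000) (by norm_num)
    obtain ⟨l0, hl0⟩ := Filter.eventually_atTop.1 h
    refine ⟨max l0 0, fun l hl => ?_⟩
    have h1 := hl0 l (le_trans (le_max_left _ _) hl)
    have h2 : 0 ≤ l := le_trans (le_max_right _ _) hl
    have h3 := Real.norm_eq_abs (Real.log l) ▸ le_abs_self (Real.log l)
    simp only [id, Real.norm_eq_abs, abs_of_nonneg h2] at h1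
    have h4 := le_abs_self (Real.log l)
    linarith
  refine ⟨max (max L1 L2) (Real.exp (max l0 100000)),
    lt_of_lt_of_le hL1 ((le_max_left _ _).trans (le_max_left _ _)), ?_⟩
  intro ρ G hρ hG hGc hB hper
  have hρ1 : L1 ≤ ρ := ((le_max_left _ _).trans (le_max_left _ _)).trans hρ
  have hρ2 : L2 ≤ ρ := ((le_max_right _ _).trans (le_max_left _ _)).trans hρ
  have hρ3 : Real.exp (max l0 100000) ≤ ρ := (le_max_right _ _).trans hρ
  have hρ0 : 0 < ρ := lt_of_lt_of_le (Real.exp_pos _) hρ3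
  set l := Real.log ρ with hl
  have hl1 : max l0 100000 ≤ l := by
    rw [hl, Real.le_log_iff_exp_le hρ0]
    exact hρ3
  have hl2 : (100000 : ℝ) ≤ l := (le_max_right _ _).trans hl1
  have hl3 : Real.log l ≤ l / 20000 := hl0 l ((le_max_left _ _).trans hl1)
  have hlpos : 0 < l := by linarith
  have hll : 1 ≤ Real.log l := by
    rw [Real.le_log_iff_exp_le hlpos]
    have := Real.exp_one_lt_d9
    linarith
  set n : ℕ := nn ρ with hn
  have hnl : l ^ 2 ≤ n := Nat.le_ceil _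
  have hn5 : (100000 : ℝ) ≤ n := by nlinarith
  have hn4 : 4 ≤ n := by
    have : (4 : ℝ) ≤ n := by linarith
    exact_mod_cast this
  have hnpos : (0 : ℝ) < n := by linarith
  have hpi := Real.pi_pos
  have hpi4 := Real.pi_lt_four
  have hpigt := Real.pi_gt_three
  have hpi3 := Real.pi_lt_d2
  obtain ⟨h, p, hC⟩ := hr1 G n hG.isOpen hG.isConnected.nonempty hG.isBounded hn4
  obtain ⟨a1, a2, a3, -, -, a6, -, o, ho⟩ := hx1 ρ G h p hρ1 hG hB hC
  have hLD := hx2 ρ G h p hρ2 hG hGc hB hC hper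
  have hLD1 : LD ρ h ≤ ρ / 500 := by
    refine hLD.trans ?_
    rw [div_le_iff₀ hlpos]
    nlinarith
  have hrp1 : 999 / 1000 * ρ ≤ rp ρ := by
    refine le_trans ?_ a1
    have h1 : 2 / l ≤ 1 / 1000 := by
      rw [div_le_iff₀ hlpos]; linarith
    nlinarith
  have hx0 : 0 < Real.pi / (2 * n) := by positivity
  have hx1' : Real.pi / (2 * n) ≤ 1 / 10000 := by
    rw [div_le_iff₀ (by positivity)]; linarith
  have hx2' : Real.pi / n ≤ 1 / 10000 := by
    rw [div_le_iff₀ (by positivity)]; linarith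
  have hx20 : 0 < Real.pi / n := by positivity
  have hc1 : 1 - 1 / 10000 ≤ Real.cos (Real.pi / (2 * n)) := by
    have := Real.one_sub_sq_div_two_le_cos (x := Real.pi / (2 * n))
    nlinarith
  have hc2 : 1 - 1 / 10000 ≤ Real.cos (Real.pi / n) := by
    have := Real.one_sub_sq_div_two_le_cos (x := Real.pi / n)
    nlinarith
  have hcn1 := Real.cos_le_one (Real.pi / n)
  have hs1 : Real.sin (Real.pi / n) ≤ 1 / 10000 := (Real.sin_le hx20.le).trans hx2'
  have hs0 : 0 ≤ Real.sin (Real.pi / n) :=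
    Real.sin_nonneg_of_nonneg_of_le_pi hx20.le (by linarith)
  have hcpos : 0 < Real.cos (Real.pi / (2 * n)) := by linarith
  obtain ⟨b1, b2⟩ := hr6 G n h p o (rp ρ) (LD ρ h / 2) hG.isOpen hG.isBounded hC
    (by linarith) (by linarith) ho
  set ρ₂ := (rp ρ + LD ρ h / 2) / Real.cos (Real.pi / (2 * n)) with hρ₂
  have hρ₂1 : ρ₂ ≤ 1002 / 1000 * ρ := by
    rw [hρ₂, div_le_iff₀ hcpos]
    nlinarith
  have hρ₂0 : 0 ≤ ρ₂ := by
    rw [hρ₂]
    apply div_nonneg _ hcpos.le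
    linarith
  have hq1 : Real.sin (Real.pi / n) * ρ₂ ≤ 1 / 10000 * (1002 / 1000 * ρ) :=
    mul_le_mul hs1 hρ₂1 hρ₂0 (by norm_num)
  have hq2 : 0 ≤ Real.sin (Real.pi / n) * ρ₂ := mul_nonneg hs0 hρ₂0
  have hq3 : (999 / 1000 * ρ) * (1 - 1 / 10000) ≤ rp ρ * Real.cos (Real.pi / n) :=
    mul_le_mul hrp1 hc2 (by norm_num) (by linarith)
  have hq4 : rp ρ * Real.cos (Real.pi / n) ≤ ρ * 1 :=
    mul_le_mul a2 hcn1 (by linarith) hρ0.le
  refine ⟨⟨o, _, ρ₂, b2, b1, ?_, ?_, ?_⟩, ?_⟩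
  · linarith
  · linarith
  · linarith
  · intro x x' ν hS hx' hxx
    obtain ⟨i, -, hi⟩ := hr8 G n h p x x' ν hG.isOpen hG.isBounded hC hS hx' hxx
    have h1 := a6 i
    have ht : Real.tan (Real.pi / (2 * n)) ≤ 2 * (Real.pi / (2 * n)) := by
      rw [Real.tan_eq_sin_div_cos, div_le_iff₀ hcpos]
      have h2 := Real.sin_le hx0.le
      nlinarith
    have ht0 : 0 ≤ Real.tan (Real.pi / (2 * n)) :=
      Real.tan_nonneg_of_nonneg_of_le_pi_div_two hx0.le (by linarith)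
    have h2 : 2 * rp ρ * Real.tan (Real.pi / (2 * n)) ≤ 35 / 10 * ρ * Real.log l / l := by
      have h3 : 2 * rp ρ * Real.tan (Real.pi / (2 * n)) ≤
          2 * ρ * (2 * (Real.pi / (2 * n))) :=
        mul_le_mul (by linarith) ht ht0 (by linarith)
      have h4 : 2 * ρ * (2 * (Real.pi / (2 * n))) = 2 * ρ * Real.pi / n := by
        field_simp
      refine h3.trans ?_
      rw [h4, div_le_div_iff₀ hnpos hlpos]
      have hρl : 0 < ρ * l := mul_pos hρ0 hlpos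
      have hρn : 0 < ρ * n := mul_pos hρ0 hnpos
      have h5 : ρ * l ^ 2 ≤ ρ * n := mul_le_mul_of_nonneg_left hnl hρ0.le
      have h6 : 35 / 10 * (ρ * n) ≤ 35 / 10 * ρ * Real.log l * n := by
        have := mul_le_mul_of_nonneg_left hll hρn.le
        linarith
      have h7 : ρ * l * 100000 ≤ ρ * l ^ 2 := by
        have := mul_le_mul_of_nonneg_left hl2 hρl.le
        linarith
      have h8 : 2 * ρ * Real.pi * l ≤ 8 * (ρ * l) := by
        have := mul_le_mul_of_nonneg_left hpi4.le hρl.le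
        linarith
      linarith
    have h3 : LD ρ h / (1 + Real.cos (Real.pi / (2 * n))) ≤ 21 * ρ * Real.log l / l := by
      rw [div_le_iff₀ (by linarith)]
      have h4 : 0 ≤ ρ * Real.log l / l := by positivity
      have h5 : 40 * ρ * Real.log l / l = 40 * (ρ * Real.log l / l) := by ring
      have h6 : 21 * ρ * Real.log l / l = 21 * (ρ * Real.log l / l) := by ring
      rw [h5] at hLD
      rw [h6]
      have h7 := mul_le_mul_of_nonneg_left hc1 h4
      linarith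
    have h4 : 0 ≤ ρ * Real.log l / l := by positivity
    have h5 : 35 / 10 * ρ * Real.log l / l = 35 / 10 * (ρ * Real.log l / l) := by ring
    have h6 : 21 * ρ * Real.log l / l = 21 * (ρ * Real.log l / l) := by ring
    have h7 : 25 * ρ * Real.log l / l = 25 * (ρ * Real.log l / l) := by ring
    rw [h7]
    rw [h5] at h2
    rw [h6] at h3
    linarith

end Pool.Agent.Robin

end

section

/-!
# MP_4b551e_an: item Y1 (crossing lemma for path connected sets)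
-/

open MeasureTheory Set Metric
open scoped ENNReal NNReal Pointwise RealInnerProductSpace

namespace Pool.Agent.Robin

theorem prn_Y1 : S_Y1 := by
  intro hC X Y S T hX hY hS hT bS bT hSa hSb hTc hTd
  obtain ⟨a, ha, ha0⟩ := hSa
  obtain ⟨b, hb, hb0⟩ := hSb
  obtain ⟨c, hc, hc0⟩ := hTc
  obtain ⟨d, hd, hd0⟩ := hTd
  have j1 := hS.joinedIn a ha b hb
  have j2 := hT.joinedIn c hc d hd
  have m1 : ∀ t : ℝ, j1.somePath.extend t ∈ S := fun t => by
    have : j1.somePath.extend t ∈ range j1.somePath := by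
      rw [← Path.extend_range]
      exact mem_range_self t
    obtain ⟨s, hs⟩ := this
    rw [← hs]
    exact j1.somePath_mem s
  have m2 : ∀ t : ℝ, j2.somePath.extend t ∈ T := fun t => by
    have : j2.somePath.extend t ∈ range j2.somePath := by
      rw [← Path.extend_range]
      exact mem_range_self t
    obtain ⟨s, hs⟩ := this
    rw [← hs]
    exact j2.somePath_mem s
  obtain ⟨s, hs, t, ht, h⟩ := hC X Y j1.somePath.extend j2.somePath.extend hX hY
    j1.somePath.continuous_extend.continuousOn j2.somePath.continuous_extend.continuousOn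
    (fun t _ => bS _ (m1 t)) (fun t _ => bT _ (m2 t))
    (by rw [Path.extend_zero]; exact ha0) (by rw [Path.extend_one]; exact hb0)
    (by rw [Path.extend_zero]; exact hc0) (by rw [Path.extend_one]; exact hd0)
  exact ⟨_, m1 s, h ▸ m2 t⟩

end Pool.Agent.Robin

end

section

/-!
# MP_4b551e_an, item [4b551e-N Y2]: topological lemma: two discs and two paths (helper79)
-/

open MeasureTheory Set Metric
open scoped ENNReal NNReal Pointwise RealInnerProductSpace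

namespace Pool.Agent.Robin

private theorem y2_dist_le {z w c : E2} (h0 : (z 0 - c 0) ^ 2 ≤ (w 0 - c 0) ^ 2)
    (h1 : (z 1 - c 1) ^ 2 ≤ (w 1 - c 1) ^ 2) : dist z c ≤ dist w c := by
  rw [EuclideanSpace.dist_eq, EuclideanSpace.dist_eq]
  apply Real.sqrt_le_sqrt
  simp only [Fin.sum_univ_two, Real.dist_eq, sq_abs]
  linarith

private theorem y2_hseg (c a b : ℝ) (hab : a ≤ b) :
    IsPathConnected {z : E2 | z 1 = c ∧ a ≤ z 0 ∧ z 0 ≤ b} := by
  apply Convex.isPathConnected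
  · intro z hz w hw p q hp hq hpq
    simp only [mem_ofPred_eq, PiLp.add_apply, PiLp.smul_apply, smul_eq_mul] at *
    obtain ⟨h1, h2, h3⟩ := hz
    obtain ⟨k1, k2, k3⟩ := hw
    refine ⟨by rw [h1, k1, ← add_mul, hpq, one_mul], ?_, ?_⟩
    · have : a = p * a + q * a := by rw [← add_mul, hpq, one_mul]
      rw [this]
      gcongr
    · have : b = p * b + q * b := by rw [← add_mul, hpq, one_mul]
      rw [this]
      gcongr
  · exact ⟨!₂[a, c], by simp [hab]⟩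

private theorem y2_vseg (c a b : ℝ) (hab : a ≤ b) :
    IsPathConnected {z : E2 | z 0 = c ∧ a ≤ z 1 ∧ z 1 ≤ b} := by
  apply Convex.isPathConnected
  · intro z hz w hw p q hp hq hpq
    simp only [mem_ofPred_eq, PiLp.add_apply, PiLp.smul_apply, smul_eq_mul] at *
    obtain ⟨h1, h2, h3⟩ := hz
    obtain ⟨k1, k2, k3⟩ := hw
    refine ⟨by rw [h1, k1, ← add_mul, hpq, one_mul], ?_, ?_⟩
    · have : a = p * a + q * a := by rw [← add_mul, hpq, one_mul]
      rw [this]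
      gcongr
    · have : b = p * b + q * b := by rw [← add_mul, hpq, one_mul]
      rw [this]
      gcongr
  · exact ⟨!₂[c, a], by simp [hab]⟩

private theorem y2_img {β : ℝ → E2} (h : ContinuousOn β (Icc 0 1)) :
    IsPathConnected (β '' Icc (0 : ℝ) 1) := by
  apply IsPathConnected.image' _ h
  exact (convex_Icc (0 : ℝ) 1).isPathConnected ⟨0, by simp⟩

private theorem y2_a {a b X : ℝ} (h : -X < a) (h' : a ≤ b) : (a + X) ^ 2 ≤ (b + X) ^ 2 :=
  pow_le_pow_left₀ (by linarith) (by linarith) 2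

private theorem y2_b {a b m X : ℝ} (h : a ≤ b) (h' : b < m + X) :
    (b - m - X) ^ 2 ≤ (a - m - X) ^ 2 := by
  have h1 : (m + X - b) ^ 2 ≤ (m + X - a) ^ 2 :=
    pow_le_pow_left₀ (by linarith) (by linarith) 2
  have e1 : (b - m - X) ^ 2 = (m + X - b) ^ 2 := by ring
  have e2 : (a - m - X) ^ 2 = (m + X - a) ^ 2 := by ring
  rw [e1, e2]
  exact h1

private theorem y2_c {a b : ℝ} (h : a ≤ b) (h' : b < 0) : (b - 0) ^ 2 ≤ (a - 0) ^ 2 := by
  have h1 : (-b) ^ 2 ≤ (-a) ^ 2 := pow_le_pow_left₀ (by linarith) (by linarith) 2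
  have e1 : (b - 0) ^ 2 = (-b) ^ 2 := by ring
  have e2 : (a - 0) ^ 2 = (-a) ^ 2 := by ring
  rw [e1, e2]
  exact h1

theorem prn_Y2 (h1 : S_Y1) : S_Y2 := by
  intro hcl X Y m r s ε ε' x₁ β γ hX hs hsY hYr hm hx1 hx1m hr hε hε' hβc hγc hβ hγ
    hβ1 hγ1 hβs hγs hβL hβX hβm hγR hγX hγm hγL hgb hdg hdb hβε hγε hball
  have hβall : ∀ t ∈ Icc (0 : ℝ) 1, -X < β t 0 ∧ β t 0 < m + X ∧ -s < β t 1 ∧ β t 1 < 0 ∧
      (t < 1 → r ^ 2 < (β t 0 - m - X) ^ 2 + (β t 1 + Y) ^ 2) := by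
    intro t ht
    rcases eq_or_lt_of_le ht.2 with rfl | hlt
    · exact ⟨hβX, hβm, hβs, hβ1, fun h => absurd h (lt_irrefl _)⟩
    · obtain ⟨a, b, c, d, e, f⟩ := hβ t ⟨ht.1, hlt⟩
      exact ⟨a, b, c, d, fun _ => f⟩
  have hγall : ∀ t ∈ Icc (0 : ℝ) 1, -X < γ t 0 ∧ γ t 0 < m + X ∧ -s < γ t 1 ∧ γ t 1 < 0 ∧
      r ^ 2 < (γ t 0 + X) ^ 2 + (γ t 1 + Y) ^ 2 := by
    intro t ht
    rcases eq_or_lt_of_le ht.2 with rfl | hlt
    · exact ⟨hγX, hγm, hγs, hγ1, hγL⟩
    · obtain ⟨a, b, c, d, e, f⟩ := hγ t ⟨ht.1, hlt⟩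
      exact ⟨a, b, c, d, e⟩
  obtain ⟨b00, b01, b02, b03, -⟩ := hβall 0 (by simp)
  obtain ⟨g00, g01, g02, g03, -⟩ := hγall 0 (by simp)
  have h0I : (0 : ℝ) ∈ Icc (0 : ℝ) 1 := by simp
  have h1I : (1 : ℝ) ∈ Icc (0 : ℝ) 1 := by simp
  set XX : ℝ := m + X + 2 with hXX
  set X1 : ℝ := m + X + 1 with hX1
  set YY : ℝ := s + 2 with hYY
  let S1 : Set E2 := {z | z 1 = β 1 1 ∧ -XX ≤ z 0 ∧ z 0 ≤ β 1 0}
  let S2 : Set E2 := β '' Icc (0 : ℝ) 1
  let S3 : Set E2 := {z | z 0 = β 0 0 ∧ β 0 1 ≤ z 1 ∧ z 1 ≤ 1}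
  let S4 : Set E2 := {z | z 1 = 1 ∧ β 0 0 ≤ z 0 ∧ z 0 ≤ XX}
  let T1 : Set E2 := {z | z 0 = γ 0 0 ∧ γ 0 1 ≤ z 1 ∧ z 1 ≤ YY}
  let T2 : Set E2 := γ '' Icc (0 : ℝ) 1
  let T3 : Set E2 := {z | z 1 = γ 1 1 ∧ γ 1 0 ≤ z 0 ∧ z 0 ≤ X1}
  let T4 : Set E2 := {z | z 0 = X1 ∧ -YY ≤ z 1 ∧ z 1 ≤ γ 1 1}
  have hS12 : IsPathConnected (S1 ∪ S2) := by
    apply (y2_hseg _ _ _ (by linarith)).union (y2_img hβc)
    exact ⟨β 1, ⟨rfl, by linarith, le_rfl⟩, 1, h1I, rfl⟩
  have hS123 : IsPathConnected (S1 ∪ S2 ∪ S3) := by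
    apply hS12.union (y2_vseg _ _ _ (by linarith))
    exact ⟨β 0, Or.inr ⟨0, h0I, rfl⟩, rfl, le_rfl, by linarith⟩
  have hS : IsPathConnected (S1 ∪ S2 ∪ S3 ∪ S4) := by
    apply hS123.union (y2_hseg _ _ _ (by linarith))
    exact ⟨!₂[β 0 0, 1], Or.inr ⟨by simp, by simp; linarith, by simp⟩,
      by simp, by simp, by simp; linarith⟩
  have hT12 : IsPathConnected (T1 ∪ T2) := by
    apply (y2_vseg _ _ _ (by linarith)).union (y2_img hγc)
    exact ⟨γ 0, ⟨rfl, le_rfl, by linarith⟩, 0, h0I, rfl⟩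
  have hT123 : IsPathConnected (T1 ∪ T2 ∪ T3) := by
    apply hT12.union (y2_hseg _ _ _ (by linarith))
    exact ⟨γ 1, Or.inr ⟨1, h1I, rfl⟩, rfl, le_rfl, by linarith⟩
  have hT : IsPathConnected (T1 ∪ T2 ∪ T3 ∪ T4) := by
    apply hT123.union (y2_vseg _ _ _ (by linarith))
    exact ⟨!₂[X1, γ 1 1], Or.inr ⟨by simp, by simp; linarith, by simp⟩,
      by simp, by simp; linarith, by simp⟩
  have hSbox : ∀ x ∈ S1 ∪ S2 ∪ S3 ∪ S4, |x 0| ≤ XX ∧ |x 1| ≤ YY := by
    rintro z (((⟨a, b, c⟩ | ⟨t, ht, rfl⟩) | ⟨a, b, c⟩) | ⟨a, b, c⟩)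
    · rw [abs_le, abs_le]
      refine ⟨⟨?_, ?_⟩, ?_, ?_⟩ <;> linarith
    · obtain ⟨k1, k2, k3, k4, -⟩ := hβall t ht
      rw [abs_le, abs_le]
      refine ⟨⟨?_, ?_⟩, ?_, ?_⟩ <;> linarith
    · rw [abs_le, abs_le]
      refine ⟨⟨?_, ?_⟩, ?_, ?_⟩ <;> linarith
    · rw [abs_le, abs_le]
      refine ⟨⟨?_, ?_⟩, ?_, ?_⟩ <;> linarith
  have hTbox : ∀ x ∈ T1 ∪ T2 ∪ T3 ∪ T4, |x 0| ≤ XX ∧ |x 1| ≤ YY := by
    rintro z (((⟨a, b, c⟩ | ⟨t, ht, rfl⟩) | ⟨a, b, c⟩) | ⟨a, b, c⟩)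
    · rw [abs_le, abs_le]
      refine ⟨⟨?_, ?_⟩, ?_, ?_⟩ <;> linarith
    · obtain ⟨k1, k2, k3, k4, -⟩ := hγall t ht
      rw [abs_le, abs_le]
      refine ⟨⟨?_, ?_⟩, ?_, ?_⟩ <;> linarith
    · rw [abs_le, abs_le]
      refine ⟨⟨?_, ?_⟩, ?_, ?_⟩ <;> linarith
    · rw [abs_le, abs_le]
      refine ⟨⟨?_, ?_⟩, ?_, ?_⟩ <;> linarith
  obtain ⟨z, hzS, hzT⟩ := h1 hcl XX YY _ _ (by linarith) (by linarith) hS hT hSbox hTbox
    ⟨!₂[-XX, β 1 1], Or.inl (Or.inl (Or.inl ⟨by simp, by simp, by simp; linarith⟩)), by simp⟩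
    ⟨!₂[XX, 1], Or.inr ⟨by simp, by simp; linarith, by simp⟩, by simp⟩
    ⟨!₂[X1, -YY], Or.inr ⟨by simp, by simp, by simp; linarith⟩, by simp⟩
    ⟨!₂[γ 0 0, YY], Or.inl (Or.inl (Or.inl ⟨by simp, by simp; linarith, by simp⟩)), by simp⟩
  rcases hzS with ((⟨a, b, c⟩ | ⟨t, ht, rfl⟩) | ⟨a, b, c⟩) | ⟨a, b, c⟩
  · -- S1
    exfalso
    rcases hzT with ((⟨a', b', c'⟩ | ⟨t', ht', rfl⟩) | ⟨a', b', c'⟩) | ⟨a', b', c'⟩
    · have hd : dist z !₂[(0 : ℝ), 0] ≤ dist (γ 0) !₂[(0 : ℝ), 0] := by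
        apply y2_dist_le
        · simp [a']
        · simp only [Matrix.cons_val_one, Matrix.cons_val_fin_one]
          exact y2_c b' (by rw [a]; exact hβ1)
      obtain ⟨p1, p2, p3, p4⟩ := hball z (Or.inl (lt_of_le_of_lt hd hdg))
      have := y2_a p3 c
      rw [a] at p1
      linarith
    · obtain ⟨k1, k2, k3, k4, k5⟩ := hγall t' ht'
      have := y2_a k1 c
      rw [a] at k5
      linarith
    · rw [a] at a'
      have := y2_a hγX (b'.trans c)
      rw [← a'] at hγL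
      linarith
    · linarith
  · obtain ⟨k1, k2, k3, k4, k5⟩ := hβall t ht
    rcases hzT with ((⟨a', b', c'⟩ | ⟨t', ht', h'⟩) | ⟨a', b', c'⟩) | ⟨a', b', c'⟩
    · exfalso
      have hd : dist (β t) !₂[(0 : ℝ), 0] ≤ dist (γ 0) !₂[(0 : ℝ), 0] := by
        apply y2_dist_le
        · simp [a']
        · simp only [Matrix.cons_val_one, Matrix.cons_val_fin_one]
          exact y2_c b' k4
      have := hβε t ht
      linarith
    · exact ⟨t, ht, t', ht', h'.symm⟩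
    · exfalso
      rcases eq_or_lt_of_le ht.2 with rfl | hlt
      · have := y2_a hγX b'
        rw [← a'] at hγL
        linarith
      · have h5 := k5 hlt
        have := y2_b b' k2
        rw [a'] at h5
        linarith
    · exfalso
      linarith
  · exfalso
    rcases hzT with ((⟨a', b', c'⟩ | ⟨t', ht', rfl⟩) | ⟨a', b', c'⟩) | ⟨a', b', c'⟩
    · linarith
    · obtain ⟨k1, k2, k3, k4, k5⟩ := hγall t' ht'
      have hd : dist (γ t') !₂[x₁, (0 : ℝ)] ≤ dist (β 0) !₂[x₁, (0 : ℝ)] := by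
        apply y2_dist_le
        · simp [a]
        · simp only [Matrix.cons_val_one, Matrix.cons_val_fin_one]
          exact y2_c b k4
      have := hγε t' ht'
      linarith
    · have hd : dist z !₂[x₁, (0 : ℝ)] ≤ dist (β 0) !₂[x₁, (0 : ℝ)] := by
        apply y2_dist_le
        · simp [a]
        · simp only [Matrix.cons_val_one, Matrix.cons_val_fin_one]
          exact y2_c b (by rw [a']; exact hγ1)
      obtain ⟨p1, p2, p3, p4⟩ := hball z (Or.inr (lt_of_le_of_lt hd hdb))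
      have := y2_b b' p4
      rw [a'] at p2
      linarith
    · linarith
  · exfalso
    rcases hzT with ((⟨a', b', c'⟩ | ⟨t', ht', rfl⟩) | ⟨a', b', c'⟩) | ⟨a', b', c'⟩
    · linarith
    · obtain ⟨k1, k2, k3, k4, k5⟩ := hγall t' ht'
      linarith
    · linarith
    · linarith

end Pool.Agent.Robin

end
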