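import Pool.Agent.Work.MP_4b551e_an.Bd.B11
import Pool.Agent.Work.MP_4b551e_an.Bd.B03
import Pool.Agent.Work.MP_4b551e_an.I29.Col1
import Pool.Agent.Work.MP_4b551e_an.Bd.B04
import Pool.Agent.Work.MP_4b551e_an.I29.K7
import Pool.Agent.Work.MP_4b551e_an.Bd.B05
import Pool.Agent.Work.MP_4b551e_an.I29.P8
import Pool.Agent.Work.MP_4b551e_an.Bd.B06
import Pool.Agent.Work.MP_4b551e_an.Bd.B01
import Pool.Agent.Work.MP_4b551e_an.Bd.B07
import Pool.Agent.Work.MP_4b551e_an.Pf.Eil

/-! Bundle of small proof modules (one section per former module). -/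

section

/-!
# MP_4b551e_an: Theorem O (helper29), all items put together
-/

namespace Pool.Agent.Robin

theorem fin_P2 : T_P2 := pr_P2 pr_P1
theorem fin_P3 : T_P3 := pr_P3 pr_P1 fin_P2 pr_P2b
theorem fin_P4 : T_P4 := pr_P4 pr_P1 fin_P2 pr_P2b
theorem fin_P5 : T_P5 := pr_P5 pr_U0 pr_P1 fin_P2 pr_P2b fin_P4
theorem fin_P6 : T_P6 := pr_P6 pr_Q1 pr_P1 fin_P2 pr_P2b
theorem fin_P8 : T_P8 := pr_P8 pr_P7
theorem fin_Q2 : T_Q2 := pr_Q2 pr_Q1
theorem fin_Q3 : T_Q3 := pr_Q3 prf_EilW
theorem fin_Q4 : T_Q4 := pr_Q4 prf_Eil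
theorem fin_P9 : T_P9 := pr_P9 pr_Q1 fin_Q2 pr_P1 fin_P2 pr_P2b fin_P5 fin_P6
theorem fin_H0 : T_H0 := pr_H0 pr_P1
theorem fin_H1 : T_H1 := pr_H1 pr_P1
theorem fin_H2 : T_H2 := pr_H2 pr_P1 fin_H1
theorem fin_H4 : T_H4 := pr_H4 pr_P1 fin_H1
theorem fin_H5 : T_H5 := pr_H5 pr_P1 fin_H1 fin_H2 pr_H3
theorem fin_Col1 : T_Col1 := pr_Col1 pr_COL pr_Theta
theorem fin_U1 : T_U1 := pr_U1 pr_U0b
theorem fin_U2 : T_U2 := pr_U2 pr_P1 fin_P2 fin_P4 fin_H1
theorem fin_U3 : T_U3 := pr_U3 fin_P4 fin_U2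
theorem fin_U4 : T_U4 := pr_U4 fin_P4 fin_H1 fin_U2
theorem fin_U5 : T_U5 := pr_U5 pr_P1 fin_P4 pr_Q1 fin_U2 fin_U3
theorem fin_U6 : T_U6 := pr_U6 pr_P1 fin_P2 fin_P4 fin_Q4 fin_U2
theorem fin_U7 : T_U7 := pr_U7 pr_P1 fin_P2 fin_P4 fin_Q2 fin_Q3 fin_H1 pr_U0b fin_U2 fin_U4 pr_W3
theorem fin_B2 : T_B2 :=
  pr_B2 pr_U0 pr_U0b fin_P2 pr_P2b fin_P3 fin_P5 fin_P8 fin_P9 fin_H0 fin_H1 fin_H4 fin_H5
    pr_W1 pr_W2 fin_U1 fin_U2 fin_U5 fin_U6 fin_U7 pr_B1
theorem fin_B3 : T_B3 := pr_B3 fin_B2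
theorem fin_K3 : T_K3 := pr_K3 pr_K1 pr_K2
theorem fin_K4 : T_K4 := pr_K4 pr_K2
theorem fin_K5 : T_K5 := pr_K5 pr_K1 pr_K2
theorem fin_K6 : T_K6 := pr_K6 pr_K0 pr_K2
theorem fin_K7 : T_K7 := pr_K7 pr_K0 pr_K2 fin_K4
theorem fin_K8 : T_K8 := pr_K8 pr_K1 pr_K2
theorem fin_K9 : T_K9 := pr_K9 pr_Q1
theorem fin_K11 : T_K11 :=
  pr_K11 prf_Eil pr_Q1 fin_Col1 pr_Theta pr_K2 fin_K4 fin_K6 fin_K8 fin_K9 pr_K10
theorem fin_K12 : T_K12 := pr_K12 pr_K2 fin_K3 fin_K4
theorem fin_K13 : T_K13 := pr_K13 prf_B1 (prf_B2 prf_B1f) pr_K2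
theorem fin_K14 : T_K14 := pr_K14 pr_K2 fin_K4 fin_K13

/-- THEOREM O. -/
theorem prf_O : T_O :=
  pr_O fin_B3 pr_CL pr_K2 fin_K5 fin_K7 fin_K11 fin_K12 fin_K13 fin_K14 pr_O1

end Pool.Agent.Robin

end

section

/-!
# MP_4b551e_an: item N6 (one bump: the test function gives a negative form)
-/

open MeasureTheory Set Metric Filter Topology
open scoped ENNReal NNReal Pointwise RealInnerProductSpace

namespace Pool.Agent.Robin

namespace NN6

/-- Numbers. -/
theorem numbers : ∃ L₀ : ℝ, 1 < L₀ ∧ ∀ ρ : ℝ, L₀ ≤ ρ → 100 ≤ ρ ∧ 64 * Real.log ρ < ρ ∧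
    1 < Real.log ρ := by
  have h := Real.isLittleO_log_id_atTop.def (c := 1 / 100) (by norm_num)
  rw [Filter.eventually_atTop] at h
  obtain ⟨a, ha⟩ := h
  refine ⟨max a 100, lt_of_lt_of_le (by norm_num) (le_max_right _ _), fun ρ hρ => ?_⟩
  have h1 : a ≤ ρ := (le_max_left _ _).trans hρ
  have h2 : (100 : ℝ) ≤ ρ := (le_max_right _ _).trans hρ
  have h3 := ha ρ h1
  rw [Real.norm_eq_abs, Real.norm_eq_abs, id, abs_of_pos (by linarith : (0 : ℝ) < ρ)] at h3
  have h4 := le_abs_self (Real.log ρ)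
  refine ⟨h2, by linarith, ?_⟩
  rw [Real.lt_log_iff_exp_lt (by linarith)]
  have := Real.exp_one_lt_d9
  linarith

theorem T_lower (H : ℝ) (a₀ : ℝ) (hH : 0 ≤ H) :
    Real.exp (2 * H) - 4 * Real.exp H + 3 ≤ 2 * ∫ r in a₀..(a₀ + H), (Real.exp (r - a₀) - 1) ^ 2 := by
  have h1 : ∫ r in a₀..(a₀ + H), (Real.exp (r - a₀) - 1) ^ 2 =
      (Real.exp (2 * H) / 2 - 2 * Real.exp H + H) - (1 / 2 - 2 + 0) := by
    have hd : ∀ r ∈ uIcc a₀ (a₀ + H), HasDerivAt
        (fun r => Real.exp (2 * (r - a₀)) / 2 - 2 * Real.exp (r - a₀) + (r - a₀))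
        ((Real.exp (r - a₀) - 1) ^ 2) r := by
      intro r _
      have d1 : HasDerivAt (fun r : ℝ => r - a₀) 1 r := (hasDerivAt_id r).sub_const a₀
      have d2 := (d1.const_mul 2).exp
      have d3 := d1.exp
      have d4 := ((d2.div_const 2).sub (d3.const_mul 2)).add d1
      refine d4.congr_deriv ?_
      have : Real.exp (2 * (r - a₀)) = Real.exp (r - a₀) ^ 2 := by
        rw [← Real.exp_nat_mul]
        norm_num
      rw [this]
      ring
    rw [intervalIntegral.integral_eq_sub_of_hasDerivAt hd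
      (Continuous.intervalIntegrable (by fun_prop) _ _)]
    simp
  rw [h1]
  linarith

theorem fin_num {X B V W ρ l E : ℝ} (hρ : 100 ≤ ρ) (hl1 : 1 < l) (hlog : 64 * l < ρ)
    (hE : ρ ^ 2 ≤ E) (hT : E ^ 2 - 4 * E + 3 ≤ B) (hX : X ≤ 4 * W + 2 * V)
    (hc : W < 2 * ρ * l * V) (hV : V ≤ Real.pi * ρ ^ 2) : X - B < 0 := by
  have hρ0 : 0 < ρ := by linarith
  have hl0 : 0 < l := by linarith
  have hρ2 : (10000 : ℝ) ≤ ρ ^ 2 := by nlinarith
  have h3 : ρ ^ 4 / 2 ≤ E ^ 2 - 4 * E + 3 := by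
    have h5 : (ρ ^ 2) ^ 2 ≤ E ^ 2 := pow_le_pow_left₀ (by positivity) hE 2
    have h6 : 8 * E ≤ E ^ 2 := by nlinarith
    nlinarith
  have h7 : X ≤ 32 * ρ ^ 3 * l := by
    have h8 : X ≤ (8 * ρ * l + 2) * V := by linarith
    have h9 : (8 * ρ * l + 2) * V ≤ (8 * ρ * l + 2) * (Real.pi * ρ ^ 2) :=
      mul_le_mul_of_nonneg_left hV (by positivity)
    have hpi := Real.pi_lt_d2
    have h10 : (8 * ρ * l + 2) ≤ 10 * (ρ * l) := by nlinarith
    have h11 : (8 * ρ * l + 2) * (Real.pi * ρ ^ 2) ≤ 10 * (ρ * l) * (3.15 * ρ ^ 2) := by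
      apply mul_le_mul h10 _ (by positivity) (by positivity)
      exact mul_le_mul_of_nonneg_right hpi.le (by positivity)
    have h12 : 10 * (ρ * l) * (3.15 * ρ ^ 2) ≤ 32 * ρ ^ 3 * l := by
      have : 0 ≤ ρ ^ 3 * l := by positivity
      nlinarith
    linarith
  have h13 : 32 * ρ ^ 3 * l < ρ ^ 4 / 2 := by
    have : 0 < ρ ^ 3 := by positivity
    nlinarith
  linarith

end NN6

open NN2 NN6 in
theorem prn_N6 (h4 : S_N4) (h5 : S_N5) (hB1 : S_B1) (hB2 : S_B2) : S_N6 := by
  obtain ⟨L₀, hL1, hL⟩ := numbers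
  refine ⟨L₀, hL1, ?_⟩
  intro k ρ G U y x₀ a b a₀ u hk hρk hLρ hG hUo hUc hUG hab hba hUcone ha₀ hUd hUinf hx₀ hfar
    hfr ⟨C, hu⟩ huU hvan
  obtain ⟨hρ100, hρlog, hl1⟩ := hL ρ hLρ
  set l := Real.log ρ with hl
  have hρ0 : 0 < ρ := by linarith
  have hk2 : k ^ 2 = 1 + 1 / ρ := by
    field_simp
    linarith
  -- the functions
  set d : E2 → ℝ := fun x => ‖x - y‖ with hd
  set v : E2 → ℝ := fun x => Real.exp (d x - a₀) - 1 with hv
  have hdc : Continuous d := by fun_prop
  have hvc : Continuous v := by fun_prop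
  have hUm : MeasurableSet U := hUo.measurableSet
  have hGm : MeasurableSet G := hG.isOpen.measurableSet
  have hUb : U ⊆ closedBall y ρ := by
    intro x hx
    rw [mem_closedBall, dist_eq_norm]
    refine (hUd x hx).2.trans ?_
    have : 0 ≤ 1 / l := by positivity
    nlinarith
  have hUbdd : Bornology.IsBounded U := isBounded_closedBall.subset hUb
  have hUvol : volume U < ⊤ := hUbdd.measure_lt_top
  have hGvol : volume G < ⊤ := hG.isBounded.measure_lt_top
  have hintc : ∀ f : E2 → ℝ, Continuous f → IntegrableOn f U := by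
    intro f hf
    exact (hf.continuousOn.integrableOn_compact (isCompact_closedBall y ρ)).mono_set hUb
  -- numbers attached to `U`
  set V : ℝ := (volume U).toReal with hV
  have hVpos : 0 < V := by
    apply ENNReal.toReal_pos
    · exact (hUo.measure_pos volume ⟨x₀, hx₀⟩).ne'
    · exact hUvol.ne
  have hVle : V ≤ Real.pi * ρ ^ 2 := by
    have h1 : volume U ≤ volume (closedBall y ρ) := measure_mono hUb
    rw [EuclideanSpace.volume_closedBall_fin_two] at h1
    have h2 := ENNReal.toReal_mono (by finiteness) h1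
    refine h2.trans (le_of_eq ?_)
    rw [ENNReal.toReal_mul, ENNReal.toReal_pow, ENNReal.toReal_ofReal hρ0.le, mul_comm,
      ENNReal.toReal_ofReal Real.pi_pos.le]
  have hconst : ∀ c : ℝ, ∫ _x in U, c = c * V := by
    intro c
    rw [setIntegral_const, smul_eq_mul, mul_comm]
    rfl
  set W : ℝ := ∫ x in U, (v x) ^ 2 with hW
  have hW0 : 0 ≤ W := integral_nonneg fun x => sq_nonneg _
  -- volume part
  have hvolpart : (∫ x in G, en k u x) ≤ ∫ x in U, ((v x + 1) ^ 2 + k ^ 2 * (v x) ^ 2) := by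
    have e1 : (∫ x in G, en k u x) = ∫ x in U, en k u x := by
      apply setIntegral_eq_of_subset_of_ae_sdiff_eq_zero hGm.nullMeasurableSet hUG
      filter_upwards [hvan] with x hx hxx
      have h1 := hx hxx
      unfold en
      rw [h1.1, h1.2]
      simp
    rw [e1]
    refine integral_mono_of_nonneg (Eventually.of_forall fun x => ?_) (hintc _ (by fun_prop)) ?_
    · unfold en
      positivity
    · refine (ae_restrict_iff' hUm).2 (Eventually.of_forall fun x hx => ?_)
      have hxy : x - y ≠ 0 := by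
        intro h
        have := (hUd x hx).1
        rw [h, norm_zero] at this
        linarith
      have hev : u =ᶠ[𝓝 x] v := by
        filter_upwards [hUo.mem_nhds hx] with z hz
        exact huU z hz
      have hdd : DifferentiableAt ℝ d x := by
        have := (differentiableAt_id (𝕜 := ℝ) (x := x)).sub_const y
        exact this.norm ℝ hxy
      have hfd : HasFDerivAt v (Real.exp (d x - a₀) • fderiv ℝ d x) x := by
        have := ((hdd.hasFDerivAt.sub_const a₀).exp).sub_const 1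
        exact this
      have hlip : LipschitzWith 1 d := by
        have := LipschitzWith.dist_left y
        simp only [dist_eq_norm] at this
        exact this
      have hn : ‖fderiv ℝ u x‖ ≤ v x + 1 := by
        rw [hev.fderiv_eq, hfd.fderiv, norm_smul, Real.norm_of_nonneg (Real.exp_pos _).le]
        have h1 : ‖fderiv ℝ d x‖ ≤ 1 := by
          have := norm_fderiv_le_of_lipschitz ℝ hlip (x₀ := x)
          simpa using this
        have h2 : v x + 1 = Real.exp (d x - a₀) := by simp [hv]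
        rw [h2]
        have := (Real.exp_pos (d x - a₀)).le
        nlinarith
      show en k u x ≤ (v x + 1) ^ 2 + k ^ 2 * (v x) ^ 2
      unfold en
      rw [huU x hx]
      have h3 : ‖fderiv ℝ u x‖ ^ 2 ≤ (v x + 1) ^ 2 := pow_le_pow_left₀ (norm_nonneg _) hn 2
      have h4 : Real.exp (‖x - y‖ - a₀) - 1 = v x := rfl
      rw [h4]
      linarith
  set X : ℝ := ∫ x in U, ((v x + 1) ^ 2 + k ^ 2 * (v x) ^ 2) with hX
  -- boundary part
  set S : Set E2 := frontier U ∩ {x | a₀ < ‖x - y‖} with hS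
  have hSm : MeasurableSet S :=
    isClosed_frontier.measurableSet.inter (isOpen_lt continuous_const hdc).measurableSet
  have hGfb : Bornology.IsBounded (frontier G) :=
    hG.isBounded.closure.subset frontier_subset_closure
  have hGfc : IsCompact (frontier G) :=
    Metric.isCompact_of_isClosed_isBounded isClosed_frontier hGfb
  have hμ : μH[1] (frontier G) < ⊤ := by
    have := (hB2 Gᶜ (hB1 G hG) (by rw [frontier_compl]; exact hGfc)).1
    rwa [frontier_compl] at this
  have hμS : μH[1] S < ⊤ := (measure_mono hfr).trans_lt hμ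
  have huS : ∀ x ∈ S, u x = v x := by
    intro x hx
    have hcl : x ∈ closure U := frontier_subset_closure hx.1
    have hcl2 : closure U ⊆ {x | u x = v x} :=
      closure_minimal (fun z hz => huU z hz) (isClosed_eq hu.continuous hvc)
    exact hcl2 hcl
  set B : ℝ := ∫ x in S, (u x) ^ 2 ∂(μH[1]) with hB
  have hBle : B ≤ ∫ x in frontier G, (u x) ^ 2 ∂(μH[1]) := by
    apply setIntegral_mono_set
    · exact int_sq hGfb isClosed_frontier.measurableSet hμ hu
    · exact Eventually.of_forall fun x => sq_nonneg _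
    · exact Filter.Eventually.of_forall hfr
  have hBl : (∫⁻ x in S, ENNReal.ofReal ((Real.exp (‖x - y‖ - a₀) - 1) ^ 2) ∂(μH[1])) =
      ENNReal.ofReal B := by
    rw [hB, ofReal_integral_eq_lintegral_ofReal
      (int_sq (hGfb.subset hfr) hSm hμS hu) (Eventually.of_forall fun x => sq_nonneg _)]
    apply setLIntegral_congr_fun hSm
    intro x hx
    show ENNReal.ofReal ((Real.exp (‖x - y‖ - a₀) - 1) ^ 2) = ENNReal.ofReal ((u x) ^ 2)
    rw [huS x hx]
  have hB0 : 0 ≤ B := integral_nonneg fun x => sq_nonneg _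
  have hn4 := h4 U y a b a₀ ((1 - 1 / l) * ρ) hUo ha₀ hab hba hUcone hUd
  rw [hBl] at hn4
  have hn5 := h5 U y a b a₀ ‖x₀ - y‖ hUo hUc hUbdd ha₀ (by linarith) hab hba hUcone
    (fun x hx => (hUd x hx).1) hUinf ⟨x₀, hx₀, le_rfl⟩
  rw [hBl] at hn5
  have hn5' : 2 * ∫ r in a₀..‖x₀ - y‖, (Real.exp (r - a₀) - 1) ^ 2 ≤ B := by
    rwa [ENNReal.ofReal_le_ofReal_iff hB0] at hn5
  -- the radial bound
  have hN : ∫ x in U, (2 * v x * (v x + 1) + (v x) ^ 2 * (1 / ρ + 1 / (ρ * l))) ≤ B := by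
    have hnn : ∀ x ∈ U, 0 ≤ v x := by
      intro x hx
      have := (hUd x hx).1
      simp only [hv]
      have h1 := Real.add_one_le_exp (d x - a₀)
      have h2 : d x = ‖x - y‖ := rfl
      linarith
    have e1 : ENNReal.ofReal (∫ x in U, (2 * v x * (v x + 1) +
        (v x) ^ 2 * (1 / ρ + 1 / (ρ * l)))) ≤ ENNReal.ofReal B := by
      rw [ofReal_integral_eq_lintegral_ofReal (hintc _ (by fun_prop))]
      · refine le_trans (setLIntegral_mono' hUm fun x hx => ?_) hn4
        apply ENNReal.ofReal_le_ofReal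
        have hdx := hUd x hx
        have hdpos : 0 < ‖x - y‖ := by linarith
        have hv1 : Real.exp (‖x - y‖ - a₀) = v x + 1 := by simp [hv, hd]
        rw [hv1]
        have h1 : 1 / ρ + 1 / (ρ * l) ≤ 1 / ‖x - y‖ := by
          rw [le_div_iff₀ hdpos]
          have h2 : 1 / ρ + 1 / (ρ * l) = (1 + 1 / l) / ρ := by field_simp
          rw [h2, div_mul_eq_mul_div, div_le_one hρ0]
          have hl' : 0 < 1 / l := by positivity
          have h3 : (1 + 1 / l) * ‖x - y‖ ≤ (1 + 1 / l) * ((1 - 1 / l) * ρ) :=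
            mul_le_mul_of_nonneg_left hdx.2 (by linarith)
          nlinarith [mul_pos (mul_pos hl' hl') hρ0]
        have h2 : (v x) ^ 2 * (1 / ρ + 1 / (ρ * l)) ≤ (v x) ^ 2 * (1 / ‖x - y‖) :=
          mul_le_mul_of_nonneg_left h1 (sq_nonneg _)
        have h3 : (v x + 1 - 1) ^ 2 / ‖x - y‖ = (v x) ^ 2 * (1 / ‖x - y‖) := by ring
        rw [h3]
        have h4 : 2 * (v x + 1 - 1) * (v x + 1) = 2 * v x * (v x + 1) := by ring
        rw [h4]
        linarith
      · refine (ae_restrict_iff' hUm).2 (Eventually.of_forall fun x hx => ?_)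
        have := hnn x hx
        have hl0 : 0 < l := by linarith
        show (0 : ℝ) ≤ _
        positivity
    rwa [ENNReal.ofReal_le_ofReal_iff hB0] at e1
  have hl0 : 0 < l := by linarith
  have hXN : X - B ≤ V - W / (ρ * l) := by
    have e1 : X = (∫ x in U, (2 * v x * (v x + 1) + (v x) ^ 2 * (1 / ρ + 1 / (ρ * l)))) +
        ((∫ _x in U, (1 : ℝ)) - (1 / (ρ * l)) * ∫ x in U, (v x) ^ 2) := by
      rw [← integral_const_mul, ← integral_sub (hintc _ (by fun_prop)) (hintc _ (by fun_prop)),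
        ← integral_add (hintc _ (by fun_prop)) (hintc _ (by fun_prop))]
      apply setIntegral_congr_fun hUm
      intro x _
      show (v x + 1) ^ 2 + k ^ 2 * (v x) ^ 2 = 2 * v x * (v x + 1) +
        (v x) ^ 2 * (1 / ρ + 1 / (ρ * l)) + (1 - 1 / (ρ * l) * (v x) ^ 2)
      rw [hk2]
      ring
    rw [e1, hconst, ← hW]
    have : 1 / (ρ * l) * W = W / (ρ * l) := by ring
    rw [this]
    linarith
  have hfinal : X - B < 0 := by
    rcases le_or_gt (2 * ρ * l * V) W with hc | hc
    · have h1 : 2 * V ≤ W / (ρ * l) := by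
        rw [le_div_iff₀ (by positivity)]
        linarith
      linarith
    · have h1 : X ≤ 4 * W + 2 * V := by
        have e1 : 4 * W + 2 * V = ∫ x in U, (4 * (v x) ^ 2 + 2) := by
          rw [integral_add (hintc _ (by fun_prop)) (hintc _ (by fun_prop)), integral_const_mul,
            hconst]
        rw [e1]
        apply setIntegral_mono (hintc _ (by fun_prop)) (hintc _ (by fun_prop))
        intro x
        show (v x + 1) ^ 2 + k ^ 2 * (v x) ^ 2 ≤ 4 * (v x) ^ 2 + 2
        have h2 : k ^ 2 ≤ 2 := by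
          rw [hk2]
          have : 1 / ρ ≤ 1 := by rw [div_le_one hρ0]; linarith
          linarith
        nlinarith [mul_le_mul_of_nonneg_right h2 (sq_nonneg (v x)), sq_nonneg (v x - 1)]
      -- the circular bound
      set H : ℝ := ‖x₀ - y‖ - a₀ with hH
      have hH2 : 2 * l < H := by linarith
      have hT := T_lower H a₀ (by linarith)
      have e2 : a₀ + H = ‖x₀ - y‖ := by rw [hH]; ring
      rw [e2] at hT
      have hE : ρ ^ 2 ≤ Real.exp H := by
        have : Real.exp (2 * l) = ρ ^ 2 := by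
          rw [two_mul, Real.exp_add, hl, Real.exp_log hρ0]
          ring
        rw [← this]
        exact Real.exp_le_exp.2 hH2.le
      have hE2 : Real.exp (2 * H) = Real.exp H ^ 2 := by
        rw [two_mul, Real.exp_add]
        ring
      rw [hE2] at hT
      exact fin_num hρ100 hl1 hρlog hE (hT.trans hn5') h1 hc hVle
  unfold Qk
  linarith

end Pool.Agent.Robin

end

section

/-!
# MP_4b551e_an: item R5 (area of the hull)
-/

open MeasureTheory Set Metric
open scoped ENNReal NNReal Pointwise RealInnerProductSpace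

namespace Pool.Agent.Robin

namespace R5

theorem inner_nv_nv (N : ℕ) (i j : ℤ) : ⟪nv N i, nv N j⟫ = Real.cos ((j - i) * dl N) := by
  rw [P1.inner_eq, P1.nv0, P1.nv1, P1.nv0, P1.nv1, sub_mul, Real.cos_sub]
  ring

/-- Area of a parallelogram. -/
theorem vol_par {N : ℕ} (hN : 8 ≤ N) (i : ℤ) (a a' b b' : ℝ) (ha : a ≤ a') :
    volume {x : E2 | a ≤ ⟪x, nv N i⟫ ∧ ⟪x, nv N i⟫ ≤ a' ∧ b ≤ ⟪x, nv N (i + 1)⟫ ∧
      ⟪x, nv N (i + 1)⟫ ≤ b'} = ENNReal.ofReal ((a' - a) * (b' - b) / Real.sin (dl N)) := by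
  have hs := P1.sin_dl_pos hN
  set M : Matrix (Fin 2) (Fin 2) ℝ := !![Real.cos (i * dl N), Real.sin (i * dl N);
    Real.cos ((i + 1 : ℤ) * dl N), Real.sin ((i + 1 : ℤ) * dl N)] with hM
  have hdet : LinearMap.det (Matrix.toLin' M) = Real.sin (dl N) := by
    rw [LinearMap.det_toLin', hM, Matrix.det_fin_two_of]
    have e1 : ((i + 1 : ℤ) : ℝ) * dl N = i * dl N + dl N := by push_cast; ring
    rw [e1, Real.sin_add, Real.cos_add]
    have := Real.sin_sq_add_cos_sq ((i : ℝ) * dl N)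
    linear_combination (Real.sin (dl N)) * this
  have hset : {x : E2 | a ≤ ⟪x, nv N i⟫ ∧ ⟪x, nv N i⟫ ≤ a' ∧ b ≤ ⟪x, nv N (i + 1)⟫ ∧
      ⟪x, nv N (i + 1)⟫ ≤ b'} = (WithLp.ofLp : E2 → (Fin 2 → ℝ)) ⁻¹'
        (Matrix.toLin' M ⁻¹' (Icc ![a, b] ![a', b'])) := by
    ext x
    have c0 : (Matrix.toLin' M (WithLp.ofLp x)) 0 = ⟪x, nv N i⟫ := by
      rw [P1.inner_eq, P1.nv0, P1.nv1]
      simp [hM, Matrix.toLin'_apply, Matrix.mulVec, dotProduct, Fin.sum_univ_two]
      ring
    have c1 : (Matrix.toLin' M (WithLp.ofLp x)) 1 = ⟪x, nv N (i + 1)⟫ := by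
      rw [P1.inner_eq, P1.nv0, P1.nv1]
      simp [hM, Matrix.toLin'_apply, Matrix.mulVec, dotProduct, Fin.sum_univ_two]
      ring
    simp only [mem_ofPred_eq, mem_preimage, mem_Icc, Pi.le_def, Fin.forall_fin_two, c0, c1,
      Matrix.cons_val_zero, Matrix.cons_val_one]
    constructor
    · rintro ⟨h1, h2, h3, h4⟩
      exact ⟨⟨h1, h3⟩, h2, h4⟩
    · rintro ⟨⟨h1, h3⟩, h2, h4⟩
      exact ⟨h1, h2, h3, h4⟩
  have hmeas : MeasurableSet (Matrix.toLin' M ⁻¹' (Icc ![a, b] ![a', b'])) := by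
    apply measurableSet_preimage _ measurableSet_Icc
    exact (LinearMap.continuous_of_finiteDimensional _).measurable
  rw [hset, (PiLp.volume_preserving_ofLp (Fin 2)).measure_preimage hmeas.nullMeasurableSet,
    Measure.addHaar_preimage_linearMap _ (by rw [hdet]; exact hs.ne'), hdet, Real.volume_Icc_pi]
  simp only [Fin.prod_univ_two, Matrix.cons_val_zero, Matrix.cons_val_one]
  rw [abs_of_pos (inv_pos.2 hs), ← ENNReal.ofReal_mul (by linarith),
    ← ENNReal.ofReal_mul (inv_pos.2 hs).le]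
  congr 1
  rw [div_eq_inv_mul]

theorem dirv_comb {N : ℕ} (hN : 8 ≤ N) (i : ℤ) (θ : ℝ) :
    dirv θ = (Real.sin ((i + 1) * dl N - θ) / Real.sin (dl N)) • nv N i +
      (Real.sin (θ - i * dl N) / Real.sin (dl N)) • nv N (i + 1) := by
  have hs := (P1.sin_dl_pos hN).ne'
  have e1 : ((i + 1 : ℤ) : ℝ) * dl N = i * dl N + dl N := by push_cast; ring
  have e2 : ((i : ℝ) + 1) * dl N - θ = (i * dl N - θ) + dl N := by ring
  have e3 : θ - i * dl N = -(i * dl N - θ) := by ring
  have e4 : θ = i * dl N - (i * dl N - θ) := by ring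
  have hsc := Real.sin_sq_add_cos_sq ((i : ℝ) * dl N)
  ext j
  fin_cases j
  · simp only [PiLp.add_apply, PiLp.smul_apply, smul_eq_mul, Fin.zero_eta, P1.nv0, e1, e2, e3,
      Real.sin_neg, Real.sin_add, Real.cos_add]
    have h0 : (dirv θ) 0 = Real.cos (i * dl N - (i * dl N - θ)) := by
      rw [← e4]; simp [dirv]
    rw [h0, Real.cos_sub]
    field_simp
    ring
  · simp only [PiLp.add_apply, PiLp.smul_apply, smul_eq_mul, Fin.mk_one, P1.nv1, e1, e2, e3,
      Real.sin_neg, Real.sin_add, Real.cos_add]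
    have h0 : (dirv θ) 1 = Real.sin (i * dl N - (i * dl N - θ)) := by
      rw [← e4]; simp [dirv]
    rw [h0, Real.sin_sub]
    field_simp
    ring

theorem pos_of_mul_pos_left' {a b : ℝ} (h : 0 < a * b) (ha : 0 ≤ a) : 0 < b := by
  by_contra hb
  exact absurd (mul_nonpos_of_nonneg_of_nonpos ha (not_lt.1 hb)) (not_le.2 h)

theorem compact_hull {G : Set E2} (hb : Bornology.IsBounded G) : IsCompact (hull G) := by
  unfold hull
  exact K2.isCompact_convexHull hb.isCompact_closure

theorem per_mul {N : ℕ} {E : Type*} (f : ℤ → E) (hf : ∀ i, f (i + N) = f i) (q i : ℤ) :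
    f (i + N * q) = f i := by
  induction q using Int.induction_on with
  | zero => simp
  | succ n ih =>
    have : i + (N : ℤ) * ((n : ℤ) + 1) = i + N * n + N := by ring
    rw [this, hf, ih]
  | pred n ih =>
    have : i + (N : ℤ) * (-(n : ℤ) - 1) + N = i + N * (-(n : ℤ)) := by ring
    rw [← hf, this, ih]

theorem exists_range {N : ℕ} (hN : 8 ≤ N) {E : Type*} (f : ℤ → E) (hf : ∀ i, f (i + N) = f i)
    (i : ℤ) : ∃ j ∈ Finset.range N, f i = f (j : ℕ) := by
  have hNz : (0 : ℤ) < N := by omega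
  have h1 := Int.emod_lt_of_pos i hNz
  have h2 := Int.emod_nonneg i hNz.ne'
  refine ⟨(i % N).toNat, ?_, ?_⟩
  · rw [Finset.mem_range]
    omega
  · rw [Int.toNat_of_nonneg h2]
    have h4 := per_mul f hf (i / N) (i % N)
    rw [← h4, Int.emod_add_mul_ediv]

end R5

open R4 R5 in
theorem prn_R5 (h6 : T_P6) (hr2 : S_R2) : S_R5 := by
  intro G n h p o hGo hGb hC hpos
  have hN : 8 ≤ 2 * n := by have := hC.n_le; omega
  have hdl : dl (2 * n) = Real.pi / n := by
    unfold dl
    push_cast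
    rw [mul_div_mul_left _ _ (two_ne_zero)]
  have hs := P1.sin_dl_pos hN
  rw [← hdl]
  have hR := hr2 G n h p hC
  have hper := hC.per_h
  have hperp := hC.per_p
  have hmem := hC.mem
  have htouch := hC.touch
  have hle := hC.le
  clear hr2
  set N := 2 * n with hNN
  -- the translated numbers
  set c : ℤ → ℝ := fun i => h i - ⟪o, nv N i⟫ with hc
  have hel : ∀ i, el N c i = el N h i := by
    intro i
    have e : ⟪o, nv N (i + 1)⟫ + ⟪o, nv N (i - 1)⟫ = 2 * ⟪o, nv N i⟫ * Real.cos (dl N) := by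
      have e1 : ((i + 1 : ℤ) : ℝ) * dl N = i * dl N + dl N := by push_cast; ring
      have e2 : ((i - 1 : ℤ) : ℝ) * dl N = i * dl N - dl N := by push_cast; ring
      rw [P1.inner_eq, P1.inner_eq, P1.inner_eq, P1.nv0, P1.nv1, P1.nv0, P1.nv1, P1.nv0, P1.nv1,
        e1, e2, Real.cos_add, Real.cos_sub, Real.sin_add, Real.sin_sub]
      ring
    unfold el
    simp only [hc]
    congr 1
    linear_combination (-1 : ℝ) * e
  have hSupp : Supp N c := by
    refine ⟨hN, ?_, hpos, ?_⟩
    · intro i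
      simp only [hc]
      rw [hper, nv_per hN]
    · intro i
      rw [hel, (hR i).1]
      have h1 := (hR i).2.1
      have h2 := (hR (i - 1)).2.2.1
      linarith
  have hP6 := h6 N c hSupp
  set P : Set E2 := {x | ∀ i : ℤ, ⟪x, nv N i⟫ ≤ h i} with hP
  have hvolP : volume (poly N c) = volume P := by
    rw [← measure_preimage_add_right volume (-o) (poly N c)]
    congr 1
    ext x
    simp only [mem_preimage, poly, hP, mem_ofPred_eq, hc]
    refine forall_congr' fun i => ?_
    rw [inner_add_left, inner_neg_left]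
    constructor <;> intro h <;> linarith
  have hK : IsCompact (hull G) := compact_hull hGb
  have hKc : Convex ℝ (hull G) := convex_convexHull ℝ _
  have hpK : ∀ i, p i ∈ hull G := fun i => subset_convexHull ℝ _ (hmem i)
  set Pi : ℤ → Set E2 := fun i => {x : E2 | ⟪p (i + 1), nv N i⟫ ≤ ⟪x, nv N i⟫ ∧
    ⟪x, nv N i⟫ ≤ h i ∧ ⟪p i, nv N (i + 1)⟫ ≤ ⟪x, nv N (i + 1)⟫ ∧
      ⟪x, nv N (i + 1)⟫ ≤ h (i + 1)} with hPi
  have hPiper : ∀ i, Pi (i + N) = Pi i := by
    intro i
    have e : i + (N : ℤ) + 1 = (i + 1) + N := by ring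
    simp only [hPi]
    rw [e, nv_per hN, nv_per hN, hperp, hperp, hper, hper]
  have hPvol : ∀ i, volume (Pi i) =
      ENNReal.ofReal (al n h p i * bl n h p i * Real.sin (dl N)) := by
    intro i
    have hv := (pr_P1 N h i hN).2
    have ha : h i - ⟪p (i + 1), nv N i⟫ = bl n h p i * Real.sin (dl N) := by
      rw [(hR i).2.2.2.2.1, inner_add_left, hv.1, real_inner_smul_left, inner_tv_nv]
      have : ((i : ℝ) - ((i + 1 : ℤ) : ℝ)) * dl N = -dl N := by push_cast; ring
      rw [this, Real.sin_neg]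
      ring
    have hb : h (i + 1) - ⟪p i, nv N (i + 1)⟫ = al n h p i * Real.sin (dl N) := by
      have h1 := hv.2
      rw [(hR i).2.2.2.1, inner_add_left, real_inner_smul_left, inner_tv_nv] at h1
      have : (((i + 1 : ℤ) : ℝ) - (i : ℝ)) * dl N = dl N := by push_cast; ring
      rw [this] at h1
      linarith
    have hb0 := (hR i).2.2.1
    simp only [hPi]
    rw [vol_par hN i _ _ _ _ (by have := mul_nonneg hb0 hs.le; linarith), ha, hb]
    congr 1
    field_simp
  -- the covering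
  have hcov : P ⊆ hull G ∪ ⋃ i ∈ Finset.range N, Pi (i : ℕ) := by
    intro x hx
    by_cases hxK : x ∈ hull G
    · exact Or.inl hxK
    right
    obtain ⟨f, u, hf1, hf2⟩ := geometric_hahn_banach_closed_point hKc hK.isClosed hxK
    set w : E2 := (InnerProductSpace.toDual ℝ E2).symm f with hw
    have hfw : ∀ y, f y = ⟪w, y⟫ := by
      intro y
      rw [hw, InnerProductSpace.toDual_symm_apply]
    obtain ⟨θ, hθ⟩ := P2b.polar w
    have hpw : ∀ i, 0 < ⟪x - p i, w⟫ := by
      intro i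
      have h1 := hf1 _ (hpK i)
      rw [hfw] at h1 hf2
      rw [real_inner_comm, inner_sub_right]
      linarith
    have hw0 : 0 < ‖w‖ := by
      by_contra hcon
      have : w = 0 := norm_eq_zero.1 (le_antisymm (not_lt.1 hcon) (norm_nonneg _))
      have h1 := hpw 0
      rw [this, inner_zero_right] at h1
      exact lt_irrefl _ h1
    have hdl0 : 0 < dl N := by
      have : (0 : ℝ) < N := by
        have : (8 : ℝ) ≤ N := by exact_mod_cast hN
        linarith
      unfold dl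
      have := Real.pi_pos
      positivity
    have hpd : ∀ i, 0 < ⟪x - p i, dirv θ⟫ := by
      intro i
      have h1 := hpw i
      rw [hθ, real_inner_smul_right] at h1
      exact (mul_pos_iff_of_pos_left hw0).1 h1
    set i : ℤ := ⌊θ / dl N⌋ with hi
    have hi1 : (i : ℝ) * dl N ≤ θ := by
      have := Int.floor_le (θ / dl N)
      rw [le_div_iff₀ hdl0] at this
      exact this
    have hi2 : θ < ((i : ℝ) + 1) * dl N := by
      have := Int.lt_floor_add_one (θ / dl N)
      rw [div_lt_iff₀ hdl0] at this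
      exact this
    have hdlpi : dl N ≤ Real.pi := by
      have h8 : (8 : ℝ) ≤ N := by exact_mod_cast hN
      have := Real.pi_pos
      unfold dl
      rw [div_le_iff₀ (by linarith)]
      nlinarith
    have hA : 0 ≤ Real.sin ((i + 1) * dl N - θ) / Real.sin (dl N) := by
      apply div_nonneg _ hs.le
      apply Real.sin_nonneg_of_nonneg_of_le_pi
      · linarith
      · linarith
    have hB : 0 ≤ Real.sin (θ - i * dl N) / Real.sin (dl N) := by
      apply div_nonneg _ hs.le
      apply Real.sin_nonneg_of_nonneg_of_le_pi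
      · linarith
      · linarith
    have hcomb := dirv_comb hN i θ
    have hxi : x ∈ Pi i := by
      have h1 := hpd i
      have h2 := hpd (i + 1)
      rw [hcomb, inner_add_right, real_inner_smul_right, real_inner_smul_right] at h1 h2
      have h3 : ⟪x - p i, nv N i⟫ ≤ 0 := by
        rw [inner_sub_left, htouch]
        have := hx i
        linarith
      have h4 : ⟪x - p (i + 1), nv N (i + 1)⟫ ≤ 0 := by
        rw [inner_sub_left, htouch]
        have := hx (i + 1)
        linarith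
      have h5 : 0 < ⟪x - p i, nv N (i + 1)⟫ := by
        have h6 := mul_nonpos_of_nonneg_of_nonpos hA h3
        have h7 : 0 < Real.sin (θ - i * dl N) / Real.sin (dl N) * ⟪x - p i, nv N (i + 1)⟫ := by
          linarith
        exact (pos_of_mul_pos_left' h7 hB)
      have h6 : 0 < ⟪x - p (i + 1), nv N i⟫ := by
        have h6 := mul_nonpos_of_nonneg_of_nonpos hB h4
        have h7 : 0 < Real.sin ((i + 1) * dl N - θ) / Real.sin (dl N) *
          ⟪x - p (i + 1), nv N i⟫ := by linarith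
        exact (pos_of_mul_pos_left' h7 hA)
      rw [inner_sub_left] at h5 h6
      exact ⟨by linarith, hx i, by linarith, hx (i + 1)⟩
    obtain ⟨j, hj, hij⟩ := exists_range hN Pi hPiper i
    rw [hij] at hxi
    exact mem_biUnion hj hxi
  have hfin : volume (hull G) ≠ ⊤ := hK.measure_lt_top.ne
  have hvol : ENNReal.ofReal ((∑ i ∈ Finset.range N, c i * el N c i) / 2) ≤
      ENNReal.ofReal (area (hull G) + ∑ i ∈ Finset.range N,
        al n h p i * bl n h p i * Real.sin (dl N)) := by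
    have hterm : ∀ i ∈ Finset.range N, 0 ≤ al n h p i * bl n h p i * Real.sin (dl N) :=
      fun i _ => mul_nonneg (mul_nonneg (hR i).2.1 (hR i).2.2.1) hs.le
    calc _ ≤ volume (poly N c) := hP6
      _ = volume P := hvolP
      _ ≤ volume (hull G ∪ ⋃ i ∈ Finset.range N, Pi (i : ℕ)) := measure_mono hcov
      _ ≤ volume (hull G) + volume (⋃ i ∈ Finset.range N, Pi (i : ℕ)) := measure_union_le _ _
      _ ≤ volume (hull G) + ∑ i ∈ Finset.range N, volume (Pi (i : ℕ)) := by
        gcongr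
        exact measure_biUnion_finset_le _ _
      _ = ENNReal.ofReal (area (hull G)) + ENNReal.ofReal (∑ i ∈ Finset.range N,
        al n h p i * bl n h p i * Real.sin (dl N)) := by
        congr 1
        · unfold area
          rw [ENNReal.ofReal_toReal hfin]
        · rw [ENNReal.ofReal_sum_of_nonneg hterm]
          apply Finset.sum_congr rfl
          intro i _
          rw [hPvol]
      _ = _ := by
        have harea1 : 0 ≤ area (hull G) := ENNReal.toReal_nonneg
        rw [ENNReal.ofReal_add harea1 (Finset.sum_nonneg hterm)]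
  have hterm : ∀ i ∈ Finset.range N, 0 ≤ al n h p i * bl n h p i * Real.sin (dl N) :=
    fun i _ => mul_nonneg (mul_nonneg (hR i).2.1 (hR i).2.2.1) hs.le
  have harea0 : 0 ≤ area (hull G) := ENNReal.toReal_nonneg
  rw [ENNReal.ofReal_le_ofReal_iff (add_nonneg harea0 (Finset.sum_nonneg hterm)),
    ← Finset.sum_mul] at hvol
  have hfin2 : ∑ i ∈ Finset.range N, c i * el N c i =
      ∑ i ∈ Finset.range N, (h i - ⟪o, nv N i⟫) * el N h i := by
    apply Finset.sum_congr rfl
    intro i _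
    rw [hel]
  rw [hfin2] at hvol
  linarith

end Pool.Agent.Robin

end
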