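import Pool.Agent.Work.MP_4b551e_an.Bd.B03

/-! Bundle of small proof modules (one section per former module). -/

section

/-!
MP_4b551e_an, item G13: for large area some annulus has a low level.
-/

open MeasureTheory Set Metric Filter Topology
open scoped ENNReal NNReal

namespace Pool.Agent.Robin

theorem G13_log {ρ : ℝ} (h : 200000 ≤ ρ) :
    Real.log ρ < ρ / 192 ∧ 0 < Real.log ρ ∧ Real.log ρ ≤ ρ / 6 := by
  have h0 : 0 < ρ := by linarith
  set t := Real.sqrt ρ with ht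
  have ht2 : t ^ 2 = ρ := Real.sq_sqrt h0.le
  have ht0 : 0 < t := Real.sqrt_pos.2 h0
  have htb : (400 : ℝ) < t := by
    rw [ht]
    refine Real.lt_sqrt_of_sq_lt ?_
    linarith
  have h1 : Real.log ρ = 2 * Real.log t := by
    rw [← ht2, Real.log_pow]; norm_num
  have h2 : Real.log t ≤ t - 1 := Real.log_le_sub_one_of_pos ht0
  have h3 : Real.log ρ < ρ / 192 := by
    rw [h1, ← ht2]
    nlinarith
  refine ⟨h3, Real.log_pos (by linarith), by linarith⟩

theorem prf_G13 (hF2 : S_F2) (_h1 : S_G1) (h2 : S_G2) (_h4 : S_G4) (h6 : S_G6) (h7 : S_G7)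
    (h8 : S_G8) (h9 : S_G9) : S_G13 := by
  refine ⟨Real.pi * 50000 ^ 2, by positivity, ?_⟩
  intro A hA
  have hpi := Real.pi_pos
  have hA0 : 0 < A := lt_of_lt_of_le (by positivity) hA
  have hq : (50000 : ℝ) ^ 2 ≤ A / Real.pi := by
    rw [le_div_iff₀ hpi]; linarith
  set ρ : ℝ := 4 * Real.sqrt (A / Real.pi) with hρ
  have hsq : (Real.sqrt (A / Real.pi)) ^ 2 = A / Real.pi := Real.sq_sqrt (by positivity)
  have hs50 : (50000 : ℝ) ≤ Real.sqrt (A / Real.pi) := Real.le_sqrt_of_sq_le hq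
  have hρb : (200000 : ℝ) ≤ ρ := by rw [hρ]; linarith
  have hρ0 : 0 < ρ := by linarith
  have hρ2 : ρ ^ 2 = 16 * (A / Real.pi) := by
    rw [hρ, mul_pow, hsq]; norm_num
  have hlev : Real.sqrt (Real.pi / A) / 4 = 1 / ρ := by
    have h10 : Real.sqrt (Real.pi / A) = (Real.sqrt (A / Real.pi))⁻¹ := by
      rw [← Real.sqrt_inv, inv_div]
    rw [h10, hρ]
    field_simp
  obtain ⟨hl1, hl0, hl6⟩ := G13_log hρb
  set l := Real.log ρ with hl
  set r : ℝ := Real.sqrt ((2 * ρ) ^ 2 - A / Real.pi) with hr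
  have hrad : 0 < (2 * ρ) ^ 2 - A / Real.pi := by nlinarith
  have hr2 : r ^ 2 = (2 * ρ) ^ 2 - A / Real.pi := Real.sq_sqrt hrad.le
  have hr0 : 0 < r := Real.sqrt_pos.2 hrad
  have hAp : 0 < A / Real.pi := by positivity
  have hrR : r < 2 * ρ := by
    nlinarith
  have harea : Real.pi * ((2 * ρ) ^ 2 - r ^ 2) = A := by
    rw [hr2]
    field_simp
    ring
  obtain ⟨κ, χ, hGS⟩ := hF2 r (2 * ρ) hr0 hrR
  refine ⟨r, 2 * ρ, κ, χ, hGS, harea, ?_⟩
  rw [hlev]
  by_contra hcon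
  push Not at hcon
  set k : ℝ := Real.sqrt (1 + 1 / ρ) with hk
  have hinv : 0 < 1 / ρ := by positivity
  have hk2 : k ^ 2 = 1 + 1 / ρ := Real.sq_sqrt (by positivity)
  have hk1 : 1 < k := by
    rw [hk]
    refine Real.lt_sqrt_of_sq_lt ?_
    linarith
  have hkκ : k ≤ κ := by
    have h11 : k ^ 2 ≤ κ ^ 2 := by linarith
    exact le_of_sq_le_sq h11 (by linarith [hGS.one_lt])
  -- outer layer
  have hRS : 0 < 2 * ρ - 2 * l := by linarith
  have hexp : Real.exp (2 * l) = ρ ^ 2 := by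
    rw [hl, two_mul, Real.exp_add, Real.exp_log hρ0]; ring
  have hcond : 1 ≤ (k ^ 2 - 1 - 1 / (2 * ρ - 2 * l)) * (Real.exp (2 * l) - 1) := by
    rw [hexp, hk2]
    have h12 : 1 / (2 * ρ - 2 * l) ≤ 3 / 5 * (1 / ρ) := by
      rw [div_le_iff₀ hRS]
      have h13 : 3 / 5 * (1 / ρ) * (2 * ρ - 2 * l) = 6 / 5 - 6 / 5 * (l / ρ) := by
        field_simp
        ring
      rw [h13]
      have h14 : l / ρ ≤ 1 / 6 := by
        rw [div_le_iff₀ hρ0]; linarith
      linarith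
    have h15 : 2 / 5 * (1 / ρ) ≤ 1 + 1 / ρ - 1 - 1 / (2 * ρ - 2 * l) := by linarith
    have h16 : 0 ≤ ρ ^ 2 - 1 := by nlinarith
    have h17 : 2 / 5 * (1 / ρ) * (ρ ^ 2 - 1) ≤
        (1 + 1 / ρ - 1 - 1 / (2 * ρ - 2 * l)) * (ρ ^ 2 - 1) :=
      mul_le_mul_of_nonneg_right h15 h16
    have h18 : 2 / 5 * (1 / ρ) * (ρ ^ 2 - 1) = 2 / 5 * (ρ - 1 / ρ) := by
      field_simp
    have h19 : 1 / ρ ≤ 1 := by
      rw [div_le_one hρ0]; linarith
    rw [h18] at h17
    linarith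
  obtain ⟨ξ₁, χ₁, hξ₁, hOL⟩ := h8 k (2 * ρ) (2 * l) hk1 (by linarith) (by linarith) hcond
  obtain ⟨ξ₂, χ₂, hIL⟩ := h9 k r hk1 hr0
  have hξ := h7 r (2 * ρ) κ k ξ₁ ξ₂ χ χ₁ χ₂ hk1.le hkκ hGS hOL hIL
  obtain ⟨v, hv⟩ := h2 k r ξ₂ χ₂ hIL
  obtain ⟨g1, -, -, g4, -⟩ := h6 k r ξ₂ χ₂ v hk1.le hv
  have hσ := hv.sig
  have hσ0 := v.σ_pos
  -- thickness of the inner layer
  have hv1 : 1 ≤ v.w 0 := v.one_le 0
  have hv2 : (v.w 0) ^ 2 ≤ ρ + 1 := by
    rw [hk2] at g1
    have h20 : (1 + 1 / ρ - 1) * (v.w 0) ^ 2 * ρ ≤ (1 + 1 / ρ) * ρ :=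
      mul_le_mul_of_nonneg_right g1 hρ0.le
    have h21 : (1 + 1 / ρ - 1) * (v.w 0) ^ 2 * ρ = (v.w 0) ^ 2 := by
      field_simp
      ring
    have h22 : (1 + 1 / ρ) * ρ = ρ + 1 := by
      field_simp
    rw [h21, h22] at h20
    exact h20
  have hσl : v.σ ≤ l := by
    have h23 : Real.exp v.σ ≤ 2 * v.w 0 := by
      have h24 : Real.exp v.σ ≤ Real.exp (k * v.σ) := by
        apply Real.exp_le_exp.2
        nlinarith
      have h25 : Real.exp (k * v.σ) ≤ 2 * Real.cosh (k * v.σ) := by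
        rw [Real.cosh_eq]
        have := Real.exp_pos (-(k * v.σ))
        linarith
      linarith
    have h26 : Real.exp v.σ ≤ ρ := by
      have h27 : 2 * v.w 0 ≤ ρ := by
        nlinarith
      linarith
    rw [hl]
    exact (Real.le_log_iff_exp_le hρ0).2 h26
  -- thickness of the annulus
  have hthick : ρ / 64 ≤ 2 * ρ - r := by
    have h28 : (2 * ρ - r) * (2 * ρ + r) = ρ ^ 2 / 16 := by
      have : (2 * ρ - r) * (2 * ρ + r) = (2 * ρ) ^ 2 - r ^ 2 := by ring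
      rw [this, hr2, hρ2]; ring
    nlinarith
  linarith

end Pool.Agent.Robin

end

section

set_option autoImplicit false

open MeasureTheory Set Metric
open scoped ENNReal NNReal Pointwise RealInnerProductSpace

namespace Pool.Agent.Robin

theorem prf_G14 : S_G14 := by
  intro r R κ κ' χ hGS hκ
  have hr := hGS.r_pos
  have hrR := hGS.lt
  have hRr : 0 < R - r := sub_pos.2 hrR
  set κ1 : ℝ := max κ' 1 with hκ1
  have hκ1lt : κ1 < κ := max_lt hκ hGS.one_lt
  have hκ1pos : 1 ≤ κ1 := le_max_right _ _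
  set c : ℝ := κ ^ 2 - κ1 ^ 2 with hc
  have hcpos : 0 < c := by nlinarith
  set K : ℝ := 2 / r ^ 2 + 2 * (κ ^ 2 + 1 + 2 / r) / (R - r) with hK
  have hKpos : 0 < K := by positivity
  refine ⟨min (r / 2) (c / (2 * K)), by positivity, ?_⟩
  intro r' R' κ'' χ'' hGS'' hr' hR'
  by_contra hle
  rw [not_lt] at hle
  set δ : ℝ := min (r / 2) (c / (2 * K)) with hδ
  have hδpos : 0 < δ := by positivity
  have hδ1 : δ ≤ r / 2 := min_le_left _ _
  have hδ2 : δ * K ≤ c / 2 := by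
    have : δ ≤ c / (2 * K) := min_le_right _ _
    rw [le_div_iff₀ (by positivity)] at this
    linarith
  have hκ''1 : 1 < κ'' := hGS''.one_lt
  have hκ''le : κ'' ^ 2 ≤ κ1 ^ 2 := by
    have : κ'' ≤ κ1 := hle.trans (le_max_left _ _)
    nlinarith
  have hκ1κ : κ1 ^ 2 ≤ κ ^ 2 := by nlinarith
  have hrR' := hGS''.lt
  obtain ⟨a1, a2⟩ := abs_lt.1 hr'
  obtain ⟨b1, b2⟩ := abs_lt.1 hR'
  have hr'2 : r / 2 ≤ r' := by linarith
  set lam : ℝ := (R' - r') / (R - r) with hlam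
  have hlampos : 0 < lam := div_pos (sub_pos.2 hrR') hRr
  have hlam1 : |lam - 1| ≤ 2 * δ / (R - r) := by
    have e : lam - 1 = ((R' - R) - (r' - r)) / (R - r) := by
      rw [hlam]
      field_simp
      ring
    rw [e, abs_div, abs_of_pos hRr]
    refine div_le_div_of_nonneg_right ?_ hRr.le
    rw [abs_le]
    constructor <;> linarith
  set T : ℝ → ℝ := fun ξ => r' + lam * (ξ - r) with hT
  have hTr : T r = r' := by simp [hT]
  have hTR : T R = R' := by
    simp only [hT, hlam]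
    field_simp
    ring
  have hTmem : ∀ ξ ∈ Icc r R, T ξ ∈ Icc r' R' := by
    intro ξ hξ
    constructor
    · rw [← hTr]
      simp only [hT]
      nlinarith [hξ.1]
    · rw [← hTR]
      simp only [hT]
      nlinarith [hξ.2]
  have hTdist : ∀ ξ ∈ Icc r R, |T ξ - ξ| ≤ δ := by
    intro ξ hξ
    have e : T ξ - ξ = ((R - ξ) * (r' - r) + (ξ - r) * (R' - R)) / (R - r) := by
      simp only [hT, hlam]
      field_simp
      ring
    rw [e, abs_div, abs_of_pos hRr, div_le_iff₀ hRr]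
    have q1 : 0 ≤ R - ξ := by linarith [hξ.2]
    have q2 : 0 ≤ ξ - r := by linarith [hξ.1]
    rw [abs_le]
    constructor <;> nlinarith
  set ψ : ℝ → ℝ := fun ξ => χ'' (T ξ) with hψ
  have hψr : ψ r = -1 := by
    simp only [hψ]
    rw [hTr]
    exact hGS''.left
  have hψR : ψ R = 1 := by
    simp only [hψ]
    rw [hTR]
    exact hGS''.right
  have hψb : ∀ ξ ∈ Icc r R, -1 ≤ ψ ξ ∧ ψ ξ ≤ 1 := by
    intro ξ hξ
    have h1 := hTmem ξ hξ
    constructor
    · rw [← hGS''.left]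
      exact hGS''.mono.monotoneOn (left_mem_Icc.2 hrR'.le) h1 h1.1
    · rw [← hGS''.right]
      exact hGS''.mono.monotoneOn h1 (right_mem_Icc.2 hrR'.le) h1.2
  have hψd : ∀ ξ ∈ Icc r R, HasDerivWithinAt ψ
      (lam * (κ'' ^ 2 - ψ ξ ^ 2 - ψ ξ / T ξ)) (Icc r R) ξ := by
    intro ξ hξ
    have h1 := hGS''.deriv (T ξ) (hTmem ξ hξ)
    have h2 : HasDerivWithinAt T lam (Icc r R) ξ := by
      have q : HasDerivAt T (0 + lam * (1 - 0)) ξ :=
        (hasDerivAt_const ξ r').add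
          (((hasDerivAt_id ξ).sub (hasDerivAt_const ξ r)).const_mul lam)
      have q2 : (0 + lam * (1 - 0) : ℝ) = lam := by ring
      rw [q2] at q
      exact q.hasDerivWithinAt
    have h3 := h1.comp ξ h2 (fun x hx => hTmem x hx)
    rw [mul_comm lam]
    exact h3
  -- the error term
  have herr : ∀ ξ ∈ Icc r R, χ ξ = ψ ξ →
      lam * (κ'' ^ 2 - ψ ξ ^ 2 - ψ ξ / T ξ) < κ ^ 2 - χ ξ ^ 2 - χ ξ / ξ := by
    intro ξ hξ heq
    rw [heq]
    obtain ⟨p1, p2⟩ := hψb ξ hξ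
    have hξpos : 0 < ξ := hr.trans_le hξ.1
    have hTpos : r / 2 ≤ T ξ := hr'2.trans (hTmem ξ hξ).1
    have hTpos' : 0 < T ξ := by linarith
    have q0 : |ψ ξ| ≤ 1 := abs_le.2 ⟨p1, p2⟩
    have q1 : |ψ ξ / ξ - ψ ξ / T ξ| ≤ 2 * δ / r ^ 2 := by
      have e : ψ ξ / ξ - ψ ξ / T ξ = ψ ξ * (T ξ - ξ) / (ξ * T ξ) := by
        field_simp
      rw [e, abs_div, abs_mul, abs_of_pos (mul_pos hξpos hTpos')]
      have q2 : |ψ ξ| * |T ξ - ξ| ≤ δ := by
        calc |ψ ξ| * |T ξ - ξ| ≤ 1 * δ :=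
          mul_le_mul q0 (hTdist ξ hξ) (abs_nonneg _) zero_le_one
          _ = δ := one_mul _
      have q3 : r ^ 2 / 2 ≤ ξ * T ξ := by
        have := mul_le_mul hξ.1 hTpos (by positivity) hξpos.le
        calc r ^ 2 / 2 = r * (r / 2) := by ring
          _ ≤ _ := this
      calc |ψ ξ| * |T ξ - ξ| / (ξ * T ξ) ≤ δ / (r ^ 2 / 2) :=
            div_le_div₀ hδpos.le q2 (by positivity) q3
        _ = 2 * δ / r ^ 2 := by
            field_simp
    have q4 : |κ'' ^ 2 - ψ ξ ^ 2 - ψ ξ / T ξ| ≤ κ ^ 2 + 1 + 2 / r := by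
      have q5 : |ψ ξ / T ξ| ≤ 2 / r := by
        rw [abs_div, abs_of_pos hTpos']
        calc |ψ ξ| / T ξ ≤ 1 / (r / 2) := div_le_div₀ zero_le_one q0 (by positivity) hTpos
          _ = 2 / r := by field_simp
      obtain ⟨q6, q7⟩ := abs_le.1 q5
      have q8 : ψ ξ ^ 2 ≤ 1 := by nlinarith
      have q9 : 0 ≤ ψ ξ ^ 2 := sq_nonneg _
      have q10 : 0 ≤ κ'' ^ 2 := sq_nonneg _
      have q11 : κ'' ^ 2 ≤ κ ^ 2 := hκ''le.trans hκ1κ
      have q12 : 0 < 2 / r := by positivity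
      rw [abs_le]
      constructor
      · linarith
      · linarith
    have q5 : |(1 - lam) * (κ'' ^ 2 - ψ ξ ^ 2 - ψ ξ / T ξ)| ≤
        2 * δ / (R - r) * (κ ^ 2 + 1 + 2 / r) := by
      rw [abs_mul, abs_sub_comm]
      exact mul_le_mul hlam1 q4 (abs_nonneg _) (by positivity)
    have q6 : 2 * δ / r ^ 2 + 2 * δ / (R - r) * (κ ^ 2 + 1 + 2 / r) = δ * K := by
      rw [hK]
      ring
    obtain ⟨q7, q8⟩ := abs_le.1 q1
    obtain ⟨q9, q10⟩ := abs_le.1 q5
    have q11 : κ'' ^ 2 ≤ κ ^ 2 - c := by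
      rw [hc]
      linarith
    have e : lam * (κ'' ^ 2 - ψ ξ ^ 2 - ψ ξ / T ξ) = (κ'' ^ 2 - ψ ξ ^ 2 - ψ ξ / T ξ) -
        (1 - lam) * (κ'' ^ 2 - ψ ξ ^ 2 - ψ ξ / T ξ) := by ring
    rw [e]
    linarith
  have hχc : ContinuousOn χ (Icc r R) := fun ξ hξ => (hGS.deriv ξ hξ).continuousWithinAt
  have hψc : ContinuousOn ψ (Icc r R) := fun ξ hξ => (hψd ξ hξ).continuousWithinAt
  have hcomp : ∀ ⦃ξ⦄, ξ ∈ Icc r R → ψ ξ ≤ χ ξ :=
    image_le_of_deriv_right_lt_deriv_boundary' hψc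
      (fun x hx => (hψd x ⟨hx.1, hx.2.le⟩).mono_of_mem_nhdsWithin (Icc_mem_nhdsGE_of_mem hx))
      (by rw [hψr, hGS.left]) hχc
      (fun x hx => (hGS.deriv x ⟨hx.1, hx.2.le⟩).mono_of_mem_nhdsWithin
        (Icc_mem_nhdsGE_of_mem hx))
      (fun x hx h => herr x ⟨hx.1, hx.2.le⟩ h.symm)
  -- the end point
  have hRmem : R ∈ Icc r R := right_mem_Icc.2 hrR.le
  have hlt := herr R hRmem (by rw [hψR, hGS.right])
  have hd : HasDerivWithinAt (fun ξ => χ ξ - ψ ξ)
      ((κ ^ 2 - χ R ^ 2 - χ R / R) - lam * (κ'' ^ 2 - ψ R ^ 2 - ψ R / T R)) (Icc r R) R :=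
    (hGS.deriv R hRmem).sub (hψd R hRmem)
  have hpos : 0 < (κ ^ 2 - χ R ^ 2 - χ R / R) - lam * (κ'' ^ 2 - ψ R ^ 2 - ψ R / T R) :=
    sub_pos.2 hlt
  rw [hasDerivWithinAt_iff_tendsto_slope] at hd
  have hev : ∀ᶠ ξ in nhdsWithin R (Icc r R \ {R}), 0 < slope (fun ξ => χ ξ - ψ ξ) R ξ :=
    hd.eventually (lt_mem_nhds hpos)
  have hne : (nhdsWithin R (Icc r R \ {R})).NeBot := by
    rw [Icc_sdiff_right]
    exact right_nhdsWithin_Ico_neBot hrR
  obtain ⟨ξ, hξ1, hξ2⟩ := (hev.and self_mem_nhdsWithin).exists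
  rw [slope_def_field] at hξ1
  have h1 : χ R - ψ R = 0 := by rw [hGS.right, hψR, sub_self]
  rw [h1, sub_zero] at hξ1
  have h2 : 0 ≤ χ ξ - ψ ξ := sub_nonneg.2 (hcomp hξ2.1)
  have h3 : ξ - R ≤ 0 := by linarith [hξ2.1.2]
  exact absurd hξ1 (not_lt.2 (div_nonpos_of_nonneg_of_nonpos h2 h3))

end Pool.Agent.Robin

end

section

/-!
# G7: overlap of the layers (Riccati comparison)
-/

open MeasureTheory Set Metric
open scoped ENNReal NNReal Pointwise RealInnerProductSpace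

namespace Pool.Agent.Robin

namespace G7

/-- A linear differential inequality: `d' = c - q d`, `c ≥ 0`. -/
theorem lin {a b : ℝ} (hab : a ≤ b) {d c q : ℝ → ℝ} (hq : ContinuousOn q (Icc a b))
    (hd : ∀ ξ ∈ Icc a b, HasDerivWithinAt d (c ξ - q ξ * d ξ) (Icc a b) ξ)
    (hc : ∀ ξ ∈ Icc a b, 0 ≤ c ξ) :
    ∃ u v : ℝ, 0 < u ∧ 0 < v ∧ u * d a ≤ v * d b := by
  have hq' : Continuous (IccExtend hab ((Icc a b).domRestrict q)) :=
    (continuousOn_iff_continuous_domRestrict.mp hq).Icc_extend'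
  set Q : ℝ → ℝ := IccExtend hab ((Icc a b).domRestrict q) with hQ
  have hQq : ∀ ξ ∈ Icc a b, Q ξ = q ξ := fun ξ hξ => IccExtend_of_mem hab _ hξ
  set E : ℝ → ℝ := fun ξ => Real.exp (∫ t in a..ξ, Q t) with hE
  have hE' : ∀ ξ, HasDerivAt E (E ξ * Q ξ) ξ := fun ξ =>
    (intervalIntegral.integral_hasDerivAt_right (hq'.intervalIntegrable a ξ)
      (hq'.stronglyMeasurableAtFilter _ _) hq'.continuousAt).exp
  have hder : ∀ ξ ∈ Icc a b, HasDerivWithinAt (fun ξ => E ξ * d ξ) (E ξ * c ξ) (Icc a b) ξ := by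
    intro ξ hξ
    have h := (hE' ξ).hasDerivWithinAt.mul (hd ξ hξ)
    refine h.congr_deriv ?_
    rw [hQq ξ hξ]
    ring
  have hmono : MonotoneOn (fun ξ => E ξ * d ξ) (Icc a b) := by
    refine monotoneOn_of_deriv_nonneg (convex_Icc a b)
      (fun ξ hξ => (hder ξ hξ).continuousWithinAt) ?_ ?_
    · intro ξ hξ
      exact ((hder ξ (interior_subset hξ)).mono interior_subset).differentiableWithinAt
    · intro ξ hξ
      have h1 := (hder ξ (interior_subset hξ)).hasDerivAt (mem_interior_iff_mem_nhds.mp hξ)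
      rw [h1.deriv]
      exact mul_nonneg (Real.exp_pos _).le (hc ξ (interior_subset hξ))
  exact ⟨E a, E b, Real.exp_pos _, Real.exp_pos _,
    hmono (left_mem_Icc.mpr hab) (right_mem_Icc.mpr hab) hab⟩

/-- Comparison of two Riccati solutions. -/
theorem cmp {a b k κ : ℝ} (ha : 0 < a) (hab : a ≤ b) (hk : 1 ≤ k) (hkk : k ≤ κ)
    {χ χ' : ℝ → ℝ}
    (h : ∀ ξ ∈ Icc a b, HasDerivWithinAt χ (κ ^ 2 - χ ξ ^ 2 - χ ξ / ξ) (Icc a b) ξ)
    (h' : ∀ ξ ∈ Icc a b, HasDerivWithinAt χ' (k ^ 2 - χ' ξ ^ 2 - χ' ξ / ξ) (Icc a b) ξ) :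
    ∃ u v : ℝ, 0 < u ∧ 0 < v ∧ u * (χ a - χ' a) ≤ v * (χ b - χ' b) := by
  have hc : ContinuousOn χ (Icc a b) := fun ξ hξ => (h ξ hξ).continuousWithinAt
  have hc' : ContinuousOn χ' (Icc a b) := fun ξ hξ => (h' ξ hξ).continuousWithinAt
  have hinv : ContinuousOn (fun ξ : ℝ => ξ⁻¹) (Icc a b) :=
    continuousOn_inv₀.mono fun ξ hξ => (ha.trans_le hξ.1).ne'
  refine lin (d := fun ξ => χ ξ - χ' ξ) (c := fun _ => κ ^ 2 - k ^ 2)
    (q := fun ξ => χ ξ + χ' ξ + ξ⁻¹) hab ((hc.add hc').add hinv) ?_ ?_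
  · intro ξ hξ
    refine ((h ξ hξ).sub (h' ξ hξ)).congr_deriv ?_
    have : ξ ≠ 0 := (ha.trans_le hξ.1).ne'
    field_simp
    ring
  · intro ξ _
    nlinarith

end G7

open G7 in
theorem prf_G7 : S_G7 := by
  intro r R κ k ξ₁ ξ₂ χ χ₁ χ₂ hk hkk hG h1 h2
  by_contra hcon
  rw [not_le] at hcon
  have hr : r < ξ₂ := h2.lt
  have hR : ξ₁ < R := h1.lt
  have e1 : χ ξ₁ ≤ 0 := by
    obtain ⟨u, v, hu, hv, huv⟩ := cmp (a := ξ₁) (b := R) h1.pos hR.le hk hkk (χ := χ) (χ' := χ₁)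
      (fun ξ hξ => (hG.deriv ξ ⟨by linarith [hξ.1], hξ.2⟩).mono
        (Icc_subset_Icc_left (by linarith))) h1.deriv
    rw [hG.right, h1.right, h1.left, sub_self, mul_zero, sub_zero] at huv
    by_contra h3
    rw [not_le] at h3
    exact absurd huv (not_le.mpr (mul_pos hu h3))
  have e2 : 0 ≤ χ ξ₂ := by
    obtain ⟨u, v, hu, hv, huv⟩ := cmp (a := r) (b := ξ₂) hG.r_pos hr.le hk hkk (χ := χ) (χ' := χ₂)
      (fun ξ hξ => (hG.deriv ξ ⟨hξ.1, by linarith [hξ.2]⟩).mono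
        (Icc_subset_Icc_right (by linarith))) h2.deriv
    rw [hG.left, h2.left, h2.right, sub_self, mul_zero, sub_zero] at huv
    by_contra h3
    rw [not_le] at h3
    exact absurd huv (not_le.mpr (mul_neg_of_pos_of_neg hv h3))
  have e3 := hG.mono ⟨hr.le, by linarith⟩ ⟨by linarith, hR.le⟩ hcon
  linarith

end Pool.Agent.Robin

end

section

/-!
MP_4b551e_an, item G8: existence of the outer layer.
-/

open MeasureTheory Set Metric Filter Topology
open scoped ENNReal NNReal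

namespace Pool.Agent.Robin

/-- Monotonicity from one-sided derivatives on a closed interval. -/
theorem G8_mono {f f' : ℝ → ℝ} {a b : ℝ}
    (hf : ∀ x ∈ Icc a b, HasDerivWithinAt f (f' x) (Icc a b) x)
    (h0 : ∀ x ∈ Icc a b, 0 ≤ f' x) : MonotoneOn f (Icc a b) := by
  refine monotoneOn_of_deriv_nonneg (convex_Icc a b)
    (fun x hx => (hf x hx).continuousWithinAt) ?_ ?_
  · intro x hx
    rw [interior_Icc] at hx
    exact ((hf x (Ioo_subset_Icc_self hx)).hasDerivAt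
      (Icc_mem_nhds hx.1 hx.2)).differentiableAt.differentiableWithinAt
  · intro x hx
    rw [interior_Icc] at hx
    rw [((hf x (Ioo_subset_Icc_self hx)).hasDerivAt (Icc_mem_nhds hx.1 hx.2)).deriv]
    exact h0 x (Ioo_subset_Icc_self hx)

/-- Clamp to `[0, 1]`. -/
noncomputable def clamp01 (y : ℝ) : ℝ := max (min y 1) 0

theorem clamp01_mem (y : ℝ) : 0 ≤ clamp01 y ∧ clamp01 y ≤ 1 :=
  ⟨le_max_right _ _, max_le (min_le_right _ _) (by norm_num)⟩

theorem clamp01_lip (y y' : ℝ) : |clamp01 y - clamp01 y'| ≤ |y - y'| := by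
  unfold clamp01
  refine (abs_max_sub_max_le_abs _ _ _).trans ?_
  have := abs_min_sub_min_le_max y 1 y' 1
  simpa using this

theorem clamp01_of {y : ℝ} (h0 : 0 ≤ y) (h1 : y ≤ 1) : clamp01 y = y := by
  unfold clamp01
  rw [min_eq_left h1, max_eq_left h0]

theorem G8_exist {k R S : ℝ} (hk : 1 < k) (hS : 0 < S) (hSR : S < R) :
    ∃ z : ℝ → ℝ, z 0 = 0 ∧ ∀ s ∈ Icc 0 S,
      HasDerivWithinAt z (k ^ 2 - (1 - clamp01 (z s)) ^ 2 - (1 - clamp01 (z s)) / (R - s))
        (Icc 0 S) s := by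
  set v : ℝ → ℝ → ℝ := fun s y => k ^ 2 - (1 - clamp01 y) ^ 2 - (1 - clamp01 y) / (R - s) with hv
  have hRS : 0 < R - S := by linarith
  have hlip : ∀ s ∈ Icc 0 S, ∀ y y', |v s y - v s y'| ≤ (2 + 1 / (R - S)) * |y - y'| := by
    intro s hs y y'
    have hs0 : 0 < R - s := by linarith [hs.2]
    obtain ⟨a1, a2⟩ := clamp01_mem y
    obtain ⟨b1, b2⟩ := clamp01_mem y'
    have e : v s y - v s y' =
        (clamp01 y - clamp01 y') * (2 - clamp01 y - clamp01 y' + 1 / (R - s)) := by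
      simp only [hv]
      field_simp
      ring
    rw [e, abs_mul, mul_comm]
    have h4 : 1 / (R - s) ≤ 1 / (R - S) := one_div_le_one_div_of_le hRS (by linarith [hs.2])
    have h5 : 0 < 1 / (R - s) := by positivity
    have h1 : |2 - clamp01 y - clamp01 y' + 1 / (R - s)| ≤ 2 + 1 / (R - S) := by
      rw [abs_le]
      constructor <;> linarith
    exact mul_le_mul h1 (clamp01_lip y y') (abs_nonneg _) (by positivity)
  have hbd : ∀ s ∈ Icc 0 S, ∀ y, |v s y| ≤ k ^ 2 + 1 + 1 / (R - S) := by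
    intro s hs y
    have hs0 : 0 < R - s := by linarith [hs.2]
    obtain ⟨a1, a2⟩ := clamp01_mem y
    have h4 : 1 / (R - s) ≤ 1 / (R - S) := one_div_le_one_div_of_le hRS (by linarith [hs.2])
    have h5 : 0 < 1 / (R - s) := by positivity
    have h6 : (1 - clamp01 y) / (R - s) = (1 - clamp01 y) * (1 / (R - s)) := by ring
    have h7 : (1 - clamp01 y) * (1 / (R - s)) ≤ 1 / (R - s) := by
      nlinarith
    have h8 : 0 ≤ (1 - clamp01 y) * (1 / (R - s)) := mul_nonneg (by linarith) h5.le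
    have h9 : (1 - clamp01 y) ^ 2 ≤ 1 := by nlinarith
    simp only [hv]
    rw [h6, abs_le]
    constructor <;> nlinarith [sq_nonneg k, sq_nonneg (1 - clamp01 y)]
  have hPL : IsPicardLindelof v (⟨0, left_mem_Icc.2 hS.le⟩ : Icc (0 : ℝ) S) 0
      (Real.toNNReal ((k ^ 2 + 1 + 1 / (R - S)) * S)) 0
      (Real.toNNReal (k ^ 2 + 1 + 1 / (R - S))) (Real.toNNReal (2 + 1 / (R - S))) := by
    refine ⟨?_, ?_, ?_, ?_⟩
    · intro s hs
      refine LipschitzOnWith.of_dist_le_mul fun y _ y' _ => ?_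
      rw [Real.dist_eq, Real.dist_eq, Real.coe_toNNReal _ (by positivity)]
      exact hlip s hs y y'
    · intro y _
      refine continuousOn_const.sub (continuousOn_const.div (continuousOn_const.sub
        continuousOn_id) ?_)
      intro s hs
      have : 0 < R - s := by linarith [hs.2]
      exact this.ne'
    · intro s hs y _
      rw [Real.norm_eq_abs, Real.coe_toNNReal _ (by positivity)]
      exact hbd s hs y
    · rw [Real.coe_toNNReal _ (by positivity), Real.coe_toNNReal _ (by positivity)]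
      simp only [sub_self, NNReal.coe_zero, sub_zero]
      rw [max_eq_left hS.le]
  obtain ⟨z, hz0, hz⟩ := hPL.exists_eq_forall_mem_Icc_hasDerivWithinAt₀
  exact ⟨z, hz0, hz⟩

theorem prf_G8 : S_G8 := by
  intro k R S hk hS hSR hE
  obtain ⟨z, hz0, hz⟩ := G8_exist hk hS hSR
  have hRS : 0 < R - S := by linarith
  set ε : ℝ := k ^ 2 - 1 - 1 / (R - S) with hε
  have hexp : 0 < Real.exp S - 1 := by linarith [Real.add_one_lt_exp hS.ne']
  have hε0 : 0 < ε := by
    by_contra h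
    push Not at h
    nlinarith
  have hcont : ContinuousOn z (Icc 0 S) := fun x hx => (hz x hx).continuousWithinAt
  have hder : ∀ s ∈ Icc 0 S, ε + clamp01 (z s) ≤
      k ^ 2 - (1 - clamp01 (z s)) ^ 2 - (1 - clamp01 (z s)) / (R - s) := by
    intro s hs
    have hs0 : 0 < R - s := by linarith [hs.2]
    obtain ⟨a1, a2⟩ := clamp01_mem (z s)
    have h4 : 1 / (R - s) ≤ 1 / (R - S) := one_div_le_one_div_of_le hRS (by linarith [hs.2])
    have h5 : 0 < 1 / (R - s) := by positivity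
    have h6 : (1 - clamp01 (z s)) / (R - s) = (1 - clamp01 (z s)) * (1 / (R - s)) := by ring
    have h7 : (1 - clamp01 (z s)) * (1 / (R - s)) ≤ 1 / (R - s) := by
      nlinarith
    rw [h6, hε]
    nlinarith
  have hmono : MonotoneOn z (Icc 0 S) := by
    refine G8_mono hz fun s hs => ?_
    linarith [hder s hs, (clamp01_mem (z s)).1]
  have hpos : ∀ s ∈ Icc 0 S, 0 ≤ z s := by
    intro s hs
    have := hmono (left_mem_Icc.2 hS.le) hs hs.1
    rwa [hz0] at this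
  -- the value one is attained
  have hone : ∃ s ∈ Icc 0 S, 1 ≤ z s := by
    by_contra hcon
    push Not at hcon
    have h1 : MonotoneOn (fun s => Real.exp (-s) * (z s + ε)) (Icc 0 S) := by
      refine G8_mono (f' := fun s => -Real.exp (-s) * (z s + ε) + Real.exp (-s) *
        (k ^ 2 - (1 - clamp01 (z s)) ^ 2 - (1 - clamp01 (z s)) / (R - s))) ?_ ?_
      · intro s hs
        have h2 : HasDerivWithinAt (fun s : ℝ => Real.exp (-s)) (-Real.exp (-s)) (Icc 0 S) s := by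
          have := ((hasDerivAt_id s).neg.exp).hasDerivWithinAt (s := Icc 0 S)
          simpa using this
        exact h2.mul ((hz s hs).add_const ε)
      · intro s hs
        have h3 := hder s hs
        rw [clamp01_of (hpos s hs) (hcon s hs).le] at h3
        have h4 := Real.exp_pos (-s)
        rw [clamp01_of (hpos s hs) (hcon s hs).le]
        nlinarith
    have h5 := h1 (left_mem_Icc.2 hS.le) (right_mem_Icc.2 hS.le) hS.le
    simp only [hz0, neg_zero, Real.exp_zero, zero_add, one_mul] at h5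
    have h6 := hcon S (right_mem_Icc.2 hS.le)
    have h7 : Real.exp S * (Real.exp (-S) * (z S + ε)) = z S + ε := by
      rw [← mul_assoc, ← Real.exp_add, add_neg_cancel, Real.exp_zero, one_mul]
    have h8 : Real.exp S * ε ≤ z S + ε := by
      rw [← h7]
      exact mul_le_mul_of_nonneg_left h5 (Real.exp_pos S).le
    nlinarith
  obtain ⟨s0, hs0, hs1⟩ := hone
  have hivt : (1 : ℝ) ∈ z '' Icc 0 s0 := by
    refine intermediate_value_Icc hs0.1 (hcont.mono (Icc_subset_Icc_right hs0.2)) ⟨?_, hs1⟩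
    rw [hz0]; norm_num
  obtain ⟨s1, ⟨hs1a, hs1b⟩, hzs1⟩ := hivt
  have hs1S : s1 ≤ S := hs1b.trans hs0.2
  have hs1pos : 0 < s1 := by
    refine lt_of_le_of_ne hs1a fun h => ?_
    rw [← h, hz0] at hzs1
    norm_num at hzs1
  have hmem1 : s1 ∈ Icc 0 S := ⟨hs1a, hs1S⟩
  have hle1 : ∀ s ∈ Icc 0 s1, z s ≤ 1 := by
    intro s hs
    rw [← hzs1]
    exact hmono ⟨hs.1, hs.2.trans hs1S⟩ hmem1 hs.2
  have hmaps : ∀ ξ ∈ Icc (R - s1) R, R - ξ ∈ Icc 0 s1 := by
    intro ξ hξ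
    exact ⟨by linarith [hξ.2], by linarith [hξ.1]⟩
  refine ⟨R - s1, fun ξ => 1 - z (R - ξ), by linarith, ?_⟩
  refine ⟨by linarith, by linarith, ?_, ?_, ?_, ?_⟩
  · intro ξ hξ
    have hm := hmaps ξ hξ
    have hmS : R - ξ ∈ Icc 0 S := ⟨hm.1, hm.2.trans hs1S⟩
    have h1 := hz (R - ξ) hmS
    rw [clamp01_of (hpos _ hmS) (hle1 _ hm)] at h1
    have h2 : HasDerivWithinAt (fun ξ : ℝ => R - ξ) (-1) (Icc (R - s1) R) ξ := by
      have := ((hasDerivAt_id ξ).const_sub R).hasDerivWithinAt (s := Icc (R - s1) R)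
      simpa using this
    have h3 : HasDerivWithinAt (fun ξ => z (R - ξ))
        ((k ^ 2 - (1 - z (R - ξ)) ^ 2 - (1 - z (R - ξ)) / (R - (R - ξ))) * (-1))
        (Icc (R - s1) R) ξ := by
      refine HasDerivWithinAt.comp ξ h1 h2 ?_
      intro ζ hζ
      have := hmaps ζ hζ
      exact ⟨this.1, this.2.trans hs1S⟩
    have h4 := h3.const_sub 1
    have e : -((k ^ 2 - (1 - z (R - ξ)) ^ 2 - (1 - z (R - ξ)) / (R - (R - ξ))) * (-1)) =
        k ^ 2 - (1 - z (R - ξ)) ^ 2 - (1 - z (R - ξ)) / ξ := by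
      rw [sub_sub_cancel]; ring
    rw [e] at h4
    exact h4
  · simp only [sub_sub_cancel]
    rw [hzs1]; norm_num
  · simp only [sub_self]
    rw [hz0]; norm_num
  · intro ξ hξ ζ hζ hle
    have hm := hmaps ξ hξ
    have hm' := hmaps ζ hζ
    have := hmono (a := R - ζ) (b := R - ξ) ⟨hm'.1, hm'.2.trans hs1S⟩ ⟨hm.1, hm.2.trans hs1S⟩
      (by linarith)
    simp only
    linarith

end Pool.Agent.Robin

end

section

/-!
# H1: outer layers in the window
-/

open MeasureTheory Set Metric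
open scoped ENNReal NNReal Pointwise RealInnerProductSpace

namespace Pool.Agent.Robin

namespace H1

/-- Basic numerical facts for large `ρ`. -/
theorem basic {ρ : ℝ} (h : Real.exp (10 ^ 8) ≤ ρ) :
    0 < ρ ∧ (10 : ℝ) ^ 8 ≤ Real.log ρ ∧ Real.exp (Real.log ρ) = ρ ∧
      10 ^ 14 * Real.log ρ ^ 2 ≤ ρ ∧ 20 * Real.log ρ ≤ Real.exp (0.001 * Real.log ρ) := by
  have hρ : 0 < ρ := (Real.exp_pos _).trans_le h
  have hl : (10 : ℝ) ^ 8 ≤ Real.log ρ := (Real.le_log_iff_exp_le hρ).mpr h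
  have he : Real.exp (Real.log ρ) = ρ := Real.exp_log hρ
  set l := Real.log ρ
  have hl0 : 0 ≤ l := le_trans (by positivity) hl
  refine ⟨hρ, hl, he, ?_, ?_⟩
  · have h1 := Real.pow_div_factorial_le_exp l hl0 4
    rw [he] at h1
    have h2 : ((Nat.factorial 4 : ℕ) : ℝ) = 24 := by norm_num [Nat.factorial]
    rw [h2] at h1
    refine le_trans ?_ h1
    have h3 : (10 : ℝ) ^ 16 ≤ l ^ 2 := by
      calc (10 : ℝ) ^ 16 = (10 ^ 8) ^ 2 := by norm_num
        _ ≤ l ^ 2 := pow_le_pow_left₀ (by positivity) hl 2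
    have h4 : l ^ 4 = l ^ 2 * l ^ 2 := by ring
    rw [h4, le_div_iff₀ (by norm_num)]
    have h5 : 0 ≤ l ^ 2 := sq_nonneg l
    nlinarith
  · have h1 := Real.pow_div_factorial_le_exp (0.001 * l) (by positivity) 2
    have h2 : ((Nat.factorial 2 : ℕ) : ℝ) = 2 := by norm_num [Nat.factorial]
    rw [h2] at h1
    refine le_trans ?_ h1
    rw [le_div_iff₀ (by norm_num)]
    nlinarith

end H1

open H1 in
theorem prf_H1 (h1 : S_G1) (h3 : S_G3) (h4 : S_G4) (h8 : S_G8) : S_H1 := by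
  refine ⟨Real.exp (10 ^ 8), ?_, ?_⟩
  · rw [← Real.exp_zero]
    exact Real.exp_lt_exp.mpr (by positivity)
  intro k ρ R hk hkρ hL hR1 hR2
  obtain ⟨hρ, hl, he, hρl, hexp⟩ := basic hL
  set l := Real.log ρ with hldef
  have hl0 : 0 < l := lt_of_lt_of_le (by positivity) hl
  have hl1 : (1 : ℝ) ≤ l := le_trans (by norm_num) hl
  have hρbig : (10 : ℝ) ^ 14 * l ≤ ρ := by
    refine le_trans ?_ hρl
    rw [sq, ← mul_assoc]
    exact le_mul_of_one_le_right (by positivity) hl1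
  have hρ14 : (10 : ℝ) ^ 14 ≤ ρ := le_trans (le_mul_of_one_le_right (by positivity) hl1) hρbig
  -- `k ^ 2 = 1 + 1 / ρ`
  have hk2 : k ^ 2 - 1 = 1 / ρ := by
    rw [eq_div_iff hρ.ne', mul_comm]; exact hkρ
  have hk2' : k ^ 2 = 1 + 1 / ρ := by linarith
  have hinv : 1 / ρ ≤ 1 / 10 ^ 14 := by
    exact one_div_le_one_div_of_le (by positivity) hρ14
  have hinv0 : 0 < 1 / ρ := by positivity
  have hk1 : k ≤ 1.001 := by
    by_contra hcon
    rw [not_le] at hcon
    have : (1.001 : ℝ) ^ 2 < k ^ 2 := pow_lt_pow_left₀ hcon (by norm_num) two_ne_zero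
    rw [hk2'] at this
    norm_num at this hinv
    linarith
  -- `θ`
  set θ := R / ρ - 1 with hθ
  have hRθ : R = ρ * (1 + θ) := by
    rw [hθ]; field_simp; ring
  have hθ1 : 1 ≤ 4 * l * θ := by
    have : ρ * (1 / (4 * l)) ≤ ρ * θ := by
      rw [hRθ] at hR1
      linarith only [hR1]
    have h5 := le_of_mul_le_mul_left this hρ
    rw [div_le_iff₀ (by positivity)] at h5
    linarith
  have hθ2 : 5 * l * θ ≤ 3 := by
    have : ρ * θ ≤ ρ * (3 / (5 * l)) := by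
      rw [hRθ] at hR2
      linarith only [hR2]
    have h5 := le_of_mul_le_mul_left this hρ
    rw [le_div_iff₀ (by positivity)] at h5
    linarith
  have hθ0 : 0 < θ := by
    by_contra hcon
    rw [not_lt] at hcon
    have : 4 * l * θ ≤ 0 := mul_nonpos_of_nonneg_of_nonpos (by positivity) hcon
    linarith
  have hθs : θ ≤ 0.001 := by
    by_contra hcon
    rw [not_le] at hcon
    have : 5 * l * 0.001 < 5 * l * θ := mul_lt_mul_of_pos_left hcon (by positivity)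
    linarith
  have hρθ0 : 0 < ρ * θ := mul_pos hρ hθ0
  have hρR : ρ ≤ R := by rw [hRθ]; linarith only [hρθ0]
  have hRρ : R ≤ 1.001 * ρ := by
    have := mul_le_mul_of_nonneg_left hθs hρ.le
    rw [hRθ]; linarith only [this]
  have hR0 : 0 < R := hρ.trans_le hρR
  -- `ρ θ` is large
  have hρθ : 10 ^ 13 * l ≤ ρ * θ := by
    have h5 : 10 ^ 14 * l ^ 2 * 1 ≤ ρ * (4 * l * θ) :=
      mul_le_mul hρl hθ1 zero_le_one hρ.le
    have h6 : l * (10 ^ 14 * l) ≤ l * (4 * (ρ * θ)) := by linarith only [h5]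
    have h7 := le_of_mul_le_mul_left h6 hl0
    linarith
  have hρθ' : 2 * l ≤ 0.0001 * (ρ * θ) := by linarith
  -- existence of the layer
  have hSR : 2 * l < R := by linarith
  obtain ⟨ξ₁, χ, hξ, hOL⟩ := h8 k R (2 * l) hk (by positivity) hSR (by
    have e1 : Real.exp (2 * l) = ρ ^ 2 := by
      rw [two_mul, Real.exp_add, he]; ring
    have e2 : 1 / ρ - 1 / (R - 2 * l) = (R - 2 * l - ρ) / (ρ * (R - 2 * l)) := by
      have : R - 2 * l ≠ 0 := by linarith
      field_simp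
    rw [hk2, e1, e2]
    have e3 : 0.9999 * (ρ * θ) ≤ R - 2 * l - ρ := by rw [hRθ]; linarith
    have e4 : R - 2 * l ≤ 2 * ρ := by linarith
    have e5 : 0 < R - 2 * l := by linarith
    rw [div_mul_eq_mul_div, le_div_iff₀ (by positivity), one_mul]
    have e6 : ρ * (R - 2 * l) ≤ 2 * ρ ^ 2 := by
      have := mul_le_mul_of_nonneg_left e4 hρ.le
      linarith only [this]
    have e7 : 4 ≤ 0.9999 * (ρ * θ) := by linarith only [hρθ, hl1]
    have e8 : ρ ^ 2 / 2 ≤ ρ ^ 2 - 1 := by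
      have : (10 : ℝ) ^ 14 * 10 ^ 14 ≤ ρ * ρ := mul_le_mul hρ14 hρ14 (by positivity) hρ.le
      linarith only [this]
    calc ρ * (R - 2 * l) ≤ 2 * ρ ^ 2 := e6
      _ = 4 * (ρ ^ 2 / 2) := by ring
      _ ≤ (R - 2 * l - ρ) * (ρ ^ 2 - 1) :=
        mul_le_mul (e7.trans e3) e8 (by positivity) (by linarith))
  obtain ⟨w, hw⟩ := h1 k R ξ₁ χ hOL
  have hξ0 : 0 < ξ₁ := hOL.pos
  have hξR : ξ₁ < R := hOL.lt
  have hξρ : ρ ≤ ξ₁ := by
    have : ρ * θ ≤ R - ρ := by rw [hRθ]; linarith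
    linarith
  have hξ1 : 1 ≤ ξ₁ := by
    linarith only [hρ14, hξρ]
  have hσ0 : 0 < w.σ := w.σ_pos
  have hσ2 : w.σ ≤ 2 * l := by rw [hw.sig]; linarith
  obtain ⟨q1, q2, q3, q4⟩ := h4 k R ξ₁ χ w hk.le hξ1 hw
  obtain ⟨-, p2, p3, p4, p5, -⟩ := h3 k R ξ₁ χ w hk.le hξ1 hw
  set a := w.w 0 with ha
  have ha1 : 1 ≤ a := w.one_le 0
  have ha2 : 0 < a ^ 2 := by positivity
  -- upper bound for `a ^ 2 θ`
  have hU : θ * a ^ 2 ≤ 1.001 * R := by
    rw [hk2, hk2'] at q1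
    have e1 : (ξ₁ - ρ) * a ^ 2 ≤ (ρ + 1) * ξ₁ := by
      have e2 : (1 / ρ - 1 / ξ₁) * a ^ 2 * (ρ * ξ₁) ≤ (1 + 1 / ρ) * (ρ * ξ₁) :=
        mul_le_mul_of_nonneg_right q1 (by positivity)
      have e3 : (1 / ρ - 1 / ξ₁) * a ^ 2 * (ρ * ξ₁) = (ξ₁ - ρ) * a ^ 2 := by
        field_simp
      have e4 : (1 + 1 / ρ) * (ρ * ξ₁) = (ρ + 1) * ξ₁ := by
        field_simp
      rwa [e3, e4] at e2
    have e2 : 0.9999 * (ρ * θ) ≤ ξ₁ - ρ := by
      have : R - ρ = ρ * θ := by rw [hRθ]; ring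
      linarith
    have e3 : 0.9999 * (ρ * θ) * a ^ 2 ≤ (ξ₁ - ρ) * a ^ 2 :=
      mul_le_mul_of_nonneg_right e2 ha2.le
    have e4 : (ρ + 1) * ξ₁ ≤ 1.0001 * ρ * R :=
      mul_le_mul (by linarith only [hρ14]) hξR.le hξ0.le (by positivity)
    have e5 : ρ * (0.9999 * (θ * a ^ 2)) ≤ ρ * (1.0001 * R) := by linarith
    have e6 := le_of_mul_le_mul_left e5 hρ
    linarith
  -- lower bound
  have hLo : 0.999 * R ≤ θ * a ^ 2 := by
    rw [hk2] at q2
    have e1 : 1 ≤ (1 / ρ - 1 / R + 1 / ρ * w.σ / R) * a ^ 2 := by linarith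
    have e2 : 1 * (ρ * R) ≤ (1 / ρ - 1 / R + 1 / ρ * w.σ / R) * a ^ 2 * (ρ * R) :=
      mul_le_mul_of_nonneg_right e1 (by positivity)
    have e3 : (1 / ρ - 1 / R + 1 / ρ * w.σ / R) * a ^ 2 * (ρ * R) = (R - ρ + w.σ) * a ^ 2 := by
      field_simp
    rw [e3] at e2
    have e4 : R - ρ + w.σ ≤ 1.0001 * (ρ * θ) := by
      have : R - ρ = ρ * θ := by rw [hRθ]; ring
      linarith
    have e5 : (R - ρ + w.σ) * a ^ 2 ≤ 1.0001 * (ρ * θ) * a ^ 2 :=
      mul_le_mul_of_nonneg_right e4 ha2.le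
    have e6 : ρ * R ≤ ρ * (1.0001 * (θ * a ^ 2)) := by linarith
    have e7 := le_of_mul_le_mul_left e6 hρ
    linarith
  -- bounds for `a ^ 2`
  have hU' : a ^ 2 ≤ 4.004 * l * R := by
    have e1 : 1 * a ^ 2 ≤ 4 * l * θ * a ^ 2 := mul_le_mul_of_nonneg_right hθ1 ha2.le
    have e2 : 4 * l * (θ * a ^ 2) ≤ 4 * l * (1.001 * R) :=
      mul_le_mul_of_nonneg_left hU (by positivity)
    linarith
  have hLo' : 1.665 * l * R ≤ a ^ 2 := by
    have e1 : 5 * l * θ * a ^ 2 ≤ 3 * a ^ 2 := mul_le_mul_of_nonneg_right hθ2 ha2.le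
    have e2 : 5 * l * (0.999 * R) ≤ 5 * l * (θ * a ^ 2) :=
      mul_le_mul_of_nonneg_left hLo (by positivity)
    linarith
  have hlρ : 0 < l * ρ := by positivity
  have hlR : l * R ≤ 1.001 * (l * ρ) := by
    have := mul_le_mul_of_nonneg_left hRρ hl0.le
    linarith only [this]
  have hlR' : l * ρ ≤ l * R := mul_le_mul_of_nonneg_left hρR hl0.le
  have hU'' : a ^ 2 ≤ 4.01 * (l * ρ) := by linarith
  have hLo'' : 1.665 * (l * ρ) ≤ a ^ 2 := by linarith
  -- thickness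
  have hσ3 : w.σ ≤ 0.5005 * l := by
    have e1 : Real.cosh w.σ ≤ a := q4 (by
      have : 1 / ξ₁ ≤ 1 / ρ := one_div_le_one_div_of_le hρ hξρ
      linarith)
    have e2 : Real.exp w.σ ≤ 2 * a := by
      rw [Real.cosh_eq] at e1
      have := Real.exp_pos (-w.σ)
      linarith
    have e3 : Real.exp (2 * w.σ) ≤ Real.exp (1.001 * l) := by
      calc Real.exp (2 * w.σ) = Real.exp w.σ ^ 2 := by
            rw [two_mul, Real.exp_add, sq]
        _ ≤ (2 * a) ^ 2 := pow_le_pow_left₀ (Real.exp_pos _).le e2 2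
        _ ≤ 20 * l * ρ := by linarith only [hU'', hlρ]
        _ ≤ Real.exp (0.001 * l) * Real.exp l := by
            rw [he]
            exact mul_le_mul_of_nonneg_right hexp hρ.le
        _ = Real.exp (1.001 * l) := by
            rw [← Real.exp_add]; congr 1; ring
    have e4 := Real.exp_le_exp.mp e3
    linarith
  have hkσ : l / 2 ≤ k * w.σ := by
    have e1 : a ≤ Real.exp (k * w.σ) := by
      refine q3.trans ?_
      rw [Real.cosh_eq]
      have : Real.exp (-(k * w.σ)) ≤ Real.exp (k * w.σ) :=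
        Real.exp_le_exp.mpr (by linarith only [mul_pos (lt_trans one_pos hk) hσ0])
      linarith
    have e2 : Real.exp l ≤ Real.exp (2 * (k * w.σ)) := by
      calc Real.exp l = ρ := he
        _ ≤ a ^ 2 := by
            have := mul_le_mul_of_nonneg_right hl1 hρ.le
            linarith only [this, hLo'', hlρ]
        _ ≤ Real.exp (k * w.σ) ^ 2 := pow_le_pow_left₀ (by linarith) e1 2
        _ = Real.exp (2 * (k * w.σ)) := by rw [two_mul, Real.exp_add, sq]
    have e3 := Real.exp_le_exp.mp e2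
    linarith
  have hk2σ : 1 / 2 * l ≤ k ^ 2 * w.σ := by
    have : 1 * (k * w.σ) ≤ k * (k * w.σ) :=
      mul_le_mul_of_nonneg_right hk.le (mul_pos (lt_trans one_pos hk) hσ0).le
    linarith only [this, hkσ]
  have hk2σ' : k ^ 2 * w.σ ≤ 0.501 * l := by
    have e0 : k ^ 2 ≤ 1.0001 := by
      rw [hk2']; norm_num at hinv ⊢; linarith
    calc k ^ 2 * w.σ ≤ 1.0001 * (0.5005 * l) := mul_le_mul e0 hσ3 hσ0.le (by norm_num)
      _ ≤ 0.501 * l := by linarith only [hl0]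
  -- price, upper bounds
  have hq_up : ∀ c : ℝ, c * l * R ≤ a ^ 2 → w.q k ≤ 0.501 * l - c / 2 * l + 0.001 * l := by
    intro c hc
    have e1 : c / 2 * l - 0.001 * l ≤ (a ^ 2 - 1) / (2 * R) := by
      rw [le_div_iff₀ (by positivity)]
      have : (1 : ℝ) ≤ 0.002 * l * R := by
        have h5 : (1 : ℝ) * 10 ^ 14 ≤ l * R := mul_le_mul hl1 (hρ14.trans hρR) (by positivity) hl0.le
        linarith only [h5]
      linarith only [this, hc]
    linarith only [e1, p2, hk2σ']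
  have hq_lo : ∀ c : ℝ, a ^ 2 ≤ c * l * R → 0.5 * l - c / 1.998 * l ≤ w.q k := by
    intro c hc
    have e0 : 0.999 * R ≤ ξ₁ := by linarith only [hξ, hρbig, hρR, hl0, hRρ]
    have e1 : (a ^ 2 - 1) / (2 * ξ₁) ≤ c / 1.998 * l := by
      rw [div_le_iff₀ (by positivity)]
      have hc0 : 0 < c := by
        by_contra hcon
        rw [not_lt] at hcon
        have : c * l * R ≤ 0 := by
          rw [mul_assoc]
          exact mul_nonpos_of_nonpos_of_nonneg hcon (by positivity)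
        linarith
      have e2 : c / 1.998 * l * (2 * (0.999 * R)) ≤ c / 1.998 * l * (2 * ξ₁) :=
        mul_le_mul_of_nonneg_left (by linarith) (by positivity)
      have e3 : c / 1.998 * l * (2 * (0.999 * R)) = c * l * R := by ring
      linarith
    linarith
  refine ⟨ξ₁, χ, w, hw, by linarith, ?_, ?_, hk2σ, ?_, by linarith, ?_, ?_, ?_⟩
  · have := hq_up 1.665 hLo'
    linarith
  · have := hq_lo 4.004 hU'
    norm_num at this
    linarith
  · refine p4.trans ?_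
    linarith only [hU'', hlρ]
  · -- last inequality
    have e1 : 1 / (2.001 * ρ) ≤ k - 1 := by
      rw [div_le_iff₀ (by positivity)]
      have : ρ * ((k - 1) * (k + 1)) = 1 := by
        have h6 : ρ * ((k - 1) * (k + 1)) = ρ * (k ^ 2 - 1) := by ring
        exact h6.trans hkρ
      have h5 : ρ * ((k - 1) * (k + 1)) ≤ ρ * ((k - 1) * 2.001) :=
        mul_le_mul_of_nonneg_left (mul_le_mul_of_nonneg_left (by linarith) (by linarith)) hρ.le
      linarith
    have e2 : 0.748 * l ≤ (k - 1) * (0.9 * a ^ 2) := by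
      calc 0.748 * l ≤ 1 / (2.001 * ρ) * (0.9 * (1.665 * (l * ρ))) := by
            rw [div_mul_eq_mul_div, le_div_iff₀ (by positivity)]
            linarith only [hlρ]
        _ ≤ (k - 1) * (0.9 * a ^ 2) :=
            mul_le_mul e1 (by linarith) (by positivity) (by linarith)
    have e3 : Real.log (0.9 * a ^ 2) ≤ 1.001 * l := by
      rw [Real.log_le_iff_le_exp (by positivity)]
      calc 0.9 * a ^ 2 ≤ 20 * l * ρ := by linarith only [hU'', hlρ]
        _ ≤ Real.exp (0.001 * l) * Real.exp l := by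
            rw [he]
            exact mul_le_mul_of_nonneg_right hexp hρ.le
        _ = Real.exp (1.001 * l) := by
            rw [← Real.exp_add]; congr 1; ring
    have e4 : 0.6 * k * Real.log (0.9 * a ^ 2) ≤ 0.6 * 1.001 * (1.001 * l) := by
      have h5 : 0.6 * k * Real.log (0.9 * a ^ 2) ≤ 0.6 * k * (1.001 * l) :=
        mul_le_mul_of_nonneg_left e3 (by positivity)
      have h6 : 0.6 * k * (1.001 * l) ≤ 0.6 * 1.001 * (1.001 * l) :=
        mul_le_mul_of_nonneg_right (by linarith) (by positivity)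
      linarith
    norm_num at hl e2 e4 ⊢
    linarith
  · intro hReq
    have hθeq : 4 * l * θ = 1 := by
      rw [hθ, hReq]; field_simp; ring
    have e1 : 3.996 * l * R ≤ a ^ 2 := by
      have e2 : 4 * l * (0.999 * R) ≤ 4 * l * (θ * a ^ 2) :=
        mul_le_mul_of_nonneg_left hLo (by positivity)
      have e3 : 4 * l * (θ * a ^ 2) = a ^ 2 := by
        rw [← mul_assoc, hθeq, one_mul]
      linarith
    have := hq_up 3.996 e1
    linarith
  · intro hReq
    have hθeq : 5 * l * θ = 3 := by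
      rw [hθ, hReq]; field_simp; ring
    have e1 : a ^ 2 ≤ 1.6684 * l * R := by
      have e2 : 5 * l * (θ * a ^ 2) ≤ 5 * l * (1.001 * R) :=
        mul_le_mul_of_nonneg_left hU (by positivity)
      have e3 : 5 * l * (θ * a ^ 2) = 3 * a ^ 2 := by
        rw [← mul_assoc, hθeq]
      have : 0 < l * R := by positivity
      linarith
    have := hq_lo 1.6684 e1
    norm_num at this ⊢
    linarith

end Pool.Agent.Robin

end

section

/-!
# MP_4b551e_an, item H2: inner layers near ρ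
-/

open MeasureTheory Set Metric
open scoped ENNReal NNReal

namespace Pool.Agent.Robin

theorem prf_H2 (h2 : S_G2) (h5 : S_G5) (h6 : S_G6) (h9 : S_G9) : S_H2 := by
  refine ⟨Real.exp 200, Real.one_lt_exp_iff.2 (by norm_num), ?_⟩
  intro k ρ r hk hρk hL hr1 hr2
  have hρ200 : (201:ℝ) ≤ ρ := by
    have := Real.add_one_le_exp (200:ℝ)
    linarith
  have hρ0 : 0 < ρ := by linarith
  have hr0 : 0 < r := by linarith
  obtain ⟨ξ₂, χ, hIL⟩ := h9 k r hk hr0
  obtain ⟨v, hv⟩ := h2 k r ξ₂ χ hIL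
  obtain ⟨_, q1, q2, hm, _⟩ := h5 k r ξ₂ χ v hk.le hv
  obtain ⟨a1, a2, _, a4, a5⟩ := h6 k r ξ₂ χ v hk.le hv
  have hξ : r < ξ₂ := hIL.lt
  have hτ : 0 < v.σ := v.σ_pos
  have hb1 : 1 ≤ v.w 0 := v.one_le 0
  set b : ℝ := v.w 0 with hb
  set τ : ℝ := v.σ with hτd
  set l : ℝ := Real.log ρ with hl
  have hl200 : 200 ≤ l := (Real.le_log_iff_exp_le hρ0).2 hL
  have hk2 : k ^ 2 = 1 + 1 / ρ := by
    field_simp
    linarith
  have hinv : 1 / ρ ≤ 1 / 201 := one_div_le_one_div_of_le (by norm_num) hρ200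
  have hinv0 : 0 < 1 / ρ := by positivity
  have hρi : ρ * (1 / ρ) = 1 := by field_simp
  have hbsq1 : 1 ≤ b ^ 2 := one_le_pow₀ hb1
  -- upper bound for b
  have hb2 : b ^ 2 ≤ ρ + 1 := by
    have h := mul_le_mul_of_nonneg_left a1 hρ0.le
    have e1 : ρ * ((k ^ 2 - 1) * b ^ 2) = b ^ 2 := by rw [← mul_assoc, hρk, one_mul]
    have e2 : ρ * k ^ 2 = ρ + 1 := by rw [hk2]; field_simp
    rw [e1, e2] at h
    exact h
  -- lower bound for b
  have hr3 : 1 / r ≤ 2 * (1 / ρ) := by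
    rw [mul_one_div, div_le_div_iff₀ hr0 hρ0]
    linarith
  have hb3 : ρ ≤ 3 * b ^ 2 := by
    have h3 : k ^ 2 ≤ 3 * (1 / ρ) * b ^ 2 := by
      refine a2.trans ?_
      apply mul_le_mul_of_nonneg_right _ (sq_nonneg _)
      rw [hk2]
      linarith
    have h4 := mul_le_mul_of_nonneg_left h3 hρ0.le
    have e1 : ρ * (3 * (1 / ρ) * b ^ 2) = 3 * b ^ 2 := by field_simp
    have e2 : ρ * k ^ 2 = ρ + 1 := by rw [hk2]; field_simp
    rw [e1, e2] at h4
    linarith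
  refine ⟨ξ₂, χ, v, hv, ?_, ?_, ?_⟩
  · linarith
  · -- lower bound for q
    set K : ℝ := Real.sqrt (k ^ 2 + 1 / r) with hK
    have hK1 : K ≤ 1.01 := by
      rw [hK, Real.sqrt_le_left (by norm_num)]
      rw [hk2]
      have : 1 / r ≤ 2 / 201 := by linarith
      norm_num at this hinv ⊢
      linarith
    have hK0 : 0 ≤ K := Real.sqrt_nonneg _
    have hcosh : b ≤ Real.exp (K * τ) := by
      refine a5.trans ?_
      rw [Real.cosh_eq]
      have h1 : Real.exp (-(K * τ)) ≤ Real.exp (K * τ) := by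
        apply Real.exp_le_exp.2
        have : 0 ≤ K * τ := mul_nonneg hK0 hτ.le
        linarith
      linarith
    have hlogb : Real.log (b ^ 2) ≤ 2 * (K * τ) := by
      rw [Real.log_pow]
      have h1 : Real.log b ≤ K * τ := (Real.log_le_iff_le_exp (by linarith)).2 hcosh
      push_cast
      linarith
    have hlogb2 : l - Real.log 3 ≤ Real.log (b ^ 2) := by
      have h1 : Real.log ρ ≤ Real.log (3 * b ^ 2) := Real.log_le_log hρ0 hb3
      rw [Real.log_mul (by norm_num) (by positivity)] at h1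
      linarith
    have hlog3 : Real.log 3 ≤ 2 := by
      rw [Real.log_le_iff_le_exp (by norm_num)]
      have := Real.add_one_le_exp (2:ℝ)
      linarith
    have hq : τ ≤ v.q k := by
      refine le_trans ?_ q2
      have h1 : τ ≤ k ^ 2 * τ := by
        have : 1 ≤ k ^ 2 := one_le_pow₀ hk.le
        exact le_mul_of_one_le_left hτ.le this
      have h2 : 0 ≤ (b ^ 2 - 1) / (2 * ξ₂) := by
        apply div_nonneg (by linarith)
        linarith
      linarith
    have h5 : K * τ ≤ 1.01 * τ := mul_le_mul_of_nonneg_right hK1 hτ.le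
    have h6 : l - 2 ≤ 2.02 * τ := by linarith
    have h7 : 0.45 * l ≤ τ := by
      norm_num at h6 ⊢
      linarith
    linarith
  · -- upper bound for q
    have hexp : Real.exp τ ≤ 2 * b := by
      have h1 : Real.exp (k * τ) / 2 ≤ Real.cosh (k * τ) := by
        rw [Real.cosh_eq]
        have := Real.exp_pos (-(k * τ))
        linarith
      have h2 : Real.exp τ ≤ Real.exp (k * τ) := by
        apply Real.exp_le_exp.2
        exact le_mul_of_one_le_left hτ.le hk.le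
      linarith
    have hb4 : b ^ 2 ≤ Real.exp (l + 1) := by
      have h1 : Real.exp (l + 1) = ρ * Real.exp 1 := by
        rw [Real.exp_add, hl, Real.exp_log hρ0]
      rw [h1]
      have h2 : (2:ℝ) ≤ Real.exp 1 := by
        have := Real.add_one_le_exp (1:ℝ)
        linarith
      nlinarith
    have h3 : (Real.exp τ) ^ 2 ≤ 4 * b ^ 2 := by
      have := pow_le_pow_left₀ (Real.exp_pos τ).le hexp 2
      linarith
    have h4 : Real.exp (2 * τ) ≤ Real.exp (l + 4) := by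
      have e1 : Real.exp (2 * τ) = (Real.exp τ) ^ 2 := by
        rw [← Real.exp_nat_mul]
        push_cast
        ring_nf
      have e2 : Real.exp (l + 4) = Real.exp (l + 1) * Real.exp 3 := by
        rw [← Real.exp_add]
        ring_nf
      have e3 : (4:ℝ) ≤ Real.exp 3 := by
        have := Real.add_one_le_exp (3:ℝ)
        linarith
      rw [e1, e2]
      have := Real.exp_pos (l + 1)
      nlinarith
    have h5 : 2 * τ ≤ l + 4 := Real.exp_le_exp.1 h4
    have h6 : (b ^ 2 - 1) / (2 * r) ≤ 1 := by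
      rw [div_le_one (by linarith)]
      linarith
    have h7 : k ^ 2 * τ ≤ 1.01 * τ := by
      apply mul_le_mul_of_nonneg_right _ hτ.le
      rw [hk2]
      norm_num at hinv ⊢
      linarith
    have h8 : v.q k ≤ 1.01 * τ + 1 := by linarith
    norm_num at h8 ⊢
    linarith

end Pool.Agent.Robin

end

section

/-!
# MP_4b551e_an, item H3: pairs of profiles for the near-round comparison
-/

open MeasureTheory Set Metric
open scoped ENNReal NNReal Pointwise RealInnerProductSpace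

namespace Pool.Agent.Robin

namespace IH3

theorem log_le {l : ℝ} (hl : 0 < l) : Real.log l ≤ l / 40 + 3 := by
  have h1 : Real.log (l / 40) ≤ l / 40 - 1 := Real.log_le_sub_one_of_pos (by positivity)
  have h2 : Real.log 40 ≤ 4 := by
    rw [Real.log_le_iff_le_exp (by norm_num)]
    have h3 := Real.exp_one_gt_d9
    have h4 : Real.exp 4 = Real.exp 1 ^ 4 := by
      rw [← Real.exp_nat_mul]
      norm_num
    rw [h4]
    have h5 : (2.7 : ℝ) ^ 4 ≤ Real.exp 1 ^ 4 :=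
      pow_le_pow_left₀ (by norm_num) (by linarith) 4
    refine le_trans ?_ h5
    norm_num
  rw [Real.log_div hl.ne' (by norm_num)] at h1
  linarith

end IH3

theorem prf_H3 (hF2 : S_F2) (h3 : S_G3) (h5 : S_G5) (h7 : S_G7) (hH1 : S_H1) (hH2 : S_H2) :
    S_H3 := by
  obtain ⟨L1, hL1, H1⟩ := hH1
  obtain ⟨L2, hL2, H2⟩ := hH2
  refine ⟨max (max L1 L2) (Real.exp 100), ?_, ?_⟩
  · exact hL1.trans_le ((le_max_left _ _).trans (le_max_left _ _))
  intro k A ρ R hP hρ hR1 hR2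
  have hρ1 : L1 ≤ ρ := ((le_max_left _ _).trans (le_max_left _ _)).trans hρ
  have hρ2 : L2 ≤ ρ := ((le_max_right _ _).trans (le_max_left _ _)).trans hρ
  have hρ3 : Real.exp 100 ≤ ρ := (le_max_right _ _).trans hρ
  have hρ0 : 0 < ρ := (Real.exp_pos _).trans_le hρ3
  set l := Real.log ρ with hl
  have hl100 : 100 ≤ l := (Real.le_log_iff_exp_le hρ0).2 hρ3
  have hexp : Real.exp l = ρ := Real.exp_log hρ0
  have hl0 : 0 < l := by linarith
  have hπ := Real.pi_pos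
  have hlog : Real.log l ≤ l / 40 + 3 := IH3.log_le hl0
  have hA1 : A ≤ 2.4 * Real.pi * ρ * l := by
    refine hP.up.trans ?_
    have h1 : Real.log ρ + Real.log (Real.log ρ) / 2 + 3 ≤ 1.2 * l := by
      rw [← hl]
      linarith
    have h2 : 0 ≤ 2 * Real.pi * ρ := by positivity
    calc 2 * Real.pi * ρ * (Real.log ρ + Real.log (Real.log ρ) / 2 + 3)
        ≤ 2 * Real.pi * ρ * (1.2 * l) := mul_le_mul_of_nonneg_left h1 h2
      _ = 2.4 * Real.pi * ρ * l := by ring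
  have hA0 : 0 < A := by
    refine lt_of_lt_of_le ?_ hP.low
    have h1 : 0 < Real.log ρ - 3 := by rw [← hl]; linarith
    positivity
  have hρl : 4.8 * l ^ 2 ≤ ρ := by
    have h1 := Real.pow_div_factorial_le_exp l hl0.le 3
    rw [hexp] at h1
    have h2 : ((Nat.factorial 3 : ℕ) : ℝ) = 6 := by norm_num [Nat.factorial]
    rw [h2] at h1
    refine le_trans ?_ h1
    rw [le_div_iff₀ (by norm_num)]
    have h4 : 0 ≤ (l - 100) * l ^ 2 := mul_nonneg (by linarith) (sq_nonneg _)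
    nlinarith [sq_nonneg l]
  have hRρ : ρ ≤ R := by
    refine le_trans ?_ hR1
    have h1 : 0 ≤ 1 / (4 * l) := by positivity
    nlinarith
  have hR0 : 0 < R := hρ0.trans_le hRρ
  have hRsq : ρ ^ 2 + ρ ^ 2 / (2 * l) ≤ R ^ 2 := by
    have h1 : (ρ * (1 + 1 / (4 * l))) ^ 2 ≤ R ^ 2 := pow_le_pow_left₀ (by positivity) hR1 2
    have h2 : (ρ * (1 + 1 / (4 * l))) ^ 2 = ρ ^ 2 + ρ ^ 2 / (2 * l) + (ρ / (4 * l)) ^ 2 := by
      field_simp
      ring
    have h3 := sq_nonneg (ρ / (4 * l))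
    linarith
  have hAπ : A / Real.pi ≤ 2.4 * ρ * l := by
    rw [div_le_iff₀ hπ]
    linarith
  have h24 : 2.4 * ρ * l ≤ ρ ^ 2 / (2 * l) := by
    rw [le_div_iff₀ (by positivity)]
    nlinarith [mul_le_mul_of_nonneg_left hρl hρ0.le]
  have hD : ρ ^ 2 ≤ R ^ 2 - A / Real.pi := by linarith
  obtain ⟨r, hr⟩ : ∃ r, r = Real.sqrt (R ^ 2 - A / Real.pi) := ⟨_, rfl⟩
  have hr2 : r ^ 2 = R ^ 2 - A / Real.pi := by
    rw [hr]
    exact Real.sq_sqrt ((sq_nonneg _).trans hD)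
  have hρr : ρ ≤ r := by
    rw [hr]
    exact Real.le_sqrt_of_sq_le hD
  have hr0 : 0 < r := hρ0.trans_le hρr
  have hrR : r < R := by
    have h1 : 0 < A / Real.pi := by positivity
    exact lt_of_pow_lt_pow_left₀ 2 hR0.le (by linarith)
  have hArea : Real.pi * (R ^ 2 - r ^ 2) = A := by
    rw [hr2]
    field_simp
    ring
  have hR2ρ : R ≤ 2 * ρ := by
    refine hR2.trans ?_
    have h1 : 3 / (5 * l) ≤ 1 := by
      rw [div_le_one (by positivity)]
      linarith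
    nlinarith
  obtain ⟨ξ₁, χ₁, w, hw, w1, w2, w3, w4, w5, w6, w7, w8, w9⟩ :=
    H1 k ρ R hP.one_lt hP.rho hρ1 hR1 hR2
  obtain ⟨ξ₂, χ₂, v, hv, v1, v2, v3⟩ := H2 k ρ r hP.one_lt hP.rho hρ2 (by linarith) (by linarith)
  obtain ⟨κ, χ, hGS⟩ := hF2 r R hr0 hrR
  have hkκ : k ≤ κ := hP.lev r R κ χ hGS hArea
  have hξ := h7 r R κ k ξ₁ ξ₂ χ χ₁ χ₂ hP.one_lt.le hkκ hGS hw.ol hv.il
  have hξ1 : 1 ≤ ξ₁ := by
    have h1 := hw.sig
    have h2 := Real.add_one_le_exp l
    rw [hexp] at h2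
    linarith
  obtain ⟨g1, -⟩ := h3 k R ξ₁ χ₁ w hP.one_lt.le hξ1 hw
  obtain ⟨g2, -, -, -, g3⟩ := h5 k r ξ₂ χ₂ v hP.one_lt.le hv
  refine ⟨r, w, v, hr0, hrR, hArea, by linarith, w1, w2, w3, w5, w6, w7, g3, v1, v2, v3, ?_,
    w8, w9⟩
  rw [g1, g2, ← hArea]
  have h1 : k ^ 2 * (Real.pi * (R ^ 2 - r ^ 2)) - 2 * Real.pi * (k ^ 2 * (R ^ 2 - ξ₁ ^ 2) / 2) -
      2 * Real.pi * (k ^ 2 * (ξ₂ ^ 2 - r ^ 2) / 2) = -(k ^ 2 * Real.pi * (ξ₂ ^ 2 - ξ₁ ^ 2)) := by
    ring
  rw [h1]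
  have h2 : ξ₁ ^ 2 ≤ ξ₂ ^ 2 := pow_le_pow_left₀ (by linarith) hξ 2
  have h4 : 0 ≤ k ^ 2 * Real.pi * (ξ₂ ^ 2 - ξ₁ ^ 2) := mul_nonneg (by positivity) (by linarith)
  linarith

end Pool.Agent.Robin

end

section

/-!
MP_4b551e_an: common part of items G3 and G5 (profiles of layers).
-/

open MeasureTheory Set Metric Filter Topology

namespace Pool.Agent.Robin

/-- A layer profile: `w' = - c w`, `c' = - (k² - c² + e c / (X + e s))`. -/
structure Lay (k X e σ : ℝ) (c : ℝ → ℝ) (w : Profile) : Prop where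
  pos : 0 < σ
  sig : w.σ = σ
  xpos : ∀ s ∈ Icc (0 : ℝ) σ, 0 < X + e * s
  dval : ∀ s ∈ Icc (0 : ℝ) σ, w.dw s = - (c s * w.w s)
  c0 : c 0 = 1
  cσ : c σ = 0
  cr : ∀ s ∈ Icc (0 : ℝ) σ, 0 ≤ c s ∧ c s ≤ 1
  cd : ∀ s ∈ Ioo (0 : ℝ) σ, HasDerivAt c (-(k ^ 2 - c s ^ 2 + e * c s / (X + e * s))) s

namespace Lay

variable {k X e σ : ℝ} {c : ℝ → ℝ} {w : Profile}

theorem dd (h : Lay k X e σ c w) : ∀ s ∈ Ioo (0 : ℝ) σ,
    HasDerivAt w.dw (k ^ 2 * w.w s - e * w.dw s / (X + e * s)) s := by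
  intro s hs
  have hs' : s ∈ Icc (0 : ℝ) σ := ⟨hs.1.le, hs.2.le⟩
  have h1 := ((h.cd s hs).mul (w.deriv s hs.1)).neg
  have h2 : w.dw =ᶠ[𝓝 s] (fun x => -(c x * w.w x)) := by
    filter_upwards [Ioo_mem_nhds hs.1 hs.2] with x hx
    exact h.dval x ⟨hx.1.le, hx.2.le⟩
  have h3 : HasDerivAt (fun x => -(c x * w.w x))
      (-(-(k ^ 2 - c s ^ 2 + e * c s / (X + e * s)) * w.w s + c s * w.dw s)) s := h1
  refine (h3.congr_of_eventuallyEq h2).congr_deriv ?_
  have hx := (h.xpos s hs').ne'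
  rw [h.dval s hs']
  field_simp
  ring

theorem wc (w : Profile) (σ : ℝ) : ContinuousOn w.w (Icc 0 σ) := w.w_cont.continuousOn

theorem dwc (w : Profile) (σ : ℝ) : ContinuousOn w.dw (Icc 0 σ) :=
  w.dw_cont.mono fun _ hx => hx.1

theorem ii {f : ℝ → ℝ} {σ : ℝ} (hσ : 0 ≤ σ) (h : ContinuousOn f (Icc 0 σ)) :
    IntervalIntegrable f volume 0 σ := by
  apply ContinuousOn.intervalIntegrable
  rwa [uIcc_of_le hσ]

theorem lin (X e σ : ℝ) : ContinuousOn (fun s => X + e * s) (Icc 0 σ) := by fun_prop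

theorem wσ (h : Lay k X e σ c w) : w.w σ = 1 := w.eq_one σ h.sig.le

theorem dwσ (h : Lay k X e σ c w) : w.dw σ = 0 := w.dw_zero σ h.sig.le

theorem dw0 (h : Lay k X e σ c w) : w.dw 0 = - w.w 0 := by
  rw [h.dval 0 ⟨le_rfl, h.pos.le⟩, h.c0, one_mul]

theorem int1 (h : Lay k X e σ c w) :
    ∫ s in (0 : ℝ)..σ, (X + e * s) * ((w.dw s) ^ 2 + k ^ 2 * (w.w s) ^ 2) = X * (w.w 0) ^ 2 := by
  have hw := wc w σ
  have hdw := dwc w σ
  have hx := lin X e σ
  rw [intervalIntegral.integral_eq_sub_of_hasDerivAt_of_le h.pos.le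
    (f := fun s => (X + e * s) * (w.w s * w.dw s)) (by fun_prop) ?_
    (ii h.pos.le (by fun_prop))]
  · rw [h.dwσ, h.dw0]; ring
  · intro s hs
    have h1 : HasDerivAt (fun s => X + e * s) e s := by
      simpa using ((hasDerivAt_id s).const_mul e).const_add X
    have h2 := h1.mul ((w.deriv s hs.1).mul (h.dd s hs))
    refine h2.congr_deriv ?_
    have hx := (h.xpos s ⟨hs.1.le, hs.2.le⟩).ne'
    simp only [Pi.mul_apply]
    field_simp
    ring

theorem int2 (h : Lay k X e σ c w) :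
    ∫ s in (0 : ℝ)..σ, ((w.dw s) ^ 2 + k ^ 2 * (w.w s) ^ 2) =
      (w.w 0) ^ 2 - e * ∫ s in (0 : ℝ)..σ, -(w.w s * w.dw s) / (X + e * s) := by
  have hw := wc w σ
  have hdw := dwc w σ
  have hx := lin X e σ
  have hx0 : ∀ s ∈ Icc (0 : ℝ) σ, X + e * s ≠ 0 := fun s hs => (h.xpos s hs).ne'
  have hq : ContinuousOn (fun s => -(w.w s * w.dw s) / (X + e * s)) (Icc 0 σ) :=
    (hw.mul hdw).neg.div hx hx0
  have hg : ContinuousOn (fun s => (w.dw s) ^ 2 + k ^ 2 * (w.w s) ^ 2) (Icc 0 σ) := by fun_prop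
  have hq' : ContinuousOn (fun s => e * (-(w.w s * w.dw s) / (X + e * s))) (Icc 0 σ) :=
    continuousOn_const.mul hq
  have hgq : ContinuousOn (fun s => ((w.dw s) ^ 2 + k ^ 2 * (w.w s) ^ 2) +
      e * (-(w.w s * w.dw s) / (X + e * s))) (Icc 0 σ) := hg.add hq'
  have key : ∫ s in (0 : ℝ)..σ, (((w.dw s) ^ 2 + k ^ 2 * (w.w s) ^ 2) +
      e * (-(w.w s * w.dw s) / (X + e * s))) = (w.w 0) ^ 2 := by
    rw [intervalIntegral.integral_eq_sub_of_hasDerivAt_of_le h.pos.le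
      (f := fun s => w.w s * w.dw s) (by fun_prop) ?_
      (ii h.pos.le hgq)]
    · rw [h.dwσ, h.dw0]; ring
    · intro s hs
      have h2 := (w.deriv s hs.1).mul (h.dd s hs)
      refine h2.congr_deriv ?_
      ring
  rw [intervalIntegral.integral_add (ii h.pos.le hg) (ii h.pos.le hq'),
    intervalIntegral.integral_const_mul] at key
  linarith

theorem int3 (h : Lay k X e σ c w) :
    ∫ s in (0 : ℝ)..σ, -(w.w s * w.dw s) = ((w.w 0) ^ 2 - 1) / 2 := by
  have hw := wc w σ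
  have hdw := dwc w σ
  rw [intervalIntegral.integral_eq_sub_of_hasDerivAt_of_le h.pos.le
    (f := fun s => -((w.w s) ^ 2 / 2)) (by fun_prop) ?_ (ii h.pos.le (by fun_prop))]
  · rw [h.wσ]; ring
  · intro s hs
    have h2 := (((w.deriv s hs.1).pow 2).div_const 2).neg
    refine h2.congr_deriv ?_
    push_cast
    ring

theorem intg (h : Lay k X e σ c w) :
    ∫ s in (0 : ℝ)..σ, w.g k s =
      (∫ s in (0 : ℝ)..σ, ((w.dw s) ^ 2 + k ^ 2 * (w.w s) ^ 2)) - k ^ 2 * σ := by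
  have hw := wc w σ
  have hdw := dwc w σ
  have e1 : ∀ s, w.g k s = ((w.dw s) ^ 2 + k ^ 2 * (w.w s) ^ 2) - k ^ 2 := by
    intro s; unfold Profile.g; ring
  simp only [e1]
  rw [intervalIntegral.integral_sub (ii h.pos.le (by fun_prop))
    (intervalIntegrable_const)]
  simp
  ring

theorem idq (h : Lay k X e σ c w) :
    X * w.q k - e * w.m k = k ^ 2 * (X * σ + e * σ ^ 2 / 2) := by
  have hw := wc w σ
  have hdw := dwc w σ
  have hx := lin X e σ
  have h1 := h.int1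
  have hgc : ContinuousOn (fun s => w.g k s) (Icc 0 σ) := by
    unfold Profile.g; fun_prop
  have hgs : ContinuousOn (fun s => w.g k s * s) (Icc 0 σ) := by fun_prop
  have e1 : ∀ s, (X + e * s) * ((w.dw s) ^ 2 + k ^ 2 * (w.w s) ^ 2) =
      (X * w.g k s + e * (w.g k s * s)) + (k ^ 2 * X + k ^ 2 * e * s) := by
    intro s; unfold Profile.g; ring
  simp only [e1] at h1
  rw [intervalIntegral.integral_add (ii h.pos.le (by fun_prop)) (ii h.pos.le (by fun_prop)),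
    intervalIntegral.integral_add (ii h.pos.le (by fun_prop)) (ii h.pos.le (by fun_prop)),
    intervalIntegral.integral_add (ii h.pos.le (by fun_prop)) (ii h.pos.le (by fun_prop)),
    intervalIntegral.integral_const_mul, intervalIntegral.integral_const_mul,
    intervalIntegral.integral_const_mul, intervalIntegral.integral_const_mul, integral_id,
    intervalIntegral.integral_const] at h1
  unfold Profile.q Profile.m
  rw [h.sig]
  simp only [smul_eq_mul] at h1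
  linear_combination (-1 : ℝ) * h1

theorem qeq (h : Lay k X e σ c w) :
    w.q k = k ^ 2 * σ + e * ∫ s in (0 : ℝ)..σ, -(w.w s * w.dw s) / (X + e * s) := by
  unfold Profile.q
  rw [h.sig, h.intg, h.int2]
  ring

theorem nn (_ : Lay k X e σ c w) : ∀ s ∈ Icc (0 : ℝ) σ, 0 ≤ -(w.w s * w.dw s) := by
  intro s hs
  have h1 := w.dw_nonpos s hs.1
  have h2 := w.one_le s
  nlinarith

theorem lo (h : Lay k X e σ c w) {M : ℝ} (hM : 0 < M)
    (hX : ∀ s ∈ Icc (0 : ℝ) σ, X + e * s ≤ M) :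
    ((w.w 0) ^ 2 - 1) / (2 * M) ≤ ∫ s in (0 : ℝ)..σ, -(w.w s * w.dw s) / (X + e * s) := by
  have hw := wc w σ
  have hdw := dwc w σ
  have hx := lin X e σ
  have hx0 : ∀ s ∈ Icc (0 : ℝ) σ, X + e * s ≠ 0 := fun s hs => (h.xpos s hs).ne'
  have hq : ContinuousOn (fun s => -(w.w s * w.dw s) / (X + e * s)) (Icc 0 σ) :=
    (hw.mul hdw).neg.div hx hx0
  have e1 : ((w.w 0) ^ 2 - 1) / (2 * M) = ∫ s in (0 : ℝ)..σ, -(w.w s * w.dw s) / M := by
    rw [intervalIntegral.integral_div, h.int3]; field_simp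
  rw [e1]
  refine intervalIntegral.integral_mono_on h.pos.le (ii h.pos.le (by fun_prop))
    (ii h.pos.le hq) ?_
  intro s hs
  exact div_le_div_of_nonneg_left (h.nn s hs) (h.xpos s hs) (hX s hs)

theorem up (h : Lay k X e σ c w) {M : ℝ} (hM : 0 < M)
    (hX : ∀ s ∈ Icc (0 : ℝ) σ, M ≤ X + e * s) :
    ∫ s in (0 : ℝ)..σ, -(w.w s * w.dw s) / (X + e * s) ≤ ((w.w 0) ^ 2 - 1) / (2 * M) := by
  have hw := wc w σ
  have hdw := dwc w σ
  have hx := lin X e σ
  have hx0 : ∀ s ∈ Icc (0 : ℝ) σ, X + e * s ≠ 0 := fun s hs => (h.xpos s hs).ne'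
  have hq : ContinuousOn (fun s => -(w.w s * w.dw s) / (X + e * s)) (Icc 0 σ) :=
    (hw.mul hdw).neg.div hx hx0
  have e1 : ((w.w 0) ^ 2 - 1) / (2 * M) = ∫ s in (0 : ℝ)..σ, -(w.w s * w.dw s) / M := by
    rw [intervalIntegral.integral_div, h.int3]; field_simp
  rw [e1]
  refine intervalIntegral.integral_mono_on h.pos.le (ii h.pos.le hq)
    (ii h.pos.le (by fun_prop)) ?_
  intro s hs
  exact div_le_div_of_nonneg_left (h.nn s hs) hM (hX s hs)

theorem gz (h : Lay k X e σ c w) {s : ℝ} (hs : σ ≤ s) : w.g k s = 0 := by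
  have h1 := w.eq_one s (h.sig.le.trans hs)
  have h2 := w.dw_zero s (h.sig.le.trans hs)
  unfold Profile.g
  rw [h1, h2]; ring

theorem gnn (w : Profile) (k : ℝ) (s : ℝ) : 0 ≤ w.g k s := by
  unfold Profile.g
  have h2 := w.one_le s
  have : 0 ≤ (w.w s) ^ 2 - 1 := by nlinarith
  positivity

/-- `g` is antitone if `2 k² w - e w' / (X + e s) ≥ 0`. -/
theorem anti (h : Lay k X e σ c w)
    (hp : ∀ s ∈ Ioo (0 : ℝ) σ, 0 ≤ 2 * k ^ 2 * w.w s - e * w.dw s / (X + e * s)) :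
    AntitoneOn (w.g k) (Ici 0) := by
  have hw := wc w σ
  have hdw := dwc w σ
  have hgc : ContinuousOn (fun s => w.g k s) (Icc 0 σ) := by
    unfold Profile.g; fun_prop
  have h1 : AntitoneOn (w.g k) (Icc 0 σ) := by
    refine antitoneOn_of_hasDerivWithinAt_nonpos (convex_Icc 0 σ) hgc
      (f' := fun s => 2 * w.dw s * (2 * k ^ 2 * w.w s - e * w.dw s / (X + e * s))) ?_ ?_
    · intro s hs
      rw [interior_Icc] at hs
      have h2 := ((h.dd s hs).pow 2).add ((((w.deriv s hs.1).pow 2).sub_const 1).const_mul (k ^ 2))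
      have h3 : HasDerivAt (w.g k) _ s := h2
      refine (h3.congr_deriv ?_).hasDerivWithinAt
      push_cast
      ring
    · intro s hs
      rw [interior_Icc] at hs
      have h3 := w.dw_nonpos s hs.1.le
      have h4 := hp s hs
      nlinarith
  intro a ha b hb hab
  by_cases hb1 : b ≤ σ
  · exact h1 ⟨ha, hab.trans hb1⟩ ⟨hb, hb1⟩ hab
  · rw [h.gz (not_le.1 hb1).le]
    exact gnn w k a

end Lay

end Pool.Agent.Robin

end
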