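import Pool.Agent.Work.MP_4b551e_an.Bd.B03
import Pool.Agent.Work.MP_4b551e_an.Bd.B07
import Pool.Agent.Work.MP_4b551e_an.Bd.B08
import Pool.Agent.Work.MP_4b551e_an.Bd.B01
import Pool.Agent.Work.MP_4b551e_an.Bd.B06
import Pool.Agent.Work.MP_4b551e_an.Pf.Ban
import Pool.Agent.Work.MP_4b551e_an.Bd.B02
import Pool.Agent.Work.MP_4b551e_an.Pf.D1
import Pool.Agent.Work.MP_4b551e_an.Pf.Eil
import Pool.Agent.Work.MP_4b551e_an.Bd.B10
import Pool.Agent.Work.MP_4b551e_an.Bd.B05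

/-! Bundle of small proof modules (one section per former module). -/

section

/-!
# MP_4b551e_an: common lemmas on layers (items G4, G6)
-/

open MeasureTheory Set Metric
open scoped ENNReal NNReal Pointwise RealInnerProductSpace

namespace Pool.Agent.Robin

namespace Lay

theorem mono_of {p q : ℝ} {f f' : ℝ → ℝ} (hc : ContinuousOn f (Icc p q))
    (hd : ∀ ξ ∈ Ioo p q, HasDerivAt f (f' ξ) ξ) (h0 : ∀ ξ ∈ Ioo p q, 0 ≤ f' ξ) :
    MonotoneOn f (Icc p q) := by
  refine monotoneOn_of_deriv_nonneg (convex_Icc p q) hc ?_ ?_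
  · rw [interior_Icc]
    exact fun ξ hξ => (hd ξ hξ).differentiableAt.differentiableWithinAt
  · rw [interior_Icc]
    intro ξ hξ
    rw [(hd ξ hξ).deriv]
    exact h0 ξ hξ

theorem anti_of {p q : ℝ} {f f' : ℝ → ℝ} (hc : ContinuousOn f (Icc p q))
    (hd : ∀ ξ ∈ Ioo p q, HasDerivAt f (f' ξ) ξ) (h0 : ∀ ξ ∈ Ioo p q, f' ξ ≤ 0) :
    AntitoneOn f (Icc p q) := by
  refine antitoneOn_of_deriv_nonpos (convex_Icc p q) hc ?_ ?_
  · rw [interior_Icc]
    exact fun ξ hξ => (hd ξ hξ).differentiableAt.differentiableWithinAt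
  · rw [interior_Icc]
    intro ξ hξ
    rw [(hd ξ hξ).deriv]
    exact h0 ξ hξ

/-- a solution of the Riccati equation together with a solution `y` of `y' = χ y` -/
structure Sol (k p q : ℝ) (χ y : ℝ → ℝ) : Prop where
  pos : 0 < p
  lt : p < q
  cχ : ContinuousOn χ (Icc p q)
  dχ : ∀ ξ ∈ Ioo p q, HasDerivAt χ (k ^ 2 - χ ξ ^ 2 - χ ξ / ξ) ξ
  cy : ContinuousOn y (Icc p q)
  dy : ∀ ξ ∈ Ioo p q, HasDerivAt y (χ ξ * y ξ) ξ
  ypos : ∀ ξ ∈ Icc p q, 0 < y ξ

theorem exp_int {p q : ℝ} (hpq : p < q) {χ : ℝ → ℝ} (hχ : ContinuousOn χ (Icc p q)) (c : ℝ) :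
    ContinuousOn (fun ξ => Real.exp ((∫ t in p..ξ, χ t) + c)) (Icc p q) ∧
    ∀ ξ ∈ Ioo p q, HasDerivAt (fun ξ => Real.exp ((∫ t in p..ξ, χ t) + c))
      (χ ξ * Real.exp ((∫ t in p..ξ, χ t) + c)) ξ := by
  constructor
  · have h1 : ContinuousOn (fun ξ => ∫ t in p..ξ, χ t) (Icc p q) := by
      have h2 : IntegrableOn χ (uIcc p q) := by
        rw [uIcc_of_le hpq.le]
        exact hχ.integrableOn_Icc
      have h3 := intervalIntegral.continuousOn_primitive_interval h2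
      rwa [uIcc_of_le hpq.le] at h3
    exact Real.continuous_exp.comp_continuousOn (h1.add continuousOn_const)
  · intro ξ hξ
    have h1 : IntervalIntegrable χ volume p ξ := by
      apply ContinuousOn.intervalIntegrable
      rw [uIcc_of_le hξ.1.le]
      exact hχ.mono (Icc_subset_Icc le_rfl hξ.2.le)
    have h2 : ContinuousAt χ ξ := hχ.continuousAt (Icc_mem_nhds hξ.1 hξ.2)
    have h3 : StronglyMeasurableAtFilter χ (nhds ξ) volume :=
      ContinuousOn.stronglyMeasurableAtFilter isOpen_Ioo (hχ.mono Ioo_subset_Icc_self) ξ hξ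
    have h4 := intervalIntegral.integral_hasDerivAt_right h1 h3 h2
    have h5 := (h4.add_const c).exp
    rw [mul_comm] at h5
    exact h5

theorem sol_outer {k R ξ₁ : ℝ} {χ : ℝ → ℝ} (h : OL k R ξ₁ χ) :
    Sol k ξ₁ R χ (fun ξ => Real.exp ((∫ t in ξ₁..ξ, χ t) + 0)) := by
  have hc : ContinuousOn χ (Icc ξ₁ R) := fun ξ hξ => (h.deriv ξ hξ).continuousWithinAt
  refine ⟨h.pos, h.lt, hc, fun ξ hξ => ?_, (exp_int h.lt hc 0).1, (exp_int h.lt hc 0).2,
    fun ξ _ => Real.exp_pos _⟩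
  exact (h.deriv ξ (Ioo_subset_Icc_self hξ)).hasDerivAt (Icc_mem_nhds hξ.1 hξ.2)

theorem sol_inner {k r ξ₂ : ℝ} {χ : ℝ → ℝ} (h : IL k r ξ₂ χ) :
    Sol k r ξ₂ χ (fun ξ => Real.exp ((∫ t in r..ξ, χ t) + -(∫ t in r..ξ₂, χ t))) := by
  have hc : ContinuousOn χ (Icc r ξ₂) := fun ξ hξ => (h.deriv ξ hξ).continuousWithinAt
  refine ⟨h.pos, h.lt, hc, fun ξ hξ => ?_, (exp_int h.lt hc _).1, (exp_int h.lt hc _).2,
    fun ξ _ => Real.exp_pos _⟩
  exact (h.deriv ξ (Ioo_subset_Icc_self hξ)).hasDerivAt (Icc_mem_nhds hξ.1 hξ.2)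

section

variable {k p q : ℝ} {χ y : ℝ → ℝ}

theorem Sol.pos' (h : Sol k p q χ y) {ξ : ℝ} (hξ : ξ ∈ Ioo p q) : 0 < ξ := h.pos.trans hξ.1

/-- the energy `P = (k² - χ²) y²` -/
theorem Sol.dP (h : Sol k p q χ y) {ξ : ℝ} (hξ : ξ ∈ Ioo p q) :
    HasDerivAt (fun ξ => (k ^ 2 - χ ξ ^ 2) * y ξ ^ 2) (2 * χ ξ ^ 2 * y ξ ^ 2 / ξ) ξ := by
  have h1 := h.dχ ξ hξ
  have h2 := h.dy ξ hξ
  have hp := h.pos' hξ
  have h3 := ((h1.pow 2).const_sub (k ^ 2)).mul (h2.pow 2)
  refine h3.congr_deriv ?_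
  simp only [Pi.pow_apply]
  field_simp
  ring

theorem Sol.cP (h : Sol k p q χ y) :
    ContinuousOn (fun ξ => (k ^ 2 - χ ξ ^ 2) * y ξ ^ 2) (Icc p q) :=
  (continuousOn_const.sub (h.cχ.pow 2)).mul (h.cy.pow 2)

theorem Sol.monoP (h : Sol k p q χ y) :
    MonotoneOn (fun ξ => (k ^ 2 - χ ξ ^ 2) * y ξ ^ 2) (Icc p q) :=
  mono_of h.cP (fun ξ hξ => h.dP hξ) (fun ξ hξ => by
    have := h.pos' hξ
    positivity)

/-- comparison with `cosh`, first function -/
theorem Sol.dD (h : Sol k p q χ y) (κ c : ℝ) {ξ : ℝ} (hξ : ξ ∈ Ioo p q) :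
    HasDerivAt (fun ξ => y ξ * (κ * Real.sinh (κ * (ξ - c)) - χ ξ * Real.cosh (κ * (ξ - c))))
      (y ξ * Real.cosh (κ * (ξ - c)) * (κ ^ 2 - k ^ 2 + χ ξ / ξ)) ξ := by
  have h1 := h.dχ ξ hξ
  have h2 := h.dy ξ hξ
  have h3 : HasDerivAt (fun ξ => κ * (ξ - c)) κ ξ := by
    simpa using ((hasDerivAt_id ξ).sub_const c).const_mul κ
  have h4 := h2.mul ((h3.sinh.const_mul κ).sub (h1.mul h3.cosh))
  refine h4.congr_deriv ?_
  simp only [Pi.sub_apply, Pi.mul_apply]
  ring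

theorem Sol.cD (h : Sol k p q χ y) (κ c : ℝ) :
    ContinuousOn (fun ξ => y ξ * (κ * Real.sinh (κ * (ξ - c)) - χ ξ * Real.cosh (κ * (ξ - c))))
      (Icc p q) := by
  have h1 : Continuous fun ξ : ℝ => Real.sinh (κ * (ξ - c)) :=
    Real.continuous_sinh.comp (by fun_prop)
  have h2 : Continuous fun ξ : ℝ => Real.cosh (κ * (ξ - c)) :=
    Real.continuous_cosh.comp (by fun_prop)
  exact h.cy.mul ((continuousOn_const.mul h1.continuousOn).sub (h.cχ.mul h2.continuousOn))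

/-- comparison with `cosh`, second function -/
theorem Sol.dQ (h : Sol k p q χ y) (κ c : ℝ) {ξ : ℝ} (hξ : ξ ∈ Ioo p q) :
    HasDerivAt (fun ξ => Real.cosh (κ * (ξ - c)) / y ξ)
      (y ξ * (κ * Real.sinh (κ * (ξ - c)) - χ ξ * Real.cosh (κ * (ξ - c))) / y ξ ^ 2) ξ := by
  have h2 := h.dy ξ hξ
  have h3 : HasDerivAt (fun ξ => κ * (ξ - c)) κ ξ := by
    simpa using ((hasDerivAt_id ξ).sub_const c).const_mul κ
  have hy := h.ypos ξ (Ioo_subset_Icc_self hξ)
  have h4 := h3.cosh.div h2 hy.ne'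
  refine h4.congr_deriv ?_
  ring

theorem Sol.cQ (h : Sol k p q χ y) (κ c : ℝ) :
    ContinuousOn (fun ξ => Real.cosh (κ * (ξ - c)) / y ξ) (Icc p q) := by
  have h2 : Continuous fun ξ : ℝ => Real.cosh (κ * (ξ - c)) :=
    Real.continuous_cosh.comp (by fun_prop)
  exact h2.continuousOn.div h.cy fun ξ hξ => (h.ypos ξ hξ).ne'

end

end Lay

end Pool.Agent.Robin

end

section

/-!
# MP_4b551e_an: M2, macroscopic estimate
-/

open MeasureTheory Set Metric
open scoped ENNReal NNReal Pointwise RealInnerProductSpace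

namespace Pool.Agent.Robin

namespace IM2

lemma outerLe_mono {k : ℝ} {G : Set E2} {V V' : ℝ} (h : OuterLe k G V) (hV : V ≤ V') :
    OuterLe k G V' := by
  intro ε hε
  obtain ⟨u, hu, h1, h2⟩ := h ε hε
  exact ⟨u, hu, h1, by linarith⟩

/-- numerical facts -/
lemma nums {ρ : ℝ} (hρ : Real.exp (Real.exp 10) ≤ ρ) :
    1000 ≤ Real.log ρ ∧ 10 ≤ Real.log (Real.log ρ) ∧ Real.log (Real.log ρ) ≤ Real.log ρ ∧
    (Real.log ρ) ^ 3 ≤ ρ := by
  have hρ0 : 0 < ρ := lt_of_lt_of_le (Real.exp_pos _) hρ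
  have h1 : Real.exp 10 ≤ Real.log ρ := by
    rw [Real.le_log_iff_exp_le hρ0]; exact hρ
  have h2 : (1000 : ℝ) ≤ Real.exp 10 := by
    have h := Real.pow_div_factorial_le_exp 10 (by norm_num) 4
    have h' := Real.pow_div_factorial_le_exp 10 (by norm_num) 8
    refine le_trans ?_ h'
    norm_num [Nat.factorial]
  have h3 : 1000 ≤ Real.log ρ := h2.trans h1
  refine ⟨h3, ?_, ?_, ?_⟩
  · rw [Real.le_log_iff_exp_le (by linarith)]; exact h1
  · have := Real.log_le_sub_one_of_pos (show 0 < Real.log ρ by linarith)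
    linarith
  · have h := Real.pow_div_factorial_le_exp (Real.log ρ) (by linarith) 4
    rw [Real.exp_log hρ0] at h
    refine le_trans ?_ h
    have h24 : ((Nat.factorial 4 : ℕ) : ℝ) = 24 := by norm_num [Nat.factorial]
    rw [h24, le_div_iff₀ (by norm_num)]
    have : (Real.log ρ) ^ 4 = (Real.log ρ) ^ 3 * Real.log ρ := by ring
    rw [this]
    have h3' : 0 ≤ (Real.log ρ) ^ 3 := by positivity
    nlinarith

end IM2

open IM2 in
theorem prf_M2 (hM1 : S_M1) (hD3 : S_D3) (hE2 : S_E2) (hE3 : S_E3) (hB3e : S_B3e)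
    (hB3a : S_B3a) : S_M2 := by
  refine ⟨Real.exp (Real.exp 10), ?_, ?_⟩
  · have : (0 : ℝ) < Real.exp 10 := Real.exp_pos _
    exact Real.one_lt_exp_iff.2 this
  intro k A ρ hpar hρ Ω hΩ hvol hH
  obtain ⟨hl1, hll1, hll2, hcube⟩ := nums hρ
  obtain ⟨hk1, hkρ, hlow, hup, hlev⟩ := hpar
  set l := Real.log ρ with hl
  set ll := Real.log l with hll
  have hρ0 : 0 < ρ := lt_of_lt_of_le (Real.exp_pos _) hρ
  have hπ : 0 < Real.pi := Real.pi_pos
  have hρbig : 1000 ≤ ρ := by nlinarith [sq_nonneg (l - 1)]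
  have hA : 0 < A := by
    refine lt_of_lt_of_le ?_ hlow
    have : 0 < l - 3 := by linarith
    positivity
  have hk2 : k ^ 2 = 1 + 1 / ρ := by
    have : k ^ 2 - 1 = 1 / ρ := by rw [eq_div_iff hρ0.ne']; linarith
    linarith
  -- the filled domain
  set G := fill Ω with hG
  have hGadm : Admissible G := hB3e Ω hΩ
  have hGc : IsConnected Gᶜ := by
    rw [hG, fill, compl_compl]; exact (hB3a Ω hΩ).1
  have hGfin : volume G ≠ ⊤ := hGadm.isBounded.measure_lt_top.ne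
  have hsub : Ω ⊆ G := by
    intro x hx hx'
    exact hx'.1 hx
  have hareaG : A ≤ area G := by
    have h1 : volume Ω ≤ volume G := measure_mono hsub
    have h2 : (volume Ω).toReal ≤ (volume G).toReal := ENNReal.toReal_mono hGfin h1
    rw [hvol, ENNReal.toReal_ofReal hA.le] at h2
    exact h2
  have hP0 : 0 ≤ per G := ENNReal.toReal_nonneg
  set P0 := per G with hP
  set aG := area G with haG
  set R0 := Real.sqrt (aG / Real.pi) with hR0
  have hR0n : 0 ≤ R0 := Real.sqrt_nonneg _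
  have haG0 : 0 ≤ aG := ENNReal.toReal_nonneg
  have hR0sq : R0 ^ 2 = aG / Real.pi := Real.sq_sqrt (div_nonneg haG0 hπ.le)
  -- outer bound
  obtain ⟨ψ, hψa, hψq, _, _⟩ := hM1 k ((1 / 2) * Real.log (2 * ρ)) hk1.le (by
    have : 0 < Real.log (2 * ρ) := Real.log_pos (by linarith)
    positivity)
  have hlog2 : Real.log (2 * ρ) = Real.log 2 + l := Real.log_mul (by norm_num) hρ0.ne'
  have hlog2lb : (0.69 : ℝ) < Real.log 2 := by
    have := Real.log_two_gt_d9
    linarith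
  have hexp : Real.exp (2 * (1 / 2 * Real.log (2 * ρ))) = 2 * ρ := by
    rw [show 2 * (1 / 2 * Real.log (2 * ρ)) = Real.log (2 * ρ) by ring]
    exact Real.exp_log (by positivity)
  have hψq' : l / 2 ≤ ψ.q k := by
    refine le_trans ?_ hψq
    rw [hexp, hlog2]
    have : (k ^ 2 - 1) * (2 * ρ) / 8 = 1 / 4 := by linarith
    rw [this]
    linarith
  have hV0 : OuterLe k G (-(P0 * l / 2)) := by
    refine outerLe_mono (hD3 k G ψ hk1.le hGadm hGc hψa) ?_
    have := mul_le_mul_of_nonneg_left hψq' hP0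
    have h2 : -(per G) * ψ.q k = -(P0 * ψ.q k) := by rw [hP]; ring
    rw [h2]
    linarith
  -- elementary bounds
  set s := Real.sqrt (ρ * l) with hs
  have hs0 : 0 ≤ s := Real.sqrt_nonneg _
  have hssq : s ^ 2 = ρ * l := Real.sq_sqrt (by positivity)
  have hls : l * s ≤ ρ := by
    have h1 : (l * s) ^ 2 ≤ ρ ^ 2 := by
      have : (l * s) ^ 2 = l ^ 3 * ρ := by rw [mul_pow, hssq]; ring
      rw [this, sq]
      exact mul_le_mul_of_nonneg_right hcube hρ0.le
    exact le_of_sq_le_sq h1 hρ0.le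
  have hlρ : 1.5 * l + 3 ≤ ρ / 2 := by
    have : 1000 * 1000 * l ≤ l ^ 3 := by
      have : l ^ 3 = l * l * l := by ring
      rw [this]
      have h1 : 1000 * 1000 ≤ l * l := by nlinarith
      exact mul_le_mul_of_nonneg_right h1 (by linarith)
    linarith
  have hAπ : A / Real.pi ≤ 2 * ρ * (l + ll / 2 + 3) := by
    rw [div_le_iff₀ hπ]
    calc A ≤ 2 * Real.pi * ρ * (l + ll / 2 + 3) := hup
      _ = 2 * ρ * (l + ll / 2 + 3) * Real.pi := by ring
  have hAπ' : A / Real.pi + 1 ≤ 4 * (ρ * l) := by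
    have h1 : 2 * ρ * (l + ll / 2 + 3) ≤ 2 * ρ * (l + l / 2 + 3) := by
      apply mul_le_mul_of_nonneg_left _ (by positivity)
      linarith
    have h2 : 2 * ρ * (l + l / 2 + 3) + 1 ≤ 4 * (ρ * l) := by
      nlinarith
    linarith
  have hAs : A / Real.pi + 1 ≤ (2 * s) ^ 2 := by
    rw [mul_pow, hssq]; linarith
  have hkA : k ^ 2 * A ≤ 2 * Real.pi * ((ρ + 1) * (l + ll / 2 + 3)) := by
    rw [hk2]
    have h1 : (1 + 1 / ρ) * A ≤ (1 + 1 / ρ) * (2 * Real.pi * ρ * (l + ll / 2 + 3)) := by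
      apply mul_le_mul_of_nonneg_left hup (by positivity)
    refine h1.trans (le_of_eq ?_)
    field_simp
  have hH' : 4 * Real.pi * (ρ * l + ρ * ll) ≤ (P0 + 2 * Real.pi * R0) * l := by
    have h1 := mul_le_mul_of_nonneg_right hH (show 0 ≤ l by linarith)
    refine le_trans (le_of_eq ?_) h1
    have : l ≠ 0 := by linarith
    field_simp
  by_cases hr : aG / Real.pi - A / Real.pi < 1
  · -- thin case
    apply hE3 k A (-(P0 * l / 2)) Ω hk1.le hΩ hA hvol hV0
    have hR0le : R0 ≤ 2 * s := by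
      apply le_of_sq_le_sq _ (by positivity)
      rw [hR0sq]; linarith
    have h1 : 2 * Real.pi * R0 * l ≤ 2 * Real.pi * (2 * (l * s)) := by
      have : R0 * l ≤ 2 * s * l := mul_le_mul_of_nonneg_right hR0le (by linarith)
      calc 2 * Real.pi * R0 * l = 2 * Real.pi * (R0 * l) := by ring
        _ ≤ 2 * Real.pi * (2 * s * l) := by
          apply mul_le_mul_of_nonneg_left this (by positivity)
        _ = _ := by ring
    have key : (ρ + 1) * (l + ll / 2 + 3) + l * s ≤ ρ * l + ρ * ll := by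
      have h5 : ρ * 10 ≤ ρ * ll := mul_le_mul_of_nonneg_left hll1 hρ0.le
      have e : (ρ + 1) * (l + ll / 2 + 3) = ρ * l + ρ * ll / 2 + 3 * ρ + (l + ll / 2 + 3) := by
        ring
      rw [e]
      linarith
    have key2 := mul_le_mul_of_nonneg_left key (show 0 ≤ 2 * Real.pi by positivity)
    have e3 : (P0 + 2 * Real.pi * R0) * l = P0 * l + 2 * Real.pi * R0 * l := by ring
    rw [e3] at hH'
    have e4 : 2 * Real.pi * ((ρ + 1) * (l + ll / 2 + 3) + l * s) =
      2 * Real.pi * ((ρ + 1) * (l + ll / 2 + 3)) + 2 * Real.pi * (l * s) := by ring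
    rw [e4] at key2
    linarith
  · -- thick case
    push Not at hr
    set r0 := Real.sqrt (aG / Real.pi - A / Real.pi) with hr0
    have hr0sq : r0 ^ 2 = aG / Real.pi - A / Real.pi := Real.sq_sqrt (by linarith)
    have hr0n : 0 ≤ r0 := Real.sqrt_nonneg _
    have hr1 : 1 ≤ r0 := by
      apply le_of_sq_le_sq _ hr0n
      rw [hr0sq]; linarith
    set d := min r0 ρ with hd
    have hd1 : 1 ≤ d := le_min hr1 (by linarith)
    have hdr : d ≤ r0 := min_le_left _ _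
    have hdρ : d ≤ ρ := min_le_right _ _
    have hd0 : 0 < d := by linarith
    obtain ⟨v, hva, hvq, hvm0, hvm⟩ := hM1 k ((1 / 2) * Real.log (2 * d)) hk1.le (by
      have : 0 < Real.log (2 * d) := Real.log_pos (by linarith)
      positivity)
    have hexpd : Real.exp (2 * (1 / 2 * Real.log (2 * d))) = 2 * d := by
      rw [show 2 * (1 / 2 * Real.log (2 * d)) = Real.log (2 * d) by ring]
      exact Real.exp_log (by positivity)
    rw [hexpd] at hvq hvm
    have hlogd : Real.log (2 * d) = Real.log 2 + Real.log d := Real.log_mul (by norm_num) hd0.ne'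
    have hlogd0 : 0 ≤ Real.log d := Real.log_nonneg hd1
    have hdd : (k ^ 2 - 1) * d ≤ 1 := by
      calc (k ^ 2 - 1) * d ≤ (k ^ 2 - 1) * ρ := by
            apply mul_le_mul_of_nonneg_left hdρ
            rw [hk2]
            have : 0 < 1 / ρ := by positivity
            linarith
        _ = 1 := by linarith
    have hq : Real.log d / 2 + 0.595 ≤ v.q k := by
      refine le_trans ?_ hvq
      rw [hlogd]
      linarith
    have hk2' : k ^ 2 ≤ 1.001 := by
      rw [hk2]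
      have : 1 / ρ ≤ 1 / 1000 := one_div_le_one_div_of_le (by norm_num) hρbig
      linarith
    have hm : v.m k ≤ 0.26 * d := by
      refine hvm.trans ?_
      nlinarith
    have hq0 : 0.595 ≤ v.q k := by linarith
    have hrq : r0 * (Real.log d / 2 + 0.595) ≤ r0 * v.q k := mul_le_mul_of_nonneg_left hq hr0n
    have hrq' : r0 * 0.595 ≤ r0 * v.q k := mul_le_mul_of_nonneg_left hq0 hr0n
    have hlogr : r0 * l - ρ ≤ r0 * Real.log d := by
      rcases le_total r0 ρ with h | h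
      · have hdeq : d = r0 := min_eq_left h
        rw [hdeq]
        have h1 : Real.log (ρ / r0) ≤ ρ / r0 - 1 := Real.log_le_sub_one_of_pos (by positivity)
        rw [Real.log_div hρ0.ne' (by linarith)] at h1
        have h2 := mul_le_mul_of_nonneg_left h1 hr0n
        have h3 : r0 * (ρ / r0 - 1) = ρ - r0 := by
          have : r0 ≠ 0 := by linarith
          field_simp
        rw [h3] at h2
        have h4 : r0 * (Real.log ρ - Real.log r0) = r0 * l - r0 * Real.log r0 := by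
          rw [← hl]; ring
        rw [h4] at h2
        linarith
      · have hdeq : d = ρ := min_eq_right h
        rw [hdeq, ← hl]
        linarith
    have hgain : (r0 * l - ρ) / 2 ≤ r0 * v.q k - v.m k := by
      have e : r0 * (Real.log d / 2 + 0.595) = r0 * Real.log d / 2 + 0.595 * r0 := by ring
      rw [e] at hrq
      linarith
    have hRr : R0 - 2 * s ≤ r0 := by
      have : R0 ≤ r0 + 2 * s := by
        apply le_of_sq_le_sq _ (by positivity)
        have h1 : 0 ≤ 2 * (r0 * (2 * s)) := by positivity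
        have e : (r0 + 2 * s) ^ 2 = r0 ^ 2 + 2 * (r0 * (2 * s)) + (2 * s) ^ 2 := by ring
        rw [e, hr0sq, hR0sq]
        linarith
      linarith
    have harea : area (fill Ω) = A + Real.pi * r0 ^ 2 := by
      rw [hr0sq]
      have : Real.pi ≠ 0 := hπ.ne'
      rw [← hG, ← haG]
      field_simp
      ring
    apply hE2 k A r0 (-(P0 * l / 2)) Ω v hk1.le hΩ hA hvol (by linarith) harea hva
      (by linarith) (by linarith) hV0
    have h1 : 2 * Real.pi * ((r0 * l - ρ) / 2) ≤ 2 * Real.pi * (r0 * v.q k - v.m k) :=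
      mul_le_mul_of_nonneg_left hgain (by positivity)
    have h2 : Real.pi * ((R0 - 2 * s) * l) ≤ Real.pi * (r0 * l) := by
      apply mul_le_mul_of_nonneg_left _ hπ.le
      exact mul_le_mul_of_nonneg_right hRr (by linarith)
    have key : (ρ + 1) * (l + ll / 2 + 3) + ρ / 2 + l * s ≤ ρ * l + ρ * ll := by
      have h5 : ρ * 10 ≤ ρ * ll := mul_le_mul_of_nonneg_left hll1 hρ0.le
      have e : (ρ + 1) * (l + ll / 2 + 3) = ρ * l + ρ * ll / 2 + 3 * ρ + (l + ll / 2 + 3) := by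
        ring
      rw [e]
      linarith
    have key2 := mul_le_mul_of_nonneg_left key (show 0 ≤ 2 * Real.pi by positivity)
    have e3 : (P0 + 2 * Real.pi * R0) * l = P0 * l + 2 * (Real.pi * (R0 * l)) := by ring
    rw [e3] at hH'
    have e4 : 2 * Real.pi * ((ρ + 1) * (l + ll / 2 + 3) + ρ / 2 + l * s) =
      2 * Real.pi * ((ρ + 1) * (l + ll / 2 + 3)) + Real.pi * ρ + 2 * (Real.pi * (l * s)) := by ring
    rw [e4] at key2
    have e5 : Real.pi * ((R0 - 2 * s) * l) = Real.pi * (R0 * l) - 2 * (Real.pi * (l * s)) := by ring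
    rw [e5] at h2
    have e6 : 2 * Real.pi * ((r0 * l - ρ) / 2) = Real.pi * (r0 * l) - Real.pi * ρ := by ring
    rw [e6] at h1
    have e7 : 2 * Real.pi * (ρ * l + ρ * ll) * 2 = 4 * Real.pi * (ρ * l + ρ * ll) := by ring
    linarith

end Pool.Agent.Robin

end

section

set_option autoImplicit false

open MeasureTheory Set Metric
open scoped ENNReal NNReal Pointwise RealInnerProductSpace

namespace Pool.Agent.Robin

theorem prf_Z3 (hF3 : S_F3) (_hA4 : S_A4) (hA5 : S_A5) (h11 : S_G11) (h12 : S_G12)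
    (h15 : S_G15) : S_Z3 := by
  rintro ⟨Lc, hLc, hcore⟩
  obtain ⟨L1, hL1, h11⟩ := h11
  obtain ⟨L2, hL2, h12⟩ := h12
  obtain ⟨A1, hA1, h15⟩ := h15
  set L : ℝ := max Lc (max L1 L2) with hL
  have hLLc : Lc ≤ L := le_max_left _ _
  have hLL1 : L1 ≤ L := (le_max_left _ _).trans (le_max_right _ _)
  have hLL2 : L2 ≤ L := (le_max_right _ _).trans (le_max_right _ _)
  have hLpos : 0 < L := by linarith
  refine ⟨max A1 (Real.pi * L ^ 2), lt_of_lt_of_le hA1 (le_max_left _ _), fun A hA => ?_⟩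
  have hAA1 : A1 ≤ A := (le_max_left _ _).trans hA
  have hAL : Real.pi * L ^ 2 ≤ A := (le_max_right _ _).trans hA
  have hApos : 0 < A := hA1.trans_le hAA1
  obtain ⟨r, R, κ, χ, hGS, harea, hκ, hopt⟩ := h15 A hAA1
  have hκ1 : 1 < κ := hGS.one_lt
  have hκ2 : 0 < κ ^ 2 - 1 := by nlinarith
  refine ⟨r, R, hGS.r_pos, hGS.lt, ?_, fun Ω hΩ hΩv => ?_⟩
  · rw [hA5 r R hGS.r_pos.le hGS.lt.le, harea]
  rw [hF3 r R κ χ hGS]
  -- the parameter at the optimal level
  set ρs : ℝ := 1 / (κ ^ 2 - 1) with hρs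
  have hρspos : 0 < ρs := by positivity
  have hsq : Real.sqrt (Real.pi / A) * L ≤ 1 := by
    have q1 : Real.sqrt (Real.pi / A) * L = Real.sqrt (Real.pi / A * L ^ 2) := by
      rw [Real.sqrt_mul (by positivity), Real.sqrt_sq hLpos.le]
    rw [q1, ← Real.sqrt_one]
    refine Real.sqrt_le_sqrt ?_
    rw [div_mul_eq_mul_div, div_le_one hApos]
    exact hAL
  have hρsL : L < ρs := by
    rw [hρs, lt_div_iff₀ hκ2]
    have q1 : L * (κ ^ 2 - 1) ≤ L * (Real.sqrt (Real.pi / A) / 4) :=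
      mul_le_mul_of_nonneg_left hκ hLpos.le
    nlinarith
  have hlow := h11 r R κ ρs χ hGS (by rw [hρs]; field_simp) (hLL1.trans hρsL.le)
  rw [harea] at hlow
  have hlow2 : 2 * Real.pi * (1 / (κ ^ 2 - 1)) * (Real.log (1 / (κ ^ 2 - 1)) - 3) < A := by
    refine lt_of_lt_of_le ?_ hlow
    rw [← hρs]
    have : 0 < 2 * Real.pi * ρs := by positivity
    nlinarith
  have hcont : ContinuousAt (fun k : ℝ => 2 * Real.pi * (1 / (k ^ 2 - 1)) *
      (Real.log (1 / (k ^ 2 - 1)) - 3)) κ := by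
    have c1 : ContinuousAt (fun k : ℝ => 1 / (k ^ 2 - 1)) κ :=
      ContinuousAt.div continuousAt_const (by fun_prop) hκ2.ne'
    have c2 : ContinuousAt (fun k : ℝ => Real.log (1 / (k ^ 2 - 1))) κ :=
      c1.log hρspos.ne'
    exact (continuousAt_const.mul c1).mul (c2.sub continuousAt_const)
  have hev : ∀ᶠ k in nhdsWithin κ (Iio κ), lam (-1) Ω ≤ ((-(k ^ 2) : ℝ) : EReal) := by
    have e1 : ∀ᶠ k in nhdsWithin κ (Iio κ), 2 * Real.pi * (1 / (k ^ 2 - 1)) *
        (Real.log (1 / (k ^ 2 - 1)) - 3) < A :=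
      (hcont.eventually (gt_mem_nhds hlow2)).filter_mono nhdsWithin_le_nhds
    have e2 : ∀ᶠ k in nhdsWithin κ (Iio κ), 1 < k :=
      (lt_mem_nhds hκ1).filter_mono nhdsWithin_le_nhds
    filter_upwards [e1, e2, self_mem_nhdsWithin] with k k1 k2 k3
    have k3' : k < κ := k3
    have k4 : 0 < k ^ 2 - 1 := by nlinarith
    have k5 : ρs ≤ 1 / (k ^ 2 - 1) := by
      rw [hρs]
      refine one_div_le_one_div_of_le k4 ?_
      nlinarith
    have k6 : L ≤ 1 / (k ^ 2 - 1) := hρsL.le.trans k5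
    have hrho : 1 / (k ^ 2 - 1) * (k ^ 2 - 1) = 1 := by field_simp
    have hlev : ∀ (r R κ : ℝ) (χ : ℝ → ℝ), GS r R κ χ → Real.pi * (R ^ 2 - r ^ 2) = A →
        k ≤ κ := fun r' R' κ' χ' hG' ha' => k3'.le.trans (hopt r' R' κ' χ' hG' ha')
    refine hcore k A (1 / (k ^ 2 - 1)) ⟨k2, hrho, k1.le, ?_, hlev⟩ (hLLc.trans k6) Ω hΩ hΩv
    exact h12 k A (1 / (k ^ 2 - 1)) k2 hApos hrho (hLL2.trans k6) hlev
  have htend : Filter.Tendsto (fun k : ℝ => ((-(k ^ 2) : ℝ) : EReal)) (nhdsWithin κ (Iio κ))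
      (nhds ((-(κ ^ 2) : ℝ) : EReal)) := by
    have q : Continuous fun k : ℝ => ((-(k ^ 2) : ℝ) : EReal) :=
      continuous_coe_real_ereal.comp (by fun_prop)
    exact (q.tendsto κ).mono_left nhdsWithin_le_nhds
  exact ge_of_tendsto htend hev

end Pool.Agent.Robin

end

section

open MeasureTheory Set Metric intervalIntegral
open scoped ENNReal NNReal Pointwise RealInnerProductSpace

namespace Pool.Agent.Robin.AsmB

theorem sum_pieces {N : ℕ} (hN : 8 ≤ N) (F : ℝ → ℝ)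
    (hF : ∀ a b : ℝ, IntervalIntegrable F volume a b) :
    ∑ i ∈ Finset.range N, ∫ θ in ((i : ℤ) : ℝ) * dl N..(((i : ℤ) : ℝ) + 1) * dl N, F θ =
      ∫ θ in (0 : ℝ)..2 * Real.pi, F θ := by
  have h := sum_integral_adjacent_intervals (f := F) (μ := volume) (a := fun i : ℕ => (i : ℝ) * dl N)
    (n := N) (fun k _ => hF _ _)
  have hN0 : (N : ℝ) ≠ 0 := by positivity
  have e : (N : ℝ) * dl N = 2 * Real.pi := by
    unfold dl
    field_simp
  simp only [Nat.cast_zero, zero_mul, e] at h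
  rw [← h]
  refine Finset.sum_congr rfl fun i _ => ?_
  push_cast
  rfl

theorem w_anti (w : Profile) : ∀ s t : ℝ, 0 ≤ s → s ≤ t → w.w t ≤ w.w s := by
  have h : AntitoneOn w.w (Ici 0) := by
    refine antitoneOn_of_deriv_nonpos (convex_Ici 0) w.w_cont.continuousOn ?_ ?_
    · intro x hx
      rw [interior_Ici] at hx
      exact (w.deriv x hx).differentiableAt.differentiableWithinAt
    · intro x hx
      rw [interior_Ici] at hx
      rw [(w.deriv x hx).deriv]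
      exact w.dw_nonpos x (le_of_lt hx)
  intro s t hs hst
  exact h hs (hs.trans hst) hst

theorem fr_nonneg (k : ℝ) (w : Profile) (V s : ℝ) (hV : 0 ≤ V) : 0 ≤ fr k w V s := by
  unfold fr
  have h1 := w.one_le s
  have h2 : 0 ≤ (w.w s) ^ 2 - 1 := by nlinarith
  have h3 : 0 < 1 + V * ((w.w s) ^ 2 - 1) := by positivity
  positivity

theorem fs_nonneg (k : ℝ) (w : Profile) (r₀ V V' s : ℝ) (hV : 0 ≤ V) : 0 ≤ fs k w r₀ V V' s := by
  unfold fs
  have h0 := fr_nonneg k w V s hV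
  have h1 := w.one_le s
  have h2 : 0 ≤ (w.w s) ^ 2 - 1 := by nlinarith
  have h3 : 0 < 1 + V * ((w.w s) ^ 2 - 1) := by positivity
  positivity

/-- Integrals of the profile. -/
theorem J_nonneg (w : Profile) :
    0 ≤ (∫ s in (0 : ℝ)..w.σ, (w.dw s) ^ 2 / (w.w s) ^ 2) ∧
    0 ≤ (∫ s in (0 : ℝ)..w.σ, (w.dw s) ^ 2 / (w.w s) ^ 4) ∧
    0 ≤ (∫ s in (0 : ℝ)..w.σ, ((w.w s) ^ 2 - 1)) := by
  refine ⟨integral_nonneg w.σ_pos.le fun s _ => by positivity,
    integral_nonneg w.σ_pos.le fun s _ => by positivity,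
    integral_nonneg w.σ_pos.le fun s _ => ?_⟩
  have h1 := w.one_le s
  nlinarith

theorem m_nonneg (k : ℝ) (w : Profile) : 0 ≤ w.m k := by
  unfold Profile.m
  refine integral_nonneg w.σ_pos.le fun s hs => ?_
  have h1 := w.one_le s
  have h2 : 0 ≤ (w.w s) ^ 2 - 1 := by nlinarith
  unfold Profile.g
  have h3 : 0 ≤ s := hs.1
  positivity

theorem mono_nn {a b : ℝ} (hab : a ≤ b) {f g : ℝ → ℝ} (hf : ∀ x, 0 ≤ f x)
    (hg : IntervalIntegrable g volume a b) (h : ∀ x, f x ≤ g x) :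
    ∫ x in a..b, f x ≤ ∫ x in a..b, g x := by
  rw [integral_of_le hab, integral_of_le hab]
  exact integral_mono_of_nonneg (Filter.Eventually.of_forall hf) hg.1
    (Filter.Eventually.of_forall h)

theorem total (hh1 : T_H1) (hh5 : T_H5) (w1 : T_W1) (w2 : T_W2) (b1 : T_B1)
    {k : ℝ} {w : Profile} {N : ℕ} {c : ℤ → ℝ} {a : E2} {r₀ R ρ₁ η y : ℝ}
    (hb : BaseHyp k w ρ₁) (hs : Supp N c) (hr : r₀ = ρ₁ / 10) (hR : R = Rc N c a r₀)
    (hR1 : ρ₁ ≤ R) (hR2 : R ≤ 102 / 100 * ρ₁) (hlo : ∀ i, ρ₁ - r₀ ≤ c i)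
    (hH : ∀ θ, |Hf N c a r₀ θ - R| ≤ R / 20)
    (hcos : ∫ θ in (0 : ℝ)..2 * Real.pi, Hf N c a r₀ θ * Real.cos θ = 0)
    (hsin : ∫ θ in (0 : ℝ)..2 * Real.pi, Hf N c a r₀ θ * Real.sin θ = 0) (A : ℝ)
    (hA : A = (∑ i ∈ Finset.range N, c i * el N c i) / 2 +
      r₀ * (∑ i ∈ Finset.range N, el N c i) + Real.pi * r₀ ^ 2) :
    (∑ i ∈ Finset.range N, el N c i *
        ∫ s in (0 : ℝ)..w.σ, fr k w ((c i - ⟪a, nv N i⟫ + r₀) / R) s) +
      (∑ i ∈ Finset.range N, ∫ θ in ((i : ℤ) : ℝ) * dl N..(((i : ℤ) : ℝ) + 1) * dl N,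
        ∫ s in (0 : ℝ)..w.σ,
          fs k w r₀ (Hf N c a r₀ θ / R) (dHf N c a θ / R) s * (r₀ - s)) +
      2 * Real.pi * w.m k ≤
    (∑ i ∈ Finset.range N, el N c i * (1 + (c i - ⟪a, nv N i⟫ + r₀) / R * y)) +
      (∑ i ∈ Finset.range N, ∫ θ in ((i : ℤ) : ℝ) * dl N..(((i : ℤ) : ℝ) + 1) * dl N,
        (1 + Hf N c a r₀ θ / R * y) * (r₀ - η)) +
      2 * Real.pi * (-w.q k) * Real.sqrt (A / Real.pi) +
      2 * A / R * ((w.w 0) ^ 2 - 1 - y) + 2 * Real.pi * η * (1 + y) ∧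
    A ≤ Real.pi * R ^ 2 ∧ 0 ≤ A ∧
    (∑ i ∈ Finset.range N, el N c i) + 2 * Real.pi * r₀ = 2 * Real.pi * R := by
  have hN := hs.N_le
  have hρ := hb.rho
  have hRpos : 0 < R := by linarith
  have hr0 : 0 < r₀ := by rw [hr]; linarith
  obtain ⟨hc, hper, hder, hval, hform, hmeas, M, hM⟩ := hh1 N c a r₀ hs
  set T := ∫ θ in (0 : ℝ)..2 * Real.pi, (dHf N c a θ) ^ 2 with hT
  obtain ⟨g1, g2, g3, g4, g5⟩ := hh5 N c a r₀ R A T hs hr0 hR hRpos hH hcos hsin hA hT
  set S1 := (∑ i ∈ Finset.range N, el N c i * (c i - ⟪a, nv N i⟫ + r₀ - R) ^ 2) +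
      r₀ * ∫ θ in (0 : ℝ)..2 * Real.pi, (Hf N c a r₀ θ - R) ^ 2 with hS1
  set J₁ := ∫ s in (0 : ℝ)..w.σ, (w.dw s) ^ 2 / (w.w s) ^ 2 with hJ1
  set J₂ := ∫ s in (0 : ℝ)..w.σ, (w.dw s) ^ 2 / (w.w s) ^ 4 with hJ2
  set I₂ := ∫ s in (0 : ℝ)..w.σ, ((w.w s) ^ 2 - 1) with hI2
  set Jg := ∫ s in (0 : ℝ)..w.σ, w.g k s with hJg
  set M₁ := ∫ s in (0 : ℝ)..w.σ, (w.dw s) ^ 2 / (w.w s) ^ 2 * (r₀ - s) with hM1
  obtain ⟨j1, j2, j3⟩ := J_nonneg w
  have hpi := Real.pi_pos
  -- bounds for V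
  have hVb : ∀ θ, 19 / 20 ≤ Hf N c a r₀ θ / R ∧ Hf N c a r₀ θ / R ≤ 21 / 20 := by
    intro θ
    have h := abs_le.1 (hH θ)
    constructor
    · rw [le_div_iff₀ hRpos]; linarith [h.1]
    · rw [div_le_iff₀ hRpos]; linarith [h.2]
  have hVi : ∀ i : ℤ, 19 / 20 ≤ (c i - ⟪a, nv N i⟫ + r₀) / R ∧
      (c i - ⟪a, nv N i⟫ + r₀) / R ≤ 21 / 20 := by
    intro i
    have := hVb (i * dl N)
    rwa [hval i] at this
  -- integrability
  have hcH : Continuous (Hf N c a r₀) := hc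
  have iH : ∀ x z : ℝ, IntervalIntegrable (Hf N c a r₀) volume x z := fun x z =>
    hcH.intervalIntegrable _ _
  have idH : ∀ x z : ℝ, IntervalIntegrable (fun θ => (dHf N c a θ) ^ 2) volume x z := by
    intro x z
    have hb2 : ∀ θ, ‖(dHf N c a θ) ^ 2‖ ≤ M ^ 2 := by
      intro θ
      rw [Real.norm_eq_abs, abs_of_nonneg (sq_nonneg _)]
      have h := hM θ
      have h0 : 0 ≤ |dHf N c a θ| := abs_nonneg _
      rw [← sq_abs]
      exact pow_le_pow_left₀ h0 h 2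
    rw [intervalIntegrable_iff]
    exact Measure.integrableOn_of_bounded (measure_ne_top_of_subset uIoc_subset_uIcc (by simp [uIcc, Real.volume_Icc]))
      ((hmeas.pow_const 2).aestronglyMeasurable) (Filter.Eventually.of_forall hb2)
  have hdl : 0 < dl N := by
    unfold dl
    have : (0 : ℝ) < N := by positivity
    positivity
  have hIH : ∫ θ in (0 : ℝ)..2 * Real.pi, Hf N c a r₀ θ = 2 * Real.pi * R := by
    rw [hR]
    unfold Rc
    field_simp
  -- rectangles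
  set P := ∑ i ∈ Finset.range N, el N c i * (c i - ⟪a, nv N i⟫ + r₀) with hP
  set E := ∑ i ∈ Finset.range N, el N c i with hE
  set Q := ∑ i ∈ Finset.range N, el N c i * (c i - ⟪a, nv N i⟫ + r₀ - R) ^ 2 with hQ
  set Z := ∫ θ in (0 : ℝ)..2 * Real.pi, (Hf N c a r₀ θ - R) ^ 2 with hZ
  have hrect : (∑ i ∈ Finset.range N, el N c i *
        ∫ s in (0 : ℝ)..w.σ, fr k w ((c i - ⟪a, nv N i⟫ + r₀) / R) s) ≤
      P / R * Jg + (P / R - E) * J₁ + 20 / 19 * (Q / R ^ 2) * J₂ := by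
    have h1 : ∀ i ∈ Finset.range N, el N c i *
        (∫ s in (0 : ℝ)..w.σ, fr k w ((c i - ⟪a, nv N i⟫ + r₀) / R) s) ≤
        el N c i * (c i - ⟪a, nv N i⟫ + r₀) * (Jg / R) +
        (el N c i * (c i - ⟪a, nv N i⟫ + r₀) * (J₁ / R) - el N c i * J₁) +
        el N c i * (c i - ⟪a, nv N i⟫ + r₀ - R) ^ 2 * (20 / 19 * J₂ / R ^ 2) := by
      intro i _
      have h := w1 k ((c i - ⟪a, nv N i⟫ + r₀) / R) w (hVi i).1 (hVi i).2 hb.one_lt.le
      have h2 := mul_le_mul_of_nonneg_left h (hs.el_nonneg i)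
      refine h2.trans (le_of_eq ?_)
      rw [← hJg, ← hJ1, ← hJ2]
      field_simp
    refine (Finset.sum_le_sum h1).trans (le_of_eq ?_)
    rw [Finset.sum_add_distrib, Finset.sum_add_distrib, Finset.sum_sub_distrib,
      ← Finset.sum_mul, ← Finset.sum_mul, ← Finset.sum_mul, ← Finset.sum_mul]
    rw [← hP, ← hE, ← hQ]
    field_simp
  -- sectors
  set Bd : ℝ → ℝ := fun θ => Hf N c a r₀ θ / R * (r₀ * Jg - w.m k) +
    (Hf N c a r₀ θ / R - 1) * M₁ + 20 / 19 * (Hf N c a r₀ θ / R - 1) ^ 2 * r₀ * J₂ +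
    (dHf N c a θ / R) ^ 2 * I₂ / (3 * r₀) with hBd
  have iBd1 : ∀ x z : ℝ, IntervalIntegrable (fun θ => Hf N c a r₀ θ / R * (r₀ * Jg - w.m k) +
    (Hf N c a r₀ θ / R - 1) * M₁ + 20 / 19 * (Hf N c a r₀ θ / R - 1) ^ 2 * r₀ * J₂)
      volume x z := fun x z => Continuous.intervalIntegrable (by fun_prop) _ _
  have iBd2 : ∀ x z : ℝ, IntervalIntegrable (fun θ => (dHf N c a θ / R) ^ 2 * I₂ / (3 * r₀))
      volume x z := by
    intro x z
    have := ((idH x z).mul_const (I₂ / (3 * r₀) / R ^ 2))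
    refine this.congr fun θ _ => ?_
    field_simp
  have iBd : ∀ x z : ℝ, IntervalIntegrable Bd volume x z := fun x z =>
    (iBd1 x z).add (iBd2 x z)
  have hsect : (∑ i ∈ Finset.range N, ∫ θ in ((i : ℤ) : ℝ) * dl N..(((i : ℤ) : ℝ) + 1) * dl N,
        ∫ s in (0 : ℝ)..w.σ,
          fs k w r₀ (Hf N c a r₀ θ / R) (dHf N c a θ / R) s * (r₀ - s)) ≤
      ∫ θ in (0 : ℝ)..2 * Real.pi, Bd θ := by
    rw [← sum_pieces hN Bd iBd]
    refine Finset.sum_le_sum fun i _ => ?_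
    refine mono_nn (by nlinarith) ?_ (iBd _ _) ?_
    · intro θ
      refine integral_nonneg w.σ_pos.le fun s hs' => ?_
      have h1 := fs_nonneg k w r₀ (Hf N c a r₀ θ / R) (dHf N c a θ / R) s
        (by linarith [(hVb θ).1])
      have h2 : s ≤ w.σ := hs'.2
      have h3 := hb.sigma
      have : 0 ≤ r₀ - s := by rw [hr]; linarith
      positivity
    · intro θ
      have h3 := hb.sigma
      exact w2 k (Hf N c a r₀ θ / R) (dHf N c a θ / R) r₀ w (hVb θ).1 (hVb θ).2 hb.one_lt.le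
        (by rw [hr]; linarith)
  have hBdI : ∫ θ in (0 : ℝ)..2 * Real.pi, Bd θ = 2 * Real.pi * (r₀ * Jg - w.m k) +
      20 / 19 * (r₀ * Z / R ^ 2) * J₂ + T / R ^ 2 * (I₂ / (3 * r₀)) := by
    have e1 : ∀ θ, Bd θ = Hf N c a r₀ θ * ((r₀ * Jg - w.m k + M₁) / R) + (-M₁) +
        (Hf N c a r₀ θ - R) ^ 2 * (20 / 19 * r₀ * J₂ / R ^ 2) +
        (dHf N c a θ) ^ 2 * (I₂ / (3 * r₀) / R ^ 2) := by
      intro θ
      simp only [hBd]
      field_simp
      ring
    rw [integral_congr (g := fun θ => Hf N c a r₀ θ * ((r₀ * Jg - w.m k + M₁) / R) + (-M₁) +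
        (Hf N c a r₀ θ - R) ^ 2 * (20 / 19 * r₀ * J₂ / R ^ 2) +
        (dHf N c a θ) ^ 2 * (I₂ / (3 * r₀) / R ^ 2)) (fun θ _ => e1 θ)]
    have i1 : IntervalIntegrable (fun θ => Hf N c a r₀ θ * ((r₀ * Jg - w.m k + M₁) / R))
      volume 0 (2 * Real.pi) := Continuous.intervalIntegrable (by fun_prop) _ _
    have i2 : IntervalIntegrable (fun θ => (Hf N c a r₀ θ - R) ^ 2 * (20 / 19 * r₀ * J₂ / R ^ 2))
      volume 0 (2 * Real.pi) := Continuous.intervalIntegrable (by fun_prop) _ _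
    rw [integral_add ((i1.add (by simp)).add i2) ((idH _ _).mul_const _),
      integral_add (i1.add (by simp)) i2, integral_add i1 (by simp),
      intervalIntegral.integral_mul_const, intervalIntegral.integral_mul_const,
      intervalIntegral.integral_mul_const, intervalIntegral.integral_const, hIH, ← hZ, ← hT]
    simp only [smul_eq_mul]
    field_simp
    ring
  -- boundary terms
  have hb1 : (∑ i ∈ Finset.range N, el N c i * (1 + (c i - ⟪a, nv N i⟫ + r₀) / R * y)) =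
      E + y * (P / R) := by
    have : ∀ i ∈ Finset.range N, el N c i * (1 + (c i - ⟪a, nv N i⟫ + r₀) / R * y) =
        el N c i + el N c i * (c i - ⟪a, nv N i⟫ + r₀) * (y / R) := by
      intro i _
      field_simp
    rw [Finset.sum_congr rfl this, Finset.sum_add_distrib, ← Finset.sum_mul, ← hP, ← hE]
    field_simp
  have hb2 : (∑ i ∈ Finset.range N, ∫ θ in ((i : ℤ) : ℝ) * dl N..(((i : ℤ) : ℝ) + 1) * dl N,
        (1 + Hf N c a r₀ θ / R * y) * (r₀ - η)) = (r₀ - η) * (2 * Real.pi + 2 * Real.pi * y) := by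
    rw [sum_pieces hN _ (fun x z => Continuous.intervalIntegrable (by fun_prop) _ _)]
    rw [intervalIntegral.integral_mul_const, integral_add (by simp)
      (Continuous.intervalIntegrable (by fun_prop) _ _), intervalIntegral.integral_mul_const,
      intervalIntegral.integral_div, hIH, intervalIntegral.integral_const]
    simp only [smul_eq_mul]
    field_simp
    ring
  have hSQ : S1 = Q + r₀ * Z := by rw [hS1]
  have hP2 : P = 2 * A - 2 * Real.pi * r₀ * R := by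
    rw [hIH] at g2
    linarith
  have hA0 : 0 ≤ E := Finset.sum_nonneg fun i _ => hs.el_nonneg i
  have hcE : (ρ₁ - r₀) * E ≤ ∑ i ∈ Finset.range N, c i * el N c i := by
    rw [hE, Finset.mul_sum]
    exact Finset.sum_le_sum fun i _ => mul_le_mul_of_nonneg_right (hlo i) (hs.el_nonneg i)
  have hE2 : E = 2 * Real.pi * (R - r₀) := by linarith
  have hAlow : Real.pi * (R * ρ₁) ≤ A := by
    have h1 : A ≥ (ρ₁ - r₀) * E / 2 + r₀ * E + Real.pi * r₀ ^ 2 := by
      rw [hA]; linarith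
    rw [hE2] at h1
    have h2 : (ρ₁ - r₀) * (2 * Real.pi * (R - r₀)) / 2 + r₀ * (2 * Real.pi * (R - r₀)) +
        Real.pi * r₀ ^ 2 = Real.pi * (R * ρ₁) + Real.pi * (r₀ * (R - ρ₁)) := by ring
    have h3 : 0 ≤ Real.pi * (r₀ * (R - ρ₁)) := by
      have : 0 ≤ R - ρ₁ := by linarith
      positivity
    linarith
  have hA81 : 81 / 100 * Real.pi * R ^ 2 ≤ A := by
    have h1 := mul_le_mul_of_nonneg_left hR2 hRpos.le
    have h2 : 81 / 100 * R ^ 2 ≤ R * ρ₁ := by
      have e : R ^ 2 = R * R := by ring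
      rw [e]
      have : 0 ≤ R * ρ₁ := by positivity
      linarith
    have h3 := mul_le_mul_of_nonneg_left h2 hpi.le
    linarith
  have hApos : 0 ≤ A := le_trans (by positivity) hA81
  have hAup : A ≤ Real.pi * R ^ 2 := by
    have : 4 * Real.pi * A ≤ 4 * Real.pi * (Real.pi * R ^ 2) := by
      have : 0 ≤ 3 / 2 * Real.pi * T := by positivity
      have e : 4 * Real.pi * (Real.pi * R ^ 2) = 4 * Real.pi ^ 2 * R ^ 2 := by ring
      rw [e]
      linarith
    exact le_of_mul_le_mul_left this (by positivity)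
  have hS1nn : 0 ≤ S1 := by
    rw [hSQ]
    have : 0 ≤ Q := Finset.sum_nonneg fun i _ => mul_nonneg (hs.el_nonneg i) (sq_nonneg _)
    have h2 : 0 ≤ Z := integral_nonneg (by positivity) fun θ _ => sq_nonneg _
    positivity
  have hq : w.q k = ((w.w 0) ^ 2 - 1) + 1 - Jg := by
    unfold Profile.q
    rw [← hJg]
    ring
  have hB1 := b1 Jg J₁ J₂ I₂ (w.m k) 0 (w.q k) ((w.w 0) ^ 2 - 1) r₀ R A T ρ₁ S1 hb.q_le j1 j2
    hb.h2 j3 hb.sq hr hρ hR1 g5 hq g4 hApos hA81 hS1nn g3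
  refine ⟨?_, hAup, hApos, by linarith⟩
  rw [hb1, hb2]
  have hPR : P / R = 2 * A / R - 2 * Real.pi * r₀ := by
    rw [hP2]
    field_simp
  have hmain : P / R * Jg + (P / R - E) * J₁ + 20 / 19 * (Q / R ^ 2) * J₂ +
      (2 * Real.pi * (r₀ * Jg - w.m k) +
      20 / 19 * (r₀ * Z / R ^ 2) * J₂ + T / R ^ 2 * (I₂ / (3 * r₀))) =
      2 * A / R * Jg - 2 * Real.pi * w.m k + (2 * A / R - 2 * Real.pi * R) * J₁ +
      20 / 19 * (S1 / R ^ 2) * J₂ + T / R ^ 2 * (I₂ / (3 * r₀)) := by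
    rw [hPR, hE2, hSQ]
    ring
  have hrhs : E + y * (P / R) + (r₀ - η) * (2 * Real.pi + 2 * Real.pi * y) +
      2 * A / R * ((w.w 0) ^ 2 - 1 - y) + 2 * Real.pi * η * (1 + y) =
      2 * Real.pi * R + 2 * A / R * ((w.w 0) ^ 2 - 1) := by
    rw [hPR, hE2]
    ring
  rw [hBdI] at hsect
  linarith

end Pool.Agent.Robin.AsmB

end

section

/-!
MP_4b551e_an, item G10: a ground state splits into an outer and an inner layer.
-/

open MeasureTheory Set Metric Filter Topology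
open scoped ENNReal NNReal

namespace Pool.Agent.Robin

theorem prf_G10 : S_G10 := by
  intro r R κ χ h
  obtain ⟨hr, hrR, hκ, hd, hl, hR, hm⟩ := h
  have hcont : ContinuousOn χ (Icc r R) := fun x hx => (hd x hx).continuousWithinAt
  have hivt : (0 : ℝ) ∈ χ '' Icc r R := by
    refine intermediate_value_Icc hrR.le hcont ⟨?_, ?_⟩
    · rw [hl]; norm_num
    · rw [hR]; norm_num
  obtain ⟨ξ, hξ, hξ0⟩ := hivt
  have h1 : r < ξ := by
    refine lt_of_le_of_ne hξ.1 fun he => ?_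
    rw [← he, hl] at hξ0
    norm_num at hξ0
  have h2 : ξ < R := by
    refine lt_of_le_of_ne hξ.2 fun he => ?_
    rw [he, hR] at hξ0
    norm_num at hξ0
  have s1 : Icc ξ R ⊆ Icc r R := Icc_subset_Icc_left hξ.1
  have s2 : Icc r ξ ⊆ Icc r R := Icc_subset_Icc_right hξ.2
  refine ⟨ξ, ⟨hr.trans h1, h2, fun x hx => (hd x (s1 hx)).mono s1, hξ0, hR,
    hm.monotoneOn.mono s1⟩, ⟨hr, h1, fun x hx => (hd x (s2 hx)).mono s2, hl, hξ0,
    hm.monotoneOn.mono s2⟩, ?_⟩
  have h3 := F2_left (right_mem_Ioc.2 hrR) (hd R (right_mem_Icc.2 hrR.le))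
    (fun y hy => hm.monotoneOn hy (right_mem_Icc.2 hrR.le) hy.2)
  rw [hR] at h3
  linarith

end Pool.Agent.Robin

end

section

set_option autoImplicit false

open MeasureTheory Set Metric
open scoped ENNReal NNReal Pointwise RealInnerProductSpace

namespace Pool.Agent.Robin

theorem prf_G2 : S_G2 := by
  intro k r ξ₂ χ hIL
  have hσ : 0 < ξ₂ - r := sub_pos.2 hIL.lt
  have hc : ContinuousOn χ (Icc r ξ₂) := fun ξ hξ => (hIL.deriv ξ hξ).continuousWithinAt
  have hnp : ∀ ξ ∈ Icc r ξ₂, χ ξ ≤ 0 := by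
    intro ξ hξ
    rw [← hIL.right]
    exact hIL.mono hξ (right_mem_Icc.2 hIL.lt.le) hξ.2
  obtain ⟨v, h1, h2, h3⟩ := G1_profile (ξ₂ - r) hσ (fun s => -χ (r + s))
    (by
      refine (hc.comp (by fun_prop) fun s hs => ?_).neg
      exact ⟨by linarith [hs.1], by linarith [hs.2]⟩)
    (by
      intro s hs
      exact neg_nonneg.2 (hnp _ ⟨by linarith [hs.1], by linarith [hs.2]⟩))
    (by
      rw [add_sub_cancel, hIL.right, neg_zero])
  refine ⟨v, hIL, h1, ?_, ?_⟩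
  · intro s hs
    rw [h2 s hs, intervalIntegral.integral_neg, intervalIntegral.integral_comp_add_left,
      add_sub_cancel]
  · intro s hs
    rw [h3 s hs]
    ring

end Pool.Agent.Robin

end

section

/-!
MP_4b551e_an, item G3: identities for the outer profile.
-/

open MeasureTheory Set Metric Filter Topology

namespace Pool.Agent.Robin

theorem OProf.lay {k R ξ₁ : ℝ} {χ : ℝ → ℝ} {w : Profile} (h : OProf k R ξ₁ χ w) :
    Lay k R (-1) (R - ξ₁) (fun s => χ (R - s)) w where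
  pos := sub_pos.2 h.ol.lt
  sig := h.sig
  xpos := by
    intro s hs
    have := h.ol.pos
    have := hs.2
    linarith
  dval := h.dval
  c0 := by
    simp only [sub_zero]; exact h.ol.right
  cσ := by
    have : R - (R - ξ₁) = ξ₁ := by ring
    simp only [this]; exact h.ol.left
  cr := by
    intro s hs
    have hm : R - s ∈ Icc ξ₁ R := ⟨by linarith [hs.2], by linarith [hs.1]⟩
    have h1 := h.ol.mono (left_mem_Icc.2 h.ol.lt.le) hm hm.1
    have h2 := h.ol.mono hm (right_mem_Icc.2 h.ol.lt.le) hm.2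
    rw [h.ol.left] at h1
    rw [h.ol.right] at h2
    exact ⟨h1, h2⟩
  cd := by
    intro s hs
    have hm : R - s ∈ Ioo ξ₁ R := ⟨by linarith [hs.2], by linarith [hs.1]⟩
    have h1 := (h.ol.deriv (R - s) ⟨hm.1.le, hm.2.le⟩).hasDerivAt (Icc_mem_nhds hm.1 hm.2)
    have h2 := h1.comp_const_sub R s
    refine h2.congr_deriv ?_
    have hx : R - s ≠ 0 := by
      have := h.ol.pos
      have := hm.1
      intro h0
      linarith
    have hx' : R + -1 * s = R - s := by ring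
    rw [hx']
    ring

theorem prf_G3 : S_G3 := by
  intro k R ξ₁ χ w hk hξ h
  have hl := h.lay
  have hσ := hl.pos
  have hlt := h.ol.lt
  have hR : 0 < R := by linarith [h.ol.pos]
  have hq := hl.idq
  have hqe := hl.qeq
  have ha : 1 ≤ w.w 0 := w.one_le 0
  have hlo := hl.lo (M := R) hR (fun s hs => by linarith [hs.1])
  have hup := hl.up (M := ξ₁) (by linarith) (fun s hs => by linarith [hs.2])
  have hw := Lay.wc w (R - ξ₁)
  have hdw := Lay.dwc w (R - ξ₁)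
  have ha2 : 0 ≤ (w.w 0) ^ 2 - 1 := by nlinarith
  refine ⟨by linear_combination hq, ?_, ?_, ?_, ?_, ?_⟩
  · rw [h.sig]; linarith
  · rw [h.sig]; linarith
  · rw [h.sig]
    have h1 : ∫ s in (0 : ℝ)..(R - ξ₁), ((w.w s) ^ 2 - 1) ≤
        ∫ s in (0 : ℝ)..(R - ξ₁), ((w.dw s) ^ 2 + k ^ 2 * (w.w s) ^ 2) := by
      refine intervalIntegral.integral_mono_on hσ.le (Lay.ii hσ.le (by fun_prop))
        (Lay.ii hσ.le (by fun_prop)) ?_
      intro s _
      have h2 : 0 ≤ (w.dw s) ^ 2 := sq_nonneg _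
      have h3 : 1 ≤ k ^ 2 := one_le_pow₀ hk
      have h4 : 0 ≤ (w.w s) ^ 2 := sq_nonneg _
      nlinarith
    rw [hl.int2] at h1
    have h2 : ((w.w 0) ^ 2 - 1) / (2 * ξ₁) ≤ (w.w 0) ^ 2 - 1 := by
      apply div_le_self ha2
      linarith
    linarith
  · rw [h.sig]
    have hw0 : ∀ s ∈ Icc (0 : ℝ) (R - ξ₁), (w.w s) ≠ 0 := fun s _ => by
      have := w.one_le s
      intro h0
      linarith
    have c1 : ContinuousOn (fun s => (w.dw s) ^ 2 / (w.w s) ^ 4) (Icc 0 (R - ξ₁)) :=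
      (hdw.pow 2).div (hw.pow 4) (fun s hs => pow_ne_zero _ (hw0 s hs))
    have c2 : ContinuousOn (fun s => -w.dw s / (w.w s) ^ 3) (Icc 0 (R - ξ₁)) :=
      hdw.neg.div (hw.pow 3) (fun s hs => pow_ne_zero _ (hw0 s hs))
    have c3 : ContinuousOn (fun s => ((w.w s) ^ 2)⁻¹ / 2) (Icc 0 (R - ξ₁)) :=
      ((hw.pow 2).inv₀ (fun s hs => pow_ne_zero _ (hw0 s hs))).div_const 2
    have h1 : ∫ s in (0 : ℝ)..(R - ξ₁), (w.dw s) ^ 2 / (w.w s) ^ 4 ≤
        ∫ s in (0 : ℝ)..(R - ξ₁), -w.dw s / (w.w s) ^ 3 := by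
      refine intervalIntegral.integral_mono_on hσ.le (Lay.ii hσ.le c1) (Lay.ii hσ.le c2) ?_
      intro s hs
      have h2 := w.one_le s
      have h3 := hl.cr s hs
      have h4 := hl.dval s hs
      have h5 : 0 < w.w s := by linarith
      have e1 : (w.dw s) ^ 2 / (w.w s) ^ 4 = (χ (R - s)) ^ 2 / (w.w s) ^ 2 := by
        rw [h4]; field_simp
      have e2 : -w.dw s / (w.w s) ^ 3 = χ (R - s) / (w.w s) ^ 2 := by
        rw [h4]; field_simp
      rw [e1, e2]
      apply div_le_div_of_nonneg_right _ (by positivity)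
      nlinarith [h3.1, h3.2]
    have h2 : ∫ s in (0 : ℝ)..(R - ξ₁), -w.dw s / (w.w s) ^ 3 =
        1 / 2 - ((w.w 0) ^ 2)⁻¹ / 2 := by
      rw [intervalIntegral.integral_eq_sub_of_hasDerivAt_of_le hσ.le
        (f := fun s => ((w.w s) ^ 2)⁻¹ / 2) c3 ?_ (Lay.ii hσ.le c2)]
      · rw [hl.wσ]; norm_num
      · intro s hs
        have h3 : w.w s ≠ 0 := hw0 s ⟨hs.1.le, hs.2.le⟩
        have h4 := (((w.deriv s hs.1).pow 2).inv (pow_ne_zero 2 h3)).div_const 2
        refine h4.congr_deriv ?_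
        push_cast
        simp only [Pi.pow_apply]
        field_simp
    have h3 : 0 ≤ ((w.w 0) ^ 2)⁻¹ / 2 := by positivity
    linarith
  · refine hl.anti ?_
    intro s hs
    have hs' : s ∈ Icc (0 : ℝ) (R - ξ₁) := ⟨hs.1.le, hs.2.le⟩
    have h3 := hl.dval s hs'
    have h4 := w.one_le s
    have h5 : 1 ≤ R + -1 * s := by linarith [hs.2]
    have h6 := hl.cr s hs'
    have h7 : -1 * w.dw s / (R + -1 * s) ≤ w.w s := by
      rw [div_le_iff₀ (by linarith), h3]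
      nlinarith
    have h8 : 1 ≤ k ^ 2 := one_le_pow₀ hk
    nlinarith

end Pool.Agent.Robin

end

section

/-!
# MP_4b551e_an, item G4: amplitude and thickness of the outer profile
-/

open MeasureTheory Set Metric
open scoped ENNReal NNReal Pointwise RealInnerProductSpace

namespace Pool.Agent.Robin

theorem prf_G4 : S_G4 := by
  intro k R ξ₁ χ w hk hξ₁ hw
  have hol := hw.ol
  have h := Lay.sol_outer hol
  set y : ℝ → ℝ := fun ξ => Real.exp ((∫ t in ξ₁..ξ, χ t) + 0) with hy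
  have hlt := hol.lt
  have hpos := hol.pos
  have hRpos : 0 < R := hpos.trans hlt
  have hyp : y ξ₁ = 1 := by simp [hy]
  have hyR : y R = w.w 0 := by
    rw [hw.val 0 ⟨le_rfl, by linarith⟩, hy]
    simp
  have hσ := hw.sig
  have hleft : ξ₁ ∈ Icc ξ₁ R := left_mem_Icc.2 hlt.le
  have hright : R ∈ Icc ξ₁ R := right_mem_Icc.2 hlt.le
  have hχ0 : ∀ ξ ∈ Ioo ξ₁ R, 0 ≤ χ ξ := fun ξ hξ => by
    rw [← hol.left]
    exact hol.mono hleft (Ioo_subset_Icc_self hξ) hξ.1.le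
  have hχ1 : ∀ ξ ∈ Ioo ξ₁ R, χ ξ ≤ 1 := fun ξ hξ => by
    rw [← hol.right]
    exact hol.mono (Ioo_subset_Icc_self hξ) hright hξ.2.le
  have hypos : ∀ ξ ∈ Ioo ξ₁ R, 0 < y ξ := fun ξ hξ => h.ypos ξ (Ioo_subset_Icc_self hξ)
  have ha : 0 < w.w 0 := by rw [← hyR]; exact h.ypos R hright
  refine ⟨?_, ?_, ?_, ?_⟩
  · -- (1)
    have h1 : AntitoneOn (fun ξ => (k ^ 2 - χ ξ ^ 2) * y ξ ^ 2 - y ξ ^ 2 / ξ₁) (Icc ξ₁ R) := by
      refine Lay.anti_of (f' := fun ξ => 2 * χ ξ ^ 2 * y ξ ^ 2 / ξ - 2 * χ ξ * y ξ ^ 2 / ξ₁)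
        (h.cP.sub ((h.cy.pow 2).div_const _)) ?_ ?_
      · intro ξ hξ
        refine ((h.dP hξ).sub (((h.dy ξ hξ).pow 2).div_const ξ₁)).congr_deriv ?_
        ring
      · intro ξ hξ
        have h0 := hχ0 ξ hξ
        have h1 := hχ1 ξ hξ
        have h2 : χ ξ / ξ ≤ 1 / ξ₁ := by
          rw [div_le_div_iff₀ (hpos.trans hξ.1) hpos]
          nlinarith [hξ.1]
        have h3 : 2 * χ ξ ^ 2 * y ξ ^ 2 / ξ - 2 * χ ξ * y ξ ^ 2 / ξ₁ =
            (2 * χ ξ * y ξ ^ 2) * (χ ξ / ξ - 1 / ξ₁) := by ring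
        rw [h3]
        exact mul_nonpos_of_nonneg_of_nonpos (by positivity) (by linarith)
    have h2 := h1 hleft hright hlt.le
    simp only [hyp, hyR, hol.left, hol.right] at h2
    have h3 : 0 < 1 / ξ₁ := by positivity
    have h4 : (k ^ 2 - 1 - 1 / ξ₁) * (w.w 0) ^ 2 =
        (k ^ 2 - 1 ^ 2) * w.w 0 ^ 2 - w.w 0 ^ 2 / ξ₁ := by ring
    rw [h4]
    linarith
  · -- (2)
    have h1 : MonotoneOn (fun ξ => (k ^ 2 - χ ξ ^ 2) * y ξ ^ 2 -
        (χ ξ * y ξ ^ 2 - (k ^ 2 - 1) * (w.w 0) ^ 2 * (ξ - ξ₁)) / R) (Icc ξ₁ R) := by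
      refine Lay.mono_of (f' := fun ξ => 2 * χ ξ ^ 2 * y ξ ^ 2 / ξ -
        ((k ^ 2 - χ ξ ^ 2 - χ ξ / ξ) * y ξ ^ 2 + 2 * χ ξ ^ 2 * y ξ ^ 2 -
          (k ^ 2 - 1) * (w.w 0) ^ 2) / R) ?_ ?_ ?_
      · refine h.cP.sub (((h.cχ.mul (h.cy.pow 2)).sub ?_).div_const _)
        exact (continuous_const.mul (continuous_id.sub continuous_const)).continuousOn
      · intro ξ hξ
        have h3 : HasDerivAt (fun ξ => (k ^ 2 - 1) * (w.w 0) ^ 2 * (ξ - ξ₁))
            ((k ^ 2 - 1) * (w.w 0) ^ 2) ξ := by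
          simpa using ((hasDerivAt_id ξ).sub_const ξ₁).const_mul ((k ^ 2 - 1) * (w.w 0) ^ 2)
        refine ((h.dP hξ).sub ((((h.dχ ξ hξ).mul ((h.dy ξ hξ).pow 2)).sub h3).div_const
          R)).congr_deriv ?_
        simp only [Pi.pow_apply]
        ring
      · intro ξ hξ
        have h0 := hχ0 ξ hξ
        have hξp : 0 < ξ := hpos.trans hξ.1
        have hP := h.monoP (Ioo_subset_Icc_self hξ) hright hξ.2.le
        simp only [hyR, hol.right] at hP
        have h4 : 2 * χ ξ ^ 2 * y ξ ^ 2 / R ≤ 2 * χ ξ ^ 2 * y ξ ^ 2 / ξ :=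
          div_le_div_of_nonneg_left (by positivity) hξp hξ.2.le
        have h5 : 0 ≤ χ ξ / ξ * y ξ ^ 2 := by positivity
        have h6 : 0 ≤ ((k ^ 2 - 1 ^ 2) * w.w 0 ^ 2 -
            ((k ^ 2 - χ ξ ^ 2) * y ξ ^ 2 - χ ξ / ξ * y ξ ^ 2)) / R :=
          div_nonneg (by linarith) hRpos.le
        have h7 : 2 * χ ξ ^ 2 * y ξ ^ 2 / ξ -
            ((k ^ 2 - χ ξ ^ 2 - χ ξ / ξ) * y ξ ^ 2 + 2 * χ ξ ^ 2 * y ξ ^ 2 -
              (k ^ 2 - 1) * (w.w 0) ^ 2) / R =
            (2 * χ ξ ^ 2 * y ξ ^ 2 / ξ - 2 * χ ξ ^ 2 * y ξ ^ 2 / R) +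
            ((k ^ 2 - 1 ^ 2) * w.w 0 ^ 2 -
            ((k ^ 2 - χ ξ ^ 2) * y ξ ^ 2 - χ ξ / ξ * y ξ ^ 2)) / R := by ring
        rw [h7]
        linarith
    have h2 := h1 hleft hright hlt.le
    simp only [hyp, hyR, hol.left, hol.right] at h2
    rw [hσ]
    have h3 : (k ^ 2 - 1 - 1 / R + (k ^ 2 - 1) * (R - ξ₁) / R) * w.w 0 ^ 2 =
        (k ^ 2 - 1 ^ 2) * w.w 0 ^ 2 -
          (1 * w.w 0 ^ 2 - (k ^ 2 - 1) * w.w 0 ^ 2 * (R - ξ₁)) / R := by ring
    rw [h3]
    refine le_trans (le_of_eq ?_) h2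
    ring
  · -- (3)
    have h1 : MonotoneOn (fun ξ => y ξ * (k * Real.sinh (k * (ξ - ξ₁)) -
        χ ξ * Real.cosh (k * (ξ - ξ₁)))) (Icc ξ₁ R) := by
      refine Lay.mono_of (h.cD k ξ₁) (fun ξ hξ => h.dD k ξ₁ hξ) ?_
      intro ξ hξ
      have h0 := hχ0 ξ hξ
      have hy0 := hypos ξ hξ
      have hξp : 0 < ξ := hpos.trans hξ.1
      have h3 := Real.cosh_pos (k * (ξ - ξ₁))
      have h4 : k ^ 2 - k ^ 2 + χ ξ / ξ = χ ξ / ξ := by ring
      rw [h4]
      positivity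
    have h2 : MonotoneOn (fun ξ => Real.cosh (k * (ξ - ξ₁)) / y ξ) (Icc ξ₁ R) := by
      refine Lay.mono_of (h.cQ k ξ₁) (fun ξ hξ => h.dQ k ξ₁ hξ) ?_
      intro ξ hξ
      have h3 := h1 hleft (Ioo_subset_Icc_self hξ) hξ.1.le
      simp only [hol.left, sub_self, mul_zero, Real.sinh_zero, zero_mul] at h3
      exact div_nonneg h3 (sq_nonneg _)
    have h3 := h2 hleft hright hlt.le
    simp only [hyp, hyR, sub_self, mul_zero, Real.cosh_zero, div_one] at h3
    rw [one_le_div ha] at h3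
    rw [hσ]
    exact h3
  · -- (4)
    intro hk1
    have h1 : AntitoneOn (fun ξ => y ξ * (1 * Real.sinh (1 * (ξ - ξ₁)) -
        χ ξ * Real.cosh (1 * (ξ - ξ₁)))) (Icc ξ₁ R) := by
      refine Lay.anti_of (h.cD 1 ξ₁) (fun ξ hξ => h.dD 1 ξ₁ hξ) ?_
      intro ξ hξ
      have h0 := hχ0 ξ hξ
      have h1 := hχ1 ξ hξ
      have hy0 := hypos ξ hξ
      have hξp : 0 < ξ := hpos.trans hξ.1
      have h3 := Real.cosh_pos (1 * (ξ - ξ₁))
      have h4 : χ ξ / ξ ≤ 1 / ξ₁ := by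
        rw [div_le_div_iff₀ hξp hpos]
        nlinarith [hξ.1]
      exact mul_nonpos_of_nonneg_of_nonpos (by positivity) (by linarith)
    have h2 : AntitoneOn (fun ξ => Real.cosh (1 * (ξ - ξ₁)) / y ξ) (Icc ξ₁ R) := by
      refine Lay.anti_of (h.cQ 1 ξ₁) (fun ξ hξ => h.dQ 1 ξ₁ hξ) ?_
      intro ξ hξ
      have h3 := h1 hleft (Ioo_subset_Icc_self hξ) hξ.1.le
      simp only [hol.left, sub_self, mul_zero, Real.sinh_zero, zero_mul] at h3
      exact div_nonpos_of_nonpos_of_nonneg h3 (sq_nonneg _)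
    have h3 := h2 hleft hright hlt.le
    simp only [hyp, hyR, sub_self, mul_zero, Real.cosh_zero, div_one, one_mul] at h3
    rw [div_le_one ha] at h3
    rw [hσ]
    exact h3

end Pool.Agent.Robin

end

section

/-!
MP_4b551e_an, item G5: identities for the inner profile.
-/

open MeasureTheory Set Metric Filter Topology

namespace Pool.Agent.Robin

theorem IProf.lay {k r ξ₂ : ℝ} {χ : ℝ → ℝ} {v : Profile} (h : IProf k r ξ₂ χ v) :
    Lay k r 1 (ξ₂ - r) (fun s => -χ (r + s)) v where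
  pos := sub_pos.2 h.il.lt
  sig := h.sig
  xpos := by
    intro s hs
    have := h.il.pos
    have := hs.1
    linarith
  dval := by
    intro s hs
    rw [h.dval s hs]; ring
  c0 := by
    simp only [add_zero]; rw [h.il.left]; ring
  cσ := by
    have : r + (ξ₂ - r) = ξ₂ := by ring
    simp only [this]; rw [h.il.right]; ring
  cr := by
    intro s hs
    have hm : r + s ∈ Icc r ξ₂ := ⟨by linarith [hs.1], by linarith [hs.2]⟩
    have h1 := h.il.mono (left_mem_Icc.2 h.il.lt.le) hm hm.1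
    have h2 := h.il.mono hm (right_mem_Icc.2 h.il.lt.le) hm.2
    rw [h.il.left] at h1
    rw [h.il.right] at h2
    constructor <;> linarith
  cd := by
    intro s hs
    have hm : r + s ∈ Ioo r ξ₂ := ⟨by linarith [hs.1], by linarith [hs.2]⟩
    have h1 := (h.il.deriv (r + s) ⟨hm.1.le, hm.2.le⟩).hasDerivAt (Icc_mem_nhds hm.1 hm.2)
    have h2 := (h1.comp_const_add r s).neg
    refine h2.congr_deriv ?_
    ring

theorem prf_G5 : S_G5 := by
  intro k r ξ₂ χ v hk h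
  have hl := h.lay
  have hσ := hl.pos
  have hr := h.il.pos
  have hlt := h.il.lt
  have hq := hl.idq
  have hqe := hl.qeq
  have ha : 1 ≤ v.w 0 := v.one_le 0
  have hlo := hl.lo (M := ξ₂) (by linarith) (fun s hs => by linarith [hs.2])
  have hup := hl.up (M := r) hr (fun s hs => by linarith [hs.1])
  have h1 : r * v.q k - v.m k = k ^ 2 * (ξ₂ ^ 2 - r ^ 2) / 2 := by
    linear_combination hq
  have h2 : v.q k ≤ k ^ 2 * v.σ + ((v.w 0) ^ 2 - 1) / (2 * r) := by
    rw [h.sig]; linarith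
  refine ⟨h1, h2, ?_, ?_, ?_⟩
  · rw [h.sig]; linarith
  · have h3 : r * (((v.w 0) ^ 2 - 1) / (2 * r)) = ((v.w 0) ^ 2 - 1) / 2 := by
      field_simp
    have h4 : r * v.q k ≤ r * (k ^ 2 * v.σ + ((v.w 0) ^ 2 - 1) / (2 * r)) :=
      mul_le_mul_of_nonneg_left h2 hr.le
    rw [mul_add, h3, h.sig] at h4
    have h5 : k ^ 2 * (ξ₂ ^ 2 - r ^ 2) / 2 = r * (k ^ 2 * (ξ₂ - r)) + k ^ 2 * (ξ₂ - r) ^ 2 / 2 := by
      ring
    have h6 : 0 ≤ k ^ 2 * (ξ₂ - r) ^ 2 / 2 := by positivity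
    linarith
  · refine hl.anti ?_
    intro s hs
    have h3 := v.dw_nonpos s hs.1.le
    have h4 := v.one_le s
    have h5 : 0 < r + 1 * s := hl.xpos s ⟨hs.1.le, hs.2.le⟩
    have h6 : 1 * v.dw s / (r + 1 * s) ≤ 0 := by
      apply div_nonpos_of_nonpos_of_nonneg _ h5.le
      linarith
    have h7 : 0 ≤ 2 * k ^ 2 * v.w s := by positivity
    linarith

end Pool.Agent.Robin

end

section

/-!
# MP_4b551e_an, item G6: amplitude and thickness of the inner profile
-/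

open MeasureTheory Set Metric
open scoped ENNReal NNReal Pointwise RealInnerProductSpace

namespace Pool.Agent.Robin

theorem prf_G6 : S_G6 := by
  intro k r ξ₂ χ v hk hv
  have hil := hv.il
  have h := Lay.sol_inner hil
  set y : ℝ → ℝ := fun ξ => Real.exp ((∫ t in r..ξ, χ t) + -(∫ t in r..ξ₂, χ t)) with hy
  have hlt := hil.lt
  have hpos := hil.pos
  have hqpos : 0 < ξ₂ := hpos.trans hlt
  have hyq : y ξ₂ = 1 := by simp [hy]
  have hyr : y r = v.w 0 := by
    rw [hv.val 0 ⟨le_rfl, by linarith⟩, hy]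
    simp
  have hσ := hv.sig
  have hleft : r ∈ Icc r ξ₂ := left_mem_Icc.2 hlt.le
  have hright : ξ₂ ∈ Icc r ξ₂ := right_mem_Icc.2 hlt.le
  have hχ0 : ∀ ξ ∈ Ioo r ξ₂, χ ξ ≤ 0 := fun ξ hξ => by
    rw [← hil.right]
    exact hil.mono (Ioo_subset_Icc_self hξ) hright hξ.2.le
  have hχ1 : ∀ ξ ∈ Ioo r ξ₂, -1 ≤ χ ξ := fun ξ hξ => by
    rw [← hil.left]
    exact hil.mono hleft (Ioo_subset_Icc_self hξ) hξ.1.le
  have hypos : ∀ ξ ∈ Ioo r ξ₂, 0 < y ξ := fun ξ hξ => h.ypos ξ (Ioo_subset_Icc_self hξ)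
  have hb : 0 < v.w 0 := by rw [← hyr]; exact h.ypos r hleft
  have hdiv : ∀ ξ ∈ Ioo r ξ₂, -(1 / r) ≤ χ ξ / ξ := fun ξ hξ => by
    have hξp : 0 < ξ := hpos.trans hξ.1
    have h0 := hχ1 ξ hξ
    have h1 : -(1 / ξ) ≤ χ ξ / ξ := by
      rw [← neg_div]
      exact div_le_div_of_nonneg_right h0 hξp.le
    have h2 : 1 / ξ ≤ 1 / r := one_div_le_one_div_of_le hpos hξ.1.le
    linarith
  have hdiv0 : ∀ ξ ∈ Ioo r ξ₂, χ ξ / ξ ≤ 0 := fun ξ hξ =>
    div_nonpos_of_nonpos_of_nonneg (hχ0 ξ hξ) (hpos.trans hξ.1).le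
  refine ⟨?_, ?_, ?_, ?_, ?_⟩
  · -- (1)
    have h2 := h.monoP hleft hright hlt.le
    simp only [hyq, hyr, hil.left, hil.right] at h2
    linarith
  · -- (2)
    have h1 : AntitoneOn (fun ξ => (k ^ 2 - χ ξ ^ 2) * y ξ ^ 2 + y ξ ^ 2 / r) (Icc r ξ₂) := by
      refine Lay.anti_of (f' := fun ξ => 2 * χ ξ ^ 2 * y ξ ^ 2 / ξ + 2 * χ ξ * y ξ ^ 2 / r)
        (h.cP.add ((h.cy.pow 2).div_const _)) ?_ ?_
      · intro ξ hξ
        refine ((h.dP hξ).add (((h.dy ξ hξ).pow 2).div_const r)).congr_deriv ?_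
        ring
      · intro ξ hξ
        have h0 := hχ0 ξ hξ
        have h2 := hdiv ξ hξ
        have h3 : 2 * χ ξ ^ 2 * y ξ ^ 2 / ξ + 2 * χ ξ * y ξ ^ 2 / r =
            (2 * χ ξ * y ξ ^ 2) * (χ ξ / ξ + 1 / r) := by ring
        rw [h3]
        refine mul_nonpos_of_nonpos_of_nonneg ?_ (by linarith)
        exact mul_nonpos_of_nonpos_of_nonneg (by linarith) (sq_nonneg _)
    have h2 := h1 hleft hright hlt.le
    simp only [hyq, hyr, hil.left, hil.right] at h2
    have h3 : 0 < 1 / r := by positivity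
    have h4 : (k ^ 2 - 1 + 1 / r) * (v.w 0) ^ 2 =
        (k ^ 2 - (-1) ^ 2) * v.w 0 ^ 2 + v.w 0 ^ 2 / r := by ring
    rw [h4]
    refine le_trans ?_ h2
    nlinarith
  · -- (3)
    have h1 : MonotoneOn (fun ξ => (k ^ 2 - χ ξ ^ 2) * y ξ ^ 2 -
        (χ ξ * y ξ ^ 2 - k ^ 2 * (ξ - r) + y ξ ^ 2 / (2 * r)) / ξ₂) (Icc r ξ₂) := by
      refine Lay.mono_of (f' := fun ξ => 2 * χ ξ ^ 2 * y ξ ^ 2 / ξ -
        ((k ^ 2 - χ ξ ^ 2 - χ ξ / ξ) * y ξ ^ 2 + 2 * χ ξ ^ 2 * y ξ ^ 2 -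
          k ^ 2 + χ ξ * y ξ ^ 2 / r) / ξ₂) ?_ ?_ ?_
      · refine h.cP.sub ((((h.cχ.mul (h.cy.pow 2)).sub ?_).add
          ((h.cy.pow 2).div_const _)).div_const _)
        exact (continuous_const.mul (continuous_id.sub continuous_const)).continuousOn
      · intro ξ hξ
        have h3 : HasDerivAt (fun ξ => k ^ 2 * (ξ - r)) (k ^ 2) ξ := by
          simpa using ((hasDerivAt_id ξ).sub_const r).const_mul (k ^ 2)
        refine ((h.dP hξ).sub (((((h.dχ ξ hξ).mul ((h.dy ξ hξ).pow 2)).sub h3).add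
          (((h.dy ξ hξ).pow 2).div_const (2 * r))).div_const ξ₂)).congr_deriv ?_
        simp only [Pi.pow_apply]
        field_simp
        ring
      · intro ξ hξ
        have h0 := hχ0 ξ hξ
        have hξp : 0 < ξ := hpos.trans hξ.1
        have hP := h.monoP (Ioo_subset_Icc_self hξ) hright hξ.2.le
        simp only [hyq, hil.right] at hP
        have h4 : 2 * χ ξ ^ 2 * y ξ ^ 2 / ξ₂ ≤ 2 * χ ξ ^ 2 * y ξ ^ 2 / ξ :=
          div_le_div_of_nonneg_left (by positivity) hξp hξ.2.le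
        have h5 : χ ξ * y ξ ^ 2 / r ≤ χ ξ / ξ * y ξ ^ 2 := by
          have h6 : χ ξ / r ≤ χ ξ / ξ := by
            have h7 : 1 / ξ ≤ 1 / r := one_div_le_one_div_of_le hpos hξ.1.le
            have h8 : χ ξ / ξ - χ ξ / r = (- χ ξ) * (1 / r - 1 / ξ) := by ring
            have h9 : 0 ≤ (- χ ξ) * (1 / r - 1 / ξ) := mul_nonneg (by linarith) (by linarith)
            linarith
          have h7 : χ ξ * y ξ ^ 2 / r = χ ξ / r * y ξ ^ 2 := by ring
          rw [h7]
          exact mul_le_mul_of_nonneg_right h6 (sq_nonneg _)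
        have h6 : 0 ≤ (k ^ 2 - (k ^ 2 - χ ξ ^ 2) * y ξ ^ 2 +
            (χ ξ / ξ * y ξ ^ 2 - χ ξ * y ξ ^ 2 / r)) / ξ₂ :=
          div_nonneg (by linarith) hqpos.le
        have h7 : 2 * χ ξ ^ 2 * y ξ ^ 2 / ξ -
            ((k ^ 2 - χ ξ ^ 2 - χ ξ / ξ) * y ξ ^ 2 + 2 * χ ξ ^ 2 * y ξ ^ 2 -
              k ^ 2 + χ ξ * y ξ ^ 2 / r) / ξ₂ =
            (2 * χ ξ ^ 2 * y ξ ^ 2 / ξ - 2 * χ ξ ^ 2 * y ξ ^ 2 / ξ₂) +
            (k ^ 2 - (k ^ 2 - χ ξ ^ 2) * y ξ ^ 2 +
            (χ ξ / ξ * y ξ ^ 2 - χ ξ * y ξ ^ 2 / r)) / ξ₂ := by ring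
        rw [h7]
        linarith
    have h2 := h1 hleft hright hlt.le
    simp only [hyq, hyr, hil.left, hil.right] at h2
    rw [hσ]
    have h3 : (k ^ 2 - 1 + 1 / ξ₂ - 1 / (2 * r * ξ₂)) * v.w 0 ^ 2 =
        (k ^ 2 - (-1) ^ 2) * v.w 0 ^ 2 -
          (-1 * v.w 0 ^ 2 - k ^ 2 * (r - r) + v.w 0 ^ 2 / (2 * r)) / ξ₂ := by
      field_simp
      ring
    rw [h3]
    refine le_trans h2 ?_
    have h4 : 0 < 1 / (2 * r * ξ₂) := by positivity
    have h5 : (k ^ 2 - 0 ^ 2) * 1 ^ 2 - (0 * 1 ^ 2 - k ^ 2 * (ξ₂ - r) + 1 ^ 2 / (2 * r)) / ξ₂ =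
        k ^ 2 * (1 + (ξ₂ - r) / ξ₂) - 1 / (2 * r * ξ₂) := by
      field_simp
      ring
    rw [h5]
    linarith
  · -- (4)
    have h1 : AntitoneOn (fun ξ => y ξ * (k * Real.sinh (k * (ξ - ξ₂)) -
        χ ξ * Real.cosh (k * (ξ - ξ₂)))) (Icc r ξ₂) := by
      refine Lay.anti_of (h.cD k ξ₂) (fun ξ hξ => h.dD k ξ₂ hξ) ?_
      intro ξ hξ
      have hy0 := hypos ξ hξ
      have h3 := Real.cosh_pos (k * (ξ - ξ₂))
      have h4 := hdiv0 ξ hξ
      exact mul_nonpos_of_nonneg_of_nonpos (by positivity) (by linarith)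
    have h2 : MonotoneOn (fun ξ => Real.cosh (k * (ξ - ξ₂)) / y ξ) (Icc r ξ₂) := by
      refine Lay.mono_of (h.cQ k ξ₂) (fun ξ hξ => h.dQ k ξ₂ hξ) ?_
      intro ξ hξ
      have h3 := h1 (Ioo_subset_Icc_self hξ) hright hξ.2.le
      simp only [hil.right, sub_self, mul_zero, Real.sinh_zero, zero_mul] at h3
      exact div_nonneg h3 (sq_nonneg _)
    have h3 := h2 hleft hright hlt.le
    simp only [hyq, hyr, sub_self, mul_zero, Real.cosh_zero, div_one] at h3
    rw [div_le_one hb] at h3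
    rw [hσ]
    have h4 : k * (r - ξ₂) = -(k * (ξ₂ - r)) := by ring
    rw [h4, Real.cosh_neg] at h3
    exact h3
  · -- (5)
    have hK : Real.sqrt (k ^ 2 + 1 / r) ^ 2 = k ^ 2 + 1 / r := Real.sq_sqrt (by positivity)
    set K := Real.sqrt (k ^ 2 + 1 / r) with hKdef
    have h1 : MonotoneOn (fun ξ => y ξ * (K * Real.sinh (K * (ξ - ξ₂)) -
        χ ξ * Real.cosh (K * (ξ - ξ₂)))) (Icc r ξ₂) := by
      refine Lay.mono_of (h.cD K ξ₂) (fun ξ hξ => h.dD K ξ₂ hξ) ?_
      intro ξ hξ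
      have hy0 := hypos ξ hξ
      have h3 := Real.cosh_pos (K * (ξ - ξ₂))
      have h4 := hdiv ξ hξ
      rw [hK]
      exact mul_nonneg (by positivity) (by linarith)
    have h2 : AntitoneOn (fun ξ => Real.cosh (K * (ξ - ξ₂)) / y ξ) (Icc r ξ₂) := by
      refine Lay.anti_of (h.cQ K ξ₂) (fun ξ hξ => h.dQ K ξ₂ hξ) ?_
      intro ξ hξ
      have h3 := h1 (Ioo_subset_Icc_self hξ) hright hξ.2.le
      simp only [hil.right, sub_self, mul_zero, Real.sinh_zero, zero_mul] at h3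
      exact div_nonpos_of_nonpos_of_nonneg h3 (sq_nonneg _)
    have h3 := h2 hleft hright hlt.le
    simp only [hyq, hyr, sub_self, mul_zero, Real.cosh_zero, div_one] at h3
    rw [one_le_div hb] at h3
    rw [hσ]
    have h4 : K * (r - ξ₂) = -(K * (ξ₂ - r)) := by ring
    rw [h4, Real.cosh_neg] at h3
    exact h3

end Pool.Agent.Robin

end

section

/-!
MP_4b551e_an, item G9: existence of the inner layer.
-/

open MeasureTheory Set Metric Filter Topology
open scoped ENNReal NNReal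

namespace Pool.Agent.Robin

theorem prf_G9 : S_G9 := by
  intro k r hk hr
  have hk2 : 0 < k ^ 2 - 1 := by nlinarith
  set S : ℝ := 1 / (k ^ 2 - 1) + 1 with hS
  have hS0 : 0 < S := by positivity
  obtain ⟨χ, hχ0, hχb, hχ⟩ := F1_exist (r := r) (R := r + S) hr (by linarith) hk.le
  have hcont : ContinuousOn χ (Icc r (r + S)) := fun x hx => (hχ x hx).continuousWithinAt
  -- derivative where `χ ≤ 0`
  have hder : ∀ ξ ∈ Icc r (r + S), χ ξ ≤ 0 → k ^ 2 - 1 ≤ k ^ 2 - χ ξ ^ 2 - χ ξ / ξ := by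
    intro ξ hξ h0
    have hξ0 : 0 < ξ := lt_of_lt_of_le hr hξ.1
    have h1 := (hχb ξ hξ).1
    have h2 : χ ξ / ξ ≤ 0 := div_nonpos_of_nonpos_of_nonneg h0 hξ0.le
    nlinarith
  have hone : ∃ s ∈ Icc r (r + S), 0 ≤ χ s := by
    by_contra hcon
    push Not at hcon
    have h1 : MonotoneOn (fun ξ => χ ξ - (k ^ 2 - 1) * ξ) (Icc r (r + S)) := by
      refine G8_mono (f' := fun ξ => (k ^ 2 - χ ξ ^ 2 - χ ξ / ξ) - (k ^ 2 - 1)) ?_ ?_
      · intro ξ hξ
        have h2 : HasDerivWithinAt (fun ξ : ℝ => (k ^ 2 - 1) * ξ) (k ^ 2 - 1)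
            (Icc r (r + S)) ξ := by
          have := ((hasDerivAt_id ξ).const_mul (k ^ 2 - 1)).hasDerivWithinAt
            (s := Icc r (r + S))
          simpa using this
        exact (hχ ξ hξ).sub h2
      · intro ξ hξ
        linarith [hder ξ hξ (hcon ξ hξ).le]
    have h2 := h1 (left_mem_Icc.2 (by linarith)) (right_mem_Icc.2 (by linarith))
      (by linarith : r ≤ r + S)
    simp only [hχ0] at h2
    have h3 := hcon (r + S) (right_mem_Icc.2 (by linarith))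
    have h4 : (k ^ 2 - 1) * S = 1 + (k ^ 2 - 1) := by
      rw [hS, mul_add, mul_one_div_cancel hk2.ne', mul_one]
    nlinarith
  -- first zero
  set Z : Set ℝ := {s | s ∈ Icc r (r + S) ∧ 0 ≤ χ s} with hZ
  have hZne : Z.Nonempty := by
    obtain ⟨s, hs, hs'⟩ := hone
    exact ⟨s, hs, hs'⟩
  have hZbdd : BddBelow Z := ⟨r, fun s hs => hs.1.1⟩
  have hZcl : IsClosed Z := by
    have := hcont.preimage_isClosed_of_isClosed isClosed_Icc (isClosed_Ici (a := (0 : ℝ)))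
    exact this
  set ξ₂ : ℝ := sInf Z with hξ₂
  have hmem : ξ₂ ∈ Z := hZcl.csInf_mem hZne hZbdd
  have hlt : ∀ s ∈ Ico r ξ₂, χ s < 0 := by
    intro s hs
    by_contra h
    push Not at h
    have : ξ₂ ≤ s := csInf_le hZbdd ⟨⟨hs.1, hs.2.le.trans hmem.1.2⟩, h⟩
    exact absurd hs.2 (not_lt.2 this)
  have hrξ : r < ξ₂ := by
    refine lt_of_le_of_ne hmem.1.1 fun h => ?_
    have := hmem.2
    rw [← h, hχ0] at this
    norm_num at this
  have hzero : χ ξ₂ = 0 := by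
    refine le_antisymm ?_ hmem.2
    by_contra h
    push Not at h
    have hivt : (0 : ℝ) ∈ χ '' Icc r ξ₂ := by
      refine intermediate_value_Icc hrξ.le (hcont.mono (Icc_subset_Icc_right hmem.1.2)) ⟨?_, h.le⟩
      rw [hχ0]; norm_num
    obtain ⟨s, hs, hs0⟩ := hivt
    have hne : s ≠ ξ₂ := fun he => by rw [he] at hs0; linarith
    have := hlt s ⟨hs.1, lt_of_le_of_ne hs.2 hne⟩
    linarith
  have hsub : Icc r ξ₂ ⊆ Icc r (r + S) := Icc_subset_Icc_right hmem.1.2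
  have hle0 : ∀ s ∈ Icc r ξ₂, χ s ≤ 0 := by
    intro s hs
    rcases lt_or_eq_of_le hs.2 with h | h
    · exact (hlt s ⟨hs.1, h⟩).le
    · rw [h, hzero]
  refine ⟨ξ₂, χ, hr, hrξ, fun ξ hξ => (hχ ξ (hsub hξ)).mono hsub, hχ0, hzero, ?_⟩
  refine G8_mono (fun ξ hξ => (hχ ξ (hsub hξ)).mono hsub) fun ξ hξ => ?_
  linarith [hder ξ (hsub hξ) (hle0 ξ hξ)]

end Pool.Agent.Robin

end

section

/-!
# MP_4b551e_an: the foundations, combined (helper35)
-/

namespace Pool.Agent.Robin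

theorem t_B1f : S_B1f := prf_B1f
theorem t_B1 : S_B1 := prf_B1
theorem t_B2 : S_B2 := prf_B2 t_B1f
theorem t_B3a : S_B3a := prf_B3a
theorem t_B3b : S_B3b := prf_B3b t_B1
theorem t_B3c : S_B3c := prf_B3c t_B3a t_B3b
theorem t_B3d : S_B3d := prf_B3d t_B1 t_B1f t_B3b
theorem t_B3e : S_B3e := prf_B3e t_B1 t_B3a t_B3b t_B3d
theorem t_B3 : S_B3 := prf_B3 t_B3a t_B3c t_B3d t_B3e
theorem t_A1 : S_A1 := prf_A1
theorem t_A2 : S_A2 := prf_A2
theorem t_A3 : S_A3 := prf_A3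
theorem t_A4 : S_A4 := prf_A4
theorem t_A5 : S_A5 := prf_A5
theorem t_A6 : S_A6 := prf_A6 t_A2 t_A3 t_A4 t_A5
theorem t_BM : S_BM := prf_BM (prf_BM3 prf_BM1 (prf_BM2 prf_BM1))
theorem t_C2 : S_C2 := prf_C2
theorem t_C3 : S_C3 := prf_C3
theorem t_C4m : S_C4m := prf_C4m
theorem t_C10a : S_C10a := prf_C10a
theorem t_C10b : S_C10b := prf_C10b
theorem t_C10c : S_C10c := prf_C10c t_C10b
theorem t_Trans : S_Trans := prf_Trans t_B1f
theorem t_C11 : S_C11 := prf_C11' t_Trans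
theorem t_C6 : S_C6 := prf_C6 prf_C1 t_C3
theorem t_C8 : S_C8 := prf_C8 t_C4m t_C2 t_C6 (prf_C7 t_C2)
theorem t_C9 : S_C9 := prf_C9 (prf_C5 (prf_C4 t_C2)) t_C8
theorem t_Crofton : S_Crofton := prf_Crofton t_B1f prf_Graph prf_Ban t_C10b
theorem t_C12 : S_C12 := prf_C12 t_B2 t_Crofton t_C9 t_C10a t_C10c t_C11
theorem t_C13 : S_C13 := prf_C13 t_B1 t_B2 t_A4 t_C11 t_Crofton t_C9 t_C10c
theorem t_Iso : S_Iso := prf_Iso t_C12 t_BM
theorem t_D1 : S_D1 := prf_D1 t_B2 t_C12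
theorem t_D2 : S_D2 := prf_D2
theorem t_D3 : S_D3 := prf_D3 t_C13 t_B1 t_B2
theorem t_D5 : S_D5 := prf_D5 t_D1 t_D2 prf_D4 t_Iso
theorem t_E1 : S_E1 := prf_E1 t_B2 t_B1
theorem t_E2 : S_E2 := prf_E2 t_A1 t_B3 t_D5 t_E1
theorem t_E3 : S_E3 := prf_E3 t_A1 t_B3 t_D2 t_E1
theorem t_Eil : S_Eil := prf_Eil
theorem t_EilW : S_EilW := prf_EilW
theorem t_F2 : S_F2 := prf_F2 prf_F1
theorem t_F3 : S_F3 := prf_F3'
theorem t_G1 : S_G1 := prf_G1
theorem t_G2 : S_G2 := prf_G2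
theorem t_G3 : S_G3 := prf_G3
theorem t_G4 : S_G4 := prf_G4
theorem t_G5 : S_G5 := prf_G5
theorem t_G6 : S_G6 := prf_G6
theorem t_G7 : S_G7 := prf_G7
theorem t_G8 : S_G8 := prf_G8
theorem t_G9 : S_G9 := prf_G9
theorem t_G10 : S_G10 := prf_G10
theorem t_G11 : S_G11 := prf_G11 t_G1 t_G2 t_G4 t_G6 t_G10
theorem t_G12 : S_G12 := prf_G12 t_F2 t_G1 t_G2 t_G4 t_G6 t_G7 t_G8 t_G9
theorem t_G13 : S_G13 := prf_G13 t_F2 t_G1 t_G2 t_G4 t_G6 t_G7 t_G8 t_G9
theorem t_G15 : S_G15 := prf_G15 t_F2 t_G10 t_G13 prf_G14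
theorem t_H1 : S_H1 := prf_H1 t_G1 t_G3 t_G4 t_G8
theorem t_H2 : S_H2 := prf_H2 t_G2 t_G5 t_G6 t_G9
theorem t_H3 : S_H3 := prf_H3 t_F2 t_G3 t_G5 t_G7 t_H1 t_H2
theorem t_M2 : S_M2 := prf_M2 prf_M1 t_D3 t_E2 t_E3 t_B3e t_B3a
theorem t_Z3 : S_Z3 := prf_Z3 t_F3 t_A4 t_A5 t_G11 t_G12 t_G15

end Pool.Agent.Robin

end

section

/-!
# MP_4b551e_an: bump lemma
-/

open MeasureTheory Set Metric Filter Topology
open scoped ENNReal NNReal Pointwise RealInnerProductSpace

namespace Pool.Agent.Robin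

namespace BL

theorem lip_expmin (M c : ℝ) : ∃ C : ℝ≥0, LipschitzWith C (fun t : ℝ => Real.exp (min t M - c)) := by
  refine ⟨⟨Real.exp (M - c), (Real.exp_pos _).le⟩, LipschitzWith.of_le_add_mul _ fun s t => ?_⟩
  show Real.exp (min s M - c) ≤ Real.exp (min t M - c) + Real.exp (M - c) * dist s t
  rcases le_total s t with hst | hst
  · have h1 : Real.exp (min s M - c) ≤ Real.exp (min t M - c) :=
      Real.exp_le_exp.mpr (by linarith [min_le_min_right M hst])
    have h2 : 0 ≤ Real.exp (M - c) * dist s t := by positivity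
    linarith
  · have h3 : min s M - min t M ≤ s - t := by
      rcases le_total s M with h | h
      · rw [min_eq_left h, min_eq_left (hst.trans h)]
      · rw [min_eq_right h]
        rcases le_total t M with h' | h'
        · rw [min_eq_left h']; linarith
        · rw [min_eq_right h']; linarith
    have h4 : Real.exp (min t M - c) ≥ Real.exp (min s M - c) * (1 - (min s M - min t M)) := by
      have e1 : Real.exp (min t M - c) = Real.exp (min s M - c) *
          Real.exp (-(min s M - min t M)) := by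
        rw [← Real.exp_add]; congr 1; ring
      rw [e1]
      have := Real.add_one_le_exp (-(min s M - min t M))
      have h5 : 1 - (min s M - min t M) ≤ Real.exp (-(min s M - min t M)) := by linarith
      exact mul_le_mul_of_nonneg_left h5 (Real.exp_pos _).le
    have h6 : Real.exp (min s M - c) ≤ Real.exp (M - c) :=
      Real.exp_le_exp.mpr (by linarith [min_le_right s M])
    have h7 : dist s t = s - t := by rw [Real.dist_eq, abs_of_nonneg (by linarith)]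
    rw [h7]
    have h8 : 0 ≤ s - t := by linarith
    have h9 : Real.exp (min s M - c) * (min s M - min t M) ≤ Real.exp (M - c) * (s - t) := by
      have h10 : 0 ≤ min s M - min t M := by linarith [min_le_min_right M hst]
      exact mul_le_mul h6 h3 h10 (Real.exp_pos _).le
    linarith

theorem lip_norm (y : E2) : LipschitzWith 1 (fun x : E2 => ‖x - y‖) := by
  have h : (fun x : E2 => ‖x - y‖) = fun x => dist x y := by
    ext x; rw [dist_eq_norm]
  rw [h]
  exact LipschitzWith.dist_left y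

theorem lip_u (y : E2) (M c : ℝ) :
    ∃ C : ℝ≥0, LipschitzWith C (fun x : E2 => Real.exp (min ‖x - y‖ M - c) - 1) := by
  obtain ⟨C, hC⟩ := lip_expmin M c
  have h1 := hC.comp (lip_norm y)
  refine ⟨C * 1, ?_⟩
  have h2 := h1.sub (LipschitzWith.const (1 : ℝ))
  rw [add_zero] at h2
  exact h2

theorem lip_phi (y : E2) (M c : ℝ) :
    ∃ C : ℝ≥0, LipschitzWith C (fun x : E2 => max 0 (Real.exp (min ‖x - y‖ M - c) - 1)) := by
  obtain ⟨C, hC⟩ := lip_u y M c
  exact ⟨C, hC.const_max 0⟩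

/-- area of a quarter ring -/
theorem ring_area (y : E2) (a b r R : ℝ) (hab : a < b) (hb : b ≤ a + Real.pi / 2) (hr : 0 ≤ r)
    (hrR : r ≤ R) (G : Set E2) (hG : G ⊆ cone y a b) (hG2 : ∀ x ∈ G, r ≤ ‖x - y‖ ∧ ‖x - y‖ ≤ R) :
    volume G ≤ ENNReal.ofReal (Real.pi / 4 * (R ^ 2 - r ^ 2)) := by
  have hpi := Real.pi_pos
  set T : Set E2 := {x | r ≤ ‖x - y‖ ∧ ‖x - y‖ ≤ R} with hT
  have hnm : Measurable fun x : E2 => ‖x - y‖ := by fun_prop
  have hTm : MeasurableSet T :=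
    (measurableSet_le measurable_const hnm).inter (measurableSet_le hnm measurable_const)
  have hcm : MeasurableSet (cone y a b) := Q2.measurable_cone y (by linarith)
  have h1 := pr_Q2 pr_Q1 y a b (T.indicator 1) hab (by linarith) (measurable_one.indicator hTm)
  rw [lintegral_indicator_one hTm, Measure.restrict_apply hTm] at h1
  have h2 : volume G ≤ volume (T ∩ cone y a b) := measure_mono fun x hx => ⟨hG2 x hx, hG hx⟩
  refine h2.trans ?_
  rw [h1]
  have h3 : ∀ θ ∈ Ioo a b, ∫⁻ d in Ioi (0 : ℝ), T.indicator 1 (y + d • dirv θ) *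
      ENNReal.ofReal d ≤ ENNReal.ofReal ((R ^ 2 - r ^ 2) / 2) := by
    intro θ _
    have h4 : ∀ d ∈ Ioi (0 : ℝ), T.indicator (1 : E2 → ℝ≥0∞) (y + d • dirv θ) *
        ENNReal.ofReal d ≤ (Icc r R).indicator (fun d => ENNReal.ofReal d) d := by
      intro d hd
      have hd' : (0 : ℝ) < d := hd
      by_cases hm : y + d • dirv θ ∈ T
      · have h5 : ‖y + d • dirv θ - y‖ = d := by
          rw [add_sub_cancel_left, norm_smul, Q2.norm_dirv, mul_one, Real.norm_of_nonneg hd'.le]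
        have h6 : d ∈ Icc r R := by
          have := hm
          rw [hT, mem_ofPred_eq, h5] at this
          exact this
        rw [indicator_of_mem hm, indicator_of_mem h6]
        simp
      · rw [indicator_of_notMem hm, zero_mul]
        exact zero_le
    calc ∫⁻ d in Ioi (0 : ℝ), T.indicator 1 (y + d • dirv θ) * ENNReal.ofReal d
        ≤ ∫⁻ d in Ioi (0 : ℝ), (Icc r R).indicator (fun d => ENNReal.ofReal d) d :=
          setLIntegral_mono (ENNReal.measurable_ofReal.indicator measurableSet_Icc) h4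
      _ ≤ ∫⁻ d, (Icc r R).indicator (fun d => ENNReal.ofReal d) d :=
          setLIntegral_le_lintegral _ _
      _ = ∫⁻ d in Icc r R, ENNReal.ofReal d := by
          rw [lintegral_indicator measurableSet_Icc]
      _ = ENNReal.ofReal (∫ d in Icc r R, d) := by
          rw [ofReal_integral_eq_lintegral_ofReal]
          · exact (continuous_id.integrableOn_Icc)
          · filter_upwards [ae_restrict_mem measurableSet_Icc] with d hd
            exact hr.trans hd.1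
      _ = ENNReal.ofReal ((R ^ 2 - r ^ 2) / 2) := by
          rw [integral_Icc_eq_integral_Ioc, ← intervalIntegral.integral_of_le hrR, integral_id]
  calc ∫⁻ θ in Ioo a b, ∫⁻ d in Ioi (0 : ℝ), T.indicator 1 (y + d • dirv θ) * ENNReal.ofReal d
      ≤ ∫⁻ _θ in Ioo a b, ENNReal.ofReal ((R ^ 2 - r ^ 2) / 2) :=
        setLIntegral_mono measurable_const h3
    _ = ENNReal.ofReal ((R ^ 2 - r ^ 2) / 2) * ENNReal.ofReal (b - a) := by
        rw [setLIntegral_const, Real.volume_Ioo]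
    _ ≤ ENNReal.ofReal (Real.pi / 4 * (R ^ 2 - r ^ 2)) := by
        have h7 : 0 ≤ R ^ 2 - r ^ 2 := by nlinarith
        rw [← ENNReal.ofReal_mul (by positivity)]
        apply ENNReal.ofReal_le_ofReal
        nlinarith

end BL

theorem prn_BL (h1 : S_N1) (h2 : S_N2) (h3 : S_N3) (h6 : S_N6) (hB3 : S_B3) : S_BL := by
  obtain ⟨L₆, hL₆, h6⟩ := h6
  refine ⟨max L₆ (Real.exp 10), lt_of_lt_of_le hL₆ (le_max_left _ _), ?_⟩
  intro k A ρ Ω hC hρ
  have hpi := Real.pi_pos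
  have hρ6 : L₆ ≤ ρ := (le_max_left _ _).trans hρ
  have hρe : Real.exp 10 ≤ ρ := (le_max_right _ _).trans hρ
  have hρ0 : 0 < ρ := lt_of_lt_of_le (Real.exp_pos _) hρe
  set l := Real.log ρ with hl
  have hl10 : 10 ≤ l := by
    rw [hl, ← Real.log_exp 10]
    exact Real.log_le_log (Real.exp_pos _) hρe
  have hρl : 1 + l + l ^ 2 / 2 ≤ ρ := by
    have := Real.quadratic_le_exp_of_nonneg (by linarith : 0 ≤ l)
    rwa [hl, Real.exp_log hρ0, ← hl] at this
  have hA0 : 0 < A := by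
    have h := hC.par.low
    have : 0 < 2 * Real.pi * ρ * (Real.log ρ - 3) := by
      have : 0 < Real.log ρ - 3 := by rw [← hl]; linarith
      positivity
    linarith
  obtain ⟨N, H, hD⟩ := hB3 Ω hC.adm
  have hG : Admissible (fill Ω) := hD.fill_adm
  have hQ : ∀ u : E2 → ℝ, (∃ C : ℝ≥0, LipschitzWith C u) → 0 ≤ Qk k (fill Ω) u :=
    h2 k A Ω hA0 hC.adm hC.vol hC.comp
  have hΩG : Ω ⊆ fill Ω := fun x hx hx' => hx'.1 hx
  set G := fill Ω with hGdef
  intro y x₀ ρ₀ a b hρ₀ hab hb hx₀ hUc hUM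
  by_contra hcon
  rw [not_le] at hcon
  set K := closedBall y ρ₀ with hK
  obtain ⟨hUo, hUcon, hxU, hUG, hUf, hUor⟩ := h3 G K _ x₀ hG.isOpen hG.isConnected
    isClosed_closedBall hx₀ rfl
  set U := connectedComponentIn (G \ K) x₀ with hU
  have hUK : ∀ x ∈ U, ρ₀ < ‖x - y‖ := by
    intro x hx
    have := (hUG hx).2
    rw [hK, mem_closedBall, not_le, dist_eq_norm] at this
    exact this
  rcases hUor with hUG' | ⟨z, hz, hzK, hzG⟩
  · -- the component is everything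
    rw [hUG'] at hUc hUM hUK hUcon
    have hne : ((fun x : E2 => ‖x - y‖) '' G).Nonempty := ⟨_, mem_image_of_mem _ hx₀.1⟩
    have hbdd : BddBelow ((fun x : E2 => ‖x - y‖) '' G) :=
      ⟨0, by rintro _ ⟨x, _, rfl⟩; exact norm_nonneg _⟩
    set a₀ := sInf ((fun x : E2 => ‖x - y‖) '' G) with ha₀
    have hle : ∀ x ∈ G, a₀ ≤ ‖x - y‖ := fun x hx => csInf_le hbdd (mem_image_of_mem _ hx)
    have ha₀0 : ρ₀ ≤ a₀ := by
      refine le_csInf hne ?_
      rintro _ ⟨x, hx, rfl⟩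
      exact (hUK x hx).le
    have hlt : ∀ x ∈ G, a₀ < ‖x - y‖ := by
      intro x hx
      have hxy : 0 < ‖x - y‖ := lt_of_le_of_lt hρ₀ (hUK x hx)
      have hcont : Continuous fun t : ℝ => x - t • (x - y) := by fun_prop
      have hnb : ∀ᶠ t : ℝ in 𝓝 0, x - t • (x - y) ∈ G := by
        refine hcont.continuousAt.eventually_mem ?_
        rw [zero_smul, sub_zero]
        exact hG.isOpen.mem_nhds hx
      have hnb2 : ∀ᶠ t : ℝ in 𝓝[>] 0, x - t • (x - y) ∈ G := hnb.filter_mono nhdsWithin_le_nhds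
      obtain ⟨t, ht, ht0, ht1⟩ := (hnb2.and (Ioo_mem_nhdsGT one_pos)).exists
      refine lt_of_le_of_lt (hle _ ht) ?_
      have : x - t • (x - y) - y = (1 - t) • (x - y) := by
        rw [sub_smul, one_smul]; abel
      rw [this, norm_smul, Real.norm_of_nonneg (by linarith)]
      nlinarith
    have hap : ∀ ε > 0, ∃ x ∈ G, ‖x - y‖ < a₀ + ε := by
      intro ε hε
      obtain ⟨_, ⟨x, hx, rfl⟩, h⟩ := exists_lt_of_csInf_lt hne (lt_add_of_pos_right a₀ hε)
      exact ⟨x, hx, h⟩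
    by_cases hbig : ∃ x ∈ G, a₀ + 2 * l < ‖x - y‖
    · obtain ⟨x₁, hx₁, hx₁'⟩ := hbig
      have hu := BL.lip_u y ((1 - 1 / Real.log ρ) * ρ) a₀
      have := h6 k ρ G G y x₁ a b a₀ _ hC.par.one_lt hC.par.rho hρ6 hG hG.isOpen hG.isConnected
        subset_rfl hab hb hUc (hρ₀.trans ha₀0) (fun x hx => ⟨hlt x hx, hUM x hx⟩) hap hx₁ hx₁'
        inter_subset_left hu (fun x hx => by rw [min_eq_left (hUM x hx)])
        (Filter.Eventually.of_forall fun x hx => absurd hx.1 hx.2)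
      exact absurd (hQ _ hu) (not_le.mpr this)
    · push Not at hbig
      have hv := BL.ring_area y a b a₀ (a₀ + 2 * l) hab hb (hρ₀.trans ha₀0) (by linarith) G hUc
        (fun x hx => ⟨hle x hx, hbig x hx⟩)
      have hv2 : ENNReal.ofReal A ≤ volume G := by
        rw [← hC.vol]; exact measure_mono hΩG
      have ha0 : 0 ≤ a₀ := hρ₀.trans ha₀0
      have hv3 := (ENNReal.ofReal_le_ofReal_iff (by
        have : 0 ≤ (a₀ + 2 * l) ^ 2 - a₀ ^ 2 := by nlinarith
        positivity)).mp (hv2.trans hv)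
      have ha₀ρ : a₀ ≤ ρ := by
        have h8 := hle x₀ hx₀.1
        have h9 := hUM x₀ hx₀.1
        have h10 : (1 - 1 / Real.log ρ) * ρ ≤ ρ := by
          have : 0 ≤ 1 / Real.log ρ * ρ := by
            rw [← hl]; positivity
          linarith
        linarith
      have hlow := hC.par.low
      rw [← hl] at hlow
      have e1 : Real.pi / 4 * ((a₀ + 2 * l) ^ 2 - a₀ ^ 2) = Real.pi * (l * (a₀ + l)) := by ring
      have e2 : 2 * Real.pi * ρ * (l - 3) = Real.pi * (2 * ρ * (l - 3)) := by ring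
      rw [e1] at hv3
      rw [e2] at hlow
      have h11 : 2 * ρ * (l - 3) ≤ l * (a₀ + l) := by
        by_contra hc
        rw [not_le] at hc
        nlinarith
      have h12 : l * (a₀ + l) ≤ l * (ρ + l) := by nlinarith
      have h13 : 4 * (1 + l + l ^ 2 / 2) ≤ (l - 6) * ρ := by nlinarith
      nlinarith
  · -- the component touches the disc
    obtain ⟨C, hC'⟩ := BL.lip_phi y ((1 - 1 / Real.log ρ) * ρ) ρ₀
    obtain ⟨ψ, hψL, hψU, hψ0⟩ := h1 G K x₀
      (fun x : E2 => max 0 (Real.exp (min ‖x - y‖ ((1 - 1 / Real.log ρ) * ρ) - ρ₀) - 1)) hG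
      isClosed_closedBall hx₀ ⟨C, hC'⟩ (fun x => le_max_left _ _) (by
        intro x hx
        rw [hK, mem_closedBall, dist_eq_norm] at hx
        refine max_eq_left ?_
        have : Real.exp (min ‖x - y‖ ((1 - 1 / Real.log ρ) * ρ) - ρ₀) ≤ 1 := by
          rw [Real.exp_le_one_iff]
          linarith [min_le_left ‖x - y‖ ((1 - 1 / Real.log ρ) * ρ)]
        linarith)
    have hlt := h6 k ρ G U y x₀ a b ρ₀ ψ hC.par.one_lt hC.par.rho hρ6 hG hUo hUcon
      (fun x hx => (hUG hx).1) hab hb hUc hρ₀ (fun x hx => ⟨hUK x hx, hUM x hx⟩) ?_ hxU hcon ?_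
      hψL ?_ ?_
    · exact absurd (hQ ψ hψL) (not_le.mpr hlt)
    · intro ε hε
      obtain ⟨x, hx, hxz⟩ := Metric.mem_closure_iff.mp hz ε hε
      refine ⟨x, hx, ?_⟩
      rw [hK, mem_closedBall, dist_eq_norm] at hzK
      have : ‖x - y‖ ≤ ‖x - z‖ + ‖z - y‖ := by
        have := norm_add_le (x - z) (z - y)
        rwa [sub_add_sub_cancel] at this
      rw [dist_comm, dist_eq_norm] at hxz
      linarith
    · rintro x ⟨hx1, hx2⟩
      refine hUf ⟨hx1, ?_⟩
      rw [hK, mem_closedBall, not_le, dist_eq_norm]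
      exact hx2
    · intro x hx
      rw [hψU x hx]
      rw [min_eq_left (hUM x hx), max_eq_right]
      have := Real.add_one_le_exp (‖x - y‖ - ρ₀)
      have h7 := hUK x hx
      linarith
    · have hsph : ∀ᵐ x : E2, x ∉ sphere y ρ₀ := by
        have : volume (sphere y ρ₀) = 0 := by
          rcases eq_or_ne ρ₀ 0 with h | h
          · rw [h, sphere_zero]
            exact measure_singleton y
          · exact Measure.addHaar_sphere_of_ne_zero volume y h
        exact measure_eq_zero_iff_ae_notMem.mp this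
      filter_upwards [hsph] with x hxs hxGU
      refine ⟨?_, hψ0 x hxGU⟩
      have hnb : ∃ W : Set E2, IsOpen W ∧ x ∈ W ∧ W ⊆ G \ U := by
        by_cases hxK : x ∈ K
        · refine ⟨G ∩ ball y ρ₀, hG.isOpen.inter isOpen_ball, ⟨hxGU.1, ?_⟩, ?_⟩
          · rw [hK, mem_closedBall] at hxK
            rw [mem_sphere] at hxs
            rw [mem_ball]
            exact lt_of_le_of_ne hxK hxs
          · rintro w ⟨hw1, hw2⟩
            exact ⟨hw1, fun hwU => (hUG hwU).2 (ball_subset_closedBall hw2)⟩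
        · refine ⟨(G \ K) \ closure U, (hG.isOpen.sdiff isClosed_closedBall).sdiff
            isClosed_closure, ⟨⟨hxGU.1, hxK⟩, ?_⟩, ?_⟩
          · intro hxc
            have hxf : x ∈ frontier U := by
              rw [hUo.frontier_eq]
              exact ⟨hxc, hxGU.2⟩
            have := hUf ⟨hxf, hxK⟩
            rw [hG.isOpen.frontier_eq] at this
            exact this.2 hxGU.1
          · rintro w ⟨⟨hw1, _⟩, hw2⟩
            exact ⟨hw1, fun hwU => hw2 (subset_closure hwU)⟩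
      obtain ⟨W, hWo, hxW, hWs⟩ := hnb
      have : ψ =ᶠ[𝓝 x] fun _ => 0 := by
        filter_upwards [hWo.mem_nhds hxW] with w hw
        exact hψ0 w (hWs hw)
      rw [this.fderiv_eq, fderiv_fun_const]
      rfl

end Pool.Agent.Robin

end

section

/-!
# MP_4b551e_an: number of boundary points on almost every line (item L1)
-/

open MeasureTheory Set Metric
open scoped ENNReal NNReal Pointwise RealInnerProductSpace

namespace Pool.Agent.Robin

namespace L1aux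

/-- `U` is before `t` and not after `t`. -/
def TR (U : Set ℝ) (t : ℝ) : Prop := ∃ δ > 0, ∀ τ, 0 < τ → τ < δ → t + τ ∉ U ∧ t - τ ∈ U

/-- `U` is after `t` and not before `t`. -/
def TL (U : Set ℝ) (t : ℝ) : Prop := ∃ δ > 0, ∀ τ, 0 < τ → τ < δ → t + τ ∈ U ∧ t - τ ∉ U

theorem not_both (U : Set ℝ) (t : ℝ) (h1 : TR U t) (h2 : TL U t) : False := by
  obtain ⟨d, hd, h⟩ := h1
  obtain ⟨d', hd', h'⟩ := h2
  have hm : 0 < min d d' / 2 := by positivity
  have h3 : min d d' / 2 < d := by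
    have := min_le_left d d'
    linarith
  have h4 : min d d' / 2 < d' := by
    have := min_le_right d d'
    linarith
  exact (h _ hm h3).1 (h' _ hm h4).1

theorem left_end (V : Set ℝ) (hV : IsOpen V) (M : ℝ) (hM : ∀ t ∈ V, |t| ≤ M) (z : ℝ)
    (hz : z ∈ V) : ∃ a, a < z ∧ a ∈ frontier V ∧ ∀ t, a < t → t ≤ z → t ∈ V := by
  classical
  have hcl : IsClosed (Vᶜ ∩ Iic z) := hV.isClosed_compl.inter isClosed_Iic
  have hne : (Vᶜ ∩ Iic z).Nonempty := by
    refine ⟨-M - 1, ?_, ?_⟩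
    · intro h
      have := hM _ h
      have h2 := abs_le.1 this
      linarith [h2.1]
    · have h2 := abs_le.1 (hM _ hz)
      simp only [mem_Iic]
      linarith [h2.1]
  have hbd : BddAbove (Vᶜ ∩ Iic z) := ⟨z, fun t ht => ht.2⟩
  have hmem := hcl.csSup_mem hne hbd
  set a := sSup (Vᶜ ∩ Iic z) with ha
  have haz : a < z := lt_of_le_of_ne hmem.2 (fun h => hmem.1 (h ▸ hz))
  have hin : ∀ t, a < t → t ≤ z → t ∈ V := by
    intro t h1 h2
    by_contra h3
    have := le_csSup hbd (show t ∈ Vᶜ ∩ Iic z from ⟨h3, h2⟩)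
    linarith
  refine ⟨a, haz, ?_, hin⟩
  rw [hV.frontier_eq]
  refine ⟨?_, hmem.1⟩
  rw [Metric.mem_closure_iff]
  intro ε hε
  refine ⟨a + min (ε / 2) (z - a), hin _ ?_ ?_, ?_⟩
  · have : 0 < min (ε / 2) (z - a) := lt_min (by linarith) (by linarith)
    linarith
  · have := min_le_right (ε / 2) (z - a)
    linarith
  · have h1 : 0 < min (ε / 2) (z - a) := lt_min (by linarith) (by linarith)
    have h2 := min_le_left (ε / 2) (z - a)
    rw [Real.dist_eq, abs_lt]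
    constructor <;> linarith

theorem right_end (V : Set ℝ) (hV : IsOpen V) (M : ℝ) (hM : ∀ t ∈ V, |t| ≤ M) (z : ℝ)
    (hz : z ∈ V) : ∃ b, z < b ∧ b ∈ frontier V ∧ ∀ t, z ≤ t → t < b → t ∈ V := by
  have hneg : IsOpen (Neg.neg ⁻¹' V) := hV.preimage continuous_neg
  obtain ⟨a, h1, h2, h3⟩ := left_end (Neg.neg ⁻¹' V) hneg M
    (fun t ht => by have := hM _ ht; rwa [abs_neg] at this) (-z) (by simpa using hz)
  refine ⟨-a, by linarith, ?_, ?_⟩
  · exact continuous_neg.frontier_preimage_subset V h2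
  · intro t h4 h5
    have := h3 (-t) (by linarith) (by linarith)
    simpa using this

theorem half {ι : Type*} (U E : Set ℝ) (V : ι → Set ℝ) (s : Finset ι)
    (hU : IsOpen U) (hUne : U.Nonempty) (hUb : ∃ M, ∀ t ∈ U, |t| ≤ M) (hfr : frontier U ⊆ E)
    (hty : ∀ t ∈ E, TR U t ∨ TL U t)
    (hVo : ∀ i ∈ s, IsOpen (V i)) (hVne : ∀ i ∈ s, (V i).Nonempty)
    (hVb : ∀ i ∈ s, ∃ M, ∀ t ∈ V i, |t| ≤ M) (hVf : ∀ i ∈ s, frontier (V i) ⊆ E)
    (hVU : ∀ i ∈ s, ∀ t ∈ V i, t ∉ U)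
    (hd : ∀ i ∈ s, ∀ j ∈ s, i ≠ j → ∀ t ∈ V i, t ∉ V j) :
    ((s.card + 1 : ℕ) : ℕ∞) ≤ {t ∈ E | TR U t}.encard := by
  classical
  have key : ∀ i : ι, ∃ a z b : ℝ, i ∈ s → a < z ∧ z < b ∧ a ∈ E ∧ b ∈ E ∧
      (∀ t, a < t → t < b → t ∈ V i) := by
    intro i
    by_cases hi : i ∈ s
    · obtain ⟨z, hz⟩ := hVne i hi
      obtain ⟨M, hM⟩ := hVb i hi
      obtain ⟨a, ha1, ha2, ha3⟩ := left_end (V i) (hVo i hi) M hM z hz
      obtain ⟨b, hb1, hb2, hb3⟩ := right_end (V i) (hVo i hi) M hM z hz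
      refine ⟨a, z, b, fun _ => ⟨ha1, hb1, hVf i hi ha2, hVf i hi hb2, ?_⟩⟩
      intro t h1 h2
      rcases le_total t z with h | h
      · exact ha3 t h1 h
      · exact hb3 t h h2
    · exact ⟨0, 0, 0, fun h => absurd h hi⟩
  choose a z b hab using key
  obtain ⟨MU, hMU⟩ := hUb
  have hbdd : BddAbove U := ⟨MU, fun t ht => (abs_le.1 (hMU t ht)).2⟩
  have heE : sSup U ∈ E := by
    apply hfr
    rw [hU.frontier_eq]
    refine ⟨csSup_mem_closure hUne hbdd, ?_⟩
    intro h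
    obtain ⟨b', h1, h2, h3⟩ := right_end U hU MU hMU _ h
    have := le_csSup hbdd (h3 ((sSup U + b') / 2) (by linarith) (by linarith))
    linarith
  have heR : TR U (sSup U) := by
    rcases hty _ heE with h | h
    · exact h
    · exfalso
      obtain ⟨δ, hδ, h⟩ := h
      have := le_csSup hbdd (h (δ / 2) (by linarith) (by linarith)).1
      linarith
  have haR : ∀ i ∈ s, TR U (a i) := by
    intro i hi
    obtain ⟨h1, h2, h3, h4, h5⟩ := hab i hi
    rcases hty _ h3 with h | h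
    · exact h
    · exfalso
      obtain ⟨δ, hδ, h⟩ := h
      have hm : 0 < min (δ / 2) (z i - a i) := lt_min (by linarith) (by linarith)
      have hm1 := min_le_left (δ / 2) (z i - a i)
      have hm2 := min_le_right (δ / 2) (z i - a i)
      have := (h _ hm (by linarith)).1
      exact hVU i hi _ (h5 _ (by linarith) (by linarith)) this
  have hbL : ∀ i ∈ s, TL U (b i) := by
    intro i hi
    obtain ⟨h1, h2, h3, h4, h5⟩ := hab i hi
    rcases hty _ h4 with h | h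
    · exfalso
      obtain ⟨δ, hδ, h⟩ := h
      have hm : 0 < min (δ / 2) (b i - z i) := lt_min (by linarith) (by linarith)
      have hm1 := min_le_left (δ / 2) (b i - z i)
      have hm2 := min_le_right (δ / 2) (b i - z i)
      have := (h _ hm (by linarith)).2
      exact hVU i hi _ (h5 _ (by linarith) (by linarith)) this
    · exact h
  have hane : ∀ i ∈ s, a i ≠ sSup U := by
    intro i hi he
    obtain ⟨h1, h2, h3, h4, h5⟩ := hab i hi
    obtain ⟨δ, hδ, h⟩ := hbL i hi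
    have := le_csSup hbdd (h (δ / 2) (by linarith) (by linarith)).1
    linarith
  have hainj : Set.InjOn a (s : Set ι) := by
    intro i hi j hj hij
    by_contra hne
    obtain ⟨h1, h2, h3, h4, h5⟩ := hab i hi
    obtain ⟨h1', h2', h3', h4', h5'⟩ := hab j hj
    have hm1 := min_le_left (z i) (z j)
    have hm2 := min_le_right (z i) (z j)
    have hm3 : a i < min (z i) (z j) := lt_min h1 (by rw [hij]; exact h1')
    exact hd i hi j hj hne (min (z i) (z j)) (h5 _ hm3 (by linarith))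
      (h5' _ (by rw [← hij]; exact hm3) (by linarith))
  have hsub : ((insert (sSup U) (s.image a) : Finset ℝ) : Set ℝ) ⊆ {t ∈ E | TR U t} := by
    intro t ht
    rw [Finset.coe_insert, Finset.coe_image] at ht
    rcases ht with h | ⟨i, hi, rfl⟩
    · rw [h]
      exact ⟨heE, heR⟩
    · exact ⟨(hab i hi).2.2.1, haR i hi⟩
  have hcard : (insert (sSup U) (s.image a) : Finset ℝ).card = s.card + 1 := by
    rw [Finset.card_insert_of_notMem, Finset.card_image_of_injOn hainj]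
    intro h
    rw [Finset.mem_image] at h
    obtain ⟨i, hi, h⟩ := h
    exact hane i hi h
  calc ((s.card + 1 : ℕ) : ℕ∞)
      = ((insert (sSup U) (s.image a) : Finset ℝ).card : ℕ∞) := by rw [hcard]
    _ = ((insert (sSup U) (s.image a) : Finset ℝ) : Set ℝ).encard :=
        (Set.encard_coe_eq_coe_finsetCard _).symm
    _ ≤ _ := Set.encard_le_encard hsub

theorem count {ι : Type*} (U E : Set ℝ) (V : ι → Set ℝ) (s : Finset ι)
    (hU : IsOpen U) (hUne : U.Nonempty) (hUb : ∃ M, ∀ t ∈ U, |t| ≤ M) (hfr : frontier U ⊆ E)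
    (hty : ∀ t ∈ E, TR U t ∨ TL U t)
    (hVo : ∀ i ∈ s, IsOpen (V i)) (hVne : ∀ i ∈ s, (V i).Nonempty)
    (hVb : ∀ i ∈ s, ∃ M, ∀ t ∈ V i, |t| ≤ M) (hVf : ∀ i ∈ s, frontier (V i) ⊆ E)
    (hVU : ∀ i ∈ s, ∀ t ∈ V i, t ∉ U)
    (hd : ∀ i ∈ s, ∀ j ∈ s, i ≠ j → ∀ t ∈ V i, t ∉ V j) :
    ((2 * (s.card + 1) : ℕ) : ℕ∞) ≤ E.encard := by
  have h1 := half U E V s hU hUne hUb hfr hty hVo hVne hVb hVf hVU hd
  have hRL : ∀ t, TR (Neg.neg ⁻¹' U) t ↔ TL U (-t) := by
    intro t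
    constructor
    · rintro ⟨δ, hδ, h⟩
      refine ⟨δ, hδ, fun τ h3 h4 => ?_⟩
      obtain ⟨h5, h6⟩ := h τ h3 h4
      simp only [mem_preimage] at h5 h6
      constructor
      · convert h6 using 1
        ring
      · convert h5 using 2
        ring
    · rintro ⟨δ, hδ, h⟩
      refine ⟨δ, hδ, fun τ h3 h4 => ?_⟩
      obtain ⟨h5, h6⟩ := h τ h3 h4
      simp only [mem_preimage]
      constructor
      · convert h6 using 2
        ring
      · convert h5 using 1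
        ring
  have hLR : ∀ t, TL (Neg.neg ⁻¹' U) t ↔ TR U (-t) := by
    intro t
    constructor
    · rintro ⟨δ, hδ, h⟩
      refine ⟨δ, hδ, fun τ h3 h4 => ?_⟩
      obtain ⟨h5, h6⟩ := h τ h3 h4
      simp only [mem_preimage] at h5 h6
      constructor
      · convert h6 using 2
        ring
      · convert h5 using 1
        ring
    · rintro ⟨δ, hδ, h⟩
      refine ⟨δ, hδ, fun τ h3 h4 => ?_⟩
      obtain ⟨h5, h6⟩ := h τ h3 h4
      simp only [mem_preimage]
      constructor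
      · convert h6 using 1
        ring
      · convert h5 using 2
        ring
  have h2 := half (Neg.neg ⁻¹' U) (Neg.neg ⁻¹' E) (fun i => Neg.neg ⁻¹' V i) s
    (hU.preimage continuous_neg)
    (by obtain ⟨x, hx⟩ := hUne; exact ⟨-x, by simpa using hx⟩)
    (by obtain ⟨M, hM⟩ := hUb; exact ⟨M, fun t ht => by have := hM _ ht; rwa [abs_neg] at this⟩)
    (fun t ht => hfr (continuous_neg.frontier_preimage_subset U ht))
    (fun t ht => by
      rcases hty _ ht with h | h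
      · exact Or.inr ((hLR t).2 h)
      · exact Or.inl ((hRL t).2 h))
    (fun i hi => (hVo i hi).preimage continuous_neg)
    (fun i hi => by obtain ⟨x, hx⟩ := hVne i hi; exact ⟨-x, by simpa using hx⟩)
    (fun i hi => by
      obtain ⟨M, hM⟩ := hVb i hi
      exact ⟨M, fun t ht => by have := hM _ ht; rwa [abs_neg] at this⟩)
    (fun i hi t ht => hVf i hi (continuous_neg.frontier_preimage_subset _ ht))
    (fun i hi t ht => hVU i hi _ ht)
    (fun i hi j hj hij t ht => hd i hi j hj hij _ ht)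
  have h3 : {t ∈ Neg.neg ⁻¹' E | TR (Neg.neg ⁻¹' U) t}.encard ≤ {t ∈ E | TL U t}.encard := by
    rw [← (neg_injective.injOn (s := {t ∈ Neg.neg ⁻¹' E | TR (Neg.neg ⁻¹' U) t})).encard_image]
    apply Set.encard_le_encard
    rintro _ ⟨t, ⟨ht1, ht2⟩, rfl⟩
    exact ⟨ht1, (hRL t).1 ht2⟩
  have h4 : Disjoint {t ∈ E | TR U t} {t ∈ E | TL U t} := by
    rw [Set.disjoint_left]
    intro t ht ht'
    exact not_both U t ht.2 ht'.2
  have h5 : {t ∈ E | TR U t}.encard + {t ∈ E | TL U t}.encard ≤ E.encard := by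
    rw [← Set.encard_union_eq h4]
    apply Set.encard_le_encard
    rintro t (h | h)
    · exact h.1
    · exact h.1
  calc ((2 * (s.card + 1) : ℕ) : ℕ∞)
      = ((s.card + 1 : ℕ) : ℕ∞) + ((s.card + 1 : ℕ) : ℕ∞) := by
        rw [two_mul, Nat.cast_add]
    _ ≤ {t ∈ E | TR U t}.encard + {t ∈ E | TL U t}.encard := add_le_add h1 (h2.trans h3)
    _ ≤ _ := h5

end L1aux

open L1aux in
theorem prn_L1 (hb1 : S_B1) (ht : S_Trans) (hk2 : T_K2) (hk3 : T_K3) : S_L1 := by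
  classical
  intro G ν F hG hν hF
  have hLip := hb1 G hG
  have hfrc : frontier Gᶜ = frontier G := frontier_compl G
  have hcomp : IsCompact (frontier Gᶜ) := by
    rw [hfrc]
    exact Metric.isCompact_of_isClosed_isBounded isClosed_frontier
      (hG.isBounded.closure.subset frontier_subset_closure)
  have hν2 : ν 0 ^ 2 + ν 1 ^ 2 = 1 := by
    have := EuclideanSpace.norm_sq_eq ν
    rw [hν] at this
    simp only [Fin.sum_univ_two, Real.norm_eq_abs, sq_abs] at this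
    linarith
  filter_upwards [ht Gᶜ ν hLip hcomp hν] with c hc hcG
  rw [hfrc] at hc
  obtain ⟨-, hty⟩ := hc
  set g : ℝ → E2 := fun t => c • ν + t • rot ν with hg
  have hgc : Continuous g := by
    rw [hg]
    fun_prop
  have hgν : ∀ t, ⟪g t, ν⟫ = c := by
    intro t
    simp only [hg, rot, inner_add_left, inner_smul_left, PiLp.inner_apply, Fin.sum_univ_two,
      RCLike.inner_apply, conj_trivial]
    simp
    linear_combination c * hν2
  have hgr : ∀ t, ⟪g t, rot ν⟫ = t := by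
    intro t
    simp only [hg, rot, inner_add_left, inner_smul_left, PiLp.inner_apply, Fin.sum_univ_two,
      RCLike.inner_apply, conj_trivial]
    simp
    linear_combination t * hν2
  have hsurj : ∀ x : E2, ⟪x, ν⟫ = c → ∃ t, g t = x := by
    intro x hx
    refine ⟨⟪x, rot ν⟫, ?_⟩
    simp only [hg]
    rw [← hx]
    ext i
    simp only [rot, PiLp.inner_apply, Fin.sum_univ_two,
      RCLike.inner_apply, conj_trivial]
    fin_cases i
    · simp
      linear_combination (x 0) * hν2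
    · simp
      linear_combination (x 1) * hν2
  have hrn : ‖rot ν‖ = 1 := by
    have h1 : ‖rot ν‖ ^ 2 = 1 := by
      rw [EuclideanSpace.norm_sq_eq]
      simp [rot, Fin.sum_univ_two]
      linarith
    have h2 : 0 ≤ ‖rot ν‖ := norm_nonneg _
    nlinarith
  have hgb : ∀ t, |t| ≤ ‖g t‖ := by
    intro t
    have := abs_real_inner_le_norm (g t) (rot ν)
    rw [hgr, hrn, mul_one] at this
    exact this
  have hbd : ∀ X : Set E2, Bornology.IsBounded X → ∃ M, ∀ t ∈ g ⁻¹' X, |t| ≤ M := by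
    intro X hX
    obtain ⟨M, hM⟩ := hX.exists_norm_le
    exact ⟨M, fun t ht' => (hgb t).trans (hM _ ht')⟩
  have hginj : Function.Injective g := by
    intro t t' h
    rw [← hgr t, ← hgr t', h]
  -- the pockets met by the line
  set s := F.filter (fun Q => c ∈ pj ν Q \ pj ν (mouth G Q)) with hs
  have hne : G.Nonempty := hG.isConnected.nonempty
  have hK2 : ∀ Q ∈ F, _ := fun Q hQ => hk2 G Q hG.isOpen hne hG.isBounded (hF Q hQ)
  have hmain := count (g ⁻¹' G) (g ⁻¹' frontier G) (fun Q => g ⁻¹' Q) s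
    (hG.isOpen.preimage hgc)
    (by
      obtain ⟨x, hx, hx2⟩ := hcG
      obtain ⟨t, rfl⟩ := hsurj x hx2
      exact ⟨t, hx⟩)
    (hbd G hG.isBounded)
    (hgc.frontier_preimage_subset G)
    (by
      intro t htE
      obtain ⟨e, δ, he, hδ, h⟩ := hty (g t) ⟨htE, hgν t⟩
      rcases he with rfl | rfl
      · left
        refine ⟨δ, hδ, fun τ h1 h2 => ?_⟩
        obtain ⟨h3, h4⟩ := h τ h1 h2
        have e1 : g t + τ • rot ν = g (t + τ) := by
          simp only [hg]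
          module
        have e2 : g t - τ • rot ν = g (t - τ) := by
          simp only [hg]
          module
        rw [e1] at h3
        rw [e2] at h4
        exact ⟨h3, by simpa using h4⟩
      · right
        refine ⟨δ, hδ, fun τ h1 h2 => ?_⟩
        obtain ⟨h3, h4⟩ := h τ h1 h2
        have e1 : g t + τ • -rot ν = g (t - τ) := by
          simp only [hg]
          module
        have e2 : g t - τ • -rot ν = g (t + τ) := by
          simp only [hg]
          module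
        rw [e1] at h3
        rw [e2] at h4
        exact ⟨by simpa using h4, h3⟩)
    (fun Q hQ => (hK2 Q (Finset.mem_filter.1 hQ).1).1.preimage hgc)
    (fun Q hQ => by
      obtain ⟨x, hx, hx2⟩ := (Finset.mem_filter.1 hQ).2.1
      obtain ⟨t, rfl⟩ := hsurj x hx2
      exact ⟨t, hx⟩)
    (fun Q hQ => by
      obtain ⟨-, h2, -, h4, -⟩ := hK2 Q (Finset.mem_filter.1 hQ).1
      exact hbd Q (h4.isBounded.subset (h2.trans (fun x hx => interior_subset hx.1))))
    (fun Q hQ t ht' => by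
      have h1 : g t ∈ frontier Q := hgc.frontier_preimage_subset Q ht'
      obtain ⟨-, -, -, -, -, -, -, h8, -⟩ := hK2 Q (Finset.mem_filter.1 hQ).1
      rcases h8 h1 with h | h
      · exact h
      · exact absurd (show c ∈ pj ν (mouth G Q) from ⟨g t, ⟨h1, h⟩, hgν t⟩)
          (Finset.mem_filter.1 hQ).2.2)
    (fun Q hQ t ht' h => by
      obtain ⟨-, h2, -⟩ := hK2 Q (Finset.mem_filter.1 hQ).1
      exact (h2 ht').2 (subset_closure h))
    (fun Q hQ Q' hQ' hne' t ht' h => by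
      have := (hk3 G Q Q' hG (hF Q (Finset.mem_filter.1 hQ).1)
        (hF Q' (Finset.mem_filter.1 hQ').1) hne').1
      exact Set.disjoint_left.1 this ht' h)
  have hsum : ∑ Q ∈ F, (pj ν Q \ pj ν (mouth G Q)).indicator (fun _ => (1 : ℝ≥0∞)) c =
      (s.card : ℝ≥0∞) := by
    rw [hs]
    simp only [Set.indicator_apply]
    rw [Finset.sum_boole]
  rw [hsum]
  have hle : (g ⁻¹' frontier G).encard ≤ (frontier G ∩ line ν c).encard := by
    rw [← (hginj.injOn (s := g ⁻¹' frontier G)).encard_image]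
    apply Set.encard_le_encard
    rintro _ ⟨t, ht', rfl⟩
    exact ⟨ht', hgν t⟩
  have hfin := hmain.trans hle
  have hcast : ((((2 * (s.card + 1) : ℕ) : ℕ∞)) : ℝ≥0∞) ≤
      (((frontier G ∩ line ν c).encard : ℕ∞) : ℝ≥0∞) := by
    exact_mod_cast hfin
  calc (2 : ℝ≥0∞) + 2 * (s.card : ℝ≥0∞) = ((((2 * (s.card + 1) : ℕ) : ℕ∞)) : ℝ≥0∞) := by
        push_cast
        ring
    _ ≤ crs (frontier G) ν c := hcast

end Pool.Agent.Robin

end
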